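import Mathlib

set_option autoImplicit false

namespace Pool.Agent.H73.AdPure

/-- Twisted cross product Lie algebra on triples over a field `Z`. -/
@[ext] structure Tw (Z : Type) [Field Z] (s t : Z) where
  x : Z
  y : Z
  z : Z

namespace Tw

variable {Z : Type} [Field Z] {s t : Z}

def equiv : Tw Z s t ≃ (Z × Z × Z) where
  toFun a := (a.x, a.y, a.z)
  invFun p := ⟨p.1, p.2.1, p.2.2⟩
  left_inv _ := rfl
  right_inv _ := rfl

instance : Zero (Tw Z s t) := ⟨⟨0, 0, 0⟩⟩
instance : Add (Tw Z s t) := ⟨fun a b => ⟨a.x + b.x, a.y + b.y, a.z + b.z⟩⟩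
instance : Neg (Tw Z s t) := ⟨fun a => ⟨-a.x, -a.y, -a.z⟩⟩
instance : SMul Z (Tw Z s t) := ⟨fun c a => ⟨c * a.x, c * a.y, c * a.z⟩⟩
instance : Bracket (Tw Z s t) (Tw Z s t) :=
  ⟨fun a b => ⟨a.y * b.z - a.z * b.y, s * (a.z * b.x - a.x * b.z), t * (a.x * b.y - a.y * b.x)⟩⟩

@[simp] lemma zero_x : (0 : Tw Z s t).x = 0 := rfl
@[simp] lemma zero_y : (0 : Tw Z s t).y = 0 := rfl
@[simp] lemma zero_z : (0 : Tw Z s t).z = 0 := rfl
@[simp] lemma add_x (a b : Tw Z s t) : (a + b).x = a.x + b.x := rfl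
@[simp] lemma add_y (a b : Tw Z s t) : (a + b).y = a.y + b.y := rfl
@[simp] lemma add_z (a b : Tw Z s t) : (a + b).z = a.z + b.z := rfl
@[simp] lemma neg_x (a : Tw Z s t) : (-a).x = -a.x := rfl
@[simp] lemma neg_y (a : Tw Z s t) : (-a).y = -a.y := rfl
@[simp] lemma neg_z (a : Tw Z s t) : (-a).z = -a.z := rfl
@[simp] lemma smul_x (c : Z) (a : Tw Z s t) : (c • a).x = c * a.x := rfl
@[simp] lemma smul_y (c : Z) (a : Tw Z s t) : (c • a).y = c * a.y := rfl
@[simp] lemma smul_z (c : Z) (a : Tw Z s t) : (c • a).z = c * a.z := rfl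
@[simp] lemma lie_x (a b : Tw Z s t) : (⁅a, b⁆).x = a.y * b.z - a.z * b.y := rfl
@[simp] lemma lie_y (a b : Tw Z s t) : (⁅a, b⁆).y = s * (a.z * b.x - a.x * b.z) := rfl
@[simp] lemma lie_z (a b : Tw Z s t) : (⁅a, b⁆).z = t * (a.x * b.y - a.y * b.x) := rfl

instance : AddCommGroup (Tw Z s t) where
  add_assoc a b c := by ext <;> simp [add_assoc]
  zero_add a := by ext <;> simp
  add_zero a := by ext <;> simp
  add_comm a b := by ext <;> simp [add_comm]
  neg_add_cancel a := by ext <;> simp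
  nsmul := nsmulRec
  zsmul := zsmulRec

instance : Module Z (Tw Z s t) where
  one_smul a := by ext <;> simp
  mul_smul a b c := by ext <;> simp [mul_assoc]
  smul_zero a := by ext <;> simp
  smul_add a b c := by ext <;> simp [mul_add]
  add_smul a b c := by ext <;> simp [add_mul]
  zero_smul a := by ext <;> simp

instance : LieRing (Tw Z s t) where
  add_lie a b c := by ext <;> simp <;> ring
  lie_add a b c := by ext <;> simp <;> ring
  lie_self a := by ext <;> simp <;> first | ring1 | (right; ring1)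
  leibniz_lie a b c := by ext <;> simp <;> ring

instance : LieAlgebra Z (Tw Z s t) where
  lie_smul c a b := by ext <;> simp <;> ring

/-- the invariant form -/
def B (a b : Tw Z s t) : Z := s * t * a.x * b.x + t * a.y * b.y + s * a.z * b.z

lemma lie_lie' (a b : Tw Z s t) : ⁅a, ⁅a, b⁆⁆ = B a b • a + (-B a a) • b := by
  ext <;> simp [B] <;> ring

lemma B_lie (a b : Tw Z s t) : B a ⁅a, b⁆ = 0 := by
  simp [B]; ring

lemma B_lie' (a b : Tw Z s t) (c : Z) : B ⁅a, b⁆ (c • a) = 0 := by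
  simp [B]; ring

section Q
variable [Algebra ℚ Z]

noncomputable instance : Module ℚ (Tw Z s t) := Module.compHom _ (algebraMap ℚ Z)

lemma qsmul (q : ℚ) (a : Tw Z s t) : q • a = (algebraMap ℚ Z q) • a := rfl

instance : IsScalarTower ℚ Z (Tw Z s t) where
  smul_assoc q c a := by rw [qsmul, Algebra.smul_def, mul_smul]

noncomputable instance : LieAlgebra ℚ (Tw Z s t) where
  lie_smul q a b := by rw [qsmul, qsmul, lie_smul]

omit [Algebra ℚ Z] in
theorem exists_lie_ne (hs : s ≠ 0) (ht : t ≠ 0) (a : Tw Z s t) (ha : a ≠ 0) :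
    ∃ b : Tw Z s t, ⁅a, b⁆ ≠ 0 := by
  by_contra! h
  apply ha
  have h1 := congrArg Tw.y (h ⟨1, 0, 0⟩)
  have h2 := congrArg Tw.z (h ⟨1, 0, 0⟩)
  have h3 := congrArg Tw.z (h ⟨0, 1, 0⟩)
  simp [hs, ht] at h1 h2 h3
  ext <;> simp [h1, h2, h3]

theorem simple (hs : s ≠ 0) (ht : t ≠ 0) (hB : ∀ a : Tw Z s t, a ≠ 0 → B a a ≠ 0) :
    LieAlgebra.IsSimple ℚ (Tw Z s t) where
  eq_bot_or_eq_top I := by
    by_cases hI : I = ⊥
    · exact Or.inl hI
    right
    obtain ⟨a, haI, ha⟩ : ∃ a ∈ I, a ≠ 0 := by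
      by_contra! h
      exact hI ((LieSubmodule.eq_bot_iff I).2 h)
    have hmul : ∀ c : Z, c • a ∈ I := by
      intro c
      obtain ⟨b, hb⟩ := exists_lie_ne hs ht a ha
      have hw : ⁅a, b⁆ ∈ I := lie_mem_left ℚ _ I _ _ haI
      have h1 := hB _ hb
      have h2 : ⁅⁅a, b⁆, ⁅⁅a, b⁆, (-(c / B ⁅a, b⁆ ⁅a, b⁆)) • a⁆⁆ ∈ I := lie_mem_left ℚ _ I _ _ hw
      rw [lie_lie', B_lie', zero_smul, zero_add, smul_smul] at h2
      convert h2 using 2
      field_simp
    rw [eq_top_iff]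
    intro z _
    have h1 := hB _ ha
    have h2 : ⁅a, ⁅a, (-(B a a)⁻¹) • z⁆⁆ ∈ I := lie_mem_left ℚ _ I _ _ haI
    rw [lie_lie', smul_smul] at h2
    have h3 := I.sub_mem h2 (hmul (B a ((-(B a a)⁻¹) • z)))
    rw [add_sub_cancel_left] at h3
    have : -B a a * -(B a a)⁻¹ = 1 := by field_simp
    rwa [this, one_smul] at h3
  non_abelian h := by
    obtain ⟨b, hb⟩ := exists_lie_ne hs ht (⟨1, 0, 0⟩ : Tw Z s t) (by
      intro h; have := congrArg Tw.x h; simp at this)
    exact hb (h.trivial _ _)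

theorem pure (hB : ∀ a : Tw Z s t, a ≠ 0 → Transcendental ℚ (B a a))
    (a : Tw Z s t) (V : Submodule ℚ (Tw Z s t)) (hV : FiniteDimensional ℚ V)
    (hinv : ∀ v ∈ V, ⁅a, v⁆ ∈ V) : ∀ v ∈ V, ⁅a, v⁆ = 0 := by
  intro v hv
  by_contra hw
  have ha : a ≠ 0 := by rintro rfl; simp at hw
  set μ : Z := -B a a with hμ
  have htr : Transcendental ℚ μ := by
    intro h; exact hB a ha (by simpa [hμ] using h.neg)
  have key : ∀ n : ℕ, ∃ u ∈ V, μ ^ n • ⁅a, v⁆ = ⁅a, u⁆ := by
    intro n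
    induction n with
    | zero => exact ⟨v, hv, by simp⟩
    | succ n ih =>
      obtain ⟨u, hu, h⟩ := ih
      refine ⟨⁅a, ⁅a, u⁆⁆, hinv _ (hinv _ hu), ?_⟩
      rw [lie_lie' a ⁅a, u⁆, B_lie, zero_smul, zero_add, ← h, smul_smul, pow_succ']
  have hmem : ∀ p : Polynomial ℚ, (Polynomial.aeval μ p) • ⁅a, v⁆ ∈ V := by
    intro p
    induction p using Polynomial.induction_on' with
    | add p q hp hq => rw [map_add, add_smul]; exact V.add_mem hp hq
    | monomial n c =>
      rw [Polynomial.aeval_monomial, mul_smul, ← qsmul]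
      obtain ⟨u, hu, h⟩ := key n
      rw [h]
      exact V.smul_mem _ (hinv _ hu)
  let f : Polynomial ℚ →ₗ[ℚ] V :=
    { toFun := fun p => ⟨_, hmem p⟩
      map_add' := fun p q => by ext1; simp [add_smul]
      map_smul' := fun c p => by ext1; simp [smul_assoc] }
  have hf : Function.Injective f := by
    rw [injective_iff_map_eq_zero]
    intro p hp
    have h1 : (Polynomial.aeval μ p) • ⁅a, v⁆ = 0 := congrArg Subtype.val hp
    rcases smul_eq_zero.1 h1 with h | h
    · by_contra hp0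
      exact htr ⟨p, hp0, h⟩
    · exact absurd h hw
  have : FiniteDimensional ℚ (Polynomial ℚ) := FiniteDimensional.of_injective f hf
  exact Polynomial.not_finite this

end Q

end Tw

abbrev G := Lex (ℤ × ℤ)
abbrev Z := HahnSeries G ℚ

noncomputable def s0 : Z := HahnSeries.single (toLex (1, 0)) 1
noncomputable def t0 : Z := HahnSeries.single (toLex (0, 1)) 1

lemma s0_ne : s0 ≠ 0 := by simp [s0]
lemma t0_ne : t0 ≠ 0 := by simp [t0]

lemma trans_of_order (μ : Z) (h0 : μ ≠ 0) (h : μ.order ≠ 0) : Transcendental ℚ μ := by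
  let v := AddValuation.toValuation (HahnSeries.addVal G ℚ)
  have : v.IsTrivialOn ℚ := ⟨fun a ha => by
    change HahnSeries.addVal G ℚ (algebraMap ℚ Z a) = 0
    rw [HahnSeries.addVal_apply]
    have : algebraMap ℚ Z a = HahnSeries.single 0 a := by
      rw [Subsingleton.elim (algebraMap ℚ Z) HahnSeries.C]; rfl
    rw [this, HahnSeries.orderTop_single ha]; rfl⟩
  refine Valuation.transcendental_of_ne_one ℚ (v := v) μ h0 ?_
  intro h1
  change HahnSeries.addVal G ℚ μ = 0 at h1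
  rw [HahnSeries.addVal_apply_of_ne h0] at h1
  exact h (by exact_mod_cast h1)

/-- parity class of the order -/
def par (g : G) : ZMod 2 × ZMod 2 := (((ofLex g).1 : ZMod 2), ((ofLex g).2 : ZMod 2))

lemma par_add (g h : G) : par (g + h) = par g + par h := by
  simp [par]

lemma par_two (g : G) : par g + par g = 0 := by
  ext <;> simp [par, CharTwo.add_self_eq_zero]

/-- `P S μ`: either zero or parity class in `S` -/
def P (S : Set (ZMod 2 × ZMod 2)) (μ : Z) : Prop := μ ≠ 0 → par μ.order ∈ S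

lemma P_term (c a : Z) (hc : c ≠ 0) : P {par c.order} (c * a * a) := by
  intro h
  have ha : a ≠ 0 := by rintro rfl; simp at h
  rw [HahnSeries.order_mul (mul_ne_zero hc ha) ha, HahnSeries.order_mul hc ha, par_add, par_add,
    add_assoc, par_two, add_zero]
  rfl

lemma add_case (a b : Z) (ha : a ≠ 0) (hb : b ≠ 0) (h : a.order ≠ b.order) :
    a + b ≠ 0 ∧ ((a + b).order = a.order ∨ (a + b).order = b.order) := by
  have hne : a + b ≠ 0 := by
    intro h0
    have : a = -b := eq_neg_of_add_eq_zero_left h0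
    apply h; rw [this, HahnSeries.order_neg]
  refine ⟨hne, ?_⟩
  have h1 : a.orderTop ≠ b.orderTop := by
    rw [← HahnSeries.order_eq_orderTop_of_ne_zero ha, ← HahnSeries.order_eq_orderTop_of_ne_zero hb]
    exact_mod_cast h
  rcases lt_or_gt_of_ne h1 with h2 | h2
  · left
    have := HahnSeries.orderTop_add_eq_left h2
    rw [← HahnSeries.order_eq_orderTop_of_ne_zero ha,
      ← HahnSeries.order_eq_orderTop_of_ne_zero hne] at this
    exact_mod_cast this
  · right
    have := HahnSeries.orderTop_add_eq_right h2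
    rw [← HahnSeries.order_eq_orderTop_of_ne_zero hb,
      ← HahnSeries.order_eq_orderTop_of_ne_zero hne] at this
    exact_mod_cast this

lemma P_add {S T : Set (ZMod 2 × ZMod 2)} (hST : Disjoint S T) {a b : Z} (ha : P S a) (hb : P T b) :
    P (S ∪ T) (a + b) ∧ (a + b = 0 → a = 0 ∧ b = 0) := by
  by_cases h1 : a = 0
  · subst h1
    exact ⟨fun h => Or.inr (by simpa using hb (by simpa using h)), fun h => ⟨rfl, by simpa using h⟩⟩
  by_cases h2 : b = 0
  · subst h2
    exact ⟨fun h => Or.inl (by simpa using ha h1), fun h => ⟨by simpa using h, rfl⟩⟩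
  have h3 : a.order ≠ b.order := by
    intro h
    exact Set.disjoint_left.1 hST (ha h1) (h ▸ hb h2)
  obtain ⟨h4, h5⟩ := add_case a b h1 h2 h3
  refine ⟨fun _ => ?_, fun h => absurd h h4⟩
  rcases h5 with h5 | h5
  · exact Or.inl (h5 ▸ ha h1)
  · exact Or.inr (h5 ▸ hb h2)

lemma par_s0 : par s0.order = (1, 0) := by
  rw [s0, HahnSeries.order_single one_ne_zero]; rfl
lemma par_t0 : par t0.order = (0, 1) := by
  rw [t0, HahnSeries.order_single one_ne_zero]; rfl
lemma par_st : par (s0 * t0).order = (1, 1) := by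
  rw [HahnSeries.order_mul s0_ne t0_ne, par_add, par_s0, par_t0]; rfl

lemma B_good (a : Tw Z s0 t0) (ha : a ≠ 0) : Tw.B a a ≠ 0 ∧ (Tw.B a a).order ≠ 0 := by
  have h1 := P_term (s0 * t0) a.x (mul_ne_zero s0_ne t0_ne)
  have h2 := P_term t0 a.y t0_ne
  have h3 := P_term s0 a.z s0_ne
  rw [par_st] at h1; rw [par_t0] at h2; rw [par_s0] at h3
  obtain ⟨h4, h5⟩ := P_add (by simp) h1 h2
  obtain ⟨h6, h7⟩ := P_add (by simp) h4 h3
  have hne : Tw.B a a ≠ 0 := by
    intro h
    obtain ⟨h8, h9⟩ := h7 h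
    obtain ⟨h10, h11⟩ := h5 h8
    apply ha
    have := s0_ne
    have := t0_ne
    ext1 <;> simp_all
  refine ⟨hne, fun h => ?_⟩
  have h8 := h6 hne
  change par (Tw.B a a).order ∈ _ at h8
  rw [h] at h8
  revert h8
  simp [par]

theorem main :
    ∃ (K : Type) (_ : Field K) (L : Type) (_ : LieRing L) (_ : LieAlgebra K L),
      LieAlgebra.IsSimple K L ∧
      ∀ a : L, ∀ V : Submodule K L, FiniteDimensional K V →
        (∀ v ∈ V, ⁅a, v⁆ ∈ V) → ∀ v ∈ V, ⁅a, v⁆ = 0 :=
  ⟨ℚ, inferInstance, Tw Z s0 t0, inferInstance, inferInstance,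
    Tw.simple s0_ne t0_ne (fun a ha => (B_good a ha).1),
    Tw.pure (fun a ha => trans_of_order _ (B_good a ha).1 (B_good a ha).2)⟩

end Pool.Agent.H73.AdPure
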