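import Mathlib

namespace Pool.Agent.H73.AmalgDefs

universe u

/-- embedding of lattice-ordered groups (written additively, not assumed commutative) -/
def IsLEmb {G H : Type*} [AddGroup G] [Lattice G] [AddGroup H] [Lattice H] (f : G →+ H) : Prop :=
  Function.Injective f ∧ (∀ x y, f (x ⊓ y) = f x ⊓ f y) ∧ (∀ x y, f (x ⊔ y) = f x ⊔ f y)

/-- `A` is an amalgamation base for the class of all lattice-ordered groups -/
def IsAmalgBase (A : Type) [AddGroup A] [Lattice A] : Prop :=
  ∀ (B C : Type) [AddGroup B] [Lattice B] [AddLeftMono B] [AddRightMono B]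
    [AddGroup C] [Lattice C] [AddLeftMono C] [AddRightMono C] (f : A →+ B) (g : A →+ C),
    IsLEmb f → IsLEmb g →
    ∃ (D : Type u) (_ : AddGroup D) (_ : Lattice D) (_ : AddLeftMono D) (_ : AddRightMono D)
      (f' : B →+ D) (g' : C →+ D), IsLEmb f' ∧ IsLEmb g' ∧ f'.comp f = g'.comp g

end Pool.Agent.H73.AmalgDefs
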