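import Pool.Agent.H73.LGrp
import Pool.Agent.H73.AmalgDefs

namespace Pool.Agent.H73.Amalg

open Pool.Agent.H73.LGrp Pool.Agent.H73.AmalgDefs

universe u

section

variable {G H : Type*} [AddGroup G] [Lattice G] [AddLeftMono G] [AddRightMono G]
  [AddGroup H] [Lattice H] [AddLeftMono H] [AddRightMono H]

theorem lemb_of_pos (f : G →+ H) (h : ∀ u, f (u ⊔ 0) = f u ⊔ 0)
    (hi : ∀ u, 0 ≤ u → f u = 0 → u = 0) : IsLEmb f := by
  have hs : ∀ x y, f (x ⊔ y) = f x ⊔ f y := by
    intro x y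
    have h1 : x ⊔ y = ((x + -y) ⊔ 0) + y := by rw [sup_add]; simp
    rw [h1, map_add, h, sup_add]; simp
  refine ⟨(injective_iff_map_eq_zero f).mpr (fun u hu => ?_), fun x y => ?_, hs⟩
  · have h1 := hi (u ⊔ 0) le_sup_right (by rw [h, hu]; simp)
    have h2 := hi (-u ⊔ 0) le_sup_right (by rw [h, map_neg, hu]; simp)
    exact le_antisymm (sup_eq_right.mp h1) (neg_nonpos.mp (sup_eq_right.mp h2))
  · have h1 : x ⊓ y = -(-x ⊔ -y) := by rw [neg_sup]; simp
    rw [h1, map_neg, hs, neg_sup]; simp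

omit [AddLeftMono G] [AddRightMono G] [AddLeftMono H] [AddRightMono H] in
theorem lemb_mono {f : G →+ H} (h : IsLEmb f) {x y : G} (hxy : x ≤ y) : f x ≤ f y := by
  rw [← sup_eq_right] at hxy ⊢
  rw [← h.2.2, hxy]

omit [AddLeftMono G] [AddRightMono G] [AddLeftMono H] [AddRightMono H] in
theorem lemb_disj {f : G →+ H} (h : IsLEmb f) {x y : G} (hxy : x ⊓ y = 0) : f x ⊓ f y = 0 := by
  rw [← h.2.1, hxy, map_zero]

theorem emb1 {a b : H} (hab : a ⊓ b = 0) (ha : a ≠ 0) (hb : b ≠ 0) :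
    ∃ f : ℤ × ℤ →+ H, IsLEmb f ∧ f (1, 0) = a ∧ f (0, 1) = b := by
  have hc : AddCommute a b := comm_of_disj hab
  have ha0 : 0 ≤ a := hab ▸ inf_le_left
  have hb0 : 0 ≤ b := hab ▸ inf_le_right
  let f : ℤ × ℤ →+ H := AddMonoidHom.noncommCoprod (zmultiplesHom H a) (zmultiplesHom H b)
    (fun m n => hc.zsmul_zsmul m n)
  have hf : ∀ m n : ℤ, f (m, n) = m • a + n • b := fun m n => rfl
  refine ⟨f, lemb_of_pos f ?_ ?_, by simp [hf], by simp [hf]⟩
  · rintro ⟨m, n⟩
    have e : ((m, n) : ℤ × ℤ) ⊔ 0 = (m ⊔ 0, n ⊔ 0) := rfl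
    rw [e, hf, hf]
    obtain ⟨m, rfl | rfl⟩ := Int.eq_nat_or_neg m <;>
      obtain ⟨n, rfl | rfl⟩ := Int.eq_nat_or_neg n
    · rw [sup_eq_left.mpr (Int.natCast_nonneg m), sup_eq_left.mpr (Int.natCast_nonneg n)]
      refine (sup_eq_left.mpr ?_).symm
      simpa using add_nonneg (nsmul_nonneg ha0 m) (nsmul_nonneg hb0 n)
    · rw [sup_eq_left.mpr (Int.natCast_nonneg m), sup_eq_right.mpr (by omega : -(n : ℤ) ≤ 0)]
      simpa using (pos_of_disj (nsmul_disj2 hab m n)).symm
    · rw [sup_eq_left.mpr (Int.natCast_nonneg n), sup_eq_right.mpr (by omega : -(m : ℤ) ≤ 0),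
        (hc.zsmul_zsmul (-(m : ℤ)) n).eq]
      have h1 : b ⊓ a = 0 := by rw [inf_comm]; exact hab
      simpa using (pos_of_disj (nsmul_disj2 h1 n m)).symm
    · rw [sup_eq_right.mpr (by omega : -(n : ℤ) ≤ 0), sup_eq_right.mpr (by omega : -(m : ℤ) ≤ 0)]
      simp only [zero_zsmul, add_zero, neg_zsmul, natCast_zsmul]
      exact (sup_eq_right.mpr (add_nonpos (neg_nonpos.mpr (nsmul_nonneg ha0 m))
        (neg_nonpos.mpr (nsmul_nonneg hb0 n)))).symm
  · rintro ⟨m, n⟩ ⟨hm, hn⟩ h0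
    obtain ⟨m, rfl⟩ := Int.eq_ofNat_of_zero_le hm
    obtain ⟨n, rfl⟩ := Int.eq_ofNat_of_zero_le hn
    rw [hf, natCast_zsmul, natCast_zsmul] at h0
    have h1 : m • a ≤ 0 := h0 ▸ le_add_of_nonneg_right (nsmul_nonneg hb0 n)
    have h2 : n • b ≤ 0 := h0 ▸ le_add_of_nonneg_left (nsmul_nonneg ha0 m)
    have key : ∀ (c : H) (k : ℕ), 0 ≤ c → c ≠ 0 → k • c ≤ 0 → k = 0 := by
      intro c k hc0 hc hk
      cases k with
      | zero => rfl
      | succ k =>
        rw [succ_nsmul] at hk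
        exact absurd (le_antisymm ((le_add_of_nonneg_left (nsmul_nonneg hc0 k)).trans hk) hc0) hc
    rw [key a m ha0 ha h1, key b n hb0 hb h2]
    rfl

theorem emb2 {a b : H} (hc : AddCommute a b) (ha : 0 < a) (hab : ∀ n : ℤ, n • a ≤ b) :
    ∃ f : ℤ ×ₗ ℤ →+ H, IsLEmb f ∧ f (toLex (1, 0)) = b ∧ f (toLex (0, 1)) = a := by
  let f0 : ℤ × ℤ →+ H := AddMonoidHom.noncommCoprod (zmultiplesHom H b) (zmultiplesHom H a)
    (fun m n => hc.symm.zsmul_zsmul m n)
  let f : ℤ ×ₗ ℤ →+ H := AddMonoidHom.mk' (fun u => f0 (ofLex u)) (fun u v => map_add f0 _ _)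
  have hf : ∀ m n : ℤ, f (toLex (m, n)) = m • b + n • a := fun m n => rfl
  have hb0 : 0 ≤ b := by simpa using hab 0
  have hpos : ∀ u, 0 < u → 0 < f u := by
    intro u hu
    obtain ⟨⟨m, n⟩, rfl⟩ := toLex.surjective u
    rw [hf]
    have hu' : toLex ((0 : ℤ), (0 : ℤ)) < toLex (m, n) := hu
    rcases Prod.Lex.toLex_lt_toLex.mp hu' with h | ⟨h1, h2⟩
    · obtain ⟨k, rfl⟩ : ∃ k : ℕ, m = k + 1 := ⟨(m - 1).toNat, by simp only at h; omega⟩
      have h3 : a ≤ b + n • a := by
        have h4 := add_le_add_left (hab (1 + -n)) (n • a)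
        rwa [← add_zsmul, neg_add_cancel_right, one_zsmul] at h4
      rw [add_zsmul, one_zsmul, natCast_zsmul, add_assoc]
      exact lt_of_lt_of_le ha (h3.trans (le_add_of_nonneg_left (nsmul_nonneg hb0 k)))
    · simp only at h1 h2
      subst h1
      obtain ⟨k, rfl⟩ : ∃ k : ℕ, n = k + 1 := ⟨(n - 1).toNat, by omega⟩
      rw [zero_zsmul, zero_add, add_zsmul, one_zsmul, natCast_zsmul]
      exact lt_of_lt_of_le ha (le_add_of_nonneg_left (nsmul_nonneg ha.le k))
  refine ⟨f, lemb_of_pos f ?_ ?_, by simp [hf], by simp [hf]⟩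
  · intro u
    rcases lt_trichotomy u 0 with h | rfl | h
    · have h1 := hpos (-u) (neg_pos.mpr h)
      rw [map_neg] at h1
      rw [sup_eq_right.mpr h.le, map_zero, sup_eq_right.mpr (neg_pos.mp h1).le]
    · simp
    · rw [sup_eq_left.mpr h.le, sup_eq_left.mpr (hpos u h).le]
  · intro u hu h0
    by_contra hne
    exact (hpos u (lt_of_le_of_ne hu (Ne.symm hne))).ne' h0

end

open AutR Real

theorem lip_pos (c : ℝ) (hc : |c| = 1) (s t : ℝ) :
    |max (c * sin s) 0 - max (c * sin t) 0| ≤ |s - t| := by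
  refine (abs_max_sub_max_le_abs _ _ _).trans ?_
  rw [← mul_sub, abs_mul, hc, one_mul]
  exact abs_sin_sub_sin_le s t

theorem dataB1 : ∃ a b p : AutR, a ⊓ b = 0 ∧ b ≠ 0 ∧ b ≤ p ∧ p + b + -p ≤ a ∧
    (p + p) + b + -(p + p) ≤ b := by
  have hpi := pi_gt_three
  refine ⟨lip _ (lip_pos (-1) (by simp)), lip _ (lip_pos 1 (by simp)), aff 1 π one_pos,
    ?_, ?_, ?_, ?_, ?_⟩
  · ext x
    simp only [inf_e, lip_e, zero_e]
    rcases le_total (sin x) 0 with h | h
    · rw [max_eq_right (by linarith : 1 * sin x ≤ 0), min_eq_right]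
      · simp
      · have := le_max_right (-1 * sin x) 0; linarith
    · rw [max_eq_right (by linarith : -1 * sin x ≤ 0), min_eq_left]
      · simp
      · have := le_max_right (1 * sin x) 0; linarith
  · intro h
    have := congrArg (fun g : AutR => g.e (π / 2)) h
    simp at this
  · intro x
    simp only [lip_e, aff_e]
    have := max_le (a := 1 * sin x) (b := 0) (c := 1) (by linarith [sin_le_one x]) zero_le_one
    linarith
  · rw [add_neg_le_iff_le_add]
    intro x
    simp only [add_e, lip_e, aff_e, one_mul, sin_add_pi, neg_mul, neg_neg]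
    linarith
  · rw [add_neg_le_iff_le_add]
    intro x
    simp only [add_e, lip_e, aff_e, one_mul, sin_add_pi, neg_neg]
    linarith

/-- a bump on the interval from `u` to `v` with slope `s` -/
noncomputable def bump (u v s : ℝ) (hs : 0 < s) : AutR :=
  (aff s (u - s * u) hs ⊓ aff s⁻¹ (v - s⁻¹ * v) (inv_pos.mpr hs)) ⊔ 0

theorem bump_e (u v s : ℝ) (hs : 0 < s) (x : ℝ) :
    (bump u v s hs).e x = max (min (s * x + (u - s * u)) (s⁻¹ * x + (v - s⁻¹ * v))) x := rfl

theorem dataC1 : ∃ a b x y : AutR, a ⊓ b = 0 ∧ a ≠ 0 ∧ b ≠ 0 ∧ a ≤ x ∧ x ⊓ b = 0 ∧ b ≤ y ∧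
    y ⊓ a = 0 ∧ a + (x + y) ≤ (x + y) + b := by
  refine ⟨bump 8 12 2 two_pos, bump 0 4 2 two_pos, bump 4 16 4 four_pos, bump 0 8 4 four_pos,
    ?_, ?_, ?_, ?_, ?_, ?_, ?_, ?_⟩
  · ext t
    simp only [inf_e, bump_e, zero_e, max_def, min_def]
    split_ifs <;> linarith
  · intro h
    have := congrArg (fun g : AutR => g.e 9) h
    simp only [bump_e, zero_e] at this
    norm_num at this
  · intro h
    have := congrArg (fun g : AutR => g.e 1) h
    simp only [bump_e, zero_e] at this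
    norm_num at this
  · intro t
    simp only [bump_e, max_def, min_def]
    split_ifs <;> linarith
  · ext t
    simp only [inf_e, bump_e, zero_e, max_def, min_def]
    split_ifs <;> linarith
  · intro t
    simp only [bump_e, max_def, min_def]
    split_ifs <;> linarith
  · ext t
    simp only [inf_e, bump_e, zero_e, max_def, min_def]
    split_ifs <;> linarith
  · intro t
    set w := bump 4 16 4 four_pos + bump 0 8 4 four_pos with hw
    have w1 : w.e (5 / 4) = 8 := by simp only [hw, add_e, bump_e]; norm_num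
    have w2 : w.e (3 / 2) = 12 := by simp only [hw, add_e, bump_e]; norm_num
    clear_value w
    rw [add_e, add_e]
    have hb : t ≤ (bump 0 4 2 two_pos).e t := le_max_right _ _
    have hwt := w.e.monotone hb
    rcases le_total t (5 / 4) with h | h
    · have h1 := w.e.monotone h
      rw [w1] at h1
      refine le_trans ?_ hwt
      generalize w.e t = z at h1 ⊢
      simp only [bump_e, max_def, min_def]
      split_ifs <;> linarith
    · have h2 : 3 / 2 ≤ (bump 0 4 2 two_pos).e t := by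
        simp only [bump_e, max_def, min_def]
        split_ifs <;> linarith
      have h3 := w.e.monotone h2
      rw [w2] at h3
      generalize w.e ((bump 0 4 2 two_pos).e t) = z' at h3 hwt ⊢
      generalize w.e t = z at hwt ⊢
      simp only [bump_e, max_def, min_def]
      split_ifs <;> linarith

instance : AddLeftMono (AutR × ℤ) :=
  ⟨fun c _ _ h => ⟨add_le_add_right h.1 c.1, add_le_add_right h.2 c.2⟩⟩
instance : AddRightMono (AutR × ℤ) :=
  ⟨fun c _ _ h => ⟨add_le_add_left h.1 c.1, add_le_add_left h.2 c.2⟩⟩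

theorem not_base1 : ¬ IsAmalgBase.{u} (ℤ × ℤ) := by
  intro h
  obtain ⟨a, b, p, hab, hb, hbp, h1, h2⟩ := dataB1
  obtain ⟨a', b', x, y, hab', ha', hb', hax, hxb, hby, hya, h3⟩ := dataC1
  have ha0 : 0 ≤ a := hab ▸ inf_le_left
  have hb0 : 0 ≤ b := hab ▸ inf_le_right
  obtain ⟨f, hf, f1, f2⟩ := emb1 (H := AutR × ℤ) (a := (a, 1)) (b := (b, 0))
    (Prod.ext hab (by simp)) (by simp) (by simp [hb])
  obtain ⟨g, hg, g1, g2⟩ := emb1 hab' ha' hb'
  obtain ⟨D, _, _, _, _, f', g', hf', hg', he⟩ := h _ _ f g hf hg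
  have ea : f' (a, 1) = g' a' := by rw [← f1, ← g1]; exact DFunLike.congr_fun he _
  have eb : f' (b, 0) = g' b' := by rw [← f2, ← g2]; exact DFunLike.congr_fun he _
  have key : f' (0, 1) ≤ 0 := by
    refine obstruction1 (a := f' (a, 1)) (b := f' (b, 0)) (p := f' (p, 0)) (x := g' x) (y := g' y)
      (lemb_mono hf' ⟨ha0, le_rfl⟩)
      (lemb_disj hf' (Prod.ext (inf_eq_left.mpr (hb0.trans hbp)) (by simp)))
      (lemb_mono hf' ⟨hbp, le_rfl⟩) ?_ ?_ ?_ ?_ ?_ ?_ ?_
    · rw [← map_neg, ← map_add, ← map_add]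
      exact lemb_mono hf' ⟨h1, by simp⟩
    · rw [← map_add, ← map_neg, ← map_add, ← map_add]
      exact lemb_mono hf' ⟨h2, by simp⟩
    · rw [ea]; exact lemb_mono hg' hax
    · rw [eb]; exact lemb_disj hg' hxb
    · rw [eb]; exact lemb_mono hg' hby
    · rw [ea]; exact lemb_disj hg' hya
    · rw [ea, eb, ← map_add, ← map_add, ← map_add]
      exact lemb_mono hg' h3
  have h4 : f' (0, 1) = f' 0 := by
    rw [map_zero]
    refine le_antisymm key ?_
    rw [← map_zero f']
    exact lemb_mono hf' ⟨le_rfl, by simp⟩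
  simpa using hf'.1 h4

theorem dataC2 : ∃ a b q s : AutR, AddCommute a b ∧ 0 < a ∧ (∀ n : ℤ, n • a ≤ b) ∧ 0 ≤ q ∧
    q ≤ b ∧ s ≤ a + (-q + a + q) ∧ b ≤ 16 • s := by
  have hpi := pi_gt_three
  have hpi4 := pi_le_four
  let a : AutR := lip (fun x => |sin x|)
    (fun s t => (abs_abs_sub_abs_le_abs_sub _ _).trans (abs_sin_sub_sin_le s t))
  have hae : ∀ x, a.e x = x + |sin x| / 2 := fun x => rfl
  have ha0 : 0 ≤ a := fun x => by
    rw [hae, zero_e]; have := abs_nonneg (sin x); linarith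
  refine ⟨a, aff 1 π one_pos, aff 1 (π / 2) one_pos, aff 1 (1 / 4) one_pos,
    ?_, ?_, ?_, ?_, ?_, ?_, ?_⟩
  · ext x
    simp only [add_e, hae, aff_e, one_mul, sin_add_pi, abs_neg]
    ring
  · refine lt_of_le_of_ne ha0 (fun h => ?_)
    have := congrArg (fun g : AutR => g.e (π / 2)) h
    simp [hae] at this
  · intro n x
    let z : ℝ := ((⌊x / π⌋ + 1 : ℤ) : ℝ) * π
    have hz : a.e z = z := by rw [hae, sin_int_mul_pi]; simp
    have hz' : (n • a).e z = z := by
      let K : AddSubgroup AutR :=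
        { carrier := {g | g.e z = z}
          zero_mem' := rfl
          add_mem' := fun {g h} hg hh => by
            change g.e (h.e z) = z
            rw [show h.e z = z from hh]; exact hg
          neg_mem' := fun {g} hg => by
            change g.e.symm z = z
            rw [OrderIso.symm_apply_eq]; exact (show g.e z = z from hg).symm }
      exact K.zsmul_mem (show a ∈ K from hz) n
    have h1 : x ≤ z := by
      have := Int.lt_floor_add_one (x / π)
      rw [div_lt_iff₀ pi_pos] at this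
      simp only [z]; push_cast; linarith
    have h2 : z ≤ x + π := by
      have := Int.floor_le (x / π)
      rw [le_div_iff₀ pi_pos] at this
      simp only [z]; push_cast; linarith
    have h3 := (n • a).e.monotone h1
    simp only [aff_e]
    linarith
  · intro x; simp only [aff_e, zero_e]; linarith
  · intro x; simp only [aff_e]; linarith
  · have hc : ∀ x, (-aff 1 (π / 2) one_pos + a + aff 1 (π / 2) one_pos).e x =
        x + |cos x| / 2 := by
      intro x
      simp only [add_e, neg_e]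
      rw [OrderIso.symm_apply_eq]
      simp only [aff_e, hae, one_mul, sin_add_pi_div_two]
      ring
    intro x
    rw [add_e, hc, aff_e]
    have h1 : x ≤ x + |cos x| / 2 := by have := abs_nonneg (cos x); linarith
    have h2 := a.e.monotone h1
    have h3 := ha0 (x + |cos x| / 2)
    rw [zero_e] at h3
    rw [hae x] at h2
    have h4 := sin_sq_add_cos_sq x
    rw [← sq_abs (sin x), ← sq_abs (cos x)] at h4
    by_contra h5
    have h6 : |sin x| < 1 / 2 := by linarith
    have h7 : |cos x| < 1 / 2 := by linarith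
    nlinarith [abs_nonneg (sin x), abs_nonneg (cos x)]
  · have : ∀ (n : ℕ) x, (n • aff 1 (1 / 4) one_pos).e x = x + n / 4 := by
      intro n
      induction n with
      | zero => intro x; simp
      | succ n ih => intro x; rw [succ_nsmul, add_e, ih, aff_e]; push_cast; ring
    intro x
    rw [this, aff_e]
    push_cast
    linarith

theorem not_base2 : ¬ IsAmalgBase.{u} (ℤ ×ₗ ℤ) := by
  intro h
  obtain ⟨a', b', q, s, hc, ha', hab', hq0, hq, hs, hk⟩ := dataC2
  have hlex : ∀ n : ℤ, n • toLex ((0 : ℤ), (1 : ℤ)) ≤ toLex ((1 : ℤ), (0 : ℤ)) := by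
    intro n
    change toLex (n • ((0 : ℤ), (1 : ℤ))) ≤ _
    rw [Prod.Lex.toLex_le_toLex]
    left; simp
  have hpos : (0 : ℤ ×ₗ ℤ) < toLex (0, 1) := by
    change toLex ((0 : ℤ), (0 : ℤ)) < _
    rw [Prod.Lex.toLex_lt_toLex]
    right; simp
  obtain ⟨f, hf, f1, f2⟩ := emb2 (H := (ℤ ×ₗ ℤ) × ℤ) (a := (toLex (0, 1), 0))
    (b := (toLex (1, 0), 1)) (add_comm _ _) (Prod.lt_iff.mpr (Or.inl ⟨hpos, le_rfl⟩))
    (fun n => ⟨hlex n, by simp⟩)
  obtain ⟨g, hg, g1, g2⟩ := emb2 hc ha' hab'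
  obtain ⟨D, _, _, _, _, f', g', hf', hg', he⟩ := h _ _ f g hf hg
  have ea : f' (toLex (0, 1), 0) = g' a' := by rw [← f2, ← g2]; exact DFunLike.congr_fun he _
  have eb : f' (toLex (1, 0), 1) = g' b' := by rw [← f1, ← g1]; exact DFunLike.congr_fun he _
  have key : f' (0, 1) ≤ 0 := by
    refine obstruction2 (a := g' a') (b := g' b') (d := f' (toLex (1, 0), 0)) (q := g' q)
      (s := g' s) 16 ?_ ?_ ?_ ?_ (lemb_mono hg' hq) ?_ ?_
    · rw [← eb, ← map_add]; simp
    · exact lemb_disj hf' (Prod.ext (inf_eq_left.mpr (by simpa using hlex 0)) (by simp))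
    · rw [← ea]
      exact lemb_disj hf' (Prod.ext (inf_eq_left.mpr hpos.le) (by simp))
    · rw [← map_zero g']; exact lemb_mono hg' hq0
    · rw [← map_neg, ← map_add, ← map_add, ← map_add]; exact lemb_mono hg' hs
    · rw [← map_nsmul]; exact lemb_mono hg' hk
  have h4 : f' (0, 1) = f' 0 := by
    rw [map_zero]
    refine le_antisymm key ?_
    rw [← map_zero f']
    exact lemb_mono hf' ⟨le_rfl, by simp⟩
  simpa using hf'.1 h4

end Pool.Agent.H73.Amalg
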