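import Pool.Agent.H37.RE

/-!
Recognizable properties of infinite words with explicit bounds, pumping, finite automata given by
lists of transitions, and computable predicates.
-/

set_option autoImplicit false

namespace Pool.Agent.H73.AutEq

open Pool.Agent.H37

variable {S G A : Type}

def gr (c : ℕ → S) (n : ℕ) (f : ℕ → S) : ℕ → S := fun i => if i < n then c i else f (i - n)

def sh (f : ℕ → S) (n : ℕ) : ℕ → S := fun i => f (n + i)

theorem gr_lt {c f : ℕ → S} {n i : ℕ} (h : i < n) : gr c n f i = c i := if_pos h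

theorem gr_ge {c f : ℕ → S} {n i : ℕ} (h : n ≤ i) : gr c n f i = f (i - n) := if_neg (by omega)

theorem gr_sh (f : ℕ → S) (n : ℕ) : gr f n (sh f n) = f := by
  funext i
  rcases lt_or_ge i n with h | h
  · exact gr_lt h
  · rw [gr_ge h, sh]; congr 1; omega

theorem gr_map (φ : S → G) (c : ℕ → S) (n : ℕ) (f : ℕ → S) :
    (fun i => φ (gr c n f i)) = gr (fun i => φ (c i)) n fun i => φ (f i) := by
  funext i
  unfold gr
  split_ifs <;> rfl

def Rec (P : (ℕ → S) → Prop) (N : ℕ) : Prop :=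
  ∃ (Q : Type) (_ : Finite Q) (τ : (ℕ → S) → Q), Nat.card Q ≤ N ∧
    ∀ f g, τ f = τ g → ∀ c n, P (gr c n f) → P (gr c n g)

theorem card_set (Q : Type) [Finite Q] : Nat.card (Set Q) = 2 ^ Nat.card Q := by
  classical
  have := Fintype.ofFinite Q
  simp

namespace Rec

variable {P P' : (ℕ → S) → Prop} {N N' : ℕ}

theorem of_iff (h : Rec P N) (e : ∀ f, P f ↔ P' f) : Rec P' N :=
  (funext fun f => propext (e f) : P = P') ▸ h

theorem mono (h : Rec P N) (e : N ≤ N') : Rec P N' := by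
  obtain ⟨Q, _, τ, h1, h2⟩ := h
  exact ⟨Q, ‹_›, τ, h1.trans e, h2⟩

theorem const (p : Prop) : Rec (fun _ : ℕ → S => p) 1 :=
  ⟨Unit, inferInstance, fun _ => (), by simp, fun _ _ _ _ _ h => h⟩

theorem not (h : Rec P N) : Rec (fun f => ¬ P f) N := by
  obtain ⟨Q, _, τ, h1, h2⟩ := h
  exact ⟨Q, ‹_›, τ, h1, fun f g e c u h3 h4 => h3 (h2 g f e.symm c u h4)⟩

theorem bin (R : Prop → Prop → Prop) (h : Rec P N) (h' : Rec P' N') :
    Rec (fun f => R (P f) (P' f)) (N * N') := by
  obtain ⟨Q, _, τ, h1, h2⟩ := h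
  obtain ⟨Q', _, τ', h1', h2'⟩ := h'
  refine ⟨Q × Q', inferInstance, fun f => (τ f, τ' f), ?_, fun f g e c u h3 => ?_⟩
  · rw [Nat.card_prod]; exact Nat.mul_le_mul h1 h1'
  · simp only [Prod.mk.injEq] at e
    rwa [← propext ⟨h2 f g e.1 c u, h2 g f e.1.symm c u⟩,
      ← propext ⟨h2' f g e.2 c u, h2' g f e.2.symm c u⟩]

theorem and (h : Rec P N) (h' : Rec P' N') : Rec (fun f => P f ∧ P' f) (N * N') := bin And h h'
theorem or (h : Rec P N) (h' : Rec P' N') : Rec (fun f => P f ∨ P' f) (N * N') := bin Or h h'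
theorem imp (h : Rec P N) (h' : Rec P' N') : Rec (fun f => P f → P' f) (N * N') :=
  bin (fun a b => a → b) h h'

theorem fall {ι : Type} [Fintype ι] {P : ι → (ℕ → S) → Prop} (h : ∀ j, Rec (P j) N) :
    Rec (fun f => ∀ j, P j f) (N ^ Fintype.card ι) := by
  choose Q hQ τ h1 h2 using h
  refine ⟨∀ j, Q j, inferInstance, fun f j => τ j f, ?_,
    fun f g e c n h j => h2 j f g (congrFun e j) c n (h j)⟩
  rw [Nat.card_pi]
  exact (Finset.prod_le_pow_card _ _ _ fun j _ => h1 j).trans (by simp)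

theorem comap (φ : G → S) (h : Rec P N) : Rec (fun f : ℕ → G => P fun p => φ (f p)) N := by
  obtain ⟨Q, _, τ, h1, h2⟩ := h
  refine ⟨Q, ‹_›, fun f => τ fun p => φ (f p), h1, fun f g e c u h3 => ?_⟩
  beta_reduce at h3 ⊢
  rw [gr_map] at h3 ⊢
  exact h2 _ _ e _ _ h3

theorem ex {R : (ℕ → S) → (ℕ → G) → Prop}
    (h : Rec (fun F : ℕ → S × G => R (fun p => (F p).1) fun p => (F p).2) N) :
    Rec (fun f => ∃ g, R f g) (2 ^ N) := by
  obtain ⟨Q, _, τ, h1, h2⟩ := h
  refine ⟨Set Q, inferInstance, fun f => Set.range fun g : ℕ → G => τ fun p => (f p, g p), ?_,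
    fun f f' e c u ⟨g, h3⟩ => ?_⟩
  · rw [card_set]; exact Nat.pow_le_pow_right (by norm_num) h1
  · beta_reduce at e
    have : (τ fun p => (f p, sh g u p)) ∈ Set.range fun g : ℕ → G => τ fun p => (f' p, g p) :=
      e ▸ ⟨_, rfl⟩
    obtain ⟨g', e'⟩ := this
    have h4 := h2 _ _ e'.symm (fun p => (c p, g p)) u (by
      beta_reduce
      rw [gr_map Prod.fst, gr_map Prod.snd]
      simpa only [gr_sh] using h3)
    beta_reduce at h4
    rw [gr_map Prod.fst, gr_map Prod.snd] at h4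
    exact ⟨_, h4⟩

theorem all {R : (ℕ → S) → (ℕ → G) → Prop}
    (h : Rec (fun F : ℕ → S × G => R (fun p => (F p).1) fun p => (F p).2) N) :
    Rec (fun f => ∀ g, R f g) (2 ^ N) :=
  (ex (R := fun f g => ¬ R f g) h.not).not.of_iff fun f => by simp

theorem pt (R : S → Prop) : Rec (fun f : ℕ → S => ∀ p, R (f p)) 2 := by
  refine ⟨Prop, inferInstance, fun f => ∀ p, R (f p), by simp, fun f g e c u h i => ?_⟩
  rcases lt_or_ge i u with hi | hi
  · simpa [gr_lt hi] using h i
  · rw [gr_ge hi]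
    exact (Eq.mp e fun p => by simpa [gr_ge] using h (u + p)) _

theorem pte (R : S → Prop) : Rec (fun f : ℕ → S => ∃ p, R (f p)) 2 :=
  (pt fun x => ¬ R x).not.of_iff fun f => by simp

theorem pump (h : Rec P N) {F : ℕ → S} (hF : P F) (K : ℕ) : ∃ p q, K ≤ p ∧ p < q ∧ q ≤ K + N ∧
    P (gr F p (sh F q)) ∧ P (gr F q (sh F p)) := by
  obtain ⟨Q, _, τ, h1, h2⟩ := h
  have : ¬ Function.Injective fun i : Fin (N + 1) => τ (sh F (K + i)) := by
    intro hi
    have := Nat.card_le_card_of_injective _ hi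
    simp only [Nat.card_eq_fintype_card, Fintype.card_fin] at this
    omega
  have key : ∀ i j : Fin (N + 1), i < j → τ (sh F (K + i)) = τ (sh F (K + j)) →
      ∃ p q, K ≤ p ∧ p < q ∧ q ≤ K + N ∧ P (gr F p (sh F q)) ∧ P (gr F q (sh F p)) := by
    intro i j hij e
    have hij' : i.1 < j.1 := hij
    have hj := j.2
    exact ⟨K + i, K + j, by omega, by omega, by omega,
      h2 _ _ e _ _ (by rwa [gr_sh]), h2 _ _ e.symm _ _ (by rwa [gr_sh])⟩
  simp only [Function.Injective, not_forall] at this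
  obtain ⟨i, j, e, hne⟩ := this
  rcases lt_or_gt_of_ne hne with h | h
  exacts [key i j h e, key j i h e.symm]

end Rec

/-- same start, and later letters are later letters -/
def Ag (K : ℕ) (F F' : ℕ → S) : Prop := (∀ i < K, F' i = F i) ∧ ∀ i, K ≤ i → ∃ j, K ≤ j ∧ F' i = F j

theorem Ag.refl (K : ℕ) (F : ℕ → S) : Ag K F F := ⟨fun _ _ => rfl, fun i h => ⟨i, h, rfl⟩⟩

theorem Ag.trans {K : ℕ} {F F' F'' : ℕ → S} (h : Ag K F F') (h' : Ag K F' F'') : Ag K F F'' :=
  ⟨fun i hi => (h'.1 i hi).trans (h.1 i hi), fun i hi => by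
    obtain ⟨j, h1, h2⟩ := h'.2 i hi
    obtain ⟨k, h3, h4⟩ := h.2 j h1
    exact ⟨k, h3, h2.trans h4⟩⟩

theorem ag_gr {K p q : ℕ} (F : ℕ → S) (hp : K ≤ p) (hq : K ≤ q) : Ag K F (gr F p (sh F q)) :=
  ⟨fun i hi => gr_lt (by omega), fun i hi => by
    rcases lt_or_ge i p with h | h
    · exact ⟨i, hi, gr_lt h⟩
    · exact ⟨q + (i - p), by omega, gr_ge h⟩⟩

theorem Rec.down {P : (ℕ → S) → Prop} {N : ℕ} (h : Rec P N) (b : S → Prop) (K n : ℕ) :
    ∀ F, P F → (∀ i, n ≤ i → b (F i)) → ∃ F', P F' ∧ Ag K F F' ∧ ∀ i, K + N ≤ i → b (F' i) := by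
  induction n using Nat.strong_induction_on with
  | _ n ih =>
    intro F hF hb
    rcases le_or_gt n (K + N) with hn | hn
    · exact ⟨F, hF, Ag.refl _ _, fun i hi => hb i (by omega)⟩
    obtain ⟨p, q, h1, h2, h3, h4, -⟩ := h.pump hF K
    obtain ⟨F', h5, h6, h7⟩ := ih (n - (q - p)) (by omega) _ h4 fun i hi => by
      rw [gr_ge (by omega)]; exact hb _ (by omega)
    exact ⟨F', h5, (ag_gr F h1 (by omega)).trans h6, h7⟩

theorem Rec.up {P : (ℕ → S) → Prop} {N : ℕ} (h : Rec P N) (on : S → Prop) {K n : ℕ} {F : ℕ → S}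
    (hF : P F) (hn : K + N ≤ n) (ho : on (F n)) (m : ℕ) :
    ∃ F' n', P F' ∧ Ag K F F' ∧ n + m ≤ n' ∧ on (F' n') := by
  induction m with
  | zero => exact ⟨F, n, hF, Ag.refl _ _, le_rfl, ho⟩
  | succ m ih =>
    obtain ⟨F', n', h1, h2, h3, h4⟩ := ih
    obtain ⟨p, q, h5, h6, h7, -, h8⟩ := h.pump h1 K
    refine ⟨_, n' + (q - p), h8, h2.trans (ag_gr F' (by omega) h5), by omega, ?_⟩
    rw [gr_ge (by omega), sh]
    convert h4 using 2
    omega

/-- words as functions -/
def wd (w : List A) : ℕ → Option A := fun i => w[i]?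

theorem wd_inj {u v : List A} (h : wd u = wd v) : u = v := List.ext_getElem? (congrFun h)

theorem wd_none {u : List A} {i : ℕ} : wd u i = none ↔ u.length ≤ i := List.getElem?_eq_none_iff

theorem Ag.fst {K : ℕ} {F F' : ℕ → Option A × G} (h : Ag K F F') {u : List A} (hu : u.length ≤ K)
    (e : (fun i => (F i).1) = wd u) : (fun i => (F' i).1) = wd u := by
  funext i
  rcases lt_or_ge i K with hi | hi
  · rw [h.1 i hi, ← e]
  · obtain ⟨j, h1, h2⟩ := h.2 i hi
    rw [h2, wd_none.2 (by omega)]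
    exact (congrFun e j).trans (wd_none.2 (by omega))

def L2 (φ : List A → List A → Prop) (F : ℕ → Option A × Option A) : Prop :=
  ∃ u v, φ u v ∧ (fun i => (F i).1) = wd u ∧ (fun i => (F i).2) = wd v

theorem down2 {φ : List A → List A → Prop} {N : ℕ} (h : Rec (L2 φ) N) {u v : List A} {K : ℕ}
    (hφ : φ u v) (hu : u.length ≤ K) (hv : K ≤ v.length) :
    ∃ v', φ u v' ∧ K ≤ v'.length ∧ v'.length ≤ K + N := by
  obtain ⟨F', ⟨u', v', h1, h2, h3⟩, h4, h5⟩ := h.down (fun x => x.2 = none) K v.length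
    (fun i => (wd u i, wd v i)) ⟨u, v, hφ, rfl, rfl⟩ fun i hi => wd_none.2 hi
  obtain rfl : u' = u := wd_inj (h2.symm.trans (h4.fst hu rfl))
  refine ⟨v', h1, ?_, wd_none.1 ((congrFun h3 _).symm.trans (h5 _ le_rfl))⟩
  by_contra H
  have := congrArg Prod.snd (h4.1 v'.length (by omega))
  rw [congrFun h3, wd_none.2 le_rfl] at this
  have := wd_none.1 this.symm
  omega

theorem up2 {φ : List A → List A → Prop} {N : ℕ} (h : Rec (L2 φ) N) {u v : List A}
    (hφ : φ u v) (hv : u.length + N < v.length) (m : ℕ) : ∃ v', φ u v' ∧ m ≤ v'.length := by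
  obtain ⟨F', n', ⟨u', v', h1, h2, h3⟩, h4, h5, h6⟩ := h.up (fun x => x.2 ≠ none)
    (F := fun i => (wd u i, wd v i)) ⟨u, v, hφ, rfl, rfl⟩ (K := u.length) le_rfl
    (fun e => by have := wd_none.1 e; omega) m
  obtain rfl : u' = u := wd_inj (h2.symm.trans (h4.fst le_rfl rfl))
  refine ⟨v', h1, ?_⟩
  rw [congrFun h3, Ne, wd_none] at h6
  omega

/-- acceptance from a state -/
def Acc (T : List (ℕ × A × ℕ)) (F : List ℕ) : ℕ → List A → Prop
  | q, [] => q ∈ F
  | q, a :: w => ∃ q', (q, a, q') ∈ T ∧ Acc T F q' w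

theorem mem_accepts {T : List (ℕ × A × ℕ)} {F : List ℕ} {M : NFA A ℕ} {q : ℕ}
    (hT : ∀ q a q', q' ∈ M.step q a ↔ (q, a, q') ∈ T) (hF : ∀ q, q ∈ M.accept ↔ q ∈ F)
    (hq : M.start = {q}) (w : List A) : w ∈ M.accepts ↔ Acc T F q w := by
  have : ∀ (w : List A) (X : Set ℕ), w ∈ M.acceptsFrom X ↔ ∃ q ∈ X, Acc T F q w := by
    intro w
    induction w with
    | nil => simp [Acc, hF]
    | cons a w ih =>
      intro X
      simp only [NFA.cons_mem_acceptsFrom, ih, NFA.mem_stepSet, hT, Acc]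
      exact ⟨fun ⟨q, ⟨t, h1, h2⟩, h3⟩ => ⟨t, h1, q, h2, h3⟩,
        fun ⟨t, h1, q, h2, h3⟩ => ⟨q, ⟨t, h1, h2⟩, h3⟩⟩
  rw [NFA.accepts_eq_acceptsFrom_start, this, hq]
  simp

theorem Acc.mem {T : List (ℕ × A × ℕ)} {F : List ℕ} {w : List A} :
    ∀ {q}, Acc T F q w → ∀ a ∈ w, a ∈ T.map fun t => t.2.1 := by
  induction w with
  | nil => simp
  | cons a w ih =>
    rintro q ⟨q', h1, h2⟩ b hb
    rcases List.mem_cons.1 hb with rfl | hb
    exacts [List.mem_map.2 ⟨_, h1, rfl⟩, ih h2 b hb]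

theorem Acc.split {T : List (ℕ × A × ℕ)} {F St : List ℕ} (hS : ∀ t ∈ T, t.2.2 ∈ St)
    {u v : List A} : ∀ {q}, q ∈ St → Acc T F q (u ++ v) →
      ∃ q' ∈ St, Acc T F q' v ∧ ∀ v', Acc T F q' v' → Acc T F q (u ++ v') := by
  induction u with
  | nil => exact fun hq h => ⟨_, hq, h, fun _ h => h⟩
  | cons a u ih =>
    rintro q - ⟨q', h1, h2⟩
    obtain ⟨q'', h3, h4, h5⟩ := ih (hS _ h1) h2
    exact ⟨q'', h3, h4, fun v' h => ⟨q', h1, h5 v' h⟩⟩

theorem rec_acc (T : List (ℕ × A × ℕ)) (F : List ℕ) (q : ℕ) (e : A → S) (b : S) (ok : A → Prop) :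
    Rec (fun f => ∃ w, Acc T F q w ∧ (∀ a ∈ w, ok a) ∧ ∀ i, f i = (w[i]?).elim b e)
      (2 ^ (T.length + 1) * 2) := by
  let St : List ℕ := q :: T.map fun t => t.2.2
  refine ⟨Set (Fin St.length) × Prop, inferInstance, fun f =>
    ({j | ∃ w, Acc T F St[j] w ∧ (∀ a ∈ w, ok a) ∧ ∀ i, f i = (w[i]?).elim b e}, ∀ i, f i = b),
    by simp [St], fun f g E c n ⟨w, h1, h2, h3⟩ => ?_⟩
  simp only [Prod.mk.injEq, Set.ext_iff, Set.mem_ofPred_eq, eq_iff_iff] at E
  rcases le_or_gt n w.length with hn | hn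
  · rw [← List.take_append_drop n w] at h1
    obtain ⟨q', h4, h5, h6⟩ := Acc.split (St := St)
      (fun t ht => List.mem_cons_of_mem _ (List.mem_map.2 ⟨t, ht, rfl⟩)) List.mem_cons_self h1
    obtain ⟨j, rfl⟩ := List.mem_iff_get.1 h4
    obtain ⟨v, h7, h8, h9⟩ := (E.1 j).1 ⟨w.drop n, h5, fun a ha => h2 a (List.mem_of_mem_drop ha),
      fun i => by simpa [gr_ge] using h3 (n + i)⟩
    refine ⟨_, h6 v h7, fun a ha => ?_, fun i => ?_⟩
    · rcases List.mem_append.1 ha with ha | ha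
      exacts [h2 a (List.mem_of_mem_take ha), h8 a ha]
    · have hl : (w.take n).length = n := by simp [hn]
      rcases lt_or_ge i n with hi | hi
      · rw [gr_lt hi, List.getElem?_append_left (by omega), List.getElem?_take_of_lt hi, ← h3,
          gr_lt hi]
      · rw [gr_ge hi, List.getElem?_append_right (by omega), hl, h9]
  · refine ⟨w, h1, h2, fun i => ?_⟩
    rcases lt_or_ge i n with hi | hi
    · rw [← h3, gr_lt hi, gr_lt hi]
    · rw [gr_ge hi, List.getElem?_eq_none (by omega)]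
      refine E.2.1 (fun i => ?_) _
      have := h3 (n + i)
      rw [List.getElem?_eq_none (by omega)] at this
      simpa [gr_ge] using this

/-! computable predicates -/

noncomputable instance propCode : Primcodable Prop := Primcodable.ofEquiv Bool Equiv.propEquivBool

variable {α β γ : Type} [Primcodable α] [Primcodable β] [Primcodable γ] {O : Set (ℕ →. ℕ)}

theorem ci_of {p : α → Prop} (f : α → Bool) (hf : CI O f) (h : ∀ a, p a ↔ f a = true) : CI O p :=
  (CI.dom_finite (fun b : Bool => b = true) hf).of_eq fun a => propext (h a).symm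

theorem ci_dec {p : α → Prop} [DecidablePred p] (hp : CI O p) : CI O fun a => decide (p a) := by
  classical
  exact (CI.dom_finite (fun b : Prop => decide b) hp).of_eq fun a => by simp

theorem of_dec {p : α → Prop} [DecidablePred p] (hp : CI O fun a => decide (p a)) : CI O p :=
  ci_of _ hp fun a => by simp

theorem ci_iff' {p q : α → Prop} (hp : CI O p) (h : ∀ a, q a ↔ p a) : CI O q :=
  hp.of_eq fun a => propext (h a).symm

theorem cpred {p : α → Prop} (hp : CI ∅ p) : ComputablePred p := by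
  classical
  exact computablePred_of _ (ci_dec hp) fun a => by simp

theorem ci_bin (R : Prop → Prop → Prop) {p q : α → Prop} (hp : CI O p) (hq : CI O q) :
    CI O fun a => R (p a) (q a) := CI.dom_finite (fun x : Prop × Prop => R x.1 x.2) (hp.mk hq)

@[fun_prop] theorem ci_and {p q : α → Prop} (hp : CI O p) (hq : CI O q) :
    CI O fun a => p a ∧ q a := ci_bin And hp hq
@[fun_prop] theorem ci_or {p q : α → Prop} (hp : CI O p) (hq : CI O q) :
    CI O fun a => p a ∨ q a := ci_bin Or hp hq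
@[fun_prop] theorem ci_iff {p q : α → Prop} (hp : CI O p) (hq : CI O q) :
    CI O fun a => p a ↔ q a := ci_bin Iff hp hq
theorem ci_imp {p q : α → Prop} (hp : CI O p) (hq : CI O q) :
    CI O fun a => p a → q a := ci_bin (fun a b => a → b) hp hq
@[fun_prop] theorem ci_not {p : α → Prop} (hp : CI O p) : CI O fun a => ¬ p a :=
  CI.dom_finite Not hp
@[fun_prop] theorem ci_eq {f g : α → β} (hf : CI O f) (hg : CI O g) : CI O fun a => f a = g a := by
  classical
  exact of_dec (CI.eq hf hg)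
@[fun_prop] theorem ci_le {f g : α → ℕ} (hf : CI O f) (hg : CI O g) : CI O fun a => f a ≤ g a :=
  of_dec (CI.le hf hg)
@[fun_prop] theorem ci_lt {f g : α → ℕ} (hf : CI O f) (hg : CI O g) : CI O fun a => f a < g a :=
  of_dec (CI.lt hf hg)
@[fun_prop] theorem ci_mem {f : α → β} {l : α → List β} (hl : CI O l) (hf : CI O f) :
    CI O fun a => f a ∈ l a := by
  classical
  exact of_dec (CI.mem' hl hf)

def Ex (l : List A) (p : A → Prop) : Prop := ∃ a ∈ l, p a
def Al (l : List A) (p : A → Prop) : Prop := ∀ a ∈ l, p a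

@[fun_prop] theorem ci_ex {l : α → List β} {p : α → β → Prop} (hl : CI O l)
    (hp : CI O fun q : α × β => p q.1 q.2) : CI O fun a => Ex (l a) (p a) := by
  classical
  exact ci_of _ (CI.any (f := fun a b => decide (p a b)) hl (ci_dec hp)) fun a => by simp [Ex]
@[fun_prop] theorem ci_al {l : α → List β} {p : α → β → Prop} (hl : CI O l)
    (hp : CI O fun q : α × β => p q.1 q.2) : CI O fun a => Al (l a) (p a) := by
  classical
  exact ci_of _ (CI.all (f := fun a b => decide (p a b)) hl (ci_dec hp)) fun a => by simp [Al]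

open Classical in
/-- filter by a predicate -/
noncomputable def fil (p : A → Prop) (l : List A) : List A := l.filter fun a => decide (p a)

@[simp] theorem mem_fil {p : A → Prop} {l : List A} {a : A} : a ∈ fil p l ↔ a ∈ l ∧ p a := by
  simp [fil]

@[fun_prop] theorem ci_fil {l : α → List β} {p : α → β → Prop}
    (hp : CI O fun q : α × β => p q.1 q.2) (hl : CI O l) : CI O fun a => fil (p a) (l a) := by
  classical
  exact CI.filter (ci_dec hp) hl

open Classical in
noncomputable def ite' (p : Prop) (a b : A) : A := if p then a else b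

@[fun_prop] theorem ci_ite {p : α → Prop} {f g : α → β} (hp : CI O p) (hf : CI O f)
    (hg : CI O g) : CI O fun a => ite' (p a) (f a) (g a) := by
  classical
  exact CI.ite (ci_dec hp) hf hg

open Classical in
noncomputable def dd (l : List A) : List A := l.dedup

@[simp] theorem mem_dd {l : List A} {a : A} : a ∈ dd l ↔ a ∈ l := by simp [dd]

theorem nodup_dd (l : List A) : (dd l).Nodup := by simp [dd, List.nodup_dedup]

@[fun_prop] theorem ci_dd {l : α → List β} (hl : CI O l) : CI O fun a => dd (l a) :=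
  (CI.foldr (f := fun _ b s => ite' (b ∈ s) s (b :: s)) (by fun_prop) (CI.const []) hl).of_eq
    fun a => by
    classical
    induction l a with
    | nil => rfl
    | cons b l ih => rw [List.foldr_cons, ih, dd, dd, List.dedup_cons', ite']; congr

@[fun_prop] theorem ci_nodup {l : α → List β} (hl : CI O l) : CI O fun a => (l a).Nodup :=
  ci_iff' (p := fun a => dd (l a) = l a) (by fun_prop) fun a => by
    classical
    rw [dd]; convert List.dedup_eq_self.symm

/-- all words of a given length -/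
def wl (Z : List A) (n : ℕ) : List (List A) :=
  (fun L => Z.flatMap fun a => L.map fun w => a :: w)^[n] [[]]

theorem mem_wl {Z : List A} {n : ℕ} {w : List A} :
    w ∈ wl Z n ↔ w.length = n ∧ ∀ a ∈ w, a ∈ Z := by
  induction n generalizing w with
  | zero => cases w <;> simp [wl]
  | succ n ih =>
    rw [wl, Function.iterate_succ_apply', ← wl]
    cases w with
    | nil => simp
    | cons a w =>
      simp only [List.mem_flatMap, List.mem_map, ih, List.cons.injEq, List.length_cons,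
        List.forall_mem_cons]
      constructor
      · rintro ⟨b, hb, v, ⟨h1, h2⟩, rfl, rfl⟩
        exact ⟨by omega, hb, h2⟩
      · rintro ⟨h1, h2, h3⟩
        exact ⟨a, h2, w, ⟨by omega, h3⟩, rfl, rfl⟩

@[fun_prop] theorem ci_wl {l : α → List β} {n : α → ℕ} (hl : CI O l) (hn : CI O n) :
    CI O fun a => wl (l a) (n a) := by
  unfold wl; fun_prop

def wu (Z : List A) (n : ℕ) : List (List A) := (List.range (n + 1)).flatMap fun k => wl Z k

theorem mem_wu {Z : List A} {n : ℕ} {w : List A} :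
    w ∈ wu Z n ↔ w.length ≤ n ∧ ∀ a ∈ w, a ∈ Z := by
  simp only [wu, List.mem_flatMap, List.mem_range, mem_wl]
  exact ⟨fun ⟨k, h1, h2, h3⟩ => ⟨by omega, h3⟩, fun ⟨h1, h2⟩ => ⟨_, by omega, rfl, h2⟩⟩

@[fun_prop] theorem ci_wu {l : α → List β} {n : α → ℕ} (hl : CI O l) (hn : CI O n) :
    CI O fun a => wu (l a) (n a) := by
  unfold wu; fun_prop

@[fun_prop] theorem ci_acc {T : α → List (ℕ × β × ℕ)} {F : α → List ℕ} {q : α → ℕ}
    {w : α → List β} (hT : CI O T) (hF : CI O F) (hq : CI O q) (hw : CI O w) :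
    CI O fun a => Acc (T a) (F a) (q a) (w a) := by
  refine ci_iff' (p := fun a => q a ∈ (w a).foldr
    (fun b X => (fil (fun t => t.2.1 = b ∧ t.2.2 ∈ X) (T a)).map fun t => t.1) (F a))
    (by fun_prop) fun a => ?_
  generalize q a = q
  induction w a generalizing q with
  | nil => rfl
  | cons b w ih =>
    simp only [Acc, ih, List.foldr_cons, List.mem_map, mem_fil]
    constructor
    · rintro ⟨q', h1, h2⟩
      exact ⟨_, ⟨h1, rfl, h2⟩, rfl⟩
    · rintro ⟨⟨x, y, z⟩, ⟨h1, rfl, h2⟩, rfl⟩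
      exact ⟨z, h1, h2⟩

end Pool.Agent.H73.AutEq
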