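import Pool.Agent.H73.AutEq1

/-!
Isomorphism of countable equivalence structures is determined by the numbers of classes of each
size, and these numbers are determined by bounded search for recognizable structures.
-/

set_option autoImplicit false

namespace Pool.Agent.H73.AutEq

abbrev W := List ℕ

def GoodE (D : W → Prop) (R : W → W → Prop) : Prop :=
  (∀ u, D u → R u u) ∧ (∀ u, D u → ∀ v, D v → R u v → R v u) ∧
    ∀ u, D u → ∀ v, D v → ∀ w, D w → R u v → R v w → R u w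

def cls (D : W → Prop) (R : W → W → Prop) (u : W) : Set W := {v | D v ∧ R u v}

noncomputable def sz (D : W → Prop) (R : W → W → Prop) (u : W) : ℕ := (cls D R u).ncard

def HG (D : W → Prop) (R : W → W → Prop) (k j : ℕ) : Prop :=
  ∃ L : List W, L.length = j ∧ L.Nodup ∧ (∀ u ∈ L, D u ∧ sz D R u = k) ∧
    ∀ u ∈ L, ∀ v ∈ L, R u v → u = v

def Iso (D : W → Prop) (R : W → W → Prop) (D' : W → Prop) (R' : W → W → Prop) : Prop :=
  ∃ f : W → W, Set.BijOn f {u | D u} {u | D' u} ∧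
    ∀ u, D u → ∀ v, D v → (R u v ↔ R' (f u) (f v))

variable {D D' : W → Prop} {R R' : W → W → Prop}

theorem Iso.symm (h : Iso D R D' R') : Iso D' R' D R := by
  obtain ⟨f, h1, h2⟩ := h
  have h3 := h1.invOn_invFunOn
  have h4 := Set.BijOn.symm h3.symm h1
  refine ⟨_, h4, fun u hu v hv => ?_⟩
  rw [h2 _ (h4.mapsTo hu) _ (h4.mapsTo hv), h3.2 hu, h3.2 hv]

theorem Iso.hg (h : Iso D R D' R') {k j : ℕ} (H : HG D R k j) : HG D' R' k j := by
  obtain ⟨f, h1, h2⟩ := h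
  obtain ⟨L, h3, h4, h5, h6⟩ := H
  refine ⟨L.map f, by simpa using h3,
    h4.map_on fun x hx y hy e => h1.injOn (h5 x hx).1 (h5 y hy).1 e, ?_, ?_⟩
  · simp only [List.forall_mem_map]
    intro u hu
    have hu' := (h5 u hu).1
    refine ⟨h1.mapsTo hu', ?_⟩
    have : cls D' R' (f u) = f '' cls D R u := by
      ext v
      constructor
      · rintro ⟨h7, h8⟩
        obtain ⟨x, hx, rfl⟩ := h1.surjOn h7
        exact ⟨x, ⟨hx, (h2 u hu' x hx).2 h8⟩, rfl⟩
      · rintro ⟨x, ⟨hx, h7⟩, rfl⟩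
        exact ⟨h1.mapsTo hx, (h2 u hu' x hx).1 h7⟩
    rw [sz, this, (h1.injOn.mono fun x hx => hx.1).ncard_image]
    exact (h5 u hu).2
  · simp only [List.forall_mem_map]
    intro u hu v hv h
    rw [h6 u hu v hv ((h2 u (h5 u hu).1 v (h5 v hv).1).2 h)]

theorem emb_of_lists {A B : Type} [Countable A]
    (h : ∀ L : List A, L.Nodup → ∃ L' : List B, L'.Nodup ∧ L'.length = L.length) :
    Nonempty (A ↪ B) := by
  classical
  rcases finite_or_infinite B with hB | hB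
  · have := Fintype.ofFinite B
    rcases finite_or_infinite A with hA | hA
    · have := Fintype.ofFinite A
      obtain ⟨L', h1, h2⟩ := h _ (Finset.nodup_toList Finset.univ)
      exact Function.Embedding.nonempty_of_card_le (by simpa [h2] using h1.length_le_card)
    · obtain ⟨s, hs⟩ := Infinite.exists_subset_card_eq A (Fintype.card B + 1)
      obtain ⟨L', h1, h2⟩ := h _ s.nodup_toList
      have := h1.length_le_card
      simp only [h2, Finset.length_toList] at this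
      omega
  · obtain ⟨f, hf⟩ := Countable.exists_injective_nat A
    exact ⟨(⟨f, hf⟩ : A ↪ ℕ).trans (Infinite.natEmbedding B)⟩

theorem equiv_of_card {A B : Type} [Countable A] [Countable B] [Nonempty A] [Nonempty B]
    (h : Nat.card A = Nat.card B) : Nonempty (A ≃ B) := by
  rcases finite_or_infinite A with hA | hA <;> rcases finite_or_infinite B with hB | hB
  · exact Finite.card_eq.1 h
  · have := Nat.card_pos (α := A); simp [h] at this
  · have := Nat.card_pos (α := B); simp [← h] at this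
  · exact nonempty_equiv_of_countable

/-- the setoid on the domain -/
def st (h : GoodE D R) : Setoid {u // D u} :=
  ⟨fun u v => R u.1 v.1, fun u => h.1 _ u.2, fun {u v} => h.2.1 _ u.2 _ v.2,
    fun {u v w} => h.2.2 _ u.2 _ v.2 _ w.2⟩

noncomputable def szq (h : GoodE D R) (c : Quotient (st h)) : ℕ :=
  Nat.card {u // Quotient.mk (st h) u = c}

theorem szq_mk (h : GoodE D R) (u : {u // D u}) : szq h (Quotient.mk _ u) = sz D R u.1 := by
  rw [szq, sz, ← Nat.card_coe_set_eq]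
  refine Nat.card_congr ⟨fun x => ⟨x.1.1, x.1.2, h.2.1 _ x.1.2 _ u.2 (Quotient.exact x.2)⟩,
    fun x => ⟨⟨x.1, x.2.1⟩, Quotient.sound (h.2.1 _ u.2 _ x.2.1 x.2.2)⟩, fun _ => rfl, fun _ => rfl⟩

theorem hg_iff (h : GoodE D R) (k j : ℕ) :
    HG D R k j ↔ ∃ L : List {c // szq h c = k}, L.Nodup ∧ L.length = j := by
  constructor
  · rintro ⟨L, h1, h2, h3, h4⟩
    refine ⟨L.attach.map fun u => ⟨Quotient.mk _ ⟨u.1, (h3 _ u.2).1⟩, by
      rw [szq_mk]; exact (h3 _ u.2).2⟩, (List.nodup_attach.2 h2).map fun x y e => ?_, by simpa⟩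
    exact Subtype.ext (h4 _ x.2 _ y.2 (Quotient.exact (congrArg Subtype.val e)))
  · rintro ⟨L, h1, h2⟩
    have key : ∀ x y : {c // szq h c = k}, R x.1.out.1 y.1.out.1 → x = y := fun x y e =>
      Subtype.ext (by rw [← x.1.out_eq, ← y.1.out_eq]; exact Quotient.sound e)
    refine ⟨L.map fun c => c.1.out.1, by simpa, h1.map ?_, ?_, ?_⟩
    · intro x y e
      refine key x y ?_
      beta_reduce at e
      rw [e]; exact h.1 _ y.1.out.2
    · simp only [List.forall_mem_map]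
      exact fun c _ => ⟨c.1.out.2, by rw [← szq_mk h, Quotient.out_eq]; exact c.2⟩
    · simp only [List.forall_mem_map]
      intro x _ y _ e
      rw [key x y e]

theorem iso_iff (h : GoodE D R) (h' : GoodE D' R') :
    Iso D R D' R' ↔ ∀ k j, HG D R k j ↔ HG D' R' k j := by
  classical
  refine ⟨fun H k j => ⟨H.hg, H.symm.hg⟩, fun H => ?_⟩
  have e1 : ∀ k, Nonempty ({c // szq h c = k} ≃ {c // szq h' c = k}) := fun k => by
    obtain ⟨f⟩ := emb_of_lists (A := {c // szq h c = k}) (B := {c // szq h' c = k}) fun L hL =>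
      (hg_iff h' k _).1 ((H k _).1 ((hg_iff h k _).2 ⟨L, hL, rfl⟩))
    obtain ⟨g⟩ := emb_of_lists (A := {c // szq h' c = k}) (B := {c // szq h c = k}) fun L hL =>
      (hg_iff h k _).1 ((H k _).2 ((hg_iff h' k _).2 ⟨L, hL, rfl⟩))
    exact f.antisymm g
  let e := Equiv.ofFiberEquiv fun k => (e1 k).some
  have he : ∀ c, szq h' (e c) = szq h c := fun c => Equiv.ofFiberEquiv_map _ c
  have e2 : ∀ c, Nonempty ({u // e (Quotient.mk (st h) u) = c} ≃
      {u // Quotient.mk (st h') u = c}) := fun c => by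
    have : Nonempty {u // e (Quotient.mk (st h) u) = c} := ⟨⟨(e.symm c).out, by simp⟩⟩
    have : Nonempty {u // Quotient.mk (st h') u = c} := ⟨⟨c.out, by simp⟩⟩
    refine equiv_of_card ?_
    have := he (e.symm c)
    rw [e.apply_symm_apply, szq, szq] at this
    rw [this]
    simp only [Equiv.eq_symm_apply]
  let g := Equiv.ofFiberEquiv fun c => (e2 c).some
  have hg : ∀ u, Quotient.mk (st h') (g u) = e (Quotient.mk (st h) u) := fun u =>
    Equiv.ofFiberEquiv_map (f := fun u => e (Quotient.mk (st h) u)) _ u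
  refine ⟨fun u => if hu : D u then (g ⟨u, hu⟩).1 else u, ⟨fun u hu => ?_, fun u hu v hv E => ?_,
    fun v hv => ⟨(g.symm ⟨v, hv⟩).1, (g.symm ⟨v, hv⟩).2, ?_⟩⟩, fun u hu v hv => ?_⟩
  · simp only [Set.mem_ofPred_eq] at hu ⊢
    rw [dif_pos hu]; exact (g _).2
  · simp only [Set.mem_ofPred_eq] at hu hv
    simp only [dif_pos hu, dif_pos hv] at E
    exact congrArg Subtype.val (g.injective (Subtype.ext E))
  · simp only [dif_pos (g.symm ⟨v, hv⟩).2, Subtype.coe_eta, Equiv.apply_symm_apply]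
  · simp only [dif_pos hu, dif_pos hv]
    have h1 : R u v ↔ Quotient.mk (st h) ⟨u, hu⟩ = Quotient.mk (st h) ⟨v, hv⟩ :=
      (Quotient.eq (r := st h) (x := ⟨u, hu⟩) (y := ⟨v, hv⟩)).symm
    rw [h1, ← e.apply_eq_iff_eq, ← hg, ← hg]
    exact Quotient.eq

/-! recognizable structures -/

def DF (D : W → Prop) (f : ℕ → Option ℕ) : Prop := ∃ u, D u ∧ f = wd u

def RR (D : W → Prop) (R : W → W → Prop) (u v : W) : Prop := D u ∧ D v ∧ R u v

def RF (D : W → Prop) (R : W → W → Prop) (f g : ℕ → Option ℕ) : Prop :=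
  ∃ u v, RR D R u v ∧ f = wd u ∧ g = wd v

theorem rf_wd {u : W} {g : ℕ → Option ℕ} : RF D R (wd u) g ↔ ∃ v, RR D R u v ∧ g = wd v :=
  ⟨fun ⟨_, v, h1, h2, h3⟩ => ⟨v, wd_inj h2 ▸ h1, h3⟩, fun ⟨v, h1, h2⟩ => ⟨u, v, h1, rfl, h2⟩⟩

variable {N : ℕ} {Z : List ℕ}

theorem good_iff (hD : Rec (DF D) N) (hR : Rec (L2 (RR D R)) N) (hZ : ∀ u, D u → ∀ a ∈ u, a ∈ Z) :
    GoodE D R ↔ ¬ Ex (wu Z (N * (N * (N * (N * (N * N * (N * (N * N)))))))) fun u =>
      Ex (wu Z (N * (N * (N * (N * (N * N * (N * (N * N)))))))) fun v =>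
      Ex (wu Z (N * (N * (N * (N * (N * N * (N * (N * N)))))))) fun w =>
      D u ∧ D v ∧ D w ∧ (¬ R u u ∨ (R u v ∧ ¬ R v u) ∨ R u v ∧ R v w ∧ ¬ R u w) := by
  have hR' : Rec (fun F : ℕ → Option ℕ × Option ℕ => RF D R (fun i => (F i).1) fun i => (F i).2)
    N := hR
  have H := (hD.comap fun x : Option ℕ × Option ℕ × Option ℕ => x.1).and
    ((hD.comap fun x => x.2.1).and ((hD.comap fun x => x.2.2).and
    ((hR'.comap fun x => (x.1, x.1)).not.or (((hR'.comap fun x => (x.1, x.2.1)).and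
    (hR'.comap fun x => (x.2.1, x.1)).not).or ((hR'.comap fun x => (x.1, x.2.1)).and
    ((hR'.comap fun x => (x.2.1, x.2.2)).and (hR'.comap fun x => (x.1, x.2.2)).not))))))
  generalize N * (N * (N * (N * (N * N * (N * (N * N)))))) = M at H ⊢
  have e : ∀ u v, D u → D v → (RF D R (wd u) (wd v) ↔ R u v) := fun u v hu hv =>
    rf_wd.trans ⟨fun ⟨_, h1, h2⟩ => wd_inj h2 ▸ h1.2.2, fun h => ⟨v, ⟨hu, hv, h⟩, rfl⟩⟩
  constructor
  · rintro h ⟨u, -, v, -, w, -, hu, hv, hw, h1 | ⟨h1, h2⟩ | ⟨h1, h2, h3⟩⟩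
    exacts [h1 (h.1 u hu), h2 (h.2.1 u hu v hv h1), h3 (h.2.2 u hu v hv w hw h1 h2)]
  · intro h
    have key : ∀ u v w, D u → D v → D w →
        ¬ (¬ R u u ∨ (R u v ∧ ¬ R v u) ∨ R u v ∧ R v w ∧ ¬ R u w) := by
      intro u v w hu hv hw h1
      obtain ⟨F, ⟨⟨u', hu', e1⟩, ⟨v', hv', e2⟩, ⟨w', hw', e3⟩, h2⟩, -, h3⟩ := H.down
        (fun x => x.1 = none ∧ x.2.1 = none ∧ x.2.2 = none) 0 (u.length + v.length + w.length)
        (fun i => (wd u i, wd v i, wd w i)) ⟨⟨u, hu, rfl⟩, ⟨v, hv, rfl⟩, ⟨w, hw, rfl⟩, by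
          rw [← e u u hu hu, ← e u v hu hv, ← e v u hv hu, ← e v w hv hw, ← e u w hu hw] at h1
          exact h1⟩
        fun i hi => ⟨wd_none.2 (by omega), wd_none.2 (by omega), wd_none.2 (by omega)⟩
      have h4 := h3 M (by omega)
      rw [congrFun e1, congrFun e2, congrFun e3, wd_none, wd_none, wd_none] at h4
      refine h ⟨u', mem_wu.2 ⟨h4.1, hZ _ hu'⟩, v', mem_wu.2 ⟨h4.2.1, hZ _ hv'⟩, w',
        mem_wu.2 ⟨h4.2.2, hZ _ hw'⟩, hu', hv', hw', ?_⟩
      simp only [e1, e2, e3] at h2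
      rwa [e _ _ hu' hu', e _ _ hu' hv', e _ _ hv' hu', e _ _ hv' hw', e _ _ hu' hw'] at h2
    refine ⟨fun u hu => ?_, fun u hu v hv => ?_, fun u hu v hv w hw => ?_⟩
    · have := key u u u hu hu hu; tauto
    · have := key u v v hu hv hv; tauto
    · have := key u v w hu hv hw; tauto

theorem fin_iff (hZ : ∀ u, D u → ∀ a ∈ u, a ∈ Z) {X : Set W} (hX : ∀ u ∈ X, D u) :
    X.Finite ↔ ∃ n, ∀ u ∈ X, u.length ≤ n := by
  constructor
  · intro h
    obtain ⟨n, hn⟩ := (h.image List.length).bddAbove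
    exact ⟨n, fun u hu => hn ⟨u, hu, rfl⟩⟩
  · rintro ⟨n, hn⟩
    exact (wu Z n).finite_toSet.subset fun u hu => mem_wu.2 ⟨hn u hu, hZ u (hX u hu)⟩

theorem sz_eq (hR : Rec (L2 (RR D R)) N) (hZ : ∀ u, D u → ∀ a ∈ u, a ∈ Z) {u : W} (hu : D u) :
    sz D R u = ite' (Ex (wu Z (u.length + N + 1 + N)) fun v => D v ∧ R u v ∧ u.length + N < v.length)
      0 (dd (fil (fun v => D v ∧ R u v) (wu Z (u.length + N)))).length := by
  classical
  unfold ite'
  split_ifs with h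
  · obtain ⟨v, -, h1, h2, h3⟩ := h
    refine Set.Infinite.ncard fun hf => ?_
    obtain ⟨n, hn⟩ := (fin_iff hZ fun u hu => hu.1).1 hf
    obtain ⟨v', h4, h5⟩ := up2 hR ⟨hu, h1, h2⟩ h3 (n + 1)
    have := hn v' h4.2
    omega
  · rw [← List.toFinset_card_of_nodup (nodup_dd _), ← Set.ncard_coe_finset, sz]
    congr 1
    ext v
    simp only [cls, Set.mem_ofPred_eq, List.coe_toFinset, mem_dd, mem_fil, mem_wu]
    refine ⟨fun hv => ⟨⟨?_, hZ v hv.1⟩, hv⟩, fun h => h.2⟩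
    by_contra H
    obtain ⟨v', h1, h2, h3⟩ := down2 hR (K := u.length + N + 1) ⟨hu, hv⟩ (by omega) (by omega)
    exact h ⟨v', mem_wu.2 ⟨h3, hZ _ h1.2.1⟩, h1.2.1, h1.2.2, h2⟩

def Sh (D : W → Prop) (R : W → W → Prop) (k : ℕ) (u : W) : Prop :=
  D u ∧ sz D R u = k ∧ ∀ v, D v → R u v → u.length ≤ v.length

def GeF (D : W → Prop) (R : W → W → Prop) (k : ℕ) (f : ℕ → Option ℕ) : Prop :=
  ∃ g : ℕ → Fin k → Option ℕ, (∀ j, RF D R f fun i => g i j) ∧
    ∀ p : Fin k × Fin k, p.1 ≠ p.2 → ∃ i, g i p.1 ≠ g i p.2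

theorem rec_ge (hR : Rec (L2 (RR D R)) N) (k : ℕ) :
    Rec (GeF D R k) (2 ^ (N ^ k * (1 * 2) ^ (k * k))) := by
  have hR' : Rec (fun F : ℕ → Option ℕ × Option ℕ => RF D R (fun i => (F i).1) fun i => (F i).2)
    N := hR
  have := Rec.ex (R := fun (f : ℕ → Option ℕ) (g : ℕ → Fin k → Option ℕ) =>
    (∀ j, RF D R f fun i => g i j) ∧ ∀ p : Fin k × Fin k, p.1 ≠ p.2 → ∃ i, g i p.1 ≠ g i p.2)
    ((Rec.fall fun j => hR'.comap fun x : Option ℕ × (Fin k → Option ℕ) => (x.1, x.2 j)).and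
      (Rec.fall fun p : Fin k × Fin k => (Rec.const (p.1 ≠ p.2)).imp
        (Rec.pte fun x : Option ℕ × (Fin k → Option ℕ) => x.2 p.1 ≠ x.2 p.2)))
  simp only [Fintype.card_fin, Fintype.card_prod] at this
  exact this

theorem ge_iff {u : W} (hu : D u) (k : ℕ) : GeF D R k (wd u) ↔ k ≤ (cls D R u).encard := by
  constructor
  · rintro ⟨g, h1, h2⟩
    simp only [rf_wd] at h1
    choose v h3 h4 using h1
    have : Function.Injective v := fun i j e => by
      by_contra H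
      obtain ⟨n, hn⟩ := h2 (i, j) H
      exact hn (by rw [congrFun (h4 i), congrFun (h4 j), e])
    simpa using Set.encard_le_encard_of_injOn (s := Set.univ) (t := cls D R u)
      (fun j _ => (h3 j).2) this.injOn
  · intro h
    obtain ⟨t, h1, h2⟩ := Set.exists_subset_encard_eq h
    have hf := Set.finite_of_encard_eq_coe h2
    have := hf.to_subtype
    have hc : Nat.card t = k := by
      rw [Nat.card_coe_set_eq, Set.ncard, h2]; simp
    let e := (Finite.equivFinOfCardEq hc).symm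
    refine ⟨fun i j => wd (e j).1 i, fun j => rf_wd.2 ⟨_, ⟨hu, h1 (e j).2⟩, rfl⟩, fun p hp => ?_⟩
    by_contra H
    push Not at H
    exact hp (e.injective (Subtype.ext (wd_inj (funext H))))

def InfF (D : W → Prop) (R : W → W → Prop) (f : ℕ → Option ℕ) : Prop :=
  ∀ y, DF D y → ∃ g, RF D R f g ∧ ∃ i, g i ≠ none ∧ y i = none

theorem inf_iff (hZ : ∀ u, D u → ∀ a ∈ u, a ∈ Z) {u : W} (hu : D u) :
    InfF D R (wd u) ↔ (cls D R u).Infinite := by
  constructor
  · intro h hf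
    obtain ⟨n, hn⟩ := (fin_iff hZ fun u hu => hu.1).1 hf
    have key : ∀ m, ∃ y, D y ∧ m ≤ y.length ∧ y.length ≤ max n u.length := by
      intro m
      induction m with
      | zero => exact ⟨u, hu, by omega, by omega⟩
      | succ m ih =>
        obtain ⟨y, h1, h2, -⟩ := ih
        obtain ⟨g, h3, i, h4, h5⟩ := h _ ⟨y, h1, rfl⟩
        obtain ⟨v, h6, rfl⟩ := rf_wd.1 h3
        have := hn v h6.2
        rw [Ne, wd_none] at h4
        rw [wd_none] at h5
        exact ⟨v, h6.2.1, by omega, by omega⟩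
    obtain ⟨y, -, h1, h2⟩ := key (max n u.length + 1)
    omega
  · rintro h _ ⟨y, -, rfl⟩
    rw [Set.Infinite, fin_iff hZ fun u hu => hu.1] at h
    push Not at h
    obtain ⟨v, h1, h2⟩ := h y.length
    exact ⟨_, rf_wd.2 ⟨v, ⟨hu, h1⟩, rfl⟩, y.length, by rw [Ne, wd_none]; omega, wd_none.2 le_rfl⟩

def bd (N k : ℕ) : ℕ := 2 * (N * ((1 * 2 ^ (N * 2 ^ (N * 2)) * (1 * (2 ^ (N ^ k * (1 * 2) ^ (k * k)) *
  2 ^ (N ^ (k + 1) * (1 * 2) ^ ((k + 1) * (k + 1)))))) * 2 ^ (N * 2)))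

theorem rec_sh (hD : Rec (DF D) N) (hR : Rec (L2 (RR D R)) N) (hZ : ∀ u, D u → ∀ a ∈ u, a ∈ Z)
    (h : GoodE D R) (k : ℕ) : Rec (L2 fun x u => x = [] ∧ Sh D R k u) (bd N k) := by
  have hR' : Rec (fun F : ℕ → Option ℕ × Option ℕ => RF D R (fun i => (F i).1) fun i => (F i).2)
    N := hR
  have h1 : Rec (InfF D R) (2 ^ (N * 2 ^ (N * 2))) :=
    Rec.all (R := fun f y => DF D y → ∃ g, RF D R f g ∧ ∃ i, g i ≠ none ∧ y i = none)
      ((hD.comap Prod.snd).imp (Rec.ex (R := fun (F : ℕ → Option ℕ × Option ℕ) g =>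
        RF D R (fun i => (F i).1) g ∧ ∃ i, g i ≠ none ∧ (F i).2 = none)
        ((hR'.comap fun x : (Option ℕ × Option ℕ) × Option ℕ => (x.1.1, x.2)).and
          (Rec.pte fun x : (Option ℕ × Option ℕ) × Option ℕ => x.2 ≠ none ∧ x.1.2 = none))))
  have h2 := hD.and (((((Rec.const (k = 0)).and h1).or ((Rec.const (k ≠ 0)).and
    ((rec_ge hR k).and (rec_ge hR (k + 1)).not)))).and
    (Rec.all (R := fun f g => RF D R f g → ∀ i, g i = none → f i = none)
      (hR'.imp (Rec.pt fun x : Option ℕ × Option ℕ => x.2 = none → x.1 = none))))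
  have h3 : ∀ u, D u → ((k = 0 ∧ InfF D R (wd u) ∨ k ≠ 0 ∧ GeF D R k (wd u) ∧
      ¬ GeF D R (k + 1) (wd u)) ∧ (∀ g, RF D R (wd u) g → ∀ i, g i = none → wd u i = none) ↔
      sz D R u = k ∧ ∀ v, D v → R u v → u.length ≤ v.length) := fun u hu => by
    refine and_congr ?_ ⟨fun H v h1 h2 => wd_none.1 (H _ (rf_wd.2 ⟨v, ⟨hu, h1, h2⟩, rfl⟩) _
      (wd_none.2 le_rfl)), fun H g hg i hi => ?_⟩
    · rw [inf_iff hZ hu, ge_iff hu, ge_iff hu, sz]
      rcases (cls D R u).finite_or_infinite with hf | hf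
      · have : 0 < (cls D R u).ncard := (Set.ncard_pos hf).2 ⟨u, hu, h.1 u hu⟩
        rw [← hf.cast_ncard_eq]
        simp only [hf.not_infinite, Nat.cast_le, and_false, false_or]
        omega
      · simp [hf, hf.ncard, eq_comm]
    · obtain ⟨v, h1, rfl⟩ := rf_wd.1 hg
      exact wd_none.2 ((H v h1.2.1 h1.2.2).trans (wd_none.1 hi))
  refine ((Rec.pt fun x : Option ℕ × Option ℕ => x.1 = none).and (h2.comap Prod.snd)).of_iff
    fun F => ⟨fun ⟨h4, ⟨u, hu, e⟩, h5⟩ => ⟨[], u, ⟨rfl, hu, (h3 u hu).1 (e ▸ h5)⟩, funext h4, e⟩,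
      fun ⟨_, u, ⟨rfl, hu, h4⟩, e1, e2⟩ => ⟨congrFun e1, ⟨u, hu, e2⟩, e2 ▸ (h3 u hu).2 h4⟩⟩

theorem exists_sh (h : GoodE D R) {u : W} (hu : D u) : ∃ v, R u v ∧ Sh D R (sz D R u) v := by
  obtain ⟨v, hv, h1⟩ := (measure List.length).wf.has_min (cls D R u) ⟨u, hu, h.1 u hu⟩
  refine ⟨v, hv.2, hv.1, ?_, fun w h2 h3 => not_lt.1 (h1 w ⟨h2, h.2.2 _ hu _ hv.1 _ h2 hv.2 h3⟩)⟩
  rw [sz, sz]
  congr 1
  ext w
  exact and_congr_right fun hw => ⟨h.2.2 _ hu _ hv.1 _ hw hv.2,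
    h.2.2 _ hv.1 _ hu _ hw (h.2.1 _ hu _ hv.1 hv.2)⟩

theorem hg_bdd {B k : ℕ} (hB : Rec (L2 fun x u => x = [] ∧ Sh D R k u) B)
    (hZ : ∀ u, D u → ∀ a ∈ u, a ∈ Z) (h : GoodE D R) (j : ℕ) :
    HG D R k j ↔ (Ex (wu Z (B + 1 + B)) fun u => B < u.length ∧ D u ∧ sz D R u = k ∧
      Al (wu Z u.length) fun v => ¬ (D v ∧ R u v) ∨ u.length ≤ v.length) ∨
      Ex (wl (wu Z B) j) fun L => L.Nodup ∧ (Al L fun u => D u ∧ sz D R u = k) ∧
        Al L fun u => Al L fun v => ¬ R u v ∨ u = v := by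
  by_cases H : ∃ u, Sh D R k u ∧ B < u.length
  · obtain ⟨u, h1, h2⟩ := H
    refine iff_of_true ?_ (Or.inl ?_)
    · have key : ∃ L : List W, L.length = j ∧ (∀ u ∈ L, Sh D R k u) ∧
          L.Pairwise fun u v => v.length < u.length := by
        induction j with
        | zero => exact ⟨[], by simp⟩
        | succ j ih =>
          obtain ⟨L, h3, h4, h5⟩ := ih
          obtain ⟨v, ⟨-, h6⟩, h7⟩ := up2 hB (u := []) ⟨rfl, h1⟩ (by simpa)
            ((L.map List.length).sum + 1)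
          refine ⟨v :: L, by simp [h3], by simpa [h6] using h4, List.pairwise_cons.2 ⟨?_, h5⟩⟩
          intro w hw
          have := List.le_sum_of_mem (List.mem_map_of_mem (f := List.length) hw)
          omega
      obtain ⟨L, h3, h4, h5⟩ := key
      refine ⟨L, h3, h5.imp fun {a b} hab e => by simp [e] at hab,
        fun u hu => ⟨(h4 u hu).1, (h4 u hu).2.1⟩, fun u hu v hv huv => ?_⟩
      by_contra hne
      have h6 : L.Pairwise fun u v => u.length ≠ v.length := h5.imp fun {a b} hab => by omega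
      have : Std.Symm fun u v : W => u.length ≠ v.length := ⟨fun _ _ => Ne.symm⟩
      refine h6.forall hu hv hne (le_antisymm ((h4 u hu).2.2 v (h4 v hv).1 huv)
        ((h4 v hv).2.2 u (h4 u hu).1 (h.2.1 _ (h4 u hu).1 _ (h4 v hv).1 huv)))
    · obtain ⟨v, ⟨-, h3⟩, h4, h5⟩ := down2 hB (u := []) (K := B + 1) ⟨rfl, h1⟩ (by simp) h2
      refine ⟨v, mem_wu.2 ⟨h5, hZ _ h3.1⟩, h4, h3.1, h3.2.1, fun w _ => ?_⟩
      have := h3.2.2 w
      tauto
  · constructor
    · rintro ⟨L, h1, h2, h3, h4⟩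
      choose! r h5 h6 using fun u hu => exists_sh h (u := u) hu
      have key : ∀ u ∈ L, ∀ v ∈ L, R (r u) (r v) → u = v := fun u hu v hv e => by
        have hu' := (h3 u hu).1
        have hv' := (h3 v hv).1
        exact h4 u hu v hv (h.2.2 _ hu' _ (h6 v hv').1 _ hv' (h.2.2 _ hu' _ (h6 u hu').1 _
          (h6 v hv').1 (h5 u hu') e) (h.2.1 _ hv' _ (h6 v hv').1 (h5 v hv')))
      refine Or.inr ⟨L.map r, mem_wl.2 ⟨by simpa, ?_⟩, h2.map_on fun u hu v hv e => key u hu v hv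
        (e ▸ h.1 _ (h6 u (h3 u hu).1).1), ?_, ?_⟩
      · simp only [List.forall_mem_map]
        intro u hu
        have := h6 u (h3 u hu).1
        exact mem_wu.2 ⟨not_lt.1 fun hh => H ⟨_, (h3 u hu).2 ▸ this, hh⟩, hZ _ this.1⟩
      · simp only [Al, List.forall_mem_map]
        intro u hu
        have := h6 u (h3 u hu).1
        exact ⟨this.1, this.2.1.trans (h3 u hu).2⟩
      · simp only [Al, List.forall_mem_map]
        intro u hu v hv
        by_cases e : R (r u) (r v)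
        exacts [Or.inr (key u hu v hv e ▸ rfl), Or.inl e]
    · rintro (⟨u, -, h1, h2, h3, h4⟩ | ⟨L, h1, h2, h3, h4⟩)
      · refine absurd ⟨u, ⟨h2, h3, fun v h5 h6 => ?_⟩, h1⟩ H
        by_contra hh
        have := h4 v (mem_wu.2 ⟨by omega, hZ _ h5⟩)
        tauto
      · exact ⟨L, (mem_wl.1 h1).1, h2, h3, fun u hu v hv e => (h4 u hu v hv).resolve_left
          (not_not.2 e)⟩

end Pool.Agent.H73.AutEq
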