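import Pool.Agent.H73.AutEq2

/-!
Codes of automatic equivalence structures; the isomorphism relation is co-c.e.
-/

set_option autoImplicit false

namespace Pool.Agent.H73.AutEq

open Pool.Agent.H37 Encodable

abbrev Cd := (List (ℕ × ℕ × ℕ) × ℕ × List ℕ) × (List (ℕ × (Option ℕ × Option ℕ) × ℕ) × ℕ × List ℕ)

def dom (l : Cd) (w : W) : Prop := Acc l.1.1 l.1.2.2 l.1.2.1 w

def conv (u v : W) : List (Option ℕ × Option ℕ) :=
  List.map (fun i => (u[i]?, v[i]?)) (List.range (max u.length v.length))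

def rel (l : Cd) (u v : W) : Prop := Acc l.2.1 l.2.2.2 l.2.2.1 (conv u v)

def al (l : Cd) : List ℕ := l.1.1.map fun t => t.2.1

def nb (l : Cd) : ℕ :=
  2 ^ (l.1.1.length + 1) * 2 * (2 ^ (l.1.1.length + 1) * 2 * (2 ^ (l.2.1.length + 1) * 2))

theorem al_mem (l : Cd) : ∀ u, dom l u → ∀ a ∈ u, a ∈ al l := fun _ h => Acc.mem h

theorem rec_dom' (l : Cd) : Rec (DF (dom l)) (2 ^ (l.1.1.length + 1) * 2) :=
  (rec_acc l.1.1 l.1.2.2 l.1.2.1 some none fun _ => True).of_iff fun f => by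
    refine exists_congr fun w => and_congr_right fun _ => ?_
    have : ∀ i : ℕ, (w[i]?).elim none some = wd w i := fun i => by
      unfold wd; cases w[i]? <;> rfl
    simp [this, funext_iff]

theorem rec_dom (l : Cd) : Rec (DF (dom l)) (nb l) :=
  (rec_dom' l).mono (Nat.le_mul_of_pos_right _ (by positivity))

theorem conv_get (u v : W) (i : ℕ) :
    ((conv u v)[i]?).elim (none, none) id = (wd u i, wd v i) := by
  rcases lt_or_ge i (max u.length v.length) with h | h
  · simp only [conv, List.getElem?_map, List.getElem?_range h]; rfl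
  · rw [List.getElem?_eq_none (by simpa [conv] using h), wd_none.2 (by omega),
      wd_none.2 (by omega)]; rfl

theorem conv_ok (u v : W) : ∀ a ∈ conv u v, a ≠ (none, none) := by
  simp only [conv, List.forall_mem_map, List.mem_range, ne_eq, Prod.mk.injEq,
    List.getElem?_eq_none_iff]
  omega

theorem eq_of_get {A : Type} {b : A} {w w' : List A} (h : ∀ a ∈ w, a ≠ b) (h' : ∀ a ∈ w', a ≠ b)
    (e : ∀ i : ℕ, (w[i]?).elim b id = (w'[i]?).elim b id) : w = w' := by
  refine List.ext_getElem? fun i => ?_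
  have := e i
  cases h1 : w[i]? <;> cases h2 : w'[i]? <;> simp only [h1, h2, Option.elim, id] at this
  · rfl
  · exact absurd this.symm (h' _ (List.mem_of_getElem? h2))
  · exact absurd this (h _ (List.mem_of_getElem? h1))
  · rw [this]

theorem rec_rel (l : Cd) : Rec (L2 (RR (dom l) (rel l))) (nb l) :=
  (((rec_dom' l).comap Prod.fst).and (((rec_dom' l).comap Prod.snd).and
    (rec_acc l.2.1 l.2.2.2 l.2.2.1 id (none, none) fun a => a ≠ (none, none)))).of_iff fun F => by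
    constructor
    · rintro ⟨⟨u, hu, e1⟩, ⟨v, hv, e2⟩, w, h1, h2, h3⟩
      refine ⟨u, v, ⟨hu, hv, ?_⟩, e1, e2⟩
      rwa [eq_of_get h2 (conv_ok u v) fun i => by
        rw [conv_get, ← h3, ← e1, ← e2]] at h1
    · rintro ⟨u, v, ⟨hu, hv, h⟩, e1, e2⟩
      exact ⟨⟨u, hu, e1⟩, ⟨v, hv, e2⟩, _, h, conv_ok u v, fun i => by rw [conv_get, ← e1, ← e2]⟩

variable {α : Type} [Primcodable α] {O : Set (ℕ →. ℕ)}

@[fun_prop] theorem ci_dom {l : α → Cd} {w : α → W} (hl : CI O l) (hw : CI O w) :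
    CI O fun a => dom (l a) (w a) := by unfold dom; fun_prop

@[fun_prop] theorem ci_rel {l : α → Cd} {u v : α → W} (hl : CI O l) (hu : CI O u) (hv : CI O v) :
    CI O fun a => rel (l a) (u a) (v a) := by unfold rel conv; fun_prop

@[fun_prop] theorem ci_al' {l : α → Cd} (hl : CI O l) : CI O fun a => al (l a) := by
  unfold al; fun_prop

@[fun_prop] theorem ci_nb {l : α → Cd} (hl : CI O l) : CI O fun a => nb (l a) := by
  unfold nb; fun_prop

@[fun_prop] theorem ci_bd {n k : α → ℕ} (hn : CI O n) (hk : CI O k) :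
    CI O fun a => bd (n a) (k a) := by unfold bd; fun_prop

def Gd (l : Cd) : Prop := GoodE (dom l) (rel l)

@[fun_prop] theorem ci_gd {l : α → Cd} (hl : CI O l) : CI O fun a => Gd (l a) :=
  ci_iff' (by fun_prop) fun a => good_iff (rec_dom (l a)) (rec_rel (l a)) (al_mem (l a))

noncomputable def szc (l : Cd) (u : W) : ℕ :=
  ite' (Ex (wu (al l) (u.length + nb l + 1 + nb l)) fun v =>
    dom l v ∧ rel l u v ∧ u.length + nb l < v.length)
    0 (dd (fil (fun v => dom l v ∧ rel l u v) (wu (al l) (u.length + nb l)))).length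

@[fun_prop] theorem ci_szc {l : α → Cd} {w : α → W} (hl : CI O l) (hw : CI O w) :
    CI O fun a => szc (l a) (w a) := by unfold szc; fun_prop

def hgc (l : Cd) (k j : ℕ) : Prop :=
  (Ex (wu (al l) (bd (nb l) k + 1 + bd (nb l) k)) fun u => bd (nb l) k < u.length ∧ dom l u ∧
    szc l u = k ∧ Al (wu (al l) u.length) fun v => ¬ (dom l v ∧ rel l u v) ∨ u.length ≤ v.length) ∨
  Ex (wl (wu (al l) (bd (nb l) k)) j) fun L => L.Nodup ∧ (Al L fun u => dom l u ∧ szc l u = k) ∧
    Al L fun u => Al L fun v => ¬ rel l u v ∨ u = v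

@[fun_prop] theorem ci_hgc {l : α → Cd} {k j : α → ℕ} (hl : CI O l) (hk : CI O k) (hj : CI O j) :
    CI O fun a => hgc (l a) (k a) (j a) := by unfold hgc; fun_prop

theorem hg_hgc {l : Cd} (h : Gd l) (k j : ℕ) : HG (dom l) (rel l) k j ↔ hgc l k j := by
  have e : ∀ u, dom l u → sz (dom l) (rel l) u = szc l u := fun u hu =>
    sz_eq (rec_rel l) (al_mem l) hu
  have e1 : ∀ u (X : Prop), (dom l u ∧ sz (dom l) (rel l) u = k ∧ X) = (dom l u ∧ szc l u = k ∧ X) :=
    fun u X => propext (and_congr_right fun hu => by rw [e u hu])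
  have e2 : ∀ u, (dom l u ∧ sz (dom l) (rel l) u = k) = (dom l u ∧ szc l u = k) :=
    fun u => propext (and_congr_right fun hu => by rw [e u hu])
  rw [hg_bdd (rec_sh (rec_dom l) (rec_rel l) (al_mem l) h k) (al_mem l) h]
  simp only [e1, e2, hgc]

def nd (l : Cd) : Prop := l.1.1.Nodup ∧ l.1.2.2.Nodup ∧ l.2.1.Nodup ∧ l.2.2.2.Nodup

def dc (n : ℕ) : Cd := (decode n).getD (([], 0, []), ([], 0, []))

def ok (n : ℕ) : Prop := decode n = some (dc n) ∧ nd (dc n) ∧ Gd (dc n)

def IsoC (l l' : Cd) : Prop := Iso (dom l) (rel l) (dom l') (rel l')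

def EE (n m : ℕ) : Prop := (¬ ok n ∧ ¬ ok m) ∨ ok n ∧ ok m ∧ IsoC (dc n) (dc m)

@[fun_prop] theorem ci_dc {n : α → ℕ} (hn : CI O n) : CI O fun a => dc (n a) := by
  unfold dc; fun_prop

@[fun_prop] theorem ci_ok {n : α → ℕ} (hn : CI O n) : CI O fun a => ok (n a) := by
  unfold ok nd; fun_prop

theorem pi1 : ∃ P : ℕ × ℕ × ℕ → Prop, ComputablePred P ∧ ∀ x y, EE x y ↔ ∀ t, P (x, y, t) := by
  refine ⟨fun q => (¬ ok q.1 ∧ ¬ ok q.2.1) ∨ ok q.1 ∧ ok q.2.1 ∧
    (hgc (dc q.1) q.2.2.unpair.1 q.2.2.unpair.2 ↔ hgc (dc q.2.1) q.2.2.unpair.1 q.2.2.unpair.2),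
    cpred (by fun_prop), fun x y => ?_⟩
  unfold EE
  by_cases hx : ok x <;> by_cases hy : ok y <;> simp only [hx, hy, not_true, not_false_iff,
    and_self, true_and, false_and, and_false, false_or, or_false, forall_const]
  rw [IsoC, iso_iff hx.2.2 hy.2.2]
  simp only [hg_hgc hx.2.2, hg_hgc hy.2.2]
  exact ⟨fun h t => h _ _, fun h k j => by simpa using h (Nat.pair k j)⟩

theorem Acc.congr {A : Type} {T T' : List (ℕ × A × ℕ)} {F F' : List ℕ} (hT : ∀ t, t ∈ T ↔ t ∈ T')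
    (hF : ∀ t, t ∈ F ↔ t ∈ F') (w : List A) : ∀ q, Acc T F q w ↔ Acc T' F' q w := by
  induction w with
  | nil => exact hF
  | cons a w ih => simp [Acc, hT, ih]

theorem reduce {l : ℕ → Cd} (hl : CI ∅ l) (hg : ∀ x, Gd (l x)) :
    ∃ f : ℕ → ℕ, Computable f ∧ ∀ x y, EE (f x) (f y) ↔ IsoC (l x) (l y) := by
  let d : Cd → Cd := fun l => ((dd l.1.1, l.1.2.1, dd l.1.2.2), (dd l.2.1, l.2.2.1, dd l.2.2.2))
  have h1 : ∀ l, dc (encode (d l)) = d l := fun l => by simp only [dc, encodek, Option.getD_some]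
  have h2 : ∀ l, dom (d l) = dom l := fun l => funext fun w =>
    propext (Acc.congr (fun _ => mem_dd) (fun _ => mem_dd) _ _)
  have h3 : ∀ l, rel (d l) = rel l := fun l => funext₂ fun u v =>
    propext (Acc.congr (fun _ => mem_dd) (fun _ => mem_dd) _ _)
  have h4 : ∀ x, ok (encode (d (l x))) := fun x => by
    rw [ok, h1, Gd, h2, h3]
    exact ⟨encodek _, ⟨nodup_dd _, nodup_dd _, nodup_dd _, nodup_dd _⟩, hg x⟩
  refine ⟨fun x => encode (d (l x)), CI.computable (by simp only [d]; fun_prop), fun x y => ?_⟩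
  simp only [EE, h4, h1, IsoC, h2, h3, not_true, and_self, false_or, true_and]

theorem dec_finset {β : Type} [Encodable β] [DecidableEq β] (n : ℕ) (s : Finset β) :
    decode n = some s ↔ ∃ l : List β, decode n = some l ∧ l.Nodup ∧ s = l.toFinset := by
  obtain rfl : ‹DecidableEq β› = decidableEqOfEncodable β := Subsingleton.elim _ _
  let _ := decidableEqOfEncodable β
  rw [show (decode n : Option (Finset β)) = _ from decode_ofEquiv _ n]
  change Option.map _ (((fun l : List β => (l : Multiset β)) <$> decode (α := List β) n).bind _) = _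
    ↔ _
  cases decode (α := List β) n with
  | none => simp
  | some l =>
    by_cases h : l.Nodup
    · simp only [Option.map_eq_map, Option.map_some, Option.bind_some, Multiset.coe_nodup, h,
        dif_pos, Option.some.injEq, exists_eq_left', true_and]
      rw [← List.toFinset_eq h, eq_comm]
      rfl
    · simp [h]

abbrev Pr := (Finset (ℕ × ℕ × ℕ) × ℕ × Finset ℕ) ×
  (Finset (ℕ × (Option ℕ × Option ℕ) × ℕ) × ℕ × Finset ℕ)

def toF (l : Cd) : Pr :=
  ((l.1.1.toFinset, l.1.2.1, l.1.2.2.toFinset), (l.2.1.toFinset, l.2.2.1, l.2.2.2.toFinset))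

theorem dec_prod {β γ : Type} [Encodable β] [Encodable γ] (n : ℕ) (p : β × γ) :
    decode n = some p ↔ decode n.unpair.1 = some p.1 ∧ decode n.unpair.2 = some p.2 := by
  rw [decode_prod_val]
  cases decode (α := β) n.unpair.1 <;> cases decode (α := γ) n.unpair.2 <;> simp [Prod.ext_iff]

theorem dec_pr (n : ℕ) (p : Pr) :
    decode n = some p ↔ decode n = some (dc n) ∧ nd (dc n) ∧ p = toF (dc n) := by
  have : decode n = some p ↔ ∃ l : Cd, decode n = some l ∧ nd l ∧ p = toF l := by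
    simp only [dec_prod, dec_finset]
    constructor
    · rintro ⟨⟨⟨a, a1, a2, a3⟩, b, c, c1, c2, c3⟩, ⟨d, d1, d2, d3⟩, e, f, f1, f2, f3⟩
      refine ⟨((a, p.1.2.1, c), (d, p.2.2.1, f)), ⟨⟨a1, b, c1⟩, d1, e, f1⟩, ⟨a2, c2, d2, f2⟩, ?_⟩
      simp only [toF, ← a3, ← c3, ← d3, ← f3]
    · rintro ⟨l, ⟨⟨a1, b, c1⟩, d1, e, f1⟩, ⟨a2, c2, d2, f2⟩, rfl⟩
      exact ⟨⟨⟨_, a1, a2, rfl⟩, b, _, c1, c2, rfl⟩, ⟨_, d1, d2, rfl⟩, e, _, f1, f2, rfl⟩
  rw [this]
  constructor
  · rintro ⟨l, h1, h2⟩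
    have : dc n = l := by simp only [dc, h1, Option.getD_some]
    exact this ▸ ⟨h1, h2⟩
  · exact fun h => ⟨_, h⟩

end Pool.Agent.H73.AutEq
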