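import Pool.Agent.H73.AutEq3

/-!
Rational counting functions, their realization by automata, and the reduction of co-c.e.
equivalence relations to equality of uniformly decidable sets.
-/

set_option autoImplicit false

namespace Pool.Agent.H73.AutEq

open Pool.Agent.H37 Finset

variable {Γ : Type}

def Rat (g : List Γ → ℕ) : Prop :=
  ∃ (Q : Type) (_ : Fintype Q) (G : Q → List Γ → ℕ) (μ : Γ → Q → Q → ℕ) (ι : Q → ℕ),
    (∀ q a γ, G q (a :: γ) = ∑ q', μ a q q' * G q' γ) ∧ (∀ q, G q [] ≤ 1) ∧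
      ∀ γ, g γ = ∑ q, ι q * G q γ

theorem Rat.const (c : ℕ) : Rat fun _ : List Γ => c :=
  ⟨Unit, inferInstance, fun _ _ => 1, fun _ _ _ => 1, fun _ => c, by simp, by simp, by simp⟩

theorem Rat.add {g g' : List Γ → ℕ} (h : Rat g) (h' : Rat g') : Rat fun γ => g γ + g' γ := by
  obtain ⟨Q, _, G, μ, ι, h1, h2, h3⟩ := h
  obtain ⟨Q', _, G', μ', ι', h1', h2', h3'⟩ := h'
  refine ⟨Q ⊕ Q', inferInstance, Sum.elim G G', fun a => Sum.elim
    (fun q => Sum.elim (μ a q) fun _ => 0) fun q => Sum.elim (fun _ => 0) (μ' a q),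
    Sum.elim ι ι', ?_, ?_, ?_⟩
  · rintro (q | q) a γ <;> simp [h1, h1']
  · rintro (q | q) <;> simp [h2, h2']
  · simp [h3, h3']

theorem Rat.mul {g g' : List Γ → ℕ} (h : Rat g) (h' : Rat g') : Rat fun γ => g γ * g' γ := by
  obtain ⟨Q, _, G, μ, ι, h1, h2, h3⟩ := h
  obtain ⟨Q', _, G', μ', ι', h1', h2', h3'⟩ := h'
  refine ⟨Q × Q', inferInstance, fun q γ => G q.1 γ * G' q.2 γ,
    fun a q q' => μ a q.1 q'.1 * μ' a q.2 q'.2, fun q => ι q.1 * ι' q.2, fun q a γ => ?_,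
    fun q => mul_le_one' (h2 _) (h2' _), fun γ => ?_⟩
  · simp only [h1, h1', sum_mul_sum, Fintype.sum_prod_type]
    exact sum_congr rfl fun _ _ => sum_congr rfl fun _ _ => by ring
  · simp only [h3, h3', sum_mul_sum, Fintype.sum_prod_type]
    exact sum_congr rfl fun _ _ => sum_congr rfl fun _ _ => by ring

variable [BEq Γ] [LawfulBEq Γ]

theorem Rat.count (c : Γ) : Rat fun γ : List Γ => γ.count c := by
  classical
  refine ⟨Bool, inferInstance, fun q γ => cond q (γ.count c) 1,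
    fun a q q' => cond q (cond q' 1 (if a = c then 1 else 0)) (cond q' 0 1),
    fun q => cond q 1 0, ?_, ?_, ?_⟩
  · rintro (_ | _) a γ <;> simp [List.count_cons]
  · rintro (_ | _) <;> simp
  · simp

theorem Rat.ind0 (c : Γ) : Rat fun γ : List Γ => if γ.count c = 0 then 1 else 0 := by
  classical
  refine ⟨Unit, inferInstance, fun _ γ => if γ.count c = 0 then 1 else 0,
    fun a _ _ => if a = c then 0 else 1, fun _ => 1, fun _ a γ => ?_, by simp, by simp⟩
  by_cases h : a = c <;> simp [h]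

theorem Rat.ind1 (c : Γ) : Rat fun γ : List Γ => if γ.count c = 0 then 0 else 1 := by
  classical
  refine ⟨Bool, inferInstance, fun q γ => cond q (if γ.count c = 0 then 0 else 1) 1,
    fun a q q' => cond q (cond q' (if a = c then 0 else 1) (if a = c then 1 else 0)) (cond q' 0 1),
    fun q => cond q 1 0, ?_, ?_, ?_⟩
  · rintro (_ | _) a γ <;> by_cases h : a = c <;> simp [h]
  · rintro (_ | _) <;> simp
  · simp

omit [BEq Γ] [LawfulBEq Γ]

theorem poly_rat {α : Type} {f : (α → ℕ) → ℤ} (h : IsPoly f) : ∃ p1 p2 : (α → ℕ) → ℕ,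
    (∀ v, f v = p1 v - p2 v) ∧ ∀ val : α → List Γ → ℕ, (∀ a, Rat (val a)) →
      Rat (fun γ => p1 fun a => val a γ) ∧ Rat fun γ => p2 fun a => val a γ := by
  induction h with
  | proj i => exact ⟨fun v => v i, fun _ => 0, by simp, fun val h => ⟨h i, Rat.const 0⟩⟩
  | const n => exact ⟨fun _ => n.toNat, fun _ => (-n).toNat, fun _ => by beta_reduce; omega,
      fun _ _ => ⟨Rat.const _, Rat.const _⟩⟩
  | sub _ _ ih ih' =>
    obtain ⟨p1, p2, h1, h2⟩ := ih
    obtain ⟨q1, q2, h3, h4⟩ := ih'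
    exact ⟨fun v => p1 v + q2 v, fun v => p2 v + q1 v,
      fun v => by beta_reduce; rw [h1, h3]; push_cast; ring,
      fun val h => ⟨(h2 val h).1.add (h4 val h).2, (h2 val h).2.add (h4 val h).1⟩⟩
  | mul _ _ ih ih' =>
    obtain ⟨p1, p2, h1, h2⟩ := ih
    obtain ⟨q1, q2, h3, h4⟩ := ih'
    exact ⟨fun v => p1 v * q1 v + p2 v * q2 v, fun v => p1 v * q2 v + p2 v * q1 v,
      fun v => by beta_reduce; rw [h1, h3]; push_cast; ring,
      fun val h => ⟨((h2 val h).1.mul (h4 val h).1).add ((h2 val h).2.mul (h4 val h).2),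
        ((h2 val h).1.mul (h4 val h).2).add ((h2 val h).2.mul (h4 val h).1)⟩⟩

theorem poly_fin {α : Type} {f : (α → ℕ) → ℤ} (h : IsPoly f) :
    ∃ s : Finset α, ∀ v v', (∀ a ∈ s, v a = v' a) → f v = f v' := by
  classical
  induction h with
  | proj i => exact ⟨{i}, fun v v' h => by beta_reduce; rw [h i (mem_singleton_self _)]⟩
  | const n => exact ⟨∅, fun _ _ _ => rfl⟩
  | sub _ _ ih ih' =>
    obtain ⟨s, h1⟩ := ih
    obtain ⟨t, h2⟩ := ih'
    exact ⟨s ∪ t, fun v v' h => by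
      beta_reduce
      rw [h1 v v' fun a ha => h a (mem_union_left _ ha),
        h2 v v' fun a ha => h a (mem_union_right _ ha)]⟩
  | mul _ _ ih ih' =>
    obtain ⟨s, h1⟩ := ih
    obtain ⟨t, h2⟩ := ih'
    exact ⟨s ∪ t, fun v v' h => by
      beta_reduce
      rw [h1 v v' fun a ha => h a (mem_union_left _ ha),
        h2 v v' fun a ha => h a (mem_union_right _ ha)]⟩

def pj (n : ℕ) : ℕ := n.unpair.1

theorem auto [Fintype Γ] (e : Γ → ℕ) (he : Function.Injective e) {g : List Γ → ℕ} (h : Rat g) :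
    ∃ (T : List (ℕ × ℕ × ℕ)) (F : List ℕ) (q : ℕ),
      (∀ w, Acc T F q w → ∃ γ : List Γ, γ ≠ [] ∧ w.map pj = γ.map e) ∧
      ∀ γ : List Γ, γ ≠ [] → {w | Acc T F q w ∧ w.map pj = γ.map e}.ncard = g γ := by
  classical
  obtain ⟨Q, _, G0, μ0, ι, h1, h2, h3⟩ := h
  let G : Option Q → List Γ → ℕ := fun q γ => q.elim (if γ = [] then 0 else g γ) fun q => G0 q γ
  let μ : Γ → Option Q → Option Q → ℕ := fun a q q' =>
    q'.elim 0 fun q' => q.elim (∑ p, ι p * μ0 a p q') fun q => μ0 a q q'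
  have hG : ∀ q a γ, G q (a :: γ) = ∑ q', μ a q q' * G q' γ := by
    rintro (_ | q) a γ
    · simp only [G, μ, Fintype.sum_option, Option.elim, reduceCtorEq, if_false, h3, h1, mul_sum,
        sum_mul, zero_mul, zero_add, mul_assoc]
      exact sum_comm
    · simp [G, μ, h1]
  have hG1 : ∀ q, G q [] ≤ 1 := by
    rintro (_ | q) <;> simp [G, h2]
  obtain ⟨s, hs⟩ := Countable.exists_injective_nat (Option Q)
  let lt : Γ → Option Q → ℕ → ℕ := fun a q k => Nat.pair (e a) (Nat.pair (s q) k)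
  let T : List (ℕ × ℕ × ℕ) := (univ : Finset (Option Q × Γ × Option Q)).toList.flatMap fun x =>
    (List.range (μ x.2.1 x.1 x.2.2)).map fun k => (s x.1, lt x.2.1 x.2.2 k, s x.2.2)
  let F : List ℕ := (univ.filter fun q => G q [] = 1).toList.map s
  have hT : ∀ q b n, (s q, b, n) ∈ T ↔ ∃ a q' k, k < μ a q q' ∧ b = lt a q' k ∧ n = s q' := by
    intro q b n
    simp only [T, List.mem_flatMap, mem_toList, mem_univ, true_and, List.mem_map, List.mem_range,
      Prod.mk.injEq, hs.eq_iff, Prod.exists]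
    constructor
    · rintro ⟨_, a, q', k, h4, rfl, rfl, rfl⟩
      exact ⟨a, q', k, h4, rfl, rfl⟩
    · rintro ⟨a, q', k, h4, rfl, rfl⟩
      exact ⟨_, a, q', k, h4, rfl, rfl, rfl⟩
  have hF : ∀ q, s q ∈ F ↔ G q [] = 1 := fun q => by simp [F, hs.eq_iff]
  have hp : ∀ a q k, pj (lt a q k) = e a := fun a q k => by simp [pj, lt]
  have k1 : ∀ w q, Acc T F (s q) w → ∃ γ : List Γ, w.map pj = γ.map e := by
    intro w
    induction w with
    | nil => exact fun _ _ => ⟨[], rfl⟩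
    | cons b w ih =>
      rintro q ⟨n, h4, h5⟩
      obtain ⟨a, q', k, -, rfl, rfl⟩ := (hT _ _ _).1 h4
      obtain ⟨γ, h6⟩ := ih _ h5
      exact ⟨a :: γ, by simp [hp, h6]⟩
  have k2 : ∀ (γ : List Γ) q, ∃ X : Finset W, X.card = G q γ ∧
      ∀ w, w ∈ X ↔ Acc T F (s q) w ∧ w.map pj = γ.map e := by
    intro γ
    induction γ with
    | nil =>
      intro q
      refine ⟨if G q [] = 1 then {[]} else ∅, ?_, fun w => ?_⟩
      · have := hG1 q
        split_ifs with h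
        · simp [h]
        · simp only [card_empty]; omega
      · cases w <;> split_ifs with h <;> simp [Acc, hF, h]
    | cons a γ ih =>
      intro q
      choose X hX1 hX2 using ih
      refine ⟨(univ.sigma fun q' => range (μ a q q') ×ˢ X q').image
        fun x => lt a x.1 x.2.1 :: x.2.2, ?_, fun w => ?_⟩
      · rw [card_image_of_injective, card_sigma, hG]
        · simp [hX1]
        · rintro ⟨x1, x2, x3⟩ ⟨y1, y2, y3⟩ E
          simp only [lt, List.cons.injEq, Nat.pair_eq_pair, hs.eq_iff, true_and] at E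
          obtain ⟨⟨rfl, rfl⟩, rfl⟩ := E
          rfl
      · simp only [mem_image, mem_sigma, mem_univ, true_and, mem_product, mem_range, hX2]
        constructor
        · rintro ⟨⟨q', k, v⟩, ⟨h4, h5, h6⟩, rfl⟩
          exact ⟨⟨_, (hT _ _ _).2 ⟨a, q', k, h4, rfl, rfl⟩, h5⟩, by simpa [hp] using h6⟩
        · rintro ⟨h4, h5⟩
          cases w with
          | nil => simp at h5
          | cons b w =>
            obtain ⟨n, h6, h7⟩ := h4
            obtain ⟨a', q', k, h8, rfl, rfl⟩ := (hT _ _ _).1 h6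
            simp only [List.map_cons, hp, List.cons.injEq, he.eq_iff] at h5
            obtain ⟨rfl, h5⟩ := h5
            exact ⟨⟨q', k, w⟩, ⟨h8, h7, h5⟩, rfl⟩
  refine ⟨T, F, s none, fun w hw => ?_, fun γ hγ => ?_⟩
  · obtain ⟨γ, h4⟩ := k1 w _ hw
    refine ⟨γ, ?_, h4⟩
    rintro rfl
    obtain rfl : w = [] := by simpa using h4
    simp [Acc, hF, G] at hw
  · obtain ⟨X, h4, h5⟩ := k2 γ none
    rw [← funext fun w => propext (h5 w)]
    simpa [G, hγ] using h4

theorem iter_eq {σ : ℕ → ℕ} (h : ∀ z, σ z ≤ z) (z : ℕ) : ∀ k, z ≤ k → σ^[k] z = σ^[z] z := by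
  induction z using Nat.strong_induction_on with
  | _ z ih =>
    intro k hk
    rcases (h z).eq_or_lt with e | e
    · rw [Function.iterate_fixed e, Function.iterate_fixed e]
    · obtain ⟨k, rfl⟩ : ∃ j, k = j + 1 := ⟨k - 1, by omega⟩
      obtain ⟨z, rfl⟩ : ∃ j, z = j + 1 := ⟨z - 1, by omega⟩
      rw [Function.iterate_succ_apply, Function.iterate_succ_apply, ih _ e k (by omega),
        ih _ e z (by omega)]

theorem inmn {R : ℕ → ℕ → Prop} (hR : Equivalence R) {P : ℕ × ℕ × ℕ → Prop} (hP : CI ∅ P)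
    (h : ∀ x y, R x y ↔ ∀ t, P (x, y, t)) :
    ∃ g : ℕ → ℕ → Prop, CI ∅ (fun q : ℕ × ℕ => g q.1 q.2) ∧
      ∀ x y, R x y ↔ ∀ s, g x s ↔ g y s := by
  classical
  let Q : ℕ → ℕ → ℕ → Prop := fun s a b => Al (List.range s) fun t => P (a, b, t)
  have hQ : ∀ s a b, Q s a b ↔ ∀ t < s, P (a, b, t) := fun s a b => by simp [Q, Al]
  let V : ℕ → ℕ → Prop := fun m s => m ≤ s ∧ Al (List.range (m + 1)) fun a =>
    Al (List.range (m + 1)) fun b => Al (List.range (m + 1)) fun c =>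
      (¬ Q s a b ∨ Q s b a) ∧ (¬ Q s a b ∨ ¬ Q s b c ∨ Q s a c)
  have hV : ∀ m s, V m s ↔ m ≤ s ∧ ∀ a ≤ m, ∀ b ≤ m, ∀ c ≤ m,
      (Q s a b → Q s b a) ∧ (Q s a b → Q s b c → Q s a c) := fun m s => by
    simp only [V, Al, List.mem_range, Nat.lt_succ_iff, imp_iff_not_or (a := Q _ _ _)]
  have ex : ∀ m, ∃ s, decide (V m s) = true := fun m => by
    have h1 : ∀ a b, ∀ᶠ s in Filter.atTop, Q s a b ↔ R a b := fun a b => by
      by_cases H : R a b
      · exact Filter.Eventually.of_forall fun s => iff_of_true ((hQ ..).2 fun t _ => (h ..).1 H t) H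
      · obtain ⟨t, ht⟩ := not_forall.1 (mt (h a b).2 H)
        filter_upwards [Filter.eventually_gt_atTop t] with s hs
        exact iff_of_false (fun h2 => ht ((hQ ..).1 h2 t hs)) H
    obtain ⟨s, h2, h3⟩ := ((Filter.eventually_ge_atTop m).and
      ((Filter.eventually_all_finite (Set.finite_Iic m)).2 fun a _ =>
        (Filter.eventually_all_finite (Set.finite_Iic m)).2 fun b _ => h1 a b)).exists
    refine ⟨s, decide_eq_true ((hV ..).2 ⟨h2, fun a ha b hb c hc => ?_⟩)⟩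
    rw [h3 a ha b hb, h3 b hb a ha, h3 b hb c hc, h3 a ha c hc]
    exact ⟨hR.symm, hR.trans⟩
  let st : ℕ → ℕ := fun m => Nat.find (ex m)
  have cst : CI ∅ st := CI.find (p := fun m s => decide (V m s))
    (ci_dec (by simp only [V, Q]; fun_prop)) ex
  have s1 : ∀ m, V m (st m) := fun m => of_decide_eq_true (Nat.find_spec (ex m))
  have s2 : ∀ m m', m ≤ m' → st m ≤ st m' := fun m m' hm => Nat.find_min' _ (decide_eq_true (by
    have := (hV ..).1 (s1 m')
    exact (hV ..).2 ⟨by omega, fun a ha b hb c hc =>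
      this.2 a (by omega) b (by omega) c (by omega)⟩))
  have s3 : ∀ m m' a b, m ≤ m' → Q (st m') a b → Q (st m) a b := fun m m' a b hm H =>
    (hQ ..).2 fun t ht => (hQ ..).1 H t (ht.trans_le (s2 _ _ hm))
  have s4 : ∀ s a b, R a b → Q s a b := fun s a b H => (hQ ..).2 fun t _ => (h ..).1 H t
  have ex2 : ∀ q : ℕ × ℕ, ∃ w, decide (Q (st (max q.1 q.2)) w q.2) = true := fun q =>
    ⟨q.2, decide_eq_true (s4 _ _ _ (hR.refl _))⟩
  let σ : ℕ × ℕ → ℕ := fun q => Nat.find (ex2 q)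
  have cσ : CI ∅ σ := CI.find (p := fun (q : ℕ × ℕ) w => decide (Q (st (max q.1 q.2)) w q.2))
    (ci_dec (by simp only [Q]; fun_prop)) ex2
  have t1 : ∀ n z, Q (st (max n z)) (σ (n, z)) z := fun n z =>
    of_decide_eq_true (Nat.find_spec (ex2 (n, z)))
  have t2 : ∀ n z w, Q (st (max n z)) w z → σ (n, z) ≤ w := fun n z w H =>
    Nat.find_min' _ (decide_eq_true H)
  have t3 : ∀ n z, σ (n, z) ≤ z := fun n z => t2 _ _ _ (s4 _ _ _ (hR.refl _))
  clear_value σ st
  let lim : ℕ → ℕ → ℕ := fun n x => (fun z => σ (n, z))^[x] x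
  have l1 : ∀ n z, lim n (σ (n, z)) = lim n z := fun n z => by
    have := iter_eq (t3 n)
    simp only [lim]
    rw [← this _ z (t3 n z), ← this z (z + 1) (by omega), Function.iterate_succ_apply]
  have l2 : ∀ n y z m, z < y → y ≤ m → n ≤ m → Q (st m) z y → lim n z = lim n y := by
    intro n y
    induction y using Nat.strong_induction_on with
    | _ y ih =>
      intro z m h1 h2 h3 h4
      have h5 := s3 (max n y) m _ _ (by omega) h4
      have h6 := ((hV ..).1 (s1 (max n y))).2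
      rw [← l1 n y]
      rcases (t2 _ _ _ h5).eq_or_lt with e | e
      · rw [e]
      · exact (ih z h1 _ (max n y) e (by omega) (by omega)
          ((h6 _ (by omega) y (by omega) z (by omega)).2 (t1 n y)
            ((h6 z (by omega) y (by omega) z (by omega)).1 h5))).symm
  have l3 : ∀ n x k, x ≤ n → (fun z => σ (n, z))^[k] x ≤ n ∧
      Q (st n) ((fun z => σ (n, z))^[k] x) x := by
    intro n x k hx
    induction k with
    | zero => exact ⟨hx, s4 _ _ _ (hR.refl _)⟩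
    | succ k ih =>
      rw [Function.iterate_succ_apply']
      have h1 := (t3 n _).trans ih.1
      have h2 := t1 n ((fun z => σ (n, z))^[k] x)
      rw [max_eq_left ih.1] at h2
      exact ⟨h1, (((hV ..).1 (s1 n)).2 _ h1 _ ih.1 _ hx).2 h2 ih.2⟩
  refine ⟨fun x s => lim s.unpair.1 x = s.unpair.2, by simp only [lim]; fun_prop, fun x y =>
    ⟨fun H s => ?_, fun H => (h ..).2 fun t => ?_⟩⟩
  · beta_reduce
    rcases lt_trichotomy x y with e | rfl | e
    · rw [l2 _ y x (max y s.unpair.1) e (by omega) (by omega) (s4 _ _ _ H)]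
    · rfl
    · rw [l2 _ x y (max x s.unpair.1) e (by omega) (by omega) (s4 _ _ _ (hR.symm H))]
  · obtain ⟨n, h1, h2, h3⟩ : ∃ n, t < n ∧ x ≤ n ∧ y ≤ n := ⟨t + 1 + x + y, by omega, by omega,
      by omega⟩
    have h4 : lim n y = lim n x := by simpa using H (Nat.pair n (lim n x))
    have h5 := l3 n x x h2
    have h6 := l3 n y y h3
    have h7 := (hV ..).1 (s1 n)
    simp only [lim] at h4
    rw [h4] at h6
    exact (hQ ..).1 ((h7.2 _ h2 _ h5.1 _ h3).2 ((h7.2 _ h5.1 _ h2 _ h2).1 h5.2) h6.2) t (by omega)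

theorem psi {g : ℕ → ℕ → Prop} (hg : CI ∅ fun q : ℕ × ℕ => g q.1 q.2) :
    ∃ (N : ℕ → Prop) (Ψ : ℕ → ℕ → Prop), REPred N ∧ CI ∅ (fun q : ℕ × ℕ => Ψ q.1 q.2) ∧
      ¬ N 0 ∧ (∀ x, Ψ x 0) ∧
      (∀ x n k, 2 ^ (x + 1) ≤ n → (Ψ x (2 ^ (x + 1) + n % 2 ^ (x + 1) + k) ↔ Ψ x (n + k))) ∧
      ∀ x y, (∀ n, N n → (Ψ x n ↔ Ψ y n)) ↔ ∀ s, g x s ↔ g y s := by
  classical
  let g' : ℕ × ℕ → Prop := fun q => g q.1 q.2
  have hg' : CI ∅ g' := hg
  have e' : ∀ x s, g' (x, s) = g x s := fun _ _ => rfl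
  clear_value g'
  let p : ℕ → ℕ → Prop := fun n s => 2 ^ (s + 1) ≤ n ∧ n < 2 ^ (s + 2) ∧
    Al (List.range (s + 1)) fun x => (n / 2 ^ x % 2 = 1 ↔ g' (x, s))
  let Ψ : ℕ → ℕ → Prop := fun x n => (n < 2 ^ (x + 1) ∧
    (n = 0 ∨ Ex (List.range n) fun s => p n s ∧ g' (x, s))) ∨ 2 ^ (x + 1) ≤ n ∧ n / 2 ^ x % 2 = 1
  have hb : ∀ n x, n / 2 ^ x % 2 = 1 ↔ n.testBit x = true := fun n x => by
    simp [Nat.testBit_eq_decide_div_mod_eq]
  have pw : ∀ {a b n : ℕ}, 2 ^ a ≤ n → n < 2 ^ b → a < b := fun h1 h2 =>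
    (Nat.pow_lt_pow_iff_right (by norm_num)).1 (h1.trans_lt h2)
  have k1 : ∀ n s x, p n s → (Ψ x n ↔ g x s) := by
    rintro n s x ⟨h1, h2, h3⟩
    have h4 : s + 1 < 2 ^ (s + 1) := Nat.lt_two_pow_self
    constructor
    · rintro (⟨-, h5 | ⟨s', -, ⟨h6, h7, -⟩, h8⟩⟩ | ⟨h5, h6⟩)
      · omega
      · have := pw h1 h7
        have := pw h6 h2
        obtain rfl : s = s' := by omega
        exact e' _ _ ▸ h8
      · exact e' _ _ ▸ (h3 x (by have := pw h5 h2; simp; omega)).1 h6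
    · intro h5
      rcases lt_or_ge n (2 ^ (x + 1)) with h6 | h6
      · exact Or.inl ⟨h6, Or.inr ⟨s, by simp; omega, ⟨h1, h2, h3⟩, (e' _ _).symm ▸ h5⟩⟩
      · exact Or.inr ⟨h6, (h3 x (by have := pw h6 h2; simp; omega)).2 ((e' _ _).symm ▸ h5)⟩
  have k2 : ∀ s, ∃ n, p n s := fun s => by
    refine ⟨Nat.ofBits fun i : Fin (s + 2) => decide (i.1 ≤ s → g i s),
      Nat.ge_two_pow_of_testBit (by simp), Nat.ofBits_lt_two_pow _,
      fun x hx => ?_⟩
    have : x ≤ s := by simpa [Nat.lt_succ_iff] using hx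
    simp [hb, e', this, show x < s + 2 by omega]
  refine ⟨fun n => ∃ s, p n s, Ψ, re_exists (cpred (by simp only [p]; fun_prop)).to_re,
    by simp only [Ψ, p]; fun_prop, fun ⟨s, h1, _⟩ => absurd h1 (by simp),
    fun x => Or.inl ⟨by positivity, Or.inl rfl⟩, fun x n k hn => ?_, fun x y =>
    ⟨fun H s => ?_, fun H n ⟨s, hs⟩ => by rw [k1 n s x hs, k1 n s y hs, H]⟩⟩
  · have h1 : ∀ a, 2 ^ (x + 1) ≤ a → (Ψ x a ↔ (a % 2 ^ (x + 1)).testBit x = true) := fun a ha => by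
      simp [Ψ, ha, hb, not_lt.2 ha, Nat.testBit_mod_two_pow]
    rw [h1 _ (by omega), h1 _ (by omega), add_assoc, Nat.add_mod_left, Nat.mod_add_mod]
  · obtain ⟨n, hn⟩ := k2 s
    rw [← k1 n s x hn, ← k1 n s y hn, H n ⟨s, hn⟩]

end Pool.Agent.H73.AutEq
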