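import Pool.Agent.H73.AutEq4
import Pool.Agent.H65.Dprm2

/-!
Every co-c.e. equivalence relation reduces to isomorphism of automatic equivalence structures.
-/

set_option autoImplicit false

namespace Pool.Agent.H73.AutEq

open Pool.Agent.H37

noncomputable def prodT (T : List (ℕ × ℕ × ℕ)) (z m : ℕ) : List (ℕ × ℕ × ℕ) :=
  T.flatMap fun t => (List.range (2 * m)).map fun c => (Nat.pair t.1 c, t.2.1, Nat.pair t.2.2
    (ite' (c + ite' (pj t.2.1 = z) 1 0 < m) (c + ite' (pj t.2.1 = z) 1 0)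
      (m + (c + ite' (pj t.2.1 = z) 1 0) % m)))

noncomputable def prodF (F : List ℕ) (Ψ : ℕ → Prop) (m : ℕ) : List ℕ :=
  F.flatMap fun q => (fil Ψ (List.range (2 * m))).map fun c => Nat.pair q c

theorem acc_prod {T : List (ℕ × ℕ × ℕ)} {F : List ℕ} {Ψ : ℕ → Prop} {z m : ℕ} (hm : 0 < m)
    (hΨ : ∀ n k, m ≤ n → (Ψ (m + n % m + k) ↔ Ψ (n + k))) (w : W) : ∀ q c, c < 2 * m →
    (Acc (prodT T z m) (prodF F Ψ m) (Nat.pair q c) w ↔ Acc T F q w ∧ Ψ (c + (w.map pj).count z)) := by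
  induction w with
  | nil => intro q c hc; simp [Acc, prodF, Nat.pair_eq_pair, hc]
  | cons a w ih =>
    intro q c hc
    obtain ⟨n, hn⟩ : ∃ n, n = c + ite' (pj a = z) 1 0 := ⟨_, rfl⟩
    have h1 : ite' (n < m) n (m + n % m) < 2 * m := by
      have := Nat.mod_lt n hm
      unfold ite'; split_ifs <;> omega
    have h2 : Ψ (ite' (n < m) n (m + n % m) + (w.map pj).count z) ↔
        Ψ (c + ((a :: w).map pj).count z) := by
      have : c + ((a :: w).map pj).count z = n + (w.map pj).count z := by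
        simp only [hn, ite', List.map_cons, List.count_cons, beq_iff_eq]
        split_ifs <;> omega
      rw [this, ite']
      split_ifs with h
      exacts [Iff.rfl, hΨ _ _ (by omega)]
    simp only [Acc, prodT, List.mem_flatMap, List.mem_map, List.mem_range, Prod.mk.injEq,
      Nat.pair_eq_pair, Prod.exists]
    constructor
    · rintro ⟨_, ⟨q1, b, q2, h3, c', -, ⟨rfl, rfl⟩, rfl, rfl⟩, h4⟩
      rw [← hn] at h4
      have := (ih _ _ h1).1 h4
      exact ⟨⟨q2, h3, this.1⟩, h2.1 this.2⟩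
    · rintro ⟨⟨q2, h3, h4⟩, h5⟩
      refine ⟨_, ⟨q, a, q2, h3, c, hc, ⟨rfl, rfl⟩, rfl, rfl⟩, ?_⟩
      rw [← hn]
      exact (ih _ _ h1).2 ⟨h4, h2.2 h5⟩

noncomputable def relT (Z : List ℕ) : List (ℕ × (Option ℕ × Option ℕ) × ℕ) :=
  Z.flatMap fun a => (fil (fun b => pj a = pj b) Z).map fun b => (0, (some a, some b), 0)

theorem acc_rel (Z : List ℕ) (w : List (Option ℕ × Option ℕ)) : Acc (relT Z) [0] 0 w ↔
    ∀ x ∈ w, ∃ a ∈ Z, ∃ b ∈ Z, pj a = pj b ∧ x = (some a, some b) := by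
  induction w with
  | nil => simp [Acc]
  | cons x w ih =>
    simp only [Acc, relT, List.mem_flatMap, List.mem_map, mem_fil, Prod.mk.injEq,
      List.forall_mem_cons, ← ih, true_and]
    constructor
    · rintro ⟨_, ⟨a, h1, b, ⟨h2, h3⟩, rfl, rfl⟩, h4⟩
      exact ⟨⟨a, h1, b, h2, h3, rfl⟩, h4⟩
    · rintro ⟨⟨a, h1, b, h2, h3, rfl⟩, h4⟩
      exact ⟨_, ⟨a, h1, b, ⟨h2, h3⟩, rfl, rfl⟩, h4⟩

theorem rel_iff {Z : List ℕ} {u v : W} (hu : ∀ a ∈ u, a ∈ Z) (hv : ∀ a ∈ v, a ∈ Z) :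
    Acc (relT Z) [0] 0 (conv u v) ↔ u.map pj = v.map pj := by
  simp only [acc_rel, conv, List.forall_mem_map, List.mem_range, Prod.mk.injEq]
  constructor
  · intro h
    refine List.ext_getElem? fun i => ?_
    simp only [List.getElem?_map]
    rcases lt_or_ge i (max u.length v.length) with hi | hi
    · obtain ⟨a, -, b, -, h1, h2, h3⟩ := h i hi
      simp [h1, h2, h3]
    · rw [List.getElem?_eq_none (by omega), List.getElem?_eq_none (by omega)]
  · intro h i hi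
    have hl : u.length = v.length := by simpa using congrArg List.length h
    have h1 : i < u.length := by omega
    have h2 : i < v.length := by omega
    refine ⟨u[i], hu _ (List.getElem_mem _), v[i], hv _ (List.getElem_mem _), ?_, by simp, by simp⟩
    simpa [h1, h2] using congrArg (·[i]?) h

theorem hg_of_family {D : W → Prop} {R : W → W → Prop} (h : GoodE D R) {k : ℕ} (w : ℕ → W)
    (h1 : ∀ i, D (w i) ∧ sz D R (w i) = k) (h2 : ∀ i j, R (w i) (w j) → i = j) (j : ℕ) :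
    HG D R k j := by
  refine ⟨(List.range j).map w, by simp, List.nodup_range.map fun a b e => h2 a b
    (e ▸ h.1 _ (h1 a).1), by simp [h1], ?_⟩
  simp only [List.forall_mem_map]
  intro a _ b _ e
  rw [h2 a b e]

/-- realization of a family of sets of class sizes -/
theorem family {Γ : Type} [Fintype Γ] [BEq Γ] [LawfulBEq Γ] (c d : Γ) (hcd : d ≠ c) {g : List Γ → ℕ}
    (hg : Rat g) (g0 : ∀ γ, 0 < g γ) (gd : ∀ γ, g (d :: γ) = g γ) {Ψ : ℕ → ℕ → Prop}
    (cΨ : CI ∅ fun q : ℕ × ℕ => Ψ q.1 q.2)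
    (hΨ : ∀ x n k, 2 ^ (x + 1) ≤ n → (Ψ x (2 ^ (x + 1) + n % 2 ^ (x + 1) + k) ↔ Ψ x (n + k))) :
    ∃ l : ℕ → Cd, CI ∅ l ∧ (∀ x, Gd (l x)) ∧ ∀ x y, IsoC (l x) (l y) ↔
      ∀ k, (∃ γ, Ψ x (γ.count c) ∧ g γ = k) ↔ ∃ γ, Ψ y (γ.count c) ∧ g γ = k := by
  obtain ⟨e, he⟩ := Countable.exists_injective_nat Γ
  obtain ⟨T, F, q, h1, h2⟩ := auto e he hg
  let l : ℕ → Cd := fun x => ((prodT T (e c) (2 ^ (x + 1)), Nat.pair q 0,
    prodF F (Ψ x) (2 ^ (x + 1))), (relT (T.map fun t => t.2.1), 0, [0]))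
  have hD : ∀ x w, dom (l x) w ↔ Acc T F q w ∧ Ψ x ((w.map pj).count (e c)) := fun x w => by
    have := acc_prod (T := T) (F := F) (z := e c) (by positivity) (hΨ x) w q 0 (by positivity)
    rwa [zero_add] at this
  have hR : ∀ x u v, Acc T F q u → Acc T F q v → (rel (l x) u v ↔ u.map pj = v.map pj) :=
    fun x u v hu hv => rel_iff hu.mem hv.mem
  have hR' : ∀ x u v, dom (l x) u → dom (l x) v → (rel (l x) u v ↔ u.map pj = v.map pj) :=
    fun x u v hu hv => hR x u v ((hD ..).1 hu).1 ((hD ..).1 hv).1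
  have hG : ∀ x, Gd (l x) := fun x => ⟨fun u hu => (hR' x u u hu hu).2 rfl,
    fun u hu v hv h => (hR' x v u hv hu).2 ((hR' x u v hu hv).1 h).symm,
    fun u hu v hv w hw h h' => (hR' x u w hu hw).2
      (((hR' x u v hu hv).1 h).trans ((hR' x v w hv hw).1 h'))⟩
  have hs : ∀ x u (γ : List Γ), γ ≠ [] → dom (l x) u → u.map pj = γ.map e →
      sz (dom (l x)) (rel (l x)) u = g γ := fun x u γ hγ hu E => by
    rw [← h2 γ hγ, sz]
    congr 1
    ext v
    have := (hD ..).1 hu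
    exact ⟨fun ⟨h3, h4⟩ => ⟨((hD ..).1 h3).1, by rw [← (hR' x u v hu h3).1 h4, E]⟩,
      fun ⟨h3, h4⟩ => ⟨(hD ..).2 ⟨h3, by rw [h4, ← E]; exact this.2⟩,
        (hR x u v this.1 h3).2 (E.trans h4.symm)⟩⟩
  have hH : ∀ x k j, HG (dom (l x)) (rel (l x)) k j ↔
      j = 0 ∨ ∃ γ, Ψ x (γ.count c) ∧ g γ = k := by
    intro x k j
    constructor
    · rintro ⟨_ | ⟨u, L⟩, rfl, -, h3, -⟩
      · exact Or.inl rfl
      · obtain ⟨h4, h5⟩ := h3 u List.mem_cons_self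
        obtain ⟨γ, h6, h7⟩ := h1 u ((hD ..).1 h4).1
        refine Or.inr ⟨γ, ?_, by rw [← h5, hs x u γ h6 h4 h7]⟩
        have := ((hD ..).1 h4).2
        rwa [h7, List.count_map_of_injective _ _ he] at this
    · rintro (rfl | ⟨γ, h3, rfl⟩)
      · exact ⟨[], by simp⟩
      have h4 : ∀ i, g (List.replicate i d ++ γ) = g γ := fun i => by
        induction i with
        | zero => rfl
        | succ i ih => rw [List.replicate_succ, List.cons_append, gd, ih]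
      have h5 : ∀ i, ∃ w, Acc T F q w ∧ w.map pj = (List.replicate (i + 1) d ++ γ).map e :=
        fun i => Set.nonempty_of_ncard_ne_zero ((h2 _ (by simp)).trans_ne (g0 _).ne')
      choose w h5 h6 using h5
      have h7 : ∀ i, dom (l x) (w i) := fun i => (hD ..).2 ⟨h5 i, by
        rw [h6, List.count_map_of_injective _ _ he]
        simpa [List.count_replicate, hcd] using h3⟩
      refine hg_of_family (hG x) w (fun i => ⟨h7 i, by rw [hs x _ _ (by simp) (h7 i) (h6 i), h4]⟩)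
        (fun i j h => ?_) j
      have := congrArg List.length ((hR' x _ _ (h7 i) (h7 j)).1 h)
      rw [h6, h6] at this
      simpa using this
  refine ⟨l, ?_, hG, fun x y => ?_⟩
  · have cj : CI ∅ pj := by unfold pj; fun_prop
    have h3 : CI ∅ fun x => fil (Ψ x) (List.range (2 * 2 ^ (x + 1))) := ci_fil cΨ (by fun_prop)
    simp only [l, prodT, prodF]
    generalize (fun x => fil (Ψ x) (List.range (2 * 2 ^ (x + 1)))) = u at h3
    fun_prop
  · rw [IsoC, iso_iff (hG x) (hG y)]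
    simp only [hH]
    exact ⟨fun h k => by simpa using h k 1, fun h k j => by rw [h k]⟩

def pr (a b : ℕ) : ℕ := (a + b) * (a + b) + a

theorem pr_inj {a b c d : ℕ} (h : pr a b = pr c d) : a = c ∧ b = d := by
  unfold pr at h
  have : a + b = c + d := by
    rcases lt_trichotomy (a + b) (c + d) with e | e | e
    · nlinarith [Nat.mul_self_le_mul_self (Nat.succ_le_of_lt e)]
    · exact e
    · nlinarith [Nat.mul_self_le_mul_self (Nat.succ_le_of_lt e)]
  rw [this] at h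
  omega

theorem Rat.pr {Γ : Type} {g g' : List Γ → ℕ} (h : Rat g) (h' : Rat g') :
    Rat fun γ => pr (g γ) (g' γ) := ((h.add h').mul (h.add h')).add h

theorem exists_count {Γ : Type} [Fintype Γ] [i : BEq Γ] [LawfulBEq Γ] (c : Γ → ℕ) :
    ∃ γ : List Γ, ∀ a, γ.count a = c a := by
  classical
  obtain rfl : i = instBEqOfDecidableEq := lawful_beq_subsingleton _ _
  exact ⟨(Finsupp.toMultiset (Finsupp.equivFunOnFinite.symm c)).toList, fun a => by
    rw [← Multiset.coe_count, Multiset.coe_toList, Finsupp.count_toMultiset]; rfl⟩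

theorem hard {R : ℕ → ℕ → Prop} (hR : Equivalence R) {P : ℕ × ℕ × ℕ → Prop}
    (hP : ComputablePred P) (h : ∀ x y, R x y ↔ ∀ t, P (x, y, t)) :
    ∃ f : ℕ → ℕ, Computable f ∧ ∀ x y, R x y ↔ EE (f x) (f y) := by
  classical
  obtain ⟨b, hb, hb'⟩ := computablePred_iff.1 hP
  obtain ⟨g, g1, g2⟩ := inmn hR (ci_of b hb hb') h
  obtain ⟨N, Ψ, h1, h2, h3, h4, h5, h6⟩ := psi g1
  obtain ⟨β, p, hp⟩ := Pool.Agent.H65.Dprm.re_dioph h1
  obtain ⟨s, hs⟩ := poly_fin p.isPoly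
  let _ : BEq (Fin 5 ⊕ s) := instBEqOfDecidableEq
  obtain ⟨p1, p2, e1, e2⟩ := poly_rat (Γ := Fin 5 ⊕ s) (p.isPoly.mul p.isPoly)
  let val : Unit ⊕ β → List (Fin 5 ⊕ s) → ℕ := Sum.elim (fun _ γ => γ.count (.inl 0))
    fun b γ => if h : .inr b ∈ s then γ.count (.inr ⟨_, h⟩) else 0
  have hv : ∀ a, Rat (val a) := by
    rintro (a | a)
    · exact Rat.count _
    · by_cases h : .inr a ∈ s <;> simp only [val, Sum.elim_inr, h, dif_pos, dif_neg, not_false_iff]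
      exacts [Rat.count _, Rat.const _]
  let Z : List (Fin 5 ⊕ s) → ℕ := fun γ =>
    (if γ.count (.inl 0) = 0 then 0 else 1) *
      (pr (γ.count (.inl 0)) (pr (p1 fun a => val a γ) (p2 fun a => val a γ)) + 1) +
    (if γ.count (.inl 0) = 0 then 1 else 0) * (pr (γ.count (.inl 1))
      (pr (γ.count (.inl 2) + 1 + γ.count (.inl 3)) (γ.count (.inl 2))) + 1)
  have hZ : Rat Z := ((Rat.ind1 _).mul (((Rat.count _).pr ((e2 val hv).1.pr (e2 val hv).2)).add
    (Rat.const 1))).add ((Rat.ind0 _).mul (((Rat.count _).pr ((((Rat.count _).add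
      (Rat.const 1)).add (Rat.count _)).pr (Rat.count _))).add (Rat.const 1)))
  have Z0 : ∀ γ : List (Fin 5 ⊕ s), γ.count (.inl 0) = 0 → Z γ = pr (γ.count (.inl 1))
      (pr (γ.count (.inl 2) + 1 + γ.count (.inl 3)) (γ.count (.inl 2))) + 1 := fun γ h => by
    simp [Z, h]
  have Z1 : ∀ γ : List (Fin 5 ⊕ s), γ.count (.inl 0) ≠ 0 → Z γ =
      pr (γ.count (.inl 0)) (pr (p1 fun a => val a γ) (p2 fun a => val a γ)) + 1 := fun γ h => by
    simp [Z, h]
  obtain ⟨l, l1, l2, l3⟩ := family (.inl 0) (.inl 4) (by simp) hZ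
    (fun γ => by
      by_cases h : γ.count (.inl 0) = 0
      · rw [Z0 γ h]; omega
      · rw [Z1 γ h]; omega)
    (fun γ => by
      have : ∀ a, val a (.inl 4 :: γ) = val a γ := by
        rintro (a | a) <;> simp [val]
      simp [Z, this]) h2 h5
  obtain ⟨f, f1, f2⟩ := reduce l1 l2
  refine ⟨f, f1, fun x y => ?_⟩
  rw [f2, l3, g2, ← h6]
  have k1 : ∀ x y, (∀ n, N n → Ψ x n → Ψ y n) → ∀ k, (∃ γ, Ψ x (γ.count (.inl 0)) ∧ Z γ = k) →
      ∃ γ, Ψ y (γ.count (.inl 0)) ∧ Z γ = k := by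
    rintro x y H _ ⟨γ, a1, rfl⟩
    by_cases h0 : γ.count (.inl 0) = 0
    · exact ⟨γ, h0 ▸ h4 y, rfl⟩
    have a2 := e1 fun a => val a γ
    by_cases a3 : p (fun a => val a γ) = 0
    · refine ⟨γ, H _ ((hp fun _ => γ.count (Sum.inl 0 : Fin 5 ⊕ s)).2
        ⟨fun b => val (.inr b) γ, ?_⟩) a1, rfl⟩
      convert a3 using 2
      ext (a | a) <;> rfl
    · have a4 := mul_self_pos.2 a3
      obtain ⟨γ', a5⟩ := exists_count (Γ := Fin 5 ⊕ s) (Sum.elim ![0, γ.count (.inl 0),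
        p2 fun a => val a γ, (p1 fun a => val a γ) - (p2 fun a => val a γ) - 1, 0] fun _ => 0)
      refine ⟨γ', by simpa [a5] using h4 y, ?_⟩
      rw [Z0 γ' (by simp [a5]), Z1 γ h0]
      simp only [a5, Sum.elim_inl, Matrix.cons_val]
      congr 3
      beta_reduce at a2
      omega
  have k2 : ∀ x y, (∀ k, (∃ γ, Ψ x (γ.count (.inl 0)) ∧ Z γ = k) →
      ∃ γ, Ψ y (γ.count (.inl 0)) ∧ Z γ = k) → ∀ n, N n → Ψ x n → Ψ y n := by
    intro x y H n hn hx
    obtain ⟨t, ht⟩ := (hp fun _ => n).1 hn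
    obtain ⟨γ, a1⟩ := exists_count (Γ := Fin 5 ⊕ s)
      (Sum.elim (fun _ => n) fun a => Sum.elim (fun _ => n) t a.1)
    have a2 : γ.count (.inl 0) = n := a1 _
    have a3 : p (fun a => val a γ) = 0 := by
      rw [← ht]
      refine hs _ _ ?_
      rintro (a | a) ha <;> simp [val, a1, ha]
    have a4 := e1 fun a => val a γ
    obtain ⟨γ', a5, a6⟩ := H _ ⟨γ, a2 ▸ hx, rfl⟩
    rw [Z1 γ (by rintro h; rw [a2] at h; exact h3 (h ▸ hn))] at a6
    by_cases h0 : γ'.count (.inl 0) = 0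
    · rw [Z0 γ' h0] at a6
      have := pr_inj (pr_inj (Nat.succ_injective a6)).2
      beta_reduce at a4
      rw [a3] at a4
      omega
    · rw [Z1 γ' h0] at a6
      rwa [(pr_inj (Nat.succ_injective a6)).1, a2] at a5
  exact ⟨fun H k => ⟨k1 x y (fun n hn => (H n hn).1) k, k1 y x (fun n hn => (H n hn).2) k⟩,
    fun H n hn => ⟨k2 x y (fun k => (H k).1) n hn, k2 y x (fun k => (H k).2) n hn⟩⟩

theorem main (Dom : Pr → Set (List ℕ)) (Rel : Pr → List ℕ → List ℕ → Prop) (Good : Pr → Prop)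
    (E : ℕ → ℕ → Prop)
    (hD : ∀ p w, w ∈ Dom p ↔
      w ∈ (⟨fun q a => {q' | (q, a, q') ∈ p.1.1}, {p.1.2.1}, (p.1.2.2 : Set ℕ)⟩ : NFA ℕ ℕ).accepts)
    (hR : ∀ p (u v : List ℕ), Rel p u v ↔
      (List.map (fun i => (u[i]?, v[i]?)) (List.range (max u.length v.length))) ∈
        (⟨fun q a => {q' | (q, a, q') ∈ p.2.1}, {p.2.2.1}, (p.2.2.2 : Set ℕ)⟩ :
          NFA (Option ℕ × Option ℕ) ℕ).accepts)
    (hG : ∀ p, Good p ↔
      ((∀ u ∈ Dom p, Rel p u u) ∧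
       (∀ u ∈ Dom p, ∀ v ∈ Dom p, Rel p u v → Rel p v u) ∧
       (∀ u ∈ Dom p, ∀ v ∈ Dom p, ∀ w ∈ Dom p, Rel p u v → Rel p v w → Rel p u w)))
    (hE : ∀ n m : ℕ, E n m ↔
      (((¬ ∃ p : Pr, Encodable.decode n = some p ∧ Good p) ∧
        (¬ ∃ q : Pr, Encodable.decode m = some q ∧ Good q)) ∨
       ∃ p q : Pr, Encodable.decode n = some p ∧ Encodable.decode m = some q ∧ Good p ∧ Good q ∧
         ∃ f : List ℕ → List ℕ, Set.BijOn f (Dom p) (Dom q) ∧
           ∀ u ∈ Dom p, ∀ v ∈ Dom p, (Rel p u v ↔ Rel q (f u) (f v)))) :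
    (∃ P : ℕ × ℕ × ℕ → Prop, ComputablePred P ∧ ∀ x y, E x y ↔ ∀ t, P (x, y, t)) ∧
    ∀ R : ℕ → ℕ → Prop, Equivalence R →
      (∃ P : ℕ × ℕ × ℕ → Prop, ComputablePred P ∧ ∀ x y, R x y ↔ ∀ t, P (x, y, t)) →
      ∃ f : ℕ → ℕ, Computable f ∧ ∀ x y, R x y ↔ E (f x) (f y) := by
  have h1 : ∀ l, Dom (toF l) = {w | dom l w} := fun l => Set.ext fun w => (hD _ w).trans
    (mem_accepts (fun _ _ _ => List.mem_toFinset) (fun _ => List.mem_toFinset) rfl w)
  have h2 : ∀ l, Rel (toF l) = rel l := fun l => funext₂ fun u v => propext ((hR _ u v).trans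
    (mem_accepts (fun _ _ _ => List.mem_toFinset) (fun _ => List.mem_toFinset) rfl _))
  have h3 : ∀ l, Good (toF l) ↔ Gd l := fun l => by rw [hG, h1, h2]; rfl
  have h4 : ∀ n, (∃ p : Pr, Encodable.decode n = some p ∧ Good p) ↔ ok n := fun n => by
    simp only [dec_pr]
    exact ⟨fun ⟨_, ⟨a, b, c⟩, d⟩ => ⟨a, b, (h3 _).1 (c ▸ d)⟩,
      fun ⟨a, b, c⟩ => ⟨_, ⟨a, b, rfl⟩, (h3 _).2 c⟩⟩
  obtain rfl : E = EE := funext₂ fun n m => propext ((hE n m).trans (by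
    rw [h4, h4]
    refine or_congr_right ?_
    simp only [dec_pr]
    constructor
    · rintro ⟨_, _, ⟨a, b, rfl⟩, ⟨c, d, rfl⟩, e, f, g⟩
      rw [h1, h1, h2, h2] at g
      exact ⟨⟨a, b, (h3 _).1 e⟩, ⟨c, d, (h3 _).1 f⟩, g⟩
    · rintro ⟨⟨a, b, e⟩, ⟨c, d, f⟩, g⟩
      refine ⟨_, _, ⟨a, b, rfl⟩, ⟨c, d, rfl⟩, (h3 _).2 e, (h3 _).2 f, ?_⟩
      rw [h1, h1, h2, h2]
      exact g))
  exact ⟨pi1, fun R h ⟨_, hP, h'⟩ => hard h hP h'⟩

end Pool.Agent.H73.AutEq
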