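import Mathlib

namespace Pool.Agent.H73.BasicSub

open AddSubgroup

variable {A : Type} [AddCommGroup A]

def Ind (J : Set A) : Prop :=
  ∀ (s : Finset A) (x : A → A) (r : ℕ) (y : A), (s : Set A) ⊆ J → (∀ a ∈ s, x a ∈ zmultiples a) →
    ∑ a ∈ s, x a = r • y → ∀ a ∈ s, ∃ w ∈ zmultiples a, x a = r • w

open Classical in
/-- the summation map -/
noncomputable def sig (J : Set A) : (Π₀ j : J, zmultiples (j : A)) →+ A :=
  DFinsupp.sumAddHom (fun j : J => (zmultiples (j : A)).subtype)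

theorem mem_range {J : Set A} {a : A} (ha : a ∈ J) {x : A} (hx : x ∈ zmultiples a) :
    x ∈ (sig J).range := by
  classical
  refine ⟨DFinsupp.single ⟨a, ha⟩ ⟨x, hx⟩, ?_⟩
  simp only [sig]
  convert DFinsupp.sumAddHom_single (fun j : J => (zmultiples (j : A)).subtype) ⟨a, ha⟩ ⟨x, hx⟩
  rfl

theorem sig_sum {J : Set A} (v : Π₀ j : J, zmultiples (j : A)) :
    ∃ (s : Finset A) (x : A → A), (s : Set A) ⊆ J ∧ (∀ a ∈ s, x a ∈ zmultiples a) ∧
      ∑ a ∈ s, x a = sig J v ∧ ∀ j : J, v j ≠ 0 → j.1 ∈ s ∧ x j = v j := by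
  classical
  refine ⟨v.support.map (Function.Embedding.subtype _),
    fun a => if h : a ∈ J then (v ⟨a, h⟩ : A) else 0, ?_, ?_, ?_, ?_⟩
  · intro a ha
    obtain ⟨j, -, rfl⟩ := Finset.mem_map.mp ha
    exact j.2
  · intro a ha
    obtain ⟨j, -, rfl⟩ := Finset.mem_map.mp ha
    simp
  · rw [Finset.sum_map, sig, DFinsupp.sumAddHom_apply, DFinsupp.sum]
    refine Finset.sum_congr (by congr) (fun j _ => ?_)
    simp
  · intro j hj
    exact ⟨Finset.mem_map.mpr ⟨j, DFinsupp.mem_support_iff.mpr hj, rfl⟩, by simp⟩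

theorem sig_inj {J : Set A} (h : Ind J) : Function.Injective (sig J) := by
  rw [injective_iff_map_eq_zero]
  intro v hv
  obtain ⟨s, x, h1, h2, h3, h4⟩ := sig_sum v
  ext j
  by_contra hj
  have hj' : v j ≠ 0 := fun h0 => hj (by rw [h0]; rfl)
  obtain ⟨w, -, hw⟩ := h s x 0 0 h1 h2 (by rw [h3, hv]; simp) j (h4 j hj').1
  rw [(h4 j hj').2, zero_nsmul] at hw
  exact hj' (Subtype.ext hw)

theorem pure {J : Set A} (h : Ind J) {r : ℕ} {y : A} (hy : r • y ∈ (sig J).range) :
    ∃ b ∈ (sig J).range, r • y = r • b := by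
  obtain ⟨v, hv⟩ := hy
  obtain ⟨s, x, h1, h2, h3, -⟩ := sig_sum v
  have := h s x r y h1 h2 (h3.trans hv)
  choose! w hw1 hw2 using this
  refine ⟨∑ a ∈ s, w a, sum_mem (fun a ha => mem_range (h1 ha) (hw1 a ha)), ?_⟩
  rw [← hv, ← h3, Finset.smul_sum]
  exact Finset.sum_congr rfl hw2

theorem exists_basic (hA : ∀ a : A, IsOfFinAddOrder a) : ∃ J : Set A,
    Function.Injective (sig J) ∧ ∀ (a : A) (n : ℕ), 0 < n → ∃ y, a - n • y ∈ (sig J).range := by
  classical
  obtain ⟨J, hJ⟩ := zorn_subset {J : Set A | Ind J} (fun c hc hch => by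
    refine ⟨⋃₀ c, fun s x r y h1 h2 h3 a ha => ?_, fun s hs => Set.subset_sUnion_of_mem hs⟩
    have hne : c.Nonempty := by
      obtain ⟨t, ht, -⟩ := h1 ha
      exact ⟨t, ht⟩
    obtain ⟨t, ht, hst⟩ := DirectedOn.exists_mem_subset_of_finset_subset_biUnion hne
      (f := id) hch.directedOn (s := s) (by simpa [Set.sUnion_eq_biUnion] using h1)
    exact hc ht s x r y hst h2 h3 a ha)
  have hI : Ind J := hJ.prop
  refine ⟨J, sig_inj hI, ?_⟩
  set B := (sig J).range with hB
  suffices hp : ∀ p : ℕ, p.Prime → ∀ a : A, ∃ y, a - p • y ∈ B by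
    intro a n hn
    induction n using induction_on_primes generalizing a with
    | zero => omega
    | one => exact ⟨a, by simp⟩
    | prime_mul p k hp' ih =>
      obtain ⟨y, hy⟩ := hp p hp' a
      obtain ⟨z, hz⟩ := ih y (Nat.pos_of_mul_pos_left hn)
      refine ⟨z, ?_⟩
      have := B.add_mem hy (B.nsmul_mem hz p)
      rwa [smul_sub, sub_add_sub_cancel, ← mul_smul] at this
  intro p hp
  by_contra hcon
  let P : A → Prop := fun g => ∀ y, g - p • y ∉ B
  have cop : ∀ (k : ℕ) (g : A), ¬ p ∣ k → P g → P (k • g) := by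
    intro k g hk hg y hy
    obtain ⟨u, v, huv⟩ : IsCoprime (k : ℤ) (p : ℤ) :=
      Nat.isCoprime_iff_coprime.mpr ((hp.coprime_iff_not_dvd.mpr hk).symm)
    apply hg (v • g + u • y)
    have h1 := B.zsmul_mem hy u
    have h2 : g - p • (v • g + u • y) = u • (k • g - p • y) := by
      have h3 : g = (u * k + v * p) • g := by rw [huv, one_smul]
      linear_combination (norm := module) h3
    rwa [h2]
  have hex : ∃ s : ℕ, ∃ g, P g ∧ p ^ s • g ∈ B := by
    push Not at hcon
    obtain ⟨g, hg⟩ := hcon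
    obtain ⟨s, k, hk, hs⟩ := Nat.exists_eq_pow_mul_and_not_dvd (hA g).addOrderOf_pos.ne' p
      hp.ne_one
    refine ⟨s, k • g, cop k g hk hg, ?_⟩
    rw [← mul_smul, ← hs, addOrderOf_nsmul_eq_zero]
    exact B.zero_mem
  obtain ⟨g0, hg0, hg0'⟩ := Nat.find_spec hex
  have hmin := fun m => Nat.find_min hex (m := m)
  set s := Nat.find hex
  obtain ⟨b, hb, hb'⟩ := pure hI hg0'
  set g := g0 - b with hg
  have hgP : P g := fun y hy => hg0 y (by
    have := B.add_mem hy hb
    rwa [hg, show g0 - b - p • y + b = g0 - p • y by abel] at this)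
  have hgs : p ^ s • g = 0 := by rw [hg, smul_sub, hb', sub_self]
  have hgJ : g ∉ J := fun h => hgP 0 (by
    rw [smul_zero, sub_zero]; exact mem_range h (mem_zmultiples g))
  have key : ∀ (x : A) (r : ℕ) (y : A), x ∈ zmultiples g → x - r • y ∈ B →
      ∃ w ∈ zmultiples g, x = r • w := by
    intro x r y hx hxy
    obtain ⟨n, rfl⟩ := ((hA g).mem_multiples_iff_mem_zmultiples.mpr hx)
    simp only at hxy ⊢
    by_cases h0 : n • g = 0
    · exact ⟨0, zero_mem _, by simp [h0]⟩
    have hn : n ≠ 0 := by rintro rfl; simp at h0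
    obtain ⟨a, n', hn', rfl⟩ := Nat.exists_eq_pow_mul_and_not_dvd hn p hp.ne_one
    have has : a < s := by
      by_contra h
      obtain ⟨d, rfl⟩ := Nat.exists_eq_add_of_le (not_lt.mp h)
      apply h0
      rw [show p ^ (s + d) * n' = (p ^ d * n') * p ^ s by ring, mul_smul, hgs, smul_zero]
    by_cases hr : p ^ (a + 1) ∣ r
    · exfalso
      obtain ⟨r1, rfl⟩ := hr
      refine hmin a has ⟨n' • g - p • (r1 • y), fun z hz => cop n' g hn' hgP (r1 • y + z) ?_, ?_⟩
      · rwa [smul_add, ← sub_sub]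
      · rwa [smul_sub, ← mul_smul, ← mul_smul, ← mul_smul, ← pow_succ]
    · have hr0 : r ≠ 0 := by rintro rfl; simp at hr
      obtain ⟨e, r', hr', rfl⟩ := Nat.exists_eq_pow_mul_and_not_dvd hr0 p hp.ne_one
      have hea : e ≤ a := by
        by_contra h
        exact hr (Dvd.dvd.mul_right (pow_dvd_pow p (by omega)) _)
      obtain ⟨d, rfl⟩ := Nat.exists_eq_add_of_le hea
      obtain ⟨u, v, huv⟩ : IsCoprime (r' : ℤ) ((p ^ s : ℕ) : ℤ) :=
        Nat.isCoprime_iff_coprime.mpr
          (Nat.Coprime.pow_right s (hp.coprime_iff_not_dvd.mpr hr').symm)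
      refine ⟨(u * (p ^ d * n' : ℕ)) • g, zsmul_mem (mem_zmultiples g) _, ?_⟩
      have h3 : g = (u * r') • g := by
        conv_lhs => rw [← one_smul ℤ g, ← huv, add_smul, mul_smul v, natCast_zsmul, hgs,
          smul_zero, add_zero]
      conv_lhs => rw [h3]
      rw [← natCast_zsmul, ← natCast_zsmul, ← mul_smul, ← mul_smul]
      congr 1
      push_cast
      ring
  have hins : Ind (insert g J) := by
    intro t x r y h1 h2 h3
    by_cases hgt : g ∈ t
    · have h4 : (↑(t.erase g) : Set A) ⊆ J := by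
        intro a ha
        have := Finset.mem_erase.mp ha
        exact (h1 this.2).resolve_left this.1
      have h5 : ∀ a ∈ t.erase g, x a ∈ zmultiples a := fun a ha => h2 a (Finset.mem_of_mem_erase ha)
      rw [← Finset.add_sum_erase t x hgt] at h3
      obtain ⟨w, hw1, hw2⟩ := key (x g) r y (h2 g hgt) (by
        rw [← h3, sub_add_cancel_left]
        exact B.neg_mem (sum_mem (fun a ha => mem_range (h4 ha) (h5 a ha))))
      have h6 := hI (t.erase g) x r (y - w) h4 h5 (by rw [smul_sub, ← h3, ← hw2]; abel)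
      intro a ha
      by_cases hag : a = g
      · subst hag; exact ⟨w, hw1, hw2⟩
      · exact h6 a (Finset.mem_erase.mpr ⟨hag, ha⟩)
    · exact hI t x r y (fun a ha => (h1 ha).resolve_left (fun h => hgt (h ▸ ha))) h2 h3
  exact hgJ (hJ.2 hins (Set.subset_insert _ _) (Set.mem_insert _ _))

end Pool.Agent.H73.BasicSub
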