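import Mathlib

/-! Mutually rigid sets of reals (Sierpinski, Dushnik and Miller). -/

namespace Pool.Agent.H73.RigidReals

open Set Cardinal

/-- The function coded by a sequence of points of the plane. -/
noncomputable def code (u : ℕ → ℝ × ℝ) (y : ℝ) : ℝ :=
  Classical.epsilon fun z => (y, z) ∈ closure (range u)

lemma exists_code (Γ : Set (ℝ × ℝ)) (h : ∀ a ∈ Γ, ∀ b ∈ Γ, a.1 < b.1 → a.2 ≤ b.2) :
    ∃ u : ℕ → ℝ × ℝ, {y | ∃ z, (y, z) ∈ Γ ∧ code u y ≠ z}.Countable := by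
  rcases Γ.eq_empty_or_nonempty with rfl | hne
  · exact ⟨fun _ => 0, by simp⟩
  obtain ⟨t, htΓ, htc, hcl⟩ :=
    (TopologicalSpace.IsSeparable.of_separableSpace Γ).exists_countable_dense_subset
  have htne : t.Nonempty := by
    obtain ⟨a, ha⟩ := hne
    exact closure_nonempty_iff.1 ⟨a, hcl ha⟩
  obtain ⟨u, rfl⟩ := htc.exists_eq_range htne
  refine ⟨u, ?_⟩
  have hmono : ∀ a ∈ closure (range u), ∀ b ∈ closure (range u), a.1 < b.1 → a.2 ≤ b.2 := by
    have hc : IsClosed {p : (ℝ × ℝ) × (ℝ × ℝ) | p.2.1 ≤ p.1.1 ∨ p.1.2 ≤ p.2.2} :=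
      IsClosed.union (s₁ := {p : (ℝ × ℝ) × (ℝ × ℝ) | p.2.1 ≤ p.1.1})
        (s₂ := {p : (ℝ × ℝ) × (ℝ × ℝ) | p.1.2 ≤ p.2.2})
        (isClosed_le (by fun_prop) (by fun_prop)) (isClosed_le (by fun_prop) (by fun_prop))
    have hsub : range u ×ˢ range u ⊆ {p : (ℝ × ℝ) × (ℝ × ℝ) | p.2.1 ≤ p.1.1 ∨ p.1.2 ≤ p.2.2} := by
      rintro ⟨a, b⟩ ⟨ha, hb⟩
      rcases le_or_gt b.1 a.1 with h1 | h1
      · exact Or.inl h1
      · exact Or.inr (h a (htΓ ha) b (htΓ hb) h1)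
    intro a ha b hb hab
    have : (a, b) ∈ closure (range u ×ˢ range u) := by
      rw [closure_prod_eq]; exact ⟨ha, hb⟩
    rcases hc.closure_subset_iff.2 hsub this with h1 | h1
    · exact absurd hab (not_lt.2 h1)
    · exact h1
  have key : ∀ y ∈ {y | ∃ z, (y, z) ∈ Γ ∧ code u y ≠ z}, ∃ q : ℚ, ∃ z₁ z₂,
      (y, z₁) ∈ closure (range u) ∧ (y, z₂) ∈ closure (range u) ∧ z₁ < q ∧ (q : ℝ) < z₂ := by
    rintro y ⟨z, hz, hne⟩
    have h1 : (y, z) ∈ closure (range u) := hcl hz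
    have h2 : (y, code u y) ∈ closure (range u) :=
      Classical.epsilon_spec (p := fun z => (y, z) ∈ closure (range u)) ⟨z, h1⟩
    rcases lt_or_gt_of_ne hne with h3 | h3
    · obtain ⟨q, hq1, hq2⟩ := exists_rat_btwn h3
      exact ⟨q, _, _, h2, h1, hq1, hq2⟩
    · obtain ⟨q, hq1, hq2⟩ := exists_rat_btwn h3
      exact ⟨q, _, _, h1, h2, hq1, hq2⟩
  choose! q hq using key
  refine MapsTo.countable_of_injOn (f := q) (t := univ) (mapsTo_univ _ _) ?_ countable_univ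
  intro y hy y' hy' hyy
  obtain ⟨z₁, z₂, h1, h2, h3, h4⟩ := hq y hy
  obtain ⟨w₁, w₂, k1, k2, k3, k4⟩ := hq y' hy'
  rw [← hyy] at k3 k4
  rcases lt_trichotomy y y' with h5 | h5 | h5
  · have := hmono _ h2 _ k1 h5
    simp only at this
    linarith
  · exact h5
  · have := hmono _ k2 _ h1 h5
    simp only at this
    linarith

/-- The well order of type `𝔠`. -/
abbrev W : Type := (𝔠 : Cardinal.{0}).ord.ToType

lemma mk_W : #W = 𝔠 := mk_ord_toType _

lemma mk_Iio_W (a : W) : #(Iio a) < 𝔠 := by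
  simpa using mk_Iio_lt a (by simp)

lemma exists_free (P : W → Set ℝ) (hP : ∀ a, #(P a) = 𝔠) (G : W → ℝ → Set ℝ)
    (hG : ∀ b y, (G b y).Countable) :
    ∃ x : W → ℝ, (∀ a, x a ∈ P a) ∧ (∀ a c, c < a → x c ≠ x a) ∧
      ∀ a b c, b < a → c < a → x a ∉ G b (x c) := by
  have step : ∀ (a : W) (S : Set ℝ), ∃ y, #S < 𝔠 →
      y ∈ P a ∧ y ∉ S ∧ ∀ b, b < a → ∀ z ∈ S, y ∉ G b z := by
    intro a S
    by_cases hS : #S < 𝔠
    · have h1 : #(⋃ p : Iio a × S, G p.1 p.2) < 𝔠 := by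
        refine lt_of_le_of_lt (mk_iUnion_le _) ?_
        refine mul_lt_of_lt aleph0_le_continuum ?_ ?_
        · rw [mk_prod, lift_id, lift_id]
          exact mul_lt_of_lt aleph0_le_continuum (mk_Iio_W a) hS
        · refine lt_of_le_of_lt ?_ aleph0_lt_continuum
          exact ciSup_le' fun p => (hG _ _).le_aleph0
      have h2 : #(S ∪ ⋃ p : Iio a × S, G p.1 p.2 : Set ℝ) < #(P a) := by
        rw [hP]
        exact lt_of_le_of_lt (mk_union_le _ _) (add_lt_of_lt aleph0_le_continuum hS h1)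
      obtain ⟨y, hy1, hy2⟩ : ∃ y ∈ P a, y ∉ (S ∪ ⋃ p : Iio a × S, G p.1 p.2 : Set ℝ) := by
        by_contra hcon
        push Not at hcon
        exact absurd (mk_le_mk_of_subset hcon) (not_le.2 h2)
      refine ⟨y, fun _ => ⟨hy1, fun h => hy2 (Or.inl h), fun b hb z hz h => hy2 (Or.inr ?_)⟩⟩
      exact mem_iUnion.2 ⟨(⟨b, hb⟩, ⟨z, hz⟩), h⟩
    · exact ⟨0, fun h => absurd h hS⟩
  choose pick hpick using step
  let x : W → ℝ := WellFoundedLT.fix fun a rec => pick a (range fun c : Iio a => rec c.1 c.2)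
  have hx : ∀ a, x a = pick a (range fun c : Iio a => x c.1) := fun a =>
    WellFoundedLT.fix_eq _ a
  have hS : ∀ a, #(range fun c : Iio a => x c.1) < 𝔠 := fun a =>
    lt_of_le_of_lt mk_range_le (mk_Iio_W a)
  refine ⟨x, fun a => ?_, fun a c hc h => ?_, fun a b c hb hc => ?_⟩
  · rw [hx]; exact (hpick a _ (hS a)).1
  · refine (hpick a _ (hS a)).2.1 ?_
    rw [← hx]; exact ⟨⟨c, hc⟩, h⟩
  · rw [hx a]; exact (hpick a _ (hS a)).2.2 b hb _ ⟨⟨c, hc⟩, rfl⟩

theorem rigid : ∃ (x : W → ℝ) (lab : W → ℕ × ℕ), Function.Injective x ∧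
    (∀ a b, (lab a).1 < (lab b).1 → x b < x a) ∧
    ∀ (l : ℕ × ℕ) (f : {a // lab a = l} → ℤ × W),
      (∀ a b : {a // lab a = l}, x a < x b → (f a).1 = (f b).1 → x (f a).2 < x (f b).2) →
      ∃ a, (f a).2 = a := by
  obtain ⟨e⟩ : Nonempty (W ≃ (ℕ × ℕ) × ℝ) := by
    rw [← Cardinal.eq, mk_W]; simp [mk_real]
  obtain ⟨c⟩ : Nonempty (W ≃ (ℤ → (ℕ → ℝ × ℝ) × (ℕ → ℝ × ℝ))) := by
    rw [← Cardinal.eq, mk_W]; simp [mk_real]
  let lab : W → ℕ × ℕ := fun a => (e a).1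
  obtain ⟨x, hx1, hx2, hx3⟩ := exists_free
    (fun a => Ioo (-((lab a).1 : ℝ) - 1) (-((lab a).1 : ℝ))) (fun a => mk_Ioo_real (by linarith))
    (fun b y => range (fun p => code (c b p).1 y) ∪ range (fun p => code (c b p).2 y))
    (fun b y => (countable_range _).union (countable_range _))
  have hinj : Function.Injective x := by
    intro a b hab
    rcases lt_trichotomy a b with h | h | h
    · exact absurd hab (hx2 b a h)
    · exact h
    · exact absurd hab.symm (hx2 a b h)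
  refine ⟨x, lab, hinj, fun a b hab => ?_, fun l f hf => ?_⟩
  · have h1 := (hx1 a).1
    have h2 := (hx1 b).2
    have h3 : ((lab a).1 : ℝ) + 1 ≤ (lab b).1 := by exact_mod_cast hab
    linarith
  let Γ : ℤ → Set (ℝ × ℝ) := fun p => {r | ∃ a : {a // lab a = l}, (f a).1 = p ∧
    r = (x a, x (f a).2)}
  let Δ : ℤ → Set (ℝ × ℝ) := fun p => {r | ∃ a : {a // lab a = l}, (f a).1 = p ∧
    r = (x (f a).2, x a)}
  have hΓ : ∀ p, ∀ a ∈ Γ p, ∀ b ∈ Γ p, a.1 < b.1 → a.2 ≤ b.2 := by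
    rintro p _ ⟨a, ha, rfl⟩ _ ⟨b, hb, rfl⟩ hab
    exact (hf a b hab (ha.trans hb.symm)).le
  have hΔ : ∀ p, ∀ a ∈ Δ p, ∀ b ∈ Δ p, a.1 < b.1 → a.2 ≤ b.2 := by
    rintro p _ ⟨a, ha, rfl⟩ _ ⟨b, hb, rfl⟩ hab
    by_contra hcon
    exact absurd (hf b a (not_le.1 hcon) (hb.trans ha.symm)) (not_lt.2 hab.le)
  choose u hu using fun p => exists_code (Γ p) (hΓ p)
  choose v hv using fun p => exists_code (Δ p) (hΔ p)
  let β : W := c.symm fun p => (u p, v p)
  have hβ : ∀ p, c β p = (u p, v p) := fun p => by simp [β]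
  let E₁ : Set {a // lab a = l} := {a | code (u (f a).1) (x a) ≠ x (f a).2}
  let E₂ : Set {a // lab a = l} := {a | code (v (f a).1) (x (f a).2) ≠ x a}
  have hE₁ : E₁.Countable := by
    refine ((countable_iUnion hu).preimage (hinj.comp Subtype.val_injective)).mono ?_
    intro a ha
    exact mem_iUnion.2 ⟨(f a).1, _, ⟨a, rfl, rfl⟩, ha⟩
  have hE₂ : E₂.Countable := by
    have hfinj : Function.Injective fun a => ((f a).1, x (f a).2) := by
      intro a b hab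
      simp only [Prod.mk.injEq] at hab
      rcases lt_trichotomy (x a) (x b) with h | h | h
      · exact absurd hab.2 (hf a b h hab.1).ne
      · exact Subtype.ext (hinj h)
      · exact absurd hab.2.symm (hf b a h hab.1.symm).ne
    refine ((countable_univ.prod (countable_iUnion hv)).preimage hfinj).mono ?_
    intro a ha
    exact ⟨trivial, mem_iUnion.2 ⟨(f a).1, _, ⟨a, rfl, rfl⟩, ha⟩⟩
  have hbig : 𝔠 ≤ #{a // lab a = l} := by
    rw [← mk_real]
    refine mk_le_of_injective (f := fun r : ℝ => (⟨e.symm (l, r), by simp [lab]⟩ :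
      {a // lab a = l})) fun r s hrs => ?_
    simpa using hrs
  have hsmall : #(((Subtype.val ⁻¹' Iic β : Set {a // lab a = l}) ∪ (E₁ ∪ E₂) :
      Set {a // lab a = l})) < 𝔠 := by
    refine lt_of_le_of_lt (mk_union_le _ _) (add_lt_of_lt aleph0_le_continuum ?_ ?_)
    · refine lt_of_le_of_lt (mk_preimage_of_injective _ _ Subtype.val_injective) ?_
      rw [← Iio_insert]
      refine lt_of_le_of_lt mk_insert_le ?_
      exact add_lt_of_lt aleph0_le_continuum (mk_Iio_W β)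
        (one_lt_aleph0.trans aleph0_lt_continuum)
    · exact lt_of_le_of_lt (hE₁.union hE₂).le_aleph0 aleph0_lt_continuum
  obtain ⟨a, ha⟩ : ∃ a, a ∉ ((Subtype.val ⁻¹' Iic β : Set {a // lab a = l}) ∪ (E₁ ∪ E₂)) := by
    by_contra hcon
    push Not at hcon
    rw [eq_univ_of_forall hcon, mk_univ] at hsmall
    exact absurd hbig (not_le.2 hsmall)
  simp only [mem_union, not_or, mem_preimage, mem_Iic, not_le, E₁, E₂, Set.mem_ofPred_eq,
    not_not] at ha
  obtain ⟨h1, h2, h3⟩ := ha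
  refine ⟨a, ?_⟩
  rcases lt_trichotomy (f a).2 a with h | h | h
  · refine absurd (Or.inr ⟨(f a).1, ?_⟩) (hx3 a β (f a).2 h1 h)
    simp only [hβ]; exact h3
  · exact h
  · refine absurd (Or.inl ⟨(f a).1, ?_⟩) (hx3 (f a).2 β a (h1.trans h) h)
    simp only [hβ]; exact h2

end Pool.Agent.H73.RigidReals
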