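import Mathlib
import Pool.Agent.H73.RigidReals

/-! A tree that is a countable union of chains, whose branches are ordered under embeddability
so that every countable family of branches has a strict upper bound. -/

namespace Pool.Agent.H73.BranchTree

open Set Pool.Agent.H73.RigidReals

noncomputable def x : W → ℝ := rigid.choose
noncomputable def lab : W → ℕ × ℕ := rigid.choose_spec.choose
lemma x_inj : Function.Injective x := rigid.choose_spec.choose_spec.1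
lemma x_anti (a b : W) (h : (lab a).1 < (lab b).1) : x b < x a :=
  rigid.choose_spec.choose_spec.2.1 a b h
lemma x_rigid (l : ℕ × ℕ) (f : {a // lab a = l} → ℤ × W)
    (h : ∀ a b : {a // lab a = l}, x a < x b → (f a).1 = (f b).1 → x (f a).2 < x (f b).2) :
    ∃ a, (f a).2 = a := rigid.choose_spec.choose_spec.2.2 l f h

lemma lab_surj (l : ℕ × ℕ) : ∃ a, lab a = l := by
  obtain ⟨a, -⟩ := x_rigid l (fun a => (0, a)) fun a b h _ => h
  exact ⟨a, a.2⟩

@[ext] structure T where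
  p : ℤ
  σ : ℕ → ℕ
  a : W
  hσ : ∀ i : ℕ, p < i → σ i = 0
  ha : ∀ k : ℕ, p = k → (lab a).1 = k ∧ (lab a).2 ≤ σ k

instance : PartialOrder T where
  le t u := (∀ i : ℕ, (i : ℤ) ≤ t.p → t.σ i = u.σ i) ∧ (t.p < u.p ∨ (t.p = u.p ∧ x t.a ≤ x u.a))
  le_refl t := ⟨fun _ _ => rfl, Or.inr ⟨rfl, le_rfl⟩⟩
  le_trans t u v h k := by
    obtain ⟨h1, h2⟩ := h
    obtain ⟨k1, k2⟩ := k
    refine ⟨fun i hi => (h1 i hi).trans (k1 i (by omega)), ?_⟩
    rcases h2 with h2 | ⟨h2, h3⟩ <;> rcases k2 with k2 | ⟨k2, k3⟩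
    · exact Or.inl (by omega)
    · exact Or.inl (by omega)
    · exact Or.inl (by omega)
    · exact Or.inr ⟨h2.trans k2, h3.trans k3⟩
  le_antisymm t u h k := by
    obtain ⟨h1, h2⟩ := h
    obtain ⟨k1, k2⟩ := k
    have hp : t.p = u.p := by omega
    refine T.ext hp (funext fun i => ?_) (x_inj (le_antisymm ?_ ?_))
    · by_cases hi : (i : ℤ) ≤ t.p
      · exact h1 i hi
      · rw [t.hσ i (by omega), u.hσ i (by omega)]
    · rcases h2 with h2 | h2
      · omega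
      · exact h2.2
    · rcases k2 with k2 | k2
      · omega
      · exact k2.2

lemma le_def (t u : T) : t ≤ u ↔ (∀ i : ℕ, (i : ℤ) ≤ t.p → t.σ i = u.σ i) ∧
    (t.p < u.p ∨ (t.p = u.p ∧ x t.a ≤ x u.a)) := Iff.rfl

/-- The branch determined by `s`. -/
def B (s : ℕ → ℕ) : Set T := {t | ∀ i : ℕ, (i : ℤ) ≤ t.p → t.σ i = s i}

lemma le_iff {s : ℕ → ℕ} {t u : T} (ht : t ∈ B s) (hu : u ∈ B s) :
    t ≤ u ↔ (t.p < u.p ∨ (t.p = u.p ∧ x t.a ≤ x u.a)) :=
  ⟨fun h => h.2, fun h => ⟨fun i hi => (ht i hi).trans (hu i (by omega)).symm, h⟩⟩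

lemma chain_B (s : ℕ → ℕ) : IsChain (· ≤ ·) (B s) := by
  intro t ht u hu _
  show t ≤ u ∨ u ≤ t
  rw [le_iff ht hu, le_iff hu ht]
  rcases lt_trichotomy t.p u.p with h | h | h
  · exact Or.inl (Or.inl h)
  · rcases le_total (x t.a) (x u.a) with k | k
    · exact Or.inl (Or.inr ⟨h, k⟩)
    · exact Or.inr (Or.inr ⟨h.symm, k⟩)
  · exact Or.inr (Or.inl h)

/-- The point of the branch `s` at level `p` with real coordinate `x a`. -/
def pt (s : ℕ → ℕ) (p : ℤ) (a : W) (h : ∀ k : ℕ, p = k → (lab a).1 = k ∧ (lab a).2 ≤ s k) : T where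
  p := p
  σ i := if (i : ℤ) ≤ p then s i else 0
  a := a
  hσ i hi := if_neg (by omega)
  ha k hk := by rw [if_pos (by omega)]; exact h k hk

lemma pt_mem (s : ℕ → ℕ) (p : ℤ) (a : W) (h) : pt s p a h ∈ B s := fun _ hi => if_pos hi

lemma tree (v : T) : IsChain (· ≤ ·) {y : T | y < v} :=
  (chain_B v.σ).mono fun y hy => ((le_def y v).1 (le_of_lt hy)).1

lemma chain_sub {C : Set T} (hC : IsChain (· ≤ ·) C) : ∃ s, C ⊆ B s := by
  classical
  refine ⟨fun i => if h : ∃ t ∈ C, (i : ℤ) ≤ t.p then h.choose.σ i else 0, fun t ht i hi => ?_⟩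
  have h : ∃ t ∈ C, (i : ℤ) ≤ t.p := ⟨t, ht, hi⟩
  simp only [dif_pos h]
  rcases hC.total ht h.choose_spec.1 with k | k
  · exact k.1 i hi
  · exact (k.1 i h.choose_spec.2).symm

lemma max_B (s : ℕ → ℕ) : IsMaxChain (· ≤ ·) (B s) := by
  refine ⟨chain_B s, fun C hC hsub => hsub.antisymm fun t ht i hi => ?_⟩
  obtain ⟨a, ha⟩ := lab_surj ((t.p + 1).toNat, 0)
  have hu := pt_mem s ((t.p + 1).toNat : ℕ) a (fun k hk => by
    rw [ha]; exact ⟨by exact_mod_cast hk, Nat.zero_le _⟩)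
  rcases hC.total ht (hsub hu) with k | k
  · exact (k.1 i hi).trans (hu i (by simp only [pt]; omega))
  · have := k.2
    simp only [pt] at this
    omega

lemma eq_B {C : Set T} (hC : IsMaxChain (· ≤ ·) C) : ∃ s, C = B s := by
  obtain ⟨s, hs⟩ := chain_sub hC.1
  exact ⟨s, hC.2 (chain_B s) hs⟩

lemma cover : ∃ f : ℕ → Set T, (∀ n, IsChain (· ≤ ·) (f n)) ∧ (⋃ n, f n) = univ := by
  obtain ⟨g, hg⟩ := exists_surjective_nat (ℕ →₀ ℕ)
  refine ⟨fun n => B (g n), fun n => chain_B _, eq_univ_of_forall fun t => ?_⟩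
  have hfin : (Function.support t.σ).Finite := by
    refine (finite_le_nat t.p.toNat).subset fun i hi => ?_
    by_contra hcon
    simp only [Set.mem_ofPred_eq, not_le] at hcon
    exact hi (t.hσ i (by omega))
  obtain ⟨n, hn⟩ := hg (Finsupp.ofSupportFinite t.σ hfin)
  refine mem_iUnion.2 ⟨n, fun i _ => ?_⟩
  rw [hn]; rfl

lemma emb {s t : ℕ → ℕ} (N : ℕ) (h : ∀ k, N ≤ k → s k ≤ t k) : Nonempty (B s ↪o B t) := by
  refine ⟨OrderEmbedding.ofMapLEIff (fun u => ⟨pt t (if u.1.p < N then u.1.p - N else u.1.p) u.1.a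
    (fun k hk => ?_), pt_mem _ _ _ _⟩) fun u v => ?_⟩
  · have hk' : u.1.p = k ∧ N ≤ k := by split_ifs at hk <;> omega
    obtain ⟨h1, h2⟩ := u.1.ha k hk'.1
    exact ⟨h1, h2.trans ((u.2 k hk'.1.ge).le.trans (h k hk'.2))⟩
  · rw [← Subtype.coe_le_coe, ← Subtype.coe_le_coe, le_iff (pt_mem _ _ _ _) (pt_mem _ _ _ _),
      le_iff u.2 v.2]
    simp only [pt]
    refine or_congr ?_ (and_congr ?_ Iff.rfl) <;> split_ifs <;> omega

lemma not_emb (t : ℕ → ℕ) : ¬ Nonempty (B (fun k => t k + 1) ↪o B t) := by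
  rintro ⟨f⟩
  let P : (k : ℕ) → {a // lab a = (k, t k + 1)} → B (fun k => t k + 1) := fun k a =>
    ⟨pt _ k a (fun j hj => by
      have : k = j := by exact_mod_cast hj
      subst this
      rw [a.2]; exact ⟨rfl, le_rfl⟩), pt_mem _ _ _ _⟩
  have key : ∀ k, ∃ a, (f (P k a)).1.a = a := fun k =>
    x_rigid (k, t k + 1) (fun a => ((f (P k a)).1.p, (f (P k a)).1.a)) fun a b hab hp => by
      have h1 : ¬ P k b ≤ P k a := by
        rw [← Subtype.coe_le_coe, le_iff (P k b).2 (P k a).2]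
        simp only [P, pt]
        rintro (h | h)
        · omega
        · exact absurd h.2 (not_le.2 hab)
      rw [← f.le_iff_le, ← Subtype.coe_le_coe, le_iff (f _).2 (f _).2] at h1
      by_contra hcon
      exact h1 (Or.inr ⟨hp.symm, not_lt.1 hcon⟩)
  choose a ha using key
  have hneg : ∀ k, (f (P k (a k))).1.p < 0 := by
    intro k
    by_contra hcon
    obtain ⟨j, hj⟩ := Int.eq_ofNat_of_zero_le (not_lt.1 hcon)
    obtain ⟨h1, h2⟩ := (f (P k (a k))).1.ha j hj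
    rw [ha, (a k).2] at h1 h2
    rw [(f (P k (a k))).2 j hj.ge] at h2
    simp only at h1 h2
    subst h1
    omega
  have hinc : ∀ k, (f (P k (a k))).1.p < (f (P (k + 1) (a (k + 1)))).1.p := by
    intro k
    have h1 : P k (a k) ≤ P (k + 1) (a (k + 1)) := by
      rw [← Subtype.coe_le_coe, le_iff (P k _).2 (P (k + 1) _).2]
      simp only [P, pt]
      left; omega
    rw [← f.le_iff_le, ← Subtype.coe_le_coe, le_iff (f _).2 (f _).2, ha, ha] at h1
    rcases h1 with h1 | h1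
    · exact h1
    · refine absurd h1.2 (not_le.2 (x_anti _ _ ?_))
      rw [(a k).2, (a (k + 1)).2]
      exact Nat.lt_succ_self k
  have hlow : ∀ k : ℕ, (f (P 0 (a 0))).1.p + k ≤ (f (P k (a k))).1.p := by
    intro k
    induction k with
    | zero => simp
    | succ k ih => have := hinc k; push_cast; omega
  have h1 := hlow (-(f (P 0 (a 0))).1.p).toNat
  have h2 := hneg (-(f (P 0 (a 0))).1.p).toNat
  omega

theorem main :
    ¬ (∀ (T : Type) [PartialOrder T],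
      (∀ x : T, IsChain (· ≤ ·) {y : T | y < x}) →
      (∃ f : ℕ → Set T, (∀ n, IsChain (· ≤ ·) (f n)) ∧ (⋃ n, f n) = Set.univ) →
      ∀ S : Set (Set T),
        (∀ c ∈ S, IsMaxChain (· ≤ ·) c) →
        IsChain (fun c d : Set T => Nonempty (↥c ↪o ↥d)) S →
        (∀ U : Set (Set T), (∀ c ∈ U, IsMaxChain (· ≤ ·) c) →
            IsChain (fun c d : Set T => Nonempty (↥c ↪o ↥d)) U → S ⊆ U → U = S) →
        ∃ D : Set (Set T), D ⊆ S ∧ D.Countable ∧
          ∀ c ∈ S, ∃ d ∈ D, Nonempty (↥c ↪o ↥d)) := by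
  intro H
  obtain ⟨S, hS⟩ := zorn_subset {U : Set (Set T) | (∀ c ∈ U, IsMaxChain (· ≤ ·) c) ∧
      IsChain (fun c d : Set T => Nonempty (↥c ↪o ↥d)) U} (fun K hK hKc => by
    refine ⟨⋃₀ K, ⟨?_, ?_⟩, fun s hs => subset_sUnion_of_mem hs⟩
    · rintro c ⟨U, hU, hc⟩
      exact (hK hU).1 c hc
    · rintro c ⟨U, hU, hc⟩ d ⟨V, hV, hd⟩ hne
      rcases hKc.total hU hV with h | h
      · exact (hK hV).2 (h hc) hd hne
      · exact (hK hU).2 hc (h hd) hne)
  have hmax : ∀ U : Set (Set T), (∀ c ∈ U, IsMaxChain (· ≤ ·) c) →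
      IsChain (fun c d : Set T => Nonempty (↥c ↪o ↥d)) U → S ⊆ U → U = S :=
    fun U h1 h2 h3 => (hS.le_of_ge ⟨h1, h2⟩ h3).antisymm h3
  obtain ⟨D, hDS, hDc, hD⟩ := H T tree cover S hS.prop.1 hS.prop.2 hmax
  obtain ⟨g, hg⟩ : ∃ g : ℕ → ℕ → ℕ, ∀ d ∈ D, ∃ n, d = B (g n) := by
    rcases D.eq_empty_or_nonempty with rfl | hne
    · exact ⟨fun _ _ => 0, by simp⟩
    obtain ⟨F, rfl⟩ := hDc.exists_eq_range hne
    choose g hg using fun n => eq_B (hS.prop.1 (F n) (hDS ⟨n, rfl⟩))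
    exact ⟨g, by rintro _ ⟨n, rfl⟩; exact ⟨n, hg n⟩⟩
  let s : ℕ → ℕ := fun k => (Finset.range (k + 1)).sup (fun n => g n k) + 1
  have hs : ∀ n k, n ≤ k → g n k + 1 ≤ s k := fun n k h =>
    Nat.succ_le_succ (Finset.le_sup (f := fun n => g n k) (Finset.mem_range.2 (by omega)))
  have hup : ∀ c ∈ S, Nonempty (↥c ↪o ↥(B s)) := by
    intro c hc
    obtain ⟨d, hd, ⟨e⟩⟩ := hD c hc
    obtain ⟨n, rfl⟩ := hg d hd
    obtain ⟨e'⟩ := emb (s := g n) (t := s) n fun k hk => (Nat.le_succ _).trans (hs n k hk)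
    exact ⟨e.trans e'⟩
  have hmem : B s ∈ S := by
    rw [← hmax (insert (B s) S) ?_ ?_ (subset_insert _ _)]
    · exact mem_insert _ _
    · rintro c (rfl | hc)
      · exact max_B s
      · exact hS.prop.1 c hc
    · exact hS.prop.2.insert fun c hc _ => Or.inr (hup c hc)
  obtain ⟨d, hd, ⟨e⟩⟩ := hD _ hmem
  obtain ⟨n, rfl⟩ := hg d hd
  obtain ⟨e'⟩ := emb (s := fun k => g n k + 1) (t := s) n (hs n)
  exact not_emb (g n) ⟨e'.trans e⟩

end Pool.Agent.H73.BranchTree
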