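import Mathlib

set_option autoImplicit false

namespace Pool.Agent.H73.CN

open Equiv

variable (X S : Type) [Group S]

def Bs : Subgroup (X → S) where
  carrier := {f | (Function.mulSupport f).Finite}
  one_mem' := by simp
  mul_mem' := fun ha hb => (ha.union hb).subset (Function.mulSupport_mul _ _)
  inv_mem' := fun {a} ha => by
    show (Function.mulSupport a⁻¹).Finite
    rwa [Function.mulSupport_inv]

lemma bs_comp {X S : Type} [Group S] (f : Bs X S) (σ : Perm X) : (fun x => f.1 (σ x)) ∈ Bs X S :=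
  Set.Finite.preimage σ.injective.injOn f.2

def wact : Perm X →* MulAut (Bs X S) where
  toFun σ := ⟨⟨fun f => ⟨_, bs_comp f σ⁻¹⟩, fun f => ⟨_, bs_comp f σ⟩,
    fun f => by ext x; simp, fun f => by ext x; simp⟩, fun _ _ => rfl⟩
  map_one' := by ext; rfl
  map_mul' _ _ := by ext; rfl

variable {X S}
variable {G : Type} [Group G] (τ : G →* Perm X)

abbrev Wr (S : Type) [Group S] := Bs X S ⋊[(wact X S).comp τ] G

@[simp] lemma wact_app (σ : Perm X) (f : Bs X S) (x : X) : (wact X S σ f).1 x = f.1 (σ⁻¹ x) := rfl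

open Classical in
noncomputable def sb (x : X) : S →* Bs X S :=
  (MonoidHom.mulSingle (fun _ : X => S) x).codRestrict _ (fun _ =>
    (Set.finite_singleton x).subset Pi.mulSupport_mulSingle_subset)

open Classical in
lemma sb_app (x : X) (s : S) (y : X) : (sb x s).1 y = if y = x then s else 1 := by
  simp [sb, Pi.mulSingle_apply]

noncomputable def sg (x : X) : S →* Wr τ S := SemidirectProduct.inl.comp (sb x)

lemma sg_right (x : X) (s : S) : (sg τ x s).right = 1 := rfl
lemma sg_left (x : X) (s : S) : (sg τ x s).left = sb x s := rfl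

lemma W0 (γ : Wr τ S) (x : X) (s : S) : γ * sg τ x s * γ⁻¹ =
    sg τ (τ γ.right x) (γ.left.1 (τ γ.right x) * s * (γ.left.1 (τ γ.right x))⁻¹) := by
  ext y
  · by_cases h : y = τ γ.right x
    · subst h; simp [sg_right, sg_left, sb_app]
    · have h' : ¬ (Equiv.symm (τ γ.right)) y = x := by rwa [Equiv.symm_apply_eq]
      simp [sg_right, sg_left, sb_app, h, h']
  · simp [sg_right]

variable {τ}

lemma sg_inj {x y : X} {s t : S} (hs : s ≠ 1) (h : sg τ x s = sg τ y t) : x = y ∧ s = t := by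
  have := congrArg (fun z : Wr τ S => z.left.1 x) h
  simp only [sg_left, sb_app, if_true] at this
  split_ifs at this with c
  · exact ⟨c, this⟩
  · exact (hs this).elim

lemma W1 (N : Subgroup (Wr τ S)) (b : Bs X S) (h : ∀ x, sg τ x (b.1 x) ∈ N) :
    SemidirectProduct.inl b ∈ N := by
  classical
  have key : ∀ F : Finset X, ∀ b : Bs X S, (∀ x, x ∉ F → b.1 x = 1) → (∀ x, sg τ x (b.1 x) ∈ N) →
      SemidirectProduct.inl b ∈ N := by
    intro F
    induction F using Finset.induction_on with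
    | empty =>
      intro b h1 _
      have : b = 1 := by ext x; exact h1 x (by simp)
      rw [this, map_one]; exact N.one_mem
    | insert y F hy ih =>
      intro b h1 h2
      have := ih ((sb y (b.1 y))⁻¹ * b) (by
        intro x hx
        by_cases c : x = y
        · simp [sb_app, c]
        · simp [sb_app, c, h1 x (by simp [c, hx])]) (by
        intro x
        by_cases c : x = y
        · simp [sb_app, c]
        · simpa [sb_app, c] using h2 x)
      have := N.mul_mem (h2 y) this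
      rwa [sg, MonoidHom.comp_apply, ← map_mul, mul_inv_cancel_left] at this
  exact key b.2.toFinset b (fun x hx => by simpa using hx) h

variable (hS : ∀ s : S, s ≠ 1 → ∃ t, s * t * s⁻¹ ≠ t)
include hS

lemma W2 [Nontrivial S] (hτ : Function.Injective τ) (γ : Wr τ S)
    (h : ∀ x s, γ * sg τ x s * γ⁻¹ = sg τ x s) : γ = 1 := by
  obtain ⟨s0, hs0⟩ := exists_ne (1 : S)
  have h1 : ∀ x, τ γ.right x = x := fun x => by
    have := h x s0; rw [W0] at this; exact (sg_inj hs0 this.symm).1.symm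
  have h2 : γ.right = 1 := hτ (by rw [map_one]; ext x; exact h1 x)
  ext y
  · by_contra c
    obtain ⟨t, ht⟩ := hS _ c
    have := h y t
    rw [W0, h1] at this
    exact ht (sg_inj (by rintro rfl; simp at ht) this.symm).2.symm
  · exact h2

lemma W3 [IsSimpleGroup S] (N : Subgroup (Wr τ S))
    (hN : ∀ y t, ∀ n ∈ N, sg τ y t * n * (sg τ y t)⁻¹ ∈ N) {c : Wr τ S} (hc : c ∈ N)
    (h1 : c.right = 1) {x : X} (h2 : c.left.1 x ≠ 1) (s : S) : sg τ x s ∈ N := by
  have : (N.comap (sg τ x)).Normal := ⟨fun n hn t => by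
    rw [Subgroup.mem_comap, map_mul, map_mul, map_inv]; exact hN x t _ hn⟩
  rcases IsSimpleGroup.eq_bot_or_eq_top_of_normal _ this with h | h
  · obtain ⟨t, ht⟩ := hS _ h2
    have k := N.mul_mem hc (hN x t _ (N.inv_mem hc))
    have e : c * (sg τ x t * c⁻¹ * (sg τ x t)⁻¹) = (c * sg τ x t * c⁻¹) * (sg τ x t)⁻¹ := by group
    rw [e, W0, h1, map_one, Perm.one_apply, ← map_inv, ← map_mul, ← Subgroup.mem_comap, h,
      Subgroup.mem_bot, mul_inv_eq_one] at k
    exact (ht k).elim
  · rw [← Subgroup.mem_comap, h]; trivial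

lemma W4 [IsSimpleGroup S] (N : Subgroup (Wr τ S)) [hN : N.Normal] (x : X) :
    (∀ s, sg τ x s ∈ N) ∨ ∀ n ∈ N, ∀ s, n * sg τ x s * n⁻¹ = sg τ x s := by
  by_contra c
  push Not at c
  obtain ⟨⟨s0, h0⟩, n, hn, s, hs⟩ := c
  apply h0
  have k : n * sg τ x s * n⁻¹ * (sg τ x s)⁻¹ ∈ N := by
    have := N.mul_mem hn (hN.conj_mem _ (N.inv_mem hn) (sg τ x s))
    simpa [mul_assoc] using this
  refine W3 hS N (fun y t n hn => hN.conj_mem n hn _) k (by simp [sg_right]) ?_ s0
  rw [W0] at hs ⊢
  rw [← map_inv]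
  simp only [SemidirectProduct.mul_left, sg_left, sg_right, map_one, MulAut.one_apply,
    Subgroup.coe_mul, Pi.mul_apply, sb_app, if_true]
  split_ifs with c
  · intro e
    apply hs
    rw [mul_inv_eq_one.mp e, ← c]
  · intro e
    apply hs
    simp at e
    simp [e]

variable [IsSimpleGroup S] (hτ : Function.Injective τ)
include hτ

lemma W5 (φ : MulAut (Wr τ S)) (γ : Wr τ S) (h : γ.right = 1) : (φ γ).right = 1 := by
  have key : ∀ φ : MulAut (Wr τ S), ∀ γ : Wr τ S, γ.right = 1 →
      γ ∈ (SemidirectProduct.rightHom.comp φ.toMonoidHom).ker := by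
    intro φ γ h
    rw [← SemidirectProduct.inl_left_mul_inr_right γ, h, map_one, mul_one]
    apply W1
    intro x
    rcases W4 hS (SemidirectProduct.rightHom.comp φ.toMonoidHom).ker x with h | h
    · exact h _
    · obtain ⟨s0, hs0⟩ := exists_ne (1 : S)
      have := W2 hS hτ (φ (sg τ x s0)) (fun y t => by
        have := congrArg φ (h (φ.symm (sg τ y t)) (by simp [MonoidHom.mem_ker, sg_right]) s0)
        simp only [map_mul, map_inv, MulEquiv.apply_symm_apply] at this
        rw [mul_inv_eq_iff_eq_mul] at this ⊢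
        exact this.symm)
      rw [map_eq_one_iff _ φ.injective, ← map_one (sg τ x)] at this
      exact (hs0 (sg_inj hs0 this).2).elim
  exact key φ γ h

lemma W6a (φ : MulAut (Wr τ S)) (x : X) : ∃ y, ∀ t, ∃ s, φ (sg τ x s) = sg τ y t := by
  obtain ⟨s0, hs0⟩ := exists_ne (1 : S)
  have h1 := W5 hS hτ φ (sg τ x s0) rfl
  obtain ⟨y, hy⟩ : ∃ y, (φ (sg τ x s0)).left.1 y ≠ 1 := by
    by_contra c
    push Not at c
    have : φ (sg τ x s0) = 1 := by ext y; exact c y; exact h1
    rw [map_eq_one_iff _ φ.injective, ← map_one (sg τ x)] at this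
    exact hs0 (sg_inj hs0 this).2
  refine ⟨y, W3 hS (φ.toMonoidHom.comp (sg τ x)).range ?_ ⟨s0, rfl⟩ h1 hy⟩
  rintro z t _ ⟨s, rfl⟩
  have := W0 τ (φ.symm (sg τ z t)) x s
  rw [W5 hS hτ φ.symm _ rfl, map_one, Perm.one_apply] at this
  refine ⟨_, (congrArg φ this).symm.trans ?_⟩
  simp

lemma W6 (φ : MulAut (Wr τ S)) : ∃ (σ : Perm X) (a : X → S → S), (∀ x s, s ≠ 1 → a x s ≠ 1) ∧
    ∀ x s, φ (sg τ x s) = sg τ (σ x) (a x s) := by
  obtain ⟨s0, hs0⟩ := exists_ne (1 : S)
  have key : ∀ φ : MulAut (Wr τ S), ∀ x, ∃ y, ∀ s, ∃ t, φ (sg τ x s) = sg τ y t := by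
    intro φ x
    obtain ⟨y, hy⟩ := W6a hS hτ φ x
    obtain ⟨x', hx'⟩ := W6a hS hτ φ.symm y
    obtain ⟨t, ht⟩ := hx' s0
    obtain ⟨s, hs⟩ := hy t
    rw [← hs, MulEquiv.symm_apply_apply] at ht
    obtain ⟨rfl, -⟩ := sg_inj hs0 ht.symm
    refine ⟨y, fun s => ?_⟩
    obtain ⟨t, ht⟩ := hx' s
    exact ⟨t, by rw [← ht, MulEquiv.apply_symm_apply]⟩
  choose σ a h using key
  have hi : ∀ φ : MulAut (Wr τ S), ∀ x, σ φ.symm (σ φ x) = x := by
    intro φ x
    have := h φ.symm (σ φ x) (a φ x s0)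
    rw [← h, MulEquiv.symm_apply_apply] at this
    exact (sg_inj hs0 this).1.symm
  refine ⟨⟨σ φ, σ φ.symm, hi φ, hi φ.symm⟩, a φ, fun x s hs e => ?_, h φ⟩
  have := h φ x s
  rw [e, map_one, map_eq_one_iff _ φ.injective, ← map_one (sg τ x)] at this
  exact hs (sg_inj hs this).2

lemma W7 {φ : MulAut (Wr τ S)} {σ : Perm X} {a : X → S → S} (ha : ∀ x s, s ≠ 1 → a x s ≠ 1)
    (h : ∀ x s, φ (sg τ x s) = sg τ (σ x) (a x s)) (g : G) (x : X) :
    σ (τ g x) = τ (φ (SemidirectProduct.inr g)).right (σ x) ∧ ∀ s, a (τ g x) s =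
      (φ (SemidirectProduct.inr g)).left.1 (σ (τ g x)) * a x s *
      ((φ (SemidirectProduct.inr g)).left.1 (σ (τ g x)))⁻¹ := by
  obtain ⟨s0, hs0⟩ := exists_ne (1 : S)
  have key := fun s => by
    have := congrArg φ (W0 τ (SemidirectProduct.inr g) x s)
    rw [map_mul, map_mul, map_inv, h, h, W0] at this
    simp only [SemidirectProduct.right_inr, SemidirectProduct.left_inr,
      OneMemClass.coe_one, Pi.one_apply, one_mul, inv_one, mul_one] at this
    exact this
  have h1 := (sg_inj (ha _ _ hs0) (key s0).symm).1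
  refine ⟨h1, fun s => ?_⟩
  have := congrArg (fun z : Wr τ S => z.left.1 (σ (τ g x))) (key s)
  simp only [sg_left, sb_app, if_true, ← h1] at this
  exact this.symm

theorem W8 [Finite S] (T : Set (Perm X)) (hT : T.Finite)
    (hN : ∀ σ ∈ Subgroup.normalizer (τ.range : Set (Perm X)), ∃ g, ∃ t ∈ T, σ = τ g * t)
    (ℓ : X → Bool) (hℓ : ∀ g x, ℓ (τ g x) = ℓ x)
    (hOE : ∀ f : X → (S → S), (∀ g, {x | f (τ g x) ≠ f x}.Finite) →
      ∃ c : Bool → S → S, {x | f x ≠ c (ℓ x)}.Finite)
    (hI : ∀ x, ∀ F : Set X, F.Finite → ∃ g, τ g x ∉ F) :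
    Finite (MulAut (Wr τ S) ⧸ (MulAut.conj : Wr τ S →* MulAut (Wr τ S)).range) := by
  classical
  have key : ∀ φ : MulAut (Wr τ S), ∃ (γ : Wr τ S) (d : T × (Bool → S → S)),
      ∀ x s, (MulAut.conj γ * φ) (sg τ x s) = sg τ (d.1.1 x) (d.2 (ℓ x) s) := by
    intro φ
    obtain ⟨σ, a, ha, h⟩ := W6 hS hτ φ
    obtain ⟨g, t, ht, e⟩ := hN σ (by
      rw [Subgroup.mem_normalizer_iff]
      intro u
      constructor
      · rintro ⟨g, rfl⟩
        refine ⟨(φ (SemidirectProduct.inr g)).right, ?_⟩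
        rw [eq_mul_inv_iff_mul_eq]
        ext x; exact (W7 hS hτ ha h g x).1.symm
      · rintro ⟨g, hg⟩
        refine ⟨(φ.symm (SemidirectProduct.inr g)).right, ?_⟩
        ext x
        apply σ.injective
        have := (W7 hS hτ ha h (φ.symm (SemidirectProduct.inr g)).right x).1
        have e : (φ (SemidirectProduct.inr (φ.symm (SemidirectProduct.inr g)).right)).right = g := by
          have := W5 hS hτ φ (φ.symm (SemidirectProduct.inr g) *
            (SemidirectProduct.inr (φ.symm (SemidirectProduct.inr g)).right)⁻¹) (by simp)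
          simp only [map_mul, map_inv, MulEquiv.apply_symm_apply, SemidirectProduct.mul_right,
            SemidirectProduct.inv_right, SemidirectProduct.right_inr] at this
          exact (mul_inv_eq_one.mp this).symm
        rw [this, e, hg]; simp)
    obtain ⟨c, hc⟩ := hOE a (fun g => by
      refine (bs_comp (φ (SemidirectProduct.inr g)).left (σ * τ g)).subset ?_
      intro x hx
      intro e
      apply hx
      funext s
      rw [(W7 hS hτ ha h g x).2 s]
      simp only [Perm.mul_apply] at e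
      simp [e])
    have hu : ∀ x, ∃ u : S, (a x = c (ℓ x) → u = 1) ∧ ∀ s, u * a x s * u⁻¹ = c (ℓ x) s := by
      intro x
      by_cases k : a x = c (ℓ x)
      · exact ⟨1, fun _ => rfl, fun s => by simp [k]⟩
      · obtain ⟨g, hg⟩ := hI x _ hc
        simp only [Set.mem_ofPred_eq, ne_eq, not_not, hℓ] at hg
        exact ⟨_, fun k' => (k k').elim, fun s => by rw [← hg, (W7 hS hτ ha h g x).2 s]⟩
    choose u hu1 hu2 using hu
    have hub : u ∈ Bs X S := hc.subset (fun x hx e => hx (hu1 x e))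
    refine ⟨SemidirectProduct.inr g⁻¹ * SemidirectProduct.inl (wact X S σ ⟨u, hub⟩), (⟨t, ht⟩, c),
      fun x s => ?_⟩
    rw [MulAut.mul_apply, h, map_mul, MulAut.mul_apply, MulAut.conj_apply, MulAut.conj_apply, W0,
      W0]
    simp [hu2, e]
  choose γ d hd using key
  have := hT.to_subtype
  refine Finite.of_injective (β := T × (Bool → S → S)) (fun q => d (Quotient.out q)) ?_
  · intro q q' e
    rw [← q.out_eq, ← q'.out_eq]
    apply Quotient.sound
    show QuotientGroup.leftRel _ _ _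
    rw [QuotientGroup.leftRel_apply]
    have h1 : MulAut.conj (γ q.out) * q.out = MulAut.conj (γ q'.out) * q'.out := by
      ext1 z
      generalize hA : MulAut.conj (γ q.out) * q.out = A
      generalize hB : MulAut.conj (γ q'.out) * q'.out = B
      have k : ∀ x s, A (sg τ x s) = B (sg τ x s) := fun x s => by
        rw [← hA, ← hB, hd, hd, show d q.out = d q'.out from e]
      have := W2 hS hτ (z⁻¹ * A.symm (B z)) (fun x s => by
        apply A.injective
        have e1 := congrArg B (W0 τ z x s)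
        have e2 := congrArg A (W0 τ z x s)
        rw [← k, ← e2] at e1
        simp only [map_mul, map_inv, MulEquiv.apply_symm_apply] at e1 ⊢
        rw [← k] at e1
        calc _ = (A z)⁻¹ * (B z * A (sg τ x s) * (B z)⁻¹) * A z := by group
          _ = _ := by rw [e1]; group)
      rw [inv_mul_eq_one] at this
      rw [congrArg A this, MulEquiv.apply_symm_apply]
    refine ⟨q.out.symm ((γ q'.out)⁻¹ * γ q.out), ?_⟩
    ext1 z
    apply q.out.injective
    have := DFunLike.congr_fun h1 z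
    simp only [MulAut.mul_apply, MulAut.conj_apply] at this
    rw [MulAut.conj_apply]
    simp only [map_mul, map_inv, MulEquiv.apply_symm_apply, MulAut.mul_apply,
      MulAut.inv_apply]
    calc _ = (γ q'.out)⁻¹ * (γ q.out * q.out z * (γ q.out)⁻¹) * γ q'.out := by group
      _ = _ := by rw [this]; group

omit hτ in
lemma W9 (hI : ∀ x, ∀ F : Set X, F.Finite → ∃ g, τ g x ∉ F) (N : Subgroup (Wr τ S)) [N.Normal]
    [N.FiniteIndex] (b : Bs X S) : SemidirectProduct.inl b ∈ N := by
  apply W1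
  intro x
  rcases W4 hS N x with h | h
  · exact h _
  obtain ⟨s0, hs0⟩ := exists_ne (1 : S)
  obtain ⟨g, hg⟩ := hI x _ (Set.finite_range (fun q : Wr τ S ⧸ N => τ q.out.right x))
  exfalso
  apply hg
  refine ⟨(SemidirectProduct.inr g : Wr τ S), ?_⟩
  obtain ⟨n, hn⟩ := QuotientGroup.mk_out_eq_mul N (SemidirectProduct.inr g : Wr τ S)
  have := h n n.2 s0
  rw [W0] at this
  simp only [hn, SemidirectProduct.mul_right, SemidirectProduct.right_inr, map_mul, Perm.mul_apply]
  rw [← (sg_inj hs0 this.symm).1]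

omit hS hτ [IsSimpleGroup S]

lemma W10 (σ : Perm X) (β : MulAut G) (h : ∀ g, τ (β g) * σ = σ * τ g) :
    ∃ φ : MulAut (Wr τ S), ∀ γ, (φ γ).right = β γ.right :=
  ⟨SemidirectProduct.congr (wact X S σ) β (fun g => by
    ext1 f
    show wact X S σ (wact X S (τ g) f) = wact X S (τ (β g)) (wact X S σ f)
    rw [← MulAut.mul_apply, ← MulAut.mul_apply, ← map_mul, ← map_mul, h]), fun _ => rfl⟩

lemma W11 [Finite S] [hG : Group.FG G] (R : Set X) (hR : R.Finite)
    (h : ∀ x, ∃ r ∈ R, ∃ g, τ g r = x) : Group.FG (Wr τ S) := by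
  obtain ⟨A, hA, hf⟩ := Group.fg_iff.mp hG
  refine Group.fg_iff.mpr ⟨SemidirectProduct.inr '' A ∪ Set.image2 (fun r s => sg τ r s) R Set.univ,
    ?_, (hf.image _).union (hR.image2 _ Set.finite_univ)⟩
  rw [eq_top_iff]
  intro γ _
  have h1 : ∀ g, SemidirectProduct.inr g ∈ Subgroup.closure
      (SemidirectProduct.inr '' A ∪ Set.image2 (fun r (s : S) => sg τ r s) R Set.univ) := by
    intro g
    apply Subgroup.closure_mono Set.subset_union_left
    rw [← MonoidHom.map_closure, hA]
    exact ⟨g, trivial, rfl⟩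
  rw [← SemidirectProduct.inl_left_mul_inr_right γ]
  refine Subgroup.mul_mem _ (W1 _ _ (fun x => ?_)) (h1 _)
  obtain ⟨r, hr, g, rfl⟩ := h x
  have := W0 τ (SemidirectProduct.inr g) r (γ.left.1 (τ g r))
  simp only [SemidirectProduct.right_inr, SemidirectProduct.left_inr,
      OneMemClass.coe_one, Pi.one_apply, one_mul, inv_one, mul_one] at this
  rw [← this]
  exact Subgroup.mul_mem _ (Subgroup.mul_mem _ (h1 _)
    (Subgroup.subset_closure (Or.inr ⟨r, hr, _, trivial, rfl⟩))) (Subgroup.inv_mem _ (h1 _))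

end Pool.Agent.H73.CN
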