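import Mathlib

set_option autoImplicit false

namespace Pool.Agent.H73.CN

open Equiv

section abs
variable {H : Type} [Group H] (a b : H)

def bb (x : Bool) : H := if x then b * b else b
def ai (i : Bool) : H := if i then a else 1
def ev : List Bool → H
  | [] => 1
  | x :: w => a * bb b x * ev w

lemma ev_append (w w' : List Bool) : ev a b (w ++ w') = ev a b w * ev a b w' := by
  induction w with
  | nil => simp [ev]
  | cons x w ih => simp [ev, ih, mul_assoc]

lemma ev_pow (w : List Bool) (n : ℕ) : ∃ W, ev a b w ^ n = ev a b W ∧ W.length = n * w.length := by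
  induction n with
  | zero => exact ⟨[], by simp [ev], by simp⟩
  | succ n ih =>
    obtain ⟨W, h1, h2⟩ := ih
    exact ⟨W ++ w, by rw [pow_succ, h1, ev_append], by simp [h2]; ring⟩

variable {a b} (ha : a * a = 1) (hb : b * (b * b) = 1)

lemma a_mem : a ∈ Subgroup.closure {a, b} := Subgroup.subset_closure (by simp)
lemma b_mem : b ∈ Subgroup.closure {a, b} := Subgroup.subset_closure (by simp)
lemma bb_mem (x : Bool) : bb b x ∈ Subgroup.closure {a, b} := by
  cases x
  · exact b_mem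
  · exact Subgroup.mul_mem _ b_mem b_mem
lemma ai_mem (x : Bool) : ai a x ∈ Subgroup.closure {a, b} := by
  cases x
  · exact Subgroup.one_mem _
  · exact a_mem

include ha in
lemma aa (x : H) : a * (a * x) = x := by rw [← mul_assoc, ha, one_mul]
include hb in
lemma bbb (x : H) : b * (b * (b * x)) = x := by
  rw [← mul_assoc b b x, ← mul_assoc, hb, one_mul]

include ha hb

lemma NF {u : H} (hu : u ∈ Subgroup.closure {a, b}) :
    ∃ i w j, u = ai a i * ev a b w * ai a j := by
  have ka : ∀ u, (∃ i w j, u = ai a i * ev a b w * ai a j) →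
      ∃ i w j, a * u = ai a i * ev a b w * ai a j := by
    rintro _ ⟨i, w, j, rfl⟩
    exact ⟨!i, w, j, by cases i <;> simp [ai, mul_assoc, aa ha]⟩
  have kb : ∀ u, (∃ i w j, u = ai a i * ev a b w * ai a j) →
      ∃ i w j, b * u = ai a i * ev a b w * ai a j := by
    rintro _ ⟨i, w, j, rfl⟩
    rcases i with _ | _
    · exact ⟨true, false :: w, j, by simp [ai, ev, bb, mul_assoc, aa ha]⟩
    · rcases w with _ | ⟨_ | _, w⟩
      · exact ⟨true, [false], !j, by cases j <;> simp [ai, ev, bb, mul_assoc, aa ha, ha]⟩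
      · exact ⟨true, true :: w, j, by simp [ai, ev, bb, mul_assoc, aa ha]⟩
      · exact ⟨false, w, j, by simp [ai, ev, bb, mul_assoc, aa ha, bbb hb]⟩
  induction hu using Subgroup.closure_induction_left with
  | one => exact ⟨false, [], false, by simp [ai, ev]⟩
  | mul_left x hx y _ ih =>
    rcases hx with rfl | rfl
    · exact ka _ ih
    · exact kb _ ih
  | inv_mul_cancel x hx y _ ih =>
    rcases hx with rfl | rfl
    · rw [inv_eq_of_mul_eq_one_right ha]; exact ka _ ih
    · rw [inv_eq_of_mul_eq_one_right hb, mul_assoc]; exact kb _ (kb _ ih)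

lemma ev_inv (w : List Bool) : (ev a b w)⁻¹ = a * ev a b (w.map not).reverse * a := by
  induction w with
  | nil => simp [ev, ha]
  | cons x w ih =>
    have e : (bb b x)⁻¹ = bb b (!x) := by
      apply inv_eq_of_mul_eq_one_right
      cases x <;> simp [bb, hb, mul_assoc]
    simp [ev, ih, ev_append, e, inv_eq_of_mul_eq_one_right ha, mul_assoc, aa ha]

lemma tors (hf : ∀ w, ev a b w = 1 → w = []) {u : H} (hu : u ∈ Subgroup.closure {a, b}) {n : ℕ}
    (hn : 0 < n) (h : u ^ n = 1) : ∃ h ∈ Subgroup.closure {a, b},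
      h * u * h⁻¹ = 1 ∨ h * u * h⁻¹ = a ∨ ∃ x, h * u * h⁻¹ = bb b x := by
  have ia := inv_eq_of_mul_eq_one_right ha
  have k0 : ∀ w, ev a b w ^ n = 1 → w = [] := by
    intro w h
    obtain ⟨W, h1, h2⟩ := ev_pow a b w n
    rw [hf W (h1 ▸ h)] at h2
    exact List.eq_nil_of_length_eq_zero (by simpa [hn.ne'] using h2.symm)
  have cj : ∀ g u : H, u ^ n = 1 → (g * u * g⁻¹) ^ n = 1 := by
    intro g u h; rw [conj_pow, h]; simp
  have k1 : ∀ l, ∀ w : List Bool, w.length = l → (a * ev a b w) ^ n = 1 →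
      ∃ h ∈ Subgroup.closure {a, b}, h * (a * ev a b w) * h⁻¹ = a ∨
        ∃ x, h * (a * ev a b w) * h⁻¹ = bb b x := by
    intro l
    induction l using Nat.strong_induction_on with
    | _ l ih =>
      intro w hw h
      rcases w with _ | ⟨x, w⟩
      · exact ⟨1, Subgroup.one_mem _, Or.inl (by simp [ev])⟩
      rcases w.eq_nil_or_concat with rfl | ⟨w, y, rfl⟩
      · exact ⟨1, Subgroup.one_mem _, Or.inr ⟨x, by simp [ev, mul_assoc, aa ha]⟩⟩
      have e : (a * bb b y) * (a * ev a b (x :: w.concat y)) * (a * bb b y)⁻¹ =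
          a * (bb b y * bb b x) * ev a b w := by
        simp [ev, ev_append, mul_assoc, aa ha]
      have h2 := cj (a * bb b y) _ h
      rw [e] at h2
      by_cases c : x = y
      · subst c
        have : bb b x * bb b x = bb b (!x) := by cases x <;> simp [bb, mul_assoc, bbb hb]
        rw [this] at h2
        exact absurd (k0 ((!x) :: w) h2) (by simp)
      · have : bb b y * bb b x = 1 := by
          cases x <;> cases y <;> simp_all [bb, mul_assoc]
        rw [this, mul_one] at h2 e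
        obtain ⟨g, hg, h3⟩ := ih w.length (by simp at hw; omega) w rfl h2
        refine ⟨g * (a * bb b y), Subgroup.mul_mem _ hg (Subgroup.mul_mem _ a_mem (bb_mem y)), ?_⟩
        rw [← e] at h3
        simpa only [mul_assoc, mul_inv_rev] using h3
  obtain ⟨i, w, j, rfl⟩ := NF ha hb hu
  have h2 := cj (ai a j) _ h
  have e : ai a j * (ai a i * ev a b w * ai a j) * (ai a j)⁻¹ = ai a j * ai a i * ev a b w := by
    group
  by_cases c : i = j
  · have : ai a j * ai a i = 1 := by subst c; cases i <;> simp [ai, ha]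
    rw [e, this, one_mul] at h2
    exact ⟨ai a j, ai_mem j, Or.inl (by rw [e, this, k0 w h2]; simp [ev])⟩
  · have : ai a j * ai a i = a := by cases i <;> cases j <;> simp_all [ai]
    rw [this] at e
    rw [e] at h2
    obtain ⟨g, hg, h3⟩ := k1 _ w rfl h2
    refine ⟨g * ai a j, Subgroup.mul_mem _ hg (ai_mem j), Or.inr ?_⟩
    rw [← e] at h3
    simpa only [mul_assoc, mul_inv_rev] using h3

lemma pingpong (h1 : ∀ i W j, b = ai a i * ev a b W * ai a j → W.length = 1) {h : H}
    (hh : h ∈ Subgroup.closure {a, b}) (h2 : b ∈ Subgroup.closure {a, h * b * h⁻¹}) :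
    ∃ i, h * b * h⁻¹ = ai a i * b * ai a i := by
  have ia := inv_eq_of_mul_eq_one_right ha
  have ii : ∀ i, (ai a i)⁻¹ = ai a i := fun i => by cases i <;> simp [ai, ia]
  have key : ∀ i w, h * b * h⁻¹ = ai a i * (ev a b w * a * b * a * (ev a b w)⁻¹) * ai a i →
      ∃ i, h * b * h⁻¹ = ai a i * b * ai a i := by
    intro i w e
    by_cases c : w = []
    · subst c
      exact ⟨!i, by rw [e]; cases i <;> simp [ai, ev, mul_assoc, aa ha, ha]⟩
    exfalso
    generalize hU : ev a b w * a * b * a * (ev a b w)⁻¹ = U at e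
    have h3 : b ∈ Subgroup.closure {a, U} := by
      refine (Subgroup.closure_le _).mpr ?_ h2
      rintro _ (rfl | rfl)
      · exact a_mem
      · rw [e]; exact Subgroup.mul_mem _ (Subgroup.mul_mem _ (ai_mem i) b_mem) (ai_mem i)
    obtain ⟨i', W, j', e2⟩ := NF ha (b := U) (by rw [← hU]; simp [mul_assoc, aa ha, bbb hb, ha]) h3
    have k : ∀ W, ∃ W', ev a U W = a * ev a b W' * a ∧ W'.length = W.length * (2 * w.length + 1) := by
      intro W
      induction W with
      | nil => exact ⟨[], by simp [ev, ha], by simp⟩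
      | cons x W ih =>
        obtain ⟨W', k1, k2⟩ := ih
        refine ⟨(w ++ x :: (w.map not).reverse) ++ W', ?_, by simp [k2]; ring⟩
        have : bb U x = ev a b w * a * bb b x * a * (ev a b w)⁻¹ := by
          rw [← hU]; cases x <;> simp [bb, mul_assoc, aa ha]
        rw [ev, k1, this, ev_inv ha hb]
        simp [ev, ev_append, mul_assoc, aa ha]
    obtain ⟨W', k1, k2⟩ := k W
    have := h1 (!i') W' (!j') (by
      rw [k1] at e2
      refine e2.trans ?_
      cases i' <;> cases j' <;> simp [ai, mul_assoc, aa ha, ha])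
    rw [this] at k2
    have := List.length_pos_iff.mpr c
    have := Nat.eq_one_of_mul_eq_one_left k2.symm
    omega
  obtain ⟨i, w, j, e⟩ := NF ha hb hh
  cases j
  · rcases w.eq_nil_or_concat with rfl | ⟨w, y, rfl⟩
    · exact ⟨i, by rw [e]; simp [ev, ii, show ai a false = 1 from rfl]⟩
    · refine key i w ?_
      rw [e]
      cases y <;> simp [ev, ev_append, ii, show ai a false = 1 from rfl, bb, mul_assoc, ia]
  · exact key i w (by rw [e]; simp [ii, show ai a true = a from rfl, mul_assoc, ia])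

lemma norm_abs (hf : ∀ w, ev a b w = 1 → w = [])
    (h1 : ∀ i W j, b = ai a i * ev a b W * ai a j → W.length = 1) (a1 : a ≠ 1) (b1 : b ≠ 1) {σ : H}
    (hσ : σ ∈ Subgroup.normalizer (Subgroup.closure {a, b} : Subgroup H)) :
    ∃ h ∈ Subgroup.closure {a, b}, ∃ x, (h * σ) * a * (h * σ)⁻¹ = a ∧
      (h * σ) * b * (h * σ)⁻¹ = bb b x := by
  have ia := inv_eq_of_mul_eq_one_right ha
  obtain ⟨g, hg, e⟩ := tors ha hb hf ((Subgroup.mem_normalizer_iff.mp hσ a).mp a_mem)
    (n := 2) (by norm_num) (by rw [conj_pow, pow_two, ha]; simp)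
  have e1 : (g * σ) * a * (g * σ)⁻¹ = a := by
    rcases e with e | e | ⟨x, e⟩
    · simp [a1] at e
    · simpa only [mul_assoc, mul_inv_rev] using e
    · exfalso
      have : bb b x * bb b x = 1 := by rw [← e]; simp [mul_assoc, aa ha]
      apply b1
      cases x
      · have t : b * b = 1 := this
        rwa [t, mul_one] at hb
      · simpa [bb, mul_assoc, bbb hb] using this
  have hσ1 := Subgroup.mul_mem _ (Subgroup.le_normalizer hg) hσ
  generalize hs : g * σ = σ1 at e1 hσ1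
  obtain ⟨g2, hg2, e⟩ := tors ha hb hf ((Subgroup.mem_normalizer_iff.mp hσ1 b).mp b_mem)
    (n := 3) (by norm_num) (by rw [conj_pow, pow_three, hb]; simp)
  obtain ⟨x, e2⟩ : ∃ x, g2 * (σ1 * b * σ1⁻¹) * g2⁻¹ = bb b x := by
    rcases e with e | e | e
    · simp [b1] at e
    · exfalso
      have : a * (a * a) = 1 := by rw [← e]; simp [mul_assoc, bbb hb]
      exact a1 (by simpa [ha] using this)
    · exact e
  have e3 : σ1 * b * σ1⁻¹ = bb (g2⁻¹ * b * g2⁻¹⁻¹) x := by
    have : σ1 * b * σ1⁻¹ = g2⁻¹ * bb b x * g2 := by rw [← e2]; group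
    rw [this]; cases x <;> simp [bb, mul_assoc]
  obtain ⟨i, hi⟩ := pingpong ha hb h1 (Subgroup.inv_mem _ hg2) (by
    have k : σ1⁻¹ * b * σ1 ∈ Subgroup.closure {a, b} :=
      (Subgroup.mem_normalizer_iff.mp hσ1 _).mpr (by simpa [mul_assoc] using b_mem)
    have k2 : Subgroup.closure {a, b} ≤ (Subgroup.closure {a, g2⁻¹ * b * g2⁻¹⁻¹}).comap
        (MulAut.conj σ1).toMonoidHom := by
      rw [Subgroup.closure_le]
      intro z hz
      show σ1 * z * σ1⁻¹ ∈ Subgroup.closure {a, g2⁻¹ * b * g2⁻¹⁻¹}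
      rcases hz with hz | hz
      · rw [hz, e1]; exact a_mem
      · rw [hz, e3]; exact bb_mem x
    simpa [mul_assoc] using k2 k)
  refine ⟨ai a i * g, Subgroup.mul_mem _ (ai_mem i) hg, x, ?_, ?_⟩
  · rw [mul_assoc _ g, hs]
    calc _ = ai a i * (σ1 * a * σ1⁻¹) * (ai a i)⁻¹ := by group
      _ = _ := by rw [e1]; cases i <;> simp [ai]
  · rw [mul_assoc _ g, hs]
    calc _ = ai a i * (σ1 * b * σ1⁻¹) * (ai a i)⁻¹ := by group
      _ = _ := by rw [e3, hi]; cases i <;> cases x <;> simp [ai, bb, mul_assoc, aa ha, ia, ha]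

end abs

inductive Yc
  | t0 (w : List Bool) | t1 (w : List Bool) | t2 (w : List Bool)
  | c0 (k : ℕ) | c1 (k : ℕ) | c2 (k : ℕ)

def Yc.code : Yc → ℕ × List Bool × ℕ
  | .t0 w => (0, w, 0) | .t1 w => (1, w, 0) | .t2 w => (2, w, 0)
  | .c0 k => (3, [], k) | .c1 k => (4, [], k) | .c2 k => (5, [], k)

instance : Countable Yc := Function.Injective.countable (f := Yc.code) (by
  intro x y h; cases x <;> cases y <;> simp_all [Yc.code])

def rb : Yc → Yc
  | .t0 w => .t1 w | .t1 w => .t2 w | .t2 w => .t0 w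
  | .c0 k => .c1 k | .c1 k => .c2 k | .c2 k => .c0 k

lemma rb3 (y : Yc) : rb (rb (rb y)) = y := by cases y <;> rfl
lemma rb_ne (y : Yc) : rb y ≠ y := by cases y <;> simp [rb]

variable {P : Type} [Group P]

def fa (γ : ℕ → P) : P × Yc → P × Yc
  | (g, .t0 []) => (g, .c2 0)
  | (g, .t0 (false :: w)) => (g, .t1 w)
  | (g, .t0 (true :: w)) => (g, .t2 w)
  | (g, .t1 w) => (g, .t0 (false :: w))
  | (g, .t2 w) => (g, .t0 (true :: w))
  | (g, .c0 0) => (g, .c0 0)
  | (g, .c0 (k + 1)) => (g, .c1 k)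
  | (g, .c1 k) => (g, .c0 (k + 1))
  | (g, .c2 0) => (g, .t0 [])
  | (g, .c2 (k + 1)) => (g * γ k, .c2 (k + 1))

structure Gn (P : Type) [Group P] where
  γ : ℕ → P
  sq : ∀ k, γ k * γ k = 1
  ne : ∀ k, γ k ≠ 1
  gen : Subgroup.closure (Set.range γ) = ⊤
  fin : (Set.range γ).Finite

variable (J : Gn P)

def pa : Perm (P × Yc) := Function.Involutive.toPerm (fa J.γ) (by
  rintro ⟨g, (_ | ⟨_ | _, w⟩) | w | w | (_ | k) | k | (_ | k)⟩ <;> simp [fa, mul_assoc, J.sq])

def pb (P : Type) : Perm (P × Yc) :=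
  ⟨fun z => (z.1, rb z.2), fun z => (z.1, rb (rb z.2)), fun z => by simp [rb3], fun z => by simp [rb3]⟩

def lam (P : Type) [Group P] : P →* Perm (P × Yc) where
  toFun h := Equiv.prodCongr (Equiv.mulLeft h) (Equiv.refl _)
  map_one' := by ext <;> simp
  map_mul' _ _ := by ext <;> simp [mul_assoc]

lemma pa_app (z : P × Yc) : pa J z = fa J.γ z := rfl
lemma pb_app (g : P) (y : Yc) : pb P (g, y) = (g, rb y) := rfl
lemma lam_app (h g : P) (y : Yc) : lam P h (g, y) = (h * g, y) := rfl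

lemma pa_sq : pa J * pa J = 1 := by
  ext1 z; exact (pa J).left_inv z
lemma pb_cu : pb P * (pb P * pb P) = 1 := by
  ext1 ⟨g, y⟩; simp [pb_app, rb3]

abbrev H0 : Subgroup (Perm (P × Yc)) := Subgroup.closure {pa J, pb P}

lemma lam_comm (g : P) {h : Perm (P × Yc)} (hh : h ∈ H0 J) : lam P g * h = h * lam P g := by
  have : H0 J ≤ Subgroup.centralizer {lam P g} := by
    rw [Subgroup.closure_le]
    rintro _ (rfl | rfl) _ rfl
    · ext1 z
      rcases z with ⟨g, (_ | ⟨_ | _, w⟩) | w | w | (_ | k) | k | (_ | k)⟩ <;>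
        simp [fa, mul_assoc, pa_app, lam_app]
    · ext1 ⟨g, y⟩; rfl
  exact this hh _ rfl

lemma H0_trans (z : P × Yc) : ∃ h ∈ H0 J, h (1, .c0 0) = z := by
  let O : Set (P × Yc) := {z | ∃ h ∈ H0 J, h (1, .c0 0) = z}
  have ka : ∀ z, fa J.γ z ∈ O ↔ z ∈ O := by
    have : ∀ z ∈ O, pa J z ∈ O := by
      rintro _ ⟨h, hh, rfl⟩; exact ⟨pa J * h, Subgroup.mul_mem _ a_mem hh, rfl⟩
    exact fun z => ⟨fun h => by have := this _ h; rwa [show pa J (fa J.γ z) = z from (pa J).left_inv z] at this, this z⟩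
  have kb : ∀ g y, (g, rb y) ∈ O ↔ (g, y) ∈ O := by
    have : ∀ g y, (g, y) ∈ O → (g, rb y) ∈ O := by
      rintro g y ⟨h, hh, e⟩
      exact ⟨pb P * h, Subgroup.mul_mem _ b_mem hh, by rw [Perm.mul_apply, e]; rfl⟩
    exact fun g y => ⟨fun h => by have := this _ _ (this _ _ h); rwa [rb3] at this, this g y⟩
  have k1 : ∀ g k, (g, Yc.c0 k) ∈ O ↔ (g, Yc.c0 0) ∈ O := by
    intro g k
    induction k with
    | zero => rfl
    | succ k ih => rw [← ka, ← ih, ← kb g (.c0 k)]; rfl
  have k2 : ∀ g w, (g, Yc.t0 w) ∈ O ↔ (g, Yc.c0 0) ∈ O := by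
    intro g w
    induction w with
    | nil => rw [← ka, ← kb g (.c0 0), ← kb g (rb (.c0 0))]; rfl
    | cons x w ih =>
      cases x
      · rw [← ka, ← ih, ← kb g (.t0 w)]; rfl
      · rw [← ka, ← ih, ← kb g (.t0 w), ← kb g (rb (.t0 w))]; rfl
  have k3 : ∀ g y, (g, y) ∈ O ↔ (g, Yc.c0 0) ∈ O := by
    intro g y
    cases y with
    | t0 w => exact k2 g w
    | t1 w => rw [← k2 g w, ← kb g (.t0 w)]; rfl
    | t2 w => rw [← k2 g w, ← kb g (.t2 w)]; rfl
    | c0 w => exact k1 g w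
    | c1 w => rw [← k1 g w, ← kb g (.c0 w)]; rfl
    | c2 w => rw [← k1 g w, ← kb g (.c2 w)]; rfl
  have k4 : ∀ g k, (g * J.γ k, Yc.c0 0) ∈ O ↔ (g, Yc.c0 0) ∈ O := by
    intro g k
    rw [← k3 g (.c2 (k + 1)), ← k3 _ (.c2 (k + 1)), ← ka (g, _)]; rfl
  obtain ⟨g, y⟩ := z
  show (g, y) ∈ O
  rw [k3]
  have hg : g ∈ Subgroup.closure (Set.range J.γ) := by rw [J.gen]; trivial
  induction hg using Subgroup.closure_induction_right with
  | one => exact ⟨1, Subgroup.one_mem _, rfl⟩
  | mul_right x _ y hy ih => obtain ⟨k, rfl⟩ := hy; rwa [k4]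
  | mul_inv_cancel x _ y hy ih =>
    obtain ⟨k, rfl⟩ := hy
    rwa [inv_eq_of_mul_eq_one_right (J.sq k), k4]

lemma cent {σ : Perm (P × Yc)} (h1 : σ * pa J = pa J * σ) (h2 : σ * pb P = pb P * σ) :
    ∃ g, σ = lam P g := by
  have h3 : H0 J ≤ Subgroup.centralizer {σ} := by
    rw [Subgroup.closure_le]
    rintro _ (rfl | rfl) _ rfl
    · exact h1
    · exact h2
  obtain ⟨g, e⟩ : ∃ g, σ (1, .c0 0) = (g, .c0 0) := by
    have := congrArg (fun u : Perm (P × Yc) => u (1, .c0 0)) h1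
    simp only [Perm.mul_apply, pa_app, fa] at this
    generalize σ (1, .c0 0) = z at this
    rcases z with ⟨g, (_ | ⟨_ | _, w⟩) | w | w | (_ | k) | k | (_ | k)⟩ <;>
      simp [fa, J.ne] at this ⊢
  refine ⟨g, ?_⟩
  ext1 z
  obtain ⟨h, hh, rfl⟩ := H0_trans J z
  rw [← Perm.mul_apply, h3 hh σ rfl, ← Perm.mul_apply (lam P g), lam_comm J g hh, Perm.mul_apply,
    Perm.mul_apply, e, lam_app, mul_one]

lemma ev_app (w : List Bool) : ev (pa J) (pb P) w (1, .t0 []) = (1, .t0 w) := by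
  induction w with
  | nil => rfl
  | cons x w ih => cases x <;> simp [ev, bb, ih, pb_app, pa_app, rb, fa]

lemma nf_app (i j : Bool) (w : List Bool) : (ai (pa J) i * ev (pa J) (pb P) w * ai (pa J) j)
    (ai (pa J) j (1, .t0 [])) = ai (pa J) i (1, .t0 w) := by
  rw [Perm.mul_apply, Perm.mul_apply, ← Perm.mul_apply (ai (pa J) j),
    show ai (pa J) j * ai (pa J) j = 1 by cases j <;> simp [ai, pa_sq], Perm.one_apply, ev_app]

lemma lam_H0 {g : P} (h : lam P g ∈ H0 J) : g = 1 := by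
  obtain ⟨i, w, j, e⟩ := NF (pa_sq J) pb_cu h
  have := nf_app J i j w
  rw [← e] at this
  have := congrArg Prod.fst this
  rcases w with _ | ⟨_ | _, w⟩ <;> cases i <;> cases j <;> simpa [ai, pa_app, fa, lam_app] using this

theorem normH0 : ∃ T : Set (Perm (P × Yc)), T.Finite ∧
    ∀ σ ∈ Subgroup.normalizer (H0 J : Set (Perm (P × Yc))), ∃ h ∈ H0 J, ∃ g, ∃ t ∈ T,
      σ = h * lam P g * t := by
  have ex : ∀ x : Bool, ∃ t : Perm (P × Yc), ∀ σ, σ * pa J * σ⁻¹ = pa J →
      σ * pb P * σ⁻¹ = bb (pb P) x → ∃ g, σ = lam P g * t := by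
    intro x
    by_cases c : ∃ t, t * pa J * t⁻¹ = pa J ∧ t * pb P * t⁻¹ = bb (pb P) x
    · obtain ⟨t, t1, t2⟩ := c
      refine ⟨t, fun σ s1 s2 => ?_⟩
      obtain ⟨g, e⟩ := cent J (σ := t⁻¹ * σ) (by
        have : σ * pa J * σ⁻¹ = t * pa J * t⁻¹ := by rw [s1, t1]
        calc _ = t⁻¹ * (σ * pa J * σ⁻¹) * σ := by group
          _ = _ := by rw [this]; group) (by
        have : σ * pb P * σ⁻¹ = t * pb P * t⁻¹ := by rw [s2, t2]
        calc _ = t⁻¹ * (σ * pb P * σ⁻¹) * σ := by group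
          _ = _ := by rw [this]; group)
      obtain ⟨g', e'⟩ := cent J (σ := t * lam P g * t⁻¹) (by
        calc _ = t * lam P g * t⁻¹ * (t * pa J * t⁻¹) := by rw [t1]
          _ = t * (lam P g * pa J) * t⁻¹ := by group
          _ = (t * pa J * t⁻¹) * (t * lam P g * t⁻¹) := by rw [lam_comm J g a_mem]; group
          _ = _ := by rw [t1]) (by
        have k : t * lam P g * t⁻¹ * bb (pb P) x = bb (pb P) x * (t * lam P g * t⁻¹) := by
          calc _ = t * lam P g * t⁻¹ * (t * pb P * t⁻¹) := by rw [t2]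
            _ = t * (lam P g * pb P) * t⁻¹ := by group
            _ = (t * pb P * t⁻¹) * (t * lam P g * t⁻¹) := by rw [lam_comm J g b_mem]; group
            _ = _ := by rw [t2]
        cases x
        · exact k
        · have k2 := Commute.mul_right k k
          rwa [show bb (pb P) true * bb (pb P) true = pb P by
            simp [bb, mul_assoc, bbb pb_cu]] at k2)
      exact ⟨g', by rw [← e', ← e]; group⟩
    · exact ⟨1, fun σ s1 s2 => (c ⟨σ, s1, s2⟩).elim⟩
  choose t ht using ex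
  refine ⟨Set.range t, Set.finite_range _, fun σ hσ => ?_⟩
  obtain ⟨h, hh, x, e1, e2⟩ := norm_abs (pa_sq J) pb_cu (fun w e => by
      have := ev_app J w
      rw [e] at this
      simpa using this.symm) (fun i W j e => by
      have := nf_app J i j W
      rw [← e] at this
      clear e
      rcases W with _ | ⟨_ | _, W⟩ <;> cases i <;> cases j <;>
        simp [ai, pa_app, fa, pb_app, rb] at this ⊢ <;> exact this)
    (fun e => by simpa [pa_app, fa] using congrArg (fun u : Perm (P × Yc) => u (1, .c1 0)) e)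
    (fun e => by simpa [pb_app, rb] using congrArg (fun u : Perm (P × Yc) => u (1, .c1 0)) e) hσ
  obtain ⟨g, e⟩ := ht x _ e1 e2
  exact ⟨h⁻¹, Subgroup.inv_mem _ hh, g, t x, ⟨x, rfl⟩, by rw [mul_assoc, ← e]; group⟩

end Pool.Agent.H73.CN
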