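import Pool.Agent.H73.SGDefs

set_option autoImplicit false

namespace Pool.Agent.H73.SG

open Equiv Equiv.Perm Finset

lemma fin_hom (Γ Q : Type) [Group Γ] [Group Q] [h : Group.FG Γ] [Finite Q] : Finite (Γ →* Q) := by
  obtain ⟨S, hS, hf⟩ := Group.fg_iff.mp h
  have := hf.to_subtype
  refine Finite.of_injective (fun φ : Γ →* Q => fun s : S => φ s) ?_
  intro φ ψ e
  exact MonoidHom.eq_of_eqOn_dense hS (fun x hx => congrFun e ⟨x, hx⟩)

def stab {Γ Y : Type} [Group Γ] (φ : Γ →* Perm Y) (x : Y) : Subgroup Γ :=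
  (MulAction.stabilizer (Perm Y) x).comap φ

lemma mem_stab {Γ Y : Type} [Group Γ] {φ : Γ →* Perm Y} {x : Y} {g : Γ} :
    g ∈ stab φ x ↔ φ g x = x := Iff.rfl

open Classical in
noncomputable def orb {Γ Y : Type} [Group Γ] [Fintype Y] (φ : Γ →* Perm Y) (x : Y) : Finset Y :=
  univ.filter (fun y => ∃ g, φ g x = y)

lemma mem_orb {Γ Y : Type} [Group Γ] [Fintype Y] {φ : Γ →* Perm Y} {x y : Y} :
    y ∈ orb φ x ↔ ∃ g, φ g x = y := by simp [orb]

lemma index_stab {Γ Y : Type} [Group Γ] [Fintype Y] (φ : Γ →* Perm Y) (x : Y) :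
    (stab φ x).index = (orb φ x).card := by
  letI := MulAction.compHom Y φ
  have h := MulAction.index_stabilizer Γ x
  have e1 : MulAction.stabilizer Γ x = stab φ x := rfl
  have e2 : MulAction.orbit Γ x = (orb φ x : Set Y) := by
    ext y; rw [Finset.mem_coe, mem_orb]; rfl
  rw [e1, e2, Set.ncard_coe_finset] at h; exact h

lemma orb_inv {Γ Y : Type} [Group Γ] [Fintype Y] {φ : Γ →* Perm Y} {x y : Y} (g : Γ) :
    φ g y ∈ orb φ x ↔ y ∈ orb φ x := by
  simp only [mem_orb]
  constructor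
  · rintro ⟨h, e⟩; exact ⟨g⁻¹ * h, by rw [map_mul, Perm.mul_apply, e, map_inv]; simp⟩
  · rintro ⟨h, e⟩; exact ⟨g * h, by rw [map_mul, Perm.mul_apply, e]⟩

lemma self_orb {Γ Y : Type} [Group Γ] [Fintype Y] (φ : Γ →* Perm Y) (x : Y) : x ∈ orb φ x :=
  mem_orb.mpr ⟨1, by simp⟩

noncomputable def act {Γ : Type} [Group Γ] (H : Subgroup Γ) : Γ →* Perm (Γ ⧸ H) :=
  MulAction.toPermHom Γ (Γ ⧸ H)

lemma act_mk {Γ : Type} [Group Γ] (H : Subgroup Γ) (g x : Γ) :
    act H g (x : Γ ⧸ H) = ((g * x : Γ) : Γ ⧸ H) := rfl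

lemma stab_act {Γ : Type} [Group Γ] (H : Subgroup Γ) : stab (act H) ((1 : Γ) : Γ ⧸ H) = H := by
  ext g
  rw [mem_stab, act_mk, mul_one, eq_comm, QuotientGroup.eq]; simp

lemma L1 (Γ : Type) [Group Γ] {j : ℕ} (hj : 0 < j) [Finite (Γ →* Perm (Fin j))] :
    Finite {H : Subgroup Γ // H.index = j} ∧
    Nat.card {H : Subgroup Γ // H.index = j} * j.factorial ≤ Nat.card (Γ →* Perm (Fin j)) * j := by
  have ex : ∀ H : {H : Subgroup Γ // H.index = j}, Nonempty (Γ ⧸ H.1 ≃ Fin j) := by
    intro H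
    have : Finite (Γ ⧸ H.1) := Nat.finite_of_card_ne_zero (by
      rw [← Subgroup.index_eq_card, H.2]; omega)
    exact ⟨Finite.equivFinOfCardEq (by rw [← Subgroup.index_eq_card, H.2])⟩
  let e := fun H => (ex H).some
  let F : {H : Subgroup Γ // H.index = j} × Perm (Fin j) → (Γ →* Perm (Fin j)) × Fin j :=
    fun x => ((((e x.1).trans x.2).permCongrHom.toMonoidHom).comp (act x.1.1),
      ((e x.1).trans x.2) ((1 : Γ) : Γ ⧸ x.1.1))
  have key : ∀ x g, (F x).1 g (F x).2 = ((e x.1).trans x.2) ((g : Γ) : Γ ⧸ x.1.1) := by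
    intro x g
    simp [F, act_mk]
  have hF : Function.Injective F := by
    rintro ⟨H, σ⟩ ⟨H', σ'⟩ h
    have k : ∀ g : Γ, ((e H).trans σ) (g : Γ ⧸ H.1) = ((e H').trans σ') (g : Γ ⧸ H'.1) := by
      intro g; rw [← key (H, σ) g, ← key (H', σ') g, h]
    have : H = H' := by
      apply Subtype.ext; ext g
      have a : g ∈ H.1 ↔ ((e H).trans σ) ((1 : Γ) : Γ ⧸ H.1) = ((e H).trans σ) (g : Γ ⧸ H.1) := by
        rw [EmbeddingLike.apply_eq_iff_eq, QuotientGroup.eq]; simp
      have b : g ∈ H'.1 ↔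
          ((e H').trans σ') ((1 : Γ) : Γ ⧸ H'.1) = ((e H').trans σ') (g : Γ ⧸ H'.1) := by
        rw [EmbeddingLike.apply_eq_iff_eq, QuotientGroup.eq]; simp
      rw [a, b, k, k]
    subst this
    congr 1
    ext1 y
    obtain ⟨q, rfl⟩ := (e H).surjective y
    induction q using QuotientGroup.induction_on with
    | H g => exact k g
  have f1 : Finite ({H : Subgroup Γ // H.index = j} × Perm (Fin j)) := Finite.of_injective F hF
  refine ⟨Finite.prod_left (Perm (Fin j)), ?_⟩
  have := Nat.card_le_card_of_injective F hF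
  simpa [Nat.card_prod, Nat.card_perm, Fintype.card_perm] using this

lemma L3 {Y : Type} [Fintype Y] (T : Set (Perm Y)) (R : Finset Y)
    (h : ∀ x, ∃ y ∈ R, ∃ u ∈ T, u y = x) :
    Nat.card {τ : Perm Y // ∀ u ∈ T, τ * u = u * τ} ≤ Fintype.card Y ^ R.card := by
  classical
  have := Nat.card_le_card_of_injective
    (fun τ : {τ : Perm Y // ∀ u ∈ T, τ * u = u * τ} => fun y : R => τ.1 y) (by
      intro τ τ' e
      apply Subtype.ext; ext x
      obtain ⟨y, hy, u, hu, rfl⟩ := h x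
      have a := congrArg (fun z : Perm Y => z y) (τ.2 u hu)
      have b := congrArg (fun z : Perm Y => z y) (τ'.2 u hu)
      simp only [Perm.mul_apply] at a b
      rw [a, b, show τ.1 y = τ'.1 y from congrFun e ⟨y, hy⟩])
  simpa using this

lemma ord3_min {j : ℕ} {b : Perm (Fin j)} (hb : b ^ 3 = 1) {y : Fin j} (hy : b y ≠ y) :
    ∃ x, (x < b x ∧ x < b (b x)) ∧ (y = x ∨ y = b x ∨ y = b (b x)) := by
  have h3 : ∀ x, b (b (b x)) = x := fun x => by
    simpa [pow_succ] using congrArg (fun z : Perm (Fin j) => z x) hb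
  have n1 : b (b y) ≠ b y := fun e => hy (b.injective e)
  have n2 : b (b y) ≠ y := fun e => hy (by have := h3 y; rw [e] at this; exact this)
  by_cases c1 : y < b y ∧ y < b (b y)
  · exact ⟨y, c1, Or.inl rfl⟩
  by_cases c2 : b y < b (b y) ∧ b y < y
  · exact ⟨b y, by rw [h3]; exact c2, Or.inr (Or.inr (h3 y).symm)⟩
  refine ⟨b (b y), ?_, Or.inr (Or.inl (h3 y).symm)⟩
  rw [h3]
  simp only [Fin.lt_def, ne_eq, Fin.ext_iff] at *
  omega

lemma L4 {j : ℕ} {N : ℝ} (hN : 1 ≤ N) (hj : (j : ℝ) ≤ N) :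
    (Nat.card {b : Perm (Fin j) // b ^ 3 = 1} : ℝ) ≤ 2 ^ j * N ^ ((2 / 3 : ℝ) * j) := by
  classical
  let Mn : Perm (Fin j) → Finset (Fin j) := fun b => univ.filter (fun x => x < b x ∧ x < b (b x))
  have h3 : ∀ b : Perm (Fin j), b ^ 3 = 1 → ∀ x, b (b (b x)) = x := fun b hb x => by
    simpa [pow_succ] using congrArg (fun z : Perm (Fin j) => z x) hb
  rw [Nat.card_eq_fintype_card, Fintype.card_subtype,
    Finset.card_eq_sum_card_fiberwise (f := Mn) (t := univ) (fun _ _ => mem_univ _)]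
  push_cast
  refine le_trans (Finset.sum_le_card_nsmul _ _ (N ^ ((2 / 3 : ℝ) * j)) ?_) (by simp)
  intro M _
  by_cases hne : ((univ.filter (fun b : Perm (Fin j) => b ^ 3 = 1)).filter (fun b => Mn b = M)) = ∅
  · rw [hne]; simp; positivity
  obtain ⟨b0, hb0⟩ := Finset.nonempty_iff_ne_empty.mpr hne
  simp only [mem_filter, mem_univ, true_and] at hb0
  have hM : 3 * M.card ≤ j := by
    have hm : ∀ x ∈ M, x < b0 x ∧ x < b0 (b0 x) := by
      intro x hx; rw [← hb0.2] at hx; simpa [Mn] using hx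
    have k := h3 b0 hb0.1
    have d1 : Disjoint M (M.image b0) := by
      rw [Finset.disjoint_left]; intro x hx hx'
      obtain ⟨y, hy, rfl⟩ := Finset.mem_image.mp hx'
      have := (hm _ hx).2; rw [k] at this; exact absurd (hm _ hy).1 (not_lt.mpr this.le)
    have d2 : Disjoint (M ∪ M.image b0) (M.image (fun x => b0 (b0 x))) := by
      rw [Finset.disjoint_left]; intro x hx hx'
      obtain ⟨y, hy, rfl⟩ := Finset.mem_image.mp hx'
      rcases Finset.mem_union.mp hx with hx | hx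
      · have := (hm _ hx).1; rw [k] at this; exact absurd (hm _ hy).2 (not_lt.mpr this.le)
      · obtain ⟨z, hz, e⟩ := Finset.mem_image.mp hx
        have e' := b0.injective e
        subst e'
        have := (hm _ hz).2; rw [k] at this; exact absurd (hm _ hy).1 (not_lt.mpr this.le)
    have := Finset.card_le_univ ((M ∪ M.image b0) ∪ M.image (fun x => b0 (b0 x)))
    rw [Finset.card_union_of_disjoint d2, Finset.card_union_of_disjoint d1,
      Finset.card_image_of_injective _ b0.injective,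
      Finset.card_image_of_injective _ (show Function.Injective (fun x => b0 (b0 x)) from b0.injective.comp b0.injective), Fintype.card_fin] at this
    omega
  have hc : ((univ.filter (fun b : Perm (Fin j) => b ^ 3 = 1)).filter (fun b => Mn b = M)).card ≤
      (univ : Finset (M → Fin j × Fin j)).card := by
    refine Finset.card_le_card_of_injOn (fun b x => (b x, b (b x))) (fun _ _ => mem_univ _) ?_
    intro b hb b' hb' e
    simp only [coe_filter, mem_filter, mem_univ, true_and, Set.mem_ofPred_eq] at hb hb'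
    have key : ∀ b b' : Perm (Fin j), b ^ 3 = 1 → b' ^ 3 = 1 → Mn b = M →
        (∀ x ∈ M, b x = b' x ∧ b (b x) = b' (b' x)) → ∀ y, b y ≠ y → b y = b' y := by
      intro b b' h h' hM e y hy
      obtain ⟨x, hx, hy⟩ := ord3_min h hy
      have := e x (by rw [← hM]; simpa [Mn] using hx)
      rcases hy with rfl | rfl | rfl
      · exact this.1
      · rw [this.2, this.1]
      · rw [h3 b h, this.2, h3 b' h']
    have e' : ∀ x ∈ M, b x = b' x ∧ b (b x) = b' (b' x) := fun x hx => by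
      simpa using congrFun e ⟨x, hx⟩
    ext1 y
    by_cases c : b y = y
    · by_cases c' : b' y = y
      · rw [c, c']
      · exact (key b' b hb'.1 hb.1 hb'.2 (fun x hx => ⟨(e' x hx).1.symm, (e' x hx).2.symm⟩) y c').symm
    · exact key b b' hb.1 hb'.1 hb.2 e' y c
  simp only [card_univ, Fintype.card_fun, Fintype.card_prod, Fintype.card_fin,
    Fintype.card_coe] at hc
  calc _ ≤ (((j * j) ^ M.card : ℕ) : ℝ) := by exact_mod_cast hc
    _ ≤ (N * N) ^ M.card := by push_cast; gcongr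
    _ = N ^ ((2 * M.card : ℕ) : ℝ) := by rw [Real.rpow_natCast, pow_mul, pow_two]
    _ ≤ _ := by
      apply Real.rpow_le_rpow_of_exponent_le hN
      have : (3 : ℝ) * M.card ≤ j := by exact_mod_cast hM
      push_cast; linarith

open Classical in
lemma L5 {Γ Y : Type} [Group Γ] [Fintype Y] (ψ : Γ →* Perm Y) {s : ℝ} (hs : 0 < s)
    (h : ∀ x, (∀ c, ψ c x = x) ∨ s ≤ (orb ψ x).card) (O : Finset Y) :
    (∀ c, ∀ x ∈ O, ψ c x ∈ O) → ∃ R : Finset Y, (∀ x ∈ O, ∃ y ∈ R, ∃ c, ψ c y = x) ∧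
      (R.card : ℝ) ≤ (O.filter (fun x => ∀ c, ψ c x = x)).card + O.card / s := by
  induction O using Finset.strongInduction with
  | H O ih =>
    intro hO
    by_cases hne : O = ∅
    · subst hne; exact ⟨∅, by simp, by simp⟩
    obtain ⟨x, hx⟩ := Finset.nonempty_iff_ne_empty.mpr hne
    have hsub : orb ψ x ⊆ O := fun y hy => by
      obtain ⟨c, rfl⟩ := mem_orb.mp hy; exact hO c x hx
    obtain ⟨R, h1, h2⟩ := ih (O \ orb ψ x) (Finset.sdiff_ssubset hsub ⟨x, self_orb ψ x⟩) (by
      intro c y hy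
      rw [Finset.mem_sdiff] at hy ⊢
      exact ⟨hO c y hy.1, by rw [orb_inv]; exact hy.2⟩)
    refine ⟨insert x R, fun y hy => ?_, ?_⟩
    · by_cases c : y ∈ orb ψ x
      · exact ⟨x, by simp, mem_orb.mp c⟩
      · obtain ⟨z, hz, e⟩ := h1 y (Finset.mem_sdiff.mpr ⟨hy, c⟩)
        exact ⟨z, by simp [hz], e⟩
    have c1 : ((insert x R).card : ℝ) ≤ R.card + 1 := by exact_mod_cast Finset.card_insert_le x R
    have c2 : ((O \ orb ψ x).card : ℝ) + (orb ψ x).card = O.card := by
      exact_mod_cast Finset.card_sdiff_add_card_eq_card hsub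
    rcases h x with hf | hf
    · have c3 : ((O \ orb ψ x).filter (fun x => ∀ c, ψ c x = x)).card + 1 ≤
          (O.filter (fun x => ∀ c, ψ c x = x)).card := by
        apply Finset.card_lt_card
        refine ⟨Finset.filter_subset_filter _ Finset.sdiff_subset, fun hh => ?_⟩
        have := hh (Finset.mem_filter.mpr ⟨hx, hf⟩)
        simp [self_orb] at this
      have c4 : ((O \ orb ψ x).card : ℝ) / s ≤ O.card / s := by
        gcongr; exact Finset.sdiff_subset
      have c3' : (((O \ orb ψ x).filter (fun x => ∀ c, ψ c x = x)).card : ℝ) + 1 ≤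
          (O.filter (fun x => ∀ c, ψ c x = x)).card := by exact_mod_cast c3
      linarith
    · have c3 : (((O \ orb ψ x).filter (fun x => ∀ c, ψ c x = x)).card : ℝ) ≤
          (O.filter (fun x => ∀ c, ψ c x = x)).card := by
        gcongr; exact Finset.sdiff_subset
      have c4 : ((O \ orb ψ x).card : ℝ) / s + 1 ≤ O.card / s := by
        rw [div_add_one hs.ne']; gcongr; linarith
      linarith

end Pool.Agent.H73.SG
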