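import Pool.Agent.H73.CN1
import Pool.Agent.H73.CN2
import Pool.Agent.H73.SG5

set_option autoImplicit false

namespace Pool.Agent.H73.CN

open Equiv SG

lemma free_equiv {α : Type} [Countable α] [Infinite α] (f : Perm α) {p : ℕ} (hp : p.Prime)
    (h1 : f ^ p = 1) (h2 : ∀ x, f x ≠ x) :
    ∃ u : ℕ × ZMod p ≃ α, ∀ n k, u (n, k + 1) = f (u (n, k)) := by
  have := Fact.mk hp
  let w : Quotient (Perm.SameCycle.setoid f) × ZMod p → α := fun x => (f ^ x.2.val) x.1.out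
  have hs : Function.Surjective w := by
    intro x
    obtain ⟨i, hi⟩ : f.SameCycle (Quotient.mk (Perm.SameCycle.setoid f) x).out x :=
      Quotient.mk_out (s := Perm.SameCycle.setoid f) x
    refine ⟨(Quotient.mk _ x, (i : ZMod p)), ?_⟩
    simp only [w]
    rw [← zpow_natCast, ZMod.val_intCast, ← zpow_eq_zpow_emod' i h1, hi]
  have hi : Function.Injective w := by
    rintro ⟨q, k⟩ ⟨q', k'⟩ e
    simp only [w] at e
    have e1 : q = q' := by
      rw [← q.out_eq, ← q'.out_eq]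
      apply Quotient.sound
      show f.SameCycle _ _
      rw [← Perm.sameCycle_pow_left (n := k.val), e, Perm.sameCycle_pow_left]
    subst e1
    have hm : Function.minimalPeriod f q.out = p := Function.minimalPeriod_eq_prime (by
      show f^[p] _ = _
      rw [Perm.iterate_eq_pow, h1]; rfl) (h2 _)
    rw [← Perm.iterate_eq_pow, ← Perm.iterate_eq_pow,
      Function.iterate_eq_iterate_iff_of_lt_minimalPeriod (by rw [hm]; exact k.val_lt)
        (by rw [hm]; exact k'.val_lt)] at e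
    rw [ZMod.val_injective _ e]
  have : Infinite (Quotient (Perm.SameCycle.setoid f)) := by
    by_contra c
    rw [not_infinite_iff_finite] at c
    have := Finite.of_surjective w hs
    exact not_finite α
  obtain ⟨e⟩ := nonempty_equiv_of_countable (α := ℕ) (β := Quotient (Perm.SameCycle.setoid f))
  refine ⟨(e.prodCongr (Equiv.refl _)).trans (Equiv.ofBijective w ⟨hi, hs⟩), fun n k => ?_⟩
  show (f ^ (k + 1).val) _ = f ((f ^ k.val) _)
  rw [ZMod.val_add, ZMod.val_one, ← pow_eq_pow_mod _ h1, pow_succ']; rfl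

lemma ex_rho {E Z : Type} [Group E] [Countable E] [Infinite E] [Countable Z] {p : ℕ} (hp : p.Prime)
    {e : E} (e1 : e ^ p = 1) (e2 : e ≠ 1) {h : Perm Z} (h1 : h ^ p = 1)
    (h2 : {z | h z ≠ z}.Infinite) : ∃ ρ : E →* Perm Z, ρ e = h := by
  classical
  have := h2.to_subtype
  have hh : ∀ z, h z ∈ {z | h z ≠ z} ↔ z ∈ {z | h z ≠ z} := fun z => by simp
  obtain ⟨u1, k1⟩ := free_equiv (MulAction.toPermHom E E e) hp (by rw [← map_pow, e1, map_one])
    (fun x => by simpa using e2)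
  obtain ⟨u2, k2⟩ := free_equiv (α := {z | h z ≠ z}) (h.subtypePerm hh) hp
    (by rw [Perm.subtypePerm_pow]; ext x; simp [h1]) (fun x e => x.2 (congrArg Subtype.val e))
  refine ⟨Perm.ofSubtype.comp ((u1.symm.trans u2).permCongrHom.toMonoidHom.comp
    (MulAction.toPermHom E E)), ?_⟩
  refine Eq.trans ?_ (Perm.ofSubtype_subtypePerm hh (fun x hx => hx))
  rw [MonoidHom.comp_apply]
  congr 1
  ext1 x
  obtain ⟨⟨n, k⟩, rfl⟩ := u2.surjective x
  rw [← k2]
  have := k1 n k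
  simp at this
  simp [← this]

def NFQ (E : Type) [Group E] : Prop :=
  ∀ (Y : Type) [Group Y] [Finite Y] (φ : E →* Y) (g : E), φ g = 1

lemma exQ {E H : Type} [Group E] [Group H] [Group.FG E] (hE : NFQ E) (A : Set H) (hA : A.Finite)
    (h : ∀ a ∈ A, ∃ ρ : E →* H, a ∈ ρ.range) :
    ∃ Q : Subgroup H, Group.FG Q ∧ NFQ Q ∧ Subgroup.closure A ≤ Q := by
  choose! ρ hρ using h
  refine ⟨⨆ a ∈ A, (ρ a).range, (Group.fg_iff_subgroup_fg _).mpr (Subgroup.FG.biSup hA _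
    (fun a _ => (Group.fg_iff_subgroup_fg _).mp inferInstance)), ?_, ?_⟩
  · intro Y _ _ φ g
    have : (⨆ a ∈ A, (ρ a).range) ≤ φ.ker.map (Subgroup.subtype _) := by
      refine iSup₂_le (fun a ha => ?_)
      rintro _ ⟨e, rfl⟩
      have k : ∀ e, ρ a e ∈ ⨆ a ∈ A, (ρ a).range := fun e =>
        (le_iSup₂ (f := fun a (_ : a ∈ A) => (ρ a).range) a ha) ⟨e, rfl⟩
      exact ⟨_, hE Y (φ.comp ((ρ a).codRestrict _ k)) e, rfl⟩
    obtain ⟨g', hg, e⟩ := this g.2
    rwa [← Subtype.ext e]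
  · rw [Subgroup.closure_le]
    exact fun a ha => (le_iSup₂ (f := fun a (_ : a ∈ A) => (ρ a).range) a ha) (hρ a ha)

lemma OE {X β : Type} (A : Set (Perm X)) (α : Perm X) (tr : ∀ x y, ∃ p ∈ A, p x = y)
    (comm : ∀ p ∈ A, α * p = p * α) (free : ∀ x, Function.Injective (fun n : ℤ => (α ^ n) x))
    (esc : ∀ F : Set X, F.Finite → ∃ x, ∀ n : ℤ, (α ^ n) x ∉ F) (f : X → β)
    (h1 : ∀ p ∈ A, {x | f (p x) ≠ f x}.Finite) (h2 : {x | f (α x) ≠ f x}.Finite) :
    ∃ c, {x | f x ≠ c}.Finite := by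
  have good : ∀ x, (∀ n : ℤ, (α ^ n) x ∉ {x | f (α x) ≠ f x}) → ∀ n : ℤ, f ((α ^ n) x) = f x := by
    intro x hx n
    have k : ∀ n : ℤ, f ((α ^ (n + 1)) x) = f ((α ^ n) x) := fun n => by
      rw [add_comm, zpow_one_add, Perm.mul_apply]; simpa using hx n
    induction n using Int.induction_on with
    | zero => simp
    | succ n ih => rw [k, ih]
    | pred n ih => rw [← k, ← ih]; simp
  obtain ⟨x0, h0⟩ := esc _ h2
  have key : ∀ y, {n : ℤ | f ((α ^ n) y) ≠ f x0}.Finite := by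
    intro y
    obtain ⟨p, hp, rfl⟩ := tr x0 y
    refine ((h1 p hp).preimage (free x0).injOn).subset ?_
    intro n hn
    simp only [Set.mem_preimage, Set.mem_ofPred_eq] at hn ⊢
    rwa [good x0 h0 n, ← Perm.mul_apply, ← (Commute.zpow_left (comm p hp) n).eq]
  refine ⟨f x0, (h2.biUnion (fun y _ => (key y).image (fun n : ℤ => (α ^ n) y))).subset ?_⟩
  intro x hx
  by_cases c : ∀ n : ℤ, (α ^ n) x ∉ {x | f (α x) ≠ f x}
  · refine (Set.infinite_univ ((key x).subset (fun n _ => ?_))).elim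
    show _ ≠ _
    rwa [good x c n]
  · push Not at c
    obtain ⟨n, hn⟩ := c
    simp only [Set.mem_iUnion]
    exact ⟨_, hn, -n, by simpa using hx, by simp⟩

def Cov {H : Type} [Group H] (K L : Set H) : Prop :=
  ∃ T : Set H, T.Finite ∧ ∀ σ ∈ L, ∃ k ∈ K, ∃ t ∈ T, σ = k * t

lemma Cov.trans {H : Type} [Group H] {K L M : Set H} (h1 : Cov K L) (h2 : Cov L M) : Cov K M := by
  obtain ⟨T, hT, h1⟩ := h1
  obtain ⟨T', hT', h2⟩ := h2
  refine ⟨Set.image2 (· * ·) T T', hT.image2 _ hT', fun σ hσ => ?_⟩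
  obtain ⟨l, hl, t', ht', rfl⟩ := h2 σ hσ
  obtain ⟨k, hk, t, ht, rfl⟩ := h1 l hl
  exact ⟨k, hk, _, ⟨t, ht, t', ht', rfl⟩, mul_assoc _ _ _⟩

lemma cov_of {H F : Type} [Group H] [Finite F] {K L : Set H} (R : H → F → Prop)
    (h1 : ∀ σ ∈ L, ∃ c, R σ c)
    (h2 : ∀ σ ∈ L, ∀ σ' ∈ L, ∀ c, R σ c → R σ' c → σ * σ'⁻¹ ∈ K) : Cov K L := by
  have : ∀ c, ∃ t, ∀ σ ∈ L, R σ c → σ * t⁻¹ ∈ K := by
    intro c
    by_cases h : ∃ t ∈ L, R t c
    · obtain ⟨t, ht, h⟩ := h
      exact ⟨t, fun σ hσ r => h2 σ hσ t ht c r h⟩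
    · exact ⟨1, fun σ hσ r => (h ⟨σ, hσ, r⟩).elim⟩
  choose t ht using this
  refine ⟨Set.range t, Set.finite_range _, fun σ hσ => ?_⟩
  obtain ⟨c, hc⟩ := h1 σ hσ
  exact ⟨_, ht c σ hσ hc, t c, ⟨c, rfl⟩, by simp⟩

section asm
variable {P : Type} [Group P] {J : Gn P} {Q : Subgroup (Perm (P × Yc))} (hl : ∀ g, lam P g ∈ Q)

abbrev X1 (J : Gn P) (Q : Subgroup (Perm (P × Yc))) := Q ⧸ (H0 J).subgroupOf Q

def lq : P →* Q := (lam P).codRestrict Q hl

def muf (g : P) : X1 J Q → X1 J Q := Quotient.map' (· * (lq hl g)⁻¹) (by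
  intro x y h
  rw [QuotientGroup.leftRel_apply, Subgroup.mem_subgroupOf] at h ⊢
  have e : ((x * (lq hl g)⁻¹)⁻¹ * (y * (lq hl g)⁻¹) : Q).1 =
      lam P g * (x⁻¹ * y : Q).1 * (lam P g)⁻¹ := by simp [lq, mul_assoc]
  rwa [e, lam_comm J g h, mul_inv_cancel_right])

lemma muf_mk (g : P) (x : Q) : muf hl g (x : X1 J Q) = ((x * (lq hl g)⁻¹ : Q) : X1 J Q) := rfl

def mu (J : Gn P) : P →* Perm (X1 J Q) where
  toFun g := ⟨muf hl g, muf hl g⁻¹,
    fun x => QuotientGroup.induction_on x (fun y => by simp [muf_mk]),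
    fun x => QuotientGroup.induction_on x (fun y => by simp [muf_mk])⟩
  map_one' := by ext x; exact QuotientGroup.induction_on x (fun y => by simp [muf_mk])
  map_mul' g h := by
    ext x; exact QuotientGroup.induction_on x (fun y => by simp [muf_mk, mul_assoc])

lemma mu_mk (g : P) (x : Q) : mu hl J g (x : X1 J Q) = ((x * (lq hl g)⁻¹ : Q) : X1 J Q) := rfl

lemma mu_free {g : P} {x : X1 J Q} (h : mu hl J g x = x) : g = 1 := by
  induction x using QuotientGroup.induction_on with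
  | H y =>
    rw [mu_mk, QuotientGroup.eq, Subgroup.mem_subgroupOf] at h
    exact lam_H0 J (by simpa [lq] using h)

lemma mu_comm (g : P) (q : Q) : mu hl J g * act _ q = act _ q * mu hl J g := by
  ext x; exact QuotientGroup.induction_on x (fun y => by simp [mu_mk, act_mk, mul_assoc])

noncomputable def tau (J : Gn P) (G0 : Subgroup P) : Q × G0 →* Perm (X1 J Q ⊕ (P × Yc)) where
  toFun x := Equiv.sumCongr (act _ x.1 * mu hl J x.2) x.1.1
  map_one' := by simp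
  map_mul' x y := by
    rw [Perm.sumCongr_mul]
    simp only [Prod.fst_mul, Prod.snd_mul, map_mul, Subgroup.coe_mul, mul_assoc]
    rw [← mul_assoc (mu hl J x.2), mu_comm, mul_assoc]

variable {G0 : Subgroup P}

lemma tau_inl (x : Q × G0) (y : Q) : tau hl J G0 x (.inl (y : X1 J Q)) =
    .inl ((x.1 * (y * (lq hl x.2)⁻¹) : Q) : X1 J Q) := rfl
lemma tau_inr (x : Q × G0) (z : P × Yc) : tau hl J G0 x (.inr z) = .inr (x.1.1 z) := rfl
lemma tau_side (x : Q × G0) (y : X1 J Q ⊕ (P × Yc)) : (tau hl J G0 x y).isRight = y.isRight := by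
  cases y <;> rfl

lemma tau_inj : Function.Injective (tau hl J G0) := by
  rw [injective_iff_map_eq_one]
  rintro ⟨q, g⟩ h
  have h1 : q = 1 := by
    apply Subtype.ext; ext1 z
    have := congrArg (fun u : Perm (X1 J Q ⊕ (P × Yc)) => u (.inr z)) h
    simpa [tau_inr] using this
  subst h1
  have := congrArg (fun u : Perm (X1 J Q ⊕ (P × Yc)) => u (.inl ((1 : Q) : X1 J Q))) h
  simp only [tau_inl, one_mul, Perm.one_apply, Sum.inl.injEq] at this
  have : g.1 = 1 := mu_free hl (x := ((1 : Q) : X1 J Q)) (by rw [mu_mk, one_mul]; exact this)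
  rw [show g = 1 from Subtype.ext this]; rfl

variable (hQ : NFQ Q) (hH : H0 J ≤ Q)
  (hR : ∀ g : G0, g ≠ 1 → ∃ (Y : Type) (_ : Group Y) (_ : Finite Y) (φ : G0 →* Y), φ g ≠ 1)
include hQ hR

lemma beta {σ : Perm (X1 J Q ⊕ (P × Yc))}
    (hσ : σ ∈ Subgroup.normalizer ((tau hl J G0).range : Set _)) (q : Q) :
    ∃ q' : Q, σ * tau hl J G0 (q, 1) = tau hl J G0 (q', 1) * σ := by
  have : ∀ g, ∃ g', tau hl J G0 g' = σ * tau hl J G0 g * σ⁻¹ := fun g =>
    (Subgroup.mem_normalizer_iff.mp hσ _).mp ⟨g, rfl⟩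
  choose β hβ using this
  let B : Q × G0 →* Q × G0 := MonoidHom.mk' β (fun a b => tau_inj hl (by
    rw [map_mul, hβ, hβ, hβ, map_mul]; group))
  have : (β (q, 1)).2 = 1 := by
    by_contra c
    obtain ⟨Y, _, _, φ, h⟩ := hR _ c
    exact h (hQ Y (φ.comp ((MonoidHom.snd _ _).comp (B.comp (MonoidHom.inl _ _)))) q)
  refine ⟨(β (q, 1)).1, ?_⟩
  rw [show ((β (q, 1)).1, (1 : G0)) = β (q, 1) from Prod.ext rfl this.symm, hβ]; simp

include hH

lemma nrm2 {σ : Perm (X1 J Q ⊕ (P × Yc))}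
    (hσ : σ ∈ Subgroup.normalizer ((tau hl J G0).range : Set _)) {x0 : Q} {s : Perm (P × Yc)}
    (h1 : σ (.inl ((1 : Q) : X1 J Q)) = .inl (x0 : X1 J Q)) (h2 : ∀ z, σ (.inr z) = .inr (s z)) :
    x0.1⁻¹ * s ∈ Subgroup.normalizer (H0 J : Set _) := by
  have key : ∀ σ ∈ Subgroup.normalizer ((tau hl J G0).range : Set (Perm (X1 J Q ⊕ (P × Yc)))), ∀ s : Perm (P × Yc),
      σ (.inl ((1 : Q) : X1 J Q)) = .inl ((1 : Q) : X1 J Q) → (∀ z, σ (.inr z) = .inr (s z)) →
      ∀ h ∈ H0 J, s * h * s⁻¹ ∈ H0 J := by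
    intro σ hσ s h1 h2 h hh
    obtain ⟨q', e⟩ := beta hl hQ hR hσ ⟨h, hH hh⟩
    have a := congrArg (fun u : Perm (X1 J Q ⊕ (P × Yc)) => u (.inl ((1 : Q) : X1 J Q))) e
    have a0 : (((⟨h, hH hh⟩ : Q) : Q) : X1 J Q) = ((1 : Q) : X1 J Q) := by
      rw [QuotientGroup.eq, Subgroup.mem_subgroupOf]; simpa using hh
    simp only [Perm.mul_apply, h1, tau_inl, OneMemClass.coe_one, map_one, inv_one, mul_one, a0,
      Sum.inl.injEq] at a
    rw [QuotientGroup.eq, Subgroup.mem_subgroupOf] at a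
    have b : s * h * s⁻¹ = q'.1 := by
      rw [mul_inv_eq_iff_eq_mul]
      ext1 z
      have := congrArg (fun u : Perm (X1 J Q ⊕ (P × Yc)) => u (.inr z)) e
      simpa [tau_inr, h2] using this
    rw [b]; simpa using a
  have m1 := Subgroup.mul_mem _ (Subgroup.le_normalizer (⟨(x0⁻¹, 1), rfl⟩ :
    tau hl J G0 (x0⁻¹, 1) ∈ (tau hl J G0).range)) hσ
  have k1 : (tau hl J G0 (x0⁻¹, 1) * σ) (.inl ((1 : Q) : X1 J Q)) = .inl ((1 : Q) : X1 J Q) := by
    simp [h1, tau_inl]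
  have k2 : ∀ z, (tau hl J G0 (x0⁻¹, 1) * σ) (.inr z) = .inr ((x0.1⁻¹ * s) z) := by
    intro z; simp [h2, tau_inr]
  rw [Subgroup.mem_normalizer_iff]
  refine fun h => ⟨key _ m1 _ k1 k2 h, fun hh => ?_⟩
  have := key _ (Subgroup.inv_mem _ m1) (x0.1⁻¹ * s)⁻¹ (by rw [Perm.inv_eq_iff_eq, k1])
    (fun z => by rw [Perm.inv_eq_iff_eq, k2]; simp) _ hh
  simpa [mul_assoc] using this

theorem covN [G0.FiniteIndex] : Cov ((tau hl J G0).range : Set (Perm (X1 J Q ⊕ (P × Yc))))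
    (Subgroup.normalizer ((tau hl J G0).range : Set (Perm (X1 J Q ⊕ (P × Yc)))) : Set _) := by
  obtain ⟨T, hT, hN⟩ := normH0 J
  have := hT.to_subtype
  set N := Subgroup.normalizer ((tau hl J G0).range : Set (Perm (X1 J Q ⊕ (P × Yc)))) with hNd
  let N1 : Set (Perm (X1 J Q ⊕ (P × Yc))) := {σ | σ ∈ N ∧ ∀ y, (σ y).isRight = y.isRight}
  have n1 : ∀ σ ∈ N1, ∀ σ' ∈ N1, σ * σ'⁻¹ ∈ N1 := by
    intro σ h σ' h'
    refine ⟨N.mul_mem h.1 (N.inv_mem h'.1), fun y => ?_⟩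
    rw [Perm.mul_apply, h.2, ← h'.2]; simp
  have exl : ∀ σ ∈ N1, ∃ x0 : Q, σ (.inl ((1 : Q) : X1 J Q)) = .inl (x0 : X1 J Q) := by
    intro σ h
    have := h.2 (.inl ((1 : Q) : X1 J Q))
    generalize σ (.inl ((1 : Q) : X1 J Q)) = y at this
    rcases y with y | y
    · exact ⟨y.out, by simp⟩
    · simp at this
  refine Cov.trans (L := {σ | σ ∈ N1 ∧ ∃ q : Q, ∀ z, σ (.inr z) = .inr (q.1 z)}) ?_
    (Cov.trans (L := N1) ?_ ?_)
  · refine cov_of (F := T × (P ⧸ G0)) (fun σ c => ∃ (g : Q × G0) (x : Q),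
      x.1 = c.1.1⁻¹ * lam P c.2.out ∧ (∀ z, σ (.inr z) = tau hl J G0 g (.inr z)) ∧
      ∀ y : Q, σ (.inl (y : X1 J Q)) = tau hl J G0 g (.inl ((y * x : Q) : X1 J Q))) ?_ ?_
    · rintro σ ⟨h1, q, h2⟩
      have m1 : tau hl J G0 (q⁻¹, 1) * σ ∈ N1 := ⟨N.mul_mem (Subgroup.le_normalizer ⟨_, rfl⟩) h1.1,
        fun y => by rw [Perm.mul_apply, tau_side, h1.2]⟩
      obtain ⟨x0, e0⟩ := exl _ m1
      have k2 : ∀ z, (tau hl J G0 (q⁻¹, 1) * σ) (.inr z) = .inr ((1 : Perm (P × Yc)) z) := by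
        intro z; simp [h2, tau_inr]
      obtain ⟨h, hh, g, t, ht, e⟩ := hN _ (nrm2 hl hQ hH hR m1.1 e0 k2)
      obtain ⟨k, hk⟩ := QuotientGroup.mk_out_eq_mul G0 g⁻¹
      refine ⟨(⟨t, ht⟩, (g⁻¹ : P)), (q, k), x0 * ⟨h, hH hh⟩ * lq hl k, ?_, fun z => h2 z, fun y => ?_⟩
      · rw [mul_one, inv_eq_iff_eq_inv] at e
        simp [hk, lq, e, mul_assoc]
      · obtain ⟨q', e'⟩ := beta hl hQ hR m1.1 y
        have e1 : y = q' := by
          apply Subtype.ext; ext1 z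
          have := congrArg (fun u : Perm (X1 J Q ⊕ (P × Yc)) => u (.inr z)) e'
          simpa [tau_inr, h2] using this
        subst e1
        have := congrArg (fun u : Perm (X1 J Q ⊕ (P × Yc)) => u (.inl ((1 : Q) : X1 J Q))) e'
        simp only [Perm.mul_apply (tau hl J G0 (y, 1)), e0] at this
        rw [Perm.mul_apply, Perm.mul_apply, ← Perm.eq_inv_iff_eq, ← map_inv] at this
        simp only [tau_inl, OneMemClass.coe_one, map_one, inv_one, mul_one, Prod.inv_mk,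
          inv_inv] at this
        rw [this, tau_inl, Sum.inl.injEq, QuotientGroup.eq, Subgroup.mem_subgroupOf]
        simpa [mul_assoc] using hh
    · rintro σ - σ' - c ⟨g, x, e, a, b⟩ ⟨g', x', e', a', b'⟩
      obtain rfl : x = x' := Subtype.ext (e.trans e'.symm)
      refine ⟨g * g'⁻¹, ?_⟩
      rw [eq_mul_inv_iff_mul_eq]
      ext1 y
      rcases y with y | z
      · induction y using QuotientGroup.induction_on with
        | H y => rw [Perm.mul_apply, b, b', ← Perm.mul_apply, ← map_mul]; simp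
      · rw [Perm.mul_apply, a, a', ← Perm.mul_apply, ← map_mul]; simp
  · refine cov_of (F := T) (fun σ t => ∃ q : Q, ∀ z, σ (.inr z) = .inr (q.1 (t.1 z))) ?_ ?_
    · intro σ h
      have ex : ∀ σ ∈ N1, ∀ z, ∃ z', σ (.inr z) = .inr z' := by
        intro σ h z
        have := h.2 (.inr z)
        generalize σ (.inr z) = y at this
        rcases y with y | y
        · simp at this
        · exact ⟨y, rfl⟩
      have hi : σ⁻¹ ∈ N1 := by simpa using n1 1 ⟨N.one_mem, fun _ => rfl⟩ σ h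
      choose s hs using ex σ h
      choose s' hs' using ex σ⁻¹ hi
      obtain ⟨x0, e0⟩ := exl σ h
      obtain ⟨h, hh, g, t, ht, e⟩ := hN _ (nrm2 hl hQ hH hR h.1 e0 (s := ⟨s, s',
        fun z => Sum.inr_injective (by rw [← hs', ← hs]; simp),
        fun z => Sum.inr_injective (by rw [← hs, ← hs']; simp)⟩) hs)
      refine ⟨⟨t, ht⟩, x0 * ⟨h, hH hh⟩ * lq hl g, fun z => ?_⟩
      rw [inv_mul_eq_iff_eq_mul] at e
      rw [hs]
      exact congrArg (fun u : Perm (P × Yc) => Sum.inr (u z)) e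
    · rintro σ h σ' h' t ⟨q, a⟩ ⟨q', a'⟩
      refine ⟨n1 σ h σ' h', q * q'⁻¹, fun z => ?_⟩
      obtain ⟨z, rfl⟩ := (q'.1 * t.1).surjective z
      rw [Perm.mul_apply _ t.1, ← a']
      simp [a]
  · refine cov_of (F := Bool × Bool)
      (fun σ c => ∀ y, (σ y).isRight = if y.isRight then c.1 else c.2) ?_ ?_
    · intro σ h
      refine ⟨((σ (.inr (1, .c0 0))).isRight, (σ (.inl ((1 : Q) : X1 J Q))).isRight), ?_⟩
      rintro (y | z)
      · induction y using QuotientGroup.induction_on with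
        | H y =>
          obtain ⟨q', e⟩ := beta hl hQ hR h y
          have := congrArg (fun u : Perm (X1 J Q ⊕ (P × Yc)) =>
            (u (.inl ((1 : Q) : X1 J Q))).isRight) e
          simpa [tau_inl, tau_side] using this
      · obtain ⟨y, hy, rfl⟩ := H0_trans J z
        obtain ⟨q', e⟩ := beta hl hQ hR h ⟨y, hH hy⟩
        have := congrArg (fun u : Perm (X1 J Q ⊕ (P × Yc)) => (u (.inr (1, .c0 0))).isRight) e
        simpa [tau_inr, tau_side] using this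
    · intro σ h σ' h' c a a'
      refine ⟨N.mul_mem h (N.inv_mem h'), fun y => ?_⟩
      rw [Perm.mul_apply, a, ← a']; simp

end asm

end Pool.Agent.H73.CN
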