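import Pool.Agent.H73.SG3

set_option autoImplicit false

namespace Pool.Agent.H73.SG

open Equiv Equiv.Perm

variable {m : ℕ → ℕ}

def pt (i : ℕ) {k : ℕ} (a : Fin k) : Om := (i, ((a : ℕ) : ℤ))

lemma pt_inj {i k : ℕ} {a b : Fin k} (h : pt i a = pt i b) : a = b := by
  simp only [pt, Prod.mk.injEq, true_and] at h
  exact Fin.ext (by omega)

lemma E_fix' {K : ℕ} {R : Set Om} (h : Sparse K R) (P : Set Om) (σ : Perm (Fin K)) {ω : Om}
    (hω : ∀ p ∈ P, ∀ a : Fin K, ω ≠ sh p a) : E h (ind P σ) ω = ω := by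
  by_cases h1 : ∃ p ∈ R, ∃ a : Fin K, ω = sh p a
  · obtain ⟨p, hp, a, rfl⟩ := h1
    rw [E_app h _ hp, ind_neg _ (fun hP => hω p hP a rfl)]; rfl
  · exact E_fix h _ h1

variable (m) in
def Ge : Subgroup (Perm Om) where
  carrier := {g | ∀ i, ∃ σ : Alt (m i), ∀ a : Fin (m i), g (pt i a) = pt i ((σ : Perm _) a)}
  one_mem' := fun i => ⟨1, fun _ => rfl⟩
  mul_mem' := by
    intro g h hg hh i
    obtain ⟨σ, hσ⟩ := hg i
    obtain ⟨τ, hτ⟩ := hh i
    exact ⟨σ * τ, fun a => by rw [Perm.mul_apply, hτ, hσ]; rfl⟩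
  inv_mem' := by
    intro g hg i
    obtain ⟨σ, hσ⟩ := hg i
    refine ⟨σ⁻¹, fun a => ?_⟩
    rw [Perm.inv_eq_iff_eq, hσ]; simp

lemma gen_Ge {P : Set Om} (hP : P ⊆ V m) (r : ZMod 5) :
    ∀ σ ∈ alternatingGroup (Fin 5), E5 r (ind P σ) ∈ Ge m := by
  refine consec (M := (Ge m).comap ((E5 r).comp (ind P))) (by omega) ?_
  intro d hd
  show E5 r (ind P (cyc d hd)) ∈ Ge m
  intro i
  set g := E5 r (ind P (cyc d hd)) with hg
  have h3 : g ^ 3 = 1 := by rw [hg, ← map_pow, ← map_pow, cyc_pow, map_one, map_one]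
  have ex : ∀ a : Fin (m i), ∃ b : Fin (m i), g (pt i a) = pt i b := by
    intro a
    by_cases h1 : ∃ p ∈ P, p ∈ Rr r ∧ ∃ b : Fin 5, pt i a = sh p b
    · obtain ⟨p, hp, hp', b, e⟩ := h1
      have hv := hP hp
      have e1 : i = p.1 := congrArg Prod.fst e
      simp only [V, Set.mem_ofPred_eq, ← e1] at hv
      have := (ind P (cyc d hd) p b).2
      refine ⟨⟨(p.2 + (ind P (cyc d hd) p b : ℕ)).toNat, by omega⟩, ?_⟩
      rw [e, hg, E_app _ _ hp']
      refine Prod.ext e1.symm ?_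
      simp only [sh_snd, pt]; omega
    · refine ⟨a, ?_⟩
      rw [hg, ← E5_inter]
      exact E_fix' _ _ _ (fun p hp b e => h1 ⟨p, hp.1, hp.2, b, e⟩)
  choose f hf using ex
  have finj : Function.Injective f := by
    intro a b e
    apply pt_inj (i := i); apply g.injective; rw [hf, hf, e]
  set σ : Perm (Fin (m i)) := Equiv.ofBijective f (Finite.injective_iff_bijective.mp finj)
  have hσ : ∀ a, g (pt i a) = pt i (σ a) := hf
  have h4 : σ ^ 3 = 1 := by
    ext1 a
    apply pt_inj (i := i)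
    have := congrArg (fun x : Perm Om => x (pt i a)) h3
    simp only [pow_succ, pow_zero, one_mul, Perm.mul_apply, hσ, Perm.one_apply] at this ⊢
    exact this
  have h5 : sign σ = 1 := by
    have := congrArg sign h4
    rw [map_pow, map_one] at this
    rcases Int.units_eq_one_or (sign σ) with h | h
    · exact h
    · rw [h] at this; exact absurd this (by decide)
  exact ⟨⟨σ, mem_alternatingGroup.mpr h5⟩, hσ⟩

lemma GP_sub (b : Bool) : GP m b ⊆ V m := by
  cases b
  · exact subset_rfl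
  · exact Set.inter_subset_right

lemma GP_hb (b : Bool) : HB m (GP m b) := by
  cases b
  · exact hb_univ.congr (by intro p hp; simpa [GP] using hp)
  · exact hb_W.congr (by intro p hp; simp [GP, hp])

lemma del_le : Del m ≤ Ge m := by
  rw [Del, Subgroup.closure_le]
  rintro _ ⟨⟨r, b, σ⟩, rfl⟩
  exact gen_Ge (GP_sub b) r _ σ.2

noncomputable def pp (i : ℕ) : Del m →* Alt (m i) :=
  MonoidHom.mk' (fun g => (del_le g.2 i).choose) (by
    intro g h
    apply Subtype.ext; ext1 a
    apply pt_inj (i := i)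
    rw [← (del_le (g * h).2 i).choose_spec, Subgroup.coe_mul, Subgroup.coe_mul, Perm.mul_apply,
      Perm.mul_apply, ← (del_le g.2 i).choose_spec, ← (del_le h.2 i).choose_spec])

lemma pp_spec (i : ℕ) (g : Del m) (a : Fin (m i)) :
    (g : Perm Om) (pt i a) = pt i ((pp i g : Perm _) a) := (del_le g.2 i).choose_spec a

lemma sp_single (K : ℕ) (p : Om) : Sparse K {p} := by
  rintro _ rfl _ rfl _ h; omega

noncomputable def io (hm : Function.Injective m) (h5 : ∀ i, 5 ≤ m i) (i : ℕ) :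
    Alt (m i) →* Del m :=
  (((E (sp_single (m i) (i, 0))).comp (ind {(i, 0)})).comp
    (alternatingGroup (Fin (m i))).subtype).codRestrict (Del m) (fun σ =>
      bigwin (h5 i) _ (r := 0) (by rintro _ rfl; simp [Rr]) (by rintro _ rfl; simp)
        (hb_single hm h5 i 0) _ σ.2)

lemma kill (hm : StrictMono m) (h5 : ∀ i, 5 ≤ m i) {Y : Type} [Finite Y] (φ : Del m →* Perm Y)
    {I : ℕ} (hI : Nat.card Y < m I) {P : Set Om} (hPV : P ⊆ V m) (hP : HB m P)
    (hPI : ∀ p ∈ P, I ≤ p.1) : HasZ (φ.ker.map (Del m).subtype) P := by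
  classical
  set Z := φ.ker.map (Del m).subtype
  obtain ⟨K, hK5, hKY, hKI⟩ : ∃ K, 5 ≤ K ∧ Nat.card Y < K ∧ K ≤ m I :=
    ⟨m I, h5 I, hI, le_rfl⟩
  obtain ⟨L, hL, hap⟩ := pd_aper' K
  let f : Om → (Fin (L + 1) → Prop × Prop) := fun p d =>
    (p ∈ shS (V m) (-(d : ℕ)), p ∈ shS (Wd ∩ V m) (-(d : ℕ)))
  have fib : ∀ π, HasZ Z (P ∩ {p | f p = π}) := by
    intro π r
    have hb1 : HB m {p | f p = π} := by
      have : ∀ (A : Set Om) (q : Prop), HB m A → HB m {p | (p ∈ A) = q} := by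
        intro A q hA
        by_cases hq : q
        · exact hA.congr (by simp [hq])
        · exact hA.compl.congr (by simp [hq])
      refine (hb_iInter Finset.univ (fun d : Fin (L + 1) =>
        {p | (p ∈ shS (V m) (-(d : ℕ))) = (π d).1} ∩
          {p | (p ∈ shS (Wd ∩ V m) (-(d : ℕ))) = (π d).2})
        (fun d _ => (this _ _ (hb_V _)).inter (this _ _ (hb_W.shift _)))).congr ?_
      intro p _
      simp only [Finset.mem_univ, true_imp_iff, Set.mem_ofPred_eq, Set.mem_inter_iff, funext_iff,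
        Prod.ext_iff, f]
    have hV : ∀ p q, f p = f q → ∀ d : ℕ, d ≤ L → (sh p d ∈ V m ↔ sh q d ∈ V m) := by
      intro p q e d hd
      have := congrArg Prod.fst (congrFun e ⟨d, by omega⟩)
      simpa [f] using this
    have hW : ∀ p q, f p = f q → ∀ d : ℕ, d ≤ L →
        (sh p d ∈ Wd ∩ V m ↔ sh q d ∈ Wd ∩ V m) := by
      intro p q e d hd
      have := congrArg Prod.snd (congrFun e ⟨d, by omega⟩)
      simpa only [f, mem_shS, neg_neg, eq_iff_iff] using this
    by_cases hne : (P ∩ {p | f p = π}) = ∅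
    · rw [hne]; exact hasZ_empty Z r
    obtain ⟨p0, hp0⟩ := Set.nonempty_iff_ne_empty.mpr hne
    have hsp : Sparse K (P ∩ {p | f p = π}) := by
      intro p hp q hq e1 e2
      by_contra hc
      have e : f p = f q := hp.2.trans hq.2.symm
      have vp := hPV hp.1
      have vq := hPV hq.1
      simp only [V, Set.mem_ofPred_eq] at vp vq
      by_cases hL' : q.2 + L + 5 ≤ m q.1
      · obtain ⟨n, n1, n2, n3⟩ := hap (q.2 - p.2).toNat (by omega) (by omega) p.2.toNat
        have := hW p q e (n - p.2.toNat) (by omega)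
        simp only [Wd, V, Set.mem_inter_iff, Set.mem_ofPred_eq, sh_snd, sh_fst] at this
        rw [show (p.2 + ((n - p.2.toNat : ℕ) : ℤ)).toNat = n by omega,
          show (q.2 + ((n - p.2.toNat : ℕ) : ℤ)).toNat = n + (q.2 - p.2).toNat by omega,
          e1] at this
        apply n3
        rw [Bool.eq_iff_iff]
        constructor
        · intro h; exact (this.mp ⟨h, by omega, by omega⟩).1
        · intro h; exact (this.mpr ⟨h, by omega, by omega⟩).1
      · have := hV p q e (m q.1 - 4 - q.2).toNat (by omega)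
        simp only [V, Set.mem_ofPred_eq, sh_snd, sh_fst, e1] at this
        omega
    obtain ⟨a, ha, hav⟩ : ∃ a : ℕ, a + 5 ≤ K ∧ ∀ p ∈ P ∩ {p | f p = π},
        0 ≤ p.2 - a ∧ p.2 - a + K ≤ m p.1 := by
      have v0 := hPV hp0.1
      simp only [V, Set.mem_ofPred_eq] at v0
      refine ⟨(p0.2 + K - m p0.1).toNat, by omega, fun p hp => ?_⟩
      have e : f p = f p0 := hp.2.trans hp0.2.symm
      have vp := hPV hp.1
      have k1 := hm.monotone (hPI p hp.1)
      have a1 := hV p p0 e (min L (m p.1 - 4 - p.2).toNat) (by omega)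
      have a2 := hV p p0 e (min L (m p0.1 - 4 - p0.2).toNat) (by omega)
      simp only [V, Set.mem_ofPred_eq, sh_snd, sh_fst] at vp a1 a2
      omega
    set P0 := P ∩ {p | f p = π} with hP0
    have hsp' : Sparse K (shS (P0 ∩ Rr r) (-(a : ℤ))) := by
      intro p hp q hq e1 e2
      have := hsp _ hp.1 _ hq.1 e1 (by simpa using e2)
      simp only [sh_snd] at this; omega
    have hbR : HB m (P0 ∩ Rr r) := by
      intro r' σ hσ
      by_cases hr : r' = r
      · subst hr
        rw [show P0 ∩ Rr r' ∩ V m = (P0 ∩ V m) ∩ Rr r' by ext; simp; tauto, E5_inter]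
        exact (hP.inter hb1) r' σ hσ
      · rw [← E5_inter, show P0 ∩ Rr r ∩ V m ∩ Rr r' = ∅ by
          ext p; simp only [Rr, Set.mem_inter_iff, Set.mem_ofPred_eq, Set.mem_empty_iff_false,
            iff_false]
          rintro ⟨⟨⟨_, h1⟩, _⟩, h2⟩; exact hr (h2.symm.trans h1)]
        exact hasZ_empty _ r' σ hσ
    have hb2 : HB m (shS (P0 ∩ Rr r) (-(a : ℤ))) := by
      have := hbR.shift (-(a : ℤ))
      rwa [Set.inter_eq_left.mpr (show P0 ∩ Rr r ⊆ V m from fun p hp => hPV hp.1.1)] at this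
    have hbig := bigwin hK5 hsp' (shS_Rr Set.inter_subset_right _) (by
      intro p hp
      have := hav _ hp.1
      simp only [sh_snd, sh_fst] at this; omega) hb2
    let χ : Alt K →* Del m := (((E hsp').comp (ind _)).comp
      (alternatingGroup (Fin K)).subtype).codRestrict (Del m) (fun σ => hbig _ σ.2)
    have hχ : ∀ σ ∈ alternatingGroup (Fin K), E hsp' (ind (shS (P0 ∩ Rr r) (-(a : ℤ))) σ) ∈ Z :=
      fun σ hσ => ⟨χ ⟨σ, hσ⟩, alt_triv (by simpa using hK5) (by simpa using hKY) (φ.comp χ) _, rfl⟩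
    refine consec (M := Z.comap ((E5 r).comp (ind P0))) (by omega) ?_
    intro d hd
    show E5 r (ind P0 (cyc d hd)) ∈ Z
    have c1 := E_cyc (Rr_sparse r) (Set.inter_subset_right (s := P0)) d hd
    have c2 := E_cyc hsp' subset_rfl (a + d) (by omega)
    rw [shS_shS, show -(a : ℤ) + ((a + d : ℕ) : ℤ) = d by omega] at c2
    rw [← E5_inter, c1.uniq c2]
    exact hχ _ (cyc_mem _ _)
  have all : ∀ s : Finset (Fin (L + 1) → Prop × Prop), HasZ Z (P ∩ {p | f p ∈ s}) := by
    intro s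
    induction s using Finset.induction_on with
    | empty => simpa using hasZ_empty Z
    | insert π s hπ ih =>
      have := (fib π).union ih (by
        rw [Set.disjoint_left]; rintro p ⟨_, h1⟩ ⟨_, h2⟩
        exact hπ (h1 ▸ h2))
      convert this using 1
      ext p; simp [and_or_left]
  simpa using all Finset.univ

lemma fac (hm : StrictMono m) (h5 : ∀ i, 5 ≤ m i) {Y : Type} [Finite Y] (φ : Del m →* Perm Y)
    {I : ℕ} (hI : Nat.card Y < m I) (g : Del m) (hg : ∀ i < I, pp i g = 1) : φ g = 1 := by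
  have key : ∀ (x : Perm Om) (hx : x ∈ Del m), ∃ g' : Del m,
      (∀ i < I, ∀ a : Fin (m i), (g' : Perm Om) (pt i a) = x (pt i a)) ∧
      (∀ ω : Om, (¬ ∃ i < I, ∃ a : Fin (m i), ω = pt i a) → (g' : Perm Om) ω = ω) ∧
      φ ⟨x, hx⟩ = φ g' := by
    intro x hx
    induction hx using Subgroup.closure_induction with
    | mem x hx =>
      obtain ⟨⟨r, b, σ⟩, rfl⟩ := hx
      have h1 := (GP_hb (m := m) b).inter (hb_lt hm.injective h5 I)
      have h2 := (GP_hb (m := m) b).inter (hb_lt hm.injective h5 I).compl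
      obtain ⟨y, hy, hy'⟩ := kill hm h5 φ hI (P := GP m b ∩ {p | p.1 < I}ᶜ)
        (fun p hp => GP_sub b hp.1) h2 (fun p hp => by simpa using hp.2) r _ σ.2
      have e : E5 r (ind (GP m b) (σ : Perm (Fin 5))) =
          E5 r (ind (GP m b ∩ {p | p.1 < I} ∩ V m) (σ : Perm (Fin 5))) * (y : Perm Om) := by
        rw [show (y : Perm Om) = _ from hy', ← map_mul]
        congr 1
        funext p
        by_cases a : p ∈ GP m b <;> by_cases c : p.1 < I <;> simp [ind, a, c]
        intro h; exact absurd (GP_sub b a) h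
      refine ⟨⟨_, h1 r _ σ.2⟩, ?_, ?_, ?_⟩
      · intro i hi a
        simp only
        rw [e, Perm.mul_apply, show (y : Perm Om) = _ from hy', E_fix' _ (_ ∩ _ᶜ)]
        intro p hp c e'
        have e1 : i = p.1 := congrArg Prod.fst e'
        exact hp.2 (by show p.1 < I; omega)
      · intro ω hω
        apply E_fix'
        rintro p ⟨⟨_, hp⟩, hv⟩ c rfl
        simp only [V, Set.mem_ofPred_eq] at hv hp
        have := c.2
        refine hω ⟨p.1, hp, ⟨(p.2 + (c : ℕ)).toNat, by omega⟩, Prod.ext rfl ?_⟩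
        simp only [sh_snd, pt]; omega
      · have : φ y = 1 := hy
        rw [← mul_one (φ ⟨_, h1 r _ σ.2⟩), ← this, ← map_mul]
        congr 1; exact Subtype.ext e
    | one => exact ⟨1, fun _ _ _ => rfl, fun _ _ => rfl, rfl⟩
    | mul x y hx hy ihx ihy =>
      obtain ⟨g1, a1, b1, c1⟩ := ihx
      obtain ⟨g2, a2, b2, c2⟩ := ihy
      refine ⟨g1 * g2, fun i hi a => ?_, fun ω hω => ?_, ?_⟩
      · rw [Subgroup.coe_mul, Perm.mul_apply, Perm.mul_apply, a2 i hi,
          show y (pt i a) = _ from pp_spec i ⟨y, hy⟩ a, a1 i hi]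
      · rw [Subgroup.coe_mul, Perm.mul_apply, b2 ω hω, b1 ω hω]
      · rw [map_mul, ← c1, ← c2, ← map_mul]; rfl
    | inv x hx ihx =>
      obtain ⟨g1, a1, b1, c1⟩ := ihx
      refine ⟨g1⁻¹, fun i hi a => ?_, fun ω hω => ?_, ?_⟩
      · have h := pp_spec i (⟨x, hx⟩ : Del m)⁻¹ a
        rw [Subgroup.coe_inv] at h ⊢
        rw [show x⁻¹ (pt i a) = _ from h, Perm.inv_eq_iff_eq, a1 i hi, ← h]; simp
      · rw [Subgroup.coe_inv, Perm.inv_eq_iff_eq, b1 ω hω]
      · rw [map_inv, ← c1, ← map_inv]; rfl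
  obtain ⟨g', a, b, c⟩ := key g g.2
  have : g' = 1 := by
    apply Subtype.ext; ext1 ω
    by_cases hω : ∃ i < I, ∃ a : Fin (m i), ω = pt i a
    · obtain ⟨i, hi, x, rfl⟩ := hω
      rw [a i hi, pp_spec, hg i hi]; rfl
    · rw [b ω hω]; rfl
  rw [this, map_one] at c; exact c

theorem exists_sys (hm : StrictMono m) (h5 : ∀ i, 5 ≤ m i) :
    ∃ (D : Type) (_ : Group D), Group.FG D ∧ Nonempty (Sys D m) := by
  refine ⟨Del m, inferInstance, ?_, ⟨⟨pp, io hm.injective h5, ?_, ?_, ?_⟩⟩⟩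
  · exact (Group.fg_iff_subgroup_fg _).mpr
      ((Subgroup.fg_iff _).mpr ⟨Gen m, rfl, Set.finite_range _⟩)
  · intro i σ
    apply Subtype.ext; ext1 a
    apply pt_inj (i := i)
    rw [← pp_spec]
    have := E_app (sp_single (m i) (i, 0)) (ind {(i, 0)} (σ : Perm _)) (p := (i, 0)) rfl a
    rw [ind_pos _ (Set.mem_singleton _)] at this
    simp only [sh, zero_add] at this
    exact this
  · intro i l σ hl
    apply Subtype.ext; ext1 a
    apply pt_inj (i := l)
    rw [← pp_spec]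
    apply E_fix'
    rintro _ rfl c e
    exact hl (congrArg Prod.fst e)
  · intro Y _ φ I hI g hg
    exact fac hm h5 φ hI g hg

end Pool.Agent.H73.SG
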