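import Pool.Agent.H73.CN3
import Pool.Agent.H73.SG4

set_option autoImplicit false

namespace Pool.Agent.H73.CN

open Equiv SG

lemma fg_count (G : Type) [Group G] [h : Group.FG G] : Countable G := by
  obtain ⟨α, _, φ, hφ⟩ := Group.fg_iff_exists_freeGroup_hom_surjective_finite.mp h
  exact hφ.countable

lemma free_inj {P X : Type} [Group P] (ρ : P →* Perm X) (hf : ∀ g x, ρ g x = x → g = 1) (x : X) :
    Function.Injective (fun g => ρ g x) := by
  intro g g' e
  have := hf (g'⁻¹ * g) x (by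
    rw [map_mul, Perm.mul_apply, show ρ g x = ρ g' x from e]; simp)
  exact (inv_mul_eq_one.mp this).symm

lemma OE' {P X β : Type} [Group P] (ρ : P →* Perm X) (hf : ∀ g x, ρ g x = x → g = 1) (x0 : X)
    {v : P} (hv : Function.Injective (fun n : ℤ => v ^ n))
    (hesc : ∀ F : Set P, F.Finite → ∃ u, ∀ n : ℤ, v ^ n * u ∉ F)
    (A : Set (Perm X)) (tr : ∀ x y, ∃ p ∈ A, p x = y) (comm : ∀ p ∈ A, ρ v * p = p * ρ v)
    (f : X → β) (h1 : ∀ p ∈ A, {x | f (p x) ≠ f x}.Finite) (h2 : {x | f (ρ v x) ≠ f x}.Finite) :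
    ∃ c, {x | f x ≠ c}.Finite := by
  refine OE A (ρ v) tr comm (fun x => ?_) (fun F hF => ?_) f h1 h2
  · simpa [Function.comp_def] using (free_inj ρ hf x).comp hv
  · obtain ⟨u, hu⟩ := hesc _ (hF.preimage (free_inj ρ hf x0).injOn)
    exact ⟨ρ u x0, fun n => by simpa using hu n⟩

theorem asm {P : Type} [Group P] (J : Gn P) (G0 : Subgroup P) [G0.Normal] [G0.FiniteIndex]
    (hR : ∀ g : G0, g ≠ 1 → ∃ (Y : Type) (_ : Group Y) (_ : Finite Y) (φ : G0 →* Y), φ g ≠ 1)
    (v : G0) (hv : Function.Injective (fun n : ℤ => v.1 ^ n))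
    (hesc : ∀ F : Set P, F.Finite → ∃ u, ∀ n : ℤ, v.1 ^ n * u ∉ F)
    (E : Type) [Group E] [Group.FG E] [Infinite E] (hE : NFQ E) {e2 e3 : E} (h2 : e2 ^ 2 = 1)
    (h2' : e2 ≠ 1) (h3 : e3 ^ 3 = 1) (h3' : e3 ≠ 1) :
    ∃ (Γ : Type) (_ : Group Γ), Group.FG Γ ∧
      Finite (MulAut Γ ⧸ (MulAut.conj : Γ →* MulAut Γ).range) ∧ ∃ π : Γ →* G0,
      Function.Surjective π ∧ (∀ N : Subgroup Γ, N.Normal → N.FiniteIndex → π.ker ≤ N) ∧
      ∀ g : P, ∃ φ : MulAut Γ, ∀ x, (π (φ x) : P) = g * π x * g⁻¹ := by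
  have : Group.FG P := Group.fg_iff.mpr ⟨_, J.gen, J.fin⟩
  have := fg_count P
  have := fg_count E
  have inf : ∀ h : Perm (P × Yc), (∀ w, h (1, .t1 w) ≠ (1, .t1 w)) → {z | h z ≠ z}.Infinite :=
    fun h hh => Set.infinite_of_injective_forall_mem (f := fun w : List Bool => ((1 : P), Yc.t1 w))
      (fun a b e => by simpa using e) hh
  obtain ⟨Q, hQf, hQ, hA⟩ := exQ hE ({pa J, pb P} ∪ lam P '' Set.range J.γ)
    ((Set.toFinite _).union (J.fin.image _)) (by
      rintro _ ((rfl | rfl) | ⟨_, ⟨k, rfl⟩, rfl⟩)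
      · obtain ⟨ρ, h⟩ := ex_rho Nat.prime_two h2 h2' (h := pa J) (by rw [pow_two, pa_sq])
          (inf _ (fun w => by simp [pa_app, fa]))
        exact ⟨ρ, e2, h⟩
      · obtain ⟨ρ, h⟩ := ex_rho Nat.prime_three h3 h3' (h := pb P) (by rw [pow_three, pb_cu])
          (inf _ (fun w => by simp [pb_app, rb]))
        exact ⟨ρ, e3, h⟩
      · obtain ⟨ρ, h⟩ := ex_rho Nat.prime_two h2 h2' (h := lam P (J.γ k))
          (by rw [pow_two, ← map_mul, J.sq, map_one])
          (inf _ (fun w => by simp [lam_app, J.ne]))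
        exact ⟨ρ, e2, h⟩)
  have hH : H0 J ≤ Q := (Subgroup.closure_mono Set.subset_union_left).trans hA
  have hl : ∀ g, lam P g ∈ Q := fun g => by
    apply (Subgroup.closure_mono Set.subset_union_right).trans hA
    rw [← MonoidHom.map_closure, J.gen]
    exact ⟨g, trivial, rfl⟩
  have := alternatingGroup.isSimpleGroup (α := Fin 5) (by simp)
  have hS : ∀ s : Alt 5, s ≠ 1 → ∃ t, s * t * s⁻¹ ≠ t := by
    intro s hs
    by_contra c
    push Not at c
    apply hs
    rw [← Subgroup.mem_bot, ← alternatingGroup.center_eq_bot (α := Fin 5) (by simp),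
      Subgroup.mem_center_iff]
    exact fun t => (mul_inv_eq_iff_eq_mul.mp (c t)).symm
  have lf : ∀ g z, lam P g z = z → g = 1 := by
    rintro g ⟨u, y⟩ h
    simpa [lam_app] using h
  have hI : ∀ x, ∀ F : Set (X1 J Q ⊕ (P × Yc)), F.Finite → ∃ g, tau hl J G0 g x ∉ F := by
    rintro (x | z) F hF
    · obtain ⟨_, ⟨n, rfl⟩, h⟩ := (Set.infinite_range_of_injective (Sum.inl_injective.comp
        ((free_inj (mu hl J) (fun _ _ => mu_free hl) x).comp hv))).exists_notMem_finite hF
      exact ⟨(1, v ^ n), by simpa [tau] using h⟩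
    · obtain ⟨_, ⟨n, rfl⟩, h⟩ := (Set.infinite_range_of_injective (Sum.inr_injective.comp
        ((free_inj (lam P) lf z).comp hv))).exists_notMem_finite hF
      exact ⟨(lq hl (v ^ n), 1), h⟩
  obtain ⟨T, hT, hN⟩ := covN hl hQ hH hR
  refine ⟨Wr (tau hl J G0) (Alt 5), inferInstance, ?_, ?_,
    (MonoidHom.snd _ _).comp SemidirectProduct.rightHom,
    Prod.snd_surjective.comp SemidirectProduct.rightHom_surjective, ?_, ?_⟩
  · refine W11 {.inl ((1 : Q) : X1 J Q), .inr (1, .c0 0)} (Set.toFinite _) ?_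
    rintro (x | z)
    · induction x using QuotientGroup.induction_on with
      | H y => exact ⟨_, Or.inl rfl, (y, 1), by simp [tau_inl]⟩
    · obtain ⟨h, hh, rfl⟩ := H0_trans J z
      exact ⟨_, Or.inr rfl, (⟨h, hH hh⟩, 1), rfl⟩
  · refine W8 hS (tau_inj hl) T hT (fun σ hσ => ?_) Sum.isRight (tau_side hl) (fun f hf => ?_) hI
    · obtain ⟨_, ⟨g, rfl⟩, h⟩ := hN σ hσ
      exact ⟨g, h⟩
    obtain ⟨c1, k1⟩ := OE' (mu hl J) (fun _ _ => mu_free hl) ((1 : Q) : X1 J Q) hv hesc
      (Set.range (act _)) (by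
        intro x y
        induction x using QuotientGroup.induction_on with
        | H x =>
          induction y using QuotientGroup.induction_on with
          | H y => exact ⟨_, ⟨y * x⁻¹, rfl⟩, by rw [act_mk, inv_mul_cancel_right]⟩)
      (by rintro _ ⟨q, rfl⟩; exact mu_comm hl _ q) (fun x => f (.inl x)) (by
        rintro _ ⟨q, rfl⟩
        simpa [tau] using (hf (q, 1)).preimage Sum.inl_injective.injOn)
      (by simpa [tau] using (hf (1, v)).preimage Sum.inl_injective.injOn)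
    obtain ⟨c2, k2⟩ := OE' (lam P) lf (1, .c0 0) hv hesc (H0 J) (by
        intro x y
        obtain ⟨h, hh, rfl⟩ := H0_trans J x
        obtain ⟨h', hh', rfl⟩ := H0_trans J y
        exact ⟨h' * h⁻¹, Subgroup.mul_mem _ hh' (Subgroup.inv_mem _ hh), by simp⟩)
      (fun p hp => lam_comm J _ hp) (fun x => f (.inr x))
      (fun p hp => (hf (⟨p, hH hp⟩, 1)).preimage Sum.inr_injective.injOn)
      ((hf (lq hl v, 1)).preimage Sum.inr_injective.injOn)
    refine ⟨fun b => if b then c2 else c1, ((k1.image Sum.inl).union (k2.image Sum.inr)).subset ?_⟩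
    rintro (x | z) h
    · exact Or.inl ⟨x, h, rfl⟩
    · exact Or.inr ⟨z, h, rfl⟩
  · intro N _ _ x hx
    rw [← SemidirectProduct.inl_left_mul_inr_right x]
    refine N.mul_mem (W9 hS hI N _) ?_
    rw [← QuotientGroup.eq_one_iff, show x.right = (x.right.1, 1) from Prod.ext rfl hx]
    exact hQ _ ((QuotientGroup.mk' N).comp (SemidirectProduct.inr.comp (MonoidHom.inl _ _))) _
  · intro g
    obtain ⟨φ, h⟩ := W10 (τ := tau hl J G0) (S := Alt 5) (Equiv.sumCongr (mu hl J g) 1)
      ((MulEquiv.refl Q).prodCongr (MulAut.conjNormal g)) (by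
        intro x
        ext1 y
        rcases y with y | z
        · induction y using QuotientGroup.induction_on with
          | H y => simp [tau_inl, mu_mk, MulEquiv.prodCongr, mul_assoc]
        · rfl)
    exact ⟨φ, fun x => by simp [h, MulEquiv.prodCongr]⟩

structure Sys2 {D : Type} [Group D] {m : ℕ → ℕ} (X : Sys D m) (h5 : ∀ i, 5 ≤ m i) where
  δ : Alt 5 →* D
  hδ : ∀ i σ a, (X.p i (δ σ)).1 (Fin.castLE (h5 i) a) = Fin.castLE (h5 i) (σ.1 a)
  faith : ∀ g, (∀ i, X.p i g = 1) → g = 1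
  T : Set D
  fin : T.Finite
  sq : ∀ t ∈ T, t * t = 1
  gen : Subgroup.closure T = ⊤

theorem exists_sys2 {m : ℕ → ℕ} (hm : StrictMono m) (h5 : ∀ i, 5 ≤ m i) :
    ∃ (D : Type) (_ : Group D) (X : Sys D m), Nonempty (Sys2 X h5) := by
  let η : ZMod 5 × Bool → Alt 5 →* Del m := fun x =>
    ((E5 x.1).comp ((ind (GP m x.2)).comp (Alt 5).subtype)).codRestrict (Del m)
      (fun σ => Subgroup.subset_closure ⟨(x.1, x.2, σ), rfl⟩)
  refine ⟨Del m, inferInstance, ⟨pp, io hm.injective h5, ?_, ?_, ?_⟩,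
    ⟨⟨η (0, false), ?_, ?_, Set.image2 (fun x σ => η x σ) Set.univ {σ | σ * σ = 1},
      Set.toFinite _, ?_, ?_⟩⟩⟩
  · intro i σ
    apply Subtype.ext; ext1 a
    apply pt_inj (i := i)
    rw [← pp_spec]
    have := E_app (sp_single (m i) (i, 0)) (ind {(i, 0)} (σ : Perm _)) (p := (i, 0)) rfl a
    rw [ind_pos _ (Set.mem_singleton _)] at this
    simp only [sh, zero_add] at this
    exact this
  · intro i l σ hl
    apply Subtype.ext; ext1 a
    apply pt_inj (i := l)
    rw [← pp_spec]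
    apply E_fix'
    rintro _ rfl c e
    exact hl (congrArg Prod.fst e)
  · intro Y _ φ I hI g hg
    exact fac hm h5 φ hI g hg
  · intro i σ a
    apply pt_inj (i := i)
    refine (pp_spec _ _ _).symm.trans ?_
    have := E_app (Rr_sparse 0) (ind (V m) (σ : Perm _)) (p := (i, 0)) (by simp [Rr]) a
    rw [ind_pos _ (show (i, 0) ∈ V m from ⟨le_rfl, by simpa using h5 i⟩)] at this
    simp only [sh, zero_add] at this
    exact this
  · intro g hg
    apply Subtype.ext; ext1 ω
    by_cases c : 0 ≤ ω.2 ∧ ω.2 < m ω.1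
    · have e : ω = pt ω.1 (⟨ω.2.toNat, by omega⟩ : Fin (m ω.1)) := Prod.ext rfl (by simp [pt, c.1])
      rw [e, pp_spec, show pp ω.1 g = 1 from hg _]; rfl
    · have : Del m ≤ stab (MonoidHom.id _) ω := by
        rw [Del, Subgroup.closure_le]
        rintro _ ⟨⟨r, b, σ⟩, rfl⟩
        apply E_fix'
        rintro p hp a rfl
        have := GP_sub b hp
        have := a.2
        simp only [V, Set.mem_ofPred_eq, sh_snd, sh_fst] at *
        omega
      exact this g.2
  · rintro _ ⟨x, -, σ, hσ, rfl⟩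
    rw [← map_mul, hσ, map_one]
  · have := alternatingGroup.isSimpleGroup (α := Fin 5) (by simp)
    have k : Subgroup.closure {σ : Alt 5 | σ * σ = 1} = ⊤ := by
      have n : (Subgroup.closure {σ : Alt 5 | σ * σ = 1}).Normal := by
        refine ⟨fun x hx g => ?_⟩
        have := Subgroup.mem_map_of_mem (MulAut.conj g).toMonoidHom hx
        rw [MonoidHom.map_closure] at this
        refine Subgroup.closure_mono ?_ this
        rintro _ ⟨σ, hσ, rfl⟩
        show _ * _ = _
        rw [← map_mul, hσ, map_one]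
      refine (IsSimpleGroup.eq_bot_or_eq_top_of_normal _ n).resolve_left ?_
      rw [Subgroup.closure_eq_bot_iff]
      intro h
      have := h (a := ⟨swap 0 1 * swap 2 3, Perm.mem_alternatingGroup.mpr (by decide)⟩)
        (Subtype.ext (show (swap 0 1 * swap 2 3 : Perm (Fin 5)) * (swap 0 1 * swap 2 3) = 1 by
          decide))
      exact absurd (congrArg Subtype.val this) (by decide)
    rw [eq_top_iff]
    rintro ⟨g, hg⟩ -
    induction hg using Subgroup.closure_induction with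
    | mem x hx =>
      obtain ⟨⟨r, b, σ⟩, rfl⟩ := hx
      have : σ ∈ Subgroup.closure {σ : Alt 5 | σ * σ = 1} := by rw [k]; trivial
      have := Subgroup.mem_map_of_mem (η (r, b)) this
      rw [MonoidHom.map_closure] at this
      exact Subgroup.closure_mono (by rintro _ ⟨σ, hσ, rfl⟩; exact ⟨_, trivial, σ, hσ, rfl⟩) this
    | one => exact Subgroup.one_mem _
    | mul x y _ _ a b => exact Subgroup.mul_mem _ a b
    | inv x _ a => exact Subgroup.inv_mem _ a

end Pool.Agent.H73.CN
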