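import Pool.Agent.H73.SG5

set_option autoImplicit false

namespace Pool.Agent.H73.SG

open Equiv Equiv.Perm Finset

section alt
variable {α : Type} [DecidableEq α] [Fintype α]

lemma idx_top (h5 : 5 ≤ Nat.card α) (H : Subgroup (alternatingGroup α))
    (h : H.index < Nat.card α) : H = ⊤ := by
  rw [eq_top_iff]; intro a _
  rw [← stab_act H, mem_stab, alt_triv h5 h (act H) a]; rfl

def Mx {Y : Type} (ψ : alternatingGroup α →* Perm Y) (x : Y) : Subgroup (Perm α) :=
  (stab ψ x).map (alternatingGroup α).subtype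

lemma even_map {S S' : Finset α} (h2 : 2 ≤ S.card) (h : S.card = S'.card) :
    ∃ σ : alternatingGroup α, S.image σ.1 = S' := by
  obtain ⟨σ, hσ⟩ := Perm.exists_map_finset_eq S S' h
  rw [Finset.map_eq_image] at hσ
  by_cases c : σ ∈ alternatingGroup α
  · exact ⟨⟨σ, c⟩, hσ⟩
  obtain ⟨a, ha, b, hb, hab⟩ := Finset.one_lt_card.mp h2
  refine ⟨⟨σ * swap a b, ?_⟩, ?_⟩
  · rw [mem_alternatingGroup] at c ⊢
    rw [Perm.sign_mul, sign_swap hab, (Int.units_eq_one_or (sign σ)).resolve_left c]; simp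
  · have e : S.image (swap a b) = S := by
      apply Finset.eq_of_subset_of_card_le
      · intro x hx
        obtain ⟨y, hy, rfl⟩ := Finset.mem_image.mp hx
        rw [swap_apply_def]; split_ifs <;> assumption
      · rw [Finset.card_image_of_injective _ (swap a b).injective]
    rw [← hσ]
    conv_rhs => rw [← e, Finset.image_image]
    rfl

lemma good_move {Y : Type} (ψ : alternatingGroup α →* Perm Y) {x : Y} {S : Finset α}
    (h : Good (Mx ψ x) (S : Set α)) (σ : alternatingGroup α) :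
    Good (Mx ψ (ψ σ x)) ((S.image σ.1 : Finset α) : Set α) := by
  refine h.conj σ.1 ?_
  rintro _ ⟨a, ha, rfl⟩
  refine ⟨σ * a * σ⁻¹, ?_, rfl⟩
  have ha' : ψ a x = x := ha
  show ψ (σ * a * σ⁻¹) (ψ σ x) = ψ σ x
  simp [ha']

open Classical in
lemma fix_count {Y : Type} [Fintype Y] (ψ : alternatingGroup α →* Perm Y) {S : Finset α}
    (h2 : 2 ≤ S.card) {c : ℕ} (h : ∀ x, ((powersetCard S.card (univ : Finset α)).filter
      (fun T : Finset α => Good (Mx ψ x) (T : Set α))).card ≤ c) :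
    (Fintype.card α).choose S.card * (univ.filter (fun x => Good (Mx ψ x) (S : Set α))).card ≤
      Fintype.card Y * c := by
  have := Finset.card_mul_le_card_mul (s := powersetCard S.card (univ : Finset α))
    (t := (univ : Finset Y)) (fun (T : Finset α) x => Good (Mx ψ x) (T : Set α))
    (m := (univ.filter (fun x => Good (Mx ψ x) (S : Set α))).card) (n := c) ?_ ?_
  · simpa using this
  · intro T hT
    obtain ⟨σ, rfl⟩ := even_map h2 (Finset.mem_powersetCard.mp hT).2.symm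
    refine Finset.card_le_card_of_injOn (ψ σ) ?_ (ψ σ).injective.injOn
    intro x hx
    simp only [coe_filter, mem_univ, true_and, Set.mem_ofPred_eq] at hx
    simpa [Finset.bipartiteAbove] using good_move ψ hx σ
  · intro x _
    exact h x

open Classical in
lemma span_core {Y : Type} [Fintype Y] (ψ : alternatingGroup α →* Perm Y) {S : Finset α}
    (h5 : 5 ≤ S.card) {c : ℕ} {θ : ℝ} (h : ∀ x, ((powersetCard S.card (univ : Finset α)).filter
      (fun T : Finset α => Good (Mx ψ x) (T : Set α))).card ≤ c)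
    (hc : (c : ℝ) ≤ θ * (Fintype.card α).choose S.card) :
    ∃ R : Finset Y, (∀ x, ∃ y ∈ R, ∃ a, ψ (alternatingGroup.ofSubtype S a) y = x) ∧
      (R.card : ℝ) ≤ (θ + 1 / S.card) * Fintype.card Y := by
  have hs : (0 : ℝ) < S.card := by exact_mod_cast (by omega : 0 < S.card)
  obtain ⟨R, h1, h2⟩ := L5 (ψ.comp (alternatingGroup.ofSubtype S)) hs (by
    intro x
    by_cases c : (orb (ψ.comp (alternatingGroup.ofSubtype S)) x).card < S.card
    · left
      have := idx_top (α := S) (by simpa using h5) (stab (ψ.comp (alternatingGroup.ofSubtype S)) x)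
        (by rw [index_stab]; simpa using c)
      intro a
      rw [← mem_stab, this]; trivial
    · right; exact_mod_cast not_lt.mp c) univ (by simp)
  refine ⟨R, fun x => h1 x (mem_univ _), h2.trans ?_⟩
  have k := fix_count ψ (by omega) h
  have k2 : (univ.filter (fun x => ∀ c, (ψ.comp (alternatingGroup.ofSubtype S)) c x = x)).card ≤
      (univ.filter (fun x => Good (Mx ψ x) (S : Set α))).card := by
    apply Finset.card_le_card
    intro x hx
    simp only [mem_filter, mem_univ, true_and] at hx ⊢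
    intro a ha b hb c hc hab hbc
    have hm : swap (⟨a, ha⟩ : S) ⟨b, hb⟩ * swap (⟨b, hb⟩ : S) ⟨c, hc⟩ ∈ alternatingGroup S := by
      rw [mem_alternatingGroup, Perm.sign_mul, sign_swap (by simpa using hab),
        sign_swap (by simpa using hbc)]; simp
    refine ⟨_, hx ⟨_, hm⟩, ?_⟩
    show Perm.ofSubtype (swap (⟨a, ha⟩ : S) ⟨b, hb⟩ * swap (⟨b, hb⟩ : S) ⟨c, hc⟩) = _
    rw [map_mul, Perm.ofSubtype_swap_eq, Perm.ofSubtype_swap_eq]
  have hp : (0 : ℝ) < (Fintype.card α).choose S.card := by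
    exact_mod_cast Nat.choose_pos (Finset.card_le_univ S)
  have k3 : ((univ.filter (fun x => Good (Mx ψ x) (S : Set α))).card : ℝ) ≤
      θ * Fintype.card Y := by
    have k' : ((Fintype.card α).choose S.card : ℝ) *
      (univ.filter (fun x => Good (Mx ψ x) (S : Set α))).card ≤ Fintype.card Y * c := by
      exact_mod_cast k
    have : (Fintype.card Y : ℝ) * c ≤ Fintype.card Y * (θ * (Fintype.card α).choose S.card) := by
      gcongr
    apply le_of_mul_le_mul_left _ hp
    nlinarith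
  have k2' : ((univ.filter
      (fun x => ∀ c, (ψ.comp (alternatingGroup.ofSubtype S)) c x = x)).card : ℝ) ≤
      (univ.filter (fun x => Good (Mx ψ x) (S : Set α))).card := by exact_mod_cast k2
  rw [card_univ, add_mul, one_div_mul_eq_div]
  exact add_le_add (by convert k2'.trans k3) le_rfl

lemma ch1 {m s : ℕ} (hm : 1 ≤ m) (hs : s ≤ m) :
    (((m - 1).choose s : ℕ) : ℝ) = ((m - s : ℝ) / m) * m.choose s := by
  obtain ⟨k, rfl⟩ : ∃ k, m = k + 1 := ⟨m - 1, by omega⟩
  have := Nat.choose_mul_succ_eq k s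
  have h : ((k.choose s : ℕ) : ℝ) * (k + 1) = (k + 1).choose s * ((k + 1 : ℝ) - s) := by
    have h2 : (((k + 1 - s : ℕ)) : ℝ) = (k + 1 : ℝ) - s := by push_cast [hs]; ring
    rw [← h2]; exact_mod_cast this
  simp only [Nat.add_sub_cancel]
  push_cast
  field_simp
  linarith

lemma ch2 {m s : ℕ} (hm : 2 ≤ m) (hs : s + 1 ≤ m) :
    (((m - 2).choose s : ℕ) : ℝ) ≤ ((m - s : ℝ) / m) ^ 2 * m.choose s := by
  have a := ch1 (m := m) (s := s) (by omega) (by omega)
  have b := ch1 (m := m - 1) (s := s) (by omega) (by omega)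
  rw [show m - 1 - 1 = m - 2 by omega, a] at b
  rw [b, pow_two, mul_assoc]
  have h1 : (s : ℝ) + 1 ≤ m := by exact_mod_cast hs
  have h2 : (2 : ℝ) ≤ m := by exact_mod_cast hm
  have h3 : (0 : ℝ) ≤ s := by positivity
  have h4 : (0 : ℝ) ≤ (m - s) / m := div_nonneg (by linarith) (by linarith)
  refine mul_le_mul_of_nonneg_right ?_ (mul_nonneg h4 (by positivity))
  rw [Nat.cast_sub (by omega), div_le_div_iff₀ (by simp; linarith) (by linarith)]
  simp; nlinarith

end alt

noncomputable def cnum {D Y : Type} [Group D] (C : Subgroup D) (φ : D →* Perm Y) (O : Set Y) : ℕ :=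
  sInf {k | ∃ R : Finset Y, R.card = k ∧ ∀ x ∈ O, ∃ y ∈ R, ∃ c ∈ C, φ c y = x}

lemma cnum_le {D Y : Type} [Group D] {C : Subgroup D} {φ : D →* Perm Y} {O : Set Y} (R : Finset Y)
    (h : ∀ x ∈ O, ∃ y ∈ R, ∃ c ∈ C, φ c y = x) : cnum C φ O ≤ R.card :=
  Nat.sInf_le ⟨R, rfl, h⟩

lemma cnum_spec {D Y : Type} [Group D] [Finite Y] (C : Subgroup D) (φ : D →* Perm Y) (O : Set Y) :
    ∃ R : Finset Y, R.card = cnum C φ O ∧ ∀ x ∈ O, ∃ y ∈ R, ∃ c ∈ C, φ c y = x := by
  have := Fintype.ofFinite Y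
  exact Nat.sInf_mem (s := {k | ∃ R : Finset Y, R.card = k ∧ ∀ x ∈ O, ∃ y ∈ R, ∃ c ∈ C, φ c y = x})
    ⟨_, univ, rfl, fun x _ => ⟨x, mem_univ _, 1, C.one_mem, by simp⟩⟩

section sys
variable {D : Type} [Group D] {m : ℕ → ℕ} (X : Sys D m)

lemma conj_rel {Y : Type} [Finite Y] (φ : D →* Perm Y) {I : ℕ} (hI : Nat.card Y < m I) (i : ℕ)
    (g : D) (a : Alt (m i)) : φ (g * X.ι i a * g⁻¹) = φ (X.ι i (X.p i g * a * (X.p i g)⁻¹)) := by
  rw [← inv_mul_eq_one, ← map_inv, ← map_mul]
  apply X.fac Y φ I hI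
  intro l _
  by_cases c : l = i
  · subst c; simp [X.pι, mul_assoc]
  · simp [X.pι' i l _ c]

lemma good_tr {Y : Type} [Finite Y] (φ : D →* Perm Y) {I : ℕ} (hI : Nat.card Y < m I) (i : ℕ)
    (g : D) {x : Y} {B : Finset (Fin (m i))} (h : Good (Mx (φ.comp (X.ι i)) x) (B : Set _)) :
    Good (Mx (φ.comp (X.ι i)) (φ g x)) ((B.image (X.p i g).1 : Finset _) : Set _) := by
  refine h.conj _ ?_
  rintro _ ⟨a, ha, rfl⟩
  refine ⟨X.p i g * a * (X.p i g)⁻¹, ?_, rfl⟩
  have ha' : φ (X.ι i a) x = x := ha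
  show φ (X.ι i (X.p i g * a * (X.p i g)⁻¹)) (φ g x) = φ g x
  rw [← conj_rel X φ hI]
  simp [ha']

def CC (S : ∀ i, Finset (Fin (m i))) : Subgroup D :=
  ⨆ i, ((X.ι i).comp (alternatingGroup.ofSubtype (S i))).range

def Big (i : ℕ) (H : Subgroup D) : Prop :=
  ∃ B : Finset (Fin (m i)), m i ≤ B.card + 1 ∧
    Good ((H.comap (X.ι i)).map (Alt (m i)).subtype) (B : Set _)

lemma good_base (H : Subgroup D) {I : ℕ} (h0 : H.index ≠ 0) (hI : H.index < m I) (i : ℕ)
    {x : D ⧸ H} {B : Finset (Fin (m i))} (h : Good (Mx ((act H).comp (X.ι i)) x) (B : Set _)) :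
    ∃ B' : Finset (Fin (m i)), B'.card = B.card ∧
      Good ((H.comap (X.ι i)).map (Alt (m i)).subtype) (B' : Set _) := by
  have : Finite (D ⧸ H) := Nat.finite_of_card_ne_zero h0
  induction x using QuotientGroup.induction_on with
  | H g =>
    have k := good_tr X (act H) hI i g⁻¹ h
    rw [act_mk, inv_mul_cancel] at k
    refine ⟨_, Finset.card_image_of_injective _ (X.p i g⁻¹).1.injective, ?_⟩
    conv => enter [1, 2, 2]; rw [← stab_act H]
    exact k

lemma cn_gen (S : ∀ i, Finset (Fin (m i))) (H : Subgroup D) (h0 : H.index ≠ 0) (i : ℕ)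
    (h5 : 5 ≤ (S i).card) {c : ℕ} {θ : ℝ}
    (h : ∀ x, open Classical in ((powersetCard (S i).card (univ : Finset (Fin (m i)))).filter
      (fun T : Finset (Fin (m i)) => Good (Mx ((act H).comp (X.ι i)) x) (T : Set _))).card ≤ c)
    (hc : (c : ℝ) ≤ θ * (m i).choose (S i).card) :
    (cnum (CC X S) (act H) Set.univ : ℝ) ≤ (θ + 1 / (S i).card) * H.index := by
  have : Finite (D ⧸ H) := Nat.finite_of_card_ne_zero h0
  have := Fintype.ofFinite (D ⧸ H)
  obtain ⟨R, h1, h2⟩ := span_core ((act H).comp (X.ι i)) h5 (c := c) (θ := θ)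
    (fun x => by convert h x) (by simpa using hc)
  rw [← Nat.card_eq_fintype_card] at h2
  refine le_trans ?_ h2
  norm_cast
  refine cnum_le R (fun x _ => ?_)
  obtain ⟨y, hy, a, e⟩ := h1 x
  exact ⟨y, hy, _, Subgroup.mem_iSup_of_mem i ⟨a, rfl⟩, e⟩

lemma cn_b (S : ∀ i, Finset (Fin (m i))) (H : Subgroup D) {I : ℕ} (h0 : H.index ≠ 0)
    (hI : H.index < m I) (i : ℕ) (h5 : 5 ≤ (S i).card) (hs : (S i).card + 1 ≤ m i)
    (hB : ¬ Big X i H) : (cnum (CC X S) (act H) Set.univ : ℝ) ≤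
      (((m i - (S i).card) / m i) ^ 2 + 1 / (S i).card) * H.index := by
  refine cn_gen X S H h0 i h5 (fun x => ?_) (ch2 (by omega) hs)
  have := cnt_b (Mx ((act H).comp (X.ι i)) x) (s := (S i).card) (by omega) (by
    intro B hB'
    obtain ⟨B', e, h⟩ := good_base X H h0 hI i hB'
    by_contra c
    exact hB ⟨B', by simp at c; omega, h⟩)
  rw [Fintype.card_fin] at this
  convert this

lemma ex_nt (H : Subgroup D) {I : ℕ} (h0 : H.index ≠ 0) (hI : H.index < m I) (h1 : H ≠ ⊤) :
    ∃ i, H.comap (X.ι i) ≠ ⊤ := by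
  by_contra c
  push Not at c
  have : Finite (D ⧸ H) := Nat.finite_of_card_ne_zero h0
  apply h1
  rw [eq_top_iff]
  intro g _
  have key : ∀ J, ∃ h ∈ H, ∀ i < J, X.p i h = X.p i g := by
    intro J
    induction J with
    | zero => exact ⟨1, H.one_mem, by simp⟩
    | succ J ih =>
      obtain ⟨h, hh, e⟩ := ih
      refine ⟨h * X.ι J ((X.p J h)⁻¹ * X.p J g), H.mul_mem hh ?_, fun i hi => ?_⟩
      · rw [← Subgroup.mem_comap, c J]; trivial
      · by_cases c2 : i = J
        · subst c2; rw [map_mul, X.pι]; simp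
        · rw [map_mul, X.pι' J i _ c2, mul_one, e i (by omega)]
  obtain ⟨h, hh, e⟩ := key I
  have k := X.fac _ (act H) I hI (h⁻¹ * g) (fun i hi => by simp [e i hi])
  have : h⁻¹ * g ∈ H := by rw [← stab_act H, mem_stab, k]; rfl
  simpa using H.mul_mem hh this

lemma cn_a (S : ∀ i, Finset (Fin (m i))) (H : Subgroup D) {I : ℕ} (h0 : H.index ≠ 0)
    (hI : H.index < m I) (i : ℕ) (h5 : 5 ≤ (S i).card) (hs : (S i).card + 1 ≤ m i)
    (hB : H.comap (X.ι i) ≠ ⊤) : (cnum (CC X S) (act H) Set.univ : ℝ) ≤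
      (((m i - (S i).card) / m i) + 1 / (S i).card) * H.index := by
  refine cn_gen X S H h0 i h5 (fun x => ?_) (ch1 (by omega) (by omega)).le
  have := cnt_a (Mx ((act H).comp (X.ι i)) x) (s := (S i).card) (by omega) (by
    intro B hB'
    obtain ⟨B', e, h⟩ := good_base X H h0 hI i hB'
    by_contra c
    have : B' = univ := Finset.eq_univ_of_card _ (le_antisymm (Finset.card_le_univ _) (by omega))
    subst this
    apply hB
    rw [eq_top_iff]; intro a _
    obtain ⟨b, hb, e⟩ := good_univ (by simpa using h) a.2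
    rwa [← Subtype.ext e])
  rw [Fintype.card_fin] at this
  convert this

end sys

end Pool.Agent.H73.SG
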