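import Pool.Agent.H73.CN4
import Pool.Agent.H73.SG6

set_option autoImplicit false

namespace Pool.Agent.H73.CN

open Equiv SG Finset

section loc
variable {m p : ℕ}

abbrev Loc (m p : ℕ) := Fin 3 × Fin m → ZMod p

def mv (π : Perm (Fin 3)) (a : Perm (Fin m)) : Loc m p →+ Loc m p where
  toFun u := fun ω => u (π⁻¹ ω.1, a⁻¹ ω.2)
  map_zero' := rfl
  map_add' _ _ := rfl

lemma mv_app (π : Perm (Fin 3)) (a : Perm (Fin m)) (u : Loc m p) (ω : Fin 3 × Fin m) :
    mv π a u ω = u (π⁻¹ ω.1, a⁻¹ ω.2) := rfl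
@[simp] lemma mv_one (u : Loc m p) : mv 1 1 u = u := rfl
lemma mv_mul (π π' : Perm (Fin 3)) (a a' : Perm (Fin m)) (u : Loc m p) :
    mv (π * π') (a * a') u = mv π a (mv π' a' u) := rfl

def dd (j k : Fin 3) (x y : Fin m) : Loc m p := fun ω =>
  ((if ω.1 = j then 1 else 0) - (if ω.1 = k then 1 else 0)) *
    ((if ω.2 = x then 1 else 0) - (if ω.2 = y then 1 else 0))

lemma mv_dd (π : Perm (Fin 3)) (a : Perm (Fin m)) (j k : Fin 3) (x y : Fin m) :
    mv π a (dd j k x y : Loc m p) = dd (π j) (π k) (a x) (a y) := by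
  funext ω; simp only [mv_app, dd, Perm.inv_eq_iff_eq]

def DZ (m p : ℕ) : AddSubgroup (Loc m p) where
  carrier := {u | (∀ j, ∑ x, u (j, x) = 0) ∧ ∀ x, ∑ j, u (j, x) = 0}
  zero_mem' := by simp
  add_mem' := fun ha hb => ⟨fun j => by simp [sum_add_distrib, ha.1, hb.1],
    fun j => by simp [sum_add_distrib, ha.2, hb.2]⟩
  neg_mem' := fun ha => ⟨fun j => by simp [ha.1], fun j => by simp [ha.2]⟩

lemma dd_DZ (j k : Fin 3) (x y : Fin m) : dd j k x y ∈ DZ m p :=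
  ⟨fun _ => by simp [dd, mul_sub, sum_sub_distrib], fun _ => by simp [dd, sub_mul, sum_sub_distrib]⟩

lemma mv_DZ (π : Perm (Fin 3)) (a : Perm (Fin m)) {u : Loc m p} (h : u ∈ DZ m p) :
    mv π a u ∈ DZ m p :=
  ⟨fun j => (Equiv.sum_comp a⁻¹ (fun x => u (π⁻¹ j, x))).trans (h.1 _),
    fun x => (Equiv.sum_comp π⁻¹ (fun j => u (j, a⁻¹ x))).trans (h.2 _)⟩

lemma ex_not (A : Finset (Fin m)) (h : A.card < m) : ∃ x, x ∉ A := by
  by_contra c
  push Not at c
  rw [Finset.eq_univ_of_forall c] at h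
  simp at h

lemma nconst {α : Type} [Fintype α] (hp : p.Prime) (h0 : 0 < Fintype.card α)
    (h : Fintype.card α < p) {f : α → ZMod p} (hs : ∑ x, f x = 0) {z : α} (hz : f z ≠ 0) :
    ∃ x y, f x ≠ f y := by
  have := Fact.mk hp
  by_contra c
  push Not at c
  rw [Finset.sum_congr rfl (fun x _ => c x z), sum_const, card_univ, nsmul_eq_mul, mul_eq_zero,
    ZMod.natCast_eq_zero_iff] at hs
  exact hs.elim (fun h' => by have := Nat.le_of_dvd h0 h'; omega) hz

lemma ss_mem {x y s t : Fin m} (h1 : x ≠ y) (h2 : s ≠ t) :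
    swap x y * swap s t ∈ alternatingGroup (Fin m) := by
  rw [Perm.mem_alternatingGroup, Perm.sign_mul, Perm.sign_swap h1, Perm.sign_swap h2]; simp

variable (hp : p.Prime) (h7 : 7 ≤ m) (hm : m < p)
include hp h7 hm

lemma step1 {u : Loc m p} (h0 : u ≠ 0) (hu : u ∈ DZ m p) : ∃ (j : Fin 3) (x y s t : Fin m),
    x ≠ y ∧ s ≠ t ∧ (u - mv 1 (swap x y * swap s t) u) (j, x) ≠ 0 := by
  obtain ⟨⟨j, z⟩, hz⟩ := Function.ne_iff.mp h0
  obtain ⟨x, y, h⟩ := nconst hp (α := Fin m) (by simp; omega) (by simpa using hm) (hu.1 j) hz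
  obtain ⟨s, hs⟩ := ex_not {x, y} (card_le_two.trans_lt (by omega))
  obtain ⟨t, ht⟩ := ex_not {x, y, s} (card_le_three.trans_lt (by omega))
  simp only [mem_insert, mem_singleton, not_or] at hs ht
  refine ⟨j, x, y, s, t, fun e => h (by rw [e]), Ne.symm ht.2.2, ?_⟩
  simp [mv_app, sub_eq_zero, swap_apply_of_ne_of_ne (Ne.symm hs.2) (Ne.symm ht.2.1), h]

lemma irr (U : AddSubgroup (Loc m p))
    (hU : ∀ π, ∀ a ∈ alternatingGroup (Fin m), ∀ u ∈ U, mv π a u ∈ U) {u : Loc m p} (hu : u ∈ U)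
    (h0 : u ≠ 0) (hz : u ∈ DZ m p) (j k : Fin 3) (x y : Fin m) : dd j k x y ∈ U := by
  have := Fact.mk hp
  obtain ⟨j0, x1, x2, s, t, h1, h2, h3⟩ := step1 hp h7 hm h0 hz
  have m1 := U.sub_mem hu (hU 1 _ (ss_mem h1 h2) u hu)
  have z1 := (DZ m p).sub_mem hz (mv_DZ 1 (swap x1 x2 * swap s t) hz)
  have s1 : ∀ j z, z ∉ ({x1, x2, s, t} : Finset (Fin m)) →
      (u - mv 1 (swap x1 x2 * swap s t) u) (j, z) = 0 := by
    intro j z hz
    simp only [mem_insert, mem_singleton, not_or] at hz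
    simp [mv_app, swap_apply_of_ne_of_ne hz.1 hz.2.1, swap_apply_of_ne_of_ne hz.2.2.1 hz.2.2.2]
  generalize u - mv 1 (swap x1 x2 * swap s t) u = y1 at m1 z1 s1 h3
  have c4 : ({x1, x2, s, t} : Finset (Fin m)).card ≤ 4 := card_le_four
  have hx1 : x1 ∈ ({x1, x2, s, t} : Finset (Fin m)) := by simp
  generalize ({x1, x2, s, t} : Finset (Fin m)) = A at s1 c4 hx1
  obtain ⟨z, a1⟩ := ex_not A (by omega)
  obtain ⟨z', a2⟩ := ex_not (insert z A) (by have := card_insert_le z A; omega)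
  obtain ⟨z'', a3⟩ := ex_not (insert z' (insert z A)) (by
    have := card_insert_le z A; have := card_insert_le z' (insert z A); omega)
  simp only [mem_insert, not_or] at a2 a3
  have n1 : x1 ≠ z := fun e => a1 (e ▸ hx1)
  have n2 : x1 ≠ z' := fun e => a2.2 (e ▸ hx1)
  have n3 : x1 ≠ z'' := fun e => a3.2.2 (e ▸ hx1)
  have m2 := U.sub_mem m1 (hU 1 _ (ss_mem n1 (Ne.symm a3.1)) _ m1)
  have e2 : y1 - mv 1 (swap x1 z * swap z' z'') y1 = fun ω => y1 (ω.1, x1) *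
      ((if ω.2 = x1 then 1 else 0) - (if ω.2 = z then 1 else 0)) := by
    funext ⟨j, w⟩
    simp only [Pi.sub_apply, mv_app, mul_inv_rev, swap_inv, Perm.mul_apply, inv_one, Perm.one_apply]
    by_cases c1 : w = x1
    · simp [c1, n1, swap_apply_of_ne_of_ne (Ne.symm a2.1) (Ne.symm a3.2.1), s1 j z a1]
    by_cases c2 : w = z
    · simp [c2, n1.symm, swap_apply_of_ne_of_ne n2 n3, s1 j z a1]
    rw [swap_apply_of_ne_of_ne c1 c2]
    simp only [c1, c2, if_false, sub_self, mul_zero]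
    by_cases c3 : w = z'
    · simp [c3, s1 j z' a2.2, s1 j z'' a3.2.2]
    by_cases c4 : w = z''
    · simp [c4, s1 j z' a2.2, s1 j z'' a3.2.2]
    simp [swap_apply_of_ne_of_ne c3 c4]
  rw [e2] at m2
  obtain ⟨k1, k2, hk⟩ := nconst hp (α := Fin 3) (by simp) (by simp; omega) (z1.2 x1) h3
  have m3 := U.nsmul_mem (U.sub_mem m2 (hU (swap k1 k2) 1 (Subgroup.one_mem _) _ m2))
    (y1 (k1, x1) - y1 (k2, x1))⁻¹.val
  have hk' : k1 ≠ k2 := fun e => hk (by rw [e])
  have m4 : dd k1 k2 x1 z ∈ U := by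
    convert m3 using 1
    funext ⟨j, w⟩
    have := inv_mul_cancel₀ (sub_ne_zero.mpr hk)
    simp only [Pi.smul_apply, nsmul_eq_mul, ZMod.natCast_val, ZMod.cast_id', id, Pi.sub_apply,
      mv_app, dd, swap_inv, inv_one, Perm.one_apply]
    rw [← sub_mul, ← mul_assoc]
    congr 1
    by_cases c1 : j = k1
    · simp [c1, hk', this]
    by_cases c2 : j = k2
    · simp only [c2, hk'.symm, if_false, if_true, swap_apply_right]
      linear_combination this
    simp [c1, c2, swap_apply_of_ne_of_ne c1 c2]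
  by_cases c1 : j = k
  · have : (dd j k x y : Loc m p) = 0 := by funext ω; simp [dd, c1]
    rw [this]; exact U.zero_mem
  by_cases c2 : x = y
  · have : (dd j k x y : Loc m p) = 0 := by funext ω; simp [dd, c2]
    rw [this]; exact U.zero_mem
  obtain ⟨π, p1, p2⟩ := (by decide : ∀ j k k1 k2 : Fin 3, j ≠ k → k1 ≠ k2 →
    ∃ π : Perm (Fin 3), π k1 = j ∧ π k2 = k) j k k1 k2 c1 hk'
  obtain ⟨σ, hσ⟩ := even_map (S := {x1, z}) (S' := {x, y}) (by rw [card_pair n1])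
    (by rw [card_pair n1, card_pair c2])
  have m5 := hU π _ σ.2 _ m4
  rw [mv_dd, p1, p2] at m5
  rw [image_insert, image_singleton, ← Finset.coe_inj, coe_pair, coe_pair,
    Set.pair_eq_pair_iff] at hσ
  rcases hσ with ⟨a, b⟩ | ⟨a, b⟩
  · rwa [a, b] at m5
  · rw [a, b] at m5
    convert U.neg_mem m5 using 1
    funext ω; simp only [dd, Pi.neg_apply]; ring

omit hm in
lemma mv_ne {a : Perm (Fin m)} (ha : a ≠ 1) :
    ∃ x y, (dd 0 1 (a x) (a y) : Loc m p) ≠ dd 0 1 x y := by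
  have := Fact.mk hp
  obtain ⟨x, hx⟩ : ∃ x, a x ≠ x := by
    by_contra c; push Not at c; exact ha (Equiv.ext c)
  obtain ⟨y, hy⟩ := ex_not {x, a⁻¹ x} (card_le_two.trans_lt (by omega))
  simp only [mem_insert, mem_singleton, not_or, Perm.eq_inv_iff_eq] at hy
  refine ⟨x, y, fun e => ?_⟩
  simpa [dd, hx.symm, Ne.symm hy.1, Ne.symm hy.2] using congrFun e (0, x)

end loc

section glob
variable {D : Type} [Group D] {m : ℕ → ℕ}

abbrev Wt (m p : ℕ → ℕ) := ∀ i, Loc (m i) (p i)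

@[ext] structure PA (X : Sys D m) (p : ℕ → ℕ) where
  w : Wt m p
  d : D
  π : Perm (Fin 3)

variable {p : ℕ → ℕ} (X : Sys D m)

def sm (d : D) (π : Perm (Fin 3)) : Wt m p →+ Wt m p where
  toFun w := fun i => mv π (X.p i d).1 (w i)
  map_zero' := rfl
  map_add' _ _ := rfl

lemma sm_app (d : D) (π : Perm (Fin 3)) (w : Wt m p) (i : ℕ) :
    sm X d π w i = mv π (X.p i d).1 (w i) := rfl
@[simp] lemma sm_one (w : Wt m p) : sm X 1 1 w = w := by funext i; simp [sm_app]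
lemma sm_mul (d d' : D) (π π' : Perm (Fin 3)) (w : Wt m p) :
    sm X d π (sm X d' π' w) = sm X (d * d') (π * π') w := by
  funext i; simp [sm_app, mv_mul]

instance : Mul (PA X p) := ⟨fun x y => ⟨x.w + sm X x.d x.π y.w, x.d * y.d, x.π * y.π⟩⟩
instance : One (PA X p) := ⟨⟨0, 1, 1⟩⟩
instance : Inv (PA X p) := ⟨fun x => ⟨-sm X x.d⁻¹ x.π⁻¹ x.w, x.d⁻¹, x.π⁻¹⟩⟩

variable {X}
@[simp] lemma mul_w (x y : PA X p) : (x * y).w = x.w + sm X x.d x.π y.w := rfl
@[simp] lemma mul_d (x y : PA X p) : (x * y).d = x.d * y.d := rfl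
@[simp] lemma mul_pi (x y : PA X p) : (x * y).π = x.π * y.π := rfl
@[simp] lemma one_w : (1 : PA X p).w = 0 := rfl
@[simp] lemma one_d : (1 : PA X p).d = 1 := rfl
@[simp] lemma one_pi : (1 : PA X p).π = 1 := rfl
@[simp] lemma inv_w (x : PA X p) : x⁻¹.w = -sm X x.d⁻¹ x.π⁻¹ x.w := rfl
@[simp] lemma inv_d (x : PA X p) : x⁻¹.d = x.d⁻¹ := rfl
@[simp] lemma inv_pi (x : PA X p) : x⁻¹.π = x.π⁻¹ := rfl

instance : Group (PA X p) := Group.ofLeftAxioms
  (fun a b c => by ext1 <;> simp [sm_mul, add_assoc, mul_assoc])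
  (fun a => by ext1 <;> simp) (fun a => by ext1 <;> simp)

variable (X) (h5 : ∀ i, 5 ≤ m i)

def vv : Wt m p := fun i => dd 0 1 (Fin.castLE (h5 i) 0) (Fin.castLE (h5 i) 1)

variable (p) in
def MM : AddSubgroup (Wt m p) :=
  AddSubgroup.closure (Set.range (fun g : D × Perm (Fin 3) => sm X g.1 g.2 (vv h5)))

variable {X h5}

lemma MM_le {U : AddSubgroup (Wt m p)} (h : ∀ d π, sm X d π (vv h5) ∈ U) : MM p X h5 ≤ U := by
  rw [MM, AddSubgroup.closure_le]; rintro _ ⟨g, rfl⟩; exact h _ _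

lemma sm_v (d : D) (π : Perm (Fin 3)) : sm X d π (vv h5) ∈ MM p X h5 :=
  AddSubgroup.subset_closure ⟨(d, π), rfl⟩

lemma sm_MM (d : D) (π : Perm (Fin 3)) {w : Wt m p} (h : w ∈ MM p X h5) :
    sm X d π w ∈ MM p X h5 :=
  AddSubgroup.mem_comap.mp (MM_le (U := (MM p X h5).comap (sm X d π)) (fun d' π' => by
    rw [AddSubgroup.mem_comap, sm_mul]; exact sm_v _ _) h)

lemma MM_DZ {w : Wt m p} (h : w ∈ MM p X h5) (i : ℕ) : w i ∈ DZ (m i) (p i) :=
  MM_le (U := (DZ (m i) (p i)).comap (Pi.evalAddMonoidHom _ i))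
    (fun _ _ => mv_DZ _ _ (dd_DZ _ _ _ _)) h

def sgl (i : ℕ) : Loc (m i) (p i) →+ Wt m p := AddMonoidHom.single (fun i => Loc (m i) (p i)) i

@[simp] lemma sgl_same (i : ℕ) (u : Loc (m i) (p i)) : sgl i u i = u := by simp [sgl]
lemma sgl_ne {i l : ℕ} (h : l ≠ i) (u : Loc (m i) (p i)) : sgl i u l = 0 := by simp [sgl, h]

lemma sm_single (d : D) (π : Perm (Fin 3)) (i : ℕ) (u : Loc (m i) (p i)) :
    sm X d π (sgl i u) = sgl i (mv π (X.p i d).1 u) := by
  funext l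
  by_cases c : l = i
  · subst c; simp [sm_app]
  · simp [sm_app, sgl_ne c]

lemma sub_sm (i : ℕ) (a : Alt (m i)) (w : Wt m p) :
    w - sm X (X.ι i a) 1 w = sgl i (w i - mv 1 a.1 (w i)) := by
  funext l
  by_cases c : l = i
  · subst c; simp [sm_app, X.pι]
  · simp [sm_app, sgl_ne c, X.pι' i l a c]

structure Prm (m p : ℕ → ℕ) : Prop where
  pr : ∀ i, (p i).Prime
  h7 : ∀ i, 7 ≤ m i
  lt : ∀ i, m i < p i

lemma irr' (R : Prm m p) {U : AddSubgroup (Wt m p)} (hU : ∀ d π, ∀ w ∈ U, sm X d π w ∈ U) {i : ℕ}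
    {u : Loc (m i) (p i)} (hu : sgl i u ∈ U) (h0 : u ≠ 0) (hz : u ∈ DZ (m i) (p i)) :
    (∀ j k x y, sgl i (dd j k x y) ∈ U) ∧ ∀ w ∈ MM p X h5, sgl i (w i) ∈ U := by
  have k := irr (R.pr i) (R.h7 i) (R.lt i) (U.comap (sgl i)) (by
    intro π a ha u hu
    have := hU (X.ι i ⟨a, ha⟩) π _ hu
    rwa [sm_single, X.pι] at this) hu h0 hz
  refine ⟨k, fun w hw => AddSubgroup.mem_comap.mp (MM_le (U := U.comap ((sgl i).comp
    (Pi.evalAddMonoidHom _ i))) (fun d π => ?_) hw)⟩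
  have := k (π 0) (π 1) ((X.p i d).1 (Fin.castLE (h5 i) 0)) ((X.p i d).1 (Fin.castLE (h5 i) 1))
  rwa [← mv_dd] at this

lemma irr2 (R : Prm m p) {U : AddSubgroup (Wt m p)} (hU : ∀ d π, ∀ w ∈ U, sm X d π w ∈ U) {i : ℕ}
    {w : Wt m p} (hw : w ∈ MM p X h5) (h0 : w i ≠ 0) (h : ∀ a, w - sm X (X.ι i a) 1 w ∈ U) :
    (∀ j k x y, sgl i (dd j k x y) ∈ U) ∧ ∀ w ∈ MM p X h5, sgl i (w i) ∈ U := by
  obtain ⟨j, x, y, s, t, h1, h2, h3⟩ := step1 (R.pr i) (R.h7 i) (R.lt i) h0 (MM_DZ hw i)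
  have := h ⟨_, ss_mem h1 h2⟩
  rw [sub_sm] at this
  exact irr' R hU this (fun e => h3 (congrFun e _))
    ((DZ _ _).sub_mem (MM_DZ hw i) (mv_DZ _ _ (MM_DZ hw i)))

lemma vv_ne (i : ℕ) : (vv h5 : Wt m p) i (0, Fin.castLE (h5 i) 0) = 1 := by
  simp [vv, dd]

lemma v_mem : vv h5 ∈ MM p X h5 := by simpa using sm_v (X := X) (h5 := h5) (p := p) 1 1

lemma single_MM (R : Prm m p) (i : ℕ) : (∀ j k x y, sgl i (dd j k x y) ∈ MM p X h5) ∧
    ∀ w ∈ MM p X h5, sgl i (w i) ∈ MM p X h5 := by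
  have := Fact.mk (R.pr i)
  exact irr2 R (fun d π w => sm_MM d π) v_mem (fun e => by
    have := vv_ne (h5 := h5) (p := p) i
    rw [e] at this; simp at this) (fun a => AddSubgroup.sub_mem _ v_mem (sm_v _ _))

def tl (I : ℕ) : Wt m p →+ Wt m p where
  toFun w := fun i => if i < I then 0 else w i
  map_zero' := by funext i; simp
  map_add' _ _ := by funext i; by_cases c : i < I <;> simp [c]

lemma tl_app (I : ℕ) (w : Wt m p) (i : ℕ) : tl I w i = if i < I then 0 else w i := rfl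

lemma tl_sub {U : AddSubgroup (Wt m p)} {w : Wt m p} (I : ℕ)
    (h : ∀ i < I, sgl i (w i) ∈ U) : w - tl I w ∈ U := by
  induction I with
  | zero =>
    have : w - tl 0 w = 0 := by funext i; simp [tl_app]
    rw [this]; exact U.zero_mem
  | succ I ih =>
    convert U.add_mem (ih (fun i hi => h i (by omega))) (h I (by omega)) using 1
    funext i
    by_cases c : i = I
    · subst c; simp [tl_app]
    · have : i < I + 1 ↔ i < I := by omega
      simp [tl_app, sgl_ne c, this]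

lemma head (H : Subgroup D) (g : D) (I : ℕ) (h : ∀ i < I, X.ι i (X.p i g) ∈ H) :
    ∃ k ∈ H, ∀ i, X.p i k = if i < I then X.p i g else 1 := by
  induction I with
  | zero => exact ⟨1, H.one_mem, by simp⟩
  | succ I ih =>
    obtain ⟨k, hk, e⟩ := ih (fun i hi => h i (by omega))
    refine ⟨k * X.ι I (X.p I g), H.mul_mem hk (h I (by omega)), fun i => ?_⟩
    by_cases c : i = I
    · subst c; simp [e, X.pι]
    · have : i < I + 1 ↔ i < I := by omega
      simp [e, X.pι' I i _ c, this]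

def Uw (N : Subgroup (PA X p)) : AddSubgroup (Wt m p) where
  carrier := {w | (⟨w, 1, 1⟩ : PA X p) ∈ N}
  zero_mem' := N.one_mem
  add_mem' := fun ha hb => by
    show _ ∈ N
    convert N.mul_mem ha hb using 1; ext1 <;> simp
  neg_mem' := fun ha => by
    show _ ∈ N
    convert N.inv_mem ha using 1; ext1 <;> simp

variable (X p) in
def jd : D →* PA X p where
  toFun d := ⟨0, d, 1⟩
  map_one' := rfl
  map_mul' _ _ := by ext1 <;> simp

lemma upper (R : Prm m p) (Y : Sys2 X h5) (I : ℕ) (N : Subgroup (PA X p))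
    (hle : ∀ x ∈ N, x.w ∈ MM p X h5 ∧ x.π = 1)
    (hn : ∀ x : PA X p, x.w ∈ MM p X h5 → ∀ n ∈ N, x * n * x⁻¹ ∈ N)
    (hK : ∀ d, (∀ i < I, X.p i d = 1) → jd p X d ∈ N) (x : PA X p) :
    x ∈ N ↔ (x.w ∈ MM p X h5 ∧ x.π = 1) ∧ ∀ i < I,
      (x.w i = 0 ∨ ∀ w ∈ MM p X h5, sgl i (w i) ∈ Uw N) ∧
      (X.p i x.d = 1 ∨ ∀ a, jd p X (X.ι i a) ∈ N) := by
  have hU : ∀ d π, ∀ w ∈ Uw N, sm X d π w ∈ Uw N := by
    intro d π w hw
    have := hn ⟨0, d, π⟩ (AddSubgroup.zero_mem _) _ hw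
    show _ ∈ N
    convert this using 1; ext1 <;> simp
  have hc : ∀ n ∈ N, ∀ u ∈ MM p X h5, u - sm X n.d 1 u ∈ Uw N := by
    intro n h u hu
    have := N.mul_mem (hn ⟨u, 1, 1⟩ hu n h) (N.inv_mem h)
    show _ ∈ N
    convert this using 1; ext1 <;> simp [(hle n h).2, sm_mul]; abel
  constructor
  · intro hx
    refine ⟨hle x hx, fun i hi => ?_⟩
    have k1 : X.p i x.d ≠ 1 → ∀ w ∈ MM p X h5, sgl i (w i) ∈ Uw N := by
      intro h
      obtain ⟨y, z, e⟩ := mv_ne (R.pr i) (R.h7 i) (a := (X.p i x.d).1) (fun e => h (Subtype.ext e))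
      have := hc x hx _ ((single_MM R i).1 0 1 y z)
      rw [sm_single, mv_dd, ← map_sub] at this
      exact (irr' R hU this (sub_ne_zero.mpr e.symm)
        ((DZ _ _).sub_mem (dd_DZ _ _ _ _) (dd_DZ _ _ _ _))).2
    have k2 : ∀ a, x * (jd p X (X.ι i a) * x⁻¹ * (jd p X (X.ι i a))⁻¹) ∈ N := fun a =>
      N.mul_mem hx (hn _ (AddSubgroup.zero_mem _) _ (N.inv_mem hx))
    have k3 : ∀ a, x.d * X.ι i a * x.d⁻¹ = X.ι i (X.p i x.d * a * (X.p i x.d)⁻¹) := by
      intro a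
      rw [← mul_inv_eq_one]
      apply Y.faith
      intro l
      by_cases c : l = i
      · subst c; simp [X.pι, mul_assoc]
      · simp [X.pι' i l _ c]
    have k4 : ∀ a, x * (jd p X (X.ι i a) * x⁻¹ * (jd p X (X.ι i a))⁻¹) =
        ⟨x.w - sm X (X.ι i (X.p i x.d * a * (X.p i x.d)⁻¹)) 1 x.w, 1, 1⟩ *
          jd p X (X.ι i (X.p i x.d * a * (X.p i x.d)⁻¹ * a⁻¹)) := by
      intro a
      rw [map_mul (X.ι i) _ a⁻¹, ← k3]
      ext1 <;> simp [jd, (hle x hx).2, sm_mul, mul_assoc, sub_eq_add_neg]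
    by_cases c : X.p i x.d = 1
    · refine ⟨?_, Or.inl c⟩
      by_cases c2 : x.w i = 0
      · exact Or.inl c2
      refine Or.inr (irr2 R hU (hle x hx).1 c2 (fun a => ?_)).2
      have := k2 a
      rw [k4, c] at this
      show _ ∈ N
      simpa using this
    · refine ⟨Or.inr (k1 c), Or.inr ?_⟩
      have := alternatingGroup.isSimpleGroup (α := Fin (m i)) (by simpa using h5 i)
      have nn : (N.comap ((jd p X).comp (X.ι i))).Normal := ⟨fun a ha b => by
        rw [Subgroup.mem_comap, map_mul, map_mul, map_inv]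
        exact hn _ (AddSubgroup.zero_mem _) _ ha⟩
      rcases IsSimpleGroup.eq_bot_or_eq_top_of_normal _ nn with h | h
      · exfalso
        apply c
        rw [← Subgroup.mem_bot, ← alternatingGroup.center_eq_bot (α := Fin (m i))
          (by have := h5 i; simp; omega), Subgroup.mem_center_iff]
        intro a
        have := k2 a
        rw [k4, N.mul_mem_cancel_left] at this
        · have : X.p i x.d * a * (X.p i x.d)⁻¹ * a⁻¹ ∈ (⊥ : Subgroup _) := h ▸ this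
          rw [Subgroup.mem_bot, mul_inv_eq_one, mul_inv_eq_iff_eq_mul] at this
          exact this.symm
        · have := k1 c _ (AddSubgroup.sub_mem _ (hle x hx).1
            (sm_MM (X.ι i (X.p i x.d * a * (X.p i x.d)⁻¹)) 1 (hle x hx).1))
          rw [sub_sm, sgl_same, ← sub_sm (X := X)] at this
          exact this
      · intro a
        show a ∈ N.comap ((jd p X).comp (X.ι i))
        rw [h]; trivial
  · rintro ⟨⟨h1, h2⟩, h3⟩
    have tM : ∀ w ∈ MM p X h5, tl I w ∈ MM p X h5 := fun w hw => by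
      simpa using AddSubgroup.sub_mem _ hw (tl_sub (w := w) I (fun i _ => (single_MM (X := X) R i).2 w hw))
    have t1 : ∀ σ : Alt 5, tl I (vv h5 - sm X (Y.δ σ) 1 (vv h5)) ∈ Uw N := by
      intro σ
      obtain ⟨k, -, e⟩ := head (X := X) ⊤ (Y.δ σ) I (fun _ _ => trivial)
      have := hc _ (hK (k⁻¹ * Y.δ σ) (fun i hi => by simp [e, hi])) _ (tM _ v_mem)
      convert this using 1
      funext i
      by_cases c : i < I <;> simp [tl_app, sm_app, c, jd, e]
    have t2 : ∀ (σ : Alt 5) i, sm X (Y.δ σ) 1 (vv h5 : Wt m p) i =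
        dd 0 1 (Fin.castLE (h5 i) (σ.1 0)) (Fin.castLE (h5 i) (σ.1 1)) := by
      intro σ i; simp [sm_app, vv, mv_dd, Y.hδ]
    have t3 : tl I (vv h5) ∈ Uw N := by
      have a := t1 ⟨swap 0 1 * swap 2 3, ss_mem (by decide) (by decide)⟩
      have b := t1 ⟨swap 0 1 * swap 1 2, ss_mem (by decide) (by decide)⟩
      have c := t1 ⟨swap 1 2 * swap 0 1, ss_mem (by decide) (by decide)⟩
      have := AddSubgroup.sub_mem _ (AddSubgroup.add_mem _ b c) a
      rw [← map_add, ← map_sub] at this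
      convert this using 2
      funext i ω
      simp only [Pi.sub_apply, Pi.add_apply, t2, vv, dd]
      rw [show (swap 0 1 * swap 2 3 : Perm (Fin 5)) 0 = 1 by decide,
        show (swap 0 1 * swap 2 3 : Perm (Fin 5)) 1 = 0 by decide,
        show (swap 0 1 * swap 1 2 : Perm (Fin 5)) 0 = 1 by decide,
        show (swap 0 1 * swap 1 2 : Perm (Fin 5)) 1 = 2 by decide,
        show (swap 1 2 * swap 0 1 : Perm (Fin 5)) 0 = 2 by decide,
        show (swap 1 2 * swap 0 1 : Perm (Fin 5)) 1 = 0 by decide]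
      ring
    have t4 : tl I x.w ∈ Uw N := AddSubgroup.mem_comap.mp <| MM_le (U := (Uw N).comap (tl I)) (fun d π => by
      have := hU d π _ t3
      rw [AddSubgroup.mem_comap]
      convert this using 1
      funext i
      by_cases c : i < I <;> simp [tl_app, sm_app, c]) h1
    have t5 : x.w ∈ Uw N := by
      simpa using AddSubgroup.add_mem _ (tl_sub (U := Uw N) (w := x.w) I (fun i hi => by
        rcases (h3 i hi).1 with h | h
        · rw [h, map_zero]; exact AddSubgroup.zero_mem _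
        · exact h _ h1)) t4
    obtain ⟨k, hk, e⟩ := head (X := X) (N.comap (jd p X)) x.d I (fun i hi => by
      rcases (h3 i hi).2 with h | h
      · rw [h, map_one]; exact Subgroup.one_mem _
      · exact h _)
    have := N.mul_mem t5 (N.mul_mem hk (hK (k⁻¹ * x.d) (fun i hi => by simp [e, hi])))
    convert this using 1
    ext1 <;> simp [jd, h2]

end glob

end Pool.Agent.H73.CN
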