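import Pool.Agent.H73.SG8

set_option autoImplicit false

namespace Pool.Agent.H73.SG

open Equiv Equiv.Perm Finset Monoid

section grp
variable {D : Type} [Group D] (C : Subgroup D)

abbrev FF (D : Type) [Group D] := Coprod D (FreeGroup (Option (Fin 5)))

def Adm {Y : Type} (ψ : FF D →* Perm Y) : Prop :=
  ∀ k : Fin 5, ∀ c ∈ C, ψ (Coprod.inr (FreeGroup.of (some k))) * ψ (Coprod.inl c) =
    ψ (Coprod.inl c) * ψ (Coprod.inr (FreeGroup.of (some k)))

def KK : Subgroup (FF D) := ⨅ n : ℕ, ⨅ ψ : {ψ : FF D →* Perm (Fin n) // Adm C ψ}, ψ.1.ker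

instance : (KK C).Normal :=
  Subgroup.normal_iInf_normal (fun _ => Subgroup.normal_iInf_normal (fun _ => inferInstance))

abbrev GG := FF D ⧸ KK C

lemma mem_KK {f : FF D} : f ∈ KK C ↔ ∀ n, ∀ ψ : FF D →* Perm (Fin n), Adm C ψ → ψ f = 1 := by
  simp [KK, Subgroup.mem_iInf]

lemma K_le {Y : Type} [Finite Y] (ψ : FF D →* Perm Y) (h : Adm C ψ) : KK C ≤ ψ.ker := by
  intro f hf
  obtain ⟨n, ⟨e⟩⟩ := Finite.exists_equiv_fin Y
  have := (mem_KK C).mp hf n (e.permCongrHom.toMonoidHom.comp ψ) (by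
    intro k c hc
    have := congrArg e.permCongrHom (h k c hc)
    rw [map_mul, map_mul] at this
    exact this)
  exact e.permCongrHom.map_eq_one_iff.mp this

lemma GG_fg [h : Group.FG D] : Group.FG (GG C) := by
  have : Group.FG (FF D) := by
    rw [Group.fg_def, ← Coprod.range_inl_sup_range_inr]
    exact Subgroup.FG.sup ((Group.fg_iff_subgroup_fg _).mp inferInstance)
      ((Group.fg_iff_subgroup_fg _).mp inferInstance)
  infer_instance

lemma GG_rf (g : GG C) (hg : g ≠ 1) : ∃ H : Subgroup (GG C), H.FiniteIndex ∧ g ∉ H := by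
  induction g using QuotientGroup.induction_on with
  | H f =>
    rw [ne_eq, QuotientGroup.eq_one_iff, mem_KK] at hg
    push Not at hg
    obtain ⟨n, ψ, h1, h2⟩ := hg
    exact ⟨(QuotientGroup.lift (KK C) ψ (K_le C ψ h1)).ker, inferInstance, h2⟩

lemma adm_of {Y : Type} (χ : GG C →* Perm Y) : Adm C (χ.comp (QuotientGroup.mk' (KK C))) := by
  intro k c hc
  rw [← map_mul, ← map_mul, MonoidHom.comp_apply, MonoidHom.comp_apply]
  congr 1
  simp only [QuotientGroup.mk'_apply]
  rw [QuotientGroup.eq, mem_KK]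
  intro n ψ h
  rw [map_mul, map_inv, map_mul, map_mul, h k c hc, inv_mul_cancel]

lemma hom_up [Group.FG D] {n : ℕ} {N B : ℝ} (hN : (n : ℝ) ≤ N) (hN1 : 1 ≤ N)
    (hW : ∀ Φ : Finset (D →* Perm (Fin n)),
      ∑ φ ∈ Φ, N ^ (5 * cnum C φ ((univ : Finset (Fin n)) : Set (Fin n)) : ℝ) ≤ B) :
    (Nat.card (GG C →* Perm (Fin n)) : ℝ) ≤ n.factorial * B := by
  have := fin_hom D (Perm (Fin n))
  have := Fintype.ofFinite (D →* Perm (Fin n))
  let β : (D →* Perm (Fin n)) → Type := fun φ =>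
    (Fin 5 → {τ : Perm (Fin n) // ∀ u ∈ φ '' (C : Set D), τ * u = u * τ}) × Perm (Fin n)
  have h1 := Nat.card_le_card_of_injective (β := Sigma β) (fun χ : GG C →* Perm (Fin n) =>
    ⟨(χ.comp (QuotientGroup.mk' (KK C))).comp Coprod.inl,
      fun k => ⟨χ.comp (QuotientGroup.mk' (KK C)) (Coprod.inr (FreeGroup.of (some k))), by
        rintro _ ⟨c, hc, rfl⟩; exact adm_of C χ k c hc⟩,
      χ.comp (QuotientGroup.mk' (KK C)) (Coprod.inr (FreeGroup.of none))⟩) (by
      intro χ χ' e
      have e1 := congrArg (fun z : Sigma β => z.1) e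
      have e2 := congrArg (fun z : Sigma β => fun k => (z.2.1 k).1) e
      have e3 := congrArg (fun z : Sigma β => z.2.2) e
      apply QuotientGroup.monoidHom_ext
      refine Coprod.hom_ext e1 (FreeGroup.ext_hom _ _ ?_)
      rintro (_ | k)
      · exact e3
      · exact congrFun e2 k)
  rw [Nat.card_sigma] at h1
  calc _ ≤ ((∑ φ, Nat.card (β φ) : ℕ) : ℝ) := by exact_mod_cast h1
    _ ≤ ∑ φ : D →* Perm (Fin n), (n.factorial : ℝ) *
        N ^ (5 * cnum C φ ((univ : Finset (Fin n)) : Set (Fin n)) : ℝ) := by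
      push_cast
      apply Finset.sum_le_sum
      intro φ _
      obtain ⟨R, e, hR⟩ := cnum_spec C φ ((univ : Finset (Fin n)) : Set (Fin n))
      have := L3 (φ '' (C : Set D)) R (fun x => by
        obtain ⟨y, hy, c, hc, e⟩ := hR x (by simp)
        exact ⟨y, hy, _, ⟨c, hc, rfl⟩, e⟩)
      rw [Fintype.card_fin, e] at this
      simp only [β]
      rw [Nat.card_prod, Nat.card_fun, Nat.card_perm, Nat.card_eq_fintype_card (α := Fin 5),
        Nat.card_eq_fintype_card (α := Fin n), Fintype.card_fin, Fintype.card_fin, mul_comm]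
      push_cast
      gcongr
      calc _ ≤ (((n ^ cnum C φ ((univ : Finset (Fin n)) : Set (Fin n))) ^ 5 : ℕ) : ℝ) := by
            exact_mod_cast Nat.pow_le_pow_left this 5
        _ ≤ (N ^ cnum C φ ((univ : Finset (Fin n)) : Set (Fin n))) ^ 5 := by push_cast; gcongr
        _ = _ := by rw [← pow_mul, ← Real.rpow_natCast]; push_cast; rw [mul_comm]
    _ ≤ _ := by rw [← Finset.mul_sum]; gcongr; exact hW _

end grp

lemma sfin (G : Type) [Group G] [Group.FG G] (n : ℕ) :
    {H : Subgroup G | H.index ≠ 0 ∧ H.index ≤ n}.Finite := by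
  refine ((Set.finite_Icc 1 n).biUnion (t := fun j => {H : Subgroup G | H.index = j}) ?_).subset ?_
  · intro j hj
    have := fin_hom G (Perm (Fin j))
    exact (L1 G (j := j) hj.1).1
  · intro H hH
    simp only [Set.mem_iUnion]
    exact ⟨H.index, ⟨Nat.one_le_iff_ne_zero.mpr hH.1, hH.2⟩, rfl⟩

lemma s_up (G : Type) [Group G] [Group.FG G] (n : ℕ) {B : ℝ} (hB : 0 ≤ B)
    (h : ∀ j ≤ n, (Nat.card (G →* Perm (Fin j)) : ℝ) ≤ j.factorial * B) :
    (Set.ncard {H : Subgroup G | H.index ≠ 0 ∧ H.index ≤ n} : ℝ) ≤ n * (n * B) := by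
  classical
  rw [Set.ncard_eq_toFinset_card _ (sfin G n),
    Finset.card_eq_sum_card_fiberwise (f := Subgroup.index) (t := Icc 1 n) (fun H hH => by
      simpa [Nat.one_le_iff_ne_zero] using hH)]
  push_cast
  refine le_trans (Finset.sum_le_card_nsmul _ _ (n * B) ?_) (by simp)
  intro j hj
  rw [mem_Icc] at hj
  have := fin_hom G (Perm (Fin j))
  obtain ⟨f, h1⟩ := L1 G (j := j) hj.1
  have h2 := card_le_sub (p := fun H : Subgroup G => H.index = j)
    ((sfin G n).toFinset.filter (fun H => H.index = j)) (fun H hH => (mem_filter.mp hH).2)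
  have h3 : (0 : ℝ) < j.factorial := by exact_mod_cast Nat.factorial_pos j
  have h4 : (j : ℝ) ≤ n := by exact_mod_cast hj.2
  apply le_of_mul_le_mul_right _ h3
  calc _ ≤ ((Nat.card (G →* Perm (Fin j)) * j : ℕ) : ℝ) := by
        exact_mod_cast (Nat.mul_le_mul_right _ h2).trans h1
    _ ≤ j.factorial * B * n := by push_cast; gcongr; exact h j hj.2
    _ = _ := by ring

lemma conj_ex {Γ Y : Type} [Group Γ] [Finite Y] (φ ψ : Γ →* Perm Y) (y : Y)
    (h1 : ∀ x, ∃ g, φ g y = x) (h2 : ∀ x, ∃ g, ψ g y = x) (h : stab φ y = stab ψ y) :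
    ∃ τ : Perm Y, ∀ g, τ * φ g = ψ g * τ := by
  choose u hu using h1
  have key : ∀ g g', φ g y = φ g' y → ψ g y = ψ g' y := by
    intro g g' e
    have : g⁻¹ * g' ∈ stab φ y := by rw [mem_stab, map_mul, Perm.mul_apply, ← e]; simp
    rw [h, mem_stab, map_mul, Perm.mul_apply, map_inv, Perm.inv_eq_iff_eq] at this
    exact this.symm
  refine ⟨Equiv.ofBijective (fun x => ψ (u x) y) (Finite.surjective_iff_bijective.mp ?_), ?_⟩
  · intro x
    obtain ⟨g, rfl⟩ := h2 x
    exact ⟨φ g y, key _ _ (hu _)⟩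
  · intro g; ext x
    simp only [Perm.mul_apply, Equiv.ofBijective_apply]
    rw [← Perm.mul_apply (ψ g), ← map_mul]
    apply key
    rw [hu, map_mul, Perm.mul_apply, hu]

lemma low_gen {D : Type} [Group D] [Group.FG D] (C : Subgroup D) {Y : Type} [Fintype Y]
    [DecidableEq Y] (y0 : Y) (φ : D →* Perm Y) (A : Finset Y) (hA : ∀ c ∈ C, ∀ y ∈ A, φ c y = y)
    (R : Finset Y) (hR : ∀ x, ∃ y ∈ R, ∃ g, φ g y = x) {n : ℕ} (hn : Fintype.card Y ≤ n) :
    A.card.factorial ^ 5 * (Fintype.card Y).factorial ≤ Fintype.card Y ^ (R.card + 1) *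
      Set.ncard {H : Subgroup (GG C) | H.index ≠ 0 ∧ H.index ≤ n} := by
  classical
  have := GG_fg C
  obtain ⟨c, hc, -⟩ := Finset.exists_cycleOn (univ : Finset Y)
  have hc2 : ∀ x y, ∃ k : ℤ, (c ^ k) x = y := fun x y => hc.2 (by simp) (by simp)
  let ψ : (Fin 5 → Perm A) × Perm Y → FF D →* Perm Y := fun x => Coprod.lift φ (FreeGroup.lift
    (fun o => o.elim (x.2 * c * x.2⁻¹) (fun k => Perm.ofSubtype (x.1 k))))
  have p1 : ∀ x g, ψ x (Coprod.inl g) = φ g := fun x g => rfl
  have p2 : ∀ x k, ψ x (Coprod.inr (FreeGroup.of (some k))) = Perm.ofSubtype (x.1 k) := by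
    intro x k; simp [ψ]
  have p3 : ∀ x, ψ x (Coprod.inr (FreeGroup.of none)) = x.2 * c * x.2⁻¹ := by
    intro x; simp [ψ]
  have ha : ∀ x, Adm C (ψ x) := by
    intro x k d hd
    rw [p1, p2]
    apply Equiv.Perm.Disjoint.commute
    intro y
    by_cases h : y ∈ A
    · exact Or.inr (hA d hd y h)
    · exact Or.inl (Perm.ofSubtype_apply_of_not_mem _ h)
  let χ : (Fin 5 → Perm A) × Perm Y → GG C →* Perm Y := fun x =>
    QuotientGroup.lift (KK C) (ψ x) (K_le C _ (ha x))
  have tr : ∀ x y, ∃ g, χ x g y0 = y := by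
    intro x y
    obtain ⟨k, hk⟩ := hc2 (x.2⁻¹ y0) (x.2⁻¹ y)
    refine ⟨((Coprod.inr (FreeGroup.of none) : FF D) : GG C) ^ k, ?_⟩
    rw [map_zpow]
    show (ψ x (Coprod.inr (FreeGroup.of none)) ^ k) y0 = y
    rw [p3, conj_zpow, Perm.mul_apply, Perm.mul_apply, hk]; simp
  have h1 := Finset.card_le_mul_card_image (f := fun x => stab (χ x) y0) univ
    (Fintype.card Y ^ (R.card + 1)) (by
      intro H hH
      obtain ⟨x0, -, rfl⟩ := mem_image.mp hH
      have ex : ∀ x : (univ.filter (fun x => stab (χ x) y0 = stab (χ x0) y0)),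
          ∃ τ : Perm Y, ∀ g, τ * χ x0 g = χ x g * τ := fun x =>
        conj_ex _ _ y0 (tr x0) (tr x) (mem_filter.mp x.2).2.symm
      choose τ hτ using ex
      have hτ' : ∀ x f, τ x * ψ x0 f = ψ x f * τ x := fun x f => hτ x (f : GG C)
      have a := L3 (Set.range φ) R (fun x => by
        obtain ⟨y, hy, g, e⟩ := hR x
        exact ⟨y, hy, _, ⟨g, rfl⟩, e⟩)
      have b := L3 (Subgroup.zpowers c : Set (Perm Y)) {y0} (fun x => by
        obtain ⟨k, e⟩ := hc2 y0 x
        exact ⟨y0, by simp, _, ⟨k, rfl⟩, e⟩)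
      have := Nat.card_le_card_of_injective
        (β := {τ : Perm Y // ∀ u ∈ Set.range φ, τ * u = u * τ} ×
          {τ : Perm Y // ∀ u ∈ (Subgroup.zpowers c : Set (Perm Y)), τ * u = u * τ})
        (fun x : (univ.filter (fun x => stab (χ x) y0 = stab (χ x0) y0)) =>
          (⟨τ x, by rintro _ ⟨g, rfl⟩; exact hτ' x (Coprod.inl g)⟩, ⟨x.1.2⁻¹ * τ x * x0.2, by
            rintro _ ⟨k, rfl⟩
            apply Commute.zpow_right
            have := hτ' x (Coprod.inr (FreeGroup.of none))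
            rw [p3, p3] at this
            show _ * c = c * _
            calc _ = x.1.2⁻¹ * (τ x * (x0.2 * c * x0.2⁻¹)) * x0.2 := by group
              _ = _ := by rw [this]; group⟩)) (by
          intro x x' e
          simp only [Prod.mk.injEq, Subtype.mk.injEq] at e
          apply Subtype.ext
          refine Prod.ext ?_ ?_
          · funext k
            have a := hτ' x (Coprod.inr (FreeGroup.of (some k)))
            have b := hτ' x' (Coprod.inr (FreeGroup.of (some k)))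
            rw [p2, p2] at a b
            rw [e.1, b] at a
            exact (Perm.ofSubtype_injective (mul_right_cancel a)).symm
          · have := e.2
            rw [e.1] at this
            simpa using this)
      rw [Nat.card_prod, Nat.card_eq_fintype_card, Fintype.card_coe] at this
      refine this.trans ((Nat.mul_le_mul a b).trans (by simp [pow_succ])))
  have h2 : (univ.image (fun x => stab (χ x) y0)).card ≤
      Set.ncard {H : Subgroup (GG C) | H.index ≠ 0 ∧ H.index ≤ n} := by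
    rw [← Set.ncard_coe_finset]
    refine Set.ncard_le_ncard ?_ (sfin _ n)
    intro H hH
    obtain ⟨x, -, rfl⟩ := mem_image.mp (mem_coe.mp hH)
    rw [Set.mem_setOf_eq, index_stab]
    exact ⟨(card_pos.mpr ⟨_, self_orb _ _⟩).ne', (card_le_univ _).trans hn⟩
  refine le_trans ?_ (h1.trans (Nat.mul_le_mul_left _ h2))
  simp [Fintype.card_perm]

def prodH (a b : ℕ) : Perm (Fin a) →* Perm (Fin a × Fin b) where
  toFun σ := Equiv.prodCongr σ (Equiv.refl _)
  map_one' := by ext x <;> rfl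
  map_mul' f g := by ext x <;> rfl

lemma low {D : Type} [Group D] [Group.FG D] {m : ℕ → ℕ} (X : Sys D m)
    (S : ∀ i, Finset (Fin (m i))) (i : ℕ) (h3 : 3 ≤ m i) {q n : ℕ} (hq : 1 ≤ q)
    (hn : m i * q ≤ n) :
    ((m i - (S i).card) * q).factorial ^ 5 * (m i * q).factorial ≤ (m i * q) ^ (q + 1) *
      Set.ncard {H : Subgroup (GG (CC X S)) | H.index ≠ 0 ∧ H.index ≤ n} := by
  let φ : D →* Perm (Fin (m i) × Fin q) := (prodH _ _).comp ((Alt (m i)).subtype.comp (X.p i))
  have hφ : ∀ g y, φ g y = ((X.p i g).1 y.1, y.2) := fun g y => rfl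
  let z : Fin (m i) := ⟨0, by omega⟩
  have := low_gen (CC X S) (z, (⟨0, hq⟩ : Fin q)) φ ((S i)ᶜ ×ˢ univ) (by
      intro c hc y hy
      have hy' : y.1 ∉ S i := by simpa using hy
      have : CC X S ≤ stab φ y := by
        refine iSup_le (fun l => ?_)
        rintro _ ⟨a, rfl⟩
        rw [mem_stab, hφ, MonoidHom.comp_apply]
        by_cases c : i = l
        · subst c
          rw [X.pι, alternatingGroup.coe_ofSubtype, Perm.ofSubtype_apply_of_not_mem _ hy']
        · rw [X.pι' l i _ c]; rfl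
      exact this hc) ({z} ×ˢ univ) (by
      intro x
      obtain ⟨a, ha⟩ := (alternatingGroup.isPretransitive_of_three_le_card (Fin (m i))
        (by simpa using h3)).exists_smul_eq z x.1
      refine ⟨(z, x.2), by simp, X.ι i a, ?_⟩
      rw [hφ, X.pι]
      exact Prod.ext ha rfl) (n := n) (by simpa using hn)
  simpa [card_compl] using this

end Pool.Agent.H73.SG
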