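import Pool.Agent.H73.CN5
import Pool.Agent.H73.SG9

set_option autoImplicit false

namespace Pool.Agent.H73.CN

open Equiv SG Finset Filter

lemma mkGn {P : Type} [Group P] [Nontrivial P] (A : Set P) (h1 : A.Finite) (h2 : ∀ t ∈ A, t * t = 1)
    (h3 : Subgroup.closure A = ⊤) : Nonempty (Gn P) := by
  rw [← Subgroup.closure_sdiff_one] at h3
  obtain ⟨γ, hγ⟩ := (h1.diff (t := {1})).countable.exists_eq_range (by
    rw [Set.nonempty_iff_ne_empty]
    intro e
    rw [e, Subgroup.closure_empty] at h3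
    exact bot_ne_top h3)
  have k : ∀ n, γ n ∈ A \ {1} := fun n => hγ ▸ ⟨n, rfl⟩
  exact ⟨⟨γ, fun n => h2 _ (k n).1, fun n => (k n).2, hγ ▸ h3, hγ ▸ h1.diff⟩⟩

section glob
variable {D : Type} [Group D] {m p : ℕ → ℕ} {X : Sys D m} {h5 : ∀ i, 5 ≤ m i}

lemma exE (hm : StrictMono m) (Y : Sys2 X h5) : ∃ (E : Type) (_ : Group E), Group.FG E ∧
    Infinite E ∧ NFQ E ∧ Infinite D ∧ ∃ e2 e3 : E, e2 ^ 2 = 1 ∧ e2 ≠ 1 ∧ e3 ^ 3 = 1 ∧ e3 ≠ 1 := by
  let F : Subgroup D :=
    { carrier := {g | ∀ᶠ i in atTop, X.p i g = 1}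
      one_mem' := by simp
      mul_mem' := fun ha hb => (ha.and hb).mono (fun i h => by simp [h.1, h.2])
      inv_mem' := fun ha => ha.mono (fun i h => by simp [h]) }
  have : F.Normal := ⟨fun n hn g => hn.mono (fun i h => by simp [h])⟩
  have : Group.FG D := Group.fg_iff.mpr ⟨_, Y.gen, Y.fin⟩
  have hE : NFQ (D ⧸ F) := by
    intro Z _ _ φ g
    induction g using QuotientGroup.induction_on with
    | H g =>
      obtain ⟨k, -, e⟩ := head (X := X) ⊤ g (Nat.card Z + 1) (fun _ _ => trivial)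
      have h1 := X.fac Z ((MulAction.toPermHom Z Z).comp (φ.comp (QuotientGroup.mk' F)))
        (Nat.card Z + 1) hm.le_apply (k⁻¹ * g) (fun i hi => by simp [e, hi])
      have h2 : (k : D ⧸ F) = 1 := (QuotientGroup.eq_one_iff _).mpr
        (eventually_atTop.mpr ⟨Nat.card Z + 1, fun i hi => by rw [e, if_neg (by omega)]⟩)
      simpa [h2] using congrArg (fun u : Perm Z => u 1) h1
  have ne : ∀ σ : Alt 5, σ ≠ 1 → (Y.δ σ : D ⧸ F) ≠ 1 := by
    intro σ hσ e
    obtain ⟨i, hi⟩ := ((QuotientGroup.eq_one_iff _).mp e).exists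
    apply hσ
    apply Subtype.ext; ext1 a
    have := Y.hδ i σ a
    rw [hi] at this
    exact (Fin.castLE_injective _ this).symm
  have n2 := ne ⟨swap 0 1 * swap 2 3, ss_mem (by decide) (by decide)⟩
    (fun e => absurd (congrArg Subtype.val e) (by decide))
  have inf : Infinite (D ⧸ F) := by
    by_contra c
    rw [not_infinite_iff_finite] at c
    exact n2 (hE _ (MonoidHom.id _) _)
  refine ⟨D ⧸ F, inferInstance, inferInstance, inf, hE,
    Infinite.of_surjective _ (QuotientGroup.mk'_surjective F), _, _, ?_, n2, ?_,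
    ne ⟨cyc 0 (by norm_num), cyc_mem _ _⟩ (fun e => cyc_ne _ _ (congrArg Subtype.val e))⟩
  · rw [← QuotientGroup.mk_pow, ← map_pow, show (⟨swap 0 1 * swap 2 3, ss_mem (by decide)
      (by decide)⟩ : Alt 5) ^ 2 = 1 from Subtype.ext (by decide)]; simp
  · rw [← QuotientGroup.mk_pow, ← map_pow, show (⟨cyc 0 (by norm_num), cyc_mem _ _⟩ : Alt 5) ^ 3 = 1
      from Subtype.ext (cyc_pow _ _)]; simp

variable (X p) in
def jp : Perm (Fin 3) →* PA X p where
  toFun π := ⟨0, 1, π⟩
  map_one' := rfl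
  map_mul' _ _ := by ext1 <;> simp

variable (X p) in
def jw : Multiplicative (Wt m p) →* PA X p where
  toFun w := ⟨w.toAdd, 1, 1⟩
  map_one' := rfl
  map_mul' _ _ := by ext1 <;> simp

variable (X p) in
def piH : PA X p →* Perm (Fin 3) := ⟨⟨fun x => x.π, rfl⟩, fun _ _ => rfl⟩
variable (X p) in
def dH : PA X p →* D := ⟨⟨fun x => x.d, rfl⟩, fun _ _ => rfl⟩

lemma exP (Y : Sys2 X h5) : ∃ P : Subgroup (PA X p), (∀ x, x ∈ P ↔ x.w ∈ MM p X h5) ∧
    Nonempty (Gn P) := by
  let s : Alt 5 := ⟨swap 0 1 * swap 2 3, ss_mem (by decide) (by decide)⟩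
  have hs : Y.δ s * Y.δ s = 1 := by
    rw [← map_mul, show s * s = 1 from Subtype.ext (by decide), map_one]
  let A : Set (PA X p) := jd p X '' Y.T ∪ jp p X '' {π | π.IsSwap} ∪ {⟨vv h5, Y.δ s, 1⟩}
  have a1 : ∀ d, jd p X d ∈ Subgroup.closure A := fun d => by
    apply Subgroup.closure_mono (Set.subset_union_left.trans Set.subset_union_left)
    rw [← MonoidHom.map_closure, Y.gen]; exact ⟨d, trivial, rfl⟩
  have a2 : ∀ d, jp p X d ∈ Subgroup.closure A := fun d => by
    apply Subgroup.closure_mono (Set.subset_union_right.trans Set.subset_union_left)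
    rw [← MonoidHom.map_closure, Perm.closure_isSwap]; exact ⟨d, trivial, rfl⟩
  refine ⟨Subgroup.closure A, fun x => ⟨fun hx => ?_, fun hx => ?_⟩, ?_⟩
  · induction hx using Subgroup.closure_induction with
    | mem x hx =>
      rcases hx with (⟨d, -, rfl⟩ | ⟨d, -, rfl⟩) | rfl
      · exact AddSubgroup.zero_mem _
      · exact AddSubgroup.zero_mem _
      · exact v_mem
    | one => exact AddSubgroup.zero_mem _
    | mul x y _ _ a b => exact AddSubgroup.add_mem _ a (sm_MM _ _ b)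
    | inv x _ a => exact AddSubgroup.neg_mem _ (sm_MM _ _ a)
  · have a3 : x.w ∈ Uw (Subgroup.closure A) := MM_le (fun d π => by
      have k := Subgroup.mul_mem _ (Subgroup.subset_closure (k := A) (Or.inr rfl)) (a1 (Y.δ s))
      have g := Subgroup.mul_mem _ (a1 d) (a2 π)
      have := Subgroup.mul_mem _ (Subgroup.mul_mem _ g k) (Subgroup.inv_mem _ g)
      show _ ∈ Subgroup.closure A
      convert this using 1
      ext1 <;> simp [jd, jp, hs]) hx
    convert Subgroup.mul_mem _ a3 (Subgroup.mul_mem _ (a1 x.d) (a2 x.π)) using 1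
    ext1 <;> simp [jd, jp]
  · have : Nontrivial (Subgroup.closure A) := ⟨⟨⟨_, a2 (swap 0 1)⟩, 1, fun e =>
      absurd (congrArg (fun z : Subgroup.closure A => z.1.π) e) (show swap (0 : Fin 3) 1 ≠ 1 by decide)⟩⟩
    refine mkGn _ (Set.Finite.preimage Subtype.val_injective.injOn
      (((Y.fin.image _).union (Set.toFinite _)).union (Set.finite_singleton _))) ?_
      (Subgroup.closure_preimage_eq_top A)
    rintro ⟨t, h0⟩ ht
    apply Subtype.ext
    show t * t = 1
    rcases ht with (⟨d, hd, rfl⟩ | ⟨_, ⟨a, b, -, rfl⟩, rfl⟩) | rfl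
    · rw [← map_mul, Y.sq d hd, map_one]
    · rw [← map_mul, swap_mul_self, map_one]
    · ext1
      · funext i ω
        simp only [mul_w, Pi.add_apply, sm_app, vv, mv_dd, Y.hδ, one_w, Pi.zero_apply, dd, s]
        rw [show (swap 0 1 * swap 2 3 : Perm (Fin 5)) 0 = 1 by decide,
          show (swap 0 1 * swap 2 3 : Perm (Fin 5)) 1 = 0 by decide]
        simp only [Perm.one_apply]
        ring
      · exact hs
      · simp

variable (X p) in
def kap (i : ℕ) : PA X p →* Perm (Loc (m i) (p i)) := MonoidHom.toHomPerm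
  { toFun := fun x u => x.w i + mv x.π (X.p i x.d).1 u
    map_one' := by funext u; simp; rfl
    map_mul' := fun x y => by
      funext u
      show _ = x.w i + mv x.π (X.p i x.d).1 (y.w i + mv y.π (X.p i y.d).1 u)
      simp [sm_app, mv_mul, add_assoc] }

variable (X p) in
def th (i : ℕ) : PA X p →* Perm (Loc (m i) (p i)) × Alt (m i) :=
  (kap p X i).prod ((X.p i).comp (dH p X))

lemma th_one {i : ℕ} {x : PA X p} (h : th p X i x = 1) : x.w i = 0 ∧ X.p i x.d = 1 :=
  ⟨by simpa [th, kap] using congrArg (fun z : Perm (Loc (m i) (p i)) × Alt (m i) => z.1 0) h,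
    congrArg Prod.snd h⟩

variable (X p) in
def Nl (i : ℕ) (c : ZMod (p i)) : Subgroup (PA X p) where
  carrier := {x | X.p i x.d = 1 ∧ x.π = 1 ∧ ∀ y, x.w i (0, y) = c * x.w i (1, y)}
  one_mem' := by simp
  mul_mem' := fun ha hb => ⟨by simp [ha.1, hb.1], by simp [ha.2.1, hb.2.1], fun y => by
    simp [sm_app, ha.1, ha.2.1, ha.2.2, hb.2.2, mul_add]⟩
  inv_mem' := fun ha => ⟨by simp [ha.1], by simp [ha.2.1], fun y => by
    simp [sm_app, ha.1, ha.2.1, ha.2.2]⟩

noncomputable def nb (m p : ℕ) : ℕ := Nat.card (Perm (Loc m p) × Alt m)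

theorem core (hm : StrictMono m) (R : Prm m p) (Y : Sys2 X h5) :
    ∃ (Γ : Type) (_ : Group Γ), Group.FG Γ ∧
      Finite (MulAut Γ ⧸ (MulAut.conj : Γ →* MulAut Γ).range) ∧
      (∀ i n, nb (m i) (p i) ≤ n →
        p i ≤ Set.ncard {N : Subgroup Γ | N.Normal ∧ N.index ≠ 0 ∧ N.index ≤ n}) ∧
      ∀ I n, n < m I →
        Set.ncard {N : Subgroup Γ | N.Characteristic ∧ N.index ≠ 0 ∧ N.index ≤ n} ≤ 4 ^ I := by
  have pf : ∀ i, Fact (p i).Prime := fun i => ⟨R.pr i⟩
  obtain ⟨E, _, _, _, hE, _, e2, e3, h2, h2', h3, h3'⟩ := exE hm Y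
  obtain ⟨P, hP, ⟨J⟩⟩ := exP (p := p) Y
  let G0 : Subgroup P := ((piH p X).comp P.subtype).ker
  let io : G0 →* PA X p := P.subtype.comp G0.subtype
  have ioi : Function.Injective io := P.subtype_injective.comp G0.subtype_injective
  let v : G0 := ⟨⟨jw p X (.ofAdd (vv h5)), (hP _).mpr v_mem⟩, rfl⟩
  have hv : ∀ n : ℤ, ((v.1 ^ n : P) : PA X p) = ⟨n • vv h5, 1, 1⟩ := fun n => by
    rw [Subgroup.coe_zpow]; exact (map_zpow (jw p X) _ n).symm
  obtain ⟨Γ, _, hfg, hout, π, hπ, hk, hc⟩ := asm J G0 (by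
      intro g hg
      by_contra c
      push Not at c
      apply hg
      apply ioi
      have k := fun i => th_one (c _ inferInstance inferInstance ((th p X i).comp io))
      ext1
      · funext i; exact (k i).1
      · exact Y.faith _ (fun i => (k i).2)
      · exact g.2) v (by
      intro n n' e
      have e1 := congrArg (fun z : P => z.1.w (n - n').natAbs (0, Fin.castLE (h5 _) 0)) e
      simp only [hv, Pi.smul_apply, vv_ne] at e1
      rw [zsmul_one, zsmul_one, ZMod.intCast_eq_intCast_iff_dvd_sub] at e1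
      have a := R.lt (n - n').natAbs
      have b : (n - n').natAbs ≤ m (n - n').natAbs := hm.le_apply
      have := Int.eq_zero_of_abs_lt_dvd e1 (by rw [Int.abs_eq_natAbs]; omega)
      omega) (by
      intro F hF
      obtain ⟨d, -, hd⟩ := Set.infinite_univ.exists_notMem_finite (hF.image (fun z : P => z.1.d))
      refine ⟨⟨jd p X d, (hP _).mpr (AddSubgroup.zero_mem _)⟩, fun n h => hd ⟨_, h, ?_⟩⟩
      simp only [Subgroup.coe_mul, hv]; simp [jd]) E hE h2 h2' h3 h3'
  refine ⟨Γ, inferInstance, hfg, hout, fun i n hn => ?_, fun I n hn => ?_⟩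
  · rw [← Nat.card_zmod (p i), ← Set.ncard_univ]
    refine Set.ncard_le_ncard_of_injOn (fun c => (Nl p X i c).comap (io.comp π)) ?_ ?_
      ((sfin Γ n).subset (fun N h => h.2))
    · intro c _
      have hle : ((th p X i).comp (io.comp π)).ker ≤ (Nl p X i c).comap (io.comp π) := by
        intro x hx
        have := th_one (x := io (π x)) hx
        exact ⟨this.2, (π x).2, fun y => by
          show (io (π x)).w i _ = c * (io (π x)).w i _
          simp [this.1]⟩
      have h1 : ((th p X i).comp (io.comp π)).ker.index ≠ 0 := Subgroup.FiniteIndex.index_ne_zero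
      have h2 := Subgroup.index_dvd_of_le hle
      refine ⟨⟨fun x hx g => ?_⟩, fun e => h1 (by simpa [e] using h2),
        (Nat.le_of_dvd (Nat.pos_of_ne_zero h1) h2).trans (le_trans ?_ hn)⟩
      · have a : (io (π g)).π = 1 := (π g).2
        obtain ⟨k1, k2, k3⟩ : io (π x) ∈ Nl p X i c := hx
        show io (π (g * x * g⁻¹)) ∈ Nl p X i c
        rw [map_mul, map_mul, map_inv, map_mul, map_mul, map_inv]
        exact ⟨by simp [k1], by simp [k2], fun y => by simp [sm_app, a, k1, k2, mv_app, k3]⟩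
      · rw [Subgroup.index_ker]
        exact Subgroup.card_le_card_group _
    · intro c _ c' _ e
      let u : Loc (m i) (p i) := c.val • dd 0 2 (Fin.castLE (h5 i) 0) (Fin.castLE (h5 i) 1) +
        dd 1 2 (Fin.castLE (h5 i) 0) (Fin.castLE (h5 i) 1)
      have hu : sgl i u ∈ MM p X h5 := by
        rw [map_add, map_nsmul]
        exact AddSubgroup.add_mem _ (AddSubgroup.nsmul_mem _ ((single_MM R i).1 _ _ _ _) _)
          ((single_MM R i).1 _ _ _ _)
      obtain ⟨x, hx⟩ := hπ ⟨⟨⟨sgl i u, 1, 1⟩, (hP _).mpr hu⟩, rfl⟩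
      have e1 : io (π x) = ⟨sgl i u, 1, 1⟩ := by rw [hx]; rfl
      have a : x ∈ (Nl p X i c).comap (io.comp π) := by
        show io (π x) ∈ Nl p X i c
        rw [e1]
        refine ⟨by simp, rfl, fun y => ?_⟩
        simp only [sgl_same, u, Pi.add_apply, Pi.smul_apply]
        simp [dd]
      rw [show (Nl p X i c).comap (io.comp π) = (Nl p X i c').comap (io.comp π) from e] at a
      have b : io (π x) ∈ Nl p X i c' := a
      rw [e1] at b
      have := b.2.2 (Fin.castLE (h5 i) 0)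
      simp only [sgl_same, u, Pi.add_apply, Pi.smul_apply] at this
      simpa [dd] using this
  · have e4 : 4 ^ I = Set.ncard (Set.univ : Set (Fin I → Prop × Prop)) := by
      simp [Set.ncard_univ]
    rw [e4]
    refine Set.ncard_le_ncard_of_injOn (fun N i =>
      (∀ w ∈ MM p X h5, sgl i (w i) ∈ Uw (N.map (io.comp π)),
        ∀ a, jd p X (X.ι i a) ∈ N.map (io.comp π))) (fun _ _ => trivial) ?_
    have key : ∀ N : Subgroup Γ, N.Characteristic → N.index ≠ 0 → N.index ≤ n → π.ker ≤ N ∧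
        ∀ x, x ∈ N.map (io.comp π) ↔ (x.w ∈ MM p X h5 ∧ x.π = 1) ∧ ∀ i < I,
          (x.w i = 0 ∨ ∀ w ∈ MM p X h5, sgl i (w i) ∈ Uw (N.map (io.comp π))) ∧
          (X.p i x.d = 1 ∨ ∀ a, jd p X (X.ι i a) ∈ N.map (io.comp π)) := by
      intro N h1 h2 h3
      have : N.FiniteIndex := ⟨h2⟩
      have h4 := hk N inferInstance this
      refine ⟨h4, upper R Y I _ ?_ ?_ ?_⟩
      · rintro _ ⟨x, -, rfl⟩
        exact ⟨(hP _).mp (π x).1.2, (π x).2⟩
      · rintro x hx _ ⟨y, hy, rfl⟩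
        obtain ⟨φ, hφ⟩ := hc ⟨x, (hP _).mpr hx⟩
        exact ⟨φ y, Subgroup.characteristic_iff_le_comap.mp h1 φ hy,
          congrArg Subtype.val (hφ y)⟩
      · intro d hd
        let j : D →* G0 := ((jd p X).codRestrict P
          (fun d => (hP _).mpr (AddSubgroup.zero_mem _))).codRestrict G0 (fun _ => rfl)
        have i1 : (N.map π).index = N.index := Subgroup.index_map_eq _ hπ h4
        have i2 : ((N.map π).comap j).index ≤ N.index := by
          rw [Subgroup.index_comap, ← i1, ← Subgroup.relIndex_top_right]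
          exact Subgroup.relIndex_le_of_le_right le_top (by simpa [i1] using h2)
        have : Finite (D ⧸ (N.map π).comap j) := Nat.finite_of_card_ne_zero (by
          rw [← Subgroup.index_eq_card, Subgroup.index_comap]
          intro e
          exact h2 (by simpa [i1] using Subgroup.relIndex_eq_zero_of_le_right le_top e))
        have := X.fac _ (act ((N.map π).comap j)) I (by
          rw [← Subgroup.index_eq_card]; omega) d hd
        have k : d ∈ (N.map π).comap j := by rw [← stab_act ((N.map π).comap j), mem_stab, this]; rfl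
        obtain ⟨y, hy, e⟩ := k
        exact ⟨y, hy, congrArg io e⟩
    intro N h N' h' e
    obtain ⟨a, b⟩ := key N h.1 h.2.1 h.2.2
    obtain ⟨a', b'⟩ := key N' h'.1 h'.2.1 h'.2.2
    have hker : (io.comp π).ker = π.ker := by
      ext x; simp [MonoidHom.mem_ker, map_eq_one_iff _ ioi]
    rw [← Subgroup.comap_map_eq_self (f := io.comp π) (H := N) (hker ▸ a),
      ← Subgroup.comap_map_eq_self (f := io.comp π) (H := N') (hker ▸ a')]
    congr 1
    ext x
    rw [b, b']
    refine and_congr_right (fun _ => forall₂_congr (fun i hi => ?_))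
    have := congrFun e ⟨i, hi⟩
    simp only [Prod.mk.injEq] at this
    rw [this.1, this.2]

end glob

theorem main : ∃ (Γ : Type) (_ : Group Γ), Group.FG Γ ∧
    Finite (MulAut Γ ⧸ (MulAut.conj : Γ →* MulAut Γ).range) ∧
    ∀ (f : ℕ → ℝ) (a b : ℝ), (∀ n, 0 ≤ f n) → 0 < a → 0 < b → (∀ n, 1 ≤ n →
      ((Set.ncard {N : Subgroup Γ | N.Normal ∧ N.index ≠ 0 ∧ N.index ≤ n} : ℕ) : ℝ) ≤ f n ^ a) →
      ¬ ∃ᶠ n in atTop, f n ^ b ≤
        ((Set.ncard {N : Subgroup Γ | N.Characteristic ∧ N.index ≠ 0 ∧ N.index ≤ n} : ℕ) : ℝ) := by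
  choose pr h1 h2 using Nat.exists_infinite_primes
  let m : ℕ → ℕ := fun i => Nat.rec 7 (fun i k => k + 1 + nb k (pr (k + 1 + 4 ^ ((i + 2) ^ 2)))) i
  let p : ℕ → ℕ := fun i => pr (m i + 1 + 4 ^ ((i + 2) ^ 2))
  have ms : ∀ i, m (i + 1) = m i + 1 + nb (m i) (p i) := fun i => rfl
  have hm : StrictMono m := strictMono_nat_of_lt_succ (fun i => by rw [ms]; omega)
  have h7 : ∀ i, 7 ≤ m i := fun i => hm.monotone (Nat.zero_le i)
  have hp : ∀ i, m i + 1 + 4 ^ ((i + 2) ^ 2) ≤ p i := fun i => h1 _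
  obtain ⟨D, _, X, ⟨Y⟩⟩ := exists_sys2 hm (fun i => by have := h7 i; omega)
  obtain ⟨Γ, _, k1, k2, k3, k4⟩ := core (p := p) hm ⟨fun i => h2 _, h7, fun i => by
    have := hp i
    generalize 4 ^ ((i + 2) ^ 2) = t at this
    omega⟩ Y
  refine ⟨Γ, inferInstance, k1, k2, fun f a b hf ha hb hu hl => ?_⟩
  obtain ⟨I0, hI0⟩ := exists_nat_ge (a / b)
  obtain ⟨n, hn, hn2⟩ := frequently_atTop.mp hl (m (I0 + 1))
  obtain ⟨i, c1, c2, c3⟩ : ∃ i, n < m (i + 2) ∧ I0 + 1 < i + 2 ∧ ¬ n < m (i + 1) := by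
    classical
    have hex : ∃ I, n < m I := ⟨n + 1, hm.le_apply⟩
    have c1 := Nat.find_spec hex
    have c3 := @Nat.find_min _ _ hex
    generalize Nat.find hex = I at c1 c3
    have c2 : I0 + 1 < I := hm.lt_iff_lt.mp (by omega)
    obtain ⟨i, rfl⟩ : ∃ i, I = i + 2 := ⟨I - 2, by omega⟩
    exact ⟨i, c1, c2, c3 (Nat.lt_succ_self _)⟩
  have d1 := k3 i n (by rw [ms] at c3; omega)
  have d2 := k4 (i + 2) n c1
  have d3 : (4 : ℝ) ^ ((i + 2) ^ 2) < f n ^ a := by
    refine lt_of_lt_of_le ?_ (hu n (by have := h7 (I0 + 1); omega))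
    have := hp i
    have t : 4 ^ ((i + 2) ^ 2) < p i := by omega
    exact_mod_cast t.trans_le d1
  have d4 : f n ^ b ≤ (4 : ℝ) ^ (i + 2) := hn2.trans (by exact_mod_cast d2)
  have d5 : f n ^ a ≤ ((4 : ℝ) ^ (i + 2)) ^ ((i + 2 : ℕ) : ℝ) := by
    calc f n ^ a = (f n ^ b) ^ (a / b) := by
          rw [← Real.rpow_mul (hf n), mul_div_cancel₀ _ hb.ne']
      _ ≤ ((4 : ℝ) ^ (i + 2)) ^ (a / b) := by
          gcongr; exact Real.rpow_nonneg (hf n) _
      _ ≤ _ := Real.rpow_le_rpow_of_exponent_le (one_le_pow₀ (by norm_num)) (hI0.trans (by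
          exact_mod_cast (by omega : I0 ≤ i + 2)))
  rw [Real.rpow_natCast, ← pow_mul, ← pow_two] at d5
  linarith

end Pool.Agent.H73.CN
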