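import Mathlib

namespace Pool.Agent.H73.CentRes

open Subgroup Filter
open scoped commutatorElement

variable {G : Type} [Group G]

def FN (N : Subgroup G) : Prop := N.Normal ∧ N.FiniteIndex

/-- elements central modulo `N` -/
def Z (N : Subgroup G) : Subgroup G where
  carrier := {z | ∀ y, ⁅z, y⁆ ∈ N}
  one_mem' := fun y => by simp
  mul_mem' := fun {a b} ha hb y => by
    have : ⁅a * b, y⁆ = ⁅a, ⁅b, y⁆⁆ * ⁅b, y⁆ * ⁅a, y⁆ := by
      simp only [commutatorElement_def]; group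
    rw [this]
    exact N.mul_mem (N.mul_mem (ha _) (hb _)) (ha _)
  inv_mem' := fun {a} ha y => by
    have : ⁅a⁻¹, y⁆ = ⁅a, a⁻¹ * y * a⁆⁻¹ := by
      simp only [commutatorElement_def]; group
    rw [this]
    exact N.inv_mem (ha _)

theorem mem_Z {N : Subgroup G} {z : G} : z ∈ Z N ↔ ∀ y, ⁅z, y⁆ ∈ N := Iff.rfl

theorem Z_normal {N : Subgroup G} (h : N.Normal) : (Z N).Normal := ⟨fun z hz g y => by
  have : ⁅g * z * g⁻¹, y⁆ = g * ⁅z, g⁻¹ * y * g⁆ * g⁻¹ := by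
    simp only [commutatorElement_def]; group
  rw [this]
  exact h.conj_mem _ (hz _) g⟩

theorem Z_mono {N N' : Subgroup G} (h : N ≤ N') : Z N ≤ Z N' := fun _ hz y => h (hz y)

theorem sym {N : Subgroup G} {a b : G} (h : ⁅a, b⁆ ∈ N) : ⁅b, a⁆ ∈ N := by
  rw [← commutatorElement_inv]; exact N.inv_mem h

theorem comm_mem_left {N : Subgroup G} (h : N.Normal) {a : G} (ha : a ∈ N) (b : G) :
    ⁅a, b⁆ ∈ N := by
  rw [commutatorElement_def, mul_assoc, mul_assoc, ← mul_assoc b]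
  exact N.mul_mem ha (h.conj_mem _ (N.inv_mem ha) b)

theorem le_Z {N : Subgroup G} (h : N.Normal) : N ≤ Z N := fun _ ha b => comm_mem_left h ha b

/-- centraliser modulo a normal subgroup -/
def Cm (N : Subgroup G) (h : N.Normal) (g : G) : Subgroup G where
  carrier := {y | ⁅g, y⁆ ∈ N}
  one_mem' := by simp
  mul_mem' := fun {a b} ha hb => by
    have : ⁅g, a * b⁆ = ⁅g, a⁆ * (a * ⁅g, b⁆ * a⁻¹) := by
      simp only [commutatorElement_def]; group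
    change _ ∈ N
    rw [this]
    exact N.mul_mem ha (h.conj_mem _ hb a)
  inv_mem' := fun {a} ha => by
    have : ⁅g, a⁻¹⁆ = a⁻¹ * ⁅g, a⁆⁻¹ * a := by
      simp only [commutatorElement_def]; group
    change _ ∈ N
    rw [this]
    exact h.conj_mem' _ (N.inv_mem ha) a

/-- the commutator with the whole group -/
abbrev K (H : Subgroup G) : Subgroup G := ⁅H, (⊤ : Subgroup G)⁆

theorem K_le_iff {H N : Subgroup G} : K H ≤ N ↔ H ≤ Z N := by
  rw [commutator_le]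
  exact ⟨fun h a ha y => h a ha y trivial, fun h a ha y _ => h ha y⟩

theorem mem_K {H : Subgroup G} {a : G} (ha : a ∈ H) (y : G) : ⁅a, y⁆ ∈ K H :=
  commutator_mem_commutator ha trivial

theorem K_mono {H H' : Subgroup G} (h : H ≤ H') : K H ≤ K H' := commutator_mono h le_rfl

theorem K_le {H : Subgroup G} (h : H.Normal) : K H ≤ H := K_le_iff.mpr (le_Z h)

theorem K_normal {H : Subgroup G} (h : H.Normal) : (K H).Normal := inferInstance

theorem K_le_comm (H : Subgroup G) : K H ≤ _root_.commutator G := K_mono le_top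

theorem star {H N : Subgroup G} (hN : N.Normal) (h : H ⊔ Z N = ⊤) {g : G}
    (hg : ∀ a ∈ H, ⁅g, a⁆ ∈ N) : g ∈ Z N := by
  have : (⊤ : Subgroup G) ≤ Cm N hN g := by
    rw [← h]
    exact sup_le hg (fun z hz => sym (hz g))
  exact fun y => this trivial

theorem lemU {T H N N' : Subgroup G} (hT : T.Normal) (hN : N.Normal) (hN' : N'.Normal)
    (h1 : T ≤ H) (h2 : T ⊔ Z N' = ⊤) (h3 : H ≤ T ⊔ Z N) (h4 : N ⊓ K T = N' ⊓ K T) :
    N ⊓ K H = N' ⊓ K H := by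
  have hM : (K T ⊔ (N ⊓ N')).Normal := inferInstance
  have hTM : T ≤ Z (K T ⊔ (N ⊓ N')) := K_le_iff.mp le_sup_left
  have key : K H ≤ K T ⊔ (N ⊓ N') := by
    rw [K_le_iff]
    intro a ha
    have := Z_normal hN'
    obtain ⟨t, ht, z, hz, rfl⟩ := mem_sup_of_normal_right.mp (h2 ▸ mem_top a : a ∈ T ⊔ Z N')
    refine (Z _).mul_mem (hTM ht) ?_
    have hzH : z ∈ H := (H.mul_mem_cancel_left (h1 ht)).mp ha
    have : (⊤ : Subgroup G) ≤ Cm _ hM z := by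
      rw [← h2]
      refine sup_le (fun t ht => sym (hTM ht z)) (fun z' hz' => mem_sup_right ⟨?_, hz z'⟩)
      have : H ≤ Cm N hN z' := by
        refine h3.trans (sup_le (fun t ht => ?_) (fun w hw => sym (hw z')))
        have h5 : ⁅z', t⁆ ∈ N' ⊓ K T := ⟨hz' t, sym (mem_K ht z')⟩
        rw [← h4] at h5
        exact h5.1
      exact sym (this hzH)
    exact fun y => this trivial
  ext y
  constructor
  · rintro ⟨hy1, hy2⟩
    obtain ⟨k, hk, n, hn, rfl⟩ := mem_sup_of_normal_right.mp (key hy2)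
    have h5 : k ∈ N ⊓ K T := ⟨(N.mul_mem_cancel_right hn.1).mp hy1, hk⟩
    rw [h4] at h5
    exact ⟨N'.mul_mem h5.1 hn.2, hy2⟩
  · rintro ⟨hy1, hy2⟩
    obtain ⟨k, hk, n, hn, rfl⟩ := mem_sup_of_normal_right.mp (key hy2)
    have h5 : k ∈ N' ⊓ K T := ⟨(N'.mul_mem_cancel_right hn.2).mp hy1, hk⟩
    rw [← h4] at h5
    exact ⟨N.mul_mem h5.1 hn.1, hy2⟩

theorem FN.inf {N N' : Subgroup G} (h : FN N) (h' : FN N') : FN (N ⊓ N') := by
  obtain ⟨_, _⟩ := h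
  obtain ⟨_, _⟩ := h'
  exact ⟨inferInstance, inferInstance⟩

theorem FN.sup {N L : Subgroup G} (h : FN N) (hL : L.Normal) : FN (N ⊔ L) := by
  obtain ⟨_, _⟩ := h
  exact ⟨inferInstance, finiteIndex_of_le le_sup_left⟩

theorem fin_inf {s : Set G} (hs : s.Finite) (L : Subgroup G)
    (h : ∀ c ∈ s, ∃ N, FN N ∧ L ≤ N ∧ c ∉ N) : ∃ N, FN N ∧ L ≤ N ∧ ∀ c ∈ s, c ∉ N := by
  induction s, hs using Set.Finite.induction_on with
  | empty => exact ⟨⊤, ⟨inferInstance, inferInstance⟩, le_top, by simp⟩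
  | @insert a s _ _ ih =>
    obtain ⟨N, h1, h2, h3⟩ := ih (fun c hc => h c (Set.mem_insert_of_mem _ hc))
    obtain ⟨N', h1', h2', h3'⟩ := h a (Set.mem_insert _ _)
    refine ⟨N ⊓ N', h1.inf h1', le_inf h2 h2', ?_⟩
    rintro c (rfl | hc) hcN
    · exact h3' hcN.2
    · exact h3 c hc hcN.1

theorem fin_sub {ι : Type} [Nonempty ι] {f : ι → Subgroup G} (hf : Directed (· ≤ ·) f)
    {s : Set G} (hs : s.Finite) (h : ∀ x ∈ s, x ∈ ⨆ i, f i) : ∃ i, ∀ x ∈ s, x ∈ f i := by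
  induction s, hs using Set.Finite.induction_on with
  | empty => exact ⟨Classical.arbitrary ι, by simp⟩
  | @insert a s _ _ ih =>
    obtain ⟨i, hi⟩ := ih (fun c hc => h c (Set.mem_insert_of_mem _ hc))
    obtain ⟨j, hj⟩ := (mem_iSup_of_directed hf).mp (h a (Set.mem_insert _ _))
    obtain ⟨k, hik, hjk⟩ := hf i j
    refine ⟨k, ?_⟩
    rintro c (rfl | hc)
    · exact hjk hj
    · exact hik (hi c hc)

theorem transv (H : Subgroup G) {N : Subgroup G} (hN : FN N) :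
    ∃ s : Set G, s.Finite ∧ (∀ x ∈ s, x ∈ H) ∧ ∀ T : Subgroup G, (∀ x ∈ s, x ∈ T) → H ≤ T ⊔ N := by
  obtain ⟨_, _⟩ := hN
  have : ∀ q : G ⧸ N, ∃ r ∈ H, (∃ h ∈ H, (h : G ⧸ N) = q) → (r : G ⧸ N) = q := by
    intro q
    by_cases hq : ∃ h ∈ H, (h : G ⧸ N) = q
    · obtain ⟨h, h1, h2⟩ := hq
      exact ⟨h, h1, fun _ => h2⟩
    · exact ⟨1, H.one_mem, fun h => absurd h hq⟩
  choose r hr1 hr2 using this
  refine ⟨Set.range r, Set.finite_range r, ?_, fun T hT h hh => ?_⟩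
  · rintro _ ⟨q, rfl⟩; exact hr1 q
  · have h1 := QuotientGroup.eq.mp (hr2 h ⟨h, hh, rfl⟩)
    have h2 := mul_mem_sup (hT _ ⟨(h : G ⧸ N), rfl⟩) h1
    simpa using h2

theorem stab {ι : Type} [Nonempty ι] {f : ι → Subgroup G} (hf : Directed (· ≤ ·) f)
    {N : Subgroup G} (hN : FN N) : ∃ i, (⨆ i, f i) ≤ f i ⊔ N := by
  obtain ⟨s, hs, h1, h2⟩ := transv (⨆ i, f i) hN
  obtain ⟨i, hi⟩ := fin_sub hf hs h1
  exact ⟨i, h2 _ hi⟩

def Pm (m : ℕ) (N : Subgroup G) : Prop :=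
  ∀ f : Fin (m + 1) → G, ∃ p : Fin (m + 1) × Fin (m + 1), p.1 ≠ p.2 ∧ (f p.1)⁻¹ * f p.2 ∈ N

theorem exists_Pm {N : Subgroup G} (h : FN N) : ∃ m, Pm m N := by
  obtain ⟨_, _⟩ := h
  have := Fintype.ofFinite (G ⧸ N)
  refine ⟨Fintype.card (G ⧸ N), fun f => ?_⟩
  obtain ⟨i, j, hij, h⟩ := Fintype.exists_ne_map_eq_of_card_lt (fun i => (f i : G ⧸ N)) (by simp)
  exact ⟨(i, j), hij, QuotientGroup.eq.mp h⟩

theorem Pm.fi {m : ℕ} {N : Subgroup G} (h : Pm m N) : N.FiniteIndex := by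
  rw [finiteIndex_iff_finite_quotient]
  by_contra hinf
  rw [not_finite_iff_infinite] at hinf
  obtain ⟨p, hp, h1⟩ := h (fun i => (Infinite.natEmbedding (G ⧸ N) i).out)
  have h2 := QuotientGroup.eq.mpr h1
  simp only [QuotientGroup.out_eq'] at h2
  exact hp (Fin.ext ((Infinite.natEmbedding (G ⧸ N)).injective h2))

theorem cpt (L T R : Subgroup G) (m : ℕ) : ∃ S : Finset G, (T : Set G).Finite →
    (∃ N : Subgroup G, N.Normal ∧ Pm m N ∧ L ≤ N ∧ N ⊓ T = R ∧ ∀ y ∈ S, y ∈ T ⊔ Z N) →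
    ∃ N : Subgroup G, N.Normal ∧ Pm m N ∧ L ≤ N ∧ N ⊓ T = R ∧ T ⊔ Z N = ⊤ := by
  classical
  by_contra hcon
  simp only [not_exists, Classical.not_imp] at hcon
  have hT := (hcon ∅).1
  choose N h1 h2 h3 h4 h5 using fun S => (hcon S).2.1
  let U := Ultrafilter.of (atTop : Filter (Finset G))
  have hU : ∀ y : G, ∀ᶠ S in (U : Filter (Finset G)), y ∈ S := fun y =>
    (Ultrafilter.of_le _) ((eventually_ge_atTop ({y} : Finset G)).mono
      (fun S hS => by simpa using hS))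
  let M : Subgroup G :=
    { carrier := {g | ∀ᶠ S in (U : Filter (Finset G)), g ∈ N S}
      one_mem' := Eventually.of_forall (fun S => (N S).one_mem)
      mul_mem' := fun ha hb => (ha.and hb).mono (fun S h => (N S).mul_mem h.1 h.2)
      inv_mem' := fun ha => ha.mono (fun S h => (N S).inv_mem h) }
  have hM : ∀ g, g ∈ M ↔ ∀ᶠ S in (U : Filter (Finset G)), g ∈ N S := fun _ => Iff.rfl
  refine (hcon ∅).2.2 M ⟨⟨fun n hn g => ?_⟩, fun f => ?_, fun g hg => ?_, ?_, ?_⟩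
  · exact ((hM _).mp hn).mono (fun S h => (h1 S).conj_mem _ h g)
  · obtain ⟨p, hp⟩ := Ultrafilter.eventually_exists_iff.mp
      (Eventually.of_forall (f := (U : Filter (Finset G))) (fun S => h2 S f))
    exact ⟨p, hp.exists.choose_spec.1, hp.mono (fun S h => h.2)⟩
  · exact Eventually.of_forall (fun S => h3 S hg)
  · ext g
    constructor
    · rintro ⟨hg1, hg2⟩
      obtain ⟨S, hS⟩ := ((hM _).mp hg1).exists
      rw [← h4 S]; exact ⟨hS, hg2⟩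
    · intro hg
      refine ⟨Eventually.of_forall (fun S => ?_), ?_⟩
      · rw [← h4 S] at hg; exact hg.1
      · rw [← h4 ∅] at hg; exact hg.2
  · rw [eq_top_iff]
    intro y _
    have : ∀ᶠ S in (U : Filter (Finset G)), ∃ t ∈ (T : Set G), t⁻¹ * y ∈ Z (N S) := (hU y).mono (fun S hS => by
      have := Z_normal (h1 S)
      obtain ⟨t, ht, z, hz, rfl⟩ := mem_sup_of_normal_right.mp (h5 S y hS)
      exact ⟨t, ht, by simpa using hz⟩)
    obtain ⟨t, ht, h⟩ := (Ultrafilter.eventually_exists_mem_iff hT).mp this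
    have h6 : t⁻¹ * y ∈ Z M := fun w => h.mono (fun S hS => hS w)
    simpa using mul_mem_sup ht h6

def Good (H : Subgroup G) : Prop :=
  ∀ N, FN N → ∃ N', FN N' ∧ H ⊔ Z N' = ⊤ ∧ N ⊓ K H = N' ⊓ K H

section Main

variable (hLN : ∀ s : Set G, s.Finite → ∃ E : Subgroup G, E.Normal ∧ (E : Set G).Finite ∧ s ⊆ E)
  (hRF : ∀ g : G, g ≠ 1 → ∃ N : Subgroup G, N.Normal ∧ N.FiniteIndex ∧ g ∉ N)

include hLN

theorem comm_fin {c : G} (hc : c ∈ _root_.commutator G) :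
    ∃ E : Subgroup G, E.Normal ∧ (E : Set G).Finite ∧ c ∈ K E := by
  rw [commutator_eq_closure] at hc
  induction hc using closure_induction with
  | mem x hx =>
    obtain ⟨a, b, rfl⟩ := hx
    obtain ⟨E, h1, h2, h3⟩ := hLN {a} (Set.finite_singleton a)
    exact ⟨E, h1, h2, mem_K (h3 rfl) b⟩
  | one => exact ⟨⊥, inferInstance, by simp, one_mem _⟩
  | mul x y _ _ hx hy =>
    obtain ⟨E1, -, h2, h3⟩ := hx
    obtain ⟨E2, -, h2', h3'⟩ := hy
    obtain ⟨E, h4, h5, h6⟩ := hLN _ (h2.union h2')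
    exact ⟨E, h4, h5, mul_mem (K_mono (fun g hg => h6 (Or.inl hg)) h3)
      (K_mono (fun g hg => h6 (Or.inr hg)) h3')⟩
  | inv x _ hx =>
    obtain ⟨E1, h1, h2, h3⟩ := hx
    exact ⟨E1, h1, h2, inv_mem h3⟩

include hRF

theorem sep {H : Subgroup G} (hH : H.Normal) (hG : Good H) {c : G}
    (hc : c ∈ _root_.commutator G) (hcK : c ∉ K H) : ∃ N, FN N ∧ K H ≤ N ∧ c ∉ N := by
  obtain ⟨E, hE, hEf, hcE⟩ := comm_fin hLN hc
  obtain ⟨N0, hN0, -, hN0'⟩ := fin_inf (s := (E : Set G) \ {1}) (hEf.subset Set.diff_subset) ⊥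
    (fun c hc => by
      obtain ⟨N, h1, h2, h3⟩ := hRF c hc.2
      exact ⟨N, ⟨h1, h2⟩, bot_le, h3⟩)
  have hN : FN (N0 ⊔ (E ⊓ K H)) := hN0.sup inferInstance
  obtain ⟨N', hN', h1, h2⟩ := hG _ hN
  have h3 : c ∈ N' := by
    refine K_le_iff.mpr (fun x hx => star hN'.1 h1 (fun a ha => ?_)) hcE
    have h4 : ⁅x, a⁆ ∈ (N0 ⊔ (E ⊓ K H)) ⊓ K H :=
      ⟨mem_sup_right ⟨comm_mem_left hE hx a, sym (mem_K ha x)⟩, sym (mem_K ha x)⟩
    rw [h2] at h4
    exact h4.1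
  refine ⟨_, (hN.inf hN').sup (K_normal hH), le_sup_right, fun h4 => ?_⟩
  obtain ⟨n, hn, k, hk, rfl⟩ := mem_sup_of_normal_right.mp h4
  have h5 : k ∈ N' ⊓ K H := ⟨(N'.mul_mem_cancel_left hn.2).mp h3, hk⟩
  rw [← h2] at h5
  obtain ⟨ν, hν, f, hf, h6⟩ := mem_sup_of_normal_right.mp (mul_mem hn.1 h5.1)
  have h7 : ν ∈ E := (E.mul_mem_cancel_right hf.1).mp (h6 ▸ K_le hE hcE)
  by_cases h8 : ν = 1
  · rw [h8, one_mul] at h6
    exact hcK (h6 ▸ hf.2)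
  · exact hN0' ν ⟨h7, h8⟩ hν

theorem extend {H : Subgroup G} (hH : H.Normal) (hG : Good H) (x : G) :
    ∃ (H' : Subgroup G) (M : ℕ → Subgroup G), H'.Normal ∧ Good H' ∧ H ≤ H' ∧ x ∈ H' ∧
      (∀ n, FN (M n) ∧ K H ≤ M n ∧ H' ⊔ Z (M n) = ⊤) ∧
      (∀ y ∈ K H', (∀ n, y ∈ M n) → y ∈ K H) ∧ ∀ g, {n | g ∉ Z (M n)}.Finite := by
  classical
  let Φ := {T : Subgroup G // T.Normal ∧ (T : Set G).Finite}
  have e1 : ∀ T : Φ, ∃ N, FN N ∧ K H ≤ N ∧
      ∀ c ∈ T.1, c ∈ _root_.commutator G → c ∈ N → c ∈ K H := by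
    intro T
    obtain ⟨N, h1, h2, h3⟩ := fin_inf
      (s := {c | c ∈ T.1 ∧ c ∈ _root_.commutator G ∧ c ∉ K H})
      (T.2.2.subset (fun c hc => hc.1)) (K H) (fun c hc => sep hLN hRF hH hG hc.2.1 hc.2.2)
    refine ⟨N, h1, h2, fun c hc hc' hcN => ?_⟩
    by_contra h4
    exact h3 c ⟨hc, hc', h4⟩ hcN
  choose NT hNT1 hNT2 hNT3 using e1
  choose SB hSB using fun (T R : Subgroup G) (m : ℕ) => cpt (K H) T R m
  have e2 : ∀ (T : Φ) (n : ℕ), ∃ T' : Φ, T.1 ≤ T'.1 ∧ x ∈ T'.1 ∧ T'.1 ⊔ NT T = ⊤ ∧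
      ∀ R ≤ T.1, ∀ m ≤ n, ∀ y ∈ SB T.1 R m, y ∈ T'.1 := by
    intro T n
    obtain ⟨s, hs, -, hs2⟩ := transv ⊤ (hNT1 T)
    have hR : {R : Subgroup G | R ≤ T.1}.Finite :=
      Set.Finite.of_finite_image (f := fun R : Subgroup G => (R : Set G))
        (T.2.2.finite_subsets.subset (by rintro _ ⟨R, hR, rfl⟩; exact hR))
        SetLike.coe_injective.injOn
    have hfin : (⋃ R ∈ {R : Subgroup G | R ≤ T.1}, ⋃ m ∈ Set.Iic n,
        (SB T.1 R m : Set G)).Finite :=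
      hR.biUnion (fun R _ => (Set.finite_Iic n).biUnion (fun m _ => Finset.finite_toSet _))
    obtain ⟨E, h1, h2, h3⟩ := hLN _ (((T.2.2.union hs).union hfin).insert x)
    refine ⟨⟨E, h1, h2⟩, fun g hg => h3 (Or.inr (Or.inl (Or.inl hg))), h3 (Or.inl rfl),
      eq_top_iff.mpr (hs2 E (fun g hg => h3 (Or.inr (Or.inl (Or.inr hg))))),
      fun R hR m hm y hy => h3 (Or.inr (Or.inr ?_))⟩
    simp only [Set.mem_iUnion]
    exact ⟨R, hR, m, hm, hy⟩
  choose nx hnx1 hnx2 hnx3 hnx4 using e2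
  let T : ℕ → Φ := fun n => Nat.rec ⟨⊥, inferInstance, by simp⟩ (fun n T => nx T n) n
  have hTs : ∀ n, T (n + 1) = nx (T n) n := fun _ => rfl
  have hmono : Monotone (fun n => (T n).1) := monotone_nat_of_le_succ (fun n => hnx1 _ _)
  have hdir : Directed (· ≤ ·) (fun n => (T n).1) := hmono.directed_le
  let D : Subgroup G := ⨆ n, (T n).1
  have hTD : ∀ n, (T n).1 ≤ D := fun n => le_iSup (fun n => (T n).1) n
  have hD : D.Normal := ⟨fun a ha g => by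
    obtain ⟨n, hn⟩ := (mem_iSup_of_directed hdir).mp ha
    exact hTD n ((T n).2.1.conj_mem _ hn g)⟩
  have hH' : (H ⊔ D).Normal := inferInstance
  let M : ℕ → Subgroup G := fun n => NT (T (n + 1)) ⊔ ((T n).1 ⊓ _root_.commutator G)
  have hM : ∀ n, FN (M n) := fun n => by
    have := (T n).2.1
    exact (hNT1 _).sup inferInstance
  have hMD : ∀ n, D ⊔ Z (M n) = ⊤ := fun n => by
    rw [eq_top_iff, ← hnx3 (T (n + 1)) (n + 1)]
    exact sup_le_sup (hTD (n + 2)) (le_sup_left.trans (le_Z (hM n).1))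
  have hKM : ∀ n, K H ≤ M n := fun n => (hNT2 _).trans le_sup_left
  refine ⟨H ⊔ D, M, hH', fun N hN => ?_, le_sup_left, mem_sup_right (hTD 1 (hnx2 _ _)),
    fun n => ⟨hM n, hKM n, ?_⟩, ?_, fun g => ?_⟩
  · obtain ⟨N1, hN1, h1, h2⟩ := hG N hN
    have hN2 : FN ((N ⊓ N1) ⊔ K H) := (hN.inf hN1).sup (K_normal hH)
    set N2 := (N ⊓ N1) ⊔ K H with hN2d
    obtain ⟨m, hm⟩ := exists_Pm hN2
    obtain ⟨n0, hn0⟩ := stab hdir hN2
    have hn : D ≤ (T (max n0 m)).1 ⊔ Z N2 :=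
      hn0.trans (sup_le_sup (hmono (le_max_left _ _)) (le_Z hN2.1))
    set n := max n0 m
    obtain ⟨N3, h3, h4, h5, h6, h7⟩ := hSB (T n).1 (N2 ⊓ (T n).1) m (T n).2.2
      ⟨N2, hN2.1, hm, le_sup_right, rfl, fun y hy =>
        hn (hTD (n + 1) (hnx4 (T n) n _ inf_le_right m (le_max_right _ _) y hy))⟩
    have hN3 : FN N3 := ⟨h3, h4.fi⟩
    have h8 : N2 ⊓ K (H ⊔ D) = N3 ⊓ K (H ⊔ D) := by
      refine lemU (T n).2.1 hN2.1 h3 ((hTD n).trans le_sup_right) h7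
        (sup_le ((K_le_iff.mp le_sup_right).trans le_sup_right) hn) ?_
      rw [← inf_eq_right.mpr (K_le (T n).2.1), ← inf_assoc, ← inf_assoc, h6]
    have := hN.1
    refine ⟨(N1 ⊓ N3) ⊔ (N ⊓ K (H ⊔ D)), (hN1.inf hN3).sup inferInstance, ?_, ?_⟩
    · rw [eq_top_iff]
      intro g _
      have := Z_normal h3
      have := Z_normal hN1.1
      obtain ⟨t, ht, z, hz, rfl⟩ := mem_sup_of_normal_right.mp (h7 ▸ mem_top g :
        g ∈ (T n).1 ⊔ Z N3)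
      obtain ⟨a, ha, w, hw, rfl⟩ := mem_sup_of_normal_right.mp (h1 ▸ mem_top z : z ∈ H ⊔ Z N1)
      have hw3 : w ∈ Z N3 := ((Z N3).mul_mem_cancel_left (K_le_iff.mp h5 ha)).mp hz
      rw [← mul_assoc]
      refine mul_mem_sup (mul_mem (mem_sup_right (hTD n ht)) (mem_sup_left ha)) (fun y => ?_)
      exact mem_sup_left ⟨hw y, hw3 y⟩
    · refine le_antisymm (le_inf le_sup_right inf_le_right) ?_
      rintro y ⟨hy1, hy2⟩
      obtain ⟨a, ha, b, hb, rfl⟩ := mem_sup_of_normal_right.mp hy1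
      have h9 : a ∈ N3 ⊓ K (H ⊔ D) := ⟨ha.2, ((K _).mul_mem_cancel_right hb.2).mp hy2⟩
      rw [← h8] at h9
      obtain ⟨ν, hν, k, hk, rfl⟩ := mem_sup_of_normal_right.mp h9.1
      have h10 : k ∈ N1 ⊓ K H := ⟨(N1.mul_mem_cancel_left hν.2).mp ha.1, hk⟩
      rw [← h2] at h10
      exact ⟨mul_mem (mul_mem hν.1 h10.1) hb.1, hy2⟩
  · rw [eq_top_iff, ← hMD n]
    exact sup_le_sup_right le_sup_right _
  · have desc : ∀ n, ∀ d ∈ (T n).1 ⊓ _root_.commutator G, (∀ j, d ∈ M j) → d ∈ K H := by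
      intro n
      induction n with
      | zero =>
        intro d hd _
        rw [mem_bot.mp hd.1]; exact one_mem _
      | succ n ih =>
        intro d hd hM'
        have := (T n).2.1
        obtain ⟨ν, hν, f, hf, rfl⟩ := mem_sup_of_normal_right.mp (hM' n)
        have h1 : ν ∈ K H := hNT3 _ ν
          (((T (n + 1)).1.mul_mem_cancel_right (hmono (Nat.le_succ n) hf.1)).mp hd.1)
          (((_root_.commutator G).mul_mem_cancel_right hf.2).mp hd.2) hν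
        exact mul_mem h1 (ih f hf (fun j => ((M j).mul_mem_cancel_left (hKM j h1)).mp (hM' j)))
    intro y hy hyM
    have h1 : K (H ⊔ D) ≤ K H ⊔ (D ⊓ _root_.commutator G) := by
      rw [K_le_iff]
      exact sup_le (K_le_iff.mp le_sup_left)
        (K_le_iff.mp ((le_inf (K_le hD) (K_le_comm D)).trans le_sup_right))
    obtain ⟨k, hk, d, hd, rfl⟩ := mem_sup_of_normal_right.mp (h1 hy)
    obtain ⟨n, hn⟩ := (mem_iSup_of_directed hdir).mp hd.1
    exact mul_mem hk (desc n d ⟨hn, hd.2⟩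
      (fun j => ((M j).mul_mem_cancel_left (hKM j hk)).mp (hyM j)))
  · obtain ⟨E, h1, h2, h3⟩ := hLN {g} (Set.finite_singleton g)
    obtain ⟨n0, hn0⟩ := fin_sub hdir (s := {y | y ∈ E ∧ y ∈ D}) (h2.subset (fun y hy => hy.1))
      (fun y hy => hy.2)
    refine (Set.finite_lt_nat n0).subset (fun n hn => ?_)
    by_contra hc
    refine hn (star (hM n).1 (hMD n) (fun a ha => mem_sup_right ⟨?_, ?_⟩))
    · exact hmono (not_lt.mp hc)
        (hn0 _ ⟨comm_mem_left h1 (h3 rfl) a, sym (comm_mem_left hD ha g)⟩)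
    · exact commutator_mem_commutator trivial trivial

/-- centrally restricted families separating the derived subgroup -/
theorem exists_family : ∃ 𝓜 : Set (Subgroup G), (∀ N ∈ 𝓜, FN N) ∧
    (∀ y ∈ _root_.commutator G, (∀ N ∈ 𝓜, y ∈ N) → y = 1) ∧
    ∀ g, {N | N ∈ 𝓜 ∧ g ∉ Z N}.Finite := by
  let X := {p : Subgroup G × Set (Subgroup G) // p.1.Normal ∧ Good p.1 ∧
    (∀ N ∈ p.2, FN N ∧ p.1 ⊔ Z N = ⊤) ∧ (∀ y ∈ K p.1, (∀ N ∈ p.2, y ∈ N) → y = 1) ∧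
    ∀ g, {N | N ∈ p.2 ∧ g ∉ Z N}.Finite}
  let r : X → X → Prop := fun p q => p.1.1 ≤ q.1.1 ∧ p.1.2 ⊆ q.1.2 ∧
    ∀ N ∈ q.1.2, N ∉ p.1.2 → K p.1.1 ≤ N
  have : Nonempty X := ⟨⟨(⊥, ∅), inferInstance, fun N _ => ⟨⊤, ⟨inferInstance, inferInstance⟩,
    eq_top_iff.mpr (fun g _ => mem_sup_right (fun _ => trivial)), by simp⟩, by simp,
    fun y hy _ => by simpa using hy, by simp⟩⟩
  obtain ⟨m, hm⟩ := exists_maximal_of_nonempty_chains_bounded (r := r) (fun c hc hne => by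
    have : Nonempty c := hne.to_subtype
    have htot : ∀ p q : c, r p q ∨ r q p := by
      intro p q
      by_cases hpq : p.1 = q.1
      · left; rw [hpq]; exact ⟨le_rfl, subset_rfl, fun N h1 h2 => absurd h1 h2⟩
      · exact hc p.2 q.2 hpq
    have hdir : Directed (· ≤ ·) (fun p : c => p.1.1.1) := fun p q => by
      rcases htot p q with h | h
      · exact ⟨q, h.1, le_rfl⟩
      · exact ⟨p, le_rfl, h.1⟩
    have hdirK : Directed (· ≤ ·) (fun p : c => K p.1.1.1) := fun p q => by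
      obtain ⟨z, h1, h2⟩ := hdir p q
      exact ⟨z, K_mono h1, K_mono h2⟩
    let H : Subgroup G := ⨆ p : c, p.1.1.1
    have hle : ∀ p : c, p.1.1.1 ≤ H := fun p => le_iSup (fun p : c => p.1.1.1) p
    have hK : K H ≤ ⨆ p : c, K p.1.1.1 :=
      K_le_iff.mpr (iSup_le (fun p => K_le_iff.mp (le_iSup (fun p : c => K p.1.1.1) p)))
    have hub : ∀ p q : c, ∀ N ∈ q.1.1.2, N ∉ p.1.1.2 → K p.1.1.1 ≤ N := by
      intro p q N h1 h2
      rcases htot p q with h | h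
      · exact h.2.2 N h1 h2
      · exact absurd (h.2.1 h1) h2
    refine ⟨⟨(H, ⋃ p : c, p.1.1.2), ⟨fun a ha g => ?_⟩, fun N hN => ?_, ?_, ?_, fun g => ?_⟩,
      fun p hp => ⟨hle ⟨p, hp⟩, Set.subset_iUnion (fun p : c => p.1.1.2) ⟨p, hp⟩, ?_⟩⟩
    · obtain ⟨p, hp⟩ := (mem_iSup_of_directed hdir).mp ha
      exact hle p (p.1.2.1.conj_mem _ hp g)
    · obtain ⟨p, hp⟩ := stab hdir hN
      obtain ⟨N', h1, h2, h3⟩ := p.1.2.2.1 N hN
      refine ⟨N', h1, eq_top_iff.mpr (h2.ge.trans (sup_le_sup_right (hle p) _)), ?_⟩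
      exact lemU p.1.2.1 hN.1 h1.1 (hle p) h2 (hp.trans (sup_le_sup_left (le_Z hN.1) _)) h3
    · intro N hN
      obtain ⟨p, hp⟩ := Set.mem_iUnion.mp hN
      have := p.1.2.2.2.1 N hp
      exact ⟨this.1, eq_top_iff.mpr (this.2.ge.trans (sup_le_sup_right (hle p) _))⟩
    · intro y hy h
      obtain ⟨p, hp⟩ := (mem_iSup_of_directed hdirK).mp (hK hy)
      exact p.1.2.2.2.2.1 y hp (fun N hN => h N (Set.mem_iUnion.mpr ⟨p, hN⟩))
    · obtain ⟨E, h1, h2, h3⟩ := hLN {g} (Set.finite_singleton g)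
      obtain ⟨p, hp⟩ := fin_sub hdirK (s := {y | y ∈ E ∧ y ∈ K H}) (h2.subset (fun y hy => hy.1))
        (fun y hy => hK hy.2)
      refine (p.1.2.2.2.2.2 g).subset ?_
      rintro N ⟨hN, hg⟩
      refine ⟨?_, hg⟩
      by_contra hc'
      obtain ⟨q, hq⟩ := Set.mem_iUnion.mp hN
      have := q.1.2.2.2.1 N hq
      exact hg (star this.1.1 this.2 (fun a ha => hub p q N hq hc'
        (hp _ ⟨comm_mem_left h1 (h3 rfl) a, sym (mem_K (hle q ha) g)⟩)))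
    · intro N hN h2
      obtain ⟨q, hq⟩ := Set.mem_iUnion.mp hN
      exact hub ⟨p, hp⟩ q N hq h2)
    (fun {p q s} h1 h2 => ⟨h1.1.trans h2.1, h1.2.1.trans h2.2.1, fun N hN hN' => by
      by_cases h : N ∈ q.1.2
      · exact h1.2.2 N h hN'
      · exact (K_mono h1.1).trans (h2.2.2 N hN h)⟩)
  obtain ⟨⟨H, 𝓜⟩, hH, hG, h1, h2, h3⟩ := m
  have htop : H = ⊤ := by
    rw [eq_top_iff]
    intro x _
    obtain ⟨H', M, a1, a2, a3, a4, a5, a6, a7⟩ := extend hLN hRF hH hG x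
    refine (hm ⟨(H', 𝓜 ∪ Set.range M), a1, a2, ?_, ?_, fun g => ?_⟩
      ⟨a3, Set.subset_union_left, ?_⟩).1 a4
    · rintro N (hN | ⟨n, rfl⟩)
      · exact ⟨(h1 N hN).1, eq_top_iff.mpr ((h1 N hN).2.ge.trans (sup_le_sup_right a3 _))⟩
      · exact ⟨(a5 n).1, (a5 n).2.2⟩
    · intro y hy h
      exact h2 y (a6 y hy (fun n => h _ (Or.inr ⟨n, rfl⟩))) (fun N hN => h N (Or.inl hN))
    · refine ((h3 g).union ((a7 g).image M)).subset ?_
      rintro N ⟨hN | ⟨n, rfl⟩, hg⟩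
      · exact Or.inl ⟨hN, hg⟩
      · exact Or.inr ⟨n, hg, rfl⟩
    · rintro N (hN | ⟨n, rfl⟩) hN'
      · exact absurd hN hN'
      · exact (a5 n).2.1
  subst htop
  exact ⟨𝓜, fun N hN => (h1 N hN).1, h2, h3⟩

end Main

end Pool.Agent.H73.CentRes
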