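import Mathlib
import Pool.Agent.H73.RigidReals

set_option autoImplicit false

namespace Pool.Agent.H73.CircTrans

open Matrix

/-- Combinations of the first `m` powers. -/
noncomputable def Dm (F : Subfield ℝ) (l : ℝ) (m : ℕ) : Submodule F ℝ :=
  Submodule.span F ((fun i => l ^ i) '' Set.Iio m)

theorem Dm.mul_mem {F : Subfield ℝ} {l : ℝ} {m : ℕ} {a r : ℝ} (ha : a ∈ F) (hr : r ∈ Dm F l m) :
    a * r ∈ Dm F l m := (Dm F l m).smul_mem ⟨a, ha⟩ hr

theorem Dm.mono {F : Subfield ℝ} {l : ℝ} {m : ℕ} {r : ℝ} (hr : r ∈ Dm F l m) :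
    r ∈ Dm F l (m + 1) :=
  Submodule.span_mono (Set.image_mono fun _ hi => lt_trans hi (Nat.lt_succ_self m)) hr

theorem Dm.pow_mem {F : Subfield ℝ} {l : ℝ} (m : ℕ) : l ^ m ∈ Dm F l (m + 1) :=
  Submodule.subset_span ⟨m, Nat.lt_succ_self m, rfl⟩

theorem Dm.lam_mul {F : Subfield ℝ} {l : ℝ} {m : ℕ} {r : ℝ} (hr : r ∈ Dm F l m) :
    l * r ∈ Dm F l (m + 1) := by
  induction hr using Submodule.span_induction with
  | mem x hx =>
    obtain ⟨i, hi, rfl⟩ := hx
    exact Submodule.subset_span ⟨i + 1, Nat.succ_lt_succ hi, by simp [pow_succ, mul_comm]⟩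
  | zero => simp
  | add x y _ _ hx hy => rw [mul_add]; exact add_mem hx hy
  | smul a x _ hx =>
    have : l * a • x = a • (l * x) := by rw [mul_smul_comm]
    rw [this]; exact Submodule.smul_mem _ _ hx

theorem Dm.top {F : Subfield ℝ} {l : ℝ} (hl : Transcendental F l) {m : ℕ} {a : ℝ} (ha : a ∈ F)
    (h : a * l ^ m ∈ Dm F l m) : a = 0 := by
  by_contra h0
  have h1 := Dm.mul_mem (F.inv_mem ha) h
  rw [← mul_assoc, inv_mul_cancel₀ h0, one_mul] at h1
  have hli : LinearIndependent F fun i : ℕ => l ^ i := by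
    have := (Polynomial.basisMonomials F).linearIndependent.map'
      (Polynomial.aeval l).toLinearMap (by
        rw [LinearMap.ker_eq_bot]; exact transcendental_iff_injective.1 hl)
    have e : (fun i : ℕ => l ^ i) =
        ⇑(Polynomial.aeval l).toLinearMap ∘ ⇑(Polynomial.basisMonomials F) := by
      ext i; simp
    rw [e]; exact this
  exact hli.notMem_span_image (s := Set.Iio m) (x := m) (lt_irrefl m) h1

/-- Generic parameters. -/
structure Data (W Sym : Type) [LinearOrder W] where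
  K : W → Subfield ℝ
  K' : W → Subfield ℝ
  s : W → Sym → ℝ
  lam : W → ℝ
  side : Sym → Bool
  KK' : ∀ a, K a ≤ K' a
  K'K : ∀ a b, a < b → K' a ≤ K b
  lamK : ∀ a b, a < b → lam a ∈ K b
  sK : ∀ a σ, s a σ ∈ K' a
  quad : ∀ a σ p q r, p ∈ K a → q ∈ K a → r ∈ K a → p * s a σ ^ 2 + q * s a σ + r = 0 →
    p = 0 ∧ q = 0 ∧ r = 0
  bil : ∀ a σ σ', σ ≠ σ' → ∀ p q r t, p ∈ K a → q ∈ K a → r ∈ K a → t ∈ K a →
    p * (s a σ * s a σ') + q * s a σ + r * s a σ' + t = 0 → p = 0 ∧ q = 0 ∧ r = 0 ∧ t = 0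
  tr : ∀ a, Transcendental (K' a) (lam a)

/-- Decorated letters. -/
structure DL (W : Type) where
  α : W
  ε : Bool
  N : Matrix (Fin 2) (Fin 2) ℝ

/-- Product of the matrices of a decorated word. -/
def prodN {W : Type} (σ : List (DL W)) : Matrix (Fin 2) (Fin 2) ℝ := (σ.map DL.N).prod

@[simp] theorem prodN_nil {W : Type} : prodN ([] : List (DL W)) = 1 := rfl
@[simp] theorem prodN_cons {W : Type} (d : DL W) (σ : List (DL W)) :
    prodN (d :: σ) = d.N * prodN σ := by simp [prodN]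

/-- Matrices over a subfield with nonzero determinant. -/
def Over (F : Subfield ℝ) (N : Matrix (Fin 2) (Fin 2) ℝ) : Prop :=
  (∀ i j, N i j ∈ F) ∧ N.det ≠ 0

theorem Over.one (F : Subfield ℝ) : Over F 1 := by
  refine ⟨fun i j => ?_, by simp⟩
  rw [Matrix.one_apply]; split_ifs
  · exact F.one_mem
  · exact F.zero_mem

theorem Over.mul {F : Subfield ℝ} {M N : Matrix (Fin 2) (Fin 2) ℝ} (hM : Over F M)
    (hN : Over F N) : Over F (M * N) := by
  refine ⟨fun i j => ?_, by rw [det_mul]; exact mul_ne_zero hM.2 hN.2⟩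
  rw [Matrix.mul_apply, Fin.sum_univ_two]
  exact add_mem (mul_mem (hM.1 _ _) (hN.1 _ _)) (mul_mem (hM.1 _ _) (hN.1 _ _))

theorem mulVec_two (N : Matrix (Fin 2) (Fin 2) ℝ) (v : Fin 2 → ℝ) (i : Fin 2) :
    (N *ᵥ v) i = N i 0 * v 0 + N i 1 * v 1 := by
  simp [mulVec, dotProduct, Fin.sum_univ_two]

namespace Data

variable {W Sym : Type} [LinearOrder W] (Δ : Data W Sym)

/-- Admissible decorated letters. -/
def Good (d : DL W) : Prop :=
  ∃ (si so : Sym) (ki ko κ : ℝ) (Lo : Matrix (Fin 2) (Fin 2) ℝ),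
    Δ.side si = d.ε ∧ Δ.side so = !d.ε ∧ ki ∈ Δ.K d.α ∧ ko ∈ Δ.K d.α ∧ κ ∈ Δ.K' d.α ∧ κ ≠ 0 ∧
    (∀ i j, Lo i j ∈ Δ.K' d.α) ∧ d.N.det ≠ 0 ∧
    ∀ i j, d.N i j = Δ.lam d.α * κ *
      (![Δ.s d.α so + ko, 1] i * ![1, -(Δ.s d.α si + ki)] j) + Lo i j

variable {Δ}

theorem Good.over {d : DL W} (h : Δ.Good d) {b : W} (hb : d.α < b) : Over (Δ.K b) d.N := by
  obtain ⟨si, so, ki, ko, κ, Lo, -, -, h3, h4, h5, -, h7, h8, h9⟩ := h
  refine ⟨fun i j => ?_, h8⟩
  have k := Δ.K'K _ _ hb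
  have k' := (Δ.KK' d.α).trans k
  rw [h9]
  refine add_mem (mul_mem (mul_mem (Δ.lamK _ _ hb) (k h5)) (mul_mem ?_ ?_)) (k (h7 i j))
  · fin_cases i
    · exact add_mem (k (Δ.sK _ _)) (k' h4)
    · exact one_mem _
  · fin_cases j
    · exact one_mem _
    · exact neg_mem (add_mem (k (Δ.sK _ _)) (k' h3))

theorem over_prodN {b : W} : ∀ σ : List (DL W), (∀ d ∈ σ, Δ.Good d ∧ d.α < b) →
    Over (Δ.K b) (prodN σ)
  | [], _ => Over.one _
  | d :: σ, h => by
    rw [prodN_cons]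
    exact ((h d (by simp)).1.over (h d (by simp)).2).mul
      (over_prodN σ fun e he => h e (by simp [he]))

/-- The invariant of the induction. -/
def Inv (Δ : Data W Sym) (a : W) (σ : List (DL W)) (v : Fin 2 → ℝ) : Prop :=
  ((∀ d ∈ σ, d.α < a) ∧ (∀ i, v i ∈ Δ.K a) ∧ v ≠ 0) ∨
  ∃ (τ : List (DL W)) (d : DL W) (ρ : List (DL W)) (m : ℕ) (κ ko : ℝ) (so : Sym),
    σ = τ ++ d :: ρ ∧ d.α = a ∧ (∀ e ∈ τ, e.α < a) ∧ κ ∈ Δ.K' a ∧ κ ≠ 0 ∧ ko ∈ Δ.K a ∧
    Δ.side so = !d.ε ∧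
    ∀ i, v i - κ * (prodN τ *ᵥ ![Δ.s a so + ko, 1]) i * Δ.lam a ^ m ∈ Dm (Δ.K' a) (Δ.lam a) m

theorem top_step {F : Subfield ℝ} {l κ : ℝ} {m : ℕ} {v u o : Fin 2 → ℝ} {x : ℝ}
    {N Lo : Matrix (Fin 2) (Fin 2) ℝ} (hκ : κ ∈ F) (hx : x ∈ F) (ho : ∀ i, o i ∈ F)
    (hu : ∀ i, u i ∈ F) (hLo : ∀ i j, Lo i j ∈ F)
    (hN : ∀ i j, N i j = l * κ * (o i * ![1, -x] j) + Lo i j)
    (h : ∀ i, v i - u i * l ^ m ∈ Dm F l m) (i : Fin 2) :
    (N *ᵥ v) i - κ * (u 0 - x * u 1) * o i * l ^ (m + 1) ∈ Dm F l (m + 1) := by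
  have hv : ∀ j, v j ∈ Dm F l (m + 1) := fun j => by
    have := add_mem (Dm.mono (h j)) (Dm.mul_mem (hu j) (Dm.pow_mem (l := l) m))
    simpa using this
  have e : (N *ᵥ v) i - κ * (u 0 - x * u 1) * o i * l ^ (m + 1) =
      (κ * o i) * (l * (v 0 - u 0 * l ^ m)) - (κ * o i * x) * (l * (v 1 - u 1 * l ^ m)) +
        (Lo i 0 * v 0 + Lo i 1 * v 1) := by
    rw [mulVec_two, hN, hN]; simp; ring
  rw [e]
  exact add_mem (sub_mem (Dm.mul_mem (mul_mem hκ (ho i)) (Dm.lam_mul (h 0)))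
    (Dm.mul_mem (mul_mem (mul_mem hκ (ho i)) hx) (Dm.lam_mul (h 1))))
    (add_mem (Dm.mul_mem (hLo _ _) (hv 0)) (Dm.mul_mem (hLo _ _) (hv 1)))

/-- Reducedness of decorated words. -/
def Red (σ : List (DL W)) : Prop := σ.IsChain fun a b => a.α = b.α → a.ε = b.ε

theorem inv_step {a : W}
    (IH : ∀ τ : List (DL W), τ ≠ [] → (∀ d ∈ τ, Δ.Good d ∧ d.α < a) → Red τ →
      prodN τ 1 0 ≠ 0)
    (z : Fin 2 → ℝ) (hz : ∀ i, z i ∈ Δ.K a) (hz0 : z ≠ 0) :
    ∀ σ : List (DL W), (∀ d ∈ σ, Δ.Good d ∧ d.α ≤ a) → Red σ → Inv Δ a σ (prodN σ *ᵥ z)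
  | [], _, _ => Or.inl ⟨by simp, by simpa using hz, by simpa using hz0⟩
  | d' :: σ, h, hr => by
    have ih := inv_step IH z hz hz0 σ (fun e he => h e (by simp [he])) hr.tail
    have hd := h d' (by simp)
    rw [prodN_cons, ← mulVec_mulVec]
    set v := prodN σ *ᵥ z with hv
    rcases hd.2.lt_or_eq with hlt | heq
    · have ho := hd.1.over hlt
      rcases ih with ⟨h1, h2, h3⟩ | ⟨τ, d, ρ, m, κ, ko, so, rfl, h1, h2, h3, h4, h5, h6, h7⟩
      · refine Or.inl ⟨?_, fun i => ?_, fun h0 => h3 ?_⟩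
        · intro e he
          rcases List.mem_cons.1 he with rfl | he
          · exact hlt
          · exact h1 e he
        · rw [mulVec_two]
          exact add_mem (mul_mem (ho.1 _ _) (h2 0)) (mul_mem (ho.1 _ _) (h2 1))
        · exact eq_zero_of_mulVec_eq_zero ho.2 h0
      · refine Or.inr ⟨d' :: τ, d, ρ, m, κ, ko, so, rfl, h1, ?_, h3, h4, h5, h6, fun i => ?_⟩
        · intro e he
          rcases List.mem_cons.1 he with rfl | he
          · exact hlt
          · exact h2 e he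
        · rw [prodN_cons, ← mulVec_mulVec, mulVec_two, mulVec_two d'.N]
          have := add_mem (Dm.mul_mem (Δ.KK' a (ho.1 i 0)) (h7 0))
            (Dm.mul_mem (Δ.KK' a (ho.1 i 1)) (h7 1))
          convert this using 1; ring
    · obtain ⟨si, so', ki, ko', κ', Lo, g1, g2, g3, g4, g5, g6, g7, -, g9⟩ := hd.1
      rw [heq] at g3 g4 g5 g7 g9
      have hx : Δ.s a si + ki ∈ Δ.K' a := add_mem (Δ.sK _ _) (Δ.KK' a g3)
      have hoo : ∀ (so : Sym) (ko : ℝ), ko ∈ Δ.K a → ∀ i,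
          (![Δ.s a so + ko, 1] : Fin 2 → ℝ) i ∈ Δ.K' a := by
        intro so ko hko i
        fin_cases i
        · exact add_mem (Δ.sK _ _) (Δ.KK' a hko)
        · exact one_mem _
      rcases ih with ⟨-, h2, h3⟩ | ⟨τ, d, ρ, m, κ, ko, so, rfl, h1, h2, h3, h4, h5, h6, h7⟩
      · have ht := top_step (m := 0) (v := v) (u := v) g5 hx (hoo so' ko' g4)
          (fun i => Δ.KK' a (h2 i)) g7 g9 (by simp)
        refine Or.inr ⟨[], d', σ, 1, κ' * (v 0 - (Δ.s a si + ki) * v 1), ko', so', rfl, heq,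
          by simp, mul_mem g5 (sub_mem (Δ.KK' a (h2 0)) (mul_mem hx (Δ.KK' a (h2 1)))),
          mul_ne_zero g6 fun h0 => h3 ?_, g4, g2, fun i => by simpa using ht i⟩
        obtain ⟨-, k2, k3⟩ := Δ.quad a si 0 (-v 1) (v 0 - ki * v 1) (zero_mem _)
          (neg_mem (h2 1)) (sub_mem (h2 0) (mul_mem g3 (h2 1))) (by linear_combination h0)
        have k4 : v 1 = 0 := neg_eq_zero.1 k2
        ext i; fin_cases i
        · simpa [k4] using k3
        · exact k4
      · have hτ : Over (Δ.K a) (prodN τ) :=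
          over_prodN τ fun e he => ⟨(h e (by simp [he])).1, h2 e he⟩
        set g := prodN τ with hg
        set u : Fin 2 → ℝ := fun i => κ * (g *ᵥ ![Δ.s a so + ko, 1]) i with hu
        have huK : ∀ i, u i ∈ Δ.K' a := fun i => by
          simp only [hu, mulVec_two]
          exact mul_mem h3 (add_mem (mul_mem (Δ.KK' a (hτ.1 _ _)) (hoo so ko h5 0))
            (mul_mem (Δ.KK' a (hτ.1 _ _)) (hoo so ko h5 1)))
        have ht := top_step (m := m) (v := v) (u := u) g5 hx (hoo so' ko' g4) huK g7 g9 h7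
        refine Or.inr ⟨[], d', τ ++ d :: ρ, m + 1, κ' * (u 0 - (Δ.s a si + ki) * u 1), ko', so',
          rfl, heq, by simp, mul_mem g5 (sub_mem (huK 0) (mul_mem hx (huK 1))),
          mul_ne_zero g6 fun h0 => ?_, g4, g2, fun i => by simpa using ht i⟩
        have h0' : g 0 0 * (Δ.s a so + ko) + g 0 1 -
            (Δ.s a si + ki) * (g 1 0 * (Δ.s a so + ko) + g 1 1) = 0 := by
          apply mul_left_cancel₀ h4
          simp only [hu, mulVec_two] at h0
          simp at h0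
          linear_combination h0
        have m00 := hτ.1 0 0
        have m01 := hτ.1 0 1
        have m10 := hτ.1 1 0
        have m11 := hτ.1 1 1
        by_cases hs : so = si
        · subst hs
          have hne : τ ≠ [] := by
            rintro rfl
            have := (List.isChain_cons_cons.1 hr).1 (heq.trans h1.symm)
            rw [← g1, h6] at this
            simp at this
          have hrτ : Red τ := List.IsChain.left_of_append hr.tail
          have k0 := IH τ hne (fun e he => ⟨(h e (by simp [he])).1, h2 e he⟩) hrτ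
          obtain ⟨k1, -, -⟩ := Δ.quad a so (-g 1 0) (g 0 0 - g 1 0 * ko - g 1 1 - ki * g 1 0)
            (g 0 0 * ko + g 0 1 - ki * (g 1 0 * ko + g 1 1)) (neg_mem m10)
            (sub_mem (sub_mem (sub_mem m00 (mul_mem m10 h5)) m11) (mul_mem g3 m10))
            (sub_mem (add_mem (mul_mem m00 h5) m01) (mul_mem g3 (add_mem (mul_mem m10 h5) m11)))
            (by linear_combination h0')
          exact k0 (neg_eq_zero.1 k1)
        · obtain ⟨k1, k2, k3, -⟩ := Δ.bil a so si hs (-g 1 0) (g 0 0 - ki * g 1 0)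
            (-(g 1 0 * ko + g 1 1)) (g 0 0 * ko + g 0 1 - ki * (g 1 0 * ko + g 1 1))
            (neg_mem m10) (sub_mem m00 (mul_mem g3 m10))
            (neg_mem (add_mem (mul_mem m10 h5) m11))
            (sub_mem (add_mem (mul_mem m00 h5) m01) (mul_mem g3 (add_mem (mul_mem m10 h5) m11)))
            (by linear_combination h0')
          have k4 : g 1 0 = 0 := neg_eq_zero.1 k1
          have k5 : g 0 0 = 0 := by rw [k4] at k2; simpa using k2
          apply hτ.2
          rw [det_fin_two, k4, k5]; simp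

theorem exists_max_level (σ : List (DL W)) (h : σ ≠ []) :
    ∃ d ∈ σ, ∀ e ∈ σ, e.α ≤ d.α := by
  classical
  obtain ⟨d, hd, h2⟩ := Finset.exists_max_image σ.toFinset DL.α
    (by simpa [List.toFinset_nonempty_iff] using h)
  exact ⟨d, by simpa using hd, fun e he => h2 e (by simpa using he)⟩

theorem lemA [WellFoundedLT W] (a : W) : ∀ σ : List (DL W), (∀ d ∈ σ, Δ.Good d ∧ d.α ≤ a) →
    Red σ → (∃ d ∈ σ, d.α = a) → ∀ z q : Fin 2 → ℝ, (∀ i, z i ∈ Δ.K a) → z ≠ 0 →
      (∀ i, q i ∈ Δ.K a) → q ≠ 0 →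
        q 0 * (prodN σ *ᵥ z) 0 + q 1 * (prodN σ *ᵥ z) 1 ≠ 0 := by
  induction a using WellFoundedLT.induction with
  | ind a iha =>
  intro σ h hr hex z q hz hz0 hq hq0 h0
  have IH : ∀ τ : List (DL W), τ ≠ [] → (∀ d ∈ τ, Δ.Good d ∧ d.α < a) → Red τ →
      prodN τ 1 0 ≠ 0 := by
    intro τ hne hτ hrτ
    obtain ⟨d, hd, hmax⟩ := exists_max_level τ hne
    have := iha d.α (hτ d hd).2 τ (fun e he => ⟨(hτ e he).1, hmax e he⟩) hrτ ⟨d, hd, rfl⟩
      ![1, 0] ![0, 1] (by intro i; fin_cases i <;> simp) (by simp)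
      (by intro i; fin_cases i <;> simp) (by simp)
    simpa [mulVec_two] using this
  rcases inv_step IH z hz hz0 σ h hr with
    ⟨h1, -, -⟩ | ⟨τ, d, ρ, m, κ, ko, so, rfl, h1, h2, h3, h4, h5, h6, h7⟩
  · obtain ⟨d, hd, rfl⟩ := hex
    exact lt_irrefl _ (h1 d hd)
  · have hτ : Over (Δ.K a) (prodN τ) :=
      over_prodN τ fun e he => ⟨(h e (by simp [he])).1, h2 e he⟩
    set g := prodN τ with hg
    have m00 := hτ.1 0 0
    have m01 := hτ.1 0 1
    have m10 := hτ.1 1 0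
    have m11 := hτ.1 1 1
    have k := neg_mem (add_mem (Dm.mul_mem (Δ.KK' a (hq 0)) (h7 0))
      (Dm.mul_mem (Δ.KK' a (hq 1)) (h7 1)))
    have hp : q 0 * g 0 0 + q 1 * g 1 0 ∈ Δ.K a :=
      add_mem (mul_mem (hq 0) m00) (mul_mem (hq 1) m10)
    have hp' : q 0 * g 0 1 + q 1 * g 1 1 ∈ Δ.K a :=
      add_mem (mul_mem (hq 0) m01) (mul_mem (hq 1) m11)
    have k2 := Dm.top (Δ.tr a) (m := m)
      (a := κ * ((q 0 * g 0 0 + q 1 * g 1 0) * (Δ.s a so + ko) + (q 0 * g 0 1 + q 1 * g 1 1)))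
      (mul_mem h3 (add_mem (mul_mem (Δ.KK' a hp) (add_mem (Δ.sK _ _) (Δ.KK' a h5)))
        (Δ.KK' a hp')))
      (by
        convert k using 1
        generalize prodN (τ ++ d :: ρ) *ᵥ z = v at h0
        simp only [mulVec_two g]
        simp
        linear_combination h0)
    have k3 := (mul_eq_zero.1 k2).resolve_left h4
    obtain ⟨-, k5, k6⟩ := Δ.quad a so 0 _ _ (zero_mem _) hp
      (add_mem (mul_mem hp h5) hp') (by linear_combination k3)
    rw [k5, zero_mul, zero_add] at k6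
    apply hq0
    apply eq_zero_of_vecMul_eq_zero hτ.2
    ext i; fin_cases i
    · simpa [vecMul, dotProduct, Fin.sum_univ_two] using k5
    · simpa [vecMul, dotProduct, Fin.sum_univ_two] using k6

end Data

theorem split_max {W : Type} [LinearOrder W] : ∀ w : List (W × Bool), w ≠ [] →
    ∃ (a : W) (ε : Bool) (σ ρ : List (W × Bool)), w = σ ++ (a, ε) :: ρ ∧
      (∀ d ∈ σ, d.1 ≤ a) ∧ ∀ d ∈ ρ, d.1 < a
  | [], h => absurd rfl h
  | d :: w, _ => by
    by_cases hw : w = []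
    · exact ⟨d.1, d.2, [], [], by simp [hw], by simp, by simp⟩
    · obtain ⟨a, ε, σ, ρ, rfl, h1, h2⟩ := split_max w hw
      by_cases hd : d.1 ≤ a
      · refine ⟨a, ε, d :: σ, ρ, rfl, ?_, h2⟩
        intro e he
        rcases List.mem_cons.1 he with rfl | he
        · exact hd
        · exact h1 e he
      · refine ⟨d.1, d.2, [], σ ++ (a, ε) :: ρ, rfl, by simp, ?_⟩
        intro e he
        rcases List.mem_append.1 he with he | he
        · exact lt_of_le_of_lt (h1 e he) (not_le.1 hd)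
        · rcases List.mem_cons.1 he with rfl | he
          · exact not_le.1 hd
          · exact lt_trans (h2 e he) (not_le.1 hd)

/-- Piecewise projective maps with generic pieces. -/
structure Dyn {W Sym : Type} [LinearOrder W] (Δ : Data W Sym) where
  G : W → Bool → ℝ → ℝ
  Fo : W → Bool → Set ℝ
  T1 : ∀ a ε u, u ∈ Fo a ε → u ∈ Δ.K a ∧ G a ε u ∈ Δ.K a
  T2 : ∀ a ε u, u ∉ Fo a ε → ∃ N, Δ.Good ⟨a, ε, N⟩ ∧ ∃ c : ℝ, c ≠ 0 ∧
    N *ᵥ ![u, 1] = c • ![G a ε u, 1]

namespace Dyn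

variable {W Sym : Type} [LinearOrder W] {Δ : Data W Sym} (Φ : Dyn Δ)

/-- Action of a word. -/
def act (l : List (W × Bool)) (u : ℝ) : ℝ := l.foldr (fun d v => Φ.G d.1 d.2 v) u

theorem K_mono {a b : W} (h : a ≤ b) : Δ.K a ≤ Δ.K b := by
  rcases h.lt_or_eq with h | rfl
  · exact (Δ.KK' a).trans (Δ.K'K a b h)
  · exact le_rfl

theorem G_mem {a b : W} (h : b < a) (ε : Bool) {u : ℝ} (hu : u ∈ Δ.K a) : Φ.G b ε u ∈ Δ.K a := by
  by_cases hF : u ∈ Φ.Fo b ε
  · exact K_mono h.le (Φ.T1 b ε u hF).2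
  · obtain ⟨N, h1, c, hc, h2⟩ := Φ.T2 b ε u hF
    have ho := (h1.over (b := a) h).1
    have e0 := congrFun h2 0
    have e1 := congrFun h2 1
    rw [mulVec_two] at e0 e1
    simp at e0 e1
    have m0 : c * Φ.G b ε u ∈ Δ.K a := e0 ▸ add_mem (mul_mem (ho 0 0) hu) (ho 0 1)
    have m1 : c ∈ Δ.K a := e1 ▸ add_mem (mul_mem (ho 1 0) hu) (ho 1 1)
    have := mul_mem (inv_mem m1) m0
    rwa [← mul_assoc, inv_mul_cancel₀ hc, one_mul] at this

theorem act_mem {a : W} {u : ℝ} (hu : u ∈ Δ.K a) : ∀ l : List (W × Bool),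
    (∀ d ∈ l, d.1 < a) → Φ.act l u ∈ Δ.K a
  | [], _ => hu
  | d :: l, h => Φ.G_mem (h d (by simp)) _ (act_mem hu l fun e he => h e (by simp [he]))

theorem notMem_of_dec [WellFoundedLT W] {a : W} {z : ℝ} (hz : z ∈ Δ.K a) {l : List (W × Bool)}
    (hl : ∀ d ∈ l, d.1 ≤ a) (hex : ∃ d ∈ l, d.1 = a) (hr : FreeGroup.IsReduced l)
    (σ : List (DL W)) (h1 : σ.map (fun d => (d.α, d.ε)) = l) (h2 : ∀ d ∈ σ, Δ.Good d)
    {c u : ℝ} (h3 : prodN σ *ᵥ ![z, 1] = c • ![u, 1]) : u ∉ Δ.K a := by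
  intro hu
  subst h1
  refine Data.lemA (Δ := Δ) a σ (fun d hd => ⟨h2 d hd, hl _ (List.mem_map_of_mem hd)⟩)
    ((List.isChain_map _).1 hr) ?_ ![z, 1] ![1, -u] ?_ (by simp) ?_ (by simp) ?_
  · obtain ⟨d, hd, h⟩ := hex
    obtain ⟨e, he, rfl⟩ := List.mem_map.1 hd
    exact ⟨e, he, h⟩
  · intro i; fin_cases i
    · exact hz
    · exact one_mem _
  · intro i; fin_cases i
    · exact one_mem _
    · exact neg_mem hu
  · rw [h3]; simp; ring

theorem escape [WellFoundedLT W] {a : W} {ε : Bool} {z : ℝ} (hz : z ∈ Δ.K a)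
    (hF : z ∉ Φ.Fo a ε) : ∀ l : List (W × Bool), (∀ d ∈ l, d.1 ≤ a) →
      FreeGroup.IsReduced (l ++ [(a, ε)]) →
      ∃ σ : List (DL W), σ.map (fun d => (d.α, d.ε)) = l ++ [(a, ε)] ∧ (∀ d ∈ σ, Δ.Good d) ∧
        ∃ c : ℝ, prodN σ *ᵥ ![z, 1] = c • ![Φ.act (l ++ [(a, ε)]) z, 1]
  | [], _, _ => by
    obtain ⟨N, h1, c, -, h2⟩ := Φ.T2 a ε z hF
    exact ⟨[⟨a, ε, N⟩], rfl, by simpa using h1, c, by simpa [act] using h2⟩
  | d :: l, h, hr => by
    have hr' : FreeGroup.IsReduced (l ++ [(a, ε)]) := List.IsChain.tail hr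
    have hl : ∀ e ∈ l, e.1 ≤ a := fun e he => h e (by simp [he])
    obtain ⟨σ, h1, h2, c, h3⟩ := escape hz hF l hl hr'
    have hn := notMem_of_dec hz (l := l ++ [(a, ε)])
      (by
        intro e he
        rcases List.mem_append.1 he with he | he
        · exact hl e he
        · rw [List.mem_singleton.1 he])
      ⟨(a, ε), by simp, rfl⟩ hr' σ h1 h2 h3
    have hF' : Φ.act (l ++ [(a, ε)]) z ∉ Φ.Fo d.1 d.2 := fun hm =>
      hn (K_mono (h d (by simp)) (Φ.T1 _ _ _ hm).1)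
    obtain ⟨N, k1, c', -, k2⟩ := Φ.T2 _ _ _ hF'
    refine ⟨⟨d.1, d.2, N⟩ :: σ, by simp [h1], ?_, c * c', ?_⟩
    · intro e he
      rcases List.mem_cons.1 he with rfl | he
      · exact k1
      · exact h2 e he
    · rw [prodN_cons, ← mulVec_mulVec, h3, mulVec_smul, k2, smul_smul]
      rfl

theorem moves [WellFoundedLT W] {ι : Type} (p : ι → ℝ) (hp : ∀ a i, p i ∈ Δ.K a)
    (hF : ∀ (l : List (W × Bool)) a ε, ∃ i, Φ.act l (p i) ∉ Φ.Fo a ε)
    (w : List (W × Bool)) (hw : w ≠ []) (hr : FreeGroup.IsReduced w) :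
    ∃ a i, Φ.act w (p i) ∉ Δ.K a := by
  obtain ⟨a, ε, σ, ρ, rfl, h1, h2⟩ := split_max w hw
  obtain ⟨i, hi⟩ := hF ρ a ε
  have hz := Φ.act_mem (hp a i) ρ h2
  have hr' : FreeGroup.IsReduced (σ ++ [(a, ε)]) := 
    List.IsChain.left_of_append (l₂ := ρ) (by simpa [FreeGroup.IsReduced] using hr)
  obtain ⟨τ, k1, k2, c, k3⟩ := Φ.escape hz hi σ h1 hr'
  refine ⟨a, i, ?_⟩
  have := notMem_of_dec hz (l := σ ++ [(a, ε)])
    (by
      intro e he
      rcases List.mem_append.1 he with he | he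
      · exact h1 e he
      · rw [List.mem_singleton.1 he])
    ⟨(a, ε), by simp, rfl⟩ hr' τ k1 k2 k3
  simpa [act] using this

end Dyn

/-- Model of the line cut at a discrete set of points, each gap cut into a chain of pieces. -/
abbrev Th (I : Type) : Type := I ×ₗ WithBot (ℤ ×ₗ Set.Ico (0 : ℝ) 1)

/-- The parametrisation of the line by the model. -/
noncomputable def mf {I : Type} (Y : I → ℝ) (B : I → ℤ → ℝ) (φ : ℝ → ℝ) (θ : Th I) : ℝ :=
  WithBot.recBotCoe (Y (ofLex θ).1)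
    (fun x => B (ofLex θ).1 (ofLex x).1 +
      φ (ofLex x).2 * (B (ofLex θ).1 ((ofLex x).1 + 1) - B (ofLex θ).1 (ofLex x).1)) (ofLex θ).2

theorem mf_bot {I : Type} (Y : I → ℝ) (B : I → ℤ → ℝ) (φ : ℝ → ℝ) (i : I) :
    mf Y B φ (toLex (i, ⊥)) = Y i := rfl

theorem mf_coe {I : Type} (Y : I → ℝ) (B : I → ℤ → ℝ) (φ : ℝ → ℝ) (i : I) (n : ℤ)
    (t : Set.Ico (0 : ℝ) 1) :
    mf Y B φ (toLex (i, ((toLex (n, t) : ℤ ×ₗ Set.Ico (0 : ℝ) 1) : WithBot _))) =
      B i n + φ t * (B i (n + 1) - B i n) := rfl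

theorem th_cases {I : Type} (θ : Th I) : (∃ i, θ = toLex (i, ⊥)) ∨
    ∃ i n t, θ = toLex (i, ((toLex (n, t) : ℤ ×ₗ Set.Ico (0 : ℝ) 1) : WithBot _)) := by
  obtain ⟨i, x⟩ := θ
  induction x using WithBot.recBotCoe with
  | bot => exact Or.inl ⟨i, rfl⟩
  | coe x => exact Or.inr ⟨i, x.1, x.2, rfl⟩

/-- Hypotheses on the cut points. -/
structure Frame {I : Type} [LinearOrder I] (Y Yn : I → ℝ) (B : I → ℤ → ℝ) : Prop where
  h1 : ∀ i i', i < i' → Yn i ≤ Y i'
  h2 : ∀ u, ∃ i, Y i ≤ u ∧ u < Yn i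
  h3 : ∀ i, StrictMono (B i)
  h4 : ∀ i n, Y i < B i n ∧ B i n < Yn i
  h5 : ∀ i u, Y i < u → u < Yn i → (∃ n, B i n ≤ u) ∧ ∃ n, u < B i n

/-- Hypotheses on the interpolating function. -/
structure Interp (φ : ℝ → ℝ) : Prop where
  mono : StrictMonoOn φ (Set.Ico 0 1)
  maps : Set.MapsTo φ (Set.Ico 0 1) (Set.Ico 0 1)
  surj : Set.SurjOn φ (Set.Ico 0 1) (Set.Ico 0 1)

theorem mf_strictMono {I : Type} [LinearOrder I] {Y Yn : I → ℝ} {B : I → ℤ → ℝ} {φ : ℝ → ℝ}
    (F : Frame Y Yn B) (P : Interp φ) : StrictMono (mf Y B φ) := by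
  have piece : ∀ i n (t : Set.Ico (0 : ℝ) 1), B i n ≤ B i n + φ t * (B i (n + 1) - B i n) ∧
      B i n + φ t * (B i (n + 1) - B i n) < B i (n + 1) := by
    intro i n t
    have h := P.maps t.2
    have hB : B i n < B i (n + 1) := F.h3 i (by omega)
    constructor <;> nlinarith [h.1, h.2]
  have bound : ∀ θ : Th I, Y (ofLex θ).1 ≤ mf Y B φ θ ∧ mf Y B φ θ < Yn (ofLex θ).1 := by
    intro θ
    rcases th_cases θ with ⟨i, rfl⟩ | ⟨i, n, t, rfl⟩
    · exact ⟨le_rfl, (F.h4 i 0).1.trans (F.h4 i 0).2⟩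
    · rw [mf_coe]
      exact ⟨(F.h4 i n).1.le.trans (piece i n t).1, (piece i n t).2.trans (F.h4 i _).2⟩
  intro θ θ' h
  rcases Prod.Lex.lt_iff.1 h with h | ⟨h, h'⟩
  · exact (bound θ).2.trans_le ((F.h1 _ _ h).trans (bound θ').1)
  · rcases th_cases θ with ⟨i, rfl⟩ | ⟨i, n, t, rfl⟩ <;>
      rcases th_cases θ' with ⟨i', rfl⟩ | ⟨i', n', t', rfl⟩
    · simp at h'
    · obtain rfl : i = i' := h
      rw [mf_coe, mf_bot]
      exact (F.h4 i n').1.trans_le (piece i n' t').1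
    · simp at h'
    · obtain rfl : i = i' := h
      rw [mf_coe, mf_coe]
      have h'' : (toLex (n, t) : ℤ ×ₗ Set.Ico (0 : ℝ) 1) < toLex (n', t') :=
        WithBot.coe_lt_coe.1 h'
      rcases Prod.Lex.lt_iff.1 h'' with h3 | ⟨h3, h4⟩
      · have h3' : n + 1 ≤ n' := h3
        exact (piece i n t).2.trans_le (((F.h3 i).monotone h3').trans (piece i n' t').1)
      · obtain rfl : n = n' := h3
        have h5 : φ t < φ t' := P.mono t.2 t'.2 h4
        have hB : B i n < B i (n + 1) := F.h3 i (by omega)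
        nlinarith

theorem mf_surj {I : Type} [LinearOrder I] {Y Yn : I → ℝ} {B : I → ℤ → ℝ} {φ : ℝ → ℝ}
    (F : Frame Y Yn B) (P : Interp φ) : Function.Surjective (mf Y B φ) := by
  intro u
  obtain ⟨i, h1, h2⟩ := F.h2 u
  rcases h1.eq_or_lt with h1 | h1
  · exact ⟨toLex (i, ⊥), h1⟩
  · obtain ⟨h3, n', h4⟩ := F.h5 i u h1 h2
    obtain ⟨n, h5, h6⟩ := Int.exists_greatest_of_bdd (P := fun n => B i n ≤ u)
      ⟨n', fun m hm => ((F.h3 i).lt_iff_lt.1 (hm.trans_lt h4)).le⟩ h3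
    have h7 : u < B i (n + 1) := by
      by_contra h
      have := h6 _ (not_lt.1 h)
      omega
    have hB : 0 < B i (n + 1) - B i n := sub_pos.2 (F.h3 i (by omega))
    obtain ⟨t, ht, h8⟩ := P.surj (show (u - B i n) / (B i (n + 1) - B i n) ∈ Set.Ico (0 : ℝ) 1 from
      ⟨div_nonneg (by linarith) hB.le, (div_lt_one hB).2 (by linarith)⟩)
    refine ⟨toLex (i, ((toLex (n, ⟨t, ht⟩) : ℤ ×ₗ Set.Ico (0 : ℝ) 1) : WithBot _)), ?_⟩
    rw [mf_coe]
    change B i n + φ t * _ = u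
    rw [h8, div_mul_cancel₀ _ hB.ne']; ring

theorem interp_id : Interp id := ⟨strictMonoOn_id, Set.mapsTo_id _, Set.surjOn_id _⟩

/-- The projective interpolation. -/
noncomputable def phi (l t : ℝ) : ℝ := l * t / (l * t + 1 - t)

theorem den_pos {l t : ℝ} (hl : 0 < l) (h0 : 0 ≤ t) (h1 : t < 1) : 0 < l * t + 1 - t := by
  nlinarith [mul_nonneg hl.le h0]

theorem interp_phi {l : ℝ} (hl : 0 < l) : Interp (phi l) := by
  refine ⟨fun s hs t ht hst => ?_, fun t ht => ⟨?_, ?_⟩, fun r hr => ?_⟩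
  · rw [phi, phi, div_lt_div_iff₀ (den_pos hl hs.1 hs.2) (den_pos hl ht.1 ht.2)]
    nlinarith
  · exact div_nonneg (mul_nonneg hl.le ht.1) (den_pos hl ht.1 ht.2).le
  · rw [phi, div_lt_one (den_pos hl ht.1 ht.2)]; linarith [ht.2]
  · have hd : 0 < r + l * (1 - r) := by nlinarith [hr.1, hr.2, mul_pos hl (sub_pos.2 hr.2)]
    refine ⟨r / (r + l * (1 - r)), ⟨div_nonneg hr.1 hd.le, ?_⟩, ?_⟩
    · rw [div_lt_one hd]; nlinarith [mul_pos hl (sub_pos.2 hr.2)]
    · have e : l * (r / (r + l * (1 - r))) + 1 - r / (r + l * (1 - r)) =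
          l / (r + l * (1 - r)) := by field_simp; ring
      rw [phi, e]; field_simp

/-- Parametrisation of an open interval by the line. -/
noncomputable def pt (a b x : ℝ) : ℝ := a + (b - a) * ((1 + (orderIsoIooNegOneOne ℝ x : ℝ)) / 2)

theorem pt_mono {a b : ℝ} (h : a < b) : StrictMono (pt a b) := by
  intro x y hxy
  have : ((orderIsoIooNegOneOne ℝ x : Set.Ioo (-1 : ℝ) 1) : ℝ) < orderIsoIooNegOneOne ℝ y :=
    (orderIsoIooNegOneOne ℝ).strictMono hxy
  unfold pt; nlinarith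

theorem pt_mem {a b : ℝ} (h : a < b) (x : ℝ) : a < pt a b x ∧ pt a b x < b := by
  have h1 := (orderIsoIooNegOneOne ℝ x).2.1
  have h2 := (orderIsoIooNegOneOne ℝ x).2.2
  unfold pt; constructor <;> nlinarith

theorem pt_surj {a b u : ℝ} (h1 : a < u) (h2 : u < b) : ∃ x, pt a b x = u := by
  have hab : 0 < b - a := by linarith
  have hm : 2 * ((u - a) / (b - a)) - 1 ∈ Set.Ioo (-1 : ℝ) 1 := by
    have k1 : 0 < (u - a) / (b - a) := div_pos (by linarith) hab
    have k2 : (u - a) / (b - a) < 1 := (div_lt_one hab).2 (by linarith)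
    constructor <;> linarith
  refine ⟨(orderIsoIooNegOneOne ℝ).symm ⟨_, hm⟩, ?_⟩
  unfold pt
  rw [OrderIso.apply_symm_apply]
  field_simp; ring

/-- Admissible positions of the break points. -/
def Slot (z : Fin 5 → ℝ) (r : Fin 4) (n : ℤ) : Set ℝ :=
  Set.Ioo (pt (z r.castSucc) (z r.succ) n) (pt (z r.castSucc) (z r.succ) ((n : ℝ) + 1))

theorem frame {L : ℝ} (hL : 0 < L) {z : Fin 5 → ℝ} (hz : StrictMono z) (hz4 : z 4 = z 0 + L)
    {b : Fin 4 → ℤ → ℝ} (hb : ∀ r n, b r n ∈ Slot z r n) :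
    Frame (I := ℤ ×ₗ Fin 4) (fun i => z (ofLex i).2.castSucc + (ofLex i).1 * L)
      (fun i => z (ofLex i).2.succ + (ofLex i).1 * L)
      (fun i n => b (ofLex i).2 n + (ofLex i).1 * L) := by
  have hr : ∀ r : Fin 4, z r.castSucc < z r.succ := fun r => hz Fin.castSucc_lt_succ
  refine ⟨fun i i' h => ?_, fun u => ?_, fun i => ?_, fun i n => ?_, fun i u h1 h2 => ?_⟩
  · rcases Prod.Lex.lt_iff.1 h with h | ⟨h, h'⟩
    · have k1 : z (ofLex i).2.succ ≤ z 4 := hz.monotone (Fin.le_last _)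
      have k2 : z 0 ≤ z (ofLex i').2.castSucc := hz.monotone (Fin.zero_le _)
      have k3 : ((ofLex i).1 : ℝ) + 1 ≤ (ofLex i').1 := by exact_mod_cast h
      nlinarith
    · rw [h]
      have : z (ofLex i).2.succ ≤ z (ofLex i').2.castSucc :=
        hz.monotone (Fin.succ_le_castSucc_iff.2 h')
      linarith
  · set k := ⌊(u - z 0) / L⌋ with hk
    have k1 : (k : ℝ) * L ≤ u - z 0 := (le_div_iff₀ hL).1 (Int.floor_le _)
    have k2 : u - z 0 < ((k : ℝ) + 1) * L := (div_lt_iff₀ hL).1 (Int.lt_floor_add_one _)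
    by_cases c1 : u - k * L < z 1
    · exact ⟨toLex (k, 0), by change z 0 + k * L ≤ u; linarith,
        by change u < z 1 + k * L; linarith⟩
    by_cases c2 : u - k * L < z 2
    · exact ⟨toLex (k, 1), by change z 1 + k * L ≤ u; linarith,
        by change u < z 2 + k * L; linarith⟩
    by_cases c3 : u - k * L < z 3
    · exact ⟨toLex (k, 2), by change z 2 + k * L ≤ u; linarith,
        by change u < z 3 + k * L; linarith⟩
    · exact ⟨toLex (k, 3), by change z 3 + k * L ≤ u; linarith,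
        by change u < z 4 + k * L; linarith⟩
  · apply strictMono_int_of_lt_succ
    intro n
    have k1 := (hb (ofLex i).2 n).2
    have k2 := (hb (ofLex i).2 (n + 1)).1
    push_cast at k2
    linarith
  · have k1 := (hb (ofLex i).2 n).1
    have k2 := (hb (ofLex i).2 n).2
    have k3 := (pt_mem (hr (ofLex i).2) n).1
    have k4 := (pt_mem (hr (ofLex i).2) ((n : ℝ) + 1)).2
    constructor <;> linarith
  · obtain ⟨x, hx⟩ := pt_surj (a := z (ofLex i).2.castSucc) (b := z (ofLex i).2.succ)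
      (u := u - (ofLex i).1 * L) (by linarith) (by linarith)
    refine ⟨⟨⌊x⌋ - 1, ?_⟩, ⌊x⌋ + 1, ?_⟩
    · have k1 := (hb (ofLex i).2 (⌊x⌋ - 1)).2
      push_cast at k1
      rw [sub_add_cancel] at k1
      have k2 := (pt_mono (hr (ofLex i).2)).monotone (Int.floor_le x)
      linarith
    · have k1 := (hb (ofLex i).2 (⌊x⌋ + 1)).1
      push_cast at k1
      have k2 := pt_mono (hr (ofLex i).2) (Int.lt_floor_add_one x)
      linarith

theorem exists_iso {L : ℝ} (hL : 0 < L) {z x : Fin 5 → ℝ} (hz : StrictMono z)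
    (hz4 : z 4 = z 0 + L) (hx : StrictMono x) (hx4 : x 4 = x 0 + L)
    {b c : Fin 4 → ℤ → ℝ} (hb : ∀ r n, b r n ∈ Slot z r n) (hc : ∀ r n, c r n ∈ Slot x r n)
    {l : ℝ} (hl : 0 < l) :
    ∃ e : ℝ ≃o ℝ, (∀ u (k : ℤ), e (u + k * L) = e u + k * L) ∧
      (∀ r : Fin 4, e (z r.castSucc) = x r.castSucc) ∧
      ∀ u, (∃ (r : Fin 4) (k : ℤ), u = z r.castSucc + k * L) ∨
        ∃ (r : Fin 4) (k n : ℤ) (t : ℝ), 0 ≤ t ∧ t < 1 ∧ b r n < b r (n + 1) ∧
          c r n < c r (n + 1) ∧ u = b r n + k * L + t * (b r (n + 1) - b r n) ∧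
          e u = c r n + k * L + phi l t * (c r (n + 1) - c r n) := by
  have F1 := frame hL hz hz4 hb
  have F2 := frame hL hx hx4 hc
  set f := (mf_strictMono F1 interp_id).orderIsoOfSurjective _ (mf_surj F1 interp_id) with hf
  set g := (mf_strictMono F2 (interp_phi hl)).orderIsoOfSurjective _
    (mf_surj F2 (interp_phi hl)) with hg
  have key : ∀ θ, (f.symm.trans g) (f θ) = g θ := fun θ => by simp
  have k1 : ∀ (r : Fin 4) (k : ℤ), (f.symm.trans g) (z r.castSucc + k * L) =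
      x r.castSucc + k * L := fun r k => key (toLex (toLex (k, r), ⊥))
  have k2 : ∀ (r : Fin 4) (k n : ℤ) (t : Set.Ico (0 : ℝ) 1),
      (f.symm.trans g) (b r n + k * L + t * (b r (n + 1) - b r n)) =
        c r n + k * L + phi l t * (c r (n + 1) - c r n) := by
    intro r k n t
    have := key (toLex (toLex (k, r), ((toLex (n, t) : ℤ ×ₗ Set.Ico (0 : ℝ) 1) : WithBot _)))
    change (f.symm.trans g) (b r n + k * L + t * (b r (n + 1) + k * L - (b r n + k * L))) =
      c r n + k * L + phi l t * (c r (n + 1) + k * L - (c r n + k * L)) at this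
    simpa using this
  have k3 : ∀ u, (∃ (r : Fin 4) (k : ℤ), u = z r.castSucc + k * L) ∨
      ∃ (r : Fin 4) (k n : ℤ) (t : Set.Ico (0 : ℝ) 1),
        u = b r n + k * L + t * (b r (n + 1) - b r n) := by
    intro u
    obtain ⟨θ, rfl⟩ := mf_surj F1 interp_id u
    rcases th_cases θ with ⟨i, rfl⟩ | ⟨i, n, t, rfl⟩
    · exact Or.inl ⟨(ofLex i).2, (ofLex i).1, rfl⟩
    · exact Or.inr ⟨(ofLex i).2, (ofLex i).1, n, t, by rw [mf_coe]; simp⟩
  refine ⟨f.symm.trans g, fun u m => ?_, fun r => by simpa using k1 r 0, fun u => ?_⟩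
  · rcases k3 u with ⟨r, k, rfl⟩ | ⟨r, k, n, t, rfl⟩
    · have := k1 r (k + m)
      push_cast at this
      rw [k1, add_assoc, add_assoc, ← add_mul, this]
    · have := k2 r (k + m) n t
      push_cast at this
      rw [k2, show b r n + k * L + t * (b r (n + 1) - b r n) + m * L =
        b r n + (k + m) * L + t * (b r (n + 1) - b r n) by ring, this]
      ring
  · rcases k3 u with h | ⟨r, k, n, t, rfl⟩
    · exact Or.inl h
    · refine Or.inr ⟨r, k, n, t, t.2.1, t.2.2, ?_, ?_, rfl, k2 r k n t⟩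
      · simpa using F1.h3 (toLex (0, r)) (show n < n + 1 by omega)
      · simpa using F2.h3 (toLex (0, r)) (show n < n + 1 by omega)


open Cardinal in
theorem exists_generic {ι : Type} (r : ι → ι → Prop) (hr : WellFounded r)
    (hs : ∀ a, #{c | r c a} < 𝔠) (D : ι → Set ℝ) (hD : ∀ a, #(D a) < 𝔠) (P : ι → Set ℝ)
    (hP : ∀ a, #(P a) = 𝔠) : ∃ s : ι → ℝ, ∀ a, s a ∈ P a ∧
      Transcendental (Subfield.closure (D a ∪ s '' {c | r c a})) (s a) := by
  have step : ∀ (a : ι) (S : Set ℝ), ∃ y, #S < 𝔠 →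
      y ∈ P a ∧ Transcendental (Subfield.closure S) y := by
    intro a S
    by_cases hS : #S < 𝔠
    · have h1 : #{x : ℝ | IsAlgebraic (Subfield.closure S) x} < #(P a) := by
        rw [hP]
        refine lt_of_le_of_lt (Algebraic.cardinalMk_le_max (Subfield.closure S) ℝ) ?_
        refine max_lt (lt_of_le_of_lt (Subfield.cardinalMk_closure_le_max S) ?_)
          aleph0_lt_continuum
        exact max_lt hS aleph0_lt_continuum
      obtain ⟨y, hy1, hy2⟩ : ∃ y ∈ P a, y ∉ {x : ℝ | IsAlgebraic (Subfield.closure S) x} := by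
        by_contra hcon
        push Not at hcon
        exact absurd (mk_le_mk_of_subset hcon) (not_le.2 h1)
      exact ⟨y, fun _ => ⟨hy1, hy2⟩⟩
    · exact ⟨0, fun h => absurd h hS⟩
  choose pick hpick using step
  let s : ι → ℝ := hr.fix fun a rec =>
    pick a (D a ∪ Set.range fun c : {c | r c a} => rec c.1 c.2)
  have hx : ∀ a, s a = pick a (D a ∪ s '' {c | r c a}) := fun a => by
    rw [Set.image_eq_range]
    exact hr.fix_eq _ a
  refine ⟨s, fun a => ?_⟩
  have h := hpick a (D a ∪ s '' {c | r c a}) (lt_of_le_of_lt (mk_union_le _ _)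
    (add_lt_of_lt aleph0_le_continuum (hD a) (lt_of_le_of_lt mk_image_le (hs a))))
  rwa [← hx] at h

theorem quad_of_tr {F : Subfield ℝ} {x : ℝ} (h : Transcendental F x) {p q r : ℝ} (hp : p ∈ F)
    (hq : q ∈ F) (hr : r ∈ F) (e : p * x ^ 2 + q * x + r = 0) : p = 0 ∧ q = 0 ∧ r = 0 := by
  have m0 : r * x ^ 0 ∈ Dm F x 1 := Dm.mul_mem hr (Dm.pow_mem 0)
  have m1 : q * x ^ 1 ∈ Dm F x 2 := Dm.mul_mem hq (Dm.pow_mem 1)
  have k1 : p = 0 := Dm.top h (m := 2) hp (by
    have := neg_mem (add_mem m1 (Dm.mono m0))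
    convert this using 1
    linear_combination e)
  have k2 : q = 0 := Dm.top h (m := 1) hq (by
    have := neg_mem m0
    convert this using 1
    rw [k1] at e
    linear_combination e)
  refine ⟨k1, k2, ?_⟩
  rw [k1, k2] at e
  linear_combination e

/-- Names of the break points. -/
abbrev Sym : Type := (Fin 4 × ℤ) × Bool

/-- Rank of a parameter inside one level. -/
def rk : Option Sym → ℕ∞
  | none => ⊤
  | some σ => (Encodable.encode σ : ℕ)

open RigidReals in
/-- The order in which parameters are chosen. -/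
def rel (a b : W × Option Sym) : Prop := a.1 < b.1 ∨ (a.1 = b.1 ∧ rk a.2 < rk b.2)

open RigidReals in
theorem rel_wf : WellFounded rel := by
  have := InvImage.wf (fun a : W × Option Sym => (a.1, rk a.2))
    (WellFounded.prod_lex (wellFounded_lt (α := W)) (wellFounded_lt (α := ℕ∞)))
  refine Subrelation.wf (fun {a b} h => ?_) this
  exact Prod.lex_def.2 h

open RigidReals Cardinal in
theorem mk_Iic_W (a : W) : #(Set.Iic a) < 𝔠 := by
  rw [← Set.Iio_insert]
  exact lt_of_le_of_lt mk_insert_le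
    (add_lt_of_lt aleph0_le_continuum (mk_Iio_W a) (lt_trans one_lt_aleph0 aleph0_lt_continuum))

open RigidReals Cardinal in
theorem small_prod (a : W) (X : Type) [Countable X] : #(Set.Iic a × X) < 𝔠 := by
  rw [mk_prod, lift_id, lift_id]
  exact mul_lt_of_lt aleph0_le_continuum (mk_Iic_W a)
    (lt_of_le_of_lt mk_le_aleph0 aleph0_lt_continuum)

open RigidReals Cardinal in
theorem exists_data (L : ℝ) (z x : W → Fin 5 → ℝ) (hz : ∀ a, StrictMono (z a))
    (hx : ∀ a, StrictMono (x a)) :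
    ∃ Δ : Data W Sym, Δ.side = Prod.snd ∧ (∀ a, L ∈ Δ.K a) ∧ (∀ a i, z a i ∈ Δ.K a) ∧
      (∀ a i, x a i ∈ Δ.K a) ∧ (∀ a, 0 < Δ.lam a) ∧
      (∀ a r n, Δ.s a ((r, n), true) ∈ Slot (z a) r n) ∧
      ∀ a r n, Δ.s a ((r, n), false) ∈ Slot (x a) r n := by
  let D : W → Set ℝ := fun a => insert L (Set.range fun q : Set.Iic a × Fin 5 × Bool =>
    if q.2.2 then z q.1 q.2.1 else x q.1 q.2.1)
  have hD : ∀ a, #(D a) < 𝔠 := fun a => lt_of_le_of_lt mk_insert_le
    (add_lt_of_lt aleph0_le_continuum (lt_of_le_of_lt mk_range_le (small_prod a _))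
      (lt_trans one_lt_aleph0 aleph0_lt_continuum))
  have hDm : ∀ a b, a ≤ b → D a ⊆ D b := by
    intro a b h
    apply Set.insert_subset_insert
    rintro _ ⟨q, rfl⟩
    exact ⟨(⟨q.1.1, le_trans q.1.2 h⟩, q.2), rfl⟩
  let P : W × Option Sym → Set ℝ := fun a => match a.2 with
    | none => Set.Ioi 0
    | some σ => if σ.2 then Slot (z a.1) σ.1.1 σ.1.2 else Slot (x a.1) σ.1.1 σ.1.2
  have hsl : ∀ (y : Fin 5 → ℝ), StrictMono y → ∀ r n, #(Slot y r n) = 𝔠 := fun y hy r n =>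
    mk_Ioo_real (pt_mono (hy Fin.castSucc_lt_succ) (by linarith))
  obtain ⟨s, hs⟩ := exists_generic rel rel_wf (fun a => by
      refine lt_of_le_of_lt ?_ (small_prod a.1 (Option Sym))
      refine mk_le_of_injective (f := fun c => (⟨c.1.1, ?_⟩, c.1.2)) ?_
      · rcases c.2 with h | h
        · exact h.le
        · exact h.1.le
      · intro c c' h
        simp only [Prod.mk.injEq, Subtype.mk.injEq] at h
        exact Subtype.ext (Prod.ext h.1 h.2))
    (fun a => D a.1) (fun a => hD a.1) P (by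
      rintro ⟨a, _ | ⟨σ, _ | _⟩⟩
      · exact mk_Ioi_real 0
      · exact hsl _ (hx a) _ _
      · exact hsl _ (hz a) _ _)
  let K : W → Subfield ℝ := fun a => Subfield.closure (D a ∪ s '' {c | c.1 < a})
  let F : W × Option Sym → Subfield ℝ := fun a => Subfield.closure (D a.1 ∪ s '' {c | rel c a})
  have KF : ∀ a o, K a ≤ F (a, o) := fun a o =>
    Subfield.closure_mono (Set.union_subset_union_right _ (Set.image_mono fun c hc => Or.inl hc))
  have sF : ∀ c a, rel c a → s c ∈ F a := fun c a h =>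
    Subfield.subset_closure (Or.inr ⟨c, h, rfl⟩)
  have DK : ∀ a, D a ⊆ K a := fun a y hy => Subfield.subset_closure (Or.inl hy)
  have bil0 : ∀ a σ σ', Encodable.encode σ < Encodable.encode σ' → ∀ p q r t, p ∈ K a →
      q ∈ K a → r ∈ K a → t ∈ K a →
      p * (s (a, some σ) * s (a, some σ')) + q * s (a, some σ) + r * s (a, some σ') + t = 0 →
      p = 0 ∧ q = 0 ∧ r = 0 ∧ t = 0 := by
    intro a σ σ' h p q r t hp hq hr ht e
    have m : s (a, some σ) ∈ F (a, some σ') :=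
      sF _ _ (Or.inr ⟨rfl, by simpa [rk] using h⟩)
    obtain ⟨-, k1, k2⟩ := quad_of_tr (hs (a, some σ')).2 (zero_mem _)
      (add_mem (mul_mem (KF a _ hp) m) (KF a _ hr))
      (add_mem (mul_mem (KF a _ hq) m) (KF a _ ht)) (by linear_combination e)
    obtain ⟨-, k3, k4⟩ := quad_of_tr (hs (a, some σ)).2 (zero_mem _) (KF a _ hp) (KF a _ hr)
      (by linear_combination k1)
    obtain ⟨-, k5, k6⟩ := quad_of_tr (hs (a, some σ)).2 (zero_mem _) (KF a _ hq) (KF a _ ht)
      (by linear_combination k2)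
    exact ⟨k3, k5, k4, k6⟩
  refine ⟨{ K := K
            K' := fun a => F (a, none)
            s := fun a σ => s (a, some σ)
            lam := fun a => s (a, none)
            side := Prod.snd
            KK' := fun a => KF a none
            K'K := fun a b h => Subfield.closure_mono (Set.union_subset_union (hDm a b h.le)
              (Set.image_mono fun c hc => ?_))
            lamK := fun a b h => Subfield.subset_closure (Or.inr ⟨(a, none), h, rfl⟩)
            sK := fun a σ => sF _ _ (Or.inr ⟨rfl, by simp [rk]⟩)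
            quad := fun a σ p q r hp hq hr e =>
              quad_of_tr (hs (a, some σ)).2 (KF a _ hp) (KF a _ hq) (KF a _ hr) e
            bil := fun a σ σ' h p q r t hp hq hr ht e => ?_
            tr := fun a => (hs (a, none)).2 }, rfl, fun a => DK a (Or.inl rfl),
    fun a i => DK a (Or.inr ⟨(⟨a, Set.mem_Iic.2 le_rfl⟩, i, true), rfl⟩),
    fun a i => DK a (Or.inr ⟨(⟨a, Set.mem_Iic.2 le_rfl⟩, i, false), rfl⟩),
    fun a => (hs (a, none)).1, fun a r n => (hs (a, some ((r, n), true))).1,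
    fun a r n => (hs (a, some ((r, n), false))).1⟩
  · rcases hc with hc | hc
    · exact lt_trans hc h
    · exact lt_of_eq_of_lt hc.1 h
  · rcases lt_or_gt_of_ne (fun h' => h (Encodable.encode_injective h')) with h' | h'
    · exact bil0 a σ σ' h' p q r t hp hq hr ht e
    · obtain ⟨k1, k2, k3, k4⟩ := bil0 a σ' σ h' p r q t hp hr hq ht (by linear_combination e)
      exact ⟨k1, k3, k2, k4⟩

open Real in
theorem descend (e : ℝ ≃o ℝ) (he : ∀ u (k : ℤ), e (u + k * (2 * π)) = e u + k * (2 * π)) :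
    ∃ γ : Circle ≃ₜ Circle, ∀ t, γ (Circle.exp t) = Circle.exp (e t) := by
  have key : ∀ f : ℝ → ℝ, Continuous f → (∀ u (k : ℤ), f (u + k * (2 * π)) = f u + k * (2 * π)) →
      ∃ F : Circle → Circle, Continuous F ∧ ∀ t, F (Circle.exp t) = Circle.exp (f t) := by
    intro f hf h
    have h1 : ∀ t, Circle.exp (f (Complex.arg (Circle.exp t))) = Circle.exp (f t) := by
      intro t
      obtain ⟨m, hm⟩ := Circle.exp_eq_exp.1 (Circle.exp_arg (Circle.exp t))
      rw [hm, h]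
      exact Circle.exp_eq_exp.2 ⟨m, rfl⟩
    refine ⟨fun w => Circle.exp (f (Complex.arg w)), ?_, h1⟩
    have hq : Topology.IsQuotientMap Circle.exp :=
      Circle.isCoveringMap_exp.isQuotientMap Circle.exp_surjective
    rw [hq.continuous_iff]
    have : ((fun w : Circle => Circle.exp (f (Complex.arg w))) ∘ Circle.exp) =
        fun t => Circle.exp (f t) := funext h1
    rw [this]
    exact Circle.exp.continuous.comp hf
  obtain ⟨F, hF, h1⟩ := key e e.continuous he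
  obtain ⟨G, hG, h2⟩ := key e.symm e.symm.continuous (fun u k => by
    apply e.injective; rw [he]; simp)
  refine ⟨⟨⟨F, G, fun w => ?_, fun w => ?_⟩, hF, hG⟩, h1⟩
  · obtain ⟨t, rfl⟩ := Circle.exp_surjective w
    rw [h1, h2]; simp
  · obtain ⟨t, rfl⟩ := Circle.exp_surjective w
    rw [h2, h1]; simp

open RigidReals in
theorem exists_dyn {L : ℝ} (hL : 0 < L) (z x : W → Fin 5 → ℝ) (hz : ∀ a, StrictMono (z a))
    (hz4 : ∀ a, z a 4 = z a 0 + L) (hx : ∀ a, StrictMono (x a)) (hx4 : ∀ a, x a 4 = x a 0 + L) :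
    ∃ (Δ : Data W Sym) (Φ : Dyn Δ) (e : W → ℝ ≃o ℝ), (∀ a, L ∈ Δ.K a) ∧
      (∀ a, Φ.G a true = e a) ∧ (∀ a, Φ.G a false = (e a).symm) ∧
      (∀ a u (k : ℤ), e a (u + k * L) = e a u + k * L) ∧
      (∀ a (r : Fin 4), e a (z a r.castSucc) = x a r.castSucc) ∧
      ∀ a ε, ∃ y : Fin 4 → ℝ, ∀ u ∈ Φ.Fo a ε, ∃ (r : Fin 4) (k : ℤ), u = y r + k * L := by
  obtain ⟨Δ, hs, hLK, hzK, hxK, hl, hb, hc⟩ := exists_data L z x hz hx
  choose e he1 he2 he3 using fun a => exists_iso hL (hz a) (hz4 a) (hx a) (hx4 a)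
    (b := fun r n => Δ.s a ((r, n), true)) (c := fun r n => Δ.s a ((r, n), false))
    (hb a) (hc a) (hl a)
  have hk : ∀ a (k : ℤ), (k : ℝ) * L ∈ Δ.K a := fun a k => mul_mem (intCast_mem _ k) (hLK a)
  have hLo : ∀ a (σ σ' : Sym) (k : ℤ) (i j : Fin 2),
      (![Δ.s a σ + k * L, 1] : Fin 2 → ℝ) i * (![1, -(Δ.s a σ' + k * L)] : Fin 2 → ℝ) j ∈
        Δ.K' a := by
    intro a σ σ' k i j
    refine mul_mem ?_ ?_
    · fin_cases i
      · exact add_mem (Δ.sK _ _) (Δ.KK' a (hk a k))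
      · exact one_mem _
    · fin_cases j
      · exact one_mem _
      · exact neg_mem (add_mem (Δ.sK _ _) (Δ.KK' a (hk a k)))
  refine ⟨Δ, { G := fun a ε => cond ε (e a) (e a).symm
               Fo := fun a ε => {u | ∃ (r : Fin 4) (k : ℤ),
                 u = cond ε (z a) (x a) r.castSucc + k * L}
               T1 := ?_
               T2 := ?_ }, e, hLK, fun _ => rfl, fun _ => rfl, he1, he2,
    fun a ε => ⟨fun r => cond ε (z a) (x a) r.castSucc, fun u hu => hu⟩⟩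
  · rintro a (_ | _) u ⟨r, k, rfl⟩
    · refine ⟨add_mem (hxK _ _) (hk a k), ?_⟩
      change (e a).symm (x a r.castSucc + k * L) ∈ _
      rw [← he2, ← he1, OrderIso.symm_apply_apply]
      exact add_mem (hzK _ _) (hk a k)
    · refine ⟨add_mem (hzK _ _) (hk a k), ?_⟩
      change e a (z a r.castSucc + k * L) ∈ _
      rw [he1, he2]
      exact add_mem (hxK _ _) (hk a k)
  · rintro a (_ | _) u hu
    · rcases he3 a ((e a).symm u) with ⟨r, k, h⟩ | ⟨r, k, n, t, t0, t1, h1, h2, h3, h4⟩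
      · exfalso
        apply hu
        refine ⟨r, k, ?_⟩
        have := congrArg (e a) h
        rwa [OrderIso.apply_symm_apply, he1, he2] at this
      · rw [OrderIso.apply_symm_apply] at h4
        have hd := den_pos (hl a) t0 t1
        refine ⟨Matrix.of fun i j => Δ.lam a * (-1) *
            (![Δ.s a ((r, n), true) + k * L, 1] i * ![1, -(Δ.s a ((r, n + 1), false) + k * L)] j) +
            ![Δ.s a ((r, n + 1), true) + k * L, 1] i * ![1, -(Δ.s a ((r, n), false) + k * L)] j,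
          ⟨((r, n + 1), false), ((r, n), true), k * L, k * L, -1, Matrix.of fun i j =>
            ![Δ.s a ((r, n + 1), true) + k * L, 1] i * ![1, -(Δ.s a ((r, n), false) + k * L)] j,
            by rw [hs], by rw [hs]; rfl, hk a k, hk a k, neg_mem (one_mem _), by simp,
            hLo a _ _ k, ?_, fun _ _ => rfl⟩,
          (Δ.s a ((r, n + 1), false) - Δ.s a ((r, n), false)) * Δ.lam a / (Δ.lam a * t + 1 - t),
          div_ne_zero (mul_ne_zero (sub_pos.2 h2).ne' (hl a).ne') hd.ne', ?_⟩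
        · rw [det_fin_two]
          have := mul_ne_zero (hl a).ne' (mul_ne_zero (sub_pos.2 h1).ne' (sub_pos.2 h2).ne')
          convert this using 1
          simp; ring
        · ext i
          rw [mulVec_two]
          change _ = _ * (![(e a).symm u, 1] : Fin 2 → ℝ) i
          rw [h3]
          have h5 := hd.ne'
          fin_cases i
          · simp only [Matrix.of_apply, Fin.zero_eta, Matrix.cons_val_zero, Matrix.cons_val_one]
            rw [h4, phi]; field_simp; ring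
          · simp only [Matrix.of_apply, Fin.mk_one, Matrix.cons_val_zero, Matrix.cons_val_one]
            rw [h4, phi]; field_simp; ring
    · rcases he3 a u with h | ⟨r, k, n, t, t0, t1, h1, h2, h3, h4⟩
      · exact absurd h hu
      · have hd := den_pos (hl a) t0 t1
        refine ⟨Matrix.of fun i j => Δ.lam a * 1 *
            (![Δ.s a ((r, n + 1), false) + k * L, 1] i * ![1, -(Δ.s a ((r, n), true) + k * L)] j) +
            -(![Δ.s a ((r, n), false) + k * L, 1] i * ![1, -(Δ.s a ((r, n + 1), true) + k * L)] j),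
          ⟨((r, n), true), ((r, n + 1), false), k * L, k * L, 1, Matrix.of fun i j =>
            -(![Δ.s a ((r, n), false) + k * L, 1] i * ![1, -(Δ.s a ((r, n + 1), true) + k * L)] j),
            by rw [hs], by rw [hs]; rfl, hk a k, hk a k, one_mem _, by simp,
            fun i j => neg_mem (hLo a _ _ k i j), ?_, fun _ _ => rfl⟩,
          (Δ.s a ((r, n + 1), true) - Δ.s a ((r, n), true)) * (Δ.lam a * t + 1 - t),
          mul_ne_zero (sub_pos.2 h1).ne' hd.ne', ?_⟩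
        · rw [det_fin_two]
          have := mul_ne_zero (hl a).ne' (mul_ne_zero (sub_pos.2 h1).ne' (sub_pos.2 h2).ne')
          convert this using 1
          simp; ring
        · ext i
          rw [mulVec_two]
          change _ = _ * (![e a u, 1] : Fin 2 → ℝ) i
          rw [h4]
          have h5 := hd.ne'
          fin_cases i
          · simp only [Matrix.of_apply, Fin.zero_eta, Matrix.cons_val_zero, Matrix.cons_val_one]
            rw [h3, phi]; field_simp; ring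
          · simp only [Matrix.of_apply, Fin.mk_one, Matrix.cons_val_zero, Matrix.cons_val_one]
            rw [h3]; ring

open Real

/-- Closing up a cyclically ordered quadruple. -/
noncomputable def cl5 (t : Fin 4 → ℝ) : Fin 5 → ℝ := ![t 0, t 1, t 2, t 3, t 0 + 2 * π]

theorem cl5_mono {t : Fin 4 → ℝ} (h : StrictMono t) (h' : ∀ i j, t j < t i + 2 * π) :
    StrictMono (cl5 t) := by
  rw [Fin.strictMono_iff_lt_succ]
  intro i
  fin_cases i
  · exact h (show (0 : Fin 4) < 1 by decide)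
  · exact h (show (1 : Fin 4) < 2 by decide)
  · exact h (show (2 : Fin 4) < 3 by decide)
  · exact h' 0 3

theorem cl5_cast (t : Fin 4 → ℝ) (r : Fin 4) : cl5 t r.castSucc = t r := by
  fin_cases r <;> rfl

/-- Pairs of cyclically ordered quadruples. -/
def Adm : Type := {p : (Fin 4 → ℝ) × (Fin 4 → ℝ) //
  (StrictMono p.1 ∧ ∀ i j, p.1 j < p.1 i + 2 * π) ∧ StrictMono p.2 ∧ ∀ i j, p.2 j < p.2 i + 2 * π}

theorem nat_tuple (n : ℕ) (hn : n ≤ 6) (c : ℝ) : StrictMono (fun i : Fin n => (i : ℝ) + c) ∧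
    ∀ i j : Fin n, (j : ℝ) + c < (i : ℝ) + c + 2 * π := by
  refine ⟨fun i j h => ?_, fun i j => ?_⟩
  · have : ((i : ℕ) : ℝ) < (j : ℕ) := by exact_mod_cast h
    simpa using this
  · have h1 : ((j : ℕ) : ℝ) ≤ 6 := by exact_mod_cast j.2.le.trans hn
    have h2 : (0 : ℝ) ≤ (i : ℕ) := Nat.cast_nonneg _
    linarith [pi_gt_three]

theorem small_mult {u : ℝ} {k : ℤ} (h : u = k * (2 * π)) (h1 : -6 < u) (h2 : u < 6) : u = 0 := by
  have hp := pi_gt_three
  have k1 : (k : ℝ) < 1 := by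
    by_contra hc
    nlinarith [not_lt.1 hc]
  have k2 : (-1 : ℝ) < k := by
    by_contra hc
    nlinarith [not_lt.1 hc]
  have k3 : k < 1 := by exact_mod_cast k1
  have k4 : -1 < k := by exact_mod_cast k2
  have : k = 0 := by omega
  rw [h, this]; simp

open RigidReals Cardinal in
theorem exists_enum : ∃ en : W → Adm, Function.Surjective en := by
  have hne : Nonempty Adm := ⟨⟨(fun i => (i : ℝ) + 0, fun i => (i : ℝ) + 0),
    nat_tuple 4 (by norm_num) 0, nat_tuple 4 (by norm_num) 0⟩⟩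
  have hle : #Adm ≤ #W := by
    rw [mk_W]
    refine le_trans (mk_subtype_le _) ?_
    have h4 : (𝔠 : Cardinal.{0}) ^ (4 : Cardinal.{0}) = 𝔠 := by
      have := power_nat_eq (c := 𝔠) (n := 4) aleph0_le_continuum (by norm_num)
      rwa [← power_natCast] at this
    simp [mk_real, h4]
  obtain ⟨f⟩ := (le_def _ _).1 hle
  exact ⟨Function.invFun f, Function.invFun_surjective f.injective⟩

open RigidReals in
theorem main :
    ∃ n : ℕ, 4 ≤ n ∧ ∃ Γ : Subgroup (Circle ≃ₜ Circle),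
      (∀ x y : Fin n → Circle,
        (∃ t : Fin n → ℝ, StrictMono t ∧ (∀ i j, t j < t i + 2 * π) ∧
            ∀ i, x i = Circle.exp (t i)) →
        (∃ s : Fin n → ℝ, StrictMono s ∧ (∀ i j, s j < s i + 2 * π) ∧
            ∀ i, y i = Circle.exp (s i)) →
        ∃ γ ∈ Γ, ∀ i, x i = γ (y i)) ∧
      ¬ (∀ x y : Fin (n + 1) → Circle,
        (∃ t : Fin (n + 1) → ℝ, StrictMono t ∧ (∀ i j, t j < t i + 2 * π) ∧
            ∀ i, x i = Circle.exp (t i)) →
        (∃ s : Fin (n + 1) → ℝ, StrictMono s ∧ (∀ i j, s j < s i + 2 * π) ∧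
            ∀ i, y i = Circle.exp (s i)) →
        ∃ γ ∈ Γ, ∀ i, x i = γ (y i)) := by
  classical
  obtain ⟨en, hen⟩ := exists_enum
  obtain ⟨Δ, Φ, e, hL, g1, g2, he1, he2, hF⟩ := exists_dyn (L := 2 * π) (by positivity)
    (fun a => cl5 (en a).1.1) (fun a => cl5 (en a).1.2)
    (fun a => cl5_mono (en a).2.1.1 (en a).2.1.2) (fun _ => rfl)
    (fun a => cl5_mono (en a).2.2.1 (en a).2.2.2) (fun _ => rfl)
  let Λ : FreeGroup W →* Equiv.Perm ℝ := FreeGroup.lift fun a => (e a).toEquiv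
  have hΛ : ∀ (l : List (W × Bool)) t, Λ (FreeGroup.mk l) t = Φ.act l t := by
    intro l t
    induction l with
    | nil => rfl
    | cons d l ih =>
      have : FreeGroup.mk (d :: l) = FreeGroup.mk [d] * FreeGroup.mk l := rfl
      rw [this, map_mul, Equiv.Perm.mul_apply, ih]
      change _ = Φ.G d.1 d.2 _
      obtain ⟨a, _ | _⟩ := d
      · rw [g2]; simp [Λ, FreeGroup.lift_mk]; rfl
      · rw [g1]; simp [Λ, FreeGroup.lift_mk]; rfl
  have hsh : ∀ (l : List (W × Bool)) u (k : ℤ),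
      Φ.act l (u + k * (2 * π)) = Φ.act l u + k * (2 * π) := by
    intro l u k
    induction l with
    | nil => rfl
    | cons d l ih =>
      change Φ.G d.1 d.2 (Φ.act l _) = Φ.G d.1 d.2 (Φ.act l _) + _
      rw [ih]
      obtain ⟨a, _ | _⟩ := d
      · rw [g2]; apply (e a).injective; rw [he1]; simp
      · rw [g1, he1]
  let Γ : Subgroup (Circle ≃ₜ Circle) :=
    { carrier := {γ | ∃ w : FreeGroup W, ∀ t, γ (Circle.exp t) = Circle.exp (Λ w t)}
      one_mem' := ⟨1, fun t => by simp⟩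
      mul_mem' := by
        rintro γ γ' ⟨w, h⟩ ⟨w', h'⟩
        exact ⟨w * w', fun t => by rw [Homeomorph.mul_apply, h', h, map_mul]; rfl⟩
      inv_mem' := by
        rintro γ ⟨w, h⟩
        refine ⟨w⁻¹, fun t => ?_⟩
        apply γ.injective
        rw [h, map_inv]; simp }
  refine ⟨4, le_rfl, Γ, ?_, fun H => ?_⟩
  · rintro x y ⟨t, ht⟩ ⟨s, hs⟩
    obtain ⟨a, ha⟩ := hen ⟨(s, t), ⟨hs.1, hs.2.1⟩, ht.1, ht.2.1⟩
    obtain ⟨γ, hγ⟩ := descend (e a) (he1 a)
    refine ⟨γ, ⟨FreeGroup.of a, fun u => by rw [hγ]; simp [Λ]⟩, fun i => ?_⟩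
    have := he2 a i
    rw [ha, cl5_cast, cl5_cast] at this
    rw [hs.2.2, hγ, ht.2.2, this]
  · obtain ⟨γ, ⟨w, hw⟩, h⟩ := H (fun i => Circle.exp ((i : ℝ) + 1)) (fun i => Circle.exp ((i : ℝ) + 0))
      ⟨_, (nat_tuple 5 (by norm_num) 1).1, (nat_tuple 5 (by norm_num) 1).2, fun _ => rfl⟩
      ⟨_, (nat_tuple 5 (by norm_num) 0).1, (nat_tuple 5 (by norm_num) 0).2, fun _ => rfl⟩
    have h1 : ∀ i : Fin 5, ∃ k : ℤ, (i : ℝ) + 1 = Φ.act w.toWord ((i : ℝ) + 0) + k * (2 * π) := by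
      intro i
      have := h i
      rw [hw, ← FreeGroup.mk_toWord (x := w), hΛ] at this
      exact Circle.exp_eq_exp.1 this
    by_cases h0 : w.toWord = []
    · obtain ⟨k, hk⟩ := h1 0
      rw [h0] at hk
      have : (1 : ℝ) = k * (2 * π) := by simpa [Dyn.act] using hk
      exact one_ne_zero (small_mult this (by norm_num) (by norm_num))
    · obtain ⟨a, i, hi⟩ := Φ.moves (fun i : Fin 5 => (i : ℝ) + 0)
        (fun a i => add_mem (natCast_mem _ _) (zero_mem _)) (by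
          intro l a ε
          by_contra hc
          push Not at hc
          obtain ⟨y, hy⟩ := hF a ε
          choose r k hrk using fun i => hy _ (hc i)
          obtain ⟨i, j, hij, hr⟩ := Fintype.exists_ne_map_eq_of_card_lt r (by simp)
          have k1 : Φ.act l ((i : ℝ) + 0) = Φ.act l ((j : ℝ) + 0 + (k i - k j : ℤ) * (2 * π)) := by
            rw [hsh, hrk i, hrk j, hr]; push_cast; ring
          rw [← hΛ, ← hΛ] at k1
          have k2 := (Λ (FreeGroup.mk l)).injective k1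
          have a1 : ((i : ℕ) : ℝ) < 5 := by exact_mod_cast i.2
          have a2 : ((j : ℕ) : ℝ) < 5 := by exact_mod_cast j.2
          have a3 : (0 : ℝ) ≤ (i : ℕ) := Nat.cast_nonneg _
          have a4 : (0 : ℝ) ≤ (j : ℕ) := Nat.cast_nonneg _
          have k3 := small_mult (u := (i : ℝ) - j) (k := k i - k j) (by linarith)
            (by linarith) (by linarith)
          apply hij
          apply Fin.ext
          exact_mod_cast sub_eq_zero.1 k3) w.toWord h0 FreeGroup.isReduced_toWord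
      obtain ⟨k, hk⟩ := h1 i
      apply hi
      rw [eq_sub_of_add_eq hk.symm]
      exact sub_mem (add_mem (natCast_mem _ _) (one_mem _)) (mul_mem (intCast_mem _ _) (hL a))

end Pool.Agent.H73.CircTrans
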