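import Pool.Agent.H73.RigidField

namespace Pool.Agent.H73.Complete

variable {K : Type} [Field K]

/-- Heisenberg type group -/
@[ext] structure E (l : K →+ ZMod 3) where
  x : K
  y : K
  c : ZMod 3

variable {l : K →+ ZMod 3}

instance : Mul (E l) := ⟨fun p q => ⟨p.x + q.x, p.y + q.y, p.c + q.c + l (p.x * q.y - q.x * p.y)⟩⟩
instance : One (E l) := ⟨⟨0, 0, 0⟩⟩
instance : Inv (E l) := ⟨fun p => ⟨-p.x, -p.y, -p.c⟩⟩

@[simp] theorem mul_x (p q : E l) : (p * q).x = p.x + q.x := rfl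
@[simp] theorem mul_y (p q : E l) : (p * q).y = p.y + q.y := rfl
@[simp] theorem mul_c (p q : E l) : (p * q).c = p.c + q.c + l (p.x * q.y - q.x * p.y) := rfl
@[simp] theorem one_x : (1 : E l).x = 0 := rfl
@[simp] theorem one_y : (1 : E l).y = 0 := rfl
@[simp] theorem one_c : (1 : E l).c = 0 := rfl
@[simp] theorem inv_x (p : E l) : (p⁻¹).x = -p.x := rfl
@[simp] theorem inv_y (p : E l) : (p⁻¹).y = -p.y := rfl
@[simp] theorem inv_c (p : E l) : (p⁻¹).c = -p.c := rfl

instance : Group (E l) := Group.ofLeftAxioms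
  (fun p q r => by
    ext
    · simp [add_assoc]
    · simp [add_assoc]
    · simp only [mul_x, mul_y, mul_c, add_mul, mul_add, map_add, map_sub]; ring)
  (fun p => by ext <;> simp)
  (fun p => by ext <;> simp [mul_comm])

def IsDg (g : MulAut (E l)) (a b : K) (e : ZMod 3) : Prop :=
  ∀ p, g p = ⟨a * p.x, b * p.y, e * p.c⟩

def IsAn (g : MulAut (E l)) (a b : K) (e : ZMod 3) : Prop :=
  ∀ p, g p = ⟨a * p.y, b * p.x, e * p.c⟩

theorem ne_one {g : MulAut (E l)} {p : E l} (hp : p ≠ 1) : g p ≠ 1 :=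
  fun h => hp (g.injective (h.trans (map_one g).symm))

theorem X_ne : (⟨1, 0, 0⟩ : E l) ≠ 1 := fun h => by simpa using congrArg E.x h
theorem Y_ne : (⟨0, 1, 0⟩ : E l) ≠ 1 := fun h => by simpa using congrArg E.y h
theorem Z_ne : (⟨0, 0, 1⟩ : E l) ≠ 1 := fun h => by
  have : (1 : ZMod 3) = 0 := congrArg E.c h
  revert this; decide

theorem IsDg.ne {g : MulAut (E l)} {a b : K} {e : ZMod 3} (h : IsDg g a b e) :
    a ≠ 0 ∧ b ≠ 0 ∧ e ≠ 0 := by
  refine ⟨?_, ?_, ?_⟩
  · rintro rfl; apply ne_one (g := g) X_ne; rw [h]; ext <;> simp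
  · rintro rfl; apply ne_one (g := g) Y_ne; rw [h]; ext <;> simp
  · rintro rfl; apply ne_one (g := g) Z_ne; rw [h]; ext <;> simp

theorem IsAn.ne {g : MulAut (E l)} {a b : K} {e : ZMod 3} (h : IsAn g a b e) :
    a ≠ 0 ∧ b ≠ 0 ∧ e ≠ 0 := by
  refine ⟨?_, ?_, ?_⟩
  · rintro rfl; apply ne_one (g := g) Y_ne; rw [h]; ext <;> simp
  · rintro rfl; apply ne_one (g := g) X_ne; rw [h]; ext <;> simp
  · rintro rfl; apply ne_one (g := g) Z_ne; rw [h]; ext <;> simp

theorem zsq {e : ZMod 3} (h : e ≠ 0) : e * e = 1 := by revert e; decide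
theorem zcase {e : ZMod 3} (h : e ≠ 0) : e = 1 ∨ e = -1 := by revert e; decide

/-- monomial automorphisms -/
def D (l : K →+ ZMod 3) : Subgroup (MulAut (E l)) where
  carrier := {g | ∃ a b e, IsDg g a b e ∨ IsAn g a b e}
  one_mem' := ⟨1, 1, 1, Or.inl (fun p => by ext <;> simp)⟩
  mul_mem' := by
    rintro g h ⟨a, b, e, hg | hg⟩ ⟨a', b', e', hh | hh⟩
    · exact ⟨a * a', b * b', e * e', Or.inl (fun p => by
        rw [MulAut.mul_apply, hh, hg]; ext <;> simp [mul_assoc])⟩
    · exact ⟨a * a', b * b', e * e', Or.inr (fun p => by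
        rw [MulAut.mul_apply, hh, hg]; ext <;> simp [mul_assoc])⟩
    · exact ⟨a * b', b * a', e * e', Or.inr (fun p => by
        rw [MulAut.mul_apply, hh, hg]; ext <;> simp [mul_assoc])⟩
    · exact ⟨a * b', b * a', e * e', Or.inl (fun p => by
        rw [MulAut.mul_apply, hh, hg]; ext <;> simp [mul_assoc])⟩
  inv_mem' := by
    rintro g ⟨a, b, e, hg | hg⟩
    · obtain ⟨ha, hb, he⟩ := hg.ne
      refine ⟨a⁻¹, b⁻¹, e, Or.inl (fun p => ?_)⟩
      rw [MulAut.inv_apply, MulEquiv.symm_apply_eq, hg]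
      ext <;> simp [ha, hb, ← mul_assoc, zsq he]
    · obtain ⟨ha, hb, he⟩ := hg.ne
      refine ⟨b⁻¹, a⁻¹, e, Or.inr (fun p => ?_)⟩
      rw [MulAut.inv_apply, MulEquiv.symm_apply_eq, hg]
      ext <;> simp [ha, hb, ← mul_assoc, zsq he]

theorem nd (h1 : l 1 = 1) {c : K} (h : ∀ z, l (c * z) = l z) : c = 1 := by
  by_contra hc
  have hc' : c - 1 ≠ 0 := sub_ne_zero.mpr hc
  have h2 := map_sub l (c * (c - 1)⁻¹) (c - 1)⁻¹
  rw [h, sub_self, show c * (c - 1)⁻¹ - (c - 1)⁻¹ = 1 by field_simp, h1] at h2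
  revert h2; decide

theorem nd2 (h1 : l 1 = 1) {c : K} {e : ZMod 3} (he : e ≠ 0) (h : ∀ z, l (c * z) = e * l z) :
    (e = 1 ∧ c = 1) ∨ (e = -1 ∧ c = -1) := by
  rcases zcase he with rfl | rfl
  · exact Or.inl ⟨rfl, nd h1 (by simpa using h)⟩
  · refine Or.inr ⟨rfl, ?_⟩
    have : -c = 1 := nd h1 (fun z => by rw [neg_mul, map_neg, h]; simp)
    rw [← this, neg_neg]

theorem IsDg.det (h1 : l 1 = 1) {g : MulAut (E l)} {a b : K} {e : ZMod 3} (h : IsDg g a b e) :
    (e = 1 ∧ a * b = 1) ∨ (e = -1 ∧ a * b = -1) := by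
  refine nd2 h1 h.ne.2.2 (fun z => ?_)
  have := congrArg E.c (map_mul g ⟨z, 0, 0⟩ ⟨0, 1, 0⟩)
  rw [h, h, h] at this
  simp at this
  rw [this]; congr 1; ring

theorem IsAn.det (h1 : l 1 = 1) {g : MulAut (E l)} {a b : K} {e : ZMod 3} (h : IsAn g a b e) :
    (a * b) * (a * b) = 1 := by
  have : (e = 1 ∧ -(a * b) = 1) ∨ (e = -1 ∧ -(a * b) = -1) := by
    refine nd2 h1 h.ne.2.2 (fun z => ?_)
    have := congrArg E.c (map_mul g ⟨z, 0, 0⟩ ⟨0, 1, 0⟩)
    rw [h, h, h] at this
    simp at this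
    rw [this, ← map_neg]; congr 1; ring
  rcases this with ⟨-, h2⟩ | ⟨-, h2⟩
  · linear_combination (1 - a * b) * h2
  · linear_combination (-1 - a * b) * h2

/-- diagonal automorphisms -/
def dg (l : K →+ ZMod 3) (a b : K) (e : ZMod 3)
    (h : (e = 1 ∧ a * b = 1) ∨ (e = -1 ∧ a * b = -1)) : D l :=
  ⟨{ toFun := fun p => ⟨a * p.x, b * p.y, e * p.c⟩
     invFun := fun p => ⟨a⁻¹ * p.x, b⁻¹ * p.y, e * p.c⟩
     left_inv := fun p => by
       have hab : a * b ≠ 0 := by rcases h with h | h <;> rw [h.2] <;> simp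
       have ha := left_ne_zero_of_mul hab
       have hb := right_ne_zero_of_mul hab
       rcases h with ⟨rfl, -⟩ | ⟨rfl, -⟩ <;> ext <;> simp [ha, hb]
     right_inv := fun p => by
       have hab : a * b ≠ 0 := by rcases h with h | h <;> rw [h.2] <;> simp
       have ha := left_ne_zero_of_mul hab
       have hb := right_ne_zero_of_mul hab
       rcases h with ⟨rfl, -⟩ | ⟨rfl, -⟩ <;> ext <;> simp [ha, hb]
     map_mul' := fun p q => by
       ext
       · simp [mul_add]
       · simp [mul_add]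
       · have e1 : a * p.x * (b * q.y) - a * q.x * (b * p.y) =
             (a * b) * (p.x * q.y - q.x * p.y) := by ring
         simp only [mul_c, e1]
         rcases h with ⟨rfl, h⟩ | ⟨rfl, h⟩
         · rw [h]; simp
         · rw [h, neg_one_mul (p.x * q.y - q.x * p.y), map_neg]; ring },
    a, b, e, Or.inl (fun _ => rfl)⟩

theorem dg_is (a b : K) (e : ZMod 3) (h : (e = 1 ∧ a * b = 1) ∨ (e = -1 ∧ a * b = -1)) :
    IsDg (dg l a b e h).1 a b e := fun _ => rfl

/-- the swap -/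
def sw (l : K →+ ZMod 3) : D l :=
  ⟨{ toFun := fun p => ⟨p.y, p.x, -p.c⟩
     invFun := fun p => ⟨p.y, p.x, -p.c⟩
     left_inv := fun p => by ext <;> simp
     right_inv := fun p => by ext <;> simp
     map_mul' := fun p q => by
       ext
       · simp
       · simp
       · simp only [mul_c, map_sub, mul_comm]; ring },
    1, 1, -1, Or.inr (fun p => by ext <;> simp)⟩

theorem sw_apply (p : E l) : (sw l).1 p = ⟨p.y, p.x, -p.c⟩ := rfl

theorem D_ext {d d' : D l} (h : ∀ p, d.1 p = d'.1 p) : d = d' :=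
  Subtype.ext (MulEquiv.ext h)

theorem D_mul (d d' : D l) (p : E l) : (d * d').1 p = d.1 (d'.1 p) := rfl

theorem central {d : D l} {a : K} {e : ZMod 3} (h : IsDg d.1 a a e) (d' : D l) :
    d * d' = d' * d := by
  obtain ⟨a', b', e', h' | h'⟩ := d'.2
  all_goals
    refine D_ext (fun p => ?_)
    rw [D_mul, D_mul, h, h', h, h']
    ext <;> simp [mul_left_comm]

theorem comm_dg {d d' : D l} {a b : K} {e : ZMod 3} (h : IsDg d.1 a b e) (hab : a ≠ b)
    (hc : d * d' = d' * d) : ∃ a' b' e', IsDg d'.1 a' b' e' := by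
  obtain ⟨a', b', e', h' | h'⟩ := d'.2
  · exact ⟨a', b', e', h'⟩
  · exfalso
    have := congrArg (fun g : D l => (g.1 ⟨1, 0, 0⟩).y) hc
    simp only [D_mul, h _, h' _, mul_one] at this
    exact hab (mul_right_cancel₀ h'.ne.2.1 (by rw [this, mul_comm])).symm

def dl1 (l : K →+ ZMod 3) : D l := dg l 1 (-1) (-1) (Or.inr ⟨rfl, by simp⟩)
def dl2 (l : K →+ ZMod 3) : D l := dg l (-1) 1 (-1) (Or.inr ⟨rfl, by simp⟩)
theorem dl1_is : IsDg (dl1 l).1 1 (-1) (-1) := dg_is _ _ _ _
theorem dl2_is : IsDg (dl2 l).1 (-1) 1 (-1) := dg_is _ _ _ _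

abbrev G (l : K →+ ZMod 3) := E l ⋊[(D l).subtype] D l

open SemidirectProduct

variable [CharP K 3]

theorem three : (3 : K) = 0 := by exact_mod_cast CharP.cast_eq_zero K 3

theorem one_ne_neg : (1 : K) ≠ -1 := fun h =>
  RigidField.two_ne (K := K) (by linear_combination h)

theorem D_cube {d : D l} (h : d ^ 3 = 1) : d = 1 := by
  have hc : ∀ a : K, a * (a * a) = 1 → a = 1 := by
    intro a ha
    have : (a - 1) ^ 3 = 0 := by linear_combination ha + (a - a ^ 2) * (three (K := K))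
    exact sub_eq_zero.mp (pow_eq_zero_iff (by norm_num) |>.mp this)
  have h3 : ∀ p, d.1 (d.1 (d.1 p)) = p := by
    intro p
    have := congrArg (fun g : D l => g.1 p) h
    simpa [pow_succ] using this
  obtain ⟨a, b, e, hd | hd⟩ := d.2
  · have ha := congrArg E.x (h3 ⟨1, 0, 0⟩)
    have hb := congrArg E.y (h3 ⟨0, 1, 0⟩)
    have he := congrArg E.c (h3 ⟨0, 0, 1⟩)
    simp only [hd _, mul_one] at ha hb he
    rw [zsq hd.ne.2.2, mul_one] at he
    refine D_ext (fun p => ?_)
    rw [hd, hc a ha, hc b hb, he]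
    ext <;> simp
  · have ha := congrArg E.x (h3 ⟨1, 0, 0⟩)
    simp [hd _] at ha

theorem E_cube (p : E l) : p ^ 3 = 1 := by
  have h3 : (3 : ZMod 3) = 0 := rfl
  ext
  · simp [pow_succ]; linear_combination p.x * (three (K := K))
  · simp [pow_succ]; linear_combination p.y * (three (K := K))
  · simp only [pow_succ, pow_zero, one_mul, mul_c, mul_x, mul_y, one_c]
    rw [show (p.x + p.x) * p.y - p.x * (p.y + p.y) = 0 by ring, sub_self, map_zero]
    linear_combination p.c * h3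

theorem cube_iff (g : G l) : g ^ 3 = 1 ↔ g.right = 1 := by
  constructor
  · intro h
    apply D_cube
    have := congrArg rightHom h
    rwa [map_pow, map_one] at this
  · intro h
    rw [← inl_left_mul_inr_right g, h, map_one, mul_one, ← map_pow, E_cube, map_one]

theorem map_inl (φ : MulAut (G l)) (p : E l) : φ (inl p) = inl (φ (inl p)).left := by
  have h : (φ (inl p)).right = 1 := by
    rw [← cube_iff, ← map_pow, ← map_pow, E_cube, map_one, map_one]
  conv_lhs => rw [← inl_left_mul_inr_right (φ (inl p)), h, map_one, mul_one]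

/-- induced map on the quotient -/
def psi (φ : MulAut (G l)) : D l →* D l := rightHom.comp (φ.toMonoidHom.comp inr)

omit [CharP K 3] in
theorem psi_apply (φ : MulAut (G l)) (d : D l) : psi φ d = (φ (inr d)).right := rfl

theorem psi_inj (φ : MulAut (G l)) : Function.Injective (psi φ) := by
  rw [injective_iff_map_eq_one]
  intro d hd
  rw [psi_apply, ← cube_iff, ← map_pow, map_eq_one_iff _ φ.injective, cube_iff] at hd
  exact hd

theorem psi_surj (φ : MulAut (G l)) : Function.Surjective (psi φ) := by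
  intro d
  refine ⟨(φ.symm (inr d)).right, ?_⟩
  have h := congrArg (fun g => (φ g).right) (inl_left_mul_inr_right (φ.symm (inr d)))
  simp only [map_mul, mul_right, MulEquiv.apply_symm_apply, right_inr] at h
  rw [map_inl, right_inl, one_mul] at h
  exact h

omit [CharP K 3] in
theorem left_one {g : G l} {j : D l} {a : K} (hj : IsDg j.1 a a (-1)) (ha : a ≠ 1)
    (h : g * inr j = inr j * g) : g.left = 1 := by
  have h1 := congrArg SemidirectProduct.left h
  simp only [mul_left, left_inr, map_one, mul_one, one_mul, right_inr, Subgroup.coe_subtype] at h1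
  rw [hj] at h1
  have hx := congrArg E.x h1
  have hy := congrArg E.y h1
  have hc := congrArg E.c h1
  simp only at hx hy hc
  have ha' : a - 1 ≠ 0 := sub_ne_zero.mpr ha
  ext
  · exact (mul_eq_zero.mp (by linear_combination -hx : (a - 1) * g.left.x = 0)).resolve_left ha'
  · exact (mul_eq_zero.mp (by linear_combination -hy : (a - 1) * g.left.y = 0)).resolve_left ha'
  · rw [one_c]
    generalize g.left.c = c at hc
    revert c; decide

omit [CharP K 3] in
theorem inner_of {φ : MulAut (G l)} (u : G l) (h : ∃ g, MulAut.conj u * φ = MulAut.conj g) :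
    ∃ g, φ = MulAut.conj g := by
  obtain ⟨g, hg⟩ := h
  exact ⟨u⁻¹ * g, by rw [map_mul, ← hg, map_inv, inv_mul_cancel_left]⟩

section Rigid

variable (h1 : l 1 = 1)
  (hR : ∀ (σ : K →+* K) (c : K), Function.Surjective σ → (∀ z, l (c * σ z) = l z) → ∀ z, σ z = z)

include h1 hR

omit [CharP K 3] in
theorem lin (A : K → K) (hadd : ∀ x y, A (x + y) = A x + A y) (hs : Function.Surjective A)
    (hm : ∀ t, t ≠ 0 → ∃ f, ∀ x, A (t * x) = f * A x) (h0 : A 1 ≠ 0) (b : K) (hb : b ≠ 0)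
    (e : ZMod 3) (hl : ∀ x, l (A x * b) = e * l x) : e ≠ 0 ∧ ∀ x, A x = A 1 * x := by
  have hA0 : A 0 = 0 := by simpa using hadd 0 0
  have he : e ≠ 0 := by
    rintro rfl
    obtain ⟨x, hx⟩ := hs b⁻¹
    have := hl x
    rw [hx, inv_mul_cancel₀ hb, h1, zero_mul] at this
    revert this; decide
  let σ : K →+* K :=
    { toFun := fun x => A x / A 1
      map_one' := div_self h0
      map_zero' := by simp [hA0]
      map_add' := fun x y => by rw [hadd, add_div]
      map_mul' := fun t x => by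
        by_cases ht : t = 0
        · simp [ht, hA0]
        · obtain ⟨f, hf⟩ := hm t ht
          have h2 := hf 1
          rw [mul_one] at h2
          rw [hf, h2]; field_simp }
  have hσ : ∀ x, σ x = A x / A 1 := fun _ => rfl
  have hss : Function.Surjective σ := fun y => by
    obtain ⟨x, hx⟩ := hs (y * A 1)
    exact ⟨x, by rw [hσ, hx]; field_simp⟩
  have key : ∀ z, σ z = z := by
    rcases zcase he with rfl | rfl
    · refine hR σ (A 1 * b) hss (fun z => ?_)
      rw [← one_mul (l z), ← hl, hσ]; congr 1; field_simp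
    · refine hR σ (-(A 1 * b)) hss (fun z => ?_)
      have := hl z
      rw [neg_mul, map_neg, show A 1 * b * σ z = A z * b by rw [hσ]; field_simp, this]
      simp
  refine ⟨he, fun x => ?_⟩
  have := key x
  rw [hσ, div_eq_iff h0] at this
  rw [this, mul_comm]

theorem step2 (φ : MulAut (G l)) (hD : ∀ d, φ (inr d) = inr (psi φ d))
    (hd1 : psi φ (dl1 l) = dl1 l) (hd2 : psi φ (dl2 l) = dl2 l) : ∃ g, φ = MulAut.conj g := by
  let α : E l → E l := fun p => (φ (inl p)).left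
  have hα : ∀ p, φ (inl p) = inl (α p) := map_inl φ
  have hmul : ∀ p q, α (p * q) = α p * α q := by
    intro p q
    apply inl_injective (φ := (D l).subtype)
    rw [← hα, map_mul, map_mul, hα, hα, map_mul]
  have hinj : Function.Injective α := by
    intro p q h
    apply inl_injective (φ := (D l).subtype)
    apply φ.injective
    rw [hα, hα, h]
  have hone : α 1 = 1 := by simp [α]
  have hsurj : Function.Surjective α := by
    intro q
    refine ⟨(φ.symm (inl q)).left, ?_⟩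
    apply inl_injective (φ := (D l).subtype)
    rw [← hα, ← map_inl φ.symm q, MulEquiv.apply_symm_apply]
  have hact : ∀ (d : D l) p, α (d.1 p) = (psi φ d).1 (α p) := by
    intro d p
    apply inl_injective (φ := (D l).subtype)
    have e1 := inl_aut (φ := (D l).subtype) d p
    have e2 := inl_aut (φ := (D l).subtype) (psi φ d) (α p)
    simp only [Subgroup.coe_subtype] at e1 e2
    rw [← hα, e1, e2, map_mul, map_mul, hD, hD, hα, map_inv (psi φ)]
  have hneg : ∀ x : K, x = -1 * x → x = 0 := fun x hx =>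
    (mul_eq_zero.mp (by linear_combination hx : 2 * x = 0)).resolve_left RigidField.two_ne
  have hnegz : ∀ c : ZMod 3, c = -1 * c → c = 0 := by decide
  let A : K → K := fun x => (α ⟨x, 0, 0⟩).x
  let B : K → K := fun y => (α ⟨0, y, 0⟩).y
  have hA : ∀ x, α ⟨x, 0, 0⟩ = ⟨A x, 0, 0⟩ := by
    intro x
    have := hact (dl1 l) ⟨x, 0, 0⟩
    rw [hd1, dl1_is, dl1_is] at this
    simp only [one_mul, mul_zero] at this
    ext
    · rfl
    · exact hneg _ (congrArg E.y this)
    · exact hnegz _ (congrArg E.c this)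
  have hB : ∀ y, α ⟨0, y, 0⟩ = ⟨0, B y, 0⟩ := by
    intro y
    have := hact (dl2 l) ⟨0, y, 0⟩
    rw [hd2, dl2_is, dl2_is] at this
    simp only [one_mul, mul_zero] at this
    ext
    · exact hneg _ (congrArg E.x this)
    · rfl
    · exact hnegz _ (congrArg E.c this)
  have h3 : (3 : ZMod 3) = 0 := rfl
  have hZ0 : ∀ x y, α ⟨0, 0, l (x * y)⟩ = ⟨0, 0, l (A x * B y)⟩ := by
    intro x y
    have e1 : (⟨x, 0, 0⟩ : E l) * ⟨0, y, 0⟩ * ⟨0, 0, l (x * y)⟩ = ⟨0, y, 0⟩ * ⟨x, 0, 0⟩ := by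
      ext <;> simp
      linear_combination (l (x * y)) * h3
    have e2 := congrArg α e1
    rw [hmul, hmul, hmul, hA, hB] at e2
    apply mul_left_cancel (a := (⟨A x, 0, 0⟩ : E l) * ⟨0, B y, 0⟩)
    rw [e2]
    ext <;> simp
    linear_combination -(l (A x * B y)) * h3
  set ε := l (A 1 * B 1) with hε
  have hZ : ∀ c, α ⟨0, 0, c⟩ = ⟨0, 0, ε * c⟩ := by
    have z1 : α ⟨0, 0, 1⟩ = ⟨0, 0, ε⟩ := by
      have := hZ0 1 1
      rwa [mul_one, h1] at this
    intro c
    have : c = 0 ∨ c = 1 ∨ c = 1 + 1 := by revert c; decide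
    rcases this with rfl | rfl | rfl
    · rw [mul_zero]; exact hone
    · rw [mul_one]; exact z1
    · have e1 : (⟨0, 0, 1 + 1⟩ : E l) = ⟨0, 0, 1⟩ * ⟨0, 0, 1⟩ := by ext <;> simp
      rw [e1, hmul, z1]
      ext <;> simp [mul_add]
  have hl : ∀ x y, l (A x * B y) = ε * l (x * y) := by
    intro x y
    have := hZ0 x y
    rw [hZ] at this
    exact (congrArg E.c this).symm
  have hall : ∀ p, α p = ⟨A p.x, B p.y, ε * p.c⟩ := by
    intro p
    have e1 : p = (⟨p.x, 0, 0⟩ : E l) * ⟨0, p.y, 0⟩ * ⟨0, 0, p.c - l (p.x * p.y)⟩ := by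
      ext <;> simp
    conv_lhs => rw [e1]
    rw [hmul, hmul, hA, hB, hZ]
    ext <;> simp
    rw [hl]; ring
  have hT : ∀ t : K, t ≠ 0 → (∃ f, ∀ x, A (t * x) = f * A x) ∧ ∃ f, ∀ x, B (t⁻¹ * x) = f * B x := by
    intro t ht
    let T := dg l t t⁻¹ 1 (Or.inl ⟨rfl, mul_inv_cancel₀ ht⟩)
    have hT : IsDg T.1 t t⁻¹ 1 := dg_is _ _ _ _
    have hc : dl1 l * T = T * dl1 l := D_ext (fun p => by
      rw [D_mul, D_mul, hT, dl1_is, hT, dl1_is]; ext <;> simp)
    have hc' := congrArg (psi φ) hc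
    rw [map_mul, map_mul, hd1] at hc'
    obtain ⟨a', b', e', h'⟩ := comm_dg dl1_is one_ne_neg hc'
    refine ⟨⟨a', fun x => ?_⟩, ⟨b', fun x => ?_⟩⟩
    · have := congrArg E.x (hact T ⟨x, 0, 0⟩)
      rw [h', hT, hall, hall] at this
      exact this
    · have := congrArg E.y (hact T ⟨0, x, 0⟩)
      rw [h', hT, hall, hall] at this
      exact this
  have hA1 : A 1 ≠ 0 := fun h => X_ne (hinj (by rw [hA, h, hone]; rfl))
  have hB1 : B 1 ≠ 0 := fun h => Y_ne (hinj (by rw [hB, h, hone]; rfl))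
  obtain ⟨he, hAl⟩ := lin h1 hR A
    (fun x y => by
      have := congrArg E.x (hmul ⟨x, 0, 0⟩ ⟨y, 0, 0⟩)
      rw [hall, hall, hall] at this
      exact this)
    (fun y => by
      obtain ⟨p, hp⟩ := hsurj ⟨y, 0, 0⟩
      rw [hall] at hp
      exact ⟨p.x, congrArg E.x hp⟩)
    (fun t ht => (hT t ht).1) hA1 (B 1) hB1 ε (fun x => by rw [hl, mul_one])
  obtain ⟨-, hBl⟩ := lin h1 hR B
    (fun x y => by
      have := congrArg E.y (hmul ⟨0, x, 0⟩ ⟨0, y, 0⟩)
      rw [hall, hall, hall] at this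
      exact this)
    (fun y => by
      obtain ⟨p, hp⟩ := hsurj ⟨0, y, 0⟩
      rw [hall] at hp
      exact ⟨p.y, congrArg E.y hp⟩)
    (fun t ht => by simpa using (hT t⁻¹ (inv_ne_zero ht)).2) hB1 (A 1) hA1 ε
    (fun x => by rw [mul_comm, hl, one_mul])
  let d0 := dg l (A 1) (B 1) ε (nd2 h1 he (fun z => by
    rw [mul_assoc, ← hBl, hl, one_mul]))
  have hd0 : ∀ p, d0.1 p = α p := fun p => by
    rw [hall, hAl p.x, hBl p.y]; rfl
  refine ⟨inr d0, MulEquiv.ext (fun g => ?_)⟩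
  have e1 : ∀ p, φ (inl p) = MulAut.conj (inr d0 : G l) (inl p) := fun p => by
    have e1 := inl_aut (φ := (D l).subtype) d0 p
    simp only [Subgroup.coe_subtype] at e1
    rw [hα, ← hd0, e1, MulAut.conj_apply, map_inv]
  have e2 : ∀ d, φ (inr d) = MulAut.conj (inr d0 : G l) (inr d) := fun d => by
    rw [hD, MulAut.conj_apply, ← map_inv, ← map_mul, ← map_mul]
    congr 1
    rw [eq_mul_inv_iff_mul_eq]
    exact D_ext (fun p => by rw [D_mul, D_mul, hd0, hd0, hact])
  rw [← inl_left_mul_inr_right g, map_mul, map_mul, e1, e2]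

omit hR in
theorem invol (t : K) (ht : t ^ 4 = -1) (φ : MulAut (G l)) (d : D l) (a b : K) (e : ZMod 3)
    (hd : IsDg d.1 a b e) (hab : a ≠ b) (h2 : d * d = 1) :
    psi φ d = dl1 l ∨ psi φ d = dl2 l := by
  have ht0 : t ≠ 0 := by
    rintro rfl
    simp at ht
  let T := dg l t t⁻¹ 1 (Or.inl ⟨rfl, mul_inv_cancel₀ ht0⟩)
  have hT : IsDg T.1 t t⁻¹ 1 := dg_is _ _ _ _
  have hT4 : psi φ T * (psi φ T * (psi φ T * psi φ T)) ≠ 1 := by
    rw [← map_mul, ← map_mul, ← map_mul]
    intro h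
    have h3 := congrArg (fun g : D l => (g.1 ⟨1, 0, 0⟩).x) (psi_inj φ (h.trans (map_one _).symm))
    simp only [D_mul, hT _] at h3
    have h4 : t * (t * (t * (t * 1))) = 1 := h3
    exact one_ne_neg (K := K) (by linear_combination ht - h4)
  obtain ⟨a1, b1, e1, hT1, hne⟩ : ∃ a1 b1 e1, IsDg (psi φ T).1 a1 b1 e1 ∧ a1 ≠ b1 := by
    obtain ⟨a1, b1, e1, hT1 | hT1⟩ := (psi φ T).2
    · refine ⟨a1, b1, e1, hT1, ?_⟩
      rintro rfl
      apply hT4
      have h5 : a1 * (a1 * (a1 * a1)) = 1 := by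
        rcases hT1.det h1 with ⟨-, h⟩ | ⟨-, h⟩
        · linear_combination (a1 * a1 + 1) * h
        · linear_combination (a1 * a1 - 1) * h
      have h6 := zsq hT1.ne.2.2
      refine D_ext (fun p => ?_)
      simp only [D_mul, hT1 _]
      ext
      · change _ = p.x; linear_combination p.x * h5
      · change _ = p.y; linear_combination p.y * h5
      · change _ = p.c; linear_combination (p.c * (e1 * e1 + 1)) * h6
    · exfalso
      apply hT4
      have h5 := hT1.det h1
      have h6 := zsq hT1.ne.2.2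
      refine D_ext (fun p => ?_)
      simp only [D_mul, hT1 _]
      ext
      · change _ = p.x; linear_combination p.x * h5
      · change _ = p.y; linear_combination p.y * h5
      · change _ = p.c; linear_combination (p.c * (e1 * e1 + 1)) * h6
  have hc : T * d = d * T := D_ext (fun p => by
    rw [D_mul, D_mul, hT, hd, hT, hd]; ext <;> simp [mul_left_comm])
  have hc' := congrArg (psi φ) hc
  rw [map_mul, map_mul] at hc'
  obtain ⟨a', b', e', h'⟩ := comm_dg hT1 hne hc'
  have h2' : psi φ d * psi φ d = 1 := by rw [← map_mul, h2, map_one]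
  have ha' := congrArg (fun g : D l => (g.1 ⟨1, 0, 0⟩).x) h2'
  have hb' := congrArg (fun g : D l => (g.1 ⟨0, 1, 0⟩).y) h2'
  simp only [D_mul, h' _] at ha' hb'
  have ha2 : a' * a' = 1 := by simpa using ha'
  have hb2 : b' * b' = 1 := by simpa using hb'
  have hne' : a' ≠ b' := by
    rintro rfl
    have h7 := central h' (psi φ (sw l))
    rw [← map_mul, ← map_mul] at h7
    have h8 := congrArg (fun g : D l => (g.1 ⟨1, 0, 0⟩).y) (psi_inj φ h7)
    simp only [D_mul, hd _, sw_apply, mul_one] at h8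
    exact hab h8.symm
  rcases mul_self_eq_one_iff.mp ha2 with rfl | rfl <;>
    rcases mul_self_eq_one_iff.mp hb2 with rfl | rfl
  · exact absurd rfl hne'
  · left
    rcases h'.det h1 with ⟨-, h⟩ | ⟨rfl, -⟩
    · exact absurd (by linear_combination -h) (one_ne_neg (K := K))
    · exact D_ext (fun p => by rw [h', dl1_is])
  · right
    rcases h'.det h1 with ⟨-, h⟩ | ⟨rfl, -⟩
    · exact absurd (by linear_combination -h) (one_ne_neg (K := K))
    · exact D_ext (fun p => by rw [h', dl2_is])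
  · exact absurd rfl hne'

theorem step1 (t : K) (ht : t ^ 4 = -1) (φ : MulAut (G l))
    (hD : ∀ d, φ (inr d) = inr (psi φ d)) : ∃ g, φ = MulAut.conj g := by
  have s1 : dl1 l * dl1 l = 1 := D_ext (fun p => by rw [D_mul, dl1_is, dl1_is]; ext <;> simp)
  have s2 : dl2 l * dl2 l = 1 := D_ext (fun p => by rw [D_mul, dl2_is, dl2_is]; ext <;> simp)
  have hne : dl1 l ≠ dl2 l := fun h => by
    have := congrArg (fun g : D l => (g.1 ⟨1, 0, 0⟩).x) h
    simp only [dl1_is _, dl2_is _, mul_one] at this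
    exact one_ne_neg this
  have key : ∀ φ : MulAut (G l), (∀ d, φ (inr d) = inr (psi φ d)) → psi φ (dl1 l) = dl1 l →
      ∃ g, φ = MulAut.conj g := by
    intro φ hD hd1
    refine step2 h1 hR φ hD hd1 ?_
    rcases invol h1 t ht φ _ _ _ _ dl2_is one_ne_neg.symm s2 with h | h
    · exact absurd (psi_inj φ (hd1.trans h.symm)) hne
    · exact h
  rcases invol h1 t ht φ _ _ _ _ dl1_is one_ne_neg s1 with h | h
  · exact key φ hD h
  · have e1 : ∀ d, (MulAut.conj (inr (sw l) : G l) * φ) (inr d) =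
        inr (sw l * psi φ d * (sw l)⁻¹) := fun d => by
      rw [MulAut.mul_apply, hD, MulAut.conj_apply, map_mul, map_mul, map_inv]
    refine inner_of (inr (sw l)) (key _ (fun d => ?_) ?_)
    · rw [psi_apply, e1, right_inr]
    · rw [psi_apply, e1, right_inr, h, mul_inv_eq_iff_eq_mul]
      exact D_ext (fun p => by
        rw [D_mul, D_mul, dl2_is, sw_apply, sw_apply, dl1_is]; ext <;> simp)

theorem step0 (t : K) (ht : t ^ 4 = -1) (φ : MulAut (G l)) : ∃ g, φ = MulAut.conj g := by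
  let j := dg l (t ^ 2) (t ^ 2) (-1) (Or.inr ⟨rfl, by rw [← ht]; ring⟩)
  have hj : IsDg j.1 (t ^ 2) (t ^ 2) (-1) := dg_is _ _ _ _
  have hcen : ∀ d, psi φ j * d = d * psi φ j := by
    intro d
    obtain ⟨d', rfl⟩ := psi_surj φ d
    rw [← map_mul, ← map_mul, central hj]
  obtain ⟨a, b, e, hj'⟩ := comm_dg dl1_is one_ne_neg (hcen (dl1 l)).symm
  have hab : a = b := by
    have h8 := congrArg (fun g : D l => (g.1 ⟨1, 0, 0⟩).y) (hcen (sw l))
    simp only [D_mul, hj' _, sw_apply, mul_one] at h8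
    exact h8.symm
  subst hab
  obtain ⟨rfl, ha⟩ : e = -1 ∧ a * a = -1 := by
    refine (hj'.det h1).resolve_left ?_
    rintro ⟨rfl, h⟩
    have h2 : psi φ (j * j) = psi φ 1 := by
      rw [map_mul, map_one]
      refine D_ext (fun p => ?_)
      rw [D_mul, hj', hj']
      ext <;> simp [← mul_assoc, h]
    have h3 := congrArg (fun g : D l => (g.1 ⟨1, 0, 0⟩).x) (psi_inj φ h2)
    simp only [D_mul, hj _] at h3
    have h4 : t ^ 2 * (t ^ 2 * 1) = 1 := h3
    exact one_ne_neg (K := K) (by linear_combination ht - h4)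
  have ha1 : a ≠ 1 := by
    rintro rfl
    exact one_ne_neg (K := K) (by linear_combination ha)
  have ha' : a - 1 ≠ 0 := sub_ne_zero.mpr ha1
  obtain ⟨u, hu⟩ : ∃ u : E l, u * (φ (inr j)).left * (psi φ j).1 u⁻¹ = 1 := by
    generalize (φ (inr j)).left = p
    let u0 : E l := ⟨p.x / (a - 1), p.y / (a - 1), 0⟩
    refine ⟨⟨p.x / (a - 1), p.y / (a - 1), (u0 * p * (psi φ j).1 u0⁻¹).c⟩, ?_⟩
    rw [hj', hj']
    have h3 : (3 : ZMod 3) = 0 := rfl
    ext
    · simp; field_simp; ring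
    · simp; field_simp; ring
    · simp only [mul_c, mul_x, mul_y, inv_x, inv_y, inv_c, u0, one_c]
      linear_combination (p.c + l (p.x / (a - 1) * p.y - p.x * (p.y / (a - 1))) +
        l ((p.x / (a - 1) + p.x) * (a * -(p.y / (a - 1))) -
          a * -(p.x / (a - 1)) * (p.y / (a - 1) + p.y))) * h3
  have hφ : (MulAut.conj (inl u : G l) * φ) (inr j) = inr (psi φ j) := by
    rw [MulAut.mul_apply, MulAut.conj_apply, ← map_inv]
    ext1
    · simpa [psi_apply] using hu
    · simp [psi_apply]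
  refine inner_of (inl u) (step1 h1 hR t ht _ (fun d => ?_))
  have h5 : ((MulAut.conj (inl u : G l) * φ) (inr d)).left = 1 := by
    refine left_one hj' ha1 ?_
    rw [← hφ, ← map_mul, ← map_mul, ← map_mul, ← map_mul, central hj]
  conv_lhs => rw [← inl_left_mul_inr_right ((MulAut.conj (inl u : G l) * φ) (inr d)), h5]
  rw [map_one, one_mul, psi_apply]

end Rigid

theorem center_bot (t : K) (ht : t ^ 4 = -1) : Subgroup.center (G l) = ⊥ := by
  let j := dg l (t ^ 2) (t ^ 2) (-1) (Or.inr ⟨rfl, by rw [← ht]; ring⟩)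
  have hj : IsDg j.1 (t ^ 2) (t ^ 2) (-1) := dg_is _ _ _ _
  rw [eq_bot_iff]
  intro g hg
  rw [Subgroup.mem_center_iff] at hg
  have h1 : g.left = 1 := left_one hj (fun h =>
    one_ne_neg (K := K) (by linear_combination ht - (t ^ 2 + 1) * h)) (hg _).symm
  have h2 : g.right = 1 := D_ext (fun p => by
    have := congrArg SemidirectProduct.left (hg (inl p))
    simpa [h1] using this.symm)
  rw [Subgroup.mem_bot, ← inl_left_mul_inr_right g, h1, h2]; simp

/-- coordinates -/
def co (g : G l) : E l × E l × E l × E l :=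
  (g.left, g.right.1 ⟨1, 0, 0⟩, g.right.1 ⟨0, 1, 0⟩, g.right.1 ⟨0, 0, 1⟩)

omit [CharP K 3] in
theorem co_inj : Function.Injective (co (l := l)) := by
  intro g h hgh
  simp only [co, Prod.mk.injEq] at hgh
  obtain ⟨e0, e1, e2, e3⟩ := hgh
  refine SemidirectProduct.ext e0 (D_ext (fun p => ?_))
  obtain ⟨a, b, e, hg | hg⟩ := g.right.2 <;> obtain ⟨a', b', e', hh | hh⟩ := h.right.2
  all_goals
    rw [hg, hh] at e1 e2 e3
    have x1 := congrArg E.x e1
    have x2 := congrArg E.x e2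
    have y1 := congrArg E.y e1
    have y2 := congrArg E.y e2
    have c3 := congrArg E.c e3
    simp only [mul_one, mul_zero] at x1 x2 y1 y2 c3
  · rw [hg, hh, x1, y2, c3]
  · exact absurd x1 hg.ne.1
  · exact absurd x2 hg.ne.1
  · rw [hg, hh, x2, y1, c3]

/-- finite pieces -/
def piece (S : Subfield K) : Subgroup (G l) where
  carrier := {g | (g.left.x ∈ S ∧ g.left.y ∈ S) ∧
    ∀ p : E l, (p.x ∈ S ∧ p.y ∈ S) ↔ ((g.right.1 p).x ∈ S ∧ (g.right.1 p).y ∈ S)}
  one_mem' := ⟨⟨S.zero_mem, S.zero_mem⟩, fun _ => Iff.rfl⟩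
  mul_mem' := by
    rintro g h ⟨hg1, hg2⟩ ⟨hh1, hh2⟩
    have := (hg2 _).mp hh1
    exact ⟨⟨S.add_mem hg1.1 this.1, S.add_mem hg1.2 this.2⟩, fun p => (hh2 p).trans (hg2 _)⟩
  inv_mem' := by
    rintro g ⟨hg1, hg2⟩
    have key : ∀ p : E l, (p.x ∈ S ∧ p.y ∈ S) ↔
        (((g.right⁻¹).1 p).x ∈ S ∧ ((g.right⁻¹).1 p).y ∈ S) := by
      intro p
      rw [hg2 ((g.right⁻¹).1 p), ← D_mul, mul_inv_cancel]
      rfl
    exact ⟨(key g.left⁻¹).mp ⟨S.neg_mem hg1.1, S.neg_mem hg1.2⟩, key⟩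

omit [CharP K 3] in
theorem piece_fin (S : Subfield K) (hS : (S : Set K).Finite) :
    ((piece (l := l) S : Subgroup (G l)) : Set (G l)).Finite := by
  have hE : {p : E l | p.x ∈ S ∧ p.y ∈ S}.Finite := by
    refine Set.Finite.of_finite_image (f := fun p : E l => (p.x, p.y, p.c))
      ((hS.prod (hS.prod Set.finite_univ)).subset ?_) ?_
    · rintro _ ⟨p, hp, rfl⟩
      exact ⟨hp.1, hp.2, trivial⟩
    · intro p _ q _ h
      simp only [Prod.mk.injEq] at h
      exact E.ext h.1 h.2.1 h.2.2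
  refine Set.Finite.of_finite_image (f := co) ((hE.prod (hE.prod (hE.prod hE))).subset ?_)
    co_inj.injOn
  rintro _ ⟨g, ⟨hg1, hg2⟩, rfl⟩
  exact ⟨hg1, (hg2 _).mp ⟨S.one_mem, S.zero_mem⟩, (hg2 _).mp ⟨S.zero_mem, S.one_mem⟩,
    (hg2 _).mp ⟨S.zero_mem, S.zero_mem⟩⟩

omit [CharP K 3] in
theorem mem_piece (g : G l) : ∃ s : Finset K, ∀ S : Subfield K, (s : Set K) ⊆ S →
    g ∈ piece S := by
  classical
  have key : ∀ (S : Subfield K) (a x : K), a ∈ S → a ≠ 0 → (x ∈ S ↔ a * x ∈ S) := by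
    intro S a x ha ha0
    refine ⟨S.mul_mem ha, fun h => ?_⟩
    have := S.mul_mem (S.inv_mem ha) h
    rwa [inv_mul_cancel_left₀ ha0] at this
  obtain ⟨a, b, e, hg⟩ := g.right.2
  refine ⟨{g.left.x, g.left.y, a, b}, fun S hS => ⟨⟨hS (by simp), hS (by simp)⟩, fun p => ?_⟩⟩
  have ha : a ∈ S := hS (by simp)
  have hb : b ∈ S := hS (by simp)
  rcases hg with hg | hg
  · rw [hg, ← key S a _ ha hg.ne.1, ← key S b _ hb hg.ne.2.1]
  · rw [hg, ← key S a _ ha hg.ne.1, ← key S b _ hb hg.ne.2.1, and_comm]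

theorem main :
    ∃ (G : Type) (_ : Group G), Countable G ∧ Infinite G ∧
      (∀ s : Finset G, ((Subgroup.closure (s : Set G) : Subgroup G) : Set G).Finite) ∧
      Subgroup.center G = ⊥ ∧
      ∀ φ : MulAut G, ∃ g : G, φ = MulAut.conj g := by
  classical
  obtain ⟨K, _, _, l, hc, hi, h1, hf, ⟨t, ht⟩, hR⟩ := RigidField.exists_field
  have hE : Countable (E l) := Function.Injective.countable
    (f := fun p : E l => (p.x, p.y, p.c)) (fun p q h => by
      simp only [Prod.mk.injEq] at h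
      exact E.ext h.1 h.2.1 h.2.2)
  refine ⟨G l, inferInstance, co_inj.countable, ?_, fun s => ?_, center_bot t ht,
    step0 h1 hR t ht⟩
  · exact Infinite.of_injective (fun x : K => (inl ⟨x, 0, 0⟩ : G l))
      (fun x y h => congrArg E.x (inl_injective h))
  · choose f hf' using mem_piece (l := l)
    obtain ⟨S, hS, hs⟩ := hf (s.biUnion f)
    refine (piece_fin S hS).subset ((Subgroup.closure_le _).mpr (fun g hg => ?_))
    exact hf' g S (fun x hx => hs (by
      simp only [Finset.coe_biUnion, Set.mem_iUnion]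
      exact ⟨g, hg, hx⟩))

end Pool.Agent.H73.Complete
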