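import Pool.Agent.H73.DTDefs

set_option autoImplicit false

/-! Basic facts on words, ping-pong and invariant measures. -/

namespace H73.DT

open MeasureTheory

section Words
variable {A : Type}

def sh (k : ℕ) (x : ℕ → A) : ℕ → A := fun n => x (n + k)

@[simp] lemma cons_zero (a : A) (ξ : ℕ → A) : cons a ξ 0 = a := rfl
@[simp] lemma cons_succ (a : A) (ξ : ℕ → A) (n : ℕ) : cons a ξ (n + 1) = ξ n := rfl
@[simp] lemma cons_one (a : A) (ξ : ℕ → A) : cons a ξ 1 = ξ 0 := rfl
@[simp] lemma app_nil (ξ : ℕ → A) : app [] ξ = ξ := rfl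
@[simp] lemma app_cons (a : A) (w : List A) (ξ : ℕ → A) : app (a :: w) ξ = cons a (app w ξ) := rfl
@[simp] lemma sh_zero (x : ℕ → A) : sh 0 x = x := rfl
@[simp] lemma sh_succ_cons (k : ℕ) (a : A) (ξ : ℕ → A) : sh (k + 1) (cons a ξ) = sh k ξ := rfl
@[simp] lemma sh_one_cons (a : A) (ξ : ℕ → A) : sh 1 (cons a ξ) = ξ := rfl
@[simp] lemma sh_two_cons (a b : A) (ξ : ℕ → A) : sh 2 (cons a (cons b ξ)) = ξ := rfl
lemma sh_sh (a b : ℕ) (x : ℕ → A) : sh a (sh b x) = sh (a + b) x := by
  funext n; simp [sh, add_assoc]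
lemma cons_sh (x : ℕ → A) : cons (x 0) (sh 1 x) = x := by
  funext n; cases n <;> rfl
lemma exists_cons (x : ℕ → A) : ∃ a ξ, x = cons a ξ := ⟨_, _, (cons_sh x).symm⟩
@[simp] lemma cons_inj {a b : A} {ξ η : ℕ → A} : cons a ξ = cons b η ↔ a = b ∧ ξ = η :=
  ⟨fun h => ⟨congrFun h 0, funext fun n => congrFun h (n + 1)⟩, fun h => by rw [h.1, h.2]⟩

lemma app_append (u v : List A) (ξ : ℕ → A) : app (u ++ v) ξ = app u (app v ξ) := by
  induction u with
  | nil => rfl
  | cons a u ih => simp [ih]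

@[simp] lemma sh_app (w : List A) (ξ : ℕ → A) : sh w.length (app w ξ) = ξ := by
  induction w with
  | nil => rfl
  | cons a w ih => simpa using ih

lemma app_add (w : List A) (ξ : ℕ → A) (n : ℕ) : app w ξ (n + w.length) = ξ n :=
  congrFun (sh_app w ξ) n

lemma app_lt (w : List A) (ξ : ℕ → A) (n : ℕ) (h : n < w.length) : app w ξ n = w[n] := by
  induction w generalizing n with
  | nil => simp at h
  | cons a w ih =>
    cases n with
    | zero => rfl
    | succ n => simpa using ih n (by simpa using h)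

lemma app_inj (w : List A) {ξ η : ℕ → A} (h : app w ξ = app w η) : ξ = η := by
  rw [← sh_app w ξ, h, sh_app]

def tk : ℕ → (ℕ → A) → List A
  | 0, _ => []
  | n + 1, x => x 0 :: tk n (sh 1 x)

@[simp] lemma length_tk (n : ℕ) (x : ℕ → A) : (tk n x).length = n := by
  induction n generalizing x with
  | zero => rfl
  | succ n ih => simp [tk, ih]

lemma app_tk (n : ℕ) (x : ℕ → A) : app (tk n x) (sh n x) = x := by
  induction n generalizing x with
  | zero => rfl
  | succ n ih =>
    have := ih (sh 1 x)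
    rw [sh_sh] at this
    simp [tk, this, cons_sh]

lemma tk_app (w : List A) (ξ : ℕ → A) : tk w.length (app w ξ) = w := by
  induction w with
  | nil => rfl
  | cons a w ih => simp [tk, ih]

lemma app_tk_lt (n : ℕ) (x ξ : ℕ → A) (m : ℕ) (h : m < n) : app (tk n x) ξ m = x m := by
  induction n generalizing x m with
  | zero => omega
  | succ n ih =>
    cases m with
    | zero => rfl
    | succ m => simpa [tk, sh] using ih (sh 1 x) m (by omega)

lemma tk_eq {n : ℕ} {x y : ℕ → A} (h : ∀ m < n, x m = y m) : tk n x = tk n y := by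
  induction n generalizing x y with
  | zero => rfl
  | succ n ih =>
    simp only [tk, h 0 (by omega)]
    rw [ih (x := sh 1 x) (y := sh 1 y) fun m hm => h (m + 1) (by omega)]

lemma eq_app_tk {n : ℕ} {x y : ℕ → A} (h : ∀ m < n, y m = x m) : y = app (tk n x) (sh n y) := by
  rw [← tk_eq h, app_tk]

variable [TopologicalSpace A]

lemma continuous_sh (k : ℕ) : Continuous (sh k : (ℕ → A) → ℕ → A) :=
  continuous_pi fun _ => continuous_apply _

lemma continuous_app (w : List A) : Continuous (app w : (ℕ → A) → ℕ → A) := by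
  induction w with
  | nil => exact continuous_id
  | cons a w ih =>
    refine continuous_pi fun n => ?_
    cases n with
    | zero => exact continuous_const
    | succ n => exact (continuous_apply n).comp ih

lemma eventually_agree [DiscreteTopology A] (x : ℕ → A) (n : ℕ) :
    ∀ᶠ y in nhds x, ∀ m < n, y m = x m := by
  have : ∀ᶠ y in nhds x, ∀ m ∈ Finset.range n, y m = x m := by
    rw [Filter.eventually_all_finset]
    intro m _
    exact ((continuous_apply m).tendsto x).eventually (p := fun a => a = x m)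
      (by simp [nhds_discrete])
  simpa using this

lemma exists_agree {x : ℕ → A} {P : (ℕ → A) → Prop} (h : ∀ᶠ y in nhds x, P y) :
    ∃ n, ∀ y, (∀ m < n, y m = x m) → P y := by
  rw [nhds_pi, Filter.eventually_iff, Filter.mem_pi] at h
  obtain ⟨I, hI, t, ht, hs⟩ := h
  obtain ⟨n, hn⟩ := hI.bddAbove
  refine ⟨n + 1, fun y hy => hs fun m hm => ?_⟩
  rw [hy m (Nat.lt_succ_of_le (hn hm))]
  exact mem_of_mem_nhds (ht m)

end Words

lemma not_pingPong {X : Type} [TopologicalSpace X] (H : Subgroup (X ≃ₜ X))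
    (hH : ∀ g ∈ H, ∀ h ∈ H, ∃ x, g x = x ∧ h x = x) : ¬ PingPong H := by
  rintro ⟨g, hg, h, hh, U₁, U₂, V₁, V₂, -, -, -, -, d1, -, d3, d4, -, d6, p1, p2⟩
  obtain ⟨x, hx, hx'⟩ := hH g hg h hh
  have h1 : x ∈ U₁ ∨ x ∈ V₁ := by
    by_cases h : x ∈ U₁
    · exact Or.inl h
    · exact Or.inr (p1 ⟨x, h, hx⟩)
  have h2 : x ∈ U₂ ∨ x ∈ V₂ := by
    by_cases h : x ∈ U₂
    · exact Or.inl h
    · exact Or.inr (p2 ⟨x, h, hx'⟩)
  rcases h1 with h1 | h1 <;> rcases h2 with h2 | h2
  · exact Set.disjoint_left.1 d1 h1 h2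
  · exact Set.disjoint_left.1 d3 h1 h2
  · exact Set.disjoint_left.1 d4 h2 h1
  · exact Set.disjoint_left.1 d6 h1 h2

/-- Invariant Borel probability measure, no regularity. -/
def InvM {X : Type} [TopologicalSpace X] (S : Set (X ≃ₜ X)) : Prop :=
  letI : MeasurableSpace X := borel X
  ∃ μ : Measure X, IsProbabilityMeasure μ ∧ ∀ h ∈ S, μ.map h = μ

/-- Push forward along an equivariant continuous map. -/
lemma not_invMeasure {X Y : Type} [TopologicalSpace X] [TopologicalSpace Y]
    (H : Subgroup (X ≃ₜ X)) (S : Set (Y ≃ₜ Y)) (π : X → Y) (hπ : Continuous π)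
    (hS : ∀ s ∈ S, ∃ h ∈ H, ∀ x, π (h x) = s (π x)) (hn : ¬ InvM S) : ¬ InvMeasure H := by
  let _ : MeasurableSpace X := borel X
  let _ : MeasurableSpace Y := borel Y
  have : BorelSpace X := ⟨rfl⟩
  have : BorelSpace Y := ⟨rfl⟩
  rintro ⟨μ, hμ, -, hinv⟩
  refine hn ⟨μ.map π, Measure.isProbabilityMeasure_map hπ.measurable.aemeasurable, ?_⟩
  intro s hs
  obtain ⟨h, hh, he⟩ := hS s hs
  rw [Measure.map_map s.continuous.measurable hπ.measurable]
  conv_rhs => rw [← hinv h hh]
  rw [Measure.map_map hπ.measurable h.continuous.measurable]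
  congr 1
  funext x; exact (he x).symm

end H73.DT
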