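import Pool.Agent.H73.DT3

set_option autoImplicit false

/-! Breadth-first layering of a rank two core. -/

namespace H73.DT

open Classical

section Walk
variable {ι Ω : Type} (σ : ι → Ω → Ω)

def en : List ι → Ω → Ω
  | [], x => x
  | i :: w, x => en w (σ i x)

def Walk (D : Ω → ι → Prop) : List ι → Ω → Prop
  | [], _ => True
  | i :: w, x => D x i ∧ Walk D w (σ i x)

noncomputable def darts : List ι → Ω → Finset (Ω × ι)
  | [], _ => ∅
  | i :: w, x => insert (x, i) (insert (σ i x, i) (darts w (σ i x)))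

lemma walk_darts (D : Ω → ι → Prop) : ∀ (w : List ι) (x : Ω),
    (∀ p ∈ darts σ w x, D p.1 p.2) → Walk σ D w x
  | [], _, _ => trivial
  | i :: w, x, h => ⟨h (x, i) (by simp [darts]),
      walk_darts D w _ fun p hp => h p (by simp [darts, hp])⟩

lemma darts_symm (hσ : ∀ i x, σ i (σ i x) = x) : ∀ (w : List ι) (x : Ω),
    ∀ p ∈ darts σ w x, (σ p.2 p.1, p.2) ∈ darts σ w x
  | [], _, p, hp => by simp [darts] at hp
  | i :: w, x, p, hp => by
    simp only [darts, Finset.mem_insert] at hp ⊢
    rcases hp with rfl | rfl | hp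
    · simp
    · simp [hσ]
    · exact Or.inr (Or.inr (darts_symm hσ w _ p hp))

lemma darts_two : ∀ (w : List ι) (x : Ω), w.IsChain (· ≠ ·) →
    ∀ p ∈ darts σ w x, p.1 = x ∨ p.1 = en σ w x ∨
      ∃ i j, i ≠ j ∧ (p.1, i) ∈ darts σ w x ∧ (p.1, j) ∈ darts σ w x
  | [], _, _, p, hp => by simp [darts] at hp
  | i :: w, x, hc, p, hp => by
    have key : σ i x = en σ (i :: w) x ∨
        ∃ a b, a ≠ b ∧ (σ i x, a) ∈ darts σ (i :: w) x ∧ (σ i x, b) ∈ darts σ (i :: w) x := by
      cases w with
      | nil => left; rfl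
      | cons j w =>
        right
        exact ⟨i, j, (List.isChain_cons_cons.1 hc).1, by simp [darts], by simp [darts]⟩
    simp only [darts, Finset.mem_insert] at hp
    rcases hp with rfl | rfl | hp
    · simp
    · exact Or.inr key
    · rcases darts_two w _ hc.tail p hp with h | h | ⟨a, b, hab, ha, hb⟩
      · rw [h]; exact Or.inr key
      · exact Or.inr (Or.inl h)
      · exact Or.inr (Or.inr ⟨a, b, hab, by simp [darts, ha], by simp [darts, hb]⟩)

def Rch (D : Finset (Ω × ι)) (o : Ω) : ℕ → Ω → Prop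
  | 0, x => x = o
  | n + 1, x => Rch D o n x ∨ ∃ i, (x, i) ∈ D ∧ Rch D o n (σ i x)

lemma darts_rch (hσ : ∀ i x, σ i (σ i x) = x) (D : Finset (Ω × ι)) (o : Ω) :
    ∀ (w : List ι) (x : Ω), darts σ w x ⊆ D → (∃ n, Rch σ D o n x) →
      ∀ p ∈ darts σ w x, ∃ n, Rch σ D o n p.1
  | [], _, _, _, p, hp => by simp [darts] at hp
  | i :: w, x, hD, ⟨n, hn⟩, p, hp => by
    have h1 : Rch σ D o (n + 1) (σ i x) :=
      Or.inr ⟨i, hD (by simp [darts]), by rwa [hσ]⟩
    simp only [darts, Finset.mem_insert] at hp
    rcases hp with rfl | rfl | hp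
    · exact ⟨n, hn⟩
    · exact ⟨_, h1⟩
    · exact darts_rch hσ D o w _ (fun q hq => hD (by simp [darts, hq])) ⟨_, h1⟩ p hp

theorem layers [Fintype ι] (hι : 7 ≤ Fintype.card ι) (hσ : ∀ i x, σ i (σ i x) = x) (o : Ω)
    (V : Finset Ω) (D : Finset (Ω × ι)) (ho : o ∈ V) (hV : ∀ p ∈ D, p.1 ∈ V)
    (hs : ∀ p ∈ D, (σ p.2 p.1, p.2) ∈ D)
    (h2 : ∀ x ∈ V, x ≠ o → ∃ i j, i ≠ j ∧ (x, i) ∈ D ∧ (x, j) ∈ D)
    (hr : ∀ x ∈ V, ∃ n, Rch σ D o n x) (hc : D.card ≤ 2 * V.card + 2) :
    (∀ x ∈ V, ∃ i, (x, i) ∉ D) ∧ ∃ (l : Ω → ℕ) (idx : Ω → Fin 4),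
      (∀ p ∈ D, l (σ p.2 p.1) ≤ l p.1 + 1) ∧
      ∀ x ∈ V, ∀ y ∈ V, l x = l y → idx x = idx y → x = y := by
  have hVpos : 0 < V.card := Finset.card_pos.2 ⟨o, ho⟩
  constructor
  · intro x hx
    by_contra hcon
    push Not at hcon
    have hsum : D.card = ∑ y ∈ V, (D.filter fun p => p.1 = y).card :=
      Finset.card_eq_sum_card_fiberwise fun p hp => hV p hp
    have hx7 : 7 ≤ (D.filter fun p => p.1 = x).card := by
      refine le_trans hι ?_
      rw [← Finset.card_univ]
      exact Finset.card_le_card_of_injOn (fun i => (x, i)) (fun i _ => by simp [hcon i])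
        (fun i _ j _ h => by simpa using h)
    have hy2 : ∀ y ∈ (V.erase x).erase o, 2 ≤ (D.filter fun p => p.1 = y).card := by
      intro y hy
      simp only [Finset.mem_erase] at hy
      obtain ⟨i, j, hij, hi, hj⟩ := h2 y hy.2.2 hy.1
      have : ({(y, i), (y, j)} : Finset (Ω × ι)).card = 2 := Finset.card_pair (by simpa using hij)
      rw [← this]
      exact Finset.card_le_card (by intro p hp; simp at hp; rcases hp with rfl | rfl <;> simp [*])
    have h3 := Finset.card_nsmul_le_sum _ _ _ hy2
    have h4 : ∑ y ∈ (V.erase x).erase o, (D.filter fun p => p.1 = y).card ≤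
        ∑ y ∈ V.erase x, (D.filter fun p => p.1 = y).card :=
      Finset.sum_le_sum_of_subset (Finset.erase_subset _ _)
    have h5 := Finset.add_sum_erase V (fun y => (D.filter fun p => p.1 = y).card) hx
    have h6 := Finset.pred_card_le_card_erase (s := V.erase x) (a := o)
    have h7 := Finset.card_erase_of_mem hx
    simp only [smul_eq_mul] at h3
    omega
  · set l : Ω → ℕ := fun x => if h : ∃ n, Rch σ D o n x then Nat.find h else 0 with hl
    have hl1 : ∀ x ∈ V, Rch σ D o (l x) x := by
      intro x hx; simp only [hl, dif_pos (hr x hx)]; exact Nat.find_spec (hr x hx)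
    have hl2 : ∀ x n, Rch σ D o n x → l x ≤ n := by
      intro x n h; simp only [hl, dif_pos (⟨n, h⟩ : ∃ n, Rch σ D o n x)]; exact Nat.find_min' _ h
    have hl3 : ∀ p ∈ D, l (σ p.2 p.1) ≤ l p.1 + 1 := by
      intro p hp
      exact hl2 _ _ (Or.inr ⟨p.2, hs p hp, by rw [hσ]; exact hl1 _ (hV p hp)⟩)
    have hl0 : ∀ x ∈ V, l x = 0 → x = o := by
      intro x hx h; have := hl1 x hx; rwa [h] at this
    have hlo : l o = 0 := Nat.le_zero.1 (hl2 o 0 rfl)
    have hpar : ∀ x ∈ V, x ≠ o → ∃ i j, i ≠ j ∧ (x, i) ∈ D ∧ (x, j) ∈ D ∧ l (σ i x) + 1 = l x := by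
      intro x hx hxo
      obtain ⟨n, hn⟩ : ∃ n, l x = n + 1 := Nat.exists_eq_succ_of_ne_zero fun h => hxo (hl0 x hx h)
      have h1 := hl1 x hx
      rw [hn] at h1
      rcases h1 with h1 | ⟨i, hi, h1⟩
      · have := hl2 _ _ h1; omega
      · have h3 := hl2 _ _ h1
        have h4 := hl3 _ (hs _ hi)
        simp only [hσ] at h4
        obtain ⟨a, b, hab, ha, hb⟩ := h2 x hx hxo
        by_cases hia : i = a
        · exact ⟨i, b, hia ▸ hab, hi, hb, by omega⟩
        · exact ⟨i, a, hia, hi, ha, by omega⟩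
    have hne : Nonempty ι := Fintype.card_pos_iff.1 (by omega)
    choose! p q hpq hp hq hlp using hpar
    have hlay : ∀ n, (V.filter fun x => l x = n).card ≤ 4 := by
      intro n
      rcases n with _ | n
      · refine le_trans (Finset.card_le_card (t := {o}) ?_) (by simp)
        intro x hx
        simp only [Finset.mem_filter] at hx
        simp [hl0 x hx.1 hx.2]
      set W := V.erase o with hW
      have hWm : ∀ x ∈ W, x ∈ V ∧ x ≠ o := fun x hx => by
        simp only [hW, Finset.mem_erase] at hx; exact ⟨hx.2, hx.1⟩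
      set A := W.image fun x => (x, p x) with hA
      set B := (W.filter fun x => l x ≤ n + 1).image fun x => (σ (p x) x, p x) with hB
      set C := (W.filter fun x => n + 1 ≤ l x).image fun x => (x, q x) with hC
      have cA : A.card = W.card := Finset.card_image_of_injOn fun x _ y _ h => by
        simpa using congrArg Prod.fst h
      have cB : B.card = (W.filter fun x => l x ≤ n + 1).card :=
        Finset.card_image_of_injOn fun x _ y _ h => by
          simp only [Prod.mk.injEq] at h
          have := congrArg (σ (p x)) h.1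
          rw [hσ, h.2, hσ] at this; exact this
      have cC : C.card = (W.filter fun x => n + 1 ≤ l x).card :=
        Finset.card_image_of_injOn fun x _ y _ h => by simpa using congrArg Prod.fst h
      have dAB : Disjoint A B := by
        rw [Finset.disjoint_left]
        intro z hz hz'
        obtain ⟨x, hx, rfl⟩ := Finset.mem_image.1 hz
        obtain ⟨y, hy, h⟩ := Finset.mem_image.1 hz'
        simp only [Prod.mk.injEq] at h
        have hy' := hWm y (Finset.mem_filter.1 hy).1
        have h1 := hlp x (hWm x hx).1 (hWm x hx).2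
        have h3 := hlp y hy'.1 hy'.2
        have h4 : σ (p x) x = y := by rw [← h.2, ← h.1, hσ]
        rw [h4] at h1; rw [h.1] at h3; omega
      have dC : Disjoint (A ∪ B) C := by
        rw [Finset.disjoint_left]
        intro z hz hz'
        obtain ⟨y, hy, rfl⟩ := Finset.mem_image.1 hz'
        have hy' := hWm y (Finset.mem_filter.1 hy).1
        rcases Finset.mem_union.1 hz with hz | hz
        · obtain ⟨x, hx, h⟩ := Finset.mem_image.1 hz
          simp only [Prod.mk.injEq] at h
          exact hpq y hy'.1 hy'.2 (by rw [← h.2, h.1])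
        · obtain ⟨x, hx, h⟩ := Finset.mem_image.1 hz
          simp only [Prod.mk.injEq] at h
          have hx' := hWm x (Finset.mem_filter.1 hx).1
          have h1 := hlp x hx'.1 hx'.2
          have h3 := (Finset.mem_filter.1 hx).2
          have h4 := (Finset.mem_filter.1 hy).2
          rw [h.1] at h1; omega
      have hsub : A ∪ B ∪ C ⊆ D := by
        intro z hz
        rcases Finset.mem_union.1 hz with hz | hz
        · rcases Finset.mem_union.1 hz with hz | hz
          · obtain ⟨x, hx, rfl⟩ := Finset.mem_image.1 hz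
            exact hp x (hWm x hx).1 (hWm x hx).2
          · obtain ⟨x, hx, rfl⟩ := Finset.mem_image.1 hz
            have hx' := hWm x (Finset.mem_filter.1 hx).1
            exact hs _ (hp x hx'.1 hx'.2)
        · obtain ⟨x, hx, rfl⟩ := Finset.mem_image.1 hz
          have hx' := hWm x (Finset.mem_filter.1 hx).1
          exact hq x hx'.1 hx'.2
      have h5 := Finset.card_le_card hsub
      rw [Finset.card_union_of_disjoint dC, Finset.card_union_of_disjoint dAB, cA, cB, cC] at h5
      have h6 := Finset.card_union_add_card_inter (W.filter fun x => l x ≤ n + 1)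
        (W.filter fun x => n + 1 ≤ l x)
      have h7 : (W.filter fun x => l x ≤ n + 1) ∪ (W.filter fun x => n + 1 ≤ l x) = W := by
        ext x; simp only [Finset.mem_union, Finset.mem_filter]; constructor
        · tauto
        · intro h; rcases le_total (l x) (n + 1) with h' | h' <;> tauto
      have h8 : (V.filter fun x => l x = n + 1) ⊆
          (W.filter fun x => l x ≤ n + 1) ∩ (W.filter fun x => n + 1 ≤ l x) := by
        intro x hx
        simp only [Finset.mem_filter] at hx
        have : x ∈ W := by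
          simp only [hW, Finset.mem_erase]
          exact ⟨fun h => by rw [h, hlo] at hx; omega, hx.1⟩
        simp [this, hx.2]
      have h9 := Finset.card_le_card h8
      have h10 : W.card = V.card - 1 := Finset.card_erase_of_mem ho
      rw [h7] at h6
      omega
    have hemb : ∀ n, ∃ f : Ω → Fin 4, Set.InjOn f (V.filter fun x => l x = n : Finset Ω) := by
      intro n
      obtain ⟨f, -, hf⟩ := Set.Finite.exists_injOn_of_encard_le
        (s := ((V.filter fun x => l x = n : Finset Ω) : Set Ω)) (t := ((Finset.univ : Finset (Fin 4)) : Set (Fin 4)))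
        (Finset.finite_toSet _) (by
          rw [Set.encard_coe_eq_coe_finsetCard, Set.encard_coe_eq_coe_finsetCard]
          exact_mod_cast (by simpa using hlay n))
      exact ⟨f, hf⟩
    choose f hf using hemb
    refine ⟨l, fun x => f (l x) x, hl3, fun x hx y hy h1 h3 => ?_⟩
    refine hf (l x) (by simp [hx]) (by simp [hy, h1]) ?_
    simpa [h1] using h3

end Walk

lemma en_sg {ι : Type} (u v : List ι) : ∀ (w : List ι) (x : Om u v),
    en (sg u v) w x = wd w • x
  | [], x => by simp [en, wd]
  | i :: w, x => by rw [en, en_sg u v w, wd, mul_smul]; rfl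

theorem exists_core {ι : Type} [Fintype ι] (hι : 7 ≤ Fintype.card ι) (u v : List ι)
    (hu : u.IsChain (· ≠ ·)) (hv : v.IsChain (· ≠ ·)) :
    ∃ (Ω : Type) (σ : ι → Ω → Ω) (o : Ω) (V : Ω → Prop) (D : Ω → ι → Prop) (l : Ω → ℕ)
      (idx : Ω → Fin 4), (∀ i x, σ i (σ i x) = x) ∧ (∀ x i, D x i → V x ∧ D (σ i x) i) ∧
      (∀ x, V x → ∃ i, ¬ D x i) ∧ (∀ x i, D x i → l (σ i x) ≤ l x + 1) ∧
      (∀ x y, V x → V y → l x = l y → idx x = idx y → x = y) ∧
      Walk σ D u o ∧ Walk σ D v o ∧ en σ u o = o ∧ en σ v o = o := by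
  set σ := sg u v
  set o := oo u v
  set D := darts σ u o ∪ darts σ v o with hD
  set V := insert o (D.image Prod.fst) with hV
  have hσ : ∀ i x, σ i (σ i x) = x := sg_sg u v
  have eu : en σ u o = o := by
    rw [en_sg, smul_oo_iff]; exact Subgroup.subset_closure (by simp)
  have ev : en σ v o = o := by
    rw [en_sg, smul_oo_iff]; exact Subgroup.subset_closure (by simp)
  have h1 : ∀ p ∈ D, p.1 ∈ V := fun p hp =>
    Finset.mem_insert_of_mem (Finset.mem_image_of_mem _ hp)
  have hs : ∀ p ∈ D, (σ p.2 p.1, p.2) ∈ D := fun p hp => by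
    rcases Finset.mem_union.1 hp with h | h
    · exact Finset.mem_union_left _ (darts_symm σ hσ _ _ p h)
    · exact Finset.mem_union_right _ (darts_symm σ hσ _ _ p h)
  obtain ⟨h2, l, idx, h3, h4⟩ := layers σ hι hσ o V D (Finset.mem_insert_self _ _) h1 hs
    (by
      intro x hx hxo
      rcases Finset.mem_insert.1 hx with h | h
      · exact absurd h hxo
      obtain ⟨p, hp, rfl⟩ := Finset.mem_image.1 h
      rcases Finset.mem_union.1 hp with h | h
      · rcases darts_two σ u o hu p h with h' | h' | ⟨i, j, hij, hi, hj⟩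
        · exact absurd h' hxo
        · exact absurd (h'.trans eu) hxo
        · exact ⟨i, j, hij, Finset.mem_union_left _ hi, Finset.mem_union_left _ hj⟩
      · rcases darts_two σ v o hv p h with h' | h' | ⟨i, j, hij, hi, hj⟩
        · exact absurd h' hxo
        · exact absurd (h'.trans ev) hxo
        · exact ⟨i, j, hij, Finset.mem_union_right _ hi, Finset.mem_union_right _ hj⟩)
    (by
      intro x hx
      rcases Finset.mem_insert.1 hx with h | h
      · exact ⟨0, h⟩
      obtain ⟨p, hp, rfl⟩ := Finset.mem_image.1 h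
      rcases Finset.mem_union.1 hp with h | h
      · exact darts_rch σ hσ D o u o Finset.subset_union_left ⟨0, rfl⟩ p h
      · exact darts_rch σ hσ D o v o Finset.subset_union_right ⟨0, rfl⟩ p h)
    (card_darts u v V D (Finset.mem_insert_self _ _) fun p hp => ⟨h1 p hp, h1 _ (hs p hp)⟩)
  refine ⟨Om u v, σ, o, (· ∈ V), fun x i => (x, i) ∈ D, l, idx, hσ,
    fun x i h => ⟨h1 _ h, hs _ h⟩, h2, fun x i h => h3 _ h, fun x y hx hy => h4 x hx y hy,
    walk_darts σ _ _ _ fun p hp => Finset.mem_union_left _ hp,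
    walk_darts σ _ _ _ fun p hp => Finset.mem_union_right _ hp, eu, ev⟩

end H73.DT
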