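import Pool.Agent.H73.DT1
import Pool.Agent.H73.DT4

set_option autoImplicit false

/-! A two-stack machine: eight involutions of a product of two Cantor sets. -/

namespace H73.DT

open Classical MeasureTheory

abbrev Cell := Fin 4 → Fin 8 → Option (Fin 3 × Fin 4)

abbrev Al (T : Type) := Fin 8 ⊕ (Fin 4 × T)

section
variable {T : Type} (dec : T → Cell)

def free : Al T → Fin 8 → Prop
  | .inl j, i => j ≠ i
  | .inr (v, t), i => dec t v i = none

noncomputable def mv (i : Fin 8) (a b e : Al T) : List (Al T) × List (Al T) :=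
  match a with
  | .inl j => if j ≠ i then ([.inl i, a, b], [e]) else if free dec b i then ([b], [e])
      else ([a, b], [e])
  | .inr (v, t) =>
    match dec t v i with
    | none => ([.inl i, a, b], [e])
    | some (d, v') =>
      if d = 0 then (if dec t v' i = some (0, v) then ([.inr (v', t), b], [e]) else ([a, b], [e]))
      else if d = 1 then
        match b with
        | .inl _ => ([a, b], [e])
        | .inr (u, t') => if dec t' v' i = some (2, v) then ([.inr (v', t')], [.inr (u, t), e])
            else ([a, b], [e])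
      else
        match e with
        | .inl _ => ([a, b], [e])
        | .inr (u, t') => if dec t' v' i = some (1, v) then ([.inr (v', t'), .inr (u, t), b], [])
            else ([a, b], [e])

abbrev XX (T : Type) := (ℕ → Al T) × (ℕ → Al T)

noncomputable def ss (i : Fin 8) (p : XX T) : XX T :=
  (app (mv dec i (p.1 0) (p.1 1) (p.2 0)).1 (sh 2 p.1),
    app (mv dec i (p.1 0) (p.1 1) (p.2 0)).2 (sh 1 p.2))

lemma ss_cons (i : Fin 8) (a b e : Al T) (ξ η : ℕ → Al T) :
    ss dec i (cons a (cons b ξ), cons e η) =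
      (app (mv dec i a b e).1 ξ, app (mv dec i a b e).2 η) := rfl

lemma ss_push (i : Fin 8) (x y : ℕ → Al T) (h : free dec (x 0) i) :
    ss dec i (x, y) = (cons (.inl i) x, y) := by
  obtain ⟨a, x, rfl⟩ := exists_cons x
  obtain ⟨b, x, rfl⟩ := exists_cons x
  obtain ⟨e, y, rfl⟩ := exists_cons y
  rw [ss_cons]
  rcases a with j | ⟨v, t⟩
  · have : j ≠ i := h
    simp [mv, this]
  · have : dec t v i = none := h
    simp [mv, this]

lemma ss_pop (i : Fin 8) (x y : ℕ → Al T) (h : free dec (x 0) i) :
    ss dec i (cons (.inl i) x, y) = (x, y) := by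
  obtain ⟨a, x, rfl⟩ := exists_cons x
  obtain ⟨e, y, rfl⟩ := exists_cons y
  rw [ss_cons]
  have : free dec a i := h
  simp [mv, this]

lemma ss_stay (i : Fin 8) (v v' : Fin 4) (t : T) (x y : ℕ → Al T)
    (h : dec t v i = some (0, v')) (h' : dec t v' i = some (0, v)) :
    ss dec i (cons (.inr (v, t)) x, y) = (cons (.inr (v', t)) x, y) := by
  obtain ⟨a, x, rfl⟩ := exists_cons x
  obtain ⟨e, y, rfl⟩ := exists_cons y
  rw [ss_cons]
  simp [mv, h, h']

lemma ss_right (i : Fin 8) (v v' u : Fin 4) (t t' : T) (x y : ℕ → Al T)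
    (h : dec t v i = some (1, v')) (h' : dec t' v' i = some (2, v)) :
    ss dec i (cons (.inr (v, t)) (cons (.inr (u, t')) x), y) =
      (cons (.inr (v', t')) x, cons (.inr (u, t)) y) := by
  obtain ⟨e, y, rfl⟩ := exists_cons y
  rw [ss_cons]
  simp [mv, h, h']

lemma ss_left (i : Fin 8) (v v' u : Fin 4) (t t' : T) (x y : ℕ → Al T)
    (h : dec t v i = some (1, v')) (h' : dec t' v' i = some (2, v)) :
    ss dec i (cons (.inr (v', t')) x, cons (.inr (u, t)) y) =
      (cons (.inr (v, t)) (cons (.inr (u, t')) x), y) := by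
  obtain ⟨a, x, rfl⟩ := exists_cons x
  rw [ss_cons]
  simp [mv, h, h']

lemma ss_ss (i : Fin 8) (p : XX T) : ss dec i (ss dec i p) = p := by
  obtain ⟨x, y⟩ := p
  by_cases hf : free dec (x 0) i
  · rw [ss_push dec i x y hf, ss_pop dec i x y hf]
  suffices h : ss dec i (x, y) = (x, y) ∨ ss dec i (ss dec i (x, y)) = (x, y) by
    rcases h with h | h
    · rw [h, h]
    · exact h
  obtain ⟨a, x, rfl⟩ := exists_cons x
  obtain ⟨b, x, rfl⟩ := exists_cons x
  obtain ⟨e, y, rfl⟩ := exists_cons y
  rcases a with j | ⟨v, t⟩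
  · have hj : j = i := by simpa [free] using hf
    subst hj
    by_cases hb : free dec b j
    · right; rw [ss_pop dec j _ _ hb, ss_push dec j _ _ hb]
    · left; rw [ss_cons]; simp [mv, hb]
  · rcases hd : dec t v i with _ | ⟨d, v'⟩
    · exact absurd hd hf
    by_cases d0 : d = 0
    · subst d0
      by_cases h' : dec t v' i = some (0, v)
      · right; rw [ss_stay dec i v v' t _ _ hd h', ss_stay dec i v' v t _ _ h' hd]
      · left; rw [ss_cons]; simp [mv, hd, h']
    by_cases d1 : d = 1
    · subst d1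
      rcases b with j | ⟨u, t'⟩
      · left; rw [ss_cons]; simp [mv, hd]
      by_cases h' : dec t' v' i = some (2, v)
      · right; rw [ss_right dec i v v' u t t' _ _ hd h', ss_left dec i v v' u t t' _ _ hd h']
      · left; rw [ss_cons]; simp [mv, hd, h']
    · have d2 : d = 2 := by omega
      subst d2
      rcases e with j | ⟨u, t'⟩
      · left; rw [ss_cons]; simp [mv, hd]
      by_cases h' : dec t' v' i = some (1, v)
      · right; rw [ss_left dec i v' v u t' t _ _ h' hd, ss_right dec i v' v u t' t _ _ h' hd]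
      · left; rw [ss_cons]; simp [mv, hd, h']

lemma exists_reduced (w : List (Fin 8)) :
    ∃ w' : List (Fin 8), w'.IsChain (· ≠ ·) ∧ ∀ p, en (ss dec) w' p = en (ss dec) w p := by
  induction w with
  | nil => exact ⟨[], List.IsChain.nil, fun _ => rfl⟩
  | cons i w ih =>
    obtain ⟨w', hc, he⟩ := ih
    rcases w' with _ | ⟨j, w'⟩
    · exact ⟨[i], List.IsChain.singleton _, fun p => he (ss dec i p)⟩
    by_cases hij : i = j
    · subst hij
      exact ⟨w', hc.tail, fun p => by rw [en, ← he, en, ss_ss]⟩
    · exact ⟨i :: j :: w', List.isChain_cons_cons.2 ⟨hij, hc⟩, fun p => he (ss dec i p)⟩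

theorem common_fixed (hsurj : ∀ c : Cell, (∀ v, ∃ i, c v i = none) → ∃ t, dec t = c)
    (u v : List (Fin 8)) : ∃ p, en (ss dec) u p = p ∧ en (ss dec) v p = p := by
  obtain ⟨u, hu, heu⟩ := exists_reduced dec u
  obtain ⟨v, hv, hev⟩ := exists_reduced dec v
  simp only [← heu, ← hev]
  obtain ⟨Ω, σ, o, V, D, l, idx, hσ, hD, hout, hl, hinj, wu, wv, eu, ev⟩ :=
    exists_core (by simp) u v hu hv
  let cell : ℤ → Cell := fun n a i =>
    if h : ∃ x, V x ∧ (l x : ℤ) = n ∧ idx x = a ∧ D x i then
      some (if l (σ i h.choose) = l h.choose then 0 else if l (σ i h.choose) = l h.choose + 1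
        then 1 else 2, idx (σ i h.choose)) else none
  have hcell : ∀ x i, D x i → cell (l x) (idx x) i =
      some (if l (σ i x) = l x then 0 else if l (σ i x) = l x + 1 then 1 else 2, idx (σ i x)) := by
    intro x i h
    have hex : ∃ y, V y ∧ (l y : ℤ) = l x ∧ idx y = idx x ∧ D y i := ⟨x, (hD x i h).1, rfl, rfl, h⟩
    have : hex.choose = x := hinj _ _ hex.choose_spec.1 (hD x i h).1
      (by exact_mod_cast hex.choose_spec.2.1) hex.choose_spec.2.2.1
    simp only [cell, dif_pos hex, this]
  have hgood : ∀ n a, ∃ i, cell n a i = none := by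
    intro n a
    by_cases h : ∃ x, V x ∧ (l x : ℤ) = n ∧ idx x = a
    · obtain ⟨x, hx, h1, h2⟩ := h
      obtain ⟨i, hi⟩ := hout x hx
      refine ⟨i, dif_neg ?_⟩
      rintro ⟨y, hy, h3, h4, h5⟩
      exact hi (hinj y x hy hx (by exact_mod_cast h3.trans h1.symm) (h4.trans h2.symm) ▸ h5)
    · exact ⟨0, dif_neg fun ⟨y, hy, h3, h4, _⟩ => h ⟨y, hy, h3, h4⟩⟩
  choose tp htp using fun n => hsurj (cell n) (hgood n)
  let R : ℤ → ℕ → Al T := fun n k => .inr (0, tp (n + k))
  let L : ℤ → ℕ → Al T := fun n k => .inr (0, tp (n - k))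
  have hR : ∀ n, R n = cons (.inr (0, tp n)) (R (n + 1)) := by
    intro n; funext k; cases k with
    | zero => simp [R]
    | succ k => simp only [R, cons_succ]; congr 3; push_cast; ring
  have hL : ∀ n, L n = cons (.inr (0, tp n)) (L (n - 1)) := by
    intro n; funext k; cases k with
    | zero => simp [L]
    | succ k => simp only [L, cons_succ]; congr 3; push_cast; ring
  let conf : Ω → XX T := fun x =>
    (cons (.inr (idx x, tp (l x))) (R (l x + 1)), L (l x - 1))
  have step : ∀ x i, D x i → ss dec i (conf x) = conf (σ i x) := by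
    intro x i h
    have h' := (hD x i h).2
    have c1 := hcell x i h
    have c2 := hcell _ i h'
    have l1 := hl x i h
    have l2 := hl _ i h'
    rw [hσ] at c2 l2
    rw [← htp] at c1 c2
    by_cases e0 : l (σ i x) = l x
    · simp only [e0, if_true] at c1 c2
      simp only [conf, e0]
      exact ss_stay dec i _ _ _ _ _ c1 c2
    by_cases e1 : l (σ i x) = l x + 1
    · rw [if_neg e0, if_pos e1] at c1
      rw [if_neg (by omega), if_neg (by omega)] at c2
      have e2 : (l (σ i x) : ℤ) = l x + 1 := by exact_mod_cast e1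
      simp only [conf]
      rw [hR (l x + 1), e2, add_sub_cancel_right, hL (l x)]
      rw [e2] at c2
      exact ss_right dec i _ _ _ _ _ _ _ c1 c2
    · rw [if_neg e0, if_neg e1] at c1
      rw [if_neg (by omega), if_pos (by omega)] at c2
      have e2 : (l x : ℤ) = l (σ i x) + 1 := by exact_mod_cast (by omega : l x = l (σ i x) + 1)
      simp only [conf]
      rw [hR (l (σ i x) + 1), e2, add_sub_cancel_right, hL (l (σ i x))]
      rw [e2] at c1
      exact ss_left dec i _ _ _ _ _ _ _ c2 c1
  have walk : ∀ (w : List (Fin 8)) x, Walk σ D w x → en (ss dec) w (conf x) = conf (en σ w x) := by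
    intro w
    induction w with
    | nil => intro x _; rfl
    | cons i w ih => intro x h; rw [en, en, step x i h.1, ih _ h.2]
  exact ⟨conf o, by rw [walk u o wu, eu], by rw [walk v o wv, ev]⟩

end

end H73.DT
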