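import Mathlib

set_option autoImplicit false

/-! Cores of rank two have bounded width. -/

namespace H73.DT

open Classical

section Hom
variable {ι : Type}

def wd : List ι → FreeGroup ι
  | [] => 1
  | i :: w => wd w * FreeGroup.of i

def KK (u v : List ι) : Subgroup (FreeGroup ι) :=
  Subgroup.closure ({wd u, wd v} ∪ {k | ∃ w i, k = w * FreeGroup.of i * FreeGroup.of i * w⁻¹})

abbrev Om (u v : List ι) := FreeGroup ι ⧸ KK u v

variable (u v : List ι)

def sg (i : ι) (x : Om u v) : Om u v := (FreeGroup.of i : FreeGroup ι) • x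

def oo : Om u v := ((1 : FreeGroup ι) : Om u v)

lemma smul_oo (g : FreeGroup ι) : g • oo u v = (g : Om u v) := by
  simp [oo, MulAction.Quotient.smul_mk]

lemma smul_oo_iff (g : FreeGroup ι) : g • oo u v = oo u v ↔ g ∈ KK u v := by
  rw [smul_oo, oo, eq_comm, QuotientGroup.eq]; simp

lemma sg_sg (i : ι) (x : Om u v) : sg u v i (sg u v i x) = x := by
  obtain ⟨w, rfl⟩ := QuotientGroup.mk_surjective x
  simp only [sg, MulAction.Quotient.smul_mk, smul_eq_mul]
  rw [eq_comm, QuotientGroup.eq]
  refine Subgroup.subset_closure (Or.inr ⟨w⁻¹, i, ?_⟩)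
  group

abbrev Edge := Sym2 (Om u v) × ι

def ed (x : Om u v) (i : ι) : Edge u v := (s(x, sg u v i x), i)

lemma ed_sg (x : Om u v) (i : ι) : ed u v (sg u v i x) i = ed u v x i := by
  simp only [ed, sg_sg]; rw [Sym2.eq_swap]

abbrev MM := Edge u v →₀ ZMod 2

lemma MM_add_self (m : MM u v) : m + m = 0 := by
  ext e; simp [CharTwo.add_self_eq_zero]

noncomputable def st (i : ι) (p : Om u v × MM u v) : Om u v × MM u v :=
  (sg u v i p.1, p.2 + Finsupp.single (ed u v p.1 i) 1)

lemma st_inv (i : ι) : Function.Involutive (st u v i) := by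
  intro p
  simp only [st, sg_sg, ed_sg, add_assoc, MM_add_self, add_zero]

noncomputable def psi : FreeGroup ι →* Equiv.Perm (Om u v × MM u v) :=
  FreeGroup.lift fun i => (st_inv u v i).toPerm

noncomputable def cc (g : FreeGroup ι) (x : Om u v) : MM u v := (psi u v g (x, 0)).2

lemma psi_apply (g : FreeGroup ι) : ∀ (x : Om u v) (m : MM u v),
    psi u v g (x, m) = (g • x, m + cc u v g x) := by
  suffices h : ∀ (x : Om u v), ∃ c, ∀ m, psi u v g (x, m) = (g • x, m + c) by
    intro x m
    obtain ⟨c, hc⟩ := h x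
    rw [cc, hc, hc]; simp
  induction g using FreeGroup.induction_on with
  | C1 => intro x; exact ⟨0, by simp⟩
  | of i => intro x; exact ⟨_, fun m => by simp [psi, st, sg]; rfl⟩
  | inv_of i _ =>
    intro x
    refine ⟨Finsupp.single (ed u v x i) 1, fun m => ?_⟩
    have h1 : (FreeGroup.of i)⁻¹ • x = sg u v i x := by
      rw [inv_smul_eq_iff]; exact (sg_sg u v i x).symm
    rw [h1, map_inv, Equiv.Perm.inv_eq_iff_eq]
    simp only [psi, FreeGroup.lift_apply_of, Function.Involutive.coe_toPerm]
    exact (st_inv u v i (x, m)).symm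
  | mul g h ihg ihh =>
    intro x
    obtain ⟨c, hc⟩ := ihh x
    obtain ⟨c', hc'⟩ := ihg (h • x)
    exact ⟨c + c', fun m => by rw [map_mul, Equiv.Perm.mul_apply, hc, hc', mul_smul, add_assoc]⟩

lemma cc_mul (g h : FreeGroup ι) (x : Om u v) :
    cc u v (g * h) x = cc u v h x + cc u v g (h • x) := by
  have := psi_apply u v (g * h) x 0
  rw [map_mul, Equiv.Perm.mul_apply, psi_apply, psi_apply] at this
  simpa using (congrArg Prod.snd this).symm

lemma cc_one (x : Om u v) : cc u v 1 x = 0 := by simp [cc]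

lemma cc_inv (g : FreeGroup ι) (x : Om u v) : cc u v g⁻¹ (g • x) = - cc u v g x := by
  have := cc_mul u v g⁻¹ g x
  rw [inv_mul_cancel, cc_one] at this
  exact eq_neg_of_add_eq_zero_right this.symm

lemma cc_of (i : ι) (x : Om u v) :
    cc u v (FreeGroup.of i) x = Finsupp.single (ed u v x i) 1 := by
  simp [cc, psi, st]

noncomputable def ZZ : Submodule (ZMod 2) (MM u v) :=
  Submodule.span (ZMod 2) {cc u v (wd u) (oo u v), cc u v (wd v) (oo u v)}

lemma cc_mem {k : FreeGroup ι} (hk : k ∈ KK u v) : cc u v k (oo u v) ∈ ZZ u v := by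
  induction hk using Subgroup.closure_induction with
  | mem k hk =>
    rcases hk with (rfl | rfl) | ⟨w, i, rfl⟩
    · exact Submodule.subset_span (by simp)
    · exact Submodule.subset_span (by simp)
    · have h2 : psi u v (FreeGroup.of i) * psi u v (FreeGroup.of i) = 1 := by
        ext1 p
        simp only [psi, FreeGroup.lift_apply_of, Equiv.Perm.mul_apply,
          Function.Involutive.coe_toPerm, Equiv.Perm.one_apply]
        exact st_inv u v i p
      have : psi u v (w * FreeGroup.of i * FreeGroup.of i * w⁻¹) = 1 := by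
        rw [map_mul, map_mul, map_mul, mul_assoc (psi u v w), h2, mul_one, ← map_mul]; simp
      simp [cc, this]
  | one => simp [cc_one]
  | mul a b ha hb iha ihb =>
    rw [cc_mul, (smul_oo_iff u v b).2 hb]; exact add_mem ihb iha
  | inv a ha iha =>
    have := cc_inv u v a (oo u v)
    rw [(smul_oo_iff u v a).2 ha] at this
    rw [this]; exact neg_mem iha

noncomputable def tau (x : Om u v) : MM u v := cc u v x.out (oo u v)

lemma out_smul (x : Om u v) : x.out • oo u v = x := by
  rw [smul_oo]; exact Quotient.out_eq x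

lemma tau_oo : tau u v (oo u v) ∈ ZZ u v :=
  cc_mem u v ((smul_oo_iff u v _).1 (out_smul u v _))

lemma edge_mem (x : Om u v) (i : ι) :
    tau u v x + Finsupp.single (ed u v x i) 1 - tau u v (sg u v i x) ∈ ZZ u v := by
  have hk : (sg u v i x).out⁻¹ * (FreeGroup.of i * x.out) ∈ KK u v := by
    rw [← smul_oo_iff, mul_smul, mul_smul, out_smul, inv_smul_eq_iff, out_smul]; rfl
  have := cc_mem u v hk
  rw [cc_mul, cc_mul, out_smul, cc_of, mul_smul, out_smul] at this
  have h2 := cc_inv u v (sg u v i x).out (oo u v)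
  rw [out_smul] at h2
  rw [show FreeGroup.of i • x = sg u v i x from rfl, h2] at this
  simpa [tau, sub_eq_add_neg] using this

/-- Euler characteristic bound. -/
lemma card_darts (V : Finset (Om u v)) (D : Finset (Om u v × ι)) (ho : oo u v ∈ V)
    (hD : ∀ p ∈ D, p.1 ∈ V ∧ sg u v p.2 p.1 ∈ V) : D.card ≤ 2 * V.card + 2 := by
  set E : Finset (Edge u v) := D.image fun p => ed u v p.1 p.2 with hE
  have h1 : D.card ≤ 2 * E.card := by
    refine Finset.card_le_mul_card_image D 2 ?_
    intro e he
    obtain ⟨p, -, rfl⟩ := Finset.mem_image.1 he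
    refine le_trans (Finset.card_le_card (t := {p, (sg u v p.2 p.1, p.2)}) ?_) Finset.card_le_two
    intro q hq
    obtain ⟨-, hq⟩ := Finset.mem_filter.1 hq
    simp only [ed, Prod.mk.injEq, Sym2.eq_iff] at hq
    obtain ⟨h | h, h'⟩ := hq
    · simp [Prod.ext_iff, h.1, h']
    · simp [Prod.ext_iff, h.1, h']
  have hli : LinearIndependent (ZMod 2)
      (fun e : E => (Finsupp.single (e : Edge u v) 1 : MM u v)) :=
    (Finsupp.linearIndependent_single_one (ZMod 2) (Edge u v)).comp _ Subtype.val_injective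
  set W : Finset (MM u v) := {cc u v (wd u) (oo u v), cc u v (wd v) (oo u v)} ∪
    (V.erase (oo u v)).image (tau u v) with hW
  have hZ : ZZ u v ≤ Submodule.span (ZMod 2) (W : Set (MM u v)) :=
    Submodule.span_mono (by intro m hm; simp only [hW]; rcases hm with rfl | rfl <;> simp)
  have ht : ∀ x ∈ V, tau u v x ∈ Submodule.span (ZMod 2) (W : Set (MM u v)) := by
    intro x hx
    by_cases h : x = oo u v
    · rw [h]; exact hZ (tau_oo u v)
    · exact Submodule.subset_span (by
        simp only [hW, Finset.coe_union, Finset.coe_image]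
        exact Or.inr ⟨x, by simp [h, hx], rfl⟩)
  have h2 := linearIndependent_le_span_aux' _ hli (W : Set (MM u v)) (by
    rintro _ ⟨⟨e, he⟩, rfl⟩
    obtain ⟨p, hp, rfl⟩ := Finset.mem_image.1 he
    have h3 := hZ (edge_mem u v p.1 p.2)
    have h4 := sub_mem (add_mem h3 (ht _ (hD p hp).2)) (ht _ (hD p hp).1)
    simpa using h4)
  have h3 : W.card ≤ 2 + (V.card - 1) := by
    refine le_trans (Finset.card_union_le _ _) (add_le_add Finset.card_le_two ?_)
    refine le_trans Finset.card_image_le ?_
    rw [Finset.card_erase_of_mem ho]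
  have h4 : 0 < V.card := Finset.card_pos.2 ⟨_, ho⟩
  simp only [Fintype.card_coe, Finset.coe_sort_coe] at h2
  omega

end Hom

end H73.DT
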