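import Pool.Agent.H73.DT2

set_option autoImplicit false

/-! The example in the Brin-Thompson groups. -/

namespace H73.DT

open Classical MeasureTheory

abbrev CN (n : ℕ) := Fin n → ℕ → Bool

def UNV {n : ℕ} (g : CN n → CN n) : Prop :=
  ∃ N, ∀ α : Fin n → List Bool, (∀ i, (α i).length = N) → ∃ β : Fin n → List Bool,
    ∀ ξ : CN n, g (fun i => app (α i) (ξ i)) = fun i => app (β i) (ξ i)

lemma UNV.id {n : ℕ} : UNV (fun x : CN n => x) := ⟨0, fun α _ => ⟨α, fun _ => rfl⟩⟩

lemma UNV.comp {n : ℕ} {f g : CN n → CN n} (hf : UNV f) (hg : UNV g) : UNV (fun x => f (g x)) := by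
  obtain ⟨N, hN⟩ := hf
  obtain ⟨M, hM⟩ := hg
  refine ⟨M + N, fun α hα => ?_⟩
  obtain ⟨β, hβ⟩ := hM (fun i => (α i).take M) fun i => by simp [hα i]
  obtain ⟨γ, hγ⟩ := hN (fun i => (β i ++ (α i).drop M).take N) fun i => by simp [hα i]
  refine ⟨fun i => γ i ++ (β i ++ (α i).drop M).drop N, fun ξ => ?_⟩
  have h1 : (fun i => app (α i) (ξ i)) =
      fun i => app ((α i).take M) (app ((α i).drop M) (ξ i)) := by
    funext i; rw [← app_append, List.take_append_drop]
  have h2 : (fun i => app (β i) (app ((α i).drop M) (ξ i))) = fun i =>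
      app ((β i ++ (α i).drop M).take N) (app ((β i ++ (α i).drop M).drop N) (ξ i)) := by
    funext i; rw [← app_append, ← app_append, List.take_append_drop]
  simp only [h1, hβ, h2, hγ, app_append]

lemma UNV.continuous {n : ℕ} {g : CN n → CN n} (hg : UNV g) : Continuous g := by
  obtain ⟨N, hN⟩ := hg
  rw [continuous_iff_continuousAt]
  intro x
  obtain ⟨β, hβ⟩ := hN (fun i => tk N (x i)) fun i => by simp
  have hc : Continuous fun (y : CN n) i => app (β i) (sh N (y i)) :=
    continuous_pi fun i => (continuous_app _).comp ((continuous_sh N).comp (continuous_apply i))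
  refine hc.continuousAt.congr ?_
  have : ∀ᶠ y in nhds x, ∀ i, ∀ m < N, y i m = x i m := by
    rw [Filter.eventually_all]
    intro i
    exact ((continuous_apply i).tendsto x).eventually (eventually_agree (x i) N)
  filter_upwards [this] with y hy
  rw [← hβ]
  congr 1
  funext i
  exact (eq_app_tk (hy i)).symm

lemma UNV.inNV {n : ℕ} {g : CN n ≃ₜ CN n} (hg : UNV g) : InNV g := by
  obtain ⟨N, hN⟩ := hg
  choose! β hβ using hN
  refine ⟨(fun α => (α, β α)) '' {α | ∀ i, (α i).length = N}, Set.Finite.image _ ?_, ?_, ?_⟩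
  · exact Set.Finite.pi' fun _ => List.finite_length_eq Bool N
  · intro x
    exact ⟨_, ⟨fun i => tk N (x i), fun i => by simp, rfl⟩, fun i => sh N (x i),
      funext fun i => (app_tk N (x i)).symm⟩
  · rintro _ ⟨α, hα, rfl⟩ ξ
    exact hβ α hα ξ

section Code
variable {B : Type} {N : ℕ} (e : (Fin (N + 1) → Bool) ≃ B)

def dc (x : ℕ → Bool) : ℕ → B := fun m => e fun j => x (m * (N + 1) + j)

def ec (z : ℕ → B) : ℕ → Bool := fun k =>
  e.symm (z (k / (N + 1))) ⟨k % (N + 1), Nat.mod_lt _ (Nat.succ_pos N)⟩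

lemma dc_ec (z : ℕ → B) : dc e (ec e z) = z := by
  funext m
  rw [dc, ← Equiv.eq_symm_apply]
  funext j
  have h1 : (m * (N + 1) + j) / (N + 1) = m := by
    rw [add_comm, Nat.add_mul_div_right _ _ (Nat.succ_pos N), Nat.div_eq_of_lt j.2, zero_add]
  have h2 : (m * (N + 1) + j) % (N + 1) = j := by
    rw [add_comm, Nat.add_mul_mod_self_right, Nat.mod_eq_of_lt j.2]
  simp only [ec, h1, h2]

lemma ec_dc (x : ℕ → Bool) : ec e (dc e x) = x := by
  funext k
  simp only [ec, dc, Equiv.symm_apply_apply]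
  rw [Nat.div_add_mod']

lemma dc_ofFn (a : B) (x : ℕ → Bool) :
    dc e (app (List.ofFn (e.symm a)) x) = cons a (dc e x) := by
  funext m
  cases m with
  | zero =>
    rw [dc, cons_zero, ← Equiv.eq_symm_apply]
    funext j
    rw [app_lt _ _ _ (by rw [List.length_ofFn]; omega)]
    simp only [List.getElem_ofFn, zero_mul, zero_add]
  | succ m =>
    rw [dc, cons_succ, dc]
    congr 1
    funext j
    have := app_add (List.ofFn (e.symm a)) x (m * (N + 1) + j)
    rw [List.length_ofFn] at this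
    rw [← this]; congr 1; ring

def cd (w : List B) : List Bool := w.flatMap fun a => List.ofFn (e.symm a)

lemma dc_cd (w : List B) (x : ℕ → Bool) : dc e (app (cd e w) x) = app w (dc e x) := by
  induction w with
  | nil => rfl
  | cons a w ih => rw [cd, List.flatMap_cons, app_append, dc_ofFn, app_cons, ← ih]; rfl

lemma ec_app (w : List B) (x : ℕ → Bool) : ec e (app w (dc e x)) = app (cd e w) x := by
  rw [← dc_cd, ec_dc]

lemma exists_cd (k : ℕ) (α : List Bool) (h : α.length = k * (N + 1)) :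
    ∃ w : List B, w.length = k ∧ cd e w = α := by
  induction k generalizing α with
  | zero => exact ⟨[], rfl, by simpa [cd] using h⟩
  | succ k ih =>
    have h1 : N + 1 ≤ α.length := by rw [h]; nlinarith
    obtain ⟨w, hw, hc⟩ := ih (α.drop (N + 1)) (by simp [h, add_mul])
    refine ⟨e (fun j => α[j.1]'(by omega)) :: w, by simp [hw], ?_⟩
    rw [cd, List.flatMap_cons, Equiv.symm_apply_apply]
    rw [cd] at hc
    rw [hc]
    conv_rhs => rw [← List.take_append_drop (N + 1) α]
    congr 1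
    apply List.ext_getElem
    · simp [h1]
    · intro i h2 h3; simp only [List.getElem_ofFn, List.getElem_take]

end Code

section NV
variable {T : Type} (dec : T → Cell) {N : ℕ} (e : (Fin (N + 1) → Bool) ≃ Al T) (n : ℕ)

def pr (x : CN (n + 2)) : XX T := (dc e (x 0), dc e (x 1))

def lf (f : XX T → XX T) (x : CN (n + 2)) : CN (n + 2) := fun j =>
  if j = 0 then ec e (f (pr e n x)).1 else if j = 1 then ec e (f (pr e n x)).2 else x j

lemma pr_lf (f : XX T → XX T) (x : CN (n + 2)) : pr e n (lf e n f x) = f (pr e n x) := by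
  simp [pr, lf, dc_ec]

lemma lf_lf (f g : XX T → XX T) (x : CN (n + 2)) :
    lf e n f (lf e n g x) = lf e n (fun p => f (g p)) x := by
  funext j
  rw [lf, pr_lf]
  by_cases h0 : j = 0
  · simp [lf, h0]
  by_cases h1 : j = 1
  · simp [lf, h1]
  · simp [lf, h0, h1]

lemma lf_fix (f : XX T → XX T) (x : CN (n + 2)) (h : f (pr e n x) = pr e n x) :
    lf e n f x = x := by
  funext j
  rw [lf, h]
  by_cases h0 : j = 0
  · simp [pr, h0, ec_dc]
  by_cases h1 : j = 1
  · simp [pr, h1, ec_dc]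
  · simp [h0, h1]

lemma unv_lf (i : Fin 8) : UNV (lf e n (ss dec i)) := by
  refine ⟨2 * (N + 1), fun α hα => ?_⟩
  obtain ⟨w0, l0, h0⟩ := exists_cd e 2 (α 0) (hα 0)
  obtain ⟨w1, l1, h1⟩ := exists_cd e 2 (α 1) (hα 1)
  obtain ⟨a, b, rfl⟩ := List.length_eq_two.1 l0
  obtain ⟨c, d, rfl⟩ := List.length_eq_two.1 l1
  refine ⟨fun j => if j = 0 then cd e (mv dec i a b c).1 else if j = 1 then
    cd e ((mv dec i a b c).2 ++ [d]) else α j, fun ξ => ?_⟩
  have hp : pr e n (fun i => app (α i) (ξ i)) =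
      (cons a (cons b (dc e (ξ 0))), cons c (cons d (dc e (ξ 1)))) := by
    simp only [pr, ← h0, ← h1, dc_cd]; rfl
  funext j
  rw [lf, hp, ss_cons]
  by_cases j0 : j = 0
  · simp [j0, ec_app]
  by_cases j1 : j = 1
  · subst j1
    simp only [j0, if_false, if_true, ← ec_app, app_append]; rfl
  · simp [j0, j1]

noncomputable def SS (i : Fin 8) : CN (n + 2) ≃ₜ CN (n + 2) where
  toFun := lf e n (ss dec i)
  invFun := lf e n (ss dec i)
  left_inv x := by rw [lf_lf]; exact lf_fix e n _ x (ss_ss dec i _)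
  right_inv x := by rw [lf_lf]; exact lf_fix e n _ x (ss_ss dec i _)
  continuous_toFun := (unv_lf dec e n i).continuous
  continuous_invFun := (unv_lf dec e n i).continuous

lemma en_append {ι Ω : Type} (σ : ι → Ω → Ω) (u v : List ι) (x : Ω) :
    en σ (u ++ v) x = en σ v (en σ u x) := by
  induction u generalizing x with
  | nil => rfl
  | cons i u ih => exact ih _

lemma en_reverse {ι Ω : Type} (σ : ι → Ω → Ω) (hσ : ∀ i x, σ i (σ i x) = x) (u : List ι) (x : Ω) :
    en σ u (en σ u.reverse x) = x := by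
  induction u generalizing x with
  | nil => rfl
  | cons i u ih => rw [List.reverse_cons, en_append, en, en, en, hσ, ih]

def HN : Subgroup (CN (n + 2) ≃ₜ CN (n + 2)) where
  carrier := {h | ∃ w, ∀ x, h x = en (fun i => lf e n (ss dec i)) w x}
  one_mem' := ⟨[], fun _ => rfl⟩
  mul_mem' := by
    rintro a b ⟨u, hu⟩ ⟨v, hv⟩
    exact ⟨v ++ u, fun x => by rw [en_append, ← hv, ← hu]; rfl⟩
  inv_mem' := by
    rintro a ⟨u, hu⟩
    refine ⟨u.reverse, fun x => a.injective ?_⟩
    rw [hu (en _ _ _), en_reverse (fun i => lf e n (ss dec i))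
      fun i y => (SS dec e n i).left_inv y]
    exact a.apply_symm_apply x

lemma en_lf (w : List (Fin 8)) (x : CN (n + 2)) :
    en (fun i => lf e n (ss dec i)) w x = lf e n (en (ss dec) w) x := by
  induction w generalizing x with
  | nil => exact (lf_fix e n _ x rfl).symm
  | cons i w ih => rw [en, ih, lf_lf]; rfl

lemma HN_inNV : ∀ h ∈ HN dec e n, InNV h := by
  rintro h ⟨w, hw⟩
  refine UNV.inNV ?_
  rw [show (h : CN (n + 2) → CN (n + 2)) = _ from funext hw]
  clear hw
  induction w with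
  | nil => exact UNV.id
  | cons i w ih => exact ih.comp (unv_lf dec e n i)

lemma HN_pp (hsurj : ∀ c : Cell, (∀ v, ∃ i, c v i = none) → ∃ t, dec t = c) :
    ¬ PingPong (HN dec e n) := by
  refine not_pingPong _ ?_
  rintro g ⟨u, hu⟩ h ⟨v, hv⟩
  obtain ⟨p, h1, h2⟩ := common_fixed dec hsurj u v
  have hp : pr e n (fun j => if j = 0 then ec e p.1 else ec e p.2) = p := by simp [pr, dc_ec]
  exact ⟨_, by rw [hu, en_lf, lf_fix e n _ _ (by rw [hp, h1])],
    by rw [hv, en_lf, lf_fix e n _ _ (by rw [hp, h2])]⟩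

lemma HN_inv (hgood : ∀ t v, ∃ i, dec t v i = none) : ¬ InvMeasure (HN dec e n) := by
  let _ : MeasurableSpace (CN (n + 2)) := borel _
  have : BorelSpace (CN (n + 2)) := ⟨rfl⟩
  rintro ⟨μ, hμ, -, hinv⟩
  let P : Fin 8 → Set (CN (n + 2)) := fun i => {x | (pr e n x).1 0 = .inl i}
  let F : Fin 8 → Set (CN (n + 2)) := fun i => {x | free dec ((pr e n x).1 0) i}
  have hP : ∀ i, MeasurableSet (P i) := by
    intro i
    have hc : Continuous fun (x : CN (n + 2)) (j : Fin (N + 1)) => x 0 (0 * (N + 1) + j) := by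
      fun_prop
    exact ((isOpen_discrete {c | e c = .inl i}).preimage hc).measurableSet
  have hF : ∀ i, μ (F i) ≤ μ (P i) := by
    intro i
    rw [← hinv (SS dec e n i) ⟨[i], fun _ => rfl⟩,
      Measure.map_apply (SS dec e n i).continuous.measurable (hP i),
      hinv (SS dec e n i) ⟨[i], fun _ => rfl⟩]
    refine measure_mono fun x hx => ?_
    show (pr e n (lf e n (ss dec i) x)).1 0 = _
    rw [pr_lf, show pr e n x = ((pr e n x).1, (pr e n x).2) from rfl, ss_push dec i _ _ hx]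
    rfl
  have hPF : ∀ i j, j ≠ i → P j ⊆ F i := by
    intro i j h x hx
    show free dec ((pr e n x).1 0) i
    rw [hx]; exact h
  have h0 : ∀ k, μ (P k) = 0 := by
    intro k
    obtain ⟨i, j, h1, h2, h3⟩ : ∃ i j : Fin 8, j ≠ i ∧ k ≠ i ∧ j ≠ k := by revert k; decide
    have h4 : μ (P j) + μ (P k) ≤ μ (P j) := by
      rw [← measure_union (Set.disjoint_left.2 fun x hx hx' => h3
        (Sum.inl_injective (hx.symm.trans hx'))) (hP k)]
      exact (measure_mono (Set.union_subset (hPF i j h1) (hPF i k h2))).trans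
        ((hF i).trans ((measure_mono (hPF j i h1.symm)).trans (hF j)))
    rwa [← add_zero (μ (P j)), add_assoc, zero_add,
      ENNReal.add_le_add_iff_left (measure_ne_top _ _), nonpos_iff_eq_zero] at h4
  have h1 : μ (⋃ i, F i) = 0 :=
    measure_iUnion_null fun i => nonpos_iff_eq_zero.1 ((hF i).trans (h0 i).le)
  have h2 : (⋃ i, F i) = Set.univ := by
    refine Set.eq_univ_of_forall fun x => Set.mem_iUnion.2 ?_
    show ∃ i, free dec ((pr e n x).1 0) i
    rcases (pr e n x).1 0 with j | ⟨v, t⟩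
    · exact exists_ne j |>.imp fun i hi => hi.symm
    · exact hgood t v
  rw [h2, measure_univ] at h1
  exact one_ne_zero h1

end NV

theorem nV_fails (n : ℕ) (hn : 2 ≤ n) : ∃ H : Subgroup (CN n ≃ₜ CN n),
    (∀ h ∈ H, InNV h) ∧ ¬ InvMeasure H ∧ ¬ PingPong H := by
  obtain ⟨n, rfl⟩ := Nat.exists_eq_add_of_le' hn
  let G := {c : Cell // ∀ v, ∃ i, c v i = none}
  have hG : Nonempty G := ⟨⟨fun _ _ => none, fun _ => ⟨0, rfl⟩⟩⟩
  obtain ⟨M, hM⟩ : ∃ M, Fintype.card G = M := ⟨_, rfl⟩
  have h1 : M + 2 ≤ 2 ^ (M + 1) := Nat.lt_two_pow_self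
  obtain ⟨f⟩ : Nonempty (G ↪ Fin (2 ^ (M + 1) - 2)) :=
    Function.Embedding.nonempty_of_card_le (by rw [Fintype.card_fin, hM]; omega)
  let dec : Fin (2 ^ (M + 1) - 2) → Cell := fun t => (Function.invFun f t).1
  obtain ⟨e⟩ : Nonempty ((Fin (M + 2 + 1) → Bool) ≃ Al (Fin (2 ^ (M + 1) - 2))) := by
    refine Fintype.card_eq.1 ?_
    simp only [Fintype.card_pi, Fintype.card_bool, Finset.prod_const, Finset.card_univ,
      Fintype.card_fin, Fintype.card_sum, Fintype.card_prod]
    rw [show M + 2 + 1 = M + 1 + 2 by ring, pow_add]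
    omega
  refine ⟨HN dec e n, HN_inNV dec e n, HN_inv dec e n fun t v => (Function.invFun f t).2 v,
    HN_pp dec e n fun c hc => ⟨f ⟨c, hc⟩, ?_⟩⟩
  simp only [dec]
  rw [Function.leftInverse_invFun f.injective]

end H73.DT
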