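import Pool.Agent.H73.DT1

set_option autoImplicit false

/-! Maps with finitely many residuals and maps that act on tails as a cellular automaton. -/

namespace H73.DT

open Classical MeasureTheory Filter Topology

section
variable {A : Type}

def Res (f : (ℕ → A) → ℕ → A) : Prop :=
  ∃ F : Set ((ℕ → A) → ℕ → A), F.Finite ∧ f ∈ F ∧
    ∀ φ ∈ F, ∀ a, ∃ ψ ∈ F, ∃ w, ∀ ξ, φ (cons a ξ) = app w (ψ ξ)

lemma Res.id : Res (fun x : ℕ → A => x) :=
  ⟨{fun x => x}, Set.finite_singleton _, rfl, by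
    rintro _ rfl a; exact ⟨_, rfl, [a], fun _ => rfl⟩⟩

lemma Res.comp {f g : (ℕ → A) → ℕ → A} (hf : Res f) (hg : Res g) : Res fun x => f (g x) := by
  obtain ⟨F, hF, hfF, cF⟩ := hf
  obtain ⟨G, hG, hgG, cG⟩ := hg
  have cF' : ∀ (w : List A), ∀ φ ∈ F, ∃ ψ ∈ F, ∃ w', ∀ ξ, φ (app w ξ) = app w' (ψ ξ) := by
    intro w
    induction w with
    | nil => exact fun φ hφ => ⟨φ, hφ, [], fun _ => rfl⟩
    | cons a w ih =>
      intro φ hφ
      obtain ⟨ψ, hψ, u, hu⟩ := cF φ hφ a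
      obtain ⟨χ, hχ, u', hu'⟩ := ih ψ hψ
      exact ⟨χ, hχ, u ++ u', fun ξ => by rw [app_cons, hu, hu', app_append]⟩
  refine ⟨Set.image2 (fun φ ψ x => φ (ψ x)) F G, hF.image2 _ hG, ⟨f, hfF, g, hgG, rfl⟩, ?_⟩
  rintro _ ⟨φ, hφ, ψ, hψ, rfl⟩ a
  obtain ⟨ψ', hψ', w, hw⟩ := cG ψ hψ a
  obtain ⟨φ', hφ', w', hw'⟩ := cF' w φ hφ
  exact ⟨_, ⟨φ', hφ', ψ', hψ', rfl⟩, w', fun ξ => by simp only [hw, hw']⟩

lemma tk_succ (n : ℕ) (x : ℕ → A) : tk (n + 1) x = tk n x ++ [x n] := by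
  induction n generalizing x with
  | zero => rfl
  | succ n ih => rw [tk, ih (sh 1 x), tk]; rfl

lemma Res.rational [TopologicalSpace A] [DiscreteTopology A] [Finite A] [Nontrivial A]
    {f : (ℕ → A) → ℕ → A} (hf : Res f) (hc : Continuous f) (hi : Function.Injective f) :
    Rational f := by
  obtain ⟨F, hF, hfF, cF⟩ := hf
  have cF' : ∀ (φ : F) a, ∃ ψ : F, ∃ w, ∀ ξ, φ.1 (cons a ξ) = app w (ψ.1 ξ) := by
    intro φ a
    obtain ⟨ψ, hψ, w, hw⟩ := cF φ.1 φ.2 a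
    exact ⟨⟨ψ, hψ⟩, w, hw⟩
  choose δ out hδ using cF'
  have := hF.to_subtype
  refine ⟨F, inferInstance, ⟨f, hfF⟩, δ, out, fun x => ?_⟩
  have key : ∀ n ξ, f (app (tk n x) ξ) =
      app (written δ out ⟨f, hfF⟩ x n) ((state δ ⟨f, hfF⟩ x n).1 ξ) := by
    intro n
    induction n with
    | zero => intro ξ; rfl
    | succ n ih =>
      intro ξ
      rw [tk_succ, app_append, ih, written, app_append, state, app_cons, app_nil, hδ]
  refine ⟨fun n => ⟨_, by rw [← key n (sh n x), app_tk]⟩, fun N => ?_⟩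
  by_contra hcon
  push Not at hcon
  have hfin : {w : List A | w.length < N}.Finite := List.finite_length_lt A N
  have := hfin.to_subtype
  obtain ⟨⟨φ, w⟩, hinf⟩ := Finite.exists_infinite_fiber
    (fun n => ((state δ ⟨f, hfF⟩ x n, ⟨written δ out ⟨f, hfF⟩ x n, hcon n⟩) :
      F × {w : List A | w.length < N}))
  have hinf' := Set.infinite_coe_iff.1 hinf
  have hlim : ∀ ξ, app w.1 (φ.1 ξ) = f x := by
    intro ξ
    funext k
    have h1 : ∀ᶠ y in 𝓝 x, ∀ m < k + 1, f y m = f x m :=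
      (hc.tendsto x).eventually (eventually_agree (f x) (k + 1))
    obtain ⟨n0, hn0⟩ := exists_agree h1
    obtain ⟨n, hn, hlt⟩ := hinf'.exists_gt n0
    simp only [Set.mem_preimage, Set.mem_singleton_iff, Prod.mk.injEq] at hn
    rw [← hn.1, ← hn.2, ← key n ξ]
    exact hn0 _ (fun m hm => app_tk_lt n x ξ m (by omega)) k (by omega)
  obtain ⟨n, hn⟩ := hinf'.nonempty
  simp only [Set.mem_preimage, Set.mem_singleton_iff, Prod.mk.injEq] at hn
  obtain ⟨a, b, hab⟩ := exists_pair_ne A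
  have h1 := hlim fun _ => a
  have h2 := hlim fun _ => b
  rw [← hn.1, ← hn.2, ← key] at h1 h2
  exact hab (congrFun (app_inj _ (hi (h1.trans h2.symm))) 0)

variable [TopologicalSpace A]

def TCA (f : (ℕ → A) → ℕ → A) : Prop :=
  ∃ F : (ℕ → A) → ℕ → A, (∀ k x, F (sh k x) = sh k (F x)) ∧
    ∀ x, ∃ a b, ∀ᶠ y in 𝓝 x, sh a (f y) = sh b (F y)

def Nice (f : (ℕ → A) → ℕ → A) : Prop := Continuous f ∧ Res f ∧ TCA f

lemma Nice.id : Nice (fun x : ℕ → A => x) :=
  ⟨continuous_id, Res.id, fun x => x, fun _ _ => rfl, fun _ => ⟨0, 0, by simp⟩⟩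

lemma Nice.comp {f g : (ℕ → A) → ℕ → A} (hf : Nice f) (hg : Nice g) : Nice fun x => f (g x) := by
  refine ⟨hf.1.comp hg.1, hf.2.1.comp hg.2.1, ?_⟩
  obtain ⟨F, hF, h1⟩ := hf.2.2
  obtain ⟨G, hG, h2⟩ := hg.2.2
  refine ⟨fun x => F (G x), fun k x => by simp only [hF, hG], fun x => ?_⟩
  obtain ⟨a, b, h3⟩ := h1 (g x)
  obtain ⟨c, d, h4⟩ := h2 x
  refine ⟨c + a, b + d, ?_⟩
  filter_upwards [(hg.1.tendsto x).eventually h3, h4] with y h5 h6
  rw [← sh_sh, h5, sh_sh, add_comm c, ← sh_sh, ← hF, h6, hF, sh_sh]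

def UV (f : (ℕ → A) → ℕ → A) : Prop :=
  ∃ N, ∀ α : List A, α.length = N → ∃ β, ∀ ξ, f (app α ξ) = app β ξ

lemma UV.nice [DiscreteTopology A] [Finite A] {f : (ℕ → A) → ℕ → A} (hf : UV f) : Nice f := by
  obtain ⟨N, hN⟩ := hf
  have loc : ∀ x, ∃ β, ∀ᶠ y in 𝓝 x, f y = app β (sh N y) := by
    intro x
    obtain ⟨β, hβ⟩ := hN (tk N x) (by simp)
    refine ⟨β, ?_⟩
    filter_upwards [eventually_agree x N] with y hy
    rw [← hβ, ← eq_app_tk hy]
  refine ⟨?_, ?_, fun x => x, fun _ _ => rfl, fun x => ?_⟩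
  · rw [continuous_iff_continuousAt]
    intro x
    obtain ⟨β, hβ⟩ := loc x
    exact ((continuous_app β).comp (continuous_sh N)).continuousAt.congr
      (hβ.mono fun y hy => hy.symm)
  · refine ⟨insert (fun x => x) ((fun α ξ => f (app α ξ)) '' {α | α.length ≤ N}),
      ((List.finite_length_le A N).image _).insert _, Or.inr ⟨[], by simp, rfl⟩, ?_⟩
    rintro _ (rfl | ⟨α, hα, rfl⟩) a
    · exact ⟨_, Or.inl rfl, [a], fun _ => rfl⟩
    by_cases h : α.length = N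
    · obtain ⟨β, hβ⟩ := hN α h
      exact ⟨_, Or.inl rfl, β ++ [a], fun ξ => by simp [hβ, app_append]⟩
    · refine ⟨_, Or.inr ⟨α ++ [a], ?_, rfl⟩, [], fun ξ => by simp [app_append]⟩
      simp only [Set.mem_ofPred_eq, List.length_append, List.length_singleton] at hα ⊢
      omega
  · obtain ⟨β, hβ⟩ := loc x
    exact ⟨β.length, N, hβ.mono fun y hy => by rw [hy, sh_app]⟩

def SB (f : (ℕ → A) → ℕ → A) : Prop :=
  ∃ m, (∀ x y n, (∀ j ≤ n + m, x j = y j) → f x n = f y n) ∧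
    ∀ x n, m ≤ n → f (sh 1 x) n = f x (n + 1)

lemma SB.nice [DiscreteTopology A] [Finite A] {f : (ℕ → A) → ℕ → A} (hf : SB f) : Nice f := by
  obtain ⟨m, h1, h2⟩ := hf
  have h3 : ∀ x, sh m (f (sh 1 x)) = sh 1 (sh m (f x)) := by
    intro x; funext n
    simp only [sh]
    rw [h2 x _ (by omega)]; congr 1; ring
  refine ⟨?_, ?_, fun x => sh m (f x), fun k => ?_, fun x => ⟨m, 0, by simp⟩⟩
  · refine continuous_pi fun n => continuous_iff_continuousAt.2 fun x => ?_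
    refine continuousAt_const.congr (f := fun _ => f x n) ?_
    filter_upwards [eventually_agree x (n + m + 1)] with y hy
    exact h1 _ _ _ fun j hj => (hy j (by omega)).symm
  · refine ⟨((fun α ξ => f (app α ξ)) '' {α | α.length ≤ 2 * m}) ∪
      ((fun α ξ => sh m (f (app α ξ))) '' {α | α.length = 2 * m}),
      ((List.finite_length_le A _).image _).union ((List.finite_length_eq A _).image _),
      Or.inl ⟨[], by simp, rfl⟩, ?_⟩
    have key : ∀ (α : List A) (a : A), α.length = 2 * m → ∃ α' : List A, α'.length = 2 * m ∧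
        ∃ w : List A, ∀ ξ, f (app α (cons a ξ)) = app w (sh m (f (app α' ξ))) ∧
          w.length = m + 1 := by
      intro α a hα
      refine ⟨(α ++ [a]).tail, by simp [hα], tk (m + 1) (f (app α fun _ => a)), fun ξ => ⟨?_, by simp⟩⟩
      have e1 : app (α ++ [a]).tail ξ = sh 1 (app α (cons a ξ)) := by
        cases α <;> simp [app_append]
      rw [e1, h3, sh_sh, add_comm 1]
      refine eq_app_tk fun k hk => h1 _ _ _ fun j hj => ?_
      by_cases hj' : j < α.length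
      · rw [app_lt _ _ _ hj', app_lt _ _ _ hj']
      · have : j = 0 + α.length := by omega
        rw [this, app_add, app_add]; rfl
    rintro _ (⟨α, hα, rfl⟩ | ⟨α, hα, rfl⟩) a
    · by_cases h : α.length = 2 * m
      · obtain ⟨α', h', w, hw⟩ := key α a h
        exact ⟨_, Or.inr ⟨α', h', rfl⟩, w, fun ξ => (hw ξ).1⟩
      · refine ⟨_, Or.inl ⟨α ++ [a], ?_, rfl⟩, [], fun ξ => by simp [app_append]⟩
        simp only [Set.mem_ofPred_eq, List.length_append, List.length_singleton] at hα ⊢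
        omega
    · obtain ⟨α', h', w, hw⟩ := key α a hα
      refine ⟨_, Or.inr ⟨α', h', rfl⟩, w.drop m, fun ξ => ?_⟩
      simp only [(hw ξ).1]
      have : (w.take m).length = m := by simp [(hw ξ).2]
      have h4 := sh_app (w.take m) (app (w.drop m) (sh m (f (app α' ξ))))
      rw [this, ← app_append, List.take_append_drop] at h4
      rw [h4]
  · induction k with
    | zero => intro x; rfl
    | succ k ih =>
      intro x
      beta_reduce at ih ⊢
      rw [add_comm k, ← sh_sh, h3, ih, sh_sh]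

end

section Sw
variable {A : Type}

/-- Exchange of cones along a symmetric relation. -/
noncomputable def rsw (R : Set (List A × List A)) (x : ℕ → A) : ℕ → A :=
  if h : ∃ p ∈ R, ∃ ξ, x = app p.1 ξ then app h.choose.2 (sh h.choose.1.length x) else x

structure SwOk (R : Set (List A × List A)) : Prop where
  fin : R.Finite
  symm : ∀ p ∈ R, (p.2, p.1) ∈ R
  disj : ∀ p ∈ R, ∀ q ∈ R, ∀ ξ η, app p.1 ξ = app q.1 η → p = q

variable {R : Set (List A × List A)}

lemma rsw_app (hR : SwOk R) {α β : List A} (h : (α, β) ∈ R) (ξ : ℕ → A) :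
    rsw R (app α ξ) = app β ξ := by
  have hex : ∃ p ∈ R, ∃ η, app α ξ = app p.1 η := ⟨_, h, ξ, rfl⟩
  obtain ⟨h1, η, h2⟩ := hex.choose_spec
  have := hR.disj _ h _ h1 _ _ h2
  rw [rsw, dif_pos hex, ← this, sh_app]

lemma rsw_of_not {x : ℕ → A} (h : ∀ p ∈ R, ∀ ξ, x ≠ app p.1 ξ) : rsw R x = x :=
  dif_neg fun ⟨p, hp, ξ, hx⟩ => h p hp ξ hx

lemma rsw_rsw (hR : SwOk R) (x : ℕ → A) : rsw R (rsw R x) = x := by
  by_cases h : ∃ p ∈ R, ∃ ξ, x = app p.1 ξ
  · obtain ⟨p, hp, ξ, rfl⟩ := h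
    rw [rsw_app hR (β := p.2) hp, rsw_app hR (hR.symm p hp)]
  · push Not at h
    rw [rsw_of_not h, rsw_of_not h]

lemma rsw_uv (hR : SwOk R) : UV (rsw R) := by
  obtain ⟨N, hN⟩ := (hR.fin.image fun p => p.1.length).bddAbove
  refine ⟨N, fun α hα => ?_⟩
  by_cases h : ∃ p ∈ R, ∃ γ, α = p.1 ++ γ
  · obtain ⟨p, hp, γ, rfl⟩ := h
    exact ⟨p.2 ++ γ, fun ξ => by rw [app_append, app_append, rsw_app hR (β := p.2) hp]⟩
  · refine ⟨α, fun ξ => rsw_of_not fun p hp η he => h ⟨p, hp, α.drop p.1.length, ?_⟩⟩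
    have hl : p.1.length ≤ α.length := hα ▸ hN ⟨p, hp, rfl⟩
    have h1 := congrArg (tk p.1.length) he
    have h2 : (α.take p.1.length).length = p.1.length := by simp [hl]
    have h3 := tk_app (α.take p.1.length) (app (α.drop p.1.length) ξ)
    rw [h2, ← app_append, List.take_append_drop, h1, tk_app] at h3
    conv_lhs => rw [← List.take_append_drop p.1.length α, ← h3]

end Sw

section V
variable {d k : ℕ}

abbrev XV (d k : ℕ) := Fin k × (ℕ → Fin d)

def LV (v : XV d k → XV d k) : Prop := ∀ x, ∃ a b, ∀ᶠ y in 𝓝 x, sh a (v y).2 = sh b y.2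

lemma ev_cone (x : XV d k) (n : ℕ) : ∀ᶠ y in 𝓝 x, y = (x.1, app (tk n x.2) (sh n y.2)) := by
  filter_upwards [(continuous_fst.tendsto x).eventually (p := fun a => a = x.1)
    (by simp [nhds_discrete]), (continuous_snd.tendsto x).eventually (eventually_agree x.2 n)]
    with y h1 h2
  exact Prod.ext h1 (eq_app_tk h2)

lemma InV.lv {v : XV d k ≃ₜ XV d k} (h : InV v) : LV v := by
  obtain ⟨P, -, h1, h2⟩ := h
  intro x
  obtain ⟨p, hp, ξ, rfl⟩ := h1 x
  refine ⟨p.2.2.length, p.1.2.length, ?_⟩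
  filter_upwards [ev_cone (p.1.1, app p.1.2 ξ) p.1.2.length] with y hy
  simp only [tk_app] at hy
  rw [hy, h2 p hp, sh_app, sh_app]

lemma LV.inV {v : XV d k ≃ₜ XV d k} (h : LV v) : InV v := by
  have loc : ∀ x : XV d k, ∃ n, ∃ q : Fin k × List (Fin d),
      ∀ ξ, v (x.1, app (tk n x.2) ξ) = (q.1, app q.2 ξ) := by
    intro x
    obtain ⟨a, b, hab⟩ := h x
    have h1 := ((v.continuous.tendsto x).eventually (ev_cone (v x) a)).and hab
    have h2 : Tendsto (fun y : ℕ → Fin d => (x.1, y)) (𝓝 x.2) (𝓝 x) :=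
      (Continuous.prodMk_right x.1).tendsto x.2
    obtain ⟨n, hn⟩ := exists_agree (h2.eventually h1)
    refine ⟨n + b, ((v x).1, tk a (v x).2 ++ tk n (sh b x.2)), fun ξ => ?_⟩
    obtain ⟨h3, h4⟩ := hn (app (tk (n + b) x.2) ξ) fun m hm => app_tk_lt _ _ _ _ (by omega)
    rw [h3, h4, app_append]
    congr 2
    funext m
    dsimp only
    by_cases hm : m < n
    · rw [app_tk_lt _ _ _ _ hm, sh, sh, app_tk_lt _ _ _ _ (by omega)]
    · obtain ⟨m, rfl⟩ := Nat.exists_eq_add_of_le' (not_lt.1 hm)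
      have e1 := app_add (tk n (sh b x.2)) ξ m
      have e2 := app_add (tk (n + b) x.2) ξ m
      rw [length_tk] at e1 e2
      rw [e1, sh, add_assoc, e2]
  choose n q hq using loc
  obtain ⟨t, -, ht⟩ := isCompact_univ.elim_nhds_subcover
    (fun x : XV d k => {y | y = (x.1, app (tk (n x) x.2) (sh (n x) y.2))})
    fun x _ => ev_cone x (n x)
  refine ⟨(fun x => ((x.1, tk (n x) x.2), q x)) '' t, t.finite_toSet.image _, fun y => ?_, ?_⟩
  · obtain ⟨x, hx, hy⟩ := Set.mem_iUnion₂.1 (ht (Set.mem_univ y))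
    exact ⟨_, ⟨x, hx, rfl⟩, _, hy⟩
  · rintro _ ⟨x, -, rfl⟩ ξ
    exact hq x ξ

lemma conj_inV {h v : XV d k ≃ₜ XV d k} {f : (ℕ → Fin d) → ℕ → Fin d} (hf : TCA f)
    (hh : ∀ x, (h x).2 = f x.2) (hv : InV v) : InV (h * v * h⁻¹) := by
  obtain ⟨F, hF, h1⟩ := hf
  refine LV.inV fun y => ?_
  obtain ⟨x, rfl⟩ := h.surjective y
  obtain ⟨a, b, h2⟩ := hv.lv x
  obtain ⟨c, e, h3⟩ := h1 x.2
  obtain ⟨c', e', h4⟩ := h1 (v x).2
  refine ⟨e + (a + c'), e' + b + c, ?_⟩
  rw [← h.map_nhds_eq, eventually_map]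
  filter_upwards [h2, (continuous_snd.tendsto x).eventually h3,
    ((continuous_snd.comp v.continuous).tendsto x).eventually h4] with z h5 h6 h7
  have : (h * v * h⁻¹) (h z) = h (v z) := by
    show h (v (h.symm (h z))) = _
    rw [h.symm_apply_apply]
  simp only [Function.comp] at h7
  rw [this, hh, hh, ← sh_sh, ← sh_sh a, h7, sh_sh a, add_comm a, ← sh_sh e', ← hF a, h5, hF,
    ← sh_sh _ c, h6, sh_sh, sh_sh, sh_sh]
  congr 1; ring

end V

end H73.DT
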