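import Pool.Agent.H73.DT6

set_option autoImplicit false

/-! Marker blocks and transvections as cellular automata. -/

namespace H73.DT

open Classical

abbrev BB := Fin 5 → ZMod 2

section
variable {A : Type} (o l : A)

noncomputable def be (c : ZMod 2) : A := if c = 0 then o else l
noncomputable def nu (a : A) : ZMod 2 := if a = l then 1 else 0

def ok (r : ℕ) (a : A) : Prop :=
  if r < 2 then a = l else if r % 2 = 0 then a = o else (a = o ∨ a = l)

def good (x : ℕ → A) (p : ℕ) : Prop := ∀ r < 13, ok o l r (x (p + r))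

noncomputable def pat (b : BB) (r : ℕ) : A :=
  if r < 2 then l else if r % 2 = 0 then o else be o l (b (Fin.ofNat 5 ((r - 3) / 2)))

noncomputable def code (s : ℕ → BB) : ℕ → A := fun k => pat o l (s (k / 13)) (k % 13)

def cnd (i : Fin 5) (a b : ℕ) (x : ℕ → A) (n : ℕ) : Prop :=
  13 * a + 3 + 2 * i ≤ n ∧ good o l x (n - (3 + 2 * i)) ∧
    good o l x (n - (13 * a + 3 + 2 * i) + 13 * b)

noncomputable def tv (i j : Fin 5) (a b : ℕ) (x : ℕ → A) (n : ℕ) : A :=
  if cnd o l i a b x n then
    be o l (nu l (x n) + nu l (x (n - (13 * a + 3 + 2 * i) + (13 * b + 3 + 2 * j)))) else x n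

lemma be_mem (c : ZMod 2) : be o l c = o ∨ be o l c = l := by
  unfold be; split_ifs <;> simp

variable {o l} (hol : o ≠ l)
include hol

lemma nu_be (c : ZMod 2) : nu l (be o l c) = c := by
  unfold be nu
  have : ∀ c : ZMod 2, c ≠ 0 → 1 = c := by decide
  by_cases h : c = 0
  · simp [h, hol]
  · simp [h, this c h]

lemma be_nu {a : A} (h : a = o ∨ a = l) : be o l (nu l a) = a := by
  unfold be nu
  rcases h with rfl | rfl <;> simp [hol]

lemma good_sep {x : ℕ → A} {p q : ℕ} (hp : good o l x p) (hq : good o l x q) (h : p < q) :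
    p + 13 ≤ q := by
  by_contra hc
  obtain ⟨r, rfl⟩ := Nat.exists_eq_add_of_lt h
  have h0 := hq 0 (by omega)
  have h1 := hq 1 (by omega)
  simp only [ok, Nat.zero_lt_two, Nat.one_lt_two, if_true, add_zero] at h0 h1
  by_cases hr : (r + 1) % 2 = 0
  · have := hp (r + 1) (by omega)
    rw [ok, if_neg (by omega), if_pos hr, ← add_assoc, h0] at this
    exact hol this.symm
  · have := hp (r + 2) (by omega)
    rw [ok, if_neg (by omega), if_pos (by omega), ← add_assoc,
      show p + r + 2 = p + r + 1 + 1 from rfl, h1] at this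
    exact hol this.symm

lemma good_eq {x : ℕ → A} {p q : ℕ} (hp : good o l x p) (hq : good o l x q) (h : p < q + 13)
    (h' : q < p + 13) : p = q := by
  rcases lt_trichotomy p q with h1 | h1 | h1
  · have := good_sep hol hp hq h1; omega
  · exact h1
  · have := good_sep hol hq hp h1; omega

variable (i j : Fin 5) (a b : ℕ)

lemma good_tv1 {x : ℕ → A} {p : ℕ} (hp : good o l x p) : good o l (tv o l i j a b x) p := by
  intro r hr
  unfold tv
  split_ifs with h
  · have h1 := good_eq hol hp h.2.1 (by have := h.1; have := i.2; omega)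
      (by have := h.1; have := i.2; omega)
    have h2 := h.1
    rw [ok, if_neg (by omega), if_neg (by omega)]
    exact be_mem o l _
  · exact hp r hr

lemma good_tv {x : ℕ → A} {p : ℕ} : good o l (tv o l i j a b x) p ↔ good o l x p := by
  refine ⟨fun hp => ?_, good_tv1 hol i j a b⟩
  by_cases h : ∃ r < 13, cnd o l i a b x (p + r)
  · obtain ⟨r, hr, h⟩ := h
    have h1 := good_eq hol hp (good_tv1 hol i j a b h.2.1) (by have := h.1; have := i.2; omega)
      (by have := h.1; have := i.2; omega)
    rw [h1]; exact h.2.1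
  · intro r hr
    have := hp r hr
    rwa [tv, if_neg fun h' => h ⟨r, hr, h'⟩] at this

lemma tv_tv (hij : i ≠ j) (x : ℕ → A) : tv o l i j a b (tv o l i j a b x) = x := by
  funext n
  have hc : cnd o l i a b (tv o l i j a b x) n ↔ cnd o l i a b x n := by
    simp only [cnd, good_tv hol]
  by_cases h : cnd o l i a b x n
  · have hsrc : ¬ cnd o l i a b x (n - (13 * a + 3 + 2 * i) + (13 * b + 3 + 2 * j)) := by
      intro h'
      have h1 := good_eq hol h.2.2 h'.2.1 (by have := h'.1; have := i.2; have := j.2; omega)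
        (by have := h'.1; have := i.2; have := j.2; omega)
      have := h'.1
      exact hij (Fin.ext (by omega))
    rw [tv, if_pos (hc.2 h), tv, if_pos h, tv, if_neg hsrc, nu_be hol, add_assoc,
      CharTwo.add_self_eq_zero, add_zero]
    refine be_nu hol ?_
    have := h.2.1 (3 + 2 * i) (by have := i.2; omega)
    rw [ok, if_neg (by omega), if_neg (by omega), Nat.sub_add_cancel (by have := h.1; omega)] at this
    exact this
  · rw [tv, if_neg (mt hc.1 h), tv, if_neg h]

omit hol in
lemma tv_sb : SB (tv o l i j a b) := by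
  refine ⟨13 * (a + b) + 30, fun x y n h => ?_, fun x n hn => ?_⟩
  · have hg : ∀ p, p ≤ n + 13 * b → (good o l x p ↔ good o l y p) := by
      intro p hp
      refine forall₂_congr fun r hr => ?_
      rw [h (p + r) (by omega)]
    have hc : cnd o l i a b x n ↔ cnd o l i a b y n := by
      simp only [cnd]
      rw [hg _ (by omega), hg _ (by omega)]
    simp only [tv, hc]
    rw [h n (by omega), h _ (by have := j.2; omega)]
  · have hg : ∀ p, good o l (sh 1 x) p ↔ good o l x (p + 1) := by
      intro p
      refine forall₂_congr fun r hr => ?_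
      rw [sh, add_right_comm]
    have hi := i.2
    have hc : cnd o l i a b (sh 1 x) n ↔ cnd o l i a b x (n + 1) := by
      simp only [cnd, hg]
      rw [show n - (3 + 2 * i) + 1 = n + 1 - (3 + 2 * i) by omega,
        show n - (13 * a + 3 + 2 * i) + 13 * b + 1 = n + 1 - (13 * a + 3 + 2 * i) + 13 * b by omega]
      simp only [show 13 * a + 3 + 2 * i ≤ n by omega, show 13 * a + 3 + 2 * i ≤ n + 1 by omega]
    simp only [tv, hc, sh]
    rw [show n - (13 * a + 3 + 2 * i) + (13 * b + 3 + 2 * j) + 1 =
      n + 1 - (13 * a + 3 + 2 * i) + (13 * b + 3 + 2 * j) by omega]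

omit hol in
lemma code_at (s : ℕ → BB) (n r : ℕ) (hr : r < 13) :
    code o l s (13 * n + r) = pat o l (s n) r := by
  rw [code, show (13 * n + r) / 13 = n by omega, show (13 * n + r) % 13 = r by omega]

omit hol in
lemma code_bit (s : ℕ → BB) (n : ℕ) (i : Fin 5) :
    code o l s (13 * n + (3 + 2 * i)) = be o l (s n i) := by
  have := i.2
  rw [code_at _ _ _ (by omega), pat, if_neg (by omega), if_neg (by omega)]
  congr 2
  ext
  simp only [Fin.ofNat]
  omega

lemma good_code (s : ℕ → BB) (p : ℕ) : good o l (code o l s) p ↔ p % 13 = 0 := by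
  have h1 : ∀ n, good o l (code o l s) (13 * n) := by
    intro n r hr
    rw [code_at _ _ _ hr, ok, pat]
    split_ifs
    · rfl
    · rfl
    · exact be_mem o l _
  refine ⟨fun h => ?_, fun h => ?_⟩
  · have := good_eq hol h (h1 (p / 13)) (by omega) (by omega)
    omega
  · rw [show p = 13 * (p / 13) by omega]; exact h1 _

lemma code_agree {s s' : ℕ → BB} {n : ℕ} (h : ∀ m < 13 * (n + 1), code o l s m = code o l s' m) :
    s n = s' n := by
  funext i
  have := h (13 * n + (3 + 2 * i)) (by have := i.2; omega)
  rw [code_bit, code_bit] at this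
  rw [← nu_be hol (s n i), this, nu_be hol]

lemma tv_code (s : ℕ → BB) : tv o l i j a b (code o l s) =
    code o l fun n => if a ≤ n then s n + Pi.single i (s (n - a + b) j) else s n := by
  funext k
  obtain ⟨n, r, hr, rfl⟩ : ∃ n r, r < 13 ∧ k = 13 * n + r :=
    ⟨k / 13, k % 13, Nat.mod_lt _ (by omega), by omega⟩
  have hi := i.2
  by_cases h : a ≤ n ∧ r = 3 + 2 * i
  · obtain ⟨h1, rfl⟩ := h
    rw [tv, if_pos ⟨by omega, (good_code hol _ _).2 (by omega), (good_code hol _ _).2 (by omega)⟩,
      show 13 * n + (3 + 2 * i) - (13 * a + 3 + 2 * i) + (13 * b + 3 + 2 * j) =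
        13 * (n - a + b) + (3 + 2 * j) by omega, code_bit, code_bit, code_bit, nu_be hol, nu_be hol]
    simp [h1]
  · have : ¬ cnd o l i a b (code o l s) (13 * n + r) := by
      rintro ⟨h1, h2, -⟩
      rw [good_code hol] at h2
      exact h (by omega)
    rw [tv, if_neg this, code_at _ _ _ hr, code_at _ _ _ hr]
    split_ifs with h1
    · simp only [pat]
      split_ifs with h2 h3
      · rfl
      · rfl
      · rw [Pi.add_apply, Pi.single_eq_of_ne, add_zero]
        intro h4
        have := congrArg Fin.val h4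
        simp only [Fin.ofNat] at this
        exact h ⟨h1, by omega⟩
    · rfl

omit hol in
noncomputable def blk (o l : A) (b : BB) : List A := (List.range 13).map (pat o l b)

omit hol in
lemma code_cons (b : BB) (s : ℕ → BB) : code o l (cons b s) = app (blk o l b) (code o l s) := by
  have hl : (blk o l b).length = 13 := by simp [blk]
  funext k
  by_cases h : k < 13
  · rw [app_lt _ _ _ (by omega), code, Nat.div_eq_of_lt h, Nat.mod_eq_of_lt h]
    simp [blk]
  · obtain ⟨k, rfl⟩ := Nat.exists_eq_add_of_le' (not_lt.1 h)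
    have := app_add (blk o l b) (code o l s) k
    rw [hl] at this
    rw [this, code, code, Nat.add_div_right _ (by omega), Nat.add_mod_right]; rfl

lemma blk_app {b b' : BB} {ξ η : ℕ → A} (h : app (blk o l b) ξ = app (blk o l b') η) :
    b = b' ∧ ξ = η := by
  have h1 : b = b' := by
    refine code_agree hol (s := cons b 0) (s' := cons b' 0) (n := 0) fun m hm => ?_
    rw [code_cons, code_cons, app_lt _ _ _ (by simp [blk]; omega),
      app_lt _ _ _ (by simp [blk]; omega), ← app_lt _ ξ, ← app_lt _ η, h]
  subst h1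
  exact ⟨rfl, app_inj _ h⟩

end

end H73.DT
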