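import Pool.Agent.H73.DT7

set_option autoImplicit false

/-! A linear group acting on the sphere of a five dimensional space over Laurent series. -/

namespace H73.DT

open Classical Filter Topology MeasureTheory

abbrev KL := HahnSeries ℤ (ZMod 2)
abbrev NL := Fin 5 → KL

def sq (z : NL) (m : ℤ) : ℕ → BB := fun n i => (z i).coeff (m + n)

noncomputable def trL (i j : Fin 5) (e : ℤ) : NL →ₗ[KL] NL :=
  LinearMap.id + (LinearMap.single KL (fun _ => KL) i) ∘ₗ
    ((HahnSeries.single e (1 : ZMod 2) : KL) • LinearMap.proj j)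

lemma trL_coeff (i j : Fin 5) (e : ℤ) (z : NL) (i' : Fin 5) (k : ℤ) :
    (trL i j e z i').coeff k = (z i').coeff k + if i' = i then (z j).coeff (k - e) else 0 := by
  by_cases h : i' = i
  · subst h; simp [trL, HahnSeries.coeff_single_mul]
  · simp [trL, h]

lemma trL_inv {i j : Fin 5} (hij : i ≠ j) (e : ℤ) : Function.Involutive (trL i j e) := by
  intro z
  funext i'
  ext k
  rw [trL_coeff, trL_coeff, trL_coeff, if_neg hij.symm, add_zero, add_assoc,
    CharTwo.add_self_eq_zero, add_zero]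

noncomputable def tr {i j : Fin 5} (hij : i ≠ j) (e : ℤ) : NL ≃ₗ[KL] NL :=
  LinearEquiv.ofInvolutive (trL i j e) (trL_inv hij e)

lemma tr_coeff {i j : Fin 5} (hij : i ≠ j) (e : ℤ) (z : NL) (i' : Fin 5) (k : ℤ) :
    (tr hij e z i').coeff k = (z i').coeff k + if i' = i then (z j).coeff (k - e) else 0 :=
  trL_coeff i j e z i' k

def InL (g : NL ≃ₗ[KL] NL) : Prop := ∀ z (j : Fin 5), 2 ≤ j.val → g z j = z j

lemma tr_inL {i j : Fin 5} (hij : i ≠ j) (e : ℤ) (hi : i.val < 2) : InL (tr hij e) := by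
  intro z j' hj'
  ext k
  rw [tr_coeff, if_neg (by rintro rfl; omega), add_zero]

lemma common_vec {g g' : NL ≃ₗ[KL] NL} (hg : InL g) (hg' : InL g') :
    ∃ z, z ≠ 0 ∧ g z = z ∧ g' z = z := by
  let f : NL →ₗ[KL] NL := g.toLinearMap - LinearMap.id
  let f' : NL →ₗ[KL] NL := g'.toLinearMap - LinearMap.id
  let Φ : NL →ₗ[KL] (Fin 4 → KL) := LinearMap.pi
    ![LinearMap.proj 0 ∘ₗ f, LinearMap.proj 1 ∘ₗ f, LinearMap.proj 0 ∘ₗ f', LinearMap.proj 1 ∘ₗ f']
  obtain ⟨z, hz, hz0⟩ := (Submodule.ne_bot_iff _).1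
    (LinearMap.ker_ne_bot_of_finrank_lt (f := Φ) (by simp))
  have h := LinearMap.mem_ker.1 hz
  have h0 : g z 0 - z 0 = 0 := congrFun h 0
  have h1 : g z 1 - z 1 = 0 := congrFun h 1
  have h2 : g' z 0 - z 0 = 0 := congrFun h 2
  have h3 : g' z 1 - z 1 = 0 := congrFun h 3
  refine ⟨z, hz0, funext fun j => ?_, funext fun j => ?_⟩
  · fin_cases j
    · exact sub_eq_zero.1 h0
    · exact sub_eq_zero.1 h1
    all_goals exact hg z _ (by simp)
  · fin_cases j
    · exact sub_eq_zero.1 h2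
    · exact sub_eq_zero.1 h3
    all_goals exact hg' z _ (by simp)

section
variable {A : Type} (o l : A)

def Enc (z : NL) (x : ℕ → A) : Prop :=
  ∃ m : ℤ, (∀ i k, k < m → (z i).coeff k = 0) ∧ sq z m 0 ≠ 0 ∧ x = code o l (sq z m)

variable {o l}

lemma Enc.unique {z : NL} {x y : ℕ → A} (hx : Enc o l z x) (hy : Enc o l z y) : x = y := by
  obtain ⟨m, h1, h2, rfl⟩ := hx
  obtain ⟨m', h1', h2', rfl⟩ := hy
  rcases lt_trichotomy m m' with h | h | h
  · exact absurd (funext fun i => h1' i _ (by simpa using h)) h2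
  · rw [h]
  · exact absurd (funext fun i => h1 i _ (by simpa using h)) h2'

lemma Enc.ne {z : NL} {x : ℕ → A} (hx : Enc o l z x) : z ≠ 0 := by
  rintro rfl
  obtain ⟨m, -, h2, -⟩ := hx
  exact h2 rfl

lemma enc_exists (o l : A) {z : NL} (hz : z ≠ 0) : ∃ x, Enc o l z x := by
  obtain ⟨b, hb⟩ := (Set.finite_range fun i => (z i).order).bddBelow
  obtain ⟨m, ⟨i, hi⟩, hm⟩ := Int.exists_least_of_bdd (P := fun m => ∃ i, (z i).coeff m ≠ 0)
    ⟨b, fun m ⟨i, hi⟩ => (hb ⟨i, rfl⟩).trans (HahnSeries.order_le_of_coeff_ne_zero hi)⟩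
    (by
      obtain ⟨i, hi⟩ := Function.ne_iff.1 hz
      exact ⟨_, i, mt HahnSeries.coeff_order_eq_zero.1 hi⟩)
  refine ⟨_, m, fun i k hk => ?_, fun h => hi (by simpa [sq] using congrFun h i), rfl⟩
  by_contra h
  exact absurd (hm k ⟨i, h⟩) (by omega)

lemma enc_surj (o l : A) {s : ℕ → BB} (hs : s 0 ≠ 0) : ∃ z, Enc o l z (code o l s) := by
  let z : NL := fun i => HahnSeries.ofSuppBddBelow
    (fun k : ℤ => if 0 ≤ k then s k.toNat i else 0) ⟨0, fun k hk => by
      by_contra h; exact hk (if_neg h)⟩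
  have : sq z 0 = s := by funext n i; simp [sq, z]
  exact ⟨z, 0, fun i k hk => by simp [z, not_le.2 hk], by rwa [this], by rw [this]⟩

variable [TopologicalSpace A]

def Rel (o l : A) (h : (ℕ → A) ≃ₜ (ℕ → A)) (g : NL ≃ₗ[KL] NL) : Prop :=
  Nice h ∧ Nice h.symm ∧ InL g ∧ ∀ z x, Enc o l z x → Enc o l (g z) (h x)

lemma Rel.mul {h h' : (ℕ → A) ≃ₜ (ℕ → A)} {g g' : NL ≃ₗ[KL] NL} (h1 : Rel o l h g)
    (h2 : Rel o l h' g') : Rel o l (h * h') (g'.trans g) :=
  ⟨h1.1.comp h2.1, h2.2.1.comp h1.2.1, fun z j hj => (h1.2.2.1 _ j hj).trans (h2.2.2.1 z j hj),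
    fun z x hx => h1.2.2.2 _ _ (h2.2.2.2 z x hx)⟩

lemma Rel.inv {h : (ℕ → A) ≃ₜ (ℕ → A)} {g : NL ≃ₗ[KL] NL} (h1 : Rel o l h g) :
    Rel o l h⁻¹ g.symm := by
  refine ⟨h1.2.1, h1.1, fun z j hj => ?_, fun z x hx => ?_⟩
  · rw [← h1.2.2.1 (g.symm z) j hj, g.apply_symm_apply]
  · obtain ⟨y, hy⟩ := enc_exists o l (z := g.symm z) (by simpa using hx.ne)
    have := h1.2.2.2 _ _ hy
    rw [g.apply_symm_apply] at this
    rw [hx.unique this]
    show Enc o l _ (h.symm (h y))
    rwa [h.symm_apply_apply]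

def HL (o l : A) : Subgroup ((ℕ → A) ≃ₜ (ℕ → A)) where
  carrier := {h | ∃ g, Rel o l h g}
  one_mem' := ⟨LinearEquiv.refl _ _, Nice.id, Nice.id, fun _ _ _ => rfl, fun _ _ h => h⟩
  mul_mem' := fun ⟨_, h⟩ ⟨_, h'⟩ => ⟨_, h.mul h'⟩
  inv_mem' := fun ⟨_, h⟩ => ⟨_, h.inv⟩

lemma HL_fixed : ∀ g ∈ HL o l, ∀ h ∈ HL o l, ∃ x, g x = x ∧ h x = x := by
  rintro h ⟨g, hg⟩ h' ⟨g', hg'⟩
  obtain ⟨z, hz, h1, h2⟩ := common_vec hg.2.2.1 hg'.2.2.1
  obtain ⟨x, hx⟩ := enc_exists o l hz
  exact ⟨x, (h1 ▸ hg.2.2.2 z x hx).unique hx, (h2 ▸ hg'.2.2.2 z x hx).unique hx⟩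

def mkH (f : (ℕ → A) → ℕ → A) (hn : Nice f) (hi : ∀ x, f (f x) = x) : (ℕ → A) ≃ₜ (ℕ → A) where
  toFun := f
  invFun := f
  left_inv := hi
  right_inv := hi
  continuous_toFun := hn.1
  continuous_invFun := hn.1

variable [DiscreteTopology A] [Finite A] (hol : o ≠ l)
include hol

lemma rel_tr {i j : Fin 5} (hij : i ≠ j) (hi : i.val < 2) (a : ℕ) :
    ∃ h, Rel o l h (tr hij a) := by
  refine ⟨mkH _ (tv_sb i j a 0).nice (tv_tv hol i j a 0 hij), (tv_sb i j a 0).nice,
    (tv_sb i j a 0).nice, tr_inL hij _ hi, ?_⟩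
  rintro z _ ⟨m, h1, h2, rfl⟩
  refine ⟨m, fun i' k hk => ?_, fun h => h2 ?_, ?_⟩
  · rw [tr_coeff, h1 _ _ hk, h1 _ _ (by omega)]; simp
  · have h3 : ∀ i', (z i').coeff m + (if i' = i then (z j).coeff (m - a) else 0) = 0 := by
      intro i'
      have := congrFun h i'
      simpa [sq, tr_coeff] using this
    have h4 : (z j).coeff (m - a) = 0 := by
      rcases a with _ | a
      · simpa [hij.symm] using h3 j
      · exact h1 _ _ (by omega)
    funext i'
    simpa [sq, h4] using h3 i'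
  · show tv o l i j a 0 _ = _
    rw [tv_code hol]
    congr 1
    funext n i'
    conv_rhs => rw [sq, tr_coeff]
    split_ifs with h3 h4 h4
    · subst h4
      simp only [Pi.add_apply, Pi.single_eq_same, sq, add_zero, Nat.cast_sub h3, add_sub_assoc]
    · simp [sq, h4]
    · rw [h1 j _ (by omega)]; simp [sq]
    · simp [sq]

def R1 (o l : A) : Set (List A × List A) :=
  {p | ∃ b : BB, b 1 = 1 ∧ (p = (blk o l 0 ++ blk o l b, blk o l b) ∨
    p = (blk o l b, blk o l 0 ++ blk o l b))}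

def R2 (o l : A) : Set (List A × List A) :=
  {p | ∃ b : BB, b 1 = 1 ∧ (p = (blk o l 0 ++ blk o l b, blk o l (Pi.single 0 1) ++ blk o l b) ∨
    p = (blk o l (Pi.single 0 1) ++ blk o l b, blk o l 0 ++ blk o l b))}

omit [TopologicalSpace A] [DiscreteTopology A] [Finite A] in
lemma R1_ok : SwOk (R1 o l) where
  fin := ((Set.finite_range _).union (Set.finite_range _)).subset fun _ ⟨b, _, h⟩ =>
    h.imp (fun h => ⟨b, h.symm⟩) fun h => ⟨b, h.symm⟩
  symm := by rintro p ⟨b, hb, rfl | rfl⟩ <;> exact ⟨b, hb, by simp⟩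
  disj := by
    rintro p ⟨b, hb, rfl | rfl⟩ q ⟨c, hc, rfl | rfl⟩ ξ η h <;> simp only [app_append] at h
    · rw [(blk_app hol (blk_app hol h).2).1]
    · rw [← (blk_app hol h).1] at hc; simp at hc
    · rw [(blk_app hol h).1] at hb; simp at hb
    · rw [(blk_app hol h).1]

omit [TopologicalSpace A] [DiscreteTopology A] [Finite A] in
lemma R2_ok : SwOk (R2 o l) where
  fin := ((Set.finite_range _).union (Set.finite_range _)).subset fun _ ⟨b, _, h⟩ =>
    h.imp (fun h => ⟨b, h.symm⟩) fun h => ⟨b, h.symm⟩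
  symm := by rintro p ⟨b, hb, rfl | rfl⟩ <;> exact ⟨b, hb, by simp⟩
  disj := by
    rintro p ⟨b, hb, rfl | rfl⟩ q ⟨c, hc, rfl | rfl⟩ ξ η h <;> simp only [app_append] at h
    · rw [(blk_app hol (blk_app hol h).2).1]
    · simpa using congrFun (blk_app hol h).1 0
    · simpa using congrFun (blk_app hol h).1 0
    · rw [(blk_app hol (blk_app hol h).2).1]

lemma rel_tr' : ∃ h, Rel o l h (tr (i := 0) (j := 1) (by decide) (-1)) := by
  have n0 := (tv_sb (o := o) (l := l) 0 1 0 1).nice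
  have n1 := (rsw_uv (R1_ok hol)).nice
  have n2 := (rsw_uv (R2_ok hol)).nice
  refine ⟨mkH _ n2 (rsw_rsw (R2_ok hol)) * mkH _ n1 (rsw_rsw (R1_ok hol)) *
    mkH _ n0 (tv_tv hol 0 1 0 1 (by decide)), n2.comp (n1.comp n0), n0.comp (n1.comp n2),
    tr_inL _ _ (by simp), ?_⟩
  rintro z _ ⟨m, h1, h2, rfl⟩
  show Enc o l _ (rsw (R2 o l) (rsw (R1 o l) (tv o l 0 1 0 1 _)))
  set z' := tr (i := 0) (j := 1) (by decide) (-1) z with hz'
  have c0 : ∀ k, (z' 0).coeff k = (z 0).coeff k + (z 1).coeff (k + 1) := fun k => by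
    simp [hz', tr_coeff]
  have c1 : ∀ i k, i ≠ 0 → (z' i).coeff k = (z i).coeff k := fun i k hi => by
    simp [hz', tr_coeff, hi]
  have e1 : tv o l 0 1 0 1 (code o l (sq z m)) = code o l (sq z' m) := by
    rw [tv_code hol]
    congr 1
    funext n i
    by_cases hi : i = 0
    · subst hi; simp [sq, c0, add_assoc]
    · simp [sq, c1 i _ hi, hi]
  have low : ∀ i k, k < m - 1 → (z' i).coeff k = 0 := by
    intro i k hk
    by_cases hi : i = 0
    · rw [hi, c0, h1 _ _ (by omega), h1 _ _ (by omega), add_zero]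
    · rw [c1 i _ hi, h1 _ _ (by omega)]
  have hsq : ∀ m, sq z' m = cons (sq z' m 0) (sq z' (m + 1)) := by
    intro m; funext n; cases n with
    | zero => rfl
    | succ n => funext i; simp only [sq, cons_succ]; congr 1; push_cast; ring
  have z2 : ∀ c : ZMod 2, c ≠ 0 → c = 1 := by decide
  rw [e1]
  by_cases hA : (z 1).coeff m = 0
  · have low' : ∀ i k, k < m → (z' i).coeff k = 0 := by
      intro i k hk
      by_cases hk' : k = m - 1
      · by_cases hi : i = 0
        · rw [hi, c0, h1 _ _ hk, hk', sub_add_cancel, hA, add_zero]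
        · rw [c1 i _ hi, h1 _ _ hk]
      · exact low i k (by omega)
    have hb : sq z' m 0 1 = 0 := by simp [sq, c1, hA]
    have hz : ∀ b : BB, sq z' m 0 = b → (∀ i, i ≠ 0 → b i = 0) →
        b 0 ≠ (z 1).coeff (m + 1) := by
      intro b h h' h''
      refine h2 (funext fun i => ?_)
      have := congrFun h i
      by_cases hi : i = 0
      · subst hi
        simpa [sq, c0, h''] using this
      · simpa [sq, c1 i _ hi, h' i hi] using this
    by_cases hB : sq z' m 0 = 0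
    · have hc : sq z' (m + 1) 0 1 = 1 := by
        have := hz 0 hB fun _ _ => rfl
        simpa [sq, c1] using z2 _ (Ne.symm this)
      refine ⟨m + 1, fun i k hk => ?_, fun h => by simp [h] at hc, ?_⟩
      · by_cases hk' : k = m
        · simpa [sq, hk'] using congrFun hB i
        · exact low' i k (by omega)
      · rw [hsq m, hsq (m + 1), hB, code_cons, code_cons, ← app_append,
          rsw_app (R1_ok hol) ⟨_, hc, Or.inl rfl⟩, rsw_of_not]
        rintro p ⟨b, -, rfl | rfl⟩ ξ h <;> simp only [app_append] at h <;>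
          rw [(blk_app hol h).1] at hc <;> simp at hc
    · refine ⟨m, low', hB, ?_⟩
      rw [rsw_of_not (R := R1 o l), rsw_of_not]
      · rintro p ⟨b, hb', rfl | rfl⟩ ξ h <;> simp only [app_append] at h <;>
          rw [hsq m, code_cons] at h
        · exact hB (blk_app hol h).1
        · obtain ⟨h3, h4⟩ := blk_app hol h
          rw [hsq, code_cons] at h4
          refine hz _ h3 (fun i hi => by simp [hi]) ?_
          rw [← (blk_app hol h4).1] at hb'
          simpa [sq, c1] using hb'.symm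
      · rintro p ⟨b, hb', rfl | rfl⟩ ξ h <;> simp only [app_append] at h <;>
          rw [hsq m, code_cons] at h
        · exact hB (blk_app hol h).1
        · rw [(blk_app hol h).1, hb'] at hb; simp at hb
  · have hc : sq z' m 0 1 = 1 := by simpa [sq, c1] using z2 _ hA
    have he : sq z' (m - 1) 0 = Pi.single 0 1 := by
      funext i
      by_cases hi : i = 0
      · subst hi; simp [sq, c0, h1 0 (m - 1) (by omega), z2 _ hA]
      · simp [sq, c1 i _ hi, hi, h1 i (m - 1) (by omega)]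
    refine ⟨m - 1, low, fun h => by simpa [he] using congrFun h 0, ?_⟩
    rw [hsq (m - 1), he, sub_add_cancel, hsq m, code_cons, code_cons, code_cons,
      rsw_app (R1_ok hol) ⟨_, hc, Or.inr rfl⟩, rsw_app (R2_ok hol) ⟨_, hc, Or.inl rfl⟩, app_append]

end

end H73.DT
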