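import Pool.Agent.H73.DT8

set_option autoImplicit false

/-! No invariant measure for the linear example. -/

namespace H73.DT

open Classical Filter Topology MeasureTheory

def wt : Fin 5 → ℤ := ![-1, 1, 0, 0, 0]

section
variable {A : Type} {o l : A} [TopologicalSpace A] [DiscreteTopology A] [Finite A] (hol : o ≠ l)
include hol

lemma rel_diag : ∃ h g, Rel o l h g ∧ ∀ z i k, (g z i).coeff k = (z i).coeff (k - wt i) := by
  obtain ⟨a, ha⟩ := rel_tr hol (i := 0) (j := 1) (by decide) (by simp) 0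
  obtain ⟨b, hb⟩ := rel_tr hol (i := 1) (j := 0) (by decide) (by simp) 0
  obtain ⟨c, hc⟩ := rel_tr hol (i := 1) (j := 0) (by decide) (by simp) 1
  obtain ⟨d, hd⟩ := rel_tr' hol
  refine ⟨_, _, hd.mul (hc.mul (hd.mul (ha.mul (hb.mul ha)))), fun z i k => ?_⟩
  have h2 : ∀ a : ZMod 2, a + a = 0 := by decide
  fin_cases i <;> simp [tr_coeff, wt]
  · linear_combination h2 ((z 0).coeff k) + h2 ((z 1).coeff k) + h2 ((z 0).coeff k) +
      h2 ((z 0).coeff (k + 1)) + 3 * h2 ((z 1).coeff (k + 1)) + 2 * h2 ((z 1).coeff k)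
  · linear_combination h2 ((z 0).coeff k) + 2 * h2 ((z 1).coeff k) + h2 ((z 0).coeff (k - 1)) +
      h2 ((z 1).coeff (k - 1))

omit [Finite A] in
lemma recur {h : (ℕ → A) ≃ₜ (ℕ → A)} {g : NL ≃ₗ[KL] NL} (hr : Rel o l h g)
    (hg : ∀ z i k, (g z i).coeff k = (z i).coeff (k - wt i)) {z : NL} {x : ℕ → A}
    (hx : Enc o l z x) (hrec : ∀ s ∈ 𝓝 x, ∃ᶠ n in atTop, h^[n] x ∈ s) {i j : Fin 5}
    (hi : z i ≠ 0) (hj : z j ≠ 0) : wt i = wt j := by
  have hit : ∀ n : ℕ, ∃ y, Enc o l y (h^[n] x) ∧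
      ∀ i k, (y i).coeff k = (z i).coeff (k - n * wt i) := by
    intro n
    induction n with
    | zero => exact ⟨z, hx, by simp⟩
    | succ n ih =>
      obtain ⟨y, h1, h2⟩ := ih
      refine ⟨g y, by rw [Function.iterate_succ_apply']; exact hr.2.2.2 _ _ h1, fun i k => ?_⟩
      rw [hg, h2]; congr 1; push_cast; ring
  obtain ⟨m, h1, -, rfl⟩ := hx
  set M := ((z i).order - m).toNat + ((z j).order - m).toNat with hM
  obtain ⟨n, hn, hn1⟩ := ((hrec _ (eventually_agree _ (13 * (M + 1)))).and_eventually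
    (eventually_ge_atTop 1)).exists
  obtain ⟨y, ⟨m', h3, -, h4⟩, h5⟩ := hit n
  have hag : ∀ q ≤ M, sq y m' q = sq z m q := fun q hq =>
    code_agree hol fun k hk => by rw [← h4]; exact hn k (by omega)
  have key : ∀ i, z i ≠ 0 → ((z i).order - m).toNat ≤ M → n * wt i = m' - m := by
    intro i hi hle
    have c0 : (z i).coeff (z i).order ≠ 0 := mt HahnSeries.coeff_order_eq_zero.1 hi
    have c1 : m ≤ (z i).order := not_lt.1 fun h => c0 (h1 i _ h)
    have c2 := congrFun (hag _ hle) i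
    simp only [sq, h5] at c2
    rw [show m + (((z i).order - m).toNat : ℤ) = (z i).order by omega] at c2
    have c3 := HahnSeries.order_le_of_coeff_ne_zero (c2 ▸ c0)
    have c4 : (y i).coeff ((z i).order + n * wt i) ≠ 0 := by rw [h5]; simpa using c0
    have c5 : m' ≤ (z i).order + n * wt i := not_lt.1 fun h => c4 (h3 i _ h)
    by_contra hne
    have c6 := congrFun (hag ((z i).order + n * wt i - m').toNat (by omega)) i
    simp only [sq] at c6
    rw [show m' + (((z i).order + n * wt i - m').toNat : ℤ) = (z i).order + n * wt i by omega,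
      HahnSeries.coeff_eq_zero_of_lt_order (x := z i) (by omega)] at c6
    exact c4 c6
  have e1 := key i hi (by omega)
  have e2 := key j hj (by omega)
  exact mul_left_cancel₀ (by omega : (n : ℤ) ≠ 0) (e1.trans e2.symm)

def YY (o l : A) : Set (ℕ → A) := code o l '' {s | s 0 ≠ 0}

omit [Finite A] hol in
lemma YY_closed : IsClosed (YY o l) := by
  let _ : TopologicalSpace BB := ⊥
  have : DiscreteTopology BB := ⟨rfl⟩
  have h1 : Continuous (code o l : (ℕ → BB) → ℕ → A) :=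
    continuous_pi fun k => (continuous_of_discreteTopology (f := fun b => pat o l b (k % 13))).comp
      (continuous_apply _)
  exact (((isClosed_discrete {b : BB | b ≠ 0}).preimage (continuous_apply 0)).isCompact.image
    h1).isClosed

omit hol in
lemma rel_swap {α β : List A} (hd : ∀ ξ η, app α ξ ≠ app β η) (ha : ∀ ξ, app α ξ ∉ YY o l)
    (hb : ∀ ξ, app β ξ ∉ YY o l) : ∃ h ∈ HL o l, ∀ ξ, h (app α ξ) = app β ξ := by
  have hR : SwOk {(α, β), (β, α)} := ⟨Set.toFinite _, by rintro p (rfl | rfl) <;> simp, by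
    rintro p (rfl | rfl) q (rfl | rfl) ξ η h
    · rfl
    · exact absurd h (hd _ _)
    · exact absurd h.symm (hd _ _)
    · rfl⟩
  have hn := (rsw_uv hR).nice
  refine ⟨mkH _ hn (rsw_rsw hR), ⟨LinearEquiv.refl _ _, hn, hn, fun _ _ _ => rfl, ?_⟩,
    fun ξ => rsw_app hR (Or.inl rfl) ξ⟩
  intro z x hx
  have : rsw {(α, β), (β, α)} x = x := by
    obtain ⟨m, -, h2, rfl⟩ := hx
    refine rsw_of_not ?_
    rintro p (rfl | rfl) ξ h
    · exact ha ξ ⟨_, h2, h⟩
    · exact hb ξ ⟨_, h2, h⟩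
  show Enc o l z (rsw _ x)
  rwa [this]

theorem HL_inv : ¬ InvM (HL o l : Set ((ℕ → A) ≃ₜ (ℕ → A))) := by
  let _ : MeasurableSpace (ℕ → A) := borel _
  have : BorelSpace (ℕ → A) := ⟨rfl⟩
  rintro ⟨μ, hμ, hinv⟩
  have hmp : ∀ h ∈ HL o l, MeasurePreserving h μ μ := fun h hh =>
    ⟨h.continuous.measurable, hinv h hh⟩
  have hC : ∀ α : List A, MeasurableSet (Set.range (app α)) := fun α =>
    (isCompact_range (continuous_app α)).isClosed.measurableSet
  have hsw : ∀ α β : List A, (∀ ξ η, app α ξ ≠ app β η) → (∀ ξ, app α ξ ∉ YY o l) →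
      (∀ ξ, app β ξ ∉ YY o l) → μ (Set.range (app α)) ≤ μ (Set.range (app β)) := by
    intro α β h1 h2 h3
    obtain ⟨h, hh, he⟩ := rel_swap h1 h2 h3
    rw [← (hmp h hh).measure_preimage (hC β).nullMeasurableSet]
    refine measure_mono ?_
    rintro _ ⟨ξ, rfl⟩
    exact ⟨ξ, (he ξ).symm⟩
  have h0 : ∀ (γ : List A) (a : A), (∀ ξ, app γ ξ ∉ YY o l) →
      μ (Set.range (app (γ ++ [a]))) = 0 := by
    intro γ a hγ
    obtain ⟨b, hb⟩ : ∃ b, b ≠ a := by
      by_cases h : o = a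
      · exact ⟨l, fun h' => hol (h.trans h'.symm)⟩
      · exact ⟨o, h⟩
    have hn : ∀ w ξ, app (γ ++ w) ξ ∉ YY o l := fun w ξ => by rw [app_append]; exact hγ _
    have hd : ∀ c d w w' ξ η, c ≠ d → app (γ ++ c :: w) ξ ≠ app (γ ++ d :: w') η := by
      intro c d w w' ξ η h h'
      rw [app_append, app_append] at h'
      exact h (cons_inj.1 (app_inj _ h')).1
    have e1 := hsw (γ ++ [b]) (γ ++ [a]) (fun _ _ => hd _ _ _ _ _ _ hb) (hn _) (hn _)
    have e2 := hsw (γ ++ [a]) (γ ++ [b, o]) (fun _ _ => hd _ _ _ _ _ _ hb.symm) (hn _) (hn _)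
    have e3 := hsw (γ ++ [a]) (γ ++ [b, l]) (fun _ _ => hd _ _ _ _ _ _ hb.symm) (hn _) (hn _)
    have e4 : μ (Set.range (app (γ ++ [b, o]))) + μ (Set.range (app (γ ++ [b, l]))) ≤
        μ (Set.range (app (γ ++ [b]))) := by
      rw [← measure_union _ (hC _)]
      · refine measure_mono (Set.union_subset ?_ ?_) <;> rintro _ ⟨ξ, rfl⟩
        · exact ⟨cons o ξ, by simp [app_append]⟩
        · exact ⟨cons l ξ, by simp [app_append]⟩
      · rw [Set.disjoint_left]
        rintro _ ⟨ξ, rfl⟩ ⟨η, h⟩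
        rw [app_append, app_append] at h
        have := app_inj _ h
        simp at this
        exact hol this.1.symm
    have e5 := (add_le_add e2 e3).trans (e4.trans e1)
    rwa [← add_zero (μ (Set.range (app (γ ++ [a])))), add_assoc, zero_add, add_zero,
      ← add_zero (μ (Set.range (app (γ ++ [a])))), add_assoc, zero_add,
      ENNReal.add_le_add_iff_left (measure_ne_top _ _), add_zero, nonpos_iff_eq_zero] at e5
  have hY : ∀ᵐ x ∂μ, x ∈ YY o l := by
    have hc : Countable A := Finite.to_countable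
    refine measure_mono_null (t := ⋃ p : {p : List A × A // ∀ ξ, app p.1 ξ ∉ YY o l},
      Set.range (app (p.1.1 ++ [p.1.2]))) ?_ (measure_iUnion_null fun p => h0 _ _ p.2)
    intro x hx
    obtain ⟨n, hn⟩ := exists_agree (P := fun y => y ∉ YY o l)
      (YY_closed.isOpen_compl.mem_nhds hx)
    refine Set.mem_iUnion.2 ⟨⟨(tk n x, x n), fun ξ => hn _ fun m hm => app_tk_lt _ _ _ _ hm⟩,
      sh (n + 1) x, ?_⟩
    simp only [← tk_succ, app_tk]
  obtain ⟨D, g, hD, hg⟩ := rel_diag hol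
  have hrec := (hmp D ⟨g, hD⟩).conservative.ae_frequently_mem_of_mem_nhds
  have hrec' : ∀ p : {p : Fin 5 × Fin 5 // p.1 ≠ p.2 ∧ p.1.val < 2}, ∀ᵐ x ∂μ,
      ∀ z, Enc o l z x → ∀ i j, tr p.2.1 (0 : ℕ) z i ≠ 0 → tr p.2.1 (0 : ℕ) z j ≠ 0 →
        wt i = wt j := by
    intro p
    obtain ⟨h, hh⟩ := rel_tr hol p.2.1 p.2.2 0
    filter_upwards [(hmp h ⟨_, hh⟩).quasiMeasurePreserving.ae hrec] with x hx z hz i j hi hj
    exact recur hol hD hg (hh.2.2.2 z x hz) hx hi hj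
  obtain ⟨x, ⟨⟨s, hs, rfl⟩, h1⟩, h2⟩ := ((hY.and hrec).and (ae_all_iff.2 hrec')).exists
  obtain ⟨z, hz⟩ := enc_surj o l hs
  have h3 : ∀ i j, z i ≠ 0 → z j ≠ 0 → wt i = wt j := fun i j => recur hol hD hg hz h1
  obtain ⟨j, hj⟩ := Function.ne_iff.1 hz.ne
  obtain ⟨i, hij, hi, hw⟩ : ∃ i : Fin 5, i ≠ j ∧ i.val < 2 ∧ wt i ≠ wt j := by
    clear hj; revert j; decide
  have hzi : z i = 0 := by_contra fun h => hw (h3 i j h hj)
  refine hw (h2 ⟨(i, j), hij, hi⟩ z hz i j ?_ ?_)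
  · intro h
    refine hj ?_
    ext k
    have := congrArg (fun f => HahnSeries.coeff f k) h
    simpa [tr_coeff, hzi] using this
  · intro h
    refine hj ?_
    ext k
    have := congrArg (fun f => HahnSeries.coeff f k) h
    simpa [tr_coeff, hij.symm] using this

end

theorem rat_fails (d : ℕ) (hd : 2 ≤ d) : ∃ H : Subgroup ((ℕ → Fin d) ≃ₜ (ℕ → Fin d)),
    (∀ h ∈ H, Rational h) ∧ ¬ InvMeasure H ∧ ¬ PingPong H := by
  have hol : (⟨0, by omega⟩ : Fin d) ≠ ⟨1, by omega⟩ := by simp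
  have : Nontrivial (Fin d) := ⟨_, _, hol⟩
  refine ⟨HL _ _, ?_, not_invMeasure _ _ id continuous_id (fun s hs => ⟨s, hs, fun _ => rfl⟩)
    (HL_inv hol), not_pingPong _ HL_fixed⟩
  rintro h ⟨g, hg⟩
  exact hg.1.2.1.rational h.continuous h.injective

theorem aut_fails (d k : ℕ) (hd : 2 ≤ d) (hk : 1 ≤ k) :
    ∃ H : Subgroup ((Fin k × (ℕ → Fin d)) ≃ₜ (Fin k × (ℕ → Fin d))),
      (∀ h ∈ H, InAutV h) ∧ ¬ InvMeasure H ∧ ¬ PingPong H := by
  have hol : (⟨0, by omega⟩ : Fin d) ≠ ⟨1, by omega⟩ := by simp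
  let H : Subgroup (XV d k ≃ₜ XV d k) :=
    { carrier := {h | ∃ f ∈ HL (⟨0, by omega⟩ : Fin d) ⟨1, by omega⟩, ∀ x, h x = (x.1, f x.2)}
      one_mem' := ⟨1, one_mem _, fun _ => rfl⟩
      mul_mem' := by
        rintro a b ⟨f, hf, ha⟩ ⟨g, hg, hb⟩
        exact ⟨f * g, mul_mem hf hg, fun x => by
          show a (b x) = _
          rw [hb, ha]; rfl⟩
      inv_mem' := by
        rintro a ⟨f, hf, ha⟩
        refine ⟨f⁻¹, inv_mem hf, fun x => a.injective ?_⟩
        rw [ha (x.1, _)]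
        exact (a.apply_symm_apply x).trans (Prod.ext rfl (f.apply_symm_apply _).symm) }
  have key : ∀ h ∈ H, ∀ v, InV v → InV (h * v * h⁻¹) := by
    rintro h ⟨f, ⟨g, hg⟩, hf⟩ v hv
    exact conj_inV hg.1.2.2 (fun x => by rw [hf]) hv
  refine ⟨H, fun h hh v => ⟨key h hh v, fun hv => ?_⟩, not_invMeasure _ _ Prod.snd continuous_snd
    (fun s hs => ⟨(Homeomorph.refl _).prodCongr s, ⟨s, hs, fun _ => rfl⟩, fun _ => rfl⟩)
    (HL_inv hol), not_pingPong _ ?_⟩
  · have := key _ (inv_mem hh) _ hv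
    rwa [show h⁻¹ * (h * v * h⁻¹) * h⁻¹⁻¹ = v by group] at this
  · rintro a ⟨f, hf, ha⟩ b ⟨g, hg, hb⟩
    obtain ⟨x, h1, h2⟩ := HL_fixed f hf g hg
    exact ⟨(⟨0, hk⟩, x), by rw [ha, h1], by rw [hb, h2]⟩

end H73.DT
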