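import Mathlib

set_option autoImplicit false

/-! Definitions for the dynamical Tits alternative: ping-pong pairs, invariant measures,
rational homeomorphisms, Brin-Thompson groups, Higman-Thompson groups. -/

namespace H73.DT

open MeasureTheory

/-- The infinite word `a ξ`. -/
def cons {A : Type} (a : A) (ξ : ℕ → A) : ℕ → A
  | 0 => a
  | n + 1 => ξ n

/-- The infinite word `w ξ` (finite word `w` followed by the infinite word `ξ`). -/
def app {A : Type} : List A → (ℕ → A) → ℕ → A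
  | [], ξ => ξ
  | a :: w, ξ => cons a (app w ξ)

/-- A ping-pong pair for the group `H` of homeomorphisms of `X`. -/
def PingPong {X : Type} [TopologicalSpace X] (H : Subgroup (X ≃ₜ X)) : Prop :=
  ∃ g ∈ H, ∃ h ∈ H, ∃ U₁ U₂ V₁ V₂ : Set X,
    IsOpen U₁ ∧ IsOpen U₂ ∧ IsOpen V₁ ∧ IsOpen V₂ ∧
    Disjoint U₁ U₂ ∧ Disjoint U₁ V₁ ∧ Disjoint U₁ V₂ ∧
    Disjoint U₂ V₁ ∧ Disjoint U₂ V₂ ∧ Disjoint V₁ V₂ ∧
    g '' U₁ᶜ ⊆ V₁ ∧ h '' U₂ᶜ ⊆ V₂

/-- `H` preserves a regular Borel probability measure on `X`. -/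
def InvMeasure {X : Type} [TopologicalSpace X] (H : Subgroup (X ≃ₜ X)) : Prop :=
  letI : MeasurableSpace X := borel X
  ∃ μ : Measure X, IsProbabilityMeasure μ ∧ μ.Regular ∧ ∀ h ∈ H, μ.map h = μ

/-- State of a transducer after reading the first `n` letters of `x`. -/
def state {A Q : Type} (δ : Q → A → Q) (q₀ : Q) (x : ℕ → A) : ℕ → Q
  | 0 => q₀
  | n + 1 => δ (state δ q₀ x n) (x n)

/-- Word written by a transducer while reading the first `n` letters of `x`. -/
def written {A Q : Type} (δ : Q → A → Q) (out : Q → A → List A) (q₀ : Q) (x : ℕ → A) :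
    ℕ → List A
  | 0 => []
  | n + 1 => written δ out q₀ x n ++ out (state δ q₀ x n) (x n)

/-- `f` is computed by a finite-state asynchronous transducer: `f x` is the infinite
concatenation of the words written while reading `x`. -/
def Rational {A : Type} (f : (ℕ → A) → (ℕ → A)) : Prop :=
  ∃ (Q : Type) (_ : Finite Q) (q₀ : Q) (δ : Q → A → Q) (out : Q → A → List A),
    ∀ x, (∀ n, ∃ ξ, f x = app (written δ out q₀ x n) ξ) ∧
      ∀ N, ∃ n, N ≤ (written δ out q₀ x n).length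

/-- Membership in the Brin-Thompson group `nV`: on each of finitely many dyadic boxes covering
`C^n`, `g` is a replacement of an initial word in each coordinate. -/
def InNV {n : ℕ} (g : (Fin n → ℕ → Bool) ≃ₜ (Fin n → ℕ → Bool)) : Prop :=
  ∃ P : Set ((Fin n → List Bool) × (Fin n → List Bool)), P.Finite ∧
    (∀ x : Fin n → ℕ → Bool, ∃ p ∈ P, ∃ ξ : Fin n → ℕ → Bool, x = fun i => app (p.1 i) (ξ i)) ∧
    ∀ p ∈ P, ∀ ξ : Fin n → ℕ → Bool,
      g (fun i => app (p.1 i) (ξ i)) = fun i => app (p.2 i) (ξ i)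

/-- Membership in the Higman-Thompson group `V_{d,k}`, acting on `k` copies of the `d`-ary Cantor
set: on each of finitely many cones covering the space, `v` is a replacement of an initial word. -/
def InV {d k : ℕ} (v : (Fin k × (ℕ → Fin d)) ≃ₜ (Fin k × (ℕ → Fin d))) : Prop :=
  ∃ P : Set ((Fin k × List (Fin d)) × (Fin k × List (Fin d))), P.Finite ∧
    (∀ x : Fin k × (ℕ → Fin d), ∃ p ∈ P, ∃ ξ, x = (p.1.1, app p.1.2 ξ)) ∧
    ∀ p ∈ P, ∀ ξ, v (p.1.1, app p.1.2 ξ) = (p.2.1, app p.2.2 ξ)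

/-- `h` normalises `V_{d,k}`, i.e. induces an automorphism of `V_{d,k}` by conjugation. -/
def InAutV {d k : ℕ} (h : (Fin k × (ℕ → Fin d)) ≃ₜ (Fin k × (ℕ → Fin d))) : Prop :=
  ∀ v, InV v ↔ InV (h * v * h⁻¹)

end H73.DT
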