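import Mathlib

/-!
A subgroup of a restricted direct product of finite groups has a subset with point-finite
supports which generates a dense subgroup.
-/

set_option autoImplicit false

namespace Pool.Agent.H73.Dense

open Cardinal Set

theorem un_le {α β : Type} {μ : Cardinal.{0}} (hμ : ℵ₀ ≤ μ) {s : Set β} (hs : #s ≤ μ)
    {f : β → Set α} (hf : ∀ b ∈ s, #(f b) ≤ μ) : #(⋃ b ∈ s, f b) ≤ μ :=
  (mk_biUnion_le f s).trans (mul_le_of_le hμ hs (ciSup_le' fun b => hf b.1 b.2))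

theorem fin_le {α : Type} {μ : Cardinal.{0}} (hμ : ℵ₀ ≤ μ) {s : Set α} (hs : s.Finite) :
    #s ≤ μ := hs.lt_aleph0.le.trans hμ

theorem un2_le {α : Type} {μ : Cardinal.{0}} (hμ : ℵ₀ ≤ μ) {s t : Set α} (hs : #s ≤ μ)
    (ht : #t ≤ μ) : #(s ∪ t : Set α) ≤ μ := (mk_union_le s t).trans (add_le_of_le hμ hs ht)

theorem fsub_le {α : Type} {μ : Cardinal.{0}} (hμ : ℵ₀ ≤ μ) {A : Set α} (hA : #A ≤ μ) :
    #{ρ : Set α | ρ.Finite ∧ ρ ⊆ A} ≤ μ := by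
  have : {ρ : Set α | ρ.Finite ∧ ρ ⊆ A} ⊆
      range (fun l : List A => Subtype.val '' {x | x ∈ l}) := by
    rintro ρ ⟨h1, h2⟩
    refine ⟨(h1.preimage (f := (Subtype.val : A → α)) Subtype.val_injective.injOn).toFinset.toList,
      ?_⟩
    ext x
    simp only [mem_image, mem_ofPred_eq, Finset.mem_toList, Finite.mem_toFinset, mem_preimage]
    exact ⟨fun ⟨y, h, e⟩ => e ▸ h, fun h => ⟨⟨x, h2 h⟩, h, rfl⟩⟩
  exact (mk_le_mk_of_subset this).trans (mk_range_le.trans ((mk_list_le_max _).trans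
    (max_le hμ hA)))

theorem fin_mono {α W : Type} [LinearOrder W] {f : W → Set α} (hf : Monotone f) {s : Set W}
    (hs : s.Nonempty) {ρ : Set α} (hρ : ρ.Finite) (h : ρ ⊆ ⋃ b ∈ s, f b) :
    ∃ b ∈ s, ρ ⊆ f b := by
  induction ρ, hρ using Set.Finite.induction_on with
  | empty => obtain ⟨b, hb⟩ := hs; exact ⟨b, hb, empty_subset _⟩
  | @insert a ρ _ _ ih =>
    obtain ⟨b, hb, h1⟩ := ih ((subset_insert _ _).trans h)
    obtain ⟨c, hc, h2⟩ := mem_iUnion₂.mp (h (mem_insert _ _))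
    rcases le_total b c with h3 | h3
    · exact ⟨c, hc, insert_subset h2 (h1.trans (hf h3))⟩
    · exact ⟨b, hb, insert_subset (hf h3 h2) h1⟩

theorem clos {α : Type} {μ : Cardinal.{0}} (hμ : ℵ₀ ≤ μ) {A B : Set α} (hA : #A ≤ μ)
    (hAB : A ⊆ B) (Φ : Set α → Set α) (hΦ : ∀ ρ, ρ.Finite → #(Φ ρ) ≤ μ) (hB : ∀ ρ, Φ ρ ⊆ B) :
    ∃ A', A ⊆ A' ∧ A' ⊆ B ∧ #A' ≤ μ ∧ ∀ ρ, ρ.Finite → ρ ⊆ A' → Φ ρ ⊆ A' := by
  let st : Set α → Set α := fun C => C ∪ ⋃ ρ ∈ {ρ : Set α | ρ.Finite ∧ ρ ⊆ C}, Φ ρ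
  let f : ℕ → Set α := fun n => st^[n] A
  have hs : ∀ n, f (n + 1) = st (f n) := fun n => Function.iterate_succ_apply' _ _ _
  have hm : Monotone f := monotone_nat_of_le_succ fun n => by rw [hs]; exact subset_union_left
  have h1 : ∀ n, f n ⊆ B ∧ #(f n) ≤ μ := by
    intro n
    induction n with
    | zero => exact ⟨hAB, hA⟩
    | succ n ih =>
      rw [hs]
      exact ⟨union_subset ih.1 (iUnion₂_subset fun ρ _ => hB ρ),
        un2_le hμ ih.2 (un_le hμ (fsub_le hμ ih.2) fun ρ h => hΦ ρ h.1)⟩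
  refine ⟨⋃ n ∈ (univ : Set ℕ), f n, subset_biUnion_of_mem (u := f) (mem_univ 0),
    iUnion₂_subset fun n _ => (h1 n).1, un_le hμ (by simpa using hμ) fun n _ => (h1 n).2,
    fun ρ h2 h3 => ?_⟩
  obtain ⟨n, -, hn⟩ := fin_mono hm univ_nonempty h2 h3
  refine Subset.trans ?_ (subset_biUnion_of_mem (u := f) (mem_univ (n + 1)))
  rw [hs]
  exact subset_union_of_subset_right
    (subset_biUnion_of_mem (u := Φ) (s := {ρ : Set α | ρ.Finite ∧ ρ ⊆ f n}) ⟨h2, hn⟩) _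

theorem exists_max {α : Type} (A : Set α) (R : α → α → Prop) (hR : ∀ a b, R a b → R b a) :
    ∃ 𝒢 ⊆ A, 𝒢.Pairwise R ∧ ∀ q ∈ A, q ∈ 𝒢 ∨ ∃ g ∈ 𝒢, ¬ R q g := by
  obtain ⟨𝒢, h⟩ := zorn_subset {𝒢 : Set α | 𝒢 ⊆ A ∧ 𝒢.Pairwise R} (fun c hc hch =>
    ⟨⋃₀ c, ⟨sUnion_subset fun s hs => (hc hs).1,
      (pairwise_sUnion hch.directedOn).mpr fun s hs => (hc hs).2⟩, fun s hs => subset_sUnion_of_mem hs⟩)
  refine ⟨𝒢, h.prop.1, h.prop.2, fun q hq => ?_⟩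
  by_contra hc
  push Not at hc
  refine hc.1 (h.le_of_ge (y := insert q 𝒢) ⟨insert_subset hq h.prop.1, ?_⟩ (subset_insert _ _)
    (mem_insert _ _))
  exact h.prop.2.insert fun g hg _ => ⟨hc.2 g hg, hR _ _ (hc.2 g hg)⟩

theorem exists_levels {α W : Type} [LinearOrder W] [WellFoundedLT W] (𝒢 : Set α) :
    ∃ S : W → Set α, (∀ b, S b ⊆ 𝒢 ∧ #(S b) ≤ max #(Iio b) ℵ₀) ∧
      ∀ a b, b < a → #𝒢 ≤ max #(Iio a) ℵ₀ → ∀ g ∈ 𝒢, ∃ c, b ≤ c ∧ c < a ∧ g ∈ S c := by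
  by_cases h0 : #𝒢 ≤ ℵ₀
  · exact ⟨fun _ => 𝒢, fun b => ⟨Subset.rfl, le_max_of_le_right h0⟩,
      fun a b hb _ g hg => ⟨b, le_rfl, hb, hg⟩⟩
  by_cases h1 : ∃ a : W, #𝒢 ≤ #(Iio a)
  · obtain ⟨a0, ha0, hmin⟩ := wellFounded_lt.has_min {a : W | #𝒢 ≤ #(Iio a)} h1
    obtain ⟨j⟩ := (Cardinal.le_def _ _).mp ha0
    refine ⟨fun b => Subtype.val '' {g : 𝒢 | (j g).1 ≤ b}, fun b => ⟨?_, ?_⟩,
      fun a b hb ha g hg => ?_⟩
    · rintro _ ⟨g, -, rfl⟩; exact g.2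
    · refine mk_image_le.trans ?_
      have : #{g : 𝒢 | (j g).1 ≤ b} ≤ #(Iio b ∪ {b} : Set W) :=
        mk_le_of_injective (f := fun g => ⟨(j g.1).1, (lt_or_eq_of_le g.2).imp id id⟩)
          fun g g' h => Subtype.ext (j.injective (Subtype.ext (Subtype.mk.inj h)))
      exact this.trans (un2_le (le_max_right _ _) (le_max_left _ _)
        (fin_le (le_max_right _ _) (finite_singleton b)))
    · have h2 : a0 ≤ a := not_lt.mp (hmin a ((le_max_iff.mp ha).resolve_right h0))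
      exact ⟨max b (j ⟨g, hg⟩).1, le_max_left _ _, max_lt hb ((j ⟨g, hg⟩).2.trans_le h2),
        ⟨g, hg⟩, le_max_right _ _, rfl⟩
  · exact ⟨fun _ => ∅, fun b => ⟨empty_subset _, by simp⟩, fun a b _ ha =>
      absurd ⟨a, (le_max_iff.mp ha).resolve_right h0⟩ h1⟩

variable {H ι : Type} [Group H] (Z : ι → Subgroup H)

def supp (g : H) : Set ι := {i | g ∉ Z i}

def ag (ρ : Set ι) (g q : H) : Prop := ∀ i ∈ ρ, g⁻¹ * q ∈ Z i

def sub (B : Set ι) : Subgroup H := ⨅ i, ⨅ _ : i ∉ B, Z i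

theorem mem_sub {B : Set ι} {g : H} : g ∈ sub Z B ↔ ∀ i, i ∉ B → g ∈ Z i := by
  simp [sub, Subgroup.mem_iInf]

theorem mem_sub' {B : Set ι} {g : H} : g ∈ sub Z B ↔ supp Z g ⊆ B := by
  rw [mem_sub]
  exact ⟨fun h i hi => by_contra fun hc => hi (h i hc), fun h i hi => by_contra fun hc => hi (h hc)⟩

def SW (B : Set ι) : Prop := ∀ τ : Set ι, τ.Finite → τ ⊆ B → ∀ q, ∃ g ∈ sub Z B, ag Z τ g q

def Goal (B : Set ι) : Prop := ∃ X : Set H, (∀ x ∈ X, x ∈ sub Z B) ∧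
  (∀ i, {x | x ∈ X ∧ x ∉ Z i}.Finite) ∧
  ∀ τ : Set ι, τ.Finite → τ ⊆ B → ∀ q, ∃ y ∈ Subgroup.closure X, ag Z τ y q

variable {Z}

theorem ag.trans {ρ : Set ι} {a b c : H} (h : ag Z ρ a b) (h' : ag Z ρ b c) : ag Z ρ a c :=
  fun i hi => by simpa [mul_assoc] using mul_mem (h i hi) (h' i hi)

theorem ag.symm {ρ : Set ι} {a b : H} (h : ag Z ρ a b) : ag Z ρ b a :=
  fun i hi => by simpa using inv_mem (h i hi)

theorem tr1 (R N : Subgroup H) [N.FiniteIndex] :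
    ∃ s : Set H, s.Finite ∧ (∀ x ∈ s, x ∈ R) ∧ ∀ h ∈ R, ∃ x ∈ s, x⁻¹ * h ∈ N := by
  have : ∀ q : H ⧸ N, ∃ r ∈ R, (∃ h ∈ R, (h : H ⧸ N) = q) → (r : H ⧸ N) = q := by
    intro q
    by_cases hq : ∃ h ∈ R, (h : H ⧸ N) = q
    · obtain ⟨h, h1, h2⟩ := hq
      exact ⟨h, h1, fun _ => h2⟩
    · exact ⟨1, R.one_mem, fun h => absurd h hq⟩
  choose r hr1 hr2 using this
  refine ⟨range r, finite_range r, ?_, fun h hh =>
    ⟨r h, ⟨_, rfl⟩, QuotientGroup.eq.mp (hr2 h ⟨h, hh, rfl⟩)⟩⟩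
  rintro _ ⟨q, rfl⟩; exact hr1 q

theorem tr2 (hf : ∀ i, (Z i).FiniteIndex) (ρ : Set ι) :
    ∃ s : Set H, s.Finite ∧ (ρ.Finite → ∀ q, ∃ r ∈ s, ag Z ρ r q) := by
  by_cases h : ρ.Finite
  · have := h.to_subtype
    have : (⨅ i : ρ, Z i).FiniteIndex := Subgroup.finiteIndex_iInf fun i => hf i
    obtain ⟨s, h1, -, h2⟩ := tr1 ⊤ (⨅ i : ρ, Z i)
    refine ⟨s, h1, fun _ q => ?_⟩
    obtain ⟨x, hx, h3⟩ := h2 q trivial
    exact ⟨x, hx, fun i hi => Subgroup.mem_iInf.mp h3 ⟨i, hi⟩⟩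
  · exact ⟨∅, finite_empty, fun h' => absurd h' h⟩

theorem base (hf : ∀ i, (Z i).FiniteIndex) {B : Set ι} (hB : B.Countable) (h : SW Z B) :
    Goal Z B := by
  rcases B.eq_empty_or_nonempty with rfl | hne
  · exact ⟨∅, by simp, by simp, fun τ _ h q => ⟨1, one_mem _, fun i hi => (h hi).elim⟩⟩
  obtain ⟨f, rfl⟩ := hB.exists_eq_range hne
  choose s s1 s2 s3 using fun n : ℕ => tr1 (sub Z (range f \ f '' Iio n)) (Z (f n))
  have s4 : ∀ n, ∀ x ∈ s n, x ∈ sub Z (range f) := fun n x hx =>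
    (mem_sub Z).mpr fun i hi => (mem_sub Z).mp (s2 n x hx) i fun h => hi h.1
  have s5 : ∀ n, ∀ x ∈ s n, ∀ k < n, x ∈ Z (f k) := fun n x hx k hk =>
    (mem_sub Z).mp (s2 n x hx) _ fun h => h.2 ⟨k, hk, rfl⟩
  refine ⟨⋃ n, s n, fun x hx => ?_, fun i => ?_, fun τ h1 h2 q0 => ?_⟩
  · obtain ⟨n, hn⟩ := mem_iUnion.mp hx
    exact s4 n x hn
  · by_cases hi : i ∈ range f
    · obtain ⟨k, rfl⟩ := hi
      refine ((finite_Iic k).biUnion fun n _ => s1 n).subset ?_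
      rintro x ⟨hx, hx'⟩
      obtain ⟨n, hn⟩ := mem_iUnion.mp hx
      exact mem_biUnion (not_lt.mp fun hk => hx' (s5 n x hn k hk)) hn
    · refine finite_empty.subset ?_
      rintro x ⟨hx, hx'⟩
      obtain ⟨n, hn⟩ := mem_iUnion.mp hx
      exact hx' ((mem_sub Z).mp (s4 n x hn) i hi)
  · obtain ⟨q, hq, hq'⟩ := h τ h1 h2 q0
    have key : ∀ n, ∃ y ∈ Subgroup.closure (⋃ n, s n), y ∈ sub Z (range f) ∧
        ∀ k < n, y⁻¹ * q ∈ Z (f k) := by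
      intro n
      induction n with
      | zero => exact ⟨1, one_mem _, one_mem _, by simp⟩
      | succ n ih =>
        obtain ⟨y, y1, y2, y3⟩ := ih
        obtain ⟨x, hx, hx'⟩ := s3 n (y⁻¹ * q) ((mem_sub Z).mpr fun i hi => by
          by_cases h3 : i ∈ range f
          · obtain ⟨k, hk, rfl⟩ : i ∈ f '' Iio n := by_contra fun hc => hi ⟨h3, hc⟩
            exact y3 k hk
          · exact (mem_sub Z).mp (mul_mem (inv_mem y2) hq) i h3)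
        refine ⟨y * x, mul_mem y1 (Subgroup.subset_closure (mem_iUnion.mpr ⟨n, hx⟩)),
          mul_mem y2 (s4 n x hx), fun k hk => ?_⟩
        rw [mul_inv_rev, mul_assoc]
        rcases (Nat.lt_succ_iff.mp hk).lt_or_eq with hk | rfl
        · exact mul_mem (inv_mem (s5 n x hx k hk)) (y3 k hk)
        · exact hx'
    obtain ⟨n, -, hn⟩ := fin_mono (f := fun n : ℕ => f '' Iio n)
      (fun a b hab => image_mono (Iio_subset_Iio hab)) univ_nonempty h1 (fun i hi => by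
        obtain ⟨k, rfl⟩ := h2 hi
        exact mem_biUnion (mem_univ (k + 1)) ⟨k, Nat.lt_succ_self k, rfl⟩)
    obtain ⟨y, y1, -, y3⟩ := key n
    refine ⟨y, y1, ag.trans (fun i hi => ?_) hq'⟩
    obtain ⟨k, hk, rfl⟩ := hn hi
    exact y3 k hk

theorem coSW (hn : ∀ i, (Z i).Normal) (hs : ∀ g, (supp Z g).Finite) {B P : Set ι} (hB : SW Z B)
    (h : ∀ ρ : Set ι, ρ.Finite → ρ ⊆ P → ∀ q, ∃ r, ag Z ρ r q ∧ ∃ 𝒢 ⊆ {g | g ∈ sub Z B ∧ ag Z ρ g r},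
      𝒢.Pairwise (fun a b => Disjoint (supp Z a \ ρ) (supp Z b \ ρ)) ∧
      (∀ q ∈ {g | g ∈ sub Z B ∧ ag Z ρ g r}, q ∈ 𝒢 ∨
        ∃ g ∈ 𝒢, ¬ Disjoint (supp Z q \ ρ) (supp Z g \ ρ)) ∧
      (#𝒢 ≤ max #P ℵ₀ → ∀ g ∈ 𝒢, supp Z g ⊆ P)) : SW Z (B \ P) := by
  intro τ h1 h2 q0
  obtain ⟨q, hq, hq'⟩ := hB τ h1 (h2.trans sdiff_subset) q0
  obtain ⟨r, hr, 𝒢, g1, g2, g3, g4⟩ := h (supp Z q ∩ P) ((hs q).subset inter_subset_left)
    inter_subset_right q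
  by_cases hc : ∃ g, g ∈ sub Z B ∧ ag Z (supp Z q ∩ P) g r ∧
      ∀ i ∈ supp Z g \ (supp Z q ∩ P), i ∉ P ∪ τ
  · obtain ⟨g, c1, c2, c3⟩ := hc
    refine ⟨q * g⁻¹, (mem_sub Z).mpr fun i hi => ?_, fun i hi => ?_⟩
    · by_cases h3 : i ∈ B
      · have h4 : i ∈ P := by_contra fun h4 => hi ⟨h3, h4⟩
        by_cases h5 : i ∈ supp Z q
        · exact (hn i).mem_comm ((c2.trans hr) i ⟨h5, h4⟩)
        · refine mul_mem (not_not.mp h5) (inv_mem (by_contra fun h6 => ?_))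
          exact c3 i ⟨h6, fun h7 => h5 h7.1⟩ (Or.inl h4)
      · exact (mem_sub Z).mp (mul_mem hq (inv_mem c1)) i h3
    · rw [mul_inv_rev, inv_inv, mul_assoc]
      refine mul_mem (by_contra fun h6 => ?_) (hq' i hi)
      exact c3 i ⟨h6, fun h7 => (h2 hi).2 h7.2⟩ (Or.inr hi)
  · exfalso
    push Not at hc
    have h3 : #𝒢 ≤ #(P ∪ τ : Set ι) := by
      choose j j1 j2 using fun g : 𝒢 => hc g.1 (g1 g.2).1 (g1 g.2).2
      refine mk_le_of_injective (f := fun g => ⟨j g, j2 g⟩) fun a b hab => ?_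
      by_contra hne
      have e : j a = j b := congrArg Subtype.val hab
      exact disjoint_left.mp (g2 a.2 b.2 fun h => hne (Subtype.ext h)) (j1 a) (e ▸ j1 b)
    have h4 := g4 (h3.trans (un2_le (le_max_right _ _) (le_max_left _ _)
      (fin_le (le_max_right _ _) h1)))
    rcases g3 q ⟨hq, hr.symm⟩ with h5 | ⟨g, h5, h6⟩
    · obtain ⟨i, hi, -⟩ := hc q hq hr.symm
      exact hi.2 ⟨hi.1, h4 q h5 hi.1⟩
    · obtain ⟨i, i1, i2⟩ := not_disjoint_iff.mp h6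
      exact i1.2 ⟨i1.1, h4 g h5 i2.1⟩

theorem glue (hn : ∀ i, (Z i).Normal) {W : Type} {B : Set ι} (Blk : W → Set ι)
    (h1 : ∀ a, Blk a ⊆ B) (h2 : ∀ i ∈ B, ∃ a, i ∈ Blk a)
    (h3 : ∀ a b i, i ∈ Blk a → i ∈ Blk b → a = b) (h4 : ∀ a, Goal Z (Blk a)) : Goal Z B := by
  choose X x1 x2 x3 using h4
  refine ⟨⋃ a, X a, fun x hx => ?_, fun i => ?_, fun τ t1 t2 q => ?_⟩
  · obtain ⟨a, ha⟩ := mem_iUnion.mp hx
    exact (mem_sub' Z).mpr (((mem_sub' Z).mp (x1 a x ha)).trans (h1 a))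
  · by_cases hi : ∃ a, i ∈ Blk a
    · obtain ⟨a, ha⟩ := hi
      refine (x2 a i).subset ?_
      rintro x ⟨hx, hx'⟩
      obtain ⟨b, hb⟩ := mem_iUnion.mp hx
      exact ⟨h3 b a i ((mem_sub' Z).mp (x1 b x hb) hx') ha ▸ hb, hx'⟩
    · refine finite_empty.subset ?_
      rintro x ⟨hx, hx'⟩
      obtain ⟨b, hb⟩ := mem_iUnion.mp hx
      exact hi ⟨b, (mem_sub' Z).mp (x1 b x hb) hx'⟩
  · have key : ∀ σ : Set W, σ.Finite → ∀ τ : Set ι, τ.Finite → τ ⊆ ⋃ a ∈ σ, Blk a →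
        ∃ y ∈ Subgroup.closure (⋃ a, X a), y ∈ sub Z (⋃ a ∈ σ, Blk a) ∧ ag Z τ y q := by
      intro σ hσ
      induction σ, hσ using Set.Finite.induction_on with
      | empty => exact fun τ _ h => ⟨1, one_mem _, one_mem _, fun i hi => by simpa using h hi⟩
      | @insert a σ ha _ ih =>
        intro τ t1 t2
        rw [biUnion_insert] at t2 ⊢
        obtain ⟨y, y1, y2, y3⟩ := ih (τ \ Blk a) (t1.subset sdiff_subset)
          fun i hi => (t2 hi.1).resolve_left hi.2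
        obtain ⟨w, w1, w2⟩ := x3 a (τ ∩ Blk a) (t1.subset inter_subset_left) inter_subset_right q
        have w3 : w ∈ sub Z (Blk a) := (Subgroup.closure_le _).mpr (x1 a) w1
        refine ⟨y * w, mul_mem y1 (Subgroup.closure_mono (subset_iUnion X a) w1),
          mul_mem ((mem_sub' Z).mpr (((mem_sub' Z).mp y2).trans subset_union_right))
            ((mem_sub' Z).mpr (((mem_sub' Z).mp w3).trans subset_union_left)), fun i hi => ?_⟩
        by_cases hia : i ∈ Blk a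
        · have h5 : y ∈ Z i := (mem_sub Z).mp y2 i fun h => by
            obtain ⟨b, hb, hib⟩ := mem_iUnion₂.mp h
            exact ha (h3 b a i hib hia ▸ hb)
          have h6 := mul_mem ((hn i).conj_mem _ (inv_mem h5) w⁻¹) (w2 i ⟨hi, hia⟩)
          simpa [mul_assoc] using h6
        · rw [mul_inv_rev, mul_assoc]
          exact mul_mem (inv_mem ((mem_sub Z).mp w3 i hia)) (y3 i ⟨hi, hia⟩)
    choose c hc using h2
    have := t1.to_subtype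
    obtain ⟨y, y1, -, y3⟩ := key (range fun i : τ => c i.1 (t2 i.2)) (finite_range _) τ t1
      fun i hi => mem_biUnion ⟨⟨i, hi⟩, rfl⟩ (hc i (t2 hi))
    exact ⟨y, y1, y3⟩

theorem step (hn : ∀ i, (Z i).Normal) (hf : ∀ i, (Z i).FiniteIndex)
    (hs : ∀ g, (supp Z g).Finite) {B : Set ι} (hB : SW Z B) (h0 : ℵ₀ < #B)
    (ih : ∀ C : Set ι, #C < #B → SW Z C → Goal Z C) : Goal Z B := by
  let W := (#B).ord.ToType
  obtain ⟨e⟩ : Nonempty (W ≃ B) := Cardinal.eq.mp (mk_ord_toType _)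
  let μ : W → Cardinal.{0} := fun a => max #(Iio a) ℵ₀
  have μ0 : ∀ a, ℵ₀ ≤ μ a := fun a => le_max_right _ _
  have μ1 : ∀ a, μ a < #B := fun a => max_lt (mk_Iio_toType_ord_lt a) h0
  have μ2 : ∀ a b, a ≤ b → μ a ≤ μ b := fun a b h =>
    max_le_max (mk_le_mk_of_subset (Iio_subset_Iio h)) le_rfl
  choose s s1 s2 using tr2 hf
  choose 𝒢 g1 g2 g3 using fun (ρ : Set ι) (r : H) => exists_max {g | g ∈ sub Z B ∧ ag Z ρ g r}
    (fun a b => Disjoint (supp Z a \ ρ) (supp Z b \ ρ)) fun _ _ h => h.symm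
  choose S S1 S2 using fun (ρ : Set ι) (r : H) => exists_levels (W := W) (𝒢 ρ r)
  have hnx : ∀ (a : W) (P : Set ι), ∃ P' : Set ι, P ⊆ B → #P ≤ μ a → (P ⊆ P' ∧ (e a).1 ∈ P' ∧
      P' ⊆ B ∧ #P' ≤ μ a ∧ (∀ ρ : Set ι, ρ.Finite → ρ ⊆ P' → ∀ r ∈ s ρ, ∀ g ∈ S ρ r a,
        supp Z g ⊆ P') ∧ (SW Z (B \ P) → SW Z (P' \ P))) := by
    intro a P
    by_cases hP : P ⊆ B ∧ #P ≤ μ a
    · have hw : ∀ (ρ : Set ι) (r : H), ∃ w ∈ sub Z (B \ P),
          SW Z (B \ P) → ρ.Finite → ρ ⊆ B \ P → ag Z ρ w r := by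
        intro ρ r
        by_cases h : SW Z (B \ P) ∧ ρ.Finite ∧ ρ ⊆ B \ P
        · obtain ⟨w, w1, w2⟩ := h.1 ρ h.2.1 h.2.2 r
          exact ⟨w, w1, fun _ _ _ => w2⟩
        · exact ⟨1, one_mem _, fun h1 h2 h3 => absurd ⟨h1, h2, h3⟩ h⟩
      choose w w1 w2 using hw
      obtain ⟨P', p1, p2, p3, p4⟩ := clos (μ0 a) (A := P ∪ {(e a).1}) (B := B)
        (un2_le (μ0 a) hP.2 (fin_le (μ0 a) (finite_singleton _)))
        (union_subset hP.1 (singleton_subset_iff.mpr (e a).2))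
        (fun ρ => ⋃ r ∈ s ρ, (supp Z (w ρ r) ∪ ⋃ g ∈ S ρ r a, supp Z g))
        (fun ρ _ => un_le (μ0 a) (fin_le (μ0 a) (s1 ρ)) fun r _ => un2_le (μ0 a)
          (fin_le (μ0 a) (hs _)) (un_le (μ0 a) (S1 ρ r a).2 fun g _ => fin_le (μ0 a) (hs g)))
        (fun ρ => iUnion₂_subset fun r _ => union_subset
          (((mem_sub' Z).mp (w1 ρ r)).trans sdiff_subset)
          (iUnion₂_subset fun g hg => (mem_sub' Z).mp (g1 ρ r ((S1 ρ r a).1 hg)).1))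
      refine ⟨P', fun _ _ => ⟨subset_union_left.trans p1, p1 (Or.inr rfl), p2, p3,
        fun ρ r1 r2 r hr g hg i hi => p4 ρ r1 r2 (mem_biUnion hr (Or.inr (mem_biUnion hg hi))),
        fun h τ t1 t2 q => ?_⟩⟩
      obtain ⟨r, hr, hr'⟩ := s2 τ t1 q
      refine ⟨w τ r, (mem_sub' Z).mpr fun i hi => ⟨p4 τ t1 (t2.trans sdiff_subset)
        (mem_biUnion hr (Or.inl hi)), ((mem_sub' Z).mp (w1 τ r) hi).2⟩,
        (w2 τ r h t1 (t2.trans (sdiff_subset_sdiff_left p2))).trans hr'⟩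
    · exact ⟨∅, fun h1 h2 => absurd ⟨h1, h2⟩ hP⟩
  choose nxt hnxt using hnx
  let Pp : W → Set ι := (wellFounded_lt (α := W)).fix
    fun a rc => nxt a (⋃ b, ⋃ h : b < a, rc b h)
  let Pa : W → Set ι := fun a => ⋃ b ∈ Iio a, Pp b
  have hPp : ∀ a, Pp a = nxt a (Pa a) := fun a => WellFounded.fix_eq _ _ _
  have i1 : ∀ a, Pa a ⊆ B ∧ #(Pa a) ≤ μ a := by
    intro a
    induction a using WellFoundedLT.induction with
    | ind a iha =>
      refine ⟨iUnion₂_subset fun b hb => ?_, un_le (μ0 a) (le_max_left _ _) fun b hb => ?_⟩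
      · rw [hPp]; exact (hnxt b _ (iha b hb).1 (iha b hb).2).2.2.1
      · rw [hPp]; exact (hnxt b _ (iha b hb).1 (iha b hb).2).2.2.2.1.trans (μ2 b a (le_of_lt hb))
  have i2 := fun a => hnxt a _ (i1 a).1 (i1 a).2
  simp only [← hPp] at i2
  have i3 : ∀ a b, b < a → Pp b ⊆ Pa a := fun a b h => subset_biUnion_of_mem (u := Pp) h
  have i4 : Monotone Pp := monotone_iff_forall_lt.mpr fun b a h => (i3 a b h).trans (i2 a).1
  have i5 : ∀ a, SW Z (B \ Pa a) := by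
    intro a
    rcases (Iio a).eq_empty_or_nonempty with h | h
    · have : Pa a = ∅ := by simp only [Pa, h, biUnion_empty]
      rw [this, sdiff_empty]; exact hB
    · refine coSW hn hs hB fun ρ r1 r2 q => ?_
      obtain ⟨r, hr, hr'⟩ := s2 ρ r1 q
      refine ⟨r, hr', 𝒢 ρ r, g1 ρ r, g2 ρ r, g3 ρ r, fun hc g hg => ?_⟩
      obtain ⟨b, hb, hρ⟩ := fin_mono i4 h r1 r2
      obtain ⟨c, c1, c2, c3⟩ := S2 ρ r a b hb (hc.trans (max_le (i1 a).2 (μ0 a))) g hg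
      exact ((i2 c).2.2.2.2.1 ρ r1 (hρ.trans (i4 c1)) r hr g c3).trans (i3 a c c2)
  refine glue hn (fun a => Pp a \ Pa a) (fun a => sdiff_subset.trans (i2 a).2.2.1) (fun i hi => ?_)
    (fun a b i ha hb => ?_) fun a => ih _ (((mk_le_mk_of_subset sdiff_subset).trans
      (i2 a).2.2.2.1).trans_lt (μ1 a)) ((i2 a).2.2.2.2.2 (i5 a))
  · obtain ⟨a, ha, hmin⟩ := wellFounded_lt.has_min {a : W | i ∈ Pp a}
      ⟨e.symm ⟨i, hi⟩, by simpa using (i2 (e.symm ⟨i, hi⟩)).2.1⟩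
    refine ⟨a, ha, fun h => ?_⟩
    obtain ⟨b, hb, hb'⟩ := mem_iUnion₂.mp h
    exact hmin b hb' hb
  · rcases lt_trichotomy a b with h | h | h
    · exact absurd (i3 b a h ha.1) hb.2
    · exact h
    · exact absurd (i3 a b h hb.1) ha.2

theorem dense (hn : ∀ i, (Z i).Normal) (hf : ∀ i, (Z i).FiniteIndex)
    (hs : ∀ g, (supp Z g).Finite) : ∃ X : Set H, (∀ i, {x | x ∈ X ∧ x ∉ Z i}.Finite) ∧
      ∀ τ : Set ι, τ.Finite → ∀ q, ∃ y ∈ Subgroup.closure X, ag Z τ y q := by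
  have key : ∀ (κ : Cardinal.{0}) (B : Set ι), #B = κ → SW Z B → Goal Z B := by
    intro κ
    induction κ using WellFoundedLT.induction with
    | ind κ ih =>
      rintro B rfl hB
      rcases le_or_gt #B ℵ₀ with h | h
      · exact base hf (le_aleph0_iff_set_countable.mp h) hB
      · exact step hn hf hs hB h fun C hC => ih _ hC C rfl
  obtain ⟨X, -, h2, h3⟩ := key _ univ rfl fun τ _ _ q =>
    ⟨q, (mem_sub Z).mpr fun i hi => (hi trivial).elim, fun i _ => by simp⟩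
  exact ⟨X, h2, fun τ h => h3 τ h (subset_univ _)⟩

end Pool.Agent.H73.Dense
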