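import Mathlib

set_option autoImplicit false

namespace Pool.Agent.H73.Dir

open Function Subgroup

lemma fg_le {C : Type} [i : Group C] (hc : ∀ a b : C, a * b = b * a) {A B : Subgroup C}
    (h : A ≤ B) (hB : B.FG) : A.FG := by
  letI : CommGroup C := { i with mul_comm := hc }
  rw [Subgroup.fg_iff_add_fg] at *
  rw [← AddSubgroup.toIntSubmodule_toAddSubgroup (Subgroup.toAddSubgroup B),
    ← Submodule.fg_iff_addSubgroup_fg] at hB
  rw [← AddSubgroup.toIntSubmodule_toAddSubgroup (Subgroup.toAddSubgroup A),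
    ← Submodule.fg_iff_addSubgroup_fg]
  exact Submodule.FG.of_le hB h

lemma fg_le_center {G : Type} [Group G] {A B : Subgroup G} (h : A ≤ B) (hB : B.FG)
    (hc : B ≤ center G) : Group.FG A := by
  have h1 := (Group.fg_iff_subgroup_fg B).mpr hB
  have h2 : Group.FG (B.subgroupOf (center G)) := Group.fg_of_surjective
    (f := (subgroupOfEquivOfLe hc).symm.toMonoidHom) (subgroupOfEquivOfLe hc).symm.surjective
  have h3 := (Group.fg_iff_subgroup_fg _).mpr (fg_le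
    (fun a b => Subtype.ext (mem_center_iff.mp b.2 a)) (A := A.subgroupOf (center G))
    (B := B.subgroupOf (center G)) (fun x hx => h hx) ((Group.fg_iff_subgroup_fg _).mp h2))
  exact Group.fg_of_surjective (f := (subgroupOfEquivOfLe (h.trans hc)).toMonoidHom)
    (subgroupOfEquivOfLe (h.trans hc)).surjective

lemma fn_nil {G : Type} [Group G] [hG : Group.FG G] (H : Type) [Group H] [Group.IsNilpotent H] :
    ∀ φ : G →* H, φ.ker.IsFinitelyNormallyGenerated := by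
  obtain ⟨X, hX, hXf⟩ := Group.fg_iff.mp hG
  refine Group.nilpotent_center_quotient_ind
    (P := fun H _ _ => ∀ φ : G →* H, φ.ker.IsFinitelyNormallyGenerated) H ?_ ?_
  · intro H _ _ φ
    refine ⟨X, hXf, ?_⟩
    rw [show φ.ker = ⊤ from eq_top_iff.mpr fun _ _ => Subsingleton.elim _ _, eq_top_iff, ← hX]
    exact closure_le_normalClosure
  · intro H _ _ ih φ
    obtain ⟨s, hs, e⟩ := ih ((QuotientGroup.mk' (center H)).comp φ)
    set L := normalClosure (Set.image2 (fun x y => x * y * x⁻¹ * y⁻¹) X s) with hL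
    have h1 : L ≤ φ.ker := by
      apply normalClosure_le_normal
      rintro _ ⟨x, -, y, hy, rfl⟩
      have : y ∈ normalClosure s := subset_normalClosure hy
      rw [e, MonoidHom.mem_ker, MonoidHom.comp_apply, QuotientGroup.mk'_apply,
        QuotientGroup.eq_one_iff, mem_center_iff] at this
      show _ ∈ φ.ker
      rw [MonoidHom.mem_ker, map_mul, map_mul, map_mul, this]
      simp
    have h2 : closure (QuotientGroup.mk' L '' s) ≤ center (G ⧸ L) := by
      rw [closure_le]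
      rintro _ ⟨y, hy, rfl⟩
      rw [SetLike.mem_coe, mem_center_iff]
      intro q
      obtain ⟨g, rfl⟩ := QuotientGroup.mk'_surjective L q
      have : g ∈ (centralizer {QuotientGroup.mk' L y}).comap (QuotientGroup.mk' L) := by
        have : g ∈ closure X := by rw [hX]; trivial
        refine (closure_le _).mpr (fun x hx => ?_) this
        rw [SetLike.mem_coe, mem_comap, mem_centralizer_singleton_iff]
        have : x * y * x⁻¹ * y⁻¹ ∈ L := subset_normalClosure ⟨x, hx, y, hy, rfl⟩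
        rw [← QuotientGroup.eq_one_iff, QuotientGroup.mk_mul, QuotientGroup.mk_mul,
          QuotientGroup.mk_mul, QuotientGroup.mk_inv, QuotientGroup.mk_inv, mul_inv_eq_one,
          mul_inv_eq_iff_eq_mul] at this
        exact this
      exact mem_centralizer_singleton_iff.mp this
    have h3 : φ.ker.map (QuotientGroup.mk' L) ≤ closure (QuotientGroup.mk' L '' s) := by
      rw [map_le_iff_le_comap]
      have : (closure (QuotientGroup.mk' L '' s)).Normal := ⟨fun n hn g => by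
        rw [mem_center_iff.mp (h2 hn) g]; simpa using hn⟩
      refine le_trans ?_ (normalClosure_le_normal (s := s) fun y hy => subset_closure ⟨y, hy, rfl⟩)
      rw [e]
      intro x hx
      rw [MonoidHom.mem_ker] at hx ⊢
      rw [MonoidHom.comp_apply, hx, map_one]
    have := fg_le_center h3 ((fg_iff _).mpr ⟨_, rfl, hs.image _⟩) h2
    have hn : (φ.ker.map (QuotientGroup.mk' L)).Normal :=
      Normal.map inferInstance _ (QuotientGroup.mk'_surjective L)
    have := (IsFinitelyNormallyGenerated.of_FG (φ.ker.map (QuotientGroup.mk' L))).comap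
      (QuotientGroup.mk'_surjective L) ⟨_, hXf.image2 _ hs, (QuotientGroup.ker_mk' L).symm⟩
    rwa [comap_map_eq_self (by rwa [QuotientGroup.ker_mk'])] at this

lemma fn_vn {G H : Type} [Group G] [Group.FG G] [Group H] (h : Group.IsVirtuallyNilpotent H)
    (φ : G →* H) (hφ : Surjective φ) : φ.ker.IsFinitelyNormallyGenerated := by
  obtain ⟨N, _, hN⟩ := h
  have : (N.comap φ).FiniteIndex := ⟨by rw [index_comap_of_surjective _ hφ]; exact hN.1⟩
  obtain ⟨s, hs, e⟩ := fn_nil N ((φ.comp (N.comap φ).subtype).codRestrict N (fun x => x.2))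
  refine ⟨(N.comap φ).subtype '' s, hs.image _, le_antisymm (normalClosure_le_normal ?_) ?_⟩
  · rintro _ ⟨x, hx, rfl⟩
    have : x ∈ normalClosure s := subset_normalClosure hx
    rw [e] at this
    exact congrArg Subtype.val this
  · intro x hx
    have : (⟨x, by rw [mem_comap, hx]; exact one_mem _⟩ : N.comap φ) ∈ normalClosure s := by
      rw [e]; exact Subtype.ext hx
    exact normalClosure_le_normal (N := (normalClosure ((N.comap φ).subtype '' s)).comap
      (N.comap φ).subtype) (fun y hy => subset_normalClosure ⟨y, hy, rfl⟩) this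

lemma vn_map {G H : Type} [Group G] [Group H] (φ : G →* H) (hφ : Surjective φ) (N : Subgroup G)
    [N.FiniteIndex] (c : ℕ) (h : N.lowerCentralSeries c ≤ φ.ker) :
    Group.IsVirtuallyNilpotent H := by
  refine ⟨N.map φ, (isNilpotent_iff_lowerCentralSeries _).mpr ⟨c, ?_⟩, ⟨fun e => ?_⟩⟩
  · rwa [← map_lowerCentralSeries, Subgroup.map_eq_bot_iff]
  · have := N.index_map_dvd hφ
    rw [e, zero_dvd_iff] at this
    exact FiniteIndex.index_ne_zero this

section adh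
variable {F : Type} {Φ Ψ : Set (Set F)} {K : Set F}

def Adh (Φ : Set (Set F)) (K : Set F) : Prop :=
  ∀ W : Set F, W.Finite → ∃ L ∈ Φ, ∀ w ∈ W, (w ∈ L ↔ w ∈ K)

lemma adh_self (h : K ∈ Φ) : Adh Φ K := fun _ _ => ⟨K, h, fun _ _ => Iff.rfl⟩

lemma adh_trans (h : ∀ L ∈ Ψ, Adh Φ L) (hK : Adh Ψ K) : Adh Φ K := fun W hW => by
  obtain ⟨L, h1, h2⟩ := hK W hW
  obtain ⟨M, h3, h4⟩ := h L h1 W hW
  exact ⟨M, h3, fun w hw => (h4 w hw).trans (h2 w hw)⟩

lemma adh_lift (hK : Adh Φ K) (h : ∀ L ∈ Φ, ∃ L' ∈ Ψ, L' ⊆ L) : ∃ K' ⊆ K, Adh Ψ K' := by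
  choose L h1 h2 using fun W : Finset F => hK W W.finite_toSet
  choose M h3 h4 using fun W => h _ (h1 W)
  let U := Ultrafilter.of (Filter.atTop : Filter (Finset F))
  refine ⟨{w | ∀ᶠ W in U, w ∈ M W}, fun w hw => ?_, fun W hW => ?_⟩
  · have : ∀ᶠ W : Finset F in U, w ∈ W := Ultrafilter.of_le _
      ((Filter.eventually_ge_atTop ({w} : Finset F)).mono fun W h => h (Finset.mem_singleton_self w))
    obtain ⟨W, e1, e2⟩ := (this.and hw).exists
    exact (h2 W w e1).mp (h4 W e2)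
  · have : ∀ w ∈ W, ∀ᶠ V in U, (w ∈ M V ↔ w ∈ {w | ∀ᶠ W in U, w ∈ M W}) := by
      intro w _
      by_cases c : ∀ᶠ V in U, w ∈ M V
      · filter_upwards [c] with V hV using iff_of_true hV c
      · filter_upwards [Ultrafilter.eventually_not.mpr c] with V hV using iff_of_false hV c
    obtain ⟨V, hV⟩ := ((Filter.eventually_all_finite hW).mpr this).exists
    exact ⟨M V, h3 V, hV⟩

lemma adh_min (h : K ∈ Φ) : ∃ M, Minimal (fun K => Adh Φ K) M := by
  refine (zorn_superset_nonempty {K | Adh Φ K} (fun c hc h1 h2 => ?_) K (adh_self h)).imp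
    fun _ h => h.2
  refine ⟨⋂₀ c, adh_trans (Ψ := c) hc fun W hW => ?_, fun s hs => Set.sInter_subset_of_mem hs⟩
  induction W, hW using Set.Finite.induction_on with
  | empty => exact h2.imp fun _ h => ⟨h, by simp⟩
  | @insert a W _ _ ih =>
    obtain ⟨L, e1, e2⟩ := ih
    by_cases k : a ∈ L ↔ a ∈ ⋂₀ c
    · exact ⟨L, e1, by simpa [k] using e2⟩
    · have k1 : a ∈ L ∧ a ∉ ⋂₀ c := by
        have : a ∈ ⋂₀ c → a ∈ L := fun h => h L e1
        tauto
      obtain ⟨M, m1, m2⟩ : ∃ M ∈ c, a ∉ M := by simpa using k1.2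
      have : M ⊆ L := (h1.total m1 e1).resolve_right fun h => m2 (h k1.1)
      refine ⟨M, m1, ?_⟩
      rintro w (rfl | hw)
      · exact iff_of_false m2 k1.2
      · exact ⟨fun h => (e2 w hw).mp (this h), fun h => h M m1⟩

lemma adh_both (hK : Minimal (fun K => Adh Φ K) K) (h : ∀ L ∈ Φ, ∃ L' ∈ Ψ, L' ⊆ L)
    (h' : ∀ L ∈ Ψ, Adh Φ L) : Adh Ψ K := by
  obtain ⟨K', h1, h2⟩ := adh_lift hK.1 h
  rwa [hK.eq_of_superset (adh_trans h' h2) h1]

end adh

def Gen (ι G : Type) [Group G] : Set (Set (FreeGroup ι)) :=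
  {L | ∃ φ : FreeGroup ι →* G, Surjective φ ∧ L = φ.ker}

def Pr (G H : Type) [Group G] [Group H] : Prop :=
  ∃ (ι : Type) (_ : Finite ι) (φ : FreeGroup ι →* H), Surjective φ ∧ Adh (Gen ι G) φ.ker

variable {G H U : Type} [Group G] [Group H] [Group U]

lemma adh_sub {ι : Type} {K : Set (FreeGroup ι)} (h : Adh (Gen ι G) K) :
    ∃ N : Subgroup (FreeGroup ι), N.Normal ∧ (N : Set _) = K := by
  refine ⟨⟨⟨⟨K, fun {a b} ha hb => ?_⟩, ?_⟩, fun {a} ha => ?_⟩, ⟨fun a ha g => ?_⟩, rfl⟩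
  · obtain ⟨_, ⟨φ, -, rfl⟩, e⟩ := h {a, b, a * b} (Set.toFinite _)
    exact (e _ (by simp)).mp (mul_mem ((e a (by simp)).mpr ha) ((e b (by simp)).mpr hb))
  · obtain ⟨_, ⟨φ, -, rfl⟩, e⟩ := h {1} (Set.toFinite _)
    exact (e _ (by simp)).mp (one_mem _)
  · obtain ⟨_, ⟨φ, -, rfl⟩, e⟩ := h {a, a⁻¹} (Set.toFinite _)
    exact (e _ (by simp)).mp (inv_mem ((e a (by simp)).mpr ha))
  · obtain ⟨_, ⟨φ, -, rfl⟩, e⟩ := h {a, g * a * g⁻¹} (Set.toFinite _)
    exact (e _ (by simp)).mp ((MonoidHom.normal_ker φ).conj_mem _ ((e a (by simp)).mpr ha) g)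

lemma ex_lift {ι κ : Type} (φ : FreeGroup κ →* H) (hφ : Surjective φ) (ψ : FreeGroup ι →* H) :
    ∃ u : FreeGroup ι →* FreeGroup κ, ∀ w, φ (u w) = ψ w := by
  choose f hf using fun i => hφ (ψ (FreeGroup.of i))
  exact ⟨FreeGroup.lift f, DFunLike.congr_fun (f := φ.comp (FreeGroup.lift f))
    (FreeGroup.ext_hom _ _ (by simpa using hf))⟩

lemma surj_of {ι : Type} {A : Type} [Group A] (φ : A →* FreeGroup ι) {χ : FreeGroup ι →* G}
    (hχ : Surjective χ) (h : ∀ i, χ (FreeGroup.of i) ∈ (χ.comp φ).range) :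
    Surjective (χ.comp φ) := by
  rw [← MonoidHom.range_eq_top, eq_top_iff, ← MonoidHom.range_eq_top.mpr hχ,
    MonoidHom.range_eq_map, map_le_iff_le_comap, ← FreeGroup.closure_range_of, closure_le]
  rintro _ ⟨i, rfl⟩
  exact h i

lemma Pr.indep (h : Pr G H) {ι : Type} (ψ : FreeGroup ι →* H) (hψ : Surjective ψ) :
    Adh (Gen ι G) ψ.ker := by
  obtain ⟨κ, _, φ, hφ, h⟩ := h
  obtain ⟨u, hu⟩ := ex_lift φ hφ ψ
  obtain ⟨v, hv⟩ := ex_lift ψ hψ φ
  intro W hW
  obtain ⟨_, ⟨χ, hχ, rfl⟩, e⟩ := h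
    (u '' W ∪ Set.range fun i => u (v (FreeGroup.of i)) * (FreeGroup.of i)⁻¹)
    ((hW.image _).union (Set.finite_range _))
  refine ⟨_, ⟨χ.comp u, surj_of u hχ fun i => ⟨v (FreeGroup.of i), ?_⟩, rfl⟩, fun w hw => ?_⟩
  · have := (e _ (Or.inr ⟨i, rfl⟩)).mpr (by simp [hu, hv])
    simpa [mul_inv_eq_one] using this
  · simpa [hu] using e _ (Or.inl ⟨w, hw, rfl⟩)

lemma Pr.trans (h : Pr G H) (h' : Pr H U) : Pr G U := by
  obtain ⟨ι, _, φ, hφ, h'⟩ := h'
  refine ⟨ι, inferInstance, φ, hφ, adh_trans ?_ h'⟩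
  rintro _ ⟨ψ, hψ, rfl⟩
  exact h.indep ψ hψ

lemma Pr.refl [hG : Group.FG G] : Pr G G := by
  obtain ⟨X, hX, hXf⟩ := Group.fg_iff.mp hG
  have : Surjective (FreeGroup.lift (Subtype.val : X → G)) := by
    rwa [FreeGroup.lift_surjective_iff_closure_range_eq_top, Subtype.range_coe]
  exact ⟨X, hXf.to_subtype, _, this, adh_self ⟨_, this, rfl⟩⟩

lemma Pr.fg (h : Pr G H) : Group.FG G ∧ Group.FG H := by
  obtain ⟨ι, _, φ, hφ, h⟩ := h
  obtain ⟨_, ⟨χ, hχ, rfl⟩, -⟩ := h ∅ Set.finite_empty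
  exact ⟨Group.fg_of_surjective hχ, Group.fg_of_surjective hφ⟩

lemma Pr.surj (h : Pr G H) (hH : Group.IsVirtuallyNilpotent H) : ∃ π : H →* G, Surjective π := by
  obtain ⟨ι, _, φ, hφ, h⟩ := h
  obtain ⟨s, hs, e⟩ := fn_vn hH φ hφ
  obtain ⟨_, ⟨χ, hχ, rfl⟩, k⟩ := h s hs
  have : φ.ker ≤ χ.ker := by
    rw [← e]
    exact normalClosure_le_normal fun w hw => (k w hw).mpr (e ▸ subset_normalClosure hw)
  refine ⟨φ.liftOfSurjective hφ ⟨χ, this⟩, fun g => ?_⟩
  obtain ⟨w, rfl⟩ := hχ g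
  exact ⟨φ w, by simp⟩

lemma Pr.down (h : Pr G H) (hH : Group.IsVirtuallyNilpotent H) : Group.IsVirtuallyNilpotent G := by
  obtain ⟨π, hπ⟩ := h.surj hH
  obtain ⟨N, hN, _⟩ := hH
  obtain ⟨c, hc⟩ := (isNilpotent_iff_lowerCentralSeries _).mp hN
  exact vn_map π hπ N c (hc ▸ bot_le)

lemma Pr.up (h : Pr G H) (hG : Group.IsVirtuallyNilpotent G) : Group.IsVirtuallyNilpotent H := by
  obtain ⟨ι, _, φ, hφ, h⟩ := h
  obtain ⟨N, hN, _⟩ := hG
  obtain ⟨c, hc⟩ := (isNilpotent_iff_lowerCentralSeries _).mp hN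
  obtain ⟨τ, hτ⟩ : ∃ τ : ι → G ⧸ N.normalCore, ∀ W : Set (FreeGroup ι), W.Finite →
      ∃ χ : FreeGroup ι →* G, (∀ i, (χ (FreeGroup.of i) : G ⧸ N.normalCore) = τ i) ∧
        ∀ w ∈ W, (w ∈ χ.ker ↔ w ∈ φ.ker) := by
    by_contra k
    push Not at k
    choose W h1 h2 using k
    obtain ⟨_, ⟨χ, -, rfl⟩, e⟩ := h (⋃ τ, W τ) (Set.finite_iUnion h1)
    obtain ⟨w, hw, k⟩ := h2 _ χ (fun _ => rfl)
    have := e w (Set.mem_iUnion.mpr ⟨_, hw⟩)
    simp only [SetLike.mem_coe] at this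
    tauto
  refine vn_map φ hφ (FreeGroup.lift τ).ker c fun w hw => ?_
  obtain ⟨χ, h1, h2⟩ := hτ {w} (Set.finite_singleton w)
  refine (h2 w rfl).mp ?_
  have := mem_map_of_mem χ hw
  rw [map_lowerCentralSeries] at this
  have k : (FreeGroup.lift τ).ker.map χ ≤ N := by
    rintro _ ⟨x, hx, rfl⟩
    have : FreeGroup.lift τ = (QuotientGroup.mk' _).comp χ :=
      FreeGroup.ext_hom _ _ (by simpa using fun i => (h1 i).symm)
    rw [this] at hx
    exact N.normalCore_le ((QuotientGroup.eq_one_iff _).mp hx)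
  have := lowerCentralSeries_mono c k this
  simp only [hc] at this
  exact this

def Rel {ι : Type} (φ ψ : FreeGroup ι →* G) : Prop :=
  ∃ θ : FreeGroup ι →* FreeGroup ι, Surjective θ ∧ φ.comp θ = ψ

lemma Rel.trans {ι : Type} {φ ψ χ : FreeGroup ι →* G} (h : Rel φ ψ) (h' : Rel ψ χ) : Rel φ χ := by
  obtain ⟨θ, h1, rfl⟩ := h
  obtain ⟨η, h2, rfl⟩ := h'
  exact ⟨θ.comp η, h1.comp h2, rfl⟩

lemma niel {ι κ : Type} (e : κ → ι) {φ ψ : FreeGroup ι →* G}
    (h : Surjective (φ.comp (FreeGroup.map e))) (he : φ.comp (FreeGroup.map e) = ψ.comp (FreeGroup.map e)) :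
    Rel φ ψ := by
  classical
  choose u hu using fun i => h ((φ (FreeGroup.of i))⁻¹ * ψ (FreeGroup.of i))
  set θ := FreeGroup.lift fun i => if i ∈ Set.range e then FreeGroup.of i else
    FreeGroup.of i * FreeGroup.map e (u i) with hθ
  have h1 : θ.comp (FreeGroup.map e) = FreeGroup.map e := FreeGroup.ext_hom _ _ (by simp [hθ])
  refine ⟨θ, surj_of θ (χ := MonoidHom.id _) surjective_id fun i => ?_,
    FreeGroup.ext_hom _ _ fun i => ?_⟩
  · by_cases c : i ∈ Set.range e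
    · exact ⟨FreeGroup.of i, by simp only [hθ, MonoidHom.comp_apply, FreeGroup.lift_apply_of, c, if_true]⟩
    · refine ⟨FreeGroup.of i * (FreeGroup.map e (u i))⁻¹, ?_⟩
      have := DFunLike.congr_fun h1 (u i)
      rw [MonoidHom.comp_apply] at this
      rw [MonoidHom.id_comp, map_mul, map_inv, this, hθ, FreeGroup.lift_apply_of, if_neg c]
      simp
  · rw [MonoidHom.comp_apply, hθ, FreeGroup.lift_apply_of]
    split_ifs with c
    · obtain ⟨k, rfl⟩ := c
      simpa using DFunLike.congr_fun he (FreeGroup.of k)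
    · have := hu i
      rw [MonoidHom.comp_apply] at this
      rw [map_mul, this, mul_inv_cancel_left]

variable {α β : Type}

def rl (α β : Type) : FreeGroup (α ⊕ β) →* FreeGroup α :=
  FreeGroup.lift (Sum.elim FreeGroup.of fun _ => 1)

def rr (α β : Type) : FreeGroup (α ⊕ β) →* FreeGroup β :=
  FreeGroup.lift (Sum.elim (fun _ => 1) FreeGroup.of)

lemma rl_map (χ : FreeGroup α →* G) : (χ.comp (rl α β)).comp (FreeGroup.map Sum.inl) = χ :=
  FreeGroup.ext_hom _ _ (by simp [rl])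

lemma rr_map (χ : FreeGroup β →* G) : (χ.comp (rr α β)).comp (FreeGroup.map Sum.inr) = χ :=
  FreeGroup.ext_hom _ _ (by simp [rr])

lemma rel_lr {χ : FreeGroup α →* G} {χ' : FreeGroup β →* G} (h : Surjective χ)
    (h' : Surjective χ') :
    Rel (χ.comp (rl α β)) (χ'.comp (rr α β)) ∧ Rel (χ'.comp (rr α β)) (χ.comp (rl α β)) := by
  set m := FreeGroup.lift (Sum.elim (fun a => χ (FreeGroup.of a)) fun b => χ' (FreeGroup.of b))
    with hm
  have h1 : m.comp (FreeGroup.map Sum.inl) = χ := FreeGroup.ext_hom _ _ (by simp [hm])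
  have h2 : m.comp (FreeGroup.map Sum.inr) = χ' := FreeGroup.ext_hom _ _ (by simp [hm])
  exact ⟨(niel (ψ := m) Sum.inl (by rwa [rl_map]) (by rw [rl_map, h1])).trans
      (niel Sum.inr (by rwa [h2]) (by rw [rr_map, h2])),
    (niel (ψ := m) Sum.inr (by rwa [rr_map]) (by rw [rr_map, h2])).trans
      (niel Sum.inl (by rwa [h1]) (by rw [rl_map, h1]))⟩

lemma side {ι κ C A : Type} [Group C] [Group A] [Finite ι] (r : FreeGroup ι →* FreeGroup κ)
    (hr : Surjective r) (x : FreeGroup ι →* C)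
    (hx : ∀ χ : FreeGroup κ →* C, Surjective χ → Rel x (χ.comp r) ∧ Rel (χ.comp r) x)
    (a : FreeGroup κ →* A) (ha : Surjective a) (h : Adh (Gen κ C) a.ker) (π : A →* C)
    (hπ : Surjective π) (N : Subgroup (FreeGroup ι)) [N.Normal]
    (hN : Minimal (fun K => Adh {L | ∃ φ, Rel x φ ∧ L = φ.ker} K) (N : Set (FreeGroup ι))) :
    Pr A (FreeGroup ι ⧸ N) := by
  refine ⟨ι, inferInstance, QuotientGroup.mk' N, QuotientGroup.mk'_surjective N, ?_⟩
  rw [QuotientGroup.ker_mk']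
  refine adh_trans (Ψ := {L | ∃ φ, Rel (a.comp r) φ ∧ L = φ.ker}) ?_ (adh_both hN ?_ ?_)
  · rintro _ ⟨_, ⟨θ, hθ, rfl⟩, rfl⟩
    exact adh_self ⟨_, (ha.comp hr).comp hθ, rfl⟩
  · rintro _ ⟨φ, hφ, rfl⟩
    obtain ⟨θ, hθ, rfl⟩ := (hx (π.comp a) (hπ.comp ha)).2.trans hφ
    refine ⟨_, ⟨_, ⟨θ, hθ, rfl⟩, rfl⟩, fun w hw => ?_⟩
    have : a (r (θ w)) = 1 := hw
    show π (a (r (θ w))) = 1
    rw [this, map_one]
  · rintro _ ⟨_, ⟨θ, hθ, rfl⟩, rfl⟩ W hW
    obtain ⟨_, ⟨χ, hχ, rfl⟩, e⟩ := h ((r.comp θ) '' W) (hW.image _)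
    exact ⟨_, ⟨_, (hx χ hχ).1.trans ⟨θ, hθ, rfl⟩, rfl⟩, fun w hw => e _ ⟨w, hw, rfl⟩⟩

lemma diamond {C A B : Type} [Group C] [Group A] [Group B] (h1 : Pr C A) (h2 : Pr C B)
    (πA : A →* C) (hA : Surjective πA) (πB : B →* C) (hB : Surjective πB) :
    ∃ U : GrpCat.{0}, Pr A U ∧ Pr B U := by
  obtain ⟨α, _, a, ha, h1⟩ := h1
  obtain ⟨β, _, b, hb, h2⟩ := h2
  have sl : Surjective (rl α β) := by
    apply Surjective.of_comp (g := FreeGroup.map Sum.inl)
    have := rl_map (β := β) (MonoidHom.id (FreeGroup α))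
    exact fun w => ⟨w, DFunLike.congr_fun this w⟩
  have sr : Surjective (rr α β) := by
    apply Surjective.of_comp (g := FreeGroup.map Sum.inr)
    have := rr_map (α := α) (MonoidHom.id (FreeGroup β))
    exact fun w => ⟨w, DFunLike.congr_fun this w⟩
  have pa : Surjective (πA.comp a) := hA.comp ha
  have pb : Surjective (πB.comp b) := hB.comp hb
  obtain ⟨M, hM⟩ := adh_min (F := FreeGroup (α ⊕ β))
    (Φ := {L | ∃ φ, Rel ((πA.comp a).comp (rl α β)) φ ∧ L = φ.ker})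
    (K := ((πA.comp a).comp (rl α β)).ker) ⟨_, ⟨MonoidHom.id _, surjective_id, rfl⟩, rfl⟩
  obtain ⟨N, _, rfl⟩ := adh_sub (G := C) (adh_trans (by
    rintro _ ⟨_, ⟨θ, hθ, rfl⟩, rfl⟩
    exact adh_self ⟨_, (pa.comp sl).comp hθ, rfl⟩) hM.1)
  exact ⟨GrpCat.of (FreeGroup (α ⊕ β) ⧸ N),
    side _ sl _ (fun χ hχ => ⟨(rel_lr pa pb).1.trans (rel_lr hχ pb).2,
      (rel_lr hχ pb).1.trans (rel_lr pa pb).2⟩) a ha h1 πA hA N hM,
    side _ sr _ (fun χ hχ => rel_lr pa hχ) b hb h2 πB hB N hM⟩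

def VN (G : GrpCat.{0}) : Prop := Group.FG G ∧ Group.IsVirtuallyNilpotent G

lemma cr {A B : GrpCat.{0}} (h : Relation.EqvGen (fun G H : GrpCat.{0} => Pr G H) A B) :
    (VN A ↔ VN B) ∧ (VN A → ∃ U : GrpCat.{0}, Pr A U ∧ Pr B U) := by
  induction h with
  | rel A B h =>
    have := h.fg.2
    exact ⟨⟨fun k => ⟨h.fg.2, h.up k.2⟩, fun k => ⟨h.fg.1, h.down k.2⟩⟩, fun _ => ⟨B, h, Pr.refl⟩⟩
  | refl A => exact ⟨Iff.rfl, fun k => have := k.1; ⟨A, Pr.refl, Pr.refl⟩⟩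
  | symm A B _ ih => exact ⟨ih.1.symm, fun k => (ih.2 (ih.1.mpr k)).imp fun _ h => h.symm⟩
  | trans A B C _ _ i1 i2 =>
    refine ⟨i1.1.trans i2.1, fun k => ?_⟩
    have kB := i1.1.mp k
    obtain ⟨U, u1, u2⟩ := i1.2 k
    obtain ⟨V, v1, v2⟩ := i2.2 kB
    obtain ⟨πU, hU⟩ := u2.surj (u2.up kB.2)
    obtain ⟨πV, hV⟩ := v1.surj (v1.up kB.2)
    obtain ⟨W, w1, w2⟩ := diamond u2 v1 πU hU πV hV
    exact ⟨W, u1.trans w1, v2.trans w2⟩

lemma directed {V : GrpCat.{0}} (hV : VN V) (F : Set GrpCat.{0}) (hF : F.Finite)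
    (h : ∀ A ∈ F, Relation.EqvGen (fun G H : GrpCat.{0} => Pr G H) V A) :
    ∃ U : GrpCat.{0}, Relation.EqvGen (fun G H : GrpCat.{0} => Pr G H) V U ∧ ∀ A ∈ F, Pr A U := by
  induction F, hF using Set.Finite.induction_on with
  | empty => exact ⟨V, .refl _, by simp⟩
  | @insert A F _ _ ih =>
    obtain ⟨U, u1, u2⟩ := ih fun B hB => h B (Or.inr hB)
    obtain ⟨W, w1, w2⟩ := (cr ((u1.symm _ _).trans _ _ _ (h A (Or.inl rfl)))).2 ((cr u1).1.mp hV)
    refine ⟨W, u1.trans _ _ _ (.rel _ _ w1), ?_⟩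
    rintro B (rfl | hB)
    · exact w2
    · exact (u2 B hB).trans w1

lemma pr_iff : (∃ (k : ℕ) (T : Fin k → H) (S : ℕ → Fin k → G),
    closure (Set.range T) = ⊤ ∧ (∀ n, closure (Set.range (S n)) = ⊤) ∧
    ∀ R : ℕ, ∀ᶠ n in Filter.atTop, ∀ w : List (Fin k × Bool), w.length ≤ R →
      (FreeGroup.lift (S n) (FreeGroup.mk w) = 1 ↔ FreeGroup.lift T (FreeGroup.mk w) = 1)) ↔
    Pr G H := by
  constructor
  · rintro ⟨k, T, S, h1, h2, h3⟩
    refine ⟨Fin k, inferInstance, FreeGroup.lift T,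
      FreeGroup.lift_surjective_iff_closure_range_eq_top.mpr h1, fun W hW => ?_⟩
    obtain ⟨R, hR⟩ := (hW.image fun w => w.toWord.length).bddAbove
    obtain ⟨n, hn⟩ := (h3 R).exists
    refine ⟨_, ⟨FreeGroup.lift (S n),
      FreeGroup.lift_surjective_iff_closure_range_eq_top.mpr (h2 n), rfl⟩, fun w hw => ?_⟩
    have := hn w.toWord (hR ⟨w, hw, rfl⟩)
    rwa [FreeGroup.mk_toWord] at this
  · intro h
    obtain ⟨s, hs⟩ := h.fg.2.out
    have hT : closure (Set.range fun i => (s.equivFin.symm i : H)) = ⊤ := by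
      rw [← hs]
      congr 1
      exact (s.equivFin.symm.surjective.range_comp Subtype.val).trans Subtype.range_coe
    have := fun n => h.indep _ (FreeGroup.lift_surjective_iff_closure_range_eq_top.mpr hT)
      (FreeGroup.mk '' {w | w.length ≤ n}) ((List.finite_length_le _ n).image _)
    choose L h1 h2 using this
    choose φ h3 h4 using h1
    have e : ∀ n, FreeGroup.lift (fun i => φ n (FreeGroup.of i)) = φ n := fun n =>
      FreeGroup.ext_hom _ _ (by simp)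
    refine ⟨_, _, fun n i => φ n (FreeGroup.of i), hT, fun n => ?_, fun R => ?_⟩
    · rw [← FreeGroup.lift_surjective_iff_closure_range_eq_top, e]
      exact h3 n
    · filter_upwards [Filter.eventually_ge_atTop R] with n hn w hw
      have := h2 n _ ⟨w, hw.trans hn, rfl⟩
      rw [h4] at this
      rw [e]
      exact this

end Pool.Agent.H73.Dir
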