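import Mathlib

/-!
Queue systems given by pairs of morphisms, and modules that simulate reversible operations on a
double-ended queue with a finite control.
-/

set_option autoImplicit false

namespace Pool.Agent.H73.EP

open List Relation Sum

section
variable {A A' Δ Δ' : Type}

def QR (H G : A → List Δ) (X Y : List Δ) : Prop := ∃ a X', X = H a ++ X' ∧ Y = X' ++ G a

def Pre (h : A → List Δ) : Prop := ∀ a a', h a <+: h a' → a = a'

def Crit (h : A → List Δ) : Prop :=
  ∃ r : A → Δ, (∀ a, r a ∈ h a) ∧ ∀ a a', r a ∈ h a' → r a' ∈ h a → a = a'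

variable {H G : A → List Δ}

theorem QR.head (a : A) {X X' Y : List Δ} (h : X = H a ++ X')
    (h2 : ReflTransGen (QR H G) (X' ++ G a) Y) : ReflTransGen (QR H G) X Y :=
  .head ⟨a, X', h, rfl⟩ h2

theorem QR.head' (a : A) {X X' Y : List Δ} (h : X = H a ++ X')
    (h2 : ReflTransGen (QR H G) (X' ++ G a) Y) : TransGen (QR H G) X Y :=
  .head' ⟨a, X', h, rfl⟩ h2

theorem sweep {C : Type} (u v : C → List Δ)
    (h : ∀ c X, ReflTransGen (QR H G) (u c ++ X) (X ++ v c)) (d : List C) {X0 X Y : List Δ}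
    (h0 : X0 = d.flatMap u ++ X) (h2 : ReflTransGen (QR H G) (X ++ d.flatMap v) Y) :
    ReflTransGen (QR H G) X0 Y := by
  subst h0
  refine .trans ?_ h2
  clear h2
  induction d generalizing X with
  | nil => simp only [flatMap_nil, nil_append, append_nil]; exact .refl
  | cons c d ih =>
    rw [flatMap_cons, flatMap_cons, append_assoc, ← append_assoc X]
    exact (h c _).trans (by rw [append_assoc]; exact ih)

theorem sweep1 {C : Type} (f : C → A) (d : List C) {X0 X Y : List Δ}
    (h0 : X0 = d.flatMap (fun c => H (f c)) ++ X)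
    (h2 : ReflTransGen (QR H G) (X ++ d.flatMap fun c => G (f c)) Y) :
    ReflTransGen (QR H G) X0 Y :=
  sweep _ _ (fun c X => .single ⟨f c, X, rfl, rfl⟩) d h0 h2

theorem shift {C : Type} (x : List Δ) (u : C → List Δ) (d : List C) :
    d.flatMap (fun c => x ++ u c) ++ x = x ++ d.flatMap fun c => u c ++ x := by
  induction d with
  | nil => simp
  | cons c d ih => simp only [flatMap_cons, append_assoc, ih]

theorem Crit.ne_nil {h : A → List Δ} (hc : Crit h) (a : A) : h a ≠ [] := by
  obtain ⟨r, h1, -⟩ := hc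
  exact ne_nil_of_mem (h1 a)

theorem crit_sum {Δ1 Δ2 : Type} {h : A → List Δ1} {h' : A' → List Δ2} (hc : Crit h) (hc' : Crit h')
    {φ : Δ1 → Δ} {φ' : Δ2 → Δ} (i : Function.Injective φ) (i' : Function.Injective φ')
    (dj : ∀ x y, φ x ≠ φ' y) :
    Crit (Sum.elim (fun a => (h a).map φ) fun a => (h' a).map φ') := by
  obtain ⟨r, h1, h2⟩ := hc
  obtain ⟨r', h1', h2'⟩ := hc'
  refine ⟨Sum.elim (fun a => φ (r a)) fun a => φ' (r' a), ?_, ?_⟩
  · rintro (a | a)
    exacts [mem_map_of_mem (h1 a), mem_map_of_mem (h1' a)]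
  · rintro (a | a) (b | b) <;> simp only [elim_inl, elim_inr, mem_map_of_injective i,
      mem_map_of_injective i', inl.injEq, inr.injEq]
    · exact h2 a b
    · simp [(dj _ _).symm]
    · simp [dj]
    · exact h2' a b

theorem pre_sum {Δ1 Δ2 : Type} {h : A → List Δ1} {h' : A' → List Δ2} (hc : Crit h) (hc' : Crit h')
    (hp : Pre h) (hp' : Pre h')
    {φ : Δ1 → Δ} {φ' : Δ2 → Δ} (i : Function.Injective φ) (i' : Function.Injective φ')
    (dj : ∀ x y, φ x ≠ φ' y) :
    Pre (Sum.elim (fun a => (h a).map φ) fun a => (h' a).map φ') := by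
  rintro (a | a) (b | b) h3 <;> simp only [elim_inl, elim_inr] at h3
  · rw [hp a b ((List.prefix_map_iff_of_injective i).1 h3)]
  · obtain ⟨x, hx⟩ := exists_mem_of_ne_nil _ (hc.ne_nil a)
    obtain ⟨y, -, hy⟩ := mem_map.1 (h3.subset (mem_map_of_mem hx))
    exact (dj _ _ hy.symm).elim
  · obtain ⟨x, hx⟩ := exists_mem_of_ne_nil _ (hc'.ne_nil a)
    obtain ⟨y, -, hy⟩ := mem_map.1 (h3.subset (mem_map_of_mem hx))
    exact (dj _ _ hy).elim
  · rw [hp' a b ((List.prefix_map_iff_of_injective i').1 h3)]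

end

structure Mod (P : Type) where
  A : Type
  I : Type
  finA : Finite A
  cI : Countable I
  h : A → List (P ⊕ I)
  g : A → List (P ⊕ I)
  pre : Pre h
  ch : Crit h
  cg : Crit g
  hd : ∀ a i, (h a).head? = some (inr i) → (g a).head? ≠ some (inr i)

variable {S Γ : Type}

def enc (c : S × List Γ) : List (S ⊕ Γ) := inl c.1 :: c.2.map inr

def Mod.Sim (M : Mod (S ⊕ Γ)) (R : S × List Γ → S × List Γ → Prop) : Prop :=
  ∀ (Δ : Type) (fi fo : S ⊕ Γ → Δ) (fI : M.I → Δ) c c', R c c' →
    TransGen (QR (fun a => (M.h a).map (Sum.elim fi fI)) fun a => (M.g a).map (Sum.elim fo fI))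
      ((enc c).map fi) ((enc c').map fo)

def Mod.comp {P : Type} [Countable P] (M N : Mod P) : Mod P where
  A := M.A ⊕ N.A
  I := M.I ⊕ P ⊕ N.I
  finA := by have := M.finA; have := N.finA; infer_instance
  cI := by have := M.cI; have := N.cI; infer_instance
  h := Sum.elim (fun a => (M.h a).map (Sum.map id inl))
    fun a => (N.h a).map (fun x => inr (inr x))
  g := Sum.elim (fun a => (M.g a).map (fun x => inr (Sum.elim (fun p => inr (inl p)) inl x)))
    fun a => (N.g a).map (Sum.map id fun x => inr (inr x))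
  pre := pre_sum M.ch N.ch M.pre N.pre (Sum.map_injective.2 ⟨fun _ _ h => h, inl_injective⟩)
    (inr_injective.comp inr_injective) (by rintro (x | x) y <;> simp)
  ch := crit_sum M.ch N.ch (Sum.map_injective.2 ⟨fun _ _ h => h, inl_injective⟩)
    (inr_injective.comp inr_injective) (by rintro (x | x) y <;> simp)
  cg := crit_sum M.cg N.cg (by rintro (x | x) (y | y) <;> simp)
    (Sum.map_injective.2 ⟨fun _ _ h => h, inr_injective.comp inr_injective⟩)
    (by rintro (x | x) (y | y) <;> simp)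
  hd := by
    rintro (a | a) i <;> simp only [elim_inl, elim_inr, head?_map]
    · have := M.hd a
      rcases h1 : (M.h a).head? with _ | x | x <;> rcases h2 : (M.g a).head? with _ | y | y <;>
        simp_all <;> aesop
    · have := N.hd a
      rcases h1 : (N.h a).head? with _ | x | x <;> rcases h2 : (N.g a).head? with _ | y | y <;>
        simp_all <;> aesop

theorem QR.lift {A A' Δ : Type} {H G : A → List Δ} {H' G' : A' → List Δ} (ψ : A → A')
    (h1 : ∀ a, H' (ψ a) = H a) (h2 : ∀ a, G' (ψ a) = G a) {X Y : List Δ}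
    (h : TransGen (QR H G) X Y) : TransGen (QR H' G') X Y :=
  TransGen.mono (r := QR H G) (p := QR H' G')
    (fun _ _ ⟨a, X', h3, h4⟩ => ⟨ψ a, X', by rw [h1, h3], by rw [h2, h4]⟩) _ _ h

theorem Mod.Sim.comp [Countable S] [Countable Γ] {M N : Mod (S ⊕ Γ)}
    {R R' : S × List Γ → S × List Γ → Prop} (h : M.Sim R) (h' : N.Sim R') :
    (M.comp N).Sim fun c c'' => ∃ c', R c c' ∧ R' c' c'' := by
  rintro Δ fi fo fI c c'' ⟨c', h1, h2⟩
  refine (QR.lift (A' := (M.comp N).A) inl (fun a => ?_) (fun a => ?_)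
    (h Δ fi (fun p => fI (inr (inl p))) (fun x => fI (inl x)) c c' h1)).trans
    (QR.lift (A' := (M.comp N).A) inr (fun a => ?_) (fun a => ?_)
    (h' Δ (fun p => fI (inr (inl p))) fo (fun x => fI (inr (inr x))) c' c'' h2)) <;>
    simp only [Mod.comp, elim_inl, elim_inr, List.map_map] <;> congr 1 <;> funext x <;>
    cases x <;> rfl

/-! ### push, pop and relabel -/

inductive KA (T Γ : Type) : Type
  | k0 (τ : T) | k1 (c : Γ) | k2 (τ : T) | k3 (c : Γ) | k4 (τ : T) | k5 (c : Γ)

inductive KI (T Γ : Type) : Type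
  | z1 (τ : T) | z2 (τ : T) | c1 (c : Γ) | c2 (c : Γ) | fl (b : Bool)

section
open KA KI
variable {T : Type} (src tgt : T → S) (pf pb uf ub : T → Option Γ)

def kh : KA T Γ → List ((S ⊕ Γ) ⊕ KI T Γ)
  | k0 τ => [inl (inl (src τ))]
  | k1 c => [inl (inr c)]
  | k2 τ => [inr (z1 τ), inr (fl false)]
  | k3 c => [inr (c1 c), inr (fl false)]
  | k4 τ => ((pb τ).toList.flatMap fun c => [inr (c1 c), inr (fl true)]) ++
      inr (z2 τ) :: (pf τ).toList.map fun c => inr (c2 c)
  | k5 c => [inr (c2 c)]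

def kg : KA T Γ → List ((S ⊕ Γ) ⊕ KI T Γ)
  | k0 τ => [inr (z1 τ)]
  | k1 c => [inr (fl false), inr (c1 c)]
  | k2 τ => [inr (fl (pb τ).isSome), inr (z2 τ)]
  | k3 c => [inr (c2 c)]
  | k4 τ => ((ub τ).toList.map fun c => inr (c2 c)) ++
      inl (inl (tgt τ)) :: (uf τ).toList.map fun c => inl (inr c)
  | k5 c => [inl (inr c)]

def modK [Finite T] [Finite Γ] (hs : Function.Injective src) (ht : Function.Injective tgt) :
    Mod (S ⊕ Γ) where
  A := KA T Γ
  I := KI T Γ
  finA := Finite.of_equiv _ (proxy_equiv% (KA T Γ))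
  cI := (Finite.of_equiv _ (proxy_equiv% (KI T Γ))).to_countable
  h := kh src pf pb
  g := kg tgt pb uf ub
  pre := by
    rintro (τ | c | τ | c | τ | c) (τ' | c' | τ' | c' | τ' | c') <;> simp only [kh] <;>
      (try cases pb τ) <;> (try cases pb τ') <;> simp +contextual [hs.eq_iff]
  ch := by
    refine ⟨fun a => match a with
      | k0 τ => inl (inl (src τ)) | k1 c => inl (inr c) | k2 τ => inr (z1 τ)
      | k3 c => inr (c1 c) | k4 τ => inr (z2 τ) | k5 c => inr (c2 c), ?_, ?_⟩
    · rintro (τ | c | τ | c | τ | c) <;> simp [kh]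
    · rintro (τ | c | τ | c | τ | c) (τ' | c' | τ' | c' | τ' | c') <;>
        simp +contextual [kh, hs.eq_iff]
  cg := by
    refine ⟨fun a => match a with
      | k0 τ => inr (z1 τ) | k1 c => inr (c1 c) | k2 τ => inr (z2 τ)
      | k3 c => inr (c2 c) | k4 τ => inl (inl (tgt τ)) | k5 c => inl (inr c), ?_, ?_⟩
    · rintro (τ | c | τ | c | τ | c) <;> simp [kg]
    · rintro (τ | c | τ | c | τ | c) (τ' | c' | τ' | c' | τ' | c') <;>
        simp +contextual [kg, ht.eq_iff]
  hd := by
    rintro (τ | c | τ | c | τ | c) i <;> simp only [kh, kg] <;>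
      (try cases pb τ) <;> (try cases ub τ) <;> simp +contextual [eq_comm]

def KR (c c' : S × List Γ) : Prop := ∃ τ m, m ≠ [] ∧
  c = (src τ, (pf τ).toList ++ m ++ (pb τ).toList) ∧ c' = (tgt τ, (uf τ).toList ++ m ++ (ub τ).toList)

theorem simK [Finite T] [Finite Γ] (hs : Function.Injective src) (ht : Function.Injective tgt) :
    (modK src tgt pf pb uf ub hs ht).Sim (KR src tgt pf pb uf ub) := by
  rintro Δ fi fo fI _ _ ⟨τ, m, hm, rfl, rfl⟩
  have key : ∃ Y, (((pf τ).toList ++ m ++ (pb τ).toList).flatMap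
      fun c => [fI (fl false), fI (c1 c)]) = fI (fl false) :: Y ∧
      Y ++ [fI (fl (pb τ).isSome)] = (((pf τ).toList ++ m).flatMap
        fun c => [fI (c1 c), fI (fl false)]) ++
        ((pb τ).toList.flatMap fun c => [fI (c1 c), fI (fl true)]) := by
    have := shift [fI (fl false)] (fun c => [fI (c1 c)])
    simp only [cons_append, nil_append] at this
    cases pb τ with
    | none =>
      obtain ⟨c, d, hd⟩ := exists_cons_of_ne_nil (l := (pf τ).toList ++ m) (by simp [hm])
      have h2 := this (c :: d)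
      rw [hd]
      simp only [flatMap_cons, cons_append, nil_append, cons.injEq, true_and] at h2
      exact ⟨_, by simp; rfl, by simpa using h2⟩
    | some c =>
      refine ⟨(((pf τ).toList ++ m).flatMap fun c => [fI (c1 c), fI (fl false)]) ++ [fI (c1 c)],
        ?_, by simp⟩
      rw [← cons_append, ← this]
      simp
  obtain ⟨Y, h1, h2⟩ := key
  refine QR.head' (k0 τ) (X' := _) (by simp [modK, kh, enc]; rfl) ?_
  refine sweep1 k1 ((pf τ).toList ++ m ++ (pb τ).toList) (X := [fI (z1 τ)])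
    (by simp [modK, kh, kg, map_eq_flatMap]) ?_
  refine QR.head (k2 τ) (X' := Y) (by simp only [modK, kh, kg, map_cons, map_nil, elim_inr, h1]; rfl) ?_
  refine sweep1 k3 ((pf τ).toList ++ m)
    (X := ((pb τ).toList.flatMap fun c => [fI (c1 c), fI (fl true)]) ++ [fI (z2 τ)]) (by
      simp only [modK, kh, kg, map_cons, map_nil, elim_inr]
      rw [← append_assoc, ← h2]; simp) ?_
  refine QR.head (k4 τ) (X' := m.map fun c => fI (c2 c)) (by
    cases h3 : pb τ <;> cases h4 : pf τ <;> simp [modK, kh, kg, map_eq_flatMap, h3, h4]) ?_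
  refine sweep1 k5 (m ++ (ub τ).toList)
    (X := fo (inl (tgt τ)) :: (uf τ).toList.map fun c => fo (inr c)) (by
      cases h3 : ub τ <;> cases h4 : uf τ <;> simp [modK, kh, kg, map_eq_flatMap, h3, h4]) ?_
  convert ReflTransGen.refl using 1
  cases h3 : ub τ <;> cases h4 : uf τ <;> simp [modK, kg, map_eq_flatMap, enc, flatMap_assoc]

end

end Pool.Agent.H73.EP
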