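import Pool.Agent.H73.EP1

/-!
Modules that read one bit of information from the first or the last cell.
-/

set_option autoImplicit false

namespace Pool.Agent.H73.EP

open List Relation Sum

variable {S Γ : Type}

inductive GI (S Γ : Type) : Type
  | z0 (j : S ⊕ Bool) | z1 (μ : Option S) | z2 (μ : Option S) | c1 (c : Γ) | c2 (c : Γ) | c3 (c : Γ)
  | b1 (b : Bool) | b2 (b : Bool) | f1 (e : Option (Option Bool)) | f2 (e : Option (Option Bool))

inductive FA (J J' S Γ : Type) : Type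
  | a0 (j : J) | a1 (c : Γ) | a2 (μ : Option S) | a3 (act b : Bool) | a4 (c : Γ) | a5 (j : J')
  | a6 (c : Γ)

inductive BA (J J' S Γ : Type) : Type
  | e0 (j : J) | e1 (c : Γ) | e2 (j : J) | e3 (act b : Bool) | e4 (c : Γ) | e5 (μ : Option S)
  | e6 (c : Γ) | e7 (j : J') | e8 (c : Γ)

section
open GI FA BA
variable (zs : S) (zb : Bool → S) (β : Γ → Bool) (sp : Bool)

def Val : S ⊕ Bool → Prop
  | inl z => z ≠ zs ∧ ∀ b, z ≠ zb b
  | inr b => sp = true ∨ b = true

def outer : S ⊕ Bool → S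
  | inl z => z
  | inr b => cond sp (zb b) zs

def mid : S ⊕ Bool → Option S
  | inl z => some z
  | inr _ => none

def flag : S ⊕ Bool → Option (Option Bool)
  | inl _ => none
  | inr b => some (cond sp (some b) none)

def gf (act b : Bool) : Option (Option Bool) := cond act (some (cond sp (some b) none)) none

def ub (act b : Bool) : Bool := cond act (!sp && !b) b

abbrev JT : Type := {j // Val zs zb sp j}

theorem outer_inj (hz : Function.Injective zb) {j j' : JT zs zb sp} :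
    outer zs zb sp j.1 = outer zs zb sp j'.1 ↔ j = j' := by
  refine ⟨fun e => Subtype.ext ?_, fun h => by rw [h]⟩
  rcases j with ⟨z | b, h⟩ <;> rcases j' with ⟨z' | b', h'⟩ <;> cases sp <;>
    simp only [Val, outer, cond_true, cond_false, hz.eq_iff] at h h' e ⊢
  · rw [e]
  · rw [e]
  · exact (h.1 e).elim
  · exact (h.2 _ e).elim
  · exact (h'.1 e.symm).elim
  · exact (h'.2 _ e.symm).elim
  · simp_all
  · rw [e]

theorem mf_inj {j j' : JT zs zb sp} (h1 : mid j.1 = mid j'.1) (h2 : flag sp j.1 = flag sp j'.1) :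
    j = j' := by
  refine Subtype.ext ?_
  rcases j with ⟨z | b, h⟩ <;> rcases j' with ⟨z' | b', h'⟩ <;> cases sp <;>
    simp only [Val, Bool.false_eq_true, false_or] at h h' <;> simp_all [mid, flag]

theorem gf_inj {act act' b : Bool} : gf sp act b = gf sp act' b ↔ act = act' := by
  cases act <;> cases act' <;> simp [gf]

def fh : FA (JT zs zb sp) (JT zs zb !sp) S Γ → List ((S ⊕ Γ) ⊕ GI S Γ)
  | a0 j => [inl (inl (outer zs zb sp j.1))]
  | a1 c => [inl (inr c)]
  | a2 μ => [inr (z1 μ)]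
  | a3 act b => [inr (f1 (gf sp act b)), inr (b1 b)]
  | a4 c => [inr (c1 c)]
  | a5 j => [inr (f1 none), inr (z2 (mid j.1)), inr (f2 (flag (!sp) j.1))]
  | a6 c => [inr (b2 (β c)), inr (c2 c), inr (f2 none)]

def fg : FA (JT zs zb sp) (JT zs zb !sp) S Γ → List ((S ⊕ Γ) ⊕ GI S Γ)
  | a0 j => [inr (z1 (mid j.1)), inr (f1 (flag sp j.1))]
  | a1 c => [inr (b1 (β c)), inr (c1 c), inr (f1 none)]
  | a2 μ => [inr (z2 μ)]
  | a3 act b => [inr (f2 (gf (!sp) act b)), inr (b2 b)]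
  | a4 c => [inr (c2 c)]
  | a5 j => [inr (f2 none), inl (inl (outer zs zb (!sp) j.1))]
  | a6 c => [inl (inr c)]

def modF [Finite S] [Finite Γ] (hz : Function.Injective zb) : Mod (S ⊕ Γ) where
  A := FA (JT zs zb sp) (JT zs zb !sp) S Γ
  I := GI S Γ
  finA := Finite.of_equiv _ (proxy_equiv% (FA (JT zs zb sp) (JT zs zb !sp) S Γ))
  cI := (Finite.of_equiv _ (proxy_equiv% (GI S Γ))).to_countable
  h := fh zs zb β sp
  g := fg zs zb β sp
  pre := by
    rintro (j | c | μ | ⟨act, b⟩ | c | j | c) (j' | c' | μ' | ⟨act', b'⟩ | c' | j' | c') <;>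
      simp +contextual [fh, outer_inj zs zb sp hz]
    · rintro h rfl
      exact (gf_inj sp).1 h
    · exact mf_inj zs zb _
  ch := by
    refine ⟨fun a => match a with
      | a0 j => inl (inl (outer zs zb sp j.1)) | a1 c => inl (inr c) | a2 μ => inr (z1 μ)
      | a3 act b => cond (ub sp act b) (inr (b1 b)) (inr (f1 (gf sp act b))) | a4 c => inr (c1 c)
      | a5 j => Sum.elim (fun z => inr (z2 (some z))) (fun _ => inr (f2 (flag (!sp) j.1))) j.1
      | a6 c => inr (c2 c), ?_, ?_⟩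
    · rintro (j | c | μ | ⟨act, b⟩ | c | ⟨z | b, h⟩ | c) <;> simp [fh, mid]
      cases ub sp act b <;> simp
    · rintro (j | c | μ | ⟨_ | _, _ | _⟩ | c | ⟨z | b, h⟩ | c)
        (j' | c' | μ' | ⟨_ | _, _ | _⟩ | c' | ⟨z' | b', h'⟩ | c') <;> cases sp <;>
        simp_all [fh, outer_inj zs zb _ hz, ub, gf, mid, flag, Val]
      exact mf_inj zs zb _ rfl rfl
  cg := by
    refine ⟨fun a => match a with
      | a0 j => Sum.elim (fun z => inr (z1 (some z))) (fun _ => inr (f1 (flag sp j.1))) j.1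
      | a1 c => inr (c1 c) | a2 μ => inr (z2 μ)
      | a3 act b => cond (ub (!sp) act b) (inr (b2 b)) (inr (f2 (gf (!sp) act b)))
      | a4 c => inr (c2 c) | a5 j => inl (inl (outer zs zb (!sp) j.1))
      | a6 c => inl (inr c), ?_, ?_⟩
    · rintro (⟨z | b, h⟩ | c | μ | ⟨act, b⟩ | c | j | c) <;> simp [fg, mid]
      cases ub (!sp) act b <;> simp
    · rintro (⟨z | b, h⟩ | c | μ | ⟨_ | _, _ | _⟩ | c | j | c)
        (⟨z' | b', h'⟩ | c' | μ' | ⟨_ | _, _ | _⟩ | c' | j' | c') <;> cases sp <;>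
        simp_all [fg, outer_inj zs zb _ hz, ub, gf, mid, flag, Val]
      exact mf_inj zs zb _ rfl rfl
  hd := by
    rintro (j | c | μ | ⟨act, b⟩ | c | j | c) i <;> simp +contextual [fh, fg, eq_comm]

def bh : BA (JT zs zb sp) (JT zs zb !sp) S Γ → List ((S ⊕ Γ) ⊕ GI S Γ)
  | e0 j => [inl (inl (outer zs zb sp j.1))]
  | e1 c => [inl (inr c)]
  | e2 j => [inr (z0 j.1), inr (f1 none)]
  | e3 act b => [inr (b1 b), inr (f1 (gf sp act b))]
  | e4 c => [inr (c1 c)]
  | e5 μ => [inr (z1 μ)]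
  | e6 c => [inr (f2 none), inr (c2 c), inr (b2 (β c))]
  | e7 j => [inr (f2 (flag (!sp) j.1)), inr (z2 (mid j.1))]
  | e8 c => [inr (c3 c)]

def bg : BA (JT zs zb sp) (JT zs zb !sp) S Γ → List ((S ⊕ Γ) ⊕ GI S Γ)
  | e0 j => [inr (z0 j.1)]
  | e1 c => [inr (f1 none), inr (c1 c), inr (b1 (β c))]
  | e2 j => [inr (f1 (flag sp j.1)), inr (z1 (mid j.1)), inr (f2 none)]
  | e3 act b => [inr (b2 b), inr (f2 (gf (!sp) act b))]
  | e4 c => [inr (c2 c)]
  | e5 μ => [inr (z2 μ)]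
  | e6 c => [inr (c3 c)]
  | e7 j => [inl (inl (outer zs zb (!sp) j.1))]
  | e8 c => [inl (inr c)]

def modB [Finite S] [Finite Γ] (hz : Function.Injective zb) : Mod (S ⊕ Γ) where
  A := BA (JT zs zb sp) (JT zs zb !sp) S Γ
  I := GI S Γ
  finA := Finite.of_equiv _ (proxy_equiv% (BA (JT zs zb sp) (JT zs zb !sp) S Γ))
  cI := (Finite.of_equiv _ (proxy_equiv% (GI S Γ))).to_countable
  h := bh zs zb β sp
  g := bg zs zb β sp
  pre := by
    rintro (j | c | j | ⟨act, b⟩ | c | μ | c | j | c)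
      (j' | c' | j' | ⟨act', b'⟩ | c' | μ' | c' | j' | c') <;>
      simp +contextual [bh, outer_inj zs zb sp hz, Subtype.val_inj, gf_inj]
    exact fun h h' => mf_inj zs zb _ h' h
  ch := by
    refine ⟨fun a => match a with
      | e0 j => inl (inl (outer zs zb sp j.1)) | e1 c => inl (inr c) | e2 j => inr (z0 j.1)
      | e3 act b => cond (ub sp act b) (inr (b1 b)) (inr (f1 (gf sp act b))) | e4 c => inr (c1 c)
      | e5 μ => inr (z1 μ) | e6 c => inr (c2 c)
      | e7 j => Sum.elim (fun z => inr (z2 (some z))) (fun _ => inr (f2 (flag (!sp) j.1))) j.1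
      | e8 c => inr (c3 c), ?_, ?_⟩
    · rintro (j | c | j | ⟨act, b⟩ | c | μ | c | ⟨z | b, h⟩ | c) <;> simp [bh, mid]
      cases ub sp act b <;> simp
    · rintro (j | c | j | ⟨_ | _, _ | _⟩ | c | μ | c | ⟨z | b, h⟩ | c)
        (j' | c' | j' | ⟨_ | _, _ | _⟩ | c' | μ' | c' | ⟨z' | b', h'⟩ | c') <;> cases sp <;>
        simp_all [bh, outer_inj zs zb _ hz, ub, gf, mid, flag, Val, Subtype.val_inj]
      exact mf_inj zs zb _ rfl rfl
  cg := by
    refine ⟨fun a => match a with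
      | e0 j => inr (z0 j.1) | e1 c => inr (c1 c)
      | e2 j => Sum.elim (fun z => inr (z1 (some z))) (fun _ => inr (f1 (flag sp j.1))) j.1
      | e3 act b => cond (ub (!sp) act b) (inr (b2 b)) (inr (f2 (gf (!sp) act b)))
      | e4 c => inr (c2 c) | e5 μ => inr (z2 μ) | e6 c => inr (c3 c)
      | e7 j => inl (inl (outer zs zb (!sp) j.1)) | e8 c => inl (inr c), ?_, ?_⟩
    · rintro (j | c | ⟨z | b, h⟩ | ⟨act, b⟩ | c | μ | c | j | c) <;> simp [bg, mid]
      cases ub (!sp) act b <;> simp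
    · rintro (j | c | ⟨z | b, h⟩ | ⟨_ | _, _ | _⟩ | c | μ | c | j | c)
        (j' | c' | ⟨z' | b', h'⟩ | ⟨_ | _, _ | _⟩ | c' | μ' | c' | j' | c') <;> cases sp <;>
        simp_all [bg, outer_inj zs zb _ hz, ub, gf, mid, flag, Val, Subtype.val_inj]
      exact mf_inj zs zb _ rfl rfl
  hd := by
    rintro (j | c | j | ⟨act, b⟩ | c | μ | c | j | c) i <;> simp +contextual [bh, bg, eq_comm]

def top (fr : Bool) (d : List Γ) : Option Γ := cond fr d.head? d.getLast?

def GR (fr : Bool) (c c' : S × List Γ) : Prop := c.2 = c'.2 ∧ ∃ x, top fr c.2 = some x ∧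
  ((c.1 = c'.1 ∧ c.1 ≠ zs ∧ ∀ b, c.1 ≠ zb b) ∨
    (c.1 = cond sp (zb (β x)) zs ∧ c'.1 = cond sp zs (zb (β x))))

theorem GR.ex {fr : Bool} {c c' : S × List Γ} (h : GR zs zb β sp fr c c') :
    ∃ x, top fr c.2 = some x ∧ ∃ (j : JT zs zb sp) (j' : JT zs zb !sp) (act : Bool),
      c = (outer zs zb sp j.1, c.2) ∧ c' = (outer zs zb (!sp) j'.1, c.2) ∧ mid j.1 = mid j'.1 ∧
      flag sp j.1 = gf sp act (β x) ∧ flag (!sp) j'.1 = gf (!sp) act (β x) := by
  obtain ⟨z, d⟩ := c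
  obtain ⟨z', d'⟩ := c'
  obtain ⟨rfl, x, h1, ⟨rfl, h2⟩ | ⟨rfl, rfl⟩⟩ := h
  · exact ⟨x, h1, ⟨inl z, h2⟩, ⟨inl z, h2⟩, false, rfl, rfl, rfl, rfl, rfl⟩
  · cases sp
    · exact ⟨x, h1, ⟨inr true, Or.inr rfl⟩, ⟨inr (β x), Or.inl rfl⟩, true, rfl, rfl, rfl, rfl, rfl⟩
    · exact ⟨x, h1, ⟨inr (β x), Or.inl rfl⟩, ⟨inr true, Or.inr rfl⟩, true, rfl, rfl, rfl, rfl, rfl⟩

theorem simF [Finite S] [Finite Γ] (hz : Function.Injective zb) :
    (modF zs zb β sp hz).Sim (GR zs zb β sp true) := by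
  rintro Δ fi fo fI ⟨z, d⟩ c' h
  obtain ⟨x, h1, j, j', act, h2, rfl, h3, h4, h5⟩ := h.ex
  rw [h2]
  obtain ⟨d, rfl⟩ : ∃ d', d = x :: d' := by
    cases d with
    | nil => simp [top] at h1
    | cons y d => exact ⟨d, by simpa [top] using h1⟩
  have s1 := shift [fI (f1 none)] (fun c => [fI (b1 (β c)), fI (c1 c)]) d
  have s2 := shift [fI (f2 none)] (fun c => [fI (b2 (β c)), fI (c2 c)]) d
  simp only [cons_append, nil_append] at s1 s2
  refine QR.head' (a0 j) (X' := _) (by simp [modF, fh, enc]; rfl) ?_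
  refine sweep1 a1 (x :: d) (X := [fI (z1 (mid j.1)), fI (f1 (flag sp j.1))])
    (by simp [modF, fh, fg, map_eq_flatMap]) ?_
  refine QR.head (a2 (mid j.1)) (X' := _) (by simp [modF, fh, fg]; rfl) ?_
  refine QR.head (a3 act (β x)) (X' := _) (by simp [modF, fh, fg, h4]; rfl) ?_
  refine QR.head (a4 x) (X' := _) (by simp [modF, fh, fg]; rfl) ?_
  refine sweep (fun c => [fI (f1 none), fI (b1 (β c)), fI (c1 c)])
    (fun c => [fI (f2 none), fI (b2 (β c)), fI (c2 c)]) (fun c X => ?_) d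
    (X := [fI (f1 none), fI (z2 (mid j.1)), fI (f2 (gf (!sp) act (β x))), fI (b2 (β x)), fI (c2 x)])
    (by rw [← cons_append, ← s1]; simp [modF, fg]) ?_
  · refine QR.head (a3 false (β c)) (X' := _) (by simp [modF, fh, gf]; rfl) ?_
    refine QR.head (a4 c) (X' := _) (by simp [modF, fh]; rfl) ?_
    convert ReflTransGen.refl using 1
    simp [modF, fg, gf]
  refine QR.head (a5 j') (X' := _) (by simp [modF, fh, h3, h5]; rfl) ?_
  refine sweep1 a6 (x :: d) (X := [fo (inl (outer zs zb (!sp) j'.1))]) (by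
    simp only [modF, fh, fg, map_cons, map_nil, elim_inl, elim_inr, flatMap_cons, cons_append,
      nil_append, cons.injEq, true_and]
    rw [← cons_append, ← s2]; simp) ?_
  convert ReflTransGen.refl using 1
  simp [modF, fg, map_eq_flatMap, enc, flatMap_assoc]

theorem simB [Finite S] [Finite Γ] (hz : Function.Injective zb) :
    (modB zs zb β sp hz).Sim (GR zs zb β sp false) := by
  rintro Δ fi fo fI ⟨z, d⟩ c' h
  obtain ⟨x, h1, j, j', act, h2, rfl, h3, h4, h5⟩ := h.ex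
  rw [h2]
  obtain ⟨d, rfl⟩ : ∃ d', d = d' ++ [x] := getLast?_eq_some_iff.1 h1
  have s1 := shift [fI (f1 none)] (fun c => [fI (c1 c), fI (b1 (β c))]) d
  have s2 := shift [fI (f2 none)] (fun c => [fI (c2 c), fI (b2 (β c))]) d
  simp only [cons_append, nil_append] at s1 s2
  refine QR.head' (e0 j) (X' := _) (by simp [modB, bh, enc]; rfl) ?_
  refine sweep1 e1 (d ++ [x]) (X := [fI (z0 j.1)]) (by simp [modB, bh, bg, map_eq_flatMap]) ?_
  refine QR.head (e2 j) (X' := (d.flatMap fun c => [fI (c1 c), fI (b1 (β c)), fI (f1 none)]) ++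
    [fI (c1 x), fI (b1 (β x))]) (by
      simp only [modB, bh, bg, map_cons, map_nil, elim_inr, flatMap_append, cons_append,
        nil_append, cons.injEq, true_and]
      rw [← cons_append, ← s1]; simp) ?_
  refine sweep (fun c => [fI (c1 c), fI (b1 (β c)), fI (f1 none)])
    (fun c => [fI (c2 c), fI (b2 (β c)), fI (f2 none)]) (fun c X => ?_) d
    (X := [fI (c1 x), fI (b1 (β x)), fI (f1 (flag sp j.1)), fI (z1 (mid j.1)), fI (f2 none)])
    (by simp [modB, bg]) ?_
  · refine QR.head (e4 c) (X' := _) (by simp [modB, bh]; rfl) ?_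
    refine QR.head (e3 false (β c)) (X' := _) (by simp [modB, bh, gf]; rfl) ?_
    convert ReflTransGen.refl using 1
    simp [modB, bg, gf]
  refine QR.head (e4 x) (X' := _) (by simp [modB, bh]; rfl) ?_
  refine QR.head (e3 act (β x)) (X' := _) (by simp [modB, bh, h4]; rfl) ?_
  refine QR.head (e5 (mid j.1)) (X' := _) (by simp [modB, bh]; rfl) ?_
  refine sweep1 e6 (d ++ [x]) (X := [fI (f2 (gf (!sp) act (β x))), fI (z2 (mid j.1))]) (by
    simp only [modB, bh, bg, map_cons, map_nil, elim_inr, flatMap_append, append_assoc]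
    rw [← cons_append, ← s2]; simp) ?_
  refine QR.head (e7 j') (X' := _) (by simp [modB, bh, h3, h5]; rfl) ?_
  refine sweep1 e8 (d ++ [x]) (X := [fo (inl (outer zs zb (!sp) j'.1))])
    (by simp [modB, bh, bg]) ?_
  convert ReflTransGen.refl using 1
  simp [modB, bg, map_eq_flatMap, enc, flatMap_assoc]

end

end Pool.Agent.H73.EP
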