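import Pool.Agent.H73.EP2
import Pool.Agent.H37.RE

/-!
Reversible operations, and the correspondence instance attached to a module.
-/

set_option autoImplicit false

namespace Pool.Agent.H73.EP

open List Relation Sum Pool.Agent.H37

variable {S Γ : Type}

def Real (R : S × List Γ → S × List Γ → Prop) : Prop := ∃ M : Mod (S ⊕ Γ), M.Sim R

def Rev (R : S × List Γ → S × List Γ → Prop) : Prop := Real R ∧ Real fun c c' => R c' c

def Fr (U : S → Prop) (R : S × List Γ → S × List Γ → Prop) (c c' : S × List Γ) : Prop :=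
  R c c' ∨ (c = c' ∧ ¬ U c.1 ∧ c.2 ≠ [])

variable {R R' : S × List Γ → S × List Γ → Prop} {U : S → Prop}

theorem Real.mono (h : Real R) (e : ∀ c c', R' c c' → R c c') : Real R' :=
  h.elim fun M hM => ⟨M, fun Δ fi fo fI c c' h1 => hM Δ fi fo fI c c' (e _ _ h1)⟩

theorem Rev.mono (h : Rev R) (e : ∀ c c', R' c c' → R c c') : Rev R' :=
  ⟨h.1.mono e, h.2.mono fun _ _ => e _ _⟩

theorem Rev.flip (h : Rev (Fr U R)) : Rev (Fr U fun c c' => R c' c) :=
  Rev.mono ⟨h.2, h.1⟩ fun _ _ h1 => h1.imp id fun ⟨h2, h3⟩ => ⟨h2.symm, h2 ▸ h3⟩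

variable [Finite S] [Finite Γ]

theorem Real.comp (h : Real R) (h' : Real R') : Real fun c c'' => ∃ c', R c c' ∧ R' c' c'' :=
  h.elim fun _ hM => h'.elim fun _ hN => ⟨_, hM.comp hN⟩

theorem Rev.comp (h : Rev R) (h' : Rev R') : Rev fun c c'' => ∃ c', R c c' ∧ R' c' c'' :=
  ⟨h.1.comp h'.1, (h'.2.comp h.2).mono fun _ _ ⟨c', h1, h2⟩ => ⟨c', h2, h1⟩⟩

theorem realK {T : Type} [Finite T] {src tgt : T → S} (pf pb uf ub : T → Option Γ)
    (hs : Function.Injective src) (ht : Function.Injective tgt) (h1 : ∀ τ, U (src τ))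
    (h2 : ∀ τ, U (tgt τ)) : Real (Fr U (KR src tgt pf pb uf ub)) := by
  have inj : ∀ f : T → S, Function.Injective f → (∀ τ, U (f τ)) →
      Function.Injective (Sum.elim f Subtype.val : T ⊕ {z // ¬ U z} → S) := fun f hf hu =>
    hf.sumElim Subtype.val_injective fun τ z e => z.2 (e ▸ hu τ)
  refine Real.mono ⟨_, simK _ _ (Sum.elim pf fun _ => none) (Sum.elim pb fun _ => none)
    (Sum.elim uf fun _ => none) (Sum.elim ub fun _ => none) (inj _ hs h1) (inj _ ht h2)⟩ ?_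
  rintro ⟨z, d⟩ _ (⟨τ, h⟩ | ⟨rfl, h3, h4⟩)
  · exact ⟨inl τ, h⟩
  · exact ⟨inr ⟨z, h3⟩, d, h4, by simp, by simp⟩

theorem revK {T : Type} [Finite T] {src tgt : T → S} (pf pb uf ub : T → Option Γ)
    (hs : Function.Injective src) (ht : Function.Injective tgt) (h1 : ∀ τ, U (src τ))
    (h2 : ∀ τ, U (tgt τ)) : Rev (Fr U (KR src tgt pf pb uf ub)) :=
  ⟨realK pf pb uf ub hs ht h1 h2, (realK uf ub pf pb ht hs h2 h1).mono fun _ _ h =>
    h.imp (fun ⟨τ, m, h3, h4, h5⟩ => ⟨τ, m, h3, h5, h4⟩) fun ⟨h3, h4⟩ => ⟨h3.symm, h3 ▸ h4⟩⟩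

theorem revG (zs : S) {zb : Bool → S} (hz : Function.Injective zb) (β : Γ → Bool) (fr : Bool) :
    Rev (GR zs zb β false fr) := by
  have : ∀ sp, Real (GR zs zb β sp fr) := fun sp => by
    cases fr
    exacts [⟨_, simB zs zb β sp hz⟩, ⟨_, simF zs zb β sp hz⟩]
  refine ⟨this false, (this true).mono ?_⟩
  rintro ⟨z, d⟩ ⟨z', d'⟩ ⟨rfl, x, h1, ⟨rfl, h2⟩ | ⟨h2, h3⟩⟩
  exacts [⟨rfl, x, h1, Or.inl ⟨rfl, h2⟩⟩, ⟨rfl, x, h1, Or.inr ⟨h3, h2⟩⟩]

omit [Finite S] [Finite Γ] in
theorem top_ex (fr : Bool) {d : List Γ} : d ≠ [] ↔ ∃ x, top fr d = some x := by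
  rw [← Option.ne_none_iff_exists']
  cases fr <;> simp [top]

def RdR {X Y : Type} (fr : Bool) (sx : X → S) (sy : Y → S) (par : Y → X) (β : Y → Γ → Prop)
    (c c' : S × List Γ) : Prop :=
  c.2 = c'.2 ∧ ∃ x y, top fr c.2 = some x ∧ β y x ∧ c.1 = sx (par y) ∧ c'.1 = sy y

theorem revRd {X Y : Type} [Finite Y] (fr : Bool) {sx : X → S} {sy : Y → S} (par : Y → X)
    (β : Y → Γ → Prop) (hx : Function.Injective sx) (hy : Function.Injective sy)
    (dj : ∀ p y, sx p ≠ sy y) (det : ∀ y y' x, β y x → β y' x → par y = par y' → y = y')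
    (h1 : ∀ p, U (sx p)) (h2 : ∀ y, U (sy y)) : Rev (Fr U (RdR fr sx sy par β)) := by
  classical
  have key : ∀ l : List Y, l.Nodup → Rev fun c c' : S × List Γ => c.2 = c'.2 ∧
      ∃ x, top fr c.2 = some x ∧ ((∃ y ∈ l, β y x ∧ c.1 = sx (par y) ∧ c'.1 = sy y) ∨
        (c.1 = c'.1 ∧ ∀ y ∈ l, c.1 ≠ sy y ∧ (c.1 = sx (par y) → ¬ β y x))) := by
    intro l hl
    induction l with
    | nil =>
      refine (revK (T := Empty) (U := fun _ => False) (src := Empty.elim) (tgt := Empty.elim)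
        Empty.elim Empty.elim Empty.elim Empty.elim (fun a => a.elim) (fun a => a.elim)
        (fun a => a.elim) fun a => a.elim).mono ?_
      rintro ⟨z, d⟩ ⟨z', d'⟩ ⟨rfl, x, h3, ⟨y, h4, -⟩ | ⟨rfl, -⟩⟩
      · simp at h4
      · exact Or.inr ⟨rfl, id, (top_ex fr).2 ⟨x, h3⟩⟩
    | cons y0 l ih =>
      obtain ⟨h0, hl⟩ := nodup_cons.1 hl
      refine ((revG (sx (par y0)) (zb := fun b => cond b (sy y0) (sx (par y0))) ?_
        (fun x => decide (β y0 x)) fr).comp (ih hl)).mono ?_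
      · rintro (_ | _) (_ | _) <;> simp [dj, (dj _ _).symm]
      have idle : ∀ z d x, top fr d = some x → z ≠ sy y0 → (z = sx (par y0) → ¬ β y0 x) →
          GR (sx (par y0)) (fun b => cond b (sy y0) (sx (par y0))) (fun x => decide (β y0 x))
            false fr (z, d) (z, d) := fun z d x h3 h4 h5 => by
        by_cases h6 : z = sx (par y0)
        · exact ⟨rfl, x, h3, Or.inr ⟨h6, by simp [h5 h6, h6]⟩⟩
        · exact ⟨rfl, x, h3, Or.inl ⟨rfl, h6, by rintro (_ | _) <;> simpa⟩⟩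
      rintro ⟨z, d⟩ ⟨z', d'⟩ ⟨rfl, x, h3, ⟨y, h4, h5, rfl, rfl⟩ | ⟨rfl, h4⟩⟩
      · rcases mem_cons.1 h4 with rfl | h4
        · refine ⟨(sy y, d), ⟨rfl, x, h3, Or.inr ⟨rfl, by simp [h5]⟩⟩, rfl, x, h3,
            Or.inr ⟨rfl, fun y' hy' => ⟨fun e => h0 (hy e ▸ hy'), fun e => (dj _ _ e.symm).elim⟩⟩⟩
        · exact ⟨_, idle _ _ x h3 (dj _ _) fun e h6 => h0 (det _ _ _ h5 h6 (hx e) ▸ h4), rfl, x, h3,
            Or.inl ⟨y, h4, h5, rfl, rfl⟩⟩
      · exact ⟨_, idle _ _ x h3 (h4 y0 mem_cons_self).1 (h4 y0 mem_cons_self).2, rfl, x, h3,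
          Or.inr ⟨rfl, fun y hy => h4 y (mem_cons_of_mem _ hy)⟩⟩
  have := Fintype.ofFinite Y
  refine (key _ (Finset.nodup_toList Finset.univ)).mono ?_
  rintro ⟨z, d⟩ ⟨z', d'⟩ (⟨h3, x, y, h4, h5⟩ | ⟨h3, h4, h5⟩)
  · exact ⟨h3, x, h4, Or.inl ⟨y, by simp, h5⟩⟩
  · obtain ⟨rfl, rfl⟩ := Prod.mk.inj h3
    obtain ⟨x, h6⟩ := (top_ex fr).1 h5
    exact ⟨rfl, x, h6, Or.inr ⟨rfl, fun y _ => ⟨fun e => h4 (e ▸ h2 y), fun e => (h4 (e ▸ h1 _)).elim⟩⟩⟩

/-! ### the correspondence instance -/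

section
variable {A Δ : Type} {H G : A → List Δ}

def Sol (H G : A → List Δ) (X : List Δ) (w : List A) : Prop := w.flatMap H = X ++ w.flatMap G

theorem QR.back {X Y : List Δ} (h : ReflTransGen (QR H G) X Y) (h2 : ∃ w, Sol H G Y w) :
    ∃ w, Sol H G X w := by
  induction h using ReflTransGen.head_induction_on with
  | refl => exact h2
  | head h1 _ ih =>
    obtain ⟨a, X', rfl, rfl⟩ := h1
    obtain ⟨w, hw⟩ := ih
    exact ⟨a :: w, by simp only [Sol, flatMap_cons] at hw ⊢; rw [hw]; simp⟩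

theorem QR.fwd (hp : Pre H) (hn : ∀ a, H a ≠ []) {X Y : List Δ} (h : TransGen (QR H G) X Y) :
    ∀ w, Sol H G X w → ∃ w', Sol H G Y w' ∧ w'.length < w.length := by
  have one : ∀ X Y, QR H G X Y → ∀ w, Sol H G X w → ∃ w', Sol H G Y w' ∧ w'.length < w.length := by
    rintro _ _ ⟨a, X', rfl, rfl⟩ w hw
    cases w with
    | nil => simp [Sol, hn a] at hw
    | cons b w =>
      simp only [Sol, flatMap_cons, append_assoc] at hw ⊢
      obtain rfl : b = a := by
        rcases prefix_or_prefix_of_prefix (prefix_append _ _) (hw ▸ prefix_append _ _) with h | h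
        exacts [(hp _ _ h).symm, hp _ _ h]
      exact ⟨w, append_cancel_left hw, by simp⟩
  induction h with
  | single h => exact one _ _ h
  | tail _ h ih =>
    intro w hw
    obtain ⟨w1, h1, h2⟩ := ih w hw
    obtain ⟨w2, h3, h4⟩ := one _ _ h w1 h1
    exact ⟨w2, h3, h4.trans h2⟩

def El (u : List (List ℕ)) : Prop := ∀ m : ℕ, m < u.length → ∀ f : ℕ → List (Fin m),
  ∀ k : Fin m → List ℕ, ¬ ∀ i : ℕ, i < u.length → (f i).flatMap k = u.getD i []

theorem el_of (hc : Crit H) {cd : Δ → ℕ} (hcd : Function.Injective cd) {l : List A}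
    (hl : l.Nodup) : El (l.map fun a => (H a).map cd) := by
  obtain ⟨r, h1, h2⟩ := hc
  intro m hm f k h
  rw [length_map] at hm h
  have h3 : ∀ i : Fin l.length, (f i).flatMap k = (H (l.get i)).map cd := fun i => by
    rw [h i i.2]; simp
  have h4 : ∀ i : Fin l.length, ∃ c ∈ f i, cd (r (l.get i)) ∈ k c := fun i =>
    mem_flatMap.1 (h3 i ▸ mem_map_of_mem (h1 _))
  choose c h5 h6 using h4
  have h7 : ∀ i j, c i = c j → r (l.get i) ∈ H (l.get j) := fun i j e =>
    (mem_map_of_injective hcd).1 (h3 j ▸ mem_flatMap.2 ⟨_, h5 j, e ▸ h6 i⟩)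
  have := Fintype.card_le_of_injective c fun i j e =>
    hl.injective_get (h2 _ _ (h7 i j e) (h7 j i e.symm))
  simp at this
  omega

def Pcp (u v : List (List ℕ)) : Prop := ∃ w : List ℕ, w ≠ [] ∧ (∀ i ∈ w, i < u.length) ∧
  w.flatMap (fun i => u.getD i []) = w.flatMap fun i => v.getD i []

theorem pcp_iff {cd : Δ → ℕ} (hcd : Function.Injective cd) {l : List A} (hl : ∀ a, a ∈ l) :
    Pcp (l.map fun a => (H a).map cd) (l.map fun a => (G a).map cd) ↔
      ∃ w : List A, w ≠ [] ∧ w.flatMap H = w.flatMap G := by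
  have key : ∀ (F : A → List Δ) (w : List (Fin l.length)), (w.map Fin.val).flatMap
      (fun i => (l.map fun a => (F a).map cd).getD i []) = ((w.map l.get).flatMap F).map cd := by
    intro F w
    simp [flatMap_map, map_flatMap]
  constructor
  · rintro ⟨w, h1, h2, h3⟩
    rw [length_map] at h2
    obtain ⟨w, rfl⟩ : ∃ w' : List (Fin l.length), w = w'.map Fin.val :=
      ⟨w.pmap Fin.mk h2, by simp [map_pmap]⟩
    rw [key, key] at h3
    exact ⟨w.map l.get, by simpa using h1, map_injective_iff.2 hcd h3⟩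
  · rintro ⟨w, h1, h2⟩
    choose ix hix using fun a => mem_iff_get.1 (hl a)
    have : (w.map ix).map l.get = w := by rw [List.map_map]; exact map_id'' hix w
    exact ⟨(w.map ix).map Fin.val, by simpa using h1, by simp, by rw [key, key, this, h2]⟩

end

theorem ci_mapl {ι β : Type} [Primcodable β] (l : List ι) (g : ℕ → ι → β)
    (hg : ∀ i, CI ∅ fun n => g n i) : CI ∅ fun n => l.map (g n) := by
  induction l with
  | nil => exact CI.const []
  | cons i l ih => exact ((hg i).cons ih).of_eq fun n => by simp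

theorem pcp_of (M : Mod (S ⊕ Γ)) (hs : M.Sim R) (i fin : S) (blk : ∀ a, inl (inl fin) ∉ M.h a)
    (hd : ∀ a, (M.h a).head? ≠ (M.g a).head?) (c0 c1 : Γ) (P : ℕ → Prop)
    (yes : ∀ n, P n → ReflTransGen R (i, replicate n c0 ++ [c1]) (fin, replicate n c0 ++ [c1]))
    (no : ∀ n, ¬ P n → ∃ Inv : S × List Γ → Prop, Inv (i, replicate n c0 ++ [c1]) ∧
      ∀ c, Inv c → ∃ c', R c c' ∧ Inv c') :
    ∃ u v : ℕ → List (List ℕ), CI ∅ u ∧ CI ∅ v ∧ ∀ n, (u n).length = (v n).length ∧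
      El (u n) ∧ El (v n) ∧ (P n ↔ Pcp (u n) (v n)) := by
  have := M.finA
  have := M.cI
  have := Fintype.ofFinite (M.A ⊕ Bool)
  obtain ⟨cd, hcd⟩ := exists_injective_nat (((S ⊕ Γ) ⊕ M.I) ⊕ Bool)
  let E : S × List Γ → List (((S ⊕ Γ) ⊕ M.I) ⊕ Bool) := fun c => (enc c).map fun p => inl (inl p)
  let H : ℕ → M.A ⊕ Bool → List (((S ⊕ Γ) ⊕ M.I) ⊕ Bool) := fun n => Sum.elim
    (fun a => (M.h a).map inl) fun b =>
      cond b [inr true] (E (fin, replicate n c0 ++ [c1]) ++ [inr false])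
  let G : ℕ → M.A ⊕ Bool → List (((S ⊕ Γ) ⊕ M.I) ⊕ Bool) := fun n => Sum.elim
    (fun a => (M.g a).map inl) fun b =>
      cond b (inr true :: E (i, replicate n c0 ++ [c1])) [inr false]
  have crit : ∀ (h : M.A → List ((S ⊕ Γ) ⊕ M.I)) (e : Bool → List (((S ⊕ Γ) ⊕ M.I) ⊕ Bool)),
      Crit h → (∀ b, inr b ∈ e b) → inr true ∉ e false →
      Crit (Sum.elim (fun a => (h a).map inl) e) := by
    rintro h e ⟨r, h1, h2⟩ h3 h4
    refine ⟨Sum.elim (fun a => inl (r a)) inr, ?_, ?_⟩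
    · rintro (a | b)
      exacts [mem_map_of_mem (h1 a), h3 b]
    · rintro (a | _ | _) (a' | _ | _) <;> simp [h4]
      exact h2 a a'
  have cH : ∀ n, Crit (H n) := fun n => crit _ _ M.ch (by rintro (_ | _) <;> simp) (by simp [E])
  have cG : ∀ n, Crit (G n) := fun n => crit _ _ M.cg (by rintro (_ | _) <;> simp) (by simp)
  have sim : ∀ n c c', R c c' → TransGen (QR (H n) (G n)) (E c) (E c') := fun n c c' h =>
    QR.lift inl (fun a => by simp only [H, elim_inl]; congr 1; funext x; cases x <;> rfl)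
      (fun a => by simp only [G, elim_inl]; congr 1; funext x; cases x <;> rfl)
      (hs _ (fun p => inl (inl p)) (fun p => inl (inl p)) (fun x => inl (inr x)) c c' h)
  have pre : ∀ n, Pre (H n) := fun n => by
    rintro (a | _ | _) (a' | _ | _) h <;> simp only [H, elim_inl, elim_inr, cond_true, cond_false,
      E, enc, map_cons, cons_append] at h <;> try rfl
    · rw [M.pre a a' ((List.prefix_map_iff_of_injective inl_injective).1 h)]
    · obtain ⟨x, d, hx⟩ := exists_cons_of_ne_nil (M.ch.ne_nil a)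
      rw [hx, map_cons, cons_prefix_cons] at h
      exact (blk a (by rw [hx, inl_injective h.1]; simp)).elim
    · obtain ⟨x, d, hx⟩ := exists_cons_of_ne_nil (M.ch.ne_nil a)
      simp [hx] at h
    · simpa [blk] using h.subset mem_cons_self
    · simp at h
    · simpa using h.subset mem_cons_self
    · simp at h
  let l := (Finset.univ : Finset (M.A ⊕ Bool)).toList
  have hE : ∀ z, CI ∅ fun n => (E (z, replicate n c0 ++ [c1])).map cd := fun z => by
    simp only [E, enc, map_cons, map_append, map_replicate, map_nil]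
    fun_prop
  refine ⟨fun n => l.map fun a => (H n a).map cd, fun n => l.map fun a => (G n a).map cd,
    ci_mapl _ _ ?_, ci_mapl _ _ ?_, fun n => ⟨by simp, el_of (cH n) hcd (Finset.nodup_toList _),
      el_of (cG n) hcd (Finset.nodup_toList _), ?_⟩⟩
  · rintro (a | _ | _)
    · exact CI.const (((M.h a).map inl).map cd)
    · exact ((hE fin).append (CI.const [cd (inr false)])).of_eq fun n => by simp [H]
    · exact CI.const [cd (inr true)]
  · rintro (a | _ | _)
    · exact CI.const (((M.g a).map inl).map cd)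
    · exact CI.const [cd (inr false)]
    · exact ((CI.const (cd (inr true))).cons (hE i)).of_eq fun n => by simp [G]
  rw [pcp_iff hcd (by simp [l])]
  constructor
  · intro h
    have h1 : ReflTransGen (QR (H n) (G n)) (E (i, replicate n c0 ++ [c1]))
        (E (fin, replicate n c0 ++ [c1])) := by
      have h2 := yes n h
      generalize (fin, replicate n c0 ++ [c1]) = c' at h2 ⊢
      induction h2 with
      | refl => exact .refl
      | tail _ h3 ih => exact ih.trans (sim n _ _ h3).to_reflTransGen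
    obtain ⟨w, hw⟩ := QR.back h1 ⟨[inr false], by simp [Sol, H, G]⟩
    exact ⟨inr true :: w, by simp, by simpa [H, G, Sol] using hw⟩
  · rintro ⟨w, h1, h2⟩
    by_contra h
    obtain ⟨Inv, h3, h4⟩ := no n h
    have h5 : ∀ k (w : List (M.A ⊕ Bool)) c, w.length < k → Inv c → ¬ Sol (H n) (G n) (E c) w := by
      intro k
      induction k with
      | zero => simp
      | succ k ih =>
        intro w c h6 h7 h8
        obtain ⟨c', h9, h10⟩ := h4 c h7
        obtain ⟨w', h11, h12⟩ := QR.fwd (pre n) (cH n).ne_nil (sim n _ _ h9) w h8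
        exact ih w' c' (by omega) h10 h11
    obtain ⟨a, w, rfl⟩ := exists_cons_of_ne_nil h1
    rcases a with a | _ | _
    · obtain ⟨x, d, hx⟩ := exists_cons_of_ne_nil (M.ch.ne_nil a)
      obtain ⟨y, d', hy⟩ := exists_cons_of_ne_nil (M.cg.ne_nil a)
      have := hd a
      simp_all [H, G]
    · simp [H, G, E, enc] at h2
    · exact h5 _ w _ (Nat.lt_succ_self _) h3 (by simpa [H, G, Sol] using h2)

end Pool.Agent.H73.EP
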