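import Pool.Agent.H73.EP3

/-!
Queue automata are simulated reversibly, with a record of the history.
-/

set_option autoImplicit false

namespace Pool.Agent.H73.EP

open List Relation Sum Pool.Agent.H37

theorem comp_hd {P : Type} [Countable P] (M N : Mod P) (a : (M.comp N).A) :
    ((M.comp N).h a).head? ≠ ((M.comp N).g a).head? := by
  rcases a with a | a <;> simp only [Mod.comp, elim_inl, elim_inr, head?_map]
  · have := M.hd a
    obtain ⟨x, d, hx⟩ := exists_cons_of_ne_nil (M.ch.ne_nil a)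
    rcases h2 : (M.g a).head? with _ | y | y <;> rcases x with x | x <;> simp_all
    exact fun e => this e.symm
  · have := N.hd a
    obtain ⟨x, d, hx⟩ := exists_cons_of_ne_nil (N.ch.ne_nil a)
    rcases h2 : (N.g a).head? with _ | y | y <;> rcases x with x | x <;> simp_all
    exact fun e => this e.symm

inductive St (Q D : Type) : Type
  | ini | main (q : Option Q) | rd (p : Q × D × Option (Q × D)) | sA (p : Q × D × Option (Q × D))
  | sB (p : Q × D) | sC (ρ : Option (Q × D))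

open St

variable {Q D : Type} (δ : Q → D → Option Q × D × D) (q0 : Option Q) (d0 : D)

instance [Finite Q] [Finite D] : Finite (St Q D) := Finite.of_equiv _ (proxy_equiv% (St Q D))

def QStep (c c' : Option Q × List D) : Prop := ∃ q d w, c = (some q, d :: w) ∧
  c' = ((δ q d).1, w ++ [(δ q d).2.1, (δ q d).2.2])

def Fw (c c' : St Q D × List (D × Option (Q × D))) : Prop := ∃ m, m ≠ [] ∧
  ((∃ q d ρ, c = (main (some q), (d, ρ) :: m) ∧
    c' = (main (δ q d).1, m ++ [((δ q d).2.1, ρ), ((δ q d).2.2, some (q, d))])) ∨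
  (c = (ini, m) ∧ c' = (main q0, m ++ [(d0, none)])))

def tg {A B : Type} (b : Bool) (c : A × B) : (A × Bool) × B := ((c.1, b), c.2)

theorem revFw [Finite Q] [Finite D] (b : Bool) : Rev (Fr (fun z => z.2 = b)
    fun c c' => ∃ e e', Fw δ q0 d0 e e' ∧ c = tg b e ∧ c' = tg b e') := by
  let U : St Q D × Bool → Prop := fun z => z.2 = b ∧ z.1 ≠ ini
  have s1 := revRd (Γ := D × Option (Q × D)) (U := U) true (sx := fun q => (main (some q), b))
    (sy := fun p => (rd p, b)) Prod.fst (fun p x => x = p.2) (fun _ _ => by simp)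
    (fun _ _ => by simp) (by simp) (fun y y' x h h' e => Prod.ext e (h.symm.trans h'))
    (by simp [U]) (by simp [U])
  have s2 := revK (Γ := D × Option (Q × D)) (U := U) (src := fun p => (rd p, b))
    (tgt := fun p => (sA p, b)) (fun p => some p.2) (fun _ => none) (fun _ => none)
    (fun p => some ((δ p.1 p.2.1).2.1, p.2.2)) (fun _ _ => by simp) (fun _ _ => by simp)
    (by simp [U]) (by simp [U])
  have s3 := (revRd (Γ := D × Option (Q × D)) (U := U) false (sx := fun p => (sB p, b))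
    (sy := fun p => (sA p, b)) (fun p => (p.1, p.2.1)) (fun p x => x.2 = p.2.2) (fun _ _ => by simp)
    (fun _ _ => by simp) (by simp) (by rintro ⟨_, _, _⟩ ⟨_, _, _⟩ x h h' e; simp_all)
    (by simp [U]) (by simp [U])).flip
  have s4 := revK (Γ := D × Option (Q × D)) (U := fun z : St Q D × Bool => z.2 = b)
    (src := fun ρ : Option (Q × D) => (ρ.elim ini sB, b))
    (tgt := fun ρ => (sC ρ, b)) (fun _ => none) (fun _ => none) (fun _ => none)
    (fun ρ => some (ρ.elim d0 fun p => (δ p.1 p.2).2.2, ρ)) (by rintro (_ | _) (_ | _) <;> simp)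
    (fun _ _ => by simp) (by simp) (by simp)
  have s5 := (revRd (Γ := D × Option (Q × D)) (U := fun z : St Q D × Bool => z.2 = b) false
    (sx := fun q => (main q, b)) (sy := fun ρ => (sC ρ, b))
    (fun ρ => ρ.elim q0 fun p => (δ p.1 p.2).1) (fun ρ x => x.2 = ρ) (fun _ _ => by simp)
    (fun _ _ => by simp) (by simp) (fun y y' x h h' _ => h.symm.trans h') (by simp) (by simp)).flip
  refine (s1.comp (s2.comp (s3.comp (s4.comp s5)))).mono ?_
  rintro c c' (⟨_, _, ⟨m, hm, ⟨q, d, ρ, rfl, rfl⟩ | ⟨rfl, rfl⟩⟩, rfl, rfl⟩ | ⟨rfl, h1, h2⟩)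
  · refine ⟨((rd (q, d, ρ), b), (d, ρ) :: m), Or.inl ⟨rfl, (d, ρ), (q, d, ρ), rfl, rfl, rfl, rfl⟩,
      ((sA (q, d, ρ), b), m ++ [((δ q d).2.1, ρ)]), Or.inl ⟨(q, d, ρ), m, hm, by simp, by simp⟩,
      ((sB (q, d), b), m ++ [((δ q d).2.1, ρ)]),
        Or.inl ⟨rfl, ((δ q d).2.1, ρ), (q, d, ρ), by simp [top], rfl, rfl, rfl⟩,
      ((sC (some (q, d)), b), m ++ [((δ q d).2.1, ρ), ((δ q d).2.2, some (q, d))]),
        Or.inl ⟨some (q, d), m ++ [((δ q d).2.1, ρ)], by simp, by simp, by simp⟩,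
      Or.inl ⟨rfl, ((δ q d).2.2, some (q, d)), some (q, d), by simp [top, tg], rfl, rfl, rfl⟩⟩
  · have h1 : ∀ R, Fr U R (tg b (ini, m)) (tg b (ini, m)) := fun R =>
      Or.inr ⟨rfl, by simp [U, tg], hm⟩
    exact ⟨_, h1 _, _, h1 _, _, h1 _, ((sC none, b), m ++ [(d0, none)]),
      Or.inl ⟨none, m, hm, by simp [tg], by simp⟩,
      Or.inl ⟨rfl, (d0, none), none, by simp [top, tg], rfl, rfl, rfl⟩⟩
  · have h3 : ∀ R, Fr U R c c := fun R => Or.inr ⟨rfl, fun h => h1 h.1, h2⟩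
    exact ⟨_, h3 _, _, h3 _, _, h3 _, _, Or.inr ⟨rfl, h1, h2⟩, Or.inr ⟨rfl, h1, h2⟩⟩

theorem queue_pcp [Finite Q] [Finite D] (e0 e1 : D) (P : ℕ → Prop)
    (yes : ∀ n, P n → ∃ w, ReflTransGen (QStep δ) (q0, replicate n e0 ++ [e1, d0]) (none, w))
    (no : ∀ n, ¬ P n → ∃ Inv : Option Q × List D → Prop, Inv (q0, replicate n e0 ++ [e1, d0]) ∧
      ∀ c, Inv c → ∃ c', QStep δ c c' ∧ Inv c') :
    ∃ u v : ℕ → List (List ℕ), CI ∅ u ∧ CI ∅ v ∧ ∀ n, (u n).length = (v n).length ∧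
      El (u n) ∧ El (v n) ∧ (P n ↔ Pcp (u n) (v n)) := by
  classical
  obtain ⟨N, hN⟩ := (revFw δ q0 d0 true).1.comp (revFw δ q0 d0 false).flip.1
  let T := {z : St Q D × Bool // z ≠ (ini, false) ∧ z ≠ (main none, false)}
  let tgt : T → St Q D × Bool := fun z => if z.1 = (main none, true) then (main none, false) else z.1
  have ht : Function.Injective tgt := by
    rintro ⟨z, h1, h2⟩ ⟨z', h1', h2'⟩
    simp only [tgt]
    split_ifs with h h' h' <;> intro e <;> refine Subtype.ext ?_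
    exacts [h.trans h'.symm, (h2' e.symm).elim, (h2 e).elim, e]
  have hK := (simK (Γ := D × Option (Q × D)) Subtype.val tgt (fun _ => none) (fun _ => none)
    (fun _ => none) (fun _ => none) Subtype.val_injective ht).comp hN
  have lift : ∀ c c', QStep δ c c' → ∀ d : List (D × Option (Q × D)), d.map Prod.fst = c.2 →
      2 ≤ d.length → ∃ d' : List (D × Option (Q × D)), d'.map Prod.fst = c'.2 ∧ 2 ≤ d'.length ∧
        Fw δ q0 d0 (main c.1, d) (main c'.1, d') := by
    rintro _ _ ⟨q, x, w, rfl, rfl⟩ d h1 h2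
    obtain ⟨⟨y, ρ⟩, m, rfl, rfl, rfl⟩ := map_eq_cons_iff.1 h1
    exact ⟨_, by simp, by simp, m, by rintro rfl; simp at h2, Or.inl ⟨q, y, ρ, rfl, rfl⟩⟩
  have src : ∀ e e', Fw δ q0 d0 e e' → e.1 ≠ main none ∧ e'.1 ≠ ini ∧ e.2 ≠ [] ∧ e'.2 ≠ [] := by
    rintro _ _ ⟨m, hm, ⟨q, d, ρ, rfl, rfl⟩ | ⟨rfl, rfl⟩⟩ <;> simp [hm]
  have init : ∀ n, Fw δ q0 d0 (ini, replicate n (e0, none) ++ [(e1, none)])
      (main q0, replicate n (e0, none) ++ [(e1, none)] ++ [(d0, none)]) := fun n =>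
    ⟨_, by simp, Or.inr ⟨rfl, rfl⟩⟩
  set R := fun c c'' => ∃ c', KR Subtype.val tgt (fun _ => none) (fun _ => none)
    (fun _ => none) (fun _ => none) c c' ∧ _ with hR
  have fw : ∀ e e', Fw δ q0 d0 e e' → R (tg true e) (tg true e') := fun e e' h =>
    ⟨tg true e, ⟨⟨(e.1, true), by simp⟩, e.2, (src _ _ h).2.2.1, by simp [tg],
      by simp [tg, tgt, (src _ _ h).1]⟩, tg true e', Or.inl ⟨e, e', h, rfl, rfl⟩,
      Or.inr ⟨rfl, by simp [tg], (src _ _ h).2.2.2⟩⟩
  have bw : ∀ e e', Fw δ q0 d0 e e' →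
      R (tg (decide (e'.1 = main none)) e') (tg (decide (e.1 = main none)) e) := fun e e' h => by
    obtain ⟨h1, h2, h3, h4⟩ := src _ _ h
    refine ⟨tg false e', ⟨⟨(e'.1, decide (e'.1 = main none)), by simp [h2]⟩, e'.2, h4, by simp [tg],
      ?_⟩, tg false e', Or.inr ⟨rfl, by simp [tg], h4⟩, Or.inl ⟨e, e', h, by simp [h1], rfl⟩⟩
    by_cases h5 : e'.1 = main none <;> simp [tg, tgt, h5]
  refine pcp_of _ hK (ini, true) (ini, false) ?_ (comp_hd _ _) (e0, none) (e1, none) P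
    (fun n h => ?_) fun n h => ?_
  · rintro (a | a)
    · intro h
      obtain ⟨x, h1, hx⟩ := mem_map.1 h
      rcases x with x | x <;> cases hx
      replace h1 : inl (inl (ini, false)) ∈ kh (S := St Q D × Bool) (Γ := D × Option (Q × D))
        (T := T) Subtype.val (fun _ => none) (fun _ => none) a := h1
      rcases a with τ | c | τ | c | τ | c <;> simp [kh] at h1
      exact τ.2.1 h1.symm
    · intro h
      obtain ⟨x, -, hx⟩ := mem_map.1 h
      cases hx
  · obtain ⟨w, hw⟩ := yes n h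
    have h1 : ∀ c, ReflTransGen (QStep δ) (q0, replicate n e0 ++ [e1, d0]) c →
        ∃ d : List (D × Option (Q × D)), d.map Prod.fst = c.2 ∧ 2 ≤ d.length ∧
          ReflTransGen (Fw δ q0 d0) (ini, replicate n (e0, none) ++ [(e1, none)]) (main c.1, d) := by
      intro c hc
      induction hc with
      | refl => exact ⟨_, by simp, by simp, .single (init n)⟩
      | tail _ h2 ih =>
        obtain ⟨d, h3, h4, h5⟩ := ih
        obtain ⟨d', h6, h7, h8⟩ := lift _ _ h2 d h3 h4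
        exact ⟨d', h6, h7, h5.tail h8⟩
    obtain ⟨d, -, -, h2⟩ := h1 _ hw
    have h3 : ∀ e e', ReflTransGen (Fw δ q0 d0) e e' → ReflTransGen R (tg true e) (tg true e') ∧
        ReflTransGen R (tg (decide (e'.1 = main none)) e') (tg (decide (e.1 = main none)) e) := by
      intro e e' h4
      induction h4 with
      | refl => exact ⟨.refl, .refl⟩
      | tail _ h5 ih => exact ⟨ih.1.tail (fw _ _ h5), .head (bw _ _ h5) ih.2⟩
    simpa [tg] using (h3 _ _ h2).1.trans (by simpa [tg] using (h3 _ _ h2).2)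
  · obtain ⟨Inv, h1, h2⟩ := no n h
    refine ⟨fun c => c = tg true (ini, replicate n (e0, none) ++ [(e1, none)]) ∨
      ∃ c0 d, Inv c0 ∧ d.map Prod.fst = c0.2 ∧ 2 ≤ d.length ∧ c = tg true (main c0.1, d),
      Or.inl rfl, ?_⟩
    rintro _ (rfl | ⟨c0, d, h3, h4, h5, rfl⟩)
    · exact ⟨_, fw _ _ (init n), Or.inr ⟨_, _, h1, by simp, by simp, rfl⟩⟩
    · obtain ⟨c1, h6, h7⟩ := h2 c0 h3
      obtain ⟨d', h8, h9, h10⟩ := lift _ _ h6 d h4 h5
      exact ⟨_, fw _ _ h10, Or.inr ⟨c1, d', h7, h8, h9, rfl⟩⟩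

end Pool.Agent.H73.EP
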