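import Pool.Agent.H73.EP4

/-!
Counter machines compute the primitive recursive functions.
-/

set_option autoImplicit false

namespace Pool.Agent.H73.EP

open Relation Function

abbrev Vl : Type := ℕ → ℕ
abbrev Ins (Q : Type) : Type := ℕ × Bool × Option Q × Option Q

def nxt {Q : Type} (x : Ins Q) (v : Vl) : Option Q × Vl :=
  if x.2.1 = true then (x.2.2.1, update v x.1 (v x.1 + 1))
  else if v x.1 = 0 then (x.2.2.2, v) else (x.2.2.1, update v x.1 (v x.1 - 1))

def CStep {Q : Type} (ins : Q → Ins Q) (c c' : Option Q × Vl) : Prop :=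
  ∃ q, c.1 = some q ∧ c' = nxt (ins q) c.2

def Prog (R : Vl → Vl → Prop) : Prop := ∃ (Q : Type) (_ : Finite Q) (ins : Q → Ins Q)
  (s : Option Q), ∀ v v', R v v' → ReflTransGen (CStep ins) (s, v) (none, v')

def mapI {Q Q' : Type} (φ : Option Q → Option Q') (x : Ins Q) : Ins Q' :=
  (x.1, x.2.1, φ x.2.2.1, φ x.2.2.2)

theorem embed {Q Q' : Type} {ins : Q → Ins Q} {ins' : Q' → Ins Q'} (φ : Option Q → Option Q')
    (h : ∀ q, ∃ q', φ (some q) = some q' ∧ ins' q' = mapI φ (ins q)) {c c' : Option Q × Vl}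
    (hc : ReflTransGen (CStep ins) c c') :
    ReflTransGen (CStep ins') (φ c.1, c.2) (φ c'.1, c'.2) := by
  induction hc with
  | refl => exact .refl
  | tail _ h2 ih =>
    obtain ⟨q, h3, rfl⟩ := h2
    obtain ⟨q', h4, h5⟩ := h q
    refine ih.tail ⟨q', by rw [h3, h4], ?_⟩
    simp only [h5, nxt, mapI]
    split_ifs <;> rfl

variable {R R' : Vl → Vl → Prop}

theorem Prog.mono (h : Prog R) (e : ∀ v v', R' v v' → R v v') : Prog R' := by
  obtain ⟨Q, _, ins, s, h⟩ := h
  exact ⟨Q, ‹_›, ins, s, fun v v' h1 => h v v' (e _ _ h1)⟩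

theorem Prog.skip : Prog fun v v' => v' = v :=
  ⟨Empty, inferInstance, Empty.elim, none, fun _ _ h => h ▸ .refl⟩

theorem Prog.inc (j : ℕ) : Prog fun v v' => v' = update v j (v j + 1) :=
  ⟨Unit, inferInstance, fun _ => (j, true, none, none), some (), fun _ _ h =>
    .single ⟨(), rfl, by simp [nxt, h]⟩⟩

theorem Prog.seq (h : Prog R) (h' : Prog R') : Prog fun v v'' => ∃ v', R v v' ∧ R' v' v'' := by
  obtain ⟨Q, _, ins, s, h⟩ := h
  obtain ⟨Q', _, ins', s', h'⟩ := h'
  let φ : Option Q → Option (Q ⊕ Q') := fun o => o.elim (s'.map .inr) fun q => some (.inl q)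
  refine ⟨Q ⊕ Q', inferInstance, Sum.elim (fun q => mapI φ (ins q))
    fun q => mapI (Option.map .inr) (ins' q), φ s, ?_⟩
  rintro v v'' ⟨v', h1, h2⟩
  refine (embed φ (fun q => ⟨.inl q, rfl, rfl⟩) (h _ _ h1)).trans ?_
  exact embed (Q' := Q ⊕ Q') (Option.map Sum.inr) (fun q => ⟨.inr q, rfl, rfl⟩) (h' _ _ h2)

theorem loop_core (j : ℕ) (h : Prog R) : ∃ (Q : Type) (_ : Finite Q) (ins : Q → Ins Q) (q : Q),
    (∀ v, v j = 0 → CStep ins (some q, v) (none, v)) ∧ ∀ v v', v j ≠ 0 →
      R (update v j (v j - 1)) v' → TransGen (CStep ins) (some q, v) (some q, v') := by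
  obtain ⟨Q, _, ins, s, h⟩ := h
  refine ⟨Option Q, inferInstance, fun o => o.elim (j, false, some s, none)
    fun q => mapI some (ins q), none, fun v hv => ⟨none, rfl, by simp [nxt, hv]⟩,
    fun v v' h1 h2 => .head' ⟨none, rfl, ?_⟩ (embed some (fun q => ⟨some q, rfl, rfl⟩) (h _ _ h2))⟩
  simp [nxt, h1]

theorem loop_run {Q : Type} {ins : Q → Ins Q} {q : Q} {j : ℕ} (h : ∀ v v', v j ≠ 0 →
      R (update v j (v j - 1)) v' → TransGen (CStep ins) (some q, v) (some q, v')) (F : ℕ → Vl)
    (n : ℕ) (hF : ∀ k < n, F k j ≠ 0 ∧ R (update (F k) j (F k j - 1)) (F (k + 1))) :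
    ReflTransGen (CStep ins) (some q, F 0) (some q, F n) := by
  induction n with
  | zero => exact .refl
  | succ n ih =>
    exact (ih fun k hk => hF k (by omega)).trans
      (h _ _ (hF n (by omega)).1 (hF n (by omega)).2).to_reflTransGen

theorem Prog.loop (j : ℕ) (h : Prog R) : Prog fun v v' => ∃ (F : ℕ → Vl) (n : ℕ), F 0 = v ∧
    F n = v' ∧ v' j = 0 ∧ ∀ k < n, F k j ≠ 0 ∧ R (update (F k) j (F k j - 1)) (F (k + 1)) := by
  obtain ⟨Q, _, ins, q, h1, h2⟩ := loop_core j h
  refine ⟨Q, ‹_›, ins, some q, ?_⟩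
  rintro _ _ ⟨F, n, rfl, rfl, h3, h4⟩
  exact (loop_run h2 F n h4).tail (h1 _ h3)

theorem Prog.clear (j : ℕ) : Prog fun v v' => v' = update v j 0 := by
  refine (Prog.skip.loop j).mono ?_
  rintro v _ rfl
  refine ⟨fun k => update v j (v j - k), v j, by simp, by simp, by simp, fun k hk => ?_⟩
  simp only [update_self, update_idem]
  exact ⟨by omega, rfl⟩

theorem Prog.move {a b : ℕ} (h : a ≠ b) :
    Prog fun v v' => v' = fun i => if i = a then 0 else if i = b then v b + v a else v i := by
  refine ((Prog.inc b).loop a).mono ?_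
  rintro v _ rfl
  refine ⟨fun k i => if i = a then v a - k else if i = b then v b + k else v i, v a, ?_, by simp,
    by simp, fun k hk => ⟨by simp; omega, ?_⟩⟩ <;> funext i <;> simp only [update_apply] <;>
    split_ifs <;> simp_all <;> omega

theorem Prog.add {a o t : ℕ} (h1 : a ≠ o) (h2 : a ≠ t) (h3 : o ≠ t) :
    Prog fun v v' => v t = 0 ∧ v' = update v o (v o + v a) := by
  refine ((((Prog.inc o).seq (Prog.inc t)).loop a).seq (Prog.move h2.symm)).mono ?_
  rintro v _ ⟨h, rfl⟩
  refine ⟨_, ⟨fun k i => if i = a then v a - k else if i = o then v o + k else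
    if i = t then k else v i, v a, ?_, rfl, by simp, fun k hk => ⟨by simp; omega, _, rfl, ?_⟩⟩, ?_⟩ <;>
    funext i <;> simp only [update_apply] <;> split_ifs <;> simp_all <;> omega

def Cmp (n : ℕ) (f : List.Vector ℕ n → ℕ) : Prop := ∀ (a : Fin n → ℕ) (o b : ℕ), (∀ i, a i < b) →
  o < b → (∀ i, a i ≠ o) → Prog fun v v' => (∀ j, b ≤ j → v j = 0) ∧
    v' = update v o (v o + f (List.Vector.ofFn fun i => v (a i)))

theorem cmp_of {n : ℕ} {f : List.Vector ℕ n → ℕ} (hf : Nat.Primrec' f) : Cmp n f := by
  induction hf with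
  | zero => exact fun a o b _ _ _ => Prog.skip.mono fun v v' h => by simp [h.2]
  | succ =>
    intro a o b h1 h2 h3
    refine ((Prog.add (t := b) (h3 0) (h1 0).ne h2.ne).seq (Prog.inc o)).mono ?_
    rintro v _ ⟨h, rfl⟩
    exact ⟨_, ⟨h b le_rfl, rfl⟩, by simp [add_assoc]⟩
  | get i =>
    intro a o b h1 h2 h3
    refine (Prog.add (t := b) (h3 i) (h1 i).ne h2.ne).mono ?_
    rintro v _ ⟨h, rfl⟩
    exact ⟨h b le_rfl, by simp⟩
  | @comp m n f g _ _ ihf ihg =>
    intro a o b h1 h2 h3
    let G : Vl → ℕ → ℕ := fun v t =>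
      if h : t < n then g ⟨t, h⟩ (List.Vector.ofFn fun i => v (a i)) else 0
    have p1 : ∀ k ≤ n, Prog fun v v' => (∀ j, b ≤ j → v j = 0) ∧
        v' = fun j => if b ≤ j ∧ j < b + k then G v (j - b) else v j := by
      intro k hk
      induction k with
      | zero => exact Prog.skip.mono fun v v' h => by rw [h.2]; funext j; rw [if_neg (by omega)]
      | succ k ih =>
        refine ((ih (by omega)).seq (ihg ⟨k, hk⟩ a (b + k) (b + n) (fun i => by have := h1 i; omega)
          (by omega) fun i => by have := h1 i; omega)).mono ?_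
        rintro v _ ⟨h, rfl⟩
        refine ⟨_, ⟨h, rfl⟩, fun j hj => by rw [if_neg (by omega), h j (by omega)], ?_⟩
        have e : ∀ i, (if b ≤ a i ∧ a i < b + k then G v (a i - b) else v (a i)) = v (a i) :=
          fun i => if_neg (by have := h1 i; omega)
        funext j
        simp only [update_apply, e]
        split_ifs <;> first | omega | rfl | skip
        subst j
        simp [G, h (b + k), show k < n from hk]
    have p3 : ∀ k, Prog fun v v' => v' = fun j => if b ≤ j ∧ j < b + k then 0 else v j := by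
      intro k
      induction k with
      | zero => exact Prog.skip.mono fun v v' h => by rw [h]; funext j; rw [if_neg (by omega)]
      | succ k ih =>
        refine (ih.seq (Prog.clear (b + k))).mono ?_
        rintro v _ rfl
        refine ⟨_, rfl, ?_⟩
        funext j
        simp only [update_apply]
        split_ifs <;> first | omega | rfl
    refine ((p1 n le_rfl).seq ((ihf (fun i => b + i) o (b + n) (fun i => by omega) (by omega)
      fun i => by omega).seq (p3 n))).mono ?_
    rintro v _ ⟨h, rfl⟩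
    refine ⟨_, ⟨h, rfl⟩, _, ⟨fun j hj => by rw [if_neg (by omega), h j (by omega)], rfl⟩, ?_⟩
    have e : ∀ i : Fin n, (if b ≤ b + i ∧ b + i < b + n then G v (b + i - b) else v (b + i)) =
        g i (List.Vector.ofFn fun i => v (a i)) := fun i => by simp [G]
    funext j
    simp only [update_apply, e]
    split_ifs <;> first | omega | rfl | exact h j (by omega)
  | @prec n f g _ _ ihf ihg =>
    intro a o b h1 h2 h3
    have h4 : ∀ i : Fin n, a i.succ < b := fun i => h1 _
    have h0 := h1 0
    have body := (ihg (Fin.cons (b + 1) (Fin.cons b fun i => a i.succ)) (b + 3) (b + 4)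
      (by simp only [Fin.forall_fin_succ, Fin.cons_zero, Fin.cons_succ]
          exact ⟨by omega, by omega, fun i => by have := h4 i; omega⟩) (by omega)
      (by simp only [Fin.forall_fin_succ, Fin.cons_zero, Fin.cons_succ]
          exact ⟨by omega, by omega, fun i => by have := h4 i; omega⟩)).seq
      ((Prog.clear b).seq ((Prog.move (a := b + 3) (b := b) (by omega)).seq (Prog.inc (b + 1))))
    refine ((ihf (fun i => a i.succ) b (b + 4) (fun i => by have := h4 i; omega) (by omega)
      fun i => (h4 i).ne).seq ((Prog.add (a := a 0) (o := b + 2) (t := b + 4) (by omega) (by omega)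
      (by omega)).seq ((body.loop (b + 2)).seq ((Prog.move h2.ne').seq (Prog.clear (b + 1)))))).mono ?_
    rintro v _ ⟨h, rfl⟩
    let w := List.Vector.ofFn fun i : Fin n => v (a i.succ)
    let r : ℕ → ℕ := fun k => k.rec (f w) fun y IH => g (y ::ᵥ IH ::ᵥ w)
    let F : ℕ → Vl := fun k j => if j = b then r k else if j = b + 1 then k else
      if j = b + 2 then v (a 0) - k else v j
    refine ⟨_, ⟨fun j hj => h j (by omega), rfl⟩, _, ⟨by simp [h], rfl⟩, _,
      ⟨F, v (a 0), ?_, rfl, by simp [F], fun k hk => ⟨by simp [F]; omega, _, ⟨fun j hj => ?_, rfl⟩,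
        _, rfl, _, rfl, ?_⟩⟩, _, rfl, ?_⟩
    · funext j
      simp only [update_apply, F]
      split_ifs <;> first | omega | rfl | simp_all [r, w]
    · simp only [update_apply, F]
      split_ifs <;> first | omega | exact h j (by omega)
    · have e : (List.Vector.ofFn fun i => update (F k) (b + 2) (F k (b + 2) - 1)
          ((Fin.cons (b + 1) (Fin.cons b fun i => a i.succ) : Fin (n + 2) → ℕ) i)) =
          k ::ᵥ r k ::ᵥ w := by
        have e2 : ∀ i : Fin n, update (F k) (b + 2) (F k (b + 2) - 1) (a i.succ) = v (a i.succ) :=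
          fun i => by
            have := h4 i
            simp only [update_apply, F]
            split_ifs <;> first | omega | rfl
        simp only [List.Vector.ofFn, Fin.cons_zero, Fin.cons_succ, e2]
        simp [F, w]
      rw [e]
      funext j
      have := h (b + 3) (by omega)
      simp only [update_apply, F]
      split_ifs <;> first | omega | rfl | simp_all [r]
    · funext j
      simp only [update_apply, F, List.Vector.head_ofFn, List.Vector.tail_ofFn]
      split_ifs <;> first | omega | rfl | simpa using h j (by omega)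

end Pool.Agent.H73.EP
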