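import Pool.Agent.H73.EP5
import Pool.Agent.H73.AutEq1

/-!
The correspondence problem for elementary morphisms is undecidable.
-/

set_option autoImplicit false

namespace Pool.Agent.H73.EP

open Relation Function Pool.Agent.H37 List Sum

def v0 (n : ℕ) : Vl := fun j => if j = 0 then n else if j = 2 then 1 else 0

theorem k_machine : ∃ (Q : Type) (_ : Finite Q) (ins : Q → Ins Q) (q : Q), ∀ n,
    ((∃ s, Kst n s = true) → ∃ v', ReflTransGen (CStep ins) (some q, v0 n) (none, v')) ∧
    ((¬ ∃ s, Kst n s = true) → ∃ F : ℕ → Vl, F 0 = v0 n ∧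
      ∀ k, TransGen (CStep ins) (some q, F k) (some q, F (k + 1))) := by
  have hp : Primrec₂ fun n s : ℕ => cond (Kst n s) 0 1 := by
    refine Primrec.cond (Primrec.option_isSome.comp ?_) (Primrec.const 0) (Primrec.const 1)
    exact Nat.Partrec.Code.primrec_evaln.comp
      ((Primrec.snd.pair ((Primrec.ofNat _).comp Primrec.fst)).pair Primrec.fst)
  let R : Vl → Vl → Prop := fun v v' => (∀ j, 3 ≤ j → v j = 0) ∧ v' = fun j =>
    if j = 1 then v 1 + 1 else if j = 2 then v 2 + cond (Kst (v 0) (v 1)) 0 1 else v j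
  have body : Prog R := by
    refine ((cmp_of (Nat.Primrec'.prim_iff₂.2 hp) ![0, 1] 2 3
      (by decide) (by omega) (by decide)).seq (Prog.inc 1)).mono ?_
    rintro v _ ⟨h, rfl⟩
    refine ⟨_, ⟨h, rfl⟩, ?_⟩
    funext j
    simp only [update_apply]
    split_ifs <;> first | omega | simp
  obtain ⟨Q, _, ins, q, h1, h2⟩ := loop_core 2 body
  refine ⟨Q, ‹_›, ins, q, fun n => ?_⟩
  let F : ℕ → Vl := fun k j => if j = 0 then n else if j = 1 then k else
    if j = 2 then (if ∃ s < k, Kst n s = true then 0 else 1) else 0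
  have F0 : F 0 = v0 n := by
    funext j
    simp only [F, v0]
    split_ifs <;> simp_all
  have step : ∀ k, (¬ ∃ s < k, Kst n s = true) →
      F k 2 ≠ 0 ∧ R (update (F k) 2 (F k 2 - 1)) (F (k + 1)) := fun k hk => by
    refine ⟨by simp only [F, hk]; simp, fun j hj => ?_, ?_⟩
    · simp only [update_apply, F]
      split_ifs <;> omega
    · have e : (∃ s < k + 1, Kst n s = true) ↔ Kst n k = true :=
        ⟨fun ⟨s, h3, h4⟩ => Kst_mono (by omega) h4, fun h => ⟨k, by omega, h⟩⟩
      funext j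
      simp only [update_apply, F, e, hk]
      by_cases h0 : j = 0
      · simp [h0]
      by_cases h1 : j = 1
      · simp [h1]
      by_cases h2 : j = 2
      · cases h3 : Kst n k <;> simp [h2, h3]
      · simp [h0, h1, h2]
  constructor
  · intro h
    refine ⟨F (Nat.find h + 1), F0 ▸ .tail (loop_run (R := R) h2 F (Nat.find h + 1) fun k hk =>
      step k fun ⟨s, h3, h4⟩ => Nat.find_min h (by omega) h4) (h1 _ ?_)⟩
    simp only [F]
    rw [if_neg (by omega), if_neg (by omega), if_pos trivial,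
      if_pos ⟨_, Nat.lt_succ_self _, Nat.find_spec h⟩]
  · refine fun h => ⟨F, F0, fun k => ?_⟩
    have := step k fun ⟨s, _, h4⟩ => h ⟨s, h4⟩
    exact h2 _ _ this.1 this.2

section
variable {Q : Type} {K : ℕ} (ins : Q → Ins Q) (reg : Q → Fin K)

def qd (p : Q × Bool) : Fin K ⊕ Bool → Option (Q × Bool) × (Fin K ⊕ Bool) × (Fin K ⊕ Bool)
  | inr true => if (ins p.1).2.1 = true then ((ins p.1).2.2.1.map (·, false), inl (reg p.1), inr true)
      else ((cond p.2 (ins p.1).2.2.1 (ins p.1).2.2.2).map (·, false), inr false, inr true)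
  | inr false => (some p, inr false, inr false)
  | inl i => if (ins p.1).2.1 = false ∧ p.2 = false ∧ i = reg p.1 then
      (some (p.1, true), inr false, inr false) else (some p, inl i, inr false)

def cnt (j : Fin K) : List (Fin K ⊕ Bool) → ℕ
  | [] => 0
  | inl i :: w => cnt j w + if i = j then 1 else 0
  | inr _ :: w => cnt j w

@[simp] theorem cnt_append (j : Fin K) (u w : List (Fin K ⊕ Bool)) :
    cnt j (u ++ w) = cnt j u + cnt j w := by
  induction u with
  | nil => simp [cnt]
  | cons d u ih => rcases d with i | b <;> simp only [cons_append, cnt, ih]; omega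

theorem cnt_rep (j i : Fin K) (n : ℕ) : cnt j (replicate n (inl i)) = if i = j then n else 0 := by
  induction n with
  | zero => simp [cnt]
  | succ n ih => rw [replicate_succ, cnt, ih]; split_ifs <;> rfl

theorem q_sweep (q : Q) (w : List (Fin K ⊕ Bool)) (hw : inr true ∉ w) : ∀ fd X, ∃ fd' w',
    ReflTransGen (QStep (qd ins reg)) (some (q, fd), w ++ X) (some (q, fd'), X ++ w') ∧
    inr true ∉ w' ∧
    (fd' = true ↔ fd = true ∨ ((ins q).2.1 = false ∧ cnt (reg q) w ≠ 0)) ∧
    ∀ i, cnt i w' + (if fd = false ∧ fd' = true ∧ i = reg q then 1 else 0) = cnt i w := by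
  induction w with
  | nil => exact fun fd X => ⟨fd, [], by simpa using .refl, by simp, by simp [cnt], by cases fd <;> simp⟩
  | cons d w ih =>
    intro fd X
    have ih := ih fun h => hw (mem_cons_of_mem _ h)
    rcases d with i | _ | _
    · by_cases h : (ins q).2.1 = false ∧ fd = false ∧ i = reg q
      · obtain ⟨fd', w', h1, h2, h3, h4⟩ := ih true (X ++ [inr false, inr false])
        obtain ⟨h5, rfl, rfl⟩ := h
        refine ⟨fd', inr false :: inr false :: w', .head ⟨_, _, w ++ X, rfl, ?_⟩ (by simpa using h1),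
          by simpa using h2, by simpa [h5, cnt] using h3, fun i => ?_⟩
        · simp [qd, h5]
        · have := h4 i
          obtain rfl : fd' = true := by simpa using h3
          simp only [cnt, @eq_comm _ (reg q) i] at this ⊢
          simpa using this
      · obtain ⟨fd', w', h1, h2, h3, h4⟩ := ih fd (X ++ [inl i, inr false])
        refine ⟨fd', inl i :: inr false :: w', .head ⟨_, _, w ++ X, rfl, ?_⟩ (by simpa using h1),
          by simpa using h2, ?_, fun j => ?_⟩
        · simp only [qd, if_neg h, append_assoc]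
        · rw [h3]
          clear ih h1 h3 h4
          cases fd <;> by_cases h6 : i = reg q <;> simp_all [cnt]
        · have := h4 j
          simp only [cnt]
          omega
    · obtain ⟨fd', w', h1, h2, h3, h4⟩ := ih fd (X ++ [inr false, inr false])
      refine ⟨fd', inr false :: inr false :: w', .head ⟨_, _, w ++ X, rfl, ?_⟩
        (by simpa using h1), by simpa using h2, h3, h4⟩
      simp [qd]
    · simp at hw

def Rep (v : Vl) (w : List (Fin K ⊕ Bool)) : Prop :=
  inr true ∉ w ∧ ∀ j : Fin K, cnt j w = v j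

theorem q_sim (hreg : ∀ q, (reg q).val = (ins q).1) {c c' : Option Q × Vl} (h : CStep ins c c')
    (w : List (Fin K ⊕ Bool)) (hw : Rep c.2 w) : ∃ w', Rep c'.2 w' ∧ TransGen (QStep (qd ins reg))
      (c.1.map (·, false), w ++ [inr true]) (c'.1.map (·, false), w' ++ [inr true]) := by
  obtain ⟨q, h1, rfl⟩ := h
  obtain ⟨fd, w', h2, h3, h4, h5⟩ := q_sweep ins reg q w hw.1 false [inr true]
  have h6 := hw.2 (reg q)
  have h7 : ∀ j : Fin K, (j.val = (ins q).1) ↔ j = reg q := fun j => by
    rw [← hreg, Fin.val_inj]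
  rw [h1, Option.map_some]
  rw [h6, hreg] at h4
  simp only [hw.2] at h5
  cases h8 : (ins q).2.1
  · refine ⟨w' ++ [inr false], ⟨by simpa using h3, fun j => ?_⟩,
      .tail' h2 ⟨_, _, w', rfl, ?_⟩⟩
    · have := h5 j
      simp only [nxt, h8]
      by_cases h9 : j = reg q <;> split_ifs <;> simp_all [cnt]
      omega
    · simp only [nxt, qd, h8]
      split_ifs <;> simp_all
  · refine ⟨w' ++ [inl (reg q)], ⟨by simpa using h3, fun j => ?_⟩,
      .tail' h2 ⟨_, _, w', rfl, by simp [nxt, qd, h8]⟩⟩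
    have := h5 j
    by_cases h9 : j = reg q <;> simp_all [nxt, cnt, @eq_comm _ (reg q) j]

end

theorem main : ∃ u v : ℕ → List (List ℕ), CI ∅ u ∧ CI ∅ v ∧ ∀ n, (u n).length = (v n).length ∧
    El (u n) ∧ El (v n) ∧ ((∃ s, Kst n s = true) ↔ Pcp (u n) (v n)) := by
  obtain ⟨Q, _, ins, q, h⟩ := k_machine
  obtain ⟨K, hK⟩ := (Set.finite_range fun q => (ins q).1).bddAbove
  let reg : Q → Fin (K + 3) := fun q => ⟨(ins q).1, Nat.lt_of_le_of_lt (hK ⟨q, rfl⟩) (by omega)⟩
  have sim := @q_sim _ _ ins reg fun _ => rfl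
  have simT : ∀ c c', TransGen (CStep ins) c c' → ∀ w, Rep c.2 w → ∃ w', Rep c'.2 w' ∧
      TransGen (QStep (qd ins reg)) (c.1.map (·, false), w ++ [inr true])
        (c'.1.map (·, false), w' ++ [inr true]) := fun c c' hc w hw => by
    induction hc with
    | single h1 => exact sim h1 w hw
    | tail _ h1 ih =>
      obtain ⟨w1, h2, h3⟩ := ih
      obtain ⟨w2, h4, h5⟩ := sim h1 w1 h2
      exact ⟨w2, h4, h3.trans h5⟩
  have r0 : ∀ n, Rep (K := K + 3) (v0 n) (replicate n (inl 0) ++ [inl 2]) := fun n => by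
    refine ⟨by simp, fun j => ?_⟩
    have e2 : (2 : Fin (K + 3)).val = 2 := rfl
    simp only [cnt_append, cnt_rep, cnt, v0, Fin.ext_iff, Fin.val_zero, e2]
    split_ifs <;> omega
  refine queue_pcp (qd ins reg) (some (q, false)) (inr true) (inl 0) (inl 2) _ (fun n hn => ?_)
    fun n hn => ?_
  · obtain ⟨v', h1⟩ := (h n).1 hn
    rcases reflTransGen_iff_eq_or_transGen.1 h1 with h2 | h2
    · simp at h2
    · obtain ⟨w', -, h3⟩ := simT _ _ h2 _ (r0 n)
      exact ⟨_, by simpa using h3.to_reflTransGen⟩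
  · obtain ⟨F, h1, h2⟩ := (h n).2 hn
    refine ⟨fun c => ∃ k w, Rep (F k) w ∧
      ReflTransGen (QStep (qd ins reg)) c (some (q, false), w ++ [inr true]),
      ⟨0, _, h1 ▸ r0 n, by simpa using .refl⟩, ?_⟩
    rintro c ⟨k, w, h3, h4⟩
    obtain ⟨w', h5, h6⟩ := simT _ _ (h2 k) w h3
    obtain ⟨c', h7, h8⟩ := TransGen.head'_iff.1 (TransGen.trans_right h4 h6)
    exact ⟨c', h7, k + 1, w', h5, h8⟩

theorem pcp_undec :
    ¬ (∃ P : List (List ℕ) × List (List ℕ) → Prop, ComputablePred P ∧
      ∀ u v : List (List ℕ), u.length = v.length →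
        (∀ m : ℕ, m < u.length → ∀ f : ℕ → List (Fin m), ∀ k : Fin m → List ℕ,
          ¬ ∀ i : ℕ, i < u.length → ((f i).map k).flatten = u.getD i []) →
        (∀ m : ℕ, m < v.length → ∀ f : ℕ → List (Fin m), ∀ k : Fin m → List ℕ,
          ¬ ∀ i : ℕ, i < v.length → ((f i).map k).flatten = v.getD i []) →
        (P (u, v) ↔ ∃ w : List ℕ, w ≠ [] ∧ (∀ i ∈ w, i < u.length) ∧
          (w.map (fun i => u.getD i [])).flatten = (w.map (fun i => v.getD i [])).flatten)) := by
  rintro ⟨P, hP, h⟩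
  obtain ⟨u, v, hu, hv, h1⟩ := main
  obtain ⟨f, hf, h2⟩ := computablePred_iff.1 hP
  refine K_not_computable (fun n => f (u n, v n)) (by fun_prop) fun n => ?_
  obtain ⟨h3, h4, h5, h6⟩ := h1 n
  rw [← h2, h6]
  exact h _ _ h3 h4 h5

theorem El.fin {G : List (List ℕ)} (h : El G) : ¬ ∃ m : ℕ, m < G.length ∧
    ∃ f : Fin G.length → List (Fin m), ∃ g : Fin m → List ℕ,
      ∀ i : Fin G.length, (f i).flatMap g = G.getD i.val [] := by
  rintro ⟨m, hm, f, g, h1⟩
  exact h m hm (fun i => if hi : i < G.length then f ⟨i, hi⟩ else []) g fun i hi => by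
    simpa [hi] using h1 ⟨i, hi⟩

open AutEq in
theorem eq_undec :
    ¬ (∃ F : List (List ℕ) × List (List ℕ) → List (List ℕ) × List ℕ,
      Computable F ∧
      ∀ G H : List (List ℕ),
        G.length = H.length →
        (¬ ∃ m : ℕ, m < G.length ∧ ∃ f : Fin G.length → List (Fin m),
            ∃ g : Fin m → List ℕ, ∀ i : Fin G.length, (f i).flatMap g = G.getD i.val []) →
        (¬ ∃ m : ℕ, m < H.length ∧ ∃ f : Fin H.length → List (Fin m),
            ∃ g : Fin m → List ℕ, ∀ i : Fin H.length, (f i).flatMap g = H.getD i.val []) →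
        ∀ w : List ℕ, (∀ a ∈ w, a < G.length) →
          (w.foldl (fun q a => ((F (G, H)).1.getD q []).getD a 0) 0 ∈ (F (G, H)).2 ↔
            w.flatMap (fun a => G.getD a []) = w.flatMap (fun a => H.getD a []))) := by
  classical
  rintro ⟨F, hF, h⟩
  obtain ⟨u, v, hu, hv, h1⟩ := main
  have hF' : CI ∅ F := CI.of_comp hF
  have h2 : REPred fun n => ∃ St : List ℕ, Al (0 :: St) (fun q => Al (range (u n).length) fun a =>
      ((F (u n, v n)).1.getD q []).getD a 0 ∈ St) ∧ Al St fun q => ¬ q ∈ (F (u n, v n)).2 :=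
    re_exists (cpred (by fun_prop)).to_re
  refine K_not_coRE (h2.of_eq fun n => ?_)
  obtain ⟨h3, h4, h5, h6⟩ := h1 n
  have h7 := h _ _ h3 h4.fin h5.fin
  rw [h6]
  generalize F (u n, v n) = A at h7 ⊢
  simp only [Al, mem_range]
  constructor
  · rintro ⟨St, h8, h9⟩ ⟨w, h10, h11, h12⟩
    have h13 : ∀ (w : List ℕ) q, q ∈ St → (∀ a ∈ w, a < (u n).length) →
        w.foldl (fun q a => (A.1.getD q []).getD a 0) q ∈ St := fun w => by
      induction w with
      | nil => exact fun q hq _ => hq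
      | cons a w ih =>
        exact fun q hq ha => ih _ (h8 q (mem_cons_of_mem _ hq) a (ha a mem_cons_self))
          fun b hb => ha b (mem_cons_of_mem _ hb)
    obtain ⟨a, w, rfl⟩ := exists_cons_of_ne_nil h10
    exact h9 _ (h13 w _ (h8 0 mem_cons_self a (h11 a mem_cons_self))
      fun b hb => h11 b (mem_cons_of_mem _ hb)) ((h7 _ h11).2 h12)
  · intro h8
    have h9 : ∀ q a, (A.1.getD q []).getD a 0 ∈ 0 :: A.1.flatten := fun q a => by
      rcases lt_or_ge a (A.1.getD q []).length with h9 | h9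
      · rcases lt_or_ge q A.1.length with h10 | h10
        · rw [getD_eq_getElem _ _ h9]
          exact mem_cons_of_mem _ (mem_flatten.2 ⟨_, by simp [h10], getElem_mem h9⟩)
        · simp [h10]
      · rw [getD_eq_default _ _ h9]; simp
    refine ⟨fil (fun q => ∃ w : List ℕ, w ≠ [] ∧ (∀ a ∈ w, a < (u n).length) ∧
      w.foldl (fun q a => (A.1.getD q []).getD a 0) 0 = q) (0 :: A.1.flatten), ?_, ?_⟩
    · intro q hq a ha
      refine mem_fil.2 ⟨h9 q a, ?_⟩
      rcases mem_cons.1 hq with rfl | hq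
      · exact ⟨[a], by simp, by simpa using ha, rfl⟩
      · obtain ⟨w, -, h10, rfl⟩ := (mem_fil.1 hq).2
        exact ⟨w ++ [a], by simp, fun b hb => (mem_append.1 hb).elim (h10 b) (by
          simp +contextual [ha]), by simp⟩
    · intro q hq h10
      obtain ⟨w, h11, h12, rfl⟩ := (mem_fil.1 hq).2
      exact h8 ⟨w, h11, h12, (h7 w h12).1 h10⟩

end Pool.Agent.H73.EP
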