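import Mathlib

set_option autoImplicit false

namespace Pool.Agent.H73.Engel3

abbrev R := ZMod 4

/-- The adjoint group of the truncated algebra with `bbaa = z`, `aaab = 2 z`. -/
@[ext] structure P where
  a : R
  b : R
  aa : R
  ab : R
  ba : R
  bb : R
  bba : R
  baa : R
  aaa : R
  aab : R
  z : R

namespace P

instance : One P := ⟨⟨0, 0, 0, 0, 0, 0, 0, 0, 0, 0, 0⟩⟩
instance : Mul P := ⟨fun x y =>
  ⟨x.a + y.a, x.b + y.b,
   x.aa + y.aa + x.a * y.a, x.ab + y.ab + x.a * y.b,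
   x.ba + y.ba + x.b * y.a, x.bb + y.bb + x.b * y.b,
   x.bba + y.bba + x.b * y.ba + x.bb * y.a,
   x.baa + y.baa + x.b * y.aa + x.ba * y.a,
   x.aaa + y.aaa + x.a * y.aa + x.aa * y.a,
   x.aab + y.aab + x.a * y.ab + x.aa * y.b,
   x.z + y.z + x.b * y.baa + x.bb * y.aa + x.bba * y.a
     + 2 * (x.a * y.aab + x.aa * y.ab + x.aaa * y.b)⟩⟩
instance : Inv P := ⟨fun x =>
  ⟨-x.a, -x.b, -x.aa + x.a * x.a, -x.ab + x.a * x.b, -x.ba + x.b * x.a, -x.bb + x.b * x.b,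
   -x.bba + x.b * x.ba + x.bb * x.a - x.b * x.b * x.a,
   -x.baa + x.b * x.aa + x.ba * x.a - x.b * x.a * x.a,
   -x.aaa + x.a * x.aa + x.aa * x.a - x.a * x.a * x.a,
   -x.aab + x.a * x.ab + x.aa * x.b - x.a * x.a * x.b,
   -x.z + (x.b * x.baa + x.bb * x.aa + x.bba * x.a)
     - (x.b * x.b * x.aa + x.b * x.ba * x.a + x.bb * x.a * x.a) + x.b * x.b * x.a * x.a
     + 2 * ((x.a * x.aab + x.aa * x.ab + x.aaa * x.b)
     - (x.a * x.a * x.ab + x.a * x.aa * x.b + x.aa * x.a * x.b) + x.a * x.a * x.a * x.b)⟩⟩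

@[simp] lemma one_a : (1 : P).a = 0 := rfl
@[simp] lemma one_b : (1 : P).b = 0 := rfl
@[simp] lemma one_aa : (1 : P).aa = 0 := rfl
@[simp] lemma one_ab : (1 : P).ab = 0 := rfl
@[simp] lemma one_ba : (1 : P).ba = 0 := rfl
@[simp] lemma one_bb : (1 : P).bb = 0 := rfl
@[simp] lemma one_bba : (1 : P).bba = 0 := rfl
@[simp] lemma one_baa : (1 : P).baa = 0 := rfl
@[simp] lemma one_aaa : (1 : P).aaa = 0 := rfl
@[simp] lemma one_aab : (1 : P).aab = 0 := rfl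
@[simp] lemma one_z : (1 : P).z = 0 := rfl
@[simp] lemma mul_a (x y : P) : (x * y).a = x.a + y.a := rfl
@[simp] lemma mul_b (x y : P) : (x * y).b = x.b + y.b := rfl
@[simp] lemma mul_aa (x y : P) : (x * y).aa = x.aa + y.aa + x.a * y.a := rfl
@[simp] lemma mul_ab (x y : P) : (x * y).ab = x.ab + y.ab + x.a * y.b := rfl
@[simp] lemma mul_ba (x y : P) : (x * y).ba = x.ba + y.ba + x.b * y.a := rfl
@[simp] lemma mul_bb (x y : P) : (x * y).bb = x.bb + y.bb + x.b * y.b := rfl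
@[simp] lemma mul_bba (x y : P) : (x * y).bba = x.bba + y.bba + x.b * y.ba + x.bb * y.a := rfl
@[simp] lemma mul_baa (x y : P) : (x * y).baa = x.baa + y.baa + x.b * y.aa + x.ba * y.a := rfl
@[simp] lemma mul_aaa (x y : P) : (x * y).aaa = x.aaa + y.aaa + x.a * y.aa + x.aa * y.a := rfl
@[simp] lemma mul_aab (x y : P) : (x * y).aab = x.aab + y.aab + x.a * y.ab + x.aa * y.b := rfl
@[simp] lemma mul_z (x y : P) : (x * y).z = x.z + y.z + x.b * y.baa + x.bb * y.aa + x.bba * y.a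
     + 2 * (x.a * y.aab + x.aa * y.ab + x.aaa * y.b) := rfl
@[simp] lemma inv_a (x : P) : (x⁻¹).a = -x.a := rfl
@[simp] lemma inv_b (x : P) : (x⁻¹).b = -x.b := rfl
@[simp] lemma inv_aa (x : P) : (x⁻¹).aa = -x.aa + x.a * x.a := rfl
@[simp] lemma inv_ab (x : P) : (x⁻¹).ab = -x.ab + x.a * x.b := rfl
@[simp] lemma inv_ba (x : P) : (x⁻¹).ba = -x.ba + x.b * x.a := rfl
@[simp] lemma inv_bb (x : P) : (x⁻¹).bb = -x.bb + x.b * x.b := rfl
@[simp] lemma inv_bba (x : P) :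
    (x⁻¹).bba = -x.bba + x.b * x.ba + x.bb * x.a - x.b * x.b * x.a := rfl
@[simp] lemma inv_baa (x : P) :
    (x⁻¹).baa = -x.baa + x.b * x.aa + x.ba * x.a - x.b * x.a * x.a := rfl
@[simp] lemma inv_aaa (x : P) :
    (x⁻¹).aaa = -x.aaa + x.a * x.aa + x.aa * x.a - x.a * x.a * x.a := rfl
@[simp] lemma inv_aab (x : P) :
    (x⁻¹).aab = -x.aab + x.a * x.ab + x.aa * x.b - x.a * x.a * x.b := rfl
@[simp] lemma inv_z (x : P) : (x⁻¹).z = -x.z + (x.b * x.baa + x.bb * x.aa + x.bba * x.a)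
     - (x.b * x.b * x.aa + x.b * x.ba * x.a + x.bb * x.a * x.a) + x.b * x.b * x.a * x.a
     + 2 * ((x.a * x.aab + x.aa * x.ab + x.aaa * x.b)
     - (x.a * x.a * x.ab + x.a * x.aa * x.b + x.aa * x.a * x.b) + x.a * x.a * x.a * x.b) := rfl

instance : Group P := Group.ofLeftAxioms
  (fun x y w => by ext <;> simp only [mul_a, mul_b, mul_aa, mul_ab, mul_ba, mul_bb, mul_bba,
      mul_baa, mul_aaa, mul_aab, mul_z] <;> ring)
  (fun x => by ext <;> simp)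
  (fun x => by ext <;> simp only [mul_a, mul_b, mul_aa, mul_ab, mul_ba, mul_bb, mul_bba,
      mul_baa, mul_aaa, mul_aab, mul_z, inv_a, inv_b, inv_aa, inv_ab, inv_ba, inv_bb, inv_bba,
      inv_baa, inv_aaa, inv_aab, inv_z, one_a, one_b, one_aa, one_ab, one_ba, one_bb, one_bba,
      one_baa, one_aaa, one_aab, one_z] <;> ring)

/-- commutator -/
def c (x y : P) : P := x⁻¹ * y⁻¹ * x * y

lemma L1 (x y : P) : (c x y).a = 0 ∧ (c x y).b = 0 ∧ (c x y).aa = 0 ∧ (c x y).bb = 0 ∧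
    (c x y).ab = x.a * y.b - x.b * y.a ∧ (c x y).ba = -(x.a * y.b - x.b * y.a) := by
  refine ⟨?_, ?_, ?_, ?_, ?_, ?_⟩ <;>
  simp only [c, mul_a, mul_b, mul_aa, mul_ab, mul_ba, mul_bb, inv_a, inv_b, inv_aa, inv_ab, inv_ba,
    inv_bb] <;> ring

lemma L2 (x y : P) (d : R) (h1 : x.a = 0) (h2 : x.b = 0) (h3 : x.aa = 0) (h4 : x.bb = 0)
    (h5 : x.ab = d) (h6 : x.ba = -d) :
    (c x y).a = 0 ∧ (c x y).b = 0 ∧ (c x y).aa = 0 ∧ (c x y).bb = 0 ∧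
    (c x y).ab = 0 ∧ (c x y).ba = 0 ∧ (c x y).bba = d * y.b ∧ (c x y).baa = -(d * y.a) ∧
    (c x y).aaa = 0 ∧ (c x y).aab = -(d * y.a) := by
  refine ⟨?_, ?_, ?_, ?_, ?_, ?_, ?_, ?_, ?_, ?_⟩ <;>
  simp only [c, mul_a, mul_b, mul_aa, mul_ab, mul_ba, mul_bb, mul_bba,
      mul_baa, mul_aaa, mul_aab, inv_a, inv_b, inv_aa, inv_ab, inv_ba, inv_bb, inv_bba,
      inv_baa, inv_aaa, inv_aab, h1, h2, h3, h4, h5, h6] <;> ring

lemma L3 (x y : P) (h1 : x.a = 0) (h2 : x.b = 0) (h3 : x.aa = 0) (h4 : x.bb = 0)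
    (h5 : x.ab = 0) (h6 : x.ba = 0) :
    c x y = ⟨0, 0, 0, 0, 0, 0, 0, 0, 0, 0,
      x.bba * y.a - y.b * x.baa + 2 * (x.aaa * y.b - y.a * x.aab)⟩ := by
  ext <;>
  simp only [c, mul_a, mul_b, mul_aa, mul_ab, mul_ba, mul_bb, mul_bba,
      mul_baa, mul_aaa, mul_aab, mul_z, inv_a, inv_b, inv_aa, inv_ab, inv_ba, inv_bb, inv_bba,
      inv_baa, inv_aaa, inv_aab, inv_z, h1, h2, h3, h4, h5, h6] <;> ring

lemma L (x y : P) : c (c (c x y) y) y = ⟨0, 0, 0, 0, 0, 0, 0, 0, 0, 0,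
      2 * (x.a * y.b - x.b * y.a) * y.a * (y.a + y.b)⟩ := by
  obtain ⟨h1, h2, h3, h4, h5, h6⟩ := L1 x y
  obtain ⟨k1, k2, k3, k4, k5, k6, k7, k8, k9, k10⟩ := L2 _ y _ h1 h2 h3 h4 h5 h6
  rw [L3 _ y k1 k2 k3 k4 k5 k6, k7, k8, k9, k10]
  congr 1
  ring

lemma good (x y : P) (h : 2 * x.b = 2 * y.b) : c (c (c x y) y) y = 1 := by
  rw [L]
  have : ∀ p q r s : R, 2 * q = 2 * s → 2 * (p * s - q * r) * r * (r + s) = 0 := by decide
  rw [this _ _ _ _ h]; rfl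

def y0 : P := ⟨0, 1, 0, 0, 0, 0, 0, 0, 0, 0, 0⟩
def m0 : P := ⟨1, 0, 0, 0, 0, 0, 0, 0, 0, 0, 0⟩

lemma bad : c (c (c y0 m0) m0) m0 ≠ 1 := by
  rw [L]
  intro h
  have := congrArg P.z h
  revert this
  simp only [y0, m0, one_z]
  decide

end P

/-- fibre power -/
def G : Subgroup (ℕ → P) where
  carrier := {g | ∀ i, 2 * (g i).b = 2 * (g 0).b}
  one_mem' := fun _ => rfl
  mul_mem' := by
    intro g h hg hh i
    simp only [Pi.mul_apply, P.mul_b, mul_add, hg i, hh i]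
  inv_mem' := by
    intro g hg i
    simp only [Pi.inv_apply, P.inv_b, mul_neg, hg i]

lemma iter3 {H : Type*} [Group H] (x y : H) :
    (fun z => z⁻¹ * y⁻¹ * z * y)^[3] x =
      ((x⁻¹ * y⁻¹ * x * y)⁻¹ * y⁻¹ * (x⁻¹ * y⁻¹ * x * y) * y)⁻¹ * y⁻¹ *
      ((x⁻¹ * y⁻¹ * x * y)⁻¹ * y⁻¹ * (x⁻¹ * y⁻¹ * x * y) * y) * y := rfl

lemma iter3_G (x y : G) (i : ℕ) :
    (((fun z => z⁻¹ * y⁻¹ * z * y)^[3] x : G) : ℕ → P) i =
      P.c (P.c (P.c (x.1 i) (y.1 i)) (y.1 i)) (y.1 i) := rfl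

def e (i : ℕ) : G := ⟨fun j => if j = i then P.y0 * P.m0 else P.y0, by
  intro j
  have h : ∀ j, (if j = i then P.y0 * P.m0 else P.y0).b = 1 := by
    intro j; split_ifs <;> simp [P.y0, P.m0]
  simp only [h]⟩

lemma e_inj : Function.Injective e := by
  intro i j h
  by_contra hij
  have := congrArg (fun g : G => (g.1 i).a) h
  simp [e, hij, P.y0, P.m0] at this
  exact absurd this (by decide)

theorem main :
    ¬ (∀ k : ℕ, 1 ≤ k → ∀ (G : Type) [Group G],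
      (∀ S : Set G, S.Infinite →
        ∃ x ∈ S, ∃ y ∈ S, x ≠ y ∧
          (fun z => z⁻¹ * y⁻¹ * z * y)^[k] x = 1 ∧
          (fun z => z⁻¹ * x⁻¹ * z * x)^[k] y = 1) →
      (∀ S : Set G, S.Infinite →
        ∃ x ∈ S, ∃ y ∈ S, x ≠ y ∧
          ∀ a ∈ Subgroup.closure ({x, y} : Set G),
            ∀ b ∈ Subgroup.closure ({x, y} : Set G),
              (fun z => z⁻¹ * b⁻¹ * z * b)^[k] a = 1)) := by
  intro h
  have h1 := h 3 (by norm_num) G (by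
    intro S hS
    obtain ⟨x, hx, y, hy, hxy, hf⟩ := Set.Infinite.exists_ne_map_eq_of_mapsTo
      (f := fun g : G => 2 * (g.1 0).b) (t := Set.univ) hS (Set.mapsTo_univ _ _) Set.finite_univ
    refine ⟨x, hx, y, hy, hxy, ?_, ?_⟩
    · ext1; funext i
      rw [iter3_G]
      exact P.good _ _ (by rw [x.2 i, y.2 i]; exact hf)
    · ext1; funext i
      rw [iter3_G]
      exact P.good _ _ (by rw [x.2 i, y.2 i]; exact hf.symm))
    (Set.range e) (Set.infinite_range_of_injective e_inj)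
  obtain ⟨_, ⟨i, rfl⟩, _, ⟨j, rfl⟩, hij, h2⟩ := h1
  have hij' : i ≠ j := fun h => hij (by rw [h])
  have hi : e i ∈ Subgroup.closure ({e i, e j} : Set G) := Subgroup.subset_closure (by simp)
  have hj : e j ∈ Subgroup.closure ({e i, e j} : Set G) := Subgroup.subset_closure (by simp)
  have h3 := h2 (e j) hj ((e j)⁻¹ * e i) (mul_mem (inv_mem hj) hi)
  have h4 := congrArg (fun g : G => g.1 i) h3
  simp only [iter3_G] at h4
  have h5 : (e j).1 i = P.y0 := by simp [e, hij']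
  have h6 : ((e j)⁻¹ * e i).1 i = P.m0 := by
    simp [e, hij']
  rw [h5, h6] at h4
  exact P.bad h4

end Pool.Agent.H73.Engel3
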