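import Pool.Agent.H73.Twist
import Pool.Agent.H73.Dense

/-!
FC-groups whose derived subgroup embeds in a restricted direct product of finite groups.
-/

set_option autoImplicit false

namespace Pool.Agent.H73.FCDer

open Subgroup Pool.Agent.H73.CentRes Pool.Agent.H73.Twist
open scoped commutatorElement IsMulCommutative

def SD (H : Type) [Group H] : Prop := ∃ 𝓛 : Set (Subgroup H), (∀ N ∈ 𝓛, FN N) ∧
  (∀ y, (∀ N ∈ 𝓛, y ∈ N) → y = 1) ∧ ∀ y, {N | N ∈ 𝓛 ∧ y ∉ N}.Finite

variable {G : Type} [Group G]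

theorem twist2 (𝓜 : Set (Subgroup G)) (T : Subgroup G) (m1 : ∀ N ∈ 𝓜, FN N)
    (m2 : ∀ y ∈ T, (∀ N ∈ 𝓜, y ∈ N) → y = 1) (m3 : ∀ g, {N | N ∈ 𝓜 ∧ g ∉ Z N}.Finite)
    (m4 : ∀ y ∈ T, {N | N ∈ 𝓜 ∧ y ∉ N}.Finite)
    {J : Type} {C : J → Type} [∀ j, AddCommGroup (C j)] [∀ j, Finite (C j)]
    (hC : ∀ j, IsAddCyclic (C j)) (π : G →* Multiplicative (Π₀ j, C j))
    (hs : Function.Surjective π) (hk : ∀ h, π h = 1 → h ∈ T) : SD G := by
  classical
  have hn : ∀ N : 𝓜, N.1.Normal := fun N => (m1 N.1 N.2).1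
  have hf : ∀ N : 𝓜, N.1.FiniteIndex := fun N => (m1 N.1 N.2).2
  choose c hc using fun j => (hC j).exists_generator
  choose g hg using fun j => hs (Multiplicative.ofAdd (DFinsupp.single j (c j)))
  have hz : ∀ (N : 𝓜) j, ∃ z : center (G ⧸ N.1), z ^ addOrderOf (c j) = 1 ∧
      (g j ∈ Z N.1 → g j ^ addOrderOf (c j) ∈ N.1 → z = (g j : G ⧸ N.1)) := by
    intro N j
    by_cases h : g j ∈ Z N.1 ∧ g j ^ addOrderOf (c j) ∈ N.1
    · refine ⟨⟨(g j : G ⧸ N.1), mem_center_iff.mpr (fun q => ?_)⟩, Subtype.ext ?_,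
        fun _ _ => rfl⟩
      · obtain ⟨y, rfl⟩ := QuotientGroup.mk_surjective q
        have := (QuotientGroup.eq_one_iff _).mpr (sym (h.1 y))
        rw [← QuotientGroup.mk'_apply, map_commutatorElement,
          commutatorElement_eq_one_iff_mul_comm] at this
        exact this
      · exact (QuotientGroup.eq_one_iff _).mpr h.2
    · exact ⟨1, one_pow _, fun h1 h2 => absurd ⟨h1, h2⟩ h⟩
  choose z hz1 hz2 using hz
  choose ψ hψ using fun N : 𝓜 => exists_lift c hc (z N) (hz1 N)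
  let φ : ∀ N : 𝓜, G →* G ⧸ N.1 := fun N => MonoidHom.mk'
    (fun h => (h : G ⧸ N.1) * ((ψ N (π h))⁻¹ : center (G ⧸ N.1))) (fun a b => by
      simp only [map_mul, mul_inv, coe_mul, QuotientGroup.mk_mul, mul_assoc]
      congr 1
      rw [← mul_assoc, ← mul_assoc, mem_center_iff.mp (ψ N (π a))⁻¹.2])
  have hφ : ∀ N h, φ N h = (h : G ⧸ N.1) * ((ψ N (π h))⁻¹ : center (G ⧸ N.1)) :=
    fun _ _ => rfl
  have hφ1 : ∀ N h, π h = 1 → φ N h = (h : G ⧸ N.1) := fun N h hh => by simp [hφ, hh]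
  let ev : ∀ j, G →* Multiplicative (C j) := fun j =>
    (AddMonoidHom.toMultiplicative (DFinsupp.evalAddMonoidHom j)).comp π
  let S : Subgroup G :=
    { carrier := {h | {N | φ N h ≠ 1}.Finite}
      one_mem' := by simp
      mul_mem' := fun {a b} ha hb => (Set.Finite.union ha hb).subset (fun N hN => by
        by_contra hc
        simp only [Set.mem_union, Set.mem_ofPred_eq, not_or, not_not] at hc
        exact hN (by rw [map_mul, hc.1, hc.2, mul_one]))
      inv_mem' := fun {a} ha => by simpa using ha }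
  have hS1 : ∀ h, π h = 1 → h ∈ S := by
    intro h hh
    refine ((m4 _ (hk h hh)).preimage Subtype.val_injective.injOn).subset
      (fun N hN => ⟨N.2, fun h4 => hN ?_⟩)
    rw [hφ1 N h hh]
    exact (QuotientGroup.eq_one_iff _).mpr h4
  have hS2 : ∀ j, g j ∈ S := by
    intro j
    have h1 : π (g j ^ addOrderOf (c j)) = 1 := by
      rw [map_pow, hg, ← ofAdd_nsmul, ← DFinsupp.single_smul, addOrderOf_nsmul_eq_zero]
      simp
    refine (((m3 (g j)).union (m4 _ (hk _ h1))).preimage Subtype.val_injective.injOn).subset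
      (fun N hN => ?_)
    by_contra hc
    simp only [Set.mem_preimage, Set.mem_union, Set.mem_ofPred_eq, not_or, not_and, not_not] at hc
    apply hN
    rw [hφ, hg, hψ, coe_inv, hz2 N j (hc.1 N.2) (hc.2 N.2), mul_inv_cancel]
  have hS : ∀ h, h ∈ S := by
    have key : ∀ v : Π₀ j, C j, Multiplicative.ofAdd v ∈ S.map π := by
      intro v
      induction v using DFinsupp.induction with
      | h0 => exact one_mem _
      | ha j b f _ _ ih =>
        rw [ofAdd_add]
        refine mul_mem ?_ ih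
        obtain ⟨k, rfl⟩ := hc j b
        simp only
        rw [DFinsupp.single_smul, ofAdd_zsmul, ← hg]
        exact zpow_mem (mem_map_of_mem π (hS2 j)) k
    intro h
    obtain ⟨s, hs1, hs2⟩ := key (π h).toAdd
    have := mul_mem hs1 (hS1 (s⁻¹ * h) (by rw [map_mul, map_inv, hs2]; simp))
    simpa using this
  refine ⟨Set.range (fun N => (φ N).ker) ∪ Set.range (fun j => (ev j).ker), ?_, ?_, ?_⟩
  · rintro _ (⟨N, rfl⟩ | ⟨j, rfl⟩)
    · exact ⟨inferInstance, inferInstance⟩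
    · exact ⟨inferInstance, inferInstance⟩
  · intro y hy
    have h1 : π y = 1 := by
      apply Multiplicative.toAdd.injective
      ext j
      exact congrArg Multiplicative.toAdd (hy _ (Or.inr ⟨j, rfl⟩))
    refine m2 _ (hk y h1) (fun N hN => ?_)
    have := hy _ (Or.inl ⟨⟨N, hN⟩, rfl⟩)
    rw [MonoidHom.mem_ker, hφ1 _ y h1] at this
    have h2 : N.Normal := hn ⟨N, hN⟩
    exact (QuotientGroup.eq_one_iff _).mp this
  · intro y
    refine ((Set.Finite.image (fun N => (φ N).ker) (hS y)).union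
      ((π y).toAdd.support.finite_toSet.image (fun j => (ev j).ker))).subset ?_
    rintro _ ⟨⟨N, rfl⟩ | ⟨j, rfl⟩, h⟩
    · exact Or.inl ⟨N, h, rfl⟩
    · exact Or.inr ⟨j, DFinsupp.mem_support_iff.mpr h, rfl⟩

theorem twist3 (𝓜 : Set (Subgroup G)) (T : Subgroup G) (m1 : ∀ N ∈ 𝓜, FN N)
    (m2 : ∀ y ∈ T, (∀ N ∈ 𝓜, y ∈ N) → y = 1) (hfc : ∀ g : G, {h : G | IsConj g h}.Finite)
    (m4 : ∀ y ∈ T, {N | N ∈ 𝓜 ∧ y ∉ N}.Finite) {e : ℕ} (he : 0 < e)
    (t1 : ∀ a b : G, ⁅a, b⁆ ∈ T) (t2 : ∀ a, a ^ e ∈ T) : SD G := by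
  classical
  let A0 := Abelianization G ⧸ (powMonoidHom e : Abelianization G →* Abelianization G).range
  let p : G →* A0 := (QuotientGroup.mk' _).comp Abelianization.of
  have hp : Function.Surjective p := (QuotientGroup.mk'_surjective _).comp
    QuotientGroup.mk_surjective
  have hA : ∀ a : Additive A0, e • a = 0 := by
    intro a
    obtain ⟨y, hy⟩ := QuotientGroup.mk_surjective a.toMul
    have : a.toMul ^ e = 1 := by
      rw [← hy, ← QuotientGroup.mk_pow, QuotientGroup.eq_one_iff]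
      exact ⟨y, rfl⟩
    exact congrArg Additive.ofMul this
  have hA' : ∀ a : Additive A0, IsOfFinAddOrder a := fun a =>
    isOfFinAddOrder_iff_nsmul_eq_zero.mpr ⟨e, he, hA a⟩
  obtain ⟨J, hinj, hdiv⟩ := BasicSub.exists_basic hA'
  let ε := AddEquiv.ofBijective (BasicSub.sig J) ⟨hinj, fun a => by
    obtain ⟨y, hy⟩ := hdiv a e he
    rwa [hA, sub_zero] at hy⟩
  have : ∀ j : J, Finite (AddSubgroup.zmultiples (j : Additive A0)) :=
    fun j => (hA' j).finite_zmultiples.to_subtype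
  refine twist2 𝓜 T m1 m2 (fun g => ?_) m4 (fun j => inferInstance)
    ((AddMonoidHom.toMultiplicativeRight ε.symm.toAddMonoidHom).comp p) (fun v => ?_)
    (fun h hh => ?_)
  · refine (((hfc g⁻¹).image fun h => g * h).biUnion (t := fun y => {N | N ∈ 𝓜 ∧ y ∉ N})
      fun y hy => m4 y ?_).subset ?_
    · obtain ⟨h, hh, rfl⟩ := hy
      obtain ⟨c, rfl⟩ := isConj_iff.mp hh
      simpa [commutatorElement_def, mul_assoc] using t1 g c
    · rintro N ⟨hN, hg⟩
      obtain ⟨y, hy⟩ := not_forall.mp hg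
      refine Set.mem_biUnion ⟨y * g⁻¹ * y⁻¹, isConj_iff.mpr ⟨y, rfl⟩, rfl⟩ ⟨hN, ?_⟩
      simpa [commutatorElement_def, mul_assoc] using hy
  · obtain ⟨y, hy⟩ := hp (ε v.toAdd).toMul
    refine ⟨y, ?_⟩
    change Multiplicative.ofAdd (ε.symm (Additive.ofMul (p y))) = v
    rw [hy]; simp
  · have h1 : ε.symm (Additive.ofMul (p h)) = 0 := congrArg Multiplicative.toAdd hh
    rw [map_eq_zero_iff _ ε.symm.injective] at h1
    obtain ⟨y, hy⟩ := (QuotientGroup.eq_one_iff (Abelianization.of h)).mp h1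
    obtain ⟨w, rfl⟩ := QuotientGroup.mk_surjective y
    have h2 : (w ^ e)⁻¹ * h ∈ _root_.commutator G := by
      rw [← Abelianization.ker_of, MonoidHom.mem_ker, map_mul, map_inv, map_pow, ← hy]
      exact inv_mul_cancel _
    have h3 : _root_.commutator G ≤ T := commutator_le.mpr fun a _ b _ => t1 a b
    simpa using mul_mem (t2 w) (h3 h2)

theorem cent_fi (hfc : ∀ g : G, {h : G | IsConj g h}.Finite) (x : G) :
    (centralizer {x}).FiniteIndex := by
  have := (hfc x).to_subtype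
  have : Finite (G ⧸ centralizer {x}) := Finite.of_injective
    (fun q => (⟨q.out * x * q.out⁻¹, isConj_iff.mpr ⟨_, rfl⟩⟩ : {h : G | IsConj x h}))
    fun q q' h => by
      rw [← q.out_eq', ← q'.out_eq', QuotientGroup.eq, mem_centralizer_singleton_iff]
      have h1 : q.out * x * q.out⁻¹ = q'.out * x * q'.out⁻¹ := Subtype.mk.inj h
      calc q.out⁻¹ * q'.out * x = q.out⁻¹ * (q'.out * x * q'.out⁻¹) * q'.out := by group
        _ = _ := by rw [← h1]; group
  exact finiteIndex_of_finite_quotient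

/-- centraliser of a conjugacy class -/
def CC (x : G) : Subgroup G := (centralizer {x}).normalCore

theorem CC_fn (hfc : ∀ g : G, {h : G | IsConj g h}.Finite) (x : G) : FN (CC x) := by
  have := cent_fi hfc x
  exact ⟨normalCore_normal _, finiteIndex_normalCore _⟩

theorem CC_comm {x g : G} (h : g ∈ CC x) : g * x = x * g :=
  mem_centralizer_singleton_iff.mp (normalCore_le _ h)

theorem fn_map {H : Type} [Group H] {f : G →* H} (hf : Function.Surjective f) {N : Subgroup G}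
    (h : FN N) : FN (N.map f) :=
  ⟨h.1.map f hf, ⟨fun h0 => h.2.index_ne_zero (zero_dvd_iff.mp (h0 ▸ index_map_dvd N hf))⟩⟩

theorem fc_map {H : Type} [Group H] {f : G →* H} (hf : Function.Surjective f)
    (hfc : ∀ g : G, {h : G | IsConj g h}.Finite) (g : H) : {h : H | IsConj g h}.Finite := by
  obtain ⟨g, rfl⟩ := hf g
  refine ((hfc g).image f).subset fun h hh => ?_
  obtain ⟨c, rfl⟩ := isConj_iff.mp hh
  obtain ⟨c, rfl⟩ := hf c
  exact ⟨c * g * c⁻¹, isConj_iff.mpr ⟨c, rfl⟩, by simp⟩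

theorem map_CC {x g : G} : (QuotientGroup.mk' (center G)) g ∈
    (CC x).map (QuotientGroup.mk' (center G)) ↔ g ∈ CC x := by
  have : center G ≤ CC x := (normal_le_normalCore).mpr (center_le_centralizer _)
  rw [← mem_comap, comap_map_eq, QuotientGroup.ker_mk', sup_eq_left.mpr this]

theorem tors (hfc : ∀ g : G, {h : G | IsConj g h}.Finite) : Monoid.IsTorsion (G ⧸ center G) := by
  intro q
  obtain ⟨g, rfl⟩ := QuotientGroup.mk_surjective q
  have := cent_fi hfc g
  obtain ⟨s, s1, -, s2⟩ := Dense.tr1 ⊤ (centralizer {g})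
  have := s1.to_subtype
  have : (⨅ x : s, CC x.1).FiniteIndex := finiteIndex_iInf fun x => (CC_fn hfc x.1).2
  obtain ⟨n, hn, -, h⟩ := exists_pow_mem_of_index_ne_zero
    (FiniteIndex.index_ne_zero (H := ⨅ x : s, CC x.1)) g
  refine isOfFinOrder_iff_pow_eq_one.mpr ⟨n, hn, ?_⟩
  rw [← QuotientGroup.mk_pow, QuotientGroup.eq_one_iff, mem_center_iff]
  intro y
  obtain ⟨x, hx, hx'⟩ := s2 y trivial
  have h1 : Commute (g ^ n) x := CC_comm (mem_iInf.mp h ⟨x, hx⟩)
  have h2 : Commute (x⁻¹ * y) g := mem_centralizer_singleton_iff.mp hx'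
  have h3 := (h1.mul_right (h2.pow_right n).symm).symm
  rwa [mul_inv_cancel_left] at h3

theorem thmB (hfc : ∀ g : G, {h : G | IsConj g h}.Finite) {e : ℕ} (he : 0 < e)
    (hD : ∀ a b : G, ⁅a, b⁆ ^ e = 1) : SD (G ⧸ center G) := by
  let π := QuotientGroup.mk' (center G)
  have hπ : Function.Surjective π := QuotientGroup.mk'_surjective _
  have hfc' := fc_map hπ hfc
  obtain ⟨𝓜, m1, m2, m3⟩ := exists_family (dietzmann (tors hfc) hfc') (fun q hq => by
    obtain ⟨g, rfl⟩ := hπ q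
    obtain ⟨x, hx⟩ := not_forall.mp fun h =>
      hq ((QuotientGroup.eq_one_iff g).mpr (mem_center_iff.mpr h))
    have := fn_map hπ (CC_fn hfc x)
    exact ⟨_, this.1, this.2, fun h => hx (CC_comm (map_CC.mp h)).symm⟩)
  let ZZ : 𝓜 → Subgroup (G ⧸ center G) := fun N => Z N.1
  have hZn : ∀ N, (ZZ N).Normal := fun N => Z_normal (m1 N.1 N.2).1
  have hZs : ∀ g, (Dense.supp ZZ g).Finite := fun g =>
    ((m3 g).preimage Subtype.val_injective.injOn).subset fun N hN => ⟨N.2, hN⟩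
  obtain ⟨X, x1, x2⟩ := Dense.dense hZn (fun N => by
    have := (m1 N.1 N.2).2
    exact finiteIndex_of_le (le_Z (m1 N.1 N.2).1)) hZs
  let T : Subgroup G :=
    { carrier := {t | ∃ σ : Set 𝓜, σ.Finite ∧ ∀ x, (∀ N ∈ σ, π x ∈ ZZ N) → Commute t x}
      one_mem' := ⟨∅, Set.finite_empty, fun x _ => Commute.one_left x⟩
      mul_mem' := by
        rintro a b ⟨σ, h1, h2⟩ ⟨σ', h1', h2'⟩
        exact ⟨σ ∪ σ', h1.union h1', fun x hx => (h2 x fun N hN => hx N (Or.inl hN)).mul_left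
          (h2' x fun N hN => hx N (Or.inr hN))⟩
      inv_mem' := by
        rintro a ⟨σ, h1, h2⟩
        exact ⟨σ, h1, fun x hx => (h2 x hx).inv_left⟩ }
  have hc : ∀ a x : G, (∀ N ∈ Dense.supp ZZ (π a), π x ∈ ZZ N) → ⁅x, a⁆ ∈ center G := by
    intro a x hx
    rw [← QuotientGroup.eq_one_iff, ← QuotientGroup.mk'_apply, map_commutatorElement]
    refine m2 _ (commutator_mem_commutator trivial trivial) fun N hN => ?_
    by_cases h : (⟨N, hN⟩ : 𝓜) ∈ Dense.supp ZZ (π a)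
    · exact hx _ h _
    · exact sym ((not_not.mp h) _)
  have hc' : ∀ a x : G, x * a * x⁻¹ = ⁅x, a⁆ * a := fun a x => by
    simp [commutatorElement_def]
  have hT1 : ∀ a b : G, ⁅a, b⁆ ∈ T := by
    intro a b
    refine ⟨_, (hZs (π a)).union (hZs (π b)), fun x hx => ?_⟩
    have h1 := mem_center_iff.mp (hc a x fun N hN => hx N (Or.inl hN))
    have h2 := mem_center_iff.mp (hc b x fun N hN => hx N (Or.inr hN))
    have h3 : x * ⁅a, b⁆ * x⁻¹ = ⁅x * a * x⁻¹, x * b * x⁻¹⁆ := by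
      simp only [commutatorElement_def]; group
    rw [hc' a, hc' b] at h3
    generalize ⁅x, a⁆ = u at h1 h3
    generalize ⁅x, b⁆ = v at h2 h3
    have h4 : ⁅u * a, v * b⁆ = ⁅a, b⁆ := by
      simp only [commutatorElement_def]
      calc u * a * (v * b) * (u * a)⁻¹ * (v * b)⁻¹ = u * (a * v * b * a⁻¹) * u⁻¹ * b⁻¹ * v⁻¹ := by
            group
        _ = (a * v) * (b * a⁻¹ * b⁻¹) * v⁻¹ := by rw [← h1]; group
        _ = v * (a * b * a⁻¹ * b⁻¹) * v⁻¹ := by rw [h2]; group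
        _ = _ := by rw [← h2]; group
    rw [h4, mul_inv_eq_iff_eq_mul] at h3
    exact h3.symm
  have hT2 : ∀ a, a ^ e ∈ T := by
    intro a
    refine ⟨_, hZs (π a), fun x hx => ?_⟩
    have h1 : Commute ⁅x, a⁆ a := (mem_center_iff.mp (hc a x hx) a).symm
    have h3 : x * a ^ e * x⁻¹ = a ^ e := by
      rw [← conj_pow, hc', h1.mul_pow, hD, one_mul]
    rw [mul_inv_eq_iff_eq_mul] at h3
    exact h3.symm
  choose l hl using hπ
  have hπ : Function.Surjective π := fun q => ⟨l q, hl q⟩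
  refine twist3 ((fun x => (CC (l x)).map π) '' X) (T.map π) ?_ ?_ hfc' ?_ he ?_ ?_
  · rintro _ ⟨x, -, rfl⟩
    exact fn_map hπ (CC_fn hfc _)
  · rintro _ ⟨t, ⟨σ, h1, h2⟩, rfl⟩ h
    refine (QuotientGroup.eq_one_iff t).mpr (mem_center_iff.mpr fun g => ?_)
    obtain ⟨y, y1, y2⟩ := x2 σ h1 (π g)
    have : closure X ≤ (centralizer {t}).map π := (closure_le _).mpr fun x hx =>
      ⟨l x, mem_centralizer_singleton_iff.mpr (CC_comm (map_CC.mp (h _ ⟨x, hx, rfl⟩))).symm, hl x⟩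
    obtain ⟨c, c1, rfl⟩ := this y1
    have h3 : Commute t c := (mem_centralizer_singleton_iff.mp c1).symm
    have h4 := (h3.mul_right (h2 (c⁻¹ * g) fun N hN => by simpa using y2 N hN)).symm
    rwa [mul_inv_cancel_left] at h4
  · rintro _ ⟨t, ⟨σ, h1, h2⟩, rfl⟩
    refine ((h1.biUnion fun N _ => x1 N).image fun x => (CC (l x)).map π).subset ?_
    rintro _ ⟨⟨x, hx, rfl⟩, h⟩
    refine ⟨x, ?_, rfl⟩
    by_contra hc
    refine h (map_CC.mpr fun b => mem_centralizer_singleton_iff.mpr ?_)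
    have h3 := h2 (b⁻¹ * l x * b⁻¹⁻¹) fun N hN => by
      rw [map_mul, map_mul, map_inv π b⁻¹, hl]
      refine (hZn N).conj_mem _ (by_contra fun h4 => hc (Set.mem_biUnion hN ⟨hx, h4⟩)) _
    calc b * t * b⁻¹ * l x = b * (t * (b⁻¹ * l x * b⁻¹⁻¹)) * b⁻¹ := by group
      _ = _ := by rw [h3.eq]; group
  · intro a b
    obtain ⟨a, rfl⟩ := hπ a
    obtain ⟨b, rfl⟩ := hπ b
    exact ⟨_, hT1 a b, map_commutatorElement _ _ _⟩
  · intro a
    obtain ⟨a, rfl⟩ := hπ a
    exact ⟨_, hT2 a, map_pow _ _ _⟩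

theorem main :
  ∀ (G : Type) [Group G],
    (∀ g : G, {h : G | IsConj g h}.Finite) →
    (∃ (ι : Type) (F : ι → Type) (inst : ∀ i, Group (F i)) (_ : ∀ i, Finite (F i))
        (f : ↥(_root_.commutator G) →* ((i : ι) → F i)),
        Function.Injective f ∧ ∀ x, {i : ι | f x i ≠ 1}.Finite) →
    (∃ (ι : Type) (F : ι → Type) (inst : ∀ i, Group (F i)) (_ : ∀ i, Finite (F i))
        (f : (G ⧸ Subgroup.center G) →* ((i : ι) → F i)),
        Function.Injective f ∧ ∀ x, {i : ι | f x i ≠ 1}.Finite) := by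
  rintro G _ hfc ⟨ι, F, _, _, f, hf, hs⟩
  let R : ι → Subgroup G := fun i =>
    (((Pi.evalMonoidHom F i).comp f).ker.map (_root_.commutator G).subtype).normalCore
  have hR : ∀ i, (R i).Normal := fun i => normalCore_normal _
  have hD : ∀ {d : G}, d ∈ _root_.commutator G → ∀ b, b * d * b⁻¹ ∈ _root_.commutator G :=
    fun hd b => Normal.conj_mem inferInstance _ hd b
  have hm : ∀ i d (hd : d ∈ _root_.commutator G), d ∈ R i ↔
      ∀ b, f ⟨b * d * b⁻¹, hD hd b⟩ i = 1 := by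
    intro i d hd
    refine forall_congr' fun b => ⟨?_, fun h => ⟨⟨_, hD hd b⟩, h, rfl⟩⟩
    rintro ⟨y, h1, h2⟩
    obtain rfl : y = ⟨_, hD hd b⟩ := Subtype.ext h2
    exact h1
  have hcm : ∀ a b : G, ⁅a, b⁆ ∈ _root_.commutator G := fun a b =>
    commutator_mem_commutator trivial trivial
  have hB : ∀ i, SD ((G ⧸ R i) ⧸ center (G ⧸ R i)) := fun i =>
    thmB (fc_map (QuotientGroup.mk'_surjective _) hfc) (Nat.card_pos (α := F i)) fun a b => by
      obtain ⟨a, rfl⟩ := QuotientGroup.mk'_surjective _ a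
      obtain ⟨b, rfl⟩ := QuotientGroup.mk'_surjective _ b
      rw [← map_commutatorElement, ← map_pow]
      refine (QuotientGroup.eq_one_iff _).mpr ((hm i _ (pow_mem (hcm a b) _)).mpr fun c => ?_)
      have : (⟨c * ⁅a, b⁆ ^ Nat.card (F i) * c⁻¹, hD (pow_mem (hcm a b) _) c⟩ :
          _root_.commutator G) = ⟨c * ⁅a, b⁆ * c⁻¹, hD (hcm a b) c⟩ ^ Nat.card (F i) :=
        Subtype.ext (by simp)
      rw [this, map_pow, Pi.pow_apply, pow_card_eq_one']
  choose 𝓛 l1 l2 l3 using hB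
  let φ0 : ∀ i, G →* (G ⧸ R i) ⧸ center (G ⧸ R i) := fun i =>
    (QuotientGroup.mk' _).comp (QuotientGroup.mk' _)
  have hφ0 : ∀ i g, φ0 i g = 1 ↔ ∀ y, ⁅g, y⁆ ∈ R i := by
    intro i g
    refine (QuotientGroup.eq_one_iff _).trans (mem_center_iff.trans ⟨fun h y => ?_, fun h q => ?_⟩)
    · rw [← QuotientGroup.eq_one_iff, ← QuotientGroup.mk'_apply, map_commutatorElement,
        commutatorElement_eq_one_iff_mul_comm]
      exact (h _).symm
    · obtain ⟨y, rfl⟩ := QuotientGroup.mk_surjective q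
      have := (QuotientGroup.eq_one_iff _).mpr (h y)
      rw [← QuotientGroup.mk'_apply, map_commutatorElement,
        commutatorElement_eq_one_iff_mul_comm] at this
      exact this.symm
  let φ : ∀ i, G ⧸ center G →* (G ⧸ R i) ⧸ center (G ⧸ R i) := fun i =>
    QuotientGroup.lift _ (φ0 i) fun g hg => (hφ0 i g).mpr fun y => by
      rw [commutatorElement_eq_one_iff_mul_comm.mpr (mem_center_iff.mp hg y).symm]
      exact one_mem _
  refine sdf_of_family (⋃ i, (fun N => N.comap (φ i)) '' 𝓛 i) ?_ ?_ ?_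
  · intro N hN
    obtain ⟨i, N, h1, rfl⟩ := Set.mem_iUnion.mp hN
    obtain ⟨h2, h3⟩ := l1 i N h1
    exact ⟨inferInstance, ⟨fun h0 => h3.index_ne_zero (by
      rw [index_comap] at h0
      exact index_eq_zero_of_relIndex_eq_zero h0)⟩⟩
  · intro q hq
    obtain ⟨g, rfl⟩ := QuotientGroup.mk_surjective q
    refine (QuotientGroup.eq_one_iff g).mpr (mem_center_iff.mpr fun y => ?_)
    refine (commutatorElement_eq_one_iff_mul_comm.mp ?_).symm
    have : (⟨1 * ⁅g, y⁆ * 1⁻¹, hD (hcm g y) 1⟩ : _root_.commutator G) = 1 := by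
      refine hf ?_
      rw [map_one]
      funext i
      exact (hm i _ (hcm g y)).mp ((hφ0 i g).mp (l2 i _ fun N hN =>
        hq _ (Set.mem_iUnion.mpr ⟨i, N, hN, rfl⟩)) y) 1
    simpa using congrArg Subtype.val this
  · intro q
    obtain ⟨g, rfl⟩ := QuotientGroup.mk_surjective q
    have h1 : {d : G | ∃ y b, d = b * ⁅g, y⁆ * b⁻¹}.Finite := by
      refine (((hfc g⁻¹).image fun h => g * h).biUnion (t := fun y => {h | IsConj y h})
        fun y _ => hfc y).subset ?_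
      rintro _ ⟨y, b, rfl⟩
      exact Set.mem_biUnion ⟨y * g⁻¹ * y⁻¹, isConj_iff.mpr ⟨y, rfl⟩, rfl⟩
        (isConj_iff.mpr ⟨b, by simp [commutatorElement_def, mul_assoc]⟩)
    have h2 : {i | φ0 i g ≠ 1}.Finite := by
      refine ((h1.preimage (f := (Subtype.val : _root_.commutator G → G))
        Subtype.val_injective.injOn).biUnion fun d _ => hs d).subset fun i hi => ?_
      obtain ⟨y, hy⟩ := not_forall.mp fun h => hi ((hφ0 i g).mpr h)
      obtain ⟨b, hb⟩ := not_forall.mp fun h => hy ((hm i _ (hcm g y)).mpr h)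
      exact Set.mem_iUnion₂.mpr ⟨⟨_, hD (hcm g y) b⟩, ⟨y, b, rfl⟩, hb⟩
    refine (h2.biUnion fun i _ => (l3 i (φ0 i g)).image fun N => N.comap (φ i)).subset ?_
    rintro N ⟨hN, h⟩
    obtain ⟨i, N, h3, rfl⟩ := Set.mem_iUnion.mp hN
    have h4 : φ0 i g ∉ N := h
    exact Set.mem_biUnion (x := i) (fun h5 => h4 (h5 ▸ one_mem N)) ⟨N, ⟨h3, h4⟩, rfl⟩

end Pool.Agent.H73.FCDer
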