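import Mathlib

namespace Pool.Agent.H73.FCSdf

open Filter Topology

section General

theorem countable_fs {ι : Type} [Countable ι] (F : ι → Type) [∀ i, Countable (F i)]
    [∀ i, One (F i)] : {φ : ∀ i, F i | {i | φ i ≠ 1}.Finite}.Countable := by
  refine Set.MapsTo.countable_of_injOn
    (f := fun φ : ∀ i, F i => {q : Σ i, F i | φ q.1 = q.2 ∧ q.2 ≠ 1}) (fun φ hφ => ?_) ?_
    Set.Countable.ofPred_finite
  · refine (Set.Finite.image (fun i => (⟨i, φ i⟩ : Σ i, F i)) hφ).subset ?_
    rintro ⟨i, y⟩ ⟨h1, h2⟩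
    simp only at h1 h2
    subst h1
    exact ⟨i, h2, rfl⟩
  · intro φ _ ψ _ h
    funext i
    by_cases h1 : φ i = 1
    · by_cases h2 : ψ i = 1
      · rw [h1, h2]
      · have : (⟨i, ψ i⟩ : Σ i, F i) ∈ {q : Σ i, F i | φ q.1 = q.2 ∧ q.2 ≠ 1} := by
          simp only at h; rw [h]; exact ⟨rfl, h2⟩
        exact this.1
    · have : (⟨i, φ i⟩ : Σ i, F i) ∈ {q : Σ i, F i | ψ q.1 = q.2 ∧ q.2 ≠ 1} := by
        simp only at h; rw [← h]; exact ⟨rfl, h1⟩
      exact this.1.symm

theorem finite_supp {ι : Type} (F : ι → Type) [∀ i, Finite (F i)] [∀ i, One (F i)]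
    {t : Set ι} (ht : t.Finite) : {φ : ∀ i, F i | ∀ i, i ∉ t → φ i = 1}.Finite := by
  have := ht.to_subtype
  refine Set.Finite.of_finite_image (f := fun (φ : ∀ i, F i) (i : t) => φ i) (Set.toFinite _) ?_
  intro φ hφ ψ hψ h
  funext i
  by_cases hi : i ∈ t
  · exact congrFun h ⟨i, hi⟩
  · rw [hφ i hi, hψ i hi]

theorem finOrder {ι : Type} (F : ι → Type) [∀ i, Finite (F i)] [∀ i, Group (F i)]
    (φ : ∀ i, F i) (h : {i | φ i ≠ 1}.Finite) : ∃ n : ℕ, 0 < n ∧ φ ^ n = 1 := by
  let K : Subgroup (∀ i, F i) :=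
    { carrier := {ψ | ∀ i, i ∉ {i | φ i ≠ 1} → ψ i = 1}
      one_mem' := fun _ _ => rfl
      mul_mem' := fun {a b} ha hb i hi => by rw [Pi.mul_apply, ha i hi, hb i hi, mul_one]
      inv_mem' := fun {a} ha i hi => by rw [Pi.inv_apply, ha i hi, inv_one] }
  have : Finite K := (finite_supp F h).to_subtype
  have h1 := K.subtype.isOfFinOrder (isOfFinOrder_of_finite
    (⟨φ, fun i hi => by simpa using hi⟩ : K))
  exact isOfFinOrder_iff_pow_eq_one.mp h1

theorem wreath_one {Q : Type} [Group Q] (a : Equiv.Perm (Fin 3) ≀ᵣ Q)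
    (h : ∀ m : Q → Equiv.Perm (Fin 3), a * ⟨m, 1⟩ = ⟨m, 1⟩ * a) : a = 1 := by
  classical
  have h1 : a.right = 1 := by
    by_contra hr
    have := congrFun (congrArg RegularWreathProduct.left
      (h (Pi.mulSingle 1 (Equiv.swap 0 1)))) a.right
    simp [Pi.mulSingle_eq_of_ne hr] at this
  ext1
  · funext x
    have key : ∀ l : Equiv.Perm (Fin 3), (∀ σ, l * σ = σ * l) → l = 1 := by decide
    refine key _ (fun σ => ?_)
    have := congrFun (congrArg RegularWreathProduct.left (h (fun _ => σ))) x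
    simpa using this
  · exact h1

end General

instance (k : ℕ) : NeZero k.factorial := ⟨Nat.factorial_ne_zero k⟩

abbrev R (k : ℕ) := ZMod k.factorial

noncomputable abbrev io (k : ℕ) : R k →+ UnitAddCircle := ZMod.toAddCircle

/-- finite Heisenberg groups with two pairs of generators -/
@[ext] structure F (k : ℕ) where
  c : R k
  x : R k
  y : R k
  x' : R k
  y' : R k

variable {k : ℕ}

instance : Mul (F k) :=
  ⟨fun a b => ⟨a.c + b.c - a.x * b.y + a.x' * b.y', a.x + b.x, a.y + b.y, a.x' + b.x', a.y' + b.y'⟩⟩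
instance : One (F k) := ⟨⟨0, 0, 0, 0, 0⟩⟩
instance : Inv (F k) :=
  ⟨fun a => ⟨-a.c - a.x * a.y + a.x' * a.y', -a.x, -a.y, -a.x', -a.y'⟩⟩

@[simp] theorem mul_c (a b : F k) : (a * b).c = a.c + b.c - a.x * b.y + a.x' * b.y' := rfl
@[simp] theorem mul_x (a b : F k) : (a * b).x = a.x + b.x := rfl
@[simp] theorem mul_y (a b : F k) : (a * b).y = a.y + b.y := rfl
@[simp] theorem mul_x' (a b : F k) : (a * b).x' = a.x' + b.x' := rfl
@[simp] theorem mul_y' (a b : F k) : (a * b).y' = a.y' + b.y' := rfl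
@[simp] theorem one_c : (1 : F k).c = 0 := rfl
@[simp] theorem one_x : (1 : F k).x = 0 := rfl
@[simp] theorem one_y : (1 : F k).y = 0 := rfl
@[simp] theorem one_x' : (1 : F k).x' = 0 := rfl
@[simp] theorem one_y' : (1 : F k).y' = 0 := rfl
@[simp] theorem inv_c (a : F k) : (a⁻¹).c = -a.c - a.x * a.y + a.x' * a.y' := rfl
@[simp] theorem inv_x (a : F k) : (a⁻¹).x = -a.x := rfl
@[simp] theorem inv_y (a : F k) : (a⁻¹).y = -a.y := rfl
@[simp] theorem inv_x' (a : F k) : (a⁻¹).x' = -a.x' := rfl
@[simp] theorem inv_y' (a : F k) : (a⁻¹).y' = -a.y' := rfl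

instance : Group (F k) := Group.ofLeftAxioms
  (fun a b c => by ext <;> simp <;> ring)
  (fun a => by ext <;> simp)
  (fun a => by ext <;> simp; ring)

instance : Finite (F k) :=
  Finite.of_injective (fun a : F k => (a.c, a.x, a.y, a.x', a.y')) (fun a b h => by
    simp only [Prod.mk.injEq] at h
    exact F.ext h.1 h.2.1 h.2.2.1 h.2.2.2.1 h.2.2.2.2)

abbrev W (k : ℕ) := Equiv.Perm (Fin 3) ≀ᵣ F k
abbrev S := ℕ → Bool
abbrev WW := ∀ p : S × ℕ, W p.2
abbrev P := (∀ n, Multiplicative (R n)) × WW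

def cst (k : ℕ) : R (k + 1) →+* R k :=
  ZMod.castHom (Nat.factorial_dvd_factorial (Nat.le_succ k)) _

def Link (w : WW) : Prop := ∀ s k, cst k (w (s, k + 1)).right.x' = (w (s, k)).right.x ∧
  io (k + 1) (w (s, k + 1)).right.y' = io k (w (s, k)).right.y

noncomputable def Th (n : ℕ) (w : WW) : UnitAddCircle :=
  ∑ᶠ p : S × ℕ, (p.1 n).toNat • io p.2 (w p).right.c

theorem io_mul (k : ℕ) (x y : R k) : io k (x * y) = x.val • io k y := by
  rw [← map_nsmul, nsmul_eq_mul, ZMod.natCast_zmod_val]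

theorem Th_one (n : ℕ) : Th n 1 = 0 := by simp [Th]

theorem Th_mul (n : ℕ) {w v : WW} (hw : {p | w p ≠ 1}.Finite) (hv : {p | v p ≠ 1}.Finite)
    (lw : Link w) (lv : Link v) : Th n (w * v) = Th n w + Th n v := by
  have fs : ∀ (u : WW) (g : S × ℕ → UnitAddCircle), {p | u p ≠ 1}.Finite →
      (∀ p, u p = 1 → g p = 0) → Function.HasFiniteSupport g := by
    intro u g hu hg
    exact hu.subset (fun p hp h => hp (hg p h))
  let A : S × ℕ → UnitAddCircle := fun p => (p.1 n).toNat • io p.2 (w p).right.c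
  let B : S × ℕ → UnitAddCircle := fun p => (p.1 n).toNat • io p.2 (v p).right.c
  let C : S × ℕ → UnitAddCircle :=
    fun p => (p.1 n).toNat • io p.2 ((w p).right.x * (v p).right.y)
  let C' : S × ℕ → UnitAddCircle :=
    fun p => (p.1 n).toNat • io p.2 ((w p).right.x' * (v p).right.y')
  have hA : Function.HasFiniteSupport A := fs w A hw (fun p h => by simp [A, h])
  have hB : Function.HasFiniteSupport B := fs v B hv (fun p h => by simp [B, h])
  have hC : Function.HasFiniteSupport C := fs w C hw (fun p h => by simp [C, h])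
  have hC' : Function.HasFiniteSupport C' := fs w C' hw (fun p h => by simp [C', h])
  have e1 : Th n (w * v) = ∑ᶠ p, (A p + B p - C p + C' p) := by
    refine finsum_congr (fun p => ?_)
    simp only [A, B, C, C', Pi.mul_apply, RegularWreathProduct.mul_right, mul_c, map_add, map_sub,
      smul_add, smul_sub]
  have e2 : ∑ᶠ p, C' p = ∑ᶠ p, C p := by
    have hinj : Function.Injective (fun p : S × ℕ => (p.1, p.2 + 1)) := by
      rintro ⟨s, k⟩ ⟨s', k'⟩ h
      simpa using h
    have e3 := finsum_mem_range (f := C') hinj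
    rw [finsum_mem_inter_support_eq' C' _ Set.univ, finsum_mem_univ] at e3
    · rw [e3]
      refine finsum_congr (fun p => ?_)
      simp only [C, C']
      congr 1
      rw [io_mul, (lv p.1 p.2).2, ← map_nsmul, nsmul_eq_mul, ← (lw p.1 p.2).1]
      simp [cst]
    · rintro ⟨s, k⟩ hp
      cases k with
      | zero =>
        exfalso
        apply hp
        have : Subsingleton (R 0) := inferInstanceAs (Subsingleton (ZMod 1))
        simp only [C']
        rw [Subsingleton.elim (_ * _ : R 0) 0]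
        simp
      | succ k => exact ⟨fun _ => trivial, fun _ => ⟨(s, k), rfl⟩⟩
  rw [e1, finsum_add_distrib (f := fun p => A p + B p - C p) ((hA.add hB).sub hC) hC',
    finsum_sub_distrib (f := fun p => A p + B p) (hA.add hB) hC,
    finsum_add_distrib hA hB, e2, sub_add_cancel]
  rfl

theorem link_mul {w v : WW} (lw : Link w) (lv : Link v) : Link (w * v) := fun s k => by
  simp only [Pi.mul_apply, RegularWreathProduct.mul_right, mul_x', mul_x, mul_y, mul_y', map_add,
    (lw s k).1, (lw s k).2, (lv s k).1, (lv s k).2, and_self]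

theorem link_inv {w : WW} (lw : Link w) : Link w⁻¹ := fun s k => by
  simp only [Pi.inv_apply, RegularWreathProduct.inv_right, inv_x', inv_x, inv_y, inv_y', map_neg,
    (lw s k).1, (lw s k).2, and_self]

/-- the counterexample -/
def G : Subgroup P where
  carrier := {g | {p | g.2 p ≠ 1}.Finite ∧ Link g.2 ∧
    ∀ᶠ n in atTop, io n (g.1 n).toAdd = Th n g.2}
  one_mem' := ⟨by simp, fun s k => by simp, Eventually.of_forall (fun n => by simp [Th_one])⟩
  mul_mem' := by
    rintro g h ⟨g1, g2, g3⟩ ⟨h1, h2, h3⟩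
    refine ⟨(g1.union h1).subset (fun p hp => ?_), link_mul g2 h2, ?_⟩
    · by_contra hc
      simp only [Set.mem_union, Set.mem_ofPred_eq, not_or, not_not] at hc
      exact hp (by simp [hc.1, hc.2])
    · filter_upwards [g3, h3] with n hg hh
      rw [Prod.snd_mul, Th_mul n g1 h1 g2 h2, ← hg, ← hh, ← map_add]
      rfl
  inv_mem' := by
    rintro g ⟨g1, g2, g3⟩
    have g1' : {p | g⁻¹.2 p ≠ 1}.Finite := by simpa using g1
    refine ⟨g1', link_inv g2, ?_⟩
    filter_upwards [g3] with n hg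
    have := Th_mul n g1' g1 (link_inv g2) g2
    rw [Prod.snd_inv, inv_mul_cancel, Th_one] at this
    rw [Prod.snd_inv, eq_neg_of_add_eq_zero_left this.symm, ← hg, ← map_neg]
    rfl

theorem fst_fin {g : P} (hg : g ∈ G) (h : g.2 = 1) : {n | g.1 n ≠ 1}.Finite := by
  obtain ⟨N, hN⟩ := eventually_atTop.mp hg.2.2
  refine (Set.finite_lt_nat N).subset (fun n hn => ?_)
  by_contra hc
  have := hN n (by simpa using hc)
  rw [h, Th_one, ZMod.toAddCircle_eq_zero] at this
  exact hn this

theorem resFin (g : G) (hg : g ≠ 1) : ∃ N : Subgroup G, N.Normal ∧ N.index ≠ 0 ∧ g ∉ N := by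
  by_cases h1 : g.1.1 = 1
  · by_cases h2 : g.1.2 = 1
    · exact absurd (Subtype.ext (Prod.ext h1 h2)) hg
    · obtain ⟨p, hp⟩ := Function.ne_iff.mp h2
      let φ : G →* W p.2 := (Pi.evalMonoidHom (fun p : S × ℕ => W p.2) p).comp
        ((MonoidHom.snd _ _).comp G.subtype)
      exact ⟨φ.ker, inferInstance, (Subgroup.finiteIndex_ker φ).index_ne_zero, hp⟩
  · obtain ⟨n, hn⟩ := Function.ne_iff.mp h1
    let φ : G →* Multiplicative (R n) := (Pi.evalMonoidHom (fun n => Multiplicative (R n)) n).comp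
      ((MonoidHom.fst _ _).comp G.subtype)
    exact ⟨φ.ker, inferInstance, (Subgroup.finiteIndex_ker φ).index_ne_zero, hn⟩

theorem torsion : Monoid.IsTorsion G := by
  intro g
  obtain ⟨n, hn, h1⟩ := finOrder (fun p : S × ℕ => W p.2) g.1.2 g.2.1
  obtain ⟨m, hm, h2⟩ := finOrder (fun n => Multiplicative (R n)) (g ^ n).1.1
    (fst_fin (g ^ n).2 h1)
  refine isOfFinOrder_iff_pow_eq_one.mpr ⟨n * m, Nat.mul_pos hn hm, ?_⟩
  rw [pow_mul]
  refine Subtype.ext (Prod.ext h2 ?_)
  change (g.1.2 ^ n) ^ m = 1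
  rw [h1, one_pow]

theorem fc (g : G) : Set.Finite {h : G | IsConj g h} := by
  refine Set.Finite.of_finite_image (f := fun h : G => h.1)
    (((Set.finite_singleton g.1.1).prod
      (finite_supp (fun p : S × ℕ => W p.2) g.2.1)).subset ?_) Subtype.val_injective.injOn
  rintro _ ⟨h, hh, rfl⟩
  obtain ⟨c, rfl⟩ := isConj_iff.mp hh
  refine ⟨by simp, fun p hp => ?_⟩
  simp only [Set.mem_ofPred_eq, not_not] at hp
  simp [hp]

theorem center_countable : Countable (Subgroup.center G) := by
  classical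
  have h2 : ∀ g : Subgroup.center G, g.1.1.2 = 1 := by
    intro g
    funext p
    refine wreath_one _ (fun m => ?_)
    have hr : ∀ q, ((Pi.mulSingle p ⟨m, 1⟩ : WW) q).right = 1 := by
      intro q
      by_cases hq : q = p
      · subst hq; simp
      · simp [Pi.mulSingle_eq_of_ne hq]
    let u : G := ⟨(1, Pi.mulSingle p ⟨m, 1⟩), (Set.finite_singleton p).subset (fun q hq => by
        by_contra hc
        exact hq (Pi.mulSingle_eq_of_ne hc _)), fun s k => by simp [hr],
      Eventually.of_forall (fun n => by simp [Th, hr])⟩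
    have := congrArg (fun h : G => h.1.2 p) (Subgroup.mem_center_iff.mp g.2 u)
    simpa [u] using this.symm
  have := (countable_fs (fun n => Multiplicative (R n))).to_subtype
  refine Function.Injective.countable
    (f := fun g : Subgroup.center G => (⟨g.1.1.1, fst_fin g.1.2 (h2 g)⟩ :
      {φ : ∀ n, Multiplicative (R n) | {n | φ n ≠ 1}.Finite})) (fun g h hgh => ?_)
  refine Subtype.ext (Subtype.ext (Prod.ext (congrArg Subtype.val hgh) ?_))
  rw [h2, h2]

open Classical in
/-- a point mass -/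
noncomputable def pt (q : S × ℕ) (v : ℕ) (p : S × ℕ) : ℕ := if p = q then v else 0

/-- elements of the top group with natural number coordinates -/
def top (c x y x' y' : S × ℕ → ℕ) : WW :=
  fun p => RegularWreathProduct.inl ⟨c p, x p, y p, x' p, y' p⟩

/-- central type elements -/
noncomputable def el (q : S × ℕ) (c : ℕ) (b : ℕ → ℕ) : P :=
  (fun n => Multiplicative.ofAdd (b n : R n), top (pt q c) 0 0 0 0)

theorem el_mul (q : S × ℕ) (c c' : ℕ) (b b' : ℕ → ℕ) :
    el q c b * el q c' b' = el q (c + c') (b + b') := by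
  refine Prod.ext (funext fun n => ?_) (funext fun p => ?_)
  · simp [el]
  · simp only [el, top, Prod.snd_mul, Pi.mul_apply, ← map_mul]
    congr 1
    ext <;> simp [pt]
    split_ifs <;> simp

theorem el_zero (q q' : S × ℕ) (b : ℕ → ℕ) : el q 0 b = el q' 0 b := by
  have : pt q 0 = pt q' 0 := by funext p; simp [pt]
  simp only [el, this]

theorem el_pow (q : S × ℕ) (c : ℕ) (b : ℕ → ℕ) (N : ℕ) :
    el q c b ^ N = el q (N * c) (fun n => N * b n) := by
  induction N with
  | zero =>
    refine Prod.ext (funext fun n => ?_) (funext fun p => ?_)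
    · simp [el]
    · simp only [pow_zero, el, top, Prod.snd_one, Pi.one_apply]
      rw [← map_one RegularWreathProduct.inl]
      congr 1
      ext <;> simp [pt]
  | succ N ih =>
    rw [pow_succ, ih, el_mul]
    congr 1
    · ring
    · funext n; simp; ring

theorem top_one {c x y x' y' : S × ℕ → ℕ} {p : S × ℕ} (h1 : c p = 0) (h2 : x p = 0) (h3 : y p = 0)
    (h4 : x' p = 0) (h5 : y' p = 0) : top c x y x' y' p = 1 := by
  rw [← map_one RegularWreathProduct.inl, top]
  congr 1
  ext <;> simp [*]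

theorem el_mem (q : S × ℕ) (c : ℕ) (b : ℕ → ℕ)
    (h : ∀ᶠ n in atTop, io n (b n) = (q.1 n).toNat • io q.2 c) : el q c b ∈ G := by
  refine ⟨(Set.finite_singleton q).subset (fun p hp => ?_), fun s k => by simp [el, top], ?_⟩
  · by_contra hc
    exact hp (top_one (if_neg hc) rfl rfl rfl rfl)
  · filter_upwards [h] with n hn
    rw [Th, finsum_eq_single _ q]
    · simpa [el, top, pt] using hn
    · intro p hp
      simp [el, top, pt, hp]

theorem io_frac (n d : ℕ) (hd : 0 < d) (h : d ≤ n) :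
    io n ((n.factorial / d : ℕ) : R n) = ((1 / d : ℝ) : UnitAddCircle) := by
  rw [ZMod.toAddCircle_natCast, Nat.cast_div (Nat.dvd_factorial hd h) (by positivity)]
  congr 1
  have : (n.factorial : ℝ) ≠ 0 := by positivity
  field_simp

def half (n : ℕ) : ℕ := n.factorial / 2

theorem io_half {n : ℕ} (h : 2 ≤ n) : io n (half n) = ((1 / (2 : ℕ) : ℝ) : UnitAddCircle) :=
  io_frac n 2 two_pos h

/-- the elements carrying the point `s` at level `k + 2` -/
noncomputable def aa (s : S) (k : ℕ) : G :=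
  ⟨el (s, k + 2) (half (k + 2)) (fun n => (s n).toNat * half n), el_mem _ _ _ (by
    filter_upwards [eventually_ge_atTop 2] with n hn
    rw [io_half (by omega), ← io_half hn, ← map_nsmul, nsmul_eq_mul]
    push_cast; rfl)⟩

/-- truncations -/
noncomputable def tt (s : S) (K : ℕ) : G :=
  ⟨el (s, 0) 0 (fun n => if n < K then (s n).toNat * half n else 0), el_mem _ _ _ (by
    filter_upwards [eventually_ge_atTop K] with n hn
    simp [not_lt.mpr hn])⟩

/-- the central elements -/
noncomputable def zz (m : ℕ) : G :=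
  ⟨el (fun _ => false, 0) 0 (fun n => if n = m then half n else 0), el_mem _ _ _ (by
    filter_upwards [eventually_gt_atTop m] with n hn
    simp [hn.ne'])⟩

theorem zz_ne (m : ℕ) (hm : 2 ≤ m) : zz m ≠ 1 := by
  intro h
  have h1 : ((half m : ℕ) : R m) = 0 := by
    have := congrArg (fun g : G => (g.1.1 m).toAdd) h
    simpa [zz, el] using this
  have h2 := io_half hm
  rw [h1, map_zero, eq_comm, AddCircle.coe_eq_zero_iff_of_mem_Ico] at h2
  · norm_num at h2
  · constructor <;> norm_num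

theorem aa_root (s : S) (N : ℕ) (hN : 0 < N) (k : ℕ) (hk : 2 * N ≤ k + 2) :
    ∃ y : G, aa s k = y ^ N * tt s (k + 2) := by
  have hdiv : ∀ n, 2 * N ≤ n → N * (n.factorial / (2 * N)) = half n := by
    intro n hn
    obtain ⟨r, hr⟩ := Nat.dvd_factorial (by omega : 0 < 2 * N) hn
    rw [half, hr, Nat.mul_div_cancel_left _ (by omega : 0 < 2 * N), mul_assoc,
      Nat.mul_div_cancel_left _ two_pos]
  refine ⟨⟨el (s, k + 2) ((k + 2).factorial / (2 * N))
    (fun n => if n < k + 2 then 0 else (s n).toNat * (n.factorial / (2 * N))), el_mem _ _ _ (by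
      filter_upwards [eventually_ge_atTop (k + 2)] with n hn
      rw [if_neg (by omega), io_frac _ _ (by omega) hk, ← io_frac n _ (by omega) (by omega),
        ← map_nsmul, nsmul_eq_mul]
      push_cast; rfl)⟩, Subtype.ext ?_⟩
  simp only [aa, tt, Subgroup.coe_mul, SubmonoidClass.mk_pow]
  rw [el_pow, el_zero (s, 0) (s, k + 2), el_mul, hdiv _ hk, add_zero]
  congr 1
  funext n
  simp only [Pi.add_apply]
  split_ifs with h
  · simp
  · rw [mul_left_comm, hdiv n (by omega), add_zero]

def Loc (s : S) (g : G) : Prop := ∀ p : S × ℕ, p.1 ≠ s → g.1.2 p = 1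

theorem loc_comm {s s' : S} (h : s ≠ s') {g g' : G} (hg : Loc s g) (hg' : Loc s' g') :
    g * g' = g' * g := by
  refine Subtype.ext (Prod.ext (mul_comm _ _) (funext fun p => ?_))
  change g.1.2 p * g'.1.2 p = g'.1.2 p * g.1.2 p
  by_cases hp : p.1 = s
  · rw [hg' p (hp ▸ h), mul_one, one_mul]
  · rw [hg p hp, mul_one, one_mul]

theorem aa_step (s : S) (k : ℕ) : ∃ u v : G, Loc s u ∧ Loc s v ∧
    aa s k * (u * v) = aa s (k + 1) * (v * u) := by
  have hfin : ({(s, k + 2), (s, k + 3)} : Set (S × ℕ)).Finite := Set.toFinite _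
  refine ⟨⟨(1, top 0 (pt (s, k + 2) 1) 0 (pt (s, k + 3) 1) 0), hfin.subset (fun p hp => ?_),
      fun s' j => ?_, Eventually.of_forall (fun n => by simp [Th, top])⟩,
    ⟨(1, top 0 0 (pt (s, k + 2) (half (k + 2))) 0 (pt (s, k + 3) (half (k + 3)))),
      hfin.subset (fun p hp => ?_), fun s' j => ?_,
      Eventually.of_forall (fun n => by simp [Th, top])⟩, fun p hp => ?_, fun p hp => ?_, ?_⟩
  · by_contra hc
    simp only [Set.mem_insert_iff, Set.mem_singleton_iff, not_or] at hc
    exact hp (top_one rfl (if_neg hc.1) rfl (if_neg hc.2) rfl)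
  · by_cases h : (s', j) = (s, k + 2)
    · obtain ⟨rfl, rfl⟩ := Prod.mk.inj h
      simp [top, pt]
    · have h' : (s', j + 1) ≠ (s, k + 3) := fun h1 => h (by
        obtain ⟨rfl, h2⟩ := Prod.mk.inj h1
        rw [show j = k + 2 by omega])
      simp [top, pt, h, h']
  · by_contra hc
    simp only [Set.mem_insert_iff, Set.mem_singleton_iff, not_or] at hc
    exact hp (top_one rfl rfl (if_neg hc.1) rfl (if_neg hc.2))
  · by_cases h : (s', j) = (s, k + 2)
    · obtain ⟨rfl, rfl⟩ := Prod.mk.inj h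
      simp only [top, pt, RegularWreathProduct.right_inl, if_true]
      exact ⟨by simp, by rw [io_half (by omega), io_half (by omega)]⟩
    · have h' : (s', j + 1) ≠ (s, k + 3) := fun h1 => h (by
        obtain ⟨rfl, h2⟩ := Prod.mk.inj h1
        rw [show j = k + 2 by omega])
      simp [top, pt, h, h']
  · exact top_one rfl (if_neg (fun h => hp (by rw [h]))) rfl (if_neg (fun h => hp (by rw [h]))) rfl
  · exact top_one rfl rfl (if_neg (fun h => hp (by rw [h]))) rfl (if_neg (fun h => hp (by rw [h])))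
  · refine Subtype.ext (Prod.ext (by simp [aa, el]) (funext fun p => ?_))
    simp only [aa, el, top, Subgroup.coe_mul, Prod.snd_mul, Pi.mul_apply, ← map_mul]
    congr 1
    by_cases h1 : p = (s, k + 2)
    · subst h1
      ext <;> simp [pt]
    · by_cases h2 : p = (s, k + 3)
      · subst h2
        ext <;> simp [pt]
      · ext <;> simp [pt, h1, h2]

theorem bad_finite {H : Type} [Group H] [Finite H] (φ : G →* H) :
    {s : S | ∃ u v : G, Loc s u ∧ Loc s v ∧ φ (u * v) ≠ φ (v * u)}.Finite := by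
  classical
  have : ∀ s : S, ∃ u v : G, s ∈ {s : S | ∃ u v : G, Loc s u ∧ Loc s v ∧ φ (u * v) ≠ φ (v * u)} →
      Loc s u ∧ Loc s v ∧ φ (u * v) ≠ φ (v * u) := by
    intro s
    by_cases hs : s ∈ {s : S | ∃ u v : G, Loc s u ∧ Loc s v ∧ φ (u * v) ≠ φ (v * u)}
    · obtain ⟨u, v, h⟩ := hs
      exact ⟨u, v, fun _ => h⟩
    · exact ⟨1, 1, fun h => absurd h hs⟩
  choose u v huv using this
  refine Set.Finite.of_finite_image (f := fun s => (φ (u s), φ (v s))) (Set.toFinite _) ?_
  intro s hs s' hs' h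
  by_contra hne
  apply (huv s hs).2.2
  have h1 : φ (u s) = φ (u s') := congrArg Prod.fst h
  rw [map_mul, map_mul, h1, ← map_mul, ← map_mul,
    loc_comm hne (huv s hs).2.1 (huv s' hs').1]

theorem good_val {H : Type} [Group H] [Finite H] (φ : G →* H) (s : S)
    (hs : ∀ u v : G, Loc s u → Loc s v → φ (u * v) = φ (v * u)) (k : ℕ)
    (hk : 2 * Nat.card H ≤ k + 2) : φ (aa s 0) = φ (tt s (k + 2)) := by
  have h1 : ∀ k, φ (aa s 0) = φ (aa s k) := by
    intro k
    induction k with
    | zero => rfl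
    | succ k ih =>
      obtain ⟨u, v, hu, hv, h⟩ := aa_step s k
      have h2 := congrArg φ h
      rw [map_mul, map_mul _ (aa s (k + 1)), hs u v hu hv] at h2
      rw [ih, mul_right_cancel h2]
  obtain ⟨y, hy⟩ := aa_root s (Nat.card H) Nat.card_pos k hk
  rw [h1 k, hy, map_mul, map_pow, pow_card_eq_one', one_mul]

theorem baire {T : Type} [Countable T] (h : S → T) : ∃ m, 2 ≤ m ∧ ∀ K, ∃ s s' : S, h s = h s' ∧
    s m = false ∧ s' m = true ∧ ∀ n < K, n ≠ m → s n = s' n := by
  classical
  obtain ⟨c, s0, hs0⟩ := nonempty_interior_of_iUnion_of_closed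
    (f := fun c : T => closure {s | h s = c}) (fun _ => isClosed_closure)
    (Set.eq_univ_of_forall (fun s => Set.mem_iUnion.mpr ⟨h s, subset_closure rfl⟩))
  have hlim : ∀ b : Bool, Tendsto (fun m => Function.update s0 m b) atTop (𝓝 s0) := by
    intro b
    rw [tendsto_pi_nhds]
    intro n
    refine tendsto_const_nhds.congr' ?_
    filter_upwards [eventually_gt_atTop n] with m hm
    rw [Function.update_of_ne hm.ne]
  have hn := mem_interior_iff_mem_nhds.mp hs0
  obtain ⟨m, hm, h0, h1⟩ := ((eventually_ge_atTop 2).and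
    (((hlim false).eventually hn).and ((hlim true).eventually hn))).exists
  have happ : ∀ (t : S) (K : ℕ), t ∈ closure {s | h s = c} →
      ∃ s, h s = c ∧ ∀ n ≤ K, s n = t n := by
    intro t K ht
    have hev : ∀ᶠ s in 𝓝 t, ∀ n ∈ Finset.range (K + 1), s n = t n := by
      rw [eventually_all_finset]
      intro n _
      exact ((continuous_apply n).tendsto t).eventually
        ((isOpen_discrete {t n}).mem_nhds rfl)
    obtain ⟨s, hs1, hs2⟩ := mem_closure_iff_nhds.mp ht _ hev
    exact ⟨s, hs2, fun n hn => hs1 n (Finset.mem_range.mpr (by omega))⟩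
  refine ⟨m, hm, fun K => ?_⟩
  obtain ⟨s, hs, hs'⟩ := happ _ (max K m) h0
  obtain ⟨s', ht, ht'⟩ := happ _ (max K m) h1
  refine ⟨s, s', hs.trans ht.symm, ?_, ?_, fun n hn hnm => ?_⟩
  · rw [hs' m (le_max_right _ _), Function.update_self]
  · rw [ht' m (le_max_right _ _), Function.update_self]
  · rw [hs' n (by omega), ht' n (by omega), Function.update_of_ne hnm, Function.update_of_ne hnm]

theorem tt_flip {s s' : S} {m K : ℕ} (hm : m < K) (h0 : s m = false) (h1 : s' m = true)
    (h : ∀ n < K, n ≠ m → s n = s' n) : tt s' K = tt s K * zz m := by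
  refine Subtype.ext ?_
  simp only [tt, zz, Subgroup.coe_mul]
  rw [el_zero (s', 0) (s, 0), el_zero (fun _ => false, 0) (s, 0), el_mul]
  congr 1
  funext n
  simp only [Pi.add_apply]
  by_cases hn : n = m
  · subst hn; simp [hm, h0, h1]
  · by_cases hK : n < K
    · simp [hK, hn, h n hK hn]
    · simp [hK, hn]

theorem main :
    ¬ (∀ (G : Type) [Group G],
      (∀ g : G, g ≠ 1 → ∃ N : Subgroup G, N.Normal ∧ N.index ≠ 0 ∧ g ∉ N) →
      Monoid.IsTorsion G →
      (∀ g : G, Set.Finite {h : G | IsConj g h}) →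
      Countable (Subgroup.center G) →
      ∃ (ι : Type) (F : ι → Type) (_ : ∀ i, Group (F i)) (_ : ∀ i, Finite (F i)),
        ∃ f : G →* ((i : ι) → F i),
          Function.Injective f ∧ ∀ g : G, Set.Finite {i : ι | f g i ≠ 1}) := by
  classical
  intro hall
  obtain ⟨ι, Φ, _, _, f, hf, hfs⟩ := hall G resFin torsion fc center_countable
  let I : Set ι := ⋃ m, {i | f (zz m) i ≠ 1}
  have hI : I.Countable := Set.countable_iUnion (fun m => (hfs _).countable)
  have := hI.to_subtype
  let φ : ∀ i, G →* Φ i := fun i => (Pi.evalMonoidHom Φ i).comp f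
  let Bad : Set S := ⋃ i : I, {s : S | ∃ u v : G, Loc s u ∧ Loc s v ∧ φ i (u * v) ≠ φ i (v * u)}
  have hB : Bad.Countable := Set.countable_iUnion (fun i => (bad_finite (φ i)).countable)
  have := hB.to_subtype
  have := (countable_fs (fun i : I => Φ i)).to_subtype
  let h : S → {ψ : ∀ i : I, Φ i | {i | ψ i ≠ 1}.Finite} ⊕ Bad := fun s =>
    if hs : s ∈ Bad then Sum.inr ⟨s, hs⟩ else
      Sum.inl ⟨fun i => f (aa s 0) i, (hfs (aa s 0)).preimage Subtype.val_injective.injOn⟩
  obtain ⟨m, hm, hK⟩ := baire h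
  apply zz_ne m hm
  apply hf
  rw [map_one]
  funext i
  by_contra hi
  have hiI : i ∈ I := Set.mem_iUnion.mpr ⟨m, hi⟩
  obtain ⟨s, s', hss, h0, h1, h2⟩ := hK (2 * Nat.card (Φ i) + m + 2)
  have hne : s ≠ s' := by rintro rfl; rw [h0] at h1; exact Bool.false_ne_true h1
  by_cases hs : s ∈ Bad <;> by_cases hs' : s' ∈ Bad
  · simp only [h, dif_pos hs, dif_pos hs', Sum.inr.injEq, Subtype.mk.injEq] at hss
    exact hne hss
  · simp [h, dif_pos hs, dif_neg hs'] at hss
  · simp [h, dif_neg hs, dif_pos hs'] at hss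
  · simp only [h, dif_neg hs, dif_neg hs', Sum.inl.injEq, Subtype.mk.injEq] at hss
    have e1 : φ i (aa s 0) = φ i (aa s' 0) := congrFun hss ⟨i, hiI⟩
    have good : ∀ s, s ∉ Bad → ∀ u v : G, Loc s u → Loc s v → φ i (u * v) = φ i (v * u) := by
      intro s hs u v hu hv
      by_contra hc
      exact hs (Set.mem_iUnion.mpr ⟨⟨i, hiI⟩, u, v, hu, hv, hc⟩)
    rw [good_val (φ i) s (good s hs) (2 * Nat.card (Φ i) + m) (by omega),
      good_val (φ i) s' (good s' hs') (2 * Nat.card (Φ i) + m) (by omega),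
      tt_flip (by omega) h0 h1 h2, map_mul] at e1
    exact hi (show φ i (zz m) = 1 by simpa using e1.symm)

end Pool.Agent.H73.FCSdf
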