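import Mathlib

/-!
Munn trees: words, their vertex sets, substitution, and a criterion for freeness.
-/

set_option autoImplicit false

namespace Pool.Agent.H73.FInv

open FreeGroup Pointwise

abbrev Wd (Z : Type) := List (Z × Bool)
abbrev Pr (Z : Type) := Set (FreeGroup Z) × FreeGroup Z

variable {Z X Y : Type}

def T (w : Wd Z) : Set (FreeGroup Z) := Set.range fun i : ℕ => mk (w.take i)
def M (w : Wd Z) : Pr Z := (T w, mk w)
def mul (x y : Pr Z) : Pr Z := (x.1 ∪ x.2 • y.1, x.2 * y.2)
def inv (x : Pr Z) : Pr Z := (x.2⁻¹ • x.1, x.2⁻¹)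

theorem mem_T {w : Wd Z} {g : FreeGroup Z} : g ∈ T w ↔ ∃ u v, w = u ++ v ∧ g = mk u := by
  constructor
  · rintro ⟨i, rfl⟩
    exact ⟨w.take i, w.drop i, (List.take_append_drop i w).symm, rfl⟩
  · rintro ⟨u, v, rfl, rfl⟩
    exact ⟨u.length, by simp⟩

theorem one_mem_T (w : Wd Z) : (1 : FreeGroup Z) ∈ T w := mem_T.2 ⟨[], w, rfl, rfl⟩
theorem mk_mem_T (w : Wd Z) : mk w ∈ T w := mem_T.2 ⟨w, [], by simp, rfl⟩

theorem T_finite (w : Wd Z) : (T w).Finite := by
  refine ((Set.finite_le_nat w.length).image fun i => mk (w.take i)).subset ?_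
  rintro _ ⟨i, rfl⟩
  rcases le_total i w.length with h | h
  · exact ⟨i, h, rfl⟩
  · exact ⟨w.length, by simp, by simp [List.take_of_length_le h]⟩

theorem T_nil : T ([] : Wd Z) = {1} := by
  ext g
  simp only [mem_T, Set.mem_singleton_iff]
  constructor
  · rintro ⟨u, v, h, rfl⟩
    have : u = [] := by simpa using (List.append_eq_nil_iff.1 h.symm).1
    subst this; rfl
  · rintro rfl; exact ⟨[], [], rfl, rfl⟩

theorem T_append (u v : Wd Z) : T (u ++ v) = T u ∪ mk u • T v := by
  ext g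
  simp only [Set.mem_union, Set.mem_smul_set, mem_T, smul_eq_mul]
  constructor
  · rintro ⟨a, b, h, rfl⟩
    rcases List.append_eq_append_iff.1 h with ⟨c, rfl, rfl⟩ | ⟨c, rfl, rfl⟩
    · exact Or.inr ⟨_, ⟨c, b, rfl, rfl⟩, by simp⟩
    · exact Or.inl ⟨a, c, rfl, rfl⟩
  · rintro (⟨a, b, rfl, rfl⟩ | ⟨_, ⟨a, b, rfl, rfl⟩, rfl⟩)
    · exact ⟨a, b ++ v, by simp, rfl⟩
    · exact ⟨u ++ a, b, by simp, by simp⟩

theorem T_single (a : Z × Bool) : T [a] = {1, mk [a]} := by
  ext g
  simp only [mem_T, Set.mem_insert_iff, Set.mem_singleton_iff]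
  constructor
  · rintro ⟨u, v, h, rfl⟩
    cases u with
    | nil => exact Or.inl rfl
    | cons b u =>
      simp only [List.cons_append, List.cons.injEq, List.nil_eq, List.append_eq_nil_iff] at h
      obtain ⟨rfl, rfl, -⟩ := h
      exact Or.inr rfl
  · rintro (rfl | rfl)
    · exact ⟨[], [a], rfl, rfl⟩
    · exact ⟨[a], [], rfl, rfl⟩

theorem M_append (u v : Wd Z) : M (u ++ v) = mul (M u) (M v) := by
  simp [M, mul, T_append]

theorem T_invRev_sub (w : Wd Z) : T (invRev w) ⊆ (mk w)⁻¹ • T w := by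
  intro g hg
  obtain ⟨u, v, h, rfl⟩ := mem_T.1 hg
  have hw : w = invRev v ++ invRev u := by rw [← invRev_append, ← h, invRev_invRev]
  refine ⟨mk (invRev v), mem_T.2 ⟨_, _, hw, rfl⟩, ?_⟩
  rw [hw]
  simp [← mul_mk, ← inv_mk]

theorem T_invRev (w : Wd Z) : T (invRev w) = (mk w)⁻¹ • T w := by
  refine (T_invRev_sub w).antisymm ?_
  have := T_invRev_sub (invRev w)
  rw [invRev_invRev, ← inv_mk, inv_inv] at this
  exact Set.subset_smul_set_iff.1 this

theorem M_invRev (w : Wd Z) : M (invRev w) = inv (M w) := by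
  simp [M, inv, T_invRev, inv_mk]

theorem inv_unique {x y : Pr Z} (h1 : mul (mul x y) x = x) (h2 : mul (mul y x) y = y) :
    y = inv x := by
  obtain ⟨A, g⟩ := x
  obtain ⟨B, h⟩ := y
  simp only [mul, Prod.mk.injEq] at h1 h2
  have hh : h = g⁻¹ := by
    have := h1.2
    rw [mul_eq_right] at this
    exact (inv_eq_of_mul_eq_one_right this).symm
  subst hh
  simp only [inv, Prod.mk.injEq, and_true]
  apply Set.Subset.antisymm
  · have : g • B ⊆ A := by rw [← h1.1]; intro x hx; exact Or.inl (Or.inr hx)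
    exact Set.subset_smul_set_iff.2 (by simpa using this)
  · rw [← h2.1]; intro x hx; exact Or.inl (Or.inr hx)

theorem mul_inv_mul (x : Pr Z) : mul (mul x (inv x)) x = x := by
  simp [mul, inv]

theorem inv_mul_inv (x : Pr Z) : mul (mul (inv x) x) (inv x) = inv x := by
  simp [mul, inv]

/-- inverse letter -/
def li (a : Z × Bool) : Z × Bool := (a.1, !a.2)

@[simp] theorem li_li (a : Z × Bool) : li (li a) = a := by simp [li]

theorem mk_li (a : Z × Bool) : mk [li a] = (mk [a])⁻¹ := by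
  rw [inv_mk]; rfl

section Sep
variable [DecidableEq Z]

theorem sw_aux (a : Z × Bool) : ∀ (l : Wd Z), IsReduced l → ∀ y : Z × Bool,
    mk l ∉ startsWith y → mk l * mk [a] ∈ startsWith y → l = [] ∧ a = y
  | [], _, y, _, h2 => by
    refine ⟨rfl, ?_⟩
    simpa [startsWith] using h2
  | b :: l, hr, y, h1, h2 => by
    exfalso
    have hl : IsReduced l := hr.tail
    have hb : mk l ∉ startsWith (li b) := by
      cases l with
      | nil => simp [startsWith]
      | cons c l =>
        have := isReduced_cons_cons.1 hr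
        simp only [startsWith, toWord_mk, hl.reduce_eq, Set.mem_ofPred_eq,
          List.getElem?_cons_zero, Option.some.injEq]
        rintro rfl
        simp [li] at this
    have hby : b ≠ y := by
      rintro rfl
      exact h1 (by simp [startsWith, hr.reduce_eq])
    have e : mk (b :: l) * mk [a] = mk [b] * (mk l * mk [a]) := by simp
    by_cases h3 : mk l * mk [a] ∈ startsWith (li b)
    · obtain ⟨rfl, rfl⟩ := sw_aux a l hl _ hb h3
      refine startsWith.ne_one _ h2 ?_
      rw [mk_li, mul_inv_cancel]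
    · have := startsWith_mk_mul (w := b) _ h3
      rw [← e] at this
      exact (startsWith.disjoint_iff_ne.2 hby).notMem_of_mem_left this h2

theorem sw_step {g : FreeGroup Z} {a y : Z × Bool} (h1 : g ∉ startsWith y)
    (h2 : g * mk [a] ∈ startsWith y) : g = 1 ∧ a = y := by
  rw [← mk_toWord (x := g)] at h1 h2
  obtain ⟨h, rfl⟩ := sw_aux a _ isReduced_toWord y h1 h2
  exact ⟨toWord_eq_nil_iff.1 h, rfl⟩

theorem mk_mem_sw (y : Z × Bool) : mk [y] ∈ startsWith y := by simp [startsWith]
theorem one_notMem_sw (y : Z × Bool) : (1 : FreeGroup Z) ∉ startsWith y :=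
  fun h => startsWith.ne_one _ h rfl

/-- a path that visits both sides of an edge crosses it -/
theorem cross {w : Wd Z} {h p p' : FreeGroup Z} {y : Z × Bool} (hp : p ∈ T w) (hp' : p' ∈ T w)
    (h1 : h⁻¹ * p ∈ startsWith y) (h2 : h⁻¹ * p' ∉ startsWith y) :
    ∃ u a v, w = u ++ a :: v ∧ ((mk u = h ∧ a = y) ∨ (mk u = h * mk [y] ∧ a = li y)) := by
  by_contra H
  have key : ∀ i : ℕ, (h⁻¹ * mk (w.take i) ∈ startsWith y ↔ h⁻¹ ∈ startsWith y) := by
    intro i
    induction i with
    | zero => simp [← one_eq_mk]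
    | succ i ih =>
      rw [← ih]
      rcases lt_or_ge i w.length with hi | hi
      · have e : w.take (i + 1) = w.take i ++ [w[i]] := by simp
        have e2 : w = w.take i ++ w[i] :: w.drop (i + 1) := by simp
        rw [e, ← mul_mk, ← mul_assoc]
        constructor
        · intro h3
          by_contra h4
          obtain ⟨h5, h6⟩ := sw_step h4 h3
          exact H ⟨_, _, _, e2, Or.inl ⟨(inv_mul_eq_one.1 h5).symm, h6⟩⟩
        · intro h3
          by_contra h4
          obtain ⟨h5, h6⟩ := sw_step (a := li w[i]) h4 (by rwa [mk_li, mul_inv_cancel_right])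
          refine H ⟨_, _, _, e2, Or.inr ⟨?_, by rw [← h6, li_li]⟩⟩
          rw [← h6, mk_li]
          rw [mul_assoc, inv_mul_eq_one] at h5
          rw [← h5.symm, mul_inv_cancel_right]
      · rw [List.take_of_length_le hi, List.take_of_length_le (by omega)]
  obtain ⟨i, rfl⟩ := hp
  obtain ⟨j, rfl⟩ := hp'
  exact h2 ((key j).2 ((key i).1 h1))

/-- a word for `g` that stays outside a branch -/
theorem T_toWord_out {g : FreeGroup Z} {y : Z × Bool} (hg : g ∉ startsWith y) :
    ∀ p ∈ T g.toWord, p ∉ startsWith y := by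
  intro p hp h
  obtain ⟨u, v, e, rfl⟩ := mem_T.1 hp
  have hr : IsReduced (u ++ v) := e ▸ isReduced_toWord
  have hu : IsReduced u := hr.left_of_append
  apply hg
  simp only [startsWith, toWord_mk, hu.reduce_eq, Set.mem_ofPred_eq] at h ⊢
  rw [e]
  cases u with
  | nil => simp at h
  | cons c u => simpa using h

end Sep

/-- substitution of words for letters -/
def sl (σ : Z → Wd X) (a : Z × Bool) : Wd X := cond a.2 (σ a.1) (invRev (σ a.1))
def sub (σ : Z → Wd X) (w : Wd Z) : Wd X := w.flatMap (sl σ)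
def vl (σ : Z → Wd X) : FreeGroup Z →* FreeGroup X := lift fun z => mk (σ z)

@[simp] theorem sub_nil (σ : Z → Wd X) : sub σ [] = [] := rfl
@[simp] theorem sub_cons (σ : Z → Wd X) (a : Z × Bool) (w : Wd Z) :
    sub σ (a :: w) = sl σ a ++ sub σ w := rfl
@[simp] theorem sub_append (σ : Z → Wd X) (u w : Wd Z) :
    sub σ (u ++ w) = sub σ u ++ sub σ w := by simp [sub]

theorem sl_li (σ : Z → Wd X) (a : Z × Bool) : sl σ (li a) = invRev (sl σ a) := by
  obtain ⟨z, b⟩ := a
  cases b <;> simp [sl, li]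

theorem mk_sl (σ : Z → Wd X) (a : Z × Bool) : mk (sl σ a) = vl σ (mk [a]) := by
  obtain ⟨z, b⟩ := a
  cases b <;> simp [sl, vl, ← inv_mk]

theorem mk_sub (σ : Z → Wd X) (w : Wd Z) : mk (sub σ w) = vl σ (mk w) := by
  induction w with
  | nil => simp [← one_eq_mk]
  | cons a w ih =>
    rw [sub_cons, ← mul_mk, ih, mk_sl, ← _root_.map_mul, mul_mk]; rfl

theorem sub_invRev (σ : Z → Wd X) (w : Wd Z) : sub σ (invRev w) = invRev (sub σ w) := by
  induction w with
  | nil => rfl
  | cons a w ih =>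
    rw [invRev_cons, sub_append, ih, sub_cons, invRev_append, ← sl_li]
    simp [invRev, li]

theorem mem_T_sub {σ : Z → Wd X} {w : Wd Z} {x : FreeGroup X} :
    x ∈ T (sub σ w) ↔ x = 1 ∨ ∃ u a v, w = u ++ a :: v ∧ x ∈ vl σ (mk u) • T (sl σ a) := by
  constructor
  · induction w using List.reverseRecOn with
    | nil => intro h; exact Or.inl (by simpa [T_nil] using h)
    | append_singleton w a ih =>
      intro h
      rw [sub_append, T_append] at h
      rcases h with h | h
      · rcases ih h with h' | ⟨u, b, v, rfl, h'⟩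
        · exact Or.inl h'
        · exact Or.inr ⟨u, b, v ++ [a], by simp, h'⟩
      · exact Or.inr ⟨w, a, [], rfl, by simpa [mk_sub] using h⟩
  · rintro (rfl | ⟨u, a, v, rfl, h⟩)
    · exact one_mem_T _
    · rw [sub_append, T_append, sub_cons, T_append, mk_sub]
      exact Or.inr (Set.smul_set_mono Set.subset_union_left h)

theorem smul_T_li (σ : Z → Wd X) (h : FreeGroup Z) (y : Z × Bool) :
    vl σ (h * mk [y]) • T (sl σ (li y)) = vl σ h • T (sl σ y) := by
  rw [sl_li, T_invRev, mk_sl, _root_.map_mul, smul_smul, mul_inv_cancel_right]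

theorem T_sub_mono (σ : Z → Wd X) {w w' : Wd Z} (h : T w ⊆ T w') : T (sub σ w) ⊆ T (sub σ w') := by
  classical
  intro x hx
  rcases mem_T_sub.1 hx with rfl | ⟨u, a, v, rfl, hx⟩
  · exact one_mem_T _
  · have h1 : mk u ∈ T w' := h (mem_T.2 ⟨u, a :: v, rfl, rfl⟩)
    have h2 : mk u * mk [a] ∈ T w' := h (mem_T.2 ⟨u ++ [a], v, by simp, by simp⟩)
    obtain ⟨u', a', v', e, H⟩ := cross (h := mk u) (y := a) h2 h1 
      (by rw [inv_mul_cancel_left]; exact mk_mem_sw a)
      (by rw [inv_mul_cancel]; exact one_notMem_sw a)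
    refine mem_T_sub.2 (Or.inr ⟨u', a', v', e, ?_⟩)
    rcases H with ⟨e1, rfl⟩ | ⟨e1, rfl⟩
    · rwa [e1]
    · rwa [e1, smul_T_li]

theorem M_sub_congr (σ : Z → Wd X) {w w' : Wd Z} (h : M w = M w') :
    M (sub σ w) = M (sub σ w') := by
  simp only [M, Prod.mk.injEq] at h ⊢
  exact ⟨(T_sub_mono σ h.1.le).antisymm (T_sub_mono σ h.1.ge), by rw [mk_sub, mk_sub, h.2]⟩

theorem sub_sub (σ : Z → Wd X) (τ : X → Wd Y) (w : Wd Z) :
    sub τ (sub σ w) = sub (fun z => sub τ (σ z)) w := by
  induction w with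
  | nil => rfl
  | cons a w ih =>
    rw [sub_cons, sub_append, ih, sub_cons]
    congr 1
    obtain ⟨z, b⟩ := a
    cases b <;> simp [sl, sub_invRev]

theorem M_sub_ext {σ τ : Z → Wd X} {w : Wd Z} (h : ∀ a ∈ w, M (σ a.1) = M (τ a.1)) :
    M (sub σ w) = M (sub τ w) := by
  induction w with
  | nil => rfl
  | cons a w ih =>
    rw [sub_cons, sub_cons, M_append, M_append, ih fun b hb => h b (List.mem_cons_of_mem _ hb)]
    congr 1
    have := h a List.mem_cons_self
    obtain ⟨z, b⟩ := a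
    cases b
    · simp only [sl, cond_false, M_invRev]; rw [this]
    · simpa [sl] using this

theorem sub_single (w : Wd Z) : sub (fun z => [(z, true)]) w = w := by
  induction w with
  | nil => rfl
  | cons a w ih =>
    rw [sub_cons, ih]
    obtain ⟨z, b⟩ := a
    cases b <;> simp [sl, invRev]

end Pool.Agent.H73.FInv
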