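import Pool.Agent.H73.FInv1

/-!
Generated inverse subsemigroups, free bases, and the reduction of freeness to irredundant
generating lists.
-/

set_option autoImplicit false

namespace Pool.Agent.H73.FInv

open FreeGroup Pointwise

abbrev W := Wd ℕ

/-- the inverse subsemigroup generated by a list -/
def Cl (A : List W) : Set (Pr ℕ) :=
  {q | ∀ S : Set (Pr ℕ), (∀ w ∈ A, M w ∈ S) → (∀ x ∈ S, ∀ y ∈ S, mul x y ∈ S) →
    (∀ x ∈ S, inv x ∈ S) → q ∈ S}

def FI (Z : Type) : Set (Pr Z) := {p | ∃ w : Wd Z, w ≠ [] ∧ p = M w}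

/-- the statement to be decided -/
def IsFr (A : List W) : Prop :=
  ∃ (Z : Type) (φ : Pr Z → Pr ℕ), Set.InjOn φ (FI Z) ∧ φ '' FI Z = Cl A ∧
    ∀ x ∈ FI Z, ∀ y ∈ FI Z, φ (mul x y) = mul (φ x) (φ y)

def sg (B : List W) (i : ℕ) : W := B.getD i []
def Ok (n : ℕ) (w : W) : Prop := ∀ a ∈ w, a.1 < n

theorem Ok.append {n : ℕ} {u v : W} (hu : Ok n u) (hv : Ok n v) : Ok n (u ++ v) := by
  intro a ha
  rcases List.mem_append.1 ha with h | h
  exacts [hu a h, hv a h]

theorem Ok.invRev {n : ℕ} {u : W} (hu : Ok n u) : Ok n (invRev u) := by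
  intro a ha
  simp only [FreeGroup.invRev, List.mem_reverse, List.mem_map] at ha
  obtain ⟨b, hb, rfl⟩ := ha
  exact hu b hb

theorem Ok.left {n : ℕ} {u v : W} (h : Ok n (u ++ v)) : Ok n u :=
  fun a ha => h a (List.mem_append_left _ ha)
theorem Ok.right {n : ℕ} {u v : W} (h : Ok n (u ++ v)) : Ok n v :=
  fun a ha => h a (List.mem_append_right _ ha)
theorem Ok.single {n : ℕ} {a : ℕ × Bool} (h : a.1 < n) : Ok n [a] := by simpa [Ok] using h
theorem Ok.nil (n : ℕ) : Ok n [] := by simp [Ok]

theorem sg_mem {B : List W} {i : ℕ} (h : i < B.length) : sg B i ∈ B := by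
  simp [sg, h]

theorem exists_sg {B : List W} {b : W} (h : b ∈ B) : ∃ i < B.length, sg B i = b := by
  obtain ⟨i, hi, rfl⟩ := List.getElem_of_mem h
  exact ⟨i, hi, by simp [sg, hi]⟩

theorem Cl.gen {A : List W} {a : W} (h : a ∈ A) : M a ∈ Cl A := fun _ h1 _ _ => h1 a h
theorem Cl.mul {A : List W} {x y : Pr ℕ} (hx : x ∈ Cl A) (hy : y ∈ Cl A) : mul x y ∈ Cl A :=
  fun S h1 h2 h3 => h2 _ (hx S h1 h2 h3) _ (hy S h1 h2 h3)
theorem Cl.inv {A : List W} {x : Pr ℕ} (hx : x ∈ Cl A) : inv x ∈ Cl A :=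
  fun S h1 h2 h3 => h3 _ (hx S h1 h2 h3)
theorem Cl.le {A B : List W} (h : ∀ a ∈ A, M a ∈ Cl B) : Cl A ⊆ Cl B :=
  fun _ hx => hx _ h (fun _ h1 _ h2 => Cl.mul h1 h2) fun _ h1 => Cl.inv h1

theorem Cl.sub {Z : Type} {A : List W} {σ : Z → W} {w : Wd Z} (hw : w ≠ [])
    (h : ∀ a ∈ w, M (σ a.1) ∈ Cl A) : M (sub σ w) ∈ Cl A := by
  have hl : ∀ a ∈ w, M (sl σ a) ∈ Cl A := by
    rintro ⟨z, b⟩ ha
    cases b
    · simp only [sl, cond_false, M_invRev]; exact Cl.inv (h _ ha)
    · exact h _ ha
  clear h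
  induction w with
  | nil => exact absurd rfl hw
  | cons a w ih =>
    rcases eq_or_ne w [] with rfl | hw'
    · simpa using hl a List.mem_cons_self
    · rw [sub_cons, M_append]
      exact Cl.mul (hl a List.mem_cons_self) (ih hw' fun b hb => hl b (List.mem_cons_of_mem _ hb))

theorem invRev_ne_nil {Z : Type} {w : Wd Z} (h : w ≠ []) : invRev w ≠ [] := by
  intro h'
  apply h
  rw [← invRev_invRev (L₁ := w), h']; rfl

theorem mem_Cl {A : List W} {p : Pr ℕ} :
    p ∈ Cl A ↔ ∃ w : W, w ≠ [] ∧ Ok A.length w ∧ p = M (sub (sg A) w) := by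
  constructor
  · intro h
    refine h {p | ∃ w : W, w ≠ [] ∧ Ok A.length w ∧ p = M (sub (sg A) w)} ?_ ?_ ?_
    · intro a ha
      obtain ⟨i, hi, rfl⟩ := exists_sg ha
      exact ⟨[(i, true)], by simp, Ok.single hi, by simp [sl]⟩
    · rintro _ ⟨u, hu, hu', rfl⟩ _ ⟨v, -, hv', rfl⟩
      exact ⟨u ++ v, by simp [hu], hu'.append hv', by rw [sub_append, M_append]⟩
    · rintro _ ⟨u, hu, hu', rfl⟩
      exact ⟨invRev u, invRev_ne_nil hu, hu'.invRev, by rw [sub_invRev, M_invRev]⟩
  · rintro ⟨w, hw, hw', rfl⟩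
    exact Cl.sub hw fun a ha => Cl.gen (sg_mem (hw' a ha))

/-- `B` is a free basis -/
def Free (B : List W) : Prop :=
  ∀ u v : W, u ≠ [] → v ≠ [] → Ok B.length u → Ok B.length v →
    M (sub (sg B) u) = M (sub (sg B) v) → M u = M v

/-- no member of `B` is generated by the others -/
def Irr (B : List W) : Prop := ∀ i < B.length, M (sg B i) ∉ Cl (B.eraseIdx i)

theorem exists_irr (A : List W) : ∃ B : List W, Cl B = Cl A ∧ Irr B := by
  classical
  have hex : ∃ n, ∃ B : List W, Cl B = Cl A ∧ B.length = n := ⟨_, A, rfl, rfl⟩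
  obtain ⟨B, hB, hn⟩ := Nat.find_spec hex
  refine ⟨B, hB, fun i hi h => ?_⟩
  refine Nat.find_min hex (m := (B.eraseIdx i).length) ?_ ⟨_, ?_, rfl⟩
  · rw [← hn, List.length_eraseIdx_of_lt hi]; omega
  · rw [← hB]
    refine (Cl.le fun a ha => Cl.gen (List.mem_of_mem_eraseIdx ha)).antisymm (Cl.le fun a ha => ?_)
    obtain ⟨j, hj, rfl⟩ := List.getElem_of_mem ha
    rcases eq_or_ne j i with rfl | hji
    · simpa [sg, hj] using h
    · exact Cl.gen (List.mem_eraseIdx_iff_getElem.2 ⟨j, hj, hji, rfl⟩)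

theorem isFr_of_free {A B : List W} (h : Cl B = Cl A) (hB : Free B) : IsFr A := by
  classical
  let Z := {i : ℕ // i < B.length}
  let σ : Z → W := fun z => sg B z.1
  let ι : Z → W := fun z => [(z.1, true)]
  let τ : ℕ → Wd Z := fun i => if h : i < B.length then [(⟨i, h⟩, true)] else []
  have hσ : ∀ w, sub σ w = sub (sg B) (sub ι w) := fun w => by
    rw [sub_sub]; congr 1; funext z; simp [ι, σ, sl]
  have hτι : ∀ w, sub τ (sub ι w) = w := fun w => by
    rw [sub_sub]
    convert sub_single w with z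
    simp [ι, τ, sl, z.2]
  have hok : ∀ w, Ok B.length (sub ι w) := fun w a ha => by
    simp only [sub, List.mem_flatMap] at ha
    obtain ⟨⟨z, b⟩, -, ha⟩ := ha
    cases b <;> simp [sl, ι, invRev] at ha <;> subst ha <;> exact z.2
  have hne : ∀ w, w ≠ [] → sub ι w ≠ [] := fun w hw h => hw (by rw [← hτι w, h]; rfl)
  let φ : Pr Z → Pr ℕ := fun p => if h : ∃ w, M w = p then M (sub σ h.choose) else M []
  have hφ : ∀ w, φ (M w) = M (sub σ w) := fun w => by
    have : ∃ w', M w' = M w := ⟨w, rfl⟩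
    simp only [φ, dif_pos this]
    exact M_sub_congr σ this.choose_spec
  refine ⟨Z, φ, ?_, ?_, ?_⟩
  · rintro _ ⟨u, hu, rfl⟩ _ ⟨v, hv, rfl⟩ e
    rw [hφ, hφ, hσ, hσ] at e
    have := M_sub_congr τ (hB _ _ (hne u hu) (hne v hv) (hok u) (hok v) e)
    rwa [hτι, hτι] at this
  · rw [← h]
    ext p
    constructor
    · rintro ⟨_, ⟨u, hu, rfl⟩, rfl⟩
      rw [hφ, hσ]
      exact mem_Cl.2 ⟨_, hne u hu, hok u, rfl⟩
    · intro hp
      obtain ⟨w, hw, hw', rfl⟩ := mem_Cl.1 hp
      have e : sub ι (sub τ w) = w := by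
        clear hw hp
        induction w with
        | nil => rfl
        | cons a w ih =>
          rw [sub_cons, sub_append, ih fun b hb => hw' b (List.mem_cons_of_mem _ hb)]
          have := hw' a List.mem_cons_self
          obtain ⟨z, b⟩ := a
          cases b <;> simp [sl, τ, ι, invRev, show z < B.length from this]
      refine ⟨M (sub τ w), ⟨_, fun h => hw (by rw [← e, h]; rfl), rfl⟩, ?_⟩
      rw [hφ, hσ, e]
  · rintro _ ⟨u, -, rfl⟩ _ ⟨v, -, rfl⟩
    rw [← M_append, hφ, hφ, hφ, sub_append, M_append]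

/-- a one-edge tree factors through a letter -/
theorem letter_of_M {Z : Type} {β : ℕ → Wd Z} {w : W} {z : Z}
    (h : M (sub β w) = M [(z, true)]) : ∃ a ∈ w, M (sl β a) = M [(z, true)] := by
  simp only [M, Prod.mk.injEq, T_single] at h
  obtain ⟨h1, h2⟩ := h
  have hz : (mk [(z, true)] : FreeGroup Z) ≠ 1 := of_ne_one z
  have key : ∀ u v, w = u ++ v → (∀ a ∈ u, M (sl β a) ≠ M [(z, true)]) → mk (sub β u) = 1 := by
    intro u
    induction u using List.reverseRecOn with
    | nil => intros; rfl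
    | append_singleton u a ih =>
      intro v e hu
      have h3 := ih (a :: v) (by simp [e]) fun b hb => hu b (List.mem_append_left _ hb)
      have h4 : T (sl β a) ⊆ {1, mk [(z, true)]} := by
        rw [← h1, e, List.append_assoc, sub_append, T_append, h3, one_smul, sub_append, T_append]
        intro x hx
        exact Or.inr (Or.inl (by simpa using hx))
      rw [sub_append, ← mul_mk, h3, one_mul]
      simp only [sub_cons, sub_nil, List.append_nil]
      rcases h4 (mk_mem_T _) with h5 | h5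
      · exact h5
      · exfalso
        refine hu a (by simp) ?_
        simp only [M, Prod.mk.injEq, T_single]
        refine ⟨h4.antisymm ?_, h5⟩
        rintro x (rfl | rfl)
        · exact one_mem_T _
        · rw [← h5]; exact mk_mem_T _
  by_contra H
  push Not at H
  exact hz (h2 ▸ key w [] (by simp) H)

theorem free_of_isFr {A B : List W} (h : Cl B = Cl A) (hI : Irr B) (hA : IsFr A) : Free B := by
  classical
  obtain ⟨Z, φ, hinj, him, hmul⟩ := hA
  rw [← h] at him
  have hFI : ∀ w : Wd Z, w ≠ [] → M w ∈ FI Z := fun w hw => ⟨w, hw, rfl⟩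
  have hinv : ∀ w : Wd Z, w ≠ [] → φ (M (invRev w)) = inv (φ (M w)) := by
    intro w hw
    have hw' := invRev_ne_nil hw
    refine inv_unique ?_ ?_
    · rw [← hmul _ (hFI _ hw) _ (hFI _ hw'), ← M_append, ← hmul _ (hFI _ (by simp [hw])) _ (hFI _ hw),
        M_append, M_invRev, mul_inv_mul]
    · rw [← hmul _ (hFI _ hw') _ (hFI _ hw), ← M_append,
        ← hmul _ (hFI _ (by simp [hw])) _ (hFI _ hw'), M_append, M_invRev, inv_mul_inv]
  -- compatibility of `φ` with substitutions
  have hsub : ∀ {Y : Type} (β : Y → Wd Z) (σ : Y → W) (w : Wd Y), w ≠ [] →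
      (∀ a ∈ w, β a.1 ≠ [] ∧ φ (M (β a.1)) = M (σ a.1)) →
      sub β w ≠ [] ∧ φ (M (sub β w)) = M (sub σ w) := by
    intro Y β σ w hw H
    have hl : ∀ a ∈ w, sl β a ≠ [] ∧ φ (M (sl β a)) = M (sl σ a) := by
      rintro ⟨z, b⟩ ha
      have := H _ ha
      cases b
      · simp only [sl, cond_false]
        exact ⟨invRev_ne_nil this.1, by rw [hinv _ this.1, this.2, M_invRev]⟩
      · exact this
    clear H
    induction w with
    | nil => exact absurd rfl hw
    | cons a w ih =>
      have h1 := hl a List.mem_cons_self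
      rcases eq_or_ne w [] with rfl | hw'
      · simpa using h1
      · have h2 := ih hw' fun b hb => hl b (List.mem_cons_of_mem _ hb)
        refine ⟨by simp [h1.1], ?_⟩
        rw [sub_cons, sub_cons, M_append, M_append, hmul _ (hFI _ h1.1) _ (hFI _ h2.1), h1.2, h2.2]
  have hβ : ∀ i, ∃ w : Wd Z, i < B.length → w ≠ [] ∧ φ (M w) = M (sg B i) := by
    intro i
    by_cases hi : i < B.length
    · have : M (sg B i) ∈ φ '' FI Z := him ▸ Cl.gen (sg_mem hi)
      obtain ⟨_, ⟨w, hw, rfl⟩, e⟩ := this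
      exact ⟨w, fun _ => ⟨hw, e⟩⟩
    · exact ⟨[], fun h => absurd h hi⟩
  choose β hβ using hβ
  have hθ : ∀ z : Z, ∃ a : ℕ × Bool, a.1 < B.length ∧ M (sl β a) = M [(z, true)] := by
    intro z
    have : φ (M [(z, true)]) ∈ Cl B := him ▸ ⟨_, hFI _ (by simp), rfl⟩
    obtain ⟨w, hw, hw', e⟩ := mem_Cl.1 this
    obtain ⟨h1, h2⟩ := hsub β (sg B) w hw fun a ha => hβ _ (hw' a ha)
    rw [← h2] at e
    obtain ⟨a, ha, h3⟩ := letter_of_M (hinj (hFI _ (by simp)) (hFI _ h1) e).symm
    exact ⟨a, hw' a ha, h3⟩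
  choose θ hθ hθ' using hθ
  have hsurj : ∀ i < B.length, ∃ z, (θ z).1 = i := by
    intro i hi
    by_contra H
    push Not at H
    apply hI i hi
    obtain ⟨h1, h2⟩ := hβ i hi
    have h3 := (hsub (fun z => [(z, true)]) (fun z => sl (sg B) (θ z)) (β i) h1 fun a _ => by
      refine ⟨by simp, ?_⟩
      rw [← hθ']
      simpa using (hsub β (sg B) [θ a.1] (by simp) (by simpa using hβ _ (hθ a.1))).2).2
    rw [sub_single, h2] at h3
    rw [h3]
    refine Cl.sub h1 fun a _ => ?_
    have := Cl.sub (A := B.eraseIdx i) (σ := sg B) (w := [θ a.1]) (by simp) (by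
      simp only [List.mem_singleton, forall_eq]
      refine Cl.gen (List.mem_eraseIdx_iff_getElem.2 ⟨_, hθ a.1, H a.1, ?_⟩)
      simp [sg, hθ a.1])
    simpa using this
  have hback : ∀ i < B.length, M (sub (fun z => [θ z]) (β i)) = M [(i, true)] := by
    intro i hi
    obtain ⟨z, rfl⟩ := hsurj i hi
    have h1 := M_sub_congr (fun z => [θ z]) (hθ' z)
    rcases e : θ z with ⟨j, b⟩
    cases b
    · rw [e] at h1
      simp only [sl, cond_false, sub_invRev, M_invRev, sub_cons, cond_true, sub_nil,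
        List.append_nil, e] at h1
      have h2 := congrArg inv h1
      rw [← M_invRev, ← M_invRev, ← M_invRev, invRev_invRev] at h2
      exact h2
    · rw [e] at h1
      simpa [sl, e] using h1
  have hfin : ∀ u, Ok B.length u → M (sub (fun z => [θ z]) (sub β u)) = M u := by
    intro u hu
    rw [sub_sub, M_sub_ext (τ := fun i => [(i, true)]) fun a ha => hback _ (hu a ha), sub_single]
  intro u v hu hv hu' hv' e
  obtain ⟨h1, h2⟩ := hsub β (sg B) u hu fun a ha => hβ _ (hu' a ha)
  obtain ⟨h3, h4⟩ := hsub β (sg B) v hv fun a ha => hβ _ (hv' a ha)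
  rw [← h2, ← h4] at e
  rw [← hfin u hu', ← hfin v hv']
  exact M_sub_congr _ (hinj (hFI _ h1) (hFI _ h3) e)

/-- the criterion -/
def Crit (B : List W) : Prop :=
  (∀ u, Ok B.length u → vl (sg B) (mk u) = 1 → mk u = 1) ∧
  ∀ y : ℕ × Bool, y.1 < B.length → ∃ v ∈ T (sl (sg B) y), ∀ u z, Ok B.length u → z < B.length →
    v ∈ vl (sg B) (mk u) • T (sg B z) →
      mk u ∈ startsWith y ∨ mk u * mk [(z, true)] ∈ startsWith y

theorem Crit.inj {B : List W} (h : Crit B) {u v : W} (hu : Ok B.length u) (hv : Ok B.length v)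
    (e : vl (sg B) (mk u) = vl (sg B) (mk v)) : mk u = mk v := by
  have := h.1 (u ++ invRev v) (hu.append hv.invRev) (by
    rw [← mul_mk, ← inv_mk, _root_.map_mul, _root_.map_inv, e, mul_inv_cancel])
  rwa [← mul_mk, ← inv_mk, mul_inv_eq_one] at this

theorem Crit.T_le {B : List W} (h : Crit B) {w w' : W} (hw : Ok B.length w) (hw' : Ok B.length w')
    (hne : w' ≠ []) (e : T (sub (sg B) w) ⊆ T (sub (sg B) w')) : T w ⊆ T w' := by
  have key : ∀ u v, w = u ++ v → mk u ∈ T w' := by
    intro u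
    induction u using List.reverseRecOn with
    | nil => intros; exact one_mem_T _
    | append_singleton p y ih =>
      intro v e1
      have h1 : mk p ∈ T w' := ih (y :: v) (by simp [e1])
      have hp : Ok B.length p := (e1 ▸ hw).left.left
      obtain ⟨x, hx, H⟩ := h.2 y (hw y (by simp [e1]))
      have h2 : vl (sg B) (mk p) * x ∈ T (sub (sg B) w') :=
        e (mem_T_sub.2 (Or.inr ⟨p, y, v, by simp [e1], x, hx, rfl⟩))
      have h3 : ∃ u a v, w' = u ++ a :: v ∧
          vl (sg B) (mk p) * x ∈ vl (sg B) (mk u) • T (sl (sg B) a) := by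
        rcases mem_T_sub.1 h2 with h3 | h3
        · obtain ⟨a, v, rfl⟩ := List.exists_cons_of_ne_nil hne
          exact ⟨[], a, v, rfl, by rw [h3, ← one_eq_mk]; simpa using one_mem_T _⟩
        · exact h3
      obtain ⟨u, a, v', e2, h4⟩ := h3
      have hu : Ok B.length u := (e2 ▸ hw').left
      have ha : a.1 < B.length := hw' a (by simp [e2])
      have m1 : mk u ∈ T w' := mem_T.2 ⟨u, a :: v', e2, rfl⟩
      have m2 : mk u * mk [a] ∈ T w' := mem_T.2 ⟨u ++ [a], v', by simp [e2], by simp⟩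
      have h5 : ∃ k ∈ T w', (mk p)⁻¹ * k ∈ startsWith y := by
        obtain ⟨z, b⟩ := a
        cases b
        · have h6 := H (invRev p ++ u ++ [(z, false)]) z
            ((hp.invRev.append hu).append (Ok.single ha)) ha (by
              have := smul_T_li (sg B) (mk (invRev p ++ u)) (z, false)
              rw [mul_mk] at this
              change _ ∈ _ • T (sl (sg B) (li (z, false)))
              rw [this, ← mul_mk, ← inv_mk, _root_.map_mul, _root_.map_inv, mul_smul]
              exact Set.mem_inv_smul_set_iff.2 h4)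
          rcases h6 with h6 | h6
          · exact ⟨_, m2, by rwa [← mul_mk, ← mul_mk, ← inv_mk, mul_assoc] at h6⟩
          · refine ⟨_, m1, ?_⟩
            change _ * mk [li (z, false)] ∈ _ at h6
            rwa [mk_li, ← mul_mk, mul_inv_cancel_right, ← mul_mk, ← inv_mk] at h6
        · have h6 := H (invRev p ++ u) z (hp.invRev.append hu) ha (by
              rw [← mul_mk, ← inv_mk, _root_.map_mul, _root_.map_inv, mul_smul]
              exact Set.mem_inv_smul_set_iff.2 h4)
          rcases h6 with h6 | h6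
          · exact ⟨_, m1, by rwa [← mul_mk, ← inv_mk] at h6⟩
          · exact ⟨_, m2, by rwa [← mul_mk, ← inv_mk, mul_assoc] at h6⟩
      obtain ⟨k, hk, h6⟩ := h5
      obtain ⟨u', a', v'', e3, H'⟩ := cross hk h1 h6
        (by rw [inv_mul_cancel]; exact one_notMem_sw y)
      rw [← mul_mk]
      rcases H' with ⟨e4, rfl⟩ | ⟨e4, rfl⟩
      · exact mem_T.2 ⟨u' ++ [a'], v'', by simp [e3], by rw [← e4, mul_mk]⟩
      · exact mem_T.2 ⟨u', _, e3, e4.symm⟩
  intro x hx
  obtain ⟨u, v, e1, rfl⟩ := mem_T.1 hx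
  exact key u v e1

theorem Crit.free {B : List W} (h : Crit B) : Free B := by
  intro u v hu hv hu' hv' e
  simp only [M, Prod.mk.injEq] at e ⊢
  exact ⟨(h.T_le hu' hv' hv e.1.le).antisymm (h.T_le hv' hu' hu e.1.ge),
    h.inj hu' hv' (by rw [← mk_sub, ← mk_sub, e.2])⟩

theorem Ok.toWord {n : ℕ} {u : W} (hu : Ok n u) : Ok n (mk u).toWord := by
  intro a ha
  rw [toWord_mk] at ha
  exact hu a ((reduce.red (L := u)).sublist.subset ha)

theorem Free.crit {B : List W} (h : Free B) : Crit B := by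
  refine ⟨fun u hu e => ?_, fun y hy => ?_⟩
  · rcases eq_or_ne u [] with rfl | hne
    · rfl
    · have := h (u ++ u) u (by simp [hne]) hne (hu.append hu) hu (by
        rw [sub_append, M_append]
        simp [M, mul, mk_sub, e])
      have h2 := congrArg Prod.snd this
      simp only [M] at h2
      rwa [← mul_mk, mul_eq_left] at h2
  · by_contra H
    push Not at H
    -- a loop outside the branch whose image covers a finite set
    have key : ∀ s : Set (FreeGroup ℕ), s.Finite → s ⊆ T (sl (sg B) y) →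
        ∃ e : W, Ok B.length e ∧ mk e = 1 ∧ (∀ p ∈ T e, p ∉ startsWith y) ∧
          s ⊆ T (sub (sg B) e) ∧ (s.Nonempty → e ≠ []) := by
      intro s hs
      induction s, hs using Set.Finite.induction_on with
      | empty =>
        intro _
        exact ⟨[], Ok.nil _, rfl, by simpa [T_nil] using one_notMem_sw y, by simp, by simp⟩
      | @insert x s _ _ ih =>
        intro hsub
        obtain ⟨e, h1, h2, h3, h4, -⟩ := ih ((Set.subset_insert _ _).trans hsub)
        obtain ⟨u, z, hu, hz, h5, h6, h7⟩ := H x (hsub (Set.mem_insert _ _))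
        set l := (mk u).toWord ++ [(z, true)] with hl
        have hlo : Ok B.length l := hu.toWord.append (Ok.single hz)
        have hT : ∀ p ∈ T l, p ∉ startsWith y := by
          intro p hp
          rw [hl, T_append, T_single, mk_toWord] at hp
          rcases hp with hp | ⟨q, rfl | rfl, rfl⟩
          · exact T_toWord_out h6 p hp
          · simpa using h6
          · exact h7
        refine ⟨e ++ (l ++ invRev l), h1.append (hlo.append hlo.invRev), ?_, ?_, ?_, ?_⟩
        · rw [← mul_mk, ← mul_mk, h2, ← inv_mk, one_mul, mul_inv_cancel]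
        · intro p hp
          rw [T_append, T_append, T_invRev, h2, one_smul, smul_inv_smul, Set.union_self] at hp
          rcases hp with hp | hp
          exacts [h3 p hp, hT p hp]
        · rw [sub_append, T_append, mk_sub, h2, _root_.map_one, one_smul, sub_append, T_append]
          rintro p (rfl | hp)
          · refine Or.inr (Or.inl (mem_T_sub.2 (Or.inr ⟨_, _, [], hl, ?_⟩)))
            rwa [mk_toWord]
          · exact Or.inl (h4 hp)
        · intro _; simp [hl]
    obtain ⟨e, h1, h2, h3, h4, h5⟩ := key _ (T_finite _) le_rfl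
    have hne := h5 ⟨1, one_mem_T _⟩
    have := h (e ++ ([y] ++ invRev [y])) e (by simp [hne]) hne
      (h1.append ((Ok.single hy).append (Ok.single hy).invRev)) h1 (by
        rw [sub_append, sub_append, sub_invRev, M_append, M_append, M_invRev]
        simp only [M, mul, inv, mk_sub, h2, _root_.map_one, one_smul, smul_inv_smul,
          Set.union_self, mul_inv_cancel, mul_one, Prod.mk.injEq, and_true]
        exact Set.union_eq_left.2 (by simpa using h4))
    have h6 := congrArg Prod.fst this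
    simp only [M] at h6
    refine h3 (mk [y]) ?_ (mk_mem_sw y)
    rw [← h6]
    exact mem_T.2 ⟨e ++ [y], invRev [y], by simp, by rw [← mul_mk, h2, one_mul]⟩

end Pool.Agent.H73.FInv
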