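import Pool.Agent.H73.FInv2

/-!
Finite certificates: a finite automaton with a cocycle certifies the criterion, and a finite
closed list certifies non-membership.
-/

set_option autoImplicit false

namespace Pool.Agent.H73.FInv

open FreeGroup Pointwise

abbrev Au := ℕ → ℕ × Bool → ℕ × W

def rg (F : Au) (s : ℕ × FreeGroup ℕ) (w : W) : ℕ × FreeGroup ℕ :=
  w.foldl (fun s a => ((F s.1 a).1, s.2 * mk (F s.1 a).2)) s

def InvAt (F : Au) (q : ℕ) (a : ℕ × Bool) : Prop :=
  (F (F q a).1 (li a)).1 = q ∧ mk ((F q a).2 ++ (F (F q a).1 (li a)).2) = 1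

theorem rg_append (F : Au) (s : ℕ × FreeGroup ℕ) (u v : W) :
    rg F s (u ++ v) = rg F (rg F s u) v := by simp [rg]

theorem rg_red {F : Au} (h : ∀ q a, InvAt F q a) (s : ℕ × FreeGroup ℕ) {u v : W} (e : Red u v) :
    rg F s u = rg F s v := by
  induction e with
  | refl => rfl
  | tail _ h2 ih =>
    rw [ih]
    cases h2 with
    | @not L1 L2 x b =>
      rw [rg_append, rg_append]
      have := h (rg F s L1).1 (x, b)
      simp only [InvAt, li, ← mul_mk] at this
      simp only [rg, List.foldl_cons] at this ⊢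
      rw [this.1, mul_assoc, this.2, mul_one]

theorem rg_congr {F : Au} (h : ∀ q a, InvAt F q a) (s : ℕ × FreeGroup ℕ) {u v : W}
    (e : mk u = mk v) : rg F s u = rg F s v := by
  rw [rg_red h s (reduce.red (L := u)), rg_red h s (reduce.red (L := v)), reduce.sound e]

theorem rg_equi (F : Au) (q : ℕ) (c d : FreeGroup ℕ) (w : W) :
    rg F (q, c * d) w = ((rg F (q, d) w).1, c * (rg F (q, d) w).2) := by
  induction w generalizing q d with
  | nil => rfl
  | cons a w ih =>
    have := ih (F q a).1 (d * mk (F q a).2)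
    simp only [rg, List.foldl_cons] at this ⊢
    rw [← this, mul_assoc]

def AChk (B : List W) (q0 : ℕ) (F : Au) : Prop :=
  (∀ z < B.length, rg F (q0, 1) (sg B z) = (q0, mk [(z, true)])) ∧
  ∀ y : ℕ × Bool, y.1 < B.length → ∃ i ≤ (sl (sg B) y).length, ∀ z < B.length,
    ∀ j ≤ (sg B z).length,
      (rg F (q0, 1) ((sl (sg B) y).take i ++ invRev ((sg B z).take j))).1 = q0 →
      (rg F (q0, 1) ((sl (sg B) y).take i ++ invRev ((sg B z).take j))).2 ∈ startsWith y ∨
      (rg F (q0, 1) ((sl (sg B) y).take i ++ invRev ((sg B z).take j))).2 * mk [(z, true)] ∈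
        startsWith y

theorem mem_T_le {Z : Type} {w : Wd Z} {g : FreeGroup Z} :
    g ∈ T w ↔ ∃ i ≤ w.length, g = mk (w.take i) := by
  constructor
  · intro h
    obtain ⟨u, v, rfl, rfl⟩ := mem_T.1 h
    exact ⟨u.length, by simp, by simp⟩
  · rintro ⟨i, -, rfl⟩; exact ⟨i, rfl⟩

theorem crit_of_chk {B : List W} {q0 : ℕ} {F : Au} (h : ∀ q a, InvAt F q a) (hc : AChk B q0 F) :
    Crit B := by
  have h1 : ∀ (c : FreeGroup ℕ) (a : ℕ × Bool), a.1 < B.length →
      rg F (q0, c) (sl (sg B) a) = (q0, c * mk [a]) := by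
    have h0 : ∀ (c : FreeGroup ℕ) z, z < B.length →
        rg F (q0, c) (sg B z) = (q0, c * mk [(z, true)]) := fun c z hz => by
      have := rg_equi F q0 c 1 (sg B z)
      rwa [mul_one, hc.1 z hz] at this
    rintro c ⟨z, b⟩ hz
    cases b
    · have e1 := h0 (c * mk [(z, false)]) z hz
      have e2 : c * mk [(z, false)] * mk [(z, true)] = c := by
        change _ * mk [li (z, false)] = c
        rw [mk_li, mul_inv_cancel_right]
      rw [e2] at e1
      rw [← e1, ← rg_append]
      refine rg_congr h _ (v := []) ?_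
      simp only [sl, cond_false]
      rw [← mul_mk, ← inv_mk, mul_inv_cancel]; rfl
    · exact h0 c z hz
  have h2 : ∀ u, Ok B.length u → rg F (q0, 1) (sub (sg B) u) = (q0, mk u) := by
    intro u
    induction u using List.reverseRecOn with
    | nil => intro _; rfl
    | append_singleton u a ih =>
      intro hu
      rw [sub_append, rg_append, ih hu.left, ← mul_mk]
      simpa using h1 (mk u) a (hu a (by simp))
  refine ⟨fun u hu e => ?_, fun y hy => ?_⟩
  · have := h2 u hu
    rw [rg_congr h _ (v := []) (by rw [mk_sub, e]; rfl)] at this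
    exact (congrArg Prod.snd this).symm
  · obtain ⟨i, -, H⟩ := hc.2 y hy
    refine ⟨_, ⟨i, rfl⟩, fun u z hu hz hv => ?_⟩
    obtain ⟨t, ht, e⟩ := hv
    obtain ⟨j, hj, rfl⟩ := mem_T_le.1 ht
    have := H z hz j hj
    rw [rg_congr h _ (v := sub (sg B) u) (by
      simp only [smul_eq_mul] at e
      rw [← mul_mk, ← e, ← inv_mk, mul_inv_cancel_right, mk_sub]), h2 u hu] at this
    exact this rfl

theorem exists_perm {α β : Type} (s : Set α) (hs : s.Finite) (f g : α → β)
    (hf : Function.Injective f) (hg : Function.Injective g) :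
    ∃ π : Equiv.Perm β, {b | π b ≠ b}.Finite ∧ ∀ a ∈ s, π (f a) = g a := by
  classical
  induction s, hs using Set.Finite.induction_on with
  | empty => exact ⟨1, by simp, by simp⟩
  | @insert x s hx _ ih =>
    obtain ⟨π, h1, h2⟩ := ih
    refine ⟨Equiv.swap (π (f x)) (g x) * π, ?_, ?_⟩
    · refine (h1.union (Set.toFinite {π (f x), g x})).subset fun b hb => ?_
      by_contra H
      simp only [Set.mem_union, Set.mem_ofPred_eq, ne_eq, Set.mem_insert_iff,
        Set.mem_singleton_iff, not_or, Decidable.not_not] at H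
      apply hb
      rw [Equiv.Perm.mul_apply, H.1, Equiv.swap_apply_of_ne_of_ne H.2.1 H.2.2]
    · rintro a (rfl | ha)
      · simp
      · have hne : a ≠ x := fun e => hx (e ▸ ha)
        rw [Equiv.Perm.mul_apply, Equiv.swap_apply_of_ne_of_ne, h2 a ha]
        · exact fun e => hne (hf (π.injective e))
        · rw [h2 a ha]; exact fun e => hne (hg e)

theorem exists_aut (H : Subgroup (FreeGroup ℕ)) (r : FreeGroup ℕ → W) (R : Set W)
    (hR : R.Finite) :
    ∃ (F : Au) (q0 : ℕ), (∀ q a, InvAt F q a) ∧ {k : ℕ × ℕ × Bool | F k.1 k.2 ≠ (k.1, [])}.Finite ∧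
      ∀ (P : FreeGroup ℕ → FreeGroup ℕ → Prop), P 1 1 →
        (∀ c g h, P c g → h ∈ H → P (c * mk (r h)) (g * h) ∧ P (c * (mk (r h))⁻¹) (g * h⁻¹)) →
        ∀ w ∈ R, ((rg F (q0, 1) w).1 = q0 ↔ mk w ∈ H) ∧
          (mk w ∈ H → P (rg F (q0, 1) w).2 (mk w)) := by
  classical
  let C := FreeGroup ℕ ⧸ H
  let cls : FreeGroup ℕ → C := fun g => ((g⁻¹ : FreeGroup ℕ) : C)
  have hcls : ∀ g g', cls g = cls g' ↔ g * g'⁻¹ ∈ H := fun g g' => by
    simp only [cls]; rw [QuotientGroup.eq, inv_inv]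
  have hact : ∀ g x, cls (g * x) = x⁻¹ • cls g := fun g x => by
    simp only [cls, mul_inv_rev]; rfl
  have : Countable (FreeGroup ℕ) := (show Function.Surjective (mk : W → FreeGroup ℕ) from
    fun g => ⟨_, mk_toWord⟩).countable
  have : Countable C := QuotientGroup.mk_surjective.countable
  obtain ⟨enc, henc⟩ := exists_injective_nat C
  let Q : Set C := cls '' ⋃ w ∈ R, T w
  have hQ : Q.Finite := (hR.biUnion fun w _ => T_finite w).image _
  let L : Set ℕ := ⋃ w ∈ R, {x | ∃ a ∈ w, a.1 = x}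
  have hL : L.Finite := hR.biUnion fun w _ => by
    refine ((List.finite_toSet w).image Prod.fst).subset ?_
    rintro _ ⟨a, ha, rfl⟩; exact ⟨a, ha, rfl⟩
  have hπ : ∀ x : ℕ, ∃ π : Equiv.Perm ℕ, {b | π b ≠ b}.Finite ∧ (x ∉ L → π = 1) ∧
      (x ∈ L → ∀ c ∈ Q, π (enc c) = enc ((of x)⁻¹ • c)) := fun x => by
    by_cases hx : x ∈ L
    · obtain ⟨π, h1, h2⟩ := exists_perm Q hQ enc (fun c => enc ((of x)⁻¹ • c)) henc
        (henc.comp (MulAction.injective _))
      exact ⟨π, h1, fun h => absurd hx h, fun _ => h2⟩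
    · exact ⟨1, by simp, fun _ => rfl, fun h => absurd h hx⟩
  choose π hπ1 hπ2 hπ3 using hπ
  have ht : ∀ c : C, ∃ g, cls g = c ∧ (c = cls 1 → g = 1) := fun c => by
    by_cases hc : c = cls 1
    · exact ⟨1, hc.symm, fun _ => rfl⟩
    · obtain ⟨g, rfl⟩ := QuotientGroup.mk_surjective c
      exact ⟨g⁻¹, by simp [cls], fun h => absurd h hc⟩
  choose t0 ht1 ht2 using ht
  let t : ℕ → FreeGroup ℕ := fun q => t0 (Function.invFun enc q)
  have htenc : ∀ c, t (enc c) = t0 c := fun c => by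
    simp only [t]; rw [Function.leftInverse_invFun henc]
  let γ : ℕ → ℕ → W := fun q x =>
    if q ∈ enc '' Q ∧ x ∈ L then r (t q * of x * (t (π x q))⁻¹) else []
  let F : Au := fun q a => cond a.2 (π a.1 q, γ q a.1) ((π a.1)⁻¹ q, invRev (γ ((π a.1)⁻¹ q) a.1))
  refine ⟨F, enc (cls 1), ?_, ?_, ?_⟩
  · rintro q ⟨x, b⟩
    cases b <;> simp [InvAt, F, li, ← mul_mk, ← inv_mk]
  · let S : Set ℕ := enc '' Q ∪ ⋃ x ∈ L, {b | π x b ≠ b}
    have hS : S.Finite := (hQ.image _).union (hL.biUnion fun x _ => hπ1 x)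
    refine (hS.prod (hL.prod (Set.finite_univ (α := Bool)))).subset ?_
    rintro ⟨q, x, b⟩ hk
    by_contra H'
    apply hk
    have e : π x q = q ∧ γ q x = [] := by
      by_cases hx : x ∈ L
      · have hq : q ∉ S := fun hq => H' ⟨hq, hx, trivial⟩
        simp only [S, Set.mem_union, Set.mem_iUnion, not_or, not_exists] at hq
        exact ⟨by simpa using hq.2 x hx, if_neg fun h => hq.1 h.1⟩
      · exact ⟨by rw [hπ2 x hx]; rfl, if_neg fun h => hx h.2⟩
    have e' : (π x)⁻¹ q = q := by rw [Equiv.Perm.inv_eq_iff_eq, e.1]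
    cases b
    · simp only [F, cond_false, e', e.2]; rfl
    · simp [F, e]
  · intro P hP1 hP w hw
    have key : ∀ u v, w = u ++ v → (rg F (enc (cls 1), 1) u).1 = enc (cls (mk u)) ∧
        P (rg F (enc (cls 1), 1) u).2 (mk u * (t0 (cls (mk u)))⁻¹) := by
      intro u
      induction u using List.reverseRecOn with
      | nil =>
        intros
        refine ⟨rfl, ?_⟩
        rw [← one_eq_mk, ht2 _ rfl]; simpa [rg] using hP1
      | append_singleton u a ih =>
        intro v e
        obtain ⟨h1, h2⟩ := ih (a :: v) (by simp [e])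
        have m1 : cls (mk u) ∈ Q :=
          ⟨_, Set.mem_biUnion hw (mem_T.2 ⟨u, a :: v, by simp [e], rfl⟩), rfl⟩
        have m2 : cls (mk (u ++ [a])) ∈ Q := ⟨_, Set.mem_biUnion hw (mem_T.2 ⟨_, v, e, rfl⟩), rfl⟩
        have hx : a.1 ∈ L := Set.mem_biUnion hw ⟨a, by simp [e], rfl⟩
        rw [rg_append]
        generalize rg F (enc (cls 1), 1) u = s at h1 h2
        obtain ⟨q, c⟩ := s
        simp only at h1 h2
        subst h1
        obtain ⟨x, b⟩ := a
        cases b
        · have e1 : mk (u ++ [(x, false)]) * of x = mk u := by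
            rw [← mul_mk]
            change _ * mk [li (x, false)] = _
            rw [mk_li, mul_inv_cancel_right]
          have e2 : π x (enc (cls (mk (u ++ [(x, false)])))) = enc (cls (mk u)) := by
            rw [hπ3 x hx _ m2, ← hact, e1]
          have e3 : (π x)⁻¹ (enc (cls (mk u))) = enc (cls (mk (u ++ [(x, false)]))) := by
            rw [← e2]; simp
          simp only [rg, List.foldl_cons, List.foldl_nil, F, cond_false, e3, true_and, γ]
          rw [if_pos ⟨⟨_, m2, rfl⟩, hx⟩, e2, htenc, htenc, ← inv_mk]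
          have := (hP _ _ (t0 (cls (mk (u ++ [(x, false)]))) * of x * (t0 (cls (mk u)))⁻¹) h2 (by
            rw [← hcls, hact, ht1, ht1, ← hact, e1])).2
          convert this using 1
          rw [← e1]; group
        · have e1 : mk (u ++ [(x, true)]) = mk u * of x := by rw [← mul_mk]; rfl
          have e2 : π x (enc (cls (mk u))) = enc (cls (mk (u ++ [(x, true)]))) := by
            rw [hπ3 x hx _ m1, ← hact, e1]
          simp only [rg, List.foldl_cons, List.foldl_nil, F, cond_true, e2, true_and, γ]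
          rw [if_pos ⟨⟨_, m1, rfl⟩, hx⟩, htenc, htenc]
          have := (hP _ _ (t0 (cls (mk u)) * of x * (t0 (cls (mk (u ++ [(x, true)]))))⁻¹) h2 (by
            rw [← hcls, hact, ht1, ht1, ← hact, e1])).1
          convert this using 1
          rw [e1]; group
    obtain ⟨h1, h2⟩ := key w [] (by simp)
    have h3 : cls (mk w) = cls 1 ↔ mk w ∈ H := by rw [hcls]; simp
    refine ⟨by rw [h1, henc.eq_iff, h3], fun h => ?_⟩
    rwa [ht2 _ (h3.2 h), inv_one, mul_one] at h2

theorem chk_of_crit {B : List W} (hc : Crit B) :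
    ∃ (F : Au) (q0 : ℕ), (∀ q a, InvAt F q a) ∧ {k : ℕ × ℕ × Bool | F k.1 k.2 ≠ (k.1, [])}.Finite ∧
      AChk B q0 F := by
  classical
  let H : Subgroup (FreeGroup ℕ) :=
    { carrier := {g | ∃ u, Ok B.length u ∧ vl (sg B) (mk u) = g}
      one_mem' := ⟨[], Ok.nil _, by rw [← one_eq_mk, _root_.map_one]⟩
      mul_mem' := by
        rintro _ _ ⟨u, hu, rfl⟩ ⟨v, hv, rfl⟩
        exact ⟨u ++ v, hu.append hv, by rw [← mul_mk, _root_.map_mul]⟩
      inv_mem' := by
        rintro _ ⟨u, hu, rfl⟩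
        exact ⟨invRev u, hu.invRev, by rw [← inv_mk, _root_.map_inv]⟩ }
  have hr : ∀ g, ∃ u, g ∈ H → Ok B.length u ∧ vl (sg B) (mk u) = g := fun g => by
    by_cases hg : g ∈ H
    · obtain ⟨u, hu⟩ := hg; exact ⟨u, fun _ => hu⟩
    · exact ⟨[], fun h => absurd h hg⟩
  choose r hr using hr
  let R : Set W := (sg B '' {z | z < B.length}) ∪
    ⋃ y ∈ ({z | z < B.length} ×ˢ (Set.univ : Set Bool)), ⋃ i ∈ {i | i ≤ (sl (sg B) y).length},
      ⋃ z ∈ {z | z < B.length}, ⋃ j ∈ {j | j ≤ (sg B z).length},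
        {(sl (sg B) y).take i ++ invRev ((sg B z).take j)}
  have hR : R.Finite := ((Set.finite_lt_nat _).image _).union
    (((Set.finite_lt_nat _).prod Set.finite_univ).biUnion fun y _ =>
      (Set.finite_le_nat _).biUnion fun i _ => (Set.finite_lt_nat _).biUnion fun z _ =>
        (Set.finite_le_nat _).biUnion fun j _ => Set.finite_singleton _)
  obtain ⟨F, q0, h1, h2, h3⟩ := exists_aut H r R hR
  have h4 := h3 (fun c g => ∃ u, Ok B.length u ∧ c = mk u ∧ vl (sg B) c = g)
    ⟨[], Ok.nil _, rfl, _root_.map_one _⟩ (by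
      rintro _ _ h ⟨u, hu, rfl, rfl⟩ hh
      obtain ⟨h5, h6⟩ := hr h hh
      exact ⟨⟨u ++ r h, hu.append h5, mul_mk, by rw [_root_.map_mul, h6]⟩,
        ⟨u ++ invRev (r h), hu.append h5.invRev, by rw [inv_mk, mul_mk],
          by rw [_root_.map_mul, _root_.map_inv, h6]⟩⟩)
  refine ⟨F, q0, h1, h2, fun z hz => ?_, fun y hy => ?_⟩
  · have e : vl (sg B) (mk [(z, true)]) = mk (sg B z) := by rw [← mk_sl]; rfl
    have hm : mk (sg B z) ∈ H := ⟨[(z, true)], Ok.single hz, e⟩
    obtain ⟨h5, h6⟩ := h4 (sg B z) (Or.inl ⟨z, hz, rfl⟩)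
    obtain ⟨u, hu, h7, h8⟩ := h6 hm
    refine Prod.ext (h5.2 hm) ?_
    rw [h7] at h8 ⊢
    exact hc.inj hu (Ok.single hz) (h8.trans e.symm)
  · obtain ⟨v, hv, H'⟩ := hc.2 y hy
    obtain ⟨i, hi, rfl⟩ := mem_T_le.1 hv
    refine ⟨i, hi, fun z hz j hj e => ?_⟩
    obtain ⟨h5, h6⟩ := h4 ((sl (sg B) y).take i ++ invRev ((sg B z).take j)) (Or.inr (by
      simp only [Set.mem_iUnion]
      exact ⟨y, ⟨hy, trivial⟩, i, hi, z, hz, j, hj, rfl⟩))
    obtain ⟨u, hu, h7, h8⟩ := h6 (h5.1 e)
    rw [h7] at h8 ⊢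
    refine H' u z hu hz ⟨_, ⟨j, rfl⟩, ?_⟩
    simp only [smul_eq_mul]
    rw [h8, ← mul_mk, ← inv_mk, inv_mul_cancel_right]

/-- certificate for non-membership -/
def NChk (A : List W) (a : W) (L : List W) : Prop :=
  (∀ b ∈ A ++ A.map invRev, T b ⊆ T a → ∃ l ∈ L, M l = M b) ∧
  (∀ l ∈ L, ∀ b ∈ A ++ A.map invRev, T (l ++ b) ⊆ T a → ∃ l' ∈ L, M l' = M (l ++ b)) ∧
  ∀ l ∈ L, M l ≠ M a

theorem notMem_Cl {A : List W} {a : W} : M a ∉ Cl A ↔ ∃ L, NChk A a L := by
  have hsl : ∀ y : ℕ × Bool, y.1 < A.length → sl (sg A) y ∈ A ++ A.map invRev := by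
    rintro ⟨z, b⟩ hz
    cases b
    · exact List.mem_append_right _ (List.mem_map_of_mem (sg_mem hz))
    · exact List.mem_append_left _ (sg_mem hz)
  constructor
  · intro h
    let S : Set (Pr ℕ) := {p | p ∈ Cl A ∧ p.1 ⊆ T a ∧ p.2 ∈ T a}
    have hS : S.Finite := ((T_finite a).finite_subsets.prod (T_finite a)).subset fun p hp => hp.2
    have hw : ∀ p, ∃ l, p ∈ Cl A → M l = p := fun p => by
      by_cases hp : p ∈ Cl A
      · obtain ⟨w, -, -, rfl⟩ := mem_Cl.1 hp; exact ⟨_, fun _ => rfl⟩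
      · exact ⟨[], fun h => absurd h hp⟩
    choose f hf using hw
    have hb : ∀ b ∈ A ++ A.map invRev, M b ∈ Cl A := fun b hb => by
      rcases List.mem_append.1 hb with hb | hb
      · exact Cl.gen hb
      · obtain ⟨c, hc, rfl⟩ := List.mem_map.1 hb
        rw [M_invRev]; exact Cl.inv (Cl.gen hc)
    have hin : ∀ w, M w ∈ Cl A → T w ⊆ T a → ∃ l ∈ hS.toFinset.toList.map f, M l = M w :=
      fun w h1 h2 => ⟨f (M w), List.mem_map_of_mem (by
        simp only [Finset.mem_toList, Set.Finite.mem_toFinset]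
        exact ⟨h1, h2, h2 (mk_mem_T w)⟩), hf _ h1⟩
    have hL : ∀ l ∈ hS.toFinset.toList.map f, M l ∈ Cl A := fun l hl => by
      obtain ⟨p, hp, rfl⟩ := List.mem_map.1 hl
      simp only [Finset.mem_toList, Set.Finite.mem_toFinset] at hp
      rw [hf _ hp.1]; exact hp.1
    refine ⟨hS.toFinset.toList.map f, fun b h1 h2 => hin b (hb b h1) h2,
      fun l hl b h1 h2 => hin _ ?_ h2, fun l hl e => h (e ▸ hL l hl)⟩
    rw [M_append]; exact Cl.mul (hL l hl) (hb b h1)
  · rintro ⟨L, h1, h2, h3⟩ h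
    obtain ⟨w, hw, hw', e⟩ := mem_Cl.1 h
    have key : ∀ w : W, w ≠ [] → Ok A.length w → T (sub (sg A) w) ⊆ T a →
        ∃ l ∈ L, M l = M (sub (sg A) w) := by
      intro w
      induction w using List.reverseRecOn with
      | nil => intro h; exact absurd rfl h
      | append_singleton w y ih =>
        intro _ hw hT
        have hy := hsl y (hw y (by simp))
        rcases eq_or_ne w [] with rfl | hne
        · simpa using h1 _ hy (by simpa using hT)
        · rw [sub_append] at hT ⊢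
          obtain ⟨l, hl, e⟩ := ih hne hw.left (by
            rw [T_append] at hT; exact Set.subset_union_left.trans hT)
          have e2 : M (l ++ sl (sg A) y) = M (sub (sg A) w ++ sub (sg A) [y]) := by
            rw [M_append, M_append, e]; simp
          rw [← e2]
          exact h2 l hl _ hy (by rw [show T _ = T _ from congrArg Prod.fst e2]; exact hT)
    obtain ⟨l, hl, e'⟩ := key w hw hw' (show T _ = T _ from congrArg Prod.fst e).ge
    exact h3 l hl (e'.trans e.symm)

end Pool.Agent.H73.FInv
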