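import Pool.Agent.H73.FInv3
import Pool.Agent.H37.RE

/-!
Decidability of freeness of finitely generated inverse subsemigroups of free inverse semigroups.
-/

set_option autoImplicit false

namespace Pool.Agent.H73.FInv

open FreeGroup Pointwise Pool.Agent.H37

variable {α : Type} [Primcodable α]

@[fun_prop] theorem ci_invRev {f : α → W} (hf : CI ∅ f) : CI ∅ fun a => invRev (f a) := by
  unfold invRev; fun_prop

theorem ci_red0 : CI ∅ (reduce : W → W) := by
  refine CI.of_eq (f := fun w : W => w.foldr (fun x l => l.head?.elim [x] fun y =>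
    cond (decide (x.1 = y.1) && decide (x.2 = !y.2)) l.tail (x :: l)) []) (by fun_prop) fun w => ?_
  induction w with
  | nil => rfl
  | cons x w ih =>
    rw [List.foldr_cons, ih, reduce.cons]
    cases reduce w with
    | nil => rfl
    | cons y l => by_cases h1 : x.1 = y.1 <;> by_cases h2 : x.2 = !y.2 <;> simp [h1, h2]

@[fun_prop] theorem ci_red {f : α → W} (hf : CI ∅ f) : CI ∅ fun a => reduce (f a) :=
  ci_red0.comp hf

def geq (u v : W) : Bool := decide (reduce u = reduce v)

theorem geq_iff {u v : W} : geq u v = true ↔ mk u = mk v := by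
  simp only [geq, decide_eq_true_eq]
  exact ⟨reduce.exact, reduce.sound⟩

@[fun_prop] theorem ci_geq {f g : α → W} (hf : CI ∅ f) (hg : CI ∅ g) :
    CI ∅ fun a => geq (f a) (g a) := by unfold geq; fun_prop

def tle (u v : W) : Bool :=
  (List.range (u.length + 1)).all fun i => (List.range (v.length + 1)).any fun j =>
    geq (u.take i) (v.take j)

theorem tle_iff {u v : W} : tle u v = true ↔ T u ⊆ T v := by
  simp only [tle, List.all_eq_true, List.any_eq_true, List.mem_range, Nat.lt_succ_iff, geq_iff]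
  constructor
  · intro h x hx
    obtain ⟨i, hi, rfl⟩ := mem_T_le.1 hx
    obtain ⟨j, -, e⟩ := h i hi
    exact ⟨j, e.symm⟩
  · intro h i _
    exact mem_T_le.1 (h ⟨i, rfl⟩)

@[fun_prop] theorem ci_tle {f g : α → W} (hf : CI ∅ f) (hg : CI ∅ g) :
    CI ∅ fun a => tle (f a) (g a) := by unfold tle; fun_prop

def meq (u v : W) : Bool := tle u v && tle v u && geq u v

theorem meq_iff {u v : W} : meq u v = true ↔ M u = M v := by
  simp only [meq, Bool.and_eq_true, tle_iff, geq_iff, M, Prod.mk.injEq, Set.Subset.antisymm_iff]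

@[fun_prop] theorem ci_meq {f g : α → W} (hf : CI ∅ f) (hg : CI ∅ g) :
    CI ∅ fun a => meq (f a) (g a) := by unfold meq; fun_prop

def okb (n : ℕ) (w : W) : Bool := w.all fun a => decide (a.1 < n)

theorem okb_iff {n : ℕ} {w : W} : okb n w = true ↔ Ok n w := by simp [okb, Ok]

@[fun_prop] theorem ci_okb {f : α → ℕ} {g : α → W} (hf : CI ∅ f) (hg : CI ∅ g) :
    CI ∅ fun a => okb (f a) (g a) := by unfold okb; fun_prop

@[fun_prop] theorem ci_sg {f : α → List W} {g : α → ℕ} (hf : CI ∅ f) (hg : CI ∅ g) :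
    CI ∅ fun a => sg (f a) (g a) := by unfold sg; fun_prop

@[fun_prop] theorem ci_sl {f : α → List W} {g : α → ℕ × Bool} (hf : CI ∅ f) (hg : CI ∅ g) :
    CI ∅ fun a => sl (sg (f a)) (g a) := by unfold sl; fun_prop

@[fun_prop] theorem ci_sub {f : α → List W} {g : α → W} (hf : CI ∅ f) (hg : CI ∅ g) :
    CI ∅ fun a => sub (sg (f a)) (g a) := by
  unfold sub
  exact CI.flatMap (ci_sl (by fun_prop) (by fun_prop)) hg

theorem re_mem : REPred fun q : List W × W => M q.2 ∈ Cl q.1 := by
  refine re_of_exists (fun q (w : W) => !w.isEmpty && okb q.1.length w && meq q.2 (sub (sg q.1) w))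
    ?_ fun q => ?_
  · exact CI.and (by fun_prop) (ci_meq (by fun_prop) (ci_sub (by fun_prop) (by fun_prop)))
  · simp [mem_Cl, okb_iff, meq_iff, and_assoc]

theorem re_eqCl : REPred fun q : List W × List W => Cl q.2 = Cl q.1 := by
  have h1 : REPred fun q : List W × List W => ∀ b ∈ q.2, M b ∈ Cl q.1 :=
    re_forall_mem (p := fun (q : List W × List W) b => M b ∈ Cl q.1)
      (REPred.comp' re_mem (g := fun r : (List W × List W) × W => (r.1.1, r.2)) (by fun_prop))
      (by fun_prop)
  have h2 : REPred fun q : List W × List W => ∀ b ∈ q.1, M b ∈ Cl q.2 :=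
    REPred.comp' h1 (g := fun q : List W × List W => (q.2, q.1)) (by fun_prop)
  refine (re_and h1 h2).of_eq fun q => ⟨fun h => (Cl.le h.1).antisymm (Cl.le h.2), fun h => ?_⟩
  exact ⟨fun b hb => h ▸ Cl.gen hb, fun b hb => h ▸ Cl.gen hb⟩

def nchk (A : List W) (a : W) (L : List W) : Bool :=
  ((A ++ A.map invRev).all fun b => !tle b a || L.any fun l => meq l b) &&
  (L.all fun l => (A ++ A.map invRev).all fun b =>
    !tle (l ++ b) a || L.any fun l' => meq l' (l ++ b)) &&
  L.all fun l => !meq l a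

theorem nchk_iff {A : List W} {a : W} {L : List W} : nchk A a L = true ↔ NChk A a L := by
  simp only [nchk, NChk, Bool.and_eq_true, List.all_eq_true, Bool.or_eq_true, Bool.not_eq_true',
    List.any_eq_true, meq_iff, ← tle_iff, ← Bool.not_eq_true, and_assoc, ← imp_iff_not_or]

theorem re_notMem : REPred fun q : List W × W => M q.2 ∉ Cl q.1 := by
  refine re_of_exists (fun q (L : List W) => nchk q.1 q.2 L) ?_ fun q => ?_
  · unfold nchk; fun_prop
  · simp only [notMem_Cl, nchk_iff]

theorem re_irr : REPred Irr := by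
  refine (re_forall_mem (p := fun (B : List W) i => M (sg B i) ∉ Cl (B.take i ++ B.drop (i + 1)))
    (l := fun B => List.range B.length)
    (REPred.comp' re_notMem
      (g := fun r : List W × ℕ => (r.1.take r.2 ++ r.1.drop (r.2 + 1), sg r.1 r.2)) (by fun_prop))
    (by fun_prop)).of_eq fun B => ?_
  simp only [Irr, List.mem_range, List.eraseIdx_eq_take_drop_succ]

theorem re_notFree : REPred fun B => ¬ Free B := by
  refine re_of_exists (fun B (p : W × W) => !p.1.isEmpty && !p.2.isEmpty && okb B.length p.1 &&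
    okb B.length p.2 && meq (sub (sg B) p.1) (sub (sg B) p.2) && !meq p.1 p.2) ?_ fun B => ?_
  · exact CI.and (CI.and (by fun_prop) (ci_meq (ci_sub (by fun_prop) (by fun_prop))
      (ci_sub (by fun_prop) (by fun_prop)))) (by fun_prop)
  · simp only [Free, Bool.and_eq_true, Bool.not_eq_true', List.isEmpty_iff, ne_eq, okb_iff,
      meq_iff, ← Bool.not_eq_true, Prod.exists, not_forall, exists_prop, and_assoc]

abbrev Tb := List ((ℕ × ℕ × Bool) × ℕ × W)

def stp (E : Tb) : Au := fun q a =>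
  ((E.find? fun e => decide (e.1 = (q, a))).map fun e => e.2).getD (q, [])

@[fun_prop] theorem ci_stp {f : α → Tb} {g : α → ℕ} {h : α → ℕ × Bool} (hf : CI ∅ f) (hg : CI ∅ g)
    (hh : CI ∅ h) : CI ∅ fun a => stp (f a) (g a) (h a) := by unfold stp; fun_prop

theorem exists_tb {F : Au} (h : {k : ℕ × ℕ × Bool | F k.1 k.2 ≠ (k.1, [])}.Finite) :
    ∃ E, stp E = F := by
  refine ⟨h.toFinset.toList.map fun k => (k, F k.1 k.2), ?_⟩
  funext q a
  unfold stp
  cases e : (h.toFinset.toList.map fun k => (k, F k.1 k.2)).find? fun e => decide (e.1 = (q, a)) with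
  | none =>
    simp only [List.find?_eq_none, List.mem_map, Finset.mem_toList, Set.Finite.mem_toFinset,
      decide_eq_true_eq] at e
    by_contra H
    exact e ((q, a), F q a) ⟨(q, a), fun h => H h.symm, rfl⟩ rfl
  | some x =>
    have h1 := List.find?_some e
    obtain ⟨k, -, rfl⟩ := List.mem_map.1 (List.mem_of_find?_eq_some e)
    simp only [decide_eq_true_eq] at h1
    subst h1; rfl

theorem stp_of_notMem {E : Tb} {q : ℕ} {a : ℕ × Bool} (h : ∀ e ∈ E, e.1 ≠ (q, a)) :
    stp E q a = (q, []) := by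
  unfold stp
  rw [List.find?_eq_none.2 (by simpa using h)]; rfl

def invb (E : Tb) (q : ℕ) (a : ℕ × Bool) : Bool :=
  decide ((stp E (stp E q a).1 (a.1, !a.2)).1 = q) &&
    geq ((stp E q a).2 ++ (stp E (stp E q a).1 (a.1, !a.2)).2) []

theorem invb_iff {E : Tb} {q : ℕ} {a : ℕ × Bool} : invb E q a = true ↔ InvAt (stp E) q a := by
  simp only [invb, InvAt, li, Bool.and_eq_true, decide_eq_true_eq, geq_iff, one_eq_mk]

@[fun_prop] theorem ci_invb {f : α → Tb} {g : α → ℕ} {h : α → ℕ × Bool} (hf : CI ∅ f) (hg : CI ∅ g)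
    (hh : CI ∅ h) : CI ∅ fun a => invb (f a) (g a) (h a) := by unfold invb; fun_prop

def inva (E : Tb) : Bool := E.all fun e => invb E e.1.1 e.1.2 && invb E e.1.1 (e.1.2.1, !e.1.2.2)

theorem inva_iff {E : Tb} : inva E = true ↔ ∀ q a, InvAt (stp E) q a := by
  simp only [inva, List.all_eq_true, Bool.and_eq_true, invb_iff]
  refine ⟨fun h q a => ?_, fun h e _ => ⟨h _ _, h _ _⟩⟩
  by_cases h1 : ∃ e ∈ E, e.1 = (q, a)
  · obtain ⟨e, he, h2⟩ := h1
    simpa [h2] using (h e he).1
  by_cases h2 : ∃ e ∈ E, e.1 = (q, li a)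
  · obtain ⟨e, he, h2⟩ := h2
    simpa [h2, li] using (h e he).2
  push Not at h1 h2
  simp only [InvAt, stp_of_notMem h1, stp_of_notMem h2, true_and]; rfl

def run (E : Tb) (q : ℕ) (w : W) : ℕ × W :=
  w.foldl (fun s a => ((stp E s.1 a).1, s.2 ++ (stp E s.1 a).2)) (q, [])

@[fun_prop] theorem ci_run {f : α → Tb} {g : α → ℕ} {h : α → W} (hf : CI ∅ f) (hg : CI ∅ g)
    (hh : CI ∅ h) : CI ∅ fun a => run (f a) (g a) (h a) := by unfold run; fun_prop

theorem rg_run (E : Tb) (q : ℕ) (w : W) :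
    rg (stp E) (q, 1) w = ((run E q w).1, mk (run E q w).2) := by
  induction w using List.reverseRecOn with
  | nil => rfl
  | append_singleton w a ih =>
    rw [rg_append, ih]
    simp [rg, run]

def swb (w : W) (y : ℕ × Bool) : Bool := decide ((reduce w)[0]? = some y)

theorem swb_iff {w : W} {y : ℕ × Bool} : swb w y = true ↔ mk w ∈ startsWith y := by
  simp [swb, startsWith]

@[fun_prop] theorem ci_swb {f : α → W} {g : α → ℕ × Bool} (hf : CI ∅ f) (hg : CI ∅ g) :
    CI ∅ fun a => swb (f a) (g a) := by unfold swb; fun_prop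

def cell (E : Tb) (q0 : ℕ) (u : W) (y : ℕ × Bool) (z : ℕ) : Bool :=
  !decide ((run E q0 u).1 = q0) || (swb (run E q0 u).2 y || swb ((run E q0 u).2 ++ [(z, true)]) y)

@[fun_prop] theorem ci_cell {f : α → Tb} {g : α → ℕ} {h : α → W} {k : α → ℕ × Bool} {l : α → ℕ}
    (hf : CI ∅ f) (hg : CI ∅ g) (hh : CI ∅ h) (hk : CI ∅ k) (hl : CI ∅ l) :
    CI ∅ fun a => cell (f a) (g a) (h a) (k a) (l a) := by unfold cell; fun_prop

def row (B : List W) (E : Tb) (q0 : ℕ) (s : W) (y : ℕ × Bool) : Bool :=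
  (List.range (s.length + 1)).any fun i => (List.range B.length).all fun z =>
    (List.range ((sg B z).length + 1)).all fun j =>
      cell E q0 (s.take i ++ invRev ((sg B z).take j)) y z

@[fun_prop] theorem ci_row {b : α → List W} {f : α → Tb} {g : α → ℕ} {h : α → W} {k : α → ℕ × Bool}
    (hb : CI ∅ b) (hf : CI ∅ f) (hg : CI ∅ g) (hh : CI ∅ h) (hk : CI ∅ k) :
    CI ∅ fun a => row (b a) (f a) (g a) (h a) (k a) := by unfold row; fun_prop

def achk (B : List W) (q0 : ℕ) (E : Tb) : Bool :=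
  ((List.range B.length).all fun z =>
    decide ((run E q0 (sg B z)).1 = q0) && geq (run E q0 (sg B z)).2 [(z, true)]) &&
  (List.range B.length).all fun z =>
    row B E q0 (sg B z) (z, true) && row B E q0 (invRev (sg B z)) (z, false)

theorem achk_iff {B : List W} {q0 : ℕ} {E : Tb} : achk B q0 E = true ↔ AChk B q0 (stp E) := by
  simp only [achk, AChk, row, cell, rg_run, Bool.and_eq_true, List.all_eq_true, List.any_eq_true,
    List.mem_range, Nat.lt_succ_iff, decide_eq_true_eq, geq_iff, Prod.mk.injEq, Bool.or_eq_true,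
    Bool.not_eq_true', decide_eq_false_iff_not, swb_iff, mul_mk, ← imp_iff_not_or, Prod.forall,
    Bool.forall_bool, sl, cond_true, cond_false]
  exact and_congr Iff.rfl (forall_congr' fun z => by tauto)

theorem re_free : REPred Free := by
  refine re_of_exists (fun B (p : ℕ × Tb) => inva p.2 && achk B p.1 p.2) ?_ fun B => ?_
  · unfold inva achk; fun_prop
  · simp only [Bool.and_eq_true, inva_iff, achk_iff, Prod.exists]
    constructor
    · intro h
      obtain ⟨F, q0, h1, h2, h3⟩ := chk_of_crit h.crit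
      obtain ⟨E, rfl⟩ := exists_tb h2
      exact ⟨q0, E, h1, h3⟩
    · rintro ⟨q0, E, h1, h2⟩
      exact (crit_of_chk h1 h2).free

theorem re_isFr : REPred IsFr := by
  refine (re_exists (p := fun (A B : List W) => Cl B = Cl A ∧ Free B)
    (re_and re_eqCl (REPred.comp' re_free (g := fun q : List W × List W => q.2)
      (by fun_prop)))).of_eq fun A => ⟨fun ⟨B, h1, h2⟩ => isFr_of_free h1 h2, fun h => ?_⟩
  obtain ⟨B, h1, h2⟩ := exists_irr A
  exact ⟨B, h1, free_of_isFr h1 h2 h⟩

theorem re_not_isFr : REPred fun A => ¬ IsFr A := by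
  refine (re_exists (p := fun (A B : List W) => Cl B = Cl A ∧ Irr B ∧ ¬ Free B)
    (re_and re_eqCl (REPred.comp' (re_and re_irr re_notFree) (g := fun q : List W × List W => q.2)
      (by fun_prop)))).of_eq fun A =>
        ⟨fun ⟨B, h1, h2, h3⟩ h => h3 (free_of_isFr h1 h2 h), fun h => ?_⟩
  obtain ⟨B, h1, h2⟩ := exists_irr A
  exact ⟨B, h1, h2, fun h3 => h (isFr_of_free h1 h3)⟩

theorem computable_isFr : ComputablePred fun A : List W => (∀ w ∈ A, w ≠ []) ∧ IsFr A := by
  obtain ⟨f, hf, h⟩ := bool_of_re_re re_isFr re_not_isFr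
  refine computablePred_of (fun A => (A.all fun w => !w.isEmpty) && f A) (by fun_prop) fun A => ?_
  simp [h]

theorem main :
    ComputablePred (fun gens : List (List (ℕ × Bool)) =>
      (∀ w ∈ gens, w ≠ []) ∧
      ∃ (Z : Type) (φ : Set (FreeGroup Z) × FreeGroup Z → Set (FreeGroup ℕ) × FreeGroup ℕ),
        Set.InjOn φ
          {p | ∃ w : List (Z × Bool), w ≠ [] ∧
            p = (Set.range (fun i : ℕ => FreeGroup.mk (w.take i)), FreeGroup.mk w)} ∧
        φ '' {p | ∃ w : List (Z × Bool), w ≠ [] ∧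
            p = (Set.range (fun i : ℕ => FreeGroup.mk (w.take i)), FreeGroup.mk w)} =
          {q | ∀ T : Set (Set (FreeGroup ℕ) × FreeGroup ℕ),
            (∀ w ∈ gens, (Set.range (fun i : ℕ => FreeGroup.mk (w.take i)), FreeGroup.mk w) ∈ T) →
            (∀ x ∈ T, ∀ y ∈ T, (x.1 ∪ x.2 • y.1, x.2 * y.2) ∈ T) →
            (∀ x ∈ T, (x.2⁻¹ • x.1, x.2⁻¹) ∈ T) → q ∈ T} ∧
        ∀ x ∈ {p : Set (FreeGroup Z) × FreeGroup Z | ∃ w : List (Z × Bool), w ≠ [] ∧
            p = (Set.range (fun i : ℕ => FreeGroup.mk (w.take i)), FreeGroup.mk w)},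
        ∀ y ∈ {p : Set (FreeGroup Z) × FreeGroup Z | ∃ w : List (Z × Bool), w ≠ [] ∧
            p = (Set.range (fun i : ℕ => FreeGroup.mk (w.take i)), FreeGroup.mk w)},
          φ (x.1 ∪ x.2 • y.1, x.2 * y.2) =
            ((φ x).1 ∪ (φ x).2 • (φ y).1, (φ x).2 * (φ y).2)) := computable_isFr

end Pool.Agent.H73.FInv
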