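import Mathlib

namespace Pool.Agent.H73.Fig

abbrev W := ℤ → ZMod 3

def sh (n : ℤ) : Equiv.Perm W where
  toFun x j := x (j - n)
  invFun x j := x (j + n)
  left_inv x := by funext j; simp
  right_inv x := by funext j; simp

theorem sh_apply (n : ℤ) (x : W) (j : ℤ) : sh n x j = x (j - n) := rfl

theorem sh_mul (m n : ℤ) : sh m * sh n = sh (m + n) := by
  ext x j
  simp only [Equiv.Perm.mul_apply, sh_apply]
  congr 1; ring

theorem sh_zero : sh 0 = 1 := by
  ext x j; simp [sh_apply]

theorem sh_inv (n : ℤ) : (sh n)⁻¹ = sh (-n) := by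
  rw [inv_eq_iff_mul_eq_one, sh_mul]; simp [sh_zero]

theorem sh_zpow (n : ℤ) : (sh 1) ^ n = sh n := by
  induction n using Int.induction_on with
  | zero => simp [sh_zero]
  | succ n ih => rw [zpow_add_one, ih, sh_mul]
  | pred n ih => rw [zpow_sub_one, ih, sh_inv, sh_mul]; rfl

def act (b c : ZMod 2) (y : ZMod 3) : ZMod 3 :=
  if b = 1 then 2 - y else if c = 1 then -y else y

theorem act_act (b c : ZMod 2) (y : ZMod 3) : act b c (act b c y) = y := by
  revert b c y; decide

theorem act_left (b c : ZMod 2) (y : ZMod 3) : act b 0 (act c 0 y) = act (b + c) 0 y := by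
  revert b c y; decide

theorem act_right (b c : ZMod 2) (y : ZMod 3) : act 0 b (act 0 c y) = act 0 (b + c) y := by
  revert b c y; decide

def dl (j : ℤ) : ZMod 2 := if j = 0 then 1 else 0

def rf (L N : ℤ) : Equiv.Perm W where
  toFun x j := act (dl j + dl (j - L)) (dl (j - N)) (x j)
  invFun x j := act (dl j + dl (j - L)) (dl (j - N)) (x j)
  left_inv x := by funext j; simp [act_act]
  right_inv x := by funext j; simp [act_act]

theorem rf_apply (L N : ℤ) (x : W) (j : ℤ) :
    rf L N x j = act (dl j + dl (j - L)) (dl (j - N)) (x j) := rfl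

theorem rf_inv (L N : ℤ) : (rf L N)⁻¹ = rf L N := rfl

def phi (L N : ℤ) : FreeGroup Bool →* Equiv.Perm W :=
  FreeGroup.lift (fun b => if b then sh 1 else rf L N)

theorem phi_t (L N : ℤ) : phi L N (FreeGroup.of true) = sh 1 := by simp [phi]
theorem phi_a (L N : ℤ) : phi L N (FreeGroup.of false) = rf L N := by simp [phi]

/-! ### solvability -/

def A2 : Subgroup (Equiv.Perm W) where
  carrier := {g | ∃ (k : ℤ) (p : ℤ → Equiv.Perm (ZMod 3)), ∀ x j, g x j = p j (x (j - k))}
  one_mem' := ⟨0, fun _ => 1, fun x j => by simp⟩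
  mul_mem' := by
    rintro g h ⟨k, p, hp⟩ ⟨m, q, hq⟩
    refine ⟨k + m, fun j => p j * q (j - k), fun x j => ?_⟩
    simp only [Equiv.Perm.mul_apply, hp, hq]
    congr 3; ring
  inv_mem' := by
    rintro g ⟨k, p, hp⟩
    refine ⟨-k, fun j => (p (j + k))⁻¹, fun x j => ?_⟩
    have := hp (g⁻¹ x) (j + k)
    simp only [Equiv.Perm.coe_inv, Equiv.apply_symm_apply, add_sub_cancel_right] at this
    simp only [sub_neg_eq_add, Equiv.Perm.coe_inv, this, Equiv.symm_apply_apply]

def A1 (K : Subgroup (Equiv.Perm (ZMod 3))) : Subgroup (Equiv.Perm W) where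
  carrier := {g | ∃ (p : ℤ → Equiv.Perm (ZMod 3)), (∀ j, p j ∈ K) ∧ ∀ x j, g x j = p j (x j)}
  one_mem' := ⟨fun _ => 1, fun _ => K.one_mem, fun x j => by simp⟩
  mul_mem' := by
    rintro g h ⟨p, hp', hp⟩ ⟨q, hq', hq⟩
    refine ⟨fun j => p j * q j, fun j => K.mul_mem (hp' j) (hq' j), fun x j => ?_⟩
    simp only [Equiv.Perm.mul_apply, hp, hq]
  inv_mem' := by
    rintro g ⟨p, hp', hp⟩
    refine ⟨fun j => (p j)⁻¹, fun j => K.inv_mem (hp' j), fun x j => ?_⟩
    have := hp (g⁻¹ x) j
    simp only [Equiv.Perm.coe_inv, Equiv.apply_symm_apply] at this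
    simp only [Equiv.Perm.coe_inv, this, Equiv.symm_apply_apply]

theorem inv_form {g : Equiv.Perm W} {k : ℤ} {p : ℤ → Equiv.Perm (ZMod 3)}
    (hp : ∀ x j, g x j = p j (x (j - k))) (x : W) (j : ℤ) :
    g⁻¹ x j = (p (j + k))⁻¹ (x (j + k)) := by
  have := hp (g⁻¹ x) (j + k)
  simp only [Equiv.Perm.coe_inv, Equiv.apply_symm_apply, add_sub_cancel_right] at this
  simp only [Equiv.Perm.coe_inv, this, Equiv.symm_apply_apply]

theorem comm2 : ⁅A2, A2⁆ ≤ A1 ⊤ := by
  rw [Subgroup.commutator_le]
  rintro g ⟨k, p, hp⟩ h ⟨m, q, hq⟩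
  refine ⟨fun j => p j * q (j - k) * (p (j - k - m + k))⁻¹ * (q (j - k - m + k + m))⁻¹,
    fun _ => trivial, fun x j => ?_⟩
  simp only [commutatorElement_def, Equiv.Perm.mul_apply, hp, hq, inv_form hp, inv_form hq]
  congr 5; ring

theorem comm1 (K : Subgroup (Equiv.Perm (ZMod 3))) : ⁅A1 K, A1 K⁆ ≤ A1 ⁅K, K⁆ := by
  rw [Subgroup.commutator_le]
  rintro g ⟨p, hp', hp⟩ h ⟨q, hq', hq⟩
  have hp0 : ∀ x j, g x j = p j (x (j - 0)) := by simpa using hp
  have hq0 : ∀ x j, h x j = q j (x (j - 0)) := by simpa using hq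
  refine ⟨fun j => p j * q j * (p j)⁻¹ * (q j)⁻¹,
    fun j => Subgroup.commutator_mem_commutator (hp' j) (hq' j),
    fun x j => ?_⟩
  simp only [commutatorElement_def, Equiv.Perm.mul_apply, hp, hq, inv_form hp0, inv_form hq0,
    add_zero]

theorem A1_bot : A1 ⊥ = ⊥ := by
  rw [eq_bot_iff]
  rintro g ⟨p, hp', hp⟩
  rw [Subgroup.mem_bot]
  ext x j
  rw [hp, Subgroup.mem_bot.mp (hp' j)]
  rfl

theorem A1_mono {K K' : Subgroup (Equiv.Perm (ZMod 3))} (h : K ≤ K') : A1 K ≤ A1 K' := by
  rintro g ⟨p, hp', hp⟩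
  exact ⟨p, fun j => h (hp' j), hp⟩

def Ev : Subgroup (Equiv.Perm (ZMod 3)) := alternatingGroup (ZMod 3)

theorem top_comm : ⁅(⊤ : Subgroup (Equiv.Perm (ZMod 3))), ⊤⁆ ≤ Ev := by
  rw [Subgroup.commutator_le]
  intro g _ h _
  simp [Ev, commutatorElement_def, Equiv.Perm.mem_alternatingGroup, mul_right_comm]

theorem ev_comm : ⁅Ev, Ev⁆ ≤ ⊥ := by
  rw [Subgroup.commutator_le]
  intro g hg h hh
  rw [Subgroup.mem_bot, commutatorElement_eq_one_iff_mul_comm]
  simp only [Ev, Equiv.Perm.mem_alternatingGroup] at hg hh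
  revert g h
  decide

theorem phi_derived (L N : ℤ) : derivedSeries (FreeGroup Bool) 3 ≤ (phi L N).ker := by
  have h0 : (⊤ : Subgroup (FreeGroup Bool)).map (phi L N) ≤ A2 := by
    rintro _ ⟨s, -, rfl⟩
    induction s using FreeGroup.induction_on with
    | C1 => simp
    | of b =>
      cases b
      · rw [phi_a]
        exact ⟨0, fun j => ⟨act (dl j + dl (j - L)) (dl (j - N)),
          act (dl j + dl (j - L)) (dl (j - N)), act_act _ _, act_act _ _⟩,
          fun x j => by simp [rf_apply]⟩
      · rw [phi_t]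
        exact ⟨1, fun _ => 1, fun x j => rfl⟩
    | inv_of b hb => rw [map_inv]; exact A2.inv_mem hb
    | mul x y hx hy => rw [map_mul]; exact A2.mul_mem hx hy
  have h1 : (derivedSeries (FreeGroup Bool) 1).map (phi L N) ≤ A1 ⊤ := by
    rw [derivedSeries_succ, Subgroup.map_commutator]
    exact le_trans (Subgroup.commutator_mono h0 h0) comm2
  have h2 : (derivedSeries (FreeGroup Bool) 2).map (phi L N) ≤ A1 Ev := by
    rw [derivedSeries_succ, Subgroup.map_commutator]
    exact le_trans (Subgroup.commutator_mono h1 h1) (le_trans (comm1 _) (A1_mono top_comm))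
  have h3 : (derivedSeries (FreeGroup Bool) 3).map (phi L N) ≤ ⊥ := by
    rw [derivedSeries_succ, Subgroup.map_commutator, ← A1_bot]
    exact le_trans (Subgroup.commutator_mono h2 h2) (le_trans (comm1 _) (A1_mono ev_comm))
  exact (Subgroup.map_eq_bot_iff _).mp (le_bot_iff.mp h3)

/-! ### normal form of words -/

def Q (s : FreeGroup Bool) : Prop :=
  ∃ (l : ℕ) (k : ℤ) (e : ℤ → ZMod 2), |k| ≤ l ∧ (∀ j, (l : ℤ) < |j| → e j = 0) ∧
    ∀ L N : ℤ, 2 * l < L → L + 2 * l < N → ∀ x j,
      phi L N s x j = act (e j + e (j - L)) (e (j - N)) (x (j - k))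

theorem act_zero (y : ZMod 3) : act 0 0 y = y := by revert y; decide

theorem Q_all (s : FreeGroup Bool) : Q s := by
  have hdl : ∀ j : ℤ, ((0 : ℕ) : ℤ) < |j| → dl j = 0 := by
    intro j hj
    have : j ≠ 0 := by rintro rfl; simp at hj
    simp [dl, this]
  induction s using FreeGroup.induction_on with
  | C1 => exact ⟨0, 0, fun _ => 0, by simp, by simp, fun L N _ _ x j => by simp [act_zero]⟩
  | of b =>
    cases b
    · exact ⟨0, 0, dl, by simp, hdl, fun L N _ _ x j => by simp [phi_a, rf_apply]⟩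
    · exact ⟨1, 1, fun _ => 0, by simp, by simp,
        fun L N _ _ x j => by simp [phi_t, sh_apply, act_zero]⟩
  | inv_of b _ =>
    cases b
    · exact ⟨0, 0, dl, by simp, hdl, fun L N _ _ x j => by
        rw [map_inv, phi_a, rf_inv]; simp [rf_apply]⟩
    · exact ⟨1, -1, fun _ => 0, by simp, by simp,
        fun L N _ _ x j => by rw [map_inv, phi_t, sh_inv]; simp [sh_apply, act_zero]⟩
  | mul s s' hs hs' =>
    obtain ⟨l, k, e, hk, he, h⟩ := hs
    obtain ⟨l', k', e', hk', he', h'⟩ := hs'
    have hk1 := abs_le.mp hk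
    have hk2 := abs_le.mp hk'
    have E : ∀ j : ℤ, ((l : ℤ) < j ∨ j < -l) → e j = 0 := fun j hj =>
      he j (by rw [lt_abs]; omega)
    have E' : ∀ j : ℤ, ((l' : ℤ) < j ∨ j < -l') → e' j = 0 := fun j hj =>
      he' j (by rw [lt_abs]; omega)
    refine ⟨l + l', k + k', fun j => e j + e' (j - k), ?_, ?_, ?_⟩
    · rw [abs_le]; push_cast; omega
    · intro j hj
      rw [lt_abs] at hj
      push_cast at hj
      simp only
      rw [E j (by omega), E' (j - k) (by omega), add_zero]
    · intro L N hL hN x j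
      push_cast at hL hN
      rw [map_mul, Equiv.Perm.mul_apply, h L N (by omega) (by omega),
        h' L N (by omega) (by omega)]
      have e1 : j - k - k' = j - (k + k') := by ring
      have e2 : j - k - L = j - L - k := by ring
      have e3 : j - k - N = j - N - k := by ring
      rw [e1, e2, e3]
      by_cases hj : j ≤ L + l + l'
      · simp only
        rw [E (j - N) (by omega), E' (j - N - k) (by omega), act_left]
        congr 1
        ring
      · simp only
        rw [E j (by omega), E (j - L) (by omega), E' (j - k) (by omega),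
          E' (j - L - k) (by omega)]
        simp only [add_zero]
        rw [act_right]

/-! ### fixed points -/

theorem fixed (l : ℕ) (k : ℤ) (e : ℤ → ZMod 2) (he : ∀ j, (l : ℤ) < |j| → e j = 0)
    (L N : ℤ) (hL : 2 * l < L) (hN : L + 2 * l < N) (hk : k ≠ 0 → k ∣ L) :
    ∃ x : W, (∀ j, (L + l < j ∨ j < -l) → x j = 0) ∧
      ∀ j, act (e j + e (j - L)) (e (j - N)) (x (j - k)) = x j := by
  have E : ∀ j : ℤ, ((l : ℤ) < j ∨ j < -l) → e j = 0 := fun j hj =>
    he j (by rw [lt_abs]; omega)
  by_cases hk0 : k = 0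
  · subst hk0
    refine ⟨fun j => if L + l < j ∨ j < -l then 0 else 1, fun j hj => by simp [hj], fun j => ?_⟩
    simp only [sub_zero]
    by_cases hj : L + l < j ∨ j < -l
    · rw [if_pos hj, E j (by omega), E (j - L) (by omega)]
      generalize e (j - N) = c
      revert c; decide
    · rw [if_neg hj, E (j - N) (by omega)]
      generalize e j + e (j - L) = c
      revert c; decide
  · obtain ⟨z, hz1, hz2⟩ : ∃ z : ℤ → ZMod 2, (∀ j, (L + l < j ∨ j < -l) → z j = 0) ∧
        ∀ j, z j = e j + e (j - L) + z (j - k) := by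
      obtain ⟨m, hm⟩ := (Int.natAbs_dvd.mpr (hk hk0))
      set κ : ℕ := k.natAbs with hκ
      have hκ0 : (0 : ℤ) < κ := by omega
      have hm0 : 0 ≤ m := by
        by_contra hneg
        have : (κ : ℤ) * m ≤ 0 := mul_nonpos_of_nonneg_of_nonpos hκ0.le (by omega)
        omega
      obtain ⟨m, rfl⟩ := Int.eq_ofNat_of_zero_le hm0
      let z : ℤ → ZMod 2 := fun j => ∑ i ∈ Finset.range m, e (j - κ * i)
      have hz : ∀ j, z j + e (j - L) = e j + z (j - κ) := by
        intro j
        have h1 := Finset.sum_range_succ (fun i : ℕ => e (j - κ * i)) m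
        have h2 := Finset.sum_range_succ' (fun i : ℕ => e (j - κ * i)) m
        rw [h1] at h2
        simp only [z, hm]
        rw [h2, add_comm]
        congr 1
        · simp
        · refine Finset.sum_congr rfl (fun i _ => ?_)
          congr 1; push_cast; ring
      have hz0 : ∀ j, (L + l < j + κ ∨ j < -l) → z j = 0 := by
        intro j hj
        refine Finset.sum_eq_zero (fun i hi => E _ ?_)
        have hi' : (i : ℤ) + 1 ≤ m := by have := Finset.mem_range.mp hi; omega
        have h1 : (κ : ℤ) * (i + 1) ≤ κ * m := mul_le_mul_of_nonneg_left hi' hκ0.le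
        have h2 : (0 : ℤ) ≤ κ * i := by positivity
        rw [mul_add] at h1
        omega
      have two : ∀ a b c d : ZMod 2, a + b = c + d → a = c + b + d ∧ d = c + b + a := by decide
      rcases lt_or_gt_of_ne hk0 with hneg | hpos
      · refine ⟨fun j => z (j - κ), fun j hj => hz0 _ (by omega), fun j => ?_⟩
        have : j - k - κ = j := by omega
        simp only [this]
        exact (two _ _ _ _ (hz j)).2
      · refine ⟨z, fun j hj => hz0 _ (by omega), fun j => ?_⟩
        have : j - k = j - κ := by omega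
        rw [this]
        exact (two _ _ _ _ (hz j)).1
    refine ⟨fun j => if z j = 1 then 2 else 0, fun j hj => by simp [hz1 j hj], fun j => ?_⟩
    by_cases hj : L + l < j
    · have h1 := hz2 j
      rw [hz1 j (Or.inl hj), E j (by omega), E (j - L) (by omega)] at h1
      have h2 : z (j - k) = 0 := by simpa using h1.symm
      simp only [h2, hz1 j (Or.inl hj), E j (by omega), E (j - L) (by omega)]
      generalize e (j - N) = c
      revert c; decide
    · simp only
      rw [E (j - N) (by omega), hz2 j]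
      generalize e j + e (j - L) = c
      generalize z (j - k) = d
      revert c d; decide

/-! ### the orbit of zero -/

theorem transl (L N : ℤ) (hL : 0 < L) (hN : L < N) (i : ℤ) :
    ∃ g : FreeGroup Bool, ∀ x j, phi L N g x j = x j + if j = i then 1 else 0 := by
  let a : ℤ → FreeGroup Bool := fun n =>
    (FreeGroup.of true) ^ n * FreeGroup.of false * (FreeGroup.of true) ^ (-n)
  have ha : ∀ n x j, phi L N (a n) x j =
      act (dl (j - n) + dl (j - n - L)) (dl (j - n - N)) (x j) := by
    intro n x j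
    simp only [a, map_mul, map_zpow, phi_t, phi_a, sh_zpow, Equiv.Perm.mul_apply, sh_apply,
      rf_apply]
    congr 2; ring
  refine ⟨a i * a (i - N) * a i * a (i - N), fun x j => ?_⟩
  simp only [map_mul, Equiv.Perm.mul_apply, ha]
  by_cases hj : j = i
  · subst hj
    have h1 : dl (j - j) = 1 := by simp [dl]
    have h2 : dl (j - j - L) = 0 := if_neg (by omega)
    have h3 : dl (j - j - N) = 0 := if_neg (by omega)
    have h4 : dl (j - (j - N)) = 0 := if_neg (by omega)
    have h5 : dl (j - (j - N) - L) = 0 := if_neg (by omega)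
    have h6 : dl (j - (j - N) - N) = 1 := if_pos (by omega)
    rw [h1, h2, h3, h4, h5, h6, if_pos rfl]
    generalize x j = y
    revert y; decide
  · rw [if_neg hj, add_zero]
    have h1 : dl (j - i) = 0 := if_neg (by omega)
    have h6 : dl (j - (i - N) - N) = 0 := if_neg (by omega)
    by_cases hji : i < j
    · have h4 : dl (j - (i - N)) = 0 := if_neg (by omega)
      have h5 : dl (j - (i - N) - L) = 0 := if_neg (by omega)
      rw [h4, h5, h6, add_zero, act_zero, act_zero, act_act]
    · have h2 : dl (j - i - L) = 0 := if_neg (by omega)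
      have h3 : dl (j - i - N) = 0 := if_neg (by omega)
      rw [h1, h2, h3, add_zero, act_zero, act_zero, act_act]

theorem orbit (L N : ℤ) (hL : 0 < L) (hN : L < N) (s : Finset ℤ) :
    ∀ x : W, (∀ j, j ∉ s → x j = 0) → ∃ g : FreeGroup Bool, phi L N g 0 = x := by
  classical
  induction s using Finset.induction_on with
  | empty => intro x hx; exact ⟨1, by funext j; simp [hx j]⟩
  | insert i s hi ih =>
    intro x hx
    obtain ⟨g, hg⟩ := ih (Function.update x i 0) (fun j hj => by
      by_cases hji : j = i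
      · subst hji; simp
      · rw [Function.update_of_ne hji]; exact hx j (by simp [hj, hji]))
    obtain ⟨τ, hτ⟩ := transl L N hL hN i
    have hpow : ∀ (n : ℕ) y j, phi L N (τ ^ n) y j = y j + if j = i then (n : ZMod 3) else 0 := by
      intro n
      induction n with
      | zero => intro y j; simp
      | succ n ihn =>
        intro y j
        rw [pow_succ', map_mul, Equiv.Perm.mul_apply, hτ, ihn]
        split_ifs <;> simp [add_assoc]
    refine ⟨τ ^ (x i).val * g, ?_⟩
    funext j
    rw [map_mul, Equiv.Perm.mul_apply, hpow, hg]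
    by_cases hji : j = i
    · subst hji; simp
    · simp [hji]

theorem not_fig :
    ¬ (∀ (G : Type) [Group G], Group.FG G → IsSolvable G →
      ∃ S : Finset G, ∀ g : G → G,
        Subgroup.closure ((fun s => (g s)⁻¹ * s * g s) '' (S : Set G)) = ⊤) := by
  classical
  intro h
  let D := derivedSeries (FreeGroup Bool) 3
  have : D.Normal := derivedSeries_normal _ _
  have hfg : Group.FG (FreeGroup Bool) := by
    refine ⟨⟨Finset.univ.image FreeGroup.of, ?_⟩⟩
    rw [Finset.coe_image, Finset.coe_univ, Set.image_univ]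
    exact FreeGroup.closure_range_of _
  have hsol : IsSolvable (FreeGroup Bool ⧸ D) := by
    refine ⟨⟨3, ?_⟩⟩
    rw [← map_derivedSeries_eq (QuotientGroup.mk'_surjective D), Subgroup.map_eq_bot_iff,
      QuotientGroup.ker_mk']
  obtain ⟨S, hS⟩ := h (FreeGroup Bool ⧸ D)
    (Group.fg_of_surjective (QuotientGroup.mk'_surjective D)) hsol
  choose r hr using QuotientGroup.mk'_surjective D
  choose l k e hk he hQ using fun s => Q_all (r s)
  let B : ℕ := S.sup l
  let L : ℤ := ((2 * B + 1).factorial : ℕ)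
  have hL : 2 * (B : ℤ) + 1 ≤ L := by
    have := Nat.self_le_factorial (2 * B + 1)
    simp only [L]; exact_mod_cast this
  let N : ℤ := L + 2 * B + 1
  let Φ : FreeGroup Bool ⧸ D →* Equiv.Perm W := QuotientGroup.lift D (phi L N) (phi_derived L N)
  have hΦ : ∀ s, Φ (QuotientGroup.mk' D s) = phi L N s := fun s => rfl
  have hfix : ∀ s, ∃ g : FreeGroup Bool ⧸ D, s ∈ S → Φ (g⁻¹ * s * g) 0 = 0 := by
    intro s
    by_cases hs : s ∈ S
    swap
    · exact ⟨1, fun h => absurd h hs⟩
    have hl : l s ≤ B := Finset.le_sup (f := l) hs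
    have hl' : (l s : ℤ) ≤ B := by exact_mod_cast hl
    obtain ⟨x, hx0, hx⟩ := fixed (l s) (k s) (e s) (he s) L N (by omega) (by omega) (fun hk0 => by
      rw [← Int.natAbs_dvd]
      have := hk s
      have h1 : (k s).natAbs ∣ (2 * B + 1).factorial :=
        Nat.dvd_factorial (by omega) (by rw [Int.abs_eq_natAbs] at this; omega)
      exact Int.natCast_dvd_natCast.mpr h1)
    obtain ⟨g, hg⟩ := orbit L N (by omega) (by omega) (Finset.Icc (-(l s : ℤ)) (L + l s)) x
      (fun j hj => hx0 j (by rw [Finset.mem_Icc] at hj; omega))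
    refine ⟨QuotientGroup.mk' D g, fun _ => ?_⟩
    have hsx : Φ s x = x := by
      funext j
      rw [← hr s, hΦ, hQ s L N (by omega) (by omega), hx]
    rw [map_mul, map_mul, map_inv, Equiv.Perm.mul_apply, Equiv.Perm.mul_apply, hΦ, hg, hsx, ← hg]
    simp
  choose g hg using hfix
  have hle : Subgroup.closure ((fun s => (g s)⁻¹ * s * g s) '' (S : Set _)) ≤
      (MulAction.stabilizer (Equiv.Perm W) (0 : W)).comap Φ := by
    rw [Subgroup.closure_le]
    rintro _ ⟨s, hs, rfl⟩
    exact hg s hs
  rw [hS g] at hle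
  have h1 : Φ (QuotientGroup.mk' D (FreeGroup.of false)) 0 = 0 := hle (Subgroup.mem_top _)
  rw [hΦ, phi_a] at h1
  have h2 := congrFun h1 0
  rw [rf_apply] at h2
  have h3 : dl (0 - L) = 0 := if_neg (by omega)
  have h4 : dl 0 = 1 := if_pos rfl
  rw [h3, h4] at h2
  revert h2
  simp only [Pi.zero_apply]
  generalize dl (0 - N) = c
  revert c; decide

end Pool.Agent.H73.Fig
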