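import Mathlib
import Pool.Agent.H73.RigidReals

set_option autoImplicit false

namespace Pool.Agent.H73.FullTrans

open Cardinal

section Alg

variable {K E S O : Type} [Field K] [AddCommGroup E] [Module K E]

/-- The operator of a word. -/
def xw (x : O → Module.End K E) (w : List O) : Module.End K E := (w.map x).prod

@[simp] theorem xw_nil (x : O → Module.End K E) : xw x [] = 1 := rfl
@[simp] theorem xw_cons (x : O → Module.End K E) (a : O) (w : List O) :
    xw x (a :: w) = x a * xw x w := by simp [xw]

/-- The reversed operator of a word. -/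
def tw (t : O → Module.End K E) : List O → Module.End K E
  | [] => 1
  | a :: w => tw t w * t a

theorem extract (u τ : S → Module.End K E) (h1 : ∀ s m, τ s (u s m) = m)
    (h0 : ∀ s s' m, s ≠ s' → τ s (u s' m) = 0) (l : O → S) (hl : Function.Injective l)
    {s s' : S} (hs : s ∉ Set.range l) (hs' : s' ∉ Set.range l) (m : E) :
    ∀ w w' : List O, (w, s) ≠ (w', s') →
      τ s (tw (τ ∘ l) w (xw (u ∘ l) w' (u s' m))) = 0
  | [], [], h => by
    simp only [tw, xw_nil, Module.End.one_apply]
    exact h0 _ _ _ fun e => h (by rw [e])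
  | [], a :: w', _ => by
    simp only [tw, xw_cons, Module.End.one_apply, Module.End.mul_apply, Function.comp]
    exact h0 _ _ _ fun e => hs ⟨a, e.symm⟩
  | a :: w, [], _ => by
    simp only [tw, xw_nil, Module.End.one_apply, Module.End.mul_apply, Function.comp]
    rw [h0 _ _ _ fun e => hs' ⟨a, e⟩]; simp
  | a :: w, b :: w', h => by
    simp only [tw, xw_cons, Module.End.mul_apply, Function.comp]
    by_cases hab : a = b
    · subst hab
      rw [h1]
      exact extract u τ h1 h0 l hl hs hs' m w w' fun e => h (by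
        simp only [Prod.mk.injEq] at e ⊢; simp [e.1, e.2])
    · rw [h0 _ _ _ fun e => hab (hl e)]; simp

theorem extract_self (u τ : S → Module.End K E) (h1 : ∀ s m, τ s (u s m) = m) (l : O → S)
    (m : E) : ∀ w : List O, tw (τ ∘ l) w (xw (u ∘ l) w m) = m
  | [] => rfl
  | a :: w => by
    simp only [tw, xw_cons, Module.End.mul_apply, Function.comp]
    rw [h1]; exact extract_self u τ h1 l m w

/-- Sum of words applied after an operator. -/
noncomputable def Lam (x : O → Module.End K E) (y : Module.End K E) : (List O →₀ E) →ₗ[K] E :=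
  Finsupp.lsum K fun w => xw x w * y

theorem Lam_apply (x : O → Module.End K E) (y : Module.End K E) (m : List O →₀ E) :
    Lam x y m = ∑ w ∈ m.support, xw x w (y (m w)) := rfl

theorem Lam_single (x : O → Module.End K E) (y : Module.End K E) (w : List O) (m : E) :
    Lam x y (Finsupp.single w m) = xw x w (y m) := by simp [Lam]

theorem small_list {c : Cardinal} (hc : ℵ₀ < c) {α : Type} (h : #α < c) : #(List α) < c :=
  lt_of_le_of_lt (mk_list_le_max α) (max_lt hc h)

theorem small_prod {c : Cardinal} (hc : ℵ₀ < c) {α β : Type} (h : #α < c) (h' : #β < c) :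
    #(α × β) < c := by
  rw [mk_prod, lift_id, lift_id]
  exact mul_lt_of_lt hc.le h h'

theorem small_union {c : Cardinal} (hc : ℵ₀ < c) {α : Type} {s t : Set α} (h : #s < c)
    (h' : #t < c) : #(s ∪ t : Set α) < c :=
  lt_of_le_of_lt (mk_union_le _ _) (add_lt_of_lt hc.le h h')

theorem small_range {c : Cardinal} {α β : Type} (f : α → β) (h : #α < c) :
    #(Set.range f) < c :=
  lt_of_le_of_lt mk_range_le h

theorem small_count {c : Cardinal} (hc : ℵ₀ < c) {α : Type} [Countable α] : #α < c :=
  lt_of_le_of_lt mk_le_aleph0 hc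

theorem small_insert {c : Cardinal} (hc : ℵ₀ < c) {α : Type} {s : Set α} (a : α) (h : #s < c) :
    #(insert a s : Set α) < c :=
  lt_of_le_of_lt mk_insert_le (add_lt_of_lt hc.le h (lt_trans one_lt_aleph0 hc))

theorem exists_generic (u τ : S → Module.End K E) (h1 : ∀ s m, τ s (u s m) = m)
    (h0 : ∀ s s' m, s ≠ s' → τ s (u s' m) = 0) (hS : 𝔠 ≤ #S) (l : O → S)
    (hl : Function.Injective l) (hO : #O < 𝔠) (x : O → Module.End K E) (k : O → E)
    (hk : ∀ o ξ, x o ξ - u (l o) ξ ∈ K ∙ k o) (B : Set E) (hB : #B < 𝔠) :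
    ∃ (N : Submodule K E) (s : S), s ∉ Set.range l ∧ B ⊆ N ∧ (∀ w, ∀ ξ ∈ N, xw x w ξ ∈ N) ∧
      ∀ m, Lam x (u s) m ∈ N → m = 0 := by
  classical
  let B' : Set E := B ∪ Set.range k
  let C : Set E := Set.range fun q : List O × B' => xw (u ∘ l) q.1 q.2
  have hC : #C < 𝔠 := small_range _ (small_prod aleph0_lt_continuum
    (small_list aleph0_lt_continuum hO) (small_union aleph0_lt_continuum hB (small_range _ hO)))
  let N := Submodule.span K C
  have hBN : B' ⊆ N := fun b hb => Submodule.subset_span ⟨([], ⟨b, hb⟩), rfl⟩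
  have hu : ∀ o, ∀ ξ ∈ N, u (l o) ξ ∈ N := by
    intro o ξ hξ
    refine (Submodule.span_le (p := N.comap (u (l o)))).2 ?_ hξ
    rintro _ ⟨q, rfl⟩
    exact Submodule.subset_span ⟨(o :: q.1, q.2), by simp⟩
  have hd : ∀ o ξ, x o ξ - u (l o) ξ ∈ N := fun o ξ =>
    (Submodule.span_singleton_le_iff_mem _ _).2 (hBN (Or.inr ⟨o, rfl⟩)) (hk o ξ)
  have hx : ∀ w, ∀ ξ ∈ N, xw x w ξ ∈ N := by
    intro w ξ hξ
    induction w with
    | nil => exact hξ
    | cons a w ih =>
      have := add_mem (hd a (xw x w ξ)) (hu a _ ih)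
      simpa using this
  have hxu : ∀ w ξ, xw x w ξ - xw (u ∘ l) w ξ ∈ N := by
    intro w ξ
    induction w with
    | nil => simp
    | cons a w ih =>
      have := add_mem (hd a (xw x w ξ)) (hu a _ ih)
      simpa using this
  by_contra hcon
  have : ∀ s : ((Set.range l)ᶜ : Set S), ∃ m, Lam (u ∘ l) (u s) m ∈ N ∧ m ≠ 0 := by
    intro s
    by_contra h
    push Not at h
    refine hcon ⟨N, s, s.2, fun b hb => hBN (Or.inl hb), hx, fun m hm => h m ?_⟩
    have : Lam x (u s) m - Lam (u ∘ l) (u s) m ∈ N := by
      rw [Lam_apply, Lam_apply, ← Finset.sum_sub_distrib]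
      exact Submodule.sum_mem _ fun w _ => hxu _ _
    simpa using sub_mem hm this
  choose m hm hm0 using this
  have hli : LinearIndependent K fun s : ((Set.range l)ᶜ : Set S) =>
      Lam (u ∘ l) (u s) (m s) := by
    rw [linearIndependent_iff']
    intro t c hc s hs
    obtain ⟨w, hw⟩ := Finsupp.ne_iff.1 (hm0 s)
    have h2 := congrArg (fun ξ => τ s (tw (τ ∘ l) w ξ)) hc
    simp only [map_sum, map_smul, map_zero, Lam_apply] at h2
    rw [Finset.sum_eq_single s, Finset.sum_eq_single w, extract_self u τ h1, h1] at h2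
    · exact (smul_eq_zero.1 h2).resolve_right hw
    · intro w' _ hw'
      exact extract u τ h1 h0 l hl s.2 s.2 _ _ _ fun e => hw' (congrArg Prod.fst e).symm
    · intro h; exact absurd (Finsupp.mem_support_iff.2 hw) h
    · intro s' _ hs'
      rw [Finset.sum_eq_zero, smul_zero]
      intro w' _
      exact extract u τ h1 h0 l hl s.2 s'.2 _ _ _ fun e =>
        hs' (Subtype.ext (congrArg Prod.snd e).symm)
    · intro h; exact absurd hs h
  have h3 : #((Set.range l)ᶜ : Set S) ≤ #C := by
    have := (LinearIndependent.of_comp N.subtype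
      (v := fun s => (⟨_, hm s⟩ : N)) hli).cardinal_le_rank
    exact this.trans (rank_span_le C)
  have h4 := small_union aleph0_lt_continuum (small_range l hO) (lt_of_le_of_lt h3 hC)
  rw [Set.union_compl_self, mk_univ] at h4
  exact absurd hS (not_le.2 h4)

theorem units_scalar (x : O → Module.End K E) (y : Module.End K E) (e : E) (he : e ≠ 0)
    (hy : ∀ m, Lam x y m = 0 → m = 0) (c c' : List O →₀ K)
    (h : (c.sum fun w a => a • xw x w) * (c'.sum fun w a => a • xw x w) = 1) :
    ∃ a : K, (c.sum fun w a => a • xw x w) = a • 1 := by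
  classical
  let ρ := MonoidAlgebra.lift K (Module.End K E) (FreeMonoid O) (FreeMonoid.lift x)
  have hρ : ∀ c : MonoidAlgebra K (FreeMonoid O),
      ρ c = Finsupp.sum (α := List O) c.coeff fun w a => a • xw x w := fun c =>
    (MonoidAlgebra.lift_apply (FreeMonoid.lift x) c).trans
      (Finsupp.sum_congr fun w _ => by rw [FreeMonoid.lift_apply]; rfl)
  have hinj : Function.Injective ρ := by
    rw [injective_iff_map_eq_zero]
    intro a ha
    have h1 : Lam x y (Finsupp.mapRange (α := List O) (fun r : K => r • e) (zero_smul _ _)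
        a.coeff) = ρ a (y e) := by
      rw [hρ]
      simp only [Lam, Finsupp.coe_lsum]
      rw [Finsupp.sum_mapRange_index (by simp)]
      simp [Finsupp.sum, LinearMap.sum_apply]
    rw [ha] at h1
    have h2 := hy _ h1
    ext w
    have := DFunLike.congr_fun h2 (FreeMonoid.toList w)
    simp only [Finsupp.mapRange_apply, Finsupp.coe_zero, Pi.zero_apply, smul_eq_zero] at this
    exact this.resolve_right he
  let a : MonoidAlgebra K (FreeMonoid O) := .ofCoeff c
  let a' : MonoidAlgebra K (FreeMonoid O) := .ofCoeff c'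
  have hm : a * a' = 1 := hinj (by rw [map_mul, map_one, hρ, hρ]; exact h)
  have hne : c.support.Nonempty := by
    rw [Finsupp.support_nonempty_iff]
    rintro rfl
    have : a = 0 := rfl
    simp [this] at hm
  have hne' : c'.support.Nonempty := by
    rw [Finsupp.support_nonempty_iff]
    rintro rfl
    have : a' = 0 := rfl
    simp [this] at hm
  obtain ⟨w, hw, hmax⟩ := c.support.exists_max_image List.length hne
  obtain ⟨w', hw', hmax'⟩ := c'.support.exists_max_image List.length hne'
  have hu : UniqueMul a.coeff.support a'.coeff.support (FreeMonoid.ofList w)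
      (FreeMonoid.ofList w') := by
    intro v v' hv hv' e
    have e' : FreeMonoid.toList v ++ FreeMonoid.toList v' = w ++ w' := e
    have l1 := hmax _ hv
    have l2 := hmax' _ hv'
    have l3 := congrArg List.length e'
    simp only [List.length_append] at l3
    have l4 : (FreeMonoid.toList v).length = w.length := by
      change (FreeMonoid.toList v).length ≤ _ at l1
      change (FreeMonoid.toList v').length ≤ _ at l2
      omega
    exact List.append_inj e' l4
  have h5 := MonoidAlgebra.coeff_mul_mul_of_uniqueMul hu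
  rw [hm] at h5
  have h6 : (FreeMonoid.ofList w * FreeMonoid.ofList w' : FreeMonoid O) = 1 := by
    by_contra hc
    rw [MonoidAlgebra.one_def, MonoidAlgebra.coeff_single, Finsupp.single_eq_of_ne hc] at h5
    exact mul_ne_zero (Finsupp.mem_support_iff.1 hw) (Finsupp.mem_support_iff.1 hw') h5.symm
  have h7 : w = [] := (List.append_eq_nil_iff.1 h6).1
  subst h7
  refine ⟨c [], ?_⟩
  rw [Finsupp.sum, Finset.sum_eq_single []]
  · rfl
  · intro v hv hv0
    exact absurd (List.length_eq_zero_iff.1 (Nat.le_zero.1 (hmax v hv))) hv0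
  · intro h; exact absurd hw h

end Alg

end Pool.Agent.H73.FullTrans
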