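import Mathlib
import Pool.Agent.H73.FullTrans1

set_option autoImplicit false

namespace Pool.Agent.H73.FullTrans

open Cardinal

variable {K E O J : Type} [Field K] [CharZero K] [AddCommGroup E] [Module K E] [Module ℚ E]
  [IsScalarTower ℚ K E]

omit [IsScalarTower ℚ K E] in
theorem small_span {c : Cardinal} (hc : ℵ₀ < c) {s : Set E} (h : #s < c) :
    #(Submodule.span ℚ s) < c := by
  rw [← Submodule.span_insert_zero, Finsupp.span_eq_range_linearCombination]
  refine lt_of_le_of_lt (mk_range_le (f := Finsupp.linearCombination ℚ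
    ((↑) : (insert 0 s : Set E) → E))) ?_
  rw [mk_finsupp_of_infinite']
  exact max_lt (small_insert hc _ h) (small_count hc)

/-- Linear disjointness from the big field. -/
def Dj (π : J → K) (V : Submodule ℚ E) : Prop :=
  ∀ (t : Finset J) (f : J → E), (∀ j ∈ t, f j ∈ V) → ∑ j ∈ t, π j • f j = 0 → ∀ j ∈ t, f j = 0

/-- Relative disjointness. -/
def Jj (π : J → K) (N : Submodule K E) (V V' : Submodule ℚ E) : Prop :=
  ∀ (t : Finset J) (f : J → E), (∀ j ∈ t, f j ∈ V') → ∑ j ∈ t, π j • f j ∈ N → ∀ j ∈ t, f j ∈ V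

omit [CharZero K] [IsScalarTower ℚ K E] in
theorem Jj.dj {π : J → K} {N : Submodule K E} {V V' : Submodule ℚ E} (h : Jj π N V V')
    (hV : Dj π V) : Dj π V' := fun t f hf h0 =>
  hV t f (h t f hf (by rw [h0]; exact N.zero_mem)) h0

omit [CharZero K] [IsScalarTower ℚ K E] in
theorem Jj.mem [Nonempty J] {π : J → K} {N : Submodule K E} {V V' : Submodule ℚ E}
    (h : Jj π N V V') {v : E} (hv : v ∈ V') (hN : v ∈ N) : v ∈ V := by
  obtain ⟨j⟩ := ‹Nonempty J›
  exact h {j} (fun _ => v) (fun _ _ => hv) (by simpa using N.smul_mem _ hN) j (by simp)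

theorem Dj.scalar {π : Module.Basis J ℚ K} {V : Submodule ℚ E} (h : Dj π V) {g : E} (hg : g ∈ V)
    (t : Finset J) (f : J → E) (hf : ∀ j ∈ t, f j ∈ V) (c : K) (e : ∑ j ∈ t, π j • f j = c • g) :
    ∀ j ∈ t, ∃ q : ℚ, f j = q • g := by
  classical
  intro j hj
  have := h (t ∪ (π.repr c).support) (fun j => (if j ∈ t then f j else 0) - π.repr c j • g)
    (fun j _ => sub_mem (by split_ifs with h; exacts [hf j h, V.zero_mem]) (V.smul_mem _ hg))
    (by
      simp only [smul_sub, Finset.sum_sub_distrib, smul_ite, smul_zero]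
      rw [Finset.sum_ite_mem, Finset.union_inter_cancel_left, e, sub_eq_zero]
      have h1 : c = ∑ i ∈ t ∪ (π.repr c).support, π.repr c i • π i := by
        conv_lhs => rw [← π.linearCombination_repr c, Finsupp.linearCombination_apply]
        exact Finsupp.sum_of_support_subset _ Finset.subset_union_right _ (by simp)
      conv_lhs => rw [h1, Finset.sum_smul]
      refine Finset.sum_congr rfl fun i _ => ?_
      rw [smul_assoc, smul_comm]) j (Finset.mem_union_left _ hj)
  simp only [if_pos hj] at this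
  exact ⟨_, sub_eq_zero.1 this⟩

/-- One extension step. -/
def Ext (x : O → Module.End K E) (y : Module.End K E) (V U : Submodule ℚ E) : Submodule ℚ E :=
  Submodule.span ℚ ((V : Set E) ∪ Set.range fun q : List O × U => xw x q.1 (y q.2))

omit [CharZero K] [IsScalarTower ℚ K E] in
theorem le_Ext (x : O → Module.End K E) (y : Module.End K E) (V U : Submodule ℚ E) :
    V ≤ Ext x y V U := fun _ h => Submodule.subset_span (Or.inl h)

omit [CharZero K] [IsScalarTower ℚ K E] in
theorem mem_Ext (x : O → Module.End K E) (y : Module.End K E) (V U : Submodule ℚ E) (w : List O)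
    {v : E} (hv : v ∈ U) : xw x w (y v) ∈ Ext x y V U :=
  Submodule.subset_span (Or.inr ⟨(w, ⟨v, hv⟩), rfl⟩)

omit [CharZero K] [IsScalarTower ℚ K E] in
theorem small_Ext {c : Cardinal} (hc : ℵ₀ < c) (x : O → Module.End K E) (y : Module.End K E)
    {V U : Submodule ℚ E}
    (hO : #O < c) (hV : #V < c) (hU : #U < c) : #(Ext x y V U) < c :=
  small_span hc (small_union hc hV (small_range _ (small_prod hc (small_list hc hO) hU)))

omit [CharZero K] [IsScalarTower ℚ K E] in
theorem Ext_mono (x : O → Module.End K E) (y : Module.End K E) (V : Submodule ℚ E)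
    {U U' : Submodule ℚ E} (h : U ≤ U') : Ext x y V U ≤ Ext x y V U' := by
  refine Submodule.span_le.2 ?_
  rintro _ (h | ⟨q, rfl⟩)
  · exact le_Ext _ _ _ _ h
  · exact mem_Ext _ _ _ _ _ (h q.2.2)

theorem Ext_closed (x : O → Module.End K E) (y : Module.End K E) {V : Submodule ℚ E}
    (U : Submodule ℚ E) (hV : ∀ o, ∀ v ∈ V, x o v ∈ V) (o : O) :
    ∀ v ∈ Ext x y V U, x o v ∈ Ext x y V U := by
  intro v hv
  refine (Submodule.span_le (p := (Ext x y V U).comap ((x o).restrictScalars ℚ))).2 ?_ hv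
  rintro _ (h | ⟨q, rfl⟩)
  · exact le_Ext _ _ _ _ (hV o _ h)
  · have := mem_Ext x y V U (o :: q.1) q.2.2
    rw [xw_cons] at this
    exact this

theorem Ext_rep {x : O → Module.End K E} {y : Module.End K E} {V U : Submodule ℚ E} {ξ : E}
    (h : ξ ∈ Ext x y V U) :
    ∃ v ∈ V, ∃ P : List O →₀ E, (∀ w, P w ∈ U) ∧ ξ = v + Lam x y P := by
  classical
  induction h using Submodule.span_induction with
  | mem ξ h =>
    rcases h with h | ⟨q, rfl⟩
    · exact ⟨ξ, h, 0, fun _ => U.zero_mem, by simp⟩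
    · refine ⟨0, V.zero_mem, Finsupp.single q.1 q.2, fun w => ?_, by simp [Lam_single]⟩
      rw [Finsupp.single_apply]
      split_ifs
      exacts [q.2.2, U.zero_mem]
  | zero => exact ⟨0, V.zero_mem, 0, fun _ => U.zero_mem, by simp⟩
  | add a b _ _ ha hb =>
    obtain ⟨v, hv, P, hP, rfl⟩ := ha
    obtain ⟨v', hv', P', hP', rfl⟩ := hb
    exact ⟨v + v', add_mem hv hv', P + P', fun w => add_mem (hP w) (hP' w), by
      rw [map_add]; abel⟩
  | smul q a _ ha =>
    obtain ⟨v, hv, P, hP, rfl⟩ := ha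
    exact ⟨q • v, V.smul_mem _ hv, q • P, fun w => U.smul_mem _ (hP w), by
      rw [LinearMap.map_smul_of_tower, smul_add]⟩

omit [CharZero K] [IsScalarTower ℚ K E] in
theorem xw_mem {x : O → Module.End K E} {V : Submodule ℚ E} (hV : ∀ o, ∀ v ∈ V, x o v ∈ V)
    (w : List O) {v : E} (hv : v ∈ V) : xw x w v ∈ V := by
  induction w with
  | nil => exact hv
  | cons a w ih => rw [xw_cons]; exact hV a _ ih

theorem Ext_J (π : J → K) {x : O → Module.End K E} {y us Q : Module.End K E}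
    {V U : Submodule ℚ E} {N : Submodule K E} (hVN : ∀ v ∈ V, v ∈ N)
    (hN : ∀ w, ∀ ξ ∈ N, xw x w ξ ∈ N) (hgen : ∀ m, Lam x us m ∈ N → m = 0)
    (H : ∀ ξ, y ξ - us (Q ξ) ∈ N) (hV : ∀ o, ∀ v ∈ V, x o v ∈ V)
    (H2 : ∀ (t : Finset J) (P : J → E), (∀ j ∈ t, P j ∈ U) → Q (∑ j ∈ t, π j • P j) = 0 →
      ∀ j ∈ t, y (P j) ∈ V) : Jj π N V (Ext x y V U) := by
  intro t f hf hs j hj
  choose! v hv P hP e using fun j hj => Ext_rep (hf j hj)
  let m := ∑ j ∈ t, π j • P j
  have h1 : ∑ j ∈ t, π j • f j = ∑ j ∈ t, π j • v j + Lam x y m := by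
    rw [map_sum, ← Finset.sum_add_distrib]
    exact Finset.sum_congr rfl fun i hi => by rw [e i hi, map_smul, smul_add]
  have h2 : Lam x y m ∈ N := by
    have := sub_mem hs (N.sum_mem fun i hi => N.smul_mem (π i) (hVN _ (hv i hi)))
    rwa [h1, add_sub_cancel_left] at this
  have h3 : Lam x us (m.mapRange Q (map_zero Q)) = Lam x (us * Q) m := by
    simp only [Lam, Finsupp.coe_lsum]
    rw [Finsupp.sum_mapRange_index (by simp)]
    rfl
  have h4 : Lam x y m - Lam x (us * Q) m ∈ N := by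
    rw [Lam_apply, Lam_apply, ← Finset.sum_sub_distrib]
    refine N.sum_mem fun w _ => ?_
    rw [← map_sub]
    exact hN _ _ (H _)
  have h5 := hgen (m.mapRange Q (map_zero Q)) (by
    rw [h3]; simpa using sub_mem h2 h4)
  rw [e j hj, Lam_apply]
  refine add_mem (hv j hj) (V.sum_mem fun w _ => xw_mem hV _ ?_)
  refine H2 t (fun j => P j w) (fun i hi => hP i hi w) ?_ j hj
  have := DFunLike.congr_fun h5 w
  simpa [m, Finsupp.finsetSum_apply] using this

theorem stepX {c : Cardinal} (hc : ℵ₀ < c) (hr : c.IsRegular)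
    (π : Module.Basis J ℚ K) {x : O → Module.End K E} {y us : Module.End K E}
    {V : Submodule ℚ E} {N : Submodule K E} (hO : #O < c) (hs : #V < c) (hD : Dj π V)
    (hVN : ∀ v ∈ V, v ∈ N)
    (hN : ∀ w, ∀ ξ ∈ N, xw x w ξ ∈ N) (hgen : ∀ m, Lam x us m ∈ N → m = 0)
    (hV : ∀ o, ∀ v ∈ V, x o v ∈ V) {g h : E} (hg : g ∈ V) (hh : h ∈ V) (lam : E →ₗ[K] K)
    (hl : lam g = 1) (hy : ∀ ξ, y ξ = us (ξ - lam ξ • g) + lam ξ • h) :
    ∃ V' : Submodule ℚ E, V ≤ V' ∧ #V' < c ∧ Jj π N V V' ∧ (∀ o, ∀ v ∈ V', x o v ∈ V') ∧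
      ∀ v ∈ V', y v ∈ V' := by
  let A : ℕ → Submodule ℚ E := fun d => Nat.rec V (fun _ U => Ext x y V U) d
  have A1 : ∀ d, A (d + 1) = Ext x y V (A d) := fun _ => rfl
  have hle : ∀ d, V ≤ A d := fun d => by
    cases d
    exacts [le_rfl, le_Ext _ _ _ _]
  have hmono : Monotone A := monotone_nat_of_le_succ fun d => by
    induction d with
    | zero => exact hle 1
    | succ d ih => exact Ext_mono x y V ih
  have hyg : y g = h := by simp [hy, hl]
  have hJ : ∀ d, Jj π N V (A d) := fun d => by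
    induction d with
    | zero => exact fun t f hf _ => hf
    | succ d ih =>
      refine Ext_J π (us := us) (Q := 1 - lam.smulRight g) hVN hN hgen (fun ξ => ?_) hV ?_
      · simpa [hy] using N.smul_mem _ (hVN _ hh)
      · intro t P hP e j hj
        obtain ⟨q, hq⟩ := (ih.dj hD).scalar (hle d hg) t P hP _ (sub_eq_zero.1 e) j hj
        rw [hq, LinearMap.map_smul_of_tower, hyg]
        exact V.smul_mem _ hh
  have hsm : ∀ d, #↥(A d) < c := fun d => by
    induction d with
    | zero => exact hs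
    | succ d ih => exact small_Ext hc x y hO hs ih
  have hmem : ∀ v, v ∈ iSup A ↔ ∃ d, v ∈ A d := fun v =>
    Submodule.mem_iSup_of_directed _ hmono.directed_le
  refine ⟨iSup A, le_iSup A 0, ?_, ?_, ?_, ?_⟩
  · have := Submodule.coe_iSup_of_directed A hmono.directed_le
    change #((iSup A : Submodule ℚ E) : Set E) < c
    rw [this, card_iUnion_lt_iff_forall_of_isRegular hr (small_count hc)]
    exact hsm
  · intro t f hf
    choose! d hd using fun j hj => (hmem _).1 (hf j hj)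
    exact hJ (t.sup d) t f fun j hj => hmono (Finset.le_sup hj) (hd j hj)
  · intro o v hv
    obtain ⟨d, hd⟩ := (hmem _).1 hv
    exact (hmem _).2 ⟨d + 1, Ext_closed x y _ hV o _ (hmono (Nat.le_succ d) hd)⟩
  · intro v hv
    obtain ⟨d, hd⟩ := (hmem _).1 hv
    exact (hmem _).2 ⟨d + 1, mem_Ext x y V _ [] hd⟩

theorem kill {c : Cardinal} (hc : ℵ₀ < c)
    (π : J → K) {x : O → Module.End K E} {us : Module.End K E}
    {V : Submodule ℚ E} {N : Submodule K E} (hO : #O < c) (hs : #V < c) (hK : c ≤ #K)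
    (hD : Dj π V) (hVN : ∀ v ∈ V, v ∈ N)
    (hN : ∀ w, ∀ ξ ∈ N, xw x w ξ ∈ N) (hgen : ∀ m, Lam x us m ∈ N → m = 0)
    (hV : ∀ o, ∀ v ∈ V, x o v ∈ V) {e : E} (he : e ∈ V) (lam : E →ₗ[K] K)
    (hl : lam e = 1) (T : Module.End K E)
    (hT : ∀ a : List O →₀ K, ∃ b ∈ N, T b ∈ N ∧ T b ≠ (a.sum fun w r => r • xw x w) b) :
    ∃ V' : Submodule ℚ E, V ≤ V' ∧ #V' < c ∧ Jj π N V V' ∧ (∀ o, ∀ v ∈ V', x o v ∈ V') ∧
      ∃ y ∈ V', T y ∉ V' := by
  by_contra hcon
  have hU : ℚ ∙ e ≤ V := (Submodule.span_singleton_le_iff_mem _ _).2 he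
  let r : (List O →₀ E) → Module.End K E := fun P =>
    (P.mapRange lam (map_zero _)).sum fun w r => r • xw x w
  have key : ∀ b ∈ N, ∃ v ∈ V, ∃ P, T (us e + b) = v + Lam x us P + r P b := by
    intro b hb
    let Y : Module.End K E := us + lam.smulRight b
    have h1 : T (us e + b) ∈ Ext x Y V (ℚ ∙ e) := by
      by_contra h
      refine hcon ⟨Ext x Y V (ℚ ∙ e), le_Ext _ _ _ _, small_Ext hc _ _ hO hs
        (lt_of_le_of_lt (mk_le_mk_of_subset hU) hs), ?_, Ext_closed x Y _ hV, us e + b, ?_, h⟩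
      · refine Ext_J π (us := us) (Q := 1) hVN hN hgen (fun ξ => ?_) hV ?_
        · simpa [Y] using N.smul_mem _ hb
        · intro t P hP e j hj
          rw [hD t P (fun j hj => hU (hP j hj)) e j hj, map_zero]
          exact V.zero_mem
      · simpa [Y, hl] using mem_Ext x Y V (ℚ ∙ e) [] (Submodule.mem_span_singleton_self e)
    obtain ⟨v, hv, P, -, h2⟩ := Ext_rep h1
    refine ⟨v, hv, P, ?_⟩
    rw [h2, add_assoc]
    congr 1
    simp only [r]
    rw [Finsupp.sum_mapRange_index (by simp)]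
    simp [Lam_apply, Y, Finsupp.sum, LinearMap.sum_apply, Finset.sum_add_distrib]
  have hr : ∀ P, ∀ b ∈ N, r P b ∈ N := by
    intro P b hb
    simp only [r, Finsupp.sum, LinearMap.sum_apply, LinearMap.smul_apply]
    exact N.sum_mem fun w _ => N.smul_mem _ (hN _ _ hb)
  obtain ⟨v0, hv0, P0, h0⟩ := key 0 N.zero_mem
  rw [add_zero, map_zero, add_zero] at h0
  obtain ⟨b, hb, hTb, hne⟩ := hT (P0.mapRange lam (map_zero _))
  have h3 : ∀ a : K, a • (T b - r P0 b) ∈ V := by
    intro a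
    obtain ⟨v, hv, P, h⟩ := key (a • b) (N.smul_mem a hb)
    rw [map_add, h0, map_smul, map_smul] at h
    have h4 : P - P0 = 0 := by
      apply hgen
      have : Lam x us (P - P0) = v0 - v + a • T b - a • r P b := by
        rw [map_sub]; linear_combination (norm := abel1) -h
      rw [this]
      exact sub_mem (add_mem (sub_mem (hVN _ hv0) (hVN _ hv)) (N.smul_mem _ hTb))
        (N.smul_mem _ (hr _ _ hb))
    rw [sub_eq_zero.1 h4] at h
    have : a • (T b - r P0 b) = v - v0 := by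
      rw [smul_sub]; linear_combination (norm := abel1) h
    rw [this]
    exact sub_mem hv hv0
  have h5 : #K ≤ #V := mk_le_of_injective (f := fun a => ⟨_, h3 a⟩) fun a a' h =>
    smul_left_injective K (sub_ne_zero.2 hne) (congrArg Subtype.val h)
  exact absurd (hK.trans h5) (not_le.2 hs)

end Pool.Agent.H73.FullTrans
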