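import Mathlib
import Pool.Agent.H73.FullTrans2

set_option autoImplicit false

namespace Pool.Agent.H73.FullTrans

open Cardinal

/-- The ground field. -/
abbrev K : Type := ℚ_[2]
/-- The compact space. -/
abbrev X : Type := ℕ → ℤ_[2]
/-- The Banach space. -/
abbrev E : Type := C(X, K)
/-- The letters. -/
abbrev S : Type := Metric.ball (0 : K) 1

theorem S.norm_lt (s : S) : ‖(s : K)‖ < 1 := mem_ball_zero_iff.1 s.2

instance : IsBoundedSMul ℤ_[2] K :=
  .of_norm_smul_le fun a b => by rw [Algebra.smul_def, norm_mul]; rfl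

/-- The characters. -/
noncomputable def chi (s : S) : C(ℤ_[2], K) := PadicInt.mahlerSeries fun n => (s : K) ^ n

theorem chi_nat (s : S) (n : ℕ) : chi s n = ((s : K) + 1) ^ n := by
  rw [chi, PadicInt.mahlerSeries_apply_nat
    (tendsto_pow_atTop_nhds_zero_of_norm_lt_one s.norm_lt) le_rfl, add_pow]
  refine Finset.sum_congr rfl fun i _ => ?_
  rw [one_pow, mul_one, nsmul_eq_mul, mul_comm]

theorem chi_le (s : S) (a : ℤ_[2]) : ‖chi s a‖ ≤ 1 := by
  refine PadicInt.denseRange_natCast.induction_on (p := fun a => ‖chi s a‖ ≤ 1) a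
    (isClosed_le (by fun_prop) continuous_const) fun n => ?_
  rw [chi_nat, norm_pow]
  refine pow_le_one₀ (norm_nonneg _) ((IsUltrametricDist.norm_add_le_max _ _).trans ?_)
  exact max_le s.norm_lt.le norm_one.le

/-- The basic operators. -/
noncomputable def u (s : S) : Module.End K E where
  toFun ξ := ⟨fun x => chi s (x 0) * ξ fun n => x (n + 1), by fun_prop⟩
  map_add' ξ η := by ext; simp [mul_add]
  map_smul' c ξ := by ext; simp [mul_left_comm]

theorem u_apply (s : S) (ξ : E) (x : X) : u s ξ x = chi s (x 0) * ξ fun n => x (n + 1) := rfl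

theorem u_le (s : S) (ξ : E) : ‖u s ξ‖ ≤ ‖ξ‖ := by
  rw [ContinuousMap.norm_le _ (norm_nonneg _)]
  intro x
  rw [u_apply, norm_mul]
  exact (mul_le_of_le_one_left (norm_nonneg _) (chi_le _ _)).trans (ξ.norm_coe_le_norm _)

theorem exists_tau : ∃ τ : S → Module.End K E, (∀ s m, τ s (u s m) = m) ∧
    ∀ s s' m, s ≠ s' → τ s (u s' m) = 0 := by
  classical
  let L : (S →₀ E) →ₗ[K] E := Finsupp.lsum K u
  have hL : LinearMap.ker L = ⊥ := by
    rw [LinearMap.ker_eq_bot']
    intro m hm
    ext s x
    have hli : LinearIndependent K fun s : S => fun n : Multiplicative ℕ =>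
        ((s : K) + 1) ^ n.toAdd :=
      (linearIndependent_monoidHom (Multiplicative ℕ) K).comp
        (fun s : S => powersHom K ((s : K) + 1)) fun s s' h =>
          Subtype.ext (add_right_cancel ((powersHom K).injective h))
    by_cases hs : s ∈ m.support
    · refine linearIndependent_iff'.1 hli m.support (fun s => m s x) ?_ s hs
      ext n
      have := congrArg (fun ξ : E => ξ fun k => Nat.casesOn k (n.toAdd : ℤ_[2]) x) hm
      simp only [L, Finsupp.coe_lsum, Finsupp.sum, ContinuousMap.coe_sum, Finset.sum_apply,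
        u_apply, ContinuousMap.zero_apply] at this
      simpa [chi_nat, mul_comm] using this
    · simp [Finsupp.notMem_support_iff.1 hs]
  obtain ⟨g, hg⟩ := L.exists_leftInverse_of_injective hL
  have h : ∀ s m, g (u s m) = Finsupp.single s m := fun s m => by
    simpa [L] using LinearMap.congr_fun hg (Finsupp.single s m)
  refine ⟨fun s => Finsupp.lapply s ∘ₗ g, fun s m => by simp [h], fun s s' m hs => ?_⟩
  simp [h, Finsupp.single_eq_of_ne hs]

theorem exists_lam {g : E} (hg : g ≠ 0) : ∃ lam : E →ₗ[K] K, lam g = 1 ∧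
    (∀ ξ, ‖lam ξ‖ * ‖g‖ ≤ ‖ξ‖) ∧ ∃ k : ℤ, ‖g‖ = 2 ^ (-k) := by
  obtain ⟨x, -, hx⟩ := isCompact_univ.exists_isMaxOn Set.univ_nonempty
    (f := fun x => ‖g x‖) (by fun_prop)
  have h1 : ‖g‖ = ‖g x‖ := le_antisymm ((g.norm_le (norm_nonneg _)).2 fun y => hx trivial)
    (g.norm_coe_le_norm x)
  have h2 : g x ≠ 0 := fun h => hg (by rw [← norm_eq_zero, h1, h, norm_zero])
  refine ⟨(g x)⁻¹ • (ContinuousMap.evalCLM K x).toLinearMap, by simp [h2], fun ξ => ?_,
    (g x).valuation, by rw [h1, Padic.norm_eq_zpow_neg_valuation h2]; rfl⟩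
  have : ‖g x‖ ≠ 0 := norm_ne_zero_iff.2 h2
  simp only [LinearMap.smul_apply, ContinuousLinearMap.coe_coe, ContinuousMap.evalCLM_apply,
    norm_smul, norm_inv, h1]
  rw [mul_right_comm, inv_mul_cancel₀ this, one_mul]
  exact ξ.norm_coe_le_norm x

theorem le_S : 𝔠 ≤ #S := by
  simpa using continuum_le_cardinal_of_isOpen K (Metric.isOpen_ball (x := (0 : K)) (ε := 1))
    ⟨0, by simp⟩

theorem le_K : 𝔠 ≤ #K := le_S.trans (mk_subtype_le _)

theorem cont_le {A B : Type} [TopologicalSpace A] [TopologicalSpace.SeparableSpace A] [Nonempty A]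
    [TopologicalSpace B] [T2Space B] (hB : #B ≤ 𝔠) : #C(A, B) ≤ 𝔠 := by
  have : #C(A, B) ≤ #(ℕ → B) := mk_le_of_injective
    (f := fun f n => f (TopologicalSpace.denseSeq A n)) fun f g h => DFunLike.coe_injective
      ((TopologicalSpace.denseRange_denseSeq A).equalizer f.continuous g.continuous h)
  refine this.trans ?_
  rw [← power_def, mk_nat]
  exact (power_le_power_right hB).trans continuum_power_aleph0.le

theorem K_le : #K ≤ 𝔠 := by
  have : #K ≤ #(ℕ → ℚ) := (mk_quotient_le).trans (mk_subtype_le _)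
  simpa using this

theorem E_le : #E ≤ 𝔠 := cont_le K_le

theorem L_le : #(E →L[K] E) ≤ 𝔠 :=
  (mk_le_of_injective (f := fun T : E →L[K] E => (T : C(E, E))) fun _ _ h =>
    ContinuousLinearMap.ext fun ξ => DFunLike.congr_fun h ξ).trans (cont_le E_le)

theorem closure_smul (V : Submodule ℚ E) (c : K) {ξ : E} (h : ξ ∈ V.topologicalClosure) :
    c • ξ ∈ V.topologicalClosure :=
  (Padic.denseRange_ratCast 2).induction_on (p := fun c => c • ξ ∈ V.topologicalClosure) c
    (V.isClosed_topologicalClosure.preimage (f := fun c : K => c • ξ) (by fun_prop))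
    fun q => by rw [Rat.cast_smul_eq_qsmul]; exact Submodule.smul_mem _ _ h

theorem exists_base {J : Type} (π : Module.Basis J ℚ K) :
    ∃ V : Submodule ℚ E, #V ≤ ℵ₀ ∧ Dj π V ∧ Dense (V : Set E) := by
  obtain ⟨B, hB, hsp, hli⟩ := exists_linearIndependent K (Set.range (TopologicalSpace.denseSeq E))
  refine ⟨Submodule.span ℚ B, ?_, ?_, ?_⟩
  · refine Order.lt_succ_iff.1 (small_span (Order.lt_succ _) ?_)
    exact Order.lt_succ_iff.2 ((mk_le_mk_of_subset hB).trans (mk_range_le.trans mk_nat.le))
  · intro t f hf h0 j hj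
    choose! q hq using fun j hj =>
      (Finsupp.mem_span_iff_linearCombination ℚ B _).1 (hf j hj)
    have h1 : ∑ j ∈ t, π j • (q j).mapRange (algebraMap ℚ K) (map_zero _) = 0 := by
      apply linearIndependent_iff.1 hli
      rw [map_sum, ← h0]
      refine Finset.sum_congr rfl fun i hi => ?_
      rw [map_smul, ← hq i hi, Finsupp.linearCombination_apply, Finsupp.linearCombination_apply,
        Finsupp.sum_mapRange_index (by simp)]
      simp only [algebraMap_smul]
    have h2 : q j = 0 := by
      ext b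
      refine linearIndependent_iff'.1 π.linearIndependent t (fun j => q j b) ?_ j hj
      have := DFunLike.congr_fun h1 b
      simpa [Finsupp.finsetSum_apply, Rat.smul_def, mul_comm] using this
    rw [← hq j hj, h2, map_zero]
  · have h1 : ∀ ξ ∈ Submodule.span K B, ξ ∈ (Submodule.span ℚ B).topologicalClosure := by
      intro ξ hξ
      induction hξ using Submodule.span_induction with
      | mem b hb => exact Submodule.le_topologicalClosure _ (Submodule.subset_span hb)
      | zero => exact zero_mem _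
      | add a b _ _ ha hb => exact add_mem ha hb
      | smul c a _ ha => exact closure_smul _ c ha
    rw [← dense_closure]
    refine (TopologicalSpace.denseRange_denseSeq E).mono fun ξ hξ => h1 ξ ?_
    rw [hsp]
    exact Submodule.subset_span hξ

end Pool.Agent.H73.FullTrans
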