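import Mathlib
import Pool.Agent.H73.FullTrans3

set_option autoImplicit false

namespace Pool.Agent.H73.FullTrans

open Cardinal

/-- States of the construction. -/
structure St where
  O : Set (S × Module.End K E)
  V : Submodule ℚ E
  Z : Set E

/-- Extension of states. -/
def St.le (σ σ' : St) : Prop := σ.O ⊆ σ'.O ∧ σ.V ≤ σ'.V ∧ σ.Z ⊆ σ'.Z

theorem St.le.trans {σ σ' σ'' : St} (h : σ.le σ') (h' : σ'.le σ'') : σ.le σ'' :=
  ⟨h.1.trans h'.1, h.2.1.trans h'.2.1, h.2.2.trans h'.2.2⟩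

theorem St.le_refl (σ : St) : σ.le σ := ⟨subset_rfl, le_rfl, subset_rfl⟩

/-- The basis of the ground field over the rationals. -/
noncomputable abbrev bas := Module.Basis.ofVectorSpace ℚ K

instance : Nonempty (Module.Basis.ofVectorSpaceIndex ℚ K) := bas.index_nonempty

/-- Good states. -/
structure Good (c : Cardinal) (σ : St) : Prop where
  sO : #σ.O < c
  sV : #σ.V < c
  sZ : #σ.Z < c
  inj : Set.InjOn Prod.fst σ.O
  rk : ∀ o ∈ σ.O, ∃ k, ∀ ξ, o.2 ξ - u o.1 ξ ∈ K ∙ k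
  nm : ∀ o ∈ σ.O, ∀ ξ, ‖o.2 ξ‖ ≤ ‖ξ‖
  cl : ∀ o ∈ σ.O, ∀ v ∈ σ.V, o.2 v ∈ σ.V
  dj : Dj bas σ.V
  av : ∀ z ∈ σ.Z, z ∉ σ.V
  de : Dense (σ.V : Set E)

theorem Good.generic {c : Cardinal} {σ : St} (h : Good c σ) (hc : c ≤ 𝔠) (B : Set E)
    (hB : #B < 𝔠) : ∃ (N : Submodule K E) (s : S), (∀ o ∈ σ.O, o.1 ≠ s) ∧ B ⊆ N ∧
      (∀ w, ∀ ξ ∈ N, xw (fun o : σ.O => o.1.2) w ξ ∈ N) ∧
      ∀ m, Lam (fun o : σ.O => o.1.2) (u s) m ∈ N → m = 0 := by
  obtain ⟨τ, h1, h0⟩ := exists_tau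
  choose k hk using fun o : σ.O => h.rk o o.2
  obtain ⟨N, s, hs, h2⟩ := exists_generic u τ h1 h0 le_S (fun o : σ.O => o.1.1)
    (fun o o' e => Subtype.ext (h.inj o.2 o'.2 e)) (h.sO.trans_le hc) (fun o => o.1.2) k hk B hB
  exact ⟨N, s, fun o ho e => hs ⟨⟨o, ho⟩, e⟩, h2⟩

theorem Good.stX {c : Cardinal} {σ : St} (H : Good c σ) (hc : c ≤ 𝔠) (hc0 : ℵ₀ < c)
    (hr : c.IsRegular) {g h : E} (hg : g ∈ σ.V) (hh : h ∈ σ.V) (h0 : g ≠ 0) (hn : ‖h‖ ≤ ‖g‖) :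
    ∃ σ', Good c σ' ∧ σ.le σ' ∧ ∃ o ∈ σ'.O, o.2 g = h := by
  obtain ⟨N, s, hs, hB, hN, hgen⟩ := H.generic hc ((σ.V : Set E) ∪ σ.Z)
    ((small_union hc0 H.sV H.sZ).trans_le hc)
  obtain ⟨lam, hl, hl2, -⟩ := exists_lam h0
  let y : Module.End K E := u s + lam.smulRight (h - u s g)
  have hy : ∀ ξ, y ξ = u s (ξ - lam ξ • g) + lam ξ • h := fun ξ => by
    simp only [y, LinearMap.add_apply, LinearMap.smulRight_apply, map_sub, map_smul, smul_sub]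
    abel
  obtain ⟨V', h1, h2, h3, h4, h5⟩ := stepX hc0 hr bas H.sO H.sV H.dj
    (fun v hv => hB (Or.inl hv)) hN hgen (fun o => H.cl o o.2) hg hh lam hl hy
  refine ⟨⟨insert (s, y) σ.O, V', σ.Z⟩, ⟨small_insert hc0 _ H.sO, h2, H.sZ, ?_, ?_, ?_, ?_,
    h3.dj H.dj, fun z hz hz' => H.av z hz (h3.mem hz' (hB (Or.inr hz))), H.de.mono h1⟩,
    ⟨Set.subset_insert _ _, h1, subset_rfl⟩, (s, y), Set.mem_insert _ _, by simp [hy, hl]⟩
  · rintro o (rfl | ho) o' (rfl | ho') e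
    · rfl
    · exact absurd e.symm (hs _ ho')
    · exact absurd e (hs _ ho)
    · exact H.inj ho ho' e
  · rintro o (rfl | ho)
    · exact ⟨h - u s g, fun ξ => by
        simpa [y] using Submodule.smul_mem _ _ (Submodule.mem_span_singleton_self _)⟩
    · exact H.rk o ho
  · rintro o (rfl | ho) ξ
    · change ‖y ξ‖ ≤ _
      rw [hy]
      refine (IsUltrametricDist.norm_add_le_max _ _).trans (max_le ((u_le _ _).trans ?_) ?_)
      · rw [sub_eq_add_neg]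
        refine (IsUltrametricDist.norm_add_le_max _ _).trans (max_le le_rfl ?_)
        rw [norm_neg, norm_smul]
        exact hl2 ξ
      · rw [norm_smul]
        exact (mul_le_mul_of_nonneg_left hn (norm_nonneg _)).trans (hl2 ξ)
    · exact H.nm o ho ξ
  · rintro o (rfl | ho)
    · exact h5
    · exact h4 ⟨o, ho⟩

theorem xw_cont {O : Type} {x : O → Module.End K E} (h : ∀ o ξ, ‖x o ξ‖ ≤ ‖ξ‖) (w : List O) :
    Continuous (xw x w) := by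
  induction w with
  | nil => exact continuous_id
  | cons a w ih =>
    rw [xw_cons]
    exact (AddMonoidHomClass.continuous_of_bound (x a) 1 fun ξ => by simpa using h a ξ).comp ih

theorem Good.stK1 {c : Cardinal} {σ : St} (H : Good c σ) (hc : c ≤ 𝔠) (hc0 : ℵ₀ < c)
    (T : E →L[K] E) (hT : ∀ a : List σ.O →₀ K,
      (T : Module.End K E) ≠ a.sum fun w r => r • xw (fun o : σ.O => o.1.2) w) :
    ∃ σ', Good c σ' ∧ σ.le σ' ∧ ∃ y ∈ σ'.V, T y ∈ σ'.Z := by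
  obtain ⟨N, s, hs, hB, hN, hgen⟩ := H.generic hc (((σ.V : Set E) ∪ σ.Z) ∪ T '' σ.V)
    ((small_union hc0 (small_union hc0 H.sV H.sZ) (mk_image_le.trans_lt H.sV)).trans_le hc)
  obtain ⟨e, he, he0⟩ : ∃ e ∈ σ.V, e ≠ 0 := by
    obtain ⟨e, he, he0⟩ := H.de.exists_mem_open isOpen_compl_singleton
      (⟨1, one_ne_zero⟩ : ({0}ᶜ : Set E).Nonempty)
    exact ⟨e, he, he0⟩
  obtain ⟨lam, hl, -⟩ := exists_lam he0
  obtain ⟨V', h1, h2, h3, h4, y, hy, hy'⟩ := kill hc0 bas H.sO H.sV (hc.trans le_K) H.dj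
    (fun v hv => hB (Or.inl (Or.inl hv))) hN hgen (fun o => H.cl o o.2) he lam hl T (by
      intro a
      by_contra hcon
      push Not at hcon
      refine hT a (LinearMap.ext (congrFun (Continuous.ext_on H.de T.continuous ?_ ?_)))
      · simp only [Finsupp.sum, LinearMap.coe_sum, LinearMap.coe_smul]
        refine (continuous_finsetSum a.support (f := fun w ξ =>
          a w • xw (fun o : σ.O => o.1.2) w ξ) fun w _ => ?_).congr fun ξ => by simp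
        exact (xw_cont (fun o : σ.O => H.nm o o.2) w).const_smul (a w)
      · exact fun b hb => hcon b (hB (Or.inl (Or.inl hb))) (hB (Or.inr ⟨b, hb, rfl⟩)))
  refine ⟨⟨σ.O, V', insert (T y) σ.Z⟩, ⟨H.sO, h2, small_insert hc0 _ H.sZ, H.inj, H.rk, H.nm,
    fun o ho => h4 ⟨o, ho⟩, h3.dj H.dj, ?_, H.de.mono h1⟩,
    ⟨subset_rfl, h1, Set.subset_insert _ _⟩, y, hy, Set.mem_insert _ _⟩
  rintro z (rfl | hz) hz'
  · exact hy' hz'
  · exact H.av z hz (h3.mem hz' (hB (Or.inl (Or.inr hz))))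

theorem Good.stK {c : Cardinal} {σ : St} (H : Good c σ) (hc : c ≤ 𝔠) (hc0 : ℵ₀ < c)
    (T T' : E →L[K] E) (h1 : ∀ ξ, T (T' ξ) = ξ) (h2 : ∀ a : K, ∃ ξ, T ξ ≠ a • ξ) :
    ∃ σ', Good c σ' ∧ σ.le σ' ∧ ∃ y ∈ σ'.V, T y ∈ σ'.Z ∨ T' y ∈ σ'.Z := by
  by_cases hT : ∀ a : List σ.O →₀ K,
      (T : Module.End K E) ≠ a.sum fun w r => r • xw (fun o : σ.O => o.1.2) w
  · obtain ⟨σ', k1, k2, y, k3, k4⟩ := H.stK1 hc hc0 T hT
    exact ⟨σ', k1, k2, y, k3, Or.inl k4⟩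
  by_cases hT' : ∀ a : List σ.O →₀ K,
      (T' : Module.End K E) ≠ a.sum fun w r => r • xw (fun o : σ.O => o.1.2) w
  · obtain ⟨σ', k1, k2, y, k3, k4⟩ := H.stK1 hc hc0 T' hT'
    exact ⟨σ', k1, k2, y, k3, Or.inr k4⟩
  push Not at hT hT'
  obtain ⟨a, ha⟩ := hT
  obtain ⟨a', ha'⟩ := hT'
  obtain ⟨N, s, -, -, -, hgen⟩ := H.generic hc ∅ (by simpa using continuum_pos)
  obtain ⟨r, hr⟩ := units_scalar _ (u s) (1 : E) one_ne_zero
    (fun m hm => hgen m (by rw [hm]; exact N.zero_mem)) a a' (by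
      rw [← ha, ← ha']; exact LinearMap.ext h1)
  obtain ⟨ξ, hξ⟩ := h2 r
  exact absurd (LinearMap.congr_fun (ha.trans hr) ξ) hξ

theorem exists_ub {ι : Type} [LinearOrder ι] [Nonempty ι] {c : Cardinal} (hr : c.IsRegular)
    (hι : #ι < c) (f : ι → St) (hf : ∀ i, Good c (f i)) (hm : ∀ i j, i ≤ j → (f i).le (f j)) :
    ∃ σ, Good c σ ∧ ∀ i, (f i).le σ := by
  have hd : Directed (· ≤ ·) fun i => (f i).V :=
    Monotone.directed_le fun i j h => (hm i j h).2.1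
  have hmem : ∀ v, v ∈ ⨆ i, (f i).V ↔ ∃ i, v ∈ (f i).V := fun v =>
    Submodule.mem_iSup_of_directed _ hd
  refine ⟨⟨⋃ i, (f i).O, ⨆ i, (f i).V, ⋃ i, (f i).Z⟩, ⟨?_, ?_, ?_, ?_, ?_, ?_, ?_, ?_, ?_, ?_⟩,
    fun i => ⟨Set.subset_iUnion (fun i => (f i).O) i, le_iSup (fun i => (f i).V) i,
      Set.subset_iUnion (fun i => (f i).Z) i⟩⟩
  · exact (card_iUnion_lt_iff_forall_of_isRegular hr hι).2 fun i => (hf i).sO
  · have := Submodule.coe_iSup_of_directed _ hd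
    change #((⨆ i, (f i).V : Submodule ℚ E) : Set E) < c
    rw [this, card_iUnion_lt_iff_forall_of_isRegular hr hι]
    exact fun i => (hf i).sV
  · exact (card_iUnion_lt_iff_forall_of_isRegular hr hι).2 fun i => (hf i).sZ
  · intro o ho o' ho' e
    obtain ⟨i, hi⟩ := Set.mem_iUnion.1 ho
    obtain ⟨j, hj⟩ := Set.mem_iUnion.1 ho'
    exact (hf (max i j)).inj ((hm _ _ (le_max_left _ _)).1 hi) ((hm _ _ (le_max_right _ _)).1 hj) e
  · intro o ho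
    obtain ⟨i, hi⟩ := Set.mem_iUnion.1 ho
    exact (hf i).rk o hi
  · intro o ho
    obtain ⟨i, hi⟩ := Set.mem_iUnion.1 ho
    exact (hf i).nm o hi
  · intro o ho v hv
    obtain ⟨i, hi⟩ := Set.mem_iUnion.1 ho
    obtain ⟨j, hj⟩ := (hmem v).1 hv
    exact (hmem _).2 ⟨max i j, (hf _).cl o ((hm _ _ (le_max_left _ _)).1 hi) v
      ((hm _ _ (le_max_right _ _)).2.1 hj)⟩
  · intro t g hg h0 j hj
    choose! d hd using fun j hj => (hmem _).1 (hg j hj)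
    obtain ⟨i, -, hi⟩ := t.exists_max_image d ⟨j, hj⟩
    exact (hf (d i)).dj t g (fun k hk => (hm _ _ (hi k hk)).2.1 (hd k hk)) h0 j hj
  · intro z hz hv
    obtain ⟨i, hi⟩ := Set.mem_iUnion.1 hz
    obtain ⟨j, hj⟩ := (hmem z).1 hv
    exact (hf (max i j)).av z ((hm _ _ (le_max_left _ _)).2.2 hi)
      ((hm _ _ (le_max_right _ _)).2.1 hj)
  · obtain ⟨i⟩ := ‹Nonempty ι›
    exact (hf i).de.mono (le_iSup (fun i => (f i).V) i)

open RigidReals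

theorem exists_rec {A : Type} [Nonempty A] (R : ∀ a : W, (Set.Iio a → A) → A → Prop)
    (step : ∀ (a : W) (f : W → A), (∀ b < a, R b (fun c => f c) (f b)) →
      ∃ σ, R a (fun c => f c) σ) : ∃ f : W → A, ∀ a, R a (fun c => f c) (f a) := by
  let f : W → A := (wellFounded_lt (α := W)).fix fun a rec =>
    Classical.epsilon (R a fun c => rec c.1 c.2)
  have hf : ∀ a, f a = Classical.epsilon (R a fun c => f c) := fun a =>
    (wellFounded_lt (α := W)).fix_eq _ a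
  refine ⟨f, fun a => ?_⟩
  induction a using WellFoundedLT.induction with
  | ind a ih => rw [hf]; exact Classical.epsilon_spec (step a f ih)

theorem exists_enum {A : Type} [Nonempty A] (hA : #A ≤ 𝔠) :
    ∃ en : W → A, ∀ t b, ∃ a, b < a ∧ en a = t := by
  have hne : Nonempty W := mk_ne_zero_iff.1 (by rw [mk_W]; exact continuum_ne_zero)
  have hle : #(A × W) ≤ #W := by
    rw [mk_prod, lift_id, lift_id, mk_W]
    exact (mul_le_mul_left hA _).trans continuum_mul_self.le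
  obtain ⟨j⟩ := (le_def _ _).1 hle
  refine ⟨fun a => (Function.invFun j a).1, fun t b => ?_⟩
  by_contra hcon
  push Not at hcon
  have h1 : #W ≤ #(Set.Iic b) := mk_le_of_injective
    (f := fun a => ⟨j (t, a), not_lt.1 fun h => hcon _ h (by
      rw [Function.leftInverse_invFun j.injective])⟩) fun a a' h =>
      congrArg Prod.snd (j.injective (congrArg Subtype.val h))
  rw [mk_W, ← Set.Iio_insert] at h1
  exact absurd h1 (not_le.2 (small_insert aleph0_lt_continuum _ (mk_Iio_W b)))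

/-- The cardinal bound at a stage. -/
noncomputable def bd (a : W) : Cardinal := Order.succ (max #(Set.Iio a) ℵ₀)

theorem exists_chain : ∃ f : W → St, (∀ a, Good 𝔠 (f a)) ∧ (∀ a b, a ≤ b → (f a).le (f b)) ∧
    (∀ a, ∀ g ∈ (f a).V, ∀ h ∈ (f a).V, g ≠ 0 → ‖h‖ ≤ ‖g‖ → ∃ b, ∃ o ∈ (f b).O, o.2 g = h) ∧
    ∀ T T' : E →L[K] E, (∀ ξ, T (T' ξ) = ξ) → (∀ a : K, ∃ ξ, T ξ ≠ a • ξ) →
      ∃ b, ∃ y ∈ (f b).V, T y ∈ (f b).Z ∨ T' y ∈ (f b).Z := by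
  obtain ⟨en, hen⟩ := exists_enum (A := (E × E) × (E →L[K] E) × (E →L[K] E)) (by
    simp only [mk_prod, lift_id]
    refine le_trans (mul_le_mul' (mul_le_mul' E_le E_le) (mul_le_mul' L_le L_le)) (by simp))
  have b1 : ∀ a, bd a ≤ 𝔠 := fun a =>
    Order.succ_le_of_lt (max_lt (mk_Iio_W a) aleph0_lt_continuum)
  have b2 : ∀ a, ℵ₀ < bd a := fun a => Order.lt_succ_of_le (le_max_right _ _)
  have b3 : ∀ a, (bd a).IsRegular := fun a => isRegular_succ (le_max_right _ _)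
  have b4 : ∀ a b, a ≤ b → bd a ≤ bd b := fun a b h => Order.succ_le_succ
    (max_le_max_right _ (mk_le_mk_of_subset (Set.Iio_subset_Iio h)))
  have up : ∀ {c c' : Cardinal} {σ : St}, Good c σ → c ≤ c' → Good c' σ := fun h hc =>
    ⟨h.sO.trans_le hc, h.sV.trans_le hc, h.sZ.trans_le hc, h.inj, h.rk, h.nm, h.cl, h.dj,
      h.av, h.de⟩
  have : Nonempty St := ⟨⟨∅, ⊥, ∅⟩⟩
  obtain ⟨f, hf⟩ := exists_rec (A := St) (fun a φ σ => Good (bd a) σ ∧ (∀ b, (φ b).le σ) ∧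
    ((∃ b, (en a).1.1 ∈ (φ b).V ∧ (en a).1.2 ∈ (φ b).V) → (en a).1.1 ≠ 0 →
      ‖(en a).1.2‖ ≤ ‖(en a).1.1‖ → ∃ o ∈ σ.O, o.2 (en a).1.1 = (en a).1.2) ∧
    ((∀ ξ, (en a).2.1 ((en a).2.2 ξ) = ξ) → (∀ r : K, ∃ ξ, (en a).2.1 ξ ≠ r • ξ) →
      ∃ y ∈ σ.V, (en a).2.1 y ∈ σ.Z ∨ (en a).2.2 y ∈ σ.Z)) (by
    intro a f ih
    obtain ⟨σ, g1, l1⟩ : ∃ σ, Good (bd a) σ ∧ ∀ b : Set.Iio a, (f b).le σ := by
      rcases isEmpty_or_nonempty (Set.Iio a) with h | h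
      · obtain ⟨V, h1, h2, h3⟩ := exists_base bas
        have h0 : (0 : Cardinal) < bd a := (b3 a).pos
        exact ⟨⟨∅, V, ∅⟩, ⟨by simpa using h0, h1.trans_lt (b2 a), by simpa using h0, by simp,
          by simp, by simp, by simp, h2, by simp, h3⟩, fun b => h.elim b⟩
      · refine exists_ub (b3 a) (Order.lt_succ_of_le (le_max_left _ _)) (fun b : Set.Iio a => f b)
          (fun b => up (ih b b.2).1 (b4 _ _ b.2.le)) fun i j hij => ?_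
        rcases hij.eq_or_lt with rfl | h
        · exact St.le_refl _
        · exact (ih j j.2).2.1 ⟨i, h⟩
    obtain ⟨σ', g2, l2, p2⟩ : ∃ σ', Good (bd a) σ' ∧ σ.le σ' ∧
        ((∃ b : Set.Iio a, (en a).1.1 ∈ (f b).V ∧ (en a).1.2 ∈ (f b).V) → (en a).1.1 ≠ 0 →
        ‖(en a).1.2‖ ≤ ‖(en a).1.1‖ → ∃ o ∈ σ'.O, o.2 (en a).1.1 = (en a).1.2) := by
      by_contra hcon
      push Not at hcon
      obtain ⟨⟨b, k1, k2⟩, k3, k4, -⟩ := hcon σ g1 (St.le_refl _)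
      obtain ⟨σ', m1, m2, o, m3, m4⟩ := g1.stX (b1 a) (b2 a) (b3 a) ((l1 b).2.1 k1)
        ((l1 b).2.1 k2) k3 k4
      exact (hcon σ' m1 m2).2.2.2 o m3 m4
    obtain ⟨σ'', g3, l3, p3⟩ : ∃ σ'', Good (bd a) σ'' ∧ σ'.le σ'' ∧
        ((∀ ξ, (en a).2.1 ((en a).2.2 ξ) = ξ) → (∀ r : K, ∃ ξ, (en a).2.1 ξ ≠ r • ξ) →
        ∃ y ∈ σ''.V, (en a).2.1 y ∈ σ''.Z ∨ (en a).2.2 y ∈ σ''.Z) := by
      by_cases h : (∀ ξ, (en a).2.1 ((en a).2.2 ξ) = ξ) ∧ ∀ r : K, ∃ ξ, (en a).2.1 ξ ≠ r • ξ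
      · obtain ⟨σ'', m1, m2, m3⟩ := g2.stK (b1 a) (b2 a) _ _ h.1 h.2
        exact ⟨σ'', m1, m2, fun _ _ => m3⟩
      · exact ⟨σ', g2, St.le_refl _, fun h1 h2 => absurd ⟨h1, h2⟩ h⟩
    refine ⟨σ'', g3, fun b => ((l1 b).trans l2).trans l3, fun h1 h2 h3 => ?_, p3⟩
    obtain ⟨o, ho, ho'⟩ := p2 h1 h2 h3
    exact ⟨o, l3.1 ho, ho'⟩)
  refine ⟨f, fun a => up (hf a).1 (b1 a), fun a b h => ?_, fun a g hg h hh h0 hn => ?_,
    fun T T' h1 h2 => ?_⟩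
  · rcases h.eq_or_lt with rfl | h
    · exact St.le_refl _
    · exact (hf b).2.1 ⟨a, h⟩
  · obtain ⟨b, hb, e⟩ := hen ((g, h), 0, 0) a
    have := (hf b).2.2.1
    rw [e] at this
    exact ⟨b, this ⟨⟨a, hb⟩, hg, hh⟩ h0 hn⟩
  · have hne : Nonempty W := mk_ne_zero_iff.1 (by rw [mk_W]; exact continuum_ne_zero)
    obtain ⟨b, -, e⟩ := hen ((0, 0), T, T') (Classical.arbitrary W)
    have := (hf b).2.2.2
    rw [e] at this
    exact ⟨b, this h1 h2⟩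

end Pool.Agent.H73.FullTrans
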