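import Mathlib
import Pool.Agent.H73.FullTrans4

set_option autoImplicit false

namespace Pool.Agent.H73.FullTrans

open Cardinal

theorem exists_limit : ∃ V : Submodule ℚ E, Dense (V : Set E) ∧
    (∀ g ∈ V, ∀ h ∈ V, g ≠ 0 → ‖h‖ ≤ ‖g‖ → ∃ x : Module.End K E, x g = h ∧
      (∀ ξ, ‖x ξ‖ ≤ ‖ξ‖) ∧ ∀ v ∈ V, x v ∈ V) ∧
    ∀ T T' : E →L[K] E, (∀ ξ, T (T' ξ) = ξ) → (∀ a : K, ∃ ξ, T ξ ≠ a • ξ) →
      ∃ y ∈ V, T y ∉ V ∨ T' y ∉ V := by
  obtain ⟨f, hg, hm, h1, h2⟩ := exists_chain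
  have hne : Nonempty RigidReals.W :=
    mk_ne_zero_iff.1 (by rw [RigidReals.mk_W]; exact continuum_ne_zero)
  have hd : Directed (· ≤ ·) fun i => (f i).V :=
    Monotone.directed_le fun i j h => (hm i j h).2.1
  have hmem : ∀ v, v ∈ ⨆ i, (f i).V ↔ ∃ i, v ∈ (f i).V := fun v =>
    Submodule.mem_iSup_of_directed _ hd
  have hZ : ∀ b, ∀ z ∈ (f b).Z, z ∉ ⨆ i, (f i).V := by
    intro b z hz hv
    obtain ⟨j, hj⟩ := (hmem z).1 hv
    exact (hg (max b j)).av z ((hm _ _ (le_max_left _ _)).2.2 hz)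
      ((hm _ _ (le_max_right _ _)).2.1 hj)
  refine ⟨⨆ i, (f i).V, (hg (Classical.arbitrary _)).de.mono (le_iSup (fun i => (f i).V) _),
    fun g hg' h hh h0 hn => ?_, fun T T' k1 k2 => ?_⟩
  · obtain ⟨i, hi⟩ := (hmem _).1 hg'
    obtain ⟨j, hj⟩ := (hmem _).1 hh
    obtain ⟨b, o, ho, e⟩ := h1 (max i j) g ((hm _ _ (le_max_left _ _)).2.1 hi) h
      ((hm _ _ (le_max_right _ _)).2.1 hj) h0 hn
    refine ⟨o.2, e, (hg b).nm o ho, fun v hv => ?_⟩
    obtain ⟨k, hk⟩ := (hmem _).1 hv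
    exact (hmem _).2 ⟨max b k, (hg _).cl o ((hm _ _ (le_max_left _ _)).1 ho) v
      ((hm _ _ (le_max_right _ _)).2.1 hk)⟩
  · obtain ⟨b, y, hy, h⟩ := h2 T T' k1 k2
    exact ⟨y, (hmem _).2 ⟨b, hy⟩, h.imp (hZ b _) (hZ b _)⟩

/-- The group of small vectors. -/
def grp (V : Submodule ℚ E) : AddSubgroup E where
  carrier := {v | v ∈ V ∧ ‖v‖ ≤ 1}
  zero_mem' := ⟨V.zero_mem, by simp⟩
  add_mem' ha hb := ⟨add_mem ha.1 hb.1,
    (IsUltrametricDist.norm_add_le_max _ _).trans (max_le ha.2 hb.2)⟩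
  neg_mem' ha := ⟨neg_mem ha.1, by rw [norm_neg]; exact ha.2⟩

theorem norm_qsmul (q : ℚ) (v : E) : ‖q • v‖ = ‖(q : K)‖ * ‖v‖ := by
  rw [← Rat.cast_smul_eq_qsmul K, norm_smul]

theorem div_iff {V : Submodule ℚ E} (a : grp V) {n : ℕ} (hn : n ≠ 0) :
    (∃ y : grp V, n • y = a) ↔ ‖(a : E)‖ ≤ ‖(n : K)‖ := by
  have h0 : 0 < ‖(n : K)‖ := norm_pos_iff.2 (Nat.cast_ne_zero.2 hn)
  constructor
  · rintro ⟨y, rfl⟩
    rw [AddSubgroup.coe_nsmul, ← Nat.cast_smul_eq_nsmul K, norm_smul]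
    exact mul_le_of_le_one_right h0.le y.2.2
  · intro h
    refine ⟨⟨(n : ℚ)⁻¹ • (a : E), V.smul_mem _ a.2.1, ?_⟩, Subtype.ext ?_⟩
    · rw [norm_qsmul, Rat.cast_inv, Rat.cast_natCast, norm_inv]
      exact inv_mul_le_one_of_le₀ h h0.le
    · rw [AddSubgroup.coe_nsmul, ← Nat.cast_smul_eq_nsmul ℚ]
      exact smul_inv_smul₀ (Nat.cast_ne_zero.2 hn) _

theorem norm_two (k : ℤ) : ‖(((2 : ℚ) ^ k : ℚ) : K)‖ = 2 ^ (-k) := by
  simpa using Padic.norm_p_zpow (p := 2) k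

theorem exists_scale {v : E} (hv : v ≠ 0) : ∃ q : ℚ, q ≠ 0 ∧ ‖q • v‖ = 1 := by
  obtain ⟨-, -, -, k, hk⟩ := exists_lam hv
  refine ⟨2 ^ (-k), by positivity, ?_⟩
  rw [norm_qsmul, norm_two, hk, neg_neg, ← zpow_add₀ two_ne_zero]
  simp

theorem exists_ext {V : Submodule ℚ E} (hV : Dense (V : Set E)) (φ : grp V →+ grp V) :
    ∃ T : E →L[K] E, (∀ g : grp V, T g = φ g) ∧ ∀ v ∈ V, T v ∈ V := by
  let : DivisibleBy E ℤ := divisibleByOfSMulRightSurj E ℤ fun {n} hn a =>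
    ⟨(n : ℚ)⁻¹ • a, by
      change n • _ = _
      rw [← Int.cast_smul_eq_zsmul ℚ]
      exact smul_inv_smul₀ (Int.cast_ne_zero.2 hn) _⟩
  obtain ⟨ψ, hψ⟩ := (Module.Baer.of_divisible E).extension_property_addMonoidHom
    (grp V).subtype Subtype.val_injective ((grp V).subtype.comp φ)
  have h1 : ∀ g : grp V, ψ g = φ g := fun g => DFunLike.congr_fun hψ g
  have h2 : ∀ v ∈ V, ψ v ∈ V ∧ ‖ψ v‖ ≤ 1 * ‖v‖ := by
    intro v hv
    rcases eq_or_ne v 0 with rfl | h0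
    · simp
    obtain ⟨q, hq, hq1⟩ := exists_scale h0
    have h3 := h1 ⟨q • v, V.smul_mem _ hv, hq1.le⟩
    have h4 := (φ ⟨q • v, V.smul_mem _ hv, hq1.le⟩).2
    rw [← h3] at h4
    simp only [map_rat_smul] at h4
    refine ⟨(V.smul_mem_iff hq).1 h4.1, ?_⟩
    have h5 := h4.2
    rw [← hq1, norm_qsmul, norm_qsmul] at h5
    rw [one_mul]
    exact le_of_mul_le_mul_left h5 (norm_pos_iff.2 (Rat.cast_ne_zero.2 hq))
  let f : V →L[ℚ] E := ⟨ψ.toRatLinearMap ∘ₗ V.subtype,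
    AddMonoidHomClass.continuous_of_bound (ψ.toRatLinearMap ∘ₗ V.subtype) 1 fun v => (h2 v v.2).2⟩
  let T0 : E →L[ℚ] E := f.extend V.subtypeL
  have h6 : ∀ v : V, T0 v = ψ v := fun v =>
    f.extend_eq (e := V.subtypeL) hV.denseRange_val
      isUniformEmbedding_subtype_val.isUniformInducing v
  refine ⟨⟨⟨⟨T0, T0.map_add⟩, fun c ξ => ?_⟩, T0.continuous⟩, fun g => ?_, fun v hv => ?_⟩
  · refine (Padic.denseRange_ratCast 2).induction_on (p := fun c => T0 (c • ξ) = c • T0 ξ) c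
      (isClosed_eq (by fun_prop) (by fun_prop)) fun q => ?_
    rw [Rat.cast_smul_eq_qsmul, Rat.cast_smul_eq_qsmul, map_smul]
  · exact (h6 ⟨g, g.2.1⟩).trans (h1 g)
  · have := h6 ⟨v, hv⟩
    change T0 v ∈ V
    rw [this]
    exact (h2 v hv).1

theorem main :
    ∃ (G : Type) (_ : AddCommGroup G),
      (∀ (n : ℕ) (x : G), n ≠ 0 → n • x = 0 → x = 0) ∧
      (∀ a b : G, a ≠ 0 → b ≠ 0 → ∃ n : ℕ, n ≠ 0 ∧
        ∀ p : ℕ, p.Prime → ∀ k : ℕ,
          (∃ y : G, p ^ k • y = a) → ∃ y : G, p ^ k • y = n • b) ∧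
      (∀ a b : G, a ≠ 0 →
        (∀ p : ℕ, p.Prime → ∀ k : ℕ,
          (∃ y : G, p ^ k • y = a) → ∃ y : G, p ^ k • y = b) →
        ∃ f : G →+ G, f a = b) ∧
      ¬ (∀ a b : G, a ≠ 0 → b ≠ 0 →
        (∀ p : ℕ, p.Prime → ∀ k : ℕ,
          ((∃ y : G, p ^ k • y = a) ↔ ∃ y : G, p ^ k • y = b)) →
        ∃ f : G ≃+ G, f a = b) := by
  obtain ⟨V, hV, h1, h2⟩ := exists_limit
  have val : ∀ a : grp V, a ≠ 0 → ∃ k : ℕ, ‖(a : E)‖ = ‖((2 ^ k : ℕ) : K)‖ := by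
    intro a ha
    obtain ⟨-, -, -, k, hk⟩ := exists_lam (g := a) fun h => ha (Subtype.ext h)
    have h3 := a.2.2
    rw [hk, zpow_le_one_iff_right₀ _root_.one_lt_two] at h3
    obtain ⟨k, rfl⟩ := Int.eq_ofNat_of_zero_le (neg_nonpos.1 h3)
    exact ⟨k, by rw [hk]; simpa using (Padic.norm_p_pow (p := 2) k).symm⟩
  refine ⟨grp V, inferInstance, fun n x hn h => ?_, fun a b ha _ => ?_, fun a b ha h => ?_,
    fun h => ?_⟩
  · have := congrArg Subtype.val h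
    rw [AddSubgroup.coe_nsmul, ← Nat.cast_smul_eq_nsmul K] at this
    exact Subtype.ext ((smul_eq_zero.1 this).resolve_left (Nat.cast_ne_zero.2 hn))
  · obtain ⟨k, hk⟩ := val a ha
    refine ⟨2 ^ k, by positivity, fun p hp j hj => ?_⟩
    rw [div_iff _ (pow_ne_zero _ hp.ne_zero)] at hj ⊢
    refine le_trans ?_ hj
    rw [hk, ← div_iff _ (by positivity)]
    exact ⟨b, rfl⟩
  · obtain ⟨k, hk⟩ := val a ha
    have h3 := h 2 Nat.prime_two k ((div_iff _ (by positivity)).2 hk.le)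
    rw [div_iff _ (by positivity), ← hk] at h3
    obtain ⟨x, e, hx, hx'⟩ := h1 a a.2.1 b b.2.1 (fun h => ha (Subtype.ext h)) h3
    exact ⟨(x.toAddMonoidHom.comp (grp V).subtype).codRestrict (grp V) fun g =>
      ⟨hx' _ g.2.1, (hx _).trans g.2.2⟩, Subtype.ext e⟩
  · obtain ⟨e0, he0, he1⟩ := hV.exists_mem_open isOpen_compl_singleton
      (⟨1, one_ne_zero⟩ : ({0}ᶜ : Set E).Nonempty)
    obtain ⟨q0, hq0, hq1⟩ := exists_scale he1
    let a : grp V := ⟨q0 • e0, V.smul_mem _ he0, hq1.le⟩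
    have ha : ‖(a : E)‖ = 1 := hq1
    clear_value a
    have ne : ∀ b : grp V, ‖(b : E)‖ = 1 → b ≠ 0 := by
      rintro b hb rfl
      simp at hb
    have key : ∀ b : grp V, ‖(b : E)‖ = 1 → (b : E) ∈ K ∙ (a : E) := by
      intro b hb
      obtain ⟨φ, hφ⟩ := h a b (ne a ha) (ne b hb) fun p hp k => by
        rw [div_iff _ (pow_ne_zero _ hp.ne_zero), div_iff _ (pow_ne_zero _ hp.ne_zero), ha, hb]
      obtain ⟨T, t1, t2⟩ := exists_ext hV φ.toAddMonoidHom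
      obtain ⟨T', t1', t2'⟩ := exists_ext hV φ.symm.toAddMonoidHom
      by_contra hcon
      obtain ⟨y, hy, hy'⟩ := h2 T T' (by
        refine congrFun (Continuous.ext_on hV (T.continuous.comp T'.continuous) continuous_id
          fun v hv => ?_)
        rcases eq_or_ne v 0 with rfl | h0
        · simp
        obtain ⟨q, hq, hq1⟩ := exists_scale h0
        have h3 := t1' ⟨q • v, V.smul_mem _ hv, hq1.le⟩
        have h4 := t1 (φ.symm ⟨q • v, V.smul_mem _ hv, hq1.le⟩)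
        simp only [AddEquiv.toAddMonoidHom_eq_coe, AddMonoidHom.coe_coe,
          AddEquiv.apply_symm_apply] at h3 h4
        rw [← h3, map_rat_smul, map_rat_smul] at h4
        exact smul_right_injective E hq h4) (fun r => ⟨a, fun hr => hcon (by
          rw [← hφ]
          exact Submodule.mem_span_singleton.2 ⟨r, hr.symm.trans (t1 a)⟩)⟩)
      exact hy'.elim (fun k => k (t2 y hy)) fun k => k (t2' y hy)
    have all : ∀ ξ : E, ξ ∈ K ∙ (a : E) := by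
      intro ξ
      refine (K ∙ (a : E)).closed_of_finiteDimensional.closure_subset_iff.2
        (fun v hv => ?_) (hV ξ)
      rcases eq_or_ne v 0 with rfl | h0
      · exact zero_mem _
      obtain ⟨q, hq, hq1⟩ := exists_scale h0
      have := key ⟨q • v, V.smul_mem _ hv, hq1.le⟩ hq1
      change q • v ∈ _ at this
      rw [← Rat.cast_smul_eq_qsmul K] at this
      exact (Submodule.smul_mem_iff _ (Rat.cast_ne_zero.2 hq)).1 this
    obtain ⟨τ, τ1, τ0⟩ := exists_tau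
    have : Nontrivial S := Cardinal.one_lt_iff_nontrivial.1
      ((one_lt_aleph0.trans aleph0_lt_continuum).trans_le le_S)
    obtain ⟨s, s', hs⟩ := exists_pair_ne S
    obtain ⟨r, hr⟩ := Submodule.mem_span_singleton.1 (all (u s a))
    obtain ⟨r', hr'⟩ := Submodule.mem_span_singleton.1 (all (u s' a))
    have h5 : r' • u s (a : E) = r • u s' a := by rw [← hr, ← hr', smul_comm]
    have h6 := congrArg (τ s) h5
    rw [map_smul, map_smul, τ1, τ0 _ _ _ hs, smul_zero, hr'] at h6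
    have h7 := congrArg (τ s') h6
    rw [τ1, map_zero] at h7
    exact ne a ha (Subtype.ext h7)

end Pool.Agent.H73.FullTrans
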