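import Pool.Agent.H73.GainDefs

/-!
Definability in the monadic language of matroids, and weak definability of arithmetic on the
sizes of sets.
-/

set_option autoImplicit false

namespace Pool.Agent.H73.Gain

universe u

abbrev Pd (ι : Type) := ∀ α : Type u, Matroid α → (ι → Set α) → Prop

def Df (ι : Type) (P : Pd.{u} ι) : Prop :=
  ∀ ρ : ι → ℕ, ∃ φ : Fm, (∀ n ∈ φ.free, n ∈ Set.range ρ) ∧
    ∀ (α : Type u) (M : Matroid α) (v : ℕ → Set α), (∀ n, v n ⊆ M.E) →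
      (φ.Sat M v ↔ P α M fun i => v (ρ i))

namespace Df

variable {ι κ : Type} {P Q : Pd.{u} ι}

theorem of_iff (h : Df ι P) (e : ∀ α M v, (∀ i, v i ⊆ M.E) → (P α M v ↔ Q α M v)) : Df ι Q :=
  fun ρ => by
  obtain ⟨φ, h1, h2⟩ := h ρ
  exact ⟨φ, h1, fun α M v hv => (h2 α M v hv).trans (e _ _ _ fun _ => hv _)⟩

theorem sub (i j : ι) : Df.{u} ι fun _ _ v => v i ⊆ v j := fun ρ =>
  ⟨.sub (ρ i) (ρ j), by simp [Fm.free], fun _ _ _ _ => Iff.rfl⟩

theorem ind (i : ι) : Df.{u} ι fun _ M v => M.Indep (v i) := fun ρ =>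
  ⟨.ind (ρ i), by simp [Fm.free], fun _ _ _ _ => Iff.rfl⟩

theorem not (h : Df ι P) : Df ι fun α M v => ¬ P α M v := fun ρ => by
  obtain ⟨φ, h1, h2⟩ := h ρ
  exact ⟨.not φ, h1, fun α M v hv => not_congr (h2 α M v hv)⟩

theorem and (h : Df ι P) (h' : Df ι Q) : Df ι fun α M v => P α M v ∧ Q α M v := fun ρ => by
  obtain ⟨φ, h1, h2⟩ := h ρ
  obtain ⟨ψ, h3, h4⟩ := h' ρ
  exact ⟨.and φ ψ, fun n hn => (Finset.mem_union.1 hn).elim (h1 n) (h3 n),
    fun α M v hv => and_congr (h2 α M v hv) (h4 α M v hv)⟩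

theorem imp (h : Df ι P) (h' : Df ι Q) : Df ι fun α M v => P α M v → Q α M v :=
  (h.and h'.not).not.of_iff fun _ _ _ _ => by simp

theorem or (h : Df ι P) (h' : Df ι Q) : Df ι fun α M v => P α M v ∨ Q α M v :=
  (h.not.imp h').of_iff fun _ _ _ _ => or_iff_not_imp_left.symm

theorem comap (h : Df ι P) (σ : ι → κ) : Df κ fun α M v => P α M fun i => v (σ i) := fun ρ => by
  obtain ⟨φ, h1, h2⟩ := h fun i => ρ (σ i)
  exact ⟨φ, fun n hn => (h1 n hn).elim fun i e => ⟨_, e⟩, h2⟩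

variable [Finite ι] {R : Pd.{u} (Option ι)}

theorem ex (h : Df (Option ι) R) : Df ι fun α M v => ∃ X ⊆ M.E, R α M fun o => o.elim X v :=
  fun ρ => by
  obtain ⟨k, hk⟩ := (Set.finite_range ρ).exists_notMem
  obtain ⟨φ, h1, h2⟩ := h fun o => o.elim k ρ
  refine ⟨.ex k φ, fun n hn => ?_, fun α M v hv => exists_congr fun X => and_congr_right
    fun hX => ?_⟩
  · obtain ⟨h3, h4⟩ := Finset.mem_erase.1 hn
    obtain ⟨_ | i, rfl⟩ := h1 n h4
    exacts [absurd rfl h3, ⟨i, rfl⟩]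
  · rw [h2 α M _ fun n => by
      rcases eq_or_ne n k with rfl | h
      · simpa
      · simpa [h] using hv n]
    refine iff_of_eq (congrArg _ (funext ?_))
    rintro (_ | i)
    · simp
    · exact Function.update_of_ne (fun e => hk ⟨i, e⟩) _ _

theorem all (h : Df (Option ι) R) : Df ι fun α M v => ∀ X ⊆ M.E, R α M fun o => o.elim X v :=
  h.not.ex.not.of_iff fun _ _ _ _ => by simp

theorem emp (i : ι) : Df.{u} ι fun _ _ v => v i = ∅ :=
  (sub (some i) none).all.of_iff fun _ _ _ _ =>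
    ⟨fun h => Set.subset_empty_iff.1 (h ∅ (Set.empty_subset _)), fun h X _ => by simp [h]⟩

theorem sing (i : ι) : Df.{u} ι fun _ _ v => ∃ x, v i = {x} :=
  ((emp i).not.and ((sub none (some i)).imp ((emp none).or (sub (some i) none))).all).of_iff
    fun _ _ v hv => by
    constructor
    · rintro ⟨h1, h2⟩
      obtain ⟨x, hx⟩ := Set.nonempty_iff_ne_empty.2 h1
      have h3 := Set.singleton_subset_iff.2 hx
      exact ⟨x, ((h2 {x} (h3.trans (hv i)) h3).resolve_left (Set.singleton_ne_empty x)).antisymm h3⟩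
    · rintro ⟨x, hx⟩
      simp only [hx, Option.elim_none, Option.elim_some, Set.subset_singleton_iff_eq]
      exact ⟨by simp, fun X _ h => h.imp_right fun e => by simp [e]⟩

theorem exIn (i : ι) (h : Df (Option ι) R) :
    Df ι fun α M v => ∃ x ∈ v i, R α M fun o => o.elim {x} v :=
  ((sing none).and ((sub none (some i)).and h)).ex.of_iff fun _ _ v hv =>
    ⟨fun ⟨_, _, ⟨x, (e : _ = _)⟩, h1, h2⟩ => by
      simp only [Option.elim_none] at e
      subst e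
      exact ⟨x, h1 rfl, h2⟩,
    fun ⟨x, h1, h2⟩ => ⟨{x}, by simpa using hv i h1, ⟨x, rfl⟩, by simpa, h2⟩⟩

theorem allIn (i : ι) (h : Df (Option ι) R) :
    Df ι fun α M v => ∀ x ∈ v i, R α M fun o => o.elim {x} v :=
  (exIn i h.not).not.of_iff fun _ _ _ _ => by simp

theorem exU (i : ι) (h : Df (Option ι) R) :
    Df ι fun α M v => ∃! x, x ∈ v i ∧ R α M fun o => o.elim {x} v :=
  (exIn i (h.and (allIn (some i) ((h.comap (Option.map some)).imp
    (sub none (some none)))))).of_iff fun α M v _ => by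
    have e : ∀ x y : α, (fun i : Option ι => (Option.map some i).elim {y}
        fun o : Option ι => o.elim {x} v) = fun o => o.elim {y} v := fun x y => by
      funext o; cases o <;> rfl
    simp only [e, Option.elim_none, Option.elim_some, Set.singleton_subset_singleton, ExistsUnique,
      and_imp, and_assoc]

theorem exs (κ : Type) [Finite κ] : ∀ {R : Pd.{u} (ι ⊕ κ)}, Df (ι ⊕ κ) R →
    Df ι fun α M v => ∃ w : κ → Set α, (∀ k, w k ⊆ M.E) ∧ R α M (Sum.elim v w) := by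
  induction κ using Finite.induction_empty_option with
  | @of_equiv κ κ' e ih =>
    intro R h
    refine (ih (h.comap (Sum.map id e.symm))).of_iff fun α M v _ => ⟨fun ⟨w, h1, h2⟩ =>
      ⟨fun k => w (e.symm k), fun k => h1 _, ?_⟩, fun ⟨w, h1, h2⟩ =>
      ⟨fun k => w (e k), fun k => h1 _, ?_⟩⟩ <;> convert h2 using 1 <;> funext i <;>
      cases i <;> simp
  | h_empty =>
    intro R h
    refine (h.comap (Sum.elim id PEmpty.elim)).of_iff fun α M v _ => ⟨fun h =>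
      ⟨PEmpty.elim, fun k => k.elim, ?_⟩, fun ⟨w, _, h⟩ => ?_⟩ <;> convert h using 1 <;>
      funext i <;> rcases i with i | i <;> first | rfl | exact i.elim
  | @h_option κ _ ih =>
    intro R h
    refine (ih (h.comap (Sum.elim (fun i => some (.inl i))
      fun o => o.map .inr)).ex).of_iff fun α M v _ => ⟨fun ⟨w, h1, X, h2, h3⟩ =>
      ⟨fun o => o.elim X w, by rintro (_ | k); exacts [h2, h1 k], ?_⟩, fun ⟨w, h1, h3⟩ =>
      ⟨fun k => w (some k), fun k => h1 _, w none, h1 _, ?_⟩⟩ <;> convert h3 using 1 <;>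
      funext i <;> rcases i with i | _ | i <;> rfl

end Df

variable {α : Type u}

def Rl (M : Matroid α) (C X Y : Set α) : Prop :=
  ∃ e ∈ C, ¬ ∃ I ⊆ M.E, M.Indep I ∧ X ⊆ I ∧ Y ⊆ I ∧ {e} ⊆ I

theorem df_rl {ι : Type} [Finite ι] (c x y : ι) : Df.{u} ι fun _ M v => Rl M (v c) (v x) (v y) :=
  Df.exIn c ((Df.ind none).and ((Df.sub (some (some x)) none).and
    ((Df.sub (some (some y)) none).and (Df.sub (some none) none)))).ex.not

def Bj (r : α → α → Prop) (W X : Set α) : Prop :=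
  (∀ w ∈ W, ∃! x, x ∈ X ∧ r x w) ∧ ∀ x ∈ X, ∃! w, w ∈ W ∧ r x w

def Pt (r s : α → α → Prop) (W X Y : Set α) : Prop :=
  (∀ w ∈ W, ∃! x, x ∈ X ∧ r x w) ∧ (∀ w ∈ W, ∃! y, y ∈ Y ∧ s y w) ∧
    ∀ x ∈ X, ∀ y ∈ Y, ∃! w, w ∈ W ∧ r x w ∧ s y w

def BjM (M : Matroid α) (W X : Set α) : Prop := ∃ C ⊆ M.E, Bj (fun x w => Rl M C {x} {w}) W X

def PtM (M : Matroid α) (W X Y : Set α) : Prop :=
  ∃ C ⊆ M.E, ∃ D ⊆ M.E, Pt (fun x w => Rl M C {x} {w}) (fun x w => Rl M D {x} {w}) W X Y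

theorem df_bj {ι : Type} [Finite ι] (w x : ι) : Df.{u} ι fun _ M v => BjM M (v w) (v x) :=
  ((Df.allIn (some w) (Df.exU (some (some x)) (df_rl (some (some none)) none (some none)))).and
    (Df.allIn (some x) (Df.exU (some (some w)) (df_rl (some (some none)) (some none) none)))).ex

theorem df_pt {ι : Type} [Finite ι] (w x y : ι) : Df.{u} ι fun _ M v => PtM M (v w) (v x) (v y) :=
  ((Df.allIn (some (some w)) (Df.exU (some (some (some x)))
      (df_rl (some (some (some none))) none (some none)))).and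
    ((Df.allIn (some (some w)) (Df.exU (some (some (some y)))
      (df_rl (some (some none)) none (some none)))).and
    (Df.allIn (some (some x)) (Df.allIn (some (some (some y))) (Df.exU (some (some (some (some w))))
      ((df_rl (some (some (some (some none)))) (some (some none)) none).and
        (df_rl (some (some (some none))) (some none) none))))))).ex.ex

theorem Bj.card {r : α → α → Prop} {W X : Set α} (h : Bj r W X) : W.ncard = X.ncard := by
  choose f h1 h2 using h.1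
  refine Set.ncard_congr f (fun w hw => (h1 w hw).1) (fun a b ha hb e => ?_) fun x hx => ?_
  · exact (h.2 _ (h1 a ha).1).unique ⟨ha, (h1 a ha).2⟩ ⟨hb, e ▸ (h1 b hb).2⟩
  · obtain ⟨w, h3, -⟩ := h.2 x hx
    exact ⟨w, h3.1, (h2 w h3.1 x ⟨hx, h3.2⟩).symm⟩

theorem Pt.card {r s : α → α → Prop} {W X Y : Set α} (h : Pt r s W X Y) :
    W.ncard = X.ncard * Y.ncard := by
  choose f h1 h2 using h.1
  choose g h3 h4 using h.2.1
  rw [← Set.ncard_prod]
  refine Set.ncard_congr (fun w hw => (f w hw, g w hw)) (fun w hw => ⟨(h1 w hw).1, (h3 w hw).1⟩)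
    (fun a b ha hb e => ?_) fun x hx => ?_
  · simp only [Prod.mk.injEq] at e
    exact (h.2.2 _ (h1 a ha).1 _ (h3 a ha).1).unique ⟨ha, (h1 a ha).2, (h3 a ha).2⟩
      ⟨hb, e.1 ▸ (h1 b hb).2, e.2 ▸ (h3 b hb).2⟩
  · obtain ⟨w, h5, -⟩ := h.2.2 _ hx.1 _ hx.2
    exact ⟨w, h5.1, Prod.ext (h2 w h5.1 _ ⟨hx.1, h5.2.1⟩).symm (h4 w h5.1 _ ⟨hx.2, h5.2.2⟩).symm⟩

theorem exists_bij {β : Type u} {W : Set α} {X : Set β} (hW : W.Finite) (hX : X.Finite)
    (h : W.ncard = X.ncard) : ∃ r : β → α → Prop,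
    (∀ w ∈ W, ∃! x, x ∈ X ∧ r x w) ∧ ∀ x ∈ X, ∃! w, w ∈ W ∧ r x w := by
  have := hW.to_subtype
  have := hX.to_subtype
  obtain ⟨e⟩ : Nonempty (W ≃ X) := Finite.card_eq.1 h
  refine ⟨fun x w => ∃ hw : w ∈ W, (e ⟨w, hw⟩).1 = x, fun w hw => ⟨_, ⟨(e ⟨w, hw⟩).2, hw, rfl⟩,
    fun y ⟨_, _, h⟩ => h.symm⟩, fun x hx => ⟨_, ⟨(e.symm ⟨x, hx⟩).2, (e.symm ⟨x, hx⟩).2, by simp⟩,
    fun w ⟨_, hw, h⟩ => ?_⟩⟩
  subst h
  simp

def Rich (M : Matroid α) (A B : Set α) : Prop :=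
  M.E.Finite ∧ A ⊆ M.E ∧ B ⊆ M.E ∧
    ∀ r : α → α → Prop, ∃ C ⊆ M.E, ∀ a ∈ A, ∀ b ∈ B, Rl M C {a} {b} ↔ r a b

variable {M : Matroid α} {A B W X Y : Set α}

theorem BjM.card (h : BjM M W X) : W.ncard = X.ncard := let ⟨_, _, h⟩ := h; h.card

theorem PtM.card (h : PtM M W X Y) : W.ncard = X.ncard * Y.ncard :=
  let ⟨_, _, _, _, h⟩ := h; h.card

theorem Rich.bj (h : Rich M A B) (hW : W ⊆ B) (hX : X ⊆ A) (e : W.ncard = X.ncard) :
    BjM M W X := by
  obtain ⟨r, h1, h2⟩ := exists_bij (h.1.subset (hW.trans h.2.2.1)) (h.1.subset (hX.trans h.2.1)) e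
  obtain ⟨C, h3, h4⟩ := h.2.2.2 r
  exact ⟨C, h3, fun w hw => (existsUnique_congr fun x => and_congr_right fun hx =>
    h4 x (hX hx) w (hW hw)).2 (h1 w hw), fun x hx => (existsUnique_congr fun w => and_congr_right
    fun hw => h4 x (hX hx) w (hW hw)).2 (h2 x hx)⟩

theorem Rich.pt (h : Rich M A B) (hW : W ⊆ B) (hX : X ⊆ A) (hY : Y ⊆ A)
    (e : W.ncard = X.ncard * Y.ncard) : PtM M W X Y := by
  obtain ⟨r, h1, h2⟩ := exists_bij (h.1.subset (hW.trans h.2.2.1))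
    ((h.1.subset (hX.trans h.2.1)).prod (h.1.subset (hY.trans h.2.1))) (e.trans Set.ncard_prod.symm)
  obtain ⟨C, h3, h4⟩ := h.2.2.2 fun x w => ∃ y ∈ Y, r (x, y) w
  obtain ⟨D, h5, h6⟩ := h.2.2.2 fun y w => ∃ x ∈ X, r (x, y) w
  refine ⟨C, h3, D, h5, fun w hw => ?_, fun w hw => ?_, fun x hx y hy => ?_⟩
  · obtain ⟨⟨x, y⟩, ⟨⟨hx, hy⟩, h7⟩, h8⟩ := h1 w hw
    refine ⟨x, ⟨hx, (h4 x (hX hx) w (hW hw)).2 ⟨y, hy, h7⟩⟩, fun x' ⟨h9, h10⟩ => ?_⟩
    obtain ⟨y', h11, h12⟩ := (h4 x' (hX h9) w (hW hw)).1 h10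
    exact congrArg Prod.fst (h8 (x', y') ⟨⟨h9, h11⟩, h12⟩)
  · obtain ⟨⟨x, y⟩, ⟨⟨hx, hy⟩, h7⟩, h8⟩ := h1 w hw
    refine ⟨y, ⟨hy, (h6 y (hY hy) w (hW hw)).2 ⟨x, hx, h7⟩⟩, fun y' ⟨h9, h10⟩ => ?_⟩
    obtain ⟨x', h11, h12⟩ := (h6 y' (hY h9) w (hW hw)).1 h10
    exact congrArg Prod.snd (h8 (x', y') ⟨⟨h11, h9⟩, h12⟩)
  · obtain ⟨w, ⟨hw, h7⟩, h8⟩ := h2 (x, y) ⟨hx, hy⟩
    refine ⟨w, ⟨hw, (h4 x (hX hx) w (hW hw)).2 ⟨y, hy, h7⟩, (h6 y (hY hy) w (hW hw)).2 ⟨x, hx, h7⟩⟩,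
      fun w' ⟨h9, h10, h11⟩ => h8 w' ⟨h9, ?_⟩⟩
    obtain ⟨y', h12, h13⟩ := (h4 x (hX hx) w' (hW h9)).1 h10
    obtain ⟨x', h14, h15⟩ := (h6 y (hY hy) w' (hW h9)).1 h11
    have := (h1 w' h9).unique ⟨(⟨hx, h12⟩ : (x, y') ∈ X ×ˢ Y), h13⟩ ⟨⟨h14, hy⟩, h15⟩
    rwa [show y = y' from (congrArg Prod.snd this).symm]

/-- weak definability of a function of the sizes -/
def WD {ι : Type} (g : (ι → ℕ) → ℕ) : Prop :=
  ∃ P : Pd.{u} (Option ι), Df (Option ι) P ∧
    (∀ α M v, M.E.Finite → (∀ i, v i ⊆ M.E) → P α M v →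
      (v none).ncard = g fun i => (v (some i)).ncard) ∧
    ∀ n : ι → ℕ, ∃ K, ∀ α M A B v, Rich M A B → K ≤ A.ncard → K ≤ B.ncard → (∀ i, v i ⊆ A) →
      (∀ i, (v (some i)).ncard = n i) → (v none).ncard = g n → P α M v

variable {ι : Type} [Finite ι]

theorem WD.zero : WD.{u} fun _ : ι → ℕ => 0 :=
  ⟨_, Df.emp none, fun _ _ _ _ _ h => by simp [h], fun _ => ⟨0, fun _ _ _ _ v h _ _ h1 _ h2 =>
    (Set.ncard_eq_zero (h.1.subset ((h1 _).trans h.2.1))).1 h2⟩⟩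

theorem WD.one : WD.{u} fun _ : ι → ℕ => 1 :=
  ⟨_, Df.sing none, fun _ _ _ _ _ h => Set.ncard_eq_one.2 h, fun _ => ⟨0, fun _ _ _ _ _ _ _ _ _ _ h =>
    Set.ncard_eq_one.1 h⟩⟩

theorem WD.proj (i : ι) : WD.{u} fun n : ι → ℕ => n i :=
  ⟨_, ((df_bj none (some none)).and (df_bj none (some (some i)))).ex,
    fun _ _ _ _ _ ⟨_, _, h1, h2⟩ => h1.card.symm.trans h2.card,
    fun n => ⟨n i, fun _ _ _ _ v h _ h1 h2 h3 h4 => by
      obtain ⟨W, h5, h6⟩ := Set.exists_subset_card_eq h1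
      exact ⟨W, h5.trans h.2.2.1, h.bj h5 (h2 _) (h6.trans h4.symm),
        h.bj h5 (h2 _) (h6.trans (h3 i).symm)⟩⟩⟩

theorem wd_mul : WD.{u} fun n : Bool → ℕ => n true * n false :=
  ⟨_, ((df_bj none (some none)).and (df_pt none (some (some true)) (some (some false)))).ex,
    fun _ _ _ _ _ ⟨_, _, h1, h2⟩ => h1.card.symm.trans h2.card,
    fun n => ⟨n true * n false, fun _ _ _ _ v h _ h1 h2 h3 h4 => by
      obtain ⟨W, h5, h6⟩ := Set.exists_subset_card_eq h1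
      exact ⟨W, h5.trans h.2.2.1, h.bj h5 (h2 _) (h6.trans h4.symm),
        h.pt h5 (h2 _) (h2 _) (h6.trans (by rw [← h3, ← h3]; rfl))⟩⟩⟩

theorem wd_add : WD.{u} fun n : Bool → ℕ => n true + n false := by
  refine ⟨_, ((Df.sub none (some (some none))).and ((Df.sub (some none) (some (some none))).and
    ((Df.allIn (some (some none)) ((Df.sub none (some none)).or
      (Df.sub none (some (some none))))).and
    ((Df.allIn none (Df.sub none (some (some none))).not).and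
    ((df_bj (some (some none)) (some (some (some none)))).and
    ((df_bj none (some (some (some (some true))))).and
      (df_bj (some none) (some (some (some (some false))))))))))).ex.ex.ex, ?_,
    fun n => ⟨n true + n false, fun _ _ _ _ v h _ h1 h2 h3 h4 => ?_⟩⟩
  · rintro α M v hE - ⟨W, hW, Y, hY, X, hX, h1, h2, h3, h4, h5, h6, h7⟩
    simp only [Option.elim_none, Option.elim_some, Set.singleton_subset_iff] at h1 h2 h3 h4 h5 h6 h7
    beta_reduce
    rw [← h5.card, ← h6.card, ← h7.card, ← Set.ncard_union_eq (Set.disjoint_left.2 h4)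
      (hE.subset hX) (hE.subset hY), ← Set.Subset.antisymm (Set.union_subset h1 h2) h3]
  · obtain ⟨W, h5, h6⟩ := Set.exists_subset_card_eq h1
    obtain ⟨X, h7, h8⟩ := Set.exists_subset_card_eq (s := W) (n := n true) (by omega)
    have h9 := Set.ncard_sdiff h7 (h.1.subset (h7.trans (h5.trans h.2.2.1)))
    refine ⟨W, h5.trans h.2.2.1, W \ X, Set.sdiff_subset.trans (h5.trans h.2.2.1), X,
      h7.trans (h5.trans h.2.2.1), h7, Set.sdiff_subset, ?_, ?_, h.bj h5 (h2 _) (h6.trans h4.symm),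
      h.bj (h7.trans h5) (h2 _) (h8.trans (h3 _).symm), h.bj (Set.sdiff_subset.trans h5) (h2 _)
        (Eq.trans (b := n false) (by simp only [Option.elim_none, Option.elim_some]; omega)
          (h3 _).symm)⟩
    · simp only [Option.elim_none, Option.elim_some, Set.singleton_subset_iff, Set.mem_sdiff]
      tauto
    · simp only [Option.elim_none, Option.elim_some, Set.singleton_subset_iff, Set.mem_sdiff]
      tauto

theorem WD.comp {h : (Bool → ℕ) → ℕ} {g g' : (ι → ℕ) → ℕ} (hh : WD.{u} h) (hg : WD.{u} g)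
    (hg' : WD.{u} g') : WD.{u} fun n => h fun b => cond b (g n) (g' n) := by
  obtain ⟨P, p1, p2, p3⟩ := hh
  obtain ⟨Q, q1, q2, q3⟩ := hg
  obtain ⟨R, r1, r2, r3⟩ := hg'
  refine ⟨_, ((q1.comap fun o => o.elim none fun i => some (some (some i))).and
    ((r1.comap fun o => o.elim (some none) fun i => some (some (some i))).and
    (p1.comap fun o => o.elim (some (some none)) fun b => cond b none (some none)))).ex.ex, ?_,
    fun n => ?_⟩
  · rintro α M v hE hv ⟨Y, hY, X, hX, h1, h2, h3⟩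
    have h4 := q2 _ _ _ hE (by rintro (_ | i); exacts [hX, hv _]) h1
    have h5 := r2 _ _ _ hE (by rintro (_ | i); exacts [hY, hv _]) h2
    refine (p2 _ _ _ hE (by rintro (_ | _ | _); exacts [hv _, hY, hX]) h3).trans (congrArg h ?_)
    funext b
    cases b
    exacts [h5, h4]
  · obtain ⟨K, p3⟩ := p3 fun b => cond b (g n) (g' n)
    obtain ⟨K1, q3⟩ := q3 n
    obtain ⟨K2, r3⟩ := r3 n
    refine ⟨K + K1 + K2 + g n + g' n, fun α M A B v h h1 h2 h3 h4 h5 => ?_⟩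
    obtain ⟨X, h6, h7⟩ := Set.exists_subset_card_eq (s := A) (n := g n) (by omega)
    obtain ⟨Y, h8, h9⟩ := Set.exists_subset_card_eq (s := A) (n := g' n) (by omega)
    exact ⟨Y, h8.trans h.2.1, X, h6.trans h.2.1,
      q3 _ _ A B _ h (by omega) (by omega) (by rintro (_ | i); exacts [h6, h3 _]) h4 h7,
      r3 _ _ A B _ h (by omega) (by omega) (by rintro (_ | i); exacts [h8, h3 _]) h4 h9,
      p3 _ _ A B _ h (by omega) (by omega) (by rintro (_ | _ | _); exacts [h3 _, h8, h6])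
        (by rintro (_ | _); exacts [h9, h7]) h5⟩

theorem WD.add {g g' : (ι → ℕ) → ℕ} (hg : WD.{u} g) (hg' : WD.{u} g') :
    WD.{u} fun n => g n + g' n := WD.comp wd_add hg hg'

theorem WD.mul {g g' : (ι → ℕ) → ℕ} (hg : WD.{u} g) (hg' : WD.{u} g') :
    WD.{u} fun n => g n * g' n := WD.comp wd_mul hg hg'

theorem WD.const (c : ℕ) : WD.{u} fun _ : ι → ℕ => c := by
  induction c with
  | zero => exact WD.zero
  | succ c ih => exact ih.add WD.one

theorem poly_wd {β : Type} {f : (β → ℕ) → ℤ} (h : IsPoly f) (val : β → (ι → ℕ) → ℕ)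
    (hv : ∀ b, WD.{u} (val b)) : ∃ p q : (ι → ℕ) → ℕ, WD.{u} p ∧ WD.{u} q ∧
      ∀ n, f (fun b => val b n) = p n - q n := by
  induction h with
  | proj i => exact ⟨_, _, hv i, WD.zero, by simp⟩
  | const n => exact ⟨_, _, WD.const n.toNat, WD.const (-n).toNat, fun _ => by beta_reduce; omega⟩
  | sub _ _ ih ih' =>
    obtain ⟨p1, p2, h1, h2, h3⟩ := ih
    obtain ⟨q1, q2, h4, h5, h6⟩ := ih'
    exact ⟨_, _, h1.add h5, h2.add h4, fun v => by beta_reduce; rw [h3, h6]; push_cast; ring⟩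
  | mul _ _ ih ih' =>
    obtain ⟨p1, p2, h1, h2, h3⟩ := ih
    obtain ⟨q1, q2, h4, h5, h6⟩ := ih'
    exact ⟨_, _, (h1.mul h4).add (h2.mul h5), (h1.mul h5).add (h2.mul h4),
      fun v => by beta_reduce; rw [h3, h6]; push_cast; ring⟩

end Pool.Agent.H73.Gain
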