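import Pool.Agent.H73.Gain1
import Pool.Agent.H73.AutEq4
import Pool.Agent.H65.Dprm2

/-!
Rank three gain-graphic matroids that realize arbitrary bipartite graphs; undecidability.
-/

set_option autoImplicit false

namespace Pool.Agent.H73.Gain

open Pool.Agent.H37

universe u

variable {H : Type u} [Group H]

def Col (x y z : Fin 3 × H) : Prop :=
  (x.1 = y.1 ∧ y.1 = z.1 ∧ x ≠ y ∧ x ≠ z ∧ y ≠ z) ∨
    x.1 = 0 ∧ y.1 = 1 ∧ z.1 = 2 ∧ x.2 * y.2 * z.2 = 1

def Ind (X : Set (Fin 3 × H)) : Prop := X.encard ≤ 3 ∧ ∀ x ∈ X, ∀ y ∈ X, ∀ z ∈ X, ¬ Col x y z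

theorem Col.ne {x y z : Fin 3 × H} (h : Col x y z) : x ≠ y ∧ x ≠ z ∧ y ≠ z := by
  rcases h with h | ⟨h1, h2, h3, -⟩
  · exact h.2.2
  · refine ⟨?_, ?_, ?_⟩ <;> rintro rfl <;> simp_all

theorem enc3 {α : Type u} {x y z : α} (h : x ≠ y ∧ x ≠ z ∧ y ≠ z) :
    ({x, y, z} : Set α).encard = 3 := Set.encard_eq_three.2 ⟨x, y, z, h.1, h.2.1, h.2.2, rfl⟩

theorem ind_of_le {X : Set (Fin 3 × H)} (h : X.encard ≤ 2) : Ind X :=
  ⟨h.trans (by norm_num), fun x hx y hy z hz hc => by
    have := (enc3 hc.ne).ge.trans ((Set.encard_le_encard (show {x, y, z} ⊆ X by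
      simp [Set.insert_subset_iff, hx, hy, hz])).trans h)
    norm_num at this⟩

/-- closure of a pair -/
theorem col_line {x y a b c : Fin 3 × H} (hxy : x ≠ y) (habc : a ≠ b ∧ a ≠ c ∧ b ≠ c)
    (h : ∀ e ∈ ({a, b, c} : Set (Fin 3 × H)), e ≠ x → e ≠ y → ¬ Ind {e, x, y}) : ¬ Ind {a, b, c} := by
  have key : ∀ e, e ≠ x → e ≠ y → ¬ Ind {e, x, y} → (e.1 = x.1 ∧ x.1 = y.1) ∨ (x.1 ≠ y.1 ∧
      e.1 ≠ x.1 ∧ e.1 ≠ y.1 ∧ ∀ e', e' ≠ x → e' ≠ y → ¬ Ind {e', x, y} → e' = e) := by
    have k1 : ∀ e, e ≠ x → e ≠ y → ¬ Ind {e, x, y} → (e.1 = x.1 ∧ x.1 = y.1) ∨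
        ∃ p q r : H, p * q * r = 1 ∧ ({e, x, y} : Set (Fin 3 × H)) = {(0, p), (1, q), (2, r)} := by
      intro e h1 h2 h3
      simp only [Ind, enc3 ⟨h1, h2, hxy⟩, le_refl, true_and, not_forall, not_not] at h3
      obtain ⟨p, hp, q, hq, r, hr, h4⟩ := h3
      have h5 : ({p, q, r} : Set (Fin 3 × H)) = {e, x, y} :=
        Set.Finite.eq_of_subset_of_encard_le (Set.toFinite _)
          (by simp only [Set.insert_subset_iff, Set.singleton_subset_iff]; exact ⟨hp, hq, hr⟩)
          (by rw [enc3 h4.ne, enc3 ⟨h1, h2, hxy⟩])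
      rcases h4 with ⟨h6, h7, -⟩ | ⟨h6, h7, h8, h9⟩
      · have : ∀ t ∈ ({e, x, y} : Set (Fin 3 × H)), t.1 = p.1 := by
          rw [← h5]; simp [h6, h7]
        exact Or.inl ⟨by rw [this e (by simp), this x (by simp)],
          by rw [this y (by simp), this x (by simp)]⟩
      · exact Or.inr ⟨p.2, q.2, r.2, h9, by rw [← h5, ← h6, ← h7, ← h8]⟩
    intro e h1 h2 h3
    refine (k1 e h1 h2 h3).imp_right fun ⟨p, q, r, h4, h5⟩ => ?_
    have he : e ∈ ({(0, p), (1, q), (2, r)} : Set (Fin 3 × H)) := h5 ▸ by simp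
    have hx : x ∈ ({(0, p), (1, q), (2, r)} : Set (Fin 3 × H)) := h5 ▸ by simp
    have hy : y ∈ ({(0, p), (1, q), (2, r)} : Set (Fin 3 × H)) := h5 ▸ by simp
    have h6 : x.1 ≠ y.1 ∧ e.1 ≠ x.1 ∧ e.1 ≠ y.1 := by
      rcases he with rfl | rfl | rfl <;> rcases hx with rfl | rfl | rfl <;>
        rcases hy with rfl | rfl | rfl <;> simp_all
    refine ⟨h6.1, h6.2.1, h6.2.2, fun e' h7 h8 h9 => ?_⟩
    obtain ⟨p', q', r', h10, h11⟩ := (k1 e' h7 h8 h9).resolve_left fun h => h6.1 h.2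
    have he' : e' ∈ ({(0, p'), (1, q'), (2, r')} : Set (Fin 3 × H)) := h11 ▸ by simp
    have hx' : x ∈ ({(0, p'), (1, q'), (2, r')} : Set (Fin 3 × H)) := h11 ▸ by simp
    have hy' : y ∈ ({(0, p'), (1, q'), (2, r')} : Set (Fin 3 × H)) := h11 ▸ by simp
    rw [← h4] at h10
    clear h4 h k1 h3 h5 h9 h11 habc
    rcases he with rfl | rfl | rfl <;> rcases hx with rfl | rfl | rfl <;>
      rcases hy with rfl | rfl | rfl <;> simp at h6 <;> rcases he' with rfl | rfl | rfl <;>
      simp_all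
  intro hI
  by_cases hxy' : x.1 = y.1
  · have : ∀ e ∈ ({a, b, c} : Set (Fin 3 × H)), e.1 = x.1 := fun e he => by
      by_cases h1 : e = x
      · rw [h1]
      by_cases h2 : e = y
      · rw [h2, hxy']
      exact ((key e h1 h2 (h e he h1 h2)).resolve_right fun h => h.1 hxy').1
    exact hI.2 a (by simp) b (by simp) c (by simp) (Or.inl ⟨by
      rw [this a (by simp), this b (by simp)], by rw [this c (by simp), this b (by simp)], habc⟩)
  · obtain ⟨e, he, h1, h2⟩ : ∃ e ∈ ({a, b, c} : Set (Fin 3 × H)), e ≠ x ∧ e ≠ y := by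
      by_contra H
      push Not at H
      have := (enc3 habc).ge.trans ((Set.encard_le_encard (t := {x, y}) fun e he => by
        have := H e he; simp only [Set.mem_insert_iff, Set.mem_singleton_iff]; tauto).trans
        (Set.encard_pair hxy).le)
      norm_num at this
    have h3 := ((key e h1 h2 (h e he h1 h2)).resolve_left fun h => hxy' h.2).2.2.2
    refine h e he h1 h2 ?_
    rwa [← Set.Finite.eq_of_subset_of_encard_le (s := {a, b, c}) (t := {e, x, y}) (Set.toFinite _)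
      (fun t ht => ?_) (by rw [enc3 habc, enc3 ⟨h1, h2, hxy⟩])]
    have := h3 t
    have := h t ht
    simp only [Set.mem_insert_iff, Set.mem_singleton_iff]
    tauto

theorem exists_mat (E : Set (Fin 3 × H)) :
    ∃ M : Matroid (Fin 3 × H), M.E = E ∧ ∀ X, M.Indep X ↔ X ⊆ E ∧ Ind X := by
  refine ⟨(IndepMatroid.ofBddAugment E (fun X => X ⊆ E ∧ Ind X) ⟨by simp, ind_of_le (by simp)⟩
    (fun I J h hIJ => ⟨hIJ.trans h.1, (Set.encard_le_encard hIJ).trans h.2.1,
      fun x hx y hy z hz => h.2.2 x (hIJ hx) y (hIJ hy) z (hIJ hz)⟩) (fun I J hI hJ h => ?_)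
    ⟨3, fun I h => h.2.1⟩ fun I h => h.1).matroid, rfl, fun X => by simp⟩
  by_contra H
  push Not at H
  have H' : ∀ e ∈ J, e ∉ I → ¬ Ind (insert e I) := fun e he h1 =>
    H e he h1 (Set.insert_subset (hJ.1 he) hI.1)
  obtain ⟨e, he, h1⟩ := Set.not_subset.1 fun h2 => (Set.encard_le_encard h2).not_gt h
  have h2 : 2 < (insert e I).encard := not_le.1 fun h => H' e he h1 (ind_of_le h)
  rw [Set.encard_insert_of_notMem h1] at h2
  have h3 := hJ.2.1
  have hf : I.encard = 2 ∧ J.encard = 3 := by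
    generalize I.encard = a at *
    generalize J.encard = b at *
    lift b to ℕ using (h3.trans_lt (by decide)).ne
    lift a to ℕ using h.ne_top
    norm_cast at *
    omega
  obtain ⟨x, y, hxy, rfl⟩ := Set.encard_eq_two.1 hf.1
  obtain ⟨a, b, c, h4, h5, h6, rfl⟩ := Set.encard_eq_three.1 hf.2
  exact col_line hxy ⟨h4, h5, h6⟩ (fun e he h7 h8 => H' e he (by simp [h7, h8])) hJ.2

abbrev Cy (X : Set (Fin 3 × H)) (c : List ((Fin 3 × H) × Bool)) : Prop :=
  IsCycle (fun x : Fin 3 × H => x.1) (fun x => x.1 + 1) X c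

theorem cyc_cases {X : Set (Fin 3 × H)} {c : List ((Fin 3 × H) × Bool)} (h : Cy X c) :
    (∃ x ∈ X, ∃ y ∈ X, x ≠ y ∧ x.1 = y.1 ∧ gainProd Prod.snd c ≠ 1 ∧
      ∀ e, e ∈ c.map Prod.fst ↔ e = x ∨ e = y) ∨
    ∃ p q r, (0, p) ∈ X ∧ (1, q) ∈ X ∧ (2, r) ∈ X ∧ (gainProd Prod.snd c = 1 → p * q * r = 1) ∧
      ∀ e, e ∈ c.map Prod.fst ↔ e = (0, p) ∨ e = (1, q) ∨ e = (2, r) := by
  obtain ⟨h0, h1, h2, h3, h4⟩ := h
  have hl := h3.length_le_card
  match c, h0, hl with
  | [((i, a), s)], _, _ => fin_cases i <;> cases s <;> simp at h4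
  | [((i, a), s), ((j, b), t)], _, _ =>
    refine Or.inl ⟨(i, a), h1 _ List.mem_cons_self, (j, b), h1 ((j, b), t) (by simp), by
      simpa using h2, ?_⟩
    fin_cases i <;> fin_cases j <;> cases s <;> cases t <;>
      simp_all [gainProd, mul_inv_eq_one, inv_mul_eq_one]
  | [((i, a), s), ((j, b), t), ((k, c), r)], _, _ =>
    have e1 := h1 _ List.mem_cons_self
    have e2 := h1 ((j, b), t) (by simp)
    have e3 := h1 ((k, c), r) (by simp)
    have m1 : ∀ a b c : H, a * (b * c) = 1 → c * a * b = 1 ∧ b * c * a = 1 ∧ a * b * c = 1 :=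
      fun a b c h => by rw [eq_inv_of_mul_eq_one_left h]; simp
    have m2 : ∀ a b c : H, a⁻¹ * (b⁻¹ * c⁻¹) = 1 → c * b * a = 1 ∧ b * a * c = 1 ∧ a * c * b = 1 :=
      fun a b c h => by rw [← inv_inv a, eq_inv_of_mul_eq_one_left h]; simp
    clear h1
    right
    fin_cases i <;> fin_cases j <;> fin_cases k <;> cases s <;> cases t <;> cases r <;>
      simp at h3 h4 <;> refine ⟨_, _, _, by assumption, by assumption, by assumption, fun h => ?_,
        fun e => by simp only [List.map_cons, List.map_nil, List.mem_cons, List.not_mem_nil,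
          or_false]; tauto⟩ <;> simp only [gainProd, List.map_cons, List.map_nil, List.prod_cons,
          List.prod_nil, mul_one, if_true, Bool.false_eq_true, if_false] at h <;>
      first | (have := m1 _ _ _ h; tauto) | (have := m2 _ _ _ h; tauto)
  | _ :: _ :: _ :: _ :: _, _, hl => simp at hl; omega

omit [Group H] in
theorem cyc2 {X : Set (Fin 3 × H)} {x y : Fin 3 × H} (hx : x ∈ X) (hy : y ∈ X) (h : x ≠ y)
    (e : x.1 = y.1) : Cy X [(x, true), (y, false)] :=
  ⟨by simp, by simp [hx, hy], by simpa, by simp [e], by simp [e]⟩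

omit [Group H] in
theorem cyc3 {X : Set (Fin 3 × H)} {p q r : H} (hp : (0, p) ∈ X) (hq : (1, q) ∈ X)
    (hr : (2, r) ∈ X) : Cy X [((0, p), true), ((1, q), true), ((2, r), true)] :=
  ⟨by simp, by simp [hp, hq, hr], by simp, by simp, by simp⟩

theorem frame_iff (X : Set (Fin 3 × H)) :
    Ind X ↔ FrameIndep (fun x : Fin 3 × H => x.1) (fun x => x.1 + 1) Prod.snd X := by
  constructor
  · intro h
    have k : ∀ {p q r : H}, (0, p) ∈ X → (1, q) ∈ X → (2, r) ∈ X →
        ∀ e ∈ X, e = (0, p) ∨ e = (1, q) ∨ e = (2, r) := fun {p q r} hp hq hr e he => by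
      have : ({(0, p), (1, q), (2, r)} : Set (Fin 3 × H)) = X :=
        Set.Finite.eq_of_subset_of_encard_le (Set.toFinite _)
          (by simp [Set.insert_subset_iff, hp, hq, hr]) (by rw [enc3 (by simp)]; exact h.1)
      rwa [← this] at he
    refine ⟨fun c hc => ?_, fun c d hc hd _ e => ?_⟩
    · rcases cyc_cases hc with ⟨x, -, y, -, -, -, h1, -⟩ | ⟨p, q, r, hp, hq, hr, h1, -⟩
      exacts [h1, fun h2 => h.2 _ hp _ hq _ hr (Or.inr ⟨rfl, rfl, rfl, h1 h2⟩)]
    · rcases cyc_cases hc with ⟨x, hx, y, hy, h1, h2, -, h3⟩ | ⟨p, q, r, hp, hq, hr, -, h3⟩ <;>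
        rcases cyc_cases hd with ⟨z, hz, w, hw, h4, h5, -, h6⟩ | ⟨p', q', r', hp', hq', hr', -, h6⟩
      · rw [h3, h6]
        by_cases h7 : x.1 = z.1
        · have a1 := h.2 x hx y hy z hz
          have a2 := h.2 x hx y hy w hw
          simp only [Col, not_or, not_and, not_not, ne_eq] at a1 a2
          have a3 := a1.1 h2 (h2.symm.trans h7) h1
          have a4 := a2.1 h2 (h2.symm.trans (h7.trans h5)) h1
          by_cases b1 : x = z <;> by_cases b2 : x = w <;> simp_all [or_comm]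
        · have : ({x, y} ∪ {z, w} : Set (Fin 3 × H)).encard = 4 := by
            rw [Set.encard_union_eq, Set.encard_pair h1, Set.encard_pair h4]
            · norm_num
            · rw [Set.disjoint_left]
              rintro _ (rfl | rfl) (rfl | rfl) <;> simp_all
          have := this.ge.trans ((Set.encard_le_encard (show {x, y} ∪ {z, w} ⊆ X by
            simp [Set.insert_subset_iff, hx, hy, hz, hw])).trans h.1)
          norm_num at this
      · rcases k hp' hq' hr' x hx with rfl | rfl | rfl <;>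
          rcases k hp' hq' hr' y hy with rfl | rfl | rfl <;> simp at h1 h2
      · rcases k hp hq hr z hz with rfl | rfl | rfl <;>
          rcases k hp hq hr w hw with rfl | rfl | rfl <;> simp at h4 h5
      · have a1 := k hp hq hr _ hp'
        have a2 := k hp hq hr _ hq'
        have a3 := k hp hq hr _ hr'
        simp only [Prod.mk.injEq, Fin.reduceEq, false_and, true_and, or_false, false_or] at a1 a2 a3
        rw [h3, h6, a1, a2, a3]
  · rintro ⟨h1, h2⟩
    have k1 : ∀ x ∈ X, ∀ y ∈ X, ∀ z ∈ X, ¬ Col x y z := by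
      rintro x hx y hy z hz (⟨a1, a2, a3, a4, a5⟩ | ⟨a1, a2, a3, a4⟩)
      · have := (h2 _ _ (cyc2 hx hy a3 a1) (cyc2 hx hz a4 (a1.trans a2))
          ⟨_, List.mem_cons_self, _, List.mem_cons_self, .refl _⟩ y).1 (by simp)
        simp [a3.symm, a5] at this
      · exact h1 _ (cyc3 (p := x.2) (q := y.2) (r := z.2) (a1 ▸ hx) (a2 ▸ hy) (a3 ▸ hz))
          (by simpa [gainProd, mul_assoc] using a4)
    refine ⟨?_, k1⟩
    have k2 : ∀ x ∈ X, ∀ y ∈ X, x ≠ y → x.1 = y.1 → ∀ z ∈ X, ∀ w ∈ X, z.1 ≠ x.1 → w.1 ≠ x.1 →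
        z = w := by
      intro x hx y hy a1 a2 z hz w hw a3 a4
      by_contra a5
      have c1 := cyc2 hx hy a1 a2
      by_cases a6 : z.1 = w.1
      · have := (h2 _ _ c1 (cyc2 hz hw a5 a6) ⟨_, List.mem_cons_self, _, List.mem_cons_self, ?_⟩
          z).2 (by simp)
        · simp only [List.map_cons, List.map_nil, List.mem_cons, List.not_mem_nil, or_false] at this
          rcases this with rfl | rfl
          exacts [a3 rfl, a3 a2.symm]
        · have : x.1 + 1 = z.1 ∨ z.1 + 1 = x.1 := by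
            revert a3; generalize x.1 = i; generalize z.1 = j; revert i j; decide
          rcases this with h | h
          exacts [.rel _ _ ⟨x, hx, rfl, h⟩, .symm _ _ (.rel _ _ ⟨z, hz, rfl, h⟩)]
      · have key : ∀ p q r : H, (0, p) ∈ X → (1, q) ∈ X → (2, r) ∈ X → False := fun p q r a b c => by
          have := h2 _ _ c1 (cyc3 a b c) (by
            refine ⟨_, List.mem_cons_self, ?_⟩
            have : x.1 = 0 ∨ x.1 = 1 ∨ x.1 = 2 := by generalize x.1 = i; revert i; decide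
            rcases this with h | h | h
            exacts [⟨((0, p), true), by simp, h ▸ .refl _⟩, ⟨((1, q), true), by simp, h ▸ .refl _⟩,
              ⟨((2, r), true), by simp, h ▸ .refl _⟩])
          have b1 := (this (0, p)).2 (by simp)
          have b2 := (this (1, q)).2 (by simp)
          simp only [List.map_cons, List.map_nil, List.mem_cons, List.not_mem_nil, or_false] at b1 b2
          rcases b1 with rfl | rfl <;> rcases b2 with h | h <;> simp [← h] at a2 <;> simp at h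
        obtain ⟨i, a⟩ := x
        obtain ⟨j, b⟩ := z
        obtain ⟨k, c⟩ := w
        fin_cases i <;> fin_cases j <;> fin_cases k <;> simp at a3 a4 a6 <;>
          exact key _ _ _ (by assumption) (by assumption) (by assumption)
    by_cases H : ∃ x ∈ X, ∃ y ∈ X, x ≠ y ∧ x.1 = y.1
    · obtain ⟨x, hx, y, hy, a1, a2⟩ := H
      have a3 : {z ∈ X | z.1 ≠ x.1}.encard ≤ 1 := Set.encard_le_one_iff.2 fun z w hz hw =>
        k2 x hx y hy a1 a2 z hz.1 w hw.1 hz.2 hw.2
      refine (Set.encard_le_encard (t := {x, y} ∪ {z ∈ X | z.1 ≠ x.1}) fun z hz => ?_).trans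
        ((Set.encard_union_le _ _).trans ?_)
      · have := k1 x hx y hy z hz
        simp only [Col, not_or, not_and, not_not, ne_eq] at this
        by_cases b : z.1 = x.1
        · have := this.1 a2 (a2.symm.trans b.symm) a1
          left
          simp only [Set.mem_insert_iff, Set.mem_singleton_iff]
          by_cases c : x = z
          exacts [Or.inl c.symm, Or.inr (this c).symm]
        · exact Or.inr ⟨hz, b⟩
      · rw [Set.encard_pair a1]
        exact (add_le_add_right a3 _).trans (by norm_num)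
    · push Not at H
      simpa using Set.encard_le_encard_of_injOn (s := X) (t := Set.univ) (f := Prod.fst)
        (Set.mapsTo_univ _ _) fun x hx y hy e => by_contra fun h => H x hx y hy h e

theorem exists_up [Infinite H] (B : Finset H) (K : ℕ) : ∃ A : Finset H, A.card = K ∧
    ∀ a ∈ A, ∀ b ∈ B, ∀ a' ∈ A, ∀ b' ∈ B, a * b = a' * b' → a = a' := by
  classical
  induction K with
  | zero => exact ⟨∅, by simp⟩
  | succ K ih =>
    obtain ⟨A, h1, h2⟩ := ih
    obtain ⟨x, hx⟩ := Infinite.exists_notMem_finset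
      (A ∪ (A ×ˢ B ×ˢ B).image fun t => t.1 * t.2.1 * t.2.2⁻¹)
    simp only [Finset.mem_union, Finset.mem_image, Finset.mem_product, not_or, not_exists,
      not_and, Prod.forall, and_imp] at hx
    refine ⟨insert x A, by rw [Finset.card_insert_of_notMem hx.1, h1], ?_⟩
    simp only [Finset.forall_mem_insert]
    exact ⟨fun b hb => ⟨fun _ _ _ => trivial, fun a ha b' hb' e =>
      absurd (by rw [← e]; simp) (hx.2 a b' b ha hb' hb)⟩, fun a ha b hb => ⟨fun b' hb' e =>
      absurd (by rw [e]; simp) (hx.2 a b b' ha hb hb'), h2 a ha b hb⟩⟩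

theorem exists_rich [Infinite H] (K : ℕ) : ∃ (M : Matroid (Fin 3 × H)) (A B : Set (Fin 3 × H)),
    M.eRank = 3 ∧ GainGraphic H M ∧ Rich M A B ∧ K ≤ A.ncard ∧ K ≤ B.ncard := by
  classical
  obtain ⟨B, hB⟩ := Infinite.exists_subset_card_eq H (K + 2)
  obtain ⟨A, hA, hU⟩ := exists_up B (K + 2)
  let c : H → H → Fin 3 × H := fun a b => (2, (a * b)⁻¹)
  obtain ⟨M, h1, h2⟩ := exists_mat (Prod.mk 0 '' (A : Set H) ∪ Prod.mk 1 '' (B : Set H) ∪
    Set.image2 c A B)
  have hA' : Prod.mk 0 '' (A : Set H) ⊆ M.E := h1 ▸ fun _ h => Or.inl (Or.inl h)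
  have hB' : Prod.mk 1 '' (B : Set H) ⊆ M.E := h1 ▸ fun _ h => Or.inl (Or.inr h)
  have hC' : ∀ a ∈ A, ∀ b ∈ B, c a b ∈ M.E := h1 ▸ fun a ha b hb => Or.inr ⟨a, ha, b, hb, rfl⟩
  have hf : M.E.Finite := h1 ▸ ((A.finite_toSet.image _).union (B.finite_toSet.image _)).union
    (A.finite_toSet.image2 _ B.finite_toSet)
  rw [← h1] at h2
  have h3 : ∀ a b d : H, Ind {((0 : Fin 3), a), (1, b), (2, d)} ↔ a * b * d ≠ 1 := fun a b d =>
    ⟨fun h e => h.2 (0, a) (by simp) (1, b) (by simp) (2, d) (by simp) (Or.inr ⟨rfl, rfl, rfl, e⟩),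
      fun h => ⟨(enc3 (by simp)).le, by simp [Col, h]⟩⟩
  refine ⟨M, _, _, le_antisymm ?_ ?_, ⟨Fin 3, inferInstance, _, _, Prod.snd, fun X hX => by
    rw [h2, frame_iff, and_iff_right hX]⟩, ⟨hf, hA', hB', fun r => ⟨{e | ∃ a ∈ A, ∃ b ∈ B,
      r (0, a) (1, b) ∧ e = c a b}, ?_, ?_⟩⟩, ?_, ?_⟩
  · obtain ⟨I, hI⟩ := M.exists_isBase
    exact hI.encard_eq_eRank ▸ ((h2 I).1 hI.indep).2.1
  · obtain ⟨a, ha, a', ha', e⟩ := Finset.one_lt_card.1 (show 1 < A.card by omega)
    obtain ⟨b, hb⟩ := Finset.card_pos.1 (show 0 < B.card by omega)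
    refine le_trans (enc3 (by simp)).ge ((h2 _).2 ⟨?_, (h3 a b (a' * b)⁻¹).2 ?_⟩).encard_le_eRank
    · simp only [Set.insert_subset_iff, Set.singleton_subset_iff]
      exact ⟨hA' ⟨a, ha, rfl⟩, hB' ⟨b, hb, rfl⟩, hC' a' ha' b hb⟩
    · simpa [mul_inv_eq_one] using e
  · rintro _ ⟨a, ha, b, hb, -, rfl⟩
    exact hC' a ha b hb
  · rintro _ ⟨a, ha, rfl⟩ _ ⟨b, hb, rfl⟩
    have key : ∀ a' ∈ A, ∀ b' ∈ B, (∃ I ⊆ M.E, M.Indep I ∧ {(0, a)} ⊆ I ∧ {(1, b)} ⊆ I ∧
        {c a' b'} ⊆ I) ↔ a * b ≠ a' * b' := fun a' ha' b' hb' => by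
      rw [Ne, ← mul_inv_eq_one, ← Ne, ← h3]
      constructor
      · rintro ⟨I, -, h4, h5, h6, h7⟩
        exact ((h2 _).1 (h4.subset (Set.insert_subset (h5 rfl) (Set.insert_subset (h6 rfl) h7)))).2
      · intro h
        have : {(0, a), (1, b), c a' b'} ⊆ M.E := Set.insert_subset (hA' ⟨a, ha, rfl⟩)
          (Set.insert_subset (hB' ⟨b, hb, rfl⟩) (Set.singleton_subset_iff.2 (hC' a' ha' b' hb')))
        exact ⟨_, this, (h2 _).2 ⟨this, h⟩, by simp, by simp, by simp⟩
    constructor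
    · rintro ⟨_, ⟨a', ha', b', hb', h4, rfl⟩, h5⟩
      rw [key a' ha' b' hb', not_not] at h5
      obtain rfl := hU a ha b hb a' ha' b' hb' h5
      rwa [mul_left_cancel h5]
    · exact fun h => ⟨_, ⟨a, ha, b, hb, h, rfl⟩, by rw [key a ha b hb]; simp⟩
  · rw [Set.ncard_image_of_injective _ (Prod.mk_right_injective _), Set.ncard_coe_finset]; omega
  · rw [Set.ncard_image_of_injective _ (Prod.mk_right_injective _), Set.ncard_coe_finset]; omega

theorem card_fm : ∃ χ : ℕ → Fm, CI ∅ (fun m => (χ m).code) ∧ (∀ m, ∀ n ∈ (χ m).free, n = 0) ∧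
    ∀ m (α : Type u) (M : Matroid α) (v : ℕ → Set α), M.E.Finite → (∀ n, v n ⊆ M.E) →
      ((χ m).Sat M v ↔ (v 0).ncard = m) := by
  obtain ⟨φ, a1, a2⟩ := Df.emp.{u} () fun _ => 0
  obtain ⟨ψ, b1, b2⟩ := (Df.exIn.{u} true ((Df.sub none (some false)).not.and
    ((Df.sub (some false) (some true)).and (Df.allIn (some true) ((Df.sub none (some none)).or
      (Df.sub none (some (some false)))))))) fun b => cond b 0 1
  let χ : ℕ → Fm := fun m => (fun θ => Fm.ex 1 (.and ψ (.ex 0 (.and (.and (.sub 0 1) (.sub 1 0))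
    θ))))^[m] φ
  have e : ∀ m, χ (m + 1) = .ex 1 (.and ψ (.ex 0 (.and (.and (.sub 0 1) (.sub 1 0)) (χ m)))) :=
    fun m => Function.iterate_succ_apply' _ _ _
  refine ⟨χ, CI.of_rec1 (h := fun _ c => Nat.pair 4 (Nat.pair 1 (Nat.pair 3 (Nat.pair ψ.code
    (Nat.pair 4 (Nat.pair 0 (Nat.pair 3 (Nat.pair (Fm.and (.sub 0 1) (.sub 1 0)).code c))))))))
    (by fun_prop) fun m => by rw [e]; rfl, fun m => ?_, fun m α M => ?_⟩
  · induction m with
    | zero => exact fun n hn => (a1 n hn).elim fun _ h => h.symm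
    | succ m ih =>
      intro n hn
      simp only [e, Fm.free, Finset.mem_erase, Finset.mem_union, Finset.mem_insert,
        Finset.mem_singleton] at hn
      obtain ⟨h1, h2 | h2⟩ := hn
      · obtain ⟨_ | _, rfl⟩ := b1 n h2
        exacts [absurd rfl h1, rfl]
      · have := ih n
        tauto
  · induction m with
    | zero => exact fun v hE hv => (a2 α M v hv).trans (Set.ncard_eq_zero (hE.subset (hv 0))).symm
    | succ m ih =>
      intro v hE hv
      have hu : ∀ (v : ℕ → Set α) k X, (∀ n, v n ⊆ M.E) → X ⊆ M.E →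
          ∀ n, Function.update v k X n ⊆ M.E := fun v k X h1 h2 n => by
        rcases eq_or_ne n k with rfl | h
        · simpa
        · simpa [h] using h1 n
      simp only [e, Fm.Sat]
      constructor
      · rintro ⟨X, h1, h2, Y, h3, h4, h5⟩
        rw [ih _ hE (hu _ _ _ (hu _ _ _ hv h1) h3)] at h5
        rw [b2 _ _ _ (hu _ _ _ hv h1)] at h2
        simp only [Function.update_self, ne_eq, one_ne_zero, not_false_eq_true, zero_ne_one,
          Function.update_of_ne, cond_true, cond_false, Option.elim_none, Option.elim_some,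
          Set.singleton_subset_iff, Set.mem_singleton_iff] at h2 h4 h5
        obtain ⟨x, h6, h7, h8, h9⟩ := h2
        rw [← h5, h4.1.antisymm h4.2, ← Set.ncard_insert_of_notMem h7 (hE.subset h1),
          Set.Subset.antisymm (Set.insert_subset h6 h8) h9]
      · intro h
        obtain ⟨x, X, h1, h2, h3⟩ := Set.eq_insert_of_ncard_eq_succ h
        have h4 : X ⊆ M.E := (h2 ▸ Set.subset_insert x X : X ⊆ v 0).trans (hv 0)
        refine ⟨X, h4, ?_, X, h4, by simp, ?_⟩
        · rw [b2 _ _ _ (hu _ _ _ hv h4)]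
          simp only [Function.update_self, ne_eq, not_false_eq_true, zero_ne_one,
            Function.update_of_ne, cond_true, cond_false, Option.elim_none, Option.elim_some,
            Set.singleton_subset_iff, Set.mem_singleton_iff, ← h2]
          exact ⟨x, by simp, h1, by simp, fun _ h => h⟩
        · rw [ih _ hE (hu _ _ _ (hu _ _ _ hv h4) h4)]
          simpa

theorem main (H : Type u) [Group H] [Infinite H] : ¬ ∃ f : ℕ → Bool, Computable f ∧
    ∀ φ : Fm, φ.free = ∅ → (f φ.code = true ↔ InTheory H φ) := by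
  classical
  rintro ⟨f, hf, h⟩
  obtain ⟨β, p, hp⟩ := Pool.Agent.H65.Dprm.re_dioph
    (re_of_nat (p := fun e => ∃ s, Kst e s = true) Kst (by fun_prop) fun _ => Iff.rfl)
  obtain ⟨s, hs⟩ := Pool.Agent.H73.AutEq.poly_fin p.isPoly
  let val : Unit ⊕ β → (Unit ⊕ s → ℕ) → ℕ := Sum.elim (fun _ n => n (.inl ()))
    fun b n => if h : .inr b ∈ s then n (.inr ⟨_, h⟩) else 0
  obtain ⟨g, g', ⟨P, p1, p2, p3⟩, ⟨Q, q1, q2, q3⟩, e⟩ := poly_wd.{u} p.isPoly val (by
    rintro (a | a)
    · exact WD.proj _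
    · by_cases h : .inr a ∈ s <;> simp only [val, Sum.elim_inr, h, dif_pos, dif_neg, not_false_iff]
      exacts [WD.proj _, WD.zero])
  obtain ⟨φ, a1, a2⟩ := Df.exs s (p1.and q1).ex fun _ => 0
  obtain ⟨χ, b1, b2, b3⟩ := card_fm.{u}
  refine K_not_computable (fun m => !f (Nat.pair 2 (Nat.pair 4 (Nat.pair 0 (Nat.pair 3
    (Nat.pair (χ m).code φ.code)))))) (CI.not (CI.comp1 hf (by fun_prop))) fun m => ?_
  have h1 := h (.not (.ex 0 (.and (χ m) φ))) (Finset.eq_empty_of_forall_notMem fun n hn => by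
    simp only [Fm.free, Finset.mem_erase, Finset.mem_union] at hn
    exact hn.1 (hn.2.elim (b2 m n) fun h => (a1 n h).elim fun _ h => h.symm))
  have hu : ∀ (α : Type u) (M : Matroid α) (X : Set α), X ⊆ M.E →
      ∀ n, Function.update (fun _ : ℕ => (∅ : Set α)) 0 X n ⊆ M.E := fun α M X h n => by
    rcases eq_or_ne n 0 with rfl | h
    · simpa
    · simp [h]
  simp only [Fm.code] at h1
  rw [Bool.not_eq_true', ← Bool.not_eq_true, h1]
  refine Iff.trans ?_ (hp fun _ => m).symm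
  simp only [InTheory, Fm.Sat, not_forall, not_not]
  constructor
  · rintro ⟨α, M, hE, -, -, X, h2, h3, h4⟩
    rw [b3 _ _ _ _ hE (hu _ _ _ h2)] at h3
    obtain ⟨w, h5, Z, h6, h7, h8⟩ := (a2 _ _ _ (hu _ _ _ h2)).1 h4
    have h9 : ∀ o : Option (Unit ⊕ s), o.elim Z (Sum.elim
        (fun _ => Function.update (fun _ : ℕ => (∅ : Set α)) 0 X 0) w) ⊆ M.E := by
      rintro (_ | _ | i); exacts [h6, hu _ _ _ h2 0, h5 i]
    have := e fun i => (Sum.elim
        (fun _ => Function.update (fun _ : ℕ => (∅ : Set α)) 0 X 0) w i).ncard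
    have h10 := (p2 _ _ _ hE h9 h7).symm.trans (q2 _ _ _ hE h9 h8)
    simp only [Option.elim_some] at h10
    rw [h10, sub_self] at this
    refine ⟨fun b => val (.inr b) fun i => (Sum.elim
      (fun _ => Function.update (fun _ : ℕ => (∅ : Set α)) 0 X 0) w i).ncard,
      Eq.trans (congrArg p ?_) this⟩
    funext a
    rcases a with a | a
    exacts [h3.symm, rfl]
  · rintro ⟨t, ht⟩
    let n : Unit ⊕ s → ℕ := Sum.elim (fun _ => m) fun a => Sum.elim (fun _ => m) t a.1
    have h2 : g n = g' n := by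
      have := e n
      rw [hs _ (Sum.elim (fun _ => m) t) (by rintro (a | a) ha <;> simp [val, n, ha]), ht] at this
      omega
    obtain ⟨K, p3⟩ := p3 n
    obtain ⟨K', q3⟩ := q3 n
    obtain ⟨M, A, B, h3, h4, h5, h6, h7⟩ := exists_rich (H := H) (K + K' + g n + ∑ i, n i)
    have h8 : ∀ i, ∃ X ⊆ A, X.ncard = n i := fun i => Set.exists_subset_card_eq (by
      have := Finset.single_le_sum (f := n) (fun _ _ => Nat.zero_le _) (Finset.mem_univ i)
      omega)
    choose X h8 h9 using h8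
    obtain ⟨Z, h10, h11⟩ := Set.exists_subset_card_eq (s := A) (n := g n) (by omega)
    have h12 := (h8 (.inl ())).trans h5.2.1
    refine ⟨_, M, h5.1, h3, h4, X (.inl ()), h12, (b3 _ _ _ _ h5.1 (hu _ _ _ h12)).2 (h9 _),
      (a2 _ _ _ (hu _ _ _ h12)).2 ⟨fun k => X (.inr k), fun k => (h8 _).trans h5.2.1, Z,
        h10.trans h5.2.1, p3 _ _ A B _ h5 (by omega) (by omega) ?_ ?_ h11,
        q3 _ _ A B _ h5 (by omega) (by omega) ?_ ?_ (h11.trans h2)⟩⟩
    · rintro (_ | _ | i); exacts [h10, h8 _, h8 _]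
    · rintro (_ | i); exacts [h9 _, h9 _]
    · rintro (_ | _ | i); exacts [h10, h8 _, h8 _]
    · rintro (_ | i); exacts [h9 _, h9 _]

end Pool.Agent.H73.Gain
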