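import Mathlib

/-!
Gain graphs, frame matroids, and the monadic second-order language of matroids.
-/

set_option autoImplicit false

namespace Pool.Agent.H73.Gain

universe u

/-- formulas: variables are natural numbers and range over subsets of the ground set -/
inductive Fm : Type
  | sub (i j : ℕ)
  | ind (i : ℕ)
  | not (φ : Fm)
  | and (φ ψ : Fm)
  | ex (i : ℕ) (φ : Fm)

/-- free variables -/
def Fm.free : Fm → Finset ℕ
  | .sub i j => {i, j}
  | .ind i => {i}
  | .not φ => φ.free
  | .and φ ψ => φ.free ∪ ψ.free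
  | .ex i φ => φ.free.erase i

/-- Goedel number -/
def Fm.code : Fm → ℕ
  | .sub i j => Nat.pair 0 (Nat.pair i j)
  | .ind i => Nat.pair 1 i
  | .not φ => Nat.pair 2 φ.code
  | .and φ ψ => Nat.pair 3 (Nat.pair φ.code ψ.code)
  | .ex i φ => Nat.pair 4 (Nat.pair i φ.code)

/-- satisfaction in a matroid under an assignment of sets to the variables -/
def Fm.Sat {α : Type u} (M : Matroid α) : Fm → (ℕ → Set α) → Prop
  | .sub i j, v => v i ⊆ v j
  | .ind i, v => M.Indep (v i)
  | .not φ, v => ¬ φ.Sat M v
  | .and φ ψ, v => φ.Sat M v ∧ ψ.Sat M v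
  | .ex i φ, v => ∃ X ⊆ M.E, φ.Sat M (Function.update v i X)

variable {α H : Type u} {V : Type} [Group H]

/-- A cycle inside the edge set `X` of the graph in which edge `e` is oriented from `src e` to
`tgt e`: a nonempty cyclic list of traversed edges (`true` = forwards) with distinct edges and
distinct vertices. -/
def IsCycle (src tgt : α → V) (X : Set α) (c : List (α × Bool)) : Prop :=
  c ≠ [] ∧ (∀ p ∈ c, p.1 ∈ X) ∧ (c.map Prod.fst).Nodup ∧
    (c.map fun p => if p.2 then src p.1 else tgt p.1).Nodup ∧
    (c.map fun p => if p.2 then tgt p.1 else src p.1) =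
      (c.map fun p => if p.2 then src p.1 else tgt p.1).rotate 1

/-- product of the gains along a cycle -/
def gainProd (gain : α → H) (c : List (α × Bool)) : H :=
  (c.map fun p => if p.2 then gain p.1 else (gain p.1)⁻¹).prod

/-- Independence in the frame matroid: every cycle in `X` is unbalanced and no connected component
of `(V, X)` contains two different cycles. -/
def FrameIndep (src tgt : α → V) (gain : α → H) (X : Set α) : Prop :=
  (∀ c, IsCycle src tgt X c → gainProd gain c ≠ 1) ∧
    ∀ c d, IsCycle src tgt X c → IsCycle src tgt X d →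
      (∃ p ∈ c, ∃ q ∈ d,
        Relation.EqvGen (fun a b => ∃ e ∈ X, src e = a ∧ tgt e = b) (src p.1) (src q.1)) →
      ∀ e, e ∈ c.map Prod.fst ↔ e ∈ d.map Prod.fst

/-- `M` is the frame matroid of an `H`-gain graph with edge set `M.E` -/
def GainGraphic (H : Type u) [Group H] (M : Matroid α) : Prop :=
  ∃ (V : Type) (_ : Finite V) (src tgt : α → V) (gain : α → H),
    ∀ X ⊆ M.E, (M.Indep X ↔ FrameIndep src tgt gain X)

/-- `φ` holds in every finite rank-3 `H`-gain-graphic matroid -/
def InTheory (H : Type u) [Group H] (φ : Fm) : Prop :=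
  ∀ (α : Type u) (M : Matroid α), M.E.Finite → M.eRank = 3 → GainGraphic H M →
    φ.Sat M fun _ => ∅

end Pool.Agent.H73.Gain
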