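import Mathlib

/-! The algebras `ℚ⟨t, D, v⟩ / ([D,t] = 1, [t,v] = 0, t [D,v] = m v)` have zero divisors, but none
of degree at most `m`. -/

namespace Pool.Agent.H73.HiddenZD

open Polynomial

section general
variable {R : Type} [Ring R]

/-- Iterated commutators with `D`. -/
def vv (D v : R) : ℕ → R
  | 0 => v
  | i + 1 => D * vv D v i - vv D v i * D

lemma map_vv {S G : Type} [Ring S] [FunLike G R S] [RingHomClass G R S] (f : G) (D v : R) (i : ℕ) :
    f (vv D v i) = vv (f D) (f v) i := by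
  induction i with
  | zero => rfl
  | succ i ih => simp [vv, ih]

structure Rel (m : ℕ) (t D v : R) : Prop where
  h1 : D * t = t * D + 1
  h2 : t * v = v * t
  h3 : t * (D * v - v * D) = m * v

variable {m : ℕ} {t D v : R}

lemma Rel.comm (h : Rel m t D v) (i : ℕ) : t * vv D v i = vv D v i * t := by
  induction i with
  | zero => exact h.h2
  | succ i ih =>
    have e1 : t * D = D * t - 1 := by rw [h.h1]; abel
    calc t * (D * vv D v i - vv D v i * D)
        = (t * D) * vv D v i - (t * vv D v i) * D := by noncomm_ring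
      _ = (D * t - 1) * vv D v i - (vv D v i * t) * D := by rw [e1, ih]
      _ = D * (t * vv D v i) - vv D v i * (t * D + 1) := by noncomm_ring
      _ = (D * vv D v i - vv D v i * D) * t := by rw [ih, ← h.h1]; noncomm_ring

lemma Rel.step (h : Rel m t D v) (i : ℕ) :
    t * vv D v (i + 1) = ((m : R) - i) * vv D v i := by
  induction i with
  | zero => simpa [vv] using h.h3
  | succ i ih =>
    have e1 : t * D = D * t - 1 := by rw [h.h1]; abel
    have c1 : D * ((m : R) - i) = ((m : R) - i) * D :=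
      ((Nat.cast_commute m D).sub_left (Nat.cast_commute i D)).eq.symm
    calc t * (D * vv D v (i + 1) - vv D v (i + 1) * D)
        = (t * D) * vv D v (i + 1) - (t * vv D v (i + 1)) * D := by noncomm_ring
      _ = D * (t * vv D v (i + 1)) - vv D v (i + 1) - (t * vv D v (i + 1)) * D := by
          rw [e1]; noncomm_ring
      _ = (D * ((m : R) - i)) * vv D v i - vv D v (i + 1) - ((m : R) - i) * vv D v i * D := by
          rw [ih]; noncomm_ring
      _ = ((m : R) - i) * (D * vv D v i - vv D v i * D) - vv D v (i + 1) := by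
          rw [c1]; noncomm_ring
      _ = ((m : R) - (i + 1 : ℕ)) * vv D v (i + 1) := by
          rw [show D * vv D v i - vv D v i * D = vv D v (i + 1) from rfl]
          push_cast; noncomm_ring

variable [Algebra ℚ R]

/-- `ℚ[U][T] → R`, `T ↦ t`, `U ↦ v_m`. -/
noncomputable def Rel.ι (h : Rel m t D v) : ℚ[X][X] →ₐ[ℚ] R :=
  eval₂AlgHom (aeval (vv D v m)) t fun a => by
    induction a using Polynomial.induction_on' with
    | add p q hp hq => rw [map_add]; exact hp.add_left hq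
    | monomial n a =>
      rw [aeval_monomial]
      exact (Algebra.commute_algebraMap_left a t).mul_left
        (Commute.pow_left (h.comm m).symm n)

lemma Rel.ι_X (h : Rel m t D v) : h.ι X = t := by simp [Rel.ι]
lemma Rel.ι_U (h : Rel m t D v) : h.ι (C X) = vv D v m := by simp [Rel.ι]

lemma Rel.vv_mem (h : Rel m t D v) (j : ℕ) (hj : j ≤ m) : vv D v (m - j) ∈ h.ι.range := by
  induction j with
  | zero => exact ⟨C X, h.ι_U⟩
  | succ j ih =>
    have e := h.step (m - (j + 1))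
    rw [show m - (j + 1) + 1 = m - j by omega, Nat.cast_sub hj, sub_sub_cancel] at e
    have e2 : vv D v (m - (j + 1)) = ((j + 1 : ℕ) : ℚ)⁻¹ • (t * vv D v (m - j)) := by
      rw [e, ← nsmul_eq_mul, ← Nat.cast_smul_eq_nsmul ℚ, smul_smul, inv_mul_cancel₀, one_smul]
      exact_mod_cast Nat.succ_ne_zero j
    rw [e2]
    exact Subalgebra.smul_mem _ (mul_mem (show t ∈ h.ι.range from ⟨X, h.ι_X⟩) (ih (by omega))) _

def Cj (t D v : R) (j : ℕ) : Subalgebra ℚ R :=
  Algebra.adjoin ℚ (insert t {x | ∃ i ≤ j, x = vv D v i})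

lemma Cj_mono (j : ℕ) : Cj t D v j ≤ Cj t D v (j + 1) :=
  Algebra.adjoin_mono (Set.insert_subset_insert fun _ ⟨i, hi, hx⟩ => ⟨i, by omega, hx⟩)

lemma Rel.ad_mem (h : Rel m t D v) (j : ℕ) (c : R) (hc : c ∈ Cj t D v j) :
    D * c - c * D ∈ Cj t D v (j + 1) := by
  induction hc using Algebra.adjoin_induction with
  | mem x hx =>
    rcases hx with rfl | ⟨i, hi, rfl⟩
    · rw [h.h1, add_sub_cancel_left]; exact one_mem _
    · exact Algebra.subset_adjoin (Or.inr ⟨i + 1, by omega, rfl⟩)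
  | algebraMap r => rw [Algebra.commutes, sub_self]; exact zero_mem _
  | add x y _ _ hx hy =>
    rw [show D * (x + y) - (x + y) * D = (D * x - x * D) + (D * y - y * D) by noncomm_ring]
    exact add_mem hx hy
  | mul x y hx' hy' hx hy =>
    rw [show D * (x * y) - (x * y) * D = (D * x - x * D) * y + x * (D * y - y * D) by noncomm_ring]
    exact add_mem (mul_mem hx (Cj_mono j hy')) (mul_mem (Cj_mono j hx') hy)

def Wj (t D v : R) (j : ℕ) : Submodule ℚ R :=
  Submodule.span ℚ {x | ∃ c ∈ Cj t D v j, ∃ b : ℕ, x = c * D ^ b}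

lemma Wj_mono (j : ℕ) : Wj t D v j ≤ Wj t D v (j + 1) :=
  Submodule.span_mono fun _ ⟨c, hc, hx⟩ => ⟨c, Cj_mono j hc, hx⟩

lemma Rel.mul_mem_W (h : Rel m t D v) (j : ℕ) (g : R) (hg : g = t ∨ g = D ∨ g = v) (x : R)
    (hx : x ∈ Wj t D v j) : g * x ∈ Wj t D v (j + 1) := by
  induction hx using Submodule.span_induction with
  | mem x hx =>
    obtain ⟨c, hc, b, rfl⟩ := hx
    rcases hg with rfl | rfl | rfl
    · exact Submodule.subset_span ⟨g * c, mul_mem (Algebra.subset_adjoin (Or.inl rfl))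
        (Cj_mono j hc), b, (mul_assoc _ _ _).symm⟩
    · rw [show g * (c * g ^ b) = (g * c - c * g) * g ^ b + c * g ^ (b + 1) by
        rw [pow_succ']; noncomm_ring]
      exact add_mem (Submodule.subset_span ⟨_, h.ad_mem j c hc, b, rfl⟩)
        (Submodule.subset_span ⟨c, Cj_mono j hc, b + 1, rfl⟩)
    · exact Submodule.subset_span ⟨g * c,
        mul_mem (Algebra.subset_adjoin (Or.inr ⟨0, by omega, rfl⟩))
        (Cj_mono j hc), b, (mul_assoc _ _ _).symm⟩
  | zero => rw [mul_zero]; exact zero_mem _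
  | add x y _ _ hx hy => rw [mul_add]; exact add_mem hx hy
  | smul a x _ hx => rw [mul_smul_comm]; exact Submodule.smul_mem _ _ hx

lemma Rel.prod_mem_W (h : Rel m t D v) (l : List R) (hl : ∀ g ∈ l, g = t ∨ g = D ∨ g = v)
    (j : ℕ) (hj : l.length ≤ j) : l.prod ∈ Wj t D v j := by
  induction l generalizing j with
  | nil => exact Submodule.subset_span ⟨1, one_mem _, 0, by simp⟩
  | cons g l ih =>
    obtain ⟨j, rfl⟩ : ∃ i, j = i + 1 := ⟨j - 1, by simp at hj; omega⟩
    rw [List.prod_cons]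
    exact h.mul_mem_W j g (hl g (by simp)) _
      (ih (fun g hg => hl g (by simp [hg])) j (by simpa using hj))

/-- Normal forms. -/
noncomputable def Rel.ev (h : Rel m t D v) : ℚ[X][X][X] →ₗ[ℚ] R :=
  Polynomial.lsum fun b => (LinearMap.mulRight ℚ (D ^ b)).comp h.ι.toLinearMap

lemma Rel.ev_apply (h : Rel m t D v) (P : ℚ[X][X][X]) :
    h.ev P = ∑ b ∈ Finset.range (P.natDegree + 1), h.ι (P.coeff b) * D ^ b := by
  rw [Rel.ev, lsum_apply, sum_over_range]
  · rfl
  · simp

lemma Rel.W_le (h : Rel m t D v) : Wj t D v m ≤ LinearMap.range h.ev := by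
  refine Submodule.span_le.2 ?_
  rintro _ ⟨c, hc, b, rfl⟩
  have : Cj t D v m ≤ h.ι.range := by
    refine Algebra.adjoin_le ?_
    rintro x (rfl | ⟨i, hi, rfl⟩)
    · exact ⟨X, h.ι_X⟩
    · have := h.vv_mem (m - i) (by omega)
      rwa [show m - (m - i) = i by omega] at this
  obtain ⟨F, rfl⟩ := this hc
  refine ⟨monomial b F, ?_⟩
  rw [Rel.ev, lsum_apply, sum_monomial_index]
  · rfl
  · simp

end general

abbrev A : Type := ℚ[X][X]
abbrev E : Type := Module.End ℚ (ℕ → A)

/-- Pointwise multiplication. -/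
noncomputable def mu : A →ₐ[ℚ] E :=
  (Algebra.lmul ℚ (ℕ → A)).comp (Pi.constAlgHom ℚ ℕ A)

lemma mu_apply (F : A) (f : ℕ → A) (n : ℕ) : mu F f n = F * f n := rfl

noncomputable def δ : E where
  toFun f n := (match n with | 0 => 0 | n + 1 => f n) + derivative (f n)
  map_add' f g := by
    funext n; cases n <;> simp; abel
  map_smul' c f := by
    funext n; cases n <;> simp

lemma δ_zero (f : ℕ → A) : δ f 0 = derivative (f 0) := zero_add _
lemma δ_succ (f : ℕ → A) (n : ℕ) : δ f (n + 1) = f n + derivative (f (n + 1)) := rfl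

lemma δ_mu (F : A) : δ * mu F - mu F * δ = mu (derivative F) := by
  refine LinearMap.ext fun f => funext fun n => ?_
  cases n
  · simp [δ_zero, mu_apply, derivative_mul]
  · simp [δ_succ, mu_apply, derivative_mul]; ring

noncomputable def v₀ (m : ℕ) : A := C (C ((m.factorial : ℚ)⁻¹) * X) * X ^ m

lemma vv_mu (F : A) (i : ℕ) : vv δ (mu F) i = mu (derivative^[i] F) := by
  induction i with
  | zero => rfl
  | succ i ih => rw [vv, ih, δ_mu, Function.iterate_succ_apply']

lemma vv_top (m : ℕ) : vv δ (mu (v₀ m)) m = mu (C X) := by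
  rw [vv_mu, v₀, iterate_derivative_C_mul, iterate_derivative_X_pow_eq_C_mul, Nat.sub_self,
    pow_zero, mul_one, ← C_mul, Nat.descFactorial_self]
  congr 2
  have : (m.factorial : ℚ) ≠ 0 := by exact_mod_cast m.factorial_ne_zero
  rw [mul_right_comm, ← C_eq_natCast, ← C_mul, inv_mul_cancel₀ this, C_1, one_mul]

lemma rel_E (m : ℕ) : Rel m (mu X) δ (mu (v₀ m)) := by
  refine ⟨?_, ?_, ?_⟩
  · have := δ_mu X
    rw [derivative_X, map_one] at this
    rw [← this]; abel
  · rw [← map_mul, ← map_mul, mul_comm]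
  · rw [δ_mu, ← map_mul, ← map_natCast mu, ← map_mul]
    congr 1
    rw [v₀, derivative_C_mul, derivative_X_pow]
    cases m with
    | zero => simp
    | succ m => simp only [Nat.add_sub_cancel, map_natCast]; ring

def Lead (n : ℕ) (F : A) (f : ℕ → A) : Prop := f n = F ∧ ∀ j, n < j → f j = 0

lemma Lead.δ {n : ℕ} {F : A} {f : ℕ → A} (h : Lead n F f) : Lead (n + 1) F (δ f) := by
  refine ⟨by rw [δ_succ, h.1, h.2 _ (by omega)]; simp, fun j hj => ?_⟩
  obtain ⟨j, rfl⟩ : ∃ i, j = i + 1 := ⟨j - 1, by omega⟩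
  rw [δ_succ, h.2 _ (by omega), h.2 _ (by omega)]; simp

lemma Lead.δ_pow {n : ℕ} {F : A} {f : ℕ → A} (h : Lead n F f) (b : ℕ) :
    Lead (n + b) F ((HiddenZD.δ ^ b) f) := by
  induction b with
  | zero => exact h
  | succ b ih => rw [pow_succ']; exact ih.δ

lemma Lead.op {n : ℕ} {F : A} {f : ℕ → A} (h : Lead n F f) (P : A[X]) :
    Lead (n + P.natDegree) (P.leadingCoeff * F)
      ((∑ b ∈ Finset.range (P.natDegree + 1), mu (P.coeff b) * HiddenZD.δ ^ b) f) := by
  simp only [Lead, LinearMap.sum_apply, Finset.sum_apply, Module.End.mul_apply, mu_apply]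
  refine ⟨?_, fun j hj => Finset.sum_eq_zero fun b hb => ?_⟩
  · rw [Finset.sum_range_succ, (h.δ_pow _).1, Finset.sum_eq_zero, zero_add]
    · rfl
    · intro b hb
      rw [(h.δ_pow b).2 _ (by have := Finset.mem_range.1 hb; omega), mul_zero]
  · rw [(h.δ_pow b).2 _ (by have := Finset.mem_range.1 hb; omega), mul_zero]

lemma low_domain {R : Type} [Ring R] [Algebra ℚ R] {m : ℕ} {t D v : R} (h : Rel m t D v)
    (ρ : R →ₐ[ℚ] E) (ht : ρ t = mu X) (hD : ρ D = δ) (hv : ρ v = mu (v₀ m))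
    (p q : R) (hp : p ∈ Wj t D v m) (hq : q ∈ Wj t D v m) (hp0 : p ≠ 0) (hq0 : q ≠ 0) :
    p * q ≠ 0 := by
  have hι : ∀ F, ρ (h.ι F) = mu F := by
    have : ρ.comp h.ι = mu := by
      refine Polynomial.algHom_ext' (Polynomial.algHom_ext ?_) ?_
      · have := map_vv (S := E) ρ D v m
        simp only [hD, hv, vv_top] at this
        simpa [h.ι_U] using this
      · simpa [h.ι_X] using ht
    exact fun F => DFunLike.congr_fun this F
  have hev : ∀ P, ρ (h.ev P) =
      ∑ b ∈ Finset.range (P.natDegree + 1), mu (P.coeff b) * HiddenZD.δ ^ b := by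
    intro P
    simp only [h.ev_apply, map_sum, map_mul, map_pow, hι, hD]
  obtain ⟨P, rfl⟩ := h.W_le hp
  obtain ⟨Q, rfl⟩ := h.W_le hq
  have hP : P ≠ 0 := fun e => hp0 (by rw [e, map_zero])
  have hQ : Q ≠ 0 := fun e => hq0 (by rw [e, map_zero])
  intro h0
  have h1 : Lead 0 1 (Pi.single 0 1) := ⟨by simp, fun j hj => by simp [hj.ne']⟩
  have h2 := ((h1.op Q).op P).1
  rw [← hev, ← hev, ← Module.End.mul_apply, ← map_mul, h0, map_zero] at h2
  exact mul_ne_zero (leadingCoeff_ne_zero.2 hP) (mul_ne_zero (leadingCoeff_ne_zero.2 hQ)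
    one_ne_zero) h2.symm

/-! A representation in which `v_{m+1}` does not vanish. -/

abbrev N : Type := ℤ → ℚ

def τ : Module.End ℚ N where
  toFun n i := i * n (i - 1)
  map_add' f g := by funext i; simp [mul_add]
  map_smul' c f := by funext i; simp; ring

def sh : Module.End ℚ N where
  toFun n i := n (i + 1)
  map_add' _ _ := rfl
  map_smul' _ _ := rfl

lemma sh_τ : sh * τ = τ * sh + 1 := by
  refine LinearMap.ext fun f => funext fun i => ?_
  simp [sh, τ]; ring

lemma sh_aeval (f : ℚ[X]) : sh * aeval τ f = aeval τ (derivative f) + aeval τ f * sh := by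
  induction f using Polynomial.recOnHorner with
  | M0 => simp
  | MC p a _ _ ih => simp [mul_add, add_mul, ih, Algebra.commutes, add_assoc]
  | MX p _ ih =>
    rw [derivative_mul, derivative_X, mul_one, map_mul, map_add, map_mul, aeval_X, ← mul_assoc, ih,
      add_mul, mul_assoc (aeval τ p), sh_τ]
    noncomm_ring

abbrev E₂ : Type := Module.End ℚ (ℚ[X] × N)

noncomputable def t₂ : E₂ := (LinearMap.mulLeft ℚ X).prodMap τ
noncomputable def D₂ : E₂ := (derivative).prodMap sh
noncomputable def w₂ (n : N) : E₂ where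
  toFun x := (0, aeval τ x.1 n)
  map_add' f g := by simp
  map_smul' c f := by simp

lemma D_w (n : N) : D₂ * w₂ n - w₂ n * D₂ = w₂ (sh n) := by
  refine LinearMap.ext fun x => ?_
  have := LinearMap.congr_fun (sh_aeval x.1) n
  simp only [Module.End.mul_apply, LinearMap.add_apply] at this
  simp [D₂, w₂, this]

lemma vv_w (n : N) (i : ℕ) : vv D₂ (w₂ n) i = w₂ ((sh ^ i) n) := by
  induction i with
  | zero => rfl
  | succ i ih => rw [vv, ih, D_w, pow_succ']; rfl

lemma τ_aeval (f : ℚ[X]) (n : N) : τ (aeval τ f n) = aeval τ f (τ n) := by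
  have : τ * aeval τ f = aeval τ f * τ := by
    have := congrArg (aeval τ) (mul_comm X f)
    simpa using this
  exact LinearMap.congr_fun this n

lemma rel_E₂ (m : ℕ) : Rel m t₂ D₂ (w₂ (Pi.single (m : ℤ) 1)) := by
  refine ⟨?_, ?_, ?_⟩
  · refine LinearMap.ext fun x => ?_
    have := LinearMap.congr_fun sh_τ x.2
    simp only [Module.End.mul_apply, LinearMap.add_apply, Module.End.one_apply] at this
    ext1
    · simp [D₂, t₂, derivative_mul, add_comm]
    · simp [D₂, t₂, this]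
  · refine LinearMap.ext fun x => ?_
    simp [t₂, w₂]
  · rw [D_w]
    refine LinearMap.ext fun x => ?_
    have h1 : τ (sh (Pi.single (m : ℤ) 1)) = (m : ℚ) • Pi.single (m : ℤ) 1 := by
      funext i
      by_cases hi : i = m <;> simp [τ, sh, hi]
    ext1
    · simp [t₂, w₂]
    · show τ (aeval τ x.1 _) = _
      rw [τ_aeval, h1, map_smul, Module.End.mul_apply, Module.End.natCast_apply,
        Nat.cast_smul_eq_nsmul]
      rfl

lemma sh_pow (i : ℕ) (n : N) (j : ℤ) : (sh ^ i) n j = n (j + i) := by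
  induction i generalizing j with
  | zero => simp
  | succ i ih =>
    rw [pow_succ', Module.End.mul_apply]
    show (sh ^ i) n (j + 1) = _
    rw [ih]; congr 1; push_cast; ring

lemma vv_ne (m : ℕ) : vv D₂ (w₂ (Pi.single (m : ℤ) 1)) (m + 1) ≠ 0 := by
  intro h
  rw [vv_w] at h
  have := congrFun (congrArg Prod.snd (LinearMap.congr_fun h (1, 0))) (-1)
  simp [w₂, sh_pow] at this

lemma t₂_ne : t₂ ≠ 0 := by
  intro h
  have := congrArg Prod.fst (LinearMap.congr_fun h (1, 0))
  simp [t₂] at this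

abbrev Fr : Type := FreeAlgebra ℚ (Fin 3)

noncomputable def rr (m : ℕ) : Fin 3 → Fr :=
  ![FreeAlgebra.ι ℚ 1 * FreeAlgebra.ι ℚ 0 - (FreeAlgebra.ι ℚ 0 * FreeAlgebra.ι ℚ 1 + 1),
    FreeAlgebra.ι ℚ 0 * FreeAlgebra.ι ℚ 2 - FreeAlgebra.ι ℚ 2 * FreeAlgebra.ι ℚ 0,
    FreeAlgebra.ι ℚ 0 * (FreeAlgebra.ι ℚ 1 * FreeAlgebra.ι ℚ 2
      - FreeAlgebra.ι ℚ 2 * FreeAlgebra.ι ℚ 1) - (m : Fr) * FreeAlgebra.ι ℚ 2]

lemma kill {S : Type} [Ring S] [Algebra ℚ S] {m : ℕ} {t D v : S} (h : Rel m t D v) (x : Fr)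
    (hx : x ∈ TwoSidedIdeal.span (Set.range (rr m))) : FreeAlgebra.lift ℚ ![t, D, v] x = 0 := by
  have : TwoSidedIdeal.span (Set.range (rr m)) ≤
      TwoSidedIdeal.ker (FreeAlgebra.lift ℚ ![t, D, v]) := by
    rw [TwoSidedIdeal.span_le]
    rintro _ ⟨i, rfl⟩
    rw [SetLike.mem_coe, TwoSidedIdeal.mem_ker]
    fin_cases i
    · simp [rr, h.h1]
    · simp [rr, h.h2]
    · simp [rr, h.h3]
  exact (TwoSidedIdeal.mem_ker _).1 (this hx)

theorem main :
    ¬ (∀ d s n : ℕ, ∃ N : ℕ, ∀ (k : Type) [Field k] (r : Fin s → FreeAlgebra k (Fin d)),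
      (∀ i, r i ∈ Submodule.span k
        {a : FreeAlgebra k (Fin d) | ∃ w : FreeMonoid (Fin d),
          w.length ≤ n ∧ a = (w.toList.map (FreeAlgebra.ι k)).prod}) →
      (∃ p q : FreeAlgebra k (Fin d),
        p ∉ TwoSidedIdeal.span (Set.range r) ∧ q ∉ TwoSidedIdeal.span (Set.range r) ∧
        p * q ∈ TwoSidedIdeal.span (Set.range r)) →
      ∃ p q : FreeAlgebra k (Fin d),
        p ∈ Submodule.span k
          {a : FreeAlgebra k (Fin d) | ∃ w : FreeMonoid (Fin d),
            w.length < N ∧ a = (w.toList.map (FreeAlgebra.ι k)).prod} ∧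
        q ∈ Submodule.span k
          {a : FreeAlgebra k (Fin d) | ∃ w : FreeMonoid (Fin d),
            w.length < N ∧ a = (w.toList.map (FreeAlgebra.ι k)).prod} ∧
        p ∉ TwoSidedIdeal.span (Set.range r) ∧ q ∉ TwoSidedIdeal.span (Set.range r) ∧
        p * q ∈ TwoSidedIdeal.span (Set.range r)) := by
  intro H
  obtain ⟨m, hm⟩ := H 3 3 3
  set I := TwoSidedIdeal.span (Set.range (rr m)) with hI
  let π : Fr →ₐ[ℚ] I.ringCon.Quotient := RingCon.mkₐ ℚ I.ringCon
  have hπ : ∀ x, π x = 0 ↔ x ∈ I := fun x => by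
    rw [← map_zero π]; exact RingCon.eq _
  have hr : ∀ i, π (rr m i) = 0 := fun i => (hπ _).2 (TwoSidedIdeal.subset_span ⟨i, rfl⟩)
  have hrel : Rel m (π (FreeAlgebra.ι ℚ 0)) (π (FreeAlgebra.ι ℚ 1)) (π (FreeAlgebra.ι ℚ 2)) :=
    ⟨by simpa [rr, sub_eq_zero] using hr 0, by simpa [rr, sub_eq_zero] using hr 1,
      by simpa [rr, sub_eq_zero] using hr 2⟩
  obtain ⟨p, q, hp, hq, hp0, hq0, hpq⟩ := hm ℚ (rr m) (by
    have hw : ∀ l : List (Fin 3), l.length ≤ 3 → (l.map (FreeAlgebra.ι ℚ)).prod ∈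
        Submodule.span ℚ {a : FreeAlgebra ℚ (Fin 3) | ∃ w : FreeMonoid (Fin 3),
          w.length ≤ 3 ∧ a = (w.toList.map (FreeAlgebra.ι ℚ)).prod} :=
      fun l hl => Submodule.subset_span ⟨FreeMonoid.ofList l, hl, rfl⟩
    intro i
    fin_cases i
    · simpa [rr] using sub_mem (hw [1, 0] (by simp)) (add_mem (hw [0, 1] (by simp)) (hw [] (by simp)))
    · simpa [rr] using sub_mem (hw [0, 2] (by simp)) (hw [2, 0] (by simp))
    · simpa [rr, mul_sub] using sub_mem (sub_mem (hw [0, 1, 2] (by simp)) (hw [0, 2, 1] (by simp)))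
        (nsmul_mem (hw [2] (by simp)) m)) (by
    refine ⟨FreeAlgebra.ι ℚ 0, vv (FreeAlgebra.ι ℚ 1) (FreeAlgebra.ι ℚ 2) (m + 1), ?_, ?_, ?_⟩
    · intro h
      exact t₂_ne (by simpa using kill (rel_E₂ m) _ h)
    · intro h
      have := kill (rel_E₂ m) _ h
      rw [map_vv] at this
      exact vv_ne m (by simpa using this)
    · rw [← hπ, map_mul, map_vv, hrel.step, sub_self, zero_mul])
  let ρ : I.ringCon.Quotient →ₐ[ℚ] E :=
    RingCon.liftₐ I.ringCon (FreeAlgebra.lift ℚ ![mu X, δ, mu (v₀ m)]) fun x y hxy => by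
      have := kill (rel_E m) _ ((I.rel_iff x y).1 hxy)
      rw [map_sub, sub_eq_zero] at this
      exact this
  have hρ : ∀ x, ρ (π x) = FreeAlgebra.lift ℚ ![mu X, δ, mu (v₀ m)] x := fun x => rfl
  have hW : ∀ x ∈ Submodule.span ℚ {a : FreeAlgebra ℚ (Fin 3) | ∃ w : FreeMonoid (Fin 3),
      w.length < m ∧ a = (w.toList.map (FreeAlgebra.ι ℚ)).prod}, π x ∈
      Wj (π (FreeAlgebra.ι ℚ 0)) (π (FreeAlgebra.ι ℚ 1)) (π (FreeAlgebra.ι ℚ 2)) m := by
    intro x hx
    induction hx using Submodule.span_induction with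
    | mem x hx =>
      obtain ⟨w, hw, rfl⟩ := hx
      rw [map_list_prod]
      refine hrel.prod_mem_W _ ?_ m (by rw [List.length_map, List.length_map]; exact hw.le)
      intro g hg
      simp only [List.map_map, List.mem_map, Function.comp] at hg
      obtain ⟨i, -, rfl⟩ := hg
      fin_cases i <;> simp
    | zero => rw [map_zero]; exact zero_mem _
    | add x y _ _ hx hy => rw [map_add]; exact add_mem hx hy
    | smul a x _ hx => rw [map_smul]; exact Submodule.smul_mem _ _ hx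
  refine low_domain hrel ρ (by simp [hρ]) (by simp [hρ]) (by simp [hρ]) _ _ (hW p hp) (hW q hq)
    (fun h => hp0 ((hπ _).1 h)) (fun h => hq0 ((hπ _).1 h)) ?_
  rw [← map_mul]
  exact (hπ _).2 hpq

end Pool.Agent.H73.HiddenZD
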