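import Mathlib

set_option autoImplicit false

namespace Pool.Agent.H73.IAS

lemma finiteIndex_of_map {G F : Type} [Group G] [Finite F] (H : Subgroup G) (Ψ : G → F)
    (h : ∀ a b, Ψ a = Ψ b → a * b⁻¹ ∈ H) : H.FiniteIndex := by
  have : Finite (G ⧸ H) := by
    refine Finite.of_injective (fun q : G ⧸ H => Ψ q.out⁻¹) (fun q q' e => ?_)
    rw [← q.out_eq, ← q'.out_eq]
    apply Quotient.sound
    show QuotientGroup.leftRel _ _ _
    rw [QuotientGroup.leftRel_apply]
    simpa using h _ _ e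
  exact H.finiteIndex_of_finite_quotient

instance innN (G : Type) [Group G] : (MulAut.conj : G →* MulAut G).range.Normal :=
  ⟨by
    rintro _ ⟨g, rfl⟩ a
    exact ⟨a g, by ext; simp⟩⟩

variable {D Q ι : Type} [Group D] [Group Q] (π : D →* Q) (B : ι → Subgroup D)
  [hn : ∀ i, (B i).Normal]

def Z (i : ι) : Subgroup D := (MulAut.conjNormal : D →* MulAut (B i)).ker

instance (i : ι) : (Z B i).Normal := MonoidHom.normal_ker _

lemma mem_Z {i : ι} {d : D} : d ∈ Z B i ↔ ∀ x ∈ B i, d * x * d⁻¹ = x := by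
  rw [Z, MonoidHom.mem_ker]
  constructor
  · intro h x hx
    have := congrArg (fun a : MulAut (B i) => ((a ⟨x, hx⟩ : B i) : D)) h
    simpa using this
  · intro h
    ext x
    simpa using h x x.2

structure Good : Prop where
  fin : ∀ i, Finite (B i)
  comm : ∀ i j, i ≠ j → B i ≤ Z B j
  cz : ∀ d, (∀ i, d ∈ Z B i) → d = 1
  ker : ∀ d, π d = 1 ↔ {i | d ∉ Z B i}.Finite
  loc : ∀ d, π d = 1 → ∀ i, ∃ b ∈ B i, ∀ x ∈ B i, b * x * b⁻¹ = d * x * d⁻¹
  surj : Function.Surjective π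

variable {π B}

lemma fixl {α : MulAut D} {d : D} {i : ι} (h : ∀ x ∈ B i, α x = d * x * d⁻¹) (g : D) :
    α g * (d * g * d⁻¹)⁻¹ ∈ Z B i := by
  rw [mem_Z]
  intro x hx
  have h1 : g⁻¹ * d⁻¹ * x * (g⁻¹ * d⁻¹)⁻¹ ∈ B i := (hn i).conj_mem _ hx _
  have h2 := h _ ((hn i).conj_mem _ h1 g)
  rw [map_mul, map_mul, map_inv, h _ h1] at h2
  calc _ = α g * (d * (g⁻¹ * d⁻¹ * x * (g⁻¹ * d⁻¹)⁻¹) * d⁻¹) * (α g)⁻¹ := by group
    _ = _ := by rw [h2]; group

variable (hG : Good π B)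
include hG

lemma Good.fi (i : ι) : (Z B i).FiniteIndex := by
  have := hG.fin i
  exact Subgroup.finiteIndex_ker _

lemma Good.rf : Group.ResiduallyFinite D := by
  rw [Group.residuallyFinite_iff_exists_finiteIndex]
  intro g hg
  by_contra c
  push Not at c
  exact hg (hG.cz g fun i => c _ (hG.fi i))

lemma Good.patch (P : Finset ι) (N : Subgroup D) (hN : ∀ i ∈ P, B i ≤ N) (b : ι → D)
    (hb : ∀ i, b i ∈ B i) : ∃ c ∈ N, (∀ i, i ∉ P → c ∈ Z B i) ∧
      ∀ i ∈ P, ∀ x ∈ B i, c * x * c⁻¹ = b i * x * (b i)⁻¹ := by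
  classical
  induction P using Finset.induction_on with
  | empty => exact ⟨1, N.one_mem, fun _ _ => one_mem _, by simp⟩
  | insert j P hj ih =>
    obtain ⟨c, h1, h2, h3⟩ := ih (fun i hi => hN i (by simp [hi]))
    refine ⟨b j * c, N.mul_mem (hN j (by simp) (hb j)) h1, fun i hi => ?_, fun i hi x hx => ?_⟩
    · simp only [Finset.mem_insert, not_or] at hi
      exact mul_mem (hG.comm j i (Ne.symm hi.1) (hb j)) (h2 i hi.2)
    · have e : b j * c * x * (b j * c)⁻¹ = b j * (c * x * c⁻¹) * (b j)⁻¹ := by group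
      rw [e]
      rcases Finset.mem_insert.mp hi with rfl | hi
      · rw [(mem_Z B).mp (h2 i hj) x hx]
      · rw [h3 i hi x hx]
        exact (mem_Z B).mp (hG.comm j i (by rintro rfl; exact hj hi) (hb j)) _
          ((hn i).conj_mem _ hx _)

lemma Good.ker_mem {d : D} (hd : π d = 1) (N : Subgroup D) (hN : ∀ i, d ∉ Z B i → B i ≤ N) :
    d ∈ N := by
  choose b hb1 hb2 using hG.loc d hd
  obtain ⟨c, h1, h2, h3⟩ := hG.patch ((hG.ker d).mp hd).toFinset N
    (fun i hi => hN i (by simpa using hi)) b hb1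
  have : c⁻¹ * d = 1 := by
    apply hG.cz
    intro i
    by_cases hi : d ∈ Z B i
    · exact mul_mem (inv_mem (h2 i (by simpa using hi))) hi
    · rw [mem_Z]
      intro x hx
      have := h3 i (by simpa using hi) x hx
      rw [hb2 i x hx] at this
      calc _ = c⁻¹ * (d * x * d⁻¹) * c := by group
        _ = _ := by rw [← this]; group
  rw [inv_mul_eq_one] at this
  rwa [← this]

lemma Good.ni (K : Subgroup D) [K.Normal] [K.FiniteIndex] (P : Finset ι)
    (hP : ∀ i, i ∉ P → B i ≤ K) (α : MulAut D) (d : D)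
    (h : ∀ i ∈ P, ∀ x ∈ B i, α x = d * x * d⁻¹) (g : D)
    (hR : ∀ N : Subgroup Q, N.Normal → N.FiniteIndex → π (α g * (d * g * d⁻¹)⁻¹) ∈ N) :
    α g * (d * g * d⁻¹)⁻¹ ∈ K := by
  have h1 : (⨅ i ∈ P, Z B i).FiniteIndex := Subgroup.finiteIndex_iInf' _ (fun i _ => hG.fi i)
  have h2 : (⨅ i ∈ P, Z B i).Normal :=
    Subgroup.normal_iInf_normal fun i => Subgroup.normal_iInf_normal fun _ => inferInstance
  obtain ⟨κ, hκ, e⟩ := hR ((K ⊓ ⨅ i ∈ P, Z B i).map π) (Subgroup.Normal.map inferInstance π hG.surj)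
    ⟨fun e => by
      have := Subgroup.index_map_dvd (K ⊓ ⨅ i ∈ P, Z B i) hG.surj
      rw [e, zero_dvd_iff] at this
      exact Subgroup.FiniteIndex.index_ne_zero this⟩
  have := hG.ker_mem (d := κ⁻¹ * (α g * (d * g * d⁻¹)⁻¹)) (by rw [map_mul, map_inv, e]; simp) K
    (fun i hi => hP i (fun hi' => hi (mul_mem (inv_mem (by
      have := (Subgroup.mem_inf.mp hκ).2
      simp only [Subgroup.mem_iInf] at this
      exact this i hi')) (fixl (h i hi') g))))
  have := mul_mem (Subgroup.mem_inf.mp hκ).1 this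
  rwa [mul_inv_cancel_left] at this

lemma Good.char (dich : ∀ N : Subgroup D, N.Normal → ∀ i, B i ≤ N ∨ N ≤ Z B i)
    (hnt : ∀ i, ∃ x ∈ B i, x ≠ 1) (hc : ∀ i j, Nat.card (B i) = Nat.card (B j) → i = j)
    (α : MulAut D) (i : ι) : ∀ x ∈ B i, α x ∈ B i := by
  have key : ∀ (α : MulAut D) (i : ι), ∃ j, B j ≤ (B i).map α.toMonoidHom := by
    intro α i
    by_contra c
    push Not at c
    obtain ⟨x, hx, hx1⟩ := hnt i
    apply hx1
    rw [← map_eq_one_iff α α.injective]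
    exact hG.cz _ fun j => ((dich _ ((hn i).map α.toMonoidHom α.surjective) j).resolve_left (c j))
      ⟨x, hx, rfl⟩
  obtain ⟨j, hj⟩ := key α i
  obtain ⟨k, hk⟩ := key α⁻¹ j
  have h1 : B k ≤ B i := by
    intro x hx
    obtain ⟨y, hy, rfl⟩ := hk hx
    obtain ⟨z, hz, rfl⟩ := hj hy
    simpa using hz
  have h2 : k = i := by
    by_contra c
    obtain ⟨x, hx, hx1⟩ := hnt k
    refine hx1 (hG.cz _ fun l => ?_)
    by_cases e : k = l
    · exact hG.comm i l (by rw [← e]; exact Ne.symm c) (h1 hx)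
    · exact hG.comm k l e hx
  subst h2
  have h3 : (B k).map α.toMonoidHom = B j := by
    refine le_antisymm ?_ hj
    rintro _ ⟨x, hx, rfl⟩
    obtain ⟨y, hy, rfl⟩ := hk hx
    simpa using hy
  have h4 : k = j := hc _ _ (by
    rw [← h3]
    exact Nat.card_congr (Subgroup.equivMapOfInjective _ _ α.injective).toEquiv)
  intro x hx
  have : α x ∈ B j := h3 ▸ ⟨x, hx, rfl⟩
  exact h4 ▸ this

variable (chr : ∀ α : MulAut D, ∀ i, ∀ x ∈ B i, α x ∈ B i)
include chr

lemma Good.ind (α : MulAut D) : ∃ a : MulAut Q, ∀ g, a (π g) = π (α g) := by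
  have key : ∀ α : MulAut D, ∃ a : Q →* Q, ∀ g, a (π g) = π (α g) := by
    intro α
    refine ⟨π.liftOfSurjective hG.surj ⟨π.comp α.toMonoidHom, fun d hd => ?_⟩, fun g => by simp⟩
    rw [MonoidHom.mem_ker] at hd ⊢
    refine (hG.ker (α d)).mpr (((hG.ker d).mp hd).subset fun i hi hi' => hi ?_)
    rw [mem_Z] at hi' ⊢
    intro x hx
    have := congrArg α (hi' _ (chr α⁻¹ i x hx))
    simpa using this
  obtain ⟨a, ha⟩ := key α
  obtain ⟨b, hb⟩ := key α⁻¹
  refine ⟨MonoidHom.toMulEquiv a b ?_ ?_, ha⟩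
  · ext q
    obtain ⟨g, rfl⟩ := hG.surj q
    simp [ha, hb]
  · ext q
    obtain ⟨g, rfl⟩ := hG.surj q
    simp [ha, hb]

omit hG in
def H (i : ι) : Subgroup (MulAut D) where
  carrier := {α | ∃ d, (∀ g, π (α g) = π (d * g * d⁻¹)) ∧ ∀ x ∈ B i, α x = d * x * d⁻¹}
  one_mem' := ⟨1, by simp, by simp⟩
  mul_mem' := by
    rintro α β ⟨d, h1, h2⟩ ⟨e, h3, h4⟩
    refine ⟨d * e, fun g => ?_, fun x hx => ?_⟩
    · rw [MulAut.mul_apply, h1, map_mul, map_mul, h3, ← map_mul, ← map_mul]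
      congr 1; group
    · rw [MulAut.mul_apply, h4 x hx, h2 _ ((hn i).conj_mem _ hx _)]
      group
  inv_mem' := by
    rintro α ⟨d, h1, h2⟩
    refine ⟨d⁻¹, fun g => ?_, fun x hx => ?_⟩
    · have := h1 (α⁻¹ g)
      simp only [MulAut.apply_inv_self, map_mul, map_inv] at this ⊢
      rw [this]; group
    · apply α.injective
      rw [MulAut.apply_inv_self, h2 _ ((hn i).conj_mem _ hx _)]
      group

lemma Good.fiH [Finite (MulAut Q ⧸ (MulAut.conj : Q →* MulAut Q).range)] (i : ι) :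
    (H (π := π) (B := B) i).FiniteIndex := by
  have := hG.fin i
  have key : ∀ α : MulAut D, ∃ (c : MulAut Q ⧸ (MulAut.conj : Q →* MulAut Q).range) (d : D),
      ∀ g, π (α g) = π d * c.out (π g) * (π d)⁻¹ := by
    intro α
    obtain ⟨a, ha⟩ := hG.ind chr α
    obtain ⟨⟨_, q, rfl⟩, h⟩ := QuotientGroup.mk_out_eq_mul (MulAut.conj : Q →* MulAut Q).range a
    obtain ⟨d, hd⟩ := hG.surj (a q)⁻¹
    refine ⟨a, d, fun g => ?_⟩
    rw [h, hd, ← ha]
    simp [mul_assoc]
  choose c d h using key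
  refine finiteIndex_of_map _ (fun α => (c α, fun x : B i =>
    (⟨(d α)⁻¹ * α x * (d α)⁻¹⁻¹, (hn i).conj_mem _ (chr α i x x.2) _⟩ : B i))) (fun α β e => ?_)
  obtain ⟨e1, e2⟩ := Prod.mk.inj e
  refine ⟨d α * (d β)⁻¹, fun g => ?_, fun x hx => ?_⟩
  · have := h β (β⁻¹ g)
    rw [MulAut.apply_inv_self] at this
    rw [MulAut.mul_apply, h, e1]
    simp only [map_mul, map_inv]
    rw [this]; group
  · have := congrArg Subtype.val (congrFun e2 ⟨β⁻¹ x, chr _ i x hx⟩)
    simp only [MulAut.apply_inv_self] at this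
    rw [MulAut.mul_apply]
    calc _ = d α * ((d α)⁻¹ * α (β⁻¹ x) * (d α)⁻¹⁻¹) * (d α)⁻¹ := by group
      _ = _ := by rw [this]; group

lemma Good.inner [Nonempty ι] [hf : Group.FG D] (hc : ∀ q : Q, (∀ z, q * z * q⁻¹ = z) → q = 1)
    (α : MulAut D) (h : ∀ i, α ∈ H (π := π) (B := B) i) :
    α ∈ (MulAut.conj : D →* MulAut D).range := by
  choose d h1 h2 using h
  obtain ⟨i0⟩ := ‹Nonempty ι›
  have k : ∀ i, π ((d i0)⁻¹ * d i) = 1 := fun i => hc _ (fun z => by
    obtain ⟨g, rfl⟩ := hG.surj z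
    have := (h1 i g).symm.trans (h1 i0 g)
    simp only [map_mul, map_inv] at this ⊢
    calc _ = (π (d i0))⁻¹ * (π (d i) * π g * (π (d i))⁻¹) * π (d i0) := by group
      _ = _ := by rw [this]; group)
  choose b hb1 hb2 using fun i => hG.loc _ (k i) i
  obtain ⟨A, hA, hfin⟩ := Group.fg_iff.mp hf
  set β : MulAut D := (MulAut.conj (d i0))⁻¹ * α with hβ
  have hβ' : ∀ g, β g = (d i0)⁻¹ * α g * d i0 := fun g => by simp [hβ]
  have hP : (⋃ g ∈ A, {i | β g * g⁻¹ ∉ Z B i}).Finite := hfin.biUnion fun g _ =>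
    (hG.ker _).mp (by rw [hβ']; simp only [map_mul, map_inv, h1 i0]; group)
  have h3 : ∀ i, i ∉ hP.toFinset → ∀ x ∈ B i, β x = x := by
    intro i hi x hx
    have : ∀ g, β g * g⁻¹ ∈ Z B i := by
      intro g
      have e := MonoidHom.eq_of_eqOn_dense hA
        (f := (QuotientGroup.mk' (Z B i)).comp β.toMonoidHom) (g := QuotientGroup.mk' (Z B i))
        (fun g hg => by
          simp only [Set.Finite.mem_toFinset, Set.mem_iUnion, not_exists] at hi
          have := hi g hg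
          simp only [Set.mem_ofPred_eq, not_not] at this
          have := (QuotientGroup.eq_one_iff _).mpr this
          rw [QuotientGroup.mk_mul, QuotientGroup.mk_inv, mul_inv_eq_one] at this
          exact this)
      have := DFunLike.congr_fun e g
      rw [← QuotientGroup.eq_one_iff, QuotientGroup.mk_mul, QuotientGroup.mk_inv, mul_inv_eq_one]
      exact this
    rw [← mul_inv_eq_one]
    apply hG.cz
    intro j
    by_cases c : i = j
    · exact c ▸ this x
    · exact hG.comm i j c (mul_mem (chr β i x hx) (inv_mem hx))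
  obtain ⟨c, -, c1, c2⟩ := hG.patch hP.toFinset ⊤ (fun _ _ => le_top) b hb1
  have h4 : ∀ i, ∀ x ∈ B i, α x = (d i0 * c) * x * (d i0 * c)⁻¹ := by
    intro i x hx
    have e : d i0 * c * x * (d i0 * c)⁻¹ = d i0 * (c * x * c⁻¹) * (d i0)⁻¹ := by group
    rw [e]
    by_cases hi : i ∈ hP.toFinset
    · rw [c2 i hi x hx, hb2 i x hx, h2 i x hx]; group
    · rw [(mem_Z B).mp (c1 i hi) x hx]
      have := h3 i hi x hx
      rw [hβ'] at this
      calc _ = d i0 * ((d i0)⁻¹ * α x * d i0) * (d i0)⁻¹ := by group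
        _ = _ := by rw [this]
  refine ⟨d i0 * c, ?_⟩
  ext g
  have := hG.cz _ (fun i => fixl (h4 i) g)
  rw [mul_inv_eq_one] at this
  rw [this, MulAut.conj_apply]

lemma Good.outRF [Nonempty ι] [Group.FG D] (hc : ∀ q : Q, (∀ z, q * z * q⁻¹ = z) → q = 1)
    [Finite (MulAut Q ⧸ (MulAut.conj : Q →* MulAut Q).range)] :
    Group.ResiduallyFinite (MulAut D ⧸ (MulAut.conj : D →* MulAut D).range) := by
  rw [Group.residuallyFinite_iff_exists_finiteIndex]
  intro x hx
  obtain ⟨α, rfl⟩ := QuotientGroup.mk_surjective x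
  rw [Ne, QuotientGroup.eq_one_iff] at hx
  obtain ⟨i, hi⟩ : ∃ i, α ∉ H (π := π) (B := B) i := by
    by_contra c
    push Not at c
    exact hx (hG.inner chr hc α c)
  have := hG.fiH chr i
  refine ⟨(H (π := π) (B := B) i).map (QuotientGroup.mk' _), ⟨fun e => ?_⟩, ?_⟩
  · have := Subgroup.index_map_dvd (H (π := π) (B := B) i)
      (QuotientGroup.mk'_surjective (MulAut.conj : D →* MulAut D).range)
    rw [e, zero_dvd_iff] at this
    exact Subgroup.FiniteIndex.index_ne_zero this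
  · rintro ⟨β, hβ, e⟩
    rw [QuotientGroup.mk'_apply, QuotientGroup.eq] at e
    obtain ⟨d, hd⟩ := e
    have : β⁻¹ * α ∈ H (π := π) (B := B) i := ⟨d, fun g => by rw [← hd]; rfl, fun x _ => by
      rw [← hd]; rfl⟩
    have := mul_mem hβ this
    rw [mul_inv_cancel_left] at this
    exact hi this

end Pool.Agent.H73.IAS
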