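import Pool.Agent.H73.CN1
import Pool.Agent.H73.IAS1

set_option autoImplicit false

namespace Pool.Agent.H73.IAS

open Equiv Pool.Agent.H73.CN

section
variable {X S : Type} [Group S] {G : Type} [Group G] {τ : G →* Perm X}
variable (hS : ∀ s : S, s ≠ 1 → ∃ t, s * t * s⁻¹ ≠ t) [IsSimpleGroup S]
  (hτ : Function.Injective τ)
include hS hτ

theorem W8' [Finite S] (T : Set (Perm X)) (hT : T.Finite)
    (hN : ∀ σ ∈ Subgroup.normalizer (τ.range : Set (Perm X)), ∃ g, ∃ t ∈ T, σ = τ g * t)
    (ℓ : X → Bool)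
    (hOE : ∀ f : X → (S → S), (∀ g, {x | f (τ g x) ≠ f x}.Finite) →
      ∃ c : Bool → S → S, {x | f x ≠ c (ℓ x)}.Finite)
    (hI : ∀ x, ∀ F : Set X, F.Finite → ∃ g, τ g x ∉ F ∧ ℓ (τ g x) = ℓ x) :
    Finite (MulAut (Wr τ S) ⧸ (MulAut.conj : Wr τ S →* MulAut (Wr τ S)).range) := by
  classical
  have key : ∀ φ : MulAut (Wr τ S), ∃ (γ : Wr τ S) (d : T × (Bool → S → S)),
      ∀ x s, (MulAut.conj γ * φ) (sg τ x s) = sg τ (d.1.1 x) (d.2 (ℓ x) s) := by
    intro φ
    obtain ⟨σ, a, ha, h⟩ := W6 hS hτ φ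
    obtain ⟨g, t, ht, e⟩ := hN σ (by
      rw [Subgroup.mem_normalizer_iff]
      intro u
      constructor
      · rintro ⟨g, rfl⟩
        refine ⟨(φ (SemidirectProduct.inr g)).right, ?_⟩
        rw [eq_mul_inv_iff_mul_eq]
        ext x; exact (W7 hS hτ ha h g x).1.symm
      · rintro ⟨g, hg⟩
        refine ⟨(φ.symm (SemidirectProduct.inr g)).right, ?_⟩
        ext x
        apply σ.injective
        have := (W7 hS hτ ha h (φ.symm (SemidirectProduct.inr g)).right x).1
        have e : (φ (SemidirectProduct.inr (φ.symm (SemidirectProduct.inr g)).right)).right = g := by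
          have := W5 hS hτ φ (φ.symm (SemidirectProduct.inr g) *
            (SemidirectProduct.inr (φ.symm (SemidirectProduct.inr g)).right)⁻¹) (by simp)
          simp only [map_mul, map_inv, MulEquiv.apply_symm_apply, SemidirectProduct.mul_right,
            SemidirectProduct.inv_right, SemidirectProduct.right_inr] at this
          exact (mul_inv_eq_one.mp this).symm
        rw [this, e, hg]; simp)
    obtain ⟨c, hc⟩ := hOE a (fun g => by
      refine (bs_comp (φ (SemidirectProduct.inr g)).left (σ * τ g)).subset ?_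
      intro x hx
      intro e
      apply hx
      funext s
      rw [(W7 hS hτ ha h g x).2 s]
      simp only [Perm.mul_apply] at e
      simp [e])
    have hu : ∀ x, ∃ u : S, (a x = c (ℓ x) → u = 1) ∧ ∀ s, u * a x s * u⁻¹ = c (ℓ x) s := by
      intro x
      by_cases k : a x = c (ℓ x)
      · exact ⟨1, fun _ => rfl, fun s => by simp [k]⟩
      · obtain ⟨g, hg, hℓ⟩ := hI x _ hc
        simp only [Set.mem_ofPred_eq, ne_eq, not_not, hℓ] at hg
        exact ⟨_, fun k' => (k k').elim, fun s => by rw [← hg, (W7 hS hτ ha h g x).2 s]⟩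
    choose u hu1 hu2 using hu
    have hub : u ∈ Bs X S := hc.subset (fun x hx e => hx (hu1 x e))
    refine ⟨SemidirectProduct.inr g⁻¹ * SemidirectProduct.inl (wact X S σ ⟨u, hub⟩), (⟨t, ht⟩, c),
      fun x s => ?_⟩
    rw [MulAut.mul_apply, h, map_mul, MulAut.mul_apply, MulAut.conj_apply, MulAut.conj_apply, W0,
      W0]
    simp [hu2, e]
  choose γ d hd using key
  have := hT.to_subtype
  refine Finite.of_injective (β := T × (Bool → S → S)) (fun q => d (Quotient.out q)) ?_
  · intro q q' e
    rw [← q.out_eq, ← q'.out_eq]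
    apply Quotient.sound
    show QuotientGroup.leftRel _ _ _
    rw [QuotientGroup.leftRel_apply]
    have h1 : MulAut.conj (γ q.out) * q.out = MulAut.conj (γ q'.out) * q'.out := by
      ext1 z
      generalize hA : MulAut.conj (γ q.out) * q.out = A
      generalize hB : MulAut.conj (γ q'.out) * q'.out = B
      have k : ∀ x s, A (sg τ x s) = B (sg τ x s) := fun x s => by
        rw [← hA, ← hB, hd, hd, show d q.out = d q'.out from e]
      have := W2 hS hτ (z⁻¹ * A.symm (B z)) (fun x s => by
        apply A.injective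
        have e1 := congrArg B (W0 τ z x s)
        have e2 := congrArg A (W0 τ z x s)
        rw [← k, ← e2] at e1
        simp only [map_mul, map_inv, MulEquiv.apply_symm_apply] at e1 ⊢
        rw [← k] at e1
        calc _ = (A z)⁻¹ * (B z * A (sg τ x s) * (B z)⁻¹) * A z := by group
          _ = _ := by rw [e1]; group)
      rw [inv_mul_eq_one] at this
      rw [congrArg A this, MulEquiv.apply_symm_apply]
    refine ⟨q.out.symm ((γ q'.out)⁻¹ * γ q.out), ?_⟩
    ext1 z
    apply q.out.injective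
    have := DFunLike.congr_fun h1 z
    simp only [MulAut.mul_apply, MulAut.conj_apply] at this
    rw [MulAut.conj_apply]
    simp only [map_mul, map_inv, MulEquiv.apply_symm_apply, MulAut.mul_apply,
      MulAut.inv_apply]
    calc _ = (γ q'.out)⁻¹ * (γ q.out * q.out z * (γ q.out)⁻¹) * γ q'.out := by group
      _ = _ := by rw [this]; group

end

def sh : Multiplicative ℤ →* Perm ℤ := MulAction.toPermHom (Multiplicative ℤ) ℤ

@[simp] lemma sh_app (k : Multiplicative ℤ) (n : ℤ) : sh k n = k.toAdd + n := rfl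
@[simp] lemma sh_inv_app (k : Multiplicative ℤ) (n : ℤ) : (sh k)⁻¹ n = n - k.toAdd := by
  rw [← map_inv, sh_app, toAdd_inv]; ring

lemma sh_inj : Function.Injective sh := fun a b h => by
  have := congrArg (fun f : Perm ℤ => f 0) h
  simpa using this

lemma sh_norm (σ : Perm ℤ) (h : σ ∈ Subgroup.normalizer (sh.range : Set (Perm ℤ))) :
    ∃ g, ∃ t ∈ ({1, Equiv.neg ℤ} : Set (Perm ℤ)), σ = sh g * t := by
  obtain ⟨a, ha⟩ := (Subgroup.mem_normalizer_iff.mp h (sh (Multiplicative.ofAdd 1))).mp ⟨_, rfl⟩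
  have h1 : ∀ x, σ (1 + x) = a.toAdd + σ x := fun x => by
    have := congrArg (fun f : Perm ℤ => f (σ x)) ha
    simpa using this.symm
  have h2 : ∀ x, σ x = σ 0 + a.toAdd * x := by
    intro x
    induction x using Int.induction_on with
    | zero => simp
    | succ n ih => rw [add_comm (n : ℤ), h1, ih]; ring
    | pred n ih =>
      have := h1 (-n - 1)
      rw [show (1 : ℤ) + (-n - 1) = -n by ring, ih] at this
      linarith
  obtain ⟨x, hx⟩ := σ.surjective (σ 0 + 1)
  rw [h2, add_right_inj] at hx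
  rcases Int.eq_one_or_neg_one_of_mul_eq_one hx with e | e
  · exact ⟨Multiplicative.ofAdd (σ 0), 1, by simp, by ext x; rw [h2 x, e]; simp⟩
  · exact ⟨Multiplicative.ofAdd (σ 0), Equiv.neg ℤ, by simp, by ext x; rw [h2 x, e]; simp⟩

lemma sh_ends {A : Type} (f : ℤ → A) (h : ∀ g, {x | f (sh g x) ≠ f x}.Finite) :
    ∃ c : Bool → A, {x | f x ≠ c (decide (0 ≤ x))}.Finite := by
  have h1 := h (Multiplicative.ofAdd 1)
  obtain ⟨a, ha⟩ := h1.bddAbove
  obtain ⟨b, hb⟩ := h1.bddBelow
  have k1 : ∀ n : ℕ, f (a + 1 + n) = f (a + 1) := by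
    intro n
    induction n with
    | zero => simp
    | succ n ih =>
      rw [← ih]
      by_contra c
      have := ha (a := a + 1 + n) (by
        simp only [Set.mem_ofPred_eq, sh_app, toAdd_ofAdd]
        rwa [show 1 + (a + 1 + (n : ℤ)) = a + 1 + (n + 1 : ℕ) by push_cast; ring])
      omega
  have k2 : ∀ n : ℕ, f (b - n) = f b := by
    intro n
    induction n with
    | zero => simp
    | succ n ih =>
      rw [← ih]
      by_contra c
      have := hb (a := b - (n + 1 : ℕ)) (by
        simp only [Set.mem_ofPred_eq, sh_app, toAdd_ofAdd]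
        rw [show 1 + (b - ((n + 1 : ℕ) : ℤ)) = b - n by push_cast; ring]
        exact Ne.symm c)
      omega
  refine ⟨fun t => if t then f (a + 1) else f b,
    (Set.finite_Icc (-|b| - 1) (|a| + 1)).subset fun x hx => ?_⟩
  by_contra c
  apply hx
  have := le_abs_self a
  have := neg_abs_le b
  have := abs_nonneg a
  have := abs_nonneg b
  simp only [Set.mem_Icc, not_and_or, not_le] at c
  rcases c with c | c
  · have := k2 (b - x).toNat
    rw [Int.toNat_of_nonneg (by omega), sub_sub_cancel] at this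
    simp [show ¬ 0 ≤ x by omega, this]
  · have := k1 (x - (a + 1)).toNat
    rw [Int.toNat_of_nonneg (by omega), add_sub_cancel] at this
    simp [show 0 ≤ x by omega, this]

lemma sh_inf (x : ℤ) (F : Set ℤ) (hF : F.Finite) :
    ∃ g, sh g x ∉ F ∧ decide (0 ≤ sh g x) = decide (0 ≤ x) := by
  obtain ⟨a, ha⟩ := hF.bddAbove
  obtain ⟨b, hb⟩ := hF.bddBelow
  have := le_abs_self a
  have := neg_abs_le b
  have := abs_nonneg a
  have := abs_nonneg b
  by_cases c : 0 ≤ x
  · refine ⟨Multiplicative.ofAdd (|a| + 1), fun h => ?_, ?_⟩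
    · have := ha h
      simp only [sh_app, toAdd_ofAdd] at this
      omega
    · simp only [sh_app, toAdd_ofAdd, decide_eq_decide]
      omega
  · refine ⟨Multiplicative.ofAdd (-|b| - 1), fun h => ?_, ?_⟩
    · have := hb h
      simp only [sh_app, toAdd_ofAdd] at this
      omega
    · simp only [sh_app, toAdd_ofAdd, decide_eq_decide]
      omega

variable {S : Type} [Group S] (hS : ∀ s : S, s ≠ 1 → ∃ t, s * t * s⁻¹ ≠ t) [IsSimpleGroup S]
include hS

lemma outQ [Finite S] :
    Finite (MulAut (Wr sh S) ⧸ (MulAut.conj : Wr sh S →* MulAut (Wr sh S)).range) :=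
  W8' hS sh_inj {1, Equiv.neg ℤ} (Set.toFinite _) sh_norm (fun x => decide (0 ≤ x))
    (fun f h => sh_ends f h) sh_inf

lemma cenQ (q : Wr sh S) (h : ∀ z, q * z * q⁻¹ = z) : q = 1 :=
  W2 hS sh_inj q fun _ _ => h _

lemma resQ (q : Wr sh S) (h : q.right = 1) (N : Subgroup (Wr sh S)) [N.Normal] [N.FiniteIndex] :
    q ∈ N := by
  rw [← SemidirectProduct.inl_left_mul_inr_right q, h, map_one, mul_one]
  exact W9 hS (fun x F hF => (sh_inf x F hF).imp fun _ h => h.1) N _

end Pool.Agent.H73.IAS
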