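import Pool.Agent.H73.IAS2

set_option autoImplicit false

namespace Pool.Agent.H73.IAS

open Equiv Pool.Agent.H73.CN Filter

abbrev Pr := {p : ℕ // p.Prime}

instance (p : Pr) : Fact p.1.Prime := ⟨p.2⟩

instance : Infinite Pr := Nat.infinite_setOfPred_prime.to_subtype

lemma ev0 {n : ℤ} (hn : n ≠ 0) : ∀ᶠ p : Pr in cofinite, (n : ZMod p.1) ≠ 0 := by
  refine ((Set.finite_Iic n.natAbs).preimage Subtype.val_injective.injOn).subset fun p hp => ?_
  simp only [Set.mem_compl_iff, Set.mem_ofPred_eq, not_not,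
    ZMod.intCast_zmod_eq_zero_iff_dvd] at hp
  exact Nat.le_of_dvd (Int.natAbs_pos.mpr hn) (Int.natCast_dvd.mp hp)

lemma ev1 (q : Pr) : ∀ᶠ p : Pr in cofinite, p ≠ q := eventually_cofinite_ne q

variable (S : Type) [Group S]

abbrev FF := ∀ p : Pr, ZMod p.1 → S

def act : Multiplicative ℤ →* MulAut (FF S) where
  toFun k := ⟨⟨fun f p z => f p (z - k.toAdd), fun f p z => f p (z + k.toAdd),
    fun f => by ext; simp, fun f => by ext; simp⟩, fun _ _ => rfl⟩
  map_one' := by ext; simp
  map_mul' _ _ := by ext; simp [sub_sub]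

@[simp] lemma act_app (k : Multiplicative ℤ) (f : FF S) (p : Pr) (z : ZMod p.1) :
    act S k f p z = f p (z - k.toAdd) := rfl

@[simp] lemma act_symm (k : Multiplicative ℤ) (f : FF S) (p : Pr) (z : ZMod p.1) :
    (act S k).symm f p z = f p (z + k.toAdd) := rfl

@[simp] lemma wact_symm (k : Multiplicative ℤ) (f : Bs ℤ S) (n : ℤ) :
    ((wact ℤ S (sh k)).symm f).1 n = f.1 (k.toAdd + n) := rfl

abbrev WW := FF S ⋊[act S] Multiplicative ℤ

def DD : Subgroup (WW S × Wr sh S) where
  carrier := {d | d.2.right = d.1.right ∧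
    (∀ n : ℤ, ∀ᶠ p : Pr in cofinite, d.1.left p n = d.2.left.1 n) ∧
    ∃ F : Set ℤ, F.Finite ∧ ∀ᶠ p : Pr in cofinite, ∀ z : ZMod p.1, (∀ n ∈ F, z ≠ n) →
      d.1.left p z = 1}
  one_mem' := ⟨rfl, by simp, ∅, by simp, by simp⟩
  mul_mem' := by
    rintro a b ⟨a1, a2, F, hF, a3⟩ ⟨b1, b2, G, hG, b3⟩
    refine ⟨by simp [a1, b1], fun n => ?_, F ∪ (fun n => n + a.1.right.toAdd) '' G,
      hF.union (hG.image _), ?_⟩
    · filter_upwards [a2 n, b2 (n - a.1.right.toAdd)] with p h1 h2
      simp only [Int.cast_sub] at h2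
      simp [h1, h2, a1]
    · filter_upwards [a3, b3] with p h1 h2 z hz
      have e1 := h1 z (fun n hn => hz n (Or.inl hn))
      have e2 := h2 (z - a.1.right.toAdd) (fun n hn e => hz _ (Or.inr ⟨n, hn, rfl⟩) (by
        simp [← e]))
      simp [e1, e2]
  inv_mem' := by
    rintro a ⟨a1, a2, F, hF, a3⟩
    refine ⟨by simp [a1], fun n => ?_, (fun n => n - a.1.right.toAdd) '' F, hF.image _, ?_⟩
    · filter_upwards [a2 (n + a.1.right.toAdd)] with p h1
      simp only [Int.cast_add] at h1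
      simp [h1, a1, add_comm]
    · filter_upwards [a3] with p h1 z hz
      have e1 := h1 (z + a.1.right.toAdd) (fun n hn e => hz _ ⟨n, hn, rfl⟩ (by simp [← e]))
      simp [e1]

variable {S}

lemma DD_ext {a b : DD S} (h1 : a.1.1.right = b.1.1.right)
    (h2 : ∀ p z, a.1.1.left p z = b.1.1.left p z) : a = b := by
  ext
  · exact h2 _ _
  · rw [h1]
  · rename_i n
    obtain ⟨p, e1, e2⟩ := ((a.2.2.1 n).and (b.2.2.1 n)).exists
    rw [← e1, ← e2, h2]
  · rw [a.2.1, b.2.1, h1]

def pr : DD S →* Wr sh S := (MonoidHom.snd _ _).comp (DD S).subtype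

def io (p : Pr) : (ZMod p.1 → S) →* DD S :=
  ((MonoidHom.inl _ _).comp (SemidirectProduct.inl.comp
    (MonoidHom.mulSingle (fun p : Pr => ZMod p.1 → S) p))).codRestrict (DD S) (fun b =>
    ⟨rfl, fun n => by filter_upwards [ev1 p] with q hq; simp [Pi.mulSingle_eq_of_ne hq],
      ∅, by simp, by filter_upwards [ev1 p] with q hq; simp [Pi.mulSingle_eq_of_ne hq]⟩)

@[simp] lemma io_right (p : Pr) (b : ZMod p.1 → S) : (io p b).1.1.right = 1 := rfl
@[simp] lemma io_left (p : Pr) (b : ZMod p.1 → S) : (io p b).1.1.left p = b := by simp [io]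
lemma io_left' {p q : Pr} (h : q ≠ p) (b : ZMod p.1 → S) : (io p b).1.1.left q = 1 := by
  simp [io, Pi.mulSingle_eq_of_ne h]

lemma io_inj (p : Pr) : Function.Injective (io (S := S) p) := fun a b h => by
  rw [← io_left p a, h, io_left]

lemma io_conj (d : DD S) (p : Pr) (b : ZMod p.1 → S) : d * io p b * d⁻¹ =
    io p (fun z => d.1.1.left p z * b (z - d.1.1.right.toAdd) * (d.1.1.left p z)⁻¹) := by
  apply DD_ext
  · simp
  · intro q z
    by_cases h : q = p
    · subst h; simp
    · simp [io_left' h]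

def BB (p : Pr) : Subgroup (DD S) := (io p).range

instance (p : Pr) : (BB (S := S) p).Normal := ⟨by
  rintro _ ⟨b, rfl⟩ d
  exact ⟨_, (io_conj d p b).symm⟩⟩

def tt : Multiplicative ℤ →* DD S :=
  (MonoidHom.prod SemidirectProduct.inr SemidirectProduct.inr).codRestrict (DD S) (fun _ =>
    ⟨rfl, by simp, ∅, by simp, by simp⟩)

@[simp] lemma tt_right (k : Multiplicative ℤ) : (tt (S := S) k).1.1.right = k := rfl
@[simp] lemma tt_left (k : Multiplicative ℤ) : (tt (S := S) k).1.1.left = 1 := rfl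

noncomputable def uu (y : S) : DD S := ⟨(SemidirectProduct.inl (fun _ z => if z = 0 then y else 1), sg sh 0 y),
  rfl, fun n => by
    by_cases h : n = 0
    · simp [h, sg_left, sb_app]
    · filter_upwards [ev0 h] with p hp
      simp [h, hp, sg_left, sb_app],
  {0}, by simp, by simp +contextual⟩

@[simp] lemma uu_right (y : S) : (uu y).1.1.right = 1 := rfl
@[simp] lemma uu_left (y : S) (p : Pr) (z : ZMod p.1) :
    (uu y).1.1.left p z = if z = 0 then y else 1 := rfl

lemma spread (N : Subgroup (DD S)) (hN : ∀ k, ∀ n ∈ N, tt k * n * (tt k)⁻¹ ∈ N) {p : Pr}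
    (z : ZMod p.1) (h : ∀ s, io p (Pi.mulSingle z s) ∈ N) : BB p ≤ N := by
  rintro _ ⟨b, rfl⟩
  rw [← Subgroup.mem_comap]
  refine Subgroup.pi_mem_of_mulSingle_mem b fun w => ?_
  obtain ⟨k, hk⟩ := ZMod.intCast_surjective (w - z)
  have := hN (Multiplicative.ofAdd k) _ (h (b w))
  rw [io_conj] at this
  rw [Subgroup.mem_comap]
  convert this using 2
  ext v
  simp only [tt_left, Pi.one_apply, tt_right, toAdd_ofAdd, hk, one_mul, inv_one, mul_one,
    Pi.mulSingle_apply]
  congr 1
  apply propext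
  constructor
  · rintro rfl; ring
  · intro e; linear_combination e

def D0 : Subgroup (DD S) := Subgroup.closure (insert (tt (Multiplicative.ofAdd 1)) (Set.range uu))

lemma tt_mem (k : Multiplicative ℤ) : tt k ∈ D0 (S := S) := by
  have : k = Multiplicative.ofAdd 1 ^ k.toAdd := by
    rw [← ofAdd_zsmul]; simp
  rw [this, map_zpow]
  exact zpow_mem (Subgroup.subset_closure (Set.mem_insert _ _)) _

lemma uu_mem (y : S) : uu y ∈ D0 := Subgroup.subset_closure (Or.inr ⟨y, rfl⟩)

lemma D0_map (q : Wr sh S) : q ∈ D0.map pr := by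
  have h1 : ∀ k, SemidirectProduct.inr k ∈ (D0 (S := S)).map pr := fun k => ⟨_, tt_mem k, rfl⟩
  rw [← SemidirectProduct.inl_left_mul_inr_right q]
  refine mul_mem (W1 _ _ fun x => ?_) (h1 _)
  have := W0 sh (SemidirectProduct.inr (Multiplicative.ofAdd x)) 0 (q.left.1 x)
  simp only [SemidirectProduct.right_inr, SemidirectProduct.left_inr, sh_app, toAdd_ofAdd,
      OneMemClass.coe_one, Pi.one_apply, one_mul, inv_one, mul_one, add_zero] at this
  rw [← this]
  exact mul_mem (mul_mem (h1 _) ⟨_, uu_mem _, rfl⟩) (inv_mem (h1 _))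

def tau (c : ∀ p : Pr, ZMod p.1) (hc : ∀ᶠ p in cofinite, c p = 0) (d : DD S) : DD S :=
  ⟨(⟨fun p z => d.1.1.left p (z - c p), d.1.1.right⟩, d.1.2), d.2.1, fun n => by
    filter_upwards [hc, d.2.2.1 n] with p h1 h2
    simp [h1, h2], by
    obtain ⟨F, hF, h⟩ := d.2.2.2
    refine ⟨F, hF, ?_⟩
    filter_upwards [hc, h] with p h1 h2
    simpa [h1] using h2⟩

def tA (c : ∀ p : Pr, ZMod p.1) (hc : ∀ᶠ p in cofinite, c p = 0) : MulAut (DD S) where
  toFun := tau c hc
  invFun := tau (-c) (by simpa using hc)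
  left_inv d := DD_ext rfl (by simp [tau])
  right_inv d := DD_ext rfl (by simp [tau])
  map_mul' a b := DD_ext rfl (by simp [tau, sub_right_comm])

lemma tA_io (c : ∀ p : Pr, ZMod p.1) (hc : ∀ᶠ p in cofinite, c p = 0) (p : Pr)
    (b : ZMod p.1 → S) : tA c hc (io p b) = io p (fun z => b (z - c p)) := by
  refine DD_ext rfl fun q z => ?_
  show (io p b).1.1.left q (z - c q) = _
  by_cases h : q = p
  · subst h; simp
  · simp [io_left' h]

variable (hS : ∀ s : S, s ≠ 1 → ∃ t, s * t * s⁻¹ ≠ t) [IsSimpleGroup S]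
include hS

lemma mem_ZB {d : DD S} {p : Pr} :
    d ∈ Z BB p ↔ (d.1.1.right.toAdd : ZMod p.1) = 0 ∧ d.1.1.left p = 1 := by
  rw [mem_Z]
  constructor
  · intro h
    have h1 : d.1.1.left p = 1 := by
      ext z
      by_contra c
      obtain ⟨t, ht⟩ := hS _ c
      have := h _ ⟨fun _ => t, rfl⟩
      rw [io_conj] at this
      exact ht (congrFun (io_inj p this) z)
    refine ⟨?_, h1⟩
    obtain ⟨s, hs⟩ := exists_ne (1 : S)
    have := h _ ⟨Pi.mulSingle 0 s, rfl⟩
    rw [io_conj] at this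
    have := congrFun (io_inj p this) 0
    by_contra c
    simp [h1, c, hs.symm] at this
  · rintro ⟨h1, h2⟩ _ ⟨b, rfl⟩
    rw [io_conj]
    simp [h1, h2]

lemma right_eq {d : DD S} (h : {i | d ∉ Z BB i}.Finite) : d.1.1.right = 1 := by
  by_contra c
  have h' : ∀ᶠ p : Pr in cofinite, d ∈ Z BB p := h
  obtain ⟨p, h1, h2⟩ := (h'.and (ev0 (n := d.1.1.right.toAdd) c)).exists
  exact h2 ((mem_ZB hS).mp h1).1

lemma good [Finite S] : Good (pr (S := S)) BB where
  fin p := Finite.of_surjective _ (io (S := S) p).rangeRestrict_surjective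
  comm p q h := by
    rintro _ ⟨b, rfl⟩
    rw [mem_ZB hS]
    exact ⟨by simp, io_left' h.symm b⟩
  cz d h := DD_ext (right_eq hS (by simp [h])) (fun p z => by simp [((mem_ZB hS).mp (h p)).2])
  ker d := by
    constructor
    · intro h
      have h : d.1.2 = 1 := h
      obtain ⟨h1, h2, F, hF, h3⟩ := d.2
      show ∀ᶠ p : Pr in cofinite, d ∈ Z BB p
      filter_upwards [h3, (eventually_all_finite hF).mpr fun n _ => h2 n] with p e1 e2
      rw [mem_ZB hS, ← h1, h]
      refine ⟨by simp, funext fun z => ?_⟩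
      by_cases c : ∀ n ∈ F, z ≠ n
      · exact e1 z c
      · push Not at c
        obtain ⟨n, hn, rfl⟩ := c
        rw [e2 n hn, h]; rfl
    · intro h
      show d.1.2 = 1
      have h' : ∀ᶠ p : Pr in cofinite, d ∈ Z BB p := h
      ext n
      · obtain ⟨p, h1, h2⟩ := (h'.and (d.2.2.1 n)).exists
        rw [← h2, ((mem_ZB hS).mp h1).2]; rfl
      · rw [d.2.1, right_eq hS h]; rfl
  loc d h p := by
    refine ⟨_, ⟨d.1.1.left p, rfl⟩, ?_⟩
    rintro _ ⟨b, rfl⟩
    have h : d.1.2 = 1 := h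
    rw [io_conj, io_conj, ← d.2.1, h]
    simp
  surj q := by
    obtain ⟨d, -, h⟩ := D0_map q
    exact ⟨d, h⟩

lemma dich (N : Subgroup (DD S)) (hN : N.Normal) (p : Pr) : BB p ≤ N ∨ N ≤ Z BB p := by
  rw [or_iff_not_imp_right]
  intro h
  obtain ⟨n, hn, h⟩ := SetLike.not_le_iff_exists.mp h
  rw [mem_Z] at h
  push Not at h
  obtain ⟨_, ⟨b, rfl⟩, h⟩ := h
  have k : n * io p b * n⁻¹ * (io p b)⁻¹ ∈ N := by
    have := N.mul_mem hn (hN.conj_mem _ (N.inv_mem hn) (io p b))
    simpa [mul_assoc] using this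
  rw [Ne, ← mul_inv_eq_one] at h
  rw [io_conj, ← map_inv, ← map_mul] at h k
  generalize _ * b⁻¹ = c at h k
  obtain ⟨z, hz⟩ : ∃ z, c z ≠ 1 := by
    by_contra e
    push Not at e
    exact h (by rw [show c = 1 from funext e, map_one])
  refine spread N (fun k n hn => hN.conj_mem n hn _) z fun s => ?_
  rcases IsSimpleGroup.eq_bot_or_eq_top_of_normal _
    (hN.comap ((io p).comp (MonoidHom.mulSingle (fun _ : ZMod p.1 => S) z))) with e | e
  · obtain ⟨t, ht⟩ := hS _ hz
    have k2 := N.mul_mem k (hN.conj_mem _ (N.inv_mem k) (io p (Pi.mulSingle z t)))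
    rw [← map_inv, ← map_inv, ← map_mul, ← map_mul, ← map_mul] at k2
    have : c z * t * (c z)⁻¹ * t⁻¹ ∈ N.comap
        ((io p).comp (MonoidHom.mulSingle (fun _ : ZMod p.1 => S) z)) := by
      rw [Subgroup.mem_comap]
      convert k2 using 1
      rw [MonoidHom.comp_apply]
      congr 1
      ext w
      by_cases c : w = z
      · subst c; simp [mul_assoc]
      · simp [c]
    rw [e, Subgroup.mem_bot, mul_inv_eq_one] at this
    exact (ht this).elim
  · have : s ∈ N.comap ((io p).comp (MonoidHom.mulSingle (fun _ : ZMod p.1 => S) z)) := by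
      rw [e]; trivial
    exact this

lemma BB_le (p : Pr) : BB (S := S) p ≤ D0 := by
  refine spread D0 (fun k n hn => mul_mem (mul_mem (tt_mem k) hn) (inv_mem (tt_mem k))) 0 fun s => ?_
  have h1 : commutator S = ⊤ := by
    refine (IsSimpleGroup.eq_bot_or_eq_top_of_normal _ inferInstance).resolve_left fun e => ?_
    obtain ⟨s, hs⟩ := exists_ne (1 : S)
    obtain ⟨t, ht⟩ := hS s hs
    have : s * t * s⁻¹ * t⁻¹ ∈ commutator S :=
      Subgroup.commutator_mem_commutator (Subgroup.mem_top s) (Subgroup.mem_top t)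
    rw [e, Subgroup.mem_bot, mul_inv_eq_one] at this
    exact ht this
  have h2 : commutator S ≤
      D0.comap ((io p).comp (MonoidHom.mulSingle (fun _ : ZMod p.1 => S) 0)) := by
    rw [commutator_def, Subgroup.commutator_le]
    intro y _ y' _
    have k := tt_mem (S := S) (Multiplicative.ofAdd (p.1 : ℤ))
    have k' := mul_mem (mul_mem k (uu_mem y')) (inv_mem k)
    rw [Subgroup.mem_comap]
    convert mul_mem (mul_mem (mul_mem (uu_mem y) k') (inv_mem (uu_mem y))) (inv_mem k') using 1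
    rw [MonoidHom.comp_apply, commutatorElement_def]
    generalize hb : MonoidHom.mulSingle (fun _ : ZMod p.1 => S) 0 (y * y' * y⁻¹ * y'⁻¹) = b
    refine DD_ext (by simp) fun q z => ?_
    by_cases c : q = p
    · subst c
      rw [io_left, ← hb]
      by_cases c : z = 0 <;> simp [c]
    · have : ((p.1 : ℕ) : ZMod q.1) ≠ 0 := by
        rw [Ne, ZMod.natCast_eq_zero_iff, Nat.prime_dvd_prime_iff_eq q.2 p.2]
        exact fun e => c (Subtype.ext e)
      by_cases c' : z = 0 <;> simp [c', io_left' c, this]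
  rw [h1] at h2
  exact h2 (Subgroup.mem_top s)

lemma fgD [Finite S] : Group.FG (DD S) := by
  refine Group.fg_iff.mpr ⟨_, ?_, (Set.finite_range uu).insert (tt (Multiplicative.ofAdd 1))⟩
  rw [eq_top_iff]
  intro d _
  obtain ⟨e, he, h⟩ := D0_map (pr d)
  have := (good hS).ker_mem (d := e⁻¹ * d) (by rw [map_mul, map_inv, h]; simp) D0
    (fun p _ => BB_le hS p)
  have := mul_mem he this
  rwa [mul_inv_cancel_left] at this

lemma chrD [Finite S] (α : MulAut (DD S)) (p : Pr) : ∀ x ∈ BB p, α x ∈ BB p := by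
  refine (good hS).char (dich hS) (fun p => ?_) (fun p q h => ?_) α p
  · obtain ⟨s, hs⟩ := exists_ne (1 : S)
    refine ⟨_, ⟨fun _ => s, rfl⟩, fun e => hs ?_⟩
    rw [map_eq_one_iff _ (io_inj p)] at e
    exact congrFun e 0
  · have k : ∀ p : Pr, Nat.card (BB (S := S) p) = Nat.card S ^ p.1 := fun p => by
      rw [BB, ← Nat.card_congr (MonoidHom.ofInjective (io_inj p)).toEquiv, Nat.card_fun,
        Nat.card_zmod]
    rw [k, k] at h
    exact Subtype.ext (Nat.pow_right_injective Finite.one_lt_card h)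

lemma notInn {d : DD S} {c : ∀ p : Pr, ZMod p.1} (hc : ∀ᶠ p in cofinite, c p = 0)
    (h : ∀ p b, d * io p b * d⁻¹ = io p (fun z => b (z - c p))) (p : Pr) : c p = 0 := by
  have h1 : d.1.1.right = 1 := right_eq hS (by
    show ∀ᶠ p : Pr in cofinite, d ∈ Z BB p
    filter_upwards [hc] with p hp
    rw [mem_Z]
    rintro _ ⟨b, rfl⟩
    rw [h]; simp [hp])
  obtain ⟨s, hs⟩ := exists_ne (1 : S)
  have := h p (Pi.mulSingle 0 s)
  rw [io_conj] at this
  have := congrFun (io_inj p this) 0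
  by_contra c
  simp [h1, c, hs] at this

omit hS [IsSimpleGroup S] [Group S] in
lemma evc (q : Pr) : ∀ᶠ p : Pr in cofinite, (if p = q then 1 else 0 : ZMod p.1) = 0 := by
  filter_upwards [ev1 q] with p hp
  simp [hp]

lemma outInf : Infinite (MulAut (DD S) ⧸ (MulAut.conj : DD S →* MulAut (DD S)).range) := by
  refine Infinite.of_injective (fun q : Pr => (tA _ (evc q) : MulAut (DD S))) fun q q' e => ?_
  obtain ⟨d, hd⟩ := QuotientGroup.eq.mp e
  have := notInn hS (d := d)
    (c := fun p => (if p = q' then 1 else 0) - (if p = q then 1 else 0)) (by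
      filter_upwards [evc q, evc q'] with p h1 h2
      rw [h1, h2, sub_zero]) (fun p b => by
      rw [← MulAut.conj_apply, hd, MulAut.mul_apply]
      apply (tA _ (evc q)).injective
      rw [MulAut.apply_inv_self, tA_io, tA_io]
      congr 1
      ext z
      congr 1
      ring) q
  by_contra c
  simp [c] at this

lemma notIAS [Finite S] : ∃ φ : MulAut (DD S), φ ∉ (MulAut.conj : DD S →* MulAut (DD S)).range ∧
    ∀ (K : Subgroup (DD S)) [K.Normal] [K.FiniteIndex], ∃ d, ∀ g, φ g * (d * g * d⁻¹)⁻¹ ∈ K := by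
  refine ⟨tA _ (evc ⟨2, Nat.prime_two⟩), ?_, fun K _ _ => ?_⟩
  · rintro ⟨d, hd⟩
    have := notInn hS (d := d) (evc ⟨2, Nat.prime_two⟩) (fun p b => by
      rw [← MulAut.conj_apply, hd, tA_io]) ⟨2, Nat.prime_two⟩
    simp at this
  · have hn : K.index ≠ 0 := Subgroup.FiniteIndex.index_ne_zero
    obtain ⟨a, m, hm, e⟩ := Nat.exists_eq_two_pow_mul_odd hn
    have hP : {p : Pr | ¬ (((K.index : ℕ) : ℤ) : ZMod p.1) ≠ 0}.Finite :=
      ev0 (n := K.index) (by exact_mod_cast hn)
    refine ⟨tt (Multiplicative.ofAdd (m : ℤ)), fun g => (good hS).ni K hP.toFinset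
      (fun p hp => ?_) _ _ (fun p hp => ?_) g (fun N _ _ => resQ hS _ ?_ N)⟩
    · refine (dich hS K inferInstance p).resolve_right fun h => hp ?_
      have := ((mem_ZB hS).mp (h (K.pow_index_mem (tt (Multiplicative.ofAdd 1))))).1
      rw [← map_pow, tt_right] at this
      simpa using this
    · rintro _ ⟨b, rfl⟩
      rw [tA_io, io_conj]
      have : ((m : ℤ) : ZMod p.1) = if p = ⟨2, Nat.prime_two⟩ then 1 else 0 := by
        simp only [Set.Finite.mem_toFinset, Set.mem_ofPred_eq, not_not, Int.cast_natCast,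
          ZMod.natCast_eq_zero_iff, e] at hp
        split_ifs with c
        · subst c
          exact (ZMod.intCast_eq_one_iff_odd).mpr (by exact_mod_cast hm)
        · rw [Int.cast_natCast, ZMod.natCast_eq_zero_iff]
          refine ((Nat.Prime.dvd_mul p.2).mp hp).resolve_left fun h => c (Subtype.ext ?_)
          exact (Nat.prime_dvd_prime_iff_eq p.2 Nat.prime_two).mp (p.2.dvd_of_dvd_pow h)
      simp only [tt_left, tt_right, toAdd_ofAdd, this, Pi.one_apply, one_mul, inv_one, mul_one]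
    · have : pr (tA _ (evc ⟨2, Nat.prime_two⟩) g) = pr g := rfl
      rw [map_mul, this]
      simp

end Pool.Agent.H73.IAS
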