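import Pool.Agent.H73.AutEq1

/-!
Linear dependence of words evaluated at generic matrices is computably enumerable, and every set
of words over a finite alphabet has a finite generating subset.
-/

set_option autoImplicit false

namespace Pool.Agent.H73.Idx

open Pool.Agent.H37 Pool.Agent.H73.AutEq

abbrev Sym := (ℕ × ℕ) ⊕ ℕ
abbrev Wd := List Sym
abbrev Var := Sym × Fin 3 × Fin 3
abbrev Pol := List (List Var)
abbrev Mat (K : Type) := Matrix (Fin 3) (Fin 3) K

variable {α β γ δ : Type} [Primcodable α] [Primcodable β] [Primcodable γ] [Primcodable δ]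
  {O : Set (ℕ →. ℕ)}

@[fun_prop] theorem ci_sum [Inhabited δ] {x : α → β ⊕ γ} {f : α → β → δ} {g : α → γ → δ}
    (hf : CI O fun p : α × β => f p.1 p.2) (hg : CI O fun p : α × γ => g p.1 p.2) (hx : CI O x) :
    CI O fun a => Sum.elim (f a) (g a) (x a) := by
  have h1 : Primrec (Sum.getLeft? : β ⊕ γ → Option β) :=
    (Primrec.sumCasesOn Primrec.id (Primrec.option_some.comp Primrec.snd).to₂
      (Primrec.const none).to₂).of_eq fun x => by cases x <;> rfl
  have h2 : Primrec (Sum.getRight? : β ⊕ γ → Option γ) :=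
    (Primrec.sumCasesOn Primrec.id (Primrec.const none).to₂
      (Primrec.option_some.comp Primrec.snd).to₂).of_eq fun x => by cases x <;> rfl
  exact (CI.elim (CI.prim1 h1 hx) (CI.elim (CI.prim1 h2 hx) (CI.const default) hg) hf).of_eq
    fun a => by cases x a <;> rfl

theorem perm_map_iff {A B : Type} (f : A → B) (P Q : List A) : (P.map f).Perm (Q.map f) ↔
    Al (P ++ Q) fun m => (fil (fun a => f a = f m) P).length =
      (fil (fun a => f a = f m) Q).length := by
  classical
  have e : ∀ (P : List A) b, (P.map f).count b = (fil (fun a => f a = b) P).length := fun P b => by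
    rw [fil, ← List.countP_eq_length_filter, List.count, List.countP_map]
    exact List.countP_congr fun a _ => by simp
  rw [List.perm_iff_count]
  refine ⟨fun h m _ => by beta_reduce; rw [← e, ← e, h], fun h b => ?_⟩
  by_cases hb : b ∈ (P ++ Q).map f
  · obtain ⟨m, hm, rfl⟩ := List.mem_map.1 hb
    rw [e, e, h m hm]
  · rw [List.map_append, List.mem_append, not_or] at hb
    rw [List.count_eq_zero_of_not_mem hb.1, List.count_eq_zero_of_not_mem hb.2]

@[fun_prop] theorem ci_perm {l l' : α → List β} (hl : CI O l) (hl' : CI O l') :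
    CI O fun a => (l a).Perm (l' a) :=
  ci_iff' (p := fun a => Al (l a ++ l' a) fun m => (fil (fun x => x = m) (l a)).length =
    (fil (fun x => x = m) (l' a)).length) (by fun_prop) fun a => by
    simpa using perm_map_iff id (l a) (l' a)

def PE (P Q : Pol) : Prop := (P.map Multiset.ofList).Perm (Q.map Multiset.ofList)

@[fun_prop] theorem ci_pe {P Q : α → Pol} (hP : CI O P) (hQ : CI O Q) :
    CI O fun a => PE (P a) (Q a) :=
  ci_iff' (p := fun a => Al (P a ++ Q a) fun m => (fil (fun x => x.Perm m) (P a)).length =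
    (fil (fun x => x.Perm m) (Q a)).length) (by fun_prop) fun a => by
    simpa only [Multiset.coe_eq_coe, PE] using perm_map_iff Multiset.ofList (P a) (Q a)

noncomputable def ent : Wd → Fin 3 → Fin 3 → Pol
  | [], i, j => ite' (i = j) [[]] []
  | x :: u, i, j => (List.finRange 3).flatMap fun l => (ent u l j).map fun m => (x, i, l) :: m

@[fun_prop] theorem ci_ent {u : α → Wd} {i j : α → Fin 3} (hu : CI O u) (hi : CI O i)
    (hj : CI O j) : CI O fun a => ent (u a) (i a) (j a) := by
  refine CI.of_eq (f := fun a => ((u a).foldr (fun x E => (List.finRange 3).map fun i =>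
    (List.finRange 3).flatMap fun l => (E.getD l.1 []).map fun m => (x, i, l) :: m)
    ((List.finRange 3).map fun i => ite' (i = j a) [[]] [])).getD (i a).1 []) (by fun_prop)
    fun a => ?_
  have e : ∀ (F : Fin 3 → Pol) (i : Fin 3), ((List.finRange 3).map F).getD i.1 [] = F i :=
    fun F i => by fin_cases i <;> rfl
  generalize i a = i
  induction u a generalizing i with
  | nil => exact e _ _
  | cons x u ih => simp only [List.foldr_cons, e, ih, ent]

noncomputable def lin (c : List (List Var × Wd)) (i j : Fin 3) : Pol :=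
  c.flatMap fun t => (ent t.2 i j).map fun m => t.1 ++ m

def MemB (u : Wd) (ps : List Wd) (c : List (List Var × Wd) × List (List Var × Wd)) : Prop :=
  (Al (c.1 ++ c.2) fun t => t.2 ∈ ps) ∧ Al (List.finRange 3) fun i => Al (List.finRange 3) fun j =>
    PE (ent u i j ++ lin c.1 i j) (lin c.2 i j)

def MemC (u : Wd) (ps : List Wd) : Prop := ∃ c, MemB u ps c

theorem re_memC {u : α → Wd} {ps : α → List Wd} (hu : CI ∅ u) (hp : CI ∅ ps) :
    REPred fun a => MemC (u a) (ps a) :=
  re_exists (cpred (by unfold MemB lin; fun_prop)).to_re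

theorem MemC.mono {u : Wd} {ps ps' : List Wd} (h : MemC u ps) (e : ∀ p ∈ ps, p ∈ ps') :
    MemC u ps' := let ⟨c, h1, h2⟩ := h; ⟨c, fun t ht => e _ (h1 t ht), h2⟩

variable {K : Type} [CommRing K]

def val (θ : Sym → Mat K) (u : Wd) : Mat K := (u.map θ).prod

def mon (θ : Sym → Mat K) (m : List Var) : K := (m.map fun v => θ v.1 v.2.1 v.2.2).prod

def evP (θ : Sym → Mat K) (P : Pol) : K := (P.map (mon θ)).sum

theorem evP_append (θ : Sym → Mat K) (P Q : Pol) : evP θ (P ++ Q) = evP θ P + evP θ Q := by
  simp [evP]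

theorem evP_flatMap {A : Type} (θ : Sym → Mat K) (l : List A) (F : A → Pol) :
    evP θ (l.flatMap F) = (l.map fun a => evP θ (F a)).sum := by
  induction l <;> simp_all [evP]

theorem evP_map (θ : Sym → Mat K) (m : List Var) (P : Pol) :
    evP θ (P.map fun x => m ++ x) = mon θ m * evP θ P := by
  induction P <;> simp_all [evP, mon, mul_add]

theorem ev_ent (θ : Sym → Mat K) (u : Wd) (i j : Fin 3) : evP θ (ent u i j) = val θ u i j := by
  induction u generalizing i with
  | nil => by_cases h : i = j <;> simp [ent, ite', h, evP, val, mon]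
  | cons x u ih =>
    have := fun l => evP_map θ [(x, i, l)] (ent u l j)
    simp only [List.singleton_append] at this
    simp [ent, evP_flatMap, this, ih, val, mon, Matrix.mul_apply, Fin.sum_univ_def]

def linM (θ : Sym → Mat K) (c : List (List Var × Wd)) : Mat K :=
  (c.map fun t => mon θ t.1 • val θ t.2).sum

theorem ev_lin (θ : Sym → Mat K) (c : List (List Var × Wd)) (i j : Fin 3) :
    evP θ (lin c i j) = linM θ c i j := by
  rw [lin, evP_flatMap]
  induction c <;> simp_all [linM, evP_map, ev_ent]

theorem PE.ev {P Q : Pol} (h : PE P Q) (θ : Sym → Mat K) : evP θ P = evP θ Q := by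
  have := (h.map fun s : Multiset Var => (s.map fun v => θ v.1 v.2.1 v.2.2).prod).sum_eq
  simp only [List.map_map, Function.comp_def, Multiset.map_coe, Multiset.prod_coe] at this
  exact this

def Sp (θ : Sym → Mat K) (ps : List Wd) : Submodule K (Mat K) :=
  Submodule.span K (val θ '' {p | p ∈ ps})

theorem mem_sp (θ : Sym → Mat K) {ps : List Wd} {p : Wd} (h : p ∈ ps) : val θ p ∈ Sp θ ps :=
  Submodule.subset_span ⟨p, h, rfl⟩

theorem MemC.sound {u : Wd} {ps : List Wd} (h : MemC u ps) (θ : Sym → Mat K) :
    val θ u ∈ Sp θ ps := by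
  obtain ⟨⟨c, d⟩, h1, h2⟩ := h
  have h3 : ∀ c : List (List Var × Wd), (∀ t ∈ c, t.2 ∈ ps) → linM θ c ∈ Sp θ ps := fun c hc =>
    list_sum_mem (by
      simp only [List.forall_mem_map]
      exact fun t ht => Submodule.smul_mem _ _ (mem_sp θ (hc t ht)))
  have : val θ u = linM θ d - linM θ c := by
    ext i j
    have := (h2 i (List.mem_finRange i) j (List.mem_finRange j)).ev θ
    rw [evP_append, ev_ent, ev_lin, ev_lin] at this
    simp [← this]
  rw [this]
  exact sub_mem (h3 d fun t ht => h1 t (List.mem_append_right _ ht))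
    (h3 c fun t ht => h1 t (List.mem_append_left _ ht))

open MvPolynomial

noncomputable def gen (x : Sym) : Mat (MvPolynomial Var ℤ) := fun i j => X (x, i, j)

theorem pe_of_ev {P Q : Pol} (h : evP gen P = evP gen Q) : PE P Q := by
  classical
  have e1 : ∀ m : List Var, mon gen m = monomial (Multiset.toFinsupp (m : Multiset Var)) 1 := by
    intro m
    induction m with
    | nil => simp [mon]
    | cons v m ih =>
      rw [← Multiset.cons_coe, ← Multiset.singleton_add, map_add, Multiset.toFinsupp_singleton,
        ← one_mul (1 : ℤ), ← monomial_mul, ← ih]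
      rfl
  have e2 : ∀ (P : Pol) (s : Multiset Var), coeff (Multiset.toFinsupp s) (evP gen P) =
      (P.map Multiset.ofList).count s := by
    intro P s
    induction P with
    | nil => simp [evP]
    | cons m P ih =>
      simp only [evP, List.map_cons, List.sum_cons, coeff_add, List.count_cons] at ih ⊢
      rw [ih, e1, coeff_monomial]
      simp [add_comm]
  exact List.perm_iff_count.2 fun s => by exact_mod_cast (e2 P s).symm.trans (h ▸ e2 Q s)

theorem memC_of {u : Wd} {ps : List Wd} (h : val gen u ∈ Sp gen ps) : MemC u ps := by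
  let S : AddSubgroup (Mat (MvPolynomial Var ℤ)) :=
    { carrier := {M | ∃ c d : List (List Var × Wd), (∀ t ∈ c ++ d, t.2 ∈ ps) ∧
        M + linM gen c = linM gen d}
      zero_mem' := ⟨[], [], by simp, by simp⟩
      add_mem' := by
        rintro M N ⟨c, d, h1, h2⟩ ⟨c', d', h3, h4⟩
        refine ⟨c ++ c', d ++ d', fun t ht => ?_, ?_⟩
        · simp only [List.mem_append] at h1 h3 ht
          have := h1 t
          have := h3 t
          tauto
        · simp only [linM, List.map_append, List.sum_append] at h2 h4 ⊢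
          rw [← h2, ← h4]; abel
      neg_mem' := by
        rintro M ⟨c, d, h1, h2⟩
        exact ⟨d, c, fun t ht => h1 t (by simpa [or_comm] using ht), by rw [← h2]; abel⟩ }
  have key : ∀ (r : MvPolynomial Var ℤ), ∀ M ∈ S, r • M ∈ S := by
    intro r
    induction r using MvPolynomial.induction_on with
    | C z => intro M hM; rw [eq_intCast, Int.cast_smul_eq_zsmul]; exact S.zsmul_mem hM z
    | add p q h1 h2 => intro M hM; rw [add_smul]; exact S.add_mem (h1 M hM) (h2 M hM)
    | mul_X p v ih =>
      rintro M ⟨c, d, h1, h2⟩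
      rw [mul_smul]
      have e : ∀ c : List (List Var × Wd),
          linM gen (c.map fun t => (v :: t.1, t.2)) = (X v : MvPolynomial Var ℤ) • linM gen c := by
        intro c
        induction c <;> simp_all [linM, mon, mul_smul, gen]
      refine ih _ ⟨c.map fun t => (v :: t.1, t.2), d.map fun t => (v :: t.1, t.2), ?_, ?_⟩
      · rw [← List.map_append, List.forall_mem_map]; exact h1
      · rw [e, e, ← h2, smul_add]
  have : val gen u ∈ S := by
    refine Submodule.span_induction ?_ S.zero_mem (fun _ _ _ _ => S.add_mem)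
      (fun r M _ => key r M) h
    rintro _ ⟨p, hp, rfl⟩
    exact ⟨[], [([], p)], by simpa using hp, by simp [linM, mon]⟩
  obtain ⟨c, d, h1, h2⟩ := this
  exact ⟨(c, d), h1, fun i _ j _ => pe_of_ev (by
    rw [evP_append, ev_ent, ev_lin, ev_lin, ← h2]; rfl)⟩

theorem exists_gens {Z : Set Sym} (hZ : Z.Finite) (C : Wd → Prop)
    (hC : ∀ u, C u → ∀ x ∈ u, x ∈ Z) :
    ∃ ps : List Wd, (∀ p ∈ ps, C p) ∧ ∀ u, C u → MemC u ps := by
  classical
  have := hZ.to_subtype
  let R := MvPolynomial (Z × Fin 3 × Fin 3) ℤ
  let θ : Sym → Mat R := fun x i j => if h : x ∈ Z then X (⟨x, h⟩, i, j) else 0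
  let φ : R →+* MvPolynomial Var ℤ := (rename fun v => (v.1.1, v.2)).toRingHom
  have e : ∀ u : Wd, (∀ x ∈ u, x ∈ Z) → φ.mapMatrix (val θ u) = val gen u := fun u hu => by
    rw [val, map_list_prod, List.map_map, val]
    congr 1
    refine List.map_congr_left fun x hx => ?_
    ext i j : 2
    simp [θ, φ, hu x hx, gen, R]
  obtain ⟨s, h1, h2⟩ := (Submodule.fg_span_iff_fg_span_finset_subset _).1
    (IsNoetherian.noetherian (Submodule.span R (val θ '' {u | C u})))
  choose f h3 h4 using h1
  refine ⟨s.attach.toList.map fun x => f x.2, List.forall_mem_map.2 fun x _ => h3 x.2, fun u hu =>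
    memC_of ?_⟩
  have h5 : val θ u ∈ Submodule.span R (s : Set (Mat R)) := h2 ▸ Submodule.subset_span ⟨u, hu, rfl⟩
  rw [← e u (hC u hu)]
  refine Submodule.span_induction (p := fun M _ => φ.mapMatrix M ∈ Sp gen _) (fun M hM => ?_)
    (by simp) (fun _ _ _ _ a b => by rw [map_add]; exact add_mem a b) (fun r M _ h => ?_) h5
  · rw [← h4 hM, e _ (hC _ (h3 hM))]
    exact mem_sp _ (List.mem_map.2 ⟨⟨M, hM⟩, by simp, rfl⟩)
  · have : φ.mapMatrix (r • M) = φ r • φ.mapMatrix M := by ext i j : 2; simp
    rw [this]
    exact Submodule.smul_mem _ _ h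

theorem re_rtg {r : α → β → β → Prop} (h : REPred fun q : α × β × β => r q.1 q.2.1 q.2.2)
    {x y : α → β} (hx : CI ∅ x) (hy : CI ∅ y) :
    REPred fun a => Relation.ReflTransGen (r a) (x a) (y a) := by
  have := re_exists (p := fun a (l : List β) => (∀ p ∈ (x a :: l).zip l, r a p.1 p.2) ∧
    (x a :: l).getLast? = some (y a)) (re_and (re_forall_mem (REPred.comp' h
      (g := fun q : (α × List β) × β × β => (q.1.1, q.2)) (by fun_prop)) (by fun_prop))
      (cpred (by fun_prop)).to_re)
  refine this.of_eq fun a => ?_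
  generalize x a = x
  constructor
  · rintro ⟨l, h1, h2⟩
    induction l generalizing x with
    | nil => obtain rfl : x = y a := by simpa using h2
             rfl
    | cons z l ih =>
      exact .head (h1 (x, z) (by simp)) (ih z (fun p hp => h1 p (List.mem_cons_of_mem _ hp)) h2)
  · intro h
    induction h using Relation.ReflTransGen.head_induction_on with
    | refl => exact ⟨[], by simp, rfl⟩
    | head h1 _ ih =>
      obtain ⟨l, h2, h3⟩ := ih
      exact ⟨_ :: l, List.forall_mem_cons.2 ⟨h1, h2⟩, h3⟩

end Pool.Agent.H73.Idx
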