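import Mathlib

/-!
Indexed grammars and test sets.
-/

set_option autoImplicit false

namespace Pool.Agent.H73.Idx

/-- An indexed grammar: start symbol `S`, rules `A → α` as pairs `(A, α)`, rules `A → B f` as
triples `(A, B, f)`, rules `A f → α` as triples `(A, f, α)`. In a right-hand side `inl B` is a
nonterminal and `inr a` is a terminal. -/
abbrev Grammar : Type :=
  ℕ × List (ℕ × List (ℕ ⊕ ℕ)) × List (ℕ × ℕ × ℕ) × List (ℕ × ℕ × List (ℕ ⊕ ℕ))

/-- sentential forms: nonterminals carry a stack of indices -/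
abbrev Form : Type := List ((ℕ × List ℕ) ⊕ ℕ)

/-- attach the stack `σ` to every nonterminal of `α` -/
def att (σ : List ℕ) (α : List (ℕ ⊕ ℕ)) : Form := α.map (Sum.map (fun B => (B, σ)) id)

/-- one derivation step -/
def Step (G : Grammar) (u v : Form) : Prop :=
  ∃ (pre suf : Form) (A : ℕ) (σ : List ℕ), u = pre ++ Sum.inl (A, σ) :: suf ∧
    ((∃ α, (A, α) ∈ G.2.1 ∧ v = pre ++ att σ α ++ suf) ∨
     (∃ B f, (A, B, f) ∈ G.2.2.1 ∧ v = pre ++ Sum.inl (B, f :: σ) :: suf) ∨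
     ∃ f τ α, (A, f, α) ∈ G.2.2.2 ∧ σ = f :: τ ∧ v = pre ++ att τ α ++ suf)

/-- the generated language -/
def Lang (G : Grammar) : Set (List ℕ) :=
  {w | Relation.ReflTransGen (Step G) [Sum.inl (G.1, [])] (w.map Sum.inr)}

/-- `F` is a test set for `L` -/
def IsTestSet (L : Set (List ℕ)) (F : List (List ℕ)) : Prop :=
  (∀ x ∈ F, x ∈ L) ∧ ∀ (Δ : Type) [Finite Δ] (g h : ℕ → List Δ),
    (∀ x ∈ L, x.flatMap g = x.flatMap h) ↔ ∀ x ∈ F, x.flatMap g = x.flatMap h

end Pool.Agent.H73.Idx
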