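import Pool.Agent.H73.Idx1
import Pool.Agent.H73.IdxDefs

/-!
Test sets for indexed languages can be computed.
-/

set_option autoImplicit false

namespace Pool.Agent.H73.Idx

open Pool.Agent.H37 Pool.Agent.H73.AutEq Relation

variable {α β γ : Type} [Primcodable α] [Primcodable β] [Primcodable γ] {O : Set (ℕ →. ℕ)}
  {X Y : Type}

def subs (P : X → List (List Y)) (l : List X) : List (List Y) :=
  l.foldr (fun x L => (P x).flatMap fun v => L.map fun u => v ++ u) [[]]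

@[fun_prop] theorem ci_subs {P : α → β → List (List γ)} {l : α → List β}
    (hP : CI O fun q : α × β => P q.1 q.2) (hl : CI O l) : CI O fun a => subs (P a) (l a) := by
  unfold subs
  have : CI O fun q : α × β × List (List γ) => P q.1 q.2.1 :=
    hP.comp (g := fun q : α × β × List (List γ) => (q.1, q.2.1)) (by fun_prop)
  exact CI.foldr (CI.flatMap (by fun_prop) this) (by fun_prop) hl

theorem mem_subs_cons {P : X → List (List Y)} {x : X} {l : List X} {u : List Y} :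
    u ∈ subs P (x :: l) ↔ ∃ v ∈ P x, ∃ w ∈ subs P l, v ++ w = u := by
  simp [subs]

theorem subs_letters {P : X → List (List Y)} {l : List X} : ∀ u ∈ subs P l, ∀ y ∈ u,
    ∃ x ∈ l, ∃ p ∈ P x, y ∈ p := by
  induction l with
  | nil => simp [subs]
  | cons x l ih =>
    intro u hu y hy
    obtain ⟨v, h1, w, h2, rfl⟩ := mem_subs_cons.1 hu
    rcases List.mem_append.1 hy with h | h
    · exact ⟨x, List.mem_cons_self, v, h1, h⟩
    · obtain ⟨z, h3, h4⟩ := ih w h2 y h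
      exact ⟨z, List.mem_cons_of_mem _ h3, h4⟩

abbrev Cert := List (Option ℕ × ℕ × Wd)

noncomputable def get (c : Cert) (o : Option ℕ) (A : ℕ) : List Wd :=
  (fil (fun t => t.1 = o ∧ t.2.1 = A) c).map fun t => t.2.2

theorem mem_get {c : Cert} {o : Option ℕ} {A : ℕ} {u : Wd} : u ∈ get c o A ↔ (o, A, u) ∈ c := by
  simp only [get, List.mem_map, mem_fil]
  exact ⟨fun ⟨⟨_, _, _⟩, ⟨h, rfl, rfl⟩, rfl⟩ => h, fun h => ⟨_, ⟨h, rfl, rfl⟩, rfl⟩⟩

@[fun_prop] theorem ci_get {c : α → Cert} {o : α → Option ℕ} {A : α → ℕ} (hc : CI O c)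
    (ho : CI O o) (hA : CI O A) : CI O fun a => get (c a) (o a) (A a) := by unfold get; fun_prop

def Os (G : Grammar) : List (Option ℕ) := none :: G.2.2.1.map fun r => some r.2.2

def ter (a : ℕ) : List Wd := [[Sum.inr a]]

def vars (B : ℕ) : List Wd := (List.range 9).map fun j => [Sum.inl (B, j)]

/-- the list of membership requirements -/
noncomputable def req (G : Grammar) (c : Cert) : List (Wd × List Wd) :=
  (Os G).flatMap fun o =>
    (G.2.1.flatMap fun r => (subs (Sum.elim (get c o) ter) r.2).map fun u => (u, get c o r.1)) ++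
    (G.2.2.1.flatMap fun r => (get c (some r.2.2) r.2.1).flatMap fun v =>
      (subs (Sum.elim (fun B => get c o B.1) ter) v).map fun u => (u, get c o r.1)) ++
    (fil (fun r => o = some r.2.1) G.2.2.2).flatMap fun r =>
      (subs (Sum.elim vars ter) r.2.2).map fun u => (u, get c o r.1)

def Ok (G : Grammar) (F : List (List ℕ)) (c : Cert) : Prop :=
  (∀ w ∈ F, w ∈ Lang G) ∧ (Al (get c none G.1) fun p => Ex F fun w => p = w.map Sum.inr) ∧
    ∀ q ∈ req G c, MemC q.1 q.2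

@[fun_prop] theorem ci_att {σ : α → List ℕ} {l : α → List (ℕ ⊕ ℕ)} (hσ : CI O σ) (hl : CI O l) :
    CI O fun a => att (σ a) (l a) :=
  CI.of_eq (f := fun a => (l a).map (Sum.elim (fun B => Sum.inl (B, σ a)) fun b => Sum.inr b))
    (CI.map (ci_sum (by fun_prop) (by fun_prop) (by fun_prop)) hl) fun a =>
    List.map_congr_left fun x _ => by cases x <;> rfl

theorem re_step : REPred fun q : Grammar × Form × Form => Step q.1 q.2.1 q.2.2 := by
  refine (re_exists (p := fun (q : Grammar × Form × Form) (t : Form × Form × ℕ × List ℕ) =>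
    q.2.1 = t.1 ++ Sum.inl (t.2.2.1, t.2.2.2) :: t.2.1 ∧
    ((Ex q.1.2.1 fun r => r.1 = t.2.2.1 ∧ q.2.2 = t.1 ++ att t.2.2.2 r.2 ++ t.2.1) ∨
     (Ex q.1.2.2.1 fun r => r.1 = t.2.2.1 ∧
       q.2.2 = t.1 ++ Sum.inl (r.2.1, r.2.2 :: t.2.2.2) :: t.2.1) ∨
     Ex q.1.2.2.2 fun r => r.1 = t.2.2.1 ∧ t.2.2.2 = r.2.1 :: t.2.2.2.tail ∧
       q.2.2 = t.1 ++ att t.2.2.2.tail r.2.2 ++ t.2.1)) (cpred (by fun_prop)).to_re).of_eq
    fun q => ⟨?_, ?_⟩
  · rintro ⟨⟨pre, suf, A, σ⟩, h, ⟨r, h1, rfl, h2⟩ | ⟨r, h1, rfl, h2⟩ | ⟨r, h1, rfl, h2⟩⟩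
    exacts [⟨pre, suf, _, σ, h, Or.inl ⟨_, h1, h2⟩⟩,
      ⟨pre, suf, _, σ, h, Or.inr (Or.inl ⟨_, _, h1, h2⟩)⟩,
      ⟨pre, suf, _, σ, h, Or.inr (Or.inr ⟨_, _, _, h1, h2⟩)⟩]
  · rintro ⟨pre, suf, A, σ, h, ⟨r, h1, h2⟩ | ⟨B, f, h1, h2⟩ | ⟨f, τ, r, h1, rfl, h2⟩⟩
    exacts [⟨(pre, suf, A, σ), h, Or.inl ⟨_, h1, rfl, h2⟩⟩,
      ⟨(pre, suf, A, σ), h, Or.inr (Or.inl ⟨_, h1, rfl, h2⟩)⟩,
      ⟨(pre, suf, A, _), h, Or.inr (Or.inr ⟨_, h1, rfl, rfl, h2⟩)⟩]

theorem re_lang {G : α → Grammar} {w : α → List ℕ} (hG : CI ∅ G) (hw : CI ∅ w) :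
    REPred fun a => w a ∈ Lang (G a) :=
  re_rtg (r := fun a => Step (G a)) (REPred.comp' re_step
    (g := fun q : α × Form × Form => (G q.1, q.2)) (by fun_prop)) (by fun_prop) (by fun_prop)

theorem ci_req : CI ∅ fun q : Grammar × Cert => req q.1 q.2 := by
  unfold req Os
  refine CI.flatMap (CI.append (CI.append (CI.flatMap (CI.map (by fun_prop) (ci_subs (ci_sum
    (by fun_prop) (by unfold ter; fun_prop) (by fun_prop)) (by fun_prop))) (by fun_prop))
    (CI.flatMap (CI.flatMap (CI.map (by fun_prop) (ci_subs (ci_sum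
    (by fun_prop) (by unfold ter; fun_prop) (by fun_prop)) (by fun_prop))) (by fun_prop))
    (by fun_prop))) (CI.flatMap (CI.map (by fun_prop) (ci_subs (ci_sum
    (by unfold vars; fun_prop) (by unfold ter; fun_prop) (by fun_prop)) (by fun_prop)))
    (by fun_prop))) (by fun_prop)

theorem re_ok : REPred fun q : Grammar × List (List ℕ) => ∃ c, Ok q.1 q.2 c :=
  re_exists (re_and (re_forall_mem (re_lang (by fun_prop) (by fun_prop)) (by fun_prop))
    (re_and (cpred (by fun_prop)).to_re (re_forall_mem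
      (p := fun _ (q : Wd × List Wd) => MemC q.1 q.2) (re_memC (by fun_prop) (by fun_prop))
      (ci_req.comp (g := fun q : (Grammar × List (List ℕ)) × Cert => (q.1.1, q.2))
        (by fun_prop)))))

theorem mem_req {G : Grammar} {c : Cert} {q : Wd × List Wd} : q ∈ req G c ↔ ∃ o ∈ Os G,
    (∃ r ∈ G.2.1, q.1 ∈ subs (Sum.elim (get c o) ter) r.2 ∧ q.2 = get c o r.1) ∨
    (∃ r ∈ G.2.2.1, ∃ v ∈ get c (some r.2.2) r.2.1,
      q.1 ∈ subs (Sum.elim (fun B => get c o B.1) ter) v ∧ q.2 = get c o r.1) ∨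
    ∃ r ∈ G.2.2.2, o = some r.2.1 ∧ q.1 ∈ subs (Sum.elim vars ter) r.2.2 ∧ q.2 = get c o r.1 := by
  obtain ⟨u, ps⟩ := q
  simp only [req, List.mem_flatMap, List.mem_append, List.mem_map, mem_fil, Prod.mk.injEq,
    or_assoc]
  refine exists_congr fun o => and_congr_right fun _ => or_congr ?_ (or_congr ?_ ?_)
  · exact ⟨fun ⟨r, a, _, b, rfl, e⟩ => ⟨r, a, b, e.symm⟩, fun ⟨r, a, b, e⟩ => ⟨r, a, _, b, rfl, e.symm⟩⟩
  · exact ⟨fun ⟨r, a, v, d, _, b, rfl, e⟩ => ⟨r, a, v, d, b, e.symm⟩,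
      fun ⟨r, a, v, d, b, e⟩ => ⟨r, a, v, d, _, b, rfl, e.symm⟩⟩
  · exact ⟨fun ⟨r, a, _, b, rfl, e⟩ => ⟨r, a.1, a.2, b, e.symm⟩,
      fun ⟨r, a, d, b, e⟩ => ⟨r, ⟨a, d⟩, _, b, rfl, e.symm⟩⟩

/-! completeness -/

theorem rtg_append {G : Grammar} {a b : Form} (h : ReflTransGen (Step G) a b) (p s : Form) :
    ReflTransGen (Step G) (p ++ a ++ s) (p ++ b ++ s) := by
  induction h with
  | refl => rfl
  | tail _ h ih => ?_
  refine ih.tail ?_
  obtain ⟨pre, suf, A, σ, rfl, h⟩ := h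
  refine ⟨p ++ pre, suf ++ s, A, σ, by simp, ?_⟩
  rcases h with ⟨r, h1, rfl⟩ | ⟨B, f, h1, rfl⟩ | ⟨f, τ, r, h1, h2, rfl⟩
  exacts [Or.inl ⟨r, h1, by simp⟩, Or.inr (Or.inl ⟨B, f, h1, by simp⟩),
    Or.inr (Or.inr ⟨f, τ, r, h1, h2, by simp⟩)]

theorem rtg_subs {G : Grammar} {P : X → List (List Y)} {e : X → (ℕ × List ℕ) ⊕ ℕ}
    {e' : Y → (ℕ × List ℕ) ⊕ ℕ} (h : ∀ x, ∀ p ∈ P x, ReflTransGen (Step G) [e x] (p.map e'))
    (l : List X) : ∀ u ∈ subs P l, ReflTransGen (Step G) (l.map e) (u.map e') := by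
  induction l with
  | nil => simp [subs, ReflTransGen.refl]
  | cons x l ih =>
    intro u hu
    obtain ⟨v, h1, w, h2, rfl⟩ := mem_subs_cons.1 hu
    have a := rtg_append (h x v h1) [] (l.map e)
    have b := rtg_append (ih w h2) (v.map e') []
    simp only [List.nil_append, List.append_nil] at a b
    simpa using a.trans b

def lft (τ : List ℕ) : Sym → (ℕ × List ℕ) ⊕ ℕ := Sum.map (fun B => (B.1, τ)) id

theorem exists_ok (G : Grammar) : ∃ F c, Ok G F c := by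
  let sy : List (ℕ ⊕ ℕ) := (G.2.1.flatMap fun r => r.2) ++ G.2.2.2.flatMap fun r => r.2.2
  let Z : Option ℕ → Set Sym := fun o =>
    {y | ∃ x ∈ sy, ∃ p ∈ Sum.elim vars ter x, y ∈ p ∧ (o = none → y.isRight)}
  have hZ : ∀ o, (Z o).Finite := fun o => ((sy.flatMap (Sum.elim vars ter)).flatten.finite_toSet).subset
    fun y ⟨x, h1, p, h2, h3, _⟩ => List.mem_flatten.2 ⟨p, List.mem_flatMap.2 ⟨x, h1, h2⟩, h3⟩
  have hZ1 : ∀ o a, Sum.inr a ∈ sy → Sum.inr a ∈ Z o := fun o a h =>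
    ⟨_, h, [Sum.inr a], by simp [ter], by simp, by simp⟩
  have hZ2 : ∀ o o' a, Sum.inr a ∈ Z o → Sum.inr a ∈ Z o' := fun o o' a ⟨x, h1, p, h2, h3, _⟩ =>
    ⟨x, h1, p, h2, h3, by simp⟩
  let st : Option ℕ → List ℕ → List ℕ := fun o τ => o.elim [] fun f => f :: τ
  let C : Option ℕ → ℕ → Wd → Prop := fun o A u => (∀ y ∈ u, y ∈ Z o) ∧
    ∀ τ, ReflTransGen (Step G) [Sum.inl (A, st o τ)] (u.map (lft τ))
  choose ps h1 h2 using fun o A => exists_gens (hZ o) (C o A) fun u h => h.1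
  let NT : List ℕ := G.2.1.map (fun r => r.1) ++ G.2.2.1.map (fun r => r.1) ++
    G.2.2.2.map fun r => r.1
  let c : Cert := (Os G).flatMap fun o => NT.flatMap fun A => (ps o A).map fun u => (o, A, u)
  have h3 : ∀ o A u, u ∈ get c o A ↔ o ∈ Os G ∧ A ∈ NT ∧ u ∈ ps o A := fun o A u => by
    simp only [mem_get, c, List.mem_flatMap, List.mem_map, Prod.mk.injEq]
    exact ⟨fun ⟨_, a, _, b, _, d, rfl, rfl, rfl⟩ => ⟨a, b, d⟩,
      fun ⟨a, b, d⟩ => ⟨_, a, _, b, _, d, rfl, rfl, rfl⟩⟩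
  have h4 : ∀ o A u, u ∈ get c o A → C o A u := fun o A u h => h1 o A u ((h3 ..).1 h).2.2
  have h5 : ∀ o ∈ Os G, ∀ A ∈ NT, ∀ u, C o A u → MemC u (get c o A) := fun o ho A hA u h =>
    (h2 o A u h).mono fun p hp => (h3 ..).2 ⟨ho, hA, hp⟩
  have h6 : ∀ u : Wd, (∀ y ∈ u, y.isRight) → u = (u.filterMap Sum.getRight?).map Sum.inr := by
    intro u hu
    induction u with
    | nil => rfl
    | cons y u ih =>
      obtain ⟨a, rfl⟩ := Sum.isRight_iff.1 (hu y List.mem_cons_self)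
      simpa using ih fun z hz => hu z (List.mem_cons_of_mem _ hz)
  have h7 : ∀ p ∈ get c none G.1, p = (p.filterMap Sum.getRight?).map Sum.inr := fun p hp =>
    h6 p fun y hy => let ⟨_, _, _, _, _, h⟩ := (h4 _ _ _ hp).1 y hy; h rfl
  have ht : ∀ a τ, ∀ p ∈ ter a, ReflTransGen (Step G) [Sum.inr a] (p.map (lft τ)) := by
    simp [ter, lft, ReflTransGen.refl]
  refine ⟨(get c none G.1).map fun p => p.filterMap Sum.getRight?, c,
    List.forall_mem_map.2 fun p hp => ?_, fun p hp => ⟨_, List.mem_map_of_mem hp, h7 p hp⟩,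
    fun ⟨u, q⟩ hq => ?_⟩
  · have := (h4 _ _ _ hp).2 []
    rwa [h7 p hp, List.map_map] at this
  obtain ⟨o, ho, ⟨r, a1, a2, rfl⟩ | ⟨r, a1, v, a3, a2, rfl⟩ | ⟨r, a1, rfl, a2, rfl⟩⟩ := mem_req.1 hq
  · refine h5 o ho _ (by simp only [NT, List.mem_append]; exact Or.inl (Or.inl
      (List.mem_map_of_mem a1))) u ⟨fun y hy => ?_, fun τ => .head ⟨[], [], r.1, _, rfl,
        Or.inl ⟨r.2, a1, (List.append_nil _).symm⟩⟩ (rtg_subs ?_ _ _ a2)⟩
    · obtain ⟨B | a, b1, p, b2, b3⟩ := subs_letters u a2 y hy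
      · exact (h4 _ _ _ b2).1 y b3
      · obtain rfl : p = [Sum.inr a] := by simpa [ter] using b2
        obtain rfl : y = Sum.inr a := by simpa using b3
        exact hZ1 _ _ (List.mem_append_left _ (List.mem_flatMap.2 ⟨r, a1, b1⟩))
    · rintro (B | a) p hp
      exacts [(h4 _ _ _ hp).2 τ, ht a τ p hp]
  · refine h5 o ho _ (by simp only [NT, List.mem_append]; exact Or.inl (Or.inr
      (List.mem_map_of_mem a1))) u ⟨fun y hy => ?_, fun τ => .head ⟨[], [], r.1, _, rfl,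
        Or.inr (Or.inl ⟨r.2.1, r.2.2, a1, rfl⟩)⟩ (((h4 _ _ _ a3).2 (st o τ)).trans
          (rtg_subs ?_ _ _ a2))⟩
    · obtain ⟨B | a, b1, p, b2, b3⟩ := subs_letters u a2 y hy
      · exact (h4 _ _ _ b2).1 y b3
      · obtain rfl : p = [Sum.inr a] := by simpa [ter] using b2
        obtain rfl : y = Sum.inr a := by simpa using b3
        exact hZ2 _ _ _ ((h4 _ _ _ a3).1 _ b1)
    · rintro (B | a) p hp
      exacts [(h4 _ _ _ hp).2 τ, ht a τ p hp]
  · refine h5 _ ho _ (by simp only [NT, List.mem_append]; exact (Or.inr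
      (List.mem_map_of_mem a1))) u ⟨fun y hy => ?_, fun τ => .head ⟨[], [], r.1, _, rfl,
        Or.inr (Or.inr ⟨r.2.1, τ, r.2.2, a1, rfl, (List.append_nil _).symm⟩)⟩ (rtg_subs ?_ _ _ a2)⟩
    · obtain ⟨x, b1, p, b2, b3⟩ := subs_letters u a2 y hy
      exact ⟨x, List.mem_append_right _ (List.mem_flatMap.2 ⟨r, a1, b1⟩), p, b2, b3, by simp⟩
    · rintro (B | a) p hp
      · obtain ⟨j, -, rfl⟩ := List.mem_map.1 hp
        exact .refl
      · exact ht a τ p hp

/-! soundness -/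

theorem prod_le {θ : Sym → Mat ℚ} {P : X → List Wd} {U : X → Submodule ℚ (Mat ℚ)}
    (h : ∀ x, U x ≤ Sp θ (P x)) (l : List X) : (l.map U).prod ≤ Sp θ (subs P l) := by
  induction l with
  | nil => simpa [Submodule.one_le, val] using mem_sp θ (show [] ∈ subs P [] by simp [subs])
  | cons x l ih =>
    rw [List.map_cons, List.prod_cons]
    refine (mul_le_mul' (h x) ih).trans ?_
    rw [Sp, Sp, Submodule.span_mul_span, Submodule.span_le]
    rintro _ ⟨_, ⟨v, h1, rfl⟩, _, ⟨w, h2, rfl⟩, rfl⟩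
    simpa [val] using mem_sp θ (mem_subs_cons.2 ⟨v, h1, w, h2, rfl⟩)

theorem mem_prod {θ : X → Mat ℚ} {U : X → Submodule ℚ (Mat ℚ)} (h : ∀ x, θ x ∈ U x)
    (l : List X) : (l.map θ).prod ∈ (l.map U).prod := by
  induction l with
  | nil => simp
  | cons x l ih => simpa using Submodule.mul_mem_mul (h x) ih

theorem sp_le {θ : Sym → Mat ℚ} {l ps : List Wd} (h : ∀ u ∈ l, MemC u ps) : Sp θ l ≤ Sp θ ps :=
  Submodule.span_le.2 (by rintro _ ⟨u, hu, rfl⟩; exact (h u hu).sound θ)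

theorem exists_span9 (U : Submodule ℚ (Mat ℚ)) : ∃ s : ℕ → Mat ℚ, (∀ j, s j ∈ U) ∧
    U ≤ Submodule.span ℚ (s '' {j | j < 9}) := by
  have h : Module.finrank ℚ U ≤ 9 := U.finrank_le.trans (by simp [Module.finrank_matrix])
  let b := Module.finBasis ℚ U
  refine ⟨fun j => if h : j < _ then b ⟨j, h⟩ else 0, fun j => ?_, fun x hx => ?_⟩
  · beta_reduce; split_ifs <;> simp
  · have := congrArg Subtype.val (b.sum_repr ⟨x, hx⟩)
    simp only [Submodule.coe_sum, Submodule.coe_smul] at this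
    rw [← this]
    exact Submodule.sum_mem _ fun i _ => Submodule.smul_mem _ _ (Submodule.subset_span
      ⟨i.1, i.2.trans_le h, by simp⟩)

theorem ok_sound {G : Grammar} {F : List (List ℕ)} {c : Cert} (h : Ok G F c) (y : ℕ → Mat ℚ)
    {w : List ℕ} (hw : w ∈ Lang G) :
    (w.map y).prod ∈ Submodule.span ℚ ((fun w : List ℕ => (w.map y).prod) '' {w | w ∈ F}) := by
  classical
  choose s s1 s2 using exists_span9
  let as : (ℕ → Submodule ℚ (Mat ℚ)) → Sym → Mat ℚ := fun U => Sum.elim (fun B => s (U B.1) B.2) y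
  let W : List ℕ → ℕ → Submodule ℚ (Mat ℚ) := fun σ => σ.rec
    (fun A => Sp (Sum.elim 0 y) (get c none A))
    fun f _ U A => if some f ∈ Os G then Sp (as U) (get c (some f) A) else ⊤
  have hW : ∀ f σ A, W (f :: σ) A =
    if some f ∈ Os G then Sp (as (W σ)) (get c (some f) A) else ⊤ := fun _ _ _ => rfl
  have k1 : ∀ σ, (∀ A, W σ A = ⊤) ∨ ∃ o ∈ Os G, ∃ θ : Sym → Mat ℚ, (∀ a, θ (.inr a) = y a) ∧
      ∀ A, W σ A = Sp θ (get c o A) := by
    rintro (_ | ⟨f, σ⟩)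
    · exact Or.inr ⟨none, List.mem_cons_self, _, fun _ => rfl, fun _ => rfl⟩
    · by_cases hf : some f ∈ Os G
      exacts [Or.inr ⟨_, hf, as (W σ), fun _ => rfl, fun _ => if_pos hf⟩, Or.inl fun _ => if_neg hf]
  have k2 : ∀ (θ : Sym → Mat ℚ) a, θ (.inr a) = y a → Submodule.span ℚ {y a} ≤ Sp θ (ter a) :=
    fun θ a e => by simpa [val, e] using mem_sp θ (show [Sum.inr a] ∈ ter a by simp [ter])
  let U : (ℕ × List ℕ) ⊕ ℕ → Submodule ℚ (Mat ℚ) :=
    Sum.elim (fun B => W B.2 B.1) fun a => Submodule.span ℚ {y a}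
  have k3 : ∀ u v, Step G u v → (v.map U).prod ≤ (u.map U).prod := by
    rintro _ _ ⟨pre, suf, A, σ, rfl, H⟩
    have k : ∀ δ : Form, (δ.map U).prod ≤ W σ A →
        ((pre ++ δ ++ suf).map U).prod ≤ ((pre ++ Sum.inl (A, σ) :: suf).map U).prod := fun δ h => by
      simp only [List.map_append, List.prod_append, List.map_cons, List.prod_cons, mul_assoc]
      exact mul_le_mul' le_rfl (mul_le_mul' h le_rfl)
    rcases H with ⟨r, h1, rfl⟩ | ⟨B, f, h1, rfl⟩ | ⟨f, τ, r, h1, rfl, rfl⟩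
    · refine k _ ?_
      obtain h2 | ⟨o, ho, θ, h2, h3⟩ := k1 σ
      · simp [h2]
      rw [att, List.map_map, h3]
      refine (prod_le (θ := θ) (P := Sum.elim (get c o) ter) ?_ r).trans (sp_le fun u hu =>
        h.2.2 (u, _) (mem_req.2 ⟨o, ho, Or.inl ⟨_, h1, hu, rfl⟩⟩))
      rintro (B | a)
      exacts [(h3 B).le, k2 θ a (h2 a)]
    · refine le_trans (by simp) (k [Sum.inl (B, f :: σ)] ?_)
      obtain h2 | ⟨o, ho, θ, h2, h3⟩ := k1 σ
      · simp [h2]
      have hf : some f ∈ Os G := List.mem_cons_of_mem _ (List.mem_map.2 ⟨_, h1, rfl⟩)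
      simp only [List.map_cons, List.map_nil, List.prod_cons, List.prod_nil, mul_one, U,
        Sum.elim_inl, hW, if_pos hf]
      refine Submodule.span_le.2 ?_
      rintro _ ⟨v, hv, rfl⟩
      rw [h3]
      refine ((prod_le (θ := θ) (P := Sum.elim (fun B => get c o B.1) ter) (U := Sum.elim
        (fun B => W σ B.1) fun a => Submodule.span ℚ {y a}) ?_ v).trans (sp_le fun u hu =>
        h.2.2 (u, _) (mem_req.2 ⟨o, ho, Or.inr (Or.inl ⟨_, h1, v, hv, hu, rfl⟩)⟩))) (mem_prod ?_ v)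
      · rintro (B | a)
        exacts [(h3 B.1).le, k2 θ a (h2 a)]
      · rintro (B | a)
        exacts [s1 _ _, Submodule.mem_span_singleton_self _]
    · refine k _ ?_
      rw [hW]
      split_ifs with hf
      · rw [att, List.map_map]
        refine (prod_le (θ := as (W τ)) (P := Sum.elim vars ter) ?_ r).trans (sp_le fun u hu =>
          h.2.2 (u, _) (mem_req.2 ⟨_, hf, Or.inr (Or.inr ⟨_, h1, rfl, hu, rfl⟩)⟩))
        rintro (B | a)
        · refine (s2 _).trans (Submodule.span_mono ?_)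
          rintro _ ⟨j, hj, rfl⟩
          exact ⟨[.inl (B, j)], List.mem_map.2 ⟨j, List.mem_range.2 hj, rfl⟩, by simp [val, as, U]⟩
        · exact k2 _ a rfl
      · exact le_top
  have k4 : ∀ u v, ReflTransGen (Step G) u v → (v.map U).prod ≤ (u.map U).prod := fun u v h => by
    induction h with
    | refl => rfl
    | tail _ h ih => exact (k3 _ _ h).trans ih
  have k5 := k4 _ _ hw (by
    rw [List.map_map]
    exact mem_prod (θ := y) (fun a => Submodule.mem_span_singleton_self _) w)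
  simp only [List.map_cons, List.map_nil, List.prod_cons, List.prod_nil, mul_one] at k5
  refine Submodule.span_mono ?_ k5
  rintro _ ⟨p, hp, rfl⟩
  obtain ⟨w, h1, rfl⟩ := h.2.1 p hp
  exact ⟨w, h1, by simp [val, Function.comp_def]⟩

def V : List ℕ → ℕ
  | [] => 0
  | a :: u => 2 ^ a * (2 * V u + 1)

theorem V_inj : Function.Injective V := by
  have key : ∀ a b x y : ℕ, 2 ^ a * (2 * x + 1) = 2 ^ b * (2 * y + 1) → a = b ∧ x = y := by
    intro a
    induction a with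
    | zero => rintro (_ | b) x y h <;> simp only [pow_succ', mul_assoc, pow_zero] at h <;> omega
    | succ a ih =>
      rintro (_ | b) x y h <;> simp only [pow_succ', mul_assoc] at h
      · omega
      · have := ih b x y (by omega)
        omega
  intro u
  induction u with
  | nil => rintro (_ | ⟨b, v⟩) h; rfl; exact absurd h (by simp only [V]; positivity)
  | cons a u ih =>
    rintro (_ | ⟨b, v⟩) h
    · exact absurd h.symm (by simp only [V]; positivity)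
    · have := key _ _ _ _ h
      rw [this.1, ih this.2]

def P (u : List ℕ) : ℕ := (u.map fun a => 2 ^ (a + 1)).prod

theorem V_append (u v : List ℕ) : V (u ++ v) = V u + P u * V v := by
  induction u with
  | nil => simp [V, P]
  | cons a u ih => simp only [List.cons_append, V, ih, P, List.map_cons, List.prod_cons]; ring

def mt (u v : List ℕ) : Mat ℚ := !![P u, 0, V u; 0, P v, V v; 0, 0, 1]

theorem mt_prod (g h : ℕ → List ℕ) (w : List ℕ) :
    (w.map fun a => mt (g a) (h a)).prod = mt (w.flatMap g) (w.flatMap h) := by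
  induction w with
  | nil => ext i j; fin_cases i <;> fin_cases j <;> simp [mt, P, V]
  | cons a w ih =>
    rw [List.map_cons, List.prod_cons, ih]
    ext i j
    fin_cases i <;> fin_cases j <;> simp [mt, P, V_append, Matrix.mul_apply, Fin.sum_univ_three,
      add_comm]

theorem ok_nat {G : Grammar} {F : List (List ℕ)} {c : Cert} (h : Ok G F c) (g g' : ℕ → List ℕ) :
    (∀ x ∈ Lang G, x.flatMap g = x.flatMap g') ↔ ∀ x ∈ F, x.flatMap g = x.flatMap g' := by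
  refine ⟨fun H x hx => H x (h.1 x hx), fun H w hw => ?_⟩
  have k := ok_sound h (fun a => mt (g a) (g' a)) hw
  have k2 : ∀ M ∈ Submodule.span ℚ ((fun w : List ℕ =>
      (w.map fun a => mt (g a) (g' a)).prod) '' {w | w ∈ F}), M 0 2 = M 1 2 := by
    intro M hM
    induction hM using Submodule.span_induction with
    | mem M h =>
      obtain ⟨x, hx, rfl⟩ := h
      simp only [mt_prod, H x hx]
      rfl
    | zero => rfl
    | add _ _ _ _ a b => simp [a, b]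
    | smul _ _ _ a => simp [a]
  have := k2 _ k
  simp only [mt_prod] at this
  exact V_inj (Nat.cast_injective (R := ℚ) this)

theorem ok_test {G : Grammar} {F : List (List ℕ)} {c : Cert} (h : Ok G F c) :
    IsTestSet (Lang G) F := by
  refine ⟨h.1, fun Δ _ g g' => ?_⟩
  obtain ⟨e, he⟩ := Countable.exists_injective_nat Δ
  simpa only [← List.map_flatMap, (List.map_injective_iff.2 he).eq_iff] using
    ok_nat h (fun a => (g a).map e) fun a => (g' a).map e

theorem main : ∃ T : Grammar → List (List ℕ), Computable T ∧ ∀ G, IsTestSet (Lang G) (T G) := by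
  obtain ⟨T, h1, h2⟩ := re_choice re_ok exists_ok
  exact ⟨T, h1.computable, fun G => (h2 G).elim fun _ h => ok_test h⟩

noncomputable def tr (S : ℕ) (R : List (ℕ × ℕ × ℕ × ℕ)) : Grammar :=
  (S, ((fil (fun r => r.1 = 0) R).map fun r => (r.2.1, [Sum.inl r.2.2.1, Sum.inl r.2.2.2])) ++
    ((fil (fun r => r.1 = 3) R).map fun r => (r.2.1, [Sum.inr r.2.2.1])) ++
    (fil (fun r => r.1 = 4) R).map fun r => (r.2.1, []),
    (fil (fun r => r.1 = 1) R).map fun r => r.2,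
    (fil (fun r => r.1 = 2) R).map fun r => (r.2.1, r.2.2.2, [Sum.inl r.2.2.1]))

theorem equiv_dec :
    ComputablePred
      (fun p : ℕ × List (ℕ × ℕ × ℕ × ℕ) × List (List ℕ) × List (List ℕ) =>
        ∀ w : List ℕ,
          Relation.ReflTransGen
            (fun (u v : List ((ℕ × List ℕ) ⊕ ℕ)) =>
              ∃ (pre suf : List ((ℕ × List ℕ) ⊕ ℕ)) (A : ℕ) (σ : List ℕ),
                u = pre ++ Sum.inl (A, σ) :: suf ∧
                ∃ r ∈ p.2.1, r.2.1 = A ∧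
                  ((r.1 = 0 ∧
                      v = pre ++ Sum.inl (r.2.2.1, σ) :: Sum.inl (r.2.2.2, σ) :: suf) ∨
                   (r.1 = 1 ∧ v = pre ++ Sum.inl (r.2.2.1, r.2.2.2 :: σ) :: suf) ∨
                   (r.1 = 2 ∧ ∃ τ : List ℕ, σ = r.2.2.2 :: τ ∧
                      v = pre ++ Sum.inl (r.2.2.1, τ) :: suf) ∨
                   (r.1 = 3 ∧ v = pre ++ Sum.inr r.2.2.1 :: suf) ∨
                   (r.1 = 4 ∧ v = pre ++ suf)))
            ([Sum.inl (p.1, [])] : List ((ℕ × List ℕ) ⊕ ℕ))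
            (List.map Sum.inr w : List ((ℕ × List ℕ) ⊕ ℕ)) →
          w.flatMap (fun a => p.2.2.1.getD a []) =
            w.flatMap (fun a => p.2.2.2.getD a [])) := by
  obtain ⟨T, h1, h2⟩ := re_choice re_ok exists_ok
  have h3 : CI ∅ fun p : ℕ × List (ℕ × ℕ × ℕ × ℕ) × List (List ℕ) × List (List ℕ) =>
    T (tr p.1 p.2.1) := h1.comp (by unfold tr; fun_prop)
  refine cpred (ci_iff' (p := fun p => Al (T (tr p.1 p.2.1)) fun w =>
    w.flatMap (fun a => p.2.2.1.getD a []) = w.flatMap fun a => p.2.2.2.getD a [])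
    (ci_al h3 (by fun_prop)) fun p => ?_)
  obtain ⟨c, hc⟩ := h2 (tr p.1 p.2.1)
  refine Iff.trans ?_ (ok_nat hc _ _)
  refine forall_congr' fun w => imp_congr_left (iff_of_eq ?_)
  congr 1
  funext u v
  refine propext (exists₄_congr fun pre suf A σ => and_congr_right fun _ => ?_)
  simp only [tr, List.mem_append, List.mem_map, mem_fil, Prod.mk.injEq]
  constructor
  · rintro ⟨r, h, rfl, ⟨e, rfl⟩ | ⟨e, rfl⟩ | ⟨e, τ, rfl, rfl⟩ | ⟨e, rfl⟩ | ⟨e, rfl⟩⟩
    · exact Or.inl ⟨_, Or.inl (Or.inl ⟨r, ⟨h, e⟩, rfl, rfl⟩), by simp [att]⟩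
    · exact Or.inr (Or.inl ⟨_, _, ⟨r, ⟨h, e⟩, rfl⟩, rfl⟩)
    · exact Or.inr (Or.inr ⟨_, τ, _, ⟨r, ⟨h, e⟩, rfl, rfl, rfl⟩, rfl, by simp [att]⟩)
    · exact Or.inl ⟨_, Or.inl (Or.inr ⟨r, ⟨h, e⟩, rfl, rfl⟩), by simp [att]⟩
    · exact Or.inl ⟨_, Or.inr ⟨r, ⟨h, e⟩, rfl, rfl⟩, by simp [att]⟩
  · rintro (⟨_, (⟨r, ⟨h, e⟩, rfl, rfl⟩ | ⟨r, ⟨h, e⟩, rfl, rfl⟩) | ⟨r, ⟨h, e⟩, rfl, rfl⟩, rfl⟩ |
      ⟨B, f, ⟨r, ⟨h, e⟩, e'⟩, rfl⟩ | ⟨_, τ, _, ⟨r, ⟨h, e⟩, rfl, rfl, rfl⟩, rfl, rfl⟩)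
    · exact ⟨r, h, rfl, Or.inl ⟨e, by simp [att]⟩⟩
    · exact ⟨r, h, rfl, Or.inr (Or.inr (Or.inr (Or.inl ⟨e, by simp [att]⟩)))⟩
    · exact ⟨r, h, rfl, Or.inr (Or.inr (Or.inr (Or.inr ⟨e, by simp [att]⟩)))⟩
    · exact ⟨r, h, by rw [e'], Or.inr (Or.inl ⟨e, by rw [e']⟩)⟩
    · exact ⟨r, h, rfl, Or.inr (Or.inr (Or.inl ⟨e, τ, rfl, by simp [att]⟩))⟩

end Pool.Agent.H73.Idx
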