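import Mathlib

/-! Special inverse monoid presentations. A letter `(y, true)` is the generator `y`, a letter
`(y, false)` is its formal inverse, and `FreeGroup.invRev` is the formal inverse of a word. -/

set_option autoImplicit false

namespace Pool.Agent.H73.InvM

open FreeMonoid FreeGroup

/-- Generating pairs: the Wagner relations `a a⁻¹ a = a`, `a a⁻¹ b b⁻¹ = b b⁻¹ a a⁻¹` of the free
inverse monoid, and `w = 1` for `w ∈ W`. -/
def Base {Y : Type} (W : Set (List (Y × Bool))) (u v : FreeMonoid (Y × Bool)) : Prop :=
  (∃ a, u = ofList (a ++ invRev a ++ a) ∧ v = ofList a) ∨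
  (∃ a b, u = ofList (a ++ invRev a ++ (b ++ invRev b)) ∧
    v = ofList (b ++ invRev b ++ (a ++ invRev a))) ∨
  (∃ w ∈ W, u = ofList w ∧ v = 1)

/-- The special inverse monoid `Inv⟨Y | w = 1 (w ∈ W)⟩`. -/
def SInv {Y : Type} (W : Set (List (Y × Bool))) : Type := (conGen (Base W)).Quotient

instance instMon {Y : Type} (W : Set (List (Y × Bool))) : Monoid (SInv W) :=
  inferInstanceAs (Monoid (conGen (Base W)).Quotient)

/-- The element represented by a word. -/
def el {Y : Type} (W : Set (List (Y × Bool))) (w : List (Y × Bool)) : SInv W :=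
  (conGen (Base W)).mk' (ofList w)

/-- every element has exactly one inverse -/
def IsInverse (S : Type) [Monoid S] : Prop := ∀ s : S, ∃! s', s * s' * s = s ∧ s' * s * s' = s'

/-- the minimum group congruence -/
def Sig {S : Type} [Monoid S] (s t : S) : Prop := ∃ e, IsIdempotentElem e ∧ e * s = e * t

/-- an element above an idempotent in the natural partial order is idempotent -/
def EUnitary (S : Type) [Monoid S] : Prop :=
  ∀ e s : S, IsIdempotentElem e → (∃ f, IsIdempotentElem f ∧ e = f * s) → IsIdempotentElem s

/-- right units: the R-class of the identity -/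
def RU {S : Type} [Monoid S] (s : S) : Prop := ∃ s', s * s' = 1

/-- the image `P` of the right units in the maximal group image satisfies `aP ∩ bP ≠ ∅` -/
def PrefRev (S : Type) [Monoid S] : Prop :=
  ∀ a b : S, RU a → RU b → ∃ p q, RU p ∧ RU q ∧ Sig (a * p) (b * q)

end Pool.Agent.H73.InvM
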