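import Pool.Agent.H73.InvDefs

set_option autoImplicit false

namespace Pool.Agent.H73.InvM

open FreeMonoid (ofList toList toList_ofList toList_mul)
open FreeGroup (mk invRev mul_mk inv_mk one_eq_mk invRev_cons)

variable {Y : Type} {W : Set (List (Y × Bool))}

theorem el_append (u v : List (Y × Bool)) : el W (u ++ v) = el W u * el W v :=
  map_mul (conGen (Base W)).mk' (ofList u) (ofList v)

theorem el_nil : el W [] = 1 := rfl

theorem el_cons (l : Y × Bool) (v : List (Y × Bool)) : el W (l :: v) = el W [l] * el W v :=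
  el_append [l] v

theorem el_surj (s : SInv W) : ∃ w, el W w = s := by
  obtain ⟨w, rfl⟩ := (conGen (Base W)).mk'_surjective s
  exact ⟨w.toList, rfl⟩

theorem el_eq {u v : List (Y × Bool)} : el W u = el W v ↔ conGen (Base W) (ofList u) (ofList v) :=
  Con.eq _

theorem el_base {u v : List (Y × Bool)} (h : Base W (ofList u) (ofList v)) : el W u = el W v :=
  el_eq.2 (ConGen.Rel.of _ _ h)

theorem el_reg (a : List (Y × Bool)) : el W a * el W (invRev a) * el W a = el W a := by
  rw [← el_append, ← el_append]; exact el_base (.inl ⟨a, rfl, rfl⟩)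

theorem el_comm (a b : List (Y × Bool)) :
    Commute (el W a * el W (invRev a)) (el W b * el W (invRev b)) := by
  simp only [Commute, SemiconjBy, ← el_append]; exact el_base (.inr (.inl ⟨a, b, rfl, rfl⟩))

theorem el_rel {w : List (Y × Bool)} (h : w ∈ W) : el W w = 1 :=
  el_base (v := []) (.inr (.inr ⟨w, h, rfl, rfl⟩))

theorem el_inv {u v : FreeMonoid (Y × Bool)} (h : conGen (Base W) u v) :
    el W (invRev u.toList) = el W (invRev v.toList) := by
  induction h with
  | of u v h =>
    obtain ⟨a, h1, h2⟩ | ⟨a, b, h1, h2⟩ | ⟨w, hw, h1, h2⟩ := h <;> rw [h1, h2]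
    · simpa [el_append, mul_assoc] using el_reg (W := W) (invRev a)
    · simpa [el_append, mul_assoc] using (el_comm (W := W) b a).eq
    · simpa [el_rel hw, el_nil] using el_reg (W := W) w
  | refl => rfl
  | symm _ ih => exact ih.symm
  | trans _ _ h1 h2 => exact h1.trans h2
  | mul _ _ h1 h2 => simp [el_append, h1, h2]

/-- the inverse -/
def st (s : SInv W) : SInv W :=
  Con.liftOn (c := conGen (Base W)) s (fun u => el W (invRev u.toList)) fun _ _ h => el_inv h

theorem st_el (w : List (Y × Bool)) : st (el W w) = el W (invRev w) := rfl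

theorem st_mul (s t : SInv W) : st (s * t) = st t * st s := by
  obtain ⟨u, rfl⟩ := el_surj s
  obtain ⟨v, rfl⟩ := el_surj t
  simp [← el_append, st_el]

theorem st_st (s : SInv W) : st (st s) = s := by
  obtain ⟨u, rfl⟩ := el_surj s
  simp [st_el]

theorem reg (s : SInv W) : s * st s * s = s := by
  obtain ⟨u, rfl⟩ := el_surj s
  exact el_reg u

theorem reg' (s : SInv W) : st s * s * st s = st s := by simpa [st_st] using reg (st s)

theorem comm (s t : SInv W) : Commute (s * st s) (t * st t) := by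
  obtain ⟨u, rfl⟩ := el_surj s
  obtain ⟨v, rfl⟩ := el_surj t
  exact el_comm u v

theorem st_unit (u : (SInv W)ˣ) : st (u : SInv W) = ↑u⁻¹ := by
  have := reg (u : SInv W)
  exact (Units.inv_eq_of_mul_eq_one_right (u.mul_left_inj.1 (this.trans (one_mul _).symm))).symm

theorem idem_eq {e : SInv W} (h : IsIdempotentElem e) : e * st e = e := by
  have h1 : st e = e * st e * (st e * e) := by
    have := (comm e (st e)).eq
    rw [st_st] at this
    rw [this, mul_assoc, ← mul_assoc e e, h.eq, ← mul_assoc, reg']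
  have h3 : e = st e := by
    calc e = e * st e * e := (reg e).symm
      _ = e * (e * st e * (st e * e)) * e := by rw [← h1]
      _ = e * st e * (st e * e) := by
        simp only [← mul_assoc, h.eq]; rw [mul_assoc _ e e, h.eq]
      _ = st e := h1.symm
  rw [← h3, h.eq]

theorem icomm {e f : SInv W} (he : IsIdempotentElem e) (hf : IsIdempotentElem f) :
    Commute e f := by simpa [idem_eq he, idem_eq hf] using comm e f

theorem idem_l (s : SInv W) : IsIdempotentElem (s * st s) := by
  rw [IsIdempotentElem, ← mul_assoc, reg]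

theorem idem_r (s : SInv W) : IsIdempotentElem (st s * s) := by simpa [st_st] using idem_l (st s)

theorem conj_mul (s : SInv W) {e : SInv W} (he : IsIdempotentElem e) :
    s * e * st s * s = s * e := by
  rw [mul_assoc, mul_assoc, (icomm he (idem_r s)).eq, ← mul_assoc, ← mul_assoc, reg]

theorem conj_idem (s : SInv W) {e : SInv W} (he : IsIdempotentElem e) :
    IsIdempotentElem (s * e * st s) := by
  rw [IsIdempotentElem, ← mul_assoc, ← mul_assoc, conj_mul s he, mul_assoc s, he.eq]

theorem isInverse : IsInverse (SInv W) := fun s => by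
  refine ⟨st s, ⟨reg s, reg' s⟩, fun a ⟨h1, h2⟩ => ?_⟩
  have i1 : IsIdempotentElem (a * s) := by rw [IsIdempotentElem, ← mul_assoc, h2]
  have i2 : IsIdempotentElem (s * a) := by rw [IsIdempotentElem, ← mul_assoc, h1]
  calc a = a * s * (st s * s) * a := by rw [mul_assoc a, ← mul_assoc s, reg, h2]
    _ = st s * (s * a) := by
      rw [(icomm i1 (idem_r s)).eq, mul_assoc, h2, mul_assoc]
    _ = st s * (s * st s) * (s * a) := by rw [← mul_assoc (st s) s (st s), reg']
    _ = st s := by
      rw [mul_assoc, (icomm (idem_l s) i2).eq, ← mul_assoc (s * a), h1, ← mul_assoc, reg']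

section grp
variable {Γ : Type} [Group Γ] (π : SInv W →* Γ)

theorem pi_idem {e : SInv W} (h : IsIdempotentElem e) : π e = 1 := by
  simpa using congrArg π h.eq

theorem pi_st (s : SInv W) : π (st s) = (π s)⁻¹ :=
  eq_inv_of_mul_eq_one_right (by rw [← map_mul]; exact pi_idem π (idem_l s))

variable (hπ : ∀ s, π s = 1 → IsIdempotentElem s)
include hπ

theorem eunit : EUnitary (SInv W) := by
  rintro e s he ⟨f, hf, rfl⟩
  exact hπ s (by simpa [pi_idem π hf] using pi_idem π he)

theorem sig_iff (s t : SInv W) : Sig s t ↔ π s = π t := by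
  refine ⟨fun ⟨e, _, h⟩ => by simpa using congrArg π h, fun h => ?_⟩
  have he : IsIdempotentElem (s * st t) := hπ _ (by simp [pi_st, h])
  have hg := conj_idem s (idem_r t)
  have e1 : s * st t * t = s * (st t * t) * st s * s := by
    rw [conj_mul s (idem_r t), mul_assoc]
  refine ⟨_, he.mul_of_commute (icomm he hg) hg, ?_⟩
  rw [mul_assoc (s * st t), ← e1, ← mul_assoc (s * st t), he.eq, (icomm he hg).eq,
    mul_assoc _ (s * st t), e1, ← mul_assoc _ _ s, hg.eq]

end grp

/-- maps of a special inverse monoid to a group -/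
def toGrp {Γ : Type} [Group Γ] (ρ : FreeGroup Y →* Γ) (h : ∀ w ∈ W, ρ (mk w) = 1) : SInv W →* Γ :=
  Con.lift _ (ρ.comp ⟨⟨fun u => mk u.toList, rfl⟩, fun _ _ => mul_mk.symm⟩) (Con.conGen_le.2 (by
    rintro _ _ (⟨a, h1, h2⟩ | ⟨a, b, h1, h2⟩ | ⟨w, hw, h1, h2⟩) <;> rw [Con.ker_rel, h1, h2]
    · simp [← mul_mk, ← inv_mk]
    · simp [← mul_mk, ← inv_mk]
    · simpa [← one_eq_mk] using h w hw))

theorem toGrp_el {Γ : Type} [Group Γ] (ρ : FreeGroup Y →* Γ) (h : ∀ w ∈ W, ρ (mk w) = 1)
    (w : List (Y × Bool)) : toGrp ρ h (el W w) = ρ (mk w) := rfl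

section ok
variable {Γ : Type} [Group Γ] (ρ : FreeGroup Y →* Γ) (P : Set Γ)

/-- the path labelled `w` from `p` stays in `P` -/
def Ok : List (Y × Bool) → Γ → Prop
  | [], p => p ∈ P
  | l :: w, p => p ∈ P ∧ Ok w (p * ρ (mk [l]))

variable {ρ P}

theorem Ok.start {w : List (Y × Bool)} {p : Γ} (h : Ok ρ P w p) : p ∈ P := by
  cases w; exacts [h, h.1]

theorem ok_append (u v : List (Y × Bool)) (p : Γ) :
    Ok ρ P (u ++ v) p ↔ Ok ρ P u p ∧ Ok ρ P v (p * ρ (mk u)) := by
  induction u generalizing p with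
  | nil => simpa [Ok, ← one_eq_mk] using Ok.start
  | cons l u ih =>
    simp only [List.cons_append, Ok, ih, and_assoc, mul_assoc, ← map_mul, mul_mk,
      List.nil_append]

theorem Ok.inv {w : List (Y × Bool)} {p : Γ} (h : Ok ρ P w p) :
    Ok ρ P (invRev w) (p * ρ (mk w)) := by
  induction w generalizing p with
  | nil => simpa [← one_eq_mk] using h
  | cons l w ih =>
    have e : mk (l :: w) = mk [l] * mk w := rfl
    have e2 : mk [(l.1, !l.2)] = (mk [l])⁻¹ := rfl
    have e3 : invRev [l] = [(l.1, !l.2)] := rfl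
    rw [invRev_cons, ok_append, ← inv_mk, e, map_mul, ← mul_assoc]
    refine ⟨ih h.2, ?_⟩
    simp only [map_inv, mul_inv_cancel_right, e3, Ok, e2]
    exact ⟨h.2.start, h.1⟩

theorem ok_eq (h : ∀ w ∈ W, ρ (mk w) = 1) (h' : ∀ w ∈ W, ∀ p ∈ P, Ok ρ P w p)
    {u v : FreeMonoid (Y × Bool)} (e : conGen (Base W) u v) (p : Γ) :
    Ok ρ P u.toList p ↔ Ok ρ P v.toList p := by
  induction e generalizing p with
  | of u v e =>
    obtain ⟨a, h1, h2⟩ | ⟨a, b, h1, h2⟩ | ⟨w, hw, h1, h2⟩ := e <;> rw [h1, h2]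
    · simp only [toList_ofList, ok_append, ← mul_mk, ← inv_mk, mul_inv_cancel, map_one, mul_one]
      exact ⟨fun h => h.2, fun h => ⟨⟨h, h.inv⟩, h⟩⟩
    · simp only [toList_ofList, ok_append, ← mul_mk, ← inv_mk, mul_inv_cancel, map_one, mul_one]
      exact and_comm
    · exact ⟨Ok.start, h' w hw p⟩
  | refl => rfl
  | symm _ ih => exact (ih p).symm
  | trans _ _ h1 h2 => exact (h1 p).trans (h2 p)
  | @mul a b c d e _ h1 h2 =>
    have : ρ (mk a.toList) = ρ (mk b.toList) := congrArg (toGrp ρ h) (el_eq.2 e)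
    simp only [toList_mul, ok_append, h1, h2, this]

end ok

end Pool.Agent.H73.InvM
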