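import Pool.Agent.H73.InvM1
import Pool.Agent.H30.NBa

set_option autoImplicit false

namespace Pool.Agent.H73.InvM

open FreeMonoid (ofList toList toList_ofList toList_mul)
open FreeGroup (mk invRev mul_mk inv_mk one_eq_mk invRev_cons lift of)
open scoped commutatorElement

/-- the data of the construction -/
structure Dat (J : Type) (m : ℕ) where
  make ::
  θ : FreeGroup J →* FreeGroup J
  inj : Function.Injective θ
  h : FreeGroup (Fin m) →* FreeGroup J × FreeGroup J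
  a : FreeGroup J →* FreeGroup (Fin m)
  b : FreeGroup J →* FreeGroup (Fin m)
  ha : ∀ g, h (a g) = (θ g, 1)
  hb : ∀ g, h (b g) = (1, θ g)

def up {m : ℕ} (L : List (Fin m × Bool)) : List (Fin (m + 1) × Bool) := L.map fun l => (l.1.succ, l.2)

def wd {m : ℕ} (g : FreeGroup (Fin m)) : List (Fin (m + 1) × Bool) := up g.toWord

namespace Dat

variable {J : Type} {m : ℕ} (D : Dat J m)

def ψ : FreeGroup J × FreeGroup J →* FreeGroup J × FreeGroup J := D.θ.prodMap D.θ

def lam (q : FreeGroup J × FreeGroup J) : FreeGroup (Fin m) := D.a q.1 * D.b q.2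

theorem h_lam (q : FreeGroup J × FreeGroup J) : D.h (D.lam q) = D.ψ q := by
  simp [lam, D.ha, D.hb, ψ, Prod.map]

def W : Set (List (Fin (m + 1) × Bool)) :=
  Set.range (fun l : Fin m × Bool => up [l, (l.1, !l.2)]) ∪ {[(0, true), (0, false)]} ∪
  Set.range (fun x => up [(x, true)] ++ [(0, true)] ++ wd (D.lam (D.h (of x)))⁻¹ ++ [(0, false)]) ∪
  Set.range (fun p : J × J => wd ⁅D.a (of p.1), D.b (of p.2)⁆)

theorem W_fin [Finite J] : D.W.Finite :=
  (((Set.finite_range _).union (Set.finite_singleton _)).union (Set.finite_range _)).union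
    (Set.finite_range _)

def κ : FreeGroup (Fin m) →* (SInv D.W)ˣ := lift fun x =>
  ⟨el D.W (up [(x, true)]), el D.W (up [(x, false)]),
    (el_append _ _).symm.trans (el_rel (.inl (.inl (.inl ⟨(x, true), rfl⟩)))),
    (el_append _ _).symm.trans (el_rel (.inl (.inl (.inl ⟨(x, false), rfl⟩))))⟩

theorem el_up (L : List (Fin m × Bool)) : el D.W (up L) = D.κ (mk L) := by
  induction L with
  | nil => simp [up, el_nil, ← one_eq_mk]
  | cons l L ih =>
    have e : mk (l :: L) = mk [l] * mk L := rfl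
    rw [e, map_mul, Units.val_mul, ← ih]
    refine (el_cons _ _).trans ?_
    congr 1
    obtain ⟨x, _ | _⟩ := l
    · rw [show mk [(x, false)] = (of x)⁻¹ from rfl, map_inv, κ, FreeGroup.lift_apply_of]; rfl
    · rw [show mk [(x, true)] = of x from rfl, κ, FreeGroup.lift_apply_of]; rfl

theorem el_wd (g : FreeGroup (Fin m)) : el D.W (wd g) = D.κ g := by
  rw [wd, el_up, FreeGroup.mk_toWord]

def T : SInv D.W := el D.W [(0, true)]

theorem TT : D.T * st D.T = 1 :=
  (el_append [(0, true)] [(0, false)]).symm.trans (el_rel (.inl (.inl (.inr rfl))))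

theorem TT_pow (i : ℕ) : D.T ^ i * st D.T ^ i = 1 := by
  induction i with
  | zero => simp
  | succ i ih => rw [pow_succ, pow_succ', mul_assoc, ← mul_assoc D.T, TT, one_mul, ih]

theorem ab_comm (g g' : FreeGroup J) : Commute (D.κ (D.a g)) (D.κ (D.b g')) := by
  have h0 : ∀ i j, Commute (D.κ (D.a (of i))) (D.κ (D.b (of j))) := fun i j => by
    rw [← commutatorElement_eq_one_iff_commute, ← map_commutatorElement, ← Units.val_eq_one,
      ← el_wd]
    exact el_rel (.inr ⟨(i, j), rfl⟩)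
  have h1 : ∀ i g', Commute (D.κ (D.a (of i))) (D.κ (D.b g')) := fun i g' => by
    induction g' using FreeGroup.induction_on with
    | C1 => simp
    | of j => exact h0 i j
    | inv_of j ih => simpa using ih
    | mul x y h1 h2 => simpa using h1.mul_right h2
  induction g using FreeGroup.induction_on with
  | C1 => simp
  | of j => exact h1 j g'
  | inv_of j ih => simpa using ih
  | mul x y h1 h2 => simpa using h1.mul_left h2

theorem lam_mul (q q' : FreeGroup J × FreeGroup J) :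
    D.κ (D.lam (q * q')) = D.κ (D.lam q) * D.κ (D.lam q') := by
  simp only [lam, map_mul, Prod.fst_mul, Prod.snd_mul, mul_assoc]
  rw [← mul_assoc (D.κ (D.a q'.1)), (D.ab_comm q'.1 q.2).eq, mul_assoc]

def γ : FreeGroup J × FreeGroup J →* (SInv D.W)ˣ :=
  MonoidHom.mk' (fun q => D.κ (D.lam q)) D.lam_mul

theorem kT (g : FreeGroup (Fin m)) : D.κ g * D.T = D.T * D.γ (D.h g) := by
  have h0 : ∀ x, D.κ (of x) * D.T = D.T * D.γ (D.h (of x)) := fun x => by
    have := el_rel (W := D.W) (.inl (.inr ⟨x, rfl⟩))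
    simp only [el_append, el_wd, el_up] at this
    change D.κ (of x) * D.T * ↑(D.κ (D.lam (D.h (of x)))⁻¹) * st D.T = 1 at this
    rw [map_inv] at this
    change D.κ (of x) * D.T * ↑(D.γ (D.h (of x)))⁻¹ * st D.T = 1 at this
    generalize D.γ (D.h (of x)) = u, D.κ (of x) = k at *
    have h2 : ↑k * D.T * ↑u⁻¹ = D.T := (isInverse (st D.T)).unique
      ⟨by rw [mul_assoc, this, mul_one], by rw [this, one_mul]⟩ ⟨reg' _, reg _⟩
    rw [← Units.mul_inv_eq_iff_eq_mul, h2]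
  induction g using FreeGroup.induction_on with
  | C1 => simp
  | of x => exact h0 x
  | inv_of x ih =>
    rw [map_inv, map_inv, map_inv, Units.inv_mul_eq_iff_eq_mul, ← mul_assoc, ih,
      Units.mul_inv_cancel_right]
  | mul x y h1 h2 =>
    rw [map_mul, map_mul, map_mul, Units.val_mul, Units.val_mul, mul_assoc, h2, ← mul_assoc, h1,
      mul_assoc]

theorem Tk (g : FreeGroup (Fin m)) : st D.T * D.κ g = D.γ (D.h g) * st D.T := by
  simpa [st_mul, st_unit] using congrArg st (D.kT g⁻¹)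

theorem rc {g : FreeGroup (Fin m)} (hg : D.h g = 1) : D.κ g = 1 := by
  have := congrArg (· * st D.T) (D.kT g)
  simpa [hg, mul_assoc, TT] using this

theorem kT_pow (i : ℕ) (g : FreeGroup (Fin m)) : ∃ g', D.κ g * D.T ^ i = D.T ^ i * D.κ g' := by
  induction i with
  | zero => exact ⟨g, by simp⟩
  | succ i ih =>
    obtain ⟨g', h⟩ := ih
    exact ⟨D.lam (D.h g'), by rw [pow_succ, ← mul_assoc, h, mul_assoc, kT, mul_assoc]; rfl⟩

theorem nf (s : SInv D.W) : ∃ (E : SInv D.W) (i j : ℕ) (g : FreeGroup (Fin m)),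
    IsIdempotentElem E ∧ s = E * (D.T ^ i * D.κ g * st D.T ^ j) := by
  obtain ⟨w, rfl⟩ := el_surj s
  induction w with
  | nil => exact ⟨1, 0, 0, 1, .one, by simp [el_nil]⟩
  | cons l w ih =>
    obtain ⟨E, i, j, g, hE, h⟩ := ih
    have hE' := conj_idem (el D.W [l]) hE
    rw [el_cons, h, ← mul_assoc, ← conj_mul _ hE, mul_assoc]
    generalize el D.W [l] * E * st (el D.W [l]) = E' at *
    obtain ⟨y, b⟩ := l
    induction y using Fin.cases with
    | zero =>
      cases b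
      · change ∃ _ _ _ _, _ ∧ E' * (st D.T * _) = _
        cases i with
        | zero =>
          refine ⟨E', 0, j + 1, D.lam (D.h g), hE', ?_⟩
          simp only [pow_zero, one_mul, ← mul_assoc (st D.T), Tk, pow_succ', mul_assoc]; rfl
        | succ i =>
          exact ⟨_, i, j, g, hE'.mul_of_commute (icomm hE' (idem_r D.T)) (idem_r D.T), by
            simp only [pow_succ', mul_assoc]⟩
      · exact ⟨E', i + 1, j, g, hE', by simp only [pow_succ', mul_assoc]; rfl⟩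
    | succ x =>
      obtain ⟨g', h'⟩ := D.kT_pow i (mk [(x, b)])
      refine ⟨E', i, j, g' * g, hE', ?_⟩
      rw [show el D.W [(x.succ, b)] = _ from D.el_up [(x, b)]]
      simp only [← mul_assoc (D.κ (mk [(x, b)]) : SInv D.W), h', map_mul, Units.val_mul, mul_assoc]

/-- a model of the ascending HNN extension -/
structure Mod where
  make ::
  Γ : Type
  [grp : Group Γ]
  ι : FreeGroup J × FreeGroup J →* Γ
  τ : Γ
  cj : ∀ q, ι q * τ = τ * ι (D.ψ q)
  br : ∀ (i j : ℕ) q, τ ^ i * ι q = τ ^ j → i = j ∧ q = 1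

attribute [instance] Mod.grp

theorem exists_mod : Nonempty D.Mod := by
  obtain ⟨G, _, ι, T, hι, -, r, -, hr⟩ := H30.NB.hnn_step D.ψ (MonoidHom.id _)
    (D.inj.prodMap D.inj) Function.injective_id ⊤ (by simp)
  refine ⟨⟨G × Multiplicative ℤ, (MonoidHom.inl _ _).comp ι, (r, .ofAdd 1), fun q => ?_,
    fun i j q h => ?_⟩⟩
  · have := hr q
    simp only [MonoidHom.id_apply, mul_inv_eq_iff_eq_mul] at this
    simp [this]
  · have h1 : i = j := by simpa [← ofAdd_nsmul] using congrArg Prod.snd h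
    subst h1
    exact ⟨rfl, hι (by simpa using congrArg Prod.fst h)⟩

namespace Mod

variable {D} (M : D.Mod)

def ρ : FreeGroup (Fin (m + 1)) →* M.Γ := lift (Fin.cons M.τ fun x => M.ι (D.h (of x)))

theorem ρ_up (L : List (Fin m × Bool)) : M.ρ (mk (up L)) = M.ι (D.h (mk L)) := by
  have : M.ρ.comp (FreeGroup.map Fin.succ) = M.ι.comp D.h := by ext x; simp [ρ]
  exact DFunLike.congr_fun this (mk L)

theorem ρ_wd (g : FreeGroup (Fin m)) : M.ρ (mk (wd g)) = M.ι (D.h g) := by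
  rw [wd, ρ_up, FreeGroup.mk_toWord]

theorem ρ_t : M.ρ (mk [(0, true)]) = M.τ := by simp [ρ]
theorem ρ_t' : M.ρ (mk [(0, false)]) = M.τ⁻¹ := by simp [ρ]

theorem rel : ∀ w ∈ D.W, M.ρ (mk w) = 1 := by
  rintro _ (((⟨l, rfl⟩ | rfl) | ⟨x, rfl⟩) | ⟨p, rfl⟩)
  · rw [ρ_up, show mk [l, (l.1, !l.2)] = mk [l] * (mk [l])⁻¹ from rfl, mul_inv_cancel, map_one,
      map_one]
  · rw [show mk [((0 : Fin (m + 1)), true), (0, false)] = mk [(0, true)] * mk [(0, false)] from rfl,
      map_mul, ρ_t, ρ_t', mul_inv_cancel]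
  · simp only [← mul_mk, map_mul, ρ_up, ρ_wd, ρ_t, ρ_t', map_inv, h_lam]
    rw [M.cj, show mk [(x, true)] = of x from rfl]; simp
  · rw [ρ_wd, map_commutatorElement, D.ha, D.hb, commutatorElement_eq_one_iff_commute.2
      (by simp [Commute, SemiconjBy]), map_one]

def π : SInv D.W →* M.Γ := toGrp M.ρ M.rel

theorem π_T : M.π D.T = M.τ := M.ρ_t

theorem π_k (g : FreeGroup (Fin m)) : M.π (D.κ g) = M.ι (D.h g) := by
  rw [← el_wd]; exact M.ρ_wd g

theorem key (s : SInv D.W) (hs : M.π s = 1) : IsIdempotentElem s := by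
  obtain ⟨E, i, j, g, hE, rfl⟩ := D.nf s
  simp only [map_mul, map_pow, pi_idem M.π hE, pi_st, π_T, π_k, one_mul, inv_pow,
    mul_inv_eq_one] at hs
  obtain ⟨rfl, h⟩ := M.br _ _ _ hs
  simpa [D.rc h, TT_pow] using hE

include M in
theorem rev : PrefRev (SInv D.W) := by
  intro a b _ _
  obtain ⟨E, i, j, g, hE, rfl⟩ := D.nf a
  obtain ⟨E', i', j', g', hE', rfl⟩ := D.nf b
  have ru : ∀ (j k : ℕ) (u : (SInv D.W)ˣ), RU (D.T ^ j * u * D.T ^ k) := fun j k u =>
    ⟨st D.T ^ k * ↑u⁻¹ * st D.T ^ j, by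
      simp only [mul_assoc]
      rw [← mul_assoc (D.T ^ k), TT_pow, one_mul, Units.mul_inv_cancel_left, TT_pow]⟩
  refine ⟨_, _, ru j i' (D.κ g⁻¹), ru j' i (D.κ g'⁻¹), (sig_iff M.π M.key _ _).2 ?_⟩
  simp only [map_mul, map_pow, pi_idem M.π hE, pi_idem M.π hE', pi_st, π_T, π_k]
  simp only [map_inv]
  group

def P : Set M.Γ := {p | ∃ (i : ℕ) (g : FreeGroup (Fin m)), p = M.τ ^ i * M.ι (D.h g)}

theorem ok_up (L : List (Fin m × Bool)) : ∀ p ∈ M.P, Ok M.ρ M.P (up L) p := by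
  induction L with
  | nil => exact fun p hp => hp
  | cons l L ih =>
    rintro _ ⟨i, g, rfl⟩
    exact ⟨⟨i, g, rfl⟩, ih _ ⟨i, g * mk [l], by
      rw [map_mul, map_mul, ← mul_assoc, ← M.ρ_up [l]]; rfl⟩⟩

theorem ok_t : ∀ p ∈ M.P, Ok M.ρ M.P [(0, true)] p := by
  rintro _ ⟨i, g, rfl⟩
  exact ⟨⟨i, g, rfl⟩, i + 1, D.lam (D.h g), by rw [ρ_t, mul_assoc, M.cj, h_lam, pow_succ, mul_assoc]⟩

theorem ok_end {u : List (Fin (m + 1) × Bool)} {l : Fin (m + 1) × Bool} {p : M.Γ} (hp : p ∈ M.P)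
    (h : M.ρ (mk (u ++ [l])) = 1) (hu : Ok M.ρ M.P u p) : Ok M.ρ M.P (u ++ [l]) p :=
  (ok_append _ _ _).2 ⟨hu, hu.inv.start, by
    rw [mul_assoc, ← map_mul, mul_mk, h, mul_one]; exact hp⟩

theorem ok_rel : ∀ w ∈ D.W, ∀ p ∈ M.P, Ok M.ρ M.P w p := by
  intro w hw p hp
  have h := M.rel w hw
  obtain (((⟨l, rfl⟩ | rfl) | ⟨x, rfl⟩) | ⟨q, rfl⟩) := hw
  · exact M.ok_up _ p hp
  · exact M.ok_end (u := [(0, true)]) hp h (M.ok_t p hp)
  · have h1 := (ok_append _ _ _).2 ⟨M.ok_up [(x, true)] p hp,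
      M.ok_t _ (M.ok_up [(x, true)] p hp).inv.start⟩
    exact M.ok_end hp h ((ok_append _ _ _).2 ⟨h1, M.ok_up _ _ h1.inv.start⟩)
  · exact M.ok_up _ p hp

include M in
theorem unit_iff (z : List (Fin (m + 1) × Bool)) (u : FreeGroup J)
    (hz : el D.W z = D.κ (D.b u)) :
    el D.W (((0, true) :: z ++ [(0, false)]) ++ invRev ((0, true) :: z ++ [(0, false)])) = el D.W [] ↔
      (1, u) ∈ D.h.range := by
  have e : el D.W ((0, true) :: z ++ [(0, false)]) = D.T * D.γ (1, u) * st D.T := by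
    rw [el_append, el_cons, hz]; simp [γ, lam]; rfl
  refine ⟨fun h => ?_, fun ⟨g, hg⟩ => ?_⟩
  · have := (ok_eq M.rel M.ok_rel (el_eq.1 h) 1).2 ⟨0, 1, by simp⟩
    obtain ⟨i, g, hg⟩ := ((ok_append _ _ _).1 this).2.start
    rw [one_mul, ← toGrp_el M.ρ M.rel, e] at hg
    change M.π (D.T * D.κ (D.lam (1, u)) * st D.T) = _ at hg
    rw [map_mul, map_mul, pi_st, π_T, π_k, h_lam, ← M.cj, mul_inv_cancel_right] at hg
    obtain ⟨-, h2⟩ := M.br i 0 (D.h g * (1, u)⁻¹) (by
      rw [map_mul, ← mul_assoc, ← hg, map_inv, mul_inv_cancel, pow_zero])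
    exact ⟨g, mul_inv_eq_one.1 h2⟩
  · rw [el_append, ← st_el, e, ← hg, ← kT, mul_assoc (D.κ g : SInv D.W), TT, mul_one, st_unit,
      Units.mul_inv, el_nil]

end Mod
end Dat
end Pool.Agent.H73.InvM
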