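import Pool.Agent.H73.InvM2
import Pool.Agent.H30.NBb
import Pool.Agent.H37.CI

set_option autoImplicit false

namespace Pool.Agent.H73.InvM

open FreeGroup (mk invRev mul_mk inv_mk one_eq_mk invRev_cons lift of)
open Pool.Agent.H37

theorem mk_flat {A B : Type} (f : FreeGroup A →* FreeGroup B) (c : A × Bool → List (B × Bool))
    (hc : ∀ l, mk (c l) = f (mk [l])) (L : List (A × Bool)) : mk (L.flatMap c) = f (mk L) := by
  induction L with
  | nil => simp [← one_eq_mk]
  | cons l L ih =>
    rw [List.flatMap_cons, ← mul_mk, ih, hc, ← map_mul]; rfl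

def red {J : Type} [DecidableEq J] (L : List (J × Bool)) : List (J × Bool) :=
  L.foldr (fun l acc => if acc.head? = some (l.1, !l.2) then acc.tail else l :: acc) []

theorem red_eq {J : Type} [DecidableEq J] (L : List (J × Bool)) : red L = FreeGroup.reduce L := by
  induction L with
  | nil => rfl
  | cons l L ih =>
    rw [FreeGroup.reduce.cons, ← ih]
    have e : red (l :: L) = if (red L).head? = some (l.1, !l.2) then (red L).tail
      else l :: red L := rfl
    rw [e]
    generalize red L = z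
    cases z with
    | nil => simp
    | cons x t =>
      obtain ⟨a, b⟩ := l
      obtain ⟨c, d⟩ := x
      cases b <;> cases d <;> simp [eq_comm]

theorem red_nil {J : Type} [DecidableEq J] (L : List (J × Bool)) : red L = [] ↔ mk L = 1 := by
  rw [red_eq, ← FreeGroup.toWord_mk, FreeGroup.toWord_eq_nil_iff]

theorem ci_inv {α Y : Type} [Primcodable α] [Primcodable Y] {f : α → List (Y × Bool)}
    (hf : CI ∅ f) : CI ∅ fun a => invRev (f a) := by
  unfold invRev; fun_prop

namespace Dat.Mod

variable {J : Type} {m : ℕ} {D : Dat J m} (M : D.Mod)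

theorem cj_pow (n : ℕ) (q : FreeGroup J × FreeGroup J) :
    M.τ⁻¹ ^ n * M.ι q = M.ι (D.θ^[n] q.1, D.θ^[n] q.2) * M.τ⁻¹ ^ n := by
  induction n with
  | zero => simp
  | succ n ih =>
    rw [pow_succ', mul_assoc, ih, ← mul_assoc, ← mul_assoc, Function.iterate_succ_apply',
      Function.iterate_succ_apply', inv_mul_eq_iff_eq_mul.2 (eq_mul_inv_of_mul_eq (M.cj _) |>.trans
        (mul_assoc _ _ _))]
    rfl

theorem letter (l : Fin (m + 1) × Bool) : ∃ (c : List (J × Bool) × List (J × Bool)) (u d : ℕ),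
    d ≤ 1 ∧ M.ρ (mk [l]) = M.ι (mk c.1, mk c.2) * (M.τ ^ d * M.τ⁻¹ ^ u) := by
  classical
  obtain ⟨y, b⟩ := l
  induction y using Fin.cases with
  | zero =>
    cases b
    · exact ⟨([], []), 1, 0, by simp, by simp [M.ρ_t', ← one_eq_mk, ← Prod.one_eq_mk]⟩
    · exact ⟨([], []), 0, 1, by simp, by simp [M.ρ_t, ← one_eq_mk, ← Prod.one_eq_mk]⟩
  | succ x =>
    exact ⟨((D.h (mk [(x, b)])).1.toWord, (D.h (mk [(x, b)])).2.toWord), 0, 0, by simp, by
      simpa [FreeGroup.mk_toWord, up] using M.ρ_up [(x, b)]⟩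

include M in
theorem sig_comp [Finite J] [Primcodable J] :
    ComputablePred fun p : List (Fin (m + 1) × Bool) × List (Fin (m + 1) × Bool) =>
      Sig (el D.W p.1) (el D.W p.2) := by
  classical
  choose c u d hd h using M.letter
  let th : J × Bool → List (J × Bool) := fun l => (D.θ (mk [l])).toWord
  have hth : ∀ n L, mk ((fun L => List.flatMap th L)^[n] L) = D.θ^[n] (mk L) := by
    intro n L
    induction n with
    | zero => rfl
    | succ n ih =>
      rw [Function.iterate_succ_apply', Function.iterate_succ_apply', ← ih]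
      exact mk_flat _ _ (fun l => FreeGroup.mk_toWord) _
  let step : ℕ × List (J × Bool) × List (J × Bool) → Fin (m + 1) × Bool →
      ℕ × List (J × Bool) × List (J × Bool) := fun s l =>
    (s.1 - d l + u l, s.2.1 ++ (fun L => List.flatMap th L)^[s.1] (c l).1,
      s.2.2 ++ (fun L => List.flatMap th L)^[s.1] (c l).2)
  have inv : ∀ (w : List (Fin (m + 1) × Bool)) s, w.length ≤ s.1 →
      M.ι (mk s.2.1, mk s.2.2) * M.τ⁻¹ ^ s.1 * M.ρ (mk w) =
        M.ι (mk (w.foldl step s).2.1, mk (w.foldl step s).2.2) * M.τ⁻¹ ^ (w.foldl step s).1 := by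
    intro w
    induction w with
    | nil => simp [← one_eq_mk]
    | cons l w ih =>
      intro s hs
      have := hd l
      rw [List.length_cons] at hs
      rw [List.foldl_cons, ← ih _ (by simp only [step]; omega),
        show mk (l :: w) = mk [l] * mk w from rfl, map_mul, ← mul_assoc, h]
      congr 1
      obtain ⟨k, hk⟩ : ∃ k, s.1 = k + d l := ⟨s.1 - d l, by omega⟩
      rw [mul_assoc, ← mul_assoc (M.τ⁻¹ ^ s.1), cj_pow, ← mul_assoc, ← mul_assoc (M.ι _),
        ← map_mul]
      simp only [step, ← mul_mk, hth, Prod.mk_mul_mk, mul_assoc]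
      congr 1
      rw [hk]; simp [pow_add, mul_assoc]
  let F : List (Fin (m + 1) × Bool) → Bool := fun w =>
    decide ((w.foldl step (w.length, [], [])).1 = w.length) &&
      ((red (w.foldl step (w.length, [], [])).2.1).isEmpty &&
        (red (w.foldl step (w.length, [], [])).2.2).isEmpty)
  have hF : ∀ w, F w = true ↔ M.ρ (mk w) = 1 := fun w => by
    have := inv w (w.length, [], []) le_rfl
    simp only [F, Bool.and_eq_true, decide_eq_true_eq, List.isEmpty_iff, red_nil]
    generalize w.foldl step (w.length, [], []) = s at *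
    simp only [← one_eq_mk, ← Prod.one_eq_mk, map_one, one_mul] at this
    constructor
    · rintro ⟨h1, h2, h3⟩
      simpa [h1, h2, h3, ← Prod.one_eq_mk] using this
    · intro h1
      rw [h1, mul_one, inv_pow, inv_pow, eq_mul_inv_iff_mul_eq, inv_mul_eq_iff_eq_mul] at this
      obtain ⟨h2, h3⟩ := M.br _ _ _ this.symm
      exact ⟨h2.symm, congrArg Prod.fst h3, congrArg Prod.snd h3⟩
  have c1 : CI ∅ th := CI.dom_finite th CI.id'
  have c2 : CI ∅ c := CI.dom_finite c CI.id'
  have c3 : CI ∅ u := CI.dom_finite u CI.id'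
  have c4 : CI ∅ d := CI.dom_finite d CI.id'
  have c5 : CI ∅ (red : List (J × Bool) → _) := by unfold red; fun_prop
  have c6 : CI ∅ fun p : (ℕ × List (J × Bool) × List (J × Bool)) × (Fin (m + 1) × Bool) =>
      step p.1 p.2 := by simp only [step]; fun_prop
  have c7 : CI ∅ fun w : List (Fin (m + 1) × Bool) => w.foldl step (w.length, [], []) :=
    CI.foldl (f := fun _ => step) (c6.comp (g := fun p : _ × _ × _ => p.2) (by fun_prop))
      (by fun_prop) CI.id'
  have c8 : CI ∅ F := by simp only [F]; fun_prop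
  refine ComputablePred.computable_iff.2 ⟨fun p => F (p.1 ++ invRev p.2),
    (c8.comp (CI.append (by fun_prop) (ci_inv (by fun_prop)))).computable, funext fun p => ?_⟩
  rw [hF, sig_iff M.π M.key, ← mul_mk, ← inv_mk, map_mul, map_inv, mul_inv_eq_one]
  rfl

end Dat.Mod

theorem exists_dat : ∃ (J : Type) (_ : Finite J) (m : ℕ) (D : Dat J m) (k x t : J) (K : ℕ → Prop),
    ¬ ComputablePred K ∧
      ∀ n, K n ↔ (1, H30.NB.tw (of k) (of x) (of t) (2 ^ n)) ∈ D.h.range := by
  obtain ⟨I, _, R, k, x, t, K, hR, hK, h1, Γ, _, γ, h2, h3⟩ := H30.NB.novikov_boone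
  have := hR.to_subtype
  obtain ⟨m, ⟨e⟩⟩ := Finite.exists_equiv_fin ((I ⊕ I) ⊕ R ⊕ I)
  let j : FreeGroup I →* FreeGroup (I ⊕ I) := FreeGroup.map Sum.inl
  let gen : (I ⊕ I) ⊕ R ⊕ I → FreeGroup (I ⊕ I) × FreeGroup (I ⊕ I) :=
    Sum.elim (fun i => (of i, of i)) (Sum.elim (fun r => (1, j r)) fun i => (1, of (.inr i)))
  let h : FreeGroup (Fin m) →* _ := lift (gen ∘ e.symm)
  have hg : ∀ y, gen y ∈ h.range := fun y => ⟨of (e y), by simp [h]⟩
  have hd : ∀ g, (g, g) ∈ h.range := fun g => by
    induction g using FreeGroup.induction_on with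
    | C1 => exact one_mem _
    | of i => exact hg (.inl i)
    | inv_of i ih => exact inv_mem ih
    | mul a b h1 h2 => exact mul_mem h1 h2
  let N := h.range.comap (MonoidHom.inr _ _)
  have : N.Normal := ⟨fun n hn g => by
    have := mul_mem (mul_mem (hd g) hn) (inv_mem (hd g))
    simpa [N] using this⟩
  let θ : FreeGroup (I ⊕ I) →* FreeGroup (I ⊕ I) := lift (Sum.elim (fun i => of (.inr i))
    fun i => of (.inl i) * of (.inr i) * (of (.inl i))⁻¹)
  have hθ : ∀ i, θ (of i) ∈ N := by
    rintro (i | i)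
    · simpa [θ] using (show of (.inr i) ∈ N from hg (.inr (.inr i)))
    · simpa [θ] using this.conj_mem (of (.inr i)) (hg (.inr (.inr i))) (of (.inl i))
  have inj : Function.Injective θ := by
    let σ := FreeGroup.freeGroupCongr (Equiv.sumComm I I)
    let L := MulAction.toPermHom (FreeGroup (I ⊕ I)) (FreeGroup (I ⊕ I))
    let ρ : FreeGroup (I ⊕ I) →* Equiv.Perm (FreeGroup (I ⊕ I)) :=
      lift (Sum.elim (fun _ => σ.toEquiv) fun i => L (of (.inl i)))
    have : ρ.comp θ = L := by
      ext (i | i) : 1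
      · simp [ρ, θ]
      · ext z
        simp [ρ, θ, L, Equiv.Perm.inv_def, σ, FreeGroup.map.comp]
    have h4 : Function.Injective (ρ.comp θ) := this ▸ MulAction.toPerm_injective
    exact Function.Injective.of_comp (f := ρ) h4
  choose b hb using hθ
  choose a ha using fun i => mul_mem (hd (θ (of i))) (inv_mem ⟨b i, hb i⟩)
  refine ⟨I ⊕ I, inferInstance, m, ⟨θ, inj, h, lift a, lift b, fun g => ?_, fun g => ?_⟩,
    .inl k, .inl x, .inl t, K, hK, fun n => ?_⟩
  · exact DFunLike.congr_fun (show h.comp (lift a) = (MonoidHom.inl _ _).comp θ from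
      FreeGroup.ext_hom _ _ fun i => by simp [ha]) g
  · exact DFunLike.congr_fun (show h.comp (lift b) = (MonoidHom.inr _ _).comp θ from
      FreeGroup.ext_hom _ _ fun i => by simp [hb]) g
  have e1 : H30.NB.tw (of (.inl k)) (of (.inl x)) (of (.inl t)) (2 ^ n) =
      j (H30.NB.tw (of k) (of x) (of t) (2 ^ n)) := by simp [H30.NB.tw, H30.NB.cm, j]
  rw [e1]
  refine ⟨fun hn => Subgroup.normalClosure_le_normal (N := N.comap j)
    (fun r hr => hg (.inr (.inl ⟨r, hr⟩))) (h1 n hn), fun ⟨g, hg'⟩ => h3 n ?_⟩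
  let δ : FreeGroup (I ⊕ I) →* Γ := lift (Sum.elim (fun i => γ (of i)) fun _ => 1)
  have hδ : ∀ g, δ (j g) = γ g := fun g =>
    DFunLike.congr_fun (show δ.comp j = γ from FreeGroup.ext_hom _ _ fun i => by simp [δ, j]) g
  have : (δ.comp (MonoidHom.fst _ _)).comp h = (δ.comp (MonoidHom.snd _ _)).comp h :=
    FreeGroup.ext_hom _ _ fun y => by
      obtain ⟨y, rfl⟩ := e.surjective y
      rcases y with i | r | i
      · simp [h, gen]
      · simp [h, gen, hδ, h2 r r.2]
      · simp [h, gen, δ]
  have := DFunLike.congr_fun this g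
  simp only [MonoidHom.comp_apply] at this
  change h g = _ at hg'
  simpa [hg', hδ] using this.symm

theorem main : ∃ (n : ℕ) (W : Set (List (Fin n × Bool))), W.Finite ∧ IsInverse (SInv W) ∧
    EUnitary (SInv W) ∧ PrefRev (SInv W) ∧
    ComputablePred (fun p : List (Fin n × Bool) × List (Fin n × Bool) =>
      Sig (el W p.1) (el W p.2)) ∧
    ¬ ComputablePred (fun p : List (Fin n × Bool) × List (Fin n × Bool) =>
      el W p.1 = el W p.2) := by
  classical
  obtain ⟨J, _, m, D, k, x, t, K, hK, h⟩ := exists_dat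
  obtain ⟨M⟩ := D.exists_mod
  obtain ⟨r, ⟨e⟩⟩ := Finite.exists_equiv_fin J
  let _ : Primcodable J := .ofEquiv _ e
  refine ⟨m + 1, D.W, D.W_fin, isInverse, eunit M.π M.key, M.rev, M.sig_comp, fun hc => hK ?_⟩
  obtain ⟨f, hf, hf'⟩ := ComputablePred.computable_iff.1 hc
  let c : J × Bool → List (Fin m × Bool) := fun l => (D.b (mk [l])).toWord
  let V : ℕ → List (J × Bool) := fun n =>
    List.replicate (2 ^ n) (x, true) ++ [(t, true)] ++ invRev (List.replicate (2 ^ n) (x, true))
  let U : ℕ → List (J × Bool) := fun n => [(k, true)] ++ V n ++ invRev [(k, true)] ++ invRev (V n)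
  have hU : ∀ n, mk (U n) = H30.NB.tw (of k) (of x) (of t) (2 ^ n) := fun n => by
    have : ∀ N, mk (List.replicate N (x, true)) = of x ^ N := fun N => by
      induction N with
      | zero => rfl
      | succ N ih => rw [pow_succ', ← ih]; rfl
    simp only [U, V, ← mul_mk, ← inv_mk, this]; rfl
  let Z : ℕ → List (Fin (m + 1) × Bool) := fun n => (0, true) :: up ((U n).flatMap c) ++ [(0, false)]
  have c1 : CI ∅ c := CI.dom_finite c CI.id'
  have c2 : CI ∅ V := CI.append (by fun_prop) (ci_inv (by fun_prop))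
  have c3 : CI ∅ U := CI.append (by fun_prop) (ci_inv c2)
  have c4 : CI ∅ fun l : Fin m × Bool => (l.1.succ, l.2) := CI.dom_finite _ CI.id'
  have c5 : CI ∅ Z := by
    have c6 : CI ∅ fun n => (U n).flatMap c := by fun_prop
    exact CI.append (CI.cons (CI.const _) (CI.map (f := fun _ (l : Fin m × Bool) => (l.1.succ, l.2))
      (c4.comp (CI.snd CI.id')) c6)) (CI.const _)
  refine ComputablePred.computable_iff.2 ⟨fun n => f (Z n ++ invRev (Z n), []),
    ((CI.of_comp hf).comp (CI.mk (c5.append (ci_inv c5)) (CI.const _))).computable,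
    funext fun n => ?_⟩
  rw [← congrFun hf' _, h, ← hU]
  refine propext (M.unit_iff _ _ ?_).symm
  rw [D.el_up, mk_flat D.b c fun l => FreeGroup.mk_toWord]

end Pool.Agent.H73.InvM
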