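import Mathlib

/-!
Definitions for dot-bracket superalgebras, Kantor doubles and Jordan supermodules.
Parities are elements of `ZMod 2`.
-/

namespace Pool.Agent.H73.KanDefs

universe u v w t

/-- A `ℤ/2`-grading of the vector space `X`: `X = part 0 ⊕ part 1`. -/
structure Grading (F : Type u) (X : Type v) [Field F] [AddCommGroup X] [Module F X] where
  part : ZMod 2 → Submodule F X
  compl : IsCompl (part 0) (part 1)

variable {F : Type u} [Field F]

/-- The sign `(-1)^n` of a parity `n`. -/
def eps (F : Type u) [Field F] (n : ZMod 2) : F := (-1) ^ n.val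

section
variable {X : Type v} [AddCommGroup X] [Module F X]
  {Y : Type w} [AddCommGroup Y] [Module F Y] {Z : Type t} [AddCommGroup Z] [Module F Z]

/-- The linear map with `x ↦ (-1)^{|x|} x` on homogeneous `x`. -/
noncomputable def Grading.sign (g : Grading F X) : X →ₗ[F] X :=
  LinearMap.ofIsCompl g.compl (g.part 0).subtype (-(g.part 1).subtype)

/-- The grading of the direct sum `X ⊕ Y`. -/
def Grading.prod (g : Grading F X) (h : Grading F Y) : Grading F (X × Y) where
  part i := (g.part i).prod (h.part i)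
  compl := by
    constructor
    · rw [disjoint_iff, Submodule.prod_inf_prod, g.compl.inf_eq_bot, h.compl.inf_eq_bot,
        Submodule.prod_bot]
    · rw [codisjoint_iff, Submodule.prod_sup_prod, g.compl.sup_eq_top, h.compl.sup_eq_top,
        Submodule.prod_top]

/-- The same space with the parity shifted. -/
def Grading.shift (g : Grading F X) : Grading F X where
  part i := g.part (i + 1)
  compl := g.compl.symm

/-- A bilinear operation is even if it adds parities. -/
def IsEvenOp (gX : Grading F X) (gY : Grading F Y) (gZ : Grading F Z)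
    (f : X →ₗ[F] Y →ₗ[F] Z) : Prop :=
  ∀ (i j : ZMod 2), ∀ x ∈ gX.part i, ∀ y ∈ gY.part j, f x y ∈ gZ.part (i + j)

/-- Jordan superalgebra: even supercommutative product satisfying the linearised super Jordan
identity on homogeneous elements, and the Jordan identity `(x²y)x = x²(yx)` for even `x`. -/
structure IsJordanSuper (g : Grading F X) (m : X →ₗ[F] X →ₗ[F] X) : Prop where
  even : IsEvenOp g g g m
  comm : ∀ (i j : ZMod 2), ∀ a ∈ g.part i, ∀ b ∈ g.part j, m a b = eps F (i * j) • m b a
  lin : ∀ (i j k l : ZMod 2), ∀ a ∈ g.part i, ∀ b ∈ g.part j, ∀ c ∈ g.part k, ∀ d ∈ g.part l,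
    m (m (m a b) c) d + eps F (j * k + j * l + k * l) • m (m (m a d) c) b
        + eps F (i * j + i * k + i * l + k * l) • m (m (m b d) c) a
      = m (m a b) (m c d) + eps F (j * k) • m (m a c) (m b d)
        + eps F (l * (j + k)) • m (m a d) (m b c)
  cubic : ∀ x ∈ g.part 0, ∀ y, m (m (m x x) y) x = m (m x x) (m y x)

/-- Product of a split null extension `X ⊕ Y`, from the product `m` of `X` and the left and right
actions `l`, `r` of `X` on `Y`: `(a, v)(b, w) = (ab, a w + v b)`. -/
def nullExt (m : X →ₗ[F] X →ₗ[F] X) (l : X →ₗ[F] Y →ₗ[F] Y) (r : Y →ₗ[F] X →ₗ[F] Y) :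
    X × Y →ₗ[F] X × Y →ₗ[F] X × Y :=
  LinearMap.mk₂ F (fun p q => (m p.1 q.1, l p.1 q.2 + r p.2 q.1))
    (fun p p' q => by ext <;> simp; abel) (fun c p q => by ext <;> simp)
    (fun p q q' => by ext <;> simp; abel) (fun c p q => by ext <;> simp)

/-- The Kantor formulas `x * y = x · y`, `x * ȳ = (x · y)‾`, `x̄ * y = (-1)^{|y|} (x · y)‾`,
`x̄ * ȳ = (-1)^{|y|} {x, y}`; a pair `(x, x')` stands for `x + x̄'`. -/
noncomputable def kanOp (gY : Grading F Y) (dot br : X →ₗ[F] Y →ₗ[F] Z) :
    X × X →ₗ[F] Y × Y →ₗ[F] Z × Z :=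
  LinearMap.mk₂ F
    (fun p q => (dot p.1 q.1 + br p.2 (gY.sign q.2), dot p.1 q.2 + dot p.2 (gY.sign q.1)))
    (fun p p' q => by ext <;> simp <;> abel) (fun c p q => by ext <;> simp)
    (fun p q q' => by ext <;> simp <;> abel) (fun c p q => by ext <;> simp)

/-- The grading of `Kan X = X ⊕ X̄`. -/
def Grading.kan (g : Grading F X) : Grading F (X × X) := g.prod g.shift

end

/-- A superspace with two bilinear operations. -/
structure DB (F : Type u) (A : Type v) [Field F] [AddCommGroup A] [Module F A] where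
  g : Grading F A
  dot : A →ₗ[F] A →ₗ[F] A
  br : A →ₗ[F] A →ₗ[F] A

/-- A superspace `M` with bilinear left and right actions of `J`. -/
structure Bimod (F : Type u) (J : Type v) (M : Type w) [Field F] [AddCommGroup J] [Module F J]
    [AddCommGroup M] [Module F M] where
  g : Grading F M
  l : J →ₗ[F] M →ₗ[F] M
  r : M →ₗ[F] J →ₗ[F] M

/-- A superspace `V` with the actions `a · v`, `v · a`, `{a, v}`, `{v, a}` of `A`. -/
structure DBMod (F : Type u) (A : Type v) (V : Type w) [Field F] [AddCommGroup A] [Module F A]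
    [AddCommGroup V] [Module F V] where
  g : Grading F V
  dotL : A →ₗ[F] V →ₗ[F] V
  dotR : V →ₗ[F] A →ₗ[F] V
  brL : A →ₗ[F] V →ₗ[F] V
  brR : V →ₗ[F] A →ₗ[F] V

section
variable {A : Type v} [AddCommGroup A] [Module F A]

/-- Dot-bracket superalgebra. -/
structure DB.IsDotBracket (D : DB F A) : Prop where
  dot_even : IsEvenOp D.g D.g D.g D.dot
  br_even : IsEvenOp D.g D.g D.g D.br
  assoc : ∀ a b c, D.dot (D.dot a b) c = D.dot a (D.dot b c)
  comm : ∀ (i j : ZMod 2), ∀ a ∈ D.g.part i, ∀ b ∈ D.g.part j,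
    D.dot a b = eps F (i * j) • D.dot b a
  anti : ∀ (i j : ZMod 2), ∀ a ∈ D.g.part i, ∀ b ∈ D.g.part j,
    D.br a b = -(eps F (i * j) • D.br b a)

/-- The product of the Kantor double `Kan A`. -/
noncomputable def DB.kanMul (D : DB F A) : A × A →ₗ[F] A × A →ₗ[F] A × A :=
  kanOp D.g D.dot D.br

/-- The bracket is Jordan: `Kan A` is a Jordan superalgebra. -/
def DB.IsJordanBracket (D : DB F A) : Prop := IsJordanSuper D.g.kan D.kanMul

/-- `e` is an (even) identity for the dot product. -/
def DB.IsOne (D : DB F A) (e : A) : Prop :=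
  e ∈ D.g.part 0 ∧ ∀ a, D.dot e a = a ∧ D.dot a e = a

/-- `A ≠ 0` and the only ideals of `(A, ·)` closed under bracketing with `A` are `0` and `A`. -/
def DB.IsSimple (D : DB F A) : Prop :=
  Nontrivial A ∧ ∀ I : Submodule F A,
    (∀ x ∈ I, ∀ a, D.dot a x ∈ I ∧ D.dot x a ∈ I ∧ D.br a x ∈ I ∧ D.br x a ∈ I) → I = ⊥ ∨ I = ⊤

variable {V : Type w} [AddCommGroup V] [Module F V]

/-- The split null extension `A ⊕ V` with both operations. -/
def DBMod.ext (W : DBMod F A V) (D : DB F A) : DB F (A × V) where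
  g := D.g.prod W.g
  dot := nullExt D.dot W.dotL W.dotR
  br := nullExt D.br W.brL W.brR

/-- Dot-bracket supermodule: the split null extension is a dot-bracket superalgebra. -/
def DBMod.IsModule (W : DBMod F A V) (D : DB F A) : Prop := (W.ext D).IsDotBracket

/-- `Kan V = V ⊕ V̄` with the actions of `Kan A` given by the Kantor formulas. -/
noncomputable def DBMod.kan (W : DBMod F A V) (D : DB F A) : Bimod F (A × A) (V × V) where
  g := W.g.kan
  l := kanOp W.g W.dotL W.brL
  r := kanOp D.g W.dotR W.brR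

end

section
variable {J : Type v} [AddCommGroup J] [Module F J] {M : Type w} [AddCommGroup M] [Module F M]
  {N : Type t} [AddCommGroup N] [Module F N]

/-- Jordan supermodule: the split null extension `J ⊕ M` is a Jordan superalgebra. -/
def Bimod.IsJordan (B : Bimod F J M) (g : Grading F J) (m : J →ₗ[F] J →ₗ[F] J) : Prop :=
  IsJordanSuper (g.prod B.g) (nullExt m B.l B.r)

/-- `e` acts as the identity map. -/
def Bimod.IsUnital (B : Bimod F J M) (e : J) : Prop := ∀ x, B.l e x = x ∧ B.r x e = x

/-- `M ≠ 0` and the only graded submodules are `0` and `M`. -/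
def Bimod.IsIrreducible (B : Bimod F J M) : Prop :=
  Nontrivial M ∧ ∀ S : Submodule F M, S = (S ⊓ B.g.part 0) ⊔ (S ⊓ B.g.part 1) →
    (∀ x ∈ S, ∀ a, B.l a x ∈ S ∧ B.r x a ∈ S) → S = ⊥ ∨ S = ⊤

/-- There is a linear bijection `N → M` that commutes with the right actions. Every isomorphism
of supermodules onto `M`, or onto its opposite, gives one. -/
def Bimod.RightEquiv (C : Bimod F J N) (B : Bimod F J M) : Prop :=
  ∃ φ : N ≃ₗ[F] M, ∀ x a, φ (C.r x a) = B.r (φ x) a

end

end Pool.Agent.H73.KanDefs
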