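import Mathlib

namespace Pool.Agent.H73.LGrp

universe u

section General

variable {D : Type u} [AddGroup D] [Lattice D] [AddLeftMono D] [AddRightMono D]

theorem inf_add_le {u1 u2 v : D} (h1 : 0 ≤ u1) (h2 : 0 ≤ u2) (hv : 0 ≤ v) :
    (u1 + u2) ⊓ v ≤ (u1 ⊓ v) + (u2 ⊓ v) := by
  rw [add_inf, inf_add, inf_add]
  refine le_inf (le_inf inf_le_left ?_) (le_inf ?_ ?_)
  · exact le_trans inf_le_right (le_add_of_nonneg_right h2)
  · exact le_trans inf_le_right (le_add_of_nonneg_left h1)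
  · exact le_trans inf_le_right (le_add_of_nonneg_left hv)

/-- the conditions on a cone -/
def Cone (e : D) (P : Set D) : Prop :=
  0 ∈ P ∧ (∀ x ∈ P, ∀ y ∈ P, x + y ∈ P) ∧ (∀ x ∈ P, ∀ y, y ≤ x → y ∈ P) ∧
    (∀ x ∈ P, x ⊔ 0 ∈ P) ∧ e ∉ P

theorem exists_prime (e : D) (he : ¬ e ≤ 0) :
    ∃ P : Set D, Cone e P ∧ ∀ f g : D, f ⊓ g = 0 → f ∈ P ∨ g ∈ P := by
  have h0 : Cone e (Set.Iic (0 : D)) :=
    ⟨le_refl (0 : D), fun x hx y hy => add_nonpos hx hy, fun x hx y hy => le_trans hy hx,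
      fun x hx => sup_le hx le_rfl, he⟩
  obtain ⟨P, -, hP⟩ := zorn_subset_nonempty {P | Cone e P} (fun c hc hch hne => by
    refine ⟨⋃₀ c, ⟨?_, ?_, ?_, ?_, ?_⟩, fun s hs => Set.subset_sUnion_of_mem hs⟩
    · obtain ⟨s, hs⟩ := hne
      exact ⟨s, hs, (hc hs).1⟩
    · rintro x ⟨s, hs, hx⟩ y ⟨t, ht, hy⟩
      rcases hch.total hs ht with h | h
      · exact ⟨t, ht, (hc ht).2.1 x (h hx) y hy⟩
      · exact ⟨s, hs, (hc hs).2.1 x hx y (h hy)⟩
    · rintro x ⟨s, hs, hx⟩ y hy
      exact ⟨s, hs, (hc hs).2.2.1 x hx y hy⟩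
    · rintro x ⟨s, hs, hx⟩
      exact ⟨s, hs, (hc hs).2.2.2.1 x hx⟩
    · rintro ⟨s, hs, hx⟩
      exact (hc hs).2.2.2.2 hx) _ h0
  have hC : Cone e P := hP.prop
  refine ⟨P, hC, fun f g hfg => ?_⟩
  have hpos : ∀ f : D, 0 ≤ f → ∀ w ∈ AddSubmonoid.closure ({x | x ∈ P ∧ 0 ≤ x} ∪ {f}), 0 ≤ w := by
    intro f hf w hw
    induction hw using AddSubmonoid.closure_induction with
    | mem x hx =>
      rcases hx with hx | hx
      · exact hx.2
      · rw [Set.mem_singleton_iff.mp hx]; exact hf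
    | zero => exact le_rfl
    | add x y _ _ hx hy => exact add_nonneg hx hy
  have key : ∀ f : D, 0 ≤ f → f ∉ P →
      ∃ w ∈ AddSubmonoid.closure ({x | x ∈ P ∧ 0 ≤ x} ∪ {f}), e ≤ w := by
    intro f hf hfP
    by_contra hne
    have hQ : Cone e {h | ∃ w ∈ AddSubmonoid.closure ({x | x ∈ P ∧ 0 ≤ x} ∪ {f}), h ≤ w} := by
      refine ⟨⟨0, zero_mem _, le_rfl⟩, ?_, ?_, ?_, hne⟩
      · rintro x ⟨w, hw, hx⟩ y ⟨w', hw', hy⟩
        exact ⟨w + w', add_mem hw hw', add_le_add hx hy⟩
      · rintro x ⟨w, hw, hx⟩ y hy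
        exact ⟨w, hw, hy.trans hx⟩
      · rintro x ⟨w, hw, hx⟩
        exact ⟨w, hw, sup_le hx (hpos f hf w hw)⟩
    have hsub : P ⊆ {h | ∃ w ∈ AddSubmonoid.closure ({x | x ∈ P ∧ 0 ≤ x} ∪ {f}), h ≤ w} :=
      fun x hx => ⟨x ⊔ 0, AddSubmonoid.subset_closure
        (Or.inl ⟨hC.2.2.2.1 x hx, le_sup_right⟩), le_sup_left⟩
    exact hfP (hP.2 hQ hsub ⟨f, AddSubmonoid.subset_closure (Or.inr rfl), le_rfl⟩)
  by_contra hcon
  rw [not_or] at hcon
  have hf : 0 ≤ f := hfg ▸ inf_le_left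
  have hg : 0 ≤ g := hfg ▸ inf_le_right
  obtain ⟨u, hu, heu⟩ := key f hf hcon.1
  obtain ⟨v, hv, hev⟩ := key g hg hcon.2
  have h1 : ∀ v ∈ AddSubmonoid.closure ({x | x ∈ P ∧ 0 ≤ x} ∪ {g}), v ⊓ f ∈ P := by
    intro v hv
    induction hv using AddSubmonoid.closure_induction with
    | mem x hx =>
      rcases hx with hx | hx
      · exact hC.2.2.1 x hx.1 _ inf_le_left
      · rw [Set.mem_singleton_iff.mp hx, inf_comm, hfg]; exact hC.1
    | zero => exact hC.2.2.1 0 hC.1 _ inf_le_left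
    | add x y hx' hy' hx hy =>
      exact hC.2.2.1 _ (hC.2.1 _ hx _ hy) _ (inf_add_le (hpos g hg x hx') (hpos g hg y hy') hf)
  have h2 : ∀ u ∈ AddSubmonoid.closure ({x | x ∈ P ∧ 0 ≤ x} ∪ {f}), u ⊓ v ∈ P := by
    intro u hu
    induction hu using AddSubmonoid.closure_induction with
    | mem x hx =>
      rcases hx with hx | hx
      · exact hC.2.2.1 x hx.1 _ inf_le_left
      · rw [Set.mem_singleton_iff.mp hx, inf_comm]; exact h1 v hv
    | zero => exact hC.2.2.1 0 hC.1 _ inf_le_left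
    | add x y hx' hy' hx hy =>
      exact hC.2.2.1 _ (hC.2.1 _ hx _ hy) _
        (inf_add_le (hpos f hf x hx') (hpos f hf y hy') (hpos g hg v hv))
  exact hC.2.2.2.2 (hC.2.2.1 _ (h2 u hu) _ (le_inf heu hev))

/-- a left invariant total preorder coming from a prime subgroup -/
structure Pre (r : D → D → Prop) : Prop where
  trans : ∀ {x y z}, r x y → r y z → r x z
  total : ∀ x y, r x y ∨ r y x
  left : ∀ (f : D) {x y}, r x y → r (f + x) (f + y)
  mono : ∀ {x y}, x ≤ y → r x y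
  disj : ∀ {f g} (w : D), f ⊓ g = 0 → r (f + w) w ∨ r (g + w) w

theorem exists_pre (e : D) (he : ¬ e ≤ 0) : ∃ r : D → D → Prop, Pre r ∧ ¬ r (e + 0) 0 := by
  obtain ⟨P, hC, hP⟩ := exists_prime e he
  refine ⟨fun g h => -h + g ∈ P, ⟨?_, ?_, ?_, ?_, ?_⟩, by simpa using hC.2.2.2.2⟩
  · intro x y z h1 h2
    have := hC.2.1 _ h2 _ h1
    simpa [add_assoc] using this
  · intro x y
    rcases hP _ _ (posPart_inf_negPart_eq_zero (-y + x)) with h | h
    · exact Or.inl (hC.2.2.1 _ h _ (le_posPart _))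
    · refine Or.inr (hC.2.2.1 _ h _ ?_)
      simpa using neg_le_negPart (-y + x)
  · intro f x y h
    simpa [add_assoc] using h
  · intro x y h
    exact hC.2.2.1 0 hC.1 _ (by simpa using h)
  · intro f g w h
    have : (-w + (f + w)) ⊓ (-w + (g + w)) = 0 := by
      rw [← add_inf, ← inf_add, h]; simp
    exact hP _ _ this

variable {r : D → D → Prop}

omit [AddLeftMono D] in
theorem Pre.mv_le (h : Pre r) {f g w : D} (hfg : f ≤ g) (hm : ¬ r (f + w) w) : ¬ r (g + w) w :=
  fun h1 => hm (h.trans (h.mono (add_le_add_left hfg w)) h1)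

omit [AddLeftMono D] [AddRightMono D] in
theorem Pre.mv_conj (h : Pre r) {f w : D} (t : D) (hm : ¬ r (f + w) w) :
    ¬ r (t + f + -t + (t + w)) (t + w) := by
  intro h1
  have := h.left (-t) h1
  simp only [add_assoc, neg_add_cancel_left] at this
  exact hm this

omit [AddLeftMono D] [AddRightMono D] in
theorem Pre.convex (h : Pre r) {f w z : D} (hm : ¬ r (f + w) w) (h1 : r w z)
    (h2 : r z (f + w)) : ¬ r (f + z) z := by
  intro h3
  have h4 := h.left (-f) (h.trans h3 h2)
  simp only [neg_add_cancel_left] at h4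
  exact hm (h.trans (h.left f h1) (h.trans h3 h4))

omit [AddLeftMono D] [AddRightMono D] in
theorem Pre.fix_add (h : Pre r) {f g w : D} (hf : r (f + w) w) (hg : r (g + w) w) :
    r (f + g + w) w := by
  rw [add_assoc]
  exact h.trans (h.left f hg) hf

omit [AddLeftMono D] [AddRightMono D] in
theorem Pre.fix_nsmul (h : Pre r) {f w : D} (hf : r (f + w) w) (n : ℕ) : r (n • f + w) w := by
  induction n with
  | zero => simpa using h.mono le_rfl
  | succ n ih => rw [succ_nsmul]; exact h.fix_add ih hf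

/-- the obstruction for the cardinal sum -/
theorem obstruction1 {a b c p x y : D} (hca : c ≤ a) (hcp : c ⊓ p = 0) (hbp : b ≤ p)
    (h1 : p + b + -p ≤ a) (h2 : (p + p) + b + -(p + p) ≤ b)
    (hax : a ≤ x) (hxb : x ⊓ b = 0) (hby : b ≤ y) (hya : y ⊓ a = 0)
    (h3 : a + (x + y) ≤ (x + y) + b) : c ≤ 0 := by
  by_contra hc
  obtain ⟨r, h, hw⟩ := exists_pre c hc
  have hp : 0 ≤ p := hcp ▸ inf_le_right
  have hx : 0 ≤ x := hxb ▸ inf_le_left
  have hy : 0 ≤ y := hya ▸ inf_le_left
  set n : D := -(x + y) with hn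
  have ha0 : ¬ r (a + 0) 0 := h.mv_le hca hw
  have hbn : ¬ r (b + n) n := by
    have := h.mv_conj n ha0
    rw [add_zero] at this
    refine h.mv_le ?_ this
    rw [hn, neg_neg, add_assoc, neg_add_le_iff_le_add]
    exact h3
  have hyn : y + n = -x := by rw [hn]; simp
  have e1 : ¬ r (a + (p + n)) (p + n) := h.mv_le h1 (h.mv_conj p hbn)
  have e2 : r (y + (p + n)) (p + n) := (h.disj _ hya).resolve_right e1
  have e3 : r n (p + n) := h.mono (le_add_of_nonneg_left hp)
  have e4 : r (-x) (p + n) := by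
    refine (h.total _ _).resolve_right (fun h5 => ?_)
    exact h.convex (h.mv_le hby hbn) e3 (hyn ▸ h5) e2
  have e5 : r (-x) (p + p + n) :=
    h.trans e4 (h.mono (by rw [add_assoc]; exact le_add_of_nonneg_left hp))
  have e6 : ¬ r (b + (p + p + n)) (p + p + n) := h.mv_le h2 (h.mv_conj (p + p) hbn)
  have e7 : r (x + (p + p + n)) (p + p + n) := (h.disj _ hxb).resolve_right e6
  have e8 : ¬ r (x + -x) (-x) := by
    have := h.mv_conj (-x) (h.mv_le hax ha0)
    simpa using this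
  have e9 : r 0 (p + p + n) := by
    refine (h.total _ _).resolve_right (fun h5 => ?_)
    exact h.convex e8 e5 (by simpa using h5) e7
  have e10 : r n 0 := h.mono (by rw [hn]; exact neg_nonpos.mpr (add_nonneg hx hy))
  have e11 : r (p + 0) 0 := (h.disj _ hcp).resolve_left hw
  exact h.convex (h.mv_le (hbp.trans (le_add_of_nonneg_left hp)) hbn) e10 e9 (h.fix_add e11 e11)

/-- the obstruction for the lexicographic product -/
theorem obstruction2 {a b c d q s : D} (k : ℕ) (hb : b = c + d) (hcd : c ⊓ d = 0)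
    (hca : c ⊓ a = 0) (hq0 : 0 ≤ q) (hq : q ≤ b) (hs : s ≤ a + (-q + a + q))
    (hk : b ≤ k • s) : c ≤ 0 := by
  by_contra hc
  obtain ⟨r, h, hw⟩ := exists_pre c hc
  have hd : 0 ≤ d := hcd ▸ inf_le_right
  have e1 : r (d + 0) 0 := (h.disj _ hcd).resolve_left hw
  have e2 : r (a + 0) 0 := (h.disj _ hca).resolve_left hw
  have e3 : r q (c + 0) := by
    refine h.trans (h.mono hq) ?_
    have := h.left c e1
    rwa [add_zero, ← hb] at this
  have e4 : r (a + q) q := (h.disj _ hca).resolve_left (h.convex hw (h.mono hq0) e3)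
  have e5 : r (-q + a + q + 0) 0 := by
    have := h.left (-q) e4
    simpa [add_assoc] using this
  have e6 : r (s + 0) 0 := by
    by_contra h5
    exact h.mv_le hs h5 (h.fix_add e2 e5)
  exact h.mv_le ((hb ▸ le_add_of_nonneg_right hd : c ≤ b).trans hk) hw (h.fix_nsmul e6 k)

theorem sup_eq_add {s t : D} (h : s ⊓ t = 0) : s ⊔ t = s + t := by
  have h1 : s + -(s ⊓ t) + t = t ⊔ s := by
    rw [neg_inf, add_sup, sup_add]; simp
  rw [h, neg_zero, add_zero] at h1
  rw [h1, sup_comm]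

theorem comm_of_disj {s t : D} (h : s ⊓ t = 0) : s + t = t + s := by
  rw [← sup_eq_add h, ← sup_eq_add (inf_comm s t ▸ h), sup_comm]

theorem nsmul_disj {s t : D} (h : s ⊓ t = 0) (n : ℕ) : (n • s) ⊓ t = 0 := by
  have hs : 0 ≤ s := h ▸ inf_le_left
  have ht : 0 ≤ t := h ▸ inf_le_right
  induction n with
  | zero => simpa using ht
  | succ n ih =>
    apply le_antisymm
    · rw [succ_nsmul]
      have := inf_add_le (nsmul_nonneg hs n) hs ht
      rwa [ih, h, add_zero] at this
    · exact le_inf (nsmul_nonneg hs _) ht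

theorem nsmul_disj2 {s t : D} (h : s ⊓ t = 0) (m n : ℕ) : (m • s) ⊓ (n • t) = 0 := by
  have h1 : t ⊓ (m • s) = 0 := by rw [inf_comm]; exact nsmul_disj h m
  rw [inf_comm]; exact nsmul_disj h1 n

theorem pos_of_disj {s t : D} (h : s ⊓ t = 0) : (s + -t) ⊔ 0 = s := by
  have : (s + -t) ⊔ 0 = (s ⊔ t) + -t := by rw [sup_add]; simp
  rw [this, sup_eq_add h]; simp

end General

/-- order automorphisms of the real line, written additively -/
@[ext] structure AutR where
  e : ℝ ≃o ℝ

namespace AutR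

noncomputable def ofFun (f : ℝ → ℝ) (h : StrictMono f) (hs : Function.Surjective f) : AutR :=
  ⟨StrictMono.orderIsoOfSurjective f h hs⟩

@[simp] theorem ofFun_e (f : ℝ → ℝ) (h : StrictMono f) (hs : Function.Surjective f) (x : ℝ) :
    (ofFun f h hs).e x = f x := rfl

instance : Add AutR := ⟨fun a b => ⟨b.e.trans a.e⟩⟩
instance : Zero AutR := ⟨⟨OrderIso.refl _⟩⟩
instance : Neg AutR := ⟨fun a => ⟨a.e.symm⟩⟩

@[simp] theorem add_e (a b : AutR) (x : ℝ) : (a + b).e x = a.e (b.e x) := rfl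
@[simp] theorem zero_e (x : ℝ) : (0 : AutR).e x = x := rfl
@[simp] theorem neg_e (a : AutR) (x : ℝ) : (-a).e x = a.e.symm x := rfl

instance : AddGroup AutR := AddGroup.ofLeftAxioms
  (fun a b c => by ext x; simp)
  (fun a => by ext x; simp)
  (fun a => by ext x; simp)

noncomputable def supA (a b : AutR) : AutR :=
  ofFun (fun x => max (a.e x) (b.e x))
    (fun _ _ h => max_lt_max (a.e.strictMono h) (b.e.strictMono h))
    (fun y => ⟨min (a.e.symm y) (b.e.symm y), by
      simp only [a.e.monotone.map_min, b.e.monotone.map_min, OrderIso.apply_symm_apply]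
      rcases le_total (a.e.symm y) (b.e.symm y) with h | h
      · have h1 : y ≤ a.e (b.e.symm y) := by simpa using a.e.monotone h
        rw [min_eq_left h1]
        exact max_eq_left (min_le_right _ _)
      · have h1 : y ≤ b.e (a.e.symm y) := by simpa using b.e.monotone h
        rw [min_eq_right h1]
        exact max_eq_right (min_le_left _ _)⟩)

noncomputable def infA (a b : AutR) : AutR :=
  ofFun (fun x => min (a.e x) (b.e x))
    (fun _ _ h => min_lt_min (a.e.strictMono h) (b.e.strictMono h))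
    (fun y => ⟨max (a.e.symm y) (b.e.symm y), by
      simp only [a.e.monotone.map_max, b.e.monotone.map_max, OrderIso.apply_symm_apply]
      rcases le_total (a.e.symm y) (b.e.symm y) with h | h
      · have h1 : b.e (a.e.symm y) ≤ y := by simpa using b.e.monotone h
        rw [max_eq_right h1]
        exact min_eq_right (le_max_left _ _)
      · have h1 : a.e (b.e.symm y) ≤ y := by simpa using a.e.monotone h
        rw [max_eq_left h1]
        exact min_eq_left (le_max_right _ _)⟩)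

noncomputable instance : Lattice AutR where
  le a b := ∀ x, a.e x ≤ b.e x
  le_refl _ _ := le_rfl
  le_trans _ _ _ h1 h2 x := (h1 x).trans (h2 x)
  le_antisymm a b h1 h2 := by
    ext x
    exact le_antisymm (h1 x) (h2 x)
  sup := supA
  inf := infA
  le_sup_left _ _ _ := le_max_left _ _
  le_sup_right _ _ _ := le_max_right _ _
  sup_le _ _ _ h1 h2 x := max_le (h1 x) (h2 x)
  inf_le_left _ _ _ := min_le_left _ _
  inf_le_right _ _ _ := min_le_right _ _
  le_inf _ _ _ h1 h2 x := le_min (h1 x) (h2 x)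

theorem le_def (a b : AutR) : a ≤ b ↔ ∀ x, a.e x ≤ b.e x := Iff.rfl
@[simp] theorem sup_e (a b : AutR) (x : ℝ) : (a ⊔ b).e x = max (a.e x) (b.e x) := rfl
@[simp] theorem inf_e (a b : AutR) (x : ℝ) : (a ⊓ b).e x = min (a.e x) (b.e x) := rfl

instance : AddLeftMono AutR := ⟨fun c _ _ h x => c.e.monotone (h x)⟩
instance : AddRightMono AutR := ⟨fun c _ _ h x => h (c.e x)⟩

/-- affine maps -/
noncomputable def aff (s c : ℝ) (hs : 0 < s) : AutR :=
  ofFun (fun x => s * x + c) (fun x y h => by simp only; nlinarith)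
    (fun y => ⟨(y - c) / s, by simp only; field_simp; ring⟩)

@[simp] theorem aff_e (s c : ℝ) (hs : 0 < s) (x : ℝ) : (aff s c hs).e x = s * x + c := rfl

/-- small Lipschitz perturbations of the identity -/
noncomputable def lip (φ : ℝ → ℝ) (h : ∀ s t, |φ s - φ t| ≤ |s - t|) : AutR :=
  ofFun (fun x => x + φ x / 2)
    (fun x y hxy => by
      have h1 := h x y
      rw [abs_of_neg (by linarith : x - y < 0)] at h1
      have h2 := le_abs_self (φ x - φ y)
      simp only
      linarith)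
    (by
      have hc : Continuous φ := by
        refine (LipschitzWith.of_dist_le_mul (K := 1) (fun s t => ?_)).continuous
        simpa [Real.dist_eq] using h s t
      have hc' : Continuous (fun x => x + φ x / 2) := by fun_prop
      intro y
      have h1 := h (2 * |y| + |φ 0|) 0
      have h2 := h (-(2 * |y| + |φ 0|)) 0
      have h3 : 0 ≤ 2 * |y| + |φ 0| := by positivity
      rw [sub_zero, abs_of_nonneg h3] at h1
      rw [sub_zero, abs_neg, abs_of_nonneg h3] at h2
      have h4 := abs_le.mp h1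
      have h5 := abs_le.mp h2
      have h6 := le_abs_self y
      have h7 := neg_abs_le y
      have h8 := le_abs_self (φ 0)
      have h9 := neg_abs_le (φ 0)
      exact mem_range_of_exists_le_of_exists_ge hc'
        ⟨-(2 * |y| + |φ 0|), by linarith [h5.2]⟩ ⟨2 * |y| + |φ 0|, by linarith [h4.1]⟩)

@[simp] theorem lip_e (φ : ℝ → ℝ) (h : ∀ s t, |φ s - φ t| ≤ |s - t|) (x : ℝ) :
    (lip φ h).e x = x + φ x / 2 := rfl

end AutR

end Pool.Agent.H73.LGrp
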