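import Mathlib

set_option autoImplicit false

namespace Pool.Agent.H73.Low

open Polynomial

variable {K : Type*} [Field K]

/-- images of the monomials, defined by an Askey–Wilson type recursion. -/
noncomputable def pp (β γ ϱ ω η c : K) : ℕ → K[X]
  | 0 => 0
  | 1 => C c
  | n + 2 => C β * X * pp β γ ϱ ω η c (n + 1) - X ^ 2 * pp β γ ϱ ω η c n
      + C γ * (X * pp β γ ϱ ω η c n + pp β γ ϱ ω η c (n + 1)) + C ϱ * pp β γ ϱ ω η c n
      + (C ω * X + C η) * X ^ n

lemma pp_deg (β γ ϱ ω η c : K) : ∀ n, (pp β γ ϱ ω η c n).natDegree ≤ n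
  | 0 => by simp [pp]
  | 1 => by simp [pp]
  | n + 2 => by
    have h1 := pp_deg β γ ϱ ω η c n
    have h2 := pp_deg β γ ϱ ω η c (n + 1)
    rw [pp]
    generalize pp β γ ϱ ω η c n = a at *
    generalize pp β γ ϱ ω η c (n + 1) = b at *
    compute_degree
    omega

/-- the linear map. -/
noncomputable def Psi (β γ ϱ ω η c : K) : K[X] →ₗ[K] K[X] :=
  (basisMonomials K).constr K (pp β γ ϱ ω η c)

lemma Psi_pow (β γ ϱ ω η c : K) (n : ℕ) : Psi β γ ϱ ω η c (X ^ n) = pp β γ ϱ ω η c n := by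
  have := (basisMonomials K).constr_basis K (pp β γ ϱ ω η c) n
  rw [coe_basisMonomials] at this
  simpa [Psi, monomial_one_right_eq_X_pow] using this

lemma Psi_C (β γ ϱ ω η c a : K) (f : K[X]) :
    Psi β γ ϱ ω η c (C a * f) = C a * Psi β γ ϱ ω η c f := by
  rw [C_mul', C_mul', map_smul]

lemma Psi_rel (β γ ϱ ω η c : K) (f : K[X]) :
    Psi β γ ϱ ω η c (X ^ 2 * f) = C β * X * Psi β γ ϱ ω η c (X * f) - X ^ 2 * Psi β γ ϱ ω η c f
      + C γ * (X * Psi β γ ϱ ω η c f + Psi β γ ϱ ω η c (X * f)) + C ϱ * Psi β γ ϱ ω η c f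
      + (C ω * X + C η) * f := by
  induction f using Polynomial.induction_on' with
  | add p q hp hq =>
    simp only [mul_add, map_add] at hp hq ⊢
    rw [hp, hq]
    ring
  | monomial n a =>
    rw [← C_mul_X_pow_eq_monomial]
    have e1 : (X : K[X]) ^ 2 * (C a * X ^ n) = C a * X ^ (n + 2) := by ring
    have e2 : (X : K[X]) * (C a * X ^ n) = C a * X ^ (n + 1) := by ring
    rw [e1, e2, Psi_C, Psi_C, Psi_C, Psi_pow, Psi_pow, Psi_pow, pp]
    ring

lemma Psi_mem (β γ ϱ ω η c : K) (d : ℕ) (f : K[X]) (hf : f ∈ degreeLE K d) :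
    Psi β γ ϱ ω η c f ∈ degreeLE K d := by
  have h1 : f.natDegree < d + 1 :=
    Nat.lt_succ_of_le (natDegree_le_iff_degree_le.2 (mem_degreeLE.1 hf))
  rw [as_sum_range' f (d + 1) h1, map_sum]
  refine Submodule.sum_mem _ fun i hi => ?_
  rw [← C_mul_X_pow_eq_monomial, Psi_C, Psi_pow, C_mul']
  refine Submodule.smul_mem _ _ (mem_degreeLE.2 (natDegree_le_iff_degree_le.1 ?_))
  exact (pp_deg β γ ϱ ω η c i).trans (Nat.lt_succ_iff.1 (Finset.mem_range.1 hi))

/-- `s (n+1)` is the `n`-th node, `s 0` an auxiliary node. -/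
lemma Psi_low (β γ ϱ ω η : K) (s c : ℕ → K) (c0 : c 0 = 0)
    (h1 : ∀ n, s n - β * s (n + 1) + s (n + 2) = γ)
    (h2 : ∀ n, s n ^ 2 - β * s n * s (n + 1) + s (n + 1) ^ 2 - γ * (s n + s (n + 1)) = ϱ)
    (h3 : ∀ n, c n - β * c (n + 1) + c (n + 2) = ω)
    (h4 : ∀ n, c n * (s (n + 1) - s (n + 2)) + c (n + 1) * (s (n + 1) - s n) - ω * s (n + 1) = η)
    (n : ℕ) :
    (X - C (s n)) * Psi β γ ϱ ω η (c 1) (∏ h ∈ Finset.range n, (X - C (s (h + 1))))
        = C (c n) * ∏ h ∈ Finset.range n, (X - C (s (h + 1))) ∧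
      Psi β γ ϱ ω η (c 1) (∏ h ∈ Finset.range (n + 1), (X - C (s (h + 1))))
        = C (c (n + 1)) * ∏ h ∈ Finset.range n, (X - C (s (h + 1))) := by
  have p0 : Psi β γ ϱ ω η (c 1) 1 = 0 := by simpa [pp] using Psi_pow β γ ϱ ω η (c 1) 0
  have p1 : Psi β γ ϱ ω η (c 1) X = C (c 1) := by simpa [pp] using Psi_pow β γ ϱ ω η (c 1) 1
  induction n with
  | zero =>
    constructor
    · simp [p0, c0]
    · have := Psi_C β γ ϱ ω η (c 1) (s 1) 1
      rw [mul_one, p0, mul_zero] at this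
      simp [p1, this]
  | succ n ih =>
    obtain ⟨i1, i2⟩ := ih
    constructor
    · rw [i2, Finset.prod_range_succ]
      ring
    · rw [Finset.prod_range_succ] at i2
      rw [Finset.prod_range_succ, Finset.prod_range_succ]
      generalize (∏ h ∈ Finset.range n, (X - C (s (h + 1)))) = f at *
      have e1 : f * (X - C (s (n + 1))) = X * f - C (s (n + 1)) * f := by ring
      have e2 : f * (X - C (s (n + 1))) * (X - C (s (n + 1 + 1))) = X ^ 2 * f
          - C (s (n + 1) + s (n + 2)) * (X * f) + C (s (n + 1) * s (n + 2)) * f := by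
        simp only [C_add, C_mul]; ring
      rw [e1, map_sub, Psi_C] at i2
      rw [e2, map_add, map_sub, Psi_C, Psi_C, Psi_rel]
      have a1 := congrArg C (h1 n)
      have a2 := congrArg C (h2 n)
      have a3 := congrArg C (h3 n)
      have a4 := congrArg C (h4 n)
      simp only [C_add, C_mul, C_sub, C_pow] at a1 a2 a3 a4 ⊢
      generalize Psi β γ ϱ ω η (c 1) f = g at *
      have i3 : Psi β γ ϱ ω η (c 1) (X * f) = C (c (n + 1)) * f + C (s (n + 1)) * g := by
        linear_combination i2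
      rw [i3, ← a4, ← a3, ← a2, ← a1]
      linear_combination (-(X - C (s (n + 2)))) * i1

/-- forward extension of a recurrent sequence. -/
def ext (β γ x y : K) : ℕ → K
  | 0 => x
  | 1 => y
  | n + 2 => γ - ext β γ x y n + β * ext β γ x y (n + 1)

lemma ext_rec (β γ x y : K) (n : ℕ) :
    ext β γ x y n - β * ext β γ x y (n + 1) + ext β γ x y (n + 2) = γ := by
  rw [ext]; ring

lemma rho_const (β γ : K) (s : ℕ → K) (h1 : ∀ n, s n - β * s (n + 1) + s (n + 2) = γ) (n : ℕ) :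
    s n ^ 2 - β * s n * s (n + 1) + s (n + 1) ^ 2 - γ * (s n + s (n + 1))
      = s 0 ^ 2 - β * s 0 * s 1 + s 1 ^ 2 - γ * (s 0 + s 1) := by
  induction n with
  | zero => rfl
  | succ n ih =>
    rw [← ih]
    linear_combination (s (n + 2) - s n) * h1 n

lemma eta_const (β γ ω : K) (s c : ℕ → K) (h1 : ∀ n, s n - β * s (n + 1) + s (n + 2) = γ)
    (h3 : ∀ n, c n - β * c (n + 1) + c (n + 2) = ω) (n : ℕ) :
    c n * (s (n + 1) - s (n + 2)) + c (n + 1) * (s (n + 1) - s n) - ω * s (n + 1)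
      = c 0 * (s 1 - s 2) + c 1 * (s 1 - s 0) - ω * s 1 := by
  induction n with
  | zero => rfl
  | succ n ih =>
    rw [← ih]
    linear_combination (s (n + 2) - s (n + 1)) * h3 n + c (n + 1) * h1 n - c (n + 1) * h1 (n + 1)

lemma uniq (β γ : K) (N : ℕ) (s t : ℕ → K)
    (hs : ∀ n, n + 2 ≤ N → s n - β * s (n + 1) + s (n + 2) = γ)
    (ht : ∀ n, n + 2 ≤ N → t n - β * t (n + 1) + t (n + 2) = γ) (e0 : s 0 = t 0) (e1 : s 1 = t 1) :
    ∀ n, n ≤ N → s n = t n
  | 0, _ => e0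
  | 1, _ => e1
  | n + 2, h => by
    have a := uniq β γ N s t hs ht e0 e1 n (by omega)
    have b := uniq β γ N s t hs ht e0 e1 (n + 1) (by omega)
    linear_combination hs n h - ht n h - a + β * b

theorem core (β γ : K) (d : ℕ) (hd : 1 ≤ d) (θ : ℕ → K)
    (hθ : ∀ n, n + 2 ≤ d → θ n - β * θ (n + 1) + θ (n + 2) = γ) :
    ∃ Ψ : K[X] →ₗ[K] K[X], (∀ f ∈ degreeLE K d, Ψ f ∈ degreeLE K d) ∧ Ψ 1 = 0 ∧
      Ψ X = C (θ 0 - θ d) ∧ ∃ c : ℕ → K, ∀ n, n + 1 ≤ d →
        Ψ (∏ h ∈ Finset.range (n + 1), (X - C (θ h)))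
          = C (c n) * ∏ h ∈ Finset.range n, (X - C (θ h)) ∧
        Ψ (∏ h ∈ Finset.range (n + 1), (X - C (θ (d - h))))
          = C (c n) * ∏ h ∈ Finset.range n, (X - C (θ (d - h))) := by
  let s := ext β γ (γ + β * θ 0 - θ 1) (θ 0)
  have hs : ∀ n, s n - β * s (n + 1) + s (n + 2) = γ := ext_rec _ _ _ _
  let t := ext β γ (s (d + 2)) (s (d + 1))
  have ht : ∀ n, t n - β * t (n + 1) + t (n + 2) = γ := ext_rec _ _ _ _
  have es : ∀ n, n ≤ d → s (n + 1) = θ n :=
    uniq β γ d (fun n => s (n + 1)) θ (fun n _ => hs (n + 1)) hθ rfl (by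
      have := hs 0
      have e0 : s 0 = γ + β * θ 0 - θ 1 := rfl
      have e1 : s 1 = θ 0 := rfl
      simp only [zero_add] at this ⊢
      rw [e0, e1] at this
      linear_combination this)
  have et : ∀ n, n ≤ d + 2 → t n = s (d + 2 - n) :=
    uniq β γ (d + 2) t (fun n => s (d + 2 - n)) (fun n _ => ht n) (fun n hn => by
      have := hs (d - n)
      rw [show d + 2 - n = d - n + 2 by omega, show d + 2 - (n + 1) = d - n + 1 by omega,
        show d + 2 - (n + 2) = d - n by omega]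
      linear_combination this) rfl rfl
  have et' : ∀ n, n ≤ d → t (n + 1) = θ (d - n) := fun n hn => by
    rw [et (n + 1) (by omega), show d + 2 - (n + 1) = d - n + 1 by omega, es _ (by omega)]
  let c : ℕ → K := fun n => ∑ h ∈ Finset.range n, (s (h + 1) - t (h + 1))
  have cs : ∀ n, c (n + 1) = c n + (s (n + 1) - t (n + 1)) := fun n => Finset.sum_range_succ _ _
  have c0 : c 0 = 0 := rfl
  have hc : ∀ n, c n - β * c (n + 1) + c (n + 2) = c 0 - β * c 1 + c 2 := by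
    intro n
    induction n with
    | zero => rfl
    | succ n ih =>
      rw [← ih]
      linear_combination cs n - β * cs (n + 1) + cs (n + 2) + hs (n + 1) - ht (n + 1)
  have cd : c (d + 1) = 0 := by
    have e : c (d + 1) = ∑ h ∈ Finset.range (d + 1), (θ h - θ (d + 1 - 1 - h)) :=
      Finset.sum_congr rfl fun h hh => by
        have := Finset.mem_range.1 hh
        rw [es h (by omega), et' h (by omega)]
        rfl
    rw [e, Finset.sum_sub_distrib, Finset.sum_range_reflect θ (d + 1), sub_self]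
  have c1 : c 1 = θ 0 - θ d := by
    rw [cs 0, c0, es 0 (by omega), et' 0 (by omega)]
    simp
  have cd' : c d = c 1 := by
    have := cs d
    rw [cd, es d le_rfl, et' d le_rfl, Nat.sub_self] at this
    rw [c1]
    linear_combination -this
  have t0 : t 0 = s (d + 2) := rfl
  have t1 : t 1 = s (d + 1) := rfl
  obtain ⟨ω, hω⟩ : ∃ ω, ω = c 0 - β * c 1 + c 2 := ⟨_, rfl⟩
  rw [← hω] at hc
  obtain ⟨ϱ, hϱ⟩ : ∃ ϱ, ϱ = s 0 ^ 2 - β * s 0 * s 1 + s 1 ^ 2 - γ * (s 0 + s 1) := ⟨_, rfl⟩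
  obtain ⟨η, hη⟩ : ∃ η, η = c 0 * (s 1 - s 2) + c 1 * (s 1 - s 0) - ω * s 1 := ⟨_, rfl⟩
  have A := Psi_low β γ ϱ ω η s c c0 hs (fun n => (rho_const β γ s hs n).trans hϱ.symm) hc
    (fun n => (eta_const β γ ω s c hs hc n).trans hη.symm)
  have B := Psi_low β γ ϱ ω η t c c0 ht (fun n => (rho_const β γ t ht n).trans (by
      rw [hϱ, ← rho_const β γ s hs (d + 1), t0, t1]; ring)) hc
    (fun n => (eta_const β γ ω t c ht hc n).trans (by
      rw [hη, ← eta_const β γ ω s c hs hc d, cd, cd', t0, t1, c0]; ring))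
  have q1 : ∀ n, n ≤ d + 1 → ∏ h ∈ Finset.range n, (X - C (s (h + 1)))
      = ∏ h ∈ Finset.range n, (X - C (θ h)) := fun n hn =>
    Finset.prod_congr rfl fun h hh => by rw [es h (by have := Finset.mem_range.1 hh; omega)]
  have q2 : ∀ n, n ≤ d + 1 → ∏ h ∈ Finset.range n, (X - C (t (h + 1)))
      = ∏ h ∈ Finset.range n, (X - C (θ (d - h))) := fun n hn =>
    Finset.prod_congr rfl fun h hh => by rw [et' h (by have := Finset.mem_range.1 hh; omega)]
  refine ⟨Psi β γ ϱ ω η (c 1), fun f hf => Psi_mem _ _ _ _ _ (c 1) d f hf, ?_, ?_,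
    fun n => c (n + 1), fun n hn => ⟨?_, ?_⟩⟩
  · simpa [pp] using Psi_pow β γ ϱ ω η (c 1) 0
  · rw [← c1]
    simpa [pp] using Psi_pow β γ ϱ ω η (c 1) 1
  · have := (A n).2
    rw [q1 _ (by omega), q1 _ (by omega)] at this
    exact this
  · have := (B n).2
    rw [q2 _ (by omega), q2 _ (by omega)] at this
    exact this

theorem main (d : ℕ) (hd : 1 ≤ d) (θ : ℕ → K)
    (hinj : ∀ i ≤ d, ∀ j ≤ d, θ i = θ j → i = j)
    (hstar : ∃ r : K, ∀ i, 2 ≤ i → i + 1 ≤ d → (θ (i - 2) - θ (i + 1)) * (θ (i - 1) - θ i)⁻¹ = r) :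
    ∃ Ψ : degreeLE K d →ₗ[K] degreeLE K d, Ψ ≠ 0 ∧
      (∀ v : degreeLE K d, (v : K[X]) = 1 → Ψ v = 0) ∧
      ∀ i, 1 ≤ i → i ≤ d → ∀ v : degreeLE K d,
        ((v : K[X]) = ∏ h ∈ Finset.range i, (X - C (θ h)) →
          (Ψ v : K[X]) ∈ Submodule.span K {∏ h ∈ Finset.range (i - 1), (X - C (θ h))}) ∧
        ((v : K[X]) = ∏ h ∈ Finset.range i, (X - C (θ (d - h))) →
          (Ψ v : K[X]) ∈ Submodule.span K {∏ h ∈ Finset.range (i - 1), (X - C (θ (d - h)))}) := by
  obtain ⟨r, hr⟩ := hstar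
  have hθ : ∀ n, n + 2 ≤ d → θ n - (r - 1) * θ (n + 1) + θ (n + 2)
      = θ 0 - (r - 1) * θ 1 + θ 2 := by
    intro n
    induction n with
    | zero => intro _; rfl
    | succ n ih =>
      intro hn
      have a := hr (n + 2) (by omega) (by omega)
      have ne : θ (n + 1) - θ (n + 2) ≠ 0 := fun h => by
        have := hinj (n + 1) (by omega) (n + 2) (by omega) (sub_eq_zero.1 h)
        omega
      have a' : θ n - θ (n + 3) = r * (θ (n + 1) - θ (n + 2)) := by
        rw [← a]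
        exact (inv_mul_cancel_right₀ ne _).symm
      rw [← ih (by omega)]
      linear_combination -a'
  obtain ⟨Ψ, hm, p1, pX, c, hc⟩ := core _ _ d hd θ hθ
  refine ⟨Ψ.restrict hm, fun h0 => ?_, fun v hv => ?_, fun i h1 h2 v => ?_⟩
  · have hX : (X : K[X]) ∈ degreeLE K d :=
      mem_degreeLE.2 (by rw [degree_X]; exact_mod_cast hd)
    have := congrArg Subtype.val (LinearMap.congr_fun h0 ⟨X, hX⟩)
    simp only [LinearMap.coe_restrict_apply, pX, LinearMap.zero_apply, ZeroMemClass.coe_zero,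
      C_eq_zero] at this
    have := hinj 0 (by omega) d le_rfl (sub_eq_zero.1 this)
    omega
  · apply Subtype.ext
    rw [LinearMap.coe_restrict_apply, hv, p1]
    rfl
  · obtain ⟨n, rfl⟩ : ∃ n, i = n + 1 := ⟨i - 1, by omega⟩
    constructor
    · intro hv
      rw [LinearMap.coe_restrict_apply, hv, (hc n h2).1, C_mul']
      exact Submodule.smul_mem _ _ (Submodule.mem_span_singleton_self _)
    · intro hv
      rw [LinearMap.coe_restrict_apply, hv, (hc n h2).2, C_mul']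
      exact Submodule.smul_mem _ _ (Submodule.mem_span_singleton_self _)

end Pool.Agent.H73.Low
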