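import Pool.Agent.H37.RE

/-!
Universality of weighted automata reduces to sequence equivalence of OL systems.
-/

set_option autoImplicit false

namespace Pool.Agent.H73.OL

open Pool.Agent.H37 List

/-! ### parallel rewriting -/

def Step (R : List (ℕ × List ℕ)) (u v : List ℕ) : Prop :=
  ∃ ws : List (List ℕ), List.Forall₂ (fun a w => (a, w) ∈ R) u ws ∧ v = ws.flatten

def Seqs (R : List (ℕ × List ℕ)) (ω : List ℕ) : Set (ℕ → List ℕ) :=
  {s | s 0 = ω ∧ ∀ n, Step R (s n) (s (n + 1))}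

variable {R R' : List (ℕ × List ℕ)}

@[simp] theorem step_nil {v : List ℕ} : Step R [] v ↔ v = [] := by
  constructor
  · rintro ⟨ws, h, rfl⟩
    cases h; rfl
  · rintro rfl
    exact ⟨[], .nil, rfl⟩

theorem step_cons {a : ℕ} {u v : List ℕ} :
    Step R (a :: u) v ↔ ∃ w v', (a, w) ∈ R ∧ Step R u v' ∧ v = w ++ v' := by
  constructor
  · rintro ⟨ws, h, rfl⟩
    cases h with
    | cons h1 h2 => exact ⟨_, _, h1, ⟨_, h2, rfl⟩, rfl⟩
  · rintro ⟨w, _, h1, ⟨ws, h2, rfl⟩, rfl⟩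
    exact ⟨w :: ws, .cons h1 h2, rfl⟩

theorem Step.mono (h : ∀ p ∈ R, p ∈ R') {u v : List ℕ} (hs : Step R u v) : Step R' u v := by
  obtain ⟨ws, h1, h2⟩ := hs
  exact ⟨ws, h1.imp fun _ _ h3 => h _ h3, h2⟩

def Tot (R : List (ℕ × List ℕ)) (u : List ℕ) : Prop := ∀ a ∈ u, ∃ w, (a, w) ∈ R

theorem tot_step (hR : ∀ p ∈ R, Tot R p.2) {u : List ℕ} (hu : Tot R u) :
    ∃ v, Step R u v ∧ Tot R v := by
  induction u with
  | nil => exact ⟨[], by simp, hu⟩
  | cons a u ih =>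
    obtain ⟨v, h1, h2⟩ := ih fun b hb => hu b (mem_cons_of_mem _ hb)
    obtain ⟨w, hw⟩ := hu a mem_cons_self
    refine ⟨w ++ v, step_cons.2 ⟨w, v, hw, h1, rfl⟩, fun b hb => ?_⟩
    rcases mem_append.1 hb with h | h
    exacts [hR _ hw b h, h2 b h]

theorem Step.tot (hR : ∀ p ∈ R, Tot R p.2) {u : List ℕ} : ∀ {v}, Step R u v → Tot R v := by
  induction u with
  | nil => intro v h; rw [step_nil.1 h]; intro a ha; simp at ha
  | cons a u ih =>
    intro v h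
    obtain ⟨w, v', h1, h2, rfl⟩ := step_cons.1 h
    intro b hb
    rcases mem_append.1 hb with h | h
    exacts [hR _ h1 b h, ih h2 b h]

theorem seq_ex (hR : ∀ p ∈ R, Tot R p.2) {u : List ℕ} (hu : Tot R u) : ∃ s, s ∈ Seqs R u := by
  choose f h1 h2 using fun v : {v // Tot R v} => tot_step hR v.2
  let g : {v // Tot R v} → {v // Tot R v} := fun v => ⟨f v, h2 v⟩
  refine ⟨fun n => (g^[n] ⟨u, hu⟩).1, rfl, fun n => ?_⟩
  beta_reduce
  rw [Function.iterate_succ_apply']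
  exact h1 _

theorem seq_cons {u v : List ℕ} (h : Step R u v) {s : ℕ → List ℕ} (hs : s ∈ Seqs R v) :
    (fun n => Nat.casesOn n u s : ℕ → List ℕ) ∈ Seqs R u := by
  refine ⟨rfl, fun n => ?_⟩
  cases n with
  | zero => show Step R u (s 0); rw [hs.1]; exact h
  | succ n => exact hs.2 n

theorem seq_through (hR : ∀ p ∈ R, Tot R p.2) {ω u v : List ℕ}
    (h : Relation.ReflTransGen (Step R) ω u) (hv : Step R u v) :
    ∃ s ∈ Seqs R ω, ∃ k, s k = u ∧ s (k + 1) = v := by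
  induction h using Relation.ReflTransGen.head_induction_on with
  | refl =>
    obtain ⟨s, hs⟩ := seq_ex hR (hv.tot hR)
    exact ⟨_, seq_cons hv hs, 0, rfl, hs.1⟩
  | head h1 _ ih =>
    obtain ⟨s, hs, k, h2, h3⟩ := ih
    exact ⟨_, seq_cons h1 hs, k + 1, h2, h3⟩

/-! ### the words -/

def pw (S : ℕ) : ℕ → List ℕ
  | 0 => []
  | n + 1 => replicate (S + 1) 0 ++ 1 :: pw S n

theorem pw_add (S m n : ℕ) : pw S (m + n) = pw S m ++ pw S n := by
  induction m with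
  | zero => simp [pw]
  | succ m ih => rw [Nat.add_right_comm, pw, pw, ih]; simp

theorem rep_inj {p q : ℕ} {r r' : List ℕ} :
    replicate p 0 ++ 1 :: r = replicate q 0 ++ 1 :: r' ↔ p = q ∧ r = r' := by
  induction p generalizing q with
  | zero => cases q <;> simp [replicate_succ]
  | succ p ih => cases q <;> simp [replicate_succ, ih]

theorem key {S p N : ℕ} {r : List ℕ} (h : replicate p 0 ++ 1 :: r = pw S N) :
    p = S + 1 ∧ ∃ N', N = N' + 1 ∧ r = pw S N' := by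
  cases N with
  | zero => simp [pw] at h
  | succ N => exact ⟨(rep_inj.1 h).1, N, rfl, (rep_inj.1 h).2⟩

theorem key0 {S p N : ℕ} (h : replicate (p + 1) 0 = pw S N) : False := by
  cases N with
  | zero => simp [pw] at h
  | succ N =>
    have : 1 ∈ replicate (p + 1) 0 := by rw [h]; simp [pw]
    simp at this

theorem keyp {S m : ℕ} {r : List ℕ} : ∀ {N}, pw S m ++ r = pw S N →
    ∃ N', N = m + N' ∧ r = pw S N' := by
  induction m with
  | zero => intro N h; exact ⟨N, by simp, by simpa [pw] using h⟩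
  | succ m ih =>
    intro N h
    rw [pw, append_assoc, cons_append] at h
    obtain ⟨-, N', rfl, h2⟩ := key h
    obtain ⟨N'', rfl, h3⟩ := ih h2
    exact ⟨N'', by omega, h3⟩

theorem pw_bin (S n : ℕ) : ∀ d ∈ pw S n, d ≤ 1 := by
  induction n with
  | zero => simp [pw]
  | succ n ih =>
    intro d hd
    simp only [pw, mem_append, mem_replicate, mem_cons] at hd
    rcases hd with h | h | h
    exacts [by omega, by omega, ih d h]

theorem pw_count (S n : ℕ) : (pw S n).count 1 = n := by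
  induction n with
  | zero => rfl
  | succ n ih => simp [pw, ih, count_replicate]

theorem ci_pw (S : ℕ) : CI ∅ (pw S) :=
  CI.of_rec1 (h := fun _ l => replicate (S + 1) 0 ++ 1 :: l) (by fun_prop) fun _ => rfl

/-! ### weighted automata -/

structure WA (Q Γ : Type) where
  δ : Q → Γ → Q → ℕ → Prop
  F : Q → Prop
  M : ℕ
  z : Q
  S : ℕ
  pos : Q → ℕ
  cd : Γ → ℕ
  pos_inj : Function.Injective pos
  pos_le : ∀ q, pos q ≤ S
  cd_inj : Function.Injective cd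
  cd_ge : ∀ a, 6 ≤ cd a
  loop : ∀ a, δ z a z M

namespace WA

variable {Q Γ : Type} (W : WA Q Γ)

def Acc : Q → List Γ → ℕ → Prop
  | q, [], m => W.F q ∧ m = 0
  | q, a :: x, m => ∃ q' m1 m2, W.δ q a q' m1 ∧ Acc q' x m2 ∧ m = m1 + m2

def u (q : Q) : List ℕ := replicate (W.pos q + 1) 0
def v (q : Q) : List ℕ := replicate (W.S - W.pos q) 0 ++ [1]
def t (q : Q) (m : ℕ) (q' : Q) : List ℕ := W.v q ++ pw W.S m ++ W.u q'

theorem uv (q : Q) : W.u q ++ W.v q = pw W.S 1 := by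
  have := W.pos_le q
  simp only [u, v, pw, ← append_assoc, ← replicate_add]
  rw [show W.pos q + 1 + (W.S - W.pos q) = W.S + 1 by omega]

def PA (a : Γ) (y : List ℕ) : Prop :=
  y = pw W.S (W.M + 1) ∨ (∃ q q' m, W.δ q a q' m ∧ (y = W.t q m q' ∨ y = W.v W.z ++ W.t q m q')) ∨
    y = W.v W.z ++ pw W.S (W.M + 1) ++ W.v W.z ∨ y = pw W.S (W.M + 1) ++ W.v W.z

def PC (y : List ℕ) : Prop := y = [] ∨ ∃ q, W.F q ∧ (y = W.v q ∨ y = W.v W.z ++ W.v q)

def G : List Γ → List ℕ → Prop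
  | [], y => W.PC y
  | a :: x, y => ∃ y1 y2, W.PA a y1 ∧ G x y2 ∧ y = y1 ++ y2

theorem G_neutral (x : List Γ) : W.G x (pw W.S (x.length * (W.M + 1))) := by
  induction x with
  | nil => exact Or.inl (by simp [pw])
  | cons a x ih =>
    exact ⟨_, _, Or.inl rfl, ih, by rw [← pw_add, length_cons]; congr 1; ring⟩

theorem cover {x : List Γ} : ∀ {y}, W.G x y → y = pw W.S (x.length * (W.M + 1)) ∨
    W.G x (W.v W.z ++ y) ∨ ∃ y', W.G x y' ∧ y = W.v W.z ++ y' := by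
  induction x with
  | nil =>
    rintro y (rfl | ⟨q, h, rfl | rfl⟩)
    · exact Or.inl (by simp [pw])
    · exact Or.inr (Or.inl (Or.inr ⟨q, h, Or.inr rfl⟩))
    · exact Or.inr (Or.inr ⟨_, Or.inr ⟨q, h, Or.inl rfl⟩, rfl⟩)
  | cons a x ih =>
    rintro _ ⟨y1, y2, h1, h2, rfl⟩
    rcases h1 with rfl | ⟨q, q', m, h, rfl | rfl⟩ | rfl | rfl
    · rcases ih h2 with rfl | h3 | ⟨y', h3, rfl⟩
      · exact Or.inl (by rw [← pw_add, length_cons]; congr 1; ring)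
      · refine Or.inr (Or.inl ⟨_, _, Or.inr (Or.inl ⟨_, _, _, W.loop a, Or.inl rfl⟩), h3, ?_⟩)
        rw [t, pw_add, ← W.uv W.z]
        simp
      · exact Or.inr (Or.inl ⟨_, _, Or.inr (Or.inr (Or.inl rfl)), h3, by simp⟩)
    · exact Or.inr (Or.inl ⟨_, _, Or.inr (Or.inl ⟨_, _, _, h, Or.inr rfl⟩), h2, by simp⟩)
    · exact Or.inr (Or.inr ⟨_, ⟨_, _, Or.inr (Or.inl ⟨_, _, _, h, Or.inl rfl⟩), h2, rfl⟩, by simp⟩)
    · exact Or.inr (Or.inr ⟨_, ⟨_, _, Or.inr (Or.inr (Or.inr rfl)), h2, rfl⟩, by simp⟩)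
    · exact Or.inr (Or.inl ⟨_, _, Or.inr (Or.inr (Or.inl rfl)), h2, by simp⟩)

theorem acc_G {x : List Γ} : ∀ {q m}, W.Acc q x m →
    ∃ y, W.G x y ∧ W.u q ++ y = pw W.S (m + x.length + 1) := by
  induction x with
  | nil =>
    rintro q m ⟨h, rfl⟩
    exact ⟨_, Or.inr ⟨q, h, Or.inl rfl⟩, W.uv q⟩
  | cons a x ih =>
    rintro q m ⟨q', m1, m2, h1, h2, rfl⟩
    obtain ⟨y, h3, h4⟩ := ih h2
    refine ⟨_, ⟨_, _, Or.inr (Or.inl ⟨_, _, _, h1, Or.inl rfl⟩), h3, rfl⟩, ?_⟩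
    rw [t, append_assoc, h4, ← append_assoc, ← append_assoc, uv, ← pw_add, ← pw_add, length_cons]
    congr 1; ring

theorem uv_key {q q' : Q} {r : List ℕ} {N : ℕ} (h : W.u q ++ (W.v q' ++ r) = pw W.S N) :
    q = q' ∧ ∃ N', N = N' + 1 ∧ r = pw W.S N' := by
  simp only [u, v, ← append_assoc, ← replicate_add] at h
  rw [append_assoc, singleton_append] at h
  obtain ⟨h1, h2⟩ := key h
  have := W.pos_le q'
  exact ⟨W.pos_inj (by omega), h2⟩

theorem v_key {q : Q} {r : List ℕ} {N : ℕ} (h : W.v q ++ r = pw W.S N) : False := by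
  simp only [v] at h
  rw [append_assoc, singleton_append] at h
  have := (key h).1
  omega

theorem up_key {q : Q} {r : List ℕ} {N m : ℕ} (h : W.u q ++ (pw W.S (m + 1) ++ r) = pw W.S N) :
    False := by
  simp only [u, pw, ← append_assoc, ← replicate_add] at h
  rw [append_assoc, cons_append] at h
  have := (key h).1
  omega

theorem G_acc {x : List Γ} : ∀ {q y N}, W.G x y → W.u q ++ y = pw W.S N →
    ∃ m, W.Acc q x m ∧ N = m + x.length + 1 := by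
  induction x with
  | nil =>
    rintro q y N (rfl | ⟨q', h, rfl | rfl⟩) h2
    · exact (key0 (by simpa [u] using h2)).elim
    · obtain ⟨rfl, N', rfl, h3⟩ := W.uv_key (r := []) (by simpa using h2)
      cases N' with
      | zero => exact ⟨0, ⟨h, rfl⟩, rfl⟩
      | succ N' => simp [pw] at h3
    · obtain ⟨-, N', -, h3⟩ := W.uv_key h2
      exact (W.v_key (r := []) (by simpa using h3)).elim
  | cons a x ih =>
    rintro q _ N ⟨y1, y2, h1, h2, rfl⟩ h3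
    rcases h1 with rfl | ⟨q1, q', m, h, rfl | rfl⟩ | rfl | rfl
    · exact (W.up_key h3).elim
    · simp only [t, append_assoc] at h3
      obtain ⟨rfl, N', rfl, h4⟩ := W.uv_key h3
      obtain ⟨N'', rfl, h5⟩ := keyp h4
      obtain ⟨m', h6, rfl⟩ := ih h2 h5
      exact ⟨m + m', ⟨q', m, m', h, h6, rfl⟩, by simp; ring⟩
    · simp only [t, append_assoc] at h3
      obtain ⟨-, N', -, h4⟩ := W.uv_key h3
      exact (W.v_key h4).elim
    · simp only [append_assoc] at h3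
      obtain ⟨-, N', -, h4⟩ := W.uv_key h3
      obtain ⟨N'', -, h5⟩ := keyp h4
      exact (W.v_key h5).elim
    · simp only [append_assoc] at h3
      exact (W.up_key h3).elim

theorem u_bin (q : Q) : ∀ d ∈ W.u q, d ≤ 1 := by simp +contextual [u]
theorem v_bin (q : Q) : ∀ d ∈ W.v q, d ≤ 1 := by
  intro d hd
  simp only [v, mem_append, mem_replicate, mem_singleton] at hd
  omega

theorem bin_app {y y' : List ℕ} (h : ∀ d ∈ y, d ≤ 1) (h' : ∀ d ∈ y', d ≤ 1) :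
    ∀ d ∈ y ++ y', d ≤ 1 := fun d hd => (mem_append.1 hd).elim (h d) (h' d)

theorem PA_bin {a : Γ} {y : List ℕ} (h : W.PA a y) : ∀ d ∈ y, d ≤ 1 := by
  have ht : ∀ q m q', ∀ d ∈ W.t q m q', d ≤ 1 := fun q m q' =>
    bin_app (bin_app (W.v_bin _) (pw_bin _ _)) (W.u_bin _)
  rcases h with rfl | ⟨q1, q', m, h, rfl | rfl⟩ | rfl | rfl
  exacts [pw_bin _ _, ht _ _ _, bin_app (W.v_bin _) (ht _ _ _),
    bin_app (bin_app (W.v_bin _) (pw_bin _ _)) (W.v_bin _), bin_app (pw_bin _ _) (W.v_bin _)]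

theorem PC_bin {y : List ℕ} (h : W.PC y) : ∀ d ∈ y, d ≤ 1 := by
  rcases h with rfl | ⟨q, h, rfl | rfl⟩
  exacts [by simp, W.v_bin _, bin_app (W.v_bin _) (W.v_bin _)]

theorem G_bin {x : List Γ} : ∀ {y}, W.G x y → ∀ d ∈ y, d ≤ 1 := by
  induction x with
  | nil => exact fun h => W.PC_bin h
  | cons a x ih =>
    rintro _ ⟨y1, y2, h1, h2, rfl⟩
    exact bin_app (W.PA_bin h1) (ih h2)

/-! ### the rules -/

def Rule (a : ℕ) (w : List ℕ) : Prop :=
  (∃ g, a = W.cd g ∧ W.PA g w) ∨ (a = 4 ∧ ∃ y, W.PC y ∧ w = y ++ [5]) ∨ (a = 3 ∧ w = [2]) ∨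
    (a = 5 ∧ w = [4]) ∨ (a = 0 ∧ w = []) ∨ (a = 1 ∧ (w = [] ∨ ∃ g, w = [W.cd g]))

theorem rule_fin [Finite Q] [Finite Γ] {B : ℕ} (hB : ∀ q a q' m, W.δ q a q' m → m ≤ B) :
    ∃ R0 : List (ℕ × List ℕ), ∀ a w, (a, w) ∈ R0 ↔ W.Rule a w := by
  have h1 : ∀ g, {y | W.PA g y}.Finite := fun g => by
    refine (((Set.finite_range fun i : Q × Q × Fin (B + 1) => W.t i.1 i.2.2 i.2.1).union
      (Set.finite_range fun i : Q × Q × Fin (B + 1) => W.v W.z ++ W.t i.1 i.2.2 i.2.1)).union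
      (Set.toFinite {pw W.S (W.M + 1), W.v W.z ++ pw W.S (W.M + 1) ++ W.v W.z,
        pw W.S (W.M + 1) ++ W.v W.z})).subset ?_
    rintro y (rfl | ⟨q1, q', m, h, rfl | rfl⟩ | rfl | rfl)
    · simp
    · exact Or.inl (Or.inl ⟨(q1, q', ⟨m, Nat.lt_succ_of_le (hB _ _ _ _ h)⟩), rfl⟩)
    · exact Or.inl (Or.inr ⟨(q1, q', ⟨m, Nat.lt_succ_of_le (hB _ _ _ _ h)⟩), rfl⟩)
    · simp
    · simp
  have h2 : {y | W.PC y}.Finite := by
    refine (((Set.finite_range W.v).union (Set.finite_range fun q => W.v W.z ++ W.v q)).insert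
      []).subset ?_
    rintro y (rfl | ⟨q, h, rfl | rfl⟩) <;> simp
  have h3 : {p : ℕ × List ℕ | W.Rule p.1 p.2}.Finite := by
    refine (((Set.finite_iUnion fun g => (h1 g).image fun y => (W.cd g, y)).union
      (h2.image fun y => (4, y ++ [5]))).union ((Set.finite_range fun g => (1, [W.cd g])).union
      (Set.toFinite {(3, [2]), (5, [4]), (0, []), (1, [])}))).subset ?_
    rintro ⟨a, w⟩ (⟨g, h, h'⟩ | ⟨h, y, h', h''⟩ | ⟨h, h'⟩ | ⟨h, h'⟩ | ⟨h, h'⟩ | ⟨h, h' | ⟨g, h'⟩⟩) <;>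
      simp only at h h' <;> subst h
    · exact Or.inl (Or.inl (Set.mem_iUnion.2 ⟨g, _, h', rfl⟩))
    · exact Or.inl (Or.inr ⟨y, h', by simp only at h''; rw [h'']⟩)
    all_goals subst h'; simp
  exact ⟨h3.toFinset.toList, fun a w => by simp⟩

variable {W}

theorem rule_cd {g : Γ} {w : List ℕ} : W.Rule (W.cd g) w ↔ W.PA g w := by
  have := W.cd_ge g
  refine ⟨?_, fun h => Or.inl ⟨g, rfl, h⟩⟩
  rintro (⟨g', h, h'⟩ | ⟨h, -⟩ | ⟨h, -⟩ | ⟨h, -⟩ | ⟨h, -⟩ | ⟨h, -⟩)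
  · rwa [W.cd_inj h]
  all_goals omega

theorem rule_small {a : ℕ} (ha : a < 6) {w : List ℕ} : W.Rule a w ↔
    (a = 4 ∧ ∃ y, W.PC y ∧ w = y ++ [5]) ∨ (a = 3 ∧ w = [2]) ∨
    (a = 5 ∧ w = [4]) ∨ (a = 0 ∧ w = []) ∨ (a = 1 ∧ (w = [] ∨ ∃ g, w = [W.cd g])) := by
  refine ⟨?_, Or.inr⟩
  rintro (⟨g', h, h'⟩ | h)
  · have := W.cd_ge g'
    omega
  · exact h

theorem stepG (hR : ∀ a w, a ≠ 2 → ((a, w) ∈ R ↔ W.Rule a w)) {x : List Γ} :
    ∀ {v}, Step R (x.map W.cd ++ [4]) v ↔ ∃ y, W.G x y ∧ v = y ++ [5] := by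
  induction x with
  | nil =>
    intro v
    simp [step_cons, hR 4, rule_small (a := 4), G]
  | cons a x ih =>
    intro v
    have := W.cd_ge a
    rw [map_cons, cons_append, step_cons]
    simp only [hR (W.cd a) _ (by omega), rule_cd, ih, G]
    constructor
    · rintro ⟨w, _, h1, ⟨y, h2, rfl⟩, rfl⟩
      exact ⟨_, ⟨_, _, h1, h2, rfl⟩, by simp⟩
    · rintro ⟨_, ⟨w, y, h1, h2, rfl⟩, rfl⟩
      exact ⟨_, _, h1, ⟨_, h2, rfl⟩, by simp⟩

theorem stepD (hR : ∀ a w, a ≠ 2 → ((a, w) ∈ R ↔ W.Rule a w)) {y : List ℕ}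
    (hy : ∀ d ∈ y, d ≤ 1) :
    ∀ {v}, Step R (y ++ [5]) v ↔ ∃ x : List Γ, x.length ≤ y.count 1 ∧ v = x.map W.cd ++ [4] := by
  induction y with
  | nil =>
    intro v
    simp [step_cons, hR 5, rule_small (a := 5)]
  | cons d y ih =>
    intro v
    have h0 := hy d mem_cons_self
    rw [cons_append, step_cons]
    simp only [hR d _ (by omega), rule_small (a := d) (by omega),
      ih fun e he => hy e (mem_cons_of_mem _ he)]
    obtain rfl | rfl : d = 0 ∨ d = 1 := by omega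
    · simp
    · simp only [count_cons_self]
      constructor
      · rintro ⟨w, _, h1, ⟨x, h2, rfl⟩, rfl⟩
        simp only [OfNat.one_ne_ofNat, false_and, one_ne_zero, true_and, false_or] at h1
        rcases h1 with rfl | ⟨g, rfl⟩
        · exact ⟨x, by omega, rfl⟩
        · exact ⟨g :: x, by simpa using h2, rfl⟩
      · rintro ⟨x, h2, rfl⟩
        cases x with
        | nil => exact ⟨[], _, by simp, ⟨[], by simp, rfl⟩, rfl⟩
        | cons g x => exact ⟨[W.cd g], _, by simp, ⟨x, by simpa using h2, rfl⟩, rfl⟩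

variable (W)

def PB (A : ℕ) (ι : Q → ℕ) (y : List ℕ) : Prop :=
  y = pw W.S (A + 1) ++ W.v W.z ∨ ∃ q m, m < ι q ∧ y = pw W.S m ++ W.u q

def Univ (A : ℕ) (ι : Q → ℕ) : Prop :=
  ∀ x, ∃ q m0 m, m0 < ι q ∧ W.Acc q x m ∧ m0 + m = A + x.length * W.M

theorem PB_bin {A : ℕ} {ι : Q → ℕ} {y : List ℕ} (h : W.PB A ι y) : ∀ d ∈ y, d ≤ 1 := by
  rcases h with rfl | ⟨q, m, -, rfl⟩
  exacts [bin_app (pw_bin _ _) (W.v_bin _), bin_app (pw_bin _ _) (W.u_bin _)]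

variable {W}

theorem tot_rules (hR : ∀ a w, a ≠ 2 → ((a, w) ∈ R ↔ W.Rule a w))
    (h2 : ∀ w, (2, w) ∈ R → ∃ y, (∀ d ∈ y, d ≤ 1) ∧ w = 3 :: y) (h2' : ∃ w, (2, w) ∈ R) :
    Tot R [2, 4] ∧ ∀ p ∈ R, Tot R p.2 := by
  have hs : ∀ a < 6, ∃ w, (a, w) ∈ R := fun a ha => by
    by_cases h : a = 2
    · exact h ▸ h2'
    · simp only [hR a _ h, rule_small ha]
      interval_cases a
      · exact ⟨[], by simp⟩
      · exact ⟨[], by simp⟩
      · exact (h rfl).elim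
      · exact ⟨[2], by simp⟩
      · exact ⟨[5], Or.inl ⟨rfl, [], Or.inl rfl, rfl⟩⟩
      · exact ⟨[4], by simp⟩
  have hb : ∀ y : List ℕ, (∀ d ∈ y, d ≤ 1) → Tot R y := fun y hy a ha =>
    hs a (by have := hy a ha; omega)
  refine ⟨fun a ha => hs a (by simp at ha; omega), ?_⟩
  rintro ⟨a, w⟩ hp
  by_cases h : a = 2
  · subst h
    obtain ⟨y, h3, rfl⟩ := h2 w hp
    intro b hb'
    rcases mem_cons.1 hb' with rfl | h4
    exacts [hs _ (by omega), hb y h3 b h4]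
  · rcases (hR a w h).1 hp with ⟨g, -, h'⟩ | ⟨-, y, h', rfl⟩ | ⟨-, rfl⟩ | ⟨-, rfl⟩ | ⟨-, rfl⟩ |
      ⟨-, rfl | ⟨g, rfl⟩⟩
    · exact hb w (W.PA_bin h')
    · intro b hb'
      rcases mem_append.1 hb' with h4 | h4
      exacts [hb y (W.PC_bin h') b h4, hs b (by simp at h4; omega)]
    · exact fun b hb' => hs b (by simp at hb'; omega)
    · exact fun b hb' => hs b (by simp at hb'; omega)
    · exact hb _ (by simp)
    · exact hb _ (by simp)
    · intro b hb'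
      have := W.cd_ge g
      rw [mem_singleton.1 hb']
      exact ⟨_, (hR _ _ (by omega)).2 (rule_cd.2 (Or.inl rfl))⟩

theorem seqs_iff {A : ℕ} {ι : Q → ℕ} (hz : A < ι W.z)
    (hR : ∀ a w, a ≠ 2 → ((a, w) ∈ R ↔ W.Rule a w))
    (h2 : ∀ w, (2, w) ∈ R ↔ ∃ y, W.PB A ι y ∧ w = 3 :: y) :
    Seqs R [2, 4] = Seqs ((2, 3 :: pw W.S (A + 1)) :: R) [2, 4] ↔ W.Univ A ι := by
  set R' := (2, 3 :: pw W.S (A + 1)) :: R with hR'
  have hR2 : ∀ a w, a ≠ 2 → ((a, w) ∈ R' ↔ W.Rule a w) := fun a w ha => by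
    simp [hR', ha, hR a w ha]
  have hsub : ∀ p ∈ R, p ∈ R' := fun p hp => mem_cons_of_mem _ hp
  have hb : ∀ w, (2, w) ∈ R' → ∃ y, (∀ d ∈ y, d ≤ 1) ∧ w = 3 :: y := fun w hw => by
    rcases mem_cons.1 hw with h | h
    · exact ⟨_, pw_bin _ _, (Prod.mk.inj h).2⟩
    · obtain ⟨y, h3, rfl⟩ := (h2 w).1 h
      exact ⟨y, W.PB_bin h3, rfl⟩
  constructor
  · intro h x
    have hr : ∀ x : List Γ, Relation.ReflTransGen (Step R') [2, 4] (2 :: (x.map W.cd ++ [4])) := by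
      intro x
      induction x with
      | nil => exact .refl
      | cons g x ih =>
        refine (ih.tail (step_cons.2 ⟨_, _, mem_cons_self,
          (stepG hR2).2 ⟨_, W.G_neutral x, rfl⟩, rfl⟩)).tail ?_
        rw [cons_append, ← append_assoc, ← pw_add]
        refine step_cons.2 ⟨[2], _, (hR2 _ _ (by omega)).2 ((rule_small (by omega)).2 (by simp)),
          (stepD hR2 (pw_bin _ _)).2 ⟨g :: x, ?_, rfl⟩, rfl⟩
        rw [pw_count, length_cons]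
        nlinarith
    obtain ⟨s, hs, k, h3, h4⟩ := seq_through (tot_rules hR2 hb ⟨_, mem_cons_self⟩).2 (hr x)
      (step_cons.2 ⟨_, _, mem_cons_self, (stepG hR2).2 ⟨_, W.G_neutral x, rfl⟩, rfl⟩)
    have h5 := (h ▸ hs : s ∈ Seqs R [2, 4]).2 k
    rw [h3, h4] at h5
    obtain ⟨_, _, h6, h7, h8⟩ := step_cons.1 h5
    obtain ⟨y0, h9, rfl⟩ := (h2 _).1 h6
    obtain ⟨y, h10, rfl⟩ := (stepG hR).1 h7
    rw [cons_append, cons_append, ← append_assoc, ← append_assoc, ← pw_add] at h8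
    have h11 := (append_cancel_right (cons.inj h8).2).symm
    rcases h9 with rfl | ⟨q, m0, h9, rfl⟩ <;> rw [append_assoc] at h11 <;>
      obtain ⟨N, h12, h13⟩ := keyp h11
    · exact (W.v_key h13).elim
    · obtain ⟨m, h14, rfl⟩ := W.G_acc h10 h13
      exact ⟨q, m0, m, h9, h14, by nlinarith⟩
  · intro h
    let Inv : List ℕ → Prop := fun u => (∃ x : List Γ, u = 2 :: (x.map W.cd ++ [4])) ∨
      ∃ y : List ℕ, (∀ d ∈ y, d ≤ 1) ∧ u = 3 :: (y ++ [5])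
    have hI : ∀ u v, Inv u → Step R' u v → Inv v ∧ Step R u v := by
      rintro _ v (⟨x, rfl⟩ | ⟨y, hy, rfl⟩) hs <;> obtain ⟨w, _, h3, h4, rfl⟩ := step_cons.1 hs
      · obtain ⟨y, h5, rfl⟩ := (stepG hR2).1 h4
        obtain ⟨y0, h6, rfl⟩ := hb w h3
        refine ⟨Or.inr ⟨y0 ++ y, bin_app h6 (W.G_bin h5), by simp⟩, ?_⟩
        have hk : ∀ y0' y', W.PB A ι y0' → W.G x y' → y0' ++ y' = y0 ++ y →
            Step R (2 :: (x.map W.cd ++ [4])) (3 :: y0 ++ (y ++ [5])) := fun y0' y' h7 h8 h9 =>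
          step_cons.2 ⟨_, _, (h2 _).2 ⟨y0', h7, rfl⟩, (stepG hR).2 ⟨y', h8, rfl⟩, by
            rw [cons_append, cons_append, ← append_assoc, ← append_assoc, h9]⟩
        rcases mem_cons.1 h3 with h7 | h7
        · obtain rfl := (cons.inj (Prod.mk.inj h7).2).2
          rcases W.cover h5 with rfl | h8 | ⟨y', h8, rfl⟩
          · obtain ⟨q, m0, m, h8, h9, h10⟩ := h x
            obtain ⟨y', h11, h12⟩ := W.acc_G h9
            refine hk _ y' (Or.inr ⟨q, m0, h8, rfl⟩) h11 ?_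
            rw [append_assoc, h12, ← pw_add, ← pw_add]
            congr 1; nlinarith
          · refine hk _ _ (Or.inr ⟨_, _, hz, rfl⟩) h8 ?_
            rw [pw_add, ← W.uv W.z]
            simp
          · exact hk _ _ (Or.inl rfl) h8 (by simp)
        · obtain ⟨y0', h8, h9⟩ := (h2 _).1 h7
          exact hk _ _ h8 h5 (by rw [(cons.inj h9).2])
      · obtain ⟨x, h5, rfl⟩ := (stepD hR2 hy).1 h4
        have h6 := (rule_small (by omega)).1 ((hR2 _ _ (by omega)).1 h3)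
        obtain rfl : w = [2] := by simpa using h6
        exact ⟨Or.inl ⟨x, rfl⟩, step_cons.2 ⟨_, _, (hR _ _ (by omega)).2 ((hR2 _ _ (by omega)).1 h3),
          (stepD hR hy).2 ⟨x, h5, rfl⟩, rfl⟩⟩
    ext s
    refine ⟨fun hs => ⟨hs.1, fun n => (hs.2 n).mono hsub⟩, fun hs => ⟨hs.1, fun n => ?_⟩⟩
    have : ∀ n, Inv (s n) := fun n => by
      induction n with
      | zero => exact Or.inl ⟨[], hs.1⟩
      | succ n ih => exact (hI _ _ ih (hs.2 n)).1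
    exact (hI _ _ (this n) (hs.2 n)).2

end WA

def Dec : Prop :=
  ∃ f : (List (ℕ × List ℕ) × List ℕ) × (List (ℕ × List ℕ) × List ℕ) → Bool,
      Computable f ∧
      ∀ (R₁ : List (ℕ × List ℕ)) (ω₁ : List ℕ) (R₂ : List (ℕ × List ℕ)) (ω₂ : List ℕ),
        (∀ a : ℕ, (a ∈ ω₁ ∨ ∃ p ∈ R₁, a ∈ p.2) → ∃ w : List ℕ, (a, w) ∈ R₁) →
        (∀ a : ℕ, (a ∈ ω₂ ∨ ∃ p ∈ R₂, a ∈ p.2) → ∃ w : List ℕ, (a, w) ∈ R₂) →
        (f ((R₁, ω₁), (R₂, ω₂)) = true ↔ Seqs R₁ ω₁ = Seqs R₂ ω₂)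

theorem ci_flat {ι β : Type} [Primcodable β] (l : List ι) (g : ℕ → ι → List β)
    (hg : ∀ i, CI ∅ fun n => g n i) : CI ∅ fun n => l.flatMap (g n) := by
  induction l with
  | nil => exact CI.const []
  | cons i l ih => exact ((hg i).append ih).of_eq fun n => by simp

theorem univ_dec {Q Γ : Type} [Finite Q] [Finite Γ] (W : WA Q Γ) {B : ℕ}
    (hB : ∀ q a q' m, W.δ q a q' m → m ≤ B) (A : ℕ → ℕ) (ι : ℕ → Q → ℕ) (hA : CI ∅ A)
    (hι : ∀ q, CI ∅ fun n => ι n q) (hz : ∀ n, A n < ι n W.z) (h : Dec) :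
    ComputablePred fun n => W.Univ (A n) (ι n) := by
  obtain ⟨f, hf, h⟩ := h
  obtain ⟨R0, hR0⟩ := W.rule_fin hB
  have := Fintype.ofFinite Q
  have hp := ci_pw W.S
  let R : ℕ → List (ℕ × List ℕ) := fun n => (2, 3 :: (pw W.S (A n + 1) ++ W.v W.z)) ::
    ((Finset.univ : Finset Q).toList.flatMap fun q =>
      (range (ι n q)).map fun m => (2, 3 :: (pw W.S m ++ W.u q))) ++ R0
  have hR : CI ∅ R := by
    refine CI.append (CI.cons (by fun_prop) (ci_flat _ _ fun q => ?_)) (CI.const _)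
    have := hι q
    fun_prop
  have h1 : ∀ n a w, a ≠ 2 → ((a, w) ∈ R n ↔ W.Rule a w) := fun n a w ha => by
    simp [R, ha, hR0, ha.symm]
  have h2 : ∀ n w, (2, w) ∈ R n ↔ ∃ y, W.PB (A n) (ι n) y ∧ w = 3 :: y := fun n w => by
    simp only [R, cons_append, mem_cons, Prod.mk.injEq, true_and, mem_append, mem_flatMap,
      Finset.mem_toList, Finset.mem_univ, mem_map, mem_range, hR0, WA.rule_small (show 2 < 6 by omega),
      WA.PB]
    constructor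
    · rintro (rfl | ⟨q, m, h3, rfl⟩ | h3)
      · exact ⟨_, Or.inl rfl, rfl⟩
      · exact ⟨_, Or.inr ⟨q, m, h3, rfl⟩, rfl⟩
      · simp at h3
    · rintro ⟨_, rfl | ⟨q, m, h3, rfl⟩, rfl⟩
      · exact Or.inl rfl
      · exact Or.inr (Or.inl ⟨q, m, h3, rfl⟩)
  refine computablePred_of
    (fun n => f ((R n, [2, 4]), ((2, 3 :: pw W.S (A n + 1)) :: R n, [2, 4])))
    (CI.comp1 hf (by fun_prop)) fun n => ?_
  have hb : ∀ w, (2, w) ∈ R n → ∃ y, (∀ d ∈ y, d ≤ 1) ∧ w = 3 :: y := fun w hw => by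
    obtain ⟨y, h3, rfl⟩ := (h2 n w).1 hw
    exact ⟨y, W.PB_bin h3, rfl⟩
  have t1 := WA.tot_rules (h1 n) hb ⟨_, (h2 n _).2 ⟨_, Or.inl rfl, rfl⟩⟩
  have t2 := WA.tot_rules (W := W) (R := (2, 3 :: pw W.S (A n + 1)) :: R n)
    (fun a w ha => by simp [ha, h1 n a w ha]) (fun w hw => by
      rcases mem_cons.1 hw with h | h
      exacts [⟨_, pw_bin _ _, (Prod.mk.inj h).2⟩, hb w h]) ⟨_, mem_cons_self⟩
  rw [h _ _ _ _ (fun a ha => ha.elim (t1.1 a) fun ⟨p, h3, h4⟩ => t1.2 p h3 a h4)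
    (fun a ha => ha.elim (t2.1 a) fun ⟨p, h3, h4⟩ => t2.2 p h3 a h4)]
  exact (WA.seqs_iff (hz n) (h1 n) (h2 n)).symm

end Pool.Agent.H73.OL
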