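import Pool.Agent.H73.OL1
import Pool.Agent.H65.Dprm2

/-!
Diophantine systems reduce to universality of weighted automata.
-/

set_option autoImplicit false

namespace Pool.Agent.H73.OL

open Pool.Agent.H37 List Pool.Agent.H65.Dprm

def sm {Γ : Type} (f : Γ → ℤ) (x : List Γ) : ℤ := (x.map f).sum

@[simp] theorem sm_nil {Γ : Type} (f : Γ → ℤ) : sm f [] = 0 := rfl
@[simp] theorem sm_cons {Γ : Type} (f : Γ → ℤ) (a : Γ) (x : List Γ) :
    sm f (a :: x) = f a + sm f x := by simp [sm]
@[simp] theorem sm_append {Γ : Type} (f : Γ → ℤ) (x y : List Γ) :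
    sm f (x ++ y) = sm f x + sm f y := by simp [sm]
@[simp] theorem sm_replicate {Γ : Type} (f : Γ → ℤ) (n : ℕ) (a : Γ) :
    sm f (replicate n a) = n * f a := by simp [sm]
theorem sm_zero {Γ : Type} {f : Γ → ℤ} {x : List Γ} (h : ∀ a ∈ x, f a = 0) : sm f x = 0 := by
  induction x with
  | nil => rfl
  | cons a x ih => simp [h a mem_cons_self, ih fun b hb => h b (mem_cons_of_mem _ hb)]
theorem sm_lin {Γ : Type} (f g h : Γ → ℤ) (r s t : ℤ) (x : List Γ) :
    sm (fun a => r * f a + s * g a + t * h a) x = r * sm f x + s * sm g x + t * sm h x := by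
  induction x with
  | nil => simp
  | cons a x ih => simp [ih]; ring
theorem sm_mul {Γ : Type} (f : Γ → ℤ) (r : ℤ) (x : List Γ) :
    sm (fun a => r * f a) x = r * sm f x := by
  induction x with
  | nil => simp
  | cons a x ih => simp [ih]; ring

theorem sum_toNat {Γ : Type} (f g : Γ → ℤ) (M : ℕ) (h : ∀ a, 0 ≤ M + f a + g a) (x : List Γ) :
    ((x.map fun a => (M + f a + g a).toNat).sum : ℕ) = (x.length * M + sm f x + sm g x : ℤ) := by
  induction x with
  | nil => simp
  | cons a x ih =>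
    rw [map_cons, sum_cons, Nat.cast_add, ih, Int.toNat_of_nonneg (h a)]
    simp; ring

theorem ineq_dec {T Γ : Type} [Finite T] [Finite Γ] (lam mu : T → Γ → ℤ) (c0 c1 : T → ℤ)
    (glob : T → Prop) (loc : T → Γ → Prop) (h : Dec) :
    ComputablePred fun n : ℕ => ∀ x : List Γ, ∃ τ, (glob τ ∧ 1 ≤ c0 τ + c1 τ * n + sm (mu τ) x) ∨
      ∃ u g v, x = u ++ g :: v ∧ loc τ g ∧ 1 ≤ c0 τ + c1 τ * n + sm (lam τ) u + sm (mu τ) x := by
  classical
  obtain ⟨M, hM⟩ := (Set.finite_range fun p : T × Γ =>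
    (lam p.1 p.2).natAbs + (mu p.1 p.2).natAbs).bddAbove
  replace hM : ∀ τ a, (lam τ a).natAbs + (mu τ a).natAbs ≤ M := fun τ a => hM ⟨(τ, a), rfl⟩
  obtain ⟨C, hC⟩ := (Set.finite_range fun τ => (c0 τ).natAbs + (c1 τ).natAbs + 1).bddAbove
  replace hC : ∀ τ, (c0 τ).natAbs + (c1 τ).natAbs + 1 ≤ C := fun τ => hC ⟨τ, rfl⟩
  obtain ⟨pos, hpos⟩ := exists_injective_nat (Option (T × Bool))
  obtain ⟨S, hS⟩ := (Set.finite_range pos).bddAbove
  obtain ⟨cd, hcd⟩ := exists_injective_nat Γ
  let w0 : T → Γ → ℕ := fun τ a => (M + lam τ a + mu τ a).toNat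
  let w1 : T → Γ → ℕ := fun τ a => (M + 0 + mu τ a).toNat
  let W : WA (Option (T × Bool)) Γ :=
    { δ := fun q a q' m => (q = none ∧ q' = none ∧ m = M) ∨ ∃ τ,
        (q = some (τ, false) ∧ q' = some (τ, false) ∧ m ≤ w0 τ a) ∨
        ((q = some (τ, true) ∨ q = some (τ, false) ∧ loc τ a) ∧ q' = some (τ, true) ∧ m ≤ w1 τ a)
      F := fun q => ∃ τ, q = some (τ, true)
      M := M, z := none, S := S, pos := pos, cd := fun a => cd a + 6
      pos_inj := hpos, pos_le := fun q => hS ⟨q, rfl⟩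
      cd_inj := fun a b h => hcd (by simpa using h), cd_ge := fun a => by omega
      loop := fun a => Or.inl ⟨rfl, rfl, rfl⟩ }
  have a0 : ∀ x m, ¬ W.Acc none x m := fun x => by
    induction x with
    | nil => simp [WA.Acc, W]
    | cons a x ih =>
      rintro m ⟨q', m1, m2, h1, h2, -⟩
      simp only [W, true_and, reduceCtorEq, false_and, or_self, exists_false, or_false] at h1
      exact ih _ (h1.1 ▸ h2)
  have a1 : ∀ τ x m, W.Acc (some (τ, true)) x m ↔ m ≤ (x.map (w1 τ)).sum := fun τ x => by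
    induction x with
    | nil => simp [WA.Acc, W]
    | cons a x ih =>
      intro m
      rw [map_cons, sum_cons]
      constructor
      · rintro ⟨q', m1, m2, h1, h2, rfl⟩
        simp [W] at h1
        have := (ih _).1 (h1.1 ▸ h2)
        omega
      · intro h1
        exact ⟨some (τ, true), min m (w1 τ a), m - w1 τ a, by simp [W], (ih _).2 (by omega),
          by omega⟩
  have a2 : ∀ τ x m, W.Acc (some (τ, false)) x m ↔ ∃ u g v, x = u ++ g :: v ∧ loc τ g ∧
      m ≤ (u.map (w0 τ)).sum + ((g :: v).map (w1 τ)).sum := fun τ x => by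
    induction x with
    | nil => simp [WA.Acc, W]
    | cons a x ih =>
      intro m
      constructor
      · rintro ⟨q', m1, m2, h1, h2, rfl⟩
        simp only [W, reduceCtorEq, false_and, Option.some.injEq, Prod.mk.injEq, and_true,
          Bool.false_eq_true, and_false, false_or] at h1
        obtain ⟨τ', ⟨rfl, rfl, h3⟩ | ⟨⟨rfl, h4⟩, rfl, h3⟩⟩ := h1
        · obtain ⟨u, g, v, rfl, h4, h5⟩ := (ih _).1 h2
          exact ⟨a :: u, g, v, rfl, h4, by rw [map_cons, sum_cons]; omega⟩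
        · have := (a1 _ _ _).1 h2
          exact ⟨[], a, x, rfl, h4, by rw [map_cons, sum_cons]; omega⟩
      · rintro ⟨u, g, v, h1, h2, h3⟩
        cases u with
        | nil =>
          obtain ⟨rfl, rfl⟩ := cons.inj h1
          simp only [map_nil, sum_nil, map_cons, sum_cons] at h3
          exact ⟨some (τ, true), min m (w1 τ a), m - w1 τ a, by simp [W, h2],
            (a1 _ _ _).2 (by omega), by omega⟩
        | cons b u =>
          obtain ⟨rfl, rfl⟩ := cons.inj h1
          rw [map_cons, sum_cons] at h3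
          exact ⟨some (τ, false), min m (w0 τ a), m - w0 τ a, by simp [W],
            (ih _).2 ⟨u, g, v, rfl, h2, by omega⟩, by omega⟩
  let ι : ℕ → Option (T × Bool) → ℕ := fun n q => q.elim (C + C * n + 1) fun p =>
    if p.2 = true → glob p.1 then (C + c0 p.1).toNat + (C + c1 p.1).toNat * n else 0
  have hι : ∀ n τ b m, m < ι n (some (τ, b)) ↔ (b = true → glob τ) ∧
      (m : ℤ) < C + C * n + (c0 τ + c1 τ * n) := fun n τ b m => by
    have := hC τ
    simp only [ι, Option.elim_some]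
    split_ifs with h1
    · rw [and_iff_right h1, ← Nat.cast_lt (α := ℤ)]
      push_cast
      rw [Int.toNat_of_nonneg (by omega), Int.toNat_of_nonneg (by omega)]
      constructor <;> intro <;> linarith
    · simp [h1]
  have hpos : ∀ (n : ℕ) τ, (0 : ℤ) < C + C * n + (c0 τ + c1 τ * n) := fun n τ => by
    have := hC τ
    have h1 : (0 : ℤ) ≤ (C + c1 τ) * n := mul_nonneg (by omega) (by omega)
    have h2 : (0 : ℤ) < C + c0 τ := by omega
    linarith
  have s0 : ∀ τ x, _ := fun τ => sum_toNat (lam τ) (mu τ) M fun a => by have := hM τ a; omega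
  have s1 : ∀ τ x, _ := fun τ => sum_toNat (fun _ => 0) (mu τ) M fun a => by have := hM τ a; omega
  have split : ∀ (K X : ℕ) (Y : ℤ), 0 < Y → (K : ℤ) < Y + X →
      ∃ m0 m : ℕ, (m0 : ℤ) < Y ∧ m ≤ X ∧ m0 + m = K := fun K X Y h1 h2 =>
    ⟨K - X, min K X, by omega, by omega, by omega⟩
  refine (univ_dec W (B := 2 * M) ?_ (fun n => C + C * n) ι (by fun_prop) ?_
    (fun n => Nat.lt_succ_self _) h).of_eq fun n => forall_congr' fun x => ?_
  · rintro q a q' m (⟨-, -, rfl⟩ | ⟨τ, ⟨-, -, h1⟩ | ⟨-, -, h1⟩⟩)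
    · omega
    all_goals have := hM τ a; simp only [w0, w1] at h1; omega
  · rintro (_ | ⟨τ, b⟩) <;> simp only [ι, Option.elim_none, Option.elim_some]
    · fun_prop
    · split_ifs <;> fun_prop
  · change (∃ q m0 m, m0 < ι n q ∧ W.Acc q x m ∧ m0 + m = C + C * n + x.length * M) ↔ _
    constructor
    · rintro ⟨_ | ⟨τ, _ | _⟩, m0, m, h1, h2, h3⟩
      · exact (a0 _ _ h2).elim
      · obtain ⟨u, g, v, rfl, h4, h5⟩ := (a2 _ _ _).1 h2
        refine ⟨τ, Or.inr ⟨u, g, v, rfl, h4, ?_⟩⟩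
        have h6 := ((hι _ _ _ _).1 h1).2
        have h7 := s0 τ u
        have h8 := s1 τ (g :: v)
        rw [sm_zero (f := fun _ => 0) (by simp)] at h8
        zify at h3 h5
        simp only [w0, w1] at h5
        rw [sm_append]
        rw [length_append] at h3
        push_cast at h3 h5 h7 h8
        linarith
      · have h5 := (a1 _ _ _).1 h2
        have h6 := (hι _ _ _ _).1 h1
        refine ⟨τ, Or.inl ⟨h6.1 rfl, ?_⟩⟩
        have h8 := s1 τ x
        rw [sm_zero (f := fun _ => 0) (by simp)] at h8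
        zify at h3 h5
        simp only [w1] at h5
        push_cast at h3 h5 h8
        linarith [h6.2]
    · rintro ⟨τ, ⟨h1, h2⟩ | ⟨u, g, v, rfl, h1, h2⟩⟩
      · have h8 := s1 τ x
        rw [sm_zero (f := fun _ => 0) (by simp)] at h8
        obtain ⟨m0, m, h3, h4, h5⟩ := split (C + C * n + x.length * M) (x.map (w1 τ)).sum _
          (hpos n τ) (by simp only [w1]; rw [h8]; push_cast; linarith)
        exact ⟨some (τ, true), m0, m, (hι _ _ _ _).2 ⟨fun _ => h1, h3⟩, (a1 _ _ _).2 h4, h5⟩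
      · have h7 := s0 τ u
        have h8 := s1 τ (g :: v)
        rw [sm_zero (f := fun _ => 0) (by simp)] at h8
        obtain ⟨m0, m, h3, h4, h5⟩ := split (C + C * n + (u ++ g :: v).length * M)
          ((u.map (w0 τ)).sum + ((g :: v).map (w1 τ)).sum) _ (hpos n τ) (by
            simp only [w0, w1]
            rw [Nat.cast_add (u.map _).sum, h7, h8, length_append]
            rw [sm_append] at h2
            push_cast; linarith)
        exact ⟨some (τ, false), m0, m, (hι _ _ _ _).2 ⟨by simp, h3⟩,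
          (a2 _ _ _).2 ⟨u, g, v, rfl, h1, h4⟩, h5⟩

theorem eq_dec {T Γ : Type} [Finite T] [Finite Γ] (lam mu : T → Γ → ℤ) (c0 c1 : T → ℤ)
    (glob : T → Prop) (loc : T → Γ → Prop) (h : Dec) :
    ComputablePred fun n : ℕ => ∃ x : List Γ, ∀ τ, (glob τ → c0 τ + c1 τ * n + sm (mu τ) x = 0) ∧
      ∀ u g v, x = u ++ g :: v → loc τ g → c0 τ + c1 τ * n + sm (lam τ) u + sm (mu τ) x = 0 := by
  let sg : Bool → ℤ := fun b => cond b 1 (-1)
  refine (ineq_dec (T := T × Bool) (fun p a => sg p.2 * lam p.1 a) (fun p a => sg p.2 * mu p.1 a)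
    (fun p => sg p.2 * c0 p.1) (fun p => sg p.2 * c1 p.1) (fun p => glob p.1) (fun p => loc p.1)
    h).not.of_eq fun n => ?_
  simp only [sm_mul, not_forall, not_exists, not_or, not_and, Prod.forall, Bool.forall_bool, sg,
    cond_true, cond_false]
  refine exists_congr fun x => forall_congr' fun τ => ⟨fun ⟨⟨h1, h2⟩, h3, h4⟩ =>
    ⟨fun hg => ?_, fun u g v h5 h6 => ?_⟩, fun ⟨h1, h2⟩ => ⟨⟨fun hg => ?_, fun u g v h5 h6 => ?_⟩,
      fun hg => ?_, fun u g v h5 h6 => ?_⟩⟩
  · have := h1 hg; have := h3 hg; linarith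
  · have := h2 u g v h5 h6; have := h4 u g v h5 h6; linarith
  · have := h1 hg; linarith
  · have := h2 u g v h5 h6; linarith
  · have := h1 hg; linarith
  · have := h2 u g v h5 h6; linarith

end Pool.Agent.H73.OL
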