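import Pool.Agent.H73.OL2

/-!
Sequence equivalence of OL systems is undecidable.
-/

set_option autoImplicit false

namespace Pool.Agent.H73.OL

open Pool.Agent.H37 List Pool.Agent.H65.Dprm

theorem sm_add {Γ : Type} (f g : Γ → ℤ) (x : List Γ) :
    sm (fun a => f a + g a) x = sm f x + sm g x := by
  induction x with
  | nil => simp
  | cons a x ih => simp [ih]; ring
theorem sm_sub {Γ : Type} (f g : Γ → ℤ) (x : List Γ) :
    sm (fun a => f a - g a) x = sm f x - sm g x := by
  induction x with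
  | nil => simp
  | cons a x ih => simp [ih]; ring

abbrev Gam (N L : ℕ) : Type := (Fin N × Bool) ⊕ (Fin L × Fin 7)

variable {N L : ℕ}

def X (j : ℕ) : Gam N L → ℤ :=
  Sum.elim (fun p => if p.1.val = j then cond p.2 1 (-1) else 0) fun _ => 0
def ctr (c : Fin 7 → ℤ) (q : Fin L) : Gam N L → ℤ :=
  Sum.elim (fun _ => 0) fun p => if p.1 = q then c p.2 else 0

def tc : Fin 7 → ℤ := ![1, -1, 0, 1, -1, 0, 0]
def pc : Fin 7 → ℤ := ![0, 0, 0, 1, -1, 0, 0]
def ac : Fin 7 → ℤ := ![0, 0, 0, 0, 0, 1, -1]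
def hc : Fin 7 → ℤ := ![0, 0, 1, 0, 0, -1, -1]
def hv : Fin 7 → ℤ := ![0, 0, 0, 1, 1, 1, 1]
def tb : Fin 7 → ℤ := ![0, 0, 1, 0, 0, 1, 1]
def xb : Fin 7 → ℤ := ![0, 0, 0, 0, 0, -1, 1]

def Ok (q : Fin L) (b : ℤ) : ℤ → ℤ → List (Gam N L) → Prop
  | _, _, [] => True
  | h, t, g :: w => (∀ k, g = .inr (q, k) → h = hv k ∧ tb k * t + xb k * b = 0) ∧
      Ok q b (h + ctr hc q g) (t + ctr tc q g) w

variable {q : Fin L} {b : ℤ}

theorem ok_iff {x : List (Gam N L)} : ∀ {h t}, Ok q b h t x ↔ ∀ u g v, x = u ++ g :: v →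
    ∀ k, g = .inr (q, k) → h + sm (ctr hc q) u = hv k ∧
      tb k * (t + sm (ctr tc q) u) + xb k * b = 0 := by
  induction x with
  | nil => simp [Ok]
  | cons a x ih =>
    intro h t
    rw [Ok, ih]
    constructor
    · rintro ⟨h1, h2⟩ u g v h3 k hk
      cases u with
      | nil =>
        obtain ⟨rfl, rfl⟩ := cons.inj h3
        simpa using h1 k hk
      | cons c u =>
        obtain ⟨rfl, rfl⟩ := cons.inj h3
        simpa [add_assoc] using h2 u g v rfl k hk
    · intro h1
      exact ⟨fun k hk => by simpa using h1 [] a x rfl k hk, fun u g v h3 k hk => by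
        simpa [add_assoc] using h1 (a :: u) g v (by simp [h3]) k hk⟩

theorem ok_append {u v : List (Gam N L)} : ∀ {h t}, Ok q b h t u →
    Ok q b (h + sm (ctr hc q) u) (t + sm (ctr tc q) u) v → Ok q b h t (u ++ v) := by
  induction u with
  | nil => intro h t _ h2; simpa using h2
  | cons a u ih =>
    rintro h t ⟨h1, h2⟩ h3
    exact ⟨h1, ih h2 (by simpa [add_assoc] using h3)⟩

theorem ok_other {w : List (Gam N L)} (hw : ∀ g ∈ w, ∀ k, g ≠ .inr (q, k)) :
    ∀ h t, Ok q b h t w := by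
  induction w with
  | nil => simp [Ok]
  | cons a w ih =>
    exact fun h t => ⟨fun k hk => (hw a mem_cons_self k hk).elim,
      ih (fun g hg => hw g (mem_cons_of_mem _ hg)) _ _⟩

theorem sm_other {w : List (Gam N L)} (hw : ∀ g ∈ w, ∀ k, g ≠ .inr (q, k)) (c : Fin 7 → ℤ) :
    sm (ctr c q) w = 0 := sm_zero fun g hg => by
  rcases g with g | ⟨q', k⟩
  · rfl
  · exact if_neg fun h : q' = q => hw _ hg k (by rw [h])

theorem ok_inv {x : List (Gam N L)} : ∀ {h t a p : ℤ}, Ok q b h t x →
    (h = 0 ∧ p = a * b ∨ h = 1 ∧ p = a * b + t) → h + sm (ctr hc q) x = 0 →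
    p + sm (ctr pc q) x = (a + sm (ctr ac q) x) * b := by
  induction x with
  | nil =>
    rintro h t a p - (⟨-, h2⟩ | ⟨h1, -⟩) h3
    · simpa using h2
    · simp [h1] at h3
  | cons g x ih =>
    rintro h t a p ⟨h1, h2⟩ h3 h4
    simp only [sm_cons, ← add_assoc] at h4 ⊢
    refine ih h2 ?_ h4
    rcases g with g | ⟨q', k⟩
    · simpa [ctr] using h3
    · by_cases hq : q' = q
      · subst hq
        obtain ⟨h5, h6⟩ := h1 k rfl
        fin_cases k <;> simp [ctr, hv, tb, xb, hc, tc, pc, ac] at h5 h6 ⊢ <;> subst h5 <;>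
          simp at h3 ⊢ <;> linarith
      · simpa [ctr, hq] using h3

def Go (N : ℕ) (q : Fin L) (b h t h' t' d : ℤ) : Prop := ∃ w : List (Gam N L),
  (∀ g ∈ w, ∃ k, g = .inr (q, k)) ∧ Ok q b h t w ∧ h + sm (ctr hc q) w = h' ∧
    t + sm (ctr tc q) w = t' ∧ sm (ctr ac q) w = d

theorem Go.refl (h t : ℤ) : Go N q b h t h t 0 := ⟨[], by simp, trivial, by simp⟩

theorem Go.trans {h t h' t' d h'' t'' d' : ℤ} (h1 : Go N q b h t h' t' d)
    (h2 : Go N q b h' t' h'' t'' d') : Go N q b h t h'' t'' (d + d') := by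
  obtain ⟨w, h3, h4, rfl, rfl, rfl⟩ := h1
  obtain ⟨w', h5, h6, rfl, rfl, rfl⟩ := h2
  exact ⟨w ++ w', fun g hg => (mem_append.1 hg).elim (h3 g) (h5 g), ok_append h4 h6,
    by simp [add_assoc]⟩

theorem Go.one (k : Fin 7) {t : ℤ} (ht : tb k * t + xb k * b = 0) :
    Go N q b (hv k) t (hv k + hc k) (t + tc k) (ac k) :=
  ⟨[.inr (q, k)], by simp, ⟨fun k' hk => by obtain rfl : k = k' := by simpa using hk
                                            exact ⟨rfl, ht⟩, trivial⟩, by simp [ctr]⟩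

theorem Go.move {h : ℤ} (h1 : ∀ t, Go N q b h t h (t + 1) 0) (h2 : ∀ t, Go N q b h t h (t - 1) 0)
    (t t' : ℤ) : Go N q b h t h t' 0 := by
  obtain ⟨d, rfl⟩ : ∃ d, t' = t + d := ⟨t' - t, by ring⟩
  induction d using Int.induction_on with
  | zero => simpa using Go.refl h t
  | succ d ih => simpa [add_assoc] using ih.trans (h1 _)
  | pred d ih => simpa [add_sub_assoc] using ih.trans (h2 _)

theorem Go.any (t d : ℤ) : ∃ t', Go N q b 0 t 0 t' d := by
  have m0 : ∀ t t', Go N q b 0 t 0 t' 0 := Go.move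
    (fun t => by
      simpa [hv, hc, tc, ac] using Go.one (N := N) (q := q) (b := b) 0 (t := t) (by simp [tb, xb]))
    (fun t => by
      have := Go.one (N := N) (q := q) (b := b) 1 (t := t) (by simp [tb, xb])
      simpa [hv, hc, tc, ac, sub_eq_add_neg] using this)
  have m1 : ∀ t t', Go N q b 1 t 1 t' 0 := Go.move
    (fun t => by
      simpa [hv, hc, tc, ac] using Go.one (N := N) (q := q) (b := b) 3 (t := t) (by simp [tb, xb]))
    (fun t => by
      have := Go.one (N := N) (q := q) (b := b) 4 (t := t) (by simp [tb, xb])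
      simpa [hv, hc, tc, ac, sub_eq_add_neg] using this)
  have e2 : Go N q b 0 0 1 0 0 := by
    simpa [hv, hc, tc, ac] using Go.one (N := N) (q := q) (b := b) 2 (t := 0) (by simp [tb, xb])
  have e5 : Go N q b 1 b 0 b 1 := by
    simpa [hv, hc, tc, ac] using Go.one (N := N) (q := q) (b := b) 5 (t := b) (by simp [tb, xb])
  have e6 : Go N q b 1 (-b) 0 (-b) (-1) := by
    simpa [hv, hc, tc, ac] using Go.one (N := N) (q := q) (b := b) 6 (t := -b) (by simp [tb, xb])
  induction d using Int.induction_on with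
  | zero => exact ⟨t, Go.refl _ _⟩
  | succ d ih =>
    obtain ⟨t', h⟩ := ih
    exact ⟨b, by simpa using (((h.trans (m0 _ _)).trans e2).trans (m1 _ _)).trans e5⟩
  | pred d ih =>
    obtain ⟨t', h⟩ := ih
    exact ⟨-b, by simpa [sub_eq_add_neg] using (((h.trans (m0 _ _)).trans e2).trans (m1 _ _)).trans e6⟩

theorem ex_vars (y : ℕ → ℤ) (l : List (Fin N)) : ∃ x : List (Gam N L),
    (∀ g ∈ x, ∃ p, g = .inl p) ∧ ∀ v ∈ l, sm (X v.val) x = y v := by
  induction l with
  | nil => exact ⟨[], by simp⟩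
  | cons v l ih =>
    obtain ⟨x, h1, h2⟩ := ih
    refine ⟨x ++ (replicate (y v - sm (X v.val) x).toNat (.inl (v, true)) ++
      replicate (sm (X v.val) x - y v).toNat (.inl (v, false))), fun g hg => ?_, fun v' hv' => ?_⟩
    · simp only [mem_append, mem_replicate] at hg
      rcases hg with h | ⟨-, h⟩ | ⟨-, h⟩
      exacts [h1 g h, ⟨_, h⟩, ⟨_, h⟩]
    · by_cases h : v' = v
      · subst h
        simp only [sm_append, sm_replicate]
        simp only [X, Sum.elim_inl, if_true, cond_true, cond_false]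
        omega
      · have h3 : v.val ≠ v'.val := fun e => h (Fin.ext e.symm)
        simp only [sm_append, sm_replicate, h2 v' ((mem_cons.1 hv').resolve_left h)]
        simp [X, h3]

theorem ex_word (y : ℕ → ℤ) (α β : Fin L → ℤ) (l : List (Fin L)) : ∃ x : List (Gam N L),
    (∀ j < N, sm (X j) x = y j) ∧ ∀ q, Ok q (β q) 0 0 x ∧ sm (ctr hc q) x = 0 ∧
      (q ∈ l → sm (ctr ac q) x = α q) := by
  induction l with
  | nil =>
    obtain ⟨x, h1, h2⟩ := ex_vars (L := L) y (finRange N)
    have h3 : ∀ q : Fin L, ∀ g ∈ x, ∀ k, g ≠ .inr (q, k) := fun q g hg k => by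
      obtain ⟨p, rfl⟩ := h1 g hg
      simp
    exact ⟨x, fun j hj => h2 ⟨j, hj⟩ (mem_finRange _), fun q =>
      ⟨ok_other (h3 q) _ _, sm_other (h3 q) _, by simp⟩⟩
  | cons q0 l ih =>
    obtain ⟨x, h1, h2⟩ := ih
    obtain ⟨t', w, h3, h4, h5, -, h6⟩ := Go.any (N := N) (q := q0) (b := β q0) (sm (ctr tc q0) x)
      (α q0 - sm (ctr ac q0) x)
    refine ⟨x ++ w, fun j hj => ?_, fun q => ?_⟩
    · rw [sm_append, h1 j hj, sm_zero (x := w) fun g hg => ?_, add_zero]
      obtain ⟨k, rfl⟩ := h3 g hg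
      rfl
    · by_cases hq : q = q0
      · subst hq
        exact ⟨ok_append (h2 q).1 (by simpa [(h2 q).2.1] using h4),
          by simpa [(h2 q).2.1] using h5, fun _ => by simp [h6]⟩
      · have h7 : ∀ g ∈ w, ∀ k, g ≠ .inr (q, k) := fun g hg k => by
          obtain ⟨k', rfl⟩ := h3 g hg
          simp [Ne.symm hq]
        exact ⟨ok_append (h2 q).1 (ok_other h7 _ _), by simp [(h2 q).2.1, sm_other h7],
          fun h => by simp [sm_other h7, (h2 q).2.2 ((mem_cons.1 h).resolve_left hq)]⟩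

def gw (q : Fin L) : Eqn ℕ → Fin 3 → Gam N L → ℤ
  | .add i j k => fun _ a => X i a + X j a - X k a
  | .cst i _ => fun _ => X i
  | .mul i _ k => ![ctr hc q, fun a => ctr ac q a - X i a, fun a => ctr pc q a - X k a]

def gc : Eqn ℕ → ℤ
  | .cst _ c => -c
  | _ => 0

def iv : Eqn ℕ → ℕ
  | .mul i _ _ => i
  | _ => 0

def jv : Eqn ℕ → ℕ
  | .mul _ j _ => j
  | _ => 0

theorem not_dec : ¬ Dec := by
  intro h
  obtain ⟨i, S, hS⟩ := h10
  obtain ⟨N, hN⟩ := (0 :: i :: S.flatMap Eqn.vars).finite_toSet.bddAbove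
  replace hN : ∀ j ∈ 0 :: i :: S.flatMap Eqn.vars, j < N + 1 := fun j hj =>
    Nat.lt_succ_of_le (hN hj)
  refine hS ((eq_dec (Γ := Gam (N + 1) S.length)
    (T := Unit ⊕ (Fin S.length × Fin 3) ⊕ (Fin S.length × Fin 7 × Bool))
    (Sum.elim (fun _ _ => 0) (Sum.elim (fun _ _ => 0) fun p =>
      cond p.2.2 (fun a => tb p.2.1 * ctr tc p.1 a) (ctr hc p.1)))
    (Sum.elim (fun _ => X i) (Sum.elim (fun p => gw p.1 (S.get p.1) p.2) fun p =>
      cond p.2.2 (fun a => xb p.2.1 * X (jv (S.get p.1)) a) fun _ => 0))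
    (Sum.elim (fun _ => 0) (Sum.elim (fun p => gc (S.get p.1)) fun p => cond p.2.2 0 (-hv p.2.1)))
    (Sum.elim (fun _ => -1) fun _ => 0)
    (Sum.elim (fun _ => True) (Sum.elim (fun _ => True) fun _ => False))
    (Sum.elim (fun _ _ => False) (Sum.elim (fun _ _ => False) fun p g => g = .inr (p.1, p.2.1)))
    h).of_eq fun n => ?_)
  have z0 : ∀ x : List (Gam (N + 1) S.length), sm (fun _ => 0) x = 0 := fun x => sm_zero (by simp)
  simp only [Sum.forall (α := Unit), Sum.forall (α := Fin S.length × Fin 3), Sum.elim_inl,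
    Sum.elim_inr, Prod.forall, Bool.forall_bool, cond_true,
    cond_false, sm_mul, z0, false_implies, implies_true, and_true, true_and, forall_const]
  constructor
  · rintro ⟨x, h1, h2, h3⟩
    refine ⟨fun j => sm (X j) x, by linarith, fun e he => ?_⟩
    obtain ⟨q, rfl⟩ := mem_iff_get.1 he
    have h4 := h2 q
    have h5 : Ok q (sm (X (jv (S.get q))) x) 0 0 x := ok_iff.2 fun u g v h6 k hk =>
      ⟨by linarith [(h3 q k).1 u g v h6 hk], by linarith [(h3 q k).2 u g v h6 hk]⟩
    generalize S.get q = e at h4 h5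
    cases e with
    | add i j k =>
      have := h4 0
      simp only [gw, gc, sm_sub, sm_add] at this
      simp only [Eqn.Sat]; linarith
    | cst i c =>
      have := h4 0
      simp only [gw, gc] at this
      simp only [Eqn.Sat]; linarith
    | mul i j k =>
      have a0 := h4 0
      have a1 := h4 1
      have a2 := h4 2
      simp [gw, gc, sm_sub] at a0 a1 a2
      have := ok_inv (a := 0) (p := 0) h5 (by simp) (by simpa using a0)
      simp only [Eqn.Sat, jv] at this ⊢
      rw [← sub_eq_zero.1 a1, ← sub_eq_zero.1 a2]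
      simpa using this.symm
  · rintro ⟨y, h1, h2⟩
    obtain ⟨x, h3, h4⟩ := ex_word (N := N + 1) y (fun q => y (iv (S.get q)))
      (fun q => y (jv (S.get q))) (finRange S.length)
    have hv' : ∀ q : Fin S.length, ∀ j ∈ (S.get q).vars, sm (X j) x = y j := fun q j hj =>
      h3 j (hN j (mem_cons_of_mem _ (mem_cons_of_mem _ (mem_flatMap.2 ⟨_, get_mem _ _, hj⟩))))
    have hj : ∀ q : Fin S.length, sm (X (jv (S.get q))) x = y (jv (S.get q)) := fun q => by
      have := hv' q
      generalize S.get q = e at this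
      cases e
      · exact h3 _ (hN _ mem_cons_self)
      · exact this _ (by simp [Eqn.vars, jv])
      · exact h3 _ (hN _ mem_cons_self)
    refine ⟨x, by rw [h3 i (hN i (by simp))]; linarith, fun q r => ?_, fun q k =>
      ⟨fun u g v h5 hk => ?_, fun u g v h5 hk => ?_⟩⟩
    · obtain ⟨h5, h6, h7⟩ := h4 q
      have h8 := h2 _ (get_mem S q)
      have h9 := hv' q
      replace h7 := h7 (mem_finRange _)
      generalize S.get q = e at h5 h7 h8 h9
      cases e with
      | add i j k =>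
        simp only [Eqn.vars, mem_cons, forall_eq_or_imp, not_mem_nil, false_implies,
          implies_true, and_true, Eqn.Sat] at h8 h9
        simp only [gw, gc, sm_sub, sm_add, h9]; linarith
      | cst i c =>
        simp only [Eqn.vars, mem_cons, forall_eq_or_imp, not_mem_nil, false_implies,
          implies_true, and_true, Eqn.Sat] at h8 h9
        simp only [gw, gc, h9]; linarith
      | mul i j k =>
        simp only [Eqn.vars, mem_cons, forall_eq_or_imp, not_mem_nil, false_implies,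
          implies_true, and_true, Eqn.Sat, iv, jv] at h5 h7 h8 h9
        have := ok_inv (a := 0) (p := 0) h5 (by simp) (by simpa using h6)
        fin_cases r <;> simp [gw, gc, sm_sub, h9, h6, h7]
        rw [h7, zero_add, zero_add, h8] at this
        rw [this, sub_self]
    · linarith [(ok_iff.1 (h4 q).1 u g v h5 k hk).1]
    · have := (ok_iff.1 (h4 q).1 u g v h5 k hk).2
      rw [hj]; linarith

end Pool.Agent.H73.OL
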