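import Mathlib

set_option autoImplicit false

namespace Pool.Agent.H73.Pas

/-- binary modular exponentiation with fuel. -/
def pm (n : ℕ) : ℕ → ℕ → ℕ → ℕ
  | 0, _, _ => 1
  | f + 1, b, e => if e % 2 = 1 then b * pm n f (b * b % n) (e / 2) % n
      else pm n f (b * b % n) (e / 2)

lemma pm_spec (n : ℕ) : ∀ (f b e : ℕ), e < 2 ^ f → ((pm n f b e : ℕ) : ZMod n) = (b : ZMod n) ^ e := by
  intro f
  induction f with
  | zero =>
    intro b e h
    have : e = 0 := by omega
    subst this
    simp [pm]
  | succ f ih =>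
    intro b e h
    have h2 : e / 2 < 2 ^ f := by rw [pow_succ] at h; omega
    have key := ih (b * b % n) (e / 2) h2
    rw [ZMod.natCast_mod, Nat.cast_mul, ← sq (b : ZMod n), ← pow_mul] at key
    by_cases he : e % 2 = 1
    · simp only [pm, he, if_true]
      rw [ZMod.natCast_mod, Nat.cast_mul, key, ← pow_succ']
      congr 1
      omega
    · simp only [pm, he, if_false]
      rw [key]
      congr 1
      omega

lemma lucas (p a : ℕ) (l : List ℕ) (hl : ∀ q ∈ l, q.Prime) (hprod : l.prod = p - 1)
    (hp : p < 2 ^ 50) (h1 : pm p 50 a (p - 1) % p = 1 % p)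
    (h2 : ∀ q ∈ l, pm p 50 a ((p - 1) / q) % p ≠ 1 % p) : p.Prime := by
  refine lucas_primality p (a : ZMod p) ?_ ?_
  · rw [← pm_spec p 50 a (p - 1) (by omega)]
    have := (ZMod.natCast_eq_natCast_iff' _ _ p).2 h1
    simpa using this
  · intro q hq hd
    rw [← hprod] at hd
    obtain ⟨r, hr, hqr⟩ := (Prime.dvd_prod_iff hq.prime).1 hd
    have : q = r := (Nat.prime_dvd_prime_iff_eq hq (hl r hr)).1 hqr
    subst this
    rw [← pm_spec p 50 a ((p - 1) / q) (lt_of_le_of_lt (Nat.div_le_self _ _) (by omega))]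
    intro h
    apply h2 q hr
    apply (ZMod.natCast_eq_natCast_iff' _ _ p).1
    simpa using h

lemma pr2 : Nat.Prime 1861 := by norm_num
lemma pr3 : Nat.Prime 166967 := by norm_num
lemma pr4 : Nat.Prime 1154177 := by norm_num
lemma pr5 : Nat.Prime 5189113 := by norm_num
lemma pr6 : Nat.Prime 19821301189 :=
  lucas _ 2 [2, 2, 3, 13, 277, 317, 1447] (by simp only [List.forall_mem_cons]; norm_num)
    (by norm_num) (by norm_num) (by decide +kernel) (by decide +kernel)
lemma pr8a : Nat.Prime 1194781813 :=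
  lucas _ 14 [2, 2, 3, 7, 227, 62659] (by simp only [List.forall_mem_cons]; norm_num)
    (by norm_num) (by norm_num) (by decide +kernel) (by decide +kernel)
lemma pr8b : Nat.Prime 2012012573093 :=
  lucas _ 2 [2, 2, 421, 1194781813]
    (by simp only [List.forall_mem_cons]; exact ⟨by norm_num, by norm_num, by norm_num, pr8a, by simp⟩)
    (by norm_num) (by norm_num) (by decide +kernel) (by decide +kernel)
lemma pr8 : Nat.Prime 4024025146187 :=
  lucas _ 2 [2, 2012012573093]
    (by simp only [List.forall_mem_cons]; exact ⟨by norm_num, pr8b, by simp⟩)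
    (by norm_num) (by norm_num) (by decide +kernel) (by decide +kernel)

end Pool.Agent.H73.Pas
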