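import Mathlib

set_option autoImplicit false

namespace Pool.Agent.H73.Pas

open Nat

lemma lin_le (s : ℕ) (hs : 48 ≤ s) : s + 1 ≤ 2 ^ (s / 8) := by
  have h : ∀ k, 6 ≤ k → 8 * k + 8 ≤ 2 ^ k := by
    intro k hk
    induction k, hk using Nat.le_induction with
    | base => norm_num
    | succ k _ ih => rw [pow_succ]; omega
  have := h (s / 8) (by omega)
  omega

lemma main_ineq (n : ℕ) (hn : 1152 ≤ n) :
    n * ((2 * n) ^ sqrt (2 * n) * 4 ^ (2 * n / 3) * (2 * n) ^ 4) ≤ 4 ^ n := by
  set s := sqrt (2 * n) with hs
  have h48 : 48 ≤ s := by rw [hs, Nat.le_sqrt]; omega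
  have h1 : s * s ≤ 2 * n := Nat.sqrt_le _
  have h2 : 2 * n < (s + 1) * (s + 1) := Nat.lt_succ_sqrt _
  have h3 := lin_le s h48
  have h4 : 2 * n ≤ 4 ^ (s / 8) := by
    have : (s + 1) * (s + 1) ≤ 2 ^ (s / 8) * 2 ^ (s / 8) := Nat.mul_le_mul h3 h3
    rw [← mul_pow] at this
    exact le_trans h2.le this
  have h5 : (s / 8) * (s + 5) + 2 * n / 3 ≤ n := by
    have a1 : 8 * (s / 8) ≤ s := Nat.mul_div_le s 8
    have a2 : 8 * ((s / 8) * (s + 5)) ≤ s * (s + 5) := by
      rw [← mul_assoc]; exact Nat.mul_le_mul_right _ a1
    have a3 : 48 * s ≤ s * s := Nat.mul_le_mul_right _ h48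
    have a4 : s * (s + 5) = s * s + 5 * s := by ring
    omega
  calc n * ((2 * n) ^ s * 4 ^ (2 * n / 3) * (2 * n) ^ 4)
      ≤ (2 * n) * ((2 * n) ^ s * 4 ^ (2 * n / 3) * (2 * n) ^ 4) :=
        Nat.mul_le_mul_right _ (by omega)
    _ = (2 * n) ^ (s + 5) * 4 ^ (2 * n / 3) := by ring
    _ ≤ (4 ^ (s / 8)) ^ (s + 5) * 4 ^ (2 * n / 3) :=
        Nat.mul_le_mul_right _ (Nat.pow_le_pow_left h4 _)
    _ = 4 ^ ((s / 8) * (s + 5) + 2 * n / 3) := by rw [← pow_mul, ← pow_add]
    _ ≤ 4 ^ n := Nat.pow_le_pow_right (by norm_num) h5

lemma cb_le (n : ℕ) (n_large : 2 < n) (T : Finset ℕ) (hT : T.card ≤ 4)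
    (hp : ∀ p : ℕ, p.Prime → n < p → p ≤ 2 * n → p ∈ T) :
    centralBinom n ≤ (2 * n) ^ sqrt (2 * n) * 4 ^ (2 * n / 3) * (2 * n) ^ 4 := by
  have n_pos : 0 < n := (Nat.zero_le _).trans_lt n_large
  have n2_pos : 1 ≤ 2 * n := mul_pos (zero_lt_two' ℕ) n_pos
  let f : ℕ → ℕ := fun x => x ^ n.centralBinom.factorization x
  have hf1 : ∀ x, 1 ≤ f x := by
    intro x
    by_cases h : x.Prime
    · exact Nat.one_le_pow _ _ h.pos
    · simp only [f]
      rw [factorization_eq_zero_of_not_prime n.centralBinom h, _root_.pow_zero]
  have hf2 : ∀ x, f x ≤ 2 * n := fun x => pow_factorization_choose_le (mul_pos two_pos n_pos)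
  let S := {p ∈ Finset.range (2 * n / 3 + 1) | Nat.Prime p}
  have e0 : centralBinom n = ∏ x ∈ (Finset.range (2 * n + 1)).filter (fun x => x ∈ S ∪ T), f x := by
    rw [Finset.prod_filter_of_ne]
    · exact n.prod_pow_factorization_centralBinom.symm
    intro x hx h
    by_contra hc
    apply h
    simp only [Finset.mem_union, not_or, S, Finset.mem_filter, Finset.mem_range] at hc hx
    by_cases hpr : x.Prime
    · by_cases hxn : x ≤ n
      · have : 2 * n < 3 * x := by
          have := hc.1
          by_contra hh
          exact this ⟨by omega, hpr⟩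
        simp only [f]
        rw [factorization_centralBinom_of_two_mul_self_lt_three_mul n_large hxn this, Nat.pow_zero]
      · exact absurd (hp x hpr (by omega) (by omega)) hc.2
    · simp only [f]
      rw [factorization_eq_zero_of_not_prime n.centralBinom hpr, _root_.pow_zero]
  have e1 : ∏ x ∈ (Finset.range (2 * n + 1)).filter (fun x => x ∈ S ∪ T), f x
      ≤ ∏ x ∈ S ∪ T, f x :=
    Finset.prod_le_prod_of_subset_of_one_le' (fun x hx => (Finset.mem_filter.1 hx).2)
      (fun x _ _ => hf1 x)
  have e2 : ∏ x ∈ S ∪ T, f x ≤ (∏ x ∈ S, f x) * ∏ x ∈ T, f x := by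
    rw [← Finset.prod_union_inter]
    exact Nat.le_mul_of_pos_right _ (Finset.prod_pos fun x _ => hf1 x)
  have e3 : ∏ x ∈ T, f x ≤ (2 * n) ^ 4 :=
    (Finset.prod_le_pow_card T f _ fun x _ => hf2 x).trans (pow_right_mono₀ n2_pos hT)
  have e4 : ∏ x ∈ S, f x ≤ (2 * n) ^ sqrt (2 * n) * 4 ^ (2 * n / 3) := by
    rw [← Finset.prod_filter_mul_prod_filter_not S (· ≤ sqrt (2 * n))]
    apply mul_le_mul'
    · refine (Finset.prod_le_prod' fun p _ => hf2 p).trans ?_
      have : (Finset.Icc 1 (sqrt (2 * n))).card = sqrt (2 * n) := by
        rw [card_Icc, Nat.add_sub_cancel]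
      rw [Finset.prod_const]
      refine pow_right_mono₀ n2_pos ((Finset.card_le_card fun x hx => ?_).trans this.le)
      obtain ⟨h1, h2⟩ := Finset.mem_filter.1 hx
      exact Finset.mem_Icc.mpr ⟨(Finset.mem_filter.1 h1).2.one_lt.le, h2⟩
    · refine le_trans ?_ (primorial_le_four_pow (2 * n / 3))
      refine (Finset.prod_le_prod' fun p hp => (?_ : f p ≤ p)).trans ?_
      · obtain ⟨h1, h2⟩ := Finset.mem_filter.1 hp
        refine (pow_right_mono₀ (Finset.mem_filter.1 h1).2.one_lt.le ?_).trans (pow_one p).le
        exact Nat.factorization_choose_le_one (sqrt_lt'.mp <| not_le.1 h2)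
      refine Finset.prod_le_prod_of_subset_of_one_le' (Finset.filter_subset _ _) ?_
      exact fun p hp _ => (Finset.mem_filter.1 hp).2.one_lt.le
  rw [e0]
  exact e1.trans (e2.trans (Nat.mul_le_mul e4 e3))

/-- The degree constraints coming from all primes in `(m, 2m)` leave only six cases. -/
lemma survivors (m d : ℕ) (hd : d % 2 = 0) (h2 : 2 ≤ d) (hm : d + 2 ≤ 2 * m)
    (H : ∀ p : ℕ, p.Prime → m < p → p < 2 * m →
      p + d = 2 * m + 1 ∨ 2 * p + d = 4 * m ∨ p = d + 1 ∨ 2 * p = 2 * m + d) :
    m = 2 ∨ m = 3 ∨ m = 4 ∨ (m = 5 ∧ 4 ≤ d ∧ d ≤ 6) ∨ m = 6 ∨ (m = 8 ∧ 6 ≤ d ∧ d ≤ 10) := by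
  by_cases e1 : m = 1
  · omega
  by_cases e2 : m = 2
  · have := H 3 (by norm_num) (by omega) (by omega)
    omega
  by_cases e3 : m = 3
  · have := H 5 (by norm_num) (by omega) (by omega)
    omega
  by_cases e4 : m = 4
  · have := H 5 (by norm_num) (by omega) (by omega)
    have := H 7 (by norm_num) (by omega) (by omega)
    omega
  by_cases e5 : m = 5
  · have := H 7 (by norm_num) (by omega) (by omega)
    omega
  by_cases e6 : m = 6
  · have := H 7 (by norm_num) (by omega) (by omega)
    have := H 11 (by norm_num) (by omega) (by omega)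
    omega
  by_cases e7 : m = 7
  · have := H 11 (by norm_num) (by omega) (by omega)
    have := H 13 (by norm_num) (by omega) (by omega)
    omega
  by_cases e8 : m = 8
  · have := H 11 (by norm_num) (by omega) (by omega)
    have := H 13 (by norm_num) (by omega) (by omega)
    omega
  by_cases e9 : m = 9
  · have := H 11 (by norm_num) (by omega) (by omega)
    have := H 13 (by norm_num) (by omega) (by omega)
    have := H 17 (by norm_num) (by omega) (by omega)
    omega
  by_cases e10 : m = 10
  · have := H 11 (by norm_num) (by omega) (by omega)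
    have := H 13 (by norm_num) (by omega) (by omega)
    have := H 17 (by norm_num) (by omega) (by omega)
    have := H 19 (by norm_num) (by omega) (by omega)
    omega
  by_cases e11 : m = 11
  · have := H 13 (by norm_num) (by omega) (by omega)
    have := H 17 (by norm_num) (by omega) (by omega)
    have := H 19 (by norm_num) (by omega) (by omega)
    omega
  by_cases e12 : m = 12
  · have := H 13 (by norm_num) (by omega) (by omega)
    have := H 17 (by norm_num) (by omega) (by omega)
    have := H 19 (by norm_num) (by omega) (by omega)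
    have := H 23 (by norm_num) (by omega) (by omega)
    omega
  by_cases e13 : m = 13
  · have := H 17 (by norm_num) (by omega) (by omega)
    have := H 19 (by norm_num) (by omega) (by omega)
    have := H 23 (by norm_num) (by omega) (by omega)
    omega
  by_cases e14 : m = 14
  · have := H 17 (by norm_num) (by omega) (by omega)
    have := H 19 (by norm_num) (by omega) (by omega)
    have := H 23 (by norm_num) (by omega) (by omega)
    omega
  by_cases e15 : m = 15
  · have := H 17 (by norm_num) (by omega) (by omega)
    have := H 19 (by norm_num) (by omega) (by omega)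
    have := H 23 (by norm_num) (by omega) (by omega)
    have := H 29 (by norm_num) (by omega) (by omega)
    omega
  by_cases e16 : m = 16
  · have := H 17 (by norm_num) (by omega) (by omega)
    have := H 19 (by norm_num) (by omega) (by omega)
    have := H 23 (by norm_num) (by omega) (by omega)
    have := H 29 (by norm_num) (by omega) (by omega)
    have := H 31 (by norm_num) (by omega) (by omega)
    omega
  by_cases e17 : m = 17
  · have := H 19 (by norm_num) (by omega) (by omega)
    have := H 23 (by norm_num) (by omega) (by omega)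
    have := H 29 (by norm_num) (by omega) (by omega)
    have := H 31 (by norm_num) (by omega) (by omega)
    omega
  by_cases e18 : m = 18
  · have := H 19 (by norm_num) (by omega) (by omega)
    have := H 23 (by norm_num) (by omega) (by omega)
    have := H 29 (by norm_num) (by omega) (by omega)
    have := H 31 (by norm_num) (by omega) (by omega)
    omega
  by_cases e19 : m = 19
  · have := H 23 (by norm_num) (by omega) (by omega)
    have := H 29 (by norm_num) (by omega) (by omega)
    have := H 31 (by norm_num) (by omega) (by omega)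
    have := H 37 (by norm_num) (by omega) (by omega)
    omega
  by_cases e20 : m = 20
  · have := H 23 (by norm_num) (by omega) (by omega)
    have := H 29 (by norm_num) (by omega) (by omega)
    have := H 31 (by norm_num) (by omega) (by omega)
    have := H 37 (by norm_num) (by omega) (by omega)
    omega
  by_cases h21 : m ≤ 22
  · have := H 23 (by norm_num) (by omega) (by omega)
    have := H 29 (by norm_num) (by omega) (by omega)
    have := H 31 (by norm_num) (by omega) (by omega)
    have := H 37 (by norm_num) (by omega) (by omega)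
    have := H 41 (by norm_num) (by omega) (by omega)
    omega
  by_cases h23 : m ≤ 28
  · have := H 29 (by norm_num) (by omega) (by omega)
    have := H 31 (by norm_num) (by omega) (by omega)
    have := H 37 (by norm_num) (by omega) (by omega)
    have := H 41 (by norm_num) (by omega) (by omega)
    have := H 43 (by norm_num) (by omega) (by omega)
    omega
  by_cases h29 : m ≤ 36
  · have := H 37 (by norm_num) (by omega) (by omega)
    have := H 41 (by norm_num) (by omega) (by omega)
    have := H 43 (by norm_num) (by omega) (by omega)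
    have := H 47 (by norm_num) (by omega) (by omega)
    have := H 53 (by norm_num) (by omega) (by omega)
    omega
  by_cases h37 : m ≤ 58
  · have := H 59 (by norm_num) (by omega) (by omega)
    have := H 61 (by norm_num) (by omega) (by omega)
    have := H 67 (by norm_num) (by omega) (by omega)
    have := H 71 (by norm_num) (by omega) (by omega)
    have := H 73 (by norm_num) (by omega) (by omega)
    omega
  by_cases h59 : m ≤ 100
  · have := H 101 (by norm_num) (by omega) (by omega)
    have := H 103 (by norm_num) (by omega) (by omega)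
    have := H 107 (by norm_num) (by omega) (by omega)
    have := H 109 (by norm_num) (by omega) (by omega)
    have := H 113 (by norm_num) (by omega) (by omega)
    omega
  by_cases h101 : m ≤ 180
  · have := H 181 (by norm_num) (by omega) (by omega)
    have := H 191 (by norm_num) (by omega) (by omega)
    have := H 193 (by norm_num) (by omega) (by omega)
    have := H 197 (by norm_num) (by omega) (by omega)
    have := H 199 (by norm_num) (by omega) (by omega)
    omega
  by_cases h181 : m ≤ 336
  · have := H 337 (by norm_num) (by omega) (by omega)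
    have := H 347 (by norm_num) (by omega) (by omega)
    have := H 349 (by norm_num) (by omega) (by omega)
    have := H 353 (by norm_num) (by omega) (by omega)
    have := H 359 (by norm_num) (by omega) (by omega)
    omega
  by_cases h337 : m ≤ 646
  · have := H 647 (by norm_num) (by omega) (by omega)
    have := H 653 (by norm_num) (by omega) (by omega)
    have := H 659 (by norm_num) (by omega) (by omega)
    have := H 661 (by norm_num) (by omega) (by omega)
    have := H 673 (by norm_num) (by omega) (by omega)
    omega
  by_cases h647 : m ≤ 1276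
  · have := H 1277 (by norm_num) (by omega) (by omega)
    have := H 1279 (by norm_num) (by omega) (by omega)
    have := H 1283 (by norm_num) (by omega) (by omega)
    have := H 1289 (by norm_num) (by omega) (by omega)
    have := H 1291 (by norm_num) (by omega) (by omega)
    omega
  exfalso
  have hn : 1152 ≤ m := by omega
  have a1 : 4 ^ m < m * m.centralBinom := Nat.four_pow_lt_mul_centralBinom m (by omega)
  have a2 := cb_le m (by omega) {2 * m + 1 - d, 2 * m - d / 2, d + 1, m + d / 2}
    Finset.card_le_four (by
      intro p hp h1 h2'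
      have h3 : p ≠ 2 * m := by
        intro h
        have := hp.eq_one_or_self_of_dvd 2 (by rw [h]; exact Dvd.intro m rfl)
        omega
      have := H p hp h1 (by omega)
      simp only [Finset.mem_insert, Finset.mem_singleton]
      omega)
  have a3 := main_ineq m hn
  have a4 := Nat.mul_le_mul_left m a2
  omega

end Pool.Agent.H73.Pas
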