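import Mathlib

set_option autoImplicit false

namespace Pool.Agent.H73.Pas

open Polynomial

/-- `∑_{j ≤ 2k} C(N, ⌊j/2⌋) z^j`. -/
def V {R : Type} [CommRing R] (N k : ℕ) (z : R) : R :=
  ∑ j ∈ Finset.range (2 * k + 1), ((N.choose (j / 2) : ℕ) : R) * z ^ j

lemma map_V {R S : Type} [CommRing R] [CommRing S] (φ : R →+* S) (N k : ℕ) (z : R) :
    φ (V N k z) = V N k (φ z) := by
  simp [V, map_sum]

lemma V_zero {R : Type} [CommRing R] (N : ℕ) (z : R) : V N 0 z = 1 := by simp [V]

lemma V_succ {R : Type} [CommRing R] (N k : ℕ) (z : R) :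
    V N (k + 1) z = V N k z + (N.choose k : R) * z ^ (2 * k + 1)
      + (N.choose (k + 1) : R) * z ^ (2 * k + 2) := by
  have e1 : (2 * k + 1) / 2 = k := by omega
  have e2 : (2 * k + 1 + 1) / 2 = k + 1 := by omega
  unfold V
  rw [show 2 * (k + 1) + 1 = 2 * k + 1 + 1 + 1 by ring, Finset.sum_range_succ,
    Finset.sum_range_succ, e1, e2]

lemma V_real_ne (N k : ℕ) (hk : 2 * k ≤ N) (z : ℝ) : V N k z ≠ 0 := by
  by_cases hz : 0 ≤ z
  · have : ∀ k, 1 ≤ V N k z := by
      intro k
      induction k with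
      | zero => rw [V_zero]
      | succ k ih =>
        rw [V_succ]
        have a1 : 0 ≤ (N.choose k : ℝ) * z ^ (2 * k + 1) := by positivity
        have a2 : 0 ≤ (N.choose (k + 1) : ℝ) * z ^ (2 * k + 2) := by positivity
        linarith
    have := this k
    intro h
    linarith
  · have : ∀ k, 2 * k ≤ N → 1 ≤ (1 - z) * V N k z + (N.choose k : ℝ) * z ^ (2 * k + 1) := by
      intro k
      induction k with
      | zero => intro _; rw [V_zero]; simp
      | succ k ih =>
        intro hk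
        have ih' := ih (by omega)
        have hm : (N.choose k : ℝ) ≤ N.choose (k + 1) := by
          exact_mod_cast Nat.choose_le_succ_of_lt_half_left (by omega)
        have a2 : 0 ≤ z ^ (2 * k + 2) := by
          rw [show 2 * k + 2 = (k + 1) * 2 by ring, pow_mul]; positivity
        have a3 := mul_nonneg (sub_nonneg.2 hm) a2
        have : (1 - z) * V N (k + 1) z + (N.choose (k + 1) : ℝ) * z ^ (2 * (k + 1) + 1)
            = (1 - z) * V N k z + (N.choose k : ℝ) * z ^ (2 * k + 1)
              + ((N.choose (k + 1) : ℝ) - N.choose k) * z ^ (2 * k + 2) := by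
          rw [V_succ]; ring
        linarith
    have h1 := this k hk
    intro h
    rw [h] at h1
    have a2 : z ^ (2 * k + 1) ≤ 0 := by
      have : 0 ≤ z ^ (2 * k) := by rw [mul_comm, pow_mul]; positivity
      rw [pow_succ]
      exact mul_nonpos_of_nonneg_of_nonpos this (by linarith)
    have a3 : (N.choose k : ℝ) * z ^ (2 * k + 1) ≤ 0 :=
      mul_nonpos_of_nonneg_of_nonpos (by positivity) a2
    linarith

lemma V_root_le (N k : ℕ) (hk : 2 * k ≤ N) (z : ℂ) (h : V N k z = 0) : ‖z‖ ≤ 1 := by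
  by_contra hz
  have hz : 1 < ‖z‖ := not_le.1 hz
  have : ∀ k, 2 * k ≤ N → ‖(1 - z) * V N k z + (N.choose k : ℂ) * z ^ (2 * k + 1)‖
      ≤ (N.choose k : ℝ) * ‖z‖ ^ (2 * k) := by
    intro k
    induction k with
    | zero => intro _; rw [V_zero]; simp
    | succ k ih =>
      intro hk
      have ih' := ih (by omega)
      have hm0 : N.choose k ≤ N.choose (k + 1) := Nat.choose_le_succ_of_lt_half_left (by omega)
      obtain ⟨w, hw⟩ := Nat.exists_eq_add_of_le hm0
      have : (1 - z) * V N (k + 1) z + (N.choose (k + 1) : ℂ) * z ^ (2 * (k + 1) + 1)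
          = ((1 - z) * V N k z + (N.choose k : ℂ) * z ^ (2 * k + 1))
            + (w : ℂ) * z ^ (2 * (k + 1)) := by
        rw [V_succ, hw]; push_cast; ring
      rw [this, hw]
      refine (norm_add_le _ _).trans ?_
      have b1 : ‖(w : ℂ) * z ^ (2 * (k + 1))‖ = (w : ℝ) * ‖z‖ ^ (2 * (k + 1)) := by simp
      have b2 : ‖z‖ ^ (2 * k) ≤ ‖z‖ ^ (2 * (k + 1)) := pow_le_pow_right₀ hz.le (by omega)
      have b3 := mul_le_mul_of_nonneg_left b2 (Nat.cast_nonneg (N.choose k) : (0 : ℝ) ≤ _)
      rw [b1]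
      push_cast
      linarith
  have h1 := this k hk
  rw [h] at h1
  have b1 : ‖(1 - z) * 0 + (N.choose k : ℂ) * z ^ (2 * k + 1)‖
      = (N.choose k : ℝ) * ‖z‖ ^ (2 * k) * ‖z‖ := by simp [pow_succ, mul_assoc]
  rw [b1] at h1
  have b2 : (0 : ℝ) < (N.choose k : ℝ) * ‖z‖ ^ (2 * k) := by
    have : 0 < N.choose k := Nat.choose_pos (by omega)
    positivity
  nlinarith

lemma V_I {R : Type} [CommRing R] (N k : ℕ) (z : R) (hz : z ^ 2 = -1) :
    V (N + 1) (k + 1) z = (-1) ^ (k + 1) * ((N.choose (k + 1) : R) - (N.choose k : R) * z) := by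
  induction k with
  | zero =>
    rw [V_succ, V_zero]
    simp only [Nat.choose_zero_right, Nat.choose_one_right, zero_add, mul_zero, hz]
    push_cast
    ring
  | succ k ih =>
    rw [V_succ, ih, Nat.choose_succ_succ' N k, Nat.choose_succ_succ' N (k + 1)]
    have e1 : z ^ (2 * (k + 1) + 1) = (-1) ^ (k + 1) * z := by rw [pow_succ, pow_mul, hz]
    have e2 : z ^ (2 * (k + 1) + 2) = (-1) ^ (k + 1 + 1) := by
      rw [show 2 * (k + 1) + 2 = 2 * (k + 1 + 1) by ring, pow_mul, hz]
    rw [e1, e2]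
    push_cast
    ring

lemma V_big {R : Type} [CommRing R] (r k : ℕ) (hk : r + 1 ≤ k) (z : R) :
    V r k z = (1 + z) * (z ^ 2 + 1) ^ r := by
  have h0 : ∀ k, V r k z = (1 + z) * (∑ i ∈ Finset.range k, (z ^ 2) ^ i * (r.choose i : R))
      + (r.choose k : R) * z ^ (2 * k) := by
    intro k
    induction k with
    | zero => simp [V_zero]
    | succ k ih => rw [V_succ, ih, Finset.sum_range_succ]; ring
  have h1 : ∀ k, r + 1 ≤ k →
      (∑ i ∈ Finset.range k, (z ^ 2) ^ i * (r.choose i : R)) = (z ^ 2 + 1) ^ r := by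
    intro k hk
    induction k, hk using Nat.le_induction with
    | base => rw [add_pow]; simp
    | succ k hk ih =>
      rw [Finset.sum_range_succ, ih, Nat.choose_eq_zero_of_lt (by omega)]; simp
  rw [h0, h1 k hk, Nat.choose_eq_zero_of_lt (by omega)]
  simp

lemma choose_mod (p m i : ℕ) (hp : p.Prime) (h1 : m < p) (h2 : p < 2 * m) (hi : i ≤ m) :
    (2 * m).choose i ≡ (2 * m - p).choose i [MOD p] := by
  have := Fact.mk hp
  have h := @Choose.choose_modEq_choose_mod_mul_choose_div_nat (2 * m) i p _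
  have e1 : 2 * m % p = 2 * m - p := by
    rw [Nat.mod_eq_sub_mod h2.le, Nat.mod_eq_of_lt (by omega)]
  have e2 : i % p = i := Nat.mod_eq_of_lt (by omega)
  have e3 : i / p = 0 := Nat.div_eq_of_lt (by omega)
  rw [e1, e2, e3] at h
  simpa using h

lemma V_charP {R : Type} [CommRing R] (p m : ℕ) [CharP R p] (hp : p.Prime) (h1 : m < p)
    (h2 : p < 2 * m) (z : R) : V (2 * m) m z = (1 + z) * (z ^ 2 + 1) ^ (2 * m - p) := by
  rw [← V_big (2 * m - p) m (by omega)]
  unfold V
  refine Finset.sum_congr rfl fun j hj => ?_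
  rw [Finset.mem_range] at hj
  congr 1
  exact (CharP.natCast_eq_natCast R p).2 (choose_mod p m _ hp h1 h2 (by omega))

lemma V_coeff (N k j : ℕ) : (V N k (X : ℤ[X])).coeff j
    = if j < 2 * k + 1 then (N.choose (j / 2) : ℤ) else 0 := by
  unfold V
  simp only [finsetSum_coeff, ← C_eq_natCast, coeff_C_mul_X_pow]
  rw [Finset.sum_ite_eq]
  simp

lemma V_natDegree (N k : ℕ) (hk : k ≤ N) : (V N k (X : ℤ[X])).natDegree = 2 * k := by
  apply natDegree_eq_of_le_of_coeff_ne_zero
  · rw [natDegree_le_iff_coeff_eq_zero]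
    intro j hj
    rw [V_coeff, if_neg (by omega)]
  · rw [V_coeff, if_pos (by omega), show 2 * k / 2 = k by omega]
    exact_mod_cast (Nat.choose_pos hk).ne'

lemma V_lead (N k : ℕ) (hk : k ≤ N) : (V N k (X : ℤ[X])).leadingCoeff = N.choose k := by
  rw [leadingCoeff, V_natDegree N k hk, V_coeff, if_pos (by omega), show 2 * k / 2 = k by omega]

lemma even_deg (A : ℝ[X]) (h : ∀ x, ¬ A.IsRoot x) : A.natDegree % 2 = 0 := by
  induction A using WfDvdMonoid.induction_on_irreducible with
  | zero => simp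
  | unit u hu => rw [natDegree_eq_zero_of_isUnit hu]
  | mul a q ha hq ih =>
    rw [natDegree_mul hq.ne_zero ha]
    have i1 := ih fun x hx => h x (by simp [IsRoot] at hx ⊢; exact Or.inr hx)
    have i2 := hq.natDegree_le_two
    have i3 := hq.natDegree_pos
    have i4 : q.natDegree ≠ 1 := by
      intro e
      obtain ⟨x, hx⟩ := exists_root_of_degree_eq_one
        (p := q) (by rw [degree_eq_natDegree hq.ne_zero, e]; rfl)
      exact h x (by simp [IsRoot] at hx ⊢; exact Or.inl hx)
    omega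

lemma prod_ge (t : ℝ) (ht : 0 ≤ t) (x : ℂ) (hx : t + 1 ≤ ‖x‖) (s : Multiset ℂ)
    (hs : ∀ a ∈ s, ‖a‖ ≤ 1) : t ^ s.card ≤ ‖(s.map (x - ·)).prod‖ := by
  induction s using Multiset.induction_on with
  | empty => simp
  | cons a s ih =>
    have i1 := ih fun b hb => hs b (Multiset.mem_cons_of_mem hb)
    have i2 := hs a (Multiset.mem_cons_self _ _)
    have i3 : t ≤ ‖x - a‖ := by have := norm_sub_norm_le x a; linarith
    rw [Multiset.map_cons, Multiset.prod_cons, Multiset.card_cons, norm_mul, pow_succ']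
    exact mul_le_mul i3 i1 (by positivity) (norm_nonneg _)

end Pool.Agent.H73.Pas
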