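import Pool.Agent.H73.Pas1
import Pool.Agent.H73.Pas2
import Pool.Agent.H73.Pas3

set_option autoImplicit false

namespace Pool.Agent.H73.Pas

open Polynomial

lemma deg_cases {K : Type} [Field K] [IsAlgClosed K] (A B : K[X]) (a b c : K) (r : ℕ)
    (hab : a ≠ b) (hac : a ≠ c) (hbc : b ≠ c)
    (h : A * B = (X - C a) * (X - C b) ^ r * (X - C c) ^ r)
    (hb : ¬ (A.IsRoot b ∧ B.IsRoot b)) (hc : ¬ (A.IsRoot c ∧ B.IsRoot c)) :
    A.natDegree = 0 ∨ A.natDegree = 1 ∨ A.natDegree = r ∨ A.natDegree = r + 1 ∨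
      A.natDegree = 2 * r ∨ A.natDegree = 2 * r + 1 := by
  classical
  have n1 : (X - C a) ≠ 0 := X_sub_C_ne_zero a
  have n2 : (X - C b) ^ r ≠ 0 := pow_ne_zero _ (X_sub_C_ne_zero b)
  have n3 : (X - C c) ^ r ≠ 0 := pow_ne_zero _ (X_sub_C_ne_zero c)
  have n4 : A * B ≠ 0 := by rw [h]; exact mul_ne_zero (mul_ne_zero n1 n2) n3
  have hA : A ≠ 0 := left_ne_zero_of_mul n4
  have hB : B ≠ 0 := right_ne_zero_of_mul n4
  have hr : A.roots + B.roots = {a} + r • {b} + r • {c} := by
    rw [← roots_mul n4, h, roots_mul (mul_ne_zero (mul_ne_zero n1 n2) n3),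
      roots_mul (mul_ne_zero n1 n2), roots_pow, roots_pow, roots_X_sub_C, roots_X_sub_C,
      roots_X_sub_C]
  have ca := congrArg (Multiset.count a) hr
  have cb := congrArg (Multiset.count b) hr
  have cc := congrArg (Multiset.count c) hr
  simp only [Multiset.count_add, Multiset.count_nsmul, Multiset.count_singleton, if_true,
    hab, hac, hbc, hab.symm, hac.symm, hbc.symm, if_false] at ca cb cc
  have hcard : ∑ x ∈ ({a, b, c} : Finset K), A.roots.count x = A.roots.card := by
    apply Multiset.sum_count_eq_card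
    intro x hx
    have : x ∈ A.roots + B.roots := Multiset.mem_add.2 (Or.inl hx)
    rw [hr] at this
    simp only [Multiset.mem_add, Multiset.mem_singleton, Multiset.mem_nsmul] at this
    simp only [Finset.mem_insert, Finset.mem_singleton]
    tauto
  rw [Finset.sum_insert (by simp [hab, hac]), Finset.sum_insert (by simp [hbc]),
    Finset.sum_singleton, IsAlgClosed.card_roots_eq_natDegree] at hcard
  have zb : A.roots.count b = 0 ∨ B.roots.count b = 0 := by
    simp only [Multiset.count_eq_zero, mem_roots hA, mem_roots hB]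
    tauto
  have zc : A.roots.count c = 0 ∨ B.roots.count c = 0 := by
    simp only [Multiset.count_eq_zero, mem_roots hA, mem_roots hB]
    tauto
  omega

lemma gauss_half {K : Type} [Field K] (p : ℕ) [CharP K p] (hp : p.Prime) (ι : K)
    (hι : ι ^ 2 = -1) (h2 : (2 : K) ≠ 0) (x y u v e : ℤ) (h1 : x * u - y * v = p * e)
    (h3 : x * v + y * u = -(p * e)) (he : (e : K) ≠ 0) (hx : (x : K) + y * ι = 0)
    (hu : (u : K) + v * ι = 0) : (p : ℤ) ∣ x ∧ (p : ℤ) ∣ y := by
  have hp0 : (p : ℤ) ≠ 0 := by exact_mod_cast hp.ne_zero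
  have a1 : ((x ^ 2 + y ^ 2 : ℤ) : K) = 0 := by
    push_cast
    linear_combination ((x : K) - y * ι) * hx + (y : K) ^ 2 * hι
  obtain ⟨s, hs⟩ := (CharP.intCast_eq_zero_iff K p _).1 a1
  have a2 : s * u = e * (x - y) := by
    apply mul_left_cancel₀ hp0
    linear_combination (-u) * hs + x * h1 + y * h3
  have a3 : s * v = -(e * (x + y)) := by
    apply mul_left_cancel₀ hp0
    linear_combination (-v) * hs + x * h3 - y * h1
  have b2 := congrArg (Int.cast : ℤ → K) a2
  have b3 := congrArg (Int.cast : ℤ → K) a3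
  push_cast at b2 b3
  have c1 : (1 + ι) ≠ 0 := by
    intro h
    apply h2
    linear_combination (1 - ι) * h + hι
  have c2 : (e : K) * 2 * (1 + ι) * y = 0 := by
    linear_combination (-(s : K)) * hu + b2 + ι * b3 + (e : K) * (1 - ι) * hx
      + (e : K) * y * hι
  have hy : (y : K) = 0 :=
    (mul_eq_zero.1 c2).resolve_left (mul_ne_zero (mul_ne_zero he h2) c1)
  have hx0 : (x : K) = 0 := by rw [hy] at hx; simpa using hx
  exact ⟨(CharP.intCast_eq_zero_iff K p _).1 hx0, (CharP.intCast_eq_zero_iff K p _).1 hy⟩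

lemma gauss {K : Type} [Field K] (p : ℕ) [CharP K p] (hp : p.Prime) (ι : K)
    (hι : ι ^ 2 = -1) (h2 : (2 : K) ≠ 0) (x y u v e : ℤ) (h1 : x * u - y * v = p * e)
    (h3 : x * v + y * u = -(p * e)) (he : (e : K) ≠ 0) (hx : (x : K) + y * ι = 0)
    (hu : (u : K) + v * ι = 0) : False := by
  have hp0 : (p : ℤ) ≠ 0 := by exact_mod_cast hp.ne_zero
  obtain ⟨⟨x', rfl⟩, ⟨y', rfl⟩⟩ := gauss_half p hp ι hι h2 x y u v e h1 h3 he hx hu
  obtain ⟨⟨u', rfl⟩, ⟨v', rfl⟩⟩ := gauss_half p hp ι hι h2 u v _ _ e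
    (by linear_combination h1) (by linear_combination h3) he hu hx
  apply he
  rw [CharP.intCast_eq_zero_iff K p]
  refine ⟨x' * u' - y' * v', ?_⟩
  apply mul_left_cancel₀ hp0
  linear_combination -h1

lemma red (A : ℤ[X]) : ∃ x y : ℤ, ∀ (R : Type) [CommRing R] (z : R), z ^ 2 = -1 →
    A.eval₂ (Int.castRingHom R) z = x + y * z := by
  induction A using Polynomial.induction_on with
  | C a => exact ⟨a, 0, fun R _ z _ => by rw [eval₂_C]; simp⟩
  | add p q hp hq =>
    obtain ⟨x, y, h⟩ := hp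
    obtain ⟨u, v, h'⟩ := hq
    refine ⟨x + u, y + v, fun R _ z hz => ?_⟩
    rw [eval₂_add, h R z hz, h' R z hz]
    push_cast
    ring
  | monomial n a ih =>
    obtain ⟨x, y, h⟩ := ih
    refine ⟨-y, x, fun R _ z hz => ?_⟩
    rw [pow_succ, ← mul_assoc, eval₂_mul, h R z hz, eval₂_X]
    push_cast
    linear_combination (y : R) * hz

lemma eval_V {R : Type} [CommRing R] (N k : ℕ) (z : R) :
    (V N k (X : ℤ[X])).eval₂ (Int.castRingHom R) z = V N k z := by
  have := map_V (eval₂RingHom (Int.castRingHom R) z) N k X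
  simpa using this

lemma mapP_V {R : Type} [CommRing R] (N k : ℕ) :
    (V N k (X : ℤ[X])).map (Int.castRingHom R) = V N k (X : R[X]) := by
  have := map_V (mapRingHom (Int.castRingHom R)) N k X
  simpa using this

lemma central (p k : ℕ) (hp : p.Prime) (h1 : k + 1 < p) (h2 : p < 2 * (k + 1)) :
    ∃ g : ℕ, (2 * k + 1).choose k = p * g ∧ ¬ p ∣ g ∧
      (2 * (k + 1)).choose (k + 1) = 2 * (p * g) := by
  have e1 : (2 * (k + 1)).choose (k + 1) = 2 * (2 * k + 1).choose k := by
    rw [show 2 * (k + 1) = 2 * k + 1 + 1 by ring, Nat.choose_succ_succ', Nat.choose_symm_half]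
    ring
  have e2 := choose_mod p (k + 1) (k + 1) hp h1 h2 le_rfl
  rw [Nat.choose_eq_zero_of_lt (n := 2 * (k + 1) - p) (by omega), e1] at e2
  have e3 : p ∣ 2 * (2 * k + 1).choose k := (Nat.modEq_zero_iff_dvd).1 e2
  have e4 : ¬ p ∣ 2 := fun h => by have := Nat.le_of_dvd two_pos h; omega
  obtain ⟨g, hg⟩ := (hp.dvd_mul.1 e3).resolve_left e4
  refine ⟨g, hg, fun hd => ?_, by rw [e1, hg]⟩
  have e5 : p ^ 2 ∣ (2 * (k + 1)).choose (k + 1) := by
    rw [e1, hg, sq]
    exact Dvd.dvd.mul_left (Nat.mul_dvd_mul_left p hd) 2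
  rw [hp.pow_dvd_iff_le_factorization (Nat.choose_pos (by omega)).ne'] at e5
  have e6 := Nat.factorization_choose_le_one (n := 2 * (k + 1)) (k := k + 1) (p := p) (by nlinarith)
  omega

lemma prime_deg (p k : ℕ) (hp : p.Prime) (h1 : k + 1 < p) (h2 : p < 2 * (k + 1)) (A B : ℤ[X])
    (h : A * B = V (2 * (k + 1)) (k + 1) X) (hl : ¬ (p : ℤ) ∣ A.leadingCoeff) :
    A.natDegree = 0 ∨ A.natDegree = 1 ∨ A.natDegree = 2 * (k + 1) - p ∨
      A.natDegree = 2 * (k + 1) - p + 1 ∨
      A.natDegree = 2 * (2 * (k + 1) - p) ∨ A.natDegree = 2 * (2 * (k + 1) - p) + 1 := by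
  have := Fact.mk hp
  let K := AlgebraicClosure (ZMod p)
  obtain ⟨ι, hι⟩ := IsAlgClosed.exists_pow_nat_eq (-1 : K) (n := 2) two_pos
  have t2 : (2 : K) ≠ 0 := by
    intro h0
    have : ((2 : ℕ) : K) = 0 := by exact_mod_cast h0
    have := Nat.le_of_dvd two_pos ((CharP.cast_eq_zero_iff K p 2).1 this)
    omega
  obtain ⟨g, g1, g2, -⟩ := central p k hp h1 h2
  obtain ⟨x, y, hA⟩ := red A
  obtain ⟨u, v, hB⟩ := red B
  have hI : ((x : ℂ) + y * Complex.I) * (u + v * Complex.I)
      = (((-1) ^ (k + 1) * g * p : ℤ) : ℂ) * (1 - Complex.I) := by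
    rw [← hA ℂ _ Complex.I_sq, ← hB ℂ _ Complex.I_sq, ← eval₂_mul, h, eval_V,
      show 2 * (k + 1) = 2 * k + 1 + 1 by ring, V_I _ _ _ Complex.I_sq, Nat.choose_symm_half, g1]
    push_cast
    ring
  obtain ⟨e, he⟩ : ∃ e : ℤ, e = (-1) ^ (k + 1) * g := ⟨_, rfl⟩
  rw [← he] at hI
  have q1 : x * u - y * v = p * e := by
    have := congrArg Complex.re hI
    simp at this
    have t : ((x * u - y * v : ℤ) : ℝ) = ((p * e : ℤ) : ℝ) := by push_cast; linarith
    exact_mod_cast t
  have q2 : x * v + y * u = -(p * e) := by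
    have := congrArg Complex.im hI
    simp at this
    have t : ((x * v + y * u : ℤ) : ℝ) = ((-(p * e) : ℤ) : ℝ) := by push_cast; linarith
    exact_mod_cast t
  have q3 : (e : K) ≠ 0 := by
    have m1 : ((-1 : K)) ^ (k + 1) ≠ 0 := pow_ne_zero _ (neg_ne_zero.2 one_ne_zero)
    have m2 : (g : K) ≠ 0 := fun h0 => g2 ((CharP.cast_eq_zero_iff K p g).1 h0)
    have m3 : (e : K) = (-1 : K) ^ (k + 1) * (g : K) := by rw [he]; simp
    rw [m3]
    exact mul_ne_zero m1 m2
  have nb : ∀ z : K, z ^ 2 = -1 → ¬ ((A.map (Int.castRingHom K)).IsRoot z ∧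
      (B.map (Int.castRingHom K)).IsRoot z) := by
    rintro z hz ⟨r1, r2⟩
    rw [IsRoot, eval_map, hA K z hz] at r1
    rw [IsRoot, eval_map, hB K z hz] at r2
    exact gauss p hp z hz t2 x y u v e q1 q2 q3 r1 r2
  have hd : (A.map (Int.castRingHom K)).natDegree = A.natDegree :=
    natDegree_map_of_leadingCoeff_ne_zero _ fun h0 =>
      hl ((CharP.intCast_eq_zero_iff K p _).1 h0)
  rw [← hd]
  refine deg_cases _ (B.map (Int.castRingHom K)) (-1) ι (-ι) _ ?_ ?_ ?_ ?_ (nb ι hι)
    (nb (-ι) (by rw [neg_sq, hι]))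
  · intro h0
    apply t2
    rw [← h0] at hι
    linear_combination hι
  · intro h0
    apply t2
    have : ι = 1 := (neg_injective h0).symm
    rw [this] at hι
    linear_combination hι
  · intro h0
    apply t2
    linear_combination (-ι) * h0 + 2 * hι
  · rw [← Polynomial.map_mul, h, mapP_V, V_charP p (k + 1) hp h1 h2, mul_assoc, ← mul_pow]
    have hC : (C ι : K[X]) ^ 2 = -1 := by rw [← C_pow, hι]; simp
    have c1 : (1 + X : K[X]) = X - C (-1) := by simp [add_comm]
    have c2 : (X ^ 2 + 1 : K[X]) = (X - C ι) * (X - C (-ι)) := by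
      rw [C_neg]
      linear_combination hC
    rw [c1, c2]

lemma even_factor (m : ℕ) (A B : ℤ[X]) (h : A * B = V (2 * m) m X) : A.natDegree % 2 = 0 := by
  rw [← natDegree_map_eq_of_injective (f := Int.castRingHom ℝ) Int.cast_injective]
  apply even_deg
  intro x hx
  rw [IsRoot, eval_map] at hx
  apply V_real_ne (2 * m) m le_rfl x
  rw [← eval_V, ← h, eval₂_mul, hx, zero_mul]

lemma value_ge (m : ℕ) (A B : ℤ[X]) (h : A * B = V (2 * m) m X) (x : ℤ) (t : ℕ)
    (hx : (t : ℤ) + 1 ≤ |x|) : (t : ℤ) ^ A.natDegree ≤ |A.eval x| := by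
  have hV : V (2 * m) m (X : ℤ[X]) ≠ 0 := by
    intro h0
    have := V_coeff (2 * m) m 0
    rw [h0] at this
    simp at this
  have hA : A ≠ 0 := left_ne_zero_of_mul (h ▸ hV)
  have inj : Function.Injective (Int.castRingHom ℂ) := Int.cast_injective
  have hA' : A.map (Int.castRingHom ℂ) ≠ 0 := (Polynomial.map_ne_zero_iff inj).2 hA
  have e := (IsAlgClosed.splits (A.map (Int.castRingHom ℂ))).eval_eq_prod_roots (x : ℂ)
  have b := prod_ge (t : ℝ) (Nat.cast_nonneg t) (x : ℂ)
    (by rw [Complex.norm_intCast]; exact_mod_cast hx) (A.map (Int.castRingHom ℂ)).roots (by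
      intro a ha
      rw [mem_roots hA', IsRoot, eval_map] at ha
      apply V_root_le (2 * m) m le_rfl a
      rw [← eval_V, ← h, eval₂_mul, ha, zero_mul])
  rw [IsAlgClosed.card_roots_eq_natDegree, natDegree_map_eq_of_injective inj] at b
  have e2 : (A.map (Int.castRingHom ℂ)).eval (x : ℂ) = ((A.eval x : ℤ) : ℂ) := by
    rw [eval_intCast_map]; simp
  have e3 : (1 : ℝ) ≤ ‖(A.map (Int.castRingHom ℂ)).leadingCoeff‖ := by
    rw [leadingCoeff_map_of_injective inj]
    simp only [eq_intCast, Complex.norm_intCast]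
    exact_mod_cast Int.one_le_abs (leadingCoeff_ne_zero.2 hA)
  have e4 := congrArg norm e
  rw [e2, norm_mul, Complex.norm_intCast] at e4
  have e5 : (t : ℝ) ^ A.natDegree ≤ |((A.eval x : ℤ) : ℝ)| := by
    rw [e4]
    exact b.trans (le_mul_of_one_le_left (norm_nonneg _) e3)
  exact_mod_cast e5

lemma value_half (m : ℕ) (A B : ℤ[X]) (h : A * B = V (2 * m) m X) (x : ℤ) (t d c q : ℕ)
    (hx : (t : ℤ) + 1 ≤ |x|) (ht : 1 ≤ t) (hq : q.Prime) (hc : 0 < c) (hv : V (2 * m) m x = q * c)
    (hd : d ≤ A.natDegree) (hlt : c < t ^ d) (hB : (q : ℤ) ∣ B.eval x) : False := by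
  have e : A.eval x * B.eval x = q * c := by
    rw [← hv, ← eval_mul, h]
    have := map_V (evalRingHom x) (2 * m) m X
    simpa using this
  obtain ⟨w, hw⟩ := hB
  have hq0 : (q : ℤ) ≠ 0 := by exact_mod_cast hq.ne_zero
  have e2 : A.eval x * w = c := by
    apply mul_left_cancel₀ hq0
    rw [← e, hw]; ring
  have e3 : |A.eval x| ≤ c :=
    Int.le_of_dvd (by exact_mod_cast hc) ((abs_dvd _ _).2 ⟨w, e2.symm⟩)
  have e4 := value_ge m A B h x t hx
  have e5 : t ^ d ≤ t ^ A.natDegree := Nat.pow_le_pow_right ht hd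
  have e6 : ((t ^ A.natDegree : ℕ) : ℤ) ≤ c := by push_cast; exact e4.trans e3
  have e7 : t ^ A.natDegree ≤ c := by exact_mod_cast e6
  omega

lemma value_case (m : ℕ) (A B : ℤ[X]) (h : A * B = V (2 * m) m X) (x : ℤ) (t d c q : ℕ)
    (hx : (t : ℤ) + 1 ≤ |x|) (ht : 1 ≤ t) (hq : q.Prime) (hc : 0 < c) (hv : V (2 * m) m x = q * c)
    (hd : d ≤ A.natDegree) (hd' : d ≤ B.natDegree) (hlt : c < t ^ d) : False := by
  have e : A.eval x * B.eval x = q * c := by
    rw [← hv, ← eval_mul, h]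
    have := map_V (evalRingHom x) (2 * m) m X
    simpa using this
  have : (q : ℤ) ∣ A.eval x * B.eval x := ⟨c, e⟩
  rcases (Nat.prime_iff_prime_int.1 hq).dvd_or_dvd this with h1 | h1
  · exact value_half m B A (by rw [mul_comm, h]) x t d c q hx ht hq hc hv hd' hlt h1
  · exact value_half m A B h x t d c q hx ht hq hc hv hd hlt h1

lemma no_split (m : ℕ) (hm : 1 ≤ m) (A B : ℤ[X]) (h : A * B = V (2 * m) m X) :
    A.natDegree = 0 ∨ B.natDegree = 0 := by
  by_contra hc
  have hl : A.leadingCoeff * B.leadingCoeff = (2 * m).choose m := by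
    rw [← leadingCoeff_mul, h, V_lead _ _ (by omega)]
  have hV : A * B ≠ 0 := by
    intro h0
    have := V_coeff (2 * m) m 0
    rw [← h, h0] at this
    simp at this
  have hd : A.natDegree + B.natDegree = 2 * m := by
    rw [← natDegree_mul (left_ne_zero_of_mul hV) (right_ne_zero_of_mul hV), h,
      V_natDegree _ _ (by omega)]
  have eA := even_factor m A B h
  have eB := even_factor m B A (by rw [mul_comm, h])
  have S := survivors m A.natDegree eA (by omega) (by omega) (by
    intro p hp h1 h2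
    obtain ⟨k, rfl⟩ : ∃ k, m = k + 1 := ⟨m - 1, by omega⟩
    obtain ⟨g, -, g2, g3⟩ := central p k hp h1 h2
    have hodd : p % 2 = 1 := (hp.eq_two_or_odd).resolve_left (by omega)
    by_cases a1 : (p : ℤ) ∣ A.leadingCoeff
    · have a2 : ¬ (p : ℤ) ∣ B.leadingCoeff := by
        intro a2
        have a3 := mul_dvd_mul a1 a2
        rw [hl, g3] at a3
        have a4 : p * p ∣ p * (2 * g) := by
          rw [show p * (2 * g) = 2 * (p * g) by ring]
          exact_mod_cast a3
        have a5 := Nat.dvd_of_mul_dvd_mul_left hp.pos a4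
        rcases hp.dvd_mul.1 a5 with a6 | a6
        · have := Nat.le_of_dvd two_pos a6
          omega
        · exact g2 a6
      have := prime_deg p k hp h1 h2 B A (by rw [mul_comm, h]) a2
      omega
    · have := prime_deg p k hp h1 h2 A B h a1
      omega)
  rcases S with rfl | rfl | rfl | ⟨rfl, s1, s2⟩ | rfl | ⟨rfl, s1, s2⟩
  · exact value_case 2 A B h 4 3 2 1 1861 (by norm_num) (by norm_num) pr2 (by norm_num)
      (by simp [V, Finset.sum_range_succ, Nat.choose]) (by omega) (by omega) (by norm_num)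
  · exact value_case 3 A B h (-6) 5 2 5 166967 (by norm_num) (by norm_num) pr3 (by norm_num)
      (by simp [V, Finset.sum_range_succ, Nat.choose]) (by omega) (by omega) (by norm_num)
  · exact value_case 4 A B h 4 3 2 5 1154177 (by norm_num) (by norm_num) pr4 (by norm_num)
      (by simp [V, Finset.sum_range_succ, Nat.choose]) (by omega) (by omega) (by norm_num)
  · exact value_case 5 A B h 3 2 4 4 5189113 (by norm_num) (by norm_num) pr5 (by norm_num)
      (by simp [V, Finset.sum_range_succ, Nat.choose]) (by omega) (by omega) (by norm_num)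
  · exact value_case 6 A B h 4 3 2 1 19821301189 (by norm_num) (by norm_num) pr6 (by norm_num)
      (by simp [V, Finset.sum_range_succ, Nat.choose]) (by omega) (by omega) (by norm_num)
  · exact value_case 8 A B h 6 5 6 10613 4024025146187 (by norm_num) (by norm_num) pr8
      (by norm_num) (by simp [V, Finset.sum_range_succ, Nat.choose]) (by omega) (by omega)
      (by norm_num)

lemma V_irred (m : ℕ) (hm : 1 ≤ m) : Irreducible (V (2 * m) m (X : ℚ[X])) := by
  have hprim : (V (2 * m) m (X : ℤ[X])).IsPrimitive := by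
    intro r hr
    have := (C_dvd_iff_dvd_coeff _ _).1 hr 0
    rw [V_coeff] at this
    simp at this
    exact isUnit_of_dvd_one this
  rw [← mapP_V, ← IsPrimitive.Int.irreducible_iff_irreducible_map_cast hprim]
  refine ⟨fun hu => ?_, fun A B h => ?_⟩
  · have := natDegree_eq_zero_of_isUnit hu
    rw [V_natDegree _ _ (by omega)] at this
    omega
  · rcases no_split m hm A B h.symm with h0 | h0
    · left
      rw [eq_C_of_natDegree_eq_zero h0] at h ⊢
      exact isUnit_C.2 (hprim _ ⟨B, h⟩)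
    · right
      rw [eq_C_of_natDegree_eq_zero h0] at h ⊢
      exact isUnit_C.2 (hprim _ ⟨A, by rw [h, mul_comm]⟩)

theorem main (n : ℕ) (hn : Even n) (h2 : 2 ≤ n) :
    Irreducible (∑ k ∈ Finset.range (n + 1),
      C ((n.choose ((n - k) / 2) : ℕ) : ℚ) * X ^ (n - k) : ℚ[X]) := by
  obtain ⟨m, rfl⟩ := hn
  have e := Finset.sum_range_reflect
    (fun j => (C (((m + m).choose (j / 2) : ℕ) : ℚ) * X ^ j : ℚ[X])) (m + m + 1)
  simp only [Nat.add_sub_cancel] at e
  rw [e]
  have := V_irred m (by omega)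
  unfold V at this
  rw [two_mul] at this
  simpa only [map_natCast] using this

end Pool.Agent.H73.Pas
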