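import Pool.Agent.H73.Pas4

set_option autoImplicit false

namespace Pool.Agent.H73.Pas

open Polynomial

lemma survivors2 (m d : ℕ) (h2 : 1 ≤ d) (hm : d + 1 ≤ 2 * m)
    (H : ∀ p : ℕ, p.Prime → m + 1 < p → p < 2 * (m + 1) →
      p + d = 2 * m + 1 ∨ 2 * p + d = 4 * m + 2 ∨ p = d + 1 ∨ 2 * p = 2 * m + 2 + d) :
    m = 4 ∨ m = 7 ∨ m = 10 := by
  by_cases e1 : m = 1
  · have := H 3 (by norm_num) (by omega) (by omega)
    omega
  by_cases e2 : m = 2
  · have := H 5 (by norm_num) (by omega) (by omega)
    omega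
  by_cases e3 : m = 3
  · have := H 5 (by norm_num) (by omega) (by omega)
    have := H 7 (by norm_num) (by omega) (by omega)
    omega
  by_cases e4 : m = 4
  · have := H 7 (by norm_num) (by omega) (by omega)
    omega
  by_cases e5 : m = 5
  · have := H 7 (by norm_num) (by omega) (by omega)
    have := H 11 (by norm_num) (by omega) (by omega)
    omega
  by_cases e6 : m = 6
  · have := H 11 (by norm_num) (by omega) (by omega)
    have := H 13 (by norm_num) (by omega) (by omega)
    omega
  by_cases e7 : m = 7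
  · have := H 11 (by norm_num) (by omega) (by omega)
    have := H 13 (by norm_num) (by omega) (by omega)
    omega
  by_cases e8 : m = 8
  · have := H 11 (by norm_num) (by omega) (by omega)
    have := H 13 (by norm_num) (by omega) (by omega)
    have := H 17 (by norm_num) (by omega) (by omega)
    omega
  by_cases e9 : m = 9
  · have := H 11 (by norm_num) (by omega) (by omega)
    have := H 13 (by norm_num) (by omega) (by omega)
    have := H 17 (by norm_num) (by omega) (by omega)
    have := H 19 (by norm_num) (by omega) (by omega)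
    omega
  by_cases e10 : m = 10
  · have := H 13 (by norm_num) (by omega) (by omega)
    have := H 17 (by norm_num) (by omega) (by omega)
    have := H 19 (by norm_num) (by omega) (by omega)
    omega
  by_cases e11 : m = 11
  · have := H 13 (by norm_num) (by omega) (by omega)
    have := H 17 (by norm_num) (by omega) (by omega)
    have := H 19 (by norm_num) (by omega) (by omega)
    have := H 23 (by norm_num) (by omega) (by omega)
    omega
  by_cases e12 : m = 12
  · have := H 17 (by norm_num) (by omega) (by omega)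
    have := H 19 (by norm_num) (by omega) (by omega)
    have := H 23 (by norm_num) (by omega) (by omega)
    omega
  by_cases e13 : m = 13
  · have := H 17 (by norm_num) (by omega) (by omega)
    have := H 19 (by norm_num) (by omega) (by omega)
    have := H 23 (by norm_num) (by omega) (by omega)
    omega
  by_cases e14 : m = 14
  · have := H 17 (by norm_num) (by omega) (by omega)
    have := H 19 (by norm_num) (by omega) (by omega)
    have := H 23 (by norm_num) (by omega) (by omega)
    have := H 29 (by norm_num) (by omega) (by omega)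
    omega
  by_cases e15 : m = 15
  · have := H 17 (by norm_num) (by omega) (by omega)
    have := H 19 (by norm_num) (by omega) (by omega)
    have := H 23 (by norm_num) (by omega) (by omega)
    have := H 29 (by norm_num) (by omega) (by omega)
    have := H 31 (by norm_num) (by omega) (by omega)
    omega
  by_cases e16 : m = 16
  · have := H 19 (by norm_num) (by omega) (by omega)
    have := H 23 (by norm_num) (by omega) (by omega)
    have := H 29 (by norm_num) (by omega) (by omega)
    have := H 31 (by norm_num) (by omega) (by omega)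
    omega
  by_cases e17 : m = 17
  · have := H 19 (by norm_num) (by omega) (by omega)
    have := H 23 (by norm_num) (by omega) (by omega)
    have := H 29 (by norm_num) (by omega) (by omega)
    have := H 31 (by norm_num) (by omega) (by omega)
    omega
  by_cases e18 : m = 18
  · have := H 23 (by norm_num) (by omega) (by omega)
    have := H 29 (by norm_num) (by omega) (by omega)
    have := H 31 (by norm_num) (by omega) (by omega)
    have := H 37 (by norm_num) (by omega) (by omega)
    omega
  by_cases e19 : m = 19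
  · have := H 23 (by norm_num) (by omega) (by omega)
    have := H 29 (by norm_num) (by omega) (by omega)
    have := H 31 (by norm_num) (by omega) (by omega)
    have := H 37 (by norm_num) (by omega) (by omega)
    omega
  by_cases h21 : m + 1 ≤ 22
  · have := H 23 (by norm_num) (by omega) (by omega)
    have := H 29 (by norm_num) (by omega) (by omega)
    have := H 31 (by norm_num) (by omega) (by omega)
    have := H 37 (by norm_num) (by omega) (by omega)
    have := H 41 (by norm_num) (by omega) (by omega)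
    omega
  by_cases h23 : m + 1 ≤ 28
  · have := H 29 (by norm_num) (by omega) (by omega)
    have := H 31 (by norm_num) (by omega) (by omega)
    have := H 37 (by norm_num) (by omega) (by omega)
    have := H 41 (by norm_num) (by omega) (by omega)
    have := H 43 (by norm_num) (by omega) (by omega)
    omega
  by_cases h29 : m + 1 ≤ 36
  · have := H 37 (by norm_num) (by omega) (by omega)
    have := H 41 (by norm_num) (by omega) (by omega)
    have := H 43 (by norm_num) (by omega) (by omega)
    have := H 47 (by norm_num) (by omega) (by omega)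
    have := H 53 (by norm_num) (by omega) (by omega)
    omega
  by_cases h37 : m + 1 ≤ 58
  · have := H 59 (by norm_num) (by omega) (by omega)
    have := H 61 (by norm_num) (by omega) (by omega)
    have := H 67 (by norm_num) (by omega) (by omega)
    have := H 71 (by norm_num) (by omega) (by omega)
    have := H 73 (by norm_num) (by omega) (by omega)
    omega
  by_cases h59 : m + 1 ≤ 100
  · have := H 101 (by norm_num) (by omega) (by omega)
    have := H 103 (by norm_num) (by omega) (by omega)
    have := H 107 (by norm_num) (by omega) (by omega)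
    have := H 109 (by norm_num) (by omega) (by omega)
    have := H 113 (by norm_num) (by omega) (by omega)
    omega
  by_cases h101 : m + 1 ≤ 180
  · have := H 181 (by norm_num) (by omega) (by omega)
    have := H 191 (by norm_num) (by omega) (by omega)
    have := H 193 (by norm_num) (by omega) (by omega)
    have := H 197 (by norm_num) (by omega) (by omega)
    have := H 199 (by norm_num) (by omega) (by omega)
    omega
  by_cases h181 : m + 1 ≤ 336
  · have := H 337 (by norm_num) (by omega) (by omega)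
    have := H 347 (by norm_num) (by omega) (by omega)
    have := H 349 (by norm_num) (by omega) (by omega)
    have := H 353 (by norm_num) (by omega) (by omega)
    have := H 359 (by norm_num) (by omega) (by omega)
    omega
  by_cases h337 : m + 1 ≤ 646
  · have := H 647 (by norm_num) (by omega) (by omega)
    have := H 653 (by norm_num) (by omega) (by omega)
    have := H 659 (by norm_num) (by omega) (by omega)
    have := H 661 (by norm_num) (by omega) (by omega)
    have := H 673 (by norm_num) (by omega) (by omega)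
    omega
  by_cases h647 : m + 1 ≤ 1276
  · have := H 1277 (by norm_num) (by omega) (by omega)
    have := H 1279 (by norm_num) (by omega) (by omega)
    have := H 1283 (by norm_num) (by omega) (by omega)
    have := H 1289 (by norm_num) (by omega) (by omega)
    have := H 1291 (by norm_num) (by omega) (by omega)
    omega
  exfalso
  have a1 : 4 ^ (m + 1) < (m + 1) * (m + 1).centralBinom :=
    Nat.four_pow_lt_mul_centralBinom (m + 1) (by omega)
  have a2 := cb_le (m + 1) (by omega) {2 * m + 1 - d, 2 * m + 1 - d / 2, d + 1, m + 1 + d / 2}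
    Finset.card_le_four (by
      intro p hp h1 h2'
      have h3 : p ≠ 2 * (m + 1) := by
        intro h
        have := hp.eq_one_or_self_of_dvd 2 (by rw [h]; exact Dvd.intro _ rfl)
        omega
      have := H p hp h1 (by omega)
      simp only [Finset.mem_insert, Finset.mem_singleton]
      omega)
  have a3 := main_ineq (m + 1) (by omega)
  have a4 := Nat.mul_le_mul_left (m + 1) a2
  omega

/-- `∑_(i ≤ k) C(N,i) z^(2i)`. -/
def W {R : Type} [CommRing R] (N k : ℕ) (z : R) : R :=
  ∑ i ∈ Finset.range (k + 1), ((N.choose i : ℕ) : R) * z ^ (2 * i)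

/-- the Pascalian polynomial. -/
def PP {R : Type} [CommRing R] (n : ℕ) (z : R) : R :=
  ∑ j ∈ Finset.range (n + 1), ((n.choose (j / 2) : ℕ) : R) * z ^ j

lemma map_W {R S : Type} [CommRing R] [CommRing S] (φ : R →+* S) (N k : ℕ) (z : R) :
    φ (W N k z) = W N k (φ z) := by simp [W, map_sum]

lemma map_PP {R S : Type} [CommRing R] [CommRing S] (φ : R →+* S) (n : ℕ) (z : R) :
    φ (PP n z) = PP n (φ z) := by simp [PP, map_sum]

lemma W_succ {R : Type} [CommRing R] (N k : ℕ) (z : R) :
    W N (k + 1) z = W N k z + (N.choose (k + 1) : R) * z ^ (2 * (k + 1)) :=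
  Finset.sum_range_succ _ _

lemma VW {R : Type} [CommRing R] (N k : ℕ) (z : R) :
    V N k z + (N.choose k : R) * z ^ (2 * k + 1) = (1 + z) * W N k z := by
  induction k with
  | zero => simp [V_zero, W]
  | succ k ih => rw [V_succ, W_succ]; linear_combination ih

lemma PP_odd {R : Type} [CommRing R] (m : ℕ) (z : R) :
    PP (2 * m + 1) z = (1 + z) * W (2 * m + 1) m z := by
  rw [← VW, PP, Finset.sum_range_succ, show (2 * m + 1) / 2 = m by omega]
  rfl

lemma W_I {R : Type} [CommRing R] (N k : ℕ) (z : R) (hz : z ^ 2 = -1) :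
    W (N + 1) k z = (-1) ^ k * (N.choose k : R) := by
  induction k with
  | zero => simp [W]
  | succ k ih => rw [W_succ, ih, Nat.choose_succ_succ', pow_mul, hz]; push_cast; ring

lemma W_charP {R : Type} [CommRing R] (p m : ℕ) [CharP R p] (hp : p.Prime) (h1 : m + 1 < p)
    (h2 : p < 2 * (m + 1)) (z : R) : W (2 * m + 1) m z = (z ^ 2 + 1) ^ (2 * m + 1 - p) := by
  have := Fact.mk hp
  have h0 : ∀ r k, r ≤ k → W r k z = (z ^ 2 + 1) ^ r := by
    intro r k hk
    induction k, hk using Nat.le_induction with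
    | base => rw [add_pow, W]; exact Finset.sum_congr rfl fun i _ => by rw [pow_mul]; ring
    | succ k hk ih => rw [W_succ, ih, Nat.choose_eq_zero_of_lt (by omega)]; simp
  rw [← h0 (2 * m + 1 - p) m (by omega)]
  refine Finset.sum_congr rfl fun i hi => ?_
  rw [Finset.mem_range] at hi
  congr 1
  refine (CharP.natCast_eq_natCast R p).2 ?_
  have h := @Choose.choose_modEq_choose_mod_mul_choose_div_nat (2 * m + 1) i p _
  rw [Nat.mod_eq_sub_mod (by omega : 2 * m + 1 ≥ p), Nat.mod_eq_of_lt (by omega),
    Nat.mod_eq_of_lt (by omega : i < p), Nat.div_eq_of_lt (by omega : i < p)] at h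
  simpa using h

lemma W_coeff (N k j : ℕ) : (W N k (X : ℤ[X])).coeff j
    = ∑ i ∈ Finset.range (k + 1), if j = 2 * i then (N.choose i : ℤ) else 0 := by
  unfold W
  simp only [finsetSum_coeff, ← C_eq_natCast, coeff_C_mul_X_pow]

lemma W_top (N k : ℕ) : (W N k (X : ℤ[X])).coeff (2 * k) = N.choose k := by
  rw [W_coeff, Finset.sum_range_succ, if_pos rfl, Finset.sum_eq_zero, zero_add]
  intro i hi
  rw [if_neg (by have := Finset.mem_range.1 hi; omega)]

lemma W_natDegree (N k : ℕ) (hk : k ≤ N) : (W N k (X : ℤ[X])).natDegree = 2 * k := by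
  apply natDegree_eq_of_le_of_coeff_ne_zero
  · rw [natDegree_le_iff_coeff_eq_zero]
    intro j hj
    rw [W_coeff]
    exact Finset.sum_eq_zero fun i hi => if_neg (by have := Finset.mem_range.1 hi; omega)
  · rw [W_top]
    exact_mod_cast (Nat.choose_pos hk).ne'

lemma W_ne (N k : ℕ) (hk : k ≤ N) : W N k (X : ℤ[X]) ≠ 0 := fun h => by
  have := W_top N k
  rw [h, coeff_zero] at this
  exact (Nat.choose_pos hk).ne' (by exact_mod_cast this.symm)

lemma PP_coeff (n j : ℕ) : (PP n (X : ℤ[X])).coeff j
    = if j < n + 1 then (n.choose (j / 2) : ℤ) else 0 := by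
  unfold PP
  simp only [finsetSum_coeff, ← C_eq_natCast, coeff_C_mul_X_pow]
  rw [Finset.sum_ite_eq]
  simp

lemma PP_ne (n : ℕ) : PP n (X : ℤ[X]) ≠ 0 := fun h => by
  have := PP_coeff n 0
  rw [h] at this
  simp at this

lemma PP_deg (n : ℕ) : (PP n (X : ℤ[X])).natDegree ≤ n := by
  rw [natDegree_le_iff_coeff_eq_zero]
  intro j hj
  rw [PP_coeff, if_neg (by omega)]

lemma eval_W {R : Type} [CommRing R] (N k : ℕ) (z : R) :
    (W N k (X : ℤ[X])).eval₂ (Int.castRingHom R) z = W N k z := by
  simpa using map_W (eval₂RingHom (Int.castRingHom R) z) N k X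

lemma even_factor2 (N k : ℕ) (A B : ℤ[X]) (h : A * B = W N k X) : A.natDegree % 2 = 0 := by
  rw [← natDegree_map_eq_of_injective (f := Int.castRingHom ℝ) Int.cast_injective]
  apply even_deg
  intro x hx
  rw [IsRoot, eval_map] at hx
  have : ∀ k, 0 < W N k x := by
    intro k
    induction k with
    | zero => simp [W]
    | succ k ih => rw [W_succ, mul_comm 2, pow_mul]; positivity
  apply (this k).ne'
  rw [← eval_W, ← h, eval₂_mul, hx, zero_mul]

lemma prime_deg2 (p m : ℕ) (hp : p.Prime) (h1 : m + 1 < p) (h2 : p < 2 * (m + 1)) (A B : ℤ[X])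
    (h : A * B = W (2 * m + 1) m X) (hl : ¬ (p : ℤ) ∣ A.leadingCoeff) :
    A.natDegree = 0 ∨ A.natDegree = 1 ∨ A.natDegree = 2 * m + 1 - p ∨
      A.natDegree = 2 * m + 1 - p + 1 ∨
      A.natDegree = 2 * (2 * m + 1 - p) ∨ A.natDegree = 2 * (2 * m + 1 - p) + 1 := by
  have := Fact.mk hp
  let K := AlgebraicClosure (ZMod p)
  obtain ⟨ι, hι⟩ := IsAlgClosed.exists_pow_nat_eq (-1 : K) (n := 2) two_pos
  have t2 : (2 : K) ≠ 0 := by
    intro h0
    have : ((2 : ℕ) : K) = 0 := by exact_mod_cast h0
    have := Nat.le_of_dvd two_pos ((CharP.cast_eq_zero_iff K p 2).1 this)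
    omega
  obtain ⟨x, y, hA⟩ := red A
  obtain ⟨u, v, hB⟩ := red B
  have nb : ∀ z : K, z ^ 2 = -1 → ¬ ((A.map (Int.castRingHom K)).IsRoot z ∧
      (B.map (Int.castRingHom K) * (X - C (-1))).IsRoot z) := by
    rintro z hz ⟨r1, r2⟩
    have z1 : z + 1 ≠ 0 := fun h0 => t2 (by linear_combination (1 - z) * h0 + hz)
    rw [IsRoot, eval_mul, eval_map, hB K z hz] at r2
    have r3 : (u : K) + v * z = 0 := (mul_eq_zero.1 r2).resolve_right (by simpa using z1)
    rw [IsRoot, eval_map, hA K z hz] at r1
    by_cases hpm : p = 2 * m + 1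
    · have := eval_W (2 * m + 1) m z
      rw [← h, eval₂_mul, hA K z hz, r1, W_charP p m hp h1 h2,
        show 2 * m + 1 - p = 0 by omega] at this
      simp at this
    have hodd : p % 2 = 1 := (hp.eq_two_or_odd).resolve_left (by omega)
    obtain ⟨k, rfl⟩ : ∃ k, m = k + 1 := ⟨m - 1, by omega⟩
    obtain ⟨g, -, g2, g3⟩ := central p k hp (by omega) (by omega)
    obtain ⟨e, he⟩ : ∃ e : ℤ, e = (-1) ^ (k + 1) * (2 * g) := ⟨_, rfl⟩
    have hI : ((x : ℂ) + y * Complex.I) * (u + v * Complex.I) = ((p * e : ℤ) : ℂ) := by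
      rw [← hA ℂ _ Complex.I_sq, ← hB ℂ _ Complex.I_sq, ← eval₂_mul, h, eval_W,
        W_I _ _ _ Complex.I_sq, g3, he]
      push_cast
      ring
    have q1 : x * u - y * v = p * e := by
      have := congrArg Complex.re hI
      simp at this
      exact_mod_cast this
    have q2 : x * v + y * u = 0 := by
      have := congrArg Complex.im hI
      simp at this
      exact_mod_cast this
    have q3 : (e : K) ≠ 0 := by
      have m1 : ((-1 : K)) ^ (k + 1) ≠ 0 := pow_ne_zero _ (neg_ne_zero.2 one_ne_zero)
      have m2 : (g : K) ≠ 0 := fun h0 => g2 ((CharP.cast_eq_zero_iff K p g).1 h0)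
      have m3 : (e : K) = (-1 : K) ^ (k + 1) * (2 * (g : K)) := by rw [he]; simp
      rw [m3]
      exact mul_ne_zero m1 (mul_ne_zero t2 m2)
    exact gauss p hp z hz t2 (x + y) (y - x) u v e (by linear_combination q1 + q2)
      (by linear_combination q2 - q1) q3
      (by push_cast; linear_combination (1 - z) * r1 + (y : K) * hz) r3
  have hd : (A.map (Int.castRingHom K)).natDegree = A.natDegree :=
    natDegree_map_of_leadingCoeff_ne_zero _ fun h0 =>
      hl ((CharP.intCast_eq_zero_iff K p _).1 h0)
  rw [← hd]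
  refine deg_cases _ _ (-1) ι (-ι) _ ?_ ?_ ?_ ?_ (nb ι hι) (nb (-ι) (by rw [neg_sq, hι]))
  · intro h0
    apply t2
    rw [← h0] at hι
    linear_combination hι
  · intro h0
    apply t2
    have : ι = 1 := (neg_injective h0).symm
    rw [this] at hι
    linear_combination hι
  · intro h0
    apply t2
    linear_combination (-ι) * h0 + 2 * hι
  · have e := map_W (mapRingHom (Int.castRingHom K)) (2 * m + 1) m X
    simp only [coe_mapRingHom, map_X] at e
    rw [← mul_assoc, ← Polynomial.map_mul, h, e, W_charP p m hp h1 h2, mul_assoc, ← mul_pow]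
    have hC : (C ι : K[X]) ^ 2 = -1 := by rw [← C_pow, hι]; simp
    have c2 : (X ^ 2 + 1 : K[X]) = (X - C ι) * (X - C (-ι)) := by
      rw [C_neg]
      linear_combination hC
    rw [c2, mul_comm]

lemma no_split2 (m : ℕ) (A B : ℤ[X]) (h : A * B = W (2 * m + 1) m X) :
    (A.natDegree = 0 ∨ B.natDegree = 0) ∨ m = 4 ∨ m = 7 ∨ m = 10 := by
  by_cases hc : A.natDegree = 0 ∨ B.natDegree = 0
  · exact Or.inl hc
  right
  have hl : A.leadingCoeff * B.leadingCoeff = (2 * m + 1).choose m := by
    rw [← leadingCoeff_mul, h, leadingCoeff, W_natDegree _ _ (by omega), W_top]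
  have hV : A * B ≠ 0 := h ▸ W_ne _ _ (by omega)
  have hd : A.natDegree + B.natDegree = 2 * m := by
    rw [← natDegree_mul (left_ne_zero_of_mul hV) (right_ne_zero_of_mul hV), h,
      W_natDegree _ _ (by omega)]
  have eA := even_factor2 _ m A B h
  have eB := even_factor2 _ m B A (by rw [mul_comm, h])
  refine survivors2 m A.natDegree (by omega) (by omega) fun p hp h1 h2 => ?_
  have hodd : p % 2 = 1 := (hp.eq_two_or_odd).resolve_left (by omega)
  by_cases a1 : (p : ℤ) ∣ A.leadingCoeff
  · have a2 : ¬ (p : ℤ) ∣ B.leadingCoeff := by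
      intro a2
      have a3 := mul_dvd_mul a1 a2
      rw [hl, ← sq] at a3
      have a4 : p ^ 2 ∣ (2 * m + 1).choose m := by exact_mod_cast a3
      rw [hp.pow_dvd_iff_le_factorization (Nat.choose_pos (by omega)).ne'] at a4
      have := Nat.factorization_choose_le_one (n := 2 * m + 1) (k := m) (p := p) (by nlinarith)
      omega
    have := prime_deg2 p m hp h1 h2 B A (by rw [mul_comm, h]) a2
    omega
  · have := prime_deg2 p m hp h1 h2 A B h a1
    omega

lemma common (F G : ℤ[X]) (hF : F ≠ 0) (z : ℂ) (h1 : F.eval₂ (Int.castRingHom ℂ) z = 0)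
    (h2 : G.eval₂ (Int.castRingHom ℂ) z = 0) : ∃ g : ℤ[X], 0 < g.natDegree ∧ g ∣ F ∧ g ∣ G := by
  induction F using WfDvdMonoid.induction_on_irreducible with
  | zero => exact absurd rfl hF
  | unit u hu =>
    have := hu.map (eval₂RingHom (Int.castRingHom ℂ) z)
    rw [coe_eval₂RingHom, h1] at this
    exact absurd this not_isUnit_zero
  | mul a q ha hq ih =>
    rw [eval₂_mul] at h1
    rcases mul_eq_zero.1 h1 with h | h
    · have hd : q.natDegree ≠ 0 := by
        intro h0
        rw [eq_C_of_natDegree_eq_zero h0, eval₂_C] at h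
        have : q.coeff 0 = 0 := by simpa using h
        exact hq.ne_zero (by rw [eq_C_of_natDegree_eq_zero h0, this, C_0])
      have hpr := hq.isPrimitive hd
      have hir := (IsPrimitive.Int.irreducible_iff_irreducible_map_cast hpr).1 hq
      have ae : ∀ f : ℤ[X], aeval z (f.map (Int.castRingHom ℚ))
          = f.eval₂ (Int.castRingHom ℂ) z := fun f => by
        rw [aeval_def, eval₂_map]
        congr 1
      refine ⟨q, by omega, Dvd.intro _ rfl, ?_⟩
      have e1 := minpoly.dvd ℚ z (p := G.map (Int.castRingHom ℚ)) (by rw [ae, h2])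
      have e2 := minpoly.eq_of_irreducible hir (x := z) (by rw [ae, h])
      rw [← e2] at e1
      exact IsPrimitive.dvd_of_fraction_map_dvd_fraction_map (K := ℚ) hpr
        (dvd_of_mul_right_dvd e1)
    · obtain ⟨g, g1, g2, g3⟩ := ih ha h
      exact ⟨g, g1, g2.mul_left _, g3⟩

lemma W_root_le (N k : ℕ) (hk : 2 * k ≤ N) (z : ℂ) (h : W N k z = 0) : ‖z‖ ≤ 1 := by
  by_contra hz
  have hz : 1 < ‖z ^ 2‖ := by rw [norm_pow]; nlinarith [not_le.1 hz]
  have : ∀ k, 2 * k ≤ N → ‖(1 - z ^ 2) * W N k z + (N.choose k : ℂ) * (z ^ 2) ^ (k + 1)‖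
      ≤ (N.choose k : ℝ) * ‖z ^ 2‖ ^ k := by
    intro k
    induction k with
    | zero => intro _; simp [W]
    | succ k ih =>
      intro hk
      have ih' := ih (by omega)
      have hm0 : N.choose k ≤ N.choose (k + 1) := Nat.choose_le_succ_of_lt_half_left (by omega)
      obtain ⟨w, hw⟩ := Nat.exists_eq_add_of_le hm0
      have : (1 - z ^ 2) * W N (k + 1) z + (N.choose (k + 1) : ℂ) * (z ^ 2) ^ (k + 1 + 1)
          = ((1 - z ^ 2) * W N k z + (N.choose k : ℂ) * (z ^ 2) ^ (k + 1))
            + (w : ℂ) * (z ^ 2) ^ (k + 1) := by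
        rw [W_succ, hw]; push_cast; ring
      rw [this, hw]
      refine (norm_add_le _ _).trans ?_
      have b1 : ‖(w : ℂ) * (z ^ 2) ^ (k + 1)‖ = (w : ℝ) * ‖z ^ 2‖ ^ (k + 1) := by simp
      have b2 : ‖z ^ 2‖ ^ k ≤ ‖z ^ 2‖ ^ (k + 1) := pow_le_pow_right₀ hz.le (by omega)
      have b3 := mul_le_mul_of_nonneg_left b2 (Nat.cast_nonneg (N.choose k) : (0 : ℝ) ≤ _)
      rw [b1]
      push_cast
      linarith
  have h1 := this k hk
  rw [h, mul_zero, zero_add, norm_mul, norm_pow, Complex.norm_natCast,
    pow_succ ‖z ^ 2‖, ← mul_assoc] at h1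
  have b2 : (0 : ℝ) < (N.choose k : ℝ) * ‖z ^ 2‖ ^ k := by
    have : 0 < N.choose k := Nat.choose_pos (by omega)
    positivity
  nlinarith

lemma small_case (m t n : ℕ) (g : ℤ[X]) (h1 : 0 < g.natDegree) (hQ : g ∣ W (2 * m + 1) m X)
    (hG : g ∣ PP n X) (hx : Int.gcd (W (2 * m + 1) m ((t : ℤ) + 1)) (PP n ((t : ℤ) + 1)) < t) :
    False := by
  obtain ⟨B, h⟩ := hQ
  have hV := W_ne (2 * m + 1) m (by omega)
  have hA : g ≠ 0 := left_ne_zero_of_mul (h ▸ hV)
  have inj : Function.Injective (Int.castRingHom ℂ) := Int.cast_injective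
  have hA' : g.map (Int.castRingHom ℂ) ≠ 0 := (Polynomial.map_ne_zero_iff inj).2 hA
  have e := (IsAlgClosed.splits (g.map (Int.castRingHom ℂ))).eval_eq_prod_roots
    (((t : ℤ) + 1 : ℤ) : ℂ)
  have b := prod_ge (t : ℝ) (Nat.cast_nonneg t) (((t : ℤ) + 1 : ℤ) : ℂ)
    (by rw [Complex.norm_intCast]; push_cast; exact le_abs_self _)
    (g.map (Int.castRingHom ℂ)).roots (by
      intro a ha
      rw [mem_roots hA', IsRoot, eval_map] at ha
      apply W_root_le (2 * m + 1) m (by omega) a
      rw [← eval_W, h, eval₂_mul, ha, zero_mul])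
  rw [IsAlgClosed.card_roots_eq_natDegree, natDegree_map_eq_of_injective inj] at b
  have e2 : (g.map (Int.castRingHom ℂ)).eval (((t : ℤ) + 1 : ℤ) : ℂ)
      = ((g.eval ((t : ℤ) + 1) : ℤ) : ℂ) := by
    rw [eval_intCast_map]; simp
  have e3 : (1 : ℝ) ≤ ‖(g.map (Int.castRingHom ℂ)).leadingCoeff‖ := by
    rw [leadingCoeff_map_of_injective inj]
    simp only [eq_intCast, Complex.norm_intCast]
    exact_mod_cast Int.one_le_abs (leadingCoeff_ne_zero.2 hA)
  have e4 := congrArg norm e
  rw [e2, norm_mul, Complex.norm_intCast] at e4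
  have e5 : (t : ℝ) ^ g.natDegree ≤ |((g.eval ((t : ℤ) + 1) : ℤ) : ℝ)| := by
    rw [e4]
    exact b.trans (le_mul_of_one_le_left (norm_nonneg _) e3)
  have e6 : (t : ℤ) ^ g.natDegree ≤ |g.eval ((t : ℤ) + 1)| := by exact_mod_cast e5
  have d1 : g.eval ((t : ℤ) + 1) ∣ W (2 * m + 1) m ((t : ℤ) + 1) := by
    have := map_W (evalRingHom ((t : ℤ) + 1)) (2 * m + 1) m X
    simp only [coe_evalRingHom, eval_X] at this
    rw [← this]; exact eval_dvd ⟨B, h⟩
  have d2 : g.eval ((t : ℤ) + 1) ∣ PP n ((t : ℤ) + 1) := by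
    have := map_PP (evalRingHom ((t : ℤ) + 1)) n X
    simp only [coe_evalRingHom, eval_X] at this
    rw [← this]; exact eval_dvd hG
  have d3 := Int.dvd_coe_gcd d1 d2
  have pos : 0 < W (2 * m + 1) m ((t : ℤ) + 1) :=
    Finset.sum_pos (fun i hi => by
      have : 0 < (2 * m + 1).choose i := Nat.choose_pos (by have := Finset.mem_range.1 hi; omega)
      positivity) (by simp)
  have d4 := Int.le_of_dvd (by exact_mod_cast Int.gcd_pos_of_ne_zero_left _ pos.ne')
    ((abs_dvd _ _).2 d3)
  have e7 : t ≤ t ^ g.natDegree := Nat.le_self_pow h1.ne' t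
  have e8 : (t : ℤ) ≤ (t : ℤ) ^ g.natDegree := by exact_mod_cast e7
  omega

lemma eval_PP (n : ℕ) (z : ℂ) : (PP n (X : ℤ[X])).eval₂ (Int.castRingHom ℂ) z = PP n z := by
  simpa using map_PP (eval₂RingHom (Int.castRingHom ℂ) z) n X

theorem main2 (N n : ℕ) (hn : n < N) (z : ℂ) (hN : PP N z = 0) (h : PP n z = 0) : z = -1 := by
  by_contra hz
  rw [← eval_PP] at h
  rcases Nat.even_or_odd' N with ⟨m, rfl | rfl⟩
  · obtain ⟨g, h1, ⟨B, hB⟩, hG⟩ := common (V (2 * m) m X) _ (PP_ne (2 * m)) z
      (by rw [eval_V]; exact hN) h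
    have a1 := natDegree_le_of_dvd hG (PP_ne n)
    have a2 := PP_deg n
    have a3 := no_split m (by omega) g B hB.symm
    have hV : g * B ≠ 0 := hB ▸ PP_ne (2 * m)
    have a4 := natDegree_mul (left_ne_zero_of_mul hV) (right_ne_zero_of_mul hV)
    rw [← hB, V_natDegree _ _ (by omega)] at a4
    omega
  · rw [PP_odd] at hN
    have hW := (mul_eq_zero.1 hN).resolve_left fun h0 => hz (by linear_combination h0)
    obtain ⟨g, h1, hQ, hG⟩ := common (W (2 * m + 1) m X) _ (W_ne _ _ (by omega)) z
      (by rw [eval_W]; exact hW) h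
    obtain ⟨B, hB⟩ := id hQ
    rcases no_split2 m g B hB.symm with a3 | rfl | rfl | rfl
    · obtain ⟨B', hB'⟩ := hG
      have a2 := PP_deg n
      have hV : g * B ≠ 0 := hB ▸ W_ne _ _ (by omega)
      have hV' : g * B' ≠ 0 := hB' ▸ PP_ne n
      have a4 := natDegree_mul (left_ne_zero_of_mul hV) (right_ne_zero_of_mul hV)
      have a5 := natDegree_mul (left_ne_zero_of_mul hV') (right_ne_zero_of_mul hV')
      rw [← hB, W_natDegree _ _ (by omega)] at a4
      rw [← hB'] at a5
      have c1 := W_coeff (2 * m + 1) m 1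
      rw [Finset.sum_eq_zero (fun i _ => if_neg (by omega)), hB,
        eq_C_of_natDegree_eq_zero (by omega : B.natDegree = 0), coeff_mul_C] at c1
      have c2 := PP_coeff n 1
      rw [if_pos (by omega), hB', eq_C_of_natDegree_eq_zero (by omega : B'.natDegree = 0),
        coeff_mul_C] at c2
      have c3 : B.coeff 0 ≠ 0 := fun h0 => right_ne_zero_of_mul hV (by
        rw [eq_C_of_natDegree_eq_zero (by omega : B.natDegree = 0), h0, C_0])
      rw [(mul_eq_zero.1 c1).resolve_right c3] at c2
      simp at c2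
    · exact small_case 4 3 n g h1 hQ hG ((by decide +kernel : ∀ n < 9,
        Int.gcd (W 9 4 ((3 : ℕ) + 1 : ℤ)) (PP n ((3 : ℕ) + 1 : ℤ)) < 3) n hn)
    · exact small_case 7 5 n g h1 hQ hG ((by decide +kernel : ∀ n < 15,
        Int.gcd (W 15 7 ((5 : ℕ) + 1 : ℤ)) (PP n ((5 : ℕ) + 1 : ℤ)) < 5) n hn)
    · exact small_case 10 5 n g h1 hQ hG ((by decide +kernel : ∀ n < 21,
        Int.gcd (W 21 10 ((5 : ℕ) + 1 : ℤ)) (PP n ((5 : ℕ) + 1 : ℤ)) < 5) n hn)

theorem main3 (n k : ℕ) (hk : 1 ≤ k) (hkn : k ≤ n) (z : ℂ)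
    (h1 : ∑ j ∈ Finset.range (n + 1), ((n.choose ((n - j) / 2) : ℕ) : ℂ) * z ^ (n - j) = 0)
    (h2 : ∑ j ∈ Finset.range (n - k + 1),
      (((n - k).choose ((n - k - j) / 2) : ℕ) : ℂ) * z ^ (n - k - j) = 0) : z = -1 := by
  have e : ∀ n : ℕ, ∑ j ∈ Finset.range (n + 1), ((n.choose ((n - j) / 2) : ℕ) : ℂ) * z ^ (n - j)
      = PP n z := fun n => by
    simpa only [Nat.add_sub_cancel, PP] using Finset.sum_range_reflect
      (fun j => ((n.choose (j / 2) : ℕ) : ℂ) * z ^ j) (n + 1)
  rw [e] at h1 h2
  exact main2 n (n - k) (by omega) z h1 h2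

end Pool.Agent.H73.Pas
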