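import Mathlib

/-! Towers of regular wreath products and the nilpotent `π`-length. -/

namespace Pool.Agent.H73.PiLen

open scoped commutatorElement

structure Chain (G : Type) [Group G] (k : ℕ) (P : ℕ → ℕ) (N : ℕ → Subgroup G) : Prop where
  bot : N 0 = ⊥
  top : N k = ⊤
  normal : ∀ i, (N i).Normal
  le : ∀ i, N i ≤ N (i + 1)
  card : ∀ i < k, ∃ e, 0 < e ∧ Nat.card (N (i + 1)) = P i ^ e * Nat.card (N i)
  sc : ∀ i < k, ∀ g, (∀ v ∈ N (i + 1), ⁅g, v⁆ ∈ N i) → g ∈ N (i + 1)

lemma ext_exists (Q : Type) [Group Q] [Finite Q] (p : ℕ) (hp : p.Prime) :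
    ∃ (G : Type) (_ : Group G) (_ : Finite G) (f : G →* Q) (s : Q →* G),
      (∀ q, f (s q) = q) ∧ (∃ e, 0 < e ∧ Nat.card f.ker = p ^ e) ∧
      ∀ g, (∀ v ∈ f.ker, ⁅g, v⁆ = 1) → g ∈ f.ker := by
  classical
  have := Fact.mk hp
  refine ⟨RegularWreathProduct (Multiplicative (ZMod p)) Q, inferInstance, inferInstance,
    RegularWreathProduct.rightHom, RegularWreathProduct.inl, fun q => rfl,
    ⟨Nat.card Q, Nat.card_pos, ?_⟩, fun g hg => ?_⟩
  · have h1 := (RegularWreathProduct.rightHom :
      RegularWreathProduct (Multiplicative (ZMod p)) Q →* Q).ker.card_mul_index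
    rw [Subgroup.index_ker, MonoidHom.range_eq_top.2 (fun q => ⟨RegularWreathProduct.inl q, rfl⟩),
      Subgroup.card_top, RegularWreathProduct.card] at h1
    simpa using Nat.eq_of_mul_eq_mul_right Nat.card_pos h1
  · have h1 := hg ⟨Pi.mulSingle 1 (Multiplicative.ofAdd 1), 1⟩ rfl
    rw [commutatorElement_eq_one_iff_mul_comm] at h1
    have h2 := congrFun (congrArg RegularWreathProduct.left h1) 1
    simp only [RegularWreathProduct.mul_left, Pi.mul_apply, mul_one, inv_one,
      Pi.mulSingle_eq_same] at h2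
    rw [mul_comm, mul_left_inj] at h2
    show g.right = 1
    by_contra h3
    rw [Pi.mulSingle_eq_of_ne (inv_ne_one.2 h3)] at h2
    exact one_ne_zero (Multiplicative.ofAdd.injective h2).symm

lemma card_comap {G Q : Type} [Group G] [Group Q] [Finite G] [Finite Q] (f : G →* Q)
    (hf : Function.Surjective f) (K : Subgroup Q) :
    Nat.card (K.comap f) = Nat.card f.ker * Nat.card K := by
  have h1 := (K.comap f).card_mul_index
  have h2 := K.card_mul_index
  have h3 := f.ker.card_mul_index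
  rw [Subgroup.index_comap_of_surjective K hf] at h1
  rw [Subgroup.index_ker, MonoidHom.range_eq_top.2 hf, Subgroup.card_top] at h3
  refine Nat.eq_of_mul_eq_mul_right (Nat.pos_of_ne_zero K.index_ne_zero_of_finite) ?_
  rw [h1, mul_assoc, h2, h3]

lemma tower (π : Set ℕ) (l : List ℕ) (hl : ∀ p ∈ l, p.Prime) :
    ∃ (G : Type) (_ : Group G) (_ : Finite G) (N : ℕ → Subgroup G) (H : Subgroup G),
      Chain G l.length (fun i => l.getD i 1) N ∧
      (∀ q : ℕ, q.Prime → q ∣ Nat.card H → q ∈ π) ∧ (∀ q : ℕ, q.Prime → q ∣ H.index → q ∉ π) := by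
  induction l with
  | nil =>
    refine ⟨Unit, inferInstance, inferInstance, fun _ => ⊤, ⊤,
      ⟨Subsingleton.elim _ _, rfl, fun _ => inferInstance, fun _ => le_rfl, by simp, by simp⟩,
      fun q hq h => ?_, fun q hq h => ?_⟩
    · exact absurd (by simpa using h) hq.ne_one
    · exact absurd (by simpa using h) hq.ne_one
  | cons p l ih =>
    obtain ⟨Q, _, _, N, H, hN, hH1, hH2⟩ := ih fun q hq => hl q (by simp [hq])
    have hp := hl p (by simp)
    obtain ⟨G, _, _, f, s, hs, ⟨e, he, hker⟩, hsc⟩ := ext_exists Q p hp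
    have hf : Function.Surjective f := fun q => ⟨s q, hs q⟩
    have hs' : Function.Injective s := Function.LeftInverse.injective hs
    have hC : Chain G (p :: l).length (fun i => (p :: l).getD i 1)
        (fun i => match i with | 0 => ⊥ | i + 1 => (N i).comap f) := by
      refine ⟨rfl, by simp [hN.top], ?_, ?_, ?_, ?_⟩
      · rintro (_ | i)
        · exact inferInstanceAs (⊥ : Subgroup G).Normal
        · exact (hN.normal i).comap f
      · rintro (_ | i)
        · exact bot_le
        · exact Subgroup.comap_mono (hN.le i)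
      · rintro (_ | i) hi
        · refine ⟨e, he, ?_⟩
          simp only [hN.bot, MonoidHom.comap_bot, hker, List.getD_cons_zero, Subgroup.card_bot,
            mul_one]
        · obtain ⟨e', he', h⟩ := hN.card i (by simpa using hi)
          refine ⟨e', he', ?_⟩
          simp only [card_comap f hf, h, List.getD_cons_succ]
          ring
      · rintro (_ | i) hi g hg
        · simp only [hN.bot, MonoidHom.comap_bot, Subgroup.mem_bot] at hg ⊢
          exact hsc g hg
        · refine hN.sc i (by simpa using hi) (f g) fun v hv => ?_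
          have := hg (s v) (by simpa [hs] using hv)
          simpa [hs, map_commutatorElement] using this
    by_cases hπ : p ∈ π
    · refine ⟨G, inferInstance, inferInstance, _, H.comap f, hC, fun q hq h => ?_,
        fun q hq h => ?_⟩
      · rw [card_comap f hf, hker] at h
        rcases (Nat.Prime.dvd_mul hq).1 h with h | h
        · rwa [(Nat.prime_dvd_prime_iff_eq hq hp).1 (hq.dvd_of_dvd_pow h)]
        · exact hH1 q hq h
      · rw [Subgroup.index_comap_of_surjective H hf] at h
        exact hH2 q hq h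
    · have hc : Nat.card (H.map s) = Nat.card H := (Subgroup.card_map_of_injective hs')
      refine ⟨G, inferInstance, inferInstance, _, H.map s, hC, fun q hq h => ?_,
        fun q hq h => ?_⟩
      · exact hH1 q hq (hc ▸ h)
      · have h1 := (H.map s).card_mul_index
        have h2 := H.card_mul_index
        have h3 := card_comap f hf ⊤
        rw [Subgroup.comap_top, Subgroup.card_top, Subgroup.card_top, hker] at h3
        have h4 : (H.map s).index = p ^ e * H.index := by
          refine Nat.eq_of_mul_eq_mul_left (Nat.card_pos (α := H)) ?_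
          rw [← hc, h1, h3, hc, ← h2]; ring
        rw [h4] at h
        rcases (Nat.Prime.dvd_mul hq).1 h with h | h
        · rwa [(Nat.prime_dvd_prime_iff_eq hq hp).1 (hq.dvd_of_dvd_pow h)]
        · exact hH2 q hq h

variable {G : Type} [Group G] [Finite G]

lemma pow_mem_of_le {A B : Subgroup G} [A.Normal] (h : A ≤ B) {b : G} (hb : b ∈ B) :
    b ^ (Nat.card B / Nat.card A) ∈ A := by
  have h1 := (A.subgroupOf B).card_mul_index
  rw [Nat.card_congr (Subgroup.subgroupOfEquivOfLe h).toEquiv] at h1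
  have h2 : Nat.card B / Nat.card A = (A.subgroupOf B).index := by
    rw [← h1, Nat.mul_div_cancel_left _ Nat.card_pos]
  rw [h2]
  exact Subgroup.pow_index_mem (A.subgroupOf B) ⟨b, hb⟩

omit [Finite G] in
lemma mem_of_coprime {A : Subgroup G} {x : G} {m n : ℕ} (h : m.Coprime n) (hm : x ^ m ∈ A)
    (hn : x ^ n ∈ A) : x ∈ A := by
  have := Nat.gcd_eq_gcd_ab m n
  rw [h.gcd_eq_one] at this
  have e : x = (x ^ m) ^ (m.gcdA n) * (x ^ n) ^ (m.gcdB n) := by
    rw [← zpow_natCast, ← zpow_natCast, ← zpow_mul, ← zpow_mul, ← zpow_add, ← this]; simp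
  rw [e]
  exact mul_mem (zpow_mem hm _) (zpow_mem hn _)

omit [Finite G] in
lemma iter_eq (S : Subgroup G) (c : ℕ) :
    (fun K : Subgroup G => ⁅K, S⁆)^[c] S = S.lowerCentralSeries c := by
  induction c with
  | zero => rfl
  | succ c ih => rw [Function.iterate_succ_apply', ih]; rfl

variable {k : ℕ} {P : ℕ → ℕ} {N : ℕ → Subgroup G}

lemma Chain.ratio (h : Chain G k P N) (i : ℕ) (hi : i < k) :
    ∃ e, 0 < e ∧ Nat.card (N (i + 1)) / Nat.card (N i) = P i ^ e := by
  obtain ⟨e, he, h1⟩ := h.card i hi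
  exact ⟨e, he, by rw [h1, Nat.mul_div_cancel _ Nat.card_pos]⟩

lemma Chain.coprime_step (h : Chain G k P N) (j : ℕ) (hj : j < k) (B : Subgroup G) [hB : B.Normal]
    (m : ℕ) (hm : m.Coprime (P j)) (hb : ∀ b ∈ B, b ^ m ∈ N j) : B ≤ N j := by
  obtain ⟨e, -, he⟩ := h.ratio j hj
  have := h.normal j
  have key : ∀ b ∈ B, b ∈ N (j + 1) → b ∈ N j := fun b h1 h2 =>
    mem_of_coprime (hm.pow_right e) (hb b h1) (he ▸ pow_mem_of_le (h.le j) h2)
  intro b hbB
  refine key b hbB (h.sc j hj b fun v hv => key _ ?_ ?_)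
  · rw [commutatorElement_def, mul_assoc, mul_assoc, ← mul_assoc v]
    exact mul_mem hbB (hB.conj_mem _ (inv_mem hbB) v)
  · rw [commutatorElement_def]
    exact mul_mem ((h.normal (j + 1)).conj_mem _ hv b) (inv_mem hv)

lemma Chain.nil_step (h : Chain G k P N) (j : ℕ) (hj : j + 1 < k) (hp : (P j).Prime)
    (hq : (P j).Coprime (P (j + 1))) (B : Subgroup G) [hB : B.Normal] (c : ℕ)
    (hc : B.lowerCentralSeries c ≤ N j) : B ≤ N (j + 1) := by
  have := h.normal j
  let f := QuotientGroup.mk' (N j)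
  have hf : Function.Surjective f := QuotientGroup.mk'_surjective _
  have hBn : (B.map f).Normal := hB.map f hf
  have hnil : Group.IsNilpotent (B.map f) := by
    rw [Subgroup.isNilpotent_iff_lowerCentralSeries]
    refine ⟨c, ?_⟩
    rw [← Subgroup.map_lowerCentralSeries, Subgroup.map_eq_bot_iff, QuotientGroup.ker_mk']
    exact hc
  have hcard : ∀ r : ℕ, r.Prime → r ∣ Nat.card (B.map f) → r = P j := by
    intro r hr hd
    by_contra hne
    have := Fact.mk hr
    obtain ⟨R⟩ : Nonempty (Sylow r (B.map f)) := inferInstance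
    have hRn : (R : Subgroup (B.map f)).Normal := inferInstance
    have hRc := Sylow.characteristic_of_normal R hRn
    have hR2 : ((R : Subgroup (B.map f)).map (B.map f).subtype).Normal := inferInstance
    have hR3 := hR2.comap f
    obtain ⟨n, hn⟩ := IsPGroup.iff_card.1 R.isPGroup'
    have hle := h.coprime_step j (by omega) (((R : Subgroup (B.map f)).map
      (B.map f).subtype).comap f) (r ^ n)
      (((Nat.coprime_primes hr hp).2 hne).pow_left n) fun b hb => by
        obtain ⟨x, hx, hxb⟩ := hb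
        rw [← QuotientGroup.eq_one_iff, ← QuotientGroup.mk'_apply, map_pow]
        show f b ^ r ^ n = 1
        rw [← hxb, ← map_pow, ← hn]
        have : (⟨x, hx⟩ : (R : Subgroup (B.map f))) ^ Nat.card (R : Subgroup (B.map f)) = 1 :=
          pow_card_eq_one'
        rw [show x ^ Nat.card (R : Subgroup (B.map f)) = 1 from congrArg Subtype.val this, map_one]
    refine R.ne_bot_of_dvd_card hd (eq_bot_iff.2 fun x hx => ?_)
    obtain ⟨g, hg⟩ := hf x.1
    have : g ∈ N j := hle ⟨x, hx, hg.symm⟩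
    rw [Subgroup.mem_bot]
    apply Subtype.ext
    rw [← hg]
    exact (QuotientGroup.eq_one_iff g).2 this
  have hpow := Nat.eq_prime_pow_of_unique_prime_dvd (p := P j) (Nat.card_pos (α := B.map f)).ne'
    (fun hr hd => hcard _ hr hd)
  refine h.coprime_step (j + 1) hj B (Nat.card (B.map f)) (by rw [hpow]; exact hq.pow_left _)
    fun b hb => h.le j ?_
  rw [← QuotientGroup.eq_one_iff, ← QuotientGroup.mk'_apply, map_pow]
  have : (⟨f b, b, hb, rfl⟩ : B.map f) ^ Nat.card (B.map f) = 1 := pow_card_eq_one'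
  exact congrArg Subtype.val this

lemma nil_of (A B : Subgroup G) [A.Normal] (p m n : ℕ) (hp : p.Prime) (hm0 : m ≠ 0)
    (hm : ∀ b ∈ B, b ^ m ∈ A) (hn : ∀ b ∈ B, b ^ n ∈ A)
    (h : ∀ r : ℕ, r.Prime → r ∣ m → r ∣ n → r = p) :
    ∃ c : ℕ, (fun K : Subgroup G => ⁅K, B⁆)^[c] B ≤ A := by
  have := Fact.mk hp
  let f := QuotientGroup.mk' A
  have hP : IsPGroup p (B.map f) := by
    rintro ⟨_, b, hb, rfl⟩
    have h1 : orderOf (f b) ∣ m := orderOf_dvd_of_pow_eq_one (by
      rw [← map_pow]; exact (QuotientGroup.eq_one_iff _).2 (hm b hb))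
    have h2 : orderOf (f b) ∣ n := orderOf_dvd_of_pow_eq_one (by
      rw [← map_pow]; exact (QuotientGroup.eq_one_iff _).2 (hn b hb))
    have h3 := Nat.eq_prime_pow_of_unique_prime_dvd (p := p) (ne_zero_of_dvd_ne_zero hm0 h1)
      (fun hr hd => h _ hr (hd.trans h1) (hd.trans h2))
    refine ⟨(orderOf (f b)).primeFactorsList.length, Subtype.ext ?_⟩
    show f b ^ _ = 1
    rw [← h3, pow_orderOf_eq_one]
  obtain ⟨c, hc⟩ := (Subgroup.isNilpotent_iff_lowerCentralSeries _).1 hP.isNilpotent
  refine ⟨c, ?_⟩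
  rw [iter_eq]
  rwa [← Subgroup.map_lowerCentralSeries, Subgroup.map_eq_bot_iff, QuotientGroup.ker_mk'] at hc

/-- The primes of the tower, from the bottom. -/
def PP : ℕ → ℕ := fun i => [2, 5, 2, 3, 5, 3].getD i 1

/-- The position reached after `c` nilpotent `π`-factors. -/
def J : ℕ → ℕ
  | 0 => 0
  | 1 => 2
  | 2 => 3
  | _ => 5

lemma lower (h : Chain G 6 PP N) (k : ℕ) (s : ℕ → Subgroup G) (T : Finset ℕ) (hT : T.card ≤ 3)
    (h0 : s 0 = ⊥) (hk : s k = ⊤) (hn : ∀ i ≤ k, (s i).Normal) (hle : ∀ i < k, s i ≤ s (i + 1))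
    (hs : ∀ i < k, (∀ q : ℕ, q.Prime → q ∣ Nat.card (s (i + 1)) / Nat.card (s i) →
      q ∉ ({2, 3} : Set ℕ)) ∨ (i ∈ T ∧
        ∃ c : ℕ, (fun K : Subgroup G => ⁅K, s (i + 1)⁆)^[c] (s (i + 1)) ≤ s i)) : False := by
  have hmono : Monotone N := monotone_nat_of_le_succ h.le
  have key : ∀ i ≤ k, s i ≤ N (J (T.filter (· < i)).card) := by
    intro i
    induction i with
    | zero => intro _; rw [h0]; exact bot_le
    | succ i ih =>
      intro hi
      have ih := ih (by omega)
      have := hn i (by omega)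
      have := hn (i + 1) hi
      have hc1 : (T.filter (· < i)).card ≤ (T.filter (· < i + 1)).card :=
        Finset.card_le_card (Finset.monotone_filter_right _ fun x _ hx => by omega)
      have hc2 : (T.filter (· < i + 1)).card ≤ 3 := (Finset.card_filter_le _ _).trans hT
      rcases hs i (by omega) with h1 | ⟨h1, c, hc⟩
      · have h2 : ∀ p, p.Prime → p ∈ ({2, 3} : Set ℕ) →
            (Nat.card (s (i + 1)) / Nat.card (s i)).Coprime p := fun p hp hp' =>
          ((Nat.Prime.coprime_iff_not_dvd hp).2 fun hd => h1 p hp hd hp').symm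
        have h3 : ∀ j < 6, PP j ∈ ({2, 3} : Set ℕ) → s i ≤ N j → s (i + 1) ≤ N j :=
          fun j hj hP hij => h.coprime_step j hj _ _ (h2 _ (by
            rcases hP with hP | hP <;> rw [hP] <;> norm_num) hP)
            fun b hb => hij (pow_mem_of_le (hle i (by omega)) hb)
        generalize (T.filter (· < i)).card = a at ih hc1
        generalize (T.filter (· < i + 1)).card = b at hc1 hc2
        have ha : a ≤ 3 := by omega
        refine (h3 (J a) ?_ ?_ ih).trans (hmono ?_)
        · interval_cases a <;> decide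
        · interval_cases a <;> simp [J, PP]
        · interval_cases b <;> interval_cases a <;> decide
      · have hc3 : (T.filter (· < i + 1)).card = (T.filter (· < i)).card + 1 := by
          rw [← Finset.card_insert_of_notMem (a := i) (by simp)]
          congr 1
          ext x
          simp only [Finset.mem_filter, Finset.mem_insert]
          constructor
          · rintro ⟨h1, h2⟩
            by_cases hx : x = i
            · exact Or.inl hx
            · exact Or.inr ⟨h1, by omega⟩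
          · rintro (rfl | ⟨h2, h3⟩)
            · exact ⟨h1, by omega⟩
            · exact ⟨h2, by omega⟩
        rw [iter_eq] at hc
        rw [hc3] at hc2 ⊢
        generalize (T.filter (· < i)).card = a at ih hc2
        have ha : a ≤ 2 := by omega
        refine (h.nil_step (J a) ?_ ?_ ?_ _ c (hc.trans ih)).trans (hmono ?_)
        · interval_cases a <;> decide
        · interval_cases a <;> simp [J, PP] <;> norm_num
        · interval_cases a <;> simp [J, PP] <;> norm_num
        · interval_cases a <;> decide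
  have h5 : N 5 = ⊤ := by
    have := key k le_rfl
    rw [hk, top_le_iff] at this
    refine top_le_iff.1 (this.ge.trans (hmono ?_))
    generalize (T.filter (· < k)).card = a
    unfold J
    split <;> omega
  obtain ⟨e, he, h6⟩ := h.ratio 5 (by omega)
  rw [h.top, h5, Nat.div_self Nat.card_pos] at h6
  have : PP 5 = 3 := rfl
  rw [this] at h6
  have := Nat.one_lt_pow he.ne' (show 1 < 3 by omega)
  omega

theorem main :
    ¬ (∀ (G : Type) [Group G] [Finite G] (π : Set ℕ), (∀ p ∈ π, p.Prime) →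
    (∃ (k : ℕ) (s : ℕ → Subgroup G), s 0 = ⊥ ∧ s k = ⊤ ∧ (∀ i ≤ k, (s i).Normal) ∧
      (∀ i < k, s i ≤ s (i + 1)) ∧
      ∀ i < k, (∀ q : ℕ, q.Prime → q ∣ Nat.card (s (i + 1)) / Nat.card (s i) → q ∉ π) ∨
        ∃ p ∈ π, ∃ e : ℕ, Nat.card (s (i + 1)) / Nat.card (s i) = p ^ e) →
    ∀ (H : Subgroup G), (∀ q : ℕ, q.Prime → q ∣ Nat.card H → q ∈ π) →
      (∀ q : ℕ, q.Prime → q ∣ H.index → q ∉ π) →
    ∀ (a b : ℕ),
      (∃ t : ℕ → Subgroup H, t 0 = ⊥ ∧ t a = ⊤ ∧ (∀ i ≤ a, (t i).Normal) ∧
        (∀ i < a, t i ≤ t (i + 1)) ∧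
        ∀ i < a, ∃ c : ℕ, (fun K : Subgroup H => ⁅K, t (i + 1)⁆)^[c] (t (i + 1)) ≤ t i) →
      (∀ p ∈ π, ∃ (k : ℕ) (s : ℕ → Subgroup G) (T : Finset ℕ), T.card ≤ b ∧
        s 0 = ⊥ ∧ s k = ⊤ ∧ (∀ i ≤ k, (s i).Normal) ∧ (∀ i < k, s i ≤ s (i + 1)) ∧
        ∀ i < k, (¬ p ∣ Nat.card (s (i + 1)) / Nat.card (s i)) ∨
          (i ∈ T ∧ ∃ e : ℕ, Nat.card (s (i + 1)) / Nat.card (s i) = p ^ e)) →
      ∃ (k : ℕ) (s : ℕ → Subgroup G) (T : Finset ℕ), T.card ≤ a - 1 + b ∧
        s 0 = ⊥ ∧ s k = ⊤ ∧ (∀ i ≤ k, (s i).Normal) ∧ (∀ i < k, s i ≤ s (i + 1)) ∧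
        ∀ i < k, (∀ q : ℕ, q.Prime → q ∣ Nat.card (s (i + 1)) / Nat.card (s i) → q ∉ π) ∨
          (i ∈ T ∧ (∀ q : ℕ, q.Prime → q ∣ Nat.card (s (i + 1)) / Nat.card (s i) → q ∈ π) ∧
            ∃ c : ℕ, (fun K : Subgroup G => ⁅K, s (i + 1)⁆)^[c] (s (i + 1)) ≤ s i)) := by
  intro Hyp
  obtain ⟨G, _, _, N, H, hN, hH1, hH2⟩ := tower {2, 3} [2, 5, 2, 3, 5, 3] (by
    intro p hp
    simp only [List.mem_cons, List.not_mem_nil, or_false] at hp
    rcases hp with rfl | rfl | rfl | rfl | rfl | rfl <;> norm_num)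
  have h : Chain G 6 PP N := hN
  have hdvd : ∀ q p e : ℕ, q.Prime → p.Prime → q ∣ p ^ e → q = p := fun q p e hq hp hd =>
    (Nat.prime_dvd_prime_iff_eq hq hp).1 (hq.dvd_of_dvd_pow hd)
  obtain ⟨e0, -, c0⟩ := h.card 0 (by omega)
  obtain ⟨e1, -, c1⟩ := h.card 1 (by omega)
  obtain ⟨e2, -, c2⟩ := h.card 2 (by omega)
  obtain ⟨e3, -, c3⟩ := h.card 3 (by omega)
  obtain ⟨e4, -, c4⟩ := h.card 4 (by omega)
  obtain ⟨e5, -, c5⟩ := h.card 5 (by omega)
  have hN3 := h.normal 3
  have d3 : Nat.card (N 3) = 2 ^ e2 * (5 ^ e1 * 2 ^ e0) := by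
    rw [c2, c1, c0, h.bot, Subgroup.card_bot, mul_one]; rfl
  have d6 : Nat.card (N 6) / Nat.card (N 3) = 3 ^ e5 * (5 ^ e4 * 3 ^ e3) := by
    rw [c5, c4, c3, ← mul_assoc, ← mul_assoc, Nat.mul_div_cancel _ Nat.card_pos, mul_assoc]; rfl
  obtain ⟨k, s, T, hT, h0, hk, hn, hle, hs⟩ := Hyp G {2, 3} (by
      rintro p (rfl | rfl) <;> norm_num)
    ⟨6, N, h.bot, h.top, fun i _ => h.normal i, fun i _ => h.le i, fun i hi => by
      obtain ⟨e, -, he⟩ := h.ratio i hi
      by_cases hP : PP i ∈ ({2, 3} : Set ℕ)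
      · exact Or.inr ⟨_, hP, e, he⟩
      · left
        intro q hq hd
        rw [he] at hd
        rwa [hdvd q (PP i) e hq (by interval_cases i <;> simp [PP] <;> norm_num) hd]⟩
    H hH1 hH2 2 2
    ⟨fun i => match i with | 0 => ⊥ | 1 => (N 3).subgroupOf H | _ => ⊤, rfl, rfl, fun i hi => by
      interval_cases i <;> simp only <;> infer_instance, fun i hi => by
      interval_cases i <;> simp, fun i hi => by
      interval_cases i
      · refine nil_of ⊥ _ 2 (Nat.card H) (Nat.card (N 3)) Nat.prime_two Nat.card_pos.ne'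
          (fun b _ => pow_card_eq_one') (fun b hb => Subtype.ext ?_) fun r hr h1 h2 => ?_
        · have : (⟨b.1, hb⟩ : N 3) ^ Nat.card (N 3) = 1 := pow_card_eq_one'
          have h7 : (b.1 : G) ^ Nat.card (N 3) = 1 := congrArg Subtype.val this
          exact h7
        · rw [d3] at h2
          rcases hH1 r hr h1 with rfl | rfl
          · rfl
          · exfalso
            rcases (Nat.Prime.dvd_mul hr).1 h2 with h2 | h2
            · exact absurd (hdvd _ _ _ hr (by norm_num) h2) (by norm_num)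
            rcases (Nat.Prime.dvd_mul hr).1 h2 with h2 | h2 <;>
              exact absurd (hdvd _ _ _ hr (by norm_num) h2) (by norm_num)
      · refine nil_of ((N 3).subgroupOf H) ⊤ 3 (Nat.card H) (Nat.card (N 6) / Nat.card (N 3))
          Nat.prime_three Nat.card_pos.ne' (fun b _ => ?_) (fun b _ => ?_) fun r hr h1 h2 => ?_
        · rw [pow_card_eq_one']; exact one_mem _
        · exact pow_mem_of_le (A := N 3) (B := N 6) (by rw [h.top]; exact le_top)
            (by rw [h.top]; trivial)
        · rw [d6] at h2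
          rcases hH1 r hr h1 with rfl | rfl
          · exfalso
            rcases (Nat.Prime.dvd_mul hr).1 h2 with h2 | h2
            · exact absurd (hdvd _ _ _ hr (by norm_num) h2) (by norm_num)
            rcases (Nat.Prime.dvd_mul hr).1 h2 with h2 | h2 <;>
              exact absurd (hdvd _ _ _ hr (by norm_num) h2) (by norm_num)
          · rfl⟩ (by
      intro p hp
      have hpp : p.Prime := by rcases hp with rfl | rfl <;> norm_num
      refine ⟨6, N, (Finset.range 6).filter fun i => PP i = p, ?_, h.bot, h.top,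
        fun i _ => h.normal i, fun i _ => h.le i, fun i hi => ?_⟩
      · rcases hp with rfl | rfl <;> decide
      · obtain ⟨e, -, he⟩ := h.ratio i hi
        by_cases hP : PP i = p
        · exact Or.inr ⟨by simp [hi, hP], e, hP ▸ he⟩
        · left
          intro hd
          rw [he] at hd
          exact hP (hdvd p (PP i) e hpp (by interval_cases i <;> simp [PP] <;> norm_num) hd).symm)
  exact lower h k s T hT h0 hk hn hle fun i hi => (hs i hi).imp id fun x => ⟨x.1, x.2.2⟩

end Pool.Agent.H73.PiLen
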