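import Mathlib

set_option autoImplicit false
open scoped commutatorElement

namespace Pool.Agent.H73.PrimRank

/-- The unimodularity identity. -/
theorem exists_n {S E : Type*} [CommRing S] [Ring E] [Algebra S E] (x y yi : E) (c g : S)
    (h1 : y * yi = 1) (h2 : yi * y = 1) (hxy : x * y = c • (y * x)) :
    ∃ n m : E, (1 + ((c - 1) ^ 2 * g) • (yi * ((1 - y) * (1 - c • y)))) * n = 1 + (1 - x) * m := by
  have hyx : yi * x = c • (x * yi) := by
    calc yi * x = yi * (x * y) * yi := by rw [mul_assoc, mul_assoc, h1, mul_one]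
      _ = c • (x * yi) := by
        rw [hxy, mul_smul_comm, smul_mul_assoc, ← mul_assoc, h2, one_mul]
  set γ : S := (c - 1) ^ 2 * g with hγ
  set G0 : E := c • y - (1 + c) • (1 : E) + yi with hG0
  have hG : yi * ((1 - y) * (1 - c • y)) = G0 := by
    have : yi * (1 - y) = yi - 1 := by rw [mul_sub, h2, mul_one]
    rw [← mul_assoc, this, hG0]
    simp only [sub_mul, mul_sub, mul_smul_comm, h2, one_mul, mul_one]
    module
  rw [hG]
  set A : E := 1 + γ • G0 with hA
  set A1 : E := (1 - γ * (1 + c)) • (1 : E) + γ • (y + c • yi) with hA1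
  set A2 : E := (c * (1 - γ * (1 + c))) • (1 : E) + γ • (y + c ^ 3 • yi) with hA2
  have e1 : A * x = x * A1 := by
    simp only [hA, hA1, hG0, add_mul, mul_add, sub_mul, smul_mul_assoc, mul_smul_comm, one_mul,
      mul_one, hyx, hxy]
    module
  have e2 : c • (A1 * x) = x * A2 := by
    simp only [hA2, hA1, add_mul, mul_add, smul_mul_assoc, mul_smul_comm, one_mul,
      mul_one, hyx, hxy]
    module
  have e3 : c • (A * (x * x)) = x * (x * A2) := by
    rw [← mul_assoc, e1, mul_assoc, ← e2, mul_smul_comm]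
  have e4 : (A2 - (c + 1) • A1 + A) * y - (A2 - (1 + c ^ 2) • A1 + c • A) = (c - 1) ^ 2 • (1 : E) := by
    have f1 : A2 - (c + 1) • A1 + A = (γ * (c - 1) ^ 2 * (c + 1)) • yi := by
      simp only [hA, hA1, hA2, hG0]; module
    have f2 : A2 - (1 + c ^ 2) • A1 + c • A = (-((1 - γ * (1 + c)) * (c - 1) ^ 2)) • (1 : E) := by
      simp only [hA, hA1, hA2, hG0]; module
    rw [f1, f2, smul_mul_assoc, h2]; module
  set n1 : E := (c • (x * x) - (c + 1) • x + 1) * y - (c • (x * x) - (1 + c ^ 2) • x + c • 1)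
    with hn1
  set m1 : E := ((x + 1) * A2 - (c + 1) • A1) * y - ((x + 1) * A2 - (1 + c ^ 2) • A1) with hm1
  have e5 : A * n1 = (c - 1) ^ 2 • (1 : E) + (x - 1) * m1 := by
    have f1 : A * (c • (x * x) - (c + 1) • x + 1) =
        (A2 - (c + 1) • A1 + A) + (x - 1) * ((x + 1) * A2 - (c + 1) • A1) := by
      rw [mul_add, mul_sub, mul_smul_comm, e3, mul_smul_comm, e1]
      simp only [add_mul, mul_add, sub_mul, mul_sub, mul_smul_comm, one_mul, mul_one]
      module
    have f2 : A * (c • (x * x) - (1 + c ^ 2) • x + c • 1) =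
        (A2 - (1 + c ^ 2) • A1 + c • A) + (x - 1) * ((x + 1) * A2 - (1 + c ^ 2) • A1) := by
      rw [mul_add, mul_sub, mul_smul_comm, e3, mul_smul_comm, e1]
      simp only [add_mul, mul_add, sub_mul, mul_sub, mul_smul_comm, one_mul, mul_one]
      module
    rw [hn1, mul_sub, ← mul_assoc, f1, f2, ← e4, hm1]
    noncomm_ring
  refine ⟨1 - n1 * (g • G0), m1 * (g • G0), ?_⟩
  rw [mul_sub, ← mul_assoc, e5, mul_one, hA, hγ]
  simp only [add_mul, sub_mul, mul_smul_comm, smul_mul_assoc, one_mul, mul_assoc]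
  module

/-- A group with an abelian normal subgroup containing all triple commutators. -/
structure Setup (G : Type*) [Group G] where
  V : Subgroup G
  normal : V.Normal
  comm : ∀ a ∈ V, ∀ b ∈ V, a * b = b * a
  nil : ∀ a b c : G, ⁅⁅a, b⁆, c⁆ ∈ V

namespace Setup

variable {G : Type*} [Group G] (S : Setup G)

/-- The abelian normal subgroup written additively. -/
def M : Type _ := Additive S.V

instance : AddCommGroup S.M :=
  { (inferInstance : AddGroup (Additive S.V)) with
    add_comm := fun a b => by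
      apply (Additive.toMul (α := S.V)).injective
      apply Subtype.ext
      exact S.comm _ (Additive.toMul (α := S.V) a).2 _ (Additive.toMul (α := S.V) b).2 }

variable {S}

/-- The underlying group element. -/
def val (v : S.M) : G := (Additive.toMul (α := S.V) v).1

/-- An element of the subgroup as an element of the module. -/
def mkM (g : G) (hg : g ∈ S.V) : S.M := Additive.ofMul (α := S.V) ⟨g, hg⟩

@[simp] theorem val_mkM (g : G) (hg : g ∈ S.V) : val (mkM g hg) = g := rfl
theorem val_mem (v : S.M) : val v ∈ S.V := (Additive.toMul (α := S.V) v).2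
theorem val_inj {u v : S.M} (h : val u = val v) : u = v :=
  (Additive.toMul (α := S.V)).injective (Subtype.ext h)
theorem val_add (u v : S.M) : val (u + v) = val u * val v := rfl
theorem val_neg (u : S.M) : val (-u) = (val u)⁻¹ := rfl
theorem val_zero : val (0 : S.M) = 1 := rfl
theorem val_sub (u v : S.M) : val (u - v) = val u * (val v)⁻¹ := by
  rw [sub_eq_add_neg, val_add, val_neg]

variable (S)

/-- Conjugation action. -/
def rho : G →* Module.End ℤ S.M where
  toFun g := AddMonoidHom.toIntLinearMap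
    { toFun := fun v => mkM (g * val v * g⁻¹) (S.normal.conj_mem _ (val_mem v) g)
      map_zero' := val_inj (by simp [val_zero])
      map_add' := fun u v => val_inj (by simp [val_add, mul_assoc]) }
  map_one' := by
    apply LinearMap.ext; intro v; apply val_inj; simp
  map_mul' g h := by
    apply LinearMap.ext; intro v; apply val_inj; simp [mul_assoc]

/-- The operator ring. -/
def E : Subring (Module.End ℤ S.M) := Subring.closure (Set.range S.rho)

/-- Group elements as operators. -/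
def r : G →* S.E where
  toFun g := ⟨S.rho g, Subring.subset_closure ⟨g, rfl⟩⟩
  map_one' := Subtype.ext S.rho.map_one
  map_mul' g h := Subtype.ext (S.rho.map_mul g h)

variable {S}

theorem val_smul (g : G) (v : S.M) : val (S.r g • v) = g * val v * g⁻¹ := rfl

theorem r_eq_one {g : G} (hg : g ∈ S.V) : S.r g = 1 := by
  apply Subtype.ext; apply LinearMap.ext; intro v; apply val_inj
  change g * val v * g⁻¹ = val v
  rw [S.comm _ hg _ (val_mem v)]; simp

theorem comm_of_rho (f : Module.End ℤ S.M) (hf : ∀ g, f * S.rho g = S.rho g * f) (e : S.E) :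
    f * (e : Module.End ℤ S.M) = e * f := by
  have : S.E ≤ Subring.centralizer {f} := by
    apply Subring.closure_le.2
    rintro _ ⟨g, rfl⟩
    rw [SetLike.mem_coe, Subring.mem_centralizer_iff]
    rintro _ rfl
    exact hf g
  exact Subring.mem_centralizer_iff.1 (this e.2) f rfl

theorem r_comm_mem (a b : G) : S.r ⁅a, b⁆ ∈ Subring.center S.E := by
  rw [Subring.mem_center_iff]
  intro e
  apply Subtype.ext
  symm
  apply comm_of_rho
  intro g
  have h := r_eq_one (S.nil a b g)
  have h2 : S.r ⁅a, b⁆ * S.r g = S.r g * S.r ⁅a, b⁆ := by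
    have : ⁅a, b⁆ * g = ⁅⁅a, b⁆, g⁆ * (g * ⁅a, b⁆) := by
      rw [commutatorElement_def ⁅a, b⁆ g]; group
    rw [← map_mul, this, map_mul, h, one_mul, map_mul]
  exact congrArg Subtype.val h2

variable (S) in
/-- Commutators as central operators. -/
def cen (a b : G) : Subring.center S.E := ⟨S.r ⁅a, b⁆, r_comm_mem a b⟩

theorem cen_smul (a b : G) (e : S.E) : S.cen a b • e = S.r ⁅a, b⁆ * e := rfl

theorem map_mem {θ : G →* G} (hθ : ∀ g, θ g * g⁻¹ ∈ S.V) (v : S.M) : θ (val v) ∈ S.V := by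
  have := S.V.mul_mem (hθ (val v)) (val_mem v)
  simpa using this

/-- An endomorphism trivial modulo `V` acts linearly on `V`. -/
def hat (θ : G →* G) (hθ : ∀ g, θ g * g⁻¹ ∈ S.V) : Module.End ℤ S.M :=
  AddMonoidHom.toIntLinearMap
    { toFun := fun v => mkM (θ (val v)) (map_mem hθ v)
      map_zero' := val_inj (by simp [val_zero])
      map_add' := fun u v => val_inj (by simp [val_add]) }

theorem val_hat (θ : G →* G) (hθ : ∀ g, θ g * g⁻¹ ∈ S.V) (v : S.M) :
    val (hat θ hθ v) = θ (val v) := rfl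

theorem hat_smul (θ : G →* G) (hθ : ∀ g, θ g * g⁻¹ ∈ S.V) (e : S.E) (v : S.M) :
    hat θ hθ (e • v) = e • hat θ hθ v := by
  have := comm_of_rho (hat θ hθ) (fun g => by
    apply LinearMap.ext; intro u; apply val_inj
    change θ (g * val u * g⁻¹) = g * θ (val u) * g⁻¹
    have h1 : g * θ (val u) * g⁻¹ ∈ S.V := S.normal.conj_mem _ (map_mem hθ u) g
    have h2 := S.comm _ (hθ g) _ h1
    calc θ (g * val u * g⁻¹) = (θ g * g⁻¹) * (g * θ (val u) * g⁻¹) * (θ g * g⁻¹)⁻¹ := by
          simp [mul_assoc]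
      _ = _ := by rw [h2, mul_inv_cancel_right]) e
  exact congrArg (fun f : Module.End ℤ S.M => f v) this

theorem transv (e : G) (O : Set G) (hgen : Subgroup.closure (insert e O) = ⊤)
    (H : ∀ a : G, ∃ θ : G →* G, θ e = a * e ∧ ∀ o ∈ O, θ o = o)
    (v0 : S.M) (hv0 : val v0 ∈ Subgroup.closure O) (n : S.E) :
    ∃ ψ : G ≃* G, ψ e = val (n • v0) * e ∧ (∀ o ∈ O, ψ o = o) ∧
      ∀ g, (ψ : G →* G) g * g⁻¹ ∈ S.V := by
  have := S.normal
  have key : ∀ (a : S.M) (θ : G →* G), θ e = val a * e → (∀ o ∈ O, θ o = o) →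
      (∀ g, θ g * g⁻¹ ∈ S.V) ∧ θ (val (n • v0)) = val (n • v0) := by
    intro a θ h1 h2
    have h3 : ∀ g, θ g * g⁻¹ ∈ S.V := by
      have : (QuotientGroup.mk' S.V).comp θ = QuotientGroup.mk' S.V := by
        apply MonoidHom.eq_of_eqOn_dense hgen
        rintro g (rfl | hg)
        · simp [h1, (QuotientGroup.eq_one_iff _).2 (val_mem a)]
        · simp [h2 g hg]
      intro g
      have h4 := DFunLike.congr_fun this g
      rw [← QuotientGroup.eq_one_iff]
      simp only [MonoidHom.comp_apply, QuotientGroup.mk'_apply] at h4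
      simp [h4]
    refine ⟨h3, ?_⟩
    have h5 : θ (val v0) = val v0 := by
      have : Subgroup.closure O ≤ θ.eqLocus (MonoidHom.id G) :=
        (Subgroup.closure_le _).2 fun o ho => h2 o ho
      exact this hv0
    have h6 : hat θ h3 v0 = v0 := val_inj h5
    rw [← val_hat θ h3, hat_smul, h6]
  obtain ⟨θ, h1, h2⟩ := H (val (n • v0))
  obtain ⟨θ', h1', h2'⟩ := H (val (-(n • v0)))
  obtain ⟨k1, k2⟩ := key _ θ h1 h2
  obtain ⟨-, k2'⟩ := key _ θ' h1' h2'
  refine ⟨MonoidHom.toMulEquiv θ θ' ?_ ?_, h1, h2, k1⟩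
  · apply MonoidHom.eq_of_eqOn_dense hgen
    rintro g (rfl | hg)
    · simp [h1, h1', k2', val_neg]
    · simp [h2 g hg, h2' g hg]
  · apply MonoidHom.eq_of_eqOn_dense hgen
    rintro g (rfl | hg)
    · simp [h1, h1', k2, val_neg]
    · simp [h2 g hg, h2' g hg]

theorem fix_closure {θ : G →* G} {O : Set G} (h : ∀ o ∈ O, θ o = o) {g : G}
    (hg : g ∈ Subgroup.closure O) : θ g = g := by
  have : Subgroup.closure O ≤ θ.eqLocus (MonoidHom.id G) :=
    (Subgroup.closure_le _).2 fun o ho => h o ho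
  exact this hg

theorem comm_left (a : S.M) (g y : G) :
    ⁅val a * g, y⁆ = val ((1 - S.r (⁅g, y⁆ * y)) • a) * ⁅g, y⁆ := by
  rw [sub_smul, one_smul, val_sub, val_smul]
  simp only [commutatorElement_def]; group

variable (S) in
/-- The basic relator. -/
def v1 (x y : G) : S.M := mkM ⁅⁅x, y⁆, y⁆ (S.nil x y y)

variable (S) in
/-- The family of elements. -/
def hel (x y : G) (γ : Subring.center S.E) : S.M := (γ • S.r y⁻¹) • S.v1 x y

/-- Being in the automorphism orbit of `x`. -/
def Prim (x p : G) : Prop := ∃ ψ : G ≃* G, ψ x = p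

theorem Prim.map {x p : G} (h : Prim x p) (ψ : G ≃* G) : Prim x (ψ p) := by
  obtain ⟨φ, rfl⟩ := h
  exact ⟨φ.trans ψ, rfl⟩

theorem prim_conj {x : G} (W u : S.M) (h : Prim x (val (W + (1 - S.r x) • u) * x)) :
    Prim x (val W * x) := by
  have h2 := h.map (MulAut.conj (val (-u)))
  have : W = -u + (W + (1 - S.r x) • u) + S.r x • u := by
    rw [sub_smul, one_smul]; abel
  rw [this, val_add, val_add, val_smul]
  simpa [val_neg, mul_assoc] using h2

theorem alpha (x y : G) (O : Set G) (hy : y ∈ O) (hgen : Subgroup.closure (insert x O) = ⊤)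
    (H : ∀ a : G, ∃ θ : G →* G, θ x = a * x ∧ ∀ o ∈ O, θ o = o)
    (v0 : S.M) (hv0 : val v0 ∈ Subgroup.closure O) (g : Subring.center S.E) (t t' : S.E)
    (h : Prim x (val (S.hel x y ((S.cen x y - 1) ^ 2 * g) + t • v0) * x)) :
    Prim x (val (S.hel x y ((S.cen x y - 1) ^ 2 * g) + t' • v0) * x) := by
  obtain ⟨n, m, hnm⟩ := exists_n (S.r x) (S.r y) (S.r y⁻¹) (S.cen x y) g
    (by rw [← map_mul]; simp) (by rw [← map_mul]; simp)
    (by rw [cen_smul, ← map_mul, ← map_mul, ← map_mul, commutatorElement_def]; congr 1; group)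
  set γ := (S.cen x y - 1) ^ 2 * g with hγ
  obtain ⟨ψ, h1, h2, h3⟩ := transv x O hgen H v0 hv0 (n * (t' - t))
  set a : S.M := (n * (t' - t)) • v0 with ha
  have e0 : hat (ψ : G →* G) h3 v0 = v0 := val_inj (fix_closure (θ := (ψ : G →* G)) h2 hv0)
  have e1 : hat (ψ : G →* G) h3 (S.v1 x y) =
      ((1 - S.r y) * (1 - S.cen x y • S.r y)) • a + S.v1 x y := by
    apply val_inj
    rw [val_hat, val_add]
    change ψ ⁅⁅x, y⁆, y⁆ = _ * ⁅⁅x, y⁆, y⁆
    rw [map_commutatorElement, map_commutatorElement, h1, h2 y hy, comm_left, comm_left,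
      map_mul, map_mul, r_eq_one (S.nil x y y), one_mul, cen_smul, mul_smul]
  have h4 := h.map ψ
  rw [map_mul, h1, ← mul_assoc] at h4
  apply prim_conj _ ((m * (t' - t)) • v0)
  convert h4 using 2
  change _ = val (hat (ψ : G →* G) h3 _) * val a
  rw [← val_add, map_add, hat_smul, e0, hel, hat_smul, e1]
  congr 1
  have e2 : (1 + γ • (S.r y⁻¹ * ((1 - S.r y) * (1 - S.cen x y • S.r y)))) • a =
      (1 + (1 - S.r x) * m) • (t' - t) • v0 := by
    rw [ha, ← hnm, mul_smul n, mul_smul _ n]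
  rw [add_smul, one_smul, ← smul_mul_assoc, mul_smul, add_smul, one_smul, sub_smul t' t,
    mul_smul (1 - S.r x) m] at e2
  rw [smul_add, mul_smul m, sub_smul t' t]
  rw [← sub_eq_zero] at e2 ⊢
  rw [← neg_eq_zero, ← e2]; abel

theorem step (x y z w : G) (hgen : Subgroup.closure {x, y, z, w} = ⊤)
    (Hx : ∀ a : G, ∃ θ : G →* G, θ x = a * x ∧ θ y = y ∧ θ z = z ∧ θ w = w)
    (Hw : ∀ a : G, ∃ θ : G →* G, θ w = a * w ∧ θ x = x ∧ θ y = y ∧ θ z = z)
    (g δ : Subring.center S.E)
    (h : Prim x (val (S.hel x y ((S.cen x y - 1) ^ 2 * g)) * x)) :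
    Prim x (val (S.hel x y ((S.cen x y - 1) ^ 2 * (g + (S.cen y z - 1) * δ))) * x) := by
  set v0 : S.M := mkM ⁅⁅y, z⁆, w⁆ (S.nil y z w) with hv0
  have hmem : val v0 ∈ Subgroup.closure ({y, z, w} : Set G) := by
    have hy : y ∈ Subgroup.closure ({y, z, w} : Set G) := Subgroup.subset_closure (by simp)
    have hz : z ∈ Subgroup.closure ({y, z, w} : Set G) := Subgroup.subset_closure (by simp)
    have hw : w ∈ Subgroup.closure ({y, z, w} : Set G) := Subgroup.subset_closure (by simp)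
    have hc : ∀ a b, a ∈ Subgroup.closure ({y, z, w} : Set G) →
        b ∈ Subgroup.closure ({y, z, w} : Set G) → ⁅a, b⁆ ∈ Subgroup.closure ({y, z, w} : Set G) :=
      fun a b ha hb => mul_mem (mul_mem (mul_mem ha hb) (inv_mem ha)) (inv_mem hb)
    exact hc _ _ (hc _ _ hy hz) hw
  have Hx' : ∀ a : G, ∃ θ : G →* G, θ x = a * x ∧ ∀ o ∈ ({y, z, w} : Set G), θ o = o := by
    intro a
    obtain ⟨θ, h1, h2, h3, h4⟩ := Hx a
    refine ⟨θ, h1, ?_⟩
    rintro o (rfl | rfl | rfl) <;> assumption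
  have Hw' : ∀ a : G, ∃ θ : G →* G, θ w = a * w ∧ ∀ o ∈ ({x, y, z} : Set G), θ o = o := by
    intro a
    obtain ⟨θ, h1, h2, h3, h4⟩ := Hw a
    refine ⟨θ, h1, ?_⟩
    rintro o (rfl | rfl | rfl) <;> assumption
  have k1 := alpha x y {y, z, w} (by simp) hgen Hx' v0 hmem g 0 1 (by simpa using h)
  have hmem1 : val (S.v1 x y) ∈ Subgroup.closure ({x, y, z} : Set G) := by
    have hy : y ∈ Subgroup.closure ({x, y, z} : Set G) := Subgroup.subset_closure (by simp)
    have hx : x ∈ Subgroup.closure ({x, y, z} : Set G) := Subgroup.subset_closure (by simp)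
    have hc : ∀ a b, a ∈ Subgroup.closure ({x, y, z} : Set G) →
        b ∈ Subgroup.closure ({x, y, z} : Set G) → ⁅a, b⁆ ∈ Subgroup.closure ({x, y, z} : Set G) :=
      fun a b ha hb => mul_mem (mul_mem (mul_mem ha hb) (inv_mem ha)) (inv_mem hb)
    exact hc _ _ (hc _ _ hx hy) hy
  obtain ⟨ψ, h1, h2, h3⟩ := transv w {x, y, z} (by rw [← hgen]; congr 1; ext; simp; tauto) Hw'
    (S.v1 x y) hmem1 (((S.cen x y - 1) ^ 2 * δ) • S.r y⁻¹)
  set b : S.M := (((S.cen x y - 1) ^ 2 * δ) • S.r y⁻¹) • S.v1 x y with hb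
  have e1 : hat (ψ : G →* G) h3 (S.v1 x y) = S.v1 x y :=
    val_inj (fix_closure (θ := (ψ : G →* G)) h2 hmem1)
  have e0 : hat (ψ : G →* G) h3 v0 = S.r ⁅y, z⁆ • b + v0 - b := by
    apply val_inj
    rw [val_hat, val_sub, val_add, val_smul]
    change ψ ⁅⁅y, z⁆, w⁆ = _ * ⁅⁅y, z⁆, w⁆ * _
    rw [map_commutatorElement, map_commutatorElement, h1, h2 y (by simp), h2 z (by simp),
      commutatorElement_def ⁅y, z⁆, commutatorElement_def ⁅y, z⁆]
    group
  have k2 := k1.map ψ
  rw [map_mul, h2 x (by simp)] at k2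
  have k3 := alpha x y {y, z, w} (by simp) hgen Hx' v0 hmem (g + (S.cen y z - 1) * δ) 1 0 (by
    convert k2 using 2
    change _ = val (hat (ψ : G →* G) h3 _)
    rw [map_add, hat_smul, hel, hel, hat_smul, e0, e1, one_smul, one_smul]
    congr 1
    have : ((S.cen x y - 1) ^ 2 * (g + (S.cen y z - 1) * δ)) • S.r y⁻¹ =
        ((S.cen x y - 1) ^ 2 * g) • S.r y⁻¹ +
        (S.cen y z • ((S.cen x y - 1) ^ 2 * δ) • S.r y⁻¹ -
          ((S.cen x y - 1) ^ 2 * δ) • S.r y⁻¹) := by module
    rw [this, add_smul, sub_smul, cen_smul, mul_smul (S.r ⁅y, z⁆), ← hb]; abel)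
  simpa using k3

theorem val_cen (a b : G) (e : S.E) (v : S.M) :
    val (((S.cen a b - 1) • e) • v) = ⁅⁅a, b⁆, val (e • v)⁆ := by
  rw [sub_smul, one_smul, sub_smul, cen_smul, mul_smul, val_sub, val_smul,
    commutatorElement_def ⁅a, b⁆]

end Setup

/-- The element of the rank two group. -/
def hw {G : Type*} [Group G] (x y : G) : G :=
  ⁅⁅x, y⁆, ⁅⁅x, y⁆, ⁅⁅x, y⁆, y⁻¹ * ⁅⁅x, y⁆, y⁆ * y⁆⁆⁆ * x

theorem map_hw {G K : Type*} [Group G] [Group K] (f : G →* K) (x y : G) :
    f (hw x y) = hw (f x) (f y) := by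
  simp only [hw, map_mul, map_commutatorElement, map_inv]

theorem prim_four {G : Type*} [Group G] (S : Setup G) (x y z w : G)
    (hgen : Subgroup.closure {x, y, z, w} = ⊤)
    (U : ∀ a b c d : G, ∃ θ : G →* G, θ x = a ∧ θ y = b ∧ θ z = c ∧ θ w = d) :
    ∃ ψ : G ≃* G, ψ x = hw x y := by
  have h0 : Setup.Prim x (Setup.val (S.hel x y ((S.cen x y - 1) ^ 2 * 0)) * x) :=
    ⟨MulEquiv.refl G, by simp [Setup.hel, Setup.val_zero]⟩
  have h1 := Setup.step x y z w hgen (fun a => U _ _ _ _)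
    (fun a => by
      obtain ⟨θ, h1, h2, h3, h4⟩ := U x y z (a * w)
      exact ⟨θ, h4, h1, h2, h3⟩) 0 1 h0
  have hgen' : Subgroup.closure {x, y, z * x, w} = ⊤ := by
    rw [eq_top_iff, ← hgen, Subgroup.closure_le]
    have hx : x ∈ Subgroup.closure ({x, y, z * x, w} : Set G) := Subgroup.subset_closure (by simp)
    have hz : z * x ∈ Subgroup.closure ({x, y, z * x, w} : Set G) :=
      Subgroup.subset_closure (by simp)
    rintro g (rfl | rfl | rfl | rfl)
    · exact hx
    · exact Subgroup.subset_closure (by simp)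
    · simpa using mul_mem hz (inv_mem hx)
    · exact Subgroup.subset_closure (by simp)
  have h2 := Setup.step x y (z * x) w hgen'
    (fun a => by
      obtain ⟨θ, h1, h2, h3, h4⟩ := U (a * x) y (z * x * (a * x)⁻¹) w
      exact ⟨θ, h1, h2, by rw [map_mul, h3, h1]; simp, h4⟩)
    (fun a => by
      obtain ⟨θ, h1, h2, h3, h4⟩ := U x y z (a * w)
      exact ⟨θ, h4, h1, h2, by rw [map_mul, h3, h1]⟩) _ (-S.cen x y) h1
  have hD : S.cen y z = S.cen y (z * x) * S.cen x y := by
    apply Subtype.ext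
    change S.r ⁅y, z⁆ = S.r ⁅y, z * x⁆ * S.r ⁅x, y⁆
    have e : ⁅y, z⁆ = ⁅y, z * x⁆ * (z * ⁅x, y⁆ * z⁻¹) := by
      simp only [commutatorElement_def]; group
    have e2 := Subring.mem_center_iff.1 (Setup.r_comm_mem (S := S) x y) (S.r z)
    rw [e, map_mul, map_mul, map_mul, e2, mul_assoc, ← map_mul (S.r) z, mul_inv_cancel, map_one,
      mul_one]
  have e : (S.cen x y - 1) ^ 2 * (0 + (S.cen y z - 1) * 1 + (S.cen y (z * x) - 1) * -S.cen x y) =
      (S.cen x y - 1) * ((S.cen x y - 1) * (S.cen x y - 1)) := by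
    rw [hD]; ring
  rw [e, Setup.hel, mul_smul, mul_smul, Setup.val_cen, Setup.val_cen, Setup.val_cen,
    Setup.val_smul, inv_inv] at h2
  exact h2

/-- Magnus type group over a ring. -/
@[ext] structure T (R : Type*) [Ring R] where
  a : R
  b : R
  u : Rˣ

namespace T
variable {R : Type*} [Ring R]

instance : Mul (T R) := ⟨fun p q => ⟨p.a + p.u * q.a, p.b + p.u * q.b, p.u * q.u⟩⟩
instance : One (T R) := ⟨⟨0, 0, 1⟩⟩
instance : Inv (T R) := ⟨fun p => ⟨-((p.u⁻¹ : Rˣ) * p.a), -((p.u⁻¹ : Rˣ) * p.b), p.u⁻¹⟩⟩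
@[simp] theorem mul_a (p q : T R) : (p * q).a = p.a + p.u * q.a := rfl
@[simp] theorem mul_b (p q : T R) : (p * q).b = p.b + p.u * q.b := rfl
@[simp] theorem mul_u (p q : T R) : (p * q).u = p.u * q.u := rfl
@[simp] theorem one_a : (1 : T R).a = 0 := rfl
@[simp] theorem one_b : (1 : T R).b = 0 := rfl
@[simp] theorem one_u : (1 : T R).u = 1 := rfl
@[simp] theorem inv_a (p : T R) : p⁻¹.a = -((p.u⁻¹ : Rˣ) * p.a) := rfl
@[simp] theorem inv_b (p : T R) : p⁻¹.b = -((p.u⁻¹ : Rˣ) * p.b) := rfl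
@[simp] theorem inv_u (p : T R) : p⁻¹.u = p.u⁻¹ := rfl

instance : Group (T R) := Group.ofLeftAxioms
  (fun p q r => by ext <;> simp [mul_add, add_assoc, mul_assoc])
  (fun p => by ext <;> simp)
  (fun p => by ext <;> simp)

/-- Projection to the units. -/
def pr : T R →* Rˣ where
  toFun p := p.u
  map_one' := rfl
  map_mul' _ _ := rfl

theorem comm_base (p q : T R) (hp : p.u = 1) (hq : q.u = 1) : ⁅p, q⁆ = 1 := by
  rw [commutatorElement_eq_one_iff_mul_comm]
  ext <;> simp [hp, hq, add_comm]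

theorem comm_eq {G : Type*} [Group G] {p q c : G} (h : p * q = c * (q * p)) : ⁅p, q⁆ = c := by
  rw [commutatorElement_def, h]; group

theorem hw_eq (x y : Rˣ) (hxy : (x : R) * y = -(y * x)) (hy : (y : R) * y = -1) :
    hw (⟨1, 0, x⟩ : T R) ⟨0, 1, y⟩ = ⟨1 + 16 * y, 8 * ((1 - y) * (1 + y * x)), x⟩ := by
  have hy' : ∀ t : R, (y : R) * (y * t) = -t := fun t => by rw [← mul_assoc, hy]; simp
  have e1 : ⁅(⟨1, 0, x⟩ : T R), (⟨0, 1, y⟩ : T R)⁆ = ⟨1 + y, x + 1, -1⟩ := by
    apply comm_eq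
    ext <;> simp [hxy]
  have e2 : ⁅(⟨1 + y, x + 1, -1⟩ : T R), (⟨0, 1, y⟩ : T R)⁆ = ⟨2, x - y * x - y - 1, 1⟩ := by
    apply comm_eq
    ext <;> simp [mul_add, hy]
    · rw [← one_add_one_eq_two]; abel
    · abel
  have e3 : (⟨0, 1, y⟩ : T R)⁻¹ * ⟨2, x - y * x - y - 1, 1⟩ * ⟨0, 1, y⟩ =
      ⟨-(y * 2), -(y * (x - y * x - y - 1)), 1⟩ := by
    rw [mul_assoc, inv_mul_eq_iff_eq_mul]
    ext <;> simp [hy', add_comm]
  have e4 : ∀ s t : R, ⁅(⟨1 + y, x + 1, -1⟩ : T R), (⟨s, t, 1⟩ : T R)⁆ =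
      ⟨-(2 * s), -(2 * t), 1⟩ := by
    intro s t
    apply comm_eq
    ext <;> simp [two_mul] <;> abel
  rw [hw, e1, e2, e3, e4, e4, e4]
  ext
  · simp only [mul_a, Units.val_one]; noncomm_ring
  · rw [show (8 : R) = 2 * (2 * 2) by norm_num]
    simp only [mul_b, Units.val_one, mul_sub, sub_mul, mul_add, hy', hy, mul_one, one_mul,
      mul_neg, two_mul, add_mul]
    rw [← one_add_one_eq_two]
    abel
  · simp

end T

theorem commute_of_gens {ι K : Type*} [Group K] (ψ : FreeGroup ι →* K)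
    (h : ∀ i j, Commute (ψ (FreeGroup.of i)) (ψ (FreeGroup.of j))) (f g : FreeGroup ι) :
    Commute (ψ f) (ψ g) := by
  have h1 : ∀ i, Commute (ψ (FreeGroup.of i)) (ψ g) := by
    intro i
    induction g using FreeGroup.induction_on with
    | C1 => simp
    | of j => exact h i j
    | inv_of j ih => rw [map_inv]; exact ih.inv_right
    | mul a b iha ihb => rw [map_mul]; exact iha.mul_right ihb
  induction f using FreeGroup.induction_on with
  | C1 => simp
  | of j => exact h1 j
  | inv_of j ih => rw [map_inv]; exact ih.inv_left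
  | mul a b iha ihb => rw [map_mul]; exact iha.mul_left ihb

/-- The infinite cyclic group. -/
def Zm : Type := Multiplicative ℤ

instance : CommGroup Zm := inferInstanceAs (CommGroup (Multiplicative ℤ))

/-- Action by conjugation. -/
noncomputable def act : Zm →* RingAut GaussianInt := zpowersHom (RingAut GaussianInt) starRingAut

noncomputable instance : MulSemiringAction Zm GaussianInt := MulSemiringAction.compHom _ act

/-- The generator. -/
def tt : Zm := Multiplicative.ofAdd (1 : ℤ)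

theorem tt_smul (z : GaussianInt) : tt • z = star z := by
  change (zpowersHom (RingAut GaussianInt) starRingAut (Multiplicative.ofAdd (1 : ℤ))) z = _
  simp

/-- The skew Laurent ring. -/
abbrev RR : Type := SkewMonoidAlgebra GaussianInt Zm

open SkewMonoidAlgebra

theorem exists_top (τ : Zm →* Multiplicative ℤ) (hτ : Function.Injective τ) (f g : RR)
    (hf : f ≠ 0) (hg : g ≠ 0) : ∃ a ∈ f.support, ∃ b ∈ g.support,
      (∀ a' ∈ f.support, τ a' ≤ τ a) ∧ (∀ b' ∈ g.support, τ b' ≤ τ b) ∧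
        (f * g).coeff (a * b) ≠ 0 := by
  obtain ⟨a, ha, ha'⟩ := Finset.exists_max_image f.support τ
    (Finset.nonempty_iff_ne_empty.2 fun h => hf (support_eq_empty.1 h))
  obtain ⟨b, hb, hb'⟩ := Finset.exists_max_image g.support τ
    (Finset.nonempty_iff_ne_empty.2 fun h => hg (support_eq_empty.1 h))
  refine ⟨a, ha, b, hb, ha', hb', ?_⟩
  rw [coeff_mul_left, sum_def', Finset.sum_eq_single a]
  · rw [inv_mul_cancel_left]
    refine mul_ne_zero (mem_support_iff.1 ha) ?_
    rw [smul_ne_zero_iff_ne]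
    exact mem_support_iff.1 hb
  · intro a' h1 h2
    have : g.coeff (a'⁻¹ * (a * b)) = 0 := by
      by_contra h3
      have h4 := hb' _ (mem_support_iff.2 h3)
      have h5 := lt_of_le_of_ne (ha' a' h1) (fun h => h2 (hτ h))
      rw [map_mul, map_mul, map_inv, inv_mul_le_iff_le_mul, mul_le_mul_iff_right] at h4
      exact absurd h4 (not_le.2 h5)
    rw [this]; simp
  · intro h; exact absurd ha h

theorem eq_zero_of_mul (f g : RR) (h : f * g = 0) (hg : g ≠ 0) : f = 0 := by
  by_contra hf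
  obtain ⟨a, -, b, -, -, -, h1⟩ := exists_top (MonoidHom.id _) (fun _ _ h => h) f g hf hg
  rw [h] at h1; simp at h1

theorem monomial_of_mul (f g : RR) (d : GaussianInt) (hd : d ≠ 0) (h : f * g = single 1 d) :
    ∃ a c, f = single a c := by
  have hfg : f * g ≠ 0 := by rw [h]; exact fun h' => hd (single_eq_zero.1 h')
  have hf : f ≠ 0 := left_ne_zero_of_mul hfg
  have hg : g ≠ 0 := right_ne_zero_of_mul hfg
  obtain ⟨a, ha, b, hb, h1, h2, h3⟩ := exists_top (MonoidHom.id _) (fun _ _ h => h) f g hf hg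
  obtain ⟨a', ha', b', hb', h1', h2', h3'⟩ := exists_top (invMonoidHom (α := Multiplicative ℤ))
    inv_injective f g hf hg
  have k : ∀ e : Zm, (f * g).coeff e ≠ 0 → e = 1 := by
    intro e he
    by_contra hne
    rw [h, coeff_single, Finsupp.single_eq_of_ne hne] at he
    exact he rfl
  have k1 : Multiplicative.toAdd (α := ℤ) a + Multiplicative.toAdd (α := ℤ) b = 0 :=
    congrArg (Multiplicative.toAdd (α := ℤ)) (k _ h3)
  have k2 : Multiplicative.toAdd (α := ℤ) a' + Multiplicative.toAdd (α := ℤ) b' = 0 :=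
    congrArg (Multiplicative.toAdd (α := ℤ)) (k _ h3')
  have k3 : Multiplicative.toAdd (α := ℤ) b' ≤ Multiplicative.toAdd (α := ℤ) b := h2 b' hb'
  refine ⟨a, f.coeff a, ?_⟩
  refine SkewMonoidAlgebra.ext fun e => ?_
  by_cases he : e = a
  · subst he; simp
  · rw [coeff_single, Finsupp.single_eq_of_ne he]
    by_contra h5
    have k4 : Multiplicative.toAdd (α := ℤ) e ≤ Multiplicative.toAdd (α := ℤ) a :=
      h1 e (mem_support_iff.2 h5)
    have k5 : -Multiplicative.toAdd (α := ℤ) e ≤ -Multiplicative.toAdd (α := ℤ) a' :=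
      h1' e (mem_support_iff.2 h5)
    apply he
    apply (Multiplicative.toAdd (α := ℤ)).injective
    omega

/-- The unit `x`. -/
noncomputable def xx : RRˣ :=
  ⟨single tt 1, single tt⁻¹ 1, by simp, by simp⟩

/-- The Gaussian unit. -/
def ii : GaussianInt := ⟨0, 1⟩

/-- The unit `y`. -/
noncomputable def yy : RRˣ :=
  ⟨single 1 ii, single 1 (-ii),
    by rw [single_mul_single, one_def, one_smul, mul_one]; congr 1,
    by rw [single_mul_single, one_def, one_smul, mul_one]; congr 1⟩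

theorem xx_yy : (xx : RR) * yy = -(yy * xx) := by
  change single tt 1 * single 1 ii = -(single 1 ii * single tt 1)
  rw [single_mul_single, single_mul_single, tt_smul, one_smul, mul_one, one_mul, ← single_neg]
  congr 1

theorem yy_yy : (yy : RR) * yy = -1 := by
  change single 1 ii * single 1 ii = _
  rw [single_mul_single, one_def, one_smul, mul_one, ← single_neg]
  congr 1

/-- Evaluation modulo the prime of norm 257. -/
def ev : GaussianInt →+* ZMod 257 := Zsqrtd.lift ⟨16, by decide⟩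

theorem ev_ii : ev ii = 16 := by
  simp [ev, ii]

theorem aux_col {R : Type*} [Ring R] (A A' B α β g : R) (h1 : -(A' * B) = α * g)
    (h2 : 257 = β * g) (h : A * A' = 257) : (A * α + B * β) * g = 0 := by
  have := (Nat.cast_commute (α := R) 257 B).eq
  rw [Nat.cast_ofNat] at this
  rw [add_mul, mul_assoc, mul_assoc, ← h1, ← h2, mul_neg, ← mul_assoc, h, this]; simp

theorem no_col (α β g1 g2 : RR)
    (h1 : -((1 - 16 * yy) * (8 * ((1 - yy) * (1 + yy * xx)))) = α * g1)
    (h2 : 257 = β * g1) (h3 : (1 - yy * xx) * (1 + 16 * yy) = β * g2) : False := by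
  let j : GaussianInt →+* RR := singleOneRingHom
  have hj : ∀ z, j z = single 1 z := fun _ => rfl
  have hyy : (yy : RR) = j ii := rfl
  have h257 : (257 : RR) = single 1 (257 : GaussianInt) := by
    rw [← hj, map_ofNat]
  have hA : (1 + 16 * yy : RR) = single 1 (1 + 16 * ii) := by
    rw [← hj, map_add, map_mul, map_one, map_ofNat, hyy]
  have hA' : (1 - 16 * yy : RR) = single 1 (1 - 16 * ii) := by
    rw [← hj, map_sub, map_mul, map_one, map_ofNat, hyy]
  have hB : (8 * (1 - yy) : RR) = single 1 (8 * (1 - ii)) := by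
    rw [← hj, map_mul, map_sub, map_one, map_ofNat, hyy]
  have hyx : (yy * xx : RR) = single tt ii := by
    change single 1 ii * single tt 1 = _
    rw [single_mul_single, one_smul, mul_one, one_mul]
  obtain ⟨a, c, rfl⟩ := monomial_of_mul β g1 257 (by decide) (by rw [← h2, h257])
  have hg1 : g1 ≠ 0 := by
    rintro rfl
    rw [mul_zero, h257, single_eq_zero] at h2
    exact absurd h2 (by decide)
  have h4 : (1 + 16 * yy) * α + 8 * ((1 - yy) * (1 + yy * xx)) * single a c = 0 := by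
    apply eq_zero_of_mul _ g1 _ hg1
    apply aux_col _ _ _ _ _ _ h1 h2
    rw [hA, hA', single_mul_single, one_smul, mul_one,
      show (1 + 16 * ii) * (1 - 16 * ii) = (257 : GaussianInt) by decide, ← h257]
  have hne : tt * a ≠ a := by
    intro h
    have h' : tt = 1 := by simpa using h
    have : (1 : ℤ) = 0 := congrArg (Multiplicative.toAdd (α := ℤ)) h'
    exact one_ne_zero this
  have h5 := congrArg (fun f : RR => ev (f.coeff a)) h4
  simp only [← mul_assoc, hA, hB, hyx] at h5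
  rw [mul_assoc, coeff_add, Finsupp.add_apply, coeff_single_one_mul, coeff_single_one_mul,
    add_mul (1 : RR), one_mul, single_mul_single, coeff_add, Finsupp.add_apply, coeff_single,
    coeff_single,
    Finsupp.single_eq_same, Finsupp.single_eq_of_ne hne.symm, add_zero] at h5
  simp only [map_add, map_mul, map_sub, map_one, ev_ii, map_ofNat, coeff_zero, Finsupp.zero_apply,
    map_zero] at h5
  have h6 : ev c = 0 := by
    have e1 : (1 + 16 * 16 : ZMod 257) = 0 := by decide
    rw [e1, zero_mul, zero_add] at h5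
    have e2 : (15 * (8 * (1 - 16)) : ZMod 257) = -1 := by decide
    have : (15 * (8 * (1 - 16)) : ZMod 257) * ev c = 0 := by rw [mul_assoc, h5, mul_zero]
    rw [e2] at this
    simpa using this
  have h7 := congrArg (fun f : RR => ev (f.coeff tt)) h3
  have hne1 : tt ≠ 1 := by
    intro h'
    have : (1 : ℤ) = 0 := congrArg (Multiplicative.toAdd (α := ℤ)) h'
    exact one_ne_zero this
  simp only [hA, hyx] at h7
  rw [coeff_single_mul, map_mul, h6, zero_mul, sub_mul, one_mul, single_mul_single, coeff_sub,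
    Finsupp.sub_apply, coeff_single, coeff_single, Finsupp.single_eq_of_ne hne1, mul_one,
    Finsupp.single_eq_same, tt_smul,
    show star (1 + 16 * ii) = (1 - 16 * ii : GaussianInt) by decide] at h7
  simp only [map_mul, map_sub, map_one, ev_ii, map_ofNat, map_zero] at h7
  exact absurd h7 (by decide)


/-- The law of the variety of abelian-by-(class two) groups. -/
def law : FreeGroup ℕ :=
  ⁅⁅⁅FreeGroup.of 0, FreeGroup.of 1⁆, FreeGroup.of 2⁆,
    ⁅⁅FreeGroup.of 3, FreeGroup.of 4⁆, FreeGroup.of 5⁆⁆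

/-- The verbal subgroup. -/
abbrev NN (ι : Type) : Subgroup (FreeGroup ι) := Subgroup.normalClosure
  {x : FreeGroup ι | ∃ u ∈ ({law} : Set (FreeGroup ℕ)), ∃ g : ℕ → FreeGroup ι,
    FreeGroup.lift g u = x}

theorem lift_law {K : Type*} [Group K] (g : ℕ → K) :
    FreeGroup.lift g law = ⁅⁅⁅g 0, g 1⁆, g 2⁆, ⁅⁅g 3, g 4⁆, g 5⁆⁆ := by
  simp only [law, map_commutatorElement, FreeGroup.lift_apply_of]

theorem kill {ι : Type} {K : Type*} [Group K] (φ : FreeGroup ι →* K)
    (h : ∀ a b c d e f, ⁅⁅⁅φ a, φ b⁆, φ c⁆, ⁅⁅φ d, φ e⁆, φ f⁆⁆ = 1) : NN ι ≤ φ.ker := by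
  apply Subgroup.normalClosure_le_normal
  rintro _ ⟨u, rfl, g, rfl⟩
  rw [SetLike.mem_coe, MonoidHom.mem_ker, lift_law]
  simp only [map_commutatorElement]
  exact h _ _ _ _ _ _

theorem law_quot {ι : Type} (a b c d e f : FreeGroup ι ⧸ NN ι) :
    ⁅⁅⁅a, b⁆, c⁆, ⁅⁅d, e⁆, f⁆⁆ = 1 := by
  obtain ⟨a, rfl⟩ := QuotientGroup.mk'_surjective _ a
  obtain ⟨b, rfl⟩ := QuotientGroup.mk'_surjective _ b
  obtain ⟨c, rfl⟩ := QuotientGroup.mk'_surjective _ c
  obtain ⟨d, rfl⟩ := QuotientGroup.mk'_surjective _ d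
  obtain ⟨e, rfl⟩ := QuotientGroup.mk'_surjective _ e
  obtain ⟨f, rfl⟩ := QuotientGroup.mk'_surjective _ f
  simp only [← map_commutatorElement]
  rw [QuotientGroup.mk'_apply, QuotientGroup.eq_one_iff]
  apply Subgroup.subset_normalClosure
  refine ⟨law, rfl, fun n => [a, b, c, d, e, f].getD n 1, ?_⟩
  rw [lift_law]; rfl

/-- The structure on a group satisfying the law. -/
def setupOf {G : Type*} [Group G]
    (h : ∀ a b c d e f : G, ⁅⁅⁅a, b⁆, c⁆, ⁅⁅d, e⁆, f⁆⁆ = 1) : Setup G where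
  V := Subgroup.closure {g | ∃ a b c : G, ⁅⁅a, b⁆, c⁆ = g}
  normal := ⟨fun n hn g => by
    have : Subgroup.closure {g | ∃ a b c : G, ⁅⁅a, b⁆, c⁆ = g} ≤
        (Subgroup.closure {g | ∃ a b c : G, ⁅⁅a, b⁆, c⁆ = g}).comap
          (MulAut.conj g : G ≃* G).toMonoidHom := by
      apply (Subgroup.closure_le _).2
      rintro _ ⟨a, b, c, rfl⟩
      rw [SetLike.mem_coe, Subgroup.mem_comap, map_commutatorElement, map_commutatorElement]
      exact Subgroup.subset_closure ⟨_, _, _, rfl⟩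
    exact this hn⟩
  comm := fun a ha b hb => by
    have h1 : ∀ p ∈ {g | ∃ a b c : G, ⁅⁅a, b⁆, c⁆ = g}, p * b = b * p := by
      intro p hp
      have : Subgroup.closure {g | ∃ a b c : G, ⁅⁅a, b⁆, c⁆ = g} ≤
          Subgroup.centralizer {p} := by
        apply (Subgroup.closure_le _).2
        rintro _ ⟨d, e, f, rfl⟩
        obtain ⟨a, b, c, rfl⟩ := hp
        rw [SetLike.mem_coe, Subgroup.mem_centralizer_iff]
        rintro _ rfl
        exact commutatorElement_eq_one_iff_mul_comm.1 (h _ _ _ _ _ _)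
      exact Subgroup.mem_centralizer_iff.1 (this hb) p rfl
    have : Subgroup.closure {g | ∃ a b c : G, ⁅⁅a, b⁆, c⁆ = g} ≤
        Subgroup.centralizer {b} := by
      apply (Subgroup.closure_le _).2
      intro p hp
      rw [SetLike.mem_coe, Subgroup.mem_centralizer_iff]
      rintro _ rfl
      exact (h1 p hp).symm
    exact (Subgroup.mem_centralizer_iff.1 (this ha) b rfl).symm
  nil := fun a b c => Subgroup.subset_closure ⟨a, b, c, rfl⟩

theorem rank_four : ∃ ψ : (FreeGroup (Fin 4) ⧸ NN (Fin 4)) ≃* (FreeGroup (Fin 4) ⧸ NN (Fin 4)),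
    ψ (QuotientGroup.mk (FreeGroup.of 0)) =
      QuotientGroup.mk (hw (FreeGroup.of 0) (FreeGroup.of 1)) := by
  obtain ⟨ψ, h⟩ := prim_four (setupOf (law_quot (ι := Fin 4)))
    (QuotientGroup.mk (FreeGroup.of 0)) (QuotientGroup.mk (FreeGroup.of 1))
    (QuotientGroup.mk (FreeGroup.of 2)) (QuotientGroup.mk (FreeGroup.of 3))
    (by
      rw [eq_top_iff]
      rintro g -
      obtain ⟨g, rfl⟩ := QuotientGroup.mk'_surjective _ g
      induction g using FreeGroup.induction_on with
      | C1 => rw [map_one]; exact one_mem _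
      | of j => apply Subgroup.subset_closure; fin_cases j <;> simp
      | inv_of j ih => rw [map_inv]; exact inv_mem ih
      | mul a b iha ihb => rw [map_mul]; exact mul_mem iha ihb)
    (fun a b c d => ⟨QuotientGroup.lift _ (FreeGroup.lift ![a, b, c, d])
      (kill _ fun _ _ _ _ _ _ => law_quot _ _ _ _ _ _), by simp, by simp, by simp, by simp⟩)
  exact ⟨ψ, h.trans (map_hw (QuotientGroup.mk' (NN (Fin 4))) _ _).symm⟩

/-- The Magnus map. -/
noncomputable def mu : FreeGroup (Fin 2) →* T RR :=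
  FreeGroup.lift ![(⟨1, 0, xx⟩ : T RR), ⟨0, 1, yy⟩]

theorem mu_kill : NN (Fin 2) ≤ mu.ker := by
  apply kill
  have key : ∀ a b c, (⁅⁅mu a, mu b⁆, mu c⁆).u = 1 := by
    intro a b c
    have h1 := commute_of_gens
      ((QuotientGroup.mk' (Subgroup.center RRˣ)).comp (T.pr.comp mu)) (by
        have h0 : Commute ((QuotientGroup.mk' (Subgroup.center RRˣ)) xx)
            ((QuotientGroup.mk' (Subgroup.center RRˣ)) yy) := by
          rw [← commutatorElement_eq_one_iff_commute, ← map_commutatorElement,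
            QuotientGroup.mk'_apply, QuotientGroup.eq_one_iff]
          have : ⁅xx, yy⁆ = -1 := T.comm_eq (Units.ext (by simp [xx_yy]))
          rw [this, Subgroup.mem_center_iff]
          intro g; exact (mul_neg_one g).trans (neg_one_mul g).symm
        intro i j
        fin_cases i <;> fin_cases j
        · exact Commute.refl _
        · simpa [mu, T.pr] using h0
        · simpa [mu, T.pr] using h0.symm
        · exact Commute.refl _) a b
    rw [← commutatorElement_eq_one_iff_commute, ← map_commutatorElement, MonoidHom.comp_apply,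
      QuotientGroup.mk'_apply, QuotientGroup.eq_one_iff, Subgroup.mem_center_iff] at h1
    change T.pr ⁅⁅mu a, mu b⁆, mu c⁆ = 1
    rw [map_commutatorElement, commutatorElement_eq_one_iff_mul_comm, ← map_commutatorElement mu]
    exact (h1 _).symm
  intro a b c d e f
  exact T.comm_base _ _ (key _ _ _) (key _ _ _)

/-- Pairs of rows spanned by two given rows. -/
def rowSub {R : Type*} [Ring R] (A B C D : R) : Subgroup (T R) where
  carrier := {p | ∃ α β : R, p.a = α * A + β * C ∧ p.b = α * B + β * D}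
  one_mem' := ⟨0, 0, by simp, by simp⟩
  mul_mem' := by
    rintro p q ⟨α, β, h1, h2⟩ ⟨α', β', h1', h2'⟩
    refine ⟨α + p.u * α', β + p.u * β', ?_, ?_⟩
    · rw [T.mul_a, h1, h1']; noncomm_ring
    · rw [T.mul_b, h2, h2']; noncomm_ring
  inv_mem' := by
    rintro p ⟨α, β, h1, h2⟩
    refine ⟨-((p.u⁻¹ : Rˣ) * α), -((p.u⁻¹ : Rˣ) * β), ?_, ?_⟩
    · rw [T.inv_a, h1]; noncomm_ring
    · rw [T.inv_b, h2]; noncomm_ring

theorem col_of_rows {R : Type*} [Ring R] {A B C D α' α β' β s t : R}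
    (h1 : 1 = α' * A + α * C) (h2 : 0 = α' * B + α * D)
    (h3 : 0 = β' * A + β * C) (h4 : 1 = β' * B + β * D) (h : A * s + B * t = 0) :
    s = α * (C * s + D * t) ∧ t = β * (C * s + D * t) := by
  constructor
  · calc s = (α' * A + α * C) * s + (α' * B + α * D) * t := by rw [← h1, ← h2]; simp
      _ = α' * (A * s + B * t) + α * (C * s + D * t) := by noncomm_ring
      _ = _ := by rw [h]; simp
  · calc t = (β' * A + β * C) * s + (β' * B + β * D) * t := by rw [← h3, ← h4]; simp
      _ = β' * (A * s + B * t) + β * (C * s + D * t) := by noncomm_ring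
      _ = _ := by rw [h]; simp

theorem cols {R : Type*} [Ring R] (x y : R) (hxy : x * y = -(y * x)) (hy : y * y = -1) :
    ((1 + 16 * y) * -((1 - 16 * y) * (8 * ((1 - y) * (1 + y * x)))) +
      8 * ((1 - y) * (1 + y * x)) * 257 = 0) ∧
    ((1 + 16 * y) * -(8 * ((1 - y) * (1 - x * x))) +
      8 * ((1 - y) * (1 + y * x)) * ((1 - y * x) * (1 + 16 * y)) = 0) := by
  have hy' : ∀ t : R, y * (y * t) = -t := fun t => by rw [← mul_assoc, hy]; simp
  have hx' : ∀ t : R, x * (y * t) = -(y * (x * t)) := fun t => by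
    rw [← mul_assoc, hxy, neg_mul, mul_assoc]
  constructor
  · have h : (1 + 16 * y) * (1 - 16 * y) = 257 := by
      have : (1 + 16 * y) * (1 - 16 * y) = 1 - 256 * (y * y) := by noncomm_ring
      rw [this, hy]; norm_num
    have := (Nat.cast_commute (α := R) 257 (8 * ((1 - y) * (1 + y * x)))).eq
    rw [Nat.cast_ofNat] at this
    rw [mul_neg, ← mul_assoc, h, this]; simp
  · have h : (1 + y * x) * (1 - y * x) = 1 - x * x := by
      simp only [mul_sub, add_mul, mul_one, one_mul, mul_assoc, hx', hy', mul_neg, neg_neg]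
      abel
    have hc : Commute y (x * x) := by
      change y * (x * x) = x * x * y
      rw [mul_assoc, hxy, mul_neg, hx', neg_neg]
    have h2 : Commute (1 + 16 * y) (8 * ((1 - y) * (1 - x * x))) := by
      have h8 : ∀ t : R, Commute t 8 := fun t => by
        simpa using (Nat.cast_commute (α := R) 8 t).symm
      have h16 : ∀ t : R, Commute 16 t := fun t => by
        simpa using (Nat.cast_commute (α := R) 16 t)
      refine (Commute.one_left _).add_left ((h16 _).mul_left ((h8 _).mul_right ?_))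
      exact ((Commute.one_right _).sub_right (Commute.refl _)).mul_right
        ((Commute.one_right _).sub_right hc)
    rw [mul_neg, h2.eq, ← h]
    noncomm_ring

theorem rank_two (φ : (FreeGroup (Fin 2) ⧸ NN (Fin 2)) ≃* (FreeGroup (Fin 2) ⧸ NN (Fin 2)))
    (i : Fin 2) (h : φ (QuotientGroup.mk (FreeGroup.of i)) =
      QuotientGroup.mk (hw (FreeGroup.of 0) (FreeGroup.of 1))) : False := by
  let m : (FreeGroup (Fin 2) ⧸ NN (Fin 2)) →* T RR := QuotientGroup.lift _ mu mu_kill
  have hm : ∀ g, m (QuotientGroup.mk g) = mu g := fun _ => rfl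
  have hh : m (φ (QuotientGroup.mk (FreeGroup.of i))) =
      ⟨1 + 16 * yy, 8 * ((1 - yy) * (1 + yy * xx)), xx⟩ := by
    rw [h, hm, map_hw, ← T.hw_eq xx yy xx_yy yy_yy]
    simp [mu]
  set P := m (φ (QuotientGroup.mk (FreeGroup.of (i + 1)))) with hP
  have key : ∀ g : FreeGroup (Fin 2), m (φ (QuotientGroup.mk' _ g)) ∈
      rowSub (1 + 16 * yy : RR) (8 * ((1 - yy) * (1 + yy * xx))) P.a P.b := by
    intro g
    induction g using FreeGroup.induction_on with
    | C1 => rw [map_one, map_one, map_one]; exact one_mem _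
    | of j =>
      have : j = i ∨ j = i + 1 := (by decide : ∀ i j : Fin 2, j = i ∨ j = i + 1) i j
      rcases this with rfl | rfl
      · rw [QuotientGroup.mk'_apply, hh]
        exact ⟨1, 0, by simp, by simp⟩
      · exact ⟨0, 1, by simp [hP], by simp [hP]⟩
    | inv_of j ih => rw [map_inv, map_inv, map_inv]; exact inv_mem ih
    | mul a b iha ihb => rw [map_mul, map_mul, map_mul]; exact mul_mem iha ihb
  have key2 : ∀ g : FreeGroup (Fin 2), mu g ∈
      rowSub (1 + 16 * yy : RR) (8 * ((1 - yy) * (1 + yy * xx))) P.a P.b := by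
    intro g
    obtain ⟨g', hg'⟩ := QuotientGroup.mk'_surjective _ (φ.symm (QuotientGroup.mk g))
    have := key g'
    rwa [hg', MulEquiv.apply_symm_apply, hm] at this
  obtain ⟨α', α, h1, h2⟩ := key2 (FreeGroup.of 0)
  obtain ⟨β', β, h3, h4⟩ := key2 (FreeGroup.of 1)
  have e0 : mu (FreeGroup.of 0) = ⟨1, 0, xx⟩ := by simp [mu]
  have e1 : mu (FreeGroup.of 1) = ⟨0, 1, yy⟩ := by simp [mu]
  rw [e0] at h1 h2
  rw [e1] at h3 h4
  obtain ⟨c1, c2⟩ := cols (xx : RR) yy xx_yy yy_yy
  obtain ⟨k1, k2⟩ := col_of_rows h1 h2 h3 h4 c1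
  obtain ⟨-, k4⟩ := col_of_rows h1 h2 h3 h4 c2
  exact no_col α β _ _ k1 k2 k4

theorem main :
    ∃ (W : Set (FreeGroup ℕ)) (r n : ℕ) (hrn : r < n) (w : FreeGroup (Fin r)),
      0 < r ∧
      (¬ ∃ (φ : (FreeGroup (Fin r) ⧸ Subgroup.normalClosure
              {x : FreeGroup (Fin r) | ∃ u ∈ W, ∃ g : ℕ → FreeGroup (Fin r), FreeGroup.lift g u = x}) ≃*
            (FreeGroup (Fin r) ⧸ Subgroup.normalClosure
              {x : FreeGroup (Fin r) | ∃ u ∈ W, ∃ g : ℕ → FreeGroup (Fin r), FreeGroup.lift g u = x}))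
          (i : Fin r),
          φ (QuotientGroup.mk (FreeGroup.of i) : FreeGroup (Fin r) ⧸ Subgroup.normalClosure
              {x : FreeGroup (Fin r) | ∃ u ∈ W, ∃ g : ℕ → FreeGroup (Fin r), FreeGroup.lift g u = x})
            = (QuotientGroup.mk w : FreeGroup (Fin r) ⧸ Subgroup.normalClosure
              {x : FreeGroup (Fin r) | ∃ u ∈ W, ∃ g : ℕ → FreeGroup (Fin r), FreeGroup.lift g u = x})) ∧
      (∃ (ψ : (FreeGroup (Fin n) ⧸ Subgroup.normalClosure
              {x : FreeGroup (Fin n) | ∃ u ∈ W, ∃ g : ℕ → FreeGroup (Fin n), FreeGroup.lift g u = x}) ≃*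
            (FreeGroup (Fin n) ⧸ Subgroup.normalClosure
              {x : FreeGroup (Fin n) | ∃ u ∈ W, ∃ g : ℕ → FreeGroup (Fin n), FreeGroup.lift g u = x}))
          (j : Fin n),
          ψ (QuotientGroup.mk (FreeGroup.of j) : FreeGroup (Fin n) ⧸ Subgroup.normalClosure
              {x : FreeGroup (Fin n) | ∃ u ∈ W, ∃ g : ℕ → FreeGroup (Fin n), FreeGroup.lift g u = x})
            = (QuotientGroup.mk (FreeGroup.map (Fin.castLE hrn.le) w) : FreeGroup (Fin n) ⧸
              Subgroup.normalClosure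
              {x : FreeGroup (Fin n) | ∃ u ∈ W, ∃ g : ℕ → FreeGroup (Fin n), FreeGroup.lift g u = x})) := by
  refine ⟨{law}, 2, 4, by norm_num, hw (FreeGroup.of 0) (FreeGroup.of 1), by norm_num, ?_, ?_⟩
  · rintro ⟨φ, i, h⟩
    exact rank_two φ i h
  · obtain ⟨ψ, h⟩ := rank_four
    refine ⟨ψ, 0, h.trans ?_⟩
    rw [map_hw]
    rfl

end Pool.Agent.H73.PrimRank
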