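import Mathlib

/-! The generic quaternion algebra over a polynomial ring in countably many variables over `ℂ`. -/

namespace Pool.Agent.H73.QuatGen

open MvPolynomial Quaternion Cardinal

abbrev A : Type := MvPolynomial ℕ ℂ
abbrev F : Type := FractionRing A
abbrev R : Type := ℍ[A, X 0, 0, X 1]
abbrev Δ : Type := ℍ[F, algebraMap A F (X 0), 0, algebraMap A F (X 1)]

lemma sum_eq_zero_of_degree {σ ι : Type} [Fintype ι] (m : MonomialOrder σ)
    (f : ι → MvPolynomial σ ℂ)
    (h : ∀ i j, f i ≠ 0 → f j ≠ 0 → m.degree (f i) = m.degree (f j) → i = j)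
    (hs : ∑ i, f i = 0) (i : ι) : f i = 0 := by
  classical
  by_contra hi
  obtain ⟨j, hj, hmax⟩ := Finset.exists_max_image (Finset.univ.filter fun j => f j ≠ 0)
    (fun j => m.toSyn (m.degree (f j))) ⟨i, by simpa using hi⟩
  have hj' : f j ≠ 0 := by simpa using hj
  have h1 : (∑ i, f i).coeff (m.degree (f j)) = (f j).coeff (m.degree (f j)) := by
    rw [coeff_sum, Finset.sum_eq_single j]
    · intro k _ hkj
      by_cases hk : f k = 0
      · simp [hk]
      · refine m.coeff_eq_zero_of_lt (lt_of_le_of_ne (hmax k (by simpa using hk)) fun he => ?_)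
        exact hkj (h k j hk hj' (m.toSyn.injective he))
    · simp
  rw [hs, coeff_zero] at h1
  exact m.coeff_degree_ne_zero_iff.2 hj' h1.symm

lemma aniso_poly (p q r s : A) (h : p ^ 2 - X 0 * q ^ 2 - X 1 * r ^ 2 + X 0 * X 1 * s ^ 2 = 0) :
    p = 0 ∧ q = 0 ∧ r = 0 ∧ s = 0 := by
  let m : MonomialOrder ℕ := (MonomialOrder.lex : MonomialOrder ℕᵒᵈ)
  let c : Fin 4 → A := ![1, -X 0, -X 1, X 0 * X 1]
  let t : Fin 4 → A := ![p, q, r, s]
  let e : Fin 4 → ℕ × ℕ := ![(0, 0), (1, 0), (0, 1), (1, 1)]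
  have hc : ∀ i, c i ≠ 0 := by
    intro i; fin_cases i <;> simp [c, X_ne_zero]
  have hd : ∀ i, (m.degree (c i) 0, m.degree (c i) 1) = e i := by
    intro i
    fin_cases i
    · simp [c, e]
    · simp [c, e, m.degree_X]
    · simp [c, e, m.degree_X]
    · simp [c, e, m.degree_mul (X_ne_zero 0) (X_ne_zero 1), m.degree_X]
  have key := sum_eq_zero_of_degree m (fun i => c i * t i ^ 2) (fun i j hi hj hij => by
    have hi' : t i ^ 2 ≠ 0 := right_ne_zero_of_mul hi
    have hj' : t j ^ 2 ≠ 0 := right_ne_zero_of_mul hj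
    rw [m.degree_mul (hc i) hi', m.degree_mul (hc j) hj', m.degree_pow, m.degree_pow] at hij
    have h0 := DFunLike.congr_fun hij 0
    have h1 := DFunLike.congr_fun hij 1
    simp only [Finsupp.add_apply, Finsupp.smul_apply, smul_eq_mul] at h0 h1
    have ei := hd i
    have ej := hd j
    have he : ∀ i j : Fin 4, (e i).1 % 2 = (e j).1 % 2 → (e i).2 % 2 = (e j).2 % 2 → i = j := by
      decide
    refine he i j ?_ ?_
    · rw [← ei, ← ej]; simp only; omega
    · rw [← ei, ← ej]; simp only; omega) (by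
    rw [← h, Fin.sum_univ_four]; simp [c, t]; ring)
  have k2 : ∀ i, t i = 0 := fun i =>
    pow_eq_zero_iff (two_ne_zero) |>.1 ((mul_eq_zero.1 (key i)).resolve_left (hc i))
  exact ⟨k2 0, k2 1, k2 2, k2 3⟩

lemma aniso (w : Δ) (h : w.re ^ 2 - algebraMap A F (X 0) * w.imI ^ 2
    - algebraMap A F (X 1) * w.imJ ^ 2
    + algebraMap A F (X 0) * algebraMap A F (X 1) * w.imK ^ 2 = 0) : w = 0 := by
  obtain ⟨d, hd⟩ := IsLocalization.exist_integer_multiples_of_finite (nonZeroDivisors A)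
    (![w.re, w.imI, w.imJ, w.imK] : Fin 4 → F)
  obtain ⟨p, hp⟩ := hd 0
  obtain ⟨q, hq⟩ := hd 1
  obtain ⟨r, hr⟩ := hd 2
  obtain ⟨s, hs⟩ := hd 3
  simp only [Matrix.cons_val, Algebra.smul_def] at hp hq hr hs
  have hinj := IsFractionRing.injective A F
  have hd0 : algebraMap A F d ≠ 0 := by
    rw [Ne, map_eq_zero_iff _ hinj]; exact nonZeroDivisors.ne_zero d.2
  obtain ⟨h1, h2, h3, h4⟩ := aniso_poly p q r s (hinj (by
    simp only [map_add, map_sub, map_mul, map_pow, map_zero, hp, hq, hr, hs]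
    linear_combination (algebraMap A F d) ^ 2 * h))
  rw [h1, map_zero] at hp
  rw [h2, map_zero] at hq
  rw [h3, map_zero] at hr
  rw [h4, map_zero] at hs
  ext
  · exact (mul_eq_zero.1 hp.symm).resolve_left hd0
  · exact (mul_eq_zero.1 hq.symm).resolve_left hd0
  · exact (mul_eq_zero.1 hr.symm).resolve_left hd0
  · exact (mul_eq_zero.1 hs.symm).resolve_left hd0

/-- The values of the variables at the point `u`. -/
noncomputable def pt (u : ℕ → F) : ℕ → F
  | 0 => algebraMap A F (X 0)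
  | 1 => algebraMap A F (X 1)
  | n + 2 => u n

noncomputable def ev (u : ℕ → F) : A →+* F := (aeval (pt u) : A →ₐ[ℂ] F)

lemma ev_X (u : ℕ → F) (n : ℕ) : ev u (X n) = pt u n := by simp [ev]

noncomputable def Φ (u : ℕ → F) : R →+* Δ where
  toFun q := ⟨ev u q.re, ev u q.imI, ev u q.imJ, ev u q.imK⟩
  map_one' := by ext <;> simp
  map_zero' := by ext <;> simp
  map_add' p q := by ext <;> simp
  map_mul' p q := by ext <;> simp [ev_X, pt]

lemma Φ_apply (u : ℕ → F) (q : R) :
    Φ u q = ⟨ev u q.re, ev u q.imI, ev u q.imJ, ev u q.imK⟩ := rfl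

lemma ev_fs (p : A) : ∃ N, ∀ u v : ℕ → F, (∀ i < N, u i = v i) → ev u p = ev v p := by
  induction p using MvPolynomial.induction_on with
  | C c => exact ⟨0, fun u v _ => by simp [ev]⟩
  | add p q hp hq =>
    obtain ⟨N, hN⟩ := hp
    obtain ⟨M, hM⟩ := hq
    refine ⟨N + M, fun u v h => ?_⟩
    rw [map_add, map_add, hN u v fun i hi => h i (by omega), hM u v fun i hi => h i (by omega)]
  | mul_X p n hp =>
    obtain ⟨N, hN⟩ := hp
    refine ⟨N + n, fun u v h => ?_⟩
    rw [map_mul, map_mul, hN u v fun i hi => h i (by omega), ev_X, ev_X]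
    congr 1
    match n with
    | 0 => rfl
    | 1 => rfl
    | n + 2 => exact h n (by omega)

lemma Φ_fs (q : R) : ∃ N, ∀ u v : ℕ → F, (∀ i < N, u i = v i) → Φ u q = Φ v q := by
  obtain ⟨N₁, h₁⟩ := ev_fs q.re
  obtain ⟨N₂, h₂⟩ := ev_fs q.imI
  obtain ⟨N₃, h₃⟩ := ev_fs q.imJ
  obtain ⟨N₄, h₄⟩ := ev_fs q.imK
  refine ⟨N₁ + N₂ + N₃ + N₄, fun u v h => ?_⟩
  rw [Φ_apply, Φ_apply, h₁ u v fun i hi => h i (by omega), h₂ u v fun i hi => h i (by omega),
    h₃ u v fun i hi => h i (by omega), h₄ u v fun i hi => h i (by omega)]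

noncomputable def qi : R := ⟨0, 1, 0, 0⟩
noncomputable def qj : R := ⟨0, 0, 1, 0⟩
noncomputable def y (n : ℕ) : R := ⟨X (n + 2), 0, 0, 0⟩

/-- `2ab` times the conjugate, written with ring operations only. -/
noncomputable def cj (q : R) : R :=
  -(qi * qi * (qj * qj) * q) + qj * qj * (qi * q * qi) + qi * qi * (qj * q * qj)
    - qi * qj * q * (qi * qj)

noncomputable def nm (q : R) : A := 2 * X 0 * X 1 *
  (q.re ^ 2 - X 0 * q.imI ^ 2 - X 1 * q.imJ ^ 2 + X 0 * X 1 * q.imK ^ 2)

lemma mul_cj (q : R) (n : ℕ) : q * (cj q * y n) = ⟨nm q * X (n + 2), 0, 0, 0⟩ := by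
  ext1 <;> simp [cj, qi, qj, y, nm] <;> ring

lemma cj_mul (q : R) (n : ℕ) : cj q * y n * q = ⟨nm q * X (n + 2), 0, 0, 0⟩ := by
  ext1 <;> simp [cj, qi, qj, y, nm] <;> ring

lemma ev_nm (u : ℕ → F) (q : R) (h : Φ u q ≠ 0) : ev u (nm q) ≠ 0 := by
  intro h0
  apply h
  apply aniso
  have hinj := IsFractionRing.injective A F
  have h1 : algebraMap A F (X 0) ≠ 0 := by
    rw [Ne, map_eq_zero_iff _ hinj]; exact X_ne_zero 0
  have h2 : algebraMap A F (X 1) ≠ 0 := by
    rw [Ne, map_eq_zero_iff _ hinj]; exact X_ne_zero 1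
  have h3 : (2 : F) ≠ 0 := by
    have : algebraMap A F 2 ≠ 0 := by
      rw [Ne, map_eq_zero_iff _ hinj]; exact two_ne_zero
    rwa [map_ofNat] at this
  simp only [nm, map_mul, map_add, map_sub, map_pow, ev_X, pt, map_ofNat] at h0
  exact (mul_eq_zero.1 h0).resolve_left (mul_ne_zero (mul_ne_zero h3 h1) h2)

def FS (C : Set (ℕ → F)) : Prop := ∃ N, ∀ u v : ℕ → F, (∀ i < N, u i = v i) → u ∈ C → v ∈ C

lemma step (C : {C : Set (ℕ → F) // FS C ∧ C.Nonempty}) (w : R) :
    ∃ C' : {C : Set (ℕ → F) // FS C ∧ C.Nonempty}, C'.1 ⊆ C.1 ∧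
      ((∀ u ∈ C'.1, Φ u w = 0) ∨
        ∃ n, ∀ u ∈ C'.1, Φ u (w * (cj w * y n)) = 1 ∧ Φ u (cj w * y n * w) = 1) := by
  by_cases h : ∀ u ∈ C.1, Φ u w = 0
  · exact ⟨C, subset_rfl, Or.inl h⟩
  push Not at h
  obtain ⟨u, hu, hw⟩ := h
  obtain ⟨N, hN⟩ := C.2.1
  obtain ⟨M, hM⟩ := ev_fs (nm w)
  refine ⟨⟨{v | v ∈ C.1 ∧ ev v (nm w) * v (N + M) = 1}, ⟨N + M + 1, ?_⟩,
    ⟨Function.update u (N + M) (ev u (nm w))⁻¹, ?_, ?_⟩⟩, fun v hv => hv.1, Or.inr ⟨N + M, ?_⟩⟩
  · rintro v v' hv ⟨h1, h2⟩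
    refine ⟨hN v v' (fun i hi => hv i (by omega)) h1, ?_⟩
    rw [← hM v v' fun i hi => hv i (by omega), ← hv _ (by omega)]
    exact h2
  · exact hN u _ (fun i hi => (Function.update_of_ne (by omega) _ _).symm) hu
  · rw [← hM u _ fun i hi => (Function.update_of_ne (by omega) _ _).symm, Function.update_self]
    exact mul_inv_cancel₀ (ev_nm u w hw)
  · rintro v ⟨-, h2⟩
    rw [mul_cj, cj_mul, Φ_apply]
    simp only [map_mul, ev_X, pt, h2, map_zero]
    exact ⟨rfl, rfl⟩

lemma exists_pt (x : R) (hx : x ≠ 0) : ∃ u, Φ u x ≠ 0 := by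
  refine ⟨fun n => algebraMap A F (X (n + 2)), fun h => hx ?_⟩
  have he : ∀ p, ev (fun n => algebraMap A F (X (n + 2))) p = algebraMap A F p := by
    intro p
    have : (aeval (pt fun n => algebraMap A F (X (n + 2))) : A →ₐ[ℂ] F) =
        IsScalarTower.toAlgHom ℂ A F := by
      ext n
      rw [aeval_X]
      match n with
      | 0 => rfl
      | 1 => rfl
      | n + 2 => rfl
    exact DFunLike.congr_fun this p
  have hinj := IsFractionRing.injective A F
  rw [Φ_apply] at h
  simp only [he] at h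
  have h1 := congrArg QuaternionAlgebra.re h
  have h2 := congrArg QuaternionAlgebra.imI h
  have h3 := congrArg QuaternionAlgebra.imJ h
  have h4 := congrArg QuaternionAlgebra.imK h
  simp only [QuaternionAlgebra.re_zero, QuaternionAlgebra.imI_zero, QuaternionAlgebra.imJ_zero,
    QuaternionAlgebra.imK_zero, map_eq_zero_iff _ hinj] at h1 h2 h3 h4
  ext <;> simp [h1, h2, h3, h4]

/-- Every countable subring containing the generators has enough division ring quotients. -/
theorem sep (S : Subring R) [Countable S] (hi : qi ∈ S) (hj : qj ∈ S) (hy : ∀ n, y n ∈ S)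
    (x : S) (hx : x ≠ 0) :
    ∃ (D : Type) (_ : DivisionRing D) (f : S →+* D), Function.Surjective f ∧ f x ≠ 0 := by
  obtain ⟨w, hw⟩ := exists_surjective_nat S
  choose nx hnx1 hnx2 using step
  have hx' : (x : R) ≠ 0 := fun h => hx (Subtype.ext h)
  let C₀ : {C : Set (ℕ → F) // FS C ∧ C.Nonempty} := ⟨{u | Φ u x ≠ 0}, by
    obtain ⟨N, hN⟩ := Φ_fs x
    exact ⟨N, fun u v h hu => by
      show Φ v x ≠ 0
      rw [← hN u v h]; exact hu⟩, exists_pt x hx'⟩
  let C : ℕ → {C : Set (ℕ → F) // FS C ∧ C.Nonempty} := fun k =>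
    Nat.rec C₀ (fun k c => nx c (w k)) k
  have hanti : Antitone fun k => (C k).1 := antitone_nat_of_succ_le fun k => hnx1 (C k) (w k)
  have hb := Filter.HasAntitoneBasis.iInf_principal hanti
  set l : Filter (ℕ → F) := ⨅ k, Filter.principal (C k).1 with hl
  have hne : l.NeBot := hb.1.neBot_iff.2 fun {k} _ => (C k).2.2
  let f : S →+* Filter.Germ l Δ :=
    (Filter.Germ.coeRingHom l).comp ((RingHom.pi fun u => Φ u).comp S.subtype)
  have hf : ∀ p q : S, f p = f q ↔ ∀ᶠ u in l, Φ u p = Φ u q := fun p q => Filter.Germ.coe_eq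
  have hfx : f x ≠ 0 := by
    rw [← map_zero f, Ne, hf]
    intro h
    obtain ⟨u, h1, h2⟩ := (h.and (hb.mem 0)).exists
    exact h2 (by simpa using h1)
  have hnt : Nontrivial f.range := ⟨⟨f.rangeRestrict x, 0, fun h => hfx (congrArg Subtype.val h)⟩⟩
  have hdiv : ∀ a : f.range, IsUnit a ∨ a = 0 := by
    intro a
    obtain ⟨q, rfl⟩ := f.rangeRestrict_surjective a
    obtain ⟨k, rfl⟩ := hw q
    rcases hnx2 (C k) (w k) with h | ⟨n, h⟩
    · right
      apply Subtype.ext
      show f (w k) = 0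
      rw [← map_zero f, hf]
      filter_upwards [hb.mem (k + 1)] with u hu
      simpa using h u hu
    · left
      have hm : cj (w k) * y n ∈ S := by
        have h1 := (w k).2
        have hii := S.mul_mem hi hi
        have hjj := S.mul_mem hj hj
        have hij := S.mul_mem hi hj
        exact S.mul_mem (S.sub_mem (S.add_mem (S.add_mem
          (S.neg_mem (S.mul_mem (S.mul_mem hii hjj) h1))
          (S.mul_mem hjj (S.mul_mem (S.mul_mem hi h1) hi)))
          (S.mul_mem hii (S.mul_mem (S.mul_mem hj h1) hj)))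
          (S.mul_mem (S.mul_mem hij h1) hij)) (hy n)
      refine ⟨⟨f.rangeRestrict (w k), f.rangeRestrict ⟨_, hm⟩, ?_, ?_⟩, rfl⟩
      · rw [← map_mul, ← map_one f.rangeRestrict]
        apply Subtype.ext
        refine (hf _ _).2 ?_
        filter_upwards [hb.mem (k + 1)] with u hu
        simpa using (h u hu).1
      · rw [← map_mul, ← map_one f.rangeRestrict]
        apply Subtype.ext
        refine (hf _ _).2 ?_
        filter_upwards [hb.mem (k + 1)] with u hu
        simpa using (h u hu).2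
  exact ⟨f.range, DivisionRing.ofIsUnitOrEqZero hdiv, f.rangeRestrict,
    f.rangeRestrict_surjective, fun h => hfx (congrArg Subtype.val h)⟩

lemma rank_R : Module.rank ℂ R ≤ ℵ₀ := by
  rw [← rank_mul_rank ℂ A R, QuaternionAlgebra.rank_eq_four, MvPolynomial.rank_eq]
  simp

/-- Every division ring quotient of the whole algebra kills `ij`. -/
theorem kill {D : Type} [DivisionRing D] (f : R →+* D) (hf : Function.Surjective f) :
    f (qi * qj) = 0 := by
  have hcen : ∀ (c : A) (d : D), d * f (algebraMap A R c) = f (algebraMap A R c) * d := by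
    intro c d
    obtain ⟨r, rfl⟩ := hf d
    rw [← map_mul, ← map_mul, Algebra.commutes]
  let g : ℂ →+* D := f.comp (algebraMap ℂ R)
  have hg : ∀ (c : ℂ) (d : D), g c * d = d * g c := fun c d =>
    (hcen (algebraMap ℂ A c) d).symm
  let _ : Algebra ℂ D := g.toAlgebra' hg
  let g' : ℂ →+* Subring.center D := g.codRestrict _ fun c =>
    Subring.mem_center_iff.2 fun d => (hg c d).symm
  let _ : Algebra ℂ (Subring.center D) := g'.toAlgebra
  let f' : R →ₗ[ℂ] D :=
    { toFun := f, map_add' := f.map_add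
      map_smul' := fun c r => by
        rw [Algebra.smul_def, map_mul]; rfl }
  let ι : Subring.center D →ₗ[ℂ] D :=
    { toFun := Subtype.val, map_add' := fun _ _ => rfl, map_smul' := fun _ _ => rfl }
  have hrank : Module.rank ℂ (Subring.center D) ≤ ℵ₀ :=
    (ι.rank_le_of_injective Subtype.val_injective).trans
      ((f'.rank_le_of_surjective hf).trans rank_R)
  have halg : Algebra.IsAlgebraic ℂ (Subring.center D) := ⟨fun z => by
    by_contra hz
    have := (Transcendental.linearIndependent_sub_inv hz).cardinal_le_rank.trans hrank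
    rw [Cardinal.mk_complex] at this
    exact absurd this (not_le.2 aleph0_lt_continuum)⟩
  obtain ⟨c, hc⟩ := (IsAlgClosed.algebraMap_bijective_of_isIntegral (k := ℂ)
    (K := Subring.center D)).2 ⟨f (algebraMap A R (X 0)), Subring.mem_center_iff.2 (hcen _)⟩
  have hc' : g c = f (algebraMap A R (X 0)) := congrArg Subtype.val hc
  obtain ⟨d, rfl⟩ := IsAlgClosed.exists_eq_mul_self c
  have hii : f qi * f qi = g d * g d := by
    rw [← map_mul, ← map_mul, hc']
    congr 1
    ext <;> simp [qi]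
  have hprod : (f qi - g d) * (f qi + g d) = 0 := by
    rw [sub_mul, mul_add, mul_add, hii, hg d (f qi)]; abel
  have hcomm : f qi * f qj = f qj * f qi := by
    rcases mul_eq_zero.1 hprod with h | h
    · rw [sub_eq_zero.1 h, hg]
    · rw [eq_neg_of_add_eq_zero_left h, neg_mul, mul_neg, hg]
  have hanti : qj * qi = -(qi * qj) := by ext <;> simp [qi, qj]
  rw [← map_mul, ← map_mul, hanti, map_neg] at hcomm
  have h2 : g 2 * f (qi * qj) = 0 := by
    rw [map_ofNat, two_mul]; exact add_eq_zero_iff_eq_neg.2 hcomm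
  exact (mul_eq_zero.1 h2).resolve_left ((map_ne_zero g).2 two_ne_zero)

lemma ij_ne : qi * qj ≠ 0 := by
  intro h
  have := congrArg QuaternionAlgebra.imK h
  simp [qi, qj] at this

end Pool.Agent.H73.QuatGen
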