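import Pool.Agent.H73.IAS3

set_option autoImplicit false

namespace Pool.Agent.H73.RM

open Equiv Filter Pool.Agent.H73.IAS

lemma exE : ∃ E : ∀ p : Pr, Set (ZMod p.1), (∀ p, 0 ∉ E p) ∧
    (∀ j : ℤ, j ≠ 0 → ∀ᶠ p in cofinite, ∀ z ∈ E p, z - j ∉ E p) ∧ ∀ m, ∃ p, m ≤ (E p).ncard := by
  have hr : ∀ p : Pr, ∃ r : ℕ, r * r + r < p.1 ∧ p.1 < (r + 2) * (r + 2) := by
    intro p
    have h1 := Nat.sqrt_le p.1
    have h2 := Nat.lt_succ_sqrt p.1
    have h3 : 0 < Nat.sqrt p.1 := Nat.sqrt_pos.mpr p.2.pos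
    obtain ⟨r, hr⟩ : ∃ r, Nat.sqrt p.1 = r + 1 := ⟨Nat.sqrt p.1 - 1, by omega⟩
    rw [hr] at h1 h2
    exact ⟨r, by nlinarith, h2⟩
  choose r h1 h2 using hr
  have key : ∀ (p : Pr) (a : ℤ), (a : ZMod p.1) = 0 → |a| ≤ r p * r p + r p → a = 0 := by
    intro p a h ha
    rw [ZMod.intCast_zmod_eq_zero_iff_dvd] at h
    refine Int.eq_zero_of_abs_lt_dvd h (ha.trans_lt ?_)
    exact_mod_cast h1 p
  have ev : ∀ m : ℕ, ∀ᶠ p in cofinite, m < r p := by
    intro m
    refine ((Set.finite_Iic ((m + 2) * (m + 2))).preimage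
      Subtype.val_injective.injOn).subset fun p hp => ?_
    simp only [Set.mem_compl_iff, Set.mem_ofPred_eq, not_lt] at hp
    have := h2 p
    show p.1 ≤ _
    nlinarith
  refine ⟨fun p => (fun i : ℕ => (((r p : ℤ) * i : ℤ) : ZMod p.1)) '' Set.Icc 1 (r p),
    fun p => ?_, fun j hj => ?_, fun m => ?_⟩
  · rintro ⟨i, ⟨i1, i2⟩, h⟩
    have i1 : (1 : ℤ) ≤ i := by exact_mod_cast i1
    have i2 : (i : ℤ) ≤ r p := by exact_mod_cast i2
    have := key p _ h (by rw [abs_le]; constructor <;> nlinarith)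
    nlinarith
  · filter_upwards [ev j.natAbs] with p hp
    rintro _ ⟨i, ⟨i1, i2⟩, rfl⟩ ⟨i', ⟨i3, i4⟩, h⟩
    have i1 : (1 : ℤ) ≤ i := by exact_mod_cast i1
    have i2 : (i : ℤ) ≤ r p := by exact_mod_cast i2
    have i3 : (1 : ℤ) ≤ i' := by exact_mod_cast i3
    have i4 : (i' : ℤ) ≤ r p := by exact_mod_cast i4
    have hp' : |j| < r p := by rw [Int.abs_eq_natAbs]; exact_mod_cast hp
    have := key p (r p * i - j - r p * i') (by
      rw [Int.cast_sub, Int.cast_sub, sub_eq_zero]; exact h.symm) (by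
      rw [abs_lt] at hp'
      rw [abs_le]; constructor <;> nlinarith)
    exact hj (Int.eq_zero_of_abs_lt_dvd ⟨i - i', by linarith⟩ hp')
  · obtain ⟨p, hp⟩ := (ev m).exists
    refine ⟨p, ?_⟩
    rw [Set.InjOn.ncard_image]
    · rw [← Finset.coe_Icc, Set.ncard_coe_finset]
      simp only [Nat.card_Icc]
      omega
    · rintro i ⟨i1, i2⟩ i' ⟨i3, i4⟩ h
      have i1 : (1 : ℤ) ≤ i := by exact_mod_cast i1
      have i2 : (i : ℤ) ≤ r p := by exact_mod_cast i2
      have i3 : (1 : ℤ) ≤ i' := by exact_mod_cast i3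
      have i4 : (i' : ℤ) ≤ r p := by exact_mod_cast i4
      have := key p (r p * i - r p * i') (by rw [Int.cast_sub, sub_eq_zero]; exact h) (by
        rw [abs_le]; constructor <;> nlinarith)
      rw [← mul_sub, mul_eq_zero] at this
      omega

lemma bound {V : Type} [AddCommMonoid V] (μ ν : V →+ ℝ) {T : Set V} (hT : T.Finite)
    (h0 : ∀ v ∈ T, 0 ≤ μ v) (h1 : ∀ v ∈ T, μ v = 0 → ν v = 0) :
    ∃ C, 0 ≤ C ∧ ∀ v ∈ AddSubmonoid.closure T, ν v ≤ C * μ v := by
  obtain ⟨C, hC⟩ := (hT.image fun v => ν v / μ v).bddAbove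
  refine ⟨|C|, abs_nonneg _, fun v hv => ?_⟩
  induction hv using AddSubmonoid.closure_induction with
  | mem v hv =>
    rcases (h0 v hv).eq_or_lt with e | e
    · rw [h1 v hv e.symm, ← e]; simp
    · rw [← div_le_iff₀ e]
      exact (hC ⟨v, hv, rfl⟩).trans (le_abs_self C)
  | zero => simp
  | add a b _ _ ha hb => rw [map_add, map_add]; linarith

variable {S : Type} [Group S]

lemma perf (hP : commutator S = ⊤) (N : Subgroup S) (h : ∀ y y', y * y' * y⁻¹ * y'⁻¹ ∈ N) (s : S) :
    s ∈ N := by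
  have h2 : commutator S ≤ N := by
    rw [commutator_def, Subgroup.commutator_le]
    exact fun y _ y' _ => h y y'
  rw [hP] at h2
  exact h2 (Subgroup.mem_top s)

lemma locP (hP : commutator S = ⊤) (P : Subgroup (FF S)) (h1 : ∀ k, ∀ f ∈ P, act S k f ∈ P)
    (h2 : ∀ s : S, (fun _ z => if z = 0 then s else 1) ∈ P) (f : FF S)
    (hf : ∀ᶠ p in cofinite, f p = 1) : f ∈ P := by
  have k0 : ∀ (p : Pr) (s : S), Pi.mulSingle p (Pi.mulSingle 0 s) ∈ P := by
    intro p
    refine perf hP (P.comap ((MonoidHom.mulSingle (fun p : Pr => ZMod p.1 → S) p).comp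
      (MonoidHom.mulSingle (fun _ : ZMod p.1 => S) 0))) fun y y' => ?_
    have k' := h1 (Multiplicative.ofAdd (p.1 : ℤ)) _ (h2 y')
    rw [Subgroup.mem_comap]
    convert mul_mem (mul_mem (mul_mem (h2 y) k') (inv_mem (h2 y))) (inv_mem k') using 1
    rw [MonoidHom.comp_apply]
    generalize hb : MonoidHom.mulSingle (fun _ : ZMod p.1 => S) 0 (y * y' * y⁻¹ * y'⁻¹) = b
    ext q z
    by_cases c : q = p
    · subst c
      rw [MonoidHom.mulSingle_apply, Pi.mulSingle_eq_same, ← hb]
      by_cases c : z = 0 <;> simp [c]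
    · have : ((p.1 : ℕ) : ZMod q.1) ≠ 0 := by
        rw [Ne, ZMod.natCast_eq_zero_iff, Nat.prime_dvd_prime_iff_eq q.2 p.2]
        exact fun e => c (Subtype.ext e)
      rw [MonoidHom.mulSingle_apply, Pi.mulSingle_eq_of_ne c]
      by_cases c' : z = 0 <;> simp [c', this]
  have k1 : ∀ (p : Pr) (b : ZMod p.1 → S), Pi.mulSingle p b ∈ P := by
    intro p b
    refine Subgroup.pi_mem_of_mulSingle_mem
      (H := P.comap (MonoidHom.mulSingle (fun p : Pr => ZMod p.1 → S) p)) b fun w => ?_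
    obtain ⟨k, rfl⟩ := ZMod.intCast_surjective w
    have := h1 (Multiplicative.ofAdd k) _ (k0 p (b k))
    rw [Subgroup.mem_comap]
    convert this using 1
    ext q z
    by_cases c : q = p
    · subst c
      simp [Pi.mulSingle_apply, sub_eq_zero]
    · simp [Pi.mulSingle_eq_of_ne c]
  have key : ∀ F : Finset Pr, ∀ f : FF S, (∀ p, p ∉ F → f p = 1) → f ∈ P := by
    intro F
    induction F using Finset.induction_on with
    | empty =>
      intro f h
      rw [show f = 1 from funext fun p => h p (by simp)]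
      exact one_mem _
    | insert q F hq ih =>
      intro f h
      have := ih ((Pi.mulSingle q (f q))⁻¹ * f) (fun p hp => by
        by_cases c : p = q
        · subst c; simp
        · simp [Pi.mulSingle_eq_of_ne c, h p (by simp [c, hp])])
      have := mul_mem (k1 q (f q)) this
      rwa [mul_inv_cancel_left] at this
  exact key (Set.Finite.toFinset hf) f fun p hp => by simpa using hp

variable (E : ∀ p : Pr, Set (ZMod p.1))

open Classical in
noncomputable def hf : S × S →* FF S where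
  toFun s := fun p z => if z = 0 then s.1 else if z ∈ E p then s.2 else 1
  map_one' := by ext; simp
  map_mul' a b := by
    ext p z
    simp only [Pi.mul_apply]
    split_ifs <;> simp

variable (S) in
def GG : Subgroup (WW S) := Subgroup.closure
  (insert (SemidirectProduct.inr (Multiplicative.ofAdd 1))
    (Set.range (SemidirectProduct.inl.comp (hf E))))

instance [Finite S] : Group.FG (GG S E) := by
  have := ((Set.finite_range (SemidirectProduct.inl.comp (hf E) : S × S →* WW S)).insert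
    (SemidirectProduct.inr (Multiplicative.ofAdd 1))).to_subtype
  exact Group.closure_finite_fg _

def tG : Multiplicative ℤ →* GG S E := SemidirectProduct.inr.codRestrict _ (fun k => by
  have : k = Multiplicative.ofAdd 1 ^ k.toAdd := by
    rw [← ofAdd_zsmul]; simp
  rw [this, map_zpow]
  exact zpow_mem (Subgroup.subset_closure (Set.mem_insert _ _)) _)

noncomputable def hG : S × S →* GG S E := (SemidirectProduct.inl.comp (hf E)).codRestrict _
  (fun s => Subgroup.subset_closure (Or.inr ⟨s, rfl⟩))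

noncomputable def AA (j : ℤ) (y : S) : GG S E :=
  tG E (Multiplicative.ofAdd j) * hG E (1, y) * (tG E (Multiplicative.ofAdd j))⁻¹

lemma AA_coe (j : ℤ) (y : S) : (AA E j y).1 =
    SemidirectProduct.inl (act S (Multiplicative.ofAdd j) (hf E (1, y))) := by
  rw [SemidirectProduct.inl_aut, map_inv]; rfl

variable {E} (hE : ∀ j : ℤ, j ≠ 0 → ∀ᶠ p in cofinite, ∀ z ∈ E p, z - j ∉ E p)
  (hP : commutator S = ⊤)
include hE hP

lemma comm {M : Type} [Monoid M] (ψ : GG S E →* M) (h : ∀ s, ψ (hG E (s, 1)) = 1) {i j : ℤ}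
    (hij : i ≠ j) (y y' : S) : ψ (AA E i y) * ψ (AA E j y') = ψ (AA E j y') * ψ (AA E i y) := by
  have := locP hP ((ψ.ker.map (GG S E).subtype).comap SemidirectProduct.inl) (by
      rintro k f ⟨g, hg, e⟩
      refine ⟨_, (MonoidHom.normal_ker ψ).conj_mem g hg (tG E k), ?_⟩
      rw [SemidirectProduct.inl_aut, map_inv, ← e]; rfl)
    (fun s => ⟨hG E (s, 1), h s, by
      show SemidirectProduct.inl (hf E (s, 1)) = _
      congr 1; ext; simp [hf]⟩)
    (act S (Multiplicative.ofAdd i) (hf E (1, y)) * act S (Multiplicative.ofAdd j) (hf E (1, y')) *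
      (act S (Multiplicative.ofAdd i) (hf E (1, y)))⁻¹ *
      (act S (Multiplicative.ofAdd j) (hf E (1, y')))⁻¹) (by
      filter_upwards [hE (j - i) (sub_ne_zero.mpr hij.symm)] with p hp
      ext z
      by_cases c : z - i ∈ E p
      · have := hp _ c
        rw [Int.cast_sub, sub_sub_sub_cancel_right] at this
        simp [hf, this]
      · simp [hf, c])
  obtain ⟨g, hg, e⟩ := this
  have e2 : AA E i y * AA E j y' = g * (AA E j y' * AA E i y) := by
    apply Subtype.ext
    have e : g.1 = _ := e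
    simp only [Subgroup.coe_mul, AA_coe, e, map_mul, map_inv]
    group
  rw [← map_mul, e2, map_mul, (MonoidHom.mem_ker).mp hg, one_mul, map_mul]

omit hE in
lemma triv {M : Type} [Monoid M] (ψ : GG S E →* M) (j : ℤ)
    (h : ∀ y y', ψ (AA E j y) * ψ (AA E j y') = ψ (AA E j y') * ψ (AA E j y)) (s : S) :
    ψ (hG E (1, s)) = 1 := by
  refine perf hP (ψ.ker.comap ((hG E).comp (MonoidHom.inr S S))) (fun y y' => ?_) s
  rw [Subgroup.mem_comap]
  have : AA E j y * AA E j y' * (AA E j y' * AA E j y)⁻¹ ∈ ψ.ker := by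
    rw [MonoidHom.mem_ker, map_mul, map_mul, h, ← map_mul, ← map_mul, mul_inv_cancel, map_one]
  convert (MonoidHom.normal_ker ψ).conj_mem _ this (tG E (Multiplicative.ofAdd j))⁻¹ using 1
  simp only [map_mul, map_inv, AA, MonoidHom.comp_apply, MonoidHom.inr_apply]
  group

lemma trivFin {M : Type} [Group M] [Finite M] (ψ : GG S E →* M) (h : ∀ s, ψ (hG E (s, 1)) = 1)
    (s : S) : ψ (hG E (1, s)) = 1 := by
  refine triv hP ψ 0 (fun y y' => ?_) s
  have e : ψ (AA E (Nat.card M : ℕ) y') = ψ (AA E 0 y') := by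
    have : ψ (tG E (Multiplicative.ofAdd ((Nat.card M : ℕ) : ℤ))) = 1 := by
      rw [← pow_card_eq_one' (x := ψ (tG E (Multiplicative.ofAdd 1))), ← map_pow, ← map_pow,
        ← ofAdd_nsmul]
      simp
    simp [AA, this]
  rw [← e]
  exact comm hE hP ψ h (by exact_mod_cast Nat.card_pos.ne) y y'

lemma trivAlg {R : Type} [Ring R] [Algebra ℂ R] [Module.Finite ℂ R] (ψ : GG S E →* R)
    (h : ∀ s, ψ (hG E (s, 1)) = 1) (s : S) : ψ (hG E (1, s)) = 1 := by
  obtain ⟨n, hn⟩ := monotone_stabilizes_iff_noetherian.mpr (inferInstance : IsNoetherian ℂ R)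
    ⟨fun n => (Subalgebra.centralizer ℂ {m | ∃ i : ℕ, n ≤ i ∧ ∃ y, m = ψ (AA E i y)}).toSubmodule,
      fun a b hab x hx m ⟨i, hi, hm⟩ => hx m ⟨i, hab.trans hi, hm⟩⟩
  refine triv hP ψ n (fun y y' => ?_) s
  have := hn (n + 1) (by omega)
  have k : ψ (AA E n y') ∈ (Subalgebra.centralizer ℂ
      {m | ∃ i : ℕ, n + 1 ≤ i ∧ ∃ y, m = ψ (AA E i y)}).toSubmodule := by
    rintro _ ⟨i, hi, y, rfl⟩
    exact comm hE hP ψ h (by omega) y y'
  simp only [OrderHom.coe_mk] at this
  rw [← this] at k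
  exact k _ ⟨n, le_rfl, y, rfl⟩

omit hE hP

def rho (p : Pr) : WW S →* Perm (ZMod p.1 × S) where
  toFun w := ⟨fun x => (x.1 + w.right.toAdd, w.left p (x.1 + w.right.toAdd) * x.2),
    fun x => (x.1 - w.right.toAdd, (w.left p x.1)⁻¹ * x.2), fun x => by simp, fun x => by simp⟩
  map_one' := by ext <;> simp
  map_mul' a b := by
    ext x
    · simp; ring
    · simp only [SemidirectProduct.mul_right, toAdd_mul, Int.cast_add, SemidirectProduct.mul_left,
        Pi.mul_apply, act_app, coe_fn_mk, Perm.coe_mul, Function.comp_apply, mul_assoc]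
      congr 2 <;> ring_nf

open Classical in
lemma rho_h (p : Pr) (s : S × S) (x : ZMod p.1 × S) : rho p (hG E s).1 x =
    (x.1, (if x.1 = 0 then s.1 else if x.1 ∈ E p then s.2 else 1) * x.2) := by
  simp [rho, hG, hf]

lemma alt5 : commutator (alternatingGroup (Fin 5)) = ⊤ ∧ Nontrivial (alternatingGroup (Fin 5)) := by
  have := alternatingGroup.isSimpleGroup (α := Fin 5) (by simp)
  refine ⟨(IsSimpleGroup.eq_bot_or_eq_top_of_normal _ inferInstance).resolve_left fun e => ?_,
    inferInstance⟩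
  rw [commutator_eq_bot_iff_center_eq_top, alternatingGroup.center_eq_bot (by simp)] at e
  exact bot_ne_top e

open scoped ComplexOrder in
lemma unit {X : Type} [Fintype X] [DecidableEq X] (U : Matrix.unitaryGroup X ℂ) :
    0 ≤ ((1 : Matrix X X ℂ).trace - U.1.trace).re ∧
      (((1 : Matrix X X ℂ).trace - U.1.trace).re = 0 → U.1 = 1) := by
  have h1 : (U.1 - 1).conjTranspose * (U.1 - 1) = 1 - U.1 + (1 - U.1).conjTranspose := by
    have : U.1.conjTranspose * U.1 = 1 := U.2.1
    simp only [Matrix.conjTranspose_sub, Matrix.conjTranspose_one, sub_mul, mul_sub, this, mul_one,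
      one_mul]
    abel
  have h2 := (Matrix.posSemidef_conjTranspose_mul_self (U.1 - 1)).trace_nonneg
  have h3 : ((U.1 - 1).conjTranspose * (U.1 - 1)).trace =
      (2 * ((1 : Matrix X X ℂ).trace - U.1.trace).re : ℝ) := by
    rw [h1, Matrix.trace_add, Matrix.trace_conjTranspose, Matrix.trace_sub]
    exact Complex.add_conj _
  constructor
  · rw [h3, Complex.zero_le_real] at h2
    linarith
  · intro h
    rw [h, mul_zero, Complex.ofReal_zero, Matrix.trace_conjTranspose_mul_self_eq_zero_iff,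
      sub_eq_zero] at h3
    exact h3

noncomputable def uP (X : Type) [Fintype X] [DecidableEq X] : Perm X →* Matrix.unitaryGroup X ℂ :=
  (Matrix.permMatrixHom (R := ℂ)).codRestrict _ (fun σ => by
    rw [Matrix.mem_unitaryGroup_iff, Matrix.star_eq_conjTranspose, Matrix.permMatrixHom_apply,
      Matrix.conjTranspose_permMatrix, ← Matrix.permMatrix_mul]
    simp)

lemma uP_tr {X : Type} [Fintype X] [DecidableEq X] (σ : Perm X) :
    ((1 : Matrix X X ℂ).trace - (uP X σ).1.trace).re = ({x | σ x ≠ x}.ncard : ℝ) := by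
  have h1 : (uP X σ).1.trace = (Function.fixedPoints ⇑σ⁻¹).ncard := Matrix.trace_permutation _
  have h2 : {x | σ x ≠ x} = (Function.fixedPoints ⇑σ⁻¹)ᶜ := by
    ext x
    exact not_congr (eq_comm.trans Perm.inv_eq_iff_eq.symm)
  have h3 := Set.ncard_add_ncard_compl (Function.fixedPoints ⇑σ⁻¹)
  rw [h1, h2, Matrix.trace_one, ← Nat.card_eq_fintype_card, ← h3]
  simp

end Pool.Agent.H73.RM
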