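import Mathlib

namespace Pool.Agent.H73.RigidField

section Frob

variable {K : Type} [Field K] [CharP K 3]

instance : Fact (Nat.Prime 3) := ⟨Nat.prime_three⟩

/-- iterated Frobenius -/
noncomputable def tau (K : Type) [Field K] [CharP K 3] (n : ℕ) : K →+* K :=
  iterateFrobenius K 3 (2 ^ n)

theorem tau_apply (n : ℕ) (x : K) : tau K n x = x ^ 3 ^ 2 ^ n := iterateFrobenius_def _ _ _

theorem tau_succ (n : ℕ) (x : K) : tau K (n + 1) x = tau K n (tau K n x) := by
  simp only [tau_apply]
  rw [← pow_mul, ← pow_add, pow_succ 2 n, mul_two]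

theorem tau_mono {m n : ℕ} (h : m ≤ n) {x : K} (hx : tau K m x = x) : tau K n x = x := by
  induction h with
  | refl => exact hx
  | step _ ih => rw [tau_succ, ih, ih]

theorem two_ne : (2 : K) ≠ 0 := by
  intro h
  have : (3 : ℕ) ∣ 2 := (CharP.cast_eq_zero_iff K 3 2).mp (by exact_mod_cast h)
  omega

theorem fin_fixed (n : ℕ) : {x : K | tau K n x = x}.Finite := by
  classical
  have h1 : 1 < 3 ^ 2 ^ n := Nat.one_lt_pow (by positivity) (by norm_num)
  have hne : (Polynomial.X ^ 3 ^ 2 ^ n - Polynomial.X : Polynomial K) ≠ 0 :=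
    FiniteField.X_pow_card_sub_X_ne_zero K h1
  refine ((Polynomial.X ^ 3 ^ 2 ^ n - Polynomial.X : Polynomial K).roots.toFinset.finite_toSet).subset
    (fun x hx => ?_)
  simp only [Set.mem_ofPred_eq, tau_apply] at hx
  simp [Polynomial.mem_roots hne, hx]

theorem main (r : ℕ → K) (hr0 : ∀ n, r n ≠ 0) (hr : ∀ n, tau K n (r n) = -r n)
    (hrp : ∀ n, ∃ k : ℕ, r n = r (n + 1) ^ k) (hall : ∀ x : K, ∃ n, tau K n x = x) :
    ∃ l : K →+ ZMod 3, l 1 = 1 ∧ ∀ (σ : K →+* K) (c : K), Function.Surjective σ →
      (∀ z, l (c * σ z) = l z) → ∀ z, σ z = z := by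
  classical
  let : Algebra (ZMod 3) K := ZMod.algebra K 3
  obtain ⟨ρ, hρ⟩ := LinearMap.exists_leftInverse_of_injective (Algebra.linearMap (ZMod 3) K)
    (LinearMap.ker_eq_bot.mpr (algebraMap (ZMod 3) K).injective)
  have hρ1 : ρ 1 = 1 := by
    have := LinearMap.congr_fun hρ 1
    simpa using this
  let p : ℕ → K →+ K := fun n => AddMonoidHom.mk'
    (fun x => (x + tau K n x) / 2 + (x - tau K n x) / (2 * r n))
    (fun x y => by rw [map_add]; ring)
  have hp : ∀ n x, p n x = (x + tau K n x) / 2 + (x - tau K n x) / (2 * r n) := fun n x => rfl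
  have h2 : (2 : K) ≠ 0 := two_ne
  have hp1 : ∀ n x, tau K n x = x → p n x = x := by
    intro n x hx
    rw [hp, hx]; field_simp; ring
  have hp2 : ∀ n x, tau K n x = x → p n (x * r n) = x := by
    intro n x hx
    have := hr0 n
    rw [hp, map_mul, hx, hr]; field_simp; ring
  let Λ : ℕ → K →+ ZMod 3 := fun n => Nat.rec ρ.toAddMonoidHom (fun m f => f.comp (p m)) n
  have hΛ : ∀ n x, Λ (n + 1) x = Λ n (p n x) := fun n x => rfl
  have hΛm : ∀ m n x, m ≤ n → tau K m x = x → Λ n x = Λ m x := by
    intro m n x h hx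
    induction h with
    | refl => rfl
    | step h ih => rw [hΛ, hp1 _ _ (tau_mono h hx), ih]
  choose N hN using hall
  have hN' : ∀ n x, tau K n x = x → Λ (N x) x = Λ n x := by
    intro n x hx
    rw [← hΛm _ _ x (le_max_left (N x) n) (hN x), hΛm _ _ x (le_max_right (N x) n) hx]
  let l : K →+ ZMod 3 := AddMonoidHom.mk' (fun x => Λ (N x) x) (fun x y => by
    have hx := tau_mono (le_max_left (N x) (N y)) (hN x)
    have hy := tau_mono (le_max_right (N x) (N y)) (hN y)
    rw [hN' _ x hx, hN' _ y hy, hN' (max (N x) (N y)) (x + y) (by rw [map_add, hx, hy]), map_add])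
  have hl : ∀ n x, tau K n x = x → l x = Λ n x := hN'
  have hr1 : ∀ n, tau K (n + 1) (r n) = r n := by
    intro n; rw [tau_succ, hr, map_neg, hr, neg_neg]
  have hlr : ∀ n x, tau K n x = x → l (x * r n) = l x := by
    intro n x hx
    rw [hl (n + 1) _ (by rw [map_mul, hr1, tau_mono (Nat.le_succ n) hx]), hΛ, hp2 n x hx,
      hl n x hx]
  have hl1 : l 1 = 1 := by rw [hl 0 1 (map_one _)]; exact hρ1
  refine ⟨l, hl1, fun σ c hσ h => ?_⟩
  have hστ : ∀ n x, tau K n (σ x) = σ (tau K n x) := by
    intro n x; simp only [tau_apply, map_pow]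
  have hc0 : c ≠ 0 := by
    rintro rfl
    have := h 1
    rw [hl1] at this
    simp at this
  have hfix : ∀ n, N c ≤ n → σ (r n) = r n := by
    intro n hn
    have hc := tau_mono hn (hN c)
    have hrn := hr0 n
    set e := σ (r n) / r n with he
    have he1 : tau K n e = e := by
      rw [he, map_div₀, hστ, hr, map_neg, neg_div_neg_eq]
    by_contra hne
    have hne' : e - 1 ≠ 0 := by
      intro h0
      apply hne
      rw [sub_eq_zero, he, div_eq_one_iff_eq hrn] at h0
      exact h0
    obtain ⟨v, hv⟩ := hσ ((c * (e - 1))⁻¹)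
    have hv1 : tau K n v = v := by
      apply σ.injective
      rw [← hστ, hv, map_inv₀, map_mul, map_sub, hc, he1, map_one]
    have h3 := h (v * r n)
    have h4 : c * σ (v * r n) = (c * σ v * e) * r n := by
      rw [map_mul, he]; field_simp
    rw [h4, hlr n _ (by rw [map_mul, map_mul, hστ, hv1, hc, he1]), hlr n v hv1, ← h v] at h3
    have h5 : c * σ v * e - c * σ v = 1 := by
      rw [hv]; field_simp
    have h6 := map_sub l (c * σ v * e) (c * σ v)
    rw [h5, h3, hl1] at h6
    simp at h6
  have hfix' : ∀ n, σ (r n) = r n := by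
    have : ∀ k n, N c ≤ n + k → σ (r n) = r n := by
      intro k
      induction k with
      | zero => exact hfix
      | succ k ih =>
        intro n hn
        obtain ⟨j, hj⟩ := hrp n
        rw [hj, map_pow, ih (n + 1) (by omega)]
    exact fun n => this (N c) n (by omega)
  have hid : ∀ n x, tau K n x = x → σ x = x := by
    intro n
    induction n with
    | zero =>
      intro x hx
      rw [tau_apply] at hx
      have : x * (x - 1) * (x + 1) = 0 := by
        norm_num at hx
        linear_combination hx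
      rcases mul_eq_zero.mp this with h1 | h1
      · rcases mul_eq_zero.mp h1 with h1 | h1
        · rw [h1, map_zero]
        · rw [sub_eq_zero.mp h1, map_one]
      · rw [eq_neg_of_add_eq_zero_left h1, map_neg, map_one]
    | succ n ih =>
      intro x hx
      rw [tau_succ] at hx
      have hrn := hr0 n
      have h2' : tau K n 2 = 2 := map_ofNat _ 2
      have e1 := ih ((x + tau K n x) / 2) (by rw [map_div₀, map_add, hx, h2', add_comm])
      have e2 := ih ((x - tau K n x) / (2 * r n)) (by
        rw [map_div₀, map_sub, map_mul, hx, h2', hr]; field_simp; ring)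
      have e3 : x = (x + tau K n x) / 2 + (x - tau K n x) / (2 * r n) * r n := by
        field_simp; ring
      rw [e3, map_add, map_mul, e1, e2, hfix']
  exact fun z => hid _ z (hN z)

end Frob

theorem exists_field : ∃ (K : Type) (_ : Field K) (_ : CharP K 3) (l : K →+ ZMod 3),
    Countable K ∧ Infinite K ∧ l 1 = 1 ∧
    (∀ s : Finset K, ∃ S : Subfield K, (S : Set K).Finite ∧ (s : Set K) ⊆ S) ∧
    (∃ t : K, t ^ 4 = -1) ∧
    ∀ (σ : K →+* K) (c : K), Function.Surjective σ → (∀ z, l (c * σ z) = l z) → ∀ z, σ z = z := by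
  classical
  let L := AlgebraicClosure (ZMod 3)
  choose sq hsq using fun x : L => IsAlgClosed.exists_pow_nat_eq x (n := 2) (by norm_num)
  let z : ℕ → L := fun n => sq^[n] (-1)
  have hz0 : z 0 = -1 := rfl
  have hz : ∀ n, z (n + 1) ^ 2 = z n := by
    intro n; simp only [z, Function.iterate_succ_apply']; exact hsq _
  have hzne : ∀ n, z n ≠ 0 := by
    intro n
    induction n with
    | zero => simp [hz0]
    | succ n ih => intro h; rw [← hz, h] at ih; simp at ih
  have hz1 : z 1 ^ 2 = -1 := hz 0
  have hz2 : z 2 ^ 4 = -1 := by rw [← hz1, ← hz 1]; ring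
  have hz3 : z 3 ^ 8 = -1 := by rw [← hz2, ← hz 2]; ring
  have key : ∀ n, tau L (n + 1) (z (n + 3)) = -z (n + 3) := by
    intro n
    induction n with
    | zero =>
      rw [tau_apply]
      norm_num
      linear_combination (z 3) * hz3
    | succ n ih =>
      have hne := hzne (n + 4)
      set u := tau L (n + 1) (z (n + 4)) / z (n + 4) with hu
      have hu2 : u ^ 2 = -1 := by
        rw [hu, div_pow, ← map_pow, hz (n + 3), ih, neg_div, div_self (hzne _)]
      have hu1 : tau L (n + 1) u = u := by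
        refine tau_mono (m := 1) (by omega) ?_
        rw [tau_apply]
        norm_num
        linear_combination (u ^ 7 - u ^ 5 + u ^ 3 - u) * hu2
      have hu3 : tau L (n + 1) (z (n + 4)) = u * z (n + 4) := (div_mul_cancel₀ _ hne).symm
      change tau L (n + 1 + 1) (z (n + 4)) = -z (n + 4)
      rw [tau_succ, hu3, map_mul, hu1, hu3]
      linear_combination (z (n + 4)) * hu2
  let r0 : ℕ → L := fun n => if n = 0 then z 1 else z (n + 2)
  have hr0 : ∀ n, tau L n (r0 n) = -r0 n := by
    intro n
    cases n with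
    | zero =>
      simp only [r0, if_true, tau_apply]
      norm_num
      linear_combination (z 1) * hz1
    | succ n => simpa [r0] using key n
  let Kf : Subfield L :=
    { carrier := {x | ∃ n, tau L n x = x}
      mul_mem' := by
        rintro x y ⟨m, hm⟩ ⟨n, hn⟩
        exact ⟨max m n, by rw [map_mul, tau_mono (le_max_left _ _) hm,
          tau_mono (le_max_right _ _) hn]⟩
      one_mem' := ⟨0, map_one _⟩
      add_mem' := by
        rintro x y ⟨m, hm⟩ ⟨n, hn⟩
        exact ⟨max m n, by rw [map_add, tau_mono (le_max_left _ _) hm,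
          tau_mono (le_max_right _ _) hn]⟩
      zero_mem' := ⟨0, map_zero _⟩
      neg_mem' := by
        rintro x ⟨m, hm⟩
        exact ⟨m, by rw [map_neg, hm]⟩
      inv_mem' := by
        rintro x ⟨m, hm⟩
        exact ⟨m, by rw [map_inv₀, hm]⟩ }
  have hτ : ∀ n (x : Kf), ((tau Kf n x : Kf) : L) = tau L n x := by
    intro n x; simp only [tau_apply]; push_cast; rfl
  let r : ℕ → Kf := fun n => ⟨r0 n, n + 1, by rw [tau_succ, hr0, map_neg, hr0, neg_neg]⟩
  have hr : ∀ n, tau Kf n (r n) = -r n := fun n => Subtype.ext (by rw [hτ]; exact hr0 n)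
  have hrne : ∀ n, r n ≠ 0 := by
    intro n h
    have := congrArg Subtype.val h
    simp only [r, r0] at this
    split_ifs at this <;> exact hzne _ this
  have hall : ∀ x : Kf, ∃ n, tau Kf n x = x := fun x => by
    obtain ⟨n, hn⟩ := x.2
    exact ⟨n, Subtype.ext (by rw [hτ]; exact hn)⟩
  have hrp : ∀ n, ∃ k : ℕ, r n = r (n + 1) ^ k := by
    intro n
    cases n with
    | zero =>
      refine ⟨4, Subtype.ext ?_⟩
      change z 1 = z 3 ^ 4
      rw [← hz 1, ← hz 2]; ring
    | succ n =>
      refine ⟨2, Subtype.ext ?_⟩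
      exact (hz (n + 3)).symm
  obtain ⟨l, hl1, hl⟩ := main r hrne hr hrp hall
  have hfin : ∀ s : Finset Kf, ∃ n, ∀ x ∈ s, tau Kf n x = x := by
    intro s
    choose N hN using hall
    exact ⟨s.sup N, fun x hx => tau_mono (Finset.le_sup hx) (hN x)⟩
  refine ⟨Kf, inferInstance, inferInstance, l, ?_, ?_, hl1, ?_, ⟨r 1 ^ 2, Subtype.ext ?_⟩, hl⟩
  · rw [← Set.countable_univ_iff]
    refine (Set.countable_iUnion (fun n => (fin_fixed (K := Kf) n).countable)).mono ?_
    intro x _
    exact Set.mem_iUnion.mpr (hall x)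
  · by_contra hinf
    rw [not_infinite_iff_finite] at hinf
    have := Fintype.ofFinite Kf
    obtain ⟨n, hn⟩ := hfin Finset.univ
    have h1 := hn (r n) (Finset.mem_univ _)
    rw [hr] at h1
    have h2 : 2 * r n = 0 := by linear_combination -h1
    exact mul_ne_zero two_ne (hrne n) h2
  · intro s
    obtain ⟨n, hn⟩ := hfin s
    exact ⟨RingHom.eqLocusField (tau Kf n) (RingHom.id _), fin_fixed n, fun x hx => hn x hx⟩
  · change (z 3 ^ 2) ^ 4 = -1
    rw [← hz3]; ring

end Pool.Agent.H73.RigidField
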