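import Mathlib

set_option autoImplicit false

namespace Pool.Agent.H73.SG

open Equiv Equiv.Perm Finset

section good
variable {α : Type} [DecidableEq α]

/-- all three-cycles supported in `A` lie in `M` -/
def Good (M : Subgroup (Perm α)) (A : Set α) : Prop :=
  ∀ a ∈ A, ∀ b ∈ A, ∀ c ∈ A, a ≠ b → b ≠ c → swap a b * swap b c ∈ M

lemma Good.mono {M : Subgroup (Perm α)} {A B : Set α} (h : Good M B) (hAB : A ⊆ B) : Good M A :=
  fun a ha b hb c hc => h a (hAB ha) b (hAB hb) c (hAB hc)

lemma good_Q {M : Subgroup (Perm α)} {A : Set α} (h : Good M A) {a a' x y : α} (ha : a ∈ A)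
    (ha' : a' ∈ A) (hx : x ∈ A) (hy : y ∈ A) (haa : a ≠ a') (hxy : x ≠ y) :
    swap x y * swap a a' ∈ M := by
  by_cases hya : y = a
  · subst hya; exact h x hx y hy a' ha' hxy haa
  · have : swap x y * swap a a' = (swap x y * swap y a) * (swap y a * swap a a') := by
      simp [mul_assoc]
    rw [this]
    exact M.mul_mem (h x hx y hy a ha hxy hya) (h y hy a ha a' ha' hya haa)

lemma Q_good {M : Subgroup (Perm α)} {A : Set α} (r : Perm α)
    (h : ∀ x ∈ A, ∀ y ∈ A, x ≠ y → swap x y * r ∈ M) : Good M A := by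
  intro a ha b hb c hc hab hbc
  have : swap a b * swap b c = (swap a b * r) * (swap b c * r)⁻¹ := by
    simp [mul_assoc]
  rw [this]
  exact M.mul_mem (h a ha b hb hab) (M.inv_mem (h b hb c hc hbc))

lemma Q_step {M : Subgroup (Perm α)} (r : Perm α) {x w b : α} (hbw : b ≠ w) (hbx : b ≠ x)
    (h1 : swap x w * r ∈ M) (h2 : swap w b * r ∈ M) (hr : r * r = 1) : swap x b * r ∈ M := by
  have e : swap x b = swap w x * swap b w * swap w x := (swap_mul_swap_mul_swap hbw hbx).symm
  have hr' : r⁻¹ = r := inv_eq_of_mul_eq_one_left hr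
  have : swap x b * r = (swap x w * r) * (swap w b * r)⁻¹ * (swap x w * r) := by
    rw [e, swap_comm w x, swap_comm b w, mul_inv_rev, swap_inv, hr']
    simp only [mul_assoc]
    rw [← mul_assoc r r, hr, one_mul]
  rw [this]
  exact M.mul_mem (M.mul_mem h1 (M.inv_mem h2)) h1

lemma merge2 {M : Subgroup (Perm α)} {A B : Set α} (hA : Good M A) (hB : Good M B) {a a' : α}
    (haa : a ≠ a') (h1 : a ∈ A) (h2 : a' ∈ A) (h3 : a ∈ B) (h4 : a' ∈ B) : Good M (A ∪ B) := by
  have key : ∀ x ∈ A, ∀ b ∈ B, x ≠ b → swap x b * swap a a' ∈ M := by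
    intro x hx b hb hxb
    by_cases hxa : x = a'
    · subst hxa; exact good_Q hB h3 h4 h4 hb haa hxb
    by_cases hba : b = a'
    · subst hba; exact good_Q hA h1 h2 hx h2 haa hxb
    exact Q_step _ hba (Ne.symm hxb) (good_Q hA h1 h2 hx h2 haa hxa)
      (good_Q hB h3 h4 h4 hb haa (Ne.symm hba)) (swap_mul_self _ _)
  refine Q_good (swap a a') ?_
  rintro x (hx | hx) y (hy | hy) hxy
  · exact good_Q hA h1 h2 hx hy haa hxy
  · exact key x hx y hy hxy
  · rw [swap_comm]; exact key y hy x hx (Ne.symm hxy)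
  · exact good_Q hB h3 h4 hx hy haa hxy

lemma good3 {M : Subgroup (Perm α)} {a b c : α} (hab : a ≠ b) (hbc : b ≠ c) (hac : a ≠ c)
    (h : swap a b * swap b c ∈ M) : Good M {a, b, c} := by
  have h0 : swap b c * swap b c ∈ M := by rw [swap_mul_self]; exact M.one_mem
  have h1 : swap a c * swap b c ∈ M :=
    Q_step _ (Ne.symm hbc) (Ne.symm hac) h h0 (swap_mul_self _ _)
  refine Q_good (swap b c) ?_
  intro x hx y hy hxy
  simp only [Set.mem_insert_iff, Set.mem_singleton_iff] at hx hy
  rcases hx with rfl | rfl | rfl <;> rcases hy with rfl | rfl | rfl <;>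
    first | exact absurd rfl hxy | assumption | (rw [swap_comm]; assumption)

lemma merge1 {M : Subgroup (Perm α)} {A B : Set α} (hA : Good M A) (hB : Good M B)
    {z a a' b b' : α} (hzA : z ∈ A) (hzB : z ∈ B) (ha : a ∈ A) (ha' : a' ∈ A) (hb : b ∈ B)
    (hb' : b' ∈ B) (h1 : z ≠ a) (h2 : z ≠ a') (h3 : a ≠ a') (h4 : z ≠ b) (h5 : z ≠ b')
    (h6 : b ≠ b') : Good M (A ∪ B) := by
  by_cases c1 : b ∈ A
  · exact merge2 hA hB h4 hzA c1 hzB hb
  by_cases c2 : b' ∈ A
  · exact merge2 hA hB h5 hzA c2 hzB hb'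
  have e1 : b ≠ a := fun h => c1 (h ▸ ha)
  have e2 : b ≠ a' := fun h => c1 (h ▸ ha')
  have e3 : b' ≠ a := fun h => c2 (h ▸ ha)
  have e4 : b' ≠ a' := fun h => c2 (h ▸ ha')
  set μ : Perm α := swap z a * swap a a' with hμ
  have hμM : μ ∈ M := hA z hzA a ha a' ha' h1 h3
  have hβ : swap z b * swap b b' ∈ M := hB z hzB b hb b' hb' h4 h6
  have m1 : μ z = a := by simp [hμ, swap_apply_of_ne_of_ne h1 h2]
  have m2 : μ b = b := by
    simp [hμ, swap_apply_of_ne_of_ne e1 e2, swap_apply_of_ne_of_ne (Ne.symm h4) e1]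
  have m3 : μ b' = b' := by
    simp [hμ, swap_apply_of_ne_of_ne e3 e4, swap_apply_of_ne_of_ne (Ne.symm h5) e3]
  have k1 : swap a b = μ * swap z b * μ⁻¹ := by rw [← swap_apply_apply, m1, m2]
  have k2 : swap b b' = μ * swap b b' * μ⁻¹ := by rw [← swap_apply_apply, m2, m3]
  have k3 : swap a b * swap b b' ∈ M := by
    have : swap a b * swap b b' = μ * (swap z b * swap b b') * μ⁻¹ := by
      rw [k1]; nth_rewrite 1 [k2]; group
    rw [this]; exact M.mul_mem (M.mul_mem hμM hβ) (M.inv_mem hμM)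
  have k4 : swap a b * swap b z ∈ M := by
    have : swap a b * swap b z = (swap a b * swap b b') * (swap z b * swap b b')⁻¹ := by
      simp [mul_assoc, swap_comm z b]
    rw [this]; exact M.mul_mem k3 (M.inv_mem hβ)
  have g3 := good3 (Ne.symm e1) (Ne.symm h4) (Ne.symm h1) k4
  have g4 := merge2 hA g3 h1 hzA ha (by simp) (by simp)
  have g5 := merge2 g4 hB h4 (Or.inl hzA) (Or.inr (by simp)) hzB hb
  exact g5.mono (by intro x hx; rcases hx with hx | hx; exact Or.inl (Or.inl hx); exact Or.inr hx)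

lemma two_other {A : Finset α} (h : 3 ≤ A.card) (z : α) :
    ∃ a ∈ A, ∃ a' ∈ A, z ≠ a ∧ z ≠ a' ∧ a ≠ a' := by
  have : 1 < (A.erase z).card := by
    have := Finset.pred_card_le_card_erase (s := A) (a := z); omega
  obtain ⟨a, ha, a', ha', h⟩ := Finset.one_lt_card.mp this
  rw [Finset.mem_erase] at ha ha'
  exact ⟨a, ha.2, a', ha'.2, Ne.symm ha.1, Ne.symm ha'.1, h⟩

lemma mergeF {M : Subgroup (Perm α)} {A B : Finset α} (hA : Good M (A : Set α))
    (hB : Good M (B : Set α)) (cA : 3 ≤ A.card) (cB : 3 ≤ B.card) {z : α} (hzA : z ∈ A)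
    (hzB : z ∈ B) : Good M ((A ∪ B : Finset α) : Set α) := by
  obtain ⟨a, ha, a', ha', h1, h2, h3⟩ := two_other cA z
  obtain ⟨b, hb, b', hb', h4, h5, h6⟩ := two_other cB z
  rw [Finset.coe_union]
  exact merge1 hA hB hzA hzB ha ha' hb hb' h1 h2 h3 h4 h5 h6

lemma Good.conj {M M' : Subgroup (Perm α)} {B : Finset α} (h : Good M (B : Set α)) (σ : Perm α)
    (hM : ∀ τ ∈ M, σ * τ * σ⁻¹ ∈ M') : Good M' ((B.image σ : Finset α) : Set α) := by
  intro a ha b hb c hc hab hbc
  simp only [Finset.coe_image, Set.mem_image, Finset.mem_coe] at ha hb hc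
  obtain ⟨a, ha, rfl⟩ := ha
  obtain ⟨b, hb, rfl⟩ := hb
  obtain ⟨c, hc, rfl⟩ := hc
  have := hM _ (h a ha b hb c hc (fun e => hab (by rw [e])) (fun e => hbc (by rw [e])))
  rw [swap_apply_apply, swap_apply_apply]
  convert this using 1; group

variable [Fintype α]

lemma good_univ {M : Subgroup (Perm α)} (h : Good M Set.univ) : alternatingGroup α ≤ M := by
  rw [← closure_three_cycles_eq_alternating, Subgroup.closure_le]
  intro g hg
  have hg' : IsThreeCycle g := hg
  obtain ⟨a, ha⟩ : g.support.Nonempty := by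
    rw [← Finset.card_pos, hg'.card_support]; norm_num
  have hn := hg'.nodup_iff_mem_support.mpr ha
  rw [hg'.eq_swap_mul_swap_iff_mem_support.mpr ha]
  apply h _ trivial _ trivial _ trivial <;> grind

lemma good_mem {M : Subgroup (Perm α)} {A : Finset α} (h : Good M (A : Set α)) {σ : Perm α}
    (hσ : σ ∈ alternatingGroup α) (hs : σ.support ⊆ A) : σ ∈ M := by
  obtain ⟨k, hk⟩ := (alternatingGroup.mem_range_ofSubtype_iff A ⟨σ, hσ⟩).mpr hs
  have h2 : Good (M.comap (Perm.ofSubtype : Perm A →* Perm α)) Set.univ := by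
    intro a _ b _ c _ hab hbc
    rw [Subgroup.mem_comap, map_mul, ofSubtype_swap_eq, ofSubtype_swap_eq]
    exact h a a.2 b b.2 c c.2 (fun e => hab (Subtype.ext e)) (fun e => hbc (Subtype.ext e))
  have := good_univ h2 k.2
  rw [Subgroup.mem_comap] at this
  have e : σ = Perm.ofSubtype (k : Perm A) := by
    rw [← alternatingGroup.coe_ofSubtype, hk]
  rw [e]; exact this

lemma alt_triv {Y : Type} [Finite Y] (h5 : 5 ≤ Nat.card α) (hY : Nat.card Y < Nat.card α)
    (f : alternatingGroup α →* Perm Y) (a : alternatingGroup α) : f a = 1 := by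
  classical
  have := alternatingGroup.isSimpleGroup h5
  have : Nontrivial α := Finite.one_lt_card_iff_nontrivial.mp (by omega)
  rcases (MonoidHom.normal_ker f).eq_bot_or_eq_top with h | h
  · exfalso
    have hinj : Function.Injective f := (MonoidHom.ker_eq_bot_iff f).mp h
    have h1 := Nat.card_le_card_of_injective f hinj
    have h2 : 2 * Nat.card (alternatingGroup α) = Nat.card (Perm α) :=
      two_mul_nat_card_alternatingGroup
    rw [Nat.card_perm] at h1 h2
    obtain ⟨k, hk⟩ : ∃ k, Nat.card α = k + 1 := ⟨Nat.card α - 1, by omega⟩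
    rw [hk, Nat.factorial_succ] at h2
    have h3 : (Nat.card Y).factorial ≤ k.factorial := Nat.factorial_le (by omega)
    have h4 := Nat.factorial_pos k
    have h5' : 4 ≤ k := by omega
    nlinarith
  · have : a ∈ f.ker := by rw [h]; trivial
    exact this

open Classical in
lemma cnt_core (M : Subgroup (Perm α)) {s : ℕ} (hs : 3 ≤ s) :
    ((powersetCard s (univ : Finset α)).filter (fun S : Finset α => Good M (S : Set α))).card = 0 ∨
    ∃ B : Finset α, Good M (B : Set α) ∧ 3 ≤ B.card ∧
      ((powersetCard s (univ : Finset α)).filter (fun S : Finset α => Good M (S : Set α))).card ≤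
        B.card.choose s + (Fintype.card α - B.card).choose s := by
  by_cases h0 : ((powersetCard s (univ : Finset α)).filter (fun S : Finset α => Good M (S : Set α))) = ∅
  · left; rw [h0]; rfl
  right
  obtain ⟨S0, hS0⟩ := Finset.nonempty_iff_ne_empty.mpr h0
  simp only [mem_filter, mem_powersetCard] at hS0
  obtain ⟨B, hB, hmax⟩ := Finset.exists_max_image
    ((univ : Finset (Finset α)).filter (fun S : Finset α => Good M (S : Set α))) Finset.card
    ⟨S0, by simp [hS0.2]⟩
  simp only [mem_filter, mem_univ, true_and] at hB hmax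
  have hB3 : 3 ≤ B.card := by have := hmax S0 hS0.2; omega
  refine ⟨B, hB, hB3, ?_⟩
  rw [← Finset.card_compl, ← card_powersetCard, ← card_powersetCard]
  refine le_trans (Finset.card_le_card ?_) (Finset.card_union_le _ _)
  intro S hS
  simp only [mem_filter, mem_powersetCard, mem_union] at hS ⊢
  by_cases hd : ∃ z ∈ S, z ∈ B
  · obtain ⟨z, hz, hz'⟩ := hd
    left
    refine ⟨?_, hS.1.2⟩
    have hg := mergeF hB hS.2 hB3 (by omega) hz' hz
    have := Finset.eq_of_subset_of_card_le (Finset.subset_union_left (s₁ := B) (s₂ := S))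
      (hmax _ hg)
    rw [this]; exact Finset.subset_union_right
  · right
    refine ⟨fun z hz => ?_, hS.1.2⟩
    rw [Finset.mem_compl]; exact fun h => hd ⟨z, hz, h⟩

lemma choose_super {a s : ℕ} (ha : 2 ≤ a) (hs : 3 ≤ s) (b : ℕ) :
    a.choose s + (b + 2).choose s ≤ (a + b).choose s := by
  induction b with
  | zero => simp [Nat.choose_eq_zero_of_lt (show 2 < s by omega)]
  | succ b ih =>
    obtain ⟨t, rfl⟩ : ∃ t, s = t + 1 := ⟨s - 1, by omega⟩
    have e1 : (b + 1 + 2).choose (t + 1) = (b + 2).choose t + (b + 2).choose (t + 1) :=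
      Nat.choose_succ_succ' _ _
    have e2 : (a + (b + 1)).choose (t + 1) = (a + b).choose t + (a + b).choose (t + 1) :=
      Nat.choose_succ_succ' _ _
    have e3 : (b + 2).choose t ≤ (a + b).choose t := Nat.choose_le_choose _ (by omega)
    omega

open Classical in
lemma cnt_b (M : Subgroup (Perm α)) {s : ℕ} (hs : 3 ≤ s)
    (h : ∀ B : Finset α, Good M (B : Set α) → B.card + 2 ≤ Fintype.card α) :
    ((powersetCard s (univ : Finset α)).filter (fun S : Finset α => Good M (S : Set α))).card ≤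
      (Fintype.card α - 2).choose s := by
  rcases cnt_core M hs with h0 | ⟨B, hB, h3, hc⟩
  · omega
  have h1 := h B hB
  obtain ⟨b, hb⟩ : ∃ b, Fintype.card α - B.card = b + 2 := ⟨Fintype.card α - B.card - 2, by omega⟩
  have := choose_super (a := B.card) (by omega) hs b
  rw [hb] at hc
  rw [show Fintype.card α - 2 = B.card + b by omega]
  omega

open Classical in
lemma cnt_a (M : Subgroup (Perm α)) {s : ℕ} (hs : 3 ≤ s)
    (h : ∀ B : Finset α, Good M (B : Set α) → B.card + 1 ≤ Fintype.card α) :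
    ((powersetCard s (univ : Finset α)).filter (fun S : Finset α => Good M (S : Set α))).card ≤
      (Fintype.card α - 1).choose s := by
  rcases cnt_core M hs with h0 | ⟨B, hB, h3, hc⟩
  · omega
  have h1 := h B hB
  by_cases h2 : B.card + 1 = Fintype.card α
  · rw [show Fintype.card α - B.card = 1 by omega,
      Nat.choose_eq_zero_of_lt (show 1 < s by omega)] at hc
    rw [show Fintype.card α - 1 = B.card by omega]; omega
  obtain ⟨b, hb⟩ : ∃ b, Fintype.card α - B.card = b + 2 := ⟨Fintype.card α - B.card - 2, by omega⟩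
  have := choose_super (a := B.card) (by omega) hs b
  rw [hb] at hc
  have := Nat.choose_le_choose s (show B.card + b ≤ Fintype.card α - 1 by omega)
  omega

end good

/-- consecutive three-cycles generate the alternating group -/
lemma consec {K : ℕ} (hK : 3 ≤ K) {M : Subgroup (Perm (Fin K))}
    (h : ∀ d : ℕ, ∀ hd : d + 2 < K,
      swap (⟨d, by omega⟩ : Fin K) ⟨d + 1, by omega⟩ * swap ⟨d + 1, by omega⟩ ⟨d + 2, hd⟩ ∈ M) :
    alternatingGroup (Fin K) ≤ M := by
  have key : ∀ d : ℕ, d + 2 < K → Good M {x : Fin K | x.val ≤ d + 2} := by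
    intro d
    induction d with
    | zero =>
      intro hd
      refine (good3 (by simp [Fin.ext_iff]) (by simp [Fin.ext_iff]) (by simp [Fin.ext_iff])
        (h 0 hd)).mono ?_
      intro x hx
      simp only [Set.mem_ofPred_eq] at hx
      simp only [Set.mem_insert_iff, Set.mem_singleton_iff, Fin.ext_iff]; omega
    | succ d ih =>
      intro hd
      have g := good3 (by simp [Fin.ext_iff]) (by simp [Fin.ext_iff]) (by simp [Fin.ext_iff])
        (h (d + 1) hd)
      refine (merge2 (ih (by omega)) g (a := ⟨d + 1, by omega⟩) (a' := ⟨d + 1 + 1, by omega⟩)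
        (by simp [Fin.ext_iff]) (by simp) (by simp) (by simp) (by simp)).mono ?_
      intro x hx
      simp only [Set.mem_ofPred_eq] at hx
      simp only [Set.mem_union, Set.mem_ofPred_eq, Set.mem_insert_iff, Set.mem_singleton_iff,
        Fin.ext_iff]; omega
  refine good_univ ((key (K - 3) (by omega)).mono ?_)
  intro x _
  have := x.2
  simp only [Set.mem_ofPred_eq]; omega

end Pool.Agent.H73.SG
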