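import Pool.Agent.H73.SG9
import Pool.Agent.H73.SG4

set_option autoImplicit false

namespace Pool.Agent.H73.SG

open Equiv Equiv.Perm Finset Filter Topology

lemma exM (K : ℕ) : ∃ M : ℕ, ∀ j, M ≤ j → (j + 1) ^ K ≤ 2 ^ j := by
  have h := (tendsto_pow_const_div_const_pow_of_one_lt K (r := 2) (by norm_num)).eventually
    (gt_mem_nhds (show (0 : ℝ) < 1 / 2 by norm_num))
  obtain ⟨M, hM⟩ := eventually_atTop.mp h
  refine ⟨M, fun j hj => ?_⟩
  have := hM (j + 1) (by omega)
  rw [div_lt_iff₀ (by positivity), pow_succ] at this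
  have h2 : (((j + 1 : ℕ) : ℝ)) ^ K ≤ 2 ^ j := by linarith
  exact_mod_cast h2

lemma ex_par {ρ : ℝ} (h1 : 4 / 5 ≤ ρ) (h2 : ρ ≤ 81 / 100) :
    ∃ (m : ℕ → ℕ) (S : ∀ i, Finset (Fin (m i))), Par m S ρ := by
  choose M hM using exM
  let st : ℕ → ℕ × ℕ := fun I => Nat.rec (2 * (M 1 + 300) + 1, 1)
    (fun _ x => (2 * (M (x.2 * Nat.card (Alt x.1)) + x.1 + 300) + 1, x.2 * Nat.card (Alt x.1))) I
  have s0 : st 0 = (2 * (M 1 + 300) + 1, 1) := rfl
  have s1 : ∀ I, st (I + 1) = (2 * (M ((st I).2 * Nat.card (Alt (st I).1)) + (st I).1 + 300) + 1,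
    (st I).2 * Nat.card (Alt (st I).1)) := fun I => rfl
  have a1 : ∀ I, ∃ k, (st I).1 = 2 * (M (st I).2 + k + 300) + 1 := by
    rintro (_ | I)
    · exact ⟨0, rfl⟩
    · exact ⟨(st I).1, rfl⟩
  have a2 : ∀ I, (st I).2 = ∏ i : Fin I, Nat.card (Alt (st i).1) := by
    intro I
    induction I with
    | zero => rfl
    | succ I ih => rw [Fin.prod_univ_castSucc, s1, ih]; rfl
  let m : ℕ → ℕ := fun I => (st I).1
  let s : ℕ → ℕ := fun I => ⌈(1 - ρ) * m I⌉₊ + 6
  have m6 : ∀ i, (600 : ℝ) ≤ m i := by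
    intro i
    obtain ⟨k, hk⟩ := a1 i
    have : 600 ≤ m i := by simp only [m]; omega
    exact_mod_cast this
  have b1 : ∀ i, (1 - ρ) * m i + 6 ≤ s i := by
    intro i; simp only [s]; push_cast; linarith [Nat.le_ceil ((1 - ρ) * m i)]
  have b2 : ∀ i, (s i : ℝ) ≤ (1 - ρ) * m i + 7 := by
    intro i; simp only [s]; push_cast
    have := Nat.ceil_lt_add_one (show 0 ≤ (1 - ρ) * m i from
      mul_nonneg (by linarith) (by positivity))
    linarith
  have b3 : ∀ i, s i + 1 ≤ m i := by
    intro i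
    have := b2 i; have := m6 i
    have : (s i : ℝ) + 1 ≤ m i := by nlinarith
    exact_mod_cast this
  have hc : ∀ i, (univ.filter (fun x : Fin (m i) => x.val < s i)).card = s i := by
    intro i
    rw [Fin.card_filter_val_lt]; have := b3 i; omega
  have b4 : ∀ i, (m i - s i : ℝ) / m i ≤ ρ - 6 / m i := by
    intro i
    have := b1 i; have := m6 i
    rw [div_le_iff₀ (by linarith), sub_mul, div_mul_cancel₀ _ (by linarith)]; linarith
  refine ⟨m, fun i => univ.filter (fun x => x.val < s i), strictMono_nat_of_lt_succ ?_, ?_, ?_,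
    ?_, ?_, ?_, ?_, h1, ?_⟩
  · intro i; simp only [m]; rw [s1]; omega
  · intro i; obtain ⟨k, hk⟩ := a1 i; exact ⟨_, hk⟩
  · intro i; rw [hc]; simp only [s]; omega
  · intro i; rw [hc]; exact b3 i
  · intro i; rw [hc]
    have := b4 i; have := b1 i; have := m6 i
    have : (1 : ℝ) / s i ≤ 6 / m i := by
      rw [div_le_div_iff₀ (by nlinarith) (by linarith)]; nlinarith
    linarith
  · intro i; rw [hc]
    have := b4 i; have := b1 i; have := m6 i
    have t1 : (1 : ℝ) / s i ≤ 1 / 100 := by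
      rw [div_le_div_iff₀ (by nlinarith) (by linarith)]; nlinarith
    have t2 : (0 : ℝ) ≤ (m i - s i : ℝ) / m i := by
      have : (s i : ℝ) + 1 ≤ m i := by exact_mod_cast b3 i
      exact div_nonneg (by linarith) (by linarith)
    have t3 : (0 : ℝ) ≤ 6 / m i := by positivity
    have t4 : ((m i - s i : ℝ) / m i) ^ 2 ≤ ρ ^ 2 := by gcongr; linarith
    nlinarith
  · intro i; rw [hc]
    have := b2 i; have := m6 i
    rw [le_div_iff₀ (by linarith), sub_mul, div_mul_cancel₀ _ (by linarith)]; linarith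
  · intro I j hj
    rw [Nat.card_pi, ← a2]
    obtain ⟨k, hk⟩ := a1 I
    exact hM _ j (by simp only [m] at hj; omega)

lemma logf_ge (n : ℕ) : (n : ℝ) * Real.log n - n ≤ Real.log n.factorial := by
  rcases Nat.eq_zero_or_pos n with rfl | hn
  · simp
  have h := Real.pow_div_factorial_le_exp (n : ℝ) (by positivity) n
  have h3 : (0 : ℝ) < n.factorial := by exact_mod_cast Nat.factorial_pos n
  have := Real.log_le_log (by positivity) h
  rw [Real.log_exp, Real.log_div (by positivity) h3.ne', Real.log_pow] at this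
  linarith

lemma logf_le (n : ℕ) : Real.log n.factorial ≤ (n : ℝ) * Real.log n := by
  have h3 : (0 : ℝ) < n.factorial := by exact_mod_cast Nat.factorial_pos n
  rw [← Real.log_pow]
  exact Real.log_le_log h3 (by exact_mod_cast Nat.factorial_le_pow n)

lemma inv_log : Tendsto (fun n : ℕ => (Real.log n)⁻¹) atTop (𝓝 0) :=
  (Real.tendsto_log_atTop.comp tendsto_natCast_atTop_atTop).inv_tendsto_atTop

lemma ev_log : ∀ᶠ n : ℕ in atTop, 0 < Real.log n ∧ (0 : ℝ) < n := by
  filter_upwards [eventually_ge_atTop 2] with n hn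
  have : (2 : ℝ) ≤ n := by exact_mod_cast hn
  exact ⟨Real.log_pos (by linarith), by linarith⟩

lemma logf_lim : Tendsto (fun n : ℕ => Real.log n.factorial / (n * Real.log n)) atTop (𝓝 1) := by
  refine tendsto_of_tendsto_of_tendsto_of_le_of_le' (g := fun n : ℕ => 1 - (Real.log n)⁻¹)
    (h := fun _ => 1) (by simpa using inv_log.const_sub 1) tendsto_const_nhds ?_ ?_
  · filter_upwards [ev_log] with n hn
    have := hn.1; have := hn.2
    rw [le_div_iff₀ (by positivity)]
    refine le_trans (le_of_eq ?_) (logf_ge n)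
    field_simp
  · filter_upwards [ev_log] with n hn
    have := hn.1; have := hn.2
    rw [div_le_one (by positivity)]
    exact logf_le n

lemma low_log {m a q n s : ℕ} (hm : 1 ≤ m) (ha : 1 ≤ a) (hq : 1 ≤ q) (h1 : m * q ≤ n)
    (h2 : n < m * (q + 1)) (hl : Real.log (2 * m) + 1 ≤ Real.log n)
    (h : (a * q).factorial ^ 5 * (m * q).factorial ≤ (m * q) ^ (q + 1) * s) :
    (5 * a + m) * (n / m - 1) * (Real.log n - (Real.log (2 * m) + 1)) - (n / m + 1) * Real.log n ≤
      Real.log s := by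
  have hs : s ≠ 0 := by
    rintro rfl
    have : 0 < (a * q).factorial ^ 5 * (m * q).factorial := by positivity
    omega
  have hm' : (1 : ℝ) ≤ m := by exact_mod_cast hm
  have ha' : (1 : ℝ) ≤ a := by exact_mod_cast ha
  have hq' : (1 : ℝ) ≤ q := by exact_mod_cast hq
  have h1' : (m : ℝ) * q ≤ n := by exact_mod_cast h1
  have h2' : (n : ℝ) ≤ m * (q + 1) := by exact_mod_cast h2.le
  have hn : (0 : ℝ) < n := lt_of_lt_of_le (by positivity) h1'
  have h' : ((a * q).factorial : ℝ) ^ 5 * (m * q).factorial ≤ (n : ℝ) ^ (q + 1) * s := by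
    have : (a * q).factorial ^ 5 * (m * q).factorial ≤ n ^ (q + 1) * s :=
      h.trans (by gcongr)
    exact_mod_cast this
  have k := Real.log_le_log (by positivity) h'
  rw [Real.log_mul (by positivity) (by positivity), Real.log_mul (by positivity) (by positivity),
    Real.log_pow, Real.log_pow] at k
  have k1 := logf_ge (a * q)
  have k2 := logf_ge (m * q)
  push_cast at k k1 k2
  have l1 : Real.log q ≤ Real.log (a * q) := Real.log_le_log (by linarith) (by nlinarith)
  have l2 : Real.log q ≤ Real.log (m * q) := Real.log_le_log (by linarith) (by nlinarith)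
  have l3 : Real.log n ≤ Real.log (2 * m) + Real.log q := by
    rw [← Real.log_mul (by positivity) (by positivity)]
    exact Real.log_le_log hn (by nlinarith)
  have q1 : (n : ℝ) / m - 1 ≤ q := by rw [sub_le_iff_le_add, div_le_iff₀ (by linarith)]; linarith
  have q2 : (q : ℝ) ≤ n / m := by rw [le_div_iff₀ (by linarith)]; linarith
  have l0 : 0 ≤ Real.log n := Real.log_natCast_nonneg n
  have t1 : (5 * a + m) * (n / m - 1) * (Real.log n - (Real.log (2 * m) + 1)) ≤
      (5 * a + m) * q * (Real.log q - 1) :=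
    mul_le_mul (by gcongr) (by linarith) (by linarith) (by positivity)
  have t2 : (q + 1) * Real.log n ≤ (n / m + 1) * Real.log n := by gcongr
  have t3 : (a : ℝ) * q * Real.log q ≤ a * q * Real.log (a * q) := by gcongr
  have t4 : (m : ℝ) * q * Real.log q ≤ m * q * Real.log (m * q) := by gcongr
  nlinarith

lemma lim_main {γ : ℝ} (s : ℕ → ℕ)
    (hu : ∀ n : ℕ, 1 ≤ n → (s n : ℝ) ≤ n * (n * (64 ^ n * (n : ℝ) ^ (γ * n))))
    (hl : ∀ ε : ℝ, 0 < ε → ∃ m a : ℕ, 1 ≤ m ∧ 1 ≤ a ∧ γ - ε ≤ (5 * a + m) / m - 1 / m ∧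
      ∀ q n, 1 ≤ q → m * q ≤ n →
        (a * q).factorial ^ 5 * (m * q).factorial ≤ (m * q) ^ (q + 1) * s n) :
    Tendsto (fun n : ℕ => Real.log (s n) / Real.log n.factorial) atTop (𝓝 γ) := by
  have key : Tendsto (fun n : ℕ => Real.log (s n) / (n * Real.log n)) atTop (𝓝 γ) := by
    rw [tendsto_order]
    constructor
    · intro b hb
      obtain ⟨m, a, hm, ha, h1, h2⟩ := hl ((γ - b) / 2) (by linarith)
      have hm' : (0 : ℝ) < m := by exact_mod_cast hm
      have i1 : Tendsto (fun n : ℕ => (n : ℝ)⁻¹) atTop (𝓝 0) := tendsto_inv_atTop_nhds_zero_nat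
      have t : Tendsto (fun n : ℕ => (5 * a + m : ℝ) * (1 / m - (n : ℝ)⁻¹) *
          (1 - (Real.log (2 * m) + 1) * (Real.log n)⁻¹) - (1 / m + (n : ℝ)⁻¹)) atTop
          (𝓝 ((5 * a + m : ℝ) * (1 / m - 0) * (1 - (Real.log (2 * m) + 1) * 0) - (1 / m + 0))) :=
        (((i1.const_sub _).const_mul _).mul ((inv_log.const_mul _).const_sub _)).sub
          (i1.const_add _)
      have t2 := t.eventually (lt_mem_nhds (show b < _ by
        simp only [sub_zero, mul_zero, mul_one, add_zero, mul_one_div]; linarith))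
      filter_upwards [t2, ev_log, eventually_ge_atTop m,
        (Real.tendsto_log_atTop.comp tendsto_natCast_atTop_atTop).eventually_ge_atTop
          (Real.log (2 * m) + 1)] with n g1 g2 g3 g4
      have := g2.1; have := g2.2
      refine g1.trans_le ?_
      rw [le_div_iff₀ (by positivity)]
      have q1 : 1 ≤ n / m := (Nat.le_div_iff_mul_le hm).mpr (by simpa using g3)
      refine le_trans (le_of_eq ?_) (low_log hm ha q1 (Nat.mul_div_le n m)
        (Nat.lt_mul_div_succ n hm) g4 (h2 _ n q1 (Nat.mul_div_le n m)))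
      field_simp
    · intro b hb
      have t : Tendsto (fun n : ℕ => γ + (2 + Real.log 64) * (Real.log n)⁻¹) atTop
          (𝓝 (γ + (2 + Real.log 64) * 0)) := (inv_log.const_mul _).const_add _
      have t2 := t.eventually (gt_mem_nhds (show _ < b by simpa using hb))
      obtain ⟨m, a, hm, ha, -, h2⟩ := hl 1 one_pos
      filter_upwards [t2, ev_log, eventually_ge_atTop m] with n g1 g2 g3
      have := g2.1; have := g2.2
      refine lt_of_le_of_lt ?_ g1
      have hs : s n ≠ 0 := by
        intro e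
        have := h2 1 n le_rfl (by simpa using g3)
        rw [e] at this
        have : 0 < (a * 1).factorial ^ 5 * (m * 1).factorial := by positivity
        omega
      have k := Real.log_le_log (by positivity) (hu n (by omega))
      rw [Real.log_mul (by positivity) (by positivity), Real.log_mul (by positivity) (by positivity),
        Real.log_mul (by positivity) (by positivity), Real.log_pow, Real.log_rpow (by positivity)] at k
      have l : Real.log n ≤ n := (Real.log_le_sub_one_of_pos (by positivity)).trans (by linarith)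
      rw [div_le_iff₀ (by positivity)]
      have e : (γ + (2 + Real.log 64) * (Real.log n)⁻¹) * (n * Real.log n) =
        γ * n * Real.log n + (2 + Real.log 64) * n := by field_simp
      rw [e]; linarith
  have := key.div logf_lim one_ne_zero
  rw [div_one] at this
  refine this.congr' ?_
  filter_upwards [ev_log] with n hn
  have := hn.1; have := hn.2
  simp only [Pi.div_apply]
  rw [div_div_div_cancel_right₀ (by positivity)]

theorem growth {ρ : ℝ} (h1 : 4 / 5 ≤ ρ) (h2 : ρ ≤ 81 / 100) :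
    ∃ (G : Type) (_ : Group G), Group.FG G ∧
      (∀ g : G, g ≠ 1 → ∃ H : Subgroup G, H.FiniteIndex ∧ g ∉ H) ∧
        Filter.Tendsto
          (fun n : ℕ =>
            Real.log ((Set.ncard {H : Subgroup G | H.index ≠ 0 ∧ H.index ≤ n} : ℕ) : ℝ) /
              Real.log ((Nat.factorial n : ℕ) : ℝ))
          Filter.atTop (nhds (1 + 5 * ρ)) := by
  obtain ⟨m, S, P⟩ := ex_par h1 h2
  have h5 : ∀ i, 5 ≤ m i := fun i => by have := P.h5 i; have := P.hs i; omega
  obtain ⟨D, _, hD, ⟨X⟩⟩ := exists_sys P.mono h5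
  have := GG_fg (CC X S)
  refine ⟨GG (CC X S), inferInstance, this, GG_rf _, lim_main _ ?_ ?_⟩
  · intro n hn
    have hn' : (1 : ℝ) ≤ n := by exact_mod_cast hn
    refine s_up _ n (by positivity) (fun j hj => ?_)
    have hj' : (j : ℝ) ≤ n := by exact_mod_cast hj
    refine hom_up _ hj' hn' (fun Φ => ?_)
    refine (W_ind (CC X S) (γ := 1 + 5 * ρ) hj' hn' (fun j h1 h2 T hT => sumH X P h1 h2 T hT)
      univ Φ (by simp)).trans ?_
    simp only [card_univ, Fintype.card_fin]
    gcongr
    norm_num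
  · intro ε hε
    obtain ⟨i, hi⟩ := exists_nat_ge (36 / ε)
    have hi2 : (i : ℝ) ≤ m i := by exact_mod_cast P.mono.le_apply
    have hs := P.hs i
    have hm : (0 : ℝ) < m i := by exact_mod_cast (by omega : 0 < m i)
    refine ⟨m i, m i - (S i).card, by omega, by omega, ?_,
      fun q n hq hn => low X S i (by have := h5 i; omega) hq hn⟩
    have := P.c i
    rw [Nat.cast_sub (by omega), add_div, div_self hm.ne', mul_div_assoc]
    have t : 36 / (m i : ℝ) ≤ ε := by
      rw [div_le_iff₀ hm]; rw [div_le_iff₀ hε] at hi; nlinarith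
    have e1 : 36 / (m i : ℝ) = 36 * (1 / m i) := by ring
    have e2 : 7 / (m i : ℝ) = 7 * (1 / m i) := by ring
    linarith

theorem main :
    ∃ (G : Type) (_ : Group G), Group.FG G ∧
      (∀ g : G, g ≠ 1 → ∃ H : Subgroup G, H.FiniteIndex ∧ g ∉ H) ∧
      ∃ α : ℝ, Irrational α ∧
        Filter.Tendsto
          (fun n : ℕ =>
            Real.log ((Set.ncard {H : Subgroup G | H.index ≠ 0 ∧ H.index ≤ n} : ℕ) : ℝ) /
              Real.log ((Nat.factorial n : ℕ) : ℝ))
          Filter.atTop (nhds α) := by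
  have a : (1.4 : ℝ) ≤ √2 := Real.le_sqrt_of_sq_le (by norm_num)
  have b : √2 ≤ (1.4175 : ℝ) := Real.sqrt_le_iff.mpr ⟨by norm_num, by norm_num⟩
  obtain ⟨G, _, h1, h2, h3⟩ := growth (ρ := 4 / 7 * √2) (by linarith) (by linarith)
  refine ⟨G, inferInstance, h1, h2, _, ?_, h3⟩
  have : (1 + 5 * (4 / 7 * √2) : ℝ) = ((1 : ℚ) : ℝ) + ((20 / 7 : ℚ) : ℝ) * √2 := by
    push_cast; ring
  rw [this]
  exact (irrational_sqrt_two.ratCast_mul (by norm_num)).ratCast_add 1

end Pool.Agent.H73.SG
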