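import Pool.Agent.H73.SG1

set_option autoImplicit false

namespace Pool.Agent.H73.SG

open Equiv Equiv.Perm

abbrev Om := ℕ × ℤ

def sh (p : Om) (d : ℤ) : Om := (p.1, p.2 + d)

@[simp] lemma sh_fst (p : Om) (d : ℤ) : (sh p d).1 = p.1 := rfl
@[simp] lemma sh_snd (p : Om) (d : ℤ) : (sh p d).2 = p.2 + d := rfl
@[simp] lemma sh_sh (p : Om) (d e : ℤ) : sh (sh p d) e = sh p (d + e) := by
  simp [sh, add_assoc]
@[simp] lemma sh_zero (p : Om) : sh p 0 = p := by simp [sh]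

def Sparse (K : ℕ) (R : Set Om) : Prop :=
  ∀ p ∈ R, ∀ q ∈ R, p.1 = q.1 → p.2 < q.2 → p.2 + K ≤ q.2

def emb {K : ℕ} {R : Set Om} (h : Sparse K R) : R × Fin K ↪ Om :=
  ⟨fun x => sh x.1 x.2, by
    rintro ⟨⟨p, hp⟩, a⟩ ⟨⟨q, hq⟩, b⟩ e
    have e1 : p.1 = q.1 := by simpa using congrArg (fun z : Om => z.1) e
    have e2 : p.2 + (a : ℕ) = q.2 + (b : ℕ) := congrArg (fun z : Om => z.2) e
    have h1 := h p hp q hq e1
    have h2 := h q hq p hp e1.symm
    have := a.2; have := b.2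
    have e3 : p.2 = q.2 := by omega
    have e4 : p = q := Prod.ext e1 e3
    subst e4
    have : a = b := Fin.ext (by omega)
    rw [this]⟩

def fibH (K : ℕ) (R : Set Om) : (Om → Perm (Fin K)) →* Perm (R × Fin K) where
  toFun f := Equiv.prodCongrRight (fun p : R => f p)
  map_one' := by ext x <;> rfl
  map_mul' f g := by ext x <;> rfl

noncomputable def E {K : ℕ} {R : Set Om} (h : Sparse K R) : (Om → Perm (Fin K)) →* Perm Om :=
  (viaEmbeddingHom (emb h)).comp (fibH K R)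

lemma E_app {K : ℕ} {R : Set Om} (h : Sparse K R) (f : Om → Perm (Fin K)) {p : Om} (hp : p ∈ R)
    (a : Fin K) : E h f (sh p a) = sh p (f p a) :=
  viaEmbedding_apply (fibH K R f) (emb h) (⟨p, hp⟩, a)

lemma E_fix {K : ℕ} {R : Set Om} (h : Sparse K R) (f : Om → Perm (Fin K)) {ω : Om}
    (hω : ¬ ∃ p ∈ R, ∃ a : Fin K, ω = sh p a) : E h f ω = ω := by
  apply viaEmbedding_apply_of_notMem
  rintro ⟨⟨⟨p, hp⟩, a⟩, e⟩
  exact hω ⟨p, hp, a, e.symm⟩

lemma E_congr {K : ℕ} {R : Set Om} (h : Sparse K R) {f g : Om → Perm (Fin K)}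
    (hfg : ∀ p ∈ R, f p = g p) : E h f = E h g := by
  ext1 ω
  by_cases hω : ∃ p ∈ R, ∃ a : Fin K, ω = sh p a
  · obtain ⟨p, hp, a, rfl⟩ := hω
    rw [E_app h f hp, E_app h g hp, hfg p hp]
  · rw [E_fix h f hω, E_fix h g hω]

open Classical in
noncomputable def ind {K : ℕ} (P : Set Om) : Perm (Fin K) →* (Om → Perm (Fin K)) where
  toFun σ := fun p => if p ∈ P then σ else 1
  map_one' := by funext p; simp
  map_mul' σ τ := by funext p; by_cases h : p ∈ P <;> simp [h]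

lemma ind_pos {K : ℕ} {P : Set Om} (σ : Perm (Fin K)) {p : Om} (h : p ∈ P) : ind P σ p = σ :=
  if_pos h
lemma ind_neg {K : ℕ} {P : Set Om} (σ : Perm (Fin K)) {p : Om} (h : p ∉ P) : ind P σ p = 1 :=
  if_neg h

def cyc {K : ℕ} (d : ℕ) (hd : d + 2 < K) : Perm (Fin K) :=
  swap (⟨d, by omega⟩ : Fin K) ⟨d + 1, by omega⟩ * swap ⟨d + 1, by omega⟩ ⟨d + 2, hd⟩

lemma cyc_val {K : ℕ} (d : ℕ) (hd : d + 2 < K) (a : Fin K) :
    (cyc d hd a).val = if a.val = d then d + 1 else if a.val = d + 1 then d + 2 else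
      if a.val = d + 2 then d else a.val := by
  simp only [cyc, Perm.mul_apply, swap_apply_def, Fin.ext_iff]
  split_ifs <;> simp_all

lemma cyc_mem {K : ℕ} (d : ℕ) (hd : d + 2 < K) : cyc d hd ∈ alternatingGroup (Fin K) := by
  rw [mem_alternatingGroup, cyc, Perm.sign_mul, sign_swap (by simp [Fin.ext_iff]),
    sign_swap (by simp [Fin.ext_iff])]; simp

lemma cyc_ne {K : ℕ} (d : ℕ) (hd : d + 2 < K) : cyc d hd ≠ 1 := by
  intro h
  have := cyc_val d hd ⟨d, by omega⟩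
  rw [h] at this; simp at this

lemma cyc_pow {K : ℕ} (d : ℕ) (hd : d + 2 < K) : cyc d hd ^ 3 = 1 := by
  ext a
  simp only [pow_succ, pow_zero, one_mul, Perm.mul_apply, cyc_val, Perm.one_apply]
  split_ifs <;> omega

def shS (P : Set Om) (d : ℤ) : Set Om := {ω | sh ω (-d) ∈ P}

@[simp] lemma mem_shS {P : Set Om} {d : ℤ} {ω : Om} : ω ∈ shS P d ↔ sh ω (-d) ∈ P := Iff.rfl

lemma shS_shS (P : Set Om) (d e : ℤ) : shS (shS P d) e = shS P (d + e) := by
  ext ω; simp only [mem_shS, sh_sh]; rw [show -e + -d = -(d + e) by ring]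

def Cyc (P : Set Om) (g : Perm Om) : Prop :=
  (∀ p ∈ P, g p = sh p 1 ∧ g (sh p 1) = sh p 2 ∧ g (sh p 2) = p) ∧
    ∀ ω, ω ∉ P → sh ω (-1) ∉ P → sh ω (-2) ∉ P → g ω = ω

lemma Cyc.uniq {P : Set Om} {g g' : Perm Om} (h : Cyc P g) (h' : Cyc P g') : g = g' := by
  ext1 ω
  by_cases h0 : ω ∈ P
  · rw [(h.1 _ h0).1, (h'.1 _ h0).1]
  by_cases h1 : sh ω (-1) ∈ P
  · have a := (h.1 _ h1).2.1
    have b := (h'.1 _ h1).2.1
    simp only [sh_sh, neg_add_cancel, sh_zero] at a b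
    rw [a, b]
  by_cases h2 : sh ω (-2) ∈ P
  · have a := (h.1 _ h2).2.2
    have b := (h'.1 _ h2).2.2
    simp only [sh_sh, neg_add_cancel, sh_zero] at a b
    rw [a, b]
  rw [h.2 ω h0 h1 h2, h'.2 ω h0 h1 h2]

lemma E_cyc {K : ℕ} {R : Set Om} (h : Sparse K R) {P : Set Om} (hP : P ⊆ R) (d : ℕ)
    (hd : d + 2 < K) : Cyc (shS P d) (E h (ind P (cyc d hd))) := by
  constructor
  · intro q hq
    have hq' : sh q (-d) ∈ P := hq
    have k : ∀ (a : Fin K) (t : ℤ), (a : ℕ) = d + t →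
        E h (ind P (cyc d hd)) (sh q t) = sh q (((cyc d hd a).val : ℤ) - d) := by
      intro a t ha
      have := E_app h (ind P (cyc d hd)) (hP hq') a
      rw [ind_pos _ hq', sh_sh, sh_sh, ha] at this
      rw [show t = -(d : ℤ) + (d + t) by ring, this]; congr 1; ring
    have k0 := k ⟨d, by omega⟩ 0 (by simp)
    have k1 := k ⟨d + 1, by omega⟩ 1 (by simp)
    have k2 := k ⟨d + 2, by omega⟩ 2 (by simp)
    rw [cyc_val] at k0 k1 k2
    simp at k0 k1 k2
    exact ⟨k0, k1, k2⟩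
  · intro ω h0 h1 h2
    by_cases hω : ∃ p ∈ R, ∃ a : Fin K, ω = sh p a
    · obtain ⟨p, hp, a, rfl⟩ := hω
      rw [E_app h _ hp]
      by_cases hpP : p ∈ P
      · rw [ind_pos _ hpP, cyc_val]
        simp only [mem_shS, sh_sh] at h0 h1 h2
        have n0 : a.val ≠ d := fun e => h0 (by rw [e]; simpa using hpP)
        have n1 : a.val ≠ d + 1 := fun e => h1 (by rw [e]; simpa using hpP)
        have n2 : a.val ≠ d + 2 := fun e => h2 (by rw [e]; simpa using hpP)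
        simp [n0, n1, n2]
      · rw [ind_neg _ hpP]; rfl
    · exact E_fix h _ hω

/-- period doubling sequence -/
def pd (n : ℕ) : Bool := if h : n = 0 then false else if n % 2 = 1 then false else !(pd (n / 2))
decreasing_by omega

lemma pd_odd {n : ℕ} (h : n % 2 = 1) : pd n = false := by
  rw [pd]; simp [h]

lemma pd_even {n : ℕ} (h : 0 < n) : pd (2 * n) = !(pd n) := by
  rw [pd]
  have : 2 * n ≠ 0 := by omega
  simp [this]

lemma pd_aper (q : ℕ) : 0 < q → ∃ L, ∀ x, ∃ n, x < n ∧ n ≤ x + L ∧ pd n ≠ pd (n + q) := by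
  induction q using Nat.strong_induction_on with
  | _ q ih =>
    intro hq
    by_cases h : q % 2 = 1
    · refine ⟨6, fun x => ⟨2 * (2 * (x / 4 + 1) - 1 + 2 * (if x % 4 < 2 then 0 else 1)), ?_, ?_, ?_⟩⟩
      · split_ifs <;> omega
      · split_ifs <;> omega
      · rw [pd_even (by omega), pd_odd (by omega), pd_odd (by omega)]; simp
    · obtain ⟨L, hL⟩ := ih (q / 2) (by omega) (by omega)
      refine ⟨2 * L + 2, fun x => ?_⟩
      obtain ⟨n, h1, h2, h3⟩ := hL (x / 2)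
      refine ⟨2 * n, by omega, by omega, ?_⟩
      rw [show 2 * n + q = 2 * (n + q / 2) by omega, pd_even (by omega), pd_even (by omega)]
      simpa using h3

lemma pd_aper' (K : ℕ) : ∃ L, K ≤ L ∧ ∀ q, 0 < q → q < K →
    ∀ x, ∃ n, x < n ∧ n ≤ x + L ∧ pd n ≠ pd (n + q) := by
  induction K with
  | zero => exact ⟨0, le_rfl, fun q _ h => absurd h (by omega)⟩
  | succ K ih =>
    obtain ⟨L, h1, h2⟩ := ih
    by_cases hK : K = 0
    · exact ⟨1, by omega, fun q _ _ => by omega⟩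
    obtain ⟨L', hL'⟩ := pd_aper K (by omega)
    refine ⟨L + L' + 1, by omega, fun q hq hqK x => ?_⟩
    by_cases e : q = K
    · subst e
      obtain ⟨n, a, b, c⟩ := hL' x
      exact ⟨n, a, by omega, c⟩
    · obtain ⟨n, a, b, c⟩ := h2 q hq (by omega) x
      exact ⟨n, a, by omega, c⟩

end Pool.Agent.H73.SG
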