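import Pool.Agent.H73.SG1

set_option autoImplicit false

namespace Pool.Agent.H73.SG

open Equiv

abbrev Alt (k : ℕ) := alternatingGroup (Fin k)

structure Sys (D : Type) [Group D] (m : ℕ → ℕ) where
  p : ∀ i, D →* Alt (m i)
  ι : ∀ i, Alt (m i) →* D
  pι : ∀ i a, p i (ι i a) = a
  pι' : ∀ i l a, l ≠ i → p l (ι i a) = 1
  fac : ∀ (Y : Type) [Finite Y] (φ : D →* Perm Y) (I : ℕ), Nat.card Y < m I →
    ∀ g, (∀ i < I, p i g = 1) → φ g = 1

end Pool.Agent.H73.SG
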