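import Pool.Agent.H73.SG2
import Pool.Agent.H73.SGDefs

set_option autoImplicit false

namespace Pool.Agent.H73.SG

open Equiv Equiv.Perm

def Rr (r : ZMod 5) : Set Om := {p | ((p.2 : ℤ) : ZMod 5) = r}

lemma Rr_sparse (r : ZMod 5) : Sparse 5 (Rr r) := by
  intro p hp q hq _ h
  have : ((p.2 : ℤ) : ZMod 5) = ((q.2 : ℤ) : ZMod 5) := hp.trans hq.symm
  rw [ZMod.intCast_eq_intCast_iff_dvd_sub] at this
  omega

noncomputable abbrev E5 (r : ZMod 5) := E (Rr_sparse r)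

lemma shS_Rr {P : Set Om} {r : ZMod 5} (h : P ⊆ Rr r) (d : ℤ) : shS P d ⊆ Rr (r + d) := by
  intro ω hω
  have := h hω
  simp only [Rr, Set.mem_ofPred_eq, sh_snd] at this ⊢
  rw [← this]; push_cast; ring

variable (m : ℕ → ℕ)

def V : Set Om := {p | 0 ≤ p.2 ∧ p.2 + 5 ≤ m p.1}
def Wd : Set Om := {p | pd p.2.toNat = true}
def GP (b : Bool) : Set Om := if b then Wd ∩ V m else V m

def Gen : Set (Perm Om) :=
  Set.range (fun x : ZMod 5 × Bool × Alt 5 => E5 x.1 (ind (GP m x.2.1) (x.2.2 : Perm (Fin 5))))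

def Del : Subgroup (Perm Om) := Subgroup.closure (Gen m)

def HasZ (Z : Subgroup (Perm Om)) (P : Set Om) : Prop :=
  ∀ r, ∀ σ ∈ alternatingGroup (Fin 5), E5 r (ind P σ) ∈ Z

def HB (A : Set Om) : Prop := HasZ (Del m) (A ∩ V m)

variable {m}

lemma E5_inter (r : ZMod 5) (P : Set Om) (σ : Perm (Fin 5)) :
    E5 r (ind (P ∩ Rr r) σ) = E5 r (ind P σ) := by
  apply E_congr
  intro p hp
  by_cases h : p ∈ P
  · rw [ind_pos _ h, ind_pos _ (show p ∈ P ∩ Rr r from ⟨h, hp⟩)]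
  · rw [ind_neg _ h, ind_neg _ (fun h' : p ∈ P ∩ Rr r => h h'.1)]

lemma keyN {Z : Subgroup (Perm Om)} {P Q : Set Om} {r : ZMod 5} {σ : Perm (Fin 5)}
    (h1 : σ ∈ alternatingGroup (Fin 5)) (h2 : σ ≠ 1) (hP : E5 r (ind P σ) ∈ Z) (hQ : HasZ Z Q) :
    ∀ τ ∈ alternatingGroup (Fin 5), E5 r (ind (P ∩ Q) τ) ∈ Z := by
  have := alternatingGroup.isSimpleGroup (α := Fin 5) (by simp)
  set N : Subgroup (Alt 5) :=
    Z.comap (((E5 r).comp (ind (P ∩ Q))).comp (alternatingGroup (Fin 5)).subtype) with hN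
  have mN : ∀ τ : Alt 5, τ ∈ N ↔ E5 r (ind (P ∩ Q) (τ : Perm (Fin 5))) ∈ Z := fun τ => Iff.rfl
  have hn : N.Normal := ⟨fun τ hτ u => by
    rw [mN] at hτ ⊢
    have : ind (P ∩ Q) ((u * τ * u⁻¹ : Alt 5) : Perm (Fin 5)) =
        ind Q (u : Perm (Fin 5)) * ind (P ∩ Q) (τ : Perm (Fin 5)) * (ind Q (u : Perm (Fin 5)))⁻¹ := by
      funext p
      by_cases a : p ∈ P <;> by_cases b : p ∈ Q <;> simp [ind, a, b]
    rw [this, map_mul, map_mul, map_inv]
    exact Z.mul_mem (Z.mul_mem (hQ r _ u.2) hτ) (Z.inv_mem (hQ r _ u.2))⟩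
  rcases hn.eq_bot_or_eq_top with h | h
  · exfalso
    have hc : (⟨σ, h1⟩ : Alt 5) ∈ Subgroup.center (Alt 5) := by
      rw [Subgroup.mem_center_iff]
      intro u
      have : (⟨σ, h1⟩ * u * (⟨σ, h1⟩ : Alt 5)⁻¹ * u⁻¹) ∈ N := by
        rw [mN]
        have : ind (P ∩ Q) ((⟨σ, h1⟩ * u * (⟨σ, h1⟩ : Alt 5)⁻¹ * u⁻¹ : Alt 5) : Perm (Fin 5)) =
            ind P σ * ind Q (u : Perm (Fin 5)) * (ind P σ)⁻¹ * (ind Q (u : Perm (Fin 5)))⁻¹ := by
          funext p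
          by_cases a : p ∈ P <;> by_cases b : p ∈ Q <;> simp [ind, a, b]
        rw [this, map_mul, map_mul, map_mul, map_inv, map_inv]
        exact Z.mul_mem (Z.mul_mem (Z.mul_mem hP (hQ r _ u.2)) (Z.inv_mem hP))
          (Z.inv_mem (hQ r _ u.2))
      rw [h, Subgroup.mem_bot, mul_inv_eq_one, mul_inv_eq_iff_eq_mul] at this
      exact this.symm
    rw [alternatingGroup.center_eq_bot (by simp), Subgroup.mem_bot] at hc
    exact h2 (congrArg Subtype.val hc)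
  · intro τ hτ
    exact (mN ⟨τ, hτ⟩).mp (by rw [h]; trivial)

lemma HasZ.union {Z : Subgroup (Perm Om)} {P Q : Set Om} (hP : HasZ Z P) (hQ : HasZ Z Q)
    (hd : Disjoint P Q) : HasZ Z (P ∪ Q) := by
  intro r σ hσ
  have : ind (P ∪ Q) σ = ind P σ * ind Q σ := by
    funext p
    by_cases a : p ∈ P <;> by_cases b : p ∈ Q
    · exact absurd b (Set.disjoint_left.mp hd a)
    all_goals simp [ind, a, b]
  rw [this, map_mul]; exact Z.mul_mem (hP r σ hσ) (hQ r σ hσ)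

lemma hasZ_empty (Z : Subgroup (Perm Om)) : HasZ Z ∅ := by
  intro r σ _
  have : ind (∅ : Set Om) σ = 1 := by funext p; simp [ind]
  rw [this, map_one]; exact Z.one_mem

lemma hasV : HasZ (Del m) (V m) := fun r σ hσ =>
  Subgroup.subset_closure ⟨(r, false, ⟨σ, hσ⟩), rfl⟩

lemma HB.congr {A B : Set Om} (h : HB m A) (e : ∀ p ∈ V m, p ∈ A ↔ p ∈ B) : HB m B := by
  have : B ∩ V m = A ∩ V m := by
    ext p; exact ⟨fun h => ⟨(e p h.2).mpr h.1, h.2⟩, fun h => ⟨(e p h.2).mp h.1, h.2⟩⟩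
  unfold HB; rw [this]; exact h

lemma hb_univ : HB m Set.univ := by unfold HB; rw [Set.univ_inter]; exact hasV

lemma hb_W : HB m Wd := fun r σ hσ => Subgroup.subset_closure ⟨(r, true, ⟨σ, hσ⟩), rfl⟩

lemma HB.inter {A B : Set Om} (hA : HB m A) (hB : HB m B) : HB m (A ∩ B) := by
  intro r τ hτ
  have := keyN (cyc_mem 0 (by norm_num)) (cyc_ne 0 (by norm_num))
    (hA r _ (cyc_mem 0 (by norm_num))) hB τ hτ
  rw [show A ∩ B ∩ V m = A ∩ V m ∩ (B ∩ V m) by ext; simp; tauto]; exact this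

lemma HB.compl {A : Set Om} (hA : HB m A) : HB m Aᶜ := by
  intro r σ hσ
  have : ind (Aᶜ ∩ V m) σ = ind (V m) σ * (ind (A ∩ V m) σ)⁻¹ := by
    funext p
    by_cases a : p ∈ A <;> by_cases b : p ∈ V m <;> simp [ind, a, b]
  rw [this, map_mul, map_inv]
  exact (Del m).mul_mem (hasV r σ hσ) ((Del m).inv_mem (hA r σ hσ))

lemma HB.union {A B : Set Om} (hA : HB m A) (hB : HB m B) : HB m (A ∪ B) := by
  have := (hA.compl.inter hB.compl).compl
  rwa [← Set.compl_union, compl_compl] at this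

lemma hb_empty : HB m ∅ := by have := (hb_univ (m := m)).compl; rwa [Set.compl_univ] at this

lemma hb_iInter {β : Type} (s : Finset β) (f : β → Set Om) (h : ∀ b ∈ s, HB m (f b)) :
    HB m {p | ∀ b ∈ s, p ∈ f b} := by
  classical
  induction s using Finset.induction_on with
  | empty => exact hb_univ.congr (by simp)
  | insert a s _ ih =>
    exact ((h a (by simp)).inter (ih (fun b hb => h b (by simp [hb])))).congr (by simp)

lemma hb_iUnion {β : Type} (s : Finset β) (f : β → Set Om) (h : ∀ b ∈ s, HB m (f b)) :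
    HB m {p | ∃ b ∈ s, p ∈ f b} :=
  (hb_iInter s (fun b => (f b)ᶜ) (fun b hb => (h b hb).compl)).compl.congr (by simp)

lemma E5_cyc_shift {P : Set Om} {r : ZMod 5} (hP : P ⊆ Rr r) (d : ℤ) (e e' : ℕ) (he : e + 2 < 5)
    (he' : e' + 2 < 5) (h : (e : ℤ) = d + e') :
    E5 r (ind P (cyc e he)) = E5 (r + d) (ind (shS P d) (cyc e' he')) := by
  refine (E_cyc _ hP e he).uniq ?_
  have := E_cyc (Rr_sparse _) (shS_Rr hP d) e' he'
  rwa [shS_shS, ← h] at this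

lemma HB.shift1 {A : Set Om} (hA : HB m A) (d : ℤ) (e e' : ℕ) (he : e + 2 < 5)
    (he' : e' + 2 < 5) (h : (e : ℤ) = d + e') : HB m (shS (A ∩ V m) d) := by
  intro r τ hτ
  have h1 := hA (r - d) _ (cyc_mem e he)
  rw [← E5_inter, E5_cyc_shift Set.inter_subset_right d e e' he he' h, sub_add_cancel] at h1
  have := keyN (cyc_mem e' he') (cyc_ne e' he') h1 hasV τ hτ
  rw [← E5_inter]
  suffices hh : shS (A ∩ V m) d ∩ V m ∩ Rr r = shS (A ∩ V m ∩ Rr (r - ↑d)) d ∩ V m by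
    rw [hh]; exact this
  ext p
  simp only [Set.mem_inter_iff, mem_shS, Rr, Set.mem_ofPred_eq, sh_snd]
  push_cast
  constructor
  · rintro ⟨⟨a, b⟩, c⟩; exact ⟨⟨a, by rw [c]; ring⟩, b⟩
  · rintro ⟨⟨a, b⟩, c⟩; exact ⟨⟨a, c⟩, by linear_combination b⟩

lemma HB.shift {A : Set Om} (hA : HB m A) (d : ℤ) : HB m (shS (A ∩ V m) d) := by
  induction d using Int.induction_on with
  | zero => exact hA.congr (by intro p hp; simp [hp])
  | succ d ih =>
    refine (ih.shift1 1 1 0 (by norm_num) (by norm_num) (by norm_num)).congr ?_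
    intro p hp
    simp only [Set.mem_inter_iff, mem_shS, sh_sh, V, Set.mem_ofPred_eq, sh_snd, sh_fst] at hp ⊢
    rw [show (-1 : ℤ) + -(d : ℤ) = -((d : ℤ) + 1) by ring]
    constructor
    · tauto
    · rintro ⟨a, b, c⟩; exact ⟨⟨a, b, c⟩, by omega, by omega⟩
  | pred d ih =>
    refine (ih.shift1 (-1) 0 1 (by norm_num) (by norm_num) (by norm_num)).congr ?_
    intro p hp
    simp only [Set.mem_inter_iff, mem_shS, sh_sh, V, Set.mem_ofPred_eq, sh_snd, sh_fst] at hp ⊢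
    rw [show (- -1 : ℤ) + - -(d : ℤ) = -(-(d : ℤ) - 1) by ring]
    constructor
    · tauto
    · rintro ⟨a, b, c⟩; exact ⟨⟨a, b, c⟩, by omega, by omega⟩

lemma hb_V (d : ℤ) : HB m (shS (V m) d) := by
  have := (hb_univ (m := m)).shift d; rwa [Set.univ_inter] at this

lemma hb_single (hm : Function.Injective m) (h5 : ∀ i, 5 ≤ m i) (i : ℕ) (x : ℤ) :
    HB m {(i, x)} := by
  have h0 : HB m {(i, 0)} := by
    refine (((hb_V 1).compl).inter ((hb_V (-1)).compl.shift (5 - m i))).congr ?_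
    rintro ⟨j, y⟩ hp
    have := h5 i
    simp only [Set.mem_inter_iff, mem_shS, sh_sh, V, Set.mem_ofPred_eq, sh_snd, sh_fst,
      Set.mem_compl_iff, Set.mem_singleton_iff, Prod.mk.injEq] at hp ⊢
    constructor
    · rintro ⟨a, b, c⟩
      exact ⟨hm (by omega), by omega⟩
    · rintro ⟨rfl, rfl⟩; omega
  refine (h0.shift x).congr ?_
  rintro ⟨j, y⟩ _
  have := h5 i
  simp only [Set.mem_inter_iff, mem_shS, V, Set.mem_ofPred_eq, sh,
      Set.mem_singleton_iff, Prod.mk.injEq]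
  constructor
  · rintro ⟨⟨a, b⟩, _⟩; exact ⟨a, by omega⟩
  · rintro ⟨rfl, rfl⟩; omega

lemma hb_lt (hm : Function.Injective m) (h5 : ∀ i, 5 ≤ m i) (I : ℕ) : HB m {p | p.1 < I} := by
  refine (hb_iUnion (Finset.range I) (fun i => {p | ∃ x ∈ Finset.range (m i),
    p ∈ ({(i, ((x : ℕ) : ℤ))} : Set Om)})
    (fun i _ => hb_iUnion _ _ (fun x _ => hb_single hm h5 i x))).congr ?_
  rintro ⟨j, y⟩ hp
  simp only [V, Set.mem_ofPred_eq, Finset.mem_range, Set.mem_singleton_iff, Prod.mk.injEq] at hp ⊢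
  constructor
  · rintro ⟨i, hi, x, _, rfl, _⟩; exact hi
  · intro h; exact ⟨j, h, y.toNat, by omega, rfl, by omega⟩

lemma bigwin {K : ℕ} (hK : 5 ≤ K) {P : Set Om} (hs : Sparse K P) {r : ZMod 5} (hr : P ⊆ Rr r)
    (hv : ∀ p ∈ P, 0 ≤ p.2 ∧ p.2 + K ≤ m p.1) (hP : HB m P) :
    ∀ σ ∈ alternatingGroup (Fin K), E hs (ind P σ) ∈ Del m := by
  refine consec (M := (Del m).comap ((E hs).comp (ind P))) (by omega) ?_
  intro d hd
  show E hs (ind P (cyc d hd)) ∈ Del m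
  have he : d - min d (K - 5) + 2 < 5 := by omega
  have h1 := hP.shift ((min d (K - 5) : ℕ) : ℤ) (r + ((min d (K - 5) : ℕ) : ℤ)) _ (cyc_mem _ he)
  have e : shS (P ∩ V m) ((min d (K - 5) : ℕ) : ℤ) ∩ V m = shS P ((min d (K - 5) : ℕ) : ℤ) := by
    ext p
    simp only [Set.mem_inter_iff, mem_shS, V, Set.mem_ofPred_eq, sh_snd, sh_fst]
    constructor
    · tauto
    · intro h
      have := hv _ h
      simp only [sh_snd, sh_fst] at this
      exact ⟨⟨h, by omega, by omega⟩, by omega, by omega⟩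
  rw [e] at h1
  have h2 := E_cyc (Rr_sparse _) (shS_Rr hr ((min d (K - 5) : ℕ) : ℤ)) _ he
  rw [shS_shS, show ((min d (K - 5) : ℕ) : ℤ) + ((d - min d (K - 5) : ℕ) : ℤ) = d by omega] at h2
  rw [(E_cyc hs subset_rfl d hd).uniq h2]; exact h1

end Pool.Agent.H73.SG
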