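import Pool.Agent.H73.SG6
import Pool.Agent.H73.SG2

set_option autoImplicit false

namespace Pool.Agent.H73.SG

open Equiv Equiv.Perm Finset

lemma big_cnt {k : ℕ} (hk : 5 ≤ k) (T : Finset (Subgroup (Alt k)))
    (h : ∀ H ∈ T, ∃ B : Finset (Fin k), k ≤ B.card + 1 ∧
      Good (H.map (Alt k).subtype) (B : Set (Fin k))) : T.card ≤ k + 1 := by
  classical
  let f : Option (Fin k) → Subgroup (Alt k) := fun o => o.elim ⊤ (fun x => stab (Alt k).subtype x)
  have top : ∀ H : Subgroup (Alt k),
      Good (H.map (Alt k).subtype) ((univ : Finset (Fin k)) : Set (Fin k)) → H = ⊤ := by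
    intro H hH
    rw [eq_top_iff]; intro a _
    obtain ⟨b, hb, e⟩ := good_univ (by simpa using hH) a.2
    rwa [← Subtype.ext e]
  have : T ⊆ univ.image f := by
    intro H hH
    obtain ⟨B, hB, hg⟩ := h H hH
    rw [Finset.mem_image]
    by_cases c : B = univ
    · subst c; exact ⟨none, mem_univ _, (top H hg).symm⟩
    obtain ⟨x, hx⟩ : ∃ x, x ∉ B := by
      by_contra c2; push Not at c2; exact c (Finset.eq_univ_of_forall c2)
    have hB2 : B = univ.erase x := by
      apply Finset.eq_of_subset_of_card_le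
      · intro y hy; simp; rintro rfl; exact hx hy
      · simp; omega
    by_cases c2 : H ≤ stab (Alt k).subtype x
    · refine ⟨some x, mem_univ _, le_antisymm ?_ c2⟩
      intro a ha
      have ha' : a.1 x = x := ha
      obtain ⟨b, hb, e⟩ := good_mem hg a.2 (by
        rw [hB2]; intro y hy; simp at hy ⊢; rintro rfl; exact hy ha')
      rwa [← Subtype.ext e]
    · obtain ⟨a, ha, hx2⟩ := SetLike.not_le_iff_exists.mp c2
      have hx3 : a.1 x ≠ x := hx2
      have g2 := hg.conj (M' := H.map (Alt k).subtype) a.1 (by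
        rintro _ ⟨b, hb, rfl⟩
        exact ⟨a * b * a⁻¹, H.mul_mem (H.mul_mem ha hb) (H.inv_mem ha), rfl⟩)
      have e2 : B.image a.1 = univ.erase (a.1 x) := by
        rw [hB2, Finset.image_erase a.1.injective, Finset.image_univ_of_surjective a.1.surjective]
      obtain ⟨z, hz⟩ : ((univ.erase x).erase (a.1 x)).Nonempty := by
        rw [← Finset.card_pos]
        have := Finset.pred_card_le_card_erase (s := univ.erase x) (a := a.1 x)
        simp at this; omega
      simp at hz
      have g3 := mergeF hg g2 (by omega) (by rw [e2]; simp; omega) (z := z)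
        (by rw [hB2]; simp [hz.2]) (by rw [e2]; simp [hz.1])
      refine ⟨none, mem_univ _, (top H ?_).symm⟩
      convert g3 using 2
      rw [e2, hB2]
      ext y; simp
      by_cases c3 : y = x
      · right; rw [c3]; exact hx3.symm
      · left; exact c3
  refine (Finset.card_le_card this).trans (Finset.card_image_le.trans (by simp))

lemma hom_cnt {k : ℕ} (hk : 3 ≤ k) (ho : Odd k) (j : ℕ) :
    Nat.card (Alt k →* Perm (Fin j)) ≤ j.factorial * Nat.card {b : Perm (Fin j) // b ^ 3 = 1} := by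
  obtain ⟨n, rfl⟩ : ∃ n, k = n + 1 := ⟨k - 1, by omega⟩
  let r : Alt (n + 1) := ⟨finRotate (n + 1), by
    rw [mem_alternatingGroup, sign_finRotate]
    exact Even.neg_one_pow (by simpa [Nat.odd_add_one] using ho)⟩
  let c : Alt (n + 1) := ⟨cyc 0 (by omega), cyc_mem _ _⟩
  have hc : c ^ 3 = 1 := Subtype.ext (cyc_pow _ _)
  have gen : Subgroup.closure {r, c} = ⊤ := by
    rw [eq_top_iff]; intro a _
    have key : ∀ d : ℕ, ∀ hd : d + 2 < n + 1,
        cyc d hd ∈ (Subgroup.closure {r, c}).map (Alt (n + 1)).subtype := by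
      intro d
      induction d with
      | zero => intro hd; exact ⟨c, Subgroup.subset_closure (by simp), rfl⟩
      | succ d ih =>
        intro hd
        have hr : finRotate (n + 1) ∈ (Subgroup.closure {r, c}).map (Alt (n + 1)).subtype :=
          ⟨r, Subgroup.subset_closure (by simp), rfl⟩
        have := Subgroup.mul_mem _ (Subgroup.mul_mem _ hr (ih (by omega))) (Subgroup.inv_mem _ hr)
        convert this using 1
        unfold cyc
        have cj : ∀ (f : Perm (Fin (n + 1))) (x y z : Fin (n + 1)), f * (swap x y * swap y z) * f⁻¹ =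
            swap (f x) (f y) * swap (f y) (f z) := by
          intro f x y z; rw [swap_apply_apply, swap_apply_apply]; group
        rw [cj, finRotate_of_lt (k := d) (by omega), finRotate_of_lt (k := d + 1) (by omega),
          finRotate_of_lt (k := d + 2) (by omega)]
    obtain ⟨b, hb, e⟩ := consec hk key a.2
    rwa [← Subtype.ext e]
  have := Nat.card_le_card_of_injective
    (fun φ : Alt (n + 1) →* Perm (Fin j) =>
      (φ r, (⟨φ c, by rw [← map_pow, hc, map_one]⟩ : {b : Perm (Fin j) // b ^ 3 = 1}))) (by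
      intro φ ψ e
      simp only [Prod.mk.injEq, Subtype.mk.injEq] at e
      refine MonoidHom.eq_of_eqOn_dense gen ?_
      rintro x (rfl | rfl)
      · exact e.1
      · exact e.2)
  simpa [Nat.card_prod, Nat.card_perm, Fintype.card_perm] using this

lemma card_le_sub {β : Type} {p : β → Prop} [Finite {x // p x}] (T : Finset β) (h : ∀ x ∈ T, p x) :
    T.card ≤ Nat.card {x // p x} := by
  have := Nat.card_le_card_of_injective (fun x : T => (⟨x.1, h x.1 x.2⟩ : {x // p x})) (by
    intro x y e; exact Subtype.ext (congrArg (fun z : {x // p x} => z.1) e))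
  simpa using this

lemma all_cnt {k : ℕ} (hk : 3 ≤ k) (ho : Odd k) {j : ℕ} {N : ℝ} (hN : 1 ≤ N) (hj : (j : ℝ) ≤ N)
    (T : Finset (Subgroup (Alt k))) (h : ∀ H ∈ T, H.index ≤ j) :
    (T.card : ℝ) ≤ j * (j * (2 ^ j * N ^ ((2 / 3 : ℝ) * j))) := by
  classical
  rw [Finset.card_eq_sum_card_fiberwise (f := Subgroup.index) (t := Icc 1 j) (fun H hH => by
    simp [h H hH, Nat.one_le_iff_ne_zero, Subgroup.index_ne_zero_of_finite])]
  push_cast
  refine le_trans (Finset.sum_le_card_nsmul _ _ (j * (2 ^ j * N ^ ((2 / 3 : ℝ) * j))) ?_) (by simp)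
  intro i hi
  rw [mem_Icc] at hi
  have := fin_hom (Alt k) (Perm (Fin i))
  obtain ⟨f, h1⟩ := L1 (Alt k) (j := i) hi.1
  have h2 := card_le_sub (p := fun H : Subgroup (Alt k) => H.index = i)
    (T.filter (fun H => H.index = i)) (fun H hH => (mem_filter.mp hH).2)
  have h3 := hom_cnt hk ho i
  have h4 : (T.filter (fun H => H.index = i)).card ≤
      i * Nat.card {b : Perm (Fin i) // b ^ 3 = 1} := by
    apply Nat.le_of_mul_le_mul_right _ (Nat.factorial_pos i)
    calc _ ≤ _ := Nat.mul_le_mul_right _ h2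
      _ ≤ _ := h1
      _ ≤ _ := Nat.mul_le_mul_right _ h3
      _ = _ := by ring
  have hi2 : (i : ℝ) ≤ j := by exact_mod_cast hi.2
  have h5 := L4 hN (hi2.trans hj)
  calc _ ≤ (i : ℝ) * Nat.card {b : Perm (Fin i) // b ^ 3 = 1} := by exact_mod_cast h4
    _ ≤ i * (2 ^ i * N ^ ((2 / 3 : ℝ) * i)) := by gcongr
    _ ≤ _ := by gcongr <;> first | exact hi.2 | norm_num

section sys
variable {D : Type} [Group D] {m : ℕ → ℕ} (X : Sys D m)

lemma fib_cnt {I : ℕ} (H0 : Subgroup (Alt (m I))) (T : Finset (Subgroup D))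
    (h : ∀ H ∈ T, H.index ≠ 0 ∧ H.index < m (I + 1) ∧ H.comap (X.ι I) = H0) :
    T.card ≤ (H0.index + 1) ^ Nat.card (∀ i : Fin I, Alt (m i)) := by
  classical
  let pq : D → ∀ i : Fin I, Alt (m i) := fun g i => X.p i g
  let F : Subgroup D → (∀ i : Fin I, Alt (m i)) → Option (Alt (m I) ⧸ H0) := fun H q =>
    if hh : ∃ g ∈ H, pq g = q then some (X.p I hh.choose : Alt (m I) ⧸ H0) else none
  have key : ∀ H ∈ T, ∀ g, g ∈ H ↔ F H (pq g) = some (X.p I g : Alt (m I) ⧸ H0) := by
    intro H hH g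
    obtain ⟨h0, h1, h2⟩ := h H hH
    have : Finite (D ⧸ H) := Nat.finite_of_card_ne_zero h0
    have k : ∀ g g', pq g = pq g' → (X.ι I ((X.p I g)⁻¹ * X.p I g'))⁻¹ * (g⁻¹ * g') ∈ H := by
      intro g g' e
      rw [← stab_act H, mem_stab, X.fac _ (act H) (I + 1) h1]
      · rfl
      intro i hi
      by_cases c : i = I
      · subst c; simp [X.pι]
      · have := congrFun e ⟨i, by omega⟩
        simp only [pq] at this
        rw [map_mul, map_inv, X.pι' I i _ c]; simp [this]
    by_cases hh : ∃ g' ∈ H, pq g' = pq g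
    · simp only [F, dif_pos hh, Option.some.injEq, QuotientGroup.eq]
      rw [← h2, Subgroup.mem_comap]
      have k2 := k _ _ hh.choose_spec.2
      constructor
      · intro hg
        have := H.mul_mem k2 (H.inv_mem (H.mul_mem (H.inv_mem hh.choose_spec.1) hg))
        rwa [mul_inv_cancel_right, inv_mem_iff] at this
      · intro hg
        have := H.mul_mem hh.choose_spec.1 (H.mul_mem hg k2)
        rwa [mul_inv_cancel_left, mul_inv_cancel_left] at this
    · simp only [F, dif_neg hh]
      exact ⟨fun hg => (hh ⟨g, hg, rfl⟩).elim, fun e => by simp at e⟩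
  have := Nat.card_le_card_of_injective (fun H : T => F H.1) (by
    intro H H' e
    apply Subtype.ext; ext g
    rw [key H.1 H.2, key H'.1 H'.2, show F H.1 = F H'.1 from e])
  rwa [Nat.card_fun, Finite.card_option, Nat.card_eq_fintype_card, Fintype.card_coe] at this

structure Par (m : ℕ → ℕ) (S : ∀ i, Finset (Fin (m i))) (ρ : ℝ) : Prop where
  mono : StrictMono m
  odd : ∀ i, Odd (m i)
  h5 : ∀ i, 5 ≤ (S i).card
  hs : ∀ i, (S i).card + 1 ≤ m i
  a : ∀ i, ((m i - (S i).card) / m i : ℝ) + 1 / (S i).card ≤ ρ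
  b : ∀ i, ((m i - (S i).card) / m i : ℝ) ^ 2 + 1 / (S i).card ≤ ρ - 2 / 15
  c : ∀ i, ρ - 7 / m i ≤ (m i - (S i).card) / m i
  r : 4 / 5 ≤ ρ
  gr : ∀ I j, m I ≤ j → (j + 1) ^ (Nat.card (∀ i : Fin I, Alt (m i))) ≤ 2 ^ j

lemma fib_cnt2 {S : ∀ i, Finset (Fin (m i))} {ρ : ℝ} (P : Par m S ρ) {I j : ℕ} (h1 : m I ≤ j)
    (h2 : j < m (I + 1)) (T : Finset (Subgroup D)) (h : ∀ H ∈ T, H.index = j) :
    open Classical in T.card ≤ 2 ^ j * (T.image (Subgroup.comap (X.ι I))).card := by
  classical
  have := P.hs I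
  apply Finset.card_le_mul_card_image
  intro H0 hH0
  obtain ⟨H, hH, rfl⟩ := Finset.mem_image.mp hH0
  refine (fib_cnt X (H.comap (X.ι I)) _ (fun K hK => ?_)).trans (le_trans ?_ (P.gr I j h1))
  · rw [mem_filter] at hK
    exact ⟨by rw [h K hK.1]; omega, by rw [h K hK.1]; exact h2, hK.2⟩
  · gcongr
    rw [Subgroup.index_comap, ← h H hH, ← Subgroup.relIndex_top_right]
    exact Subgroup.relIndex_le_of_le_right le_top (by simp [h H hH]; omega)

lemma sumH {S : ∀ i, Finset (Fin (m i))} {ρ : ℝ} (P : Par m S ρ) {j : ℕ} (hj : 1 ≤ j) {N : ℝ}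
    (hN : (j : ℝ) ≤ N) (T : Finset (Subgroup D)) (h : ∀ H ∈ T, H.index = j) :
    ∑ H ∈ T, N ^ ((j - 1 : ℝ) + 5 * cnum (CC X S) (act H) Set.univ) ≤
      32 ^ j * N ^ ((1 + 5 * ρ) * j) := by
  classical
  have hj' : (1 : ℝ) ≤ j := by exact_mod_cast hj
  have hN1 : 1 ≤ N := hj'.trans hN
  have hr := P.r
  by_cases c1 : j = 1
  · subst c1
    have : T ⊆ {⊤} := fun H hH => by simpa using h H hH
    refine (Finset.sum_le_sum_of_subset_of_nonneg this (fun _ _ _ => by positivity)).trans ?_
    rw [sum_singleton]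
    have : cnum (CC X S) (act (⊤ : Subgroup D)) Set.univ ≤ 1 :=
      cnum_le {((1 : D) : D ⧸ (⊤ : Subgroup D))} (fun x _ => ⟨_, mem_singleton_self _, 1,
        Subgroup.one_mem _, (QuotientGroup.subsingleton_quotient_top).elim _ _⟩)
    have t2 : (cnum (CC X S) (act (⊤ : Subgroup D)) Set.univ : ℝ) ≤ 1 := by exact_mod_cast this
    refine (Real.rpow_le_rpow_of_exponent_le hN1 (z := (1 + 5 * ρ) * (1 : ℕ))
      (by simp; linarith)).trans (le_mul_of_one_le_left (by positivity) (by norm_num))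
  have hex : ∃ I, j < m I := ⟨j + 1, P.mono.le_apply⟩
  have hI := Nat.find_spec hex
  have hnt : ∀ H ∈ T, H ≠ ⊤ := fun H hH e => c1 (by rw [← h H hH, e]; simp)
  rcases e : Nat.find hex with _ | I
  · rw [e] at hI
    have : T = ∅ := by
      rw [Finset.eq_empty_iff_forall_notMem]
      intro H hH
      apply hnt H hH
      have : Finite (D ⧸ H) := Nat.finite_of_card_ne_zero (by
        rw [← Subgroup.index_eq_card, h H hH]; omega)
      rw [eq_top_iff]; intro g _
      rw [← stab_act H, mem_stab, X.fac _ (act H) 0 (by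
        rw [← Subgroup.index_eq_card, h H hH]; exact hI) g (by simp)]; rfl
    rw [this]; simp; positivity
  have h1 : m I ≤ j := not_lt.mp (Nat.find_min hex (by omega))
  rw [e] at hI
  have k5 := P.h5 I
  have ks := P.hs I
  rw [← Finset.sum_filter_add_sum_filter_not T (Big X I)]
  have b1 : ∑ H ∈ T.filter (Big X I), N ^ ((j - 1 : ℝ) + 5 * cnum (CC X S) (act H) Set.univ) ≤
      (2 ^ j * 2 ^ j) * N ^ ((1 + 5 * ρ) * j) := by
    refine (Finset.sum_le_card_nsmul _ _ (N ^ ((1 + 5 * ρ) * j)) ?_).trans ?_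
    · intro H hH
      have hH := (mem_filter.mp hH).1
      obtain ⟨i, hi⟩ := ex_nt X H (by rw [h H hH]; omega) (by rw [h H hH]; exact hI) (hnt H hH)
      have := cn_a X S H (by rw [h H hH]; omega) (by rw [h H hH]; exact hI) i (P.h5 i) (P.hs i) hi
      rw [h H hH] at this
      have t2 := mul_le_mul_of_nonneg_right (P.a i) (show (0 : ℝ) ≤ j by positivity)
      exact Real.rpow_le_rpow_of_exponent_le hN1 (by linarith)
    · rw [nsmul_eq_mul]
      gcongr
      have t1 := fib_cnt2 X P h1 hI (T.filter (Big X I)) (fun H hH => h H (mem_filter.mp hH).1)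
      have t2 := big_cnt (k := m I) (by omega) ((T.filter (Big X I)).image (Subgroup.comap (X.ι I)))
        (by
          intro H0 hH0
          obtain ⟨H, hH, rfl⟩ := Finset.mem_image.mp hH0
          exact (mem_filter.mp hH).2)
      have t3 : j + 1 ≤ 2 ^ j := Nat.lt_two_pow_self
      have : (T.filter (Big X I)).card ≤ 2 ^ j * 2 ^ j :=
        t1.trans (Nat.mul_le_mul_left _ (by omega))
      exact_mod_cast this
  have b2 : ∑ H ∈ T.filter (fun H => ¬ Big X I H),
      N ^ ((j - 1 : ℝ) + 5 * cnum (CC X S) (act H) Set.univ) ≤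
      (2 ^ j * (2 ^ j * (2 ^ j * 2 ^ j))) * N ^ ((1 + 5 * ρ) * j) := by
    refine (Finset.sum_le_card_nsmul _ _ (N ^ ((1 + 5 * ρ) * j - (2 / 3 : ℝ) * j)) ?_).trans ?_
    · intro H hH
      obtain ⟨hH, hB⟩ := mem_filter.mp hH
      have := cn_b X S H (by rw [h H hH]; omega) (by rw [h H hH]; exact hI) I k5 ks hB
      rw [h H hH] at this
      have t2 := mul_le_mul_of_nonneg_right (P.b I) (show (0 : ℝ) ≤ j by positivity)
      exact Real.rpow_le_rpow_of_exponent_le hN1 (by linarith)
    · rw [nsmul_eq_mul]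
      have t1 := fib_cnt2 X P h1 hI (T.filter (fun H => ¬ Big X I H))
        (fun H hH => h H (mem_filter.mp hH).1)
      have t2 := all_cnt (k := m I) (by omega) (P.odd I) hN1 hN
        ((T.filter (fun H => ¬ Big X I H)).image (Subgroup.comap (X.ι I))) (by
          intro H0 hH0
          obtain ⟨H, hH, rfl⟩ := Finset.mem_image.mp hH0
          have hH := (mem_filter.mp hH).1
          rw [Subgroup.index_comap, ← h H hH, ← Subgroup.relIndex_top_right]
          exact Subgroup.relIndex_le_of_le_right le_top (by simp [h H hH]; omega))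
      have t3 : (j : ℝ) ≤ 2 ^ j := by exact_mod_cast Nat.lt_two_pow_self.le
      have t1' : ((T.filter (fun H => ¬ Big X I H)).card : ℝ) ≤ 2 ^ j *
        ((T.filter (fun H => ¬ Big X I H)).image (Subgroup.comap (X.ι I))).card := by
        exact_mod_cast t1
      calc _ ≤ (2 ^ j * (2 ^ j * (2 ^ j * (2 ^ j * N ^ ((2 / 3 : ℝ) * j))))) *
            N ^ ((1 + 5 * ρ) * j - (2 / 3 : ℝ) * j) := by
            gcongr
            refine t1'.trans (mul_le_mul_of_nonneg_left (t2.trans ?_) (by positivity))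
            gcongr
        _ = _ := by
          rw [Real.rpow_sub (by linarith)]
          have : N ^ ((2 / 3 : ℝ) * j) ≠ 0 := by positivity
          field_simp
  refine (add_le_add b1 b2).trans ?_
  rw [← add_mul]
  gcongr
  have t1 : (2 : ℝ) ≤ 2 ^ j := by
    calc (2 : ℝ) = 2 ^ 1 := by norm_num
      _ ≤ _ := by gcongr; norm_num
  rw [show (32 : ℝ) = 2 * 2 * 2 * 2 * 2 by norm_num]
  simp only [mul_pow]
  generalize (2 : ℝ) ^ j = t at *
  have : 0 ≤ t * t := by positivity
  have : 0 ≤ t * t * (t * t) := by positivity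
  have : 1 ≤ t * t := by nlinarith
  nlinarith

end sys

end Pool.Agent.H73.SG
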