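import Pool.Agent.H73.SG7

set_option autoImplicit false

namespace Pool.Agent.H73.SG

open Equiv Equiv.Perm Finset

section ind
variable {D : Type} [Group D] {n : ℕ}

noncomputable def res (φ : D →* Perm (Fin n)) (x : Fin n) : D →* Perm (Fin n) where
  toFun g := ⟨fun y => if y ∈ orb φ x then y else φ g y, fun y => if y ∈ orb φ x then y else φ g⁻¹ y,
    fun y => by by_cases h : y ∈ orb φ x <;> simp [h, orb_inv],
    fun y => by
      by_cases h : y ∈ orb φ x
      · simp [h]
      · simp only [h, if_false, orb_inv]; simp⟩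
  map_one' := by ext y; simp
  map_mul' g h := by
    ext1 y
    by_cases c : y ∈ orb φ x <;> simp [c, orb_inv]

lemma res_app (φ : D →* Perm (Fin n)) (x : Fin n) (g : D) (y : Fin n) :
    res φ x g y = if y ∈ orb φ x then y else φ g y := rfl

lemma out_eq {φ : D →* Perm (Fin n)} {x : Fin n} {H : Subgroup D} (h : stab φ x = H) (g : D) :
    φ (g : D ⧸ H).out x = φ g x := by
  subst h
  obtain ⟨k, hk⟩ := QuotientGroup.mk_out_eq_mul (stab φ x) g
  have : φ k x = x := k.2
  rw [hk, map_mul, Perm.mul_apply, this]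

lemma cnum_split (C : Subgroup D) (φ : D →* Perm (Fin n)) (x : Fin n) (S : Finset (Fin n)) :
    cnum C φ S ≤ cnum C (act (stab φ x)) Set.univ + cnum C (res φ x) (S \ orb φ x : Finset _) := by
  have : Finite (D ⧸ stab φ x) := Nat.finite_of_card_ne_zero (by
    rw [← Subgroup.index_eq_card, index_stab]; exact (card_pos.mpr ⟨x, self_orb φ x⟩).ne')
  obtain ⟨R1, e1, h1⟩ := cnum_spec C (act (stab φ x)) Set.univ
  obtain ⟨R2, e2, h2⟩ := cnum_spec C (res φ x) (S \ orb φ x : Finset _)
  refine (cnum_le (R1.image (fun q => φ q.out x) ∪ R2) ?_).trans ?_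
  · intro y hy
    by_cases c : y ∈ orb φ x
    · obtain ⟨g, rfl⟩ := mem_orb.mp c
      obtain ⟨q, hq, c, hc, e⟩ := h1 (g : D ⧸ stab φ x) trivial
      refine ⟨φ q.out x, mem_union_left _ (mem_image_of_mem _ hq), c, hc, ?_⟩
      rw [← QuotientGroup.out_eq' q, act_mk] at e
      rw [← Perm.mul_apply, ← map_mul, ← out_eq rfl g, ← e, out_eq rfl]
    · obtain ⟨z, hz, k, hk, e⟩ := h2 y (by simpa [c] using hy)
      refine ⟨z, mem_union_right _ hz, k, hk, ?_⟩
      rw [res_app] at e
      split_ifs at e with c2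
      · exact (c (e ▸ c2)).elim
      · exact e
  · rw [← e1, ← e2]
    exact (card_union_le _ _).trans (by gcongr; exact card_image_le)

lemma e_cnt (x : Fin n) (H : Subgroup D) (h0 : H.index ≠ 0) (Φ : Finset (D →* Perm (Fin n)))
    (h : ∀ φ ∈ Φ, stab φ x = H) : open Classical in
    (Φ.image (fun φ => fun g => φ g x)).card ≤ n ^ (H.index - 1) := by
  classical
  have : Finite (D ⧸ H) := Nat.finite_of_card_ne_zero h0
  have := Nat.card_le_card_of_injective
    (fun e : (Φ.image (fun φ => fun g => φ g x)) =>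
      fun q : {q : D ⧸ H // q ≠ ((1 : D) : D ⧸ H)} => e.1 q.1.out) (by
      rintro ⟨e, he⟩ ⟨e', he'⟩ hh
      obtain ⟨φ, hφ, rfl⟩ := mem_image.mp he
      obtain ⟨φ', hφ', rfl⟩ := mem_image.mp he'
      apply Subtype.ext
      funext g
      show φ g x = φ' g x
      rw [← out_eq (h φ hφ), ← out_eq (h φ' hφ')]
      by_cases c : (g : D ⧸ H) = ((1 : D) : D ⧸ H)
      · rw [c, out_eq (h φ hφ), out_eq (h φ' hφ')]; simp
      · exact congrFun hh ⟨_, c⟩)
  have f := Fintype.ofFinite (D ⧸ H)
  rw [Nat.card_fun, Nat.card_eq_fintype_card, Fintype.card_coe] at this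
  rw [Subgroup.index_eq_card]
  simpa using this

lemma geo (s : ℕ) : ∑ j ∈ Icc 1 s, (1 / 2 : ℝ) ^ j ≤ 1 := by
  have : ∑ j ∈ Icc 1 s, (1 / 2 : ℝ) ^ j = 1 - (1 / 2) ^ s := by
    induction s with
    | zero => simp
    | succ s ih => rw [Finset.sum_Icc_succ_top (by omega), ih]; ring
  rw [this]
  have : (0 : ℝ) ≤ (1 / 2) ^ s := by positivity
  linarith

lemma W_ind (C : Subgroup D) {N γ : ℝ} (hN : (n : ℝ) ≤ N) (hN1 : 1 ≤ N)
    (hsum : ∀ j : ℕ, 1 ≤ j → (j : ℝ) ≤ N → ∀ T : Finset (Subgroup D), (∀ H ∈ T, H.index = j) →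
      ∑ H ∈ T, N ^ ((j - 1 : ℝ) + 5 * cnum C (act H) Set.univ) ≤ 32 ^ j * N ^ (γ * j))
    (S : Finset (Fin n)) : ∀ Φ : Finset (D →* Perm (Fin n)), (∀ φ ∈ Φ, ∀ g, ∀ x ∉ S, φ g x = x) →
      ∑ φ ∈ Φ, N ^ (5 * cnum C φ S : ℝ) ≤ 64 ^ S.card * N ^ (γ * S.card) := by
  classical
  induction S using Finset.strongInduction with
  | H S ih =>
    intro Φ hΦ
    by_cases hne : S = ∅
    · subst hne
      have : Φ ⊆ {1} := fun φ hφ => by
        rw [mem_singleton]; ext g y; rw [hΦ φ hφ g y (by simp)]; rfl
      refine (Finset.sum_le_sum_of_subset_of_nonneg this (fun _ _ _ => by positivity)).trans ?_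
      have : cnum C (1 : D →* Perm (Fin n)) ((∅ : Finset (Fin n)) : Set (Fin n)) = 0 :=
        Nat.le_zero.mp (cnum_le ∅ (by simp))
      rw [sum_singleton, this]; simp
    obtain ⟨x, hx⟩ := Finset.nonempty_iff_ne_empty.mpr hne
    have hsub : ∀ φ ∈ Φ, orb φ x ⊆ S := by
      intro φ hφ y hy
      obtain ⟨g, rfl⟩ := mem_orb.mp hy
      by_contra c
      have := hΦ φ hφ g⁻¹ _ c
      simp at this
      exact c (this ▸ hx)
    have hA : ∀ (H : Subgroup D) (e : D → Fin n) (Ψ : Finset (D →* Perm (Fin n))), Ψ ⊆ Φ →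
        (∀ φ ∈ Ψ, stab φ x = H ∧ (fun g => φ g x) = e) →
        ∑ φ ∈ Ψ, N ^ (5 * cnum C φ S : ℝ) ≤ N ^ (5 * cnum C (act H) Set.univ : ℝ) *
          (64 ^ S.card * N ^ (γ * S.card) / (64 ^ H.index * N ^ (γ * H.index))) := by
      intro H e Ψ h1 h2
      by_cases c : Ψ = ∅
      · rw [c]; simp; positivity
      obtain ⟨φ0, h0⟩ := Finset.nonempty_iff_ne_empty.mpr c
      have ho : ∀ φ ∈ Ψ, orb φ x = orb φ0 x := by
        intro φ hφ; ext y
        simp only [mem_orb]
        have := (h2 φ hφ).2.trans (h2 φ0 h0).2.symm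
        exact exists_congr (fun g => by rw [congrFun this g])
      have hi := ih (S \ orb φ0 x) (Finset.sdiff_ssubset (hsub φ0 (h1 h0)) ⟨x, self_orb φ0 x⟩)
        (Ψ.image (fun φ => res φ x)) (by
          intro φ' hφ' g y hy
          obtain ⟨φ, hφ, rfl⟩ := mem_image.mp hφ'
          rw [res_app]
          split_ifs with c
          · rfl
          · exact hΦ φ (h1 hφ) g y (fun hh => hy (mem_sdiff.mpr ⟨hh, by rwa [← ho φ hφ]⟩)))
      rw [Finset.sum_image (by
        intro φ hφ φ' hφ' e
        have e2 := (h2 φ hφ).2.trans (h2 φ' hφ').2.symm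
        ext1 g; ext1 y
        by_cases c : y ∈ orb φ x
        · obtain ⟨k, rfl⟩ := mem_orb.mp c
          have a := congrFun e2 (g * k)
          have b := congrFun e2 k
          simp only [map_mul, Perm.mul_apply] at a b
          rw [a, b]
        · have a : res φ x g y = res φ' x g y := by rw [show res φ x = res φ' x from e]
          rwa [res_app, res_app, if_neg c, if_neg (by rwa [ho φ' hφ', ← ho φ hφ])] at a)] at hi
      have hc : (S \ orb φ0 x).card + H.index = S.card := by
        rw [← (h2 φ0 h0).1, index_stab]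
        exact Finset.card_sdiff_add_card_eq_card (hsub φ0 (h1 h0))
      calc _ ≤ ∑ φ ∈ Ψ, N ^ (5 * cnum C (act H) Set.univ : ℝ) *
            N ^ (5 * cnum C (res φ x) (S \ orb φ0 x : Finset _) : ℝ) := by
            apply Finset.sum_le_sum
            intro φ hφ
            rw [← Real.rpow_add (by linarith)]
            apply Real.rpow_le_rpow_of_exponent_le hN1
            have := cnum_split C φ x S
            rw [(h2 φ hφ).1, ho φ hφ] at this
            have t : (cnum C φ S : ℝ) ≤ cnum C (act H) Set.univ +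
              cnum C (res φ x) (S \ orb φ0 x : Finset _) := by exact_mod_cast this
            linarith
        _ ≤ _ := by
          rw [← Finset.mul_sum]
          gcongr
          refine hi.trans (le_of_eq ?_)
          rw [← hc, pow_add, Nat.cast_add, mul_add, Real.rpow_add (by linarith)]
          have : N ^ (γ * H.index) ≠ 0 := by positivity
          field_simp
    have hB : ∀ (H : Subgroup D) (Ψ : Finset (D →* Perm (Fin n))), Ψ ⊆ Φ → 1 ≤ H.index →
        (∀ φ ∈ Ψ, stab φ x = H) →
        ∑ φ ∈ Ψ, N ^ (5 * cnum C φ S : ℝ) ≤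
          N ^ ((H.index - 1 : ℝ) + 5 * cnum C (act H) Set.univ : ℝ) *
          (64 ^ S.card * N ^ (γ * S.card) / (64 ^ H.index * N ^ (γ * H.index))) := by
      intro H Ψ h1 h0 h2
      rw [← Finset.sum_fiberwise_of_maps_to (g := fun φ => fun g => φ g x)
        (t := Ψ.image (fun φ => fun g => φ g x)) (fun φ hφ => mem_image_of_mem _ hφ)]
      refine (Finset.sum_le_card_nsmul _ _ _ (fun e _ => hA H e _
        ((filter_subset _ _).trans h1) (fun φ hφ =>
          ⟨h2 φ (mem_filter.mp hφ).1, (mem_filter.mp hφ).2⟩))).trans ?_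
      rw [nsmul_eq_mul, Real.rpow_add (by linarith), mul_assoc]
      gcongr
      have := e_cnt x H (by omega) Ψ h2
      calc _ ≤ ((n ^ (H.index - 1) : ℕ) : ℝ) := by exact_mod_cast this
        _ ≤ N ^ (H.index - 1) := by push_cast; gcongr
        _ = _ := by rw [← Real.rpow_natCast, Nat.cast_sub h0]; simp
    rw [← Finset.sum_fiberwise_of_maps_to (g := fun φ => (stab φ x).index) (t := Icc 1 S.card)
      (fun φ hφ => by
        rw [index_stab, mem_Icc]
        exact ⟨card_pos.mpr ⟨x, self_orb φ x⟩, card_le_card (hsub φ hφ)⟩)]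
    calc _ ≤ ∑ j ∈ Icc 1 S.card, (1 / 2 : ℝ) ^ j * (64 ^ S.card * N ^ (γ * S.card)) := by
          apply Finset.sum_le_sum
          intro j hj
          rw [mem_Icc] at hj
          have hj2 : (j : ℝ) ≤ N := by
            have : j ≤ n := hj.2.trans (by simpa using card_le_univ S)
            exact le_trans (by exact_mod_cast this) hN
          rw [← Finset.sum_fiberwise_of_maps_to (g := fun φ => stab φ x)
            (t := (Φ.filter (fun φ => (stab φ x).index = j)).image (fun φ => stab φ x))
            (fun φ hφ => mem_image_of_mem _ hφ)]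
          have hT : ∀ H ∈ (Φ.filter (fun φ => (stab φ x).index = j)).image (fun φ => stab φ x),
              H.index = j := by
            intro H hH
            obtain ⟨φ, hφ, rfl⟩ := mem_image.mp hH
            exact (mem_filter.mp hφ).2
          calc _ ≤ ∑ H ∈ (Φ.filter (fun φ => (stab φ x).index = j)).image (fun φ => stab φ x),
                N ^ ((j - 1 : ℝ) + 5 * cnum C (act H) Set.univ : ℝ) *
                (64 ^ S.card * N ^ (γ * S.card) / (64 ^ j * N ^ (γ * j))) := by
                apply Finset.sum_le_sum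
                intro H hH
                have := hB H ((Φ.filter (fun φ => (stab φ x).index = j)).filter
                  (fun φ => stab φ x = H)) ((filter_subset _ _).trans (filter_subset _ _))
                  (by rw [hT H hH]; exact hj.1) (fun φ hφ => (mem_filter.mp hφ).2)
                rwa [hT H hH] at this
            _ ≤ (32 ^ j * N ^ (γ * j)) *
                (64 ^ S.card * N ^ (γ * S.card) / (64 ^ j * N ^ (γ * j))) := by
                rw [← Finset.sum_mul]
                gcongr
                exact hsum j hj.1 hj2 _ hT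
            _ = _ := by
                have : N ^ (γ * j) ≠ 0 := by positivity
                have e : (64 : ℝ) ^ j = 32 ^ j * 2 ^ j := by rw [← mul_pow]; norm_num
                rw [e, one_div, inv_pow]
                field_simp
      _ ≤ _ := by
        rw [← Finset.sum_mul]
        exact mul_le_of_le_one_left (by positivity) (geo _)

end ind

end Pool.Agent.H73.SG
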