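import Mathlib

/-!
Recognizable properties of labelled trees, with explicit bounds on the number of types,
pumping, and the finite index problem for recognizable equivalence relations.
-/

set_option autoImplicit false

namespace Pool.Agent.H73.TRec

abbrev Lab (D S : Type) := List D → S

variable {D S G : Type}

open Classical in
noncomputable def graft (c : Lab D S) (u : List D) (f : Lab D S) : Lab D S :=
  fun q => if u <+: q then f (q.drop u.length) else c q

def sb (f : Lab D S) (u : List D) : Lab D S := fun q => f (u ++ q)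

@[simp] theorem graft_append (c : Lab D S) (u q : List D) (f : Lab D S) :
    graft c u f (u ++ q) = f q := by simp [graft]

theorem graft_not {c : Lab D S} {u q : List D} {f : Lab D S} (h : ¬ u <+: q) :
    graft c u f q = c q := by simp [graft, h]

theorem graft_sb (f : Lab D S) (u : List D) : graft f u (sb f u) = f := by
  funext q
  by_cases h : u <+: q
  · obtain ⟨r, rfl⟩ := h; simp [sb]
  · exact graft_not h

theorem graft_map (φ : S → G) (c : Lab D S) (u : List D) (f : Lab D S) :
    (fun p => φ (graft c u f p)) = graft (fun p => φ (c p)) u fun p => φ (f p) := by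
  funext q
  unfold graft
  split_ifs <;> rfl

theorem forall_graft {c : Lab D S} {u : List D} {f : Lab D S} {R : List D → S → Prop} :
    (∀ p, R p (graft c u f p)) ↔ (∀ p, ¬ u <+: p → R p (c p)) ∧ ∀ q, R (u ++ q) (f q) := by
  constructor
  · intro h
    exact ⟨fun p hp => by simpa [graft_not hp] using h p, fun q => by simpa using h (u ++ q)⟩
  · rintro ⟨h1, h2⟩ p
    by_cases h : u <+: p
    · obtain ⟨r, rfl⟩ := h; simpa using h2 r
    · rw [graft_not h]; exact h1 p h

def Rec (P : Lab D S → Prop) (N : ℕ) : Prop :=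
  ∃ (Q : Type) (_ : Finite Q) (τ : Lab D S → Q), Nat.card Q ≤ N ∧
    ∀ f g, τ f = τ g → ∀ c u, P (graft c u f) → P (graft c u g)

namespace Rec

variable {P P' : Lab D S → Prop} {N N' : ℕ}

theorem of_iff (h : Rec P N) (e : ∀ f, P f ↔ P' f) : Rec P' N :=
  (funext fun f => propext (e f) : P = P') ▸ h

theorem not (h : Rec P N) : Rec (fun f => ¬ P f) N := by
  obtain ⟨Q, _, τ, h1, h2⟩ := h
  exact ⟨Q, ‹_›, τ, h1, fun f g e c u h3 h4 => h3 (h2 g f e.symm c u h4)⟩

theorem bin (R : Prop → Prop → Prop) (h : Rec P N) (h' : Rec P' N') :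
    Rec (fun f => R (P f) (P' f)) (N * N') := by
  obtain ⟨Q, _, τ, h1, h2⟩ := h
  obtain ⟨Q', _, τ', h1', h2'⟩ := h'
  refine ⟨Q × Q', inferInstance, fun f => (τ f, τ' f), ?_, fun f g e c u h3 => ?_⟩
  · rw [Nat.card_prod]; exact Nat.mul_le_mul h1 h1'
  · simp only [Prod.mk.injEq] at e
    rwa [← propext ⟨h2 f g e.1 c u, h2 g f e.1.symm c u⟩,
      ← propext ⟨h2' f g e.2 c u, h2' g f e.2.symm c u⟩]

theorem and (h : Rec P N) (h' : Rec P' N') : Rec (fun f => P f ∧ P' f) (N * N') := bin And h h'
theorem or (h : Rec P N) (h' : Rec P' N') : Rec (fun f => P f ∨ P' f) (N * N') := bin Or h h'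
theorem iff (h : Rec P N) (h' : Rec P' N') : Rec (fun f => P f ↔ P' f) (N * N') := bin Iff h h'
theorem imp (h : Rec P N) (h' : Rec P' N') : Rec (fun f => P f → P' f) (N * N') :=
  bin (fun a b => a → b) h h'

theorem comap (φ : G → S) (h : Rec P N) : Rec (fun f : Lab D G => P fun p => φ (f p)) N := by
  obtain ⟨Q, _, τ, h1, h2⟩ := h
  refine ⟨Q, ‹_›, fun f => τ fun p => φ (f p), h1, fun f g e c u h3 => ?_⟩
  beta_reduce at h3 ⊢
  rw [graft_map] at h3 ⊢
  exact h2 _ _ e _ _ h3

theorem card_set (Q : Type) [Finite Q] : Nat.card (Set Q) = 2 ^ Nat.card Q := by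
  classical
  have := Fintype.ofFinite Q
  simp

theorem ex {R : Lab D S → Lab D G → Prop}
    (h : Rec (fun F : Lab D (S × G) => R (fun p => (F p).1) fun p => (F p).2) N) :
    Rec (fun f => ∃ g, R f g) (2 ^ N) := by
  obtain ⟨Q, _, τ, h1, h2⟩ := h
  refine ⟨Set Q, inferInstance, fun f => Set.range fun g : Lab D G => τ fun p => (f p, g p), ?_,
    fun f f' e c u ⟨g, h3⟩ => ?_⟩
  · rw [card_set]; exact Nat.pow_le_pow_right (by norm_num) h1
  · beta_reduce at e
    have : (τ fun p => (f p, sb g u p)) ∈ Set.range fun g : Lab D G => τ fun p => (f' p, g p) :=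
      e ▸ ⟨_, rfl⟩
    obtain ⟨g', e'⟩ := this
    have h4 := h2 _ _ e'.symm (fun p => (c p, g p)) u (by
      beta_reduce
      rw [graft_map Prod.fst, graft_map Prod.snd]
      simpa only [graft_sb] using h3)
    beta_reduce at h4
    rw [graft_map Prod.fst, graft_map Prod.snd] at h4
    exact ⟨_, h4⟩

theorem all {R : Lab D S → Lab D G → Prop}
    (h : Rec (fun F : Lab D (S × G) => R (fun p => (F p).1) fun p => (F p).2) N) :
    Rec (fun f => ∀ g, R f g) (2 ^ N) :=
  (ex (R := fun f g => ¬ R f g) h.not).not.of_iff fun f => by simp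

theorem pt (R : S → Prop) : Rec (fun f : Lab D S => ∀ p, R (f p)) 2 := by
  refine ⟨Prop, inferInstance, fun f => ∀ p, R (f p), by simp, fun f g e c u h => ?_⟩
  beta_reduce at h e ⊢
  rw [forall_graft (R := fun _ x => R x)] at h ⊢
  exact ⟨h.1, e ▸ h.2⟩

theorem pte (R : S → Prop) : Rec (fun f : Lab D S => ∃ p, R (f p)) 2 :=
  (pt fun x => ¬ R x).not.of_iff fun f => by simp

theorem root : Rec (fun f : Lab D Prop => f []) 2 := by
  refine ⟨Prop, inferInstance, fun f => f [], by simp, fun f g e c u h => ?_⟩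
  beta_reduce at h e ⊢
  unfold graft at h ⊢
  split_ifs at h ⊢
  · simpa [← e] using h
  · exact h

theorem loc [Finite S] (R : D → S → S → Prop) :
    Rec (fun f : Lab D S => ∀ p d, R d (f p) (f (p ++ [d]))) (Nat.card S * 2) := by
  refine ⟨S × Prop, inferInstance, fun f => (f [], ∀ p d, R d (f p) (f (p ++ [d]))), by simp,
    fun f g e c u h p d => ?_⟩
  simp only [Prod.mk.injEq, eq_iff_iff] at e
  by_cases h1 : u <+: p
  · obtain ⟨r, rfl⟩ := h1
    rw [List.append_assoc, graft_append, graft_append]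
    refine e.2.1 (fun p d => ?_) r d
    have := h (u ++ p) d
    rwa [List.append_assoc, graft_append, graft_append] at this
  · have := h p d
    rw [graft_not h1] at this ⊢
    rcases eq_or_ne u (p ++ [d]) with rfl | h2
    · have e1 := graft_append c (p ++ [d]) [] f
      have e2 := graft_append c (p ++ [d]) [] g
      rw [List.append_nil] at e1 e2
      rwa [e2, ← e.1, ← e1]
    · have h3 : ¬ u <+: p ++ [d] := fun h3 => by
        rcases List.prefix_concat_iff.1 h3 with h3 | h3
        exacts [h2 h3, h1 h3]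
      rwa [graft_not h3] at this ⊢

theorem fin : Rec (fun f : Lab D Prop => {p | f p}.Finite) 2 := by
  have key : ∀ (c f : Lab D Prop) (u : List D), {p | graft c u f p}.Finite ↔
      {p | ¬ u <+: p ∧ c p}.Finite ∧ {p | f p}.Finite := by
    intro c f u
    constructor
    · intro h
      refine ⟨h.subset fun p hp => by simpa [graft_not hp.1] using hp.2, ?_⟩
      refine (h.preimage (f := fun q => u ++ q) (List.append_right_injective u).injOn).subset ?_
      intro q hq; simpa using hq
    · rintro ⟨h1, h2⟩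
      refine (h1.union (h2.image fun q => u ++ q)).subset fun p hp => ?_
      by_cases h : u <+: p
      · obtain ⟨r, rfl⟩ := h; exact Or.inr ⟨r, by simpa using hp, rfl⟩
      · exact Or.inl ⟨h, by simpa [graft_not h] using hp⟩
  refine ⟨Prop, inferInstance, fun f => {p | f p}.Finite, by simp, fun f g e c u h => ?_⟩
  beta_reduce at h e ⊢
  rw [key] at h ⊢
  exact ⟨h.1, e ▸ h.2⟩

theorem height (H : ℕ) : Rec (fun f : Lab D Prop => ∀ p, f p → p.length < H) (2 ^ (H + 1)) := by
  refine ⟨Set (Fin (H + 1)), inferInstance, fun f => {k | ∀ p, f p → p.length + k.1 < H},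
    by simp, fun f g e c u h => ?_⟩
  beta_reduce at h e ⊢
  rw [forall_graft (R := fun p x => x → p.length < H)] at h ⊢
  refine ⟨h.1, fun q hq => ?_⟩
  have := (Set.ext_iff.1 e ⟨min u.length H, by omega⟩).1 (fun p hp => by
    have := h.2 p hp
    simp only [List.length_append] at this ⊢
    omega) q hq
  simp only [List.length_append] at this ⊢
  omega

theorem sing : Rec (fun f : Lab D Prop => ∃ r, ∀ p, f p ↔ p = r) (2 * 2 ^ (2 * (2 * 2))) := by
  refine ((pte fun x => x).and (all (R := fun (f Y : Lab D Prop) => (∀ p, Y p → f p) →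
    (∀ p, ¬ Y p) ∨ ∀ p, f p → Y p)
    ((pt fun x : Prop × Prop => x.2 → x.1).imp ((pt fun x : Prop × Prop => ¬ x.2).or
      (pt fun x : Prop × Prop => x.1 → x.2))))).of_iff fun f => ?_
  constructor
  · rintro ⟨⟨r, hr⟩, h⟩
    refine ⟨r, fun p => ⟨fun hp => ?_, fun e => e ▸ hr⟩⟩
    rcases h (fun p => p = r) (fun p e => e ▸ hr) with h | h
    exacts [absurd rfl (h r), h p hp]
  · rintro ⟨r, hr⟩
    refine ⟨⟨r, (hr r).2 rfl⟩, fun Y hY => ?_⟩
    by_cases h : Y r
    · exact Or.inr fun p hp => (hr p).1 hp ▸ h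
    · exact Or.inl fun p hp => h ((hr p).1 (hY p hp) ▸ hp)

theorem pump (h : Rec P N) {F : Lab D S} (hF : P F) {u v : List D} (huv : u <+: v)
    (hl : u.length + N ≤ v.length) : ∃ p q, u <+: p ∧ p <+: q ∧ q <+: v ∧ p.length < q.length ∧
      P (graft F p (sb F q)) ∧ P (graft F q (sb F p)) := by
  obtain ⟨Q, _, τ, h1, h2⟩ := h
  have : ¬ Function.Injective fun i : Fin (N + 1) => τ (sb F (v.take (u.length + i))) := by
    intro hi
    have := Nat.card_le_card_of_injective _ hi
    simp only [Nat.card_eq_fintype_card, Fintype.card_fin] at this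
    omega
  have key : ∀ i j : Fin (N + 1), i < j →
      τ (sb F (v.take (u.length + i))) = τ (sb F (v.take (u.length + j))) →
      ∃ p q, u <+: p ∧ p <+: q ∧ q <+: v ∧ p.length < q.length ∧
        P (graft F p (sb F q)) ∧ P (graft F q (sb F p)) := by
    intro i j hij e
    have hij' : i.1 < j.1 := hij
    have hj := j.2
    refine ⟨v.take (u.length + i), v.take (u.length + j), ?_, ?_, List.take_prefix _ _, ?_,
      h2 _ _ e _ _ (by rwa [graft_sb]), h2 _ _ e.symm _ _ (by rwa [graft_sb])⟩
    · exact List.prefix_take_iff.2 ⟨huv, by omega⟩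
    · exact List.take_prefix_take_left (by omega)
    · simp only [List.length_take]; omega
  simp only [Function.Injective, not_forall] at this
  obtain ⟨i, j, e, hne⟩ := this
  rcases lt_or_gt_of_ne hne with h | h
  exacts [key i j h e, key j i h e.symm]

end Rec

/-- finite support closed under initial segments -/
def Good (T : Lab D Prop) : Prop := {p | T p}.Finite ∧ ∀ p q, p <+: q → T q → T p

theorem shrink {T : Lab D Prop} (hT : {p | T p}.Finite) {p q : List D} (hp : T p) (hpq : p <+: q)
    (hl : p.length < q.length) : {x | graft T p (sb T q) x}.ncard < {x | T x}.ncard := by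
  classical
  let j : List D → List D := fun x => if p <+: x then q ++ x.drop p.length else x
  refine lt_of_le_of_lt (Set.ncard_le_ncard_of_injOn j (t := {x | T x} \ {p}) ?_ ?_ hT.sdiff)
    (Set.ncard_sdiff_singleton_lt_of_mem hp hT)
  · intro x hx
    by_cases h : p <+: x
    · obtain ⟨r, rfl⟩ := h
      refine ⟨by simpa [j, sb] using hx, fun e => ?_⟩
      have := congrArg List.length (Set.mem_singleton_iff.1 e)
      simp [j] at this
      omega
    · refine ⟨by simpa [j, h, graft_not h] using hx, fun e => h ?_⟩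
      have : x = p := by simpa [j, h] using e
      exact this ▸ List.prefix_rfl
  · intro x _ y _ e
    by_cases h : p <+: x <;> by_cases h' : p <+: y
    · obtain ⟨r, rfl⟩ := h
      obtain ⟨s, rfl⟩ := h'
      simpa [j] using e
    · simp only [j, h, h', if_true, if_false] at e
      exact absurd (e ▸ hpq.trans (List.prefix_append _ _)) h'
    · simp only [j, h, h', if_true, if_false] at e
      exact absurd (e ▸ hpq.trans (List.prefix_append _ _)) h
    · simpa [j, h, h'] using e

theorem step {R : Lab D S → Lab D G → Prop} {N : ℕ} (on : G → Prop)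
    (h : Rec (fun F : Lab D (S × G) => R (fun p => (F p).1) fun p => (F p).2) N)
    {f : Lab D S} {g : Lab D G} (hR : R f g) (hg : Good fun p => on (g p)) {u v : List D} {s0 : S}
    (hu : ∀ q, u <+: q → f q = s0) (huv : u <+: v) (hv : on (g v)) (hl : u.length + N ≤ v.length) :
    ∃ g', R f g' ∧ {p | on (g' p)}.ncard < {p | on (g p)}.ncard := by
  obtain ⟨p, q, h1, h2, h3, h4, h5, -⟩ := h.pump (F := fun p => (f p, g p)) hR huv hl
  rw [graft_map Prod.fst, graft_map Prod.snd] at h5
  have e : graft f p (fun x => (sb (fun p => (f p, g p)) q x).1) = f := by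
    funext x
    by_cases hx : p <+: x
    · obtain ⟨r, rfl⟩ := hx
      rw [graft_append, hu _ (h1.trans (List.prefix_append _ _))]
      exact hu _ ((h1.trans h2).trans (List.prefix_append _ _))
    · exact graft_not hx
  rw [e] at h5
  refine ⟨_, h5, ?_⟩
  have := shrink hg.1 (hg.2 p v (h2.trans h3) hv) h2 h4
  rwa [show (sb (fun p => on (g p)) q) = fun x => on (sb g q x) from rfl, ← graft_map on] at this

theorem exists_min {α : Type} (P : α → Prop) (m : α → ℕ) (h : ∃ a, P a) :
    ∃ a, P a ∧ ∀ b, P b → m a ≤ m b := by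
  obtain ⟨a, ha⟩ := h
  exact ⟨Function.argminOn m {a | P a} ⟨a, ha⟩, Function.argminOn_mem m _ _,
    fun b hb => Function.argminOn_le m _ hb⟩

/-- a witness of bounded height -/
theorem small {R : Lab D S → Lab D G → Prop} {N K : ℕ} (on : G → Prop)
    (h : Rec (fun F : Lab D (S × G) => R (fun p => (F p).1) fun p => (F p).2) N)
    {f : Lab D S} (hg : ∀ g, R f g → Good fun p => on (g p)) {s0 : S}
    (hf : ∀ q : List D, K ≤ q.length → f q = s0) (hR : ∃ g, R f g) :
    ∃ g, R f g ∧ ∀ p, on (g p) → p.length < K + N := by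
  obtain ⟨g, h1, h2⟩ := exists_min (R f) (fun g => {p | on (g p)}.ncard) hR
  refine ⟨g, h1, fun v hv => ?_⟩
  by_contra H
  have hl : (v.take K).length = K := by simp; omega
  obtain ⟨g', h3, h4⟩ := step on h h1 (hg g h1) (u := v.take K)
    (fun q hq => hf q (hl ▸ hq.length_le)) (List.take_prefix _ _) hv (by omega)
  exact absurd (h2 g' h3) (not_le.2 h4)

theorem small1 {P : Lab D G → Prop} {N : ℕ} (on : G → Prop) (h : Rec P N)
    (hg : ∀ g, P g → Good fun p => on (g p)) (hR : ∃ g, P g) :
    ∃ g, P g ∧ ∀ p, on (g p) → p.length < N := by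
  simpa using small (R := fun (_ : Lab D Unit) g => P g) (K := 0) (f := fun _ => ()) on
    (h.comap Prod.snd) hg (fun _ _ => rfl) hR

/-- representatives of bounded height for a recognizable equivalence of finite index -/
theorem reps {E : Lab D S → Lab D S → Prop} {N : ℕ} (on : S → Prop) (s0 : S)
    (h : Rec (fun F : Lab D (S × S) => E (fun p => (F p).1) fun p => (F p).2) N)
    (hs : ∀ t t', E t t' → E t' t) (ht : ∀ t t' t'', E t t' → E t' t'' → E t t'')
    (hg : ∀ t, E t t → (Good fun p => on (t p)) ∧ ∀ p, ¬ on (t p) → t p = s0)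
    (hfin : ∃ B, ∀ t, E t t → ∃ t', E t t' ∧ ∀ p, on (t' p) → p.length < B) :
    ∀ t, E t t → ∃ t', E t t' ∧ ∀ p, on (t' p) → p.length < 2 ^ (N * 2 ^ (N * 2)) + N := by
  let Sh : Lab D Prop → Prop := fun Y => ∃ t, E t t ∧ ∀ t', E t t' → ∀ p, Y p → on (t' p)
  have hSh : Rec Sh (2 ^ (N * 2 ^ (N * 2))) :=
    Rec.ex ((h.comap fun x : Prop × S => (x.2, x.2)).and (Rec.all
      (R := fun (F : Lab D (Prop × S)) t' => E (fun p => (F p).2) t' → ∀ p, (F p).1 → on (t' p))
      ((h.comap fun x : (Prop × S) × S => (x.1.2, x.2)).imp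
        (Rec.pt fun x : (Prop × S) × S => x.1.1 → on x.2))))
  generalize 2 ^ (N * 2 ^ (N * 2)) = N1 at hSh ⊢
  have hb : ∀ Y, Sh Y → ∀ p, Y p → p.length < N1 := by
    by_contra H
    push Not at H
    have key : ∀ k, ∃ Y, Sh Y ∧ ∃ p, Y p ∧ N1 + k ≤ p.length := by
      intro k
      induction k with
      | zero => exact H
      | succ k ih =>
        obtain ⟨Y, h1, v, h2, h3⟩ := ih
        obtain ⟨p, q, -, h4, h5, h6, -, h7⟩ := hSh.pump h1 (u := []) (v := v) List.nil_prefix
          (by simp; omega)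
        obtain ⟨r, rfl⟩ := h4.trans h5
        refine ⟨_, h7, q ++ r, by simpa [sb] using h2, ?_⟩
        simp only [List.length_append] at h3 ⊢
        omega
    obtain ⟨B, hB⟩ := hfin
    obtain ⟨Y, ⟨t, h1, h2⟩, p, h3, h4⟩ := key B
    obtain ⟨t', h5, h6⟩ := hB t h1
    have := h6 p (h2 t' h5 p h3)
    omega
  intro t htt
  obtain ⟨g, h1, h2⟩ := exists_min (E t) (fun g => {p | on (g p)}.ncard) ⟨t, htt⟩
  refine ⟨g, h1, fun v hv => ?_⟩
  by_contra H
  have hl : (v.take N1).length = N1 := by simp; omega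
  have h3 : ¬ Sh fun p => p = v.take N1 := fun h3 => by
    have := hb _ h3 _ rfl
    omega
  simp only [Sh, not_exists, not_and, not_forall] at h3
  obtain ⟨t', h4, _, rfl, h5⟩ := h3 t htt
  have h6 := hg t' (ht _ _ _ (hs _ _ h4) h4)
  obtain ⟨g', h7, h8⟩ := step on h (ht _ _ _ (hs _ _ h4) h1) (hg g (ht _ _ _ (hs _ _ h1) h1)).1
    (u := v.take N1) (fun q hq => h6.2 q fun h => h5 (h6.1.2 _ _ hq h)) (List.take_prefix _ _) hv
    (by omega)
  exact absurd (h2 g' (ht _ _ _ h4 h7)) (not_le.2 h8)

end Pool.Agent.H73.TRec
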