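import Pool.Agent.H73.TRec1
import Pool.Agent.H73.FInv1

/-!
Rational subsets of free inverse monoids as recognizable tree properties.
-/

set_option autoImplicit false

namespace Pool.Agent.H73.TRec

open FreeGroup Pointwise Pool.Agent.H73.FInv

variable {Z : Type}

theorem red_snoc {p : Wd Z} {d : Z × Bool} :
    IsReduced (p ++ [d]) ↔ IsReduced p ∧ p.getLast? ≠ some (li d) := by
  unfold FreeGroup.IsReduced
  rw [List.isChain_append]
  simp only [List.isChain_singleton, List.head?_cons, Option.mem_def, Option.some.injEq,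
    forall_eq', true_and, ne_eq]
  refine and_congr Iff.rfl ⟨fun h e => ?_, fun h x hx e => ?_⟩
  · simpa [li] using h _ e
  · by_contra H
    apply h
    rw [hx]
    obtain ⟨a, b⟩ := x
    obtain ⟨c, e'⟩ := d
    simp only [li] at e H ⊢
    subst e
    cases b <;> cases e' <;> simp_all

theorem red_inj {p q : Wd Z} (hp : IsReduced p) (hq : IsReduced q) (e : mk p = mk q) : p = q := by
  classical
  rw [← hp.reduce_eq, ← hq.reduce_eq]; exact reduce.sound e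

def Mv (p : Wd Z) (a : Z × Bool) (p' : Wd Z) : Prop := p' = p ++ [a] ∨ p = p' ++ [li a]

theorem Mv.mk_eq {p p' : Wd Z} {a : Z × Bool} (h : Mv p a p') : mk p' = mk p * mk [a] := by
  rcases h with rfl | rfl
  · simp
  · rw [← mul_mk, mk_li, inv_mul_cancel_right]

theorem mv_of {p p' : Wd Z} {a : Z × Bool} (hp : IsReduced p) (hp' : IsReduced p')
    (e : mk p' = mk p * mk [a]) : Mv p a p' := by
  by_cases h : p.getLast? = some (li a)
  · obtain ⟨l, rfl⟩ := List.getLast?_eq_some_iff.1 h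
    rw [← mul_mk, mk_li, inv_mul_cancel_right] at e
    exact Or.inr (by rw [red_inj hp' (red_snoc.1 hp).1 e])
  · exact Or.inl (red_inj hp' (red_snoc.2 ⟨hp, h⟩) (by simpa using e))

def enc (U : Set (FreeGroup Z)) : Lab (Z × Bool) Prop := fun p => IsReduced p ∧ mk p ∈ U

theorem exists_red (g : FreeGroup Z) : ∃ p, IsReduced p ∧ mk p = g := by
  classical exact ⟨_, isReduced_toWord, mk_toWord⟩

theorem enc_closed (w : Wd Z) : ∀ p d, enc (T w) (p ++ [d]) → enc (T w) p := by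
  induction w using List.reverseRecOn with
  | nil =>
    rintro p d ⟨h1, h2⟩
    rw [T_nil] at h2
    simpa using red_inj h1 IsReduced.nil h2
  | append_singleton w a ih =>
    rintro p d ⟨h1, h2⟩
    have hT : ∀ x, enc (T w) x → enc (T (w ++ [a])) x := fun x hx =>
      ⟨hx.1, by rw [T_append]; exact Or.inl hx.2⟩
    rw [T_append, T_single] at h2
    rcases h2 with h2 | ⟨_, rfl | rfl, h2⟩
    · exact hT _ (ih p d ⟨h1, h2⟩)
    · exact hT _ (ih p d ⟨h1, by rw [← h2]; simpa using mk_mem_T w⟩)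
    · obtain ⟨s, hs, e⟩ := exists_red (mk w)
      have hs' : enc (T w) s := ⟨hs, e ▸ mk_mem_T w⟩
      rcases mv_of hs h1 (by rw [e, ← h2]; rfl) with h | h
      · rw [(List.append_inj' h rfl).1]; exact hT _ hs'
      · exact hT _ (ih p d (ih _ _ (h ▸ hs')))

theorem enc_good (w : Wd Z) : Good (enc (T w)) := by
  refine ⟨((T_finite w).preimage (f := fun p : {p : Wd Z // IsReduced p} => mk p.1)
    fun p _ q _ e => Subtype.ext (red_inj p.2 q.2 e)).image Subtype.val |>.subset ?_, ?_⟩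
  · rintro p ⟨h1, h2⟩; exact ⟨⟨p, h1⟩, h2, rfl⟩
  · rintro p _ ⟨r, rfl⟩
    induction r using List.reverseRecOn with
    | nil => simp
    | append_singleton r a ih => intro h; exact ih (enc_closed w _ a (by simpa using h))

/-- the labelled tree of a word -/
def em (w : Wd Z) : Lab (Z × Bool) (Prop × Prop) := fun p => (enc (T w) p, enc {mk w} p)

def Val (t : Lab (Z × Bool) (Prop × Prop)) : Prop := ∃ w, t = em w

theorem val_iff (t : Lab (Z × Bool) (Prop × Prop)) : Val t ↔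
    ({p | (t p).1}.Finite ∧ (t []).1) ∧ ((∃ r, ∀ p, (t p).2 ↔ p = r) ∧ ∀ p, (t p).2 → (t p).1) ∧
      ∃ Y : Lab (Z × Bool) (Option (Z × Bool)), ∀ p d, Y (p ++ [d]) = some d ∧
        ((t (p ++ [d])).1 → (t p).1 ∧ Y p ≠ some (li d)) := by
  constructor
  · rintro ⟨w, rfl⟩
    refine ⟨⟨(enc_good w).1, IsReduced.nil, one_mem_T w⟩, ⟨?_, ?_⟩, fun p => p.getLast?,
      fun p d => ⟨by simp, fun h => ⟨enc_closed w p d h, (red_snoc.1 h.1).2⟩⟩⟩
    · obtain ⟨r, h1, h2⟩ := exists_red (mk w)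
      exact ⟨r, fun p => ⟨fun h => red_inj h.1 h1 (h.2.trans h2.symm), fun e => e ▸ ⟨h1, h2⟩⟩⟩
    · rintro p ⟨h1, h2⟩; exact ⟨h1, h2 ▸ mk_mem_T w⟩
  · rintro ⟨⟨h1, h2⟩, ⟨⟨r, h3⟩, h4⟩, Y, h5⟩
    have hred : ∀ p, (t p).1 → IsReduced p := by
      intro p
      induction p using List.reverseRecOn with
      | nil => intro _; exact IsReduced.nil
      | append_singleton p d ih =>
        intro h
        obtain ⟨h6, h7⟩ := (h5 p d).2 h
        refine red_snoc.2 ⟨ih h6, fun e => h7 ?_⟩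
        obtain ⟨l, rfl⟩ := List.getLast?_eq_some_iff.1 e
        exact (h5 _ _).1
    have hcl : ∀ p, (t p).1 → ∀ g ∈ T p, ∃ q, (t q).1 ∧ mk q = g := by
      intro p hp g hg
      obtain ⟨u, v, rfl, rfl⟩ := mem_T.1 hg
      refine ⟨u, ?_, rfl⟩
      clear hg
      induction v using List.reverseRecOn with
      | nil => simpa using hp
      | append_singleton v a ih => exact ih ((h5 _ a).2 (by simpa using hp)).1
    have key : ∀ s : Set (Wd Z), s.Finite → (∀ p ∈ s, (t p).1) → ∃ e : Wd Z, mk e = 1 ∧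
        (∀ g ∈ T e, ∃ q, (t q).1 ∧ mk q = g) ∧ ∀ p ∈ s, mk p ∈ T e := by
      intro s hs
      induction s, hs using Set.Finite.induction_on with
      | empty => intro _; exact ⟨[], rfl, hcl [] h2, by simp⟩
      | @insert x s _ _ ih =>
        intro h
        obtain ⟨e, e1, e2, e3⟩ := ih fun p hp => h p (Set.mem_insert_of_mem _ hp)
        have eT : T (e ++ (x ++ invRev x)) = T e ∪ T x := by
          rw [T_append, T_append, T_invRev, e1, one_smul, smul_inv_smul, Set.union_self]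
        refine ⟨e ++ (x ++ invRev x), by rw [← mul_mk, ← mul_mk, ← inv_mk, e1]; group, ?_, ?_⟩
        · rw [eT]
          rintro g (hg | hg)
          exacts [e2 g hg, hcl x (h x (Set.mem_insert _ _)) g hg]
        · rw [eT]
          rintro p (rfl | hp)
          exacts [Or.inr (mk_mem_T _), Or.inl (e3 p hp)]
    obtain ⟨e, e1, e2, e3⟩ := key _ h1 fun p hp => hp
    have hr := h4 r ((h3 r).2 rfl)
    refine ⟨e ++ r, funext fun p => Prod.ext (propext ?_) (propext ?_)⟩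
    · simp only [em, enc, T_append, e1, one_smul]
      refine ⟨fun h => ⟨hred p h, Or.inl (e3 p h)⟩, fun ⟨h6, h7⟩ => ?_⟩
      obtain ⟨q, h8, h9⟩ : ∃ q, (t q).1 ∧ mk q = mk p := h7.elim (e2 _) (hcl r hr _)
      rwa [← red_inj (hred q h8) h6 h9]
    · simp only [em, enc, ← mul_mk, e1, one_mul, Set.mem_singleton_iff, h3]
      exact ⟨fun h => by subst h; exact ⟨hred _ hr, rfl⟩, fun h => red_inj h.1 (hred r hr) h.2⟩

def nV (k : ℕ) : ℕ := 2 * 2 * (2 * 2 ^ (2 * (2 * 2)) * 2 * 2 ^ (2 * 2 * (k * 2 + 1) * 2))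

theorem rec_val [Finite Z] : Rec (Val (Z := Z)) (nV (Nat.card Z)) := by
  have h := Rec.loc (D := Z × Bool) fun d (x y : (Prop × Prop) × Option (Z × Bool)) =>
    y.2 = some d ∧ (y.1.1 → x.1.1 ∧ x.2 ≠ some (li d))
  have e : Nat.card ((Prop × Prop) × Option (Z × Bool)) = 2 * 2 * (Nat.card Z * 2 + 1) := by
    simp
  rw [e] at h
  exact (((Rec.fin.comap Prod.fst).and (Rec.root.comap Prod.fst)).and
    (((Rec.sing.comap Prod.snd).and (Rec.pt fun x : Prop × Prop => x.2 → x.1)).and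
      (Rec.ex h))).of_iff fun t => (val_iff t).symm

section Aut

variable {Q : Type} (tr : Q → Option (Z × Bool) → Q → Prop) (q0 : Q) (Ac : Q → Prop)

def Stp (x y : Q × Wd Z) : Prop := ∃ o, tr x.1 o y.1 ∧ y.2 = x.2 ++ o.toList

def AccW (v : Wd Z) : Prop := ∃ q, Ac q ∧ Relation.ReflTransGen (Stp tr) (q0, []) (q, v)

def GS (U : Lab (Z × Bool) Prop) (x y : Wd Z × Q) : Prop :=
  U x.1 ∧ U y.1 ∧ ((tr x.2 none y.2 ∧ y.1 = x.1) ∨ ∃ a, tr x.2 (some a) y.2 ∧ Mv x.1 a y.1)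

def Cld (U : Lab (Z × Bool) Prop) (Y : Lab (Z × Bool) (Set Q)) : Prop :=
  (∀ p, U p → ∀ q q', tr q none q' → q ∈ Y p → q' ∈ Y p) ∧
  ∀ p d, U p → U (p ++ [d]) → ∀ q q', (tr q (some d) q' → q ∈ Y p → q' ∈ Y (p ++ [d])) ∧
    (tr q (some (li d)) q' → q ∈ Y (p ++ [d]) → q' ∈ Y p)

theorem cld_iff {U : Lab (Z × Bool) Prop} {Y : Lab (Z × Bool) (Set Q)} :
    Cld tr U Y ↔ ∀ x y, GS tr U x y → x.2 ∈ Y x.1 → y.2 ∈ Y y.1 := by
  constructor
  · rintro ⟨h1, h2⟩ ⟨p, q⟩ ⟨p', q'⟩ ⟨h3, h4, ⟨h5, rfl⟩ | ⟨a, h5, rfl | rfl⟩⟩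
    · exact h1 _ h3 _ _ h5
    · exact (h2 _ _ h3 h4 _ _).1 h5
    · exact (h2 _ _ h4 h3 _ _).2 (by rwa [li_li])
  · intro h
    exact ⟨fun p hp q q' ht => h (p, q) (p, q') ⟨hp, hp, Or.inl ⟨ht, rfl⟩⟩,
      fun p d h1 h2 q q' => ⟨fun ht => h (p, q) (_, q') ⟨h1, h2, Or.inr ⟨d, ht, Or.inl rfl⟩⟩,
        fun ht => h (_, q) (p, q') ⟨h2, h1, Or.inr ⟨_, ht, Or.inr (by rw [li_li])⟩⟩⟩⟩

abbrev Rch (U : Lab (Z × Bool) Prop) := Relation.ReflTransGen (GS tr U)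

theorem Cld.rch {U : Lab (Z × Bool) Prop} {Y : Lab (Z × Bool) (Set Q)} (h : Cld tr U Y)
    {x y : Wd Z × Q} (hr : Rch tr U x y) (hx : x.2 ∈ Y x.1) : y.2 ∈ Y y.1 := by
  induction hr with
  | refl => exact hx
  | tail _ h2 ih => exact (cld_iff tr).1 h _ _ h2 ih

theorem cld_up (U : Lab (Z × Bool) Prop) (x : Wd Z × Q) :
    Cld tr U fun p => {q | Rch tr U x (p, q)} :=
  (cld_iff tr).2 fun _ _ h1 h2 => Relation.ReflTransGen.tail h2 h1

def LK (U R H : Lab (Z × Bool) Prop) : Prop :=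
  ∃ X : Lab (Z × Bool) (Set Q), (∀ p, U p ↔ (X p).Nonempty) ∧
    ∀ Y : Lab (Z × Bool) (Set Q × Set Q), Cld tr U (fun p => (Y p).1) → Cld tr U (fun p => (Y p).2) →
      ((∀ p, X p ∩ (Y p).1 ⊆ (Y p).2) ∨ ∀ p, X p ∩ (Y p).2 ⊆ (Y p).1) ∧
      ((∀ p, R p → q0 ∈ (Y p).1) → ∀ p, X p ⊆ (Y p).1) ∧
      ((∃ p, (X p ∩ (Y p).1).Nonempty) → ∃ p, H p ∧ ∃ q ∈ (Y p).1, Ac q)

def nC (m : ℕ) : ℕ := 2 * (2 * 2 ^ m * 2)
def nK (m : ℕ) : ℕ := 2 ^ (2 * 2 ^ (nC m * (nC m * (2 * 2 * (2 * 2 * (2 * 2))))))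

theorem rec_cld [Finite Q] : Rec (fun F : Lab (Z × Bool) (Prop × Set Q) =>
    Cld tr (fun p => (F p).1) fun p => (F p).2) (nC (Nat.card Q)) := by
  have h := Rec.loc (D := Z × Bool) fun d (x y : Prop × Set Q) => x.1 → y.1 → ∀ q q',
    (tr q (some d) q' → q ∈ x.2 → q' ∈ y.2) ∧ (tr q (some (li d)) q' → q ∈ y.2 → q' ∈ x.2)
  rw [Nat.card_prod, Rec.card_set, show Nat.card Prop = 2 by simp] at h
  exact (Rec.pt fun x : Prop × Set Q => x.1 → ∀ q q', tr q none q' → q ∈ x.2 → q' ∈ x.2).and h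

theorem rec_LK [Finite Q] : Rec (fun F : Lab (Z × Bool) (Prop × Prop × Prop) =>
    LK tr q0 Ac (fun p => (F p).1) (fun p => (F p).2.1) fun p => (F p).2.2) (nK (Nat.card Q)) :=
  Rec.ex ((Rec.pt fun x : (Prop × Prop × Prop) × Set Q => x.1.1 ↔ x.2.Nonempty).and (Rec.all
    (R := fun (F : Lab (Z × Bool) ((Prop × Prop × Prop) × Set Q))
      (Y : Lab (Z × Bool) (Set Q × Set Q)) =>
      Cld tr (fun p => (F p).1.1) (fun p => (Y p).1) → Cld tr (fun p => (F p).1.1) (fun p => (Y p).2) →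
      ((∀ p, (F p).2 ∩ (Y p).1 ⊆ (Y p).2) ∨ ∀ p, (F p).2 ∩ (Y p).2 ⊆ (Y p).1) ∧
      ((∀ p, (F p).1.2.1 → q0 ∈ (Y p).1) → ∀ p, (F p).2 ⊆ (Y p).1) ∧
      ((∃ p, ((F p).2 ∩ (Y p).1).Nonempty) → ∃ p, (F p).1.2.2 ∧ ∃ q ∈ (Y p).1, Ac q))
    (((rec_cld tr).comap fun x : ((Prop × Prop × Prop) × Set Q) × Set Q × Set Q =>
      (x.1.1.1, x.2.1)).imp
    (((rec_cld tr).comap fun x : ((Prop × Prop × Prop) × Set Q) × Set Q × Set Q =>
      (x.1.1.1, x.2.2)).imp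
    (((Rec.pt fun x : ((Prop × Prop × Prop) × Set Q) × Set Q × Set Q =>
        x.1.2 ∩ x.2.1 ⊆ x.2.2).or (Rec.pt fun x => x.1.2 ∩ x.2.2 ⊆ x.2.1)).and
      (((Rec.pt fun x : ((Prop × Prop × Prop) × Set Q) × Set Q × Set Q =>
        x.1.1.2.1 → q0 ∈ x.2.1).imp (Rec.pt fun x => x.1.2 ⊆ x.2.1)).and
      ((Rec.pte fun x : ((Prop × Prop × Prop) × Set Q) × Set Q × Set Q =>
        (x.1.2 ∩ x.2.1).Nonempty).imp (Rec.pte fun x => x.1.1.2.2 ∧ ∃ q ∈ x.2.1, Ac q))))))))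

/-- a run that has stayed inside `U` and is now at the configuration `c` -/
def At (U : Set (FreeGroup Z)) (r : FreeGroup Z) (v : Wd Z) (c : Wd Z × Q) : Prop :=
  Relation.ReflTransGen (Stp tr) (q0, []) (c.2, v) ∧ r • T v ⊆ U ∧ mk c.1 = r * mk v

theorem At.ext {U : Set (FreeGroup Z)} {r : FreeGroup Z} {v : Wd Z} {c c' : Wd Z × Q}
    (h : At tr q0 U r v c) (hr : Rch tr (enc U) c c') : ∃ v', At tr q0 U r (v ++ v') c' := by
  induction hr with
  | refl => exact ⟨[], by simpa using h⟩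
  | @tail x y _ h2 ih =>
    obtain ⟨v', h3, h4, h5⟩ := ih
    obtain ⟨-, h6, ⟨h7, h8⟩ | ⟨a, h7, h8⟩⟩ := h2
    · exact ⟨v', h3.tail ⟨none, h7, by simp⟩, h4, h8 ▸ h5⟩
    · have e : mk y.1 = r * mk (v ++ (v' ++ [a])) := by
        rw [h8.mk_eq, h5, mul_assoc, mul_mk, List.append_assoc]
      refine ⟨v' ++ [a], h3.tail ⟨some a, h7, by simp⟩, ?_, e⟩
      rw [← List.append_assoc, T_append, T_single, Set.smul_set_union]
      refine Set.union_subset h4 ?_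
      rintro _ ⟨_, ⟨_, rfl | rfl, rfl⟩, rfl⟩
      · exact h4 ⟨_, mk_mem_T _, by simp⟩
      · have := h6.2
        rw [e] at this
        simpa using this

theorem exists_least {α : Type} {R : α → α → Prop} (ht : ∀ a b c, R a b → R b c → R a c)
    (s : Set α) (hs : s.Finite) (h : ∀ x ∈ s, ∀ y ∈ s, R x y ∨ R y x) (hne : s.Nonempty) :
    ∃ x ∈ s, ∀ y ∈ s, R x y := by
  induction s, hs using Set.Finite.induction_on with
  | empty => exact absurd hne (by simp)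
  | @insert a s _ _ ih =>
    have haa : R a a := by simpa using h a (Set.mem_insert _ _) a (Set.mem_insert _ _)
    rcases s.eq_empty_or_nonempty with rfl | hne'
    · exact ⟨a, Set.mem_insert _ _, by simpa using haa⟩
    · obtain ⟨x, hx, h1⟩ := ih (fun x hx y hy => h x (Or.inr hx) y (Or.inr hy)) hne'
      rcases h a (Or.inl rfl) x (Or.inr hx) with h2 | h2
      · refine ⟨a, Or.inl rfl, ?_⟩
        rintro y (rfl | hy)
        exacts [haa, ht _ _ _ h2 (h1 y hy)]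
      · refine ⟨x, Or.inr hx, ?_⟩
        rintro y (rfl | hy)
        exacts [h2, h1 y hy]

theorem cover {U : Set (FreeGroup Z)} {r : FreeGroup Z} (n : ℕ) : ∀ (s : Set (Wd Z × Q)),
    s.Finite → s.ncard = n → (∀ x ∈ s, ∀ y ∈ s, Rch tr (enc U) x y ∨ Rch tr (enc U) y x) →
    ∀ v c, At tr q0 U r v c → (∀ x ∈ s, Rch tr (enc U) c x) →
      ∃ v' c', At tr q0 U r (v ++ v') c' ∧ (c' ∈ s ∨ c' = c) ∧ ∀ x ∈ s, mk x.1 ∈ r • T (v ++ v') := by
  induction n with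
  | zero =>
    intro s hs e _ v c h _
    rw [(Set.ncard_eq_zero hs).1 e]
    exact ⟨[], c, by simpa using h, Or.inr rfl, by simp⟩
  | succ n ih =>
    intro s hs e h1 v c h2 h3
    obtain ⟨x, hx, h4⟩ := exists_least (fun _ _ _ => Relation.ReflTransGen.trans) s hs h1
      (Set.nonempty_of_ncard_ne_zero (by omega))
    obtain ⟨v', h5⟩ := h2.ext tr q0 (h3 x hx)
    obtain ⟨v'', c', h6, h7, h8⟩ := ih (s \ {x}) hs.sdiff
      (by rw [Set.ncard_sdiff_singleton_of_mem hx, e]; rfl)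
      (fun a ha b hb => h1 a ha.1 b hb.1) _ x h5 fun y hy => h4 y hy.1
    rw [List.append_assoc] at h6 h8
    refine ⟨_, c', h6, Or.inl (h7.elim (fun h => h.1) fun h => h ▸ hx), fun y hy => ?_⟩
    rcases eq_or_ne y x with rfl | hne
    · exact ⟨mk (v ++ v'), mem_T.2 ⟨_, v'', by simp, rfl⟩, h5.2.2.symm⟩
    · exact h8 y ⟨hy, hne⟩

theorem visit {U : Set (FreeGroup Z)} {r : FreeGroup Z} {p0 : Wd Z} (h0 : IsReduced p0)
    (e0 : mk p0 = r) {c : Q × Wd Z} (h : Relation.ReflTransGen (Stp tr) (q0, []) c)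
    (hU : r • T c.2 ⊆ U) : ∃ (s : Set (Wd Z × Q)) (p : Wd Z), mk p = r * mk c.2 ∧ (p, c.1) ∈ s ∧
      (∀ x ∈ s, ∀ y ∈ s, Rch tr (enc U) x y ∨ Rch tr (enc U) y x) ∧
      (∀ x ∈ s, enc U x.1 ∧ Rch tr (enc U) (p0, q0) x ∧ Rch tr (enc U) x (p, c.1)) ∧
      ∀ g ∈ r • T c.2, ∃ x ∈ s, mk x.1 = g := by
  induction h with
  | refl =>
    refine ⟨{(p0, q0)}, p0, by rw [e0, ← one_eq_mk, mul_one], rfl, ?_, ?_, ?_⟩
    · rintro _ rfl _ rfl; exact Or.inl .refl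
    · rintro _ rfl
      exact ⟨⟨h0, hU ⟨1, one_mem_T _, by simp [e0]⟩⟩, .refl, .refl⟩
    · rintro _ ⟨g, hg, rfl⟩
      rw [T_nil] at hg
      subst hg
      exact ⟨_, rfl, by simp [e0]⟩
  | @tail b c _ h2 ih =>
    obtain ⟨o, h3, h4⟩ := h2
    have hsub : T b.2 ⊆ T c.2 := by rw [h4, T_append]; exact Set.subset_union_left
    obtain ⟨s, p, e1, m1, h5, h6, h7⟩ := ih ((Set.smul_set_mono hsub).trans hU)
    obtain ⟨p', hp', e2⟩ := exists_red (r * mk c.2)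
    have hin : enc U p' := ⟨hp', hU ⟨_, mk_mem_T _, e2.symm⟩⟩
    have hst : GS tr (enc U) (p, b.1) (p', c.1) := by
      refine ⟨(h6 _ m1).1, hin, ?_⟩
      cases o with
      | none => exact Or.inl ⟨h3, red_inj hp' (h6 _ m1).1.1 (by rw [e1, e2, h4]; simp)⟩
      | some a =>
        exact Or.inr ⟨a, h3, mv_of (h6 _ m1).1.1 hp' (by rw [e1, e2, h4, mul_assoc]; simp)⟩
    refine ⟨insert (p', c.1) s, p', e2, Or.inl rfl, ?_, ?_, ?_⟩
    · rintro x (rfl | hx) y (rfl | hy)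
      · exact Or.inl .refl
      · exact Or.inr ((h6 y hy).2.2.tail hst)
      · exact Or.inl ((h6 x hx).2.2.tail hst)
      · exact h5 x hx y hy
    · rintro x (rfl | hx)
      · exact ⟨hin, (h6 _ m1).2.1.tail hst, .refl⟩
      · exact ⟨(h6 x hx).1, (h6 x hx).2.1, (h6 x hx).2.2.tail hst⟩
    · rintro _ ⟨g, hg, rfl⟩
      rw [h4, T_append] at hg
      rcases hg with hg | ⟨k, hk, rfl⟩
      · obtain ⟨x, hx, e⟩ := h7 _ ⟨g, hg, rfl⟩
        exact ⟨x, Or.inr hx, e⟩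
      · cases o with
        | none =>
          rw [Option.toList_none, T_nil] at hk
          subst hk
          exact ⟨_, Or.inr m1, by simp [e1]⟩
        | some a =>
          rw [Option.toList_some, T_single] at hk
          rcases hk with rfl | rfl
          · exact ⟨_, Or.inr m1, by simp [e1]⟩
          · exact ⟨_, Or.inl rfl, by simp [e2, h4]⟩

theorem LK_iff [Finite Q] {U : Set (FreeGroup Z)} (hU : {p | enc U p}.Finite) {r h : FreeGroup Z}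
    (hr : r ∈ U) : LK tr q0 Ac (enc U) (enc {r}) (enc {h}) ↔
      ∃ v, AccW tr q0 Ac v ∧ r • T v = U ∧ r * mk v = h := by
  obtain ⟨p0, h0, e0⟩ := exists_red r
  constructor
  · rintro ⟨X, h1, h2⟩
    let s : Set (Wd Z × Q) := {x | x.2 ∈ X x.1}
    have hs : s.Finite := (hU.prod (Set.finite_univ (α := Q))).subset fun x hx =>
      ⟨(h1 _).2 ⟨_, hx⟩, trivial⟩
    have t1 : ∀ x ∈ s, ∀ y ∈ s, Rch tr (enc U) x y ∨ Rch tr (enc U) y x := fun x hx y hy => by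
      rcases (h2 (fun p => ({q | Rch tr (enc U) x (p, q)}, {q | Rch tr (enc U) y (p, q)}))
        (cld_up tr _ x) (cld_up tr _ y)).1 with h3 | h3
      · exact Or.inr (h3 x.1 ⟨hx, .refl⟩)
      · exact Or.inl (h3 y.1 ⟨hy, .refl⟩)
    have t2 : ∀ x ∈ s, Rch tr (enc U) (p0, q0) x := fun x hx =>
      (h2 (fun p => ({q | Rch tr (enc U) (p0, q0) (p, q)}, {q | Rch tr (enc U) (p0, q0) (p, q)}))
        (cld_up tr _ _) (cld_up tr _ _)).2.1 (fun p hp => by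
          rw [red_inj hp.1 h0 (hp.2.trans e0.symm)]; exact .refl) x.1 hx
    have t3 : ∀ x ∈ s, ∃ p q, mk p = h ∧ Ac q ∧ Rch tr (enc U) x (p, q) := fun x hx => by
      obtain ⟨p, h3, q, h4, h5⟩ := (h2 (fun p => ({q | Rch tr (enc U) x (p, q)},
        {q | Rch tr (enc U) x (p, q)})) (cld_up tr _ _) (cld_up tr _ _)).2.2 ⟨x.1, x.2, hx, .refl⟩
      exact ⟨p, q, h3.2, h5, h4⟩
    obtain ⟨q1, hq1⟩ := (h1 p0).1 ⟨h0, e0 ▸ hr⟩
    have a0 : At tr q0 U r [] (p0, q0) :=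
      ⟨.refl, by rw [T_nil]; simpa using hr, by rw [e0, ← one_eq_mk, mul_one]⟩
    obtain ⟨x, hx, hx'⟩ := exists_least (fun _ _ _ => Relation.ReflTransGen.trans) s hs t1
      ⟨_, show (p0, q1) ∈ s from hq1⟩
    obtain ⟨v2, a2⟩ := a0.ext tr q0 (t2 x hx)
    obtain ⟨v3, c, a3, h3, h4⟩ := cover tr q0 _ s hs rfl t1 _ x a2 hx'
    obtain ⟨p, q, h5, h6, h7⟩ := t3 c (h3.elim id fun e => e ▸ hx)
    obtain ⟨v4, a4⟩ := a3.ext tr q0 h7
    refine ⟨_, ⟨q, h6, a4.1⟩, a4.2.1.antisymm fun g hg => ?_, a4.2.2.symm.trans h5⟩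
    obtain ⟨p', h8, rfl⟩ := exists_red g
    obtain ⟨q', h9⟩ := (h1 p').1 ⟨h8, hg⟩
    rw [T_append]
    exact Set.smul_set_mono Set.subset_union_left (h4 (p', q') h9)
  · rintro ⟨v, ⟨q, h1, h2⟩, rfl, rfl⟩
    obtain ⟨s, p, e1, m1, h5, h6, h7⟩ := visit tr q0 h0 e0 h2 le_rfl
    refine ⟨fun p => {q | (p, q) ∈ s}, fun p' => ⟨fun h => ?_, fun ⟨q', h⟩ => (h6 _ h).1⟩,
      fun Y c1 c2 => ⟨?_, fun h p' q' hq => ?_, fun ⟨p', q', h3, h4⟩ => ?_⟩⟩
    · obtain ⟨x, hx, e⟩ := h7 _ h.2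
      exact ⟨x.2, by rw [← red_inj (h6 x hx).1.1 h.1 e]; exact hx⟩
    · by_contra H
      simp only [not_or, not_forall, Set.not_subset] at H
      obtain ⟨⟨p1, q1, h3, h4⟩, p2, q2, h8, h9⟩ := H
      rcases h5 _ h3.1 _ h8.1 with h | h
      exacts [h9 (c1.rch tr h h3.2), h4 (c2.rch tr h h8.2)]
    · exact c1.rch tr (h6 _ hq).2.1 (h p0 ⟨h0, e0⟩)
    · exact ⟨p, ⟨(h6 _ m1).1.1, e1⟩, q, c1.rch tr (h6 _ h3).2.2 h4, h1⟩

end Aut

end Pool.Agent.H73.TRec
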