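import Pool.Agent.H73.TRec2

/-!
Recognizability of a rational subset of a free inverse monoid is a bounded statement.
-/

set_option autoImplicit false

namespace Pool.Agent.H73.TRec

open FreeGroup Pointwise Pool.Agent.H73.FInv

variable {Z : Type}

def Bl (N : ℕ) (w : Wd Z) : Prop := ∀ p, enc (T w) p → p.length < N

theorem Bl.congr {N : ℕ} {w w' : Wd Z} (h : Bl N w) (e : M w' = M w) : Bl N w' := by
  unfold Bl; rwa [show T w' = T w from congrArg Prod.fst e]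

theorem Bl.left {N : ℕ} {u v : Wd Z} (h : Bl N (u ++ v)) : Bl N u := fun p hp =>
  h p ⟨hp.1, by rw [T_append]; exact Or.inl hp.2⟩

theorem exists_bl (w : Wd Z) : ∃ N, Bl N w := by
  obtain ⟨N, hN⟩ := ((enc_good w).1.image List.length).bddAbove
  exact ⟨N + 1, fun p hp => Nat.lt_succ_of_le (hN ⟨p, hp, rfl⟩)⟩

theorem exists_complete [Finite Z] (N : ℕ) :
    ∃ L : List (Wd Z), ∀ w, Bl N w → ∃ l ∈ L, M l = M w := by
  let B : Set (FreeGroup Z) := mk '' {p | p.length < N}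
  have hB : B.Finite := (List.finite_length_lt _ N).image _
  have hS : (M '' {w : Wd Z | Bl N w}).Finite := by
    refine (hB.finite_subsets.prod hB).subset ?_
    rintro _ ⟨w, hw, rfl⟩
    have : T w ⊆ B := fun g hg => by
      obtain ⟨p, h1, rfl⟩ := exists_red g
      exact ⟨p, hw p ⟨h1, hg⟩, rfl⟩
    exact ⟨this, this (mk_mem_T w)⟩
  refine ⟨hS.toFinset.toList.map (Function.invFun M), fun w hw => ⟨_, List.mem_map_of_mem (a := M w)
    (by simpa using ⟨w, hw, rfl⟩), Function.invFun_eq ⟨w, rfl⟩⟩⟩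

section Aut

variable {Q : Type} (tr : Q → Option (Z × Bool) → Q → Prop) (q0 : Q) (Ac : Q → Prop)

def Kw (x : Wd Z) : Prop := ∃ v, AccW tr q0 Ac v ∧ M v = M x

def Res (u : Wd Z) : Set (Wd Z) := {w | Kw tr q0 Ac (u ++ w)}

theorem Kw_congr {a b w w' : Wd Z} (h : M a = M b) (h' : M w = M w') :
    Kw tr q0 Ac (invRev a ++ w) ↔ Kw tr q0 Ac (invRev b ++ w') := by
  simp only [Kw, M_append, M_invRev, h, h']

def LT (t s : Lab (Z × Bool) (Prop × Prop)) : Prop :=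
  LK tr q0 Ac (fun p => (t p).1 ∨ (s p).1) (fun p => (t p).2) fun p => (s p).2

theorem LT_em [Finite Q] (a w : Wd Z) : LT tr q0 Ac (em a) (em w) ↔ Kw tr q0 Ac (invRev a ++ w) := by
  have e : (fun p => (em a p).1 ∨ (em w p).1) = enc (T a ∪ T w) := by
    funext p; simp only [em, enc, Set.mem_union, and_or_left]
  unfold LT
  rw [e]
  refine (LK_iff tr q0 Ac ?_ (Or.inl (mk_mem_T a))).trans (exists_congr fun v => ?_)
  · rw [← e]; exact (enc_good a).1.union (enc_good w).1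
  · simp only [M, T_append, T_invRev, ← mul_mk, ← inv_mk, Prod.mk.injEq, ← Set.smul_set_union,
      eq_inv_smul_iff, eq_inv_mul_iff_mul_eq]

def EE (t t' : Lab (Z × Bool) (Prop × Prop)) : Prop :=
  (Val t ∧ Val t') ∧ ∀ s, Val s → (LT tr q0 Ac t s ↔ LT tr q0 Ac t' s)

theorem EE_em [Finite Q] (a b : Wd Z) :
    EE tr q0 Ac (em a) (em b) ↔ Res tr q0 Ac (invRev a) = Res tr q0 Ac (invRev b) := by
  constructor
  · intro h
    ext w
    simpa only [LT_em, Res, Set.mem_ofPred_eq] using h.2 _ ⟨w, rfl⟩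
  · intro h
    refine ⟨⟨⟨a, rfl⟩, b, rfl⟩, ?_⟩
    rintro _ ⟨w, rfl⟩
    rw [LT_em, LT_em]
    exact Set.ext_iff.1 h w

def nX (k m : ℕ) : ℕ := nV k * (nK m * nK m)
def nE (k m : ℕ) : ℕ := nV k * nV k * 2 ^ nX k m
def nH (k m : ℕ) : ℕ := 2 ^ (nE k m * 2 ^ (nE k m * 2)) + nE k m
def nA (k m : ℕ) : ℕ := nV k * 2 ^ (nE k m * 2 ^ (nH k m + 1))
def nW (k m : ℕ) : ℕ := nA k m + nH k m + nX k m

theorem rec_X [Finite Z] [Finite Q] : Rec (fun F : Lab (Z × Bool) (((Prop × Prop) × Prop × Prop) ×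
    Prop × Prop) => Val (fun p => (F p).2) →
      (LT tr q0 Ac (fun p => (F p).1.1) (fun p => (F p).2) ↔
        LT tr q0 Ac (fun p => (F p).1.2) fun p => (F p).2)) (nX (Nat.card Z) (Nat.card Q)) :=
  (rec_val.comap Prod.snd).imp
    (((rec_LK tr q0 Ac).comap fun x : ((Prop × Prop) × Prop × Prop) × Prop × Prop =>
      (x.1.1.1 ∨ x.2.1, x.1.1.2, x.2.2)).iff
    ((rec_LK tr q0 Ac).comap fun x : ((Prop × Prop) × Prop × Prop) × Prop × Prop =>
      (x.1.2.1 ∨ x.2.1, x.1.2.2, x.2.2)))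

theorem rec_EE [Finite Z] [Finite Q] : Rec (fun F : Lab (Z × Bool) ((Prop × Prop) × Prop × Prop) =>
    EE tr q0 Ac (fun p => (F p).1) fun p => (F p).2) (nE (Nat.card Z) (Nat.card Q)) :=
  ((rec_val.comap Prod.fst).and (rec_val.comap Prod.snd)).and (Rec.all
    (R := fun (F : Lab (Z × Bool) ((Prop × Prop) × Prop × Prop)) s => Val s →
      (LT tr q0 Ac (fun p => (F p).1) s ↔ LT tr q0 Ac (fun p => (F p).2) s)) (rec_X tr q0 Ac))

theorem em_off {w p : Wd Z} (h : ¬ (em w p).1) : em w p = (False, False) :=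
  Prod.ext (propext ⟨h, False.elim⟩) (propext ⟨fun h' => h ⟨h'.1, h'.2 ▸ mk_mem_T w⟩, False.elim⟩)

theorem finite_iff [Finite Z] [Finite Q] : (Set.range (Res tr q0 Ac)).Finite ↔
    ∀ a, Bl (nA (Nat.card Z) (Nat.card Q)) a → ∃ b, Bl (nH (Nat.card Z) (Nat.card Q)) b ∧
      ∀ w, Bl (nW (Nat.card Z) (Nat.card Q)) w →
        (Kw tr q0 Ac (invRev a ++ w) ↔ Kw tr q0 Ac (invRev b ++ w)) := by
  constructor
  · intro h a _
    have hB : ∃ B, ∀ t, EE tr q0 Ac t t → ∃ t', EE tr q0 Ac t t' ∧ ∀ p, (t' p).1 → p.length < B := by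
      choose N hN using exists_bl (Z := Z)
      obtain ⟨B, hB⟩ :=
        (h.image fun C => N (invRev (Function.invFun (Res tr q0 Ac) C))).bddAbove
      refine ⟨B, ?_⟩
      rintro _ ⟨⟨⟨c, rfl⟩, -⟩, -⟩
      refine ⟨em (invRev (Function.invFun (Res tr q0 Ac) (Res tr q0 Ac (invRev c)))), ?_,
        fun p hp => (hN _ p hp).trans_le (hB ⟨_, ⟨_, rfl⟩, rfl⟩)⟩
      rw [EE_em, invRev_invRev]
      exact (Function.invFun_eq (f := Res tr q0 Ac) ⟨_, rfl⟩).symm
    obtain ⟨t', h1, h2⟩ := reps Prod.fst (False, False) (rec_EE tr q0 Ac)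
      (fun t t' h => ⟨h.1.symm, fun s hs => (h.2 s hs).symm⟩)
      (fun t t' t'' h h' => ⟨⟨h.1.1, h'.1.2⟩, fun s hs => (h.2 s hs).trans (h'.2 s hs)⟩)
      (by
        rintro _ ⟨⟨⟨c, rfl⟩, -⟩, -⟩
        exact ⟨enc_good c, fun p => em_off⟩) hB (em a) ((EE_em tr q0 Ac a a).2 rfl)
    obtain ⟨b, rfl⟩ := h1.1.2
    exact ⟨b, h2, fun w _ => Set.ext_iff.1 ((EE_em tr q0 Ac a b).1 h1) w⟩
  · intro h
    have h1 : ∀ a, Bl (nA (Nat.card Z) (Nat.card Q)) a → ∃ b, Bl (nH (Nat.card Z) (Nat.card Q)) b ∧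
        EE tr q0 Ac (em a) (em b) := by
      intro a ha
      obtain ⟨b, hb, h2⟩ := h a ha
      refine ⟨b, hb, ⟨⟨a, rfl⟩, b, rfl⟩, ?_⟩
      by_contra H
      obtain ⟨s, h3, h4⟩ := small (R := fun (F : Lab (Z × Bool) ((Prop × Prop) × Prop × Prop)) s =>
        ¬ (Val s → (LT tr q0 Ac (fun p => (F p).1) s ↔ LT tr q0 Ac (fun p => (F p).2) s)))
        (K := nA (Nat.card Z) (Nat.card Q) + nH (Nat.card Z) (Nat.card Q))
        Prod.fst (rec_X tr q0 Ac).not (f := fun p => (em a p, em b p))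
        (fun s hs => by
          obtain ⟨w, rfl⟩ := (Classical.not_imp.1 hs).1
          exact enc_good w) (s0 := ((False, False), (False, False)))
        (fun q hq => by
          rw [em_off fun h => by have := ha q h; omega, em_off fun h => by have := hb q h; omega])
        (not_forall.1 H)
      obtain ⟨⟨w, rfl⟩, h5⟩ := Classical.not_imp.1 h3
      exact h5 (by rw [LT_em, LT_em]; exact h2 w h4)
    have h2 : ∀ a, ∃ b, Bl (nH (Nat.card Z) (Nat.card Q)) b ∧ EE tr q0 Ac (em a) (em b) := by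
      by_contra H
      push Not at H
      obtain ⟨a, ha⟩ := H
      obtain ⟨t, ⟨⟨c, rfl⟩, h3⟩, h4⟩ := small1 (P := fun t => Val t ∧ ¬ ∃ t', EE tr q0 Ac t t' ∧
        ∀ p, (t' p).1 → p.length < nH (Nat.card Z) (Nat.card Q)) Prod.fst
        (rec_val.and (Rec.ex ((rec_EE tr q0 Ac).and ((Rec.height _).comap
          fun x : (Prop × Prop) × Prop × Prop => x.2.1))).not)
        (by rintro _ ⟨⟨c, rfl⟩, -⟩; exact enc_good c)
        ⟨em a, ⟨a, rfl⟩, by
          rintro ⟨t', h3, h4⟩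
          obtain ⟨b, rfl⟩ := h3.1.2
          exact ha b h4 h3⟩
      obtain ⟨b, h5, h6⟩ := h1 c h4
      exact h3 ⟨_, h6, h5⟩
    obtain ⟨L, hL⟩ := exists_complete (Z := Z) (nH (Nat.card Z) (Nat.card Q))
    refine ((List.finite_toSet L).image fun l => Res tr q0 Ac (invRev l)).subset ?_
    rintro _ ⟨u, rfl⟩
    obtain ⟨b, h3, h4⟩ := h2 (invRev u)
    obtain ⟨l, h5, h6⟩ := hL b h3
    rw [EE_em, invRev_invRev] at h4
    refine ⟨l, h5, ?_⟩
    rw [h4]
    ext w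
    exact Kw_congr tr q0 Ac h6 rfl

end Aut

end Pool.Agent.H73.TRec
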