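import Pool.Agent.H73.TRec3
import Pool.Agent.H37.RE

/-!
Recognizability of rational subsets of free inverse monoids is decidable.
-/

set_option autoImplicit false

namespace Pool.Agent.H73.TRec

open FreeGroup Pointwise Pool.Agent.H73.FInv Pool.Agent.H37

variable {α : Type} [Primcodable α] {n : ℕ}

abbrev V (n : ℕ) := Wd (Fin n)

@[fun_prop] theorem ci_invRev {f : α → V n} (hf : CI ∅ f) : CI ∅ fun a => invRev (f a) := by
  unfold invRev; fun_prop

theorem ci_red0 : CI ∅ (reduce : V n → V n) := by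
  refine CI.of_eq (f := fun w : V n => w.foldr (fun x l => l.head?.elim [x] fun y =>
    cond (decide (x.1 = y.1) && decide (x.2 = !y.2)) l.tail (x :: l)) []) (by fun_prop) fun w => ?_
  induction w with
  | nil => rfl
  | cons x w ih =>
    rw [List.foldr_cons, ih, reduce.cons]
    cases reduce w with
    | nil => rfl
    | cons y l => by_cases h1 : x.1 = y.1 <;> by_cases h2 : x.2 = !y.2 <;> simp [h1, h2]

@[fun_prop] theorem ci_red {f : α → V n} (hf : CI ∅ f) : CI ∅ fun a => reduce (f a) :=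
  ci_red0.comp hf

def geq (u v : V n) : Bool := decide (reduce u = reduce v)

theorem geq_iff {u v : V n} : geq u v = true ↔ mk u = mk v := by
  simp only [geq, decide_eq_true_eq]
  exact ⟨reduce.exact, reduce.sound⟩

@[fun_prop] theorem ci_geq {f g : α → V n} (hf : CI ∅ f) (hg : CI ∅ g) :
    CI ∅ fun a => geq (f a) (g a) := by unfold geq; fun_prop

theorem mem_T_le {Z : Type} {w : Wd Z} {g : FreeGroup Z} :
    g ∈ T w ↔ ∃ i ≤ w.length, g = mk (w.take i) := by
  constructor
  · intro h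
    obtain ⟨u, v, rfl, rfl⟩ := mem_T.1 h
    exact ⟨u.length, by simp, by simp⟩
  · rintro ⟨i, -, rfl⟩; exact ⟨i, rfl⟩

def tle (u v : V n) : Bool :=
  (List.range (u.length + 1)).all fun i => (List.range (v.length + 1)).any fun j =>
    geq (u.take i) (v.take j)

theorem tle_iff {u v : V n} : tle u v = true ↔ T u ⊆ T v := by
  simp only [tle, List.all_eq_true, List.any_eq_true, List.mem_range, Nat.lt_succ_iff, geq_iff]
  constructor
  · intro h x hx
    obtain ⟨i, hi, rfl⟩ := mem_T_le.1 hx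
    obtain ⟨j, -, e⟩ := h i hi
    exact ⟨j, e.symm⟩
  · intro h i _
    exact mem_T_le.1 (h ⟨i, rfl⟩)

@[fun_prop] theorem ci_tle {f g : α → V n} (hf : CI ∅ f) (hg : CI ∅ g) :
    CI ∅ fun a => tle (f a) (g a) := by unfold tle; fun_prop

def meq (u v : V n) : Bool := tle u v && tle v u && geq u v

theorem meq_iff {u v : V n} : meq u v = true ↔ M u = M v := by
  simp only [meq, Bool.and_eq_true, tle_iff, geq_iff, M, Prod.mk.injEq, Set.Subset.antisymm_iff]

@[fun_prop] theorem ci_meq {f g : α → V n} (hf : CI ∅ f) (hg : CI ∅ g) :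
    CI ∅ fun a => meq (f a) (g a) := by unfold meq; fun_prop

def blb (N : ℕ) (w : V n) : Bool :=
  (List.range (w.length + 1)).all fun i => decide ((reduce (w.take i)).length < N)

theorem blb_iff {N : ℕ} {w : V n} : blb N w = true ↔ Bl N w := by
  simp only [blb, List.all_eq_true, List.mem_range, Nat.lt_succ_iff, decide_eq_true_eq]
  constructor
  · rintro h p ⟨h1, h2⟩
    obtain ⟨i, hi, e⟩ := mem_T_le.1 h2
    rw [← h1.reduce_eq, reduce.sound e]; exact h i hi
  · intro h i _
    exact h _ ⟨isReduced_iff_reduce_eq.2 reduce.idem, ⟨i, reduce.self.symm⟩⟩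

@[fun_prop] theorem ci_blb {f : α → ℕ} {g : α → V n} (hf : CI ∅ f) (hg : CI ∅ g) :
    CI ∅ fun a => blb (f a) (g a) := by unfold blb; fun_prop

theorem exists_lists (n : ℕ) : ∃ F : ℕ → List (V n), CI ∅ F ∧
    ∀ N w, Bl N w → ∃ l ∈ F N, M l = M w := by
  obtain ⟨al, hal⟩ : ∃ al : List (Fin n × Bool), ∀ a, a ∈ al :=
    ⟨Finset.univ.toList, fun a => by simp⟩
  obtain ⟨F, hF, h⟩ := CI.exists_choice (O := ∅) (p := fun (N : ℕ) (L : List (V n)) =>
    (L.any fun l => meq l []) && L.all fun l => al.all fun a =>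
      !blb N (l ++ [a]) || L.any fun l' => meq l' (l ++ [a])) (by fun_prop) fun N => by
    obtain ⟨L, hL⟩ := exists_complete (Z := Fin n) N
    refine ⟨[] :: L, ?_⟩
    simp only [Bool.and_eq_true, List.any_eq_true, meq_iff, List.all_eq_true, Bool.or_eq_true,
      Bool.not_eq_true', ← Bool.not_eq_true, blb_iff, ← imp_iff_not_or]
    refine ⟨⟨[], by simp, rfl⟩, fun l _ a _ h => ?_⟩
    obtain ⟨l', h1, h2⟩ := hL _ h
    exact ⟨l', List.mem_cons_of_mem _ h1, h2⟩
  refine ⟨F, hF, fun N w => ?_⟩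
  have := h N
  simp only [Bool.and_eq_true, List.any_eq_true, meq_iff, List.all_eq_true, Bool.or_eq_true,
    Bool.not_eq_true', ← Bool.not_eq_true, blb_iff, ← imp_iff_not_or] at this
  induction w using List.reverseRecOn with
  | nil => intro _; exact this.1
  | append_singleton w a ih =>
    intro hw
    obtain ⟨l, h1, h2⟩ := ih hw.left
    have e : M (l ++ [a]) = M (w ++ [a]) := by rw [M_append, M_append, h2]
    rw [← e]
    exact this.2 l h1 a (hal a) (hw.congr e)

abbrev Tr (n : ℕ) := ℕ × Option (Fin n ⊕ Fin n) × ℕ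
abbrev Au (n : ℕ) := List (Tr n) × List ℕ

def cv : Fin n ⊕ Fin n → Fin n × Bool := Sum.elim (fun i => (i, true)) fun i => (i, false)

@[fun_prop] theorem ci_cv {f : α → Fin n ⊕ Fin n} (hf : CI ∅ f) : CI ∅ fun a => cv (f a) :=
  CI.dom_finite cv hf

theorem cv_bij : Function.Bijective (cv (n := n)) := by
  constructor
  · rintro (a | a) (b | b) h <;> simp_all [cv]
  · rintro ⟨a, _ | _⟩
    exacts [⟨.inr a, rfl⟩, ⟨.inl a, rfl⟩]

def trN (A : Au n) (q : ℕ) (o : Option (Fin n × Bool)) (q' : ℕ) : Prop :=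
  ∃ t ∈ A.1, t.1 = q ∧ t.2.1.map cv = o ∧ t.2.2 = q'

def Pth (A : Au n) (l : List (Tr n)) : Prop :=
  (∀ t ∈ l, t ∈ A.1) ∧
  (∀ i : ℕ, i + 1 < l.length → (l[i]?).map (fun t => t.2.2) = (l[i+1]?).map (fun t => t.1)) ∧
  ((l.head?).map (fun t => t.1)).getD 0 = 0

def lst (l : List (Tr n)) : ℕ := ((l.getLast?).map (fun t => t.2.2)).getD 0
def lab (l : List (Tr n)) : V n := (l.filterMap fun t => t.2.1).map cv

theorem pth_snoc {A : Au n} {l : List (Tr n)} {t : Tr n} :
    Pth A (l ++ [t]) ↔ Pth A l ∧ t ∈ A.1 ∧ t.1 = lst l := by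
  rcases l.eq_nil_or_concat' with rfl | ⟨l, s, rfl⟩
  · simp [Pth, lst]
  · have e : ((l ++ [s] ++ [t]).head?) = (l ++ [s]).head? := by cases l <;> rfl
    simp only [Pth, lst, e, List.getLast?_append, List.getLast?_singleton, Option.some_or,
      Option.map_some, Option.getD_some, List.length_append, List.length_singleton,
      List.forall_mem_append, List.forall_mem_singleton]
    constructor
    · rintro ⟨⟨h1, h2⟩, h3, h4⟩
      refine ⟨⟨h1, fun i hi => ?_, h4⟩, h2, ?_⟩
      · have := h3 i (by omega)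
        rwa [List.getElem?_append_left (by simp; omega),
          List.getElem?_append_left (l₁ := l ++ [s]) (by simp; omega)] at this
      · simpa [eq_comm] using h3 l.length (by omega)
    · rintro ⟨⟨h1, h3, h4⟩, h2, h5⟩
      refine ⟨⟨h1, h2⟩, fun i hi => ?_, h4⟩
      rcases eq_or_ne i l.length with rfl | hne
      · simp [h5]
      · rw [List.getElem?_append_left (by simp; omega),
          List.getElem?_append_left (l₁ := l ++ [s]) (by simp; omega)]
        exact h3 i (by omega)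

theorem lab_snoc (l : List (Tr n)) (t : Tr n) :
    lab (l ++ [t]) = lab l ++ (t.2.1.map cv).toList := by
  obtain ⟨a, o, b⟩ := t
  cases o <;> simp [lab]

theorem run_iff {A : Au n} {c : ℕ × V n} :
    Relation.ReflTransGen (Stp (trN A)) (0, []) c ↔ ∃ l, Pth A l ∧ lst l = c.1 ∧ lab l = c.2 := by
  constructor
  · intro h
    induction h with
    | refl => exact ⟨[], by simp [Pth], rfl, rfl⟩
    | tail _ h2 ih =>
      obtain ⟨l, h3, h4, h5⟩ := ih
      obtain ⟨_, ⟨t, h6, h7, rfl, h8⟩, h9⟩ := h2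
      exact ⟨l ++ [t], pth_snoc.2 ⟨h3, h6, h7.trans h4.symm⟩, by simpa [lst] using h8,
        by rw [lab_snoc, h5, h9]⟩
  · obtain ⟨q, v⟩ := c
    rintro ⟨l, h, rfl, rfl⟩
    induction l using List.reverseRecOn with
    | nil => exact .refl
    | append_singleton l t ih =>
      obtain ⟨h1, h2, h3⟩ := pth_snoc.1 h
      exact (ih h1).tail ⟨_, ⟨t, h2, h3, rfl, by simp [lst]⟩, lab_snoc l t⟩

def KA (A : Au n) (x : V n) : Prop := Kw (trN A) 0 (fun q => q ∈ A.2) x

theorem KA_iff {A : Au n} {x : V n} : KA A x ↔ ∃ l, Pth A l ∧ lst l ∈ A.2 ∧ M (lab l) = M x := by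
  simp only [KA, Kw, AccW, run_iff]
  constructor
  · rintro ⟨_, ⟨_, h1, l, h2, rfl, rfl⟩, h3⟩; exact ⟨l, h2, h1, h3⟩
  · rintro ⟨l, h1, h2, h3⟩; exact ⟨_, ⟨_, h2, l, h1, rfl, rfl⟩, h3⟩

def sz (A : Au n) : ℕ := (A.1.map fun t => t.1 + t.2.2).sum

theorem trN_le {A : Au n} {q q' : ℕ} {o : Option (Fin n × Bool)} (h : trN A q o q') :
    q ≤ sz A ∧ q' ≤ sz A := by
  obtain ⟨t, h1, rfl, -, rfl⟩ := h
  have := List.single_le_sum (l := A.1.map fun t => t.1 + t.2.2) (fun _ _ => Nat.zero_le _) _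
    (List.mem_map_of_mem h1)
  unfold sz
  omega

theorem KA_fin (A : Au n) (x : V n) : KA A x ↔
    Kw (Q := Fin (sz A + 1)) (fun i o j => trN A i o j) 0 (fun q => q.1 ∈ A.2) x := by
  refine exists_congr fun v => and_congr ⟨?_, ?_⟩ Iff.rfl
  · rintro ⟨q, h1, h2⟩
    have key : ∀ c : ℕ × V n, Relation.ReflTransGen (Stp (trN A)) (0, []) c →
        ∃ i : Fin (sz A + 1), i.1 = c.1 ∧ Relation.ReflTransGen
          (Stp (Q := Fin (sz A + 1)) fun i o j => trN A i o j) (0, []) (i, c.2) := by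
      intro c h
      induction h with
      | refl => exact ⟨0, rfl, .refl⟩
      | tail _ h2 ih =>
        obtain ⟨i, h3, h4⟩ := ih
        obtain ⟨o, h5, h6⟩ := h2
        exact ⟨⟨_, Nat.lt_succ_of_le (trN_le h5).2⟩, rfl, h4.tail ⟨o, by simpa [h3] using h5, h6⟩⟩
    obtain ⟨i, h3, h4⟩ := key _ h2
    exact ⟨i, by simpa [h3] using h1, h4⟩
  · rintro ⟨q, h1, h2⟩
    have key : ∀ c : Fin (sz A + 1) × V n, Relation.ReflTransGen
        (Stp (Q := Fin (sz A + 1)) fun i o j => trN A i o j) (0, []) c →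
        Relation.ReflTransGen (Stp (trN A)) (0, []) (c.1.1, c.2) := by
      intro c h
      induction h with
      | refl => exact .refl
      | tail _ h2 ih => exact ih.tail h2
    exact ⟨q.1, h1, key _ h2⟩

theorem re_KA : REPred fun p : Au n × V n => KA p.1 p.2 := by
  refine re_of_exists (fun p (l : List (Tr n)) => ((l.all fun t => p.1.1.any fun s => decide (t = s)) &&
    (((List.range l.length).all fun i => !decide (i + 1 < l.length) ||
      decide ((l[i]?).map (fun t => t.2.2) = (l[i+1]?).map (fun t => t.1))) &&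
    decide (((l.head?).map (fun t => t.1)).getD 0 = 0))) &&
    (decide (lst l ∈ p.1.2) && meq (lab l) p.2)) ?_ fun p => ?_
  · unfold lst lab; fun_prop
  · simp only [KA_iff, Pth, Bool.and_eq_true, List.all_eq_true, List.any_eq_true, decide_eq_true_eq,
      exists_eq_right', List.mem_range, Bool.or_eq_true, Bool.not_eq_true', decide_eq_false_iff_not,
      ← imp_iff_not_or, meq_iff]
    refine exists_congr fun l => and_congr (and_congr Iff.rfl (and_congr ?_ Iff.rfl)) Iff.rfl
    exact ⟨fun h i _ hi => h i hi, fun h i hi => h i (by omega) hi⟩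

theorem re_not_KA : REPred fun p : Au n × V n => ¬ KA p.1 p.2 := by
  refine re_of_exists (fun p (L : List (ℕ × V n)) =>
    (L.any fun l => decide (l = (0, []))) && ((L.all fun l => p.1.1.all fun t =>
      !decide (t.1 = l.1) || (!tle (l.2 ++ (t.2.1.map cv).toList) p.2 || L.any fun l' =>
        decide (l'.1 = t.2.2) && meq l'.2 (l.2 ++ (t.2.1.map cv).toList))) &&
    L.all fun l => !decide (l.1 ∈ p.1.2) || !meq l.2 p.2)) (by fun_prop) fun ⟨A, x⟩ => ?_
  simp only [Bool.and_eq_true, List.all_eq_true, List.any_eq_true, decide_eq_true_eq,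
    exists_eq_right, Bool.or_eq_true, Bool.not_eq_true',
    ← Bool.not_eq_true, ← imp_iff_not_or, meq_iff, tle_iff]
  constructor
  · intro h
    let S : Set (ℕ × V n) := {c | Relation.ReflTransGen (Stp (trN A)) (0, []) c ∧ T c.2 ⊆ T x}
    let φ : S → ℕ × Pr (Fin n) := fun c => (c.1.1, M c.1.2)
    have hS : (Set.range φ).Finite := by
      refine ((Set.finite_le_nat (sz A)).prod
        ((T_finite x).finite_subsets.prod (T_finite x))).subset ?_
      rintro _ ⟨⟨c, h1, h2⟩, rfl⟩
      refine ⟨?_, h2, h2 (mk_mem_T _)⟩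
      rcases h1.cases_tail with rfl | ⟨_, -, _, h3, -⟩
      exacts [Nat.zero_le _, (trN_le h3).2]
    have s0 : ((0, []) : ℕ × V n) ∈ S := ⟨.refl, by rw [T_nil]; simpa using one_mem_T x⟩
    have : Nonempty S := ⟨⟨_, s0⟩⟩
    have hL : ∀ l ∈ (0, []) :: hS.toFinset.toList.map fun p => (Function.invFun φ p).1, l ∈ S := by
      intro l hl
      rcases List.mem_cons.1 hl with rfl | hl
      · exact s0
      · obtain ⟨p, -, rfl⟩ := List.mem_map.1 hl
        exact (Function.invFun φ p).2
    refine ⟨(0, []) :: hS.toFinset.toList.map fun p => (Function.invFun φ p).1, by simp,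
      fun l hl t ht e hT => ?_, fun l hl h1 h2 => h ⟨l.2, ⟨l.1, h1, (hL l hl).1⟩, h2⟩⟩
    let c : S := ⟨(t.2.2, l.2 ++ (t.2.1.map cv).toList),
      (hL l hl).1.tail ⟨_, ⟨t, ht, e, rfl, rfl⟩, rfl⟩, hT⟩
    have := Function.invFun_eq (f := φ) ⟨c, rfl⟩
    exact ⟨(Function.invFun φ (φ c)).1, List.mem_cons_of_mem _ (List.mem_map.2
      ⟨φ c, by simp, rfl⟩), congrArg Prod.fst this, congrArg Prod.snd this⟩
  · rintro ⟨L, h1, h2, h3⟩ ⟨v, ⟨q, h4, h5⟩, h6⟩
    have key : ∀ c : ℕ × V n, Relation.ReflTransGen (Stp (trN A)) (0, []) c → T c.2 ⊆ T x →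
        ∃ l ∈ L, l.1 = c.1 ∧ M l.2 = M c.2 := by
      intro c h
      induction h with
      | refl => intro _; exact ⟨_, h1, rfl, rfl⟩
      | tail _ h7 ih =>
        intro hT
        obtain ⟨_, ⟨t, h8, h9, rfl, h10⟩, h11⟩ := h7
        rw [h11] at hT ⊢
        obtain ⟨l, hl, e1, e2⟩ := ih (by rw [T_append] at hT; exact Set.subset_union_left.trans hT)
        have e3 := congrArg (fun p => FInv.mul p (M (t.2.1.map cv).toList)) e2
        simp only [← M_append] at e3
        rw [← e3, ← h10]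
        exact h2 l hl t h8 (h9.trans e1.symm)
          (by rw [show T _ = T _ from congrArg Prod.fst e3]; exact hT)
    obtain ⟨l, hl, e1, e2⟩ := key _ h5 (show T _ = T _ from congrArg Prod.fst h6).le
    exact h3 l hl (e1 ▸ h4) (e2.trans h6)

theorem decide_fin (n : ℕ) : ∃ f : Au n → Bool, Computable f ∧
    ∀ A, f A = true ↔ (Set.range fun u : V n => {w | KA A (u ++ w)}).Finite := by
  obtain ⟨k, hk, hk'⟩ := bool_of_re_re (re_KA (n := n)) re_not_KA
  obtain ⟨F, hF, hF'⟩ := exists_lists n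
  have c1 : CI ∅ fun A : Au n => nH n (sz A + 1) := by unfold nH nE nX nK nC sz; fun_prop
  have c2 : CI ∅ fun A : Au n => nA n (sz A + 1) := by unfold nA nH nE nX nK nC sz; fun_prop
  have c3 : CI ∅ fun A : Au n => nW n (sz A + 1) := by unfold nW nA nH nE nX nK nC sz; fun_prop
  refine ⟨fun A => (F (nA n (sz A + 1))).all fun a => !blb (nA n (sz A + 1)) a ||
    (F (nH n (sz A + 1))).any fun b => blb (nH n (sz A + 1)) b &&
      (F (nW n (sz A + 1))).all fun w => !blb (nW n (sz A + 1)) w ||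
        k (A, invRev a ++ w) == k (A, invRev b ++ w),
    CI.computable ?_, fun A => ?_⟩
  · refine CI.all (hF.comp c2) (CI.or (ci_blb (c2.comp (by fun_prop)) (by fun_prop)).not
      (CI.any (hF.comp (c1.comp (by fun_prop))) (CI.and
        (ci_blb (c1.comp (by fun_prop)) (by fun_prop))
        (CI.all (hF.comp (c3.comp (by fun_prop))) (CI.or
          (ci_blb (c3.comp (by fun_prop)) (by fun_prop)).not
          (CI.beq (hk.comp (by fun_prop)) (hk.comp (by fun_prop))))))))
  have e := finite_iff (Z := Fin n) (Q := Fin (sz A + 1)) (fun i o j => trN A i o j) 0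
    (fun q => q.1 ∈ A.2)
  simp only [Nat.card_eq_fintype_card, Fintype.card_fin] at e
  have e2 : ∀ x y, (k (A, x) == k (A, y)) = true ↔ (KA A x ↔ KA A y) := fun x y => by
    rw [hk' (A, x), hk' (A, y), beq_iff_eq]; exact Bool.eq_iff_iff
  simp only [KA_fin, List.all_eq_true, List.any_eq_true, Bool.or_eq_true, Bool.and_eq_true,
    Bool.not_eq_true', ← Bool.not_eq_true, ← imp_iff_not_or, blb_iff, e2]
  refine Iff.trans ?_ e.symm
  constructor
  · intro h a ha
    obtain ⟨l, h1, h2⟩ := hF' _ a ha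
    obtain ⟨b, -, h3, h4⟩ := h l h1 (ha.congr h2)
    refine ⟨b, h3, fun w hw => ?_⟩
    obtain ⟨l', h5, h6⟩ := hF' _ w hw
    rw [← Kw_congr _ _ _ h2 h6, h4 l' h5 (hw.congr h6)]
    exact Kw_congr _ _ _ rfl h6
  · intro h a _ ha
    obtain ⟨b, h1, h2⟩ := h a ha
    obtain ⟨l, h3, h4⟩ := hF' _ b h1
    exact ⟨l, h3, h1.congr h4, fun w _ hw => (h2 w hw).trans (Kw_congr _ _ _ h4.symm rfl)⟩

theorem prod_cv (v : List (Fin n ⊕ Fin n)) :
    (v.map (Sum.elim (fun i : Fin n => FreeGroup.of i)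
      (fun i : Fin n => (FreeGroup.of i)⁻¹))).prod = mk (v.map cv) := by
  induction v with
  | nil => rfl
  | cons a v ih =>
    rw [List.map_cons, List.prod_cons, ih, List.map_cons, ← List.singleton_append (l := v.map cv),
      ← mul_mk]
    rcases a with a | a <;> rfl

theorem set_cv (v : List (Fin n ⊕ Fin n)) :
    {g : FreeGroup (Fin n) | ∃ k : ℕ, ((v.take k).map
      (Sum.elim (fun i : Fin n => FreeGroup.of i)
        (fun i : Fin n => (FreeGroup.of i)⁻¹))).prod = g} = T (v.map cv) := by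
  ext g
  simp only [prod_cv]
  simp only [T, Set.mem_ofPred_eq, Set.mem_range, List.map_take]

theorem main :
    ∀ n : ℕ, ∃ f : List (ℕ × Option (Fin n ⊕ Fin n) × ℕ) × List ℕ → Bool, Computable f ∧
      ∀ A : List (ℕ × Option (Fin n ⊕ Fin n) × ℕ) × List ℕ,
        (f A = true ↔
          (Set.range (fun u : List (Fin n ⊕ Fin n) =>
            {w : List (Fin n ⊕ Fin n) | ∃ v : List (Fin n ⊕ Fin n),
              (∃ l : List (ℕ × Option (Fin n ⊕ Fin n) × ℕ),
                (∀ t ∈ l, t ∈ A.1) ∧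
                (∀ i : ℕ, i + 1 < l.length →
                  (l[i]?).map (fun t => t.2.2) = (l[i+1]?).map (fun t => t.1)) ∧
                ((l.head?).map (fun t => t.1)).getD 0 = 0 ∧
                ((l.getLast?).map (fun t => t.2.2)).getD 0 ∈ A.2 ∧
                l.filterMap (fun t => t.2.1) = v) ∧
              ((u ++ w).map (Sum.elim (fun i : Fin n => FreeGroup.of i)
                  (fun i : Fin n => (FreeGroup.of i)⁻¹))).prod =
                (v.map (Sum.elim (fun i : Fin n => FreeGroup.of i)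
                  (fun i : Fin n => (FreeGroup.of i)⁻¹))).prod ∧
              {g : FreeGroup (Fin n) | ∃ k : ℕ, (((u ++ w).take k).map
                  (Sum.elim (fun i : Fin n => FreeGroup.of i)
                    (fun i : Fin n => (FreeGroup.of i)⁻¹))).prod = g} =
                {g : FreeGroup (Fin n) | ∃ k : ℕ, ((v.take k).map
                  (Sum.elim (fun i : Fin n => FreeGroup.of i)
                    (fun i : Fin n => (FreeGroup.of i)⁻¹))).prod = g}})).Finite) := by
  intro n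
  obtain ⟨f, hf, h⟩ := decide_fin n
  refine ⟨f, hf, fun A => (h A).trans ?_⟩
  simp only [set_cv]
  simp only [prod_cv]
  have hb : Function.Bijective (List.map (cv (n := n))) := cv_bij.list_map
  have e : (Set.range fun u : List (Fin n ⊕ Fin n) => {w | KA A ((u ++ w).map cv)}) =
      (fun C => List.map cv ⁻¹' C) '' Set.range fun u : V n => {w | KA A (u ++ w)} := by
    rw [← hb.2.range_comp, ← Set.range_comp]
    congr 1
    funext u
    ext w
    simp
  rw [← Set.finite_image_iff (f := fun C => List.map cv ⁻¹' C)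
    (hb.2.preimage_injective).injOn, ← e]
  refine iff_of_eq (congrArg _ (congrArg _ (funext fun u => Set.ext fun w => ?_)))
  simp only [Set.mem_ofPred_eq, KA_iff, Pth, lst, lab, M, Prod.mk.injEq]
  constructor
  · rintro ⟨l, ⟨h1, h2, h3⟩, h4, h5, h6⟩
    exact ⟨_, ⟨l, h1, h2, h3, h4, rfl⟩, h6.symm, h5.symm⟩
  · rintro ⟨_, ⟨l, h1, h2, h3, h4, rfl⟩, h6, h5⟩
    exact ⟨l, ⟨h1, h2, h3⟩, h4, h5.symm, h6.symm⟩

end Pool.Agent.H73.TRec
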