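import Pool.Agent.H73.CentRes
import Pool.Agent.H73.BasicSub

namespace Pool.Agent.H73.Twist

open Subgroup Pool.Agent.H73.CentRes
open scoped commutatorElement IsMulCommutative

theorem sdf_of_family {H : Type} [Group H] (𝓛 : Set (Subgroup H)) (h1 : ∀ N ∈ 𝓛, FN N)
    (h2 : ∀ y, (∀ N ∈ 𝓛, y ∈ N) → y = 1) (h3 : ∀ y, {N | N ∈ 𝓛 ∧ y ∉ N}.Finite) :
    ∃ (ι : Type) (F : ι → Type) (_ : ∀ i, Group (F i)) (_ : ∀ i, Finite (F i))
      (φ : H →* ((i : ι) → F i)), Function.Injective φ ∧ ∀ h : H, {i : ι | φ h i ≠ 1}.Finite := by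
  have hn : ∀ N : 𝓛, N.1.Normal := fun N => (h1 N.1 N.2).1
  have hf : ∀ N : 𝓛, N.1.FiniteIndex := fun N => (h1 N.1 N.2).2
  refine ⟨𝓛, fun N => H ⧸ N.1, inferInstance, inferInstance,
    MonoidHom.pi (fun N => QuotientGroup.mk' N.1), ?_, fun h => ?_⟩
  · rw [injective_iff_map_eq_one]
    intro y hy
    refine h2 y (fun N hN => ?_)
    have := hn ⟨N, hN⟩
    exact (QuotientGroup.eq_one_iff y).mp (congrFun hy ⟨N, hN⟩)
  · refine ((h3 h).preimage Subtype.val_injective.injOn).subset (fun N hN => ⟨N.2, fun h4 => ?_⟩)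
    exact hN ((QuotientGroup.eq_one_iff h).mpr h4)

theorem exists_lift {J : Type} [DecidableEq J] {C : J → Type} [∀ j, AddCommGroup (C j)]
    (c : ∀ j, C j) (hc : ∀ j x, x ∈ AddSubgroup.zmultiples (c j)) {A : Type} [CommGroup A]
    (z : J → A) (hz : ∀ j, z j ^ addOrderOf (c j) = 1) :
    ∃ ψ : Multiplicative (Π₀ j, C j) →* A,
      ∀ j, ψ (Multiplicative.ofAdd (DFinsupp.single j (c j))) = z j := by
  have : ∀ j, ∃ f : C j →+ Additive A, f (c j) = Additive.ofMul (z j) := by
    intro j
    have h1 : orderOf (z j) ∣ orderOf (Multiplicative.ofAdd (c j)) :=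
      orderOf_dvd_of_pow_eq_one (hz j)
    have h2 : ∀ x : Multiplicative (C j), x ∈ zpowers (Multiplicative.ofAdd (c j)) := by
      intro x
      obtain ⟨k, hk⟩ := hc j x.toAdd
      exact ⟨k, congrArg Multiplicative.ofAdd hk⟩
    exact ⟨MonoidHom.toAdditiveRight (monoidHomOfForallMemZpowers h2 h1),
      congrArg Additive.ofMul (monoidHomOfForallMemZpowers_apply_gen h2 h1)⟩
  choose f hf using this
  refine ⟨AddMonoidHom.toMultiplicativeLeft (DFinsupp.sumAddHom f), fun j => ?_⟩
  change (DFinsupp.sumAddHom f (DFinsupp.single j (c j))).toMul = z j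
  rw [DFinsupp.sumAddHom_single, hf]
  rfl

variable {G : Type} [Group G]

theorem twist
    (hLN : ∀ s : Set G, s.Finite → ∃ E : Subgroup G, E.Normal ∧ (E : Set G).Finite ∧ s ⊆ E)
    (hRF : ∀ g : G, g ≠ 1 → ∃ N : Subgroup G, N.Normal ∧ N.FiniteIndex ∧ g ∉ N)
    (H : Subgroup G) {J : Type} {C : J → Type} [∀ j, AddCommGroup (C j)] [∀ j, Finite (C j)]
    (hC : ∀ j, IsAddCyclic (C j)) (π : H →* Multiplicative (Π₀ j, C j))
    (hs : Function.Surjective π) (hk : ∀ h : H, π h = 1 → (h : G) ∈ _root_.commutator G) :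
    ∃ (ι : Type) (F : ι → Type) (_ : ∀ i, Group (F i)) (_ : ∀ i, Finite (F i))
      (φ : H →* ((i : ι) → F i)), Function.Injective φ ∧ ∀ h : H, {i : ι | φ h i ≠ 1}.Finite := by
  classical
  obtain ⟨𝓜, m1, m2, m3⟩ := exists_family hLN hRF
  have hn : ∀ N : 𝓜, N.1.Normal := fun N => (m1 N.1 N.2).1
  have hf : ∀ N : 𝓜, N.1.FiniteIndex := fun N => (m1 N.1 N.2).2
  have m4 : ∀ y ∈ _root_.commutator G, {N | N ∈ 𝓜 ∧ y ∉ N}.Finite := by
    intro y hy
    rw [commutator_eq_closure] at hy
    induction hy using closure_induction with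
    | mem x hx =>
      obtain ⟨a, b, rfl⟩ := hx
      exact (m3 a).subset (fun N hN => ⟨hN.1, fun h => hN.2 (h b)⟩)
    | one => simp
    | mul x y _ _ hx hy =>
      refine (hx.union hy).subset (fun N hN => ?_)
      by_contra hc
      simp only [Set.mem_union, Set.mem_ofPred_eq, not_or, not_and, not_not] at hc
      exact hN.2 (mul_mem (hc.1 hN.1) (hc.2 hN.1))
    | inv x _ hx => simpa using hx
  choose c hc using fun j => (hC j).exists_generator
  choose g hg using fun j => hs (Multiplicative.ofAdd (DFinsupp.single j (c j)))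
  have hz : ∀ (N : 𝓜) j, ∃ z : center (G ⧸ N.1), z ^ addOrderOf (c j) = 1 ∧
      ((g j : G) ∈ Z N.1 → (g j : G) ^ addOrderOf (c j) ∈ N.1 → z = ((g j : G) : G ⧸ N.1)) := by
    intro N j
    by_cases h : (g j : G) ∈ Z N.1 ∧ (g j : G) ^ addOrderOf (c j) ∈ N.1
    · refine ⟨⟨((g j : G) : G ⧸ N.1), mem_center_iff.mpr (fun q => ?_)⟩, Subtype.ext ?_,
        fun _ _ => rfl⟩
      · obtain ⟨y, rfl⟩ := QuotientGroup.mk_surjective q
        have := (QuotientGroup.eq_one_iff _).mpr (sym (h.1 y))
        rw [← QuotientGroup.mk'_apply, map_commutatorElement,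
          commutatorElement_eq_one_iff_mul_comm] at this
        exact this
      · exact (QuotientGroup.eq_one_iff _).mpr h.2
    · exact ⟨1, one_pow _, fun h1 h2 => absurd ⟨h1, h2⟩ h⟩
  choose z hz1 hz2 using hz
  choose ψ hψ using fun N : 𝓜 => exists_lift c hc (z N) (hz1 N)
  let φ : ∀ N : 𝓜, H →* G ⧸ N.1 := fun N => MonoidHom.mk'
    (fun h => ((h : G) : G ⧸ N.1) * ((ψ N (π h))⁻¹ : center (G ⧸ N.1))) (fun a b => by
      simp only [map_mul, mul_inv, coe_mul, QuotientGroup.mk_mul, mul_assoc]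
      congr 1
      rw [← mul_assoc, ← mul_assoc, mem_center_iff.mp (ψ N (π a))⁻¹.2])
  have hφ : ∀ N h, φ N h = ((h : G) : G ⧸ N.1) * ((ψ N (π h))⁻¹ : center (G ⧸ N.1)) :=
    fun _ _ => rfl
  have hφ1 : ∀ N h, π h = 1 → φ N h = ((h : G) : G ⧸ N.1) := fun N h hh => by simp [hφ, hh]
  let ev : ∀ j, H →* Multiplicative (C j) := fun j =>
    (AddMonoidHom.toMultiplicative (DFinsupp.evalAddMonoidHom j)).comp π
  let S : Subgroup H :=
    { carrier := {h | {N | φ N h ≠ 1}.Finite}
      one_mem' := by simp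
      mul_mem' := fun {a b} ha hb => (Set.Finite.union ha hb).subset (fun N hN => by
        by_contra hc
        simp only [Set.mem_union, Set.mem_ofPred_eq, not_or, not_not] at hc
        exact hN (by rw [map_mul, hc.1, hc.2, mul_one]))
      inv_mem' := fun {a} ha => by simpa using ha }
  have hS1 : ∀ h, π h = 1 → h ∈ S := by
    intro h hh
    refine ((m4 _ (hk h hh)).preimage Subtype.val_injective.injOn).subset
      (fun N hN => ⟨N.2, fun h4 => hN ?_⟩)
    rw [hφ1 N h hh]
    exact (QuotientGroup.eq_one_iff _).mpr h4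
  have hS2 : ∀ j, g j ∈ S := by
    intro j
    have h1 : π (g j ^ addOrderOf (c j)) = 1 := by
      rw [map_pow, hg, ← ofAdd_nsmul, ← DFinsupp.single_smul, addOrderOf_nsmul_eq_zero]
      simp
    refine (((m3 (g j)).union (m4 _ (hk _ h1))).preimage Subtype.val_injective.injOn).subset
      (fun N hN => ?_)
    by_contra hc
    simp only [Set.mem_preimage, Set.mem_union, Set.mem_ofPred_eq, not_or, not_and, not_not] at hc
    apply hN
    rw [hφ, hg, hψ, coe_inv, hz2 N j (hc.1 N.2) (hc.2 N.2), mul_inv_cancel]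
  have hS : ∀ h, h ∈ S := by
    have key : ∀ v : Π₀ j, C j, Multiplicative.ofAdd v ∈ S.map π := by
      intro v
      induction v using DFinsupp.induction with
      | h0 => exact one_mem _
      | ha j b f _ _ ih =>
        rw [ofAdd_add]
        refine mul_mem ?_ ih
        obtain ⟨k, rfl⟩ := hc j b
        simp only
        rw [DFinsupp.single_smul, ofAdd_zsmul, ← hg]
        exact zpow_mem (mem_map_of_mem π (hS2 j)) k
    intro h
    obtain ⟨s, hs1, hs2⟩ := key (π h).toAdd
    have := mul_mem hs1 (hS1 (s⁻¹ * h) (by rw [map_mul, map_inv, hs2]; simp))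
    simpa using this
  refine sdf_of_family (Set.range (fun N => (φ N).ker) ∪ Set.range (fun j => (ev j).ker)) ?_ ?_ ?_
  · rintro _ (⟨N, rfl⟩ | ⟨j, rfl⟩)
    · exact ⟨inferInstance, inferInstance⟩
    · exact ⟨inferInstance, inferInstance⟩
  · intro y hy
    have h1 : π y = 1 := by
      apply Multiplicative.toAdd.injective
      ext j
      exact congrArg Multiplicative.toAdd (hy _ (Or.inr ⟨j, rfl⟩))
    refine Subtype.ext (m2 _ (hk y h1) (fun N hN => ?_))
    have := hy _ (Or.inl ⟨⟨N, hN⟩, rfl⟩)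
    rw [MonoidHom.mem_ker, hφ1 _ y h1] at this
    have h2 : N.Normal := hn ⟨N, hN⟩
    exact (QuotientGroup.eq_one_iff _).mp this
  · intro y
    refine ((Set.Finite.image (fun N => (φ N).ker) (hS y)).union
      ((π y).toAdd.support.finite_toSet.image (fun j => (ev j).ker))).subset ?_
    rintro _ ⟨⟨N, rfl⟩ | ⟨j, rfl⟩, h⟩
    · exact Or.inl ⟨N, h, rfl⟩
    · exact Or.inr ⟨j, DFinsupp.mem_support_iff.mpr h, rfl⟩

theorem dietzmann (ht : Monoid.IsTorsion G) (hfc : ∀ g : G, {h : G | IsConj g h}.Finite)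
    (s : Set G) (hs : s.Finite) : ∃ E : Subgroup G, E.Normal ∧ (E : Set G).Finite ∧ s ⊆ E := by
  refine ⟨normalClosure s, inferInstance, ?_, subset_normalClosure⟩
  have hX : (Group.conjugatesOfSet s).Finite := hs.biUnion (fun a _ => hfc a)
  have := hX.to_subtype
  have hfg : Group.FG (normalClosure s) := Group.closure_finite_fg _
  set E := normalClosure s
  have hc : (center E).FiniteIndex := by
    obtain ⟨S, hS⟩ := Group.fg_def.mp hfg
    have h1 : ∀ x ∈ S, (centralizer {x} : Subgroup E).FiniteIndex := by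
      intro x _
      have : Finite (MulAction.orbit (ConjAct E) x) := by
        refine Set.Finite.of_finite_image (f := fun y : E => (y : G)) ((hfc x).subset ?_)
          Subtype.val_injective.injOn
        rintro _ ⟨_, ⟨c, rfl⟩, rfl⟩
        exact isConj_iff.mpr ⟨(ConjAct.ofConjAct c : E), rfl⟩
      refine ⟨?_⟩
      have h0 : (centralizer {x} : Subgroup E) =
          (MulAction.stabilizer (ConjAct E) x).comap (ConjAct.toConjAct (G := E)).toMonoidHom := by
        ext y
        rw [mem_centralizer_singleton_iff, mem_comap, MulAction.mem_stabilizer_iff]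
        simp [ConjAct.smul_def, mul_inv_eq_iff_eq_mul]
      rw [h0, index_comap_of_surjective (f := (ConjAct.toConjAct (G := E)).toMonoidHom) _
          ConjAct.toConjAct.surjective, MulAction.index_stabilizer]
      exact (Set.ncard_pos (Set.toFinite _)).mpr ⟨x, MulAction.mem_orbit_self x⟩ |>.ne'
    have := finiteIndex_iInf' (s := S) (fun x => (centralizer {x} : Subgroup E)) h1
    refine finiteIndex_of_le (H := ⨅ x ∈ S, (centralizer {x} : Subgroup E)) (fun y hy => ?_)
    rw [mem_center_iff]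
    intro w
    have h2 : (⊤ : Subgroup E) ≤ centralizer {y} := by
      rw [← hS, closure_le]
      intro x hx
      simp only [mem_iInf] at hy
      exact mem_centralizer_singleton_iff.mpr (mem_centralizer_singleton_iff.mp (hy x hx)).symm
    exact mem_centralizer_singleton_iff.mp (h2 (mem_top w))
  have hcs : Finite (commutatorSet E) := by
    refine Set.Finite.subset (Set.finite_range
      (fun p : (E ⧸ center E) × (E ⧸ center E) => ⁅p.1.out, p.2.out⁆)) ?_
    rintro _ ⟨a, b, rfl⟩
    refine ⟨((a : E ⧸ center E), (b : E ⧸ center E)), ?_⟩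
    obtain ⟨u, hu⟩ := QuotientGroup.mk_out_eq_mul (center E) a
    obtain ⟨v, hv⟩ := QuotientGroup.mk_out_eq_mul (center E) b
    simp only [hu, hv, commutatorElement_def, mul_inv_rev]
    have h1 := mem_center_iff.mp u.2
    have h2 := mem_center_iff.mp v.2
    calc a * u * (b * v) * ((u : E)⁻¹ * a⁻¹) * ((v : E)⁻¹ * b⁻¹)
        = a * (u * (b * v)) * (u : E)⁻¹ * a⁻¹ * (v : E)⁻¹ * b⁻¹ := by group
      _ = a * b * (v * a⁻¹) * (v : E)⁻¹ * b⁻¹ := by rw [← h1]; group
      _ = a * b * a⁻¹ * b⁻¹ := by rw [← h2]; group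
  have hab : Finite (Abelianization E) := by
    have : Group.FG (Abelianization E) :=
      Group.fg_of_surjective (f := Abelianization.of) (QuotientGroup.mk_surjective)
    refine CommGroup.finite_of_fg_isMulTorsion _ (fun x => ?_)
    obtain ⟨y, rfl⟩ := QuotientGroup.mk_surjective x
    have h1 : IsOfFinOrder y := (E.subtype_injective.isOfFinOrder_iff).mp (ht y)
    exact Abelianization.of.isOfFinOrder h1
  have : Finite (E ⧸ _root_.commutator E) := hab
  exact Finite.of_equiv _ (groupEquivQuotientProdSubgroup (s := _root_.commutator E)).symm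

theorem main1 :
    ∀ (G : Type) [Group G],
      Monoid.IsTorsion G →
      (∀ g : G, {h : G | IsConj g h}.Finite) →
      (∀ g : G, g ≠ 1 → ∃ N : Subgroup G, N.Normal ∧ N.FiniteIndex ∧ g ∉ N) →
      (∃ (J : Type) (C : J → Type) (_ : ∀ j, AddCommGroup (C j)),
          (∀ j, IsAddCyclic (C j)) ∧
          Nonempty (Additive (Abelianization G) ≃+ Π₀ j, C j)) →
      ∃ (I : Type) (H : I → Type) (_ : ∀ i, Group (H i)) (_ : ∀ i, Finite (H i))
        (f : G →* ∀ i, H i),
        Function.Injective f ∧ ∀ g : G, {i : I | f g i ≠ 1}.Finite := by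
  classical
  rintro G _ ht hfc hRF ⟨J, C, _, hC, ⟨e⟩⟩
  let π0 : G →* Multiplicative (Π₀ j, C j) :=
    (AddMonoidHom.toMultiplicativeRight e.toAddMonoidHom).comp Abelianization.of
  have hπ0 : Function.Surjective π0 := by
    intro v
    obtain ⟨y, hy⟩ := QuotientGroup.mk_surjective (e.symm v.toAdd).toMul
    refine ⟨y, ?_⟩
    have hy' : Abelianization.of y = (e.symm v.toAdd).toMul := hy
    change Multiplicative.ofAdd (e (Additive.ofMul (Abelianization.of y))) = v
    rw [hy']; simp
  have : ∀ j, Finite (C j) := by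
    intro j
    obtain ⟨c, hc⟩ := (hC j).exists_generator
    obtain ⟨y, hy⟩ := hπ0 (Multiplicative.ofAdd (DFinsupp.single j c))
    have h1 := π0.isOfFinOrder (ht y)
    rw [hy, isOfFinOrder_ofAdd_iff] at h1
    have h2 := (DFinsupp.evalAddMonoidHom j).isOfFinAddOrder h1
    have h3 : IsOfFinAddOrder c := by simpa [DFinsupp.evalAddMonoidHom] using h2
    exact Set.finite_univ_iff.mp (h3.finite_zmultiples.subset (fun x _ => hc x))
  obtain ⟨I, F, _, _, φ, h1, h2⟩ := twist (dietzmann ht hfc) hRF ⊤ hC (π0.comp (⊤ : Subgroup G).subtype)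
    (fun v => by obtain ⟨y, hy⟩ := hπ0 v; exact ⟨⟨y, trivial⟩, hy⟩)
    (fun h hh => by
      have h3 : e (Additive.ofMul (Abelianization.of (h : G))) = 0 :=
        congrArg Multiplicative.toAdd hh
      rw [map_eq_zero_iff _ e.injective] at h3
      rw [← Abelianization.ker_of]
      exact h3)
  exact ⟨I, F, inferInstance, inferInstance, φ.comp (topEquiv (G := G)).symm.toMonoidHom,
    h1.comp (topEquiv (G := G)).symm.injective, fun g => h2 _⟩

theorem main2 :
    ∀ (G : Type) [Group G],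
      (∀ s : Finset G, ∃ N : Subgroup G, N.Normal ∧ (N : Set G).Finite ∧ (↑s : Set G) ⊆ (N : Set G)) →
      (∀ g : G, g ≠ 1 → ∃ N : Subgroup G, N.Normal ∧ N.FiniteIndex ∧ g ∉ N) →
      ∃ H : Subgroup G, H.Normal ∧
        (∃ (ι : Type) (F : ι → Type) (_ : ∀ i, Group (F i)) (_ : ∀ i, Finite (F i))
            (φ : H →* ((i : ι) → F i)),
            Function.Injective φ ∧ ∀ h : H, {i : ι | φ h i ≠ 1}.Finite) ∧
        (∀ a b : G, a * b * a⁻¹ * b⁻¹ ∈ H) ∧
        (∀ (g : G) (n : ℕ), 0 < n → ∃ y : G, g⁻¹ * y ^ n ∈ H) := by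
  intro G _ hLN hRF
  have hLN' : ∀ s : Set G, s.Finite → ∃ E : Subgroup G, E.Normal ∧ (E : Set G).Finite ∧ s ⊆ E := by
    intro s hs
    simpa using hLN hs.toFinset
  have ht : ∀ g : G, IsOfFinOrder g := by
    intro g
    obtain ⟨E, -, h2, h3⟩ := hLN' {g} (Set.finite_singleton g)
    have := h2.to_subtype
    exact E.subtype.isOfFinOrder (isOfFinOrder_of_finite (⟨g, h3 rfl⟩ : E))
  have hA : ∀ a : Additive (Abelianization G), IsOfFinAddOrder a := by
    intro a
    obtain ⟨y, hy⟩ := QuotientGroup.mk_surjective a.toMul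
    have := Abelianization.of.isOfFinOrder (ht y)
    rw [← isOfFinAddOrder_ofMul_iff] at this
    have hy' : Abelianization.of y = a.toMul := hy
    rwa [hy'] at this
  obtain ⟨J, hinj, hdiv⟩ := BasicSub.exists_basic hA
  let p : G →* Multiplicative (Additive (Abelianization G)) := Abelianization.of
  let B := (BasicSub.sig J).range
  let H : Subgroup G := B.toSubgroup.comap p
  have hH : ∀ g, g ∈ H ↔ Additive.ofMul (Abelianization.of g) ∈ B := fun _ => Iff.rfl
  let e := AddMonoidHom.ofInjective hinj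
  let π : H →* Multiplicative (Π₀ j : J, AddSubgroup.zmultiples (j : Additive (Abelianization G))) :=
    MonoidHom.mk' (fun h => Multiplicative.ofAdd (e.symm ⟨_, (hH _).mp h.2⟩)) (fun a b => by
      rw [← ofAdd_add, ← map_add]
      congr 2)
  have : ∀ j : J, Finite (AddSubgroup.zmultiples (j : Additive (Abelianization G))) :=
    fun j => (hA j).finite_zmultiples.to_subtype
  refine ⟨H, inferInstance, twist hLN' hRF H (fun j => inferInstance) π (fun v => ?_)
    (fun h hh => ?_), fun a b => ?_, fun g n hn => ?_⟩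
  · obtain ⟨y, hy⟩ := QuotientGroup.mk_surjective ((e v.toAdd).1).toMul
    have h1 : Additive.ofMul (Abelianization.of y) = (e v.toAdd).1 := congrArg Additive.ofMul hy
    refine ⟨⟨y, (hH y).mpr (h1 ▸ (e v.toAdd).2)⟩, ?_⟩
    apply Multiplicative.toAdd.injective
    exact e.symm_apply_eq.mpr (Subtype.ext h1)
  · have h1 : e.symm ⟨_, (hH _).mp h.2⟩ = 0 := congrArg Multiplicative.toAdd hh
    rw [map_eq_zero_iff _ e.symm.injective] at h1
    rw [← Abelianization.ker_of]
    exact congrArg Subtype.val h1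
  · rw [hH]
    simp
  · obtain ⟨y, hy⟩ := hdiv (Additive.ofMul (Abelianization.of g)) n hn
    obtain ⟨w, hw⟩ := QuotientGroup.mk_surjective y.toMul
    refine ⟨w, (hH _).mpr ?_⟩
    have h1 : Additive.ofMul (Abelianization.of w) = y := congrArg Additive.ofMul hw
    rw [map_mul, map_inv, map_pow, ofMul_mul, ofMul_inv, ofMul_pow, h1]
    have := B.neg_mem hy
    rwa [neg_sub, sub_eq_neg_add] at this

end Pool.Agent.H73.Twist
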