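import Pool.Agent.H73.FCDer

/-!
Direct varieties of groups: sections of restricted direct products, P. Hall's theorem.
-/

set_option autoImplicit false

namespace Pool.Agent.H73.Var

open Subgroup
open scoped commutatorElement

structure IsVar (C : ∀ (G : Type) [Group G], Prop) : Prop where
  iso : ∀ (G H : Type) [Group G] [Group H], (G ≃* H) → C G → C H
  sub : ∀ (G : Type) [Group G] (H : Subgroup G), C G → C ↥H
  quo : ∀ (G : Type) [Group G] (N : Subgroup G) [N.Normal], C G → C (G ⧸ N)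
  prod : ∀ (ι : Type) [DecidableEq ι] (G : ι → Type) [∀ i, Group (G i)],
    (∀ i, C (G i)) → C ↥(⨆ i, (MonoidHom.mulSingle G i).range)
  fin : ∀ (G : Type) [Group G], Finite ↥(_root_.commutator G) → C G
  qc : ∀ (G : Type) [Group G], (∀ g : G, {h : G | IsConj g h}.Finite) →
    (∃ p : ℕ, p.Prime ∧
      Nonempty (↥(_root_.commutator G) ≃* ↥(⨆ n : ℕ, rootsOfUnity (p ^ n) ℂ))) → C G

variable {C : ∀ (G : Type) [Group G], Prop} {K G : Type} [Group K] [Group G]

theorem IsVar.surj (hC : IsVar C) (q : K →* G) (hq : Function.Surjective q) (h : C K) : C G :=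
  hC.iso _ _ (QuotientGroup.quotientKerEquivOfSurjective q hq) (hC.quo _ _ h)

theorem IsVar.sect (hC : IsVar C) {X : Type} [Group X] (hX : C X) (f : K →* X) (p : K →* G)
    (h : ∀ w, f w = 1 → p w = 1) : C p.range := by
  let q := f.rangeRestrict.liftOfSurjective f.rangeRestrict_surjective
    ⟨p.rangeRestrict, fun w hw => Subtype.ext (h w (congrArg Subtype.val hw))⟩
  refine hC.surj q (fun y => ?_) (hC.sub _ _ hX)
  obtain ⟨w, rfl⟩ := p.rangeRestrict_surjective y
  exact ⟨f.rangeRestrict w, MonoidHom.liftOfRightInverse_comp_apply _ _ _ _ _⟩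

theorem IsVar.top (hC : IsVar C) {S : Subgroup G} (h : C S) (hS : S = ⊤) : C G := by
  subst hS
  exact hC.iso _ _ topEquiv h

theorem mem_dr {ι : Type} [DecidableEq ι] {X : ι → Type} [∀ i, Group (X i)] (x : ∀ i, X i)
    (hx : {i | x i ≠ 1}.Finite) : x ∈ ⨆ i, (MonoidHom.mulSingle X i).range := by
  have key : ∀ σ : Set ι, σ.Finite → ∀ x : ∀ i, X i, (∀ i, i ∉ σ → x i = 1) →
      x ∈ ⨆ i, (MonoidHom.mulSingle X i).range := by
    intro σ hσ
    induction σ, hσ using Set.Finite.induction_on with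
    | empty =>
      intro x hx
      obtain rfl : x = 1 := funext fun i => hx i (by simp)
      exact one_mem _
    | @insert a σ _ _ ih =>
      intro x hx
      have h1 : Pi.mulSingle a (x a) ∈ ⨆ i, (MonoidHom.mulSingle X i).range :=
        mem_iSup_of_mem a ⟨x a, rfl⟩
      have h2 := ih ((Pi.mulSingle a (x a))⁻¹ * x) fun i hi => by
        by_cases h : i = a
        · subst h; simp
        · simp [Pi.mulSingle_eq_of_ne h, hx i (by simp [h, hi])]
      simpa using mul_mem h1 h2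
  exact key _ hx x fun i hi => by simpa using hi

def OY {J : Type} (X0 : Type) (X : J → Type) : Option J → Type
  | none => X0
  | some j => X j

instance OG {J : Type} (X0 : Type) (X : J → Type) [i0 : Group X0] [i1 : ∀ j, Group (X j)] :
    ∀ o, Group (OY X0 X o)
  | none => i0
  | some j => i1 j

def Of {J X0 : Type} {X : J → Type} [Group X0] [∀ j, Group (X j)] (f0 : K →* X0)
    (f : ∀ j, K →* X j) : ∀ o, K →* OY X0 X o
  | none => f0
  | some j => f j

theorem IsVar.fam (hC : IsVar C) {J X0 : Type} {X : J → Type} [Group X0] [∀ j, Group (X j)]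
    (h0 : C X0) (h1 : ∀ j, C (X j)) (f0 : K →* X0) (f : ∀ j, K →* X j) (p : K →* G)
    (hf : ∀ w, {j | f j w ≠ 1}.Finite) (h : ∀ w, f0 w = 1 → (∀ j, f j w = 1) → p w = 1) :
    C p.range := by
  classical
  refine hC.sect (hC.prod (Option J) (OY X0 X) fun o => by cases o; exacts [h0, h1 _])
    ((MonoidHom.pi (Of f0 f)).codRestrict _ fun w => mem_dr _ ?_) p fun w hw => ?_
  · refine (((hf w).image some).insert none).subset ?_
    rintro (_ | j) hj
    · exact Or.inl rfl
    · exact Or.inr ⟨j, hj, rfl⟩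
  · have h2 := congrArg Subtype.val hw
    exact h w (congrFun h2 none) fun j => congrFun h2 (some j)

theorem le_norm {H M : Subgroup G} (h : ∀ g ∈ H, ∀ m ∈ M, g * m * g⁻¹ ∈ M) :
    H ≤ normalizer (M : Set G) := fun g hg => mem_normalizer_iff.mpr fun m =>
  ⟨h g hg m, fun hm => by simpa [mul_assoc] using h g⁻¹ (inv_mem hg) _ hm⟩

theorem conj_sup {J : Type} {D : J → Subgroup G} {g : G}
    (h : ∀ j, ∀ x ∈ D j, g * x * g⁻¹ ∈ ⨆ j, D j) : ∀ m ∈ ⨆ j, D j, g * m * g⁻¹ ∈ ⨆ j, D j :=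
  fun _ hm => (iSup_le (a := (⨆ j, D j).comap (MulAut.conj g).toMonoidHom) fun j x hx => h j x hx) hm

theorem ind {J : Type} {X : J → Type} [∀ j, Group (X j)] (D : J → Subgroup K) (c : ∀ j, K →* X j)
    (h1 : ∀ i j, i ≠ j → ∀ x ∈ D i, ∀ y ∈ D j, x * y = y * x)
    (h2 : ∀ i, ∀ x ∈ D i, c i x = 1 → x = 1) (h3 : ∀ i j, i ≠ j → ∀ x ∈ D j, c i x = 1)
    {m : K} (hm : m ∈ ⨆ j, D j) (h : ∀ j, c j m = 1) : m = 1 := by
  have key : ∀ σ : Set J, σ.Finite → ∀ m ∈ ⨆ j ∈ σ, D j, (∀ j, c j m = 1) → m = 1 := by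
    intro σ hσ
    induction σ, hσ using Set.Finite.induction_on with
    | empty => intro m hm _; simpa using hm
    | @insert a σ ha _ ih =>
      intro m hm h
      rw [iSup_insert] at hm
      have h4 : D a ≤ normalizer ((⨆ j ∈ σ, D j : Subgroup K) : Set K) :=
        le_trans (fun x hx => mem_centralizer_iff.mpr fun y hy =>
          mem_centralizer_singleton_iff.mp ((iSup₂_le (a := centralizer {x}) fun j hj y hy =>
            mem_centralizer_singleton_iff.mpr (h1 j a (by rintro rfl; exact ha hj) y hy x hx)) hy))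
          (centralizer_le_normalizer _)
      rw [← SetLike.mem_coe, coe_mul_of_left_le_normalizer_right _ _ h4] at hm
      obtain ⟨x, hx, y, hy, rfl⟩ := hm
      have h5 : c a y = 1 := (iSup₂_le (a := (c a).ker) fun j hj y hy =>
        h3 a j (by rintro rfl; exact ha hj) y hy) hy
      obtain rfl : x = 1 := h2 a x hx (by simpa [h5] using h a)
      exact ih _ (by simpa using hy) h
  have : ∃ σ : Set J, σ.Finite ∧ m ∈ ⨆ j ∈ σ, D j := by
    refine iSup_induction D (C := fun m => ∃ σ : Set J, σ.Finite ∧ m ∈ ⨆ j ∈ σ, D j) hm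
      (fun j x hx => ⟨{j}, Set.finite_singleton j, by simpa using hx⟩)
      ⟨∅, Set.finite_empty, one_mem _⟩ ?_
    rintro x y ⟨σ, s1, s2⟩ ⟨τ, t1, t2⟩
    have m1 : ∀ ρ ρ' : Set J, ρ ⊆ ρ' → (⨆ j ∈ ρ, D j) ≤ ⨆ j ∈ ρ', D j := fun _ _ h => biSup_mono h
    exact ⟨σ ∪ τ, s1.union t1, mul_mem (m1 _ _ Set.subset_union_left s2)
      (m1 _ _ Set.subset_union_right t2)⟩
  obtain ⟨σ, s1, s2⟩ := this
  exact key σ s1 m s2 h

/-- elements of finite support -/
def FS {J : Type} {X : J → Type} [∀ j, Group (X j)] (c : ∀ j, K →* X j) : Subgroup K where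
  carrier := {w | {j | c j w ≠ 1}.Finite}
  one_mem' := by simp
  mul_mem' := fun {a b} ha hb => (Set.Finite.union ha hb).subset fun j hj => by
    by_contra hc
    simp only [Set.mem_union, Set.mem_ofPred_eq, not_or, not_not] at hc
    exact hj (by rw [map_mul, hc.1, hc.2, mul_one])
  inv_mem' := fun {a} ha => by simpa using ha

theorem IsVar.semi (hC : IsVar C) {J : Type} (N : J → Subgroup G) (hN : ∀ j, (N j).Normal)
    (hF : ∀ j, Finite (N j)) (h1 : ∀ i j, i ≠ j → ∀ x ∈ N i, ∀ y ∈ N j, x * y = y * x)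
    (h2 : ∀ g, {j | ∃ x ∈ N j, g * x ≠ x * g}.Finite) (B : Subgroup G) (hB : C B) :
    C ↥((⨆ j, N j) ⊔ B) := by
  classical
  let Hol : J → Type := fun j => N j ⋊[MonoidHom.id _] MulAut (N j)
  have : ∀ j, Finite (Hol j) := fun j => Finite.of_equiv _ SemidirectProduct.equivProd.symm
  let δ : ∀ j, N j →* G × B × ∀ j, Hol j := fun j => (N j).subtype.prod
    ((1 : N j →* B).prod ((MonoidHom.mulSingle Hol j).comp SemidirectProduct.inl))
  let β : B →* G × B × ∀ j, Hol j := B.subtype.prod ((MonoidHom.id B).prod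
    (MonoidHom.pi fun j => SemidirectProduct.inr.comp (MulAut.conjNormal.comp B.subtype)))
  let c : ∀ j, (G × B × ∀ j, Hol j) →* Hol j := fun j =>
    (Pi.evalMonoidHom Hol j).comp ((MonoidHom.snd _ _).comp (MonoidHom.snd _ _))
  have c1 : ∀ j x, c j (δ j x) = SemidirectProduct.inl x := fun j x => by simp [c, δ]
  have c2 : ∀ i j, i ≠ j → ∀ x, c i (δ j x) = 1 := fun i j h x => by
    simp [c, δ, Pi.mulSingle_eq_of_ne h]
  have c3 : ∀ j b, c j (β b) = SemidirectProduct.inr (MulAut.conjNormal b.1) := fun _ _ => rfl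
  have ext3 : ∀ u v : G × B × ∀ j, Hol j, u.1 = v.1 → u.2.1 = v.2.1 → (∀ j, c j u = c j v) →
      u = v := fun u v e1 e2 e3 => Prod.ext e1 (Prod.ext e2 (funext e3))
  let L := (⨆ j, (δ j).range) ⊔ β.range
  have e : ((MonoidHom.fst _ _).comp L.subtype).range = (⨆ j, N j) ⊔ B := by
    rw [MonoidHom.range_comp, range_subtype, Subgroup.map_sup, Subgroup.map_iSup]
    congr 1
    · exact iSup_congr fun j => by rw [← MonoidHom.range_comp]; exact range_subtype _
    · rw [← MonoidHom.range_comp]; exact range_subtype _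
  rw [← e]
  refine hC.fam hB (fun j => hC.fin (Hol j) inferInstance)
    ((MonoidHom.fst _ _).comp ((MonoidHom.snd _ _).comp L.subtype))
    (fun j => (c j).comp L.subtype) _ (fun w => ?_) ?_
  · refine (sup_le (iSup_le fun j => ?_) ?_ : L ≤ FS c) w.2
    · rintro _ ⟨x, rfl⟩
      exact (Set.finite_singleton j).subset fun i hi => by_contra fun h => hi (c2 i j h x)
    · rintro _ ⟨b, rfl⟩
      refine (h2 b).subset fun j hj => by_contra fun h => hj ?_
      rw [c3, ← map_one SemidirectProduct.inr]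
      congr 1
      ext x
      have : (b : G) * x = x * b := by_contra fun h' => h ⟨x, x.2, h'⟩
      simp [this]
  · rintro ⟨w, hw⟩ w1 w2
    have h4 : β.range ≤ normalizer ((⨆ j, (δ j).range : Subgroup _) : Set _) := by
      refine le_norm ?_
      rintro _ ⟨b, rfl⟩
      refine conj_sup ?_
      rintro j _ ⟨x, rfl⟩
      refine mem_iSup_of_mem j ⟨MulAut.conjNormal b.1 x, ext3 _ _ rfl (by simp [δ]) fun i => ?_⟩
      rw [map_mul, map_mul, map_inv, c3]
      by_cases h : i = j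
      · subst h
        rw [c1, c1, ← map_inv]
        exact SemidirectProduct.inl_aut _ _
      · rw [c2 i j h, c2 i j h]; simp
    have hw' := hw
    rw [← SetLike.mem_coe, coe_mul_of_right_le_normalizer_left _ _ h4] at hw'
    obtain ⟨m, hm, _, ⟨b, rfl⟩, rfl⟩ := hw'
    have h5' : (⨆ j, (δ j).range) ≤ ((MonoidHom.fst B (∀ j, Hol j)).comp (MonoidHom.snd G _)).ker :=
      iSup_le (by rintro j _ ⟨x, rfl⟩; rfl)
    have h5 : m.2.1 = 1 := h5' hm
    obtain rfl : b = 1 := by simpa [h5, β] using w1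
    have h6 : m = 1 := by
      refine ind (fun j => (δ j).range) c ?_ ?_ ?_ hm fun j => by simpa using w2 j
      · rintro i j h _ ⟨x, rfl⟩ _ ⟨y, rfl⟩
        refine ext3 _ _ (h1 i j h x x.2 y y.2) rfl fun k => ?_
        rw [map_mul, map_mul]
        by_cases hk : k = i
        · rw [c2 k j (hk ▸ h)]; simp
        · rw [c2 k i hk]; simp
      · rintro i _ ⟨x, rfl⟩ h
        rw [c1, map_eq_one_iff _ SemidirectProduct.inl_injective] at h
        rw [h, map_one]
      · rintro i j h _ ⟨x, rfl⟩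
        exact c2 i j h x
    simp [h6]

/-- contained in a finite normal subgroup -/
def FinN (g : G) : Prop := ∃ E : Subgroup G, E.Normal ∧ (E : Set G).Finite ∧ g ∈ E

theorem fin_sup {E E' : Subgroup G} (h : E.Normal) (h1 : (E : Set G).Finite)
    (h2 : (E' : Set G).Finite) : ((E ⊔ E' : Subgroup G) : Set G).Finite := by
  rw [normal_mul]; exact h1.mul h2

theorem finN_set (h : ∀ g : G, FinN g) {s : Set G} (hs : s.Finite) :
    ∃ E : Subgroup G, E.Normal ∧ (E : Set G).Finite ∧ s ⊆ E := by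
  induction s, hs using Set.Finite.induction_on with
  | empty => exact ⟨⊥, inferInstance, by simp, by simp⟩
  | @insert a s _ _ ih =>
    obtain ⟨E, h1, h2, h3⟩ := ih
    obtain ⟨E', h1', h2', h3'⟩ := h a
    exact ⟨E ⊔ E', inferInstance, fin_sup h1 h2 h2', Set.insert_subset (mem_sup_right h3')
      fun x hx => mem_sup_left (h3 hx)⟩

theorem FinN.fc {g : G} (h : FinN g) : {h : G | IsConj g h}.Finite := by
  obtain ⟨E, h1, h2, h3⟩ := h
  refine h2.subset fun x hx => ?_
  obtain ⟨c, rfl⟩ := isConj_iff.mp hx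
  exact h1.conj_mem _ h3 c

theorem IsVar.hall (hC : IsVar C) [Countable G] (h : ∀ g : G, FinN g) : C G := by
  obtain ⟨f, hf⟩ := exists_surjective_nat G
  have hs : ∀ (E : Subgroup G) (n : ℕ), ∃ E' : Subgroup G, E.Normal → (E : Set G).Finite →
      (E'.Normal ∧ (E' : Set G).Finite ∧ E ≤ E' ∧ f n ∈ E' ∧
        ∀ g, ∃ x ∈ E', x⁻¹ * g ∈ centralizer (E : Set G)) := by
    intro E n
    by_cases hE : (E : Set G).Finite
    · have := hE.to_subtype
      have : (⨅ x : E, centralizer {x.1}).FiniteIndex :=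
        finiteIndex_iInf fun x => FCDer.cent_fi (fun g => (h g).fc) x.1
      obtain ⟨s, s1, -, s2⟩ := Dense.tr1 ⊤ (⨅ x : E, centralizer {x.1})
      obtain ⟨E', h1, h2, h3⟩ := finN_set h ((hE.union s1).insert (f n))
      refine ⟨E', fun _ _ => ⟨h1, h2, fun x hx => h3 (Or.inr (Or.inl hx)), h3 (Or.inl rfl),
        fun g => ?_⟩⟩
      obtain ⟨x, hx, hx'⟩ := s2 g trivial
      exact ⟨x, h3 (Or.inr (Or.inr hx)), mem_centralizer_iff.mpr fun y hy =>
        (mem_centralizer_singleton_iff.mp (mem_iInf.mp hx' ⟨y, hy⟩)).symm⟩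
    · exact ⟨⊥, fun _ h => absurd h hE⟩
  choose nx hnx using hs
  let E : ℕ → Subgroup G := fun n => Nat.rec ⊥ (fun n E => nx E n) n
  have e0 : ∀ n : ℕ, (E n).Normal ∧ Set.Finite (SetLike.coe (E n)) := by
    intro n
    induction n with
    | zero => exact ⟨inferInstanceAs (⊥ : Subgroup G).Normal, by simp [E]⟩
    | succ n ih => exact ⟨(hnx _ n ih.1 ih.2).1, (hnx _ n ih.1 ih.2).2.1⟩
  have e1 : ∀ n : ℕ, E n ≤ E (n + 1) ∧ f n ∈ E (n + 1) ∧
      ∀ g, ∃ x ∈ E (n + 1), x⁻¹ * g ∈ centralizer (SetLike.coe (E n)) :=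
    fun n => (hnx _ n (e0 n).1 (e0 n).2).2.2
  have e2 : Monotone E := monotone_nat_of_le_succ fun n => (e1 n).1
  let F : ℕ → Subgroup G := fun n => E (n + 1) ⊓ centralizer (SetLike.coe (E (n - 1)))
  have fn : ∀ n, (F n).Normal := fun n => by
    have := (e0 (n + 1)).1
    have := (e0 (n - 1)).1
    infer_instance
  have ff : ∀ n, Finite (F n) := fun n => ((e0 (n + 1)).2.subset fun x hx => hx.1).to_subtype
  have f1 : ∀ n m, n + 2 ≤ m → ∀ x ∈ F n, ∀ y ∈ F m, x * y = y * x := fun n m hm x hx y hy =>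
    mem_centralizer_iff.mp hy.2 x (e2 (show n + 1 ≤ m - 1 by omega) hx.1)
  have f2 : ∀ g, {j | ∃ x ∈ F j, g * x ≠ x * g}.Finite := by
    intro g
    obtain ⟨n, rfl⟩ := hf g
    refine (Set.finite_lt_nat (n + 2)).subset ?_
    rintro j ⟨x, hx, hx'⟩
    by_contra hc
    exact hx' (mem_centralizer_iff.mp hx.2 _ (e2 (show n + 1 ≤ j - 1 by simp at hc; omega) (e1 n).2.1))
  have f3 : ∀ r, ∀ i j : ℕ, i ≠ j → ∀ x ∈ F (2 * i + r), ∀ y ∈ F (2 * j + r), x * y = y * x := by
    intro r i j hij x hx y hy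
    rcases lt_or_gt_of_ne hij with h | h
    · exact f1 _ _ (by omega) x hx y hy
    · exact (f1 _ _ (by omega) y hy x hx).symm
  have f4 : ∀ r g, {j : ℕ | ∃ x ∈ F (2 * j + r), g * x ≠ x * g}.Finite := fun r g =>
    (f2 g).preimage (f := fun j => 2 * j + r) fun a _ b _ h => by simp only at h; omega
  refine hC.top (hC.semi (fun j => F (2 * j + 1)) (fun j => fn (2 * j + 1))
    (fun j => ff (2 * j + 1)) (f3 1) (f4 1) _
    (hC.semi (fun j => F (2 * j + 0)) (fun j => fn (2 * j + 0)) (fun j => ff (2 * j + 0)) (f3 0)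
      (f4 0) ⊥
      (hC.fin _ inferInstance))) ?_
  generalize hT : ((⨆ j, F (2 * j + 1)) ⊔ ((⨆ j, F (2 * j + 0)) ⊔ ⊥)) = T
  have f5 : ∀ n, F n ≤ T := by
    intro n
    rw [← hT]
    obtain ⟨j, rfl | rfl⟩ := Nat.even_or_odd' n
    · exact le_sup_of_le_right (le_sup_of_le_left (le_iSup (fun j => F (2 * j + 0)) j))
    · exact le_sup_of_le_left (le_iSup (fun j => F (2 * j + 1)) j)
  have f6 : ∀ n, E (n + 1) ≤ T := by
    intro n
    induction n with
    | zero =>
      exact fun x hx => f5 0 ⟨hx, mem_centralizer_iff.mpr fun y hy => by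
        obtain rfl : y = 1 := hy
        simp⟩
    | succ n ih =>
      intro g hg
      obtain ⟨x, hx, hx'⟩ := (e1 n).2.2 g
      have h7 : x⁻¹ * g ∈ E (n + 1 + 1) := mul_mem (inv_mem ((e1 (n + 1)).1 hx)) hg
      simpa using mul_mem (ih hx) (f5 (n + 1) ⟨h7, hx'⟩)
  refine eq_top_iff.mpr fun g _ => ?_
  obtain ⟨n, rfl⟩ := hf g
  exact f6 n (e1 n).2.1

end Pool.Agent.H73.Var
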