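import Pool.Agent.H73.Var1

/-!
Class two FC-groups and groups generated by countable subgroups commuting modulo the centre.
-/

set_option autoImplicit false

namespace Pool.Agent.H73.Var

open Subgroup
open scoped commutatorElement IsMulCommutative

theorem pchars {A : Type} [AddCommGroup A] {p : ℕ} (hp : p.Prime) (h : ∀ a : A, ∃ k, p ^ k • a = 0) :
    ∃ (J : Type) (f : A →+ (J →₀ Additive ℂˣ)), Function.Injective f := by
  have := Fact.mk hp
  let : Module (ZMod p) (AddSubgroup.torsionBy A p) := AddSubgroup.torsionBy.zmodModule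
  let b := Module.Basis.ofVectorSpace (ZMod p) (AddSubgroup.torsionBy A p)
  have hζ := (Complex.isPrimitiveRoot_exp p hp.ne_zero).isUnit_unit hp.ne_zero
  let ι : ZMod p →+ Additive ℂˣ :=
    (MonoidHom.toAdditive (Subgroup.subtype _)).comp hζ.zmodEquivZPowers.toAddMonoidHom
  have hι : Function.Injective ι := Subtype.val_injective.comp hζ.zmodEquivZPowers.injective
  let g := (Finsupp.mapRange.addMonoidHom ι).comp b.repr.toLinearMap.toAddMonoidHom
  have hg : Function.Injective g :=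
    (Finsupp.mapRange_injective _ ι.map_zero hι).comp b.repr.injective
  let : DivisibleBy (Module.Basis.ofVectorSpaceIndex (ZMod p) (AddSubgroup.torsionBy A p) →₀
      Additive ℂˣ) ℕ := divisibleByOfSMulRightSurj _ _ fun {n} hn v => by
    have : ∀ x : Additive ℂˣ, ∃ y : Additive ℂˣ, n • y = x ∧ (x = 0 → y = 0) := by
      intro x
      by_cases hx : x = 0
      · exact ⟨0, by simp [hx], fun _ => rfl⟩
      · obtain ⟨z, hz⟩ := IsAlgClosed.exists_pow_nat_eq (x.toMul : ℂ) (Nat.pos_of_ne_zero hn)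
        have hz0 : z ≠ 0 := by
          rintro rfl
          exact x.toMul.ne_zero (by rw [← hz, zero_pow hn])
        exact ⟨Additive.ofMul (Units.mk0 z hz0), congrArg Additive.ofMul (Units.ext hz),
          fun h => absurd h hx⟩
    choose r r1 r2 using this
    exact ⟨v.mapRange r (r2 0 rfl), by ext j; simp [r1]⟩
  let := AddGroup.divisibleByIntOfDivisibleByNat
    (Module.Basis.ofVectorSpaceIndex (ZMod p) (AddSubgroup.torsionBy A p) →₀ Additive ℂˣ)
  obtain ⟨f, hf⟩ := (Module.Baer.of_divisible (Module.Basis.ofVectorSpaceIndex (ZMod p)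
    (AddSubgroup.torsionBy A p) →₀ Additive ℂˣ)).extension_property_addMonoidHom
    (AddSubgroup.torsionBy A p).subtype Subtype.val_injective g
  refine ⟨_, f, (injective_iff_map_eq_zero f).mpr fun a ha => ?_⟩
  obtain ⟨k, hk⟩ := h a
  induction k generalizing a with
  | zero => simpa using hk
  | succ k ih =>
    have h1 : p • a = 0 := ih _ (by rw [map_nsmul, ha, smul_zero]) (by rwa [smul_smul, ← pow_succ])
    have h2 : g ⟨a, AddSubgroup.torsionBy.nsmul_iff.mpr h1⟩ = 0 := by rw [← hf]; exact ha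
    exact congrArg Subtype.val ((injective_iff_map_eq_zero g).mp hg _ h2)

theorem chars {W : Type} [Group W] (hc : ∀ a b : W, a * b = b * a) (ht : ∀ a : W, IsOfFinOrder a) :
    ∃ (J : Type) (χ : J → W →* ℂˣ), (∀ j, ∃ p : ℕ, p.Prime ∧ ∀ w, ∃ n, χ j w ^ p ^ n = 1) ∧
      (∀ w, {j | χ j w ≠ 1}.Finite) ∧ ∀ w, (∀ j, χ j w = 1) → w = 1 := by
  let : CommGroup W := { ‹Group W› with mul_comm := hc }
  let T : Nat.Primes → Subgroup W := fun p =>
    { carrier := {a | ∃ m, ¬ p.1 ∣ m ∧ a ^ m = 1}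
      one_mem' := ⟨1, p.2.not_dvd_one, one_pow _⟩
      mul_mem' := by
        rintro a b ⟨m, m1, m2⟩ ⟨n, n1, n2⟩
        refine ⟨m * n, fun h => (p.2.dvd_mul.mp h).elim m1 n1, ?_⟩
        rw [mul_pow, pow_mul, m2, mul_comm m, pow_mul, n2]; simp
      inv_mem' := by
        rintro a ⟨m, m1, m2⟩
        exact ⟨m, m1, by rw [inv_pow, m2, inv_one]⟩ }
  have h1 : ∀ (p : Nat.Primes) (w : W), ∃ k, (w : W ⧸ T p) ^ p.1 ^ k = 1 := by
    intro p w
    obtain ⟨k, m, m1, m2⟩ := Nat.exists_eq_pow_mul_and_not_dvd (ht w).orderOf_pos.ne' p.1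
      p.2.ne_one
    refine ⟨k, ?_⟩
    rw [← QuotientGroup.mk_pow, QuotientGroup.eq_one_iff]
    exact ⟨m, m1, by rw [← pow_mul, ← m2, pow_orderOf_eq_one]⟩
  choose J f hf using fun p : Nat.Primes => pchars (A := Additive (W ⧸ T p)) p.2 fun a => by
    obtain ⟨w, hw⟩ := QuotientGroup.mk_surjective a.toMul
    obtain ⟨k, hk⟩ := h1 p w
    exact ⟨k, congrArg Additive.ofMul (hw ▸ hk)⟩
  let χ : (Σ p, J p) → W →* ℂˣ := fun j => (MonoidHom.toAdditive.symm
    ((Finsupp.applyAddHom j.2).comp (f j.1))).comp (QuotientGroup.mk' (T j.1))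
  have hχ : ∀ j w, χ j w = (f j.1 (Additive.ofMul (w : W ⧸ T j.1)) j.2).toMul := fun _ _ => rfl
  refine ⟨Σ p, J p, χ, fun j => ⟨j.1, j.1.2, fun w => ?_⟩, fun w => ?_, fun w hw => ?_⟩
  · obtain ⟨k, hk⟩ := h1 j.1 w
    refine ⟨k, ?_⟩
    rw [← map_pow, hχ, QuotientGroup.mk_pow, hk]
    simp
  · have h2 : {p : Nat.Primes | p.1 ∣ orderOf w}.Finite :=
      ((Set.finite_le_nat (orderOf w)).preimage Subtype.val_injective.injOn).subset
        fun p hp => Nat.le_of_dvd (ht w).orderOf_pos hp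
    refine (h2.biUnion fun p _ => (f p (Additive.ofMul (w : W ⧸ T p))).support.finite_toSet.image
      (Sigma.mk p)).subset ?_
    rintro ⟨p, j⟩ hj
    refine Set.mem_biUnion (x := p) (by_contra fun h => hj ?_) ⟨j, Finsupp.mem_support_iff.mpr hj, rfl⟩
    have : (w : W ⧸ T p) = 1 := (QuotientGroup.eq_one_iff _).mpr ⟨_, h, pow_orderOf_eq_one w⟩
    rw [hχ, this]
    simp
  · by_contra h
    obtain ⟨p, hp, h2⟩ := Nat.exists_prime_and_dvd (mt orderOf_eq_one_iff.mp h)
    have h3 : Additive.ofMul (w : W ⧸ T ⟨p, hp⟩) = 0 :=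
      (injective_iff_map_eq_zero _).mp (hf ⟨p, hp⟩) _ (Finsupp.ext fun j => hw ⟨⟨p, hp⟩, j⟩)
    obtain ⟨m, m1, m2⟩ := (QuotientGroup.eq_one_iff w).mp h3
    exact m1 (h2.trans (orderOf_dvd_of_pow_eq_one m2))

theorem pruf {p : ℕ} (hp : p.Prime) (R : Subgroup ℂˣ) (h : ∀ x ∈ R, ∃ n, x ^ p ^ n = 1)
    (hR : ¬ Finite R) : R = ⨆ n : ℕ, rootsOfUnity (p ^ n) ℂ := by
  refine le_antisymm (fun x hx => ?_) (iSup_le fun n => ?_)
  · obtain ⟨n, hn⟩ := h x hx
    exact mem_iSup_of_mem n hn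
  · have : NeZero (p ^ n) := ⟨pow_ne_zero _ hp.ne_zero⟩
    obtain ⟨x, hx, hx'⟩ := SetLike.not_le_iff_exists.mp fun h : R ≤ rootsOfUnity (p ^ n) ℂ =>
      hR (Finite.of_injective _ (inclusion_injective h))
    obtain ⟨m, hm⟩ := h x hx
    obtain ⟨k, -, hk⟩ := (Nat.dvd_prime_pow hp).mp (orderOf_dvd_of_pow_eq_one hm)
    have : NeZero (p ^ k) := ⟨pow_ne_zero _ hp.ne_zero⟩
    have h1 : IsPrimitiveRoot x (p ^ k) := hk ▸ IsPrimitiveRoot.orderOf x
    have h2 : n ≤ k := by
      by_contra hc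
      exact hx' (orderOf_dvd_iff_pow_eq_one.mp (hk ▸ pow_dvd_pow p (by omega)))
    refine (rootsOfUnity_le_of_dvd (pow_dvd_pow p h2)).trans ?_
    rw [← h1.zpowers_eq]
    exact zpowers_le.mpr hx

variable {C : ∀ (G : Type) [Group G], Prop} {K G : Type} [Group K] [Group G]

theorem comm_cent {u v : G} (hu : u ∈ center G) (hv : v ∈ center G) (a b : G) :
    ⁅u * a, v * b⁆ = ⁅a, b⁆ := by
  have h1 := mem_center_iff.mp hu
  have h2 := mem_center_iff.mp hv
  simp only [commutatorElement_def]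
  calc u * a * (v * b) * (u * a)⁻¹ * (v * b)⁻¹ = u * (a * v * b * a⁻¹) * u⁻¹ * b⁻¹ * v⁻¹ := by
        group
    _ = (a * v) * (b * a⁻¹ * b⁻¹) * v⁻¹ := by rw [← h1]; group
    _ = v * (a * b * a⁻¹ * b⁻¹) * v⁻¹ := by rw [h2]; group
    _ = _ := by rw [← h2]; group

theorem comm3 {x a b : G} (ha : ⁅x, a⁆ ∈ center G) (hb : ⁅x, b⁆ ∈ center G) :
    x * ⁅a, b⁆ * x⁻¹ = ⁅a, b⁆ := by
  refine Eq.trans ?_ (comm_cent ha hb a b)
  simp only [commutatorElement_def]; group

theorem IsVar.comm (hC : IsVar C) (h : ∀ a b : G, a * b = b * a) : C G := by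
  refine hC.fin G ?_
  have : _root_.commutator G = ⊥ := eq_bot_iff.mpr (commutator_le.mpr fun a _ b _ =>
    commutatorElement_eq_one_iff_mul_comm.mpr (h a b))
  rw [this]; infer_instance

theorem IsVar.rel (hC : IsVar C) {J : Type} (N : J → Subgroup G) (hN : ∀ j, (N j).Normal)
    (h1 : ∀ j, C (G ⧸ N j)) (h2 : ∀ w ∈ _root_.commutator G, (∀ j, w ∈ N j) → w = 1)
    (h3 : ∀ g : G, {j | (g : G ⧸ N j) ∉ center (G ⧸ N j)}.Finite) : C G := by
  classical
  let π : FreeGroup G →* G := FreeGroup.lift id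
  let φ : ∀ j, FreeGroup G →* G ⧸ N j := fun j => FreeGroup.lift fun x =>
    if (x : G ⧸ N j) ∈ center (G ⧸ N j) then 1 else (x : G ⧸ N j)
  have e : ∀ j w, φ j w * ((π w : G) : G ⧸ N j)⁻¹ ∈ center (G ⧸ N j) := by
    intro j w
    have : (QuotientGroup.mk' (center (G ⧸ N j))).comp (φ j) =
        (QuotientGroup.mk' _).comp ((QuotientGroup.mk' (N j)).comp π) := by
      refine FreeGroup.ext_hom _ _ fun x => ?_
      by_cases h : (x : G ⧸ N j) ∈ center (G ⧸ N j)
      · simpa [φ, π, h] using ((QuotientGroup.eq_one_iff _).mpr h).symm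
      · simp [φ, π, h]
    rw [← QuotientGroup.eq_one_iff, QuotientGroup.mk_mul, QuotientGroup.mk_inv, mul_inv_eq_one]
    exact DFunLike.congr_fun this w
  refine hC.top (hC.fam (hC.comm mul_comm) h1 Abelianization.of φ π (fun w => ?_) fun w w1 w2 => ?_)
    (eq_top_iff.mpr fun g _ => ⟨FreeGroup.of g, by simp [π]⟩)
  · have : closure (Set.range (FreeGroup.of : G → FreeGroup G)) ≤ FS φ := by
      rw [closure_le]
      rintro _ ⟨x, rfl⟩
      exact (h3 x).subset fun j hj h => hj (by simp [φ, h])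
    exact this (by rw [FreeGroup.closure_range_of]; trivial)
  · have hw : w ∈ _root_.commutator (FreeGroup G) := by rw [← Abelianization.ker_of]; exact w1
    have hw' : _root_.commutator (FreeGroup G) ≤ (_root_.commutator G).comap π :=
      commutator_le.mpr fun a _ b _ => by
        rw [mem_comap, map_commutatorElement]
        exact commutator_mem_commutator (mem_top _) (mem_top _)
    refine h2 _ (hw' hw) fun j => ?_
    have : _root_.commutator (FreeGroup G) ≤ (φ j).eqLocus ((QuotientGroup.mk' (N j)).comp π) :=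
      commutator_le.mpr fun a _ b _ => by
        change φ j _ = _
        rw [map_commutatorElement, map_commutatorElement]
        refine Eq.trans ?_ (comm_cent (e j a) (e j b) _ _)
        simp
    exact (QuotientGroup.eq_one_iff _).mp ((this hw).symm.trans (w2 j))

theorem comm_fin (hfc : ∀ g : G, {h : G | IsConj g h}.Finite) (g : G) :
    (Set.range fun y : G => ⁅g, y⁆).Finite := by
  refine ((hfc g⁻¹).image fun h => g * h).subset ?_
  rintro _ ⟨y, rfl⟩
  exact ⟨y * g⁻¹ * y⁻¹, isConj_iff.mpr ⟨y, rfl⟩, by simp [commutatorElement_def, mul_assoc]⟩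

theorem IsVar.two (hC : IsVar C) (hfc : ∀ g : G, {h : G | IsConj g h}.Finite)
    (h : ∀ a b : G, ⁅a, b⁆ ∈ center G) : C G := by
  have hz : _root_.commutator G ≤ center G := commutator_le.mpr fun a _ b _ => h a b
  have ht : _root_.commutator G ≤ (CommGroup.torsion (center G)).map (center G).subtype := by
    refine commutator_le.mpr fun a _ b _ => ⟨⟨_, h a b⟩, ?_, rfl⟩
    refine (center G).subtype_injective.isOfFinOrder_iff.mp (finite_powers.mp
      ((comm_fin hfc a).subset ?_))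
    rintro _ ⟨n, rfl⟩
    refine ⟨b ^ n, ?_⟩
    change ⁅a, b ^ n⁆ = ⁅a, b⁆ ^ n
    have h1 : Commute ⁅a, b⁆ b := (mem_center_iff.mp (h a b) b).symm
    have h2 : a * b * a⁻¹ = ⁅a, b⁆ * b := by simp [commutatorElement_def]
    rw [commutatorElement_def a (b ^ n), ← conj_pow, h2, h1.mul_pow, mul_inv_cancel_right]
  obtain ⟨J, χ, c1, c2, c3⟩ := chars (W := _root_.commutator G)
    (fun a b => Subtype.ext (mem_center_iff.mp (hz b.2) a)) fun a => by
      obtain ⟨x, x1, x2⟩ := ht a.2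
      refine (_root_.commutator G).subtype_injective.isOfFinOrder_iff.mp ?_
      have := (center G).subtype.isOfFinOrder x1
      rwa [x2] at this
  let N : J → Subgroup G := fun j => (χ j).ker.map (_root_.commutator G).subtype
  have hN : ∀ j, (N j).Normal := fun j => ⟨by
    rintro _ ⟨x, hx, rfl⟩ g
    exact ⟨x, hx, by simp [mem_center_iff.mp (hz x.2) g]⟩⟩
  have hm : ∀ j (x : _root_.commutator G), x.1 ∈ N j ↔ χ j x = 1 := fun j x =>
    mem_map_iff_mem Subtype.val_injective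
  refine hC.rel N hN (fun j => ?_) (fun w hw h => congrArg Subtype.val (c3 ⟨w, hw⟩ fun j =>
    (hm j _).mp (h j))) fun g => ?_
  · have e0 : (_root_.commutator G).map (QuotientGroup.mk' (N j)) = _root_.commutator (G ⧸ N j) := by
      rw [map_commutator_eq, QuotientGroup.range_mk']; rfl
    let θ : _root_.commutator G →* _root_.commutator (G ⧸ N j) :=
      ((QuotientGroup.mk' (N j)).comp (_root_.commutator G).subtype).codRestrict _
        fun x => e0 ▸ mem_map_of_mem _ x.2
    have hθ : Function.Surjective θ := by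
      rintro ⟨y, hy⟩
      rw [← e0] at hy
      obtain ⟨x, hx, rfl⟩ := hy
      exact ⟨⟨x, hx⟩, rfl⟩
    have hk : θ.ker = (χ j).ker := by
      ext x
      rw [MonoidHom.mem_ker, MonoidHom.mem_ker, ← hm, Subtype.ext_iff]
      exact QuotientGroup.eq_one_iff _
    let ε := (QuotientGroup.quotientKerEquivOfSurjective θ hθ).symm.trans
      ((QuotientGroup.quotientMulEquivOfEq hk).trans (QuotientGroup.quotientKerEquivRange (χ j)))
    by_cases hf : Finite (χ j).range
    · exact hC.fin _ (Finite.of_equiv _ ε.symm.toEquiv)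
    · obtain ⟨p, hp, h1⟩ := c1 j
      refine hC.qc _ (FCDer.fc_map (QuotientGroup.mk'_surjective _) hfc) ⟨p, hp, ⟨ε.trans
        (MulEquiv.subgroupCongr (pruf hp _ ?_ hf))⟩⟩
      rintro _ ⟨w, rfl⟩
      exact h1 w
  · refine (((comm_fin hfc g).preimage (f := (Subtype.val : _root_.commutator G → G))
      Subtype.val_injective.injOn).biUnion fun d _ => c2 d).subset fun j hj => ?_
    by_contra hc
    refine hj (mem_center_iff.mpr fun q => ?_)
    obtain ⟨y, rfl⟩ := QuotientGroup.mk_surjective q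
    have h1 : ⁅g, y⁆ ∈ N j := (hm j ⟨_, commutator_mem_commutator (mem_top g) (mem_top y)⟩).mpr
      (by_contra fun h => hc (Set.mem_iUnion₂.mpr ⟨_, ⟨y, rfl⟩, h⟩))
    have := (QuotientGroup.eq_one_iff _).mpr h1
    rw [← QuotientGroup.mk'_apply, map_commutatorElement,
      commutatorElement_eq_one_iff_mul_comm] at this
    exact this.symm

theorem gen_comm {J : Type} {D : J → Subgroup G} {N : Subgroup G} (hN : N.Normal)
    (h : ∀ i j, ∀ x ∈ D i, ∀ y ∈ D j, ⁅x, y⁆ ∈ N) {a b : G} (ha : a ∈ ⨆ i, D i)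
    (hb : b ∈ ⨆ i, D i) : ⁅a, b⁆ ∈ N := by
  have h1 : ∀ j, ∀ y ∈ D j, ⨆ i, D i ≤ CentRes.Cm N hN y := fun j y hy =>
    iSup_le fun i x hx => show ⁅y, x⁆ ∈ N from h j i y hy x hx
  have h2 : ⨆ i, D i ≤ CentRes.Cm N hN a := iSup_le fun j y hy =>
    show ⁅a, y⁆ ∈ N from CentRes.sym (show ⁅y, a⁆ ∈ N from h1 j y hy ha)
  exact h2 hb

theorem IsVar.tw (hC : IsVar C) {J : Type} {S : J → Type} [∀ j, Group (S j)] (hS : ∀ j, C (S j))
    (δ : ∀ j, S j →* K) (c : ∀ j, K →* S j) (h0 : ⨆ j, (δ j).range = ⊤)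
    (h1 : ∀ i j, i ≠ j → ∀ x y, ⁅δ i x, δ j y⁆ ∈ center K) (h2 : ∀ j x, c j (δ j x) = x)
    (h3 : ∀ i j, i ≠ j → ∀ x, c i (δ j x) = 1) (hfc : ∀ g : K, {h : K | IsConj g h}.Finite) :
    C K := by
  let D : J → Subgroup K := fun j => (_root_.commutator (S j)).map (δ j)
  have d1 : ∀ i j, i ≠ j → ∀ x, ∀ y ∈ D j, δ i x * y * (δ i x)⁻¹ = y := by
    rintro i j h x _ ⟨y, hy, rfl⟩
    have : _root_.commutator (S j) ≤ (centralizer {δ i x}).comap (δ j) :=
      commutator_le.mpr fun a _ b _ => by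
        rw [mem_comap, mem_centralizer_singleton_iff, map_commutatorElement, eq_comm,
          ← mul_inv_eq_iff_eq_mul]
        exact comm3 (h1 i j h x a) (h1 i j h x b)
    rw [← mem_centralizer_singleton_iff.mp (this hy), mul_inv_cancel_right]
  have hM : (⨆ j, D j).Normal := by
    rw [← normalizer_eq_top_iff, eq_top_iff, ← h0]
    refine iSup_le fun i => le_norm ?_
    rintro _ ⟨x, rfl⟩
    refine conj_sup fun j y hy => mem_iSup_of_mem j ?_
    by_cases h : i = j
    · subst h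
      obtain ⟨y, hy, rfl⟩ := hy
      exact ⟨x * y * x⁻¹, Normal.conj_mem inferInstance _ hy x, by simp⟩
    · rwa [d1 i j h x y hy]
  refine hC.top (hC.fam (hC.two (FCDer.fc_map (QuotientGroup.mk'_surjective (⨆ j, D j)) hfc)
    fun a b => ?_) hS (QuotientGroup.mk' _) c (MonoidHom.id K) (fun w => ?_) fun w w1 w2 => ?_)
    (eq_top_iff.mpr fun g _ => ⟨g, rfl⟩)
  · obtain ⟨a, rfl⟩ := QuotientGroup.mk'_surjective _ a
    obtain ⟨b, rfl⟩ := QuotientGroup.mk'_surjective _ b
    rw [← map_commutatorElement, ← mem_comap]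
    refine gen_comm (D := fun j => (δ j).range) inferInstance ?_ (h0 ▸ trivial) (h0 ▸ trivial)
    rintro i j _ ⟨x, rfl⟩ _ ⟨y, rfl⟩
    by_cases h : i = j
    · subst h
      rw [mem_comap, ← map_commutatorElement, QuotientGroup.mk'_apply,
        (QuotientGroup.eq_one_iff _).mpr (mem_iSup_of_mem i
          (mem_map_of_mem _ (commutator_mem_commutator (mem_top x) (mem_top y))))]
      exact one_mem _
    · refine mem_center_iff.mpr fun q => ?_
      obtain ⟨z, rfl⟩ := QuotientGroup.mk'_surjective _ q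
      rw [← map_mul, ← map_mul, mem_center_iff.mp (h1 i j h x y) z]
  · refine (iSup_le fun j => ?_ : ⨆ j, (δ j).range ≤ FS c) (h0 ▸ trivial)
    rintro _ ⟨x, rfl⟩
    exact (Set.finite_singleton j).subset fun i hi => by_contra fun h => hi (h3 i j h x)
  · refine ind D c ?_ ?_ ?_ ((QuotientGroup.eq_one_iff w).mp w1) w2
    · rintro i j h _ ⟨x, -, rfl⟩ y hy
      exact mul_inv_eq_iff_eq_mul.mp (d1 i j h x y hy)
    · rintro i _ ⟨x, -, rfl⟩ h
      rw [h2] at h
      rw [h, map_one]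
    · rintro i j h _ ⟨x, -, rfl⟩
      exact h3 i j h x

/-- the FC-centre -/
def FCc (G : Type) [Group G] : Subgroup G where
  carrier := {g | {h | IsConj g h}.Finite}
  one_mem' := by simp
  mul_mem' := fun {a b} ha hb => (Set.Finite.mul ha hb).subset fun x hx => by
    obtain ⟨c, rfl⟩ := isConj_iff.mp hx
    exact ⟨_, isConj_iff.mpr ⟨c, rfl⟩, _, isConj_iff.mpr ⟨c, rfl⟩, by simp⟩
  inv_mem' := fun {a} ha => (Set.Finite.inv ha).subset fun x hx => by
    obtain ⟨c, rfl⟩ := isConj_iff.mp hx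
    exact isConj_iff.mpr ⟨c, by simp [mul_assoc]⟩

theorem IsVar.blocks (hC : IsVar C) {J : Type} (S : J → Subgroup G) (hS : ∀ j, C (S j))
    (h0 : ⨆ j, S j = ⊤) (h1 : ∀ i j, i ≠ j → ∀ x ∈ S i, ∀ y ∈ S j, ⁅x, y⁆ ∈ center G)
    (hfc : ∀ g : G, {h : G | IsConj g h}.Finite) : C G := by
  classical
  let δ0 : ∀ j, S j →* G × ∀ j, S j := fun j =>
    (S j).subtype.prod (MonoidHom.mulSingle (fun j => S j) j)
  let L := ⨆ j, (δ0 j).range
  let δ : ∀ j, S j →* L := fun j => (δ0 j).codRestrict L fun x => mem_iSup_of_mem j ⟨x, rfl⟩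
  have e : ⨆ j, (δ j).range = ⊤ := by
    refine map_injective L.subtype_injective ?_
    rw [Subgroup.map_iSup, ← MonoidHom.range_eq_map, range_subtype]
    exact iSup_congr fun j => (MonoidHom.range_comp _ _).symm
  refine hC.surj ((MonoidHom.fst _ _).comp L.subtype) (MonoidHom.range_eq_top.mp ?_)
    (hC.tw hS δ (fun j => (Pi.evalMonoidHom (fun j => S j) j).comp
      ((MonoidHom.snd _ _).comp L.subtype)) e (fun i j h x y => ?_) (fun j x => by simp [δ, δ0])
      (fun i j h x => by simp [δ, δ0, Pi.mulSingle_eq_of_ne h]) fun g => ?_)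
  · rw [MonoidHom.range_comp, range_subtype, Subgroup.map_iSup, ← h0]
    exact iSup_congr fun j => by rw [← MonoidHom.range_comp]; exact range_subtype _
  · have h2 : (⁅δ i x, δ j y⁆ : L).1.2 = 1 :=
      commutatorElement_eq_one_iff_commute.mpr (Pi.mulSingle_commute (f := fun j => S j) h x y)
    refine mem_center_iff.mpr fun z => Subtype.ext (Prod.ext
      (mem_center_iff.mp (h1 i j h x x.2 y y.2) z.1.1) ?_)
    simp [h2]
  · refine (iSup_le fun j => ?_ : ⨆ j, (δ j).range ≤ FCc L) (e ▸ trivial)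
    rintro _ ⟨x, rfl⟩
    let ev : ∀ i, L →* S i := fun i => (Pi.evalMonoidHom (fun j => S j) i).comp
      ((MonoidHom.snd _ _).comp L.subtype)
    have e1 : ∀ w, IsConj (δ j x) w → ∀ i, i ≠ j → w.1.2 i = 1 := fun w hw i hi => by
      have := (ev i).map_isConj hw
      rwa [show ev i (δ j x) = 1 by simp [ev, δ, δ0, Pi.mulSingle_eq_of_ne hi],
        isConj_one_right] at this
    refine Set.Finite.of_finite_image (f := fun w : L => (w.1.1, (w.1.2 j).1))
      (((hfc x).prod (hfc x)).subset ?_) fun w hw w' hw' h => ?_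
    · rintro _ ⟨w, hw, rfl⟩
      refine ⟨((MonoidHom.fst _ _).comp L.subtype).map_isConj hw, ?_⟩
      have := ((S j).subtype.comp (ev j)).map_isConj hw
      rwa [show ((S j).subtype.comp (ev j)) (δ j x) = x by simp [ev, δ, δ0]] at this
    · simp only [Prod.mk.injEq] at h
      refine Subtype.ext (Prod.ext h.1 (funext fun i => ?_))
      by_cases hi : i = j
      · subst hi; exact Subtype.ext h.2
      · rw [e1 w hw i hi, e1 w' hw' i hi]

end Pool.Agent.H73.Var
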