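import Pool.Agent.H73.Var2

/-!
Every FC-group lies in the direct variety generated by groups with finite derived subgroup and
FC-groups with quasicyclic derived subgroup.
-/

set_option autoImplicit false

namespace Pool.Agent.H73.Var

open Subgroup Filter Pool.Agent.H73.CentRes Pool.Agent.H73.Dense
open scoped commutatorElement IsMulCommutative

variable {C : ∀ (G : Type) [Group G], Prop} {K G : Type} [Group K] [Group G]

theorem FinN.sub {S : Subgroup G} {x : S} (h : FinN x.1) : FinN x := by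
  obtain ⟨E, h1, h2, h3⟩ := h
  exact ⟨E.comap S.subtype, inferInstance, h2.preimage (f := (Subtype.val : S → G)) Subtype.val_injective.injOn, h3⟩

theorem clos_comm {s t : Set G} {N : Subgroup G} (hN : N.Normal)
    (h : ∀ x ∈ s, ∀ y ∈ t, ⁅x, y⁆ ∈ N) {a b : G} (ha : a ∈ closure s) (hb : b ∈ closure t) :
    ⁅a, b⁆ ∈ N := by
  have h1 : ∀ y ∈ t, closure s ≤ Cm N hN y := fun y hy =>
    (closure_le _).mpr fun x hx => show ⁅y, x⁆ ∈ N from sym (h x hx y hy)
  have h2 : closure t ≤ Cm N hN a := (closure_le _).mpr fun y hy =>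
    show ⁅a, y⁆ ∈ N from sym (show ⁅y, a⁆ ∈ N from h1 y hy ha)
  exact h2 hb

theorem IsVar.gens (hC : IsVar C) (hf : ∀ g : K, FinN g) {J : Type} (a : J → K)
    (h0 : closure (Set.range a) = ⊤) (R : J → J → Prop) (h1 : ∀ j k, R j k → R k j)
    (h2 : ∀ j, {k | R j k}.Countable) (h3 : ∀ j k, ¬ R j k → ⁅a j, a k⁆ ∈ center K) : C K := by
  let b : J → Set J := fun j => {k | Relation.ReflTransGen R j k}
  have b1 : ∀ j, (b j).Countable := by
    intro j
    obtain ⟨A, a1, -, a2, a3⟩ := clos (le_refl Cardinal.aleph0) (A := {j}) (B := Set.univ)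
      (fin_le le_rfl (Set.finite_singleton j)) (Set.subset_univ _)
      (fun ρ => ⋃ k ∈ ρ, {l | R k l}) (fun ρ h => un_le le_rfl (fin_le le_rfl h) fun k _ =>
        Cardinal.le_aleph0_iff_set_countable.mpr (h2 k)) fun _ => Set.subset_univ _
    refine (Cardinal.le_aleph0_iff_set_countable.mp a2).mono fun k hk => ?_
    induction hk with
    | refl => exact a1 rfl
    | tail _ h ih =>
      exact a3 _ (Set.finite_singleton _) (Set.singleton_subset_iff.mpr ih)
        (Set.mem_biUnion rfl h)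
  have b2 : ∀ j k, R j k → b j = b k := fun j k h => Set.ext fun l =>
    ⟨.head (h1 j k h), .head h⟩
  let S : Set J → Subgroup K := fun B => closure (Set.range fun j : {j // b j = B} => a j)
  refine hC.blocks S (fun B => ?_) ?_ (fun B B' h x hx y hy => clos_comm inferInstance ?_ hx hy)
    fun g => (hf g).fc
  · have : Countable {j // b j = B} := by
      rcases isEmpty_or_nonempty {j // b j = B} with h | ⟨⟨j, rfl⟩⟩
      · infer_instance
      · exact ((b1 j).mono fun k (hk : b k = b j) => hk ▸ Relation.ReflTransGen.refl).to_subtype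
    have : Countable (FreeGroup {j // b j = B}) := inferInstanceAs (Countable (Quot _))
    have : Countable (S B) := by
      simp only [S, ← FreeGroup.range_lift_eq_closure]
      exact (MonoidHom.rangeRestrict_surjective _).countable
    exact hC.hall fun x => (hf x.1).sub
  · rw [eq_top_iff, ← h0, closure_le]
    rintro _ ⟨j, rfl⟩
    exact mem_iSup_of_mem (b j) (subset_closure ⟨⟨j, rfl⟩, rfl⟩)
  · rintro _ ⟨⟨j, rfl⟩, rfl⟩ _ ⟨⟨k, rfl⟩, rfl⟩
    exact h3 j k fun h' => h (b2 j k h')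

def Sz (s : ℕ) (g : G) : Prop :=
  ∃ E : Subgroup G, E.Normal ∧ g ∈ E ∧ ∃ f : Fin s → G, ∀ x ∈ E, ∃ k, f k = x

theorem FinN.sz {g : G} (h : FinN g) : ∃ s, Sz s g := by
  obtain ⟨E, h1, h2, h3⟩ := h
  have := h2.to_subtype
  obtain ⟨s, ⟨e⟩⟩ := Finite.exists_equiv_fin (E : Set G)
  exact ⟨s, E, h1, h3, fun k => e.symm k, fun x hx => ⟨e ⟨x, hx⟩, by simp⟩⟩

theorem Sz.div {s t : ℕ} {a b : G} (ha : Sz s a) (hb : Sz t b) : Sz (s * t) (a * b⁻¹) := by
  obtain ⟨E, h1, h2, f, h3⟩ := ha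
  obtain ⟨E', h1', h2', f', h3'⟩ := hb
  refine ⟨E ⊔ E', inferInstance, mul_mem_sup h2 (inv_mem h2'),
    fun k => f (finProdFinEquiv.symm k).1 * f' (finProdFinEquiv.symm k).2, fun x hx => ?_⟩
  rw [← SetLike.mem_coe, normal_mul] at hx
  obtain ⟨x, hx, y, hy, rfl⟩ := hx
  obtain ⟨k, rfl⟩ := h3 x hx
  obtain ⟨l, rfl⟩ := h3' y hy
  exact ⟨finProdFinEquiv (k, l), by simp⟩

theorem germ_fin {D : Type} (U : Ultrafilter D) {s : ℕ} {x : D → G} (h : ∀ d, Sz s (x d)) :
    FinN (Germ.coeMulHom (U : Filter D) x) := by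
  choose E h1 h2 f h3 using h
  have hE : (Subgroup.pi Set.univ E).Normal :=
    ⟨fun y hy g d _ => (h1 d).conj_mem _ (hy d trivial) _⟩
  refine ⟨(Subgroup.pi Set.univ E).map (Germ.coeMulHom (U : Filter D)),
    hE.map _ Quotient.mk''_surjective,
    (Set.finite_range fun k => Germ.coeMulHom (U : Filter D) fun d => f d k).subset ?_,
    mem_map_of_mem _ fun d _ => h2 d⟩
  rintro _ ⟨y, hy, rfl⟩
  obtain ⟨k, hk⟩ := (Ultrafilter.eventually_exists_iff (f := U) (P := fun k d => f d k = y d)).mp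
    (Eventually.of_forall fun d => h3 d _ (hy d trivial))
  exact ⟨k, Germ.coe_eq.mpr hk⟩

theorem germ_cent {D : Type} (U : Filter D) {x : D → G} (h : ∀ᶠ d in U, x d ∈ center G) :
    Germ.coeMulHom U x ∈ center (Germ U G) := by
  refine mem_center_iff.mpr fun q => ?_
  induction q using Germ.inductionOn with
  | h y => exact Germ.coe_eq.mpr (h.mono fun d hd => mem_center_iff.mp hd (y d))

section Lim

variable {ι : Type} (Y : ι → Subgroup G)

def LimS (s : ℕ) (g : G) (ρ : Set ι) : Prop := ∀ τ : Set ι, τ.Finite →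
  ∃ g', Sz s g' ∧ ag Y ρ g' g ∧ ∀ i ∈ τ, i ∉ ρ → g' ∈ Y i

def Lim (g : G) (ρ : Set ι) : Prop := ∃ s, LimS Y s g ρ

def Atom (r : Set ι → Set G) (p : G × Set ι) : Prop := p.2.Finite ∧ p.1 ∈ r p.2 ∧
  p.2.Nonempty ∧ Lim Y p.1 p.2 ∧ ∀ ρ ⊆ p.2, ρ.Nonempty → Lim Y p.1 ρ → ρ = p.2

variable {Y}

theorem Lim.congr {g r : G} {ρ : Set ι} (h : Lim Y g ρ) (e : ag Y ρ g r) : Lim Y r ρ := by
  obtain ⟨s, h⟩ := h
  refine ⟨s, fun τ hτ => ?_⟩
  obtain ⟨g', h1, h2, h3⟩ := h τ hτ
  exact ⟨g', h1, h2.trans e, h3⟩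

theorem Lim.diff (hn : ∀ i, (Y i).Normal) {g : G} {ρ ρ' : Set ι} (hρ : ρ.Finite) (h : Lim Y g ρ)
    (h' : Lim Y g ρ') (e : ρ' ⊆ ρ) : Lim Y g (ρ \ ρ') := by
  obtain ⟨s, h⟩ := h
  obtain ⟨t, h'⟩ := h'
  refine ⟨s * t, fun τ hτ => ?_⟩
  obtain ⟨a, a1, a2, a3⟩ := h τ hτ
  obtain ⟨b, b1, b2, b3⟩ := h' (τ ∪ ρ) (hτ.union hρ)
  refine ⟨a * b⁻¹, a1.div b1, fun i hi => ?_, fun i hi hi' => ?_⟩
  · rw [mul_inv_rev, inv_inv, mul_assoc]
    exact mul_mem (b3 i (Or.inr hi.1) hi.2) (a2 i hi.1)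
  · by_cases h1 : i ∈ ρ'
    · refine (hn i).mem_comm ?_
      simpa [mul_assoc] using mul_mem (b2 i h1) (inv_mem (a2 i (e h1)))
    · exact mul_mem (a3 i hi fun h2 => hi' ⟨h2, h1⟩) (inv_mem (b3 i (Or.inl hi) h1))

theorem atom_count {r : Set ι → Set G} (r1 : ∀ ρ, (r ρ).Finite)
    (r2 : ∀ ρ : Set ι, ρ.Finite → ∀ q, ∃ x ∈ r ρ, ag Y ρ x q) (i : ι) :
    {p | Atom Y r p ∧ i ∈ p.2}.Countable := by
  have key : ∀ s m : ℕ, {p | (Atom Y r p ∧ i ∈ p.2) ∧ LimS Y s p.1 p.2 ∧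
      ∃ f : Fin m → ι, ∀ j ∈ p.2, ∃ k, f k = j}.Finite := by
    intro s m
    by_contra hc
    have := Set.Infinite.to_subtype hc
    generalize hT : {p | (Atom Y r p ∧ i ∈ p.2) ∧ LimS Y s p.1 p.2 ∧
      ∃ f : Fin m → ι, ∀ j ∈ p.2, ∃ k, f k = j} = T at this
    have hm : ∀ y : T, (Atom Y r y.1 ∧ i ∈ y.1.2) ∧ LimS Y s y.1.1 y.1.2 ∧
      ∃ f : Fin m → ι, ∀ j ∈ y.1.2, ∃ k, f k = j := fun y => by subst hT; exact y.2
    choose f hf using fun y => (hm y).2.2
    let ρ : Set ι := {j | ∀ᶠ y : T in ↑(hyperfilter T), j ∈ y.1.2}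
    have h1 : ρ.Finite := by
      refine (Set.finite_iUnion fun k : Fin m => Set.Subsingleton.finite
        (s := {j | ∀ᶠ y : T in ↑(hyperfilter T), f y k = j}) fun a ha b hb => ?_).subset fun j hj => ?_
      · obtain ⟨y, h1, h2⟩ := (Eventually.and ha hb).exists
        exact h1.symm.trans h2
      · exact Set.mem_iUnion.mpr (Ultrafilter.eventually_exists_iff.mp
          (Eventually.mono hj fun y hy => hf y j hy))
    obtain ⟨x, x1, x2⟩ := (Ultrafilter.eventually_exists_mem_iff (f := hyperfilter T)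
      (P := fun x y => ag Y ρ x y.1.1) (r1 ρ)).mp (Eventually.of_forall fun y => r2 ρ h1 _)
    have h2 : ∀ᶠ y : T in ↑(hyperfilter T), ∀ j ∈ ρ, j ∈ y.1.2 :=
      (eventually_all_finite h1).mpr fun j hj => hj
    have h3 : Lim Y x ρ := by
      refine ⟨s, fun τ hτ => ?_⟩
      have h4 : ∀ᶠ y : T in ↑(hyperfilter T), ∀ j ∈ τ, j ∉ ρ → j ∉ y.1.2 :=
        (eventually_all_finite hτ).mpr fun j _ => by
          by_cases h : j ∈ ρ
          · exact Eventually.of_forall fun _ h' => absurd h h'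
          · exact (Ultrafilter.eventually_not.mpr h).mono fun _ h' _ => h'
      obtain ⟨y, y1, y2, y3⟩ := (x2.and (h2.and h4)).exists
      obtain ⟨g, g1, g2, g3⟩ := (hm y).2.1 τ hτ
      exact ⟨g, g1, ag.trans (fun j hj => g2 j (y2 j hj)) y1.symm,
        fun j hj hj' => g3 j hj (y3 j hj hj')⟩
    refine (((r1 ρ).prod (Set.finite_singleton ρ)).preimage (f := (Subtype.val : T → _))
      Subtype.val_injective.injOn).notMem_hyperfilter ((x2.and h2).mono fun y hy => ?_)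
    obtain ⟨-, a2, -, -, a5⟩ := (hm y).1.1
    have := a5 ρ hy.2 ⟨i, Eventually.of_forall fun y => (hm y).1.2⟩ (h3.congr hy.1)
    exact ⟨this ▸ a2, this.symm⟩
  refine (Set.countable_iUnion fun s => Set.countable_iUnion fun m => (key s m).countable).mono ?_
  rintro p ⟨h1, h2⟩
  obtain ⟨s, hs⟩ := h1.2.2.2.1
  have := h1.1.to_subtype
  obtain ⟨m, ⟨e⟩⟩ := Finite.exists_equiv_fin p.2
  exact Set.mem_iUnion₂.mpr ⟨s, m, ⟨h1, h2⟩, hs, fun k => e.symm k,
    fun j hj => ⟨e ⟨j, hj⟩, by simp⟩⟩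

theorem ex_e (hs : ∀ g, (supp Y g).Finite) {A : Type} (g : A → G) (ρ : A → Set ι) (sz : A → ℕ)
    (h0 : ∀ y, (ρ y).Finite) (h : ∀ y, LimS Y (sz y) (g y) (ρ y)) (Θ : Finset A) :
    ∀ τ : Set ι, τ.Finite → ∃ e : A → G, (∀ y, Sz (sz y) (e y)) ∧
      (∀ y ∈ Θ, ag Y (ρ y) (e y) (g y) ∧ ∀ i ∈ τ, i ∉ ρ y → e y ∈ Y i) ∧
      ∀ y ∈ Θ, ∀ y' ∈ Θ, y ≠ y' → ∀ i, i ∉ ρ y → e y ∈ Y i ∨ e y' ∈ Y i := by
  classical
  induction Θ using Finset.induction_on with
  | empty =>
    intro τ hτ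
    choose e he using fun y => h y τ hτ
    exact ⟨e, fun y => (he y).1, by simp, by simp⟩
  | insert z Θ hz ih =>
    intro τ hτ
    obtain ⟨e, e1, e2, e3⟩ := ih (τ ∪ ρ z) (hτ.union (h0 z))
    obtain ⟨w, w1, w2, w3⟩ := h z (τ ∪ ⋃ y ∈ (Θ : Set A), supp Y (e y))
      (hτ.union (Θ.finite_toSet.biUnion fun y _ => hs _))
    have u : ∀ y ∈ Θ, Function.update e z w y = e y := fun y hy =>
      Function.update_of_ne (by rintro rfl; exact hz hy) _ _
    refine ⟨Function.update e z w, fun y => ?_, fun y hy => ?_, fun y hy y' hy' hne i hi => ?_⟩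
    · by_cases h1 : y = z
      · subst h1; rwa [Function.update_self]
      · rw [Function.update_of_ne h1]; exact e1 y
    · rcases Finset.mem_insert.mp hy with rfl | hy
      · rw [Function.update_self]
        exact ⟨w2, fun i hi => w3 i (Or.inl hi)⟩
      · rw [u y hy]
        exact ⟨(e2 y hy).1, fun i hi => (e2 y hy).2 i (Or.inl hi)⟩
    · have k : ∀ y ∈ Θ, i ∉ ρ z → w ∈ Y i ∨ e y ∈ Y i := fun y hy hi => by
        by_cases h1 : e y ∈ Y i
        · exact Or.inr h1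
        · exact Or.inl (w3 i (Or.inr (Set.mem_biUnion hy h1)) hi)
      rcases Finset.mem_insert.mp hy with rfl | hy1 <;>
        rcases Finset.mem_insert.mp hy' with rfl | hy2
      · exact absurd rfl hne
      · rw [Function.update_self, u y' hy2]; exact k y' hy2 hi
      · rw [Function.update_self, u y hy1]
        by_cases h1 : i ∈ ρ y'
        · exact Or.inl ((e2 y hy1).2 i (Or.inr h1) hi)
        · exact (k y hy1 h1).symm
      · rw [u y hy1, u y' hy2]; exact e3 y hy1 y' hy2 hne i hi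

end Lim

theorem supports (h : ∀ g : G, FinN g) : ∃ (ι : Type) (N : ι → Subgroup G), (∀ i, FN (N i)) ∧
    (∀ g, {i | g ∉ Z (N i)}.Finite) ∧ ∀ x a : G, (∀ i, ⁅x, a⁆ ∈ N i) → ⁅x, a⁆ ∈ center G := by
  have hfc := fun g => (h g).fc
  let π := QuotientGroup.mk' (center G)
  have hπ : Function.Surjective π := QuotientGroup.mk'_surjective _
  obtain ⟨𝓜, m1, m2, m3⟩ := exists_family (Twist.dietzmann (FCDer.tors hfc)
    (FCDer.fc_map hπ hfc)) (fun q hq => by
    obtain ⟨g, rfl⟩ := hπ q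
    obtain ⟨x, hx⟩ := not_forall.mp fun h =>
      hq ((QuotientGroup.eq_one_iff g).mpr (mem_center_iff.mpr h))
    have := FCDer.fn_map hπ (FCDer.CC_fn hfc x)
    exact ⟨_, this.1, this.2, fun h => hx (FCDer.CC_comm (FCDer.map_CC.mp h)).symm⟩)
  refine ⟨𝓜, fun N => N.1.comap π, fun N => ?_, fun g => ?_, fun x a hx => ?_⟩
  · obtain ⟨h2, h3⟩ := m1 N.1 N.2
    exact ⟨inferInstance, ⟨by rw [index_comap_of_surjective _ hπ]; exact h3.index_ne_zero⟩⟩
  · refine ((m3 (π g)).preimage Subtype.val_injective.injOn).subset fun N hN =>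
      ⟨N.2, fun h1 => hN fun y => ?_⟩
    change π _ ∈ N.1
    rw [map_commutatorElement]
    exact h1 _
  · rw [← QuotientGroup.eq_one_iff, ← QuotientGroup.mk'_apply]
    refine m2 _ ?_ fun N hN => hx ⟨N, hN⟩
    rw [map_commutatorElement]
    exact commutator_mem_commutator (mem_top _) (mem_top _)

theorem IsVar.ln (hC : IsVar C) (h : ∀ g : G, FinN g) : C G := by
  classical
  obtain ⟨ι, N, n1, hs, hc⟩ := supports h
  let Y : ι → Subgroup G := fun i => Z (N i)
  have hn : ∀ i, (Y i).Normal := fun i => Z_normal (n1 i).1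
  choose r r1 r2 using tr2 (Z := Y) fun i => by
    have := (n1 i).2
    exact finiteIndex_of_le (le_Z (n1 i).1)
  let A := {p // Atom Y r p}
  choose sz hsz using fun y : A => y.2.2.2.2.1
  choose e e1 e2 e3 using fun d : Finset A × Finset ι => ex_e (Y := Y) hs (fun y : A => y.1.1)
    (fun y => y.1.2) sz (fun y => y.2.1) hsz d.1 d.2 d.2.finite_toSet
  let U0 : Ultrafilter (Finset A × Finset ι) := Ultrafilter.of atTop
  let U : Filter (Finset A × Finset ι) := U0
  have hU : ∀ (y y' : A) (τ : Set ι), τ.Finite → ∀ᶠ d in U, y ∈ d.1 ∧ y' ∈ d.1 ∧ τ ⊆ d.2 :=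
    fun y y' τ hτ => Eventually.filter_mono (Ultrafilter.of_le _)
      ((eventually_ge_atTop ({y, y'}, hτ.toFinset)).mono fun d hd =>
        ⟨hd.1 (by simp), hd.1 (by simp), fun i hi => hd.2 (by simpa using hi)⟩)
  have E2 : ∀ (y : A) (τ : Set ι), τ.Finite → ∀ᶠ d in U, ag Y y.1.2 (e d y) y.1.1 ∧
      ∀ i ∈ τ, i ∉ y.1.2 → e d y ∈ Y i := fun y τ hτ => (hU y y τ hτ).mono fun d hd =>
    ⟨(e2 d y hd.1).1, fun i hi => (e2 d y hd.1).2 i (hd.2.2 hi)⟩
  have E3 : ∀ y y' : A, ∀ᶠ d in U, ∀ i, i ∉ y.1.2 → ⁅e d y', e d y⁆ ∈ N i := fun y y' =>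
    (hU y y' ∅ Set.finite_empty).mono fun d hd i hi => by
      by_cases h1 : y = y'
      · subst h1; simp
      · exact (e3 d y hd.1 y' hd.2.1 h1 i hi).elim (fun h => sym (h _)) fun h => h _
  let κ := Germ.coeMulHom (M := G) U
  let ε : A → Germ U G := fun y => κ fun d => e d y
  let cst : G →* Germ U G := κ.comp (Pi.constMonoidHom _ G)
  have hκ : ∀ x a : Finset A × Finset ι → G, (∀ᶠ d in U, ∀ i, ⁅x d, a d⁆ ∈ N i) →
      ⁅κ x, κ a⁆ ∈ center _ := fun x a h => by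
    rw [← map_commutatorElement]
    exact germ_cent _ (h.mono fun d hd => hc _ _ hd)
  have dec : ∀ (g : G) (n : ℕ) (ρ : Set ι), ρ.Finite → ρ.ncard = n → Lim Y g ρ →
      ∃ w, κ w ∈ closure (Set.range ε) ∧ (∀ᶠ d in U, ag Y ρ (w d) g) ∧
        (∀ τ : Set ι, τ.Finite → ∀ᶠ d in U, ∀ i ∈ τ, i ∉ ρ → w d ∈ Y i) ∧
        ∀ y, ∀ᶠ d in U, ∀ i, i ∉ ρ → ⁅e d y, w d⁆ ∈ N i := by
    intro g n
    induction n using Nat.strong_induction_on with
    | _ n ih =>
      rintro ρ hρ rfl hl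
      rcases ρ.eq_empty_or_nonempty with rfl | hne
      · exact ⟨1, by simp, Eventually.of_forall fun d i hi => hi.elim,
          fun τ _ => Eventually.of_forall fun d i _ _ => one_mem _,
          fun y => Eventually.of_forall fun d i _ => by simp⟩
      obtain ⟨σ, ⟨s1, s2, s3⟩, s4⟩ := exists_minimalFor_of_wellFoundedLT
        (fun σ : Set ι => σ ⊆ ρ ∧ σ.Nonempty ∧ Lim Y g σ) Set.ncard ⟨ρ, Set.Subset.rfl, hne, hl⟩
      have s5 := hρ.subset s1
      obtain ⟨x, x1, x2⟩ := r2 σ s5 g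
      let y : A := ⟨(x, σ), s5, x1, s2, s3.congr x2.symm, fun σ' t1 t2 t3 =>
        Set.eq_of_subset_of_ncard_le t1 (s4 ⟨t1.trans s1, t2, t3.congr fun i hi => x2 i (t1 hi)⟩
          (Set.ncard_le_ncard t1 s5)) s5⟩
      obtain ⟨w, w1, w2, w3, w4⟩ := ih _ (Set.ncard_lt_ncard
        (Set.sdiff_ssubset_left_iff.mpr (by rwa [Set.inter_eq_right.mpr s1])) hρ) (ρ \ σ)
        (hρ.subset Set.sdiff_subset) rfl (hl.diff hn hρ s3 s1)
      refine ⟨(fun d => e d y) * w, ?_, ?_, fun τ hτ => ?_, fun y' => ?_⟩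
      · rw [map_mul]; exact mul_mem (subset_closure ⟨y, rfl⟩) w1
      · filter_upwards [w2, w3 σ s5, E2 y ρ hρ] with d d1 d2 d3 i hi
        rw [Pi.mul_apply, mul_inv_rev, mul_assoc]
        by_cases h1 : i ∈ σ
        · exact mul_mem (inv_mem (d2 i h1 fun h => h.2 h1)) ((d3.1.trans x2) i h1)
        · simpa [mul_assoc] using mul_mem ((hn i).conj_mem _ (inv_mem (d3.2 i hi h1)) (w d)⁻¹)
            (d1 i ⟨hi, h1⟩)
      · filter_upwards [w3 τ hτ, E2 y τ hτ] with d d1 d2 i hi hi'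
        exact mul_mem (d2.2 i hi fun h => hi' (s1 h)) (d1 i hi fun h => hi' h.1)
      · filter_upwards [w4 y', E3 y y'] with d d1 d2 i hi
        exact (Cm (N i) (n1 i).1 (e d y')).mul_mem (d2 i fun h => hi (s1 h)) (d1 i fun h => hi h.1)
  let L := closure (Set.range cst ∪ Set.range ε)
  have hL : ∀ x : L, FinN x := by
    rintro ⟨x, hx⟩
    refine FinN.sub ?_
    induction hx using closure_induction with
    | mem x hx =>
      rcases hx with ⟨g, rfl⟩ | ⟨y, rfl⟩
      · obtain ⟨s, hs⟩ := (h g).sz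
        exact germ_fin U0 fun _ => hs
      · exact germ_fin U0 fun d => e1 d y
    | one => exact ⟨⊥, inferInstance, by simp, one_mem _⟩
    | mul x y _ _ hx hy =>
      obtain ⟨E, a1, a2, a3⟩ := hx
      obtain ⟨E', b1, b2, b3⟩ := hy
      exact ⟨E ⊔ E', inferInstance, fin_sup a1 a2 b2, mul_mem_sup a3 b3⟩
    | inv x _ hx =>
      obtain ⟨E, a1, a2, a3⟩ := hx
      exact ⟨E, a1, a2, inv_mem a3⟩
  have hz : ∀ a b : L, ⁅a.1, b.1⁆ ∈ center _ → ⁅a, b⁆ ∈ center L := fun a b h =>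
    mem_center_iff.mpr fun q => Subtype.ext (mem_center_iff.mp h q.1)
  let a : A ⊕ {u : L // ∀ v : L, ⁅u, v⁆ ∈ center L} → L :=
    Sum.elim (fun y => ⟨ε y, subset_closure (Or.inr ⟨y, rfl⟩)⟩) Subtype.val
  have hCL : C L := by
    refine hC.gens hL a ?_ (fun j k => ∃ y y', j = .inl y ∧ k = .inl y' ∧ ∃ i ∈ y.1.2, i ∈ y'.1.2)
      ?_ ?_ ?_
    · have k1 : ∀ y, ε y ∈ (closure (Set.range a)).map L.subtype := fun y =>
        ⟨_, subset_closure ⟨.inl y, rfl⟩, rfl⟩
      refine map_injective L.subtype_injective (le_antisymm (map_mono le_top) ?_)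
      rw [← MonoidHom.range_eq_map, range_subtype, closure_le]
      rintro _ (⟨g, rfl⟩ | ⟨y, rfl⟩)
      · obtain ⟨s, hs'⟩ := (h g).sz
        obtain ⟨w, w1, w2, w3, w4⟩ := dec g _ (supp Y g) (hs g) rfl ⟨s, fun τ _ =>
          ⟨g, hs', fun i _ => by simp, fun i _ hi => not_not.mp hi⟩⟩
        have w5 : κ w ∈ L := closure_mono Set.subset_union_right w1
        have w6 : κ w ∈ (closure (Set.range a)).map L.subtype :=
          (closure_le _).mpr (by rintro _ ⟨y, rfl⟩; exact k1 y) w1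
        have w7 : cst g * (κ w)⁻¹ ∈ L := mul_mem (subset_closure (Or.inl ⟨g, rfl⟩)) (inv_mem w5)
        have w8 : ∀ v : Finset A × Finset ι → G, (∀ᶠ d in U, ∀ i, i ∉ supp Y g →
            ⁅v d, w d⁆ ∈ N i) → ⁅cst g * (κ w)⁻¹, κ v⁆ ∈ center _ := by
          intro v hv
          rw [show cst g * (κ w)⁻¹ = κ fun d => g * (w d)⁻¹ from rfl]
          refine hκ _ _ ?_
          filter_upwards [hv, w2] with d d1 d2 i
          by_cases h1 : i ∈ supp Y g
          · exact (hn i).mem_comm (d2 i h1) _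
          · exact sym ((Cm (N i) (n1 i).1 (v d)).mul_mem (sym ((not_not.mp h1) _))
              (inv_mem (d1 i h1)))
        have w9 : ∀ v : L, ⁅(⟨_, w7⟩ : L), v⁆ ∈ center L := fun v => hz _ _
          (clos_comm (s := {cst g * (κ w)⁻¹}) inferInstance (by
            rintro _ rfl _ (⟨g', rfl⟩ | ⟨y, rfl⟩)
            · refine w8 _ ((w3 _ (hs g')).mono fun d hd i hi => ?_)
              by_cases h1 : g' ∈ Y i
              · exact h1 _
              · exact sym (hd i h1 hi _)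
            · exact w8 _ (w4 y)) (subset_closure rfl) v.2)
        have w10 : cst g * (κ w)⁻¹ ∈ (closure (Set.range a)).map L.subtype :=
          mem_map_of_mem L.subtype (subset_closure (k := Set.range a) ⟨.inr ⟨_, w9⟩, rfl⟩)
        have := mul_mem w10 w6
        rwa [inv_mul_cancel_right] at this
      · exact k1 y
    · rintro _ _ ⟨y, y', rfl, rfl, i, h1, h2⟩
      exact ⟨y', y, rfl, rfl, i, h2, h1⟩
    · rintro (y | u)
      · refine ((y.2.1.countable.biUnion fun i _ => (atom_count (Y := Y) r1 r2 i).preimage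
          (f := (Subtype.val : A → _)) Subtype.val_injective).image Sum.inl).mono ?_
        rintro _ ⟨y, y', ⟨rfl⟩, rfl, i, h1, h2⟩
        exact ⟨y', Set.mem_biUnion h1 ⟨y'.2, h2⟩, rfl⟩
      · simp
    · rintro (y | u) (y' | u') h1
      · refine hz _ _ (hκ _ _ ?_)
        filter_upwards [E3 y y', E3 y' y] with d d1 d2 i
        by_cases h2 : i ∈ y.1.2
        · exact d2 i fun h3 => h1 ⟨y, y', rfl, rfl, i, h2, h3⟩
        · exact sym (d1 i h2)
      · exact sym (u'.2 _)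
      · exact u.2 _
      · exact u.2 _
  exact hC.top (hC.sect hCL (cst.codRestrict L fun g => subset_closure (Or.inl ⟨g, rfl⟩))
    (MonoidHom.id G) fun g hg => Germ.const_inj.mp (congrArg Subtype.val hg))
    (eq_top_iff.mpr fun g _ => ⟨g, rfl⟩)

theorem cent_tors (hfc : ∀ g : G, {h : G | IsConj g h}.Finite) {z : G}
    (hz : z ∈ _root_.commutator G) (hc : z ∈ center G) : ∃ n, 0 < n ∧ z ^ n = 1 := by
  have : ∃ s : Set G, s.Finite ∧ z ∈ ⁅closure s, closure s⁆ := by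
    clear hc
    rw [commutator_eq_closure] at hz
    induction hz using closure_induction with
    | mem x hx =>
      obtain ⟨a, b, rfl⟩ := hx
      exact ⟨{a, b}, Set.toFinite _, commutator_mem_commutator (subset_closure (by simp))
        (subset_closure (by simp))⟩
    | one => exact ⟨∅, Set.finite_empty, one_mem _⟩
    | mul x y _ _ hx hy =>
      obtain ⟨s, s1, s2⟩ := hx
      obtain ⟨t, t1, t2⟩ := hy
      exact ⟨s ∪ t, s1.union t1, mul_mem (commutator_mono (closure_mono Set.subset_union_left)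
        (closure_mono Set.subset_union_left) s2) (commutator_mono
        (closure_mono Set.subset_union_right) (closure_mono Set.subset_union_right) t2)⟩
    | inv x _ hx =>
      obtain ⟨s, s1, s2⟩ := hx
      exact ⟨s, s1, inv_mem s2⟩
  obtain ⟨s, s1, s2⟩ := this
  rw [← map_subtype_commutator] at s2
  obtain ⟨x, x1, rfl⟩ := s2
  have := s1.to_subtype
  have : (⨅ a : s, centralizer {a.1}).FiniteIndex := finiteIndex_iInf fun a => FCDer.cent_fi hfc a.1
  have : (center (closure s)).FiniteIndex := by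
    refine finiteIndex_of_le (H := (⨅ a : s, centralizer {a.1}).subgroupOf (closure s))
      fun y hy => mem_center_iff.mpr fun q => Subtype.ext ?_
    have : closure s ≤ centralizer {y.1} := (closure_le _).mpr fun a ha =>
      mem_centralizer_singleton_iff.mpr
        (mem_centralizer_singleton_iff.mp (mem_iInf.mp (mem_subgroupOf.mp hy) ⟨a, ha⟩)).symm
    exact mem_centralizer_singleton_iff.mp (this q.2)
  refine ⟨_, Nat.pos_of_ne_zero (FiniteIndex.index_ne_zero (H := center (closure s))), ?_⟩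
  have h1 := Abelianization.commutator_subset_ker (MonoidHom.transferCenterPow (closure s)) x1
  have h2 : x ^ (center (closure s)).index = 1 := congrArg Subtype.val h1
  rw [← map_pow, h2, map_one]

theorem IsVar.main (hC : IsVar C) (hfc : ∀ g : G, {h : G | IsConj g h}.Finite) : C G := by
  obtain ⟨M, -, hM⟩ := zorn_le_nonempty₀
    {M : Subgroup G | M ≤ center G ∧ ∀ z ∈ M, ∀ n, 0 < n → z ^ n = 1 → z = 1}
    (fun c hc hch y hy => ⟨sSup c, ⟨sSup_le fun M hM => (hc hM).1, fun z hz => by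
      obtain ⟨M, h1, h2⟩ := (mem_sSup_of_directedOn ⟨y, hy⟩ hch.directedOn).mp hz
      exact (hc h1).2 z h2⟩, fun z hz => le_sSup hz⟩) ⊥ ⟨bot_le, fun z hz _ _ _ => hz⟩
  have hn : M.Normal := ⟨fun x hx g => by
    rwa [mem_center_iff.mp (hM.prop.1 hx) g, mul_inv_cancel_right]⟩
  have ht : Monoid.IsTorsion (G ⧸ M) := by
    intro q
    obtain ⟨g, rfl⟩ := QuotientGroup.mk_surjective q
    obtain ⟨n, n1, n2⟩ := isOfFinOrder_iff_pow_eq_one.mp (FCDer.tors hfc (g : G ⧸ center G))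
    rw [← QuotientGroup.mk_pow, QuotientGroup.eq_one_iff] at n2
    refine IsOfFinOrder.of_pow ?_ n1.ne'
    rw [← QuotientGroup.mk_pow]
    generalize g ^ n = z at n2
    by_contra hc
    have h1 : M ⊔ zpowers z ≤ M := by
      refine hM.le_of_ge ⟨sup_le hM.prop.1 (zpowers_le.mpr n2), fun x hx m hm h => ?_⟩ le_sup_left
      rw [← SetLike.mem_coe, normal_mul] at hx
      obtain ⟨y, hy, _, ⟨k, rfl⟩, rfl⟩ := hx
      have h2 := congrArg (QuotientGroup.mk' M) h
      rw [map_pow, map_mul, QuotientGroup.mk'_apply, (QuotientGroup.eq_one_iff y).mpr hy, one_mul,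
        map_zpow, map_one, ← zpow_natCast, ← zpow_mul] at h2
      have h3 : k * m = 0 := by_contra fun h3 =>
        hc (isOfFinOrder_iff_zpow_eq_one.mpr ⟨_, h3, h2⟩)
      obtain rfl : k = 0 := by simpa [hm.ne'] using h3
      exact hM.prop.2 _ (by simpa using hy) m hm h
    exact hc ((QuotientGroup.eq_one_iff z).mpr (h1 (mem_sup_right (mem_zpowers z))) ▸
      IsOfFinOrder.one)
  have h1 : C (G ⧸ M) := hC.ln fun g => by
    obtain ⟨E, e1, e2, e3⟩ := Twist.dietzmann ht (FCDer.fc_map (QuotientGroup.mk'_surjective M) hfc)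
      {g} (Set.finite_singleton g)
    exact ⟨E, e1, e2, e3 rfl⟩
  refine hC.top (hC.fam (J := Unit) (hC.comm mul_comm) (fun _ => h1) Abelianization.of
    (fun _ => QuotientGroup.mk' M) (MonoidHom.id G) (fun _ => Set.toFinite _) fun w w1 w2 => ?_)
    (eq_top_iff.mpr fun g _ => ⟨g, rfl⟩)
  have h2 : w ∈ M := (QuotientGroup.eq_one_iff w).mp (w2 ())
  obtain ⟨n, n1, n2⟩ := cent_tors hfc (by rw [← Abelianization.ker_of]; exact w1) (hM.prop.1 h2)
  exact hM.prop.2 w h2 n n1 n2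

theorem final :
    ∀ C : (∀ (G : Type) [Group G], Prop),
      (∀ (G H : Type) [Group G] [Group H], (G ≃* H) → C G → C H) →
      (∀ (G : Type) [Group G] (H : Subgroup G), C G → C ↥H) →
      (∀ (G : Type) [Group G] (N : Subgroup G) [N.Normal], C G → C (G ⧸ N)) →
      (∀ (ι : Type) [DecidableEq ι] (G : ι → Type) [∀ i, Group (G i)],
        (∀ i, C (G i)) → C ↥(⨆ i, (MonoidHom.mulSingle G i).range)) →
      (∀ (G : Type) [Group G], Finite ↥(_root_.commutator G) → C G) →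
      (∀ (G : Type) [Group G], (∀ g : G, {h : G | IsConj g h}.Finite) →
        (∃ p : ℕ, p.Prime ∧
          Nonempty (↥(_root_.commutator G) ≃* ↥(⨆ n : ℕ, rootsOfUnity (p ^ n) ℂ))) → C G) →
      ∀ (G : Type) [Group G], (∀ g : G, {h : G | IsConj g h}.Finite) → C G :=
  fun _ h1 h2 h3 h4 h5 h6 _ _ hfc => IsVar.main ⟨h1, h2, h3, h4, h5, h6⟩ hfc

end Pool.Agent.H73.Var
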